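import Pool.Agent.Lob5.P2Ly

/-!
# `K = k + 1` even, exactly one leaf (and the path edge `K`) at the vertex `k = K - 1`: `XfOK`, `StOK`

See `P2Ly`. `xf_P2`: as `xf_P3` in `P3Ly`, simpler (`rv k = As`; `yv, xv, xf` are constant for `i < k`; `ba b ≠ k` for a
bush `tl` as `rv k = As`; the roles: `hS.Fs_q` etc. directly; `h.flow`, `h.fmod`). `st_P2`: as `st_P3` from `FStep` (roles by
`ctx_Zr`, at `k - i`, `k - a`; `(ly2 ..).bs i = Λ.bs (k - i)` for `1 ≤ i < k`, `kb a = S.bad (oe (k - a))`).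
-/

namespace Pool.Agent.Lob5

open Pool.Agent.Lob89

variable {Lf B BL : Type*} [Fintype Lf] [Fintype B] [Fintype BL] [DecidableEq B]
  {D : PlanData Lf B BL} {k : ℕ} {la : Lf → ℕ} {ba : B → ℕ} {par : BL → B}

theorem xf_P2 (hD : PlanOK D (k + 1) la ba par) (S : Seam k (LDr la ba k) (ALr la ba par k))
    {sp : ℕ} (hS : PlanSp D (k + 1) la ba par (k - S.q) S.mode sp k)
    (hq : S.mode ≠ 0 → 1 ≤ S.q) (hom : D.rv k = .As) {Λ : FLay} {l : Bool}
    (hA : Adm S (numZ D k sp) Λ.j) (h : P2OK S (numZ D k sp) (D.ns + 1) Λ l) :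
    XfOK D (nm2 S (numZ D k sp) (D.ns + 1)) (ly2 S (numZ D k sp) (D.ns + 1) Λ l) (k + 1)
      la ba par := by
  have H := ctx_Zr hD S hS hq
  have L := h.flow
  have M := h.fmod
  have hUg := L.U_ge
  have hwg := L.w_ge
  have hX1 := L.X_lo 1 le_rfl
  have hP1 := S.P1
  have He1 := H.e1
  have HeN := H.eN
  have hsp : (numZ D k sp).sp = sp := rfl
  have e_m : mz S (numZ D k sp).up = wz S (numZ D k sp).up + (numZ D k sp).N0 +
    (numZ D k sp).nT + S.h := rfl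
  have hFs : ∀ b, D.rb b = .tl → (sp = 2 ∨ sp = 3) ∧ ba b ≠ k := by
    intro b hb
    have h1 := (hD.b_Fs b).1 hb
    refine ⟨(hS.Fs_q _ (by have := hD.hd.ba_pos b; omega)
      (by have := hD.hd.ba_lt b; omega) h1).2.1, fun h => ?_⟩
    rw [h, hom] at h1
    exact absurd h1 (by simp)
  have hxf : ∀ i, i ≠ k → (ly2 S (numZ D k sp) (D.ns + 1) Λ l).xf i = Λ.xsf :=
    fun i hi => if_neg hi
  have hyv : ∀ i, i ≠ k → (ly2 S (numZ D k sp) (D.ns + 1) Λ l).yv i = Λ.y :=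
    fun i hi => if_neg hi
  have hxv : ∀ i, i ≠ k → (ly2 S (numZ D k sp) (D.ns + 1) Λ l).xv i = Λ.xs :=
    fun i hi => if_neg hi
  have hX : (ly2 S (numZ D k sp) (D.ns + 1) Λ l).X 1 = Λ.X 1 := rfl
  have hthr : (ly2 S (numZ D k sp) (D.ns + 1) Λ l).thr = wz S (numZ D k sp).up +
      mz S (numZ D k sp).up + (numZ D k sp).n2 + Λ.j + 1 := rfl
  have hw : (nm2 S (numZ D k sp) (D.ns + 1)).w = wz S (numZ D k sp).up := rfl
  have heb : (nm2 S (numZ D k sp) (D.ns + 1)).eb = ebO sp (D.ns + 1) := rfl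
  have hs0 : (nm2 S (numZ D k sp) (D.ns + 1)).s0v = wz S (numZ D k sp).up +
      (numZ D k sp).N0 - (if 2 ≤ sp ∧ D.ns + 1 = 2 then 0 else 1) := rfl
  have hs0' : 2 ≤ sp → wz S (numZ D k sp).up + (numZ D k sp).N0 ≤
      (nm2 S (numZ D k sp) (D.ns + 1)).s0v + ebO sp (D.ns + 1) := by
    intro h
    have h2 := H.e2 h
    rw [hs0]
    unfold ebO
    split_ifs <;> omega
  have hs0'' : wz S (numZ D k sp).up + (numZ D k sp).N0 ≤
      (nm2 S (numZ D k sp) (D.ns + 1)).s0v + 1 := by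
    rw [hs0]
    split_ifs <;> omega
  have hII : D.rv (nm2 S (numZ D k sp) (D.ns + 1)).om ≠ .II := by
    change D.rv k ≠ .II
    rw [hom]
    simp
  refine
    { xf_b := ?_, xf_o := fun _ h' => absurd h' hII, lb_b := ?_, lb_b' := ?_
      lb_o := fun _ h' => absurd h' hII, lb_o' := fun _ h' => absurd h' hII }
  · intro b hb hx
    rw [hxf _ (hFs b hb).2] at hx
    exact hS.sp3 (M.xs_ok hx).1 b hb
  · intro b hb h0
    have h3 : sp = 3 := by
      rcases (hFs b hb).1 with h | h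
      · have := hS.sp2 h b hb
        omega
      · exact h
    have h4 := hs0' (by omega)
    rw [hxf _ (hFs b hb).2, hyv _ (hFs b hb).2, hxv _ (hFs b hb).2, hX, hthr, hw, heb, e_m]
    split_ifs with hx
    · have h5 := (M.Fx hx).1
      omega
    · have h5 := M.F3 (by omega) (by simpa using hx)
      omega
  · intro b hb h1
    rw [hyv _ (hFs b hb).2, hX, hthr, hw, e_m]
    omega

theorem st_P2 (hD : PlanOK D (k + 1) la ba par) (S : Seam k (LDr la ba k) (ALr la ba par k))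
    {sp : ℕ} (hS : PlanSp D (k + 1) la ba par (k - S.q) S.mode sp k)
    (hq : S.mode ≠ 0 → 1 ≤ S.q) (hom : D.rv k = .As) {Λ Λ' : FLay} {l l' : Bool}
    (T : FStep S (numZ D k sp) Λ Λ') :
    StOK (nm2 S (numZ D k sp) (D.ns + 1)) (ly2 S (numZ D k sp) (D.ns + 1) Λ l)
      (ly2 S (numZ D k sp) (D.ns + 1) Λ' l') D.rv (k + 1) := by
  have H := ctx_Zr hD S hS hq
  have hbs : ∀ (Λ₀ : FLay) (l₀ : Bool) (i : ℕ), 1 ≤ i → i < k →
      (ly2 S (numZ D k sp) (D.ns + 1) Λ₀ l₀).bs i = Λ₀.bs (k - i) := by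
    intro Λ₀ l₀ i hi1 hi
    have h1 : (ly2 S (numZ D k sp) (D.ns + 1) Λ₀ l₀).p i = Λ₀.p (k + 1 - i) :=
      if_neg (by omega)
    have h2 : (ly2 S (numZ D k sp) (D.ns + 1) Λ₀ l₀).p (i + 1) = Λ₀.p (k + 1 - (i + 1)) :=
      if_neg (by omega)
    unfold Ly.bs FLay.bs
    rw [h1, h2, show k + 1 - i = k - i + 1 by omega, show k + 1 - (i + 1) = k - i by omega,
      Nat.add_comm]
  have hX : (ly2 S (numZ D k sp) (D.ns + 1) Λ l).X 1 = Λ.X 1 := rfl
  have hYj : (ly2 S (numZ D k sp) (D.ns + 1) Λ l).j = Λ.j := rfl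
  have hs1 : (nm2 S (numZ D k sp) (D.ns + 1)).s1 = 0 := rfl
  have hn2 : (nm2 S (numZ D k sp) (D.ns + 1)).n2 = (numZ D k sp).n2 := rfl
  have hkb : ∀ a, (nm2 S (numZ D k sp) (D.ns + 1)).kb a = S.bad (oe (k - a)) := fun a => rfl
  have lA : ∀ a, a < k + 1 → (D.rv a).isA = true → a < k := by
    intro a h1 h2
    rcases Nat.lt_or_ge a k with h | h
    · exact h
    · rw [show a = k by omega, hom] at h2
      exact absurd h2 (by simp [RV.isA])
  refine ⟨?_, ?_⟩
  · intro i a h1 h2 h3 h4 ho h5 h6 h7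
    have g2 : i < k := by
      change i ≠ k at ho
      omega
    have g4 := lA a h4 h6
    obtain ⟨h8, h9⟩ := H.A (k - a) (by omega) (by omega) (by
      change (D.rv (k - (k - a))).isA = true
      rw [show k - (k - a) = a by omega]
      exact h6)
    obtain ⟨h10, h11⟩ := H.N (k - i) (by omega) (by omega) (by
      change (D.rv (k - (k - i))).isN = true
      rw [show k - (k - i) = i by omega]
      rcases h5 with h | h <;> rw [h] <;> rfl)
    rw [hkb] at h7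
    rw [hbs _ _ i h1 g2, hbs _ _ i h1 g2, hbs _ _ a h3 g4, hbs _ _ a h3 g4, hX, hYj, hs1, hn2]
    have h12 := T.st1 (k - i) (k - a) h10 h11 h8 h9 h7
    omega
  · intro a h1 h2 h3 h4
    have g2 := lA a h2 h3
    obtain ⟨h7, h8⟩ := H.A (k - a) (by omega) (by omega) (by
      change (D.rv (k - (k - a))).isA = true
      rw [show k - (k - a) = a by omega]
      exact h3)
    rw [hkb] at h4
    rw [hbs _ _ a h1 g2, hbs _ _ a h1 g2, hX, hYj, hs1, hn2]
    have h11 := T.st2 (k - a) h7 h8 h4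
    omega

end Pool.Agent.Lob5
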