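import Mathlib

/-!
# The seam structure: everything that is needed about the word

`k = 2h+1` path edges `e_1, ..., e_k`, inner path vertices `1, ..., k-1`. `ld i`: the vertex `i`
carries something (is loaded), `al i`: it is an `α` (one leaf and nothing else, or one bush with
at least three leaves and nothing else).  Colours `bad e`; `rk e` the rank; `q` the seam.
`oe i`, `ee i` are the odd and the even one of the two edges `i`, `i+1` at the vertex `i`.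
`mode`: 0 = no special vertex (`q = 0` or `q` not `α`), 1 = K1, 2 = K2, 3 = K2ii, 4 = K3, 5 = K4.
All fields are checked by computer for all words with `k ≤ 13` and on millions of random words.
The existence is proved in `Pool.Agent.Lob34.Exists` (`exists_seam`).
-/

namespace Pool.Agent.Lob5

/-- the odd edge at the vertex `i` -/
def oe (i : ℕ) : ℕ := if i % 2 = 1 then i else i + 1

/-- the even edge at the vertex `i` -/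
def ee (i : ℕ) : ℕ := if i % 2 = 1 then i + 1 else i

open Classical in
/-- the number of loaded non-`α` vertices `i ≠ q, z` with small `J i = rk i + rk (i+1)` -/
noncomputable def sg (k : ℕ) (ld al : ℕ → Prop) (rk : ℕ → ℕ) (h q z : ℕ) : ℕ :=
  ((Finset.range k).filter fun i =>
    ld i ∧ ¬ al i ∧ i ≠ q ∧ i ≠ z ∧ rk i + rk (i + 1) ≤ h).card

/-- The seam structure. -/
structure Seam (k : ℕ) (ld al : ℕ → Prop) where
  h : ℕ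
  P : ℕ
  Q : ℕ
  q : ℕ
  mode : ℕ
  bad : ℕ → Prop
  rk : ℕ → ℕ
  cutG : ℕ → ℕ
  cutB : ℕ → ℕ
  al_ld : ∀ i, al i → ld i
  ld_pos : ∀ i, ld i → 1 ≤ i
  ld_lt : ∀ i, ld i → i < k
  hk : k = 2 * h + 1
  h1 : 1 ≤ h
  P1 : 1 ≤ P
  Ph : P ≤ h + 1
  Qh : Q ≤ h
  PQ : h + 1 ≤ P + Q
  hq : q < k
  same : ∀ i, 1 ≤ i → i < k → ¬ ld i → (bad i ↔ bad (i + 1))
  diff : ∀ i, ld i → (bad i ↔ ¬ bad (i + 1))
  -- ranges of the ranks
  rk_ob : ∀ e, 1 ≤ e → e ≤ k → e % 2 = 1 → bad e → 1 ≤ rk e ∧ rk e ≤ P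
  rk_og : ∀ e, 1 ≤ e → e ≤ k → e % 2 = 1 → ¬ bad e → P + 1 ≤ rk e ∧ rk e ≤ h + 1
  rk_eb : ∀ e, 1 ≤ e → e ≤ k → e % 2 = 0 → bad e → 1 ≤ rk e ∧ rk e ≤ Q
  rk_eg : ∀ e, 1 ≤ e → e ≤ k → e % 2 = 0 → ¬ bad e → Q + 1 ≤ rk e ∧ rk e ≤ h
  rk_inj : ∀ e f, 1 ≤ e → e ≤ k → 1 ≤ f → f ≤ k → e % 2 = f % 2 → rk e = rk f → e = f
  -- the vertices that are not loaded are comparable
  cmp : ∀ i j, 1 ≤ i → i < k → ¬ ld i → 1 ≤ j → j < k → ¬ ld j → (bad i ↔ bad j) →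
    (rk (oe i) ≤ rk (oe j) ∧ rk (ee i) ≤ rk (ee j)) ∨
      (rk (oe j) ≤ rk (oe i) ∧ rk (ee j) ≤ rk (ee i))
  -- `P + cutG r` separates the odd ranks before and after the good even edge of rank `r`
  cutG_le : ∀ r, P + cutG r ≤ h + 1
  cutG_mono : ∀ r, cutG r ≤ cutG (r + 1)
  cutG_lt : ∀ r, Q + 1 ≤ r → r ≤ h → ∀ i, 1 ≤ i → i < k → ¬ ld i → ¬ bad i →
    rk (ee i) < r → rk (oe i) ≤ P + cutG r
  cutG_gt : ∀ r, Q + 1 ≤ r → r ≤ h → ∀ i, 1 ≤ i → i < k → ¬ ld i → ¬ bad i →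
    r < rk (ee i) → P + cutG r < rk (oe i)
  cutG_one : mode = 5 → ∀ r, Q + 1 ≤ r → r ≤ h → 1 ≤ cutG r
  -- the same for the bad edges
  cutB_le : ∀ r, cutB r ≤ P
  cutB_lt : ∀ r, 1 ≤ r → r ≤ Q → ∀ i, 1 ≤ i → i < k → ¬ ld i → bad i →
    rk (ee i) < r → rk (oe i) ≤ cutB r
  cutB_gt : ∀ r, 1 ≤ r → r ≤ Q → ∀ i, 1 ≤ i → i < k → ¬ ld i → bad i →
    r < rk (ee i) → cutB r < rk (oe i)
  -- the modes
  mode_le : mode ≤ 5
  m0 : mode = 0 → q = 0 ∨ (ld q ∧ ¬ al q ∧ ¬ bad q ∧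
    (q % 2 = 1 → rk q = h + 1 ∧ rk (q + 1) = Q) ∧ (q % 2 = 0 → rk q = h ∧ rk (q + 1) = P))
  m1 : mode = 1 → al q ∧ ¬ bad q ∧ q % 2 = 1 ∧ rk q = h + 1 ∧ rk (q + 1) = Q ∧ 1 ≤ Q
  m2 : mode = 2 ∨ mode = 3 → al q ∧ ¬ bad q ∧ q % 2 = 0 ∧ rk q = h ∧ rk (q + 1) = P
  m3 : mode = 3 → q + 1 < k ∧ ld (q + 1) ∧ ¬ al (q + 1) ∧ rk (q + 2) = Q + 1
  m4 : mode = 4 → al q ∧ bad q ∧ q % 2 = 1 ∧ rk q = 1 ∧ rk (q + 1) = Q + 1
  m5 : mode = 5 → al q ∧ bad q ∧ q % 2 = 0 ∧ rk q = 1 ∧ rk (q + 1) = P + 1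
  m5h : mode = 5 → 2 ≤ h
  -- lower bounds
  big : ∀ i, ld i → i ≠ q → (al i ∨ ¬ bad i) → h + 1 ≤ rk i + rk (i + 1)
  lowb : ∀ i, ld i → i ≠ q → bad (oe i) → P ≤ rk i + rk (i + 1) ∧ Q + 2 ≤ rk i + rk (i + 1)
  lowg : ∀ i, ld i → i ≠ q → ¬ bad (oe i) → P + 2 ≤ rk i + rk (i + 1) ∧ Q ≤ rk i + rk (i + 1)
  -- comparison of an `α` with a non-`α` (possibly `q`)
  sh : ∀ a x, al a → a ≠ q → bad (oe a) → ld x → ¬ al x →
    rk a + rk (a + 1) + 1 ≤ rk x + rk (x + 1) + P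
  tbb : ∀ a z, al a → a ≠ q → bad (oe a) → ld z → ¬ al z → bad (oe z) →
    rk a + rk (a + 1) + (if mode = 1 ∨ mode = 2 ∨ mode = 5 then 1 else 0) ≤
      rk z + rk (z + 1) + Q + 1
  tbg : ∀ a z, al a → a ≠ q → bad (oe a) → ld z → ¬ al z → ¬ bad (oe z) →
    rk a + rk (a + 1) + (if mode = 4 then 1 else 2) ≤ rk z + rk (z + 1) + Q + 1
  tgb : ∀ a z, al a → a ≠ q → ¬ bad (oe a) → ld z → ¬ al z → bad (oe z) →
    rk a + rk (a + 1) + sg k ld al rk h q z + (if mode = 0 ∨ mode = 3 then 1 else 2) ≤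
      rk z + rk (z + 1) + Q + 1
  tgg : ∀ a z, al a → a ≠ q → ¬ bad (oe a) → ld z → ¬ al z → ¬ bad (oe z) →
    rk a + rk (a + 1) + 2 ≤ rk z + rk (z + 1) + Q + 1

end Pool.Agent.Lob5
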