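import Pool.Agent.Lob5.Cfg

/-!
# Counting

All proofs: count the slots/nodes by roles (`PlanOK`).
* `self_eq`: `sf` gives a bijection between the `F`- and `I`-vertices and the `self` bushes
  (`self_sf`, `sf_ba`, `sf_ex`, `sf_rv`; every bush is at a vertex `2 ≤ ba b`, `ba b + 2 ≤ k`).
* `Z_le`: `dg` maps `Z`-vertices injectively to bushes of role `L` (`dg_ex`, `ds_dg`, `b_Z`).
* `ns_ge`: every bush of role `st` has a leaf of role `s`, every bush of role `tl` one of role `s0`.
* `R_le`: at an `R3`- or `R4`-vertex there are two bushes, the designated one and `t1`.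
* `nS_eq, nPi_eq, nX_eq, G_card, Z_card`: definitions of `mkFill`, `nS`, `nX`, `FillData.Pi`;
  elements are the vertices with `hasl` and the bushes which are not `L`; an element has no `x` flag
  if it is an `A`- or `F`-vertex, or in `Low`, or has a fixed `x`-label. (The nodes of `Low` are
  candidates, so they are `II`, `I` vertices `≠ om` or `self` bushes; the nodes with fixed `x`-label
  are the bush `tl` at a vertex `i` with `xs i`, and the vertex `om` if it has role `II` and `xs
  om`.) `Kc` is `F.K`.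
* `x_nonsingle`: the elements with `x` flag which are not singles are `I`-vertices and `xo` bushes.
-/

namespace Pool.Agent.Lob5

open Pool.Agent.Lob89

section

variable {Lf B BL : Type*} [Fintype Lf] [Fintype B] [Fintype BL] [DecidableEq B]
  {D : PlanData Lf B BL} {N : Nm} {Y : Ly} {c : Cfg Lf B BL} {k : ℕ}
  {la : Lf → ℕ} {ba : B → ℕ} {par : BL → B}

omit [Fintype Lf] [Fintype BL] [DecidableEq B] in
private theorem cnt_nb (D : PlanData Lf B BL) (ρ : RB) :
    D.nb ρ = ∑ b, if D.rb b = ρ then 1 else 0 := by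
  unfold PlanData.nb
  rw [Finset.card_filter]

omit [Fintype Lf] [Fintype B] [Fintype BL] [DecidableEq B] in
private theorem cnt_nv (D : PlanData Lf B BL) (k : ℕ) (ρ : RV) :
    D.nv k ρ = ∑ i ∈ Finset.range k, if 1 ≤ i ∧ D.rv i = ρ then 1 else 0 := by
  unfold PlanData.nv
  rw [Finset.card_filter]

/-- the elements with a property -/
private theorem cnt_E (P : ℕ ⊕ B → Prop) [DecidablePred P] :
    ((mkFill D N Y c k la ba par).E.filter P).card =
      (∑ i ∈ Finset.range k, if 1 ≤ i ∧ (D.rv i).hasl = true ∧ P (Sum.inl i) then 1 else 0) +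
        ∑ b, if D.rb b ≠ .L ∧ P (Sum.inr b) then 1 else 0 := by
  rw [Finset.card_filter]
  change ∑ e ∈ (((Finset.range k).filter fun i => 1 ≤ i ∧ (D.rv i).hasl = true).disjSum
    (Finset.univ.filter fun b => D.rb b ≠ .L)), (if P e then 1 else 0) = _
  rw [Finset.sum_disjSum, Finset.sum_filter, Finset.sum_filter]
  congr 1
  · refine Finset.sum_congr rfl fun i _ => ?_
    rw [← ite_and]
    simp only [and_assoc]
  · refine Finset.sum_congr rfl fun b _ => ?_
    rw [← ite_and]

theorem self_eq (hD : PlanOK D k la ba par) : D.nb .self = D.nv k .F + D.nv k .I := by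
  have h1 : D.nv k .F + D.nv k .I =
      ((Finset.range k).filter fun i => 1 ≤ i ∧ (D.rv i = .F ∨ D.rv i = .I)).card := by
    rw [cnt_nv, cnt_nv, Finset.card_filter, ← Finset.sum_add_distrib]
    refine Finset.sum_congr rfl fun i _ => ?_
    by_cases h : 1 ≤ i <;> cases hr : D.rv i <;> simp [h]
  rw [h1]
  unfold PlanData.nb
  refine Finset.card_bij (fun b _ => ba b) (fun b hb => ?_) (fun b hb b' hb' h => ?_)
    fun i hi => ?_
  · rw [Finset.mem_filter] at hb ⊢
    have h2 := hD.hd.ba_pos b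
    have h3 := hD.hd.ba_lt b
    exact ⟨Finset.mem_range.2 (by omega), by omega, hD.sf_rv b hb.2⟩
  · rw [Finset.mem_filter] at hb hb'
    have h2 := (hD.self_sf b).1 hb.2
    have h3 := (hD.self_sf b').1 hb'.2
    rw [h, h3] at h2
    exact (Option.some.inj h2).symm
  · rw [Finset.mem_filter, Finset.mem_range] at hi
    obtain ⟨b, hb⟩ := hD.sf_ex i hi.2.1 hi.1 hi.2.2
    have h2 := hD.sf_ba i b hb
    refine ⟨b, ?_, h2⟩
    rw [Finset.mem_filter]
    refine ⟨Finset.mem_univ _, (hD.self_sf b).2 ?_⟩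
    rw [h2, hb]

theorem Z_le (hD : PlanOK D k la ba par) : D.nv k .Z ≤ D.nb .L := by
  unfold PlanData.nv PlanData.nb
  refine Finset.card_le_card_of_surjOn ba fun i hi => ?_
  rw [Finset.mem_coe, Finset.mem_filter, Finset.mem_range] at hi
  obtain ⟨b, hb⟩ := hD.dg_ex i hi.2.1 hi.1 (by rw [hi.2.2]; rfl)
  have h2 := hD.dg_ba i b hb
  refine ⟨b, ?_, h2⟩
  rw [Finset.mem_coe, Finset.mem_filter]
  refine ⟨Finset.mem_univ _, ?_⟩
  have h3 : D.ds b = true := (hD.ds_dg b).2 (by rw [h2, hb])
  rcases hD.b_Z b (by rw [h2]; exact hi.2.2) with h4 | h4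
  · exact h4
  · rw [h3] at h4
    exact absurd h4.2 (by simp)

theorem ns_ge (hD : PlanOK D k la ba par) : D.nb .st + D.nb .tl ≤ D.ns := by
  have h1 : D.nb .st + D.nb .tl =
      (Finset.univ.filter fun b => D.rb b = .st ∨ D.rb b = .tl).card := by
    rw [cnt_nb, cnt_nb, Finset.card_filter, ← Finset.sum_add_distrib]
    refine Finset.sum_congr rfl fun b _ => ?_
    cases hr : D.rb b <;> simp
  have h2 : (Finset.univ.filter fun b => D.rb b = .st ∨ D.rb b = .tl).card ≤
      (Finset.univ.filter fun y => D.rs y = .s ∨ D.rs y = .s0).card := by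
    refine Finset.card_le_card_of_surjOn par fun b hb => ?_
    rw [Finset.mem_coe, Finset.mem_filter] at hb
    rcases hb.2 with h3 | h3
    · have h4 := hD.s_st b h3
      unfold PlanData.cb at h4
      obtain ⟨y, hy⟩ := Finset.card_pos.1 h4
      rw [Finset.mem_filter] at hy
      exact ⟨y, by rw [Finset.mem_coe, Finset.mem_filter]; exact ⟨Finset.mem_univ _, Or.inl hy.2.2⟩,
        hy.2.1⟩
    · have h4 := hD.s_s0 b
      rw [if_pos h3] at h4
      unfold PlanData.cb at h4
      obtain ⟨y, hy⟩ := Finset.card_pos.1 (by rw [h4]; exact Nat.one_pos)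
      rw [Finset.mem_filter] at hy
      exact ⟨y, by rw [Finset.mem_coe, Finset.mem_filter]; exact ⟨Finset.mem_univ _, Or.inr hy.2.2⟩,
        hy.2.1⟩
  unfold PlanData.ns
  omega

theorem nS_eq (hD : PlanOK D k la ba par) :
    nS (mkFill D N Y c k la ba par).l (mkFill D N Y c k la ba par).pf
      (mkFill D N Y c k la ba par).E = D.nSg k := by
  unfold nS
  rw [cnt_E]
  have h1 : (∑ i ∈ Finset.range k, if 1 ≤ i ∧ (D.rv i).hasl = true ∧
      (mkFill D N Y c k la ba par).l (Sum.inl i) = true ∧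
      (mkFill D N Y c k la ba par).pf (Sum.inl i) = false then 1 else 0) =
      D.nv k .A + D.nv k .II := by
    rw [cnt_nv, cnt_nv, ← Finset.sum_add_distrib]
    refine Finset.sum_congr rfl fun i _ => ?_
    have e1 : (mkFill D N Y c k la ba par).l (Sum.inl i) = (D.rv i).hasl := rfl
    have e2 : (mkFill D N Y c k la ba par).pf (Sum.inl i) =
      decide (D.rv i = .F ∨ D.rv i = .I) := rfl
    rw [e1, e2]
    by_cases h : 1 ≤ i <;> cases hr : D.rv i <;> simp [h, RV.hasl]
  have h2 : (∑ b, if D.rb b ≠ .L ∧ (mkFill D N Y c k la ba par).l (Sum.inr b) = true ∧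
      (mkFill D N Y c k la ba par).pf (Sum.inr b) = false then 1 else 0) =
      D.nb .st + D.nb .self + D.nb .sp + D.nb .tl := by
    rw [cnt_nb, cnt_nb, cnt_nb, cnt_nb, ← Finset.sum_add_distrib, ← Finset.sum_add_distrib,
      ← Finset.sum_add_distrib]
    refine Finset.sum_congr rfl fun b _ => ?_
    have e1 : (mkFill D N Y c k la ba par).l (Sum.inr b) = (D.rb b).hasl := rfl
    have e2 : (mkFill D N Y c k la ba par).pf (Sum.inr b) = false := rfl
    rw [e1, e2]
    cases hr : D.rb b <;> simp [RB.hasl]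
  rw [h1, h2]
  unfold PlanData.nSg
  omega

theorem Kc_eq (hD : PlanOK D k la ba par) (hN : NmOK D N k par) :
    (mkFill D N Y c k la ba par).K = Kc D N k := by
  unfold FillData.K Kc
  rw [nS_eq hD]
  change (((N.w + N.eb + 1 : ℕ) : ℤ) + ((N.w + N.N0 - N.et : ℕ) : ℤ) +
    ((D.nSg k % 2 : ℕ) : ℤ)) = _
  push_cast
  rfl

theorem nPi_eq (D : PlanData Lf B BL) :
    (mkFill D N Y c k la ba par).Pi.card = D.nPr := by
  unfold FillData.Pi
  rw [Finset.card_image_of_injective _ (Option.some_injective _), Finset.card_filter]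
  unfold PlanData.nPr
  rw [cnt_nb, cnt_nb, cnt_nb, ← Finset.sum_add_distrib, ← Finset.sum_add_distrib]
  refine Finset.sum_congr rfl fun b _ => ?_
  have e1 : (mkFill D N Y c k la ba par).pr b = (D.rb b).pr := rfl
  rw [e1]
  cases hr : D.rb b <;> simp [RB.pr]

theorem nX_eq (hD : PlanOK D k la ba par) (hN : NmOK D N k par) (hY : LyOK N Y D.rv k)
    (hL : LowSel D N Y c k la ba par) :
    nX (mkFill D N Y c k la ba par).x (mkFill D N Y c k la ba par).E + Y.j + Y.nxf =
      D.nb .st + D.nb .self + D.nb .xo + D.nb .sp + D.nb .tl + D.nv k .II + D.nv k .I := by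
  -- the number of low nodes
  have hLv : ∀ i, Sum.inl i ∈ c.Low → 1 ≤ i ∧ i < k ∧ (D.rv i = .II ∨ D.rv i = .I) ∧
      i ≠ N.om := fun i hi => by
    have h1 := hL.cand _ hi
    exact ⟨h1.1, h1.2.1, h1.2.2.1, h1.2.2.2.1⟩
  have hLb : ∀ b, Sum.inr b ∈ c.Low → D.rb b = .self := fun b hb => hL.cand _ hb
  have hj : Y.j = (∑ i ∈ Finset.range k, if Sum.inl i ∈ c.Low then 1 else 0) +
      ∑ b, if Sum.inr b ∈ c.Low then 1 else 0 := by
    rw [← hL.card]
    have h1 : c.Low = ((Finset.range k).filter fun i => Sum.inl i ∈ c.Low).disjSum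
        (Finset.univ.filter fun b => Sum.inr b ∈ c.Low) := by
      ext n
      rcases n with i | b
      · rw [Finset.inl_mem_disjSum, Finset.mem_filter, Finset.mem_range]
        exact ⟨fun h => ⟨(hLv i h).2.1, h⟩, fun h => h.2⟩
      · rw [Finset.inr_mem_disjSum, Finset.mem_filter]
        exact ⟨fun h => ⟨Finset.mem_univ _, h⟩, fun h => h.2⟩
    conv_lhs => rw [h1]
    rw [Finset.card_disjSum, Finset.card_filter, Finset.card_filter]
  -- the nodes with a fixed `x`-label
  have hx : Y.nxf = (∑ i ∈ Finset.range k,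
      if 1 ≤ i ∧ Y.xf i = true ∧ i = N.om ∧ D.rv i = .II then 1 else 0) +
      ∑ b, if D.rb b = .tl ∧ Y.xf (ba b) = true then 1 else 0 := by
    have h1 : (∑ b, if D.rb b = .tl ∧ Y.xf (ba b) = true then 1 else 0) =
        ∑ i ∈ Finset.range k, if 1 ≤ i ∧ Y.xf i = true ∧ D.rv i = .Fs then 1 else 0 := by
      rw [← Finset.card_filter, ← Finset.card_filter]
      refine Finset.card_bij (fun b _ => ba b) (fun b hb => ?_) (fun b hb b' hb' h => ?_)
        fun i hi => ?_
      · rw [Finset.mem_filter] at hb ⊢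
        have h2 := hD.hd.ba_pos b
        have h3 := hD.hd.ba_lt b
        exact ⟨Finset.mem_range.2 (by omega), by omega, hb.2.2, (hD.b_Fs b).1 hb.2.1⟩
      · rw [Finset.mem_filter] at hb
        exact hD.one b b' h (Or.inr (Or.inl ((hD.b_Fs b).1 hb.2.1)))
      · rw [Finset.mem_filter, Finset.mem_range] at hi
        obtain ⟨b, hb⟩ := hD.Fs_ex i hi.2.1 hi.1 hi.2.2.2
        refine ⟨b, ?_, hb⟩
        rw [Finset.mem_filter]
        exact ⟨Finset.mem_univ _, (hD.b_Fs b).2 (by rw [hb]; exact hi.2.2.2),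
          by rw [hb]; exact hi.2.2.1⟩
    rw [h1, hY.nxf_eq, Finset.card_filter, ← Finset.sum_add_distrib]
    refine Finset.sum_congr rfl fun i _ => ?_
    unfold Ly.xs
    by_cases h2 : 1 ≤ i <;> by_cases h3 : Y.xf i = true <;> by_cases h4 : i = N.om <;>
      cases hr : D.rv i <;> simp [h2, h3, h4]
  have hv : (∑ i ∈ Finset.range k, if 1 ≤ i ∧ (D.rv i).hasl = true ∧
      (mkFill D N Y c k la ba par).x (Sum.inl i) = true then 1 else 0) +
      (∑ i ∈ Finset.range k, if Sum.inl i ∈ c.Low then 1 else 0) +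
      (∑ i ∈ Finset.range k,
        if 1 ≤ i ∧ Y.xf i = true ∧ i = N.om ∧ D.rv i = .II then 1 else 0) =
      D.nv k .II + D.nv k .I := by
    rw [cnt_nv, cnt_nv, ← Finset.sum_add_distrib, ← Finset.sum_add_distrib,
      ← Finset.sum_add_distrib]
    refine Finset.sum_congr rfl fun i hi => ?_
    rw [Finset.mem_range] at hi
    have e1 : (mkFill D N Y c k la ba par).x (Sum.inl i) =
      (decide ((D.rv i = .II ∨ D.rv i = .I) ∧ Sum.inl i ∉ c.Low) &&
        ! (decide (i = N.om) && Y.xf i)) := rfl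
    rw [e1]
    have h0 := hLv i
    have h5 : 1 ≤ i → i = N.om → D.rv i ≠ .I := by
      intro h1 h2 h3
      obtain ⟨b, hb⟩ := hD.sf_ex i h1 hi (Or.inr h3)
      have h4 := hD.sf_ba i b hb
      exact hD.hd.ne_om hN.om_eq b (h4.trans h2)
    by_cases h1 : 1 ≤ i
    · by_cases hl : Sum.inl i ∈ c.Low
      · obtain ⟨-, -, h3, h4⟩ := h0 hl
        rcases h3 with h3 | h3 <;> simp [hl, h3, h4, h1]
      · by_cases h4 : i = N.om
        · have h6 := h5 h1 h4
          by_cases h7 : Y.xf i = true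
          · cases hr : D.rv i <;> simp_all [RV.hasl]
          · cases hr : D.rv i <;> simp_all [RV.hasl]
        · cases hr : D.rv i <;> simp [hl, h4, h1, RV.hasl]
    · have h2 : ¬ Sum.inl i ∈ c.Low := fun h => h1 (h0 h).1
      simp [h1, h2]
  have hb : (∑ b, if D.rb b ≠ .L ∧ (mkFill D N Y c k la ba par).x (Sum.inr b) = true
      then 1 else 0) + (∑ b, if Sum.inr b ∈ c.Low then 1 else 0) +
      (∑ b, if D.rb b = .tl ∧ Y.xf (ba b) = true then 1 else 0) =
      D.nb .st + D.nb .self + D.nb .xo + D.nb .sp + D.nb .tl := by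
    rw [cnt_nb, cnt_nb, cnt_nb, cnt_nb, cnt_nb, ← Finset.sum_add_distrib,
      ← Finset.sum_add_distrib, ← Finset.sum_add_distrib, ← Finset.sum_add_distrib,
      ← Finset.sum_add_distrib, ← Finset.sum_add_distrib]
    refine Finset.sum_congr rfl fun b _ => ?_
    have e1 : (mkFill D N Y c k la ba par).x (Sum.inr b) =
      (decide (D.rb b ≠ .L ∧ Sum.inr b ∉ c.Low) &&
        ! (decide (D.rb b = .tl) && Y.xf (ba b))) := rfl
    rw [e1]
    have h0 := hLb b
    by_cases hl : Sum.inr b ∈ c.Low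
    · simp [hl, h0 hl]
    · by_cases h7 : Y.xf (ba b) = true
      · cases hr : D.rb b <;> simp [hl, h7]
      · cases hr : D.rb b <;> simp [hl, h7]
  unfold nX
  rw [cnt_E, hj, hx]
  omega

theorem G_card (hY : LyOK N Y D.rv k) :
    (mkFill D N Y c k la ba par).G.card = D.nb .L + Y.nlg := by
  change (((Finset.range k).filter fun i => 1 ≤ i ∧ D.rv i = .As ∧ Y.lg i = true).disjSum
    (Finset.univ.filter fun b => D.rb b = .L)).card = _
  rw [Finset.card_disjSum, hY.nlg_eq, add_comm]
  unfold PlanData.nb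
  congr!

theorem Z_card (hD : PlanOK D k la ba par) :
    (mkFill D N Y c k la ba par).Z.card ≤ D.nv k .Z := Finset.card_image_le

theorem x_nonsingle (hD : PlanOK D k la ba par) :
    ((mkFill D N Y c k la ba par).E.filter fun e => (mkFill D N Y c k la ba par).x e = true ∧
      ¬ ((mkFill D N Y c k la ba par).l e = true ∧
        (mkFill D N Y c k la ba par).pf e = false)).card ≤ D.nv k .I + D.nb .xo := by
  rw [cnt_E, cnt_nv, cnt_nb]
  refine Nat.add_le_add (Finset.sum_le_sum fun i _ => ?_) (Finset.sum_le_sum fun b _ => ?_)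
  · have e1 : (mkFill D N Y c k la ba par).l (Sum.inl i) = (D.rv i).hasl := rfl
    have e2 : (mkFill D N Y c k la ba par).pf (Sum.inl i) =
      decide (D.rv i = .F ∨ D.rv i = .I) := rfl
    have e3 : (mkFill D N Y c k la ba par).x (Sum.inl i) =
      (decide ((D.rv i = .II ∨ D.rv i = .I) ∧ Sum.inl i ∉ c.Low) &&
        ! (decide (i = N.om) && Y.xf i)) := rfl
    rw [e1, e2, e3]
    by_cases h : 1 ≤ i <;> cases hr : D.rv i <;> simp [h, RV.hasl]
    split_ifs <;> omega
  · have e1 : (mkFill D N Y c k la ba par).l (Sum.inr b) = (D.rb b).hasl := rfl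
    have e2 : (mkFill D N Y c k la ba par).pf (Sum.inr b) = false := rfl
    rw [e1, e2]
    cases hr : D.rb b <;> simp [RB.hasl]
    split_ifs <;> omega

end

end Pool.Agent.Lob5
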