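import Pool.Agent.Lob5.WEval
import Pool.Agent.Lob5.Cnt

/-!
# Choice of the nodes with low labels

* `jsel`: take `j` minimal with `(A j).card ≤ j` (it exists, `(A J).card ≤ C.card ≤ J`). If `j ≥ 1`
  then `(A (j-1)).card ≥ j`, so `A (j-1)` is not empty and `(Bf j).card ≥ j` as `A (j-1) ⊆ Bf j`.
  Choose `Low` with `A j ⊆ Low ⊆ Bf j` and `Low.card = j` (`Finset.exists_subsuperset_card_eq`).
* `cW_congr`: the weight of a candidate only uses `σ` and the tops of nondesignated bushes: a
  designated bush is at a static vertex (`dg_rv`), a `self` bush has no `T` top.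
* `exists_low`. Let `c0 := ⟨σ, τ0, fun _ => 0, ∅, fun _ => 0⟩` and
  `wt j n := cW D N (Y j) c0 k la ba par n`. `C`: the candidates (a finite set: vertices `< k` and
  `self` bushes); `C.card ≤ nb self + nv II + nv I - [om has role II] = Ux - nT - c0 =: J`
  (`Ux_eq, nT_eq, c0_eq`; `om` is no candidate).
  If `P ≤ 1`: `j = 0`, `Low = ∅`, everything is trivial. If `2 ≤ P`: `A j`: candidates `n` such that
  `wt j n + (Y j).X 1 ≤ (Y j).bs a` for some `a` with `isA`; `Bf j`: the same with `s1+n2+j` instead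
  of `X 1`. `A j ⊆ Bf j`: `X_lo`. `A j ⊆ Bf (j+1)`: `X 1 ≥ s1+n2+j+P+1 ≥ s1+n2+j+3`, and by `StOK`:
  for a vertex `i`: `wt (j+1) - wt j = bs' i - bs i ≤ bs' a - bs a + 2` (`st1`); for a `self` bush
  `wt` does not depend on `j` (use `st2`). `heavy`: `n ∉ A j`. `light`: `Low ⊆ Bf j`. `lw`: any
  bijection of `Low` with `[1, j]`.
  `cr`: let `n ∈ A (j-1)` and `a` the vertex with `wt (j-1) n + (Y (j-1)).X 1 ≤ (Y (j-1)).bs a`.
  `e = 0` implies `c0 = 0` (`ns_ge, e_eq, om_pk`). `n = inl i`: `bs i + X 1 ≤ bs a`, so `¬ kb a`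
  (`shx`), and `lt` gives `P ≤ Q` (`U + (j-1) + nxf = Ux + nlg`, so `U ≤ nT + 1 + nlg`).
  `n = inr b`: `wt ≥ Kc ≥ 2w+N0`, `X 1 ≥ P+1`; `kb a` is impossible (`bupb`), so `P + 1 ≤ Q` by
  `bupg`. Transfer to the configurations `⟨σ, τ, ξ, Low, lw⟩` by `cW_congr`.
-/

namespace Pool.Agent.Lob5

open Pool.Agent.Lob89

theorem jsel {α : Type*} [DecidableEq α] (C : Finset α) (A Bf : ℕ → Finset α) (J : ℕ)
    (hA : ∀ j, j ≤ J → A j ⊆ C) (hC : C.card ≤ J) (hAB : ∀ j, j ≤ J → A j ⊆ Bf j)
    (hAB' : ∀ j, j + 1 ≤ J → A j ⊆ Bf (j + 1)) :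
    ∃ j, j ≤ J ∧ ∃ Low : Finset α, A j ⊆ Low ∧ Low ⊆ Bf j ∧ Low.card = j ∧
      (1 ≤ j → (A (j - 1)).Nonempty) := by
  have h0 : ∃ j, (A j).card ≤ j :=
    ⟨J, (Finset.card_le_card (hA J le_rfl)).trans hC⟩
  have h1 : (A (Nat.find h0)).card ≤ Nat.find h0 := Nat.find_spec h0
  have h2 : Nat.find h0 ≤ J :=
    Nat.find_min' h0 ((Finset.card_le_card (hA J le_rfl)).trans hC)
  have h3 : 1 ≤ Nat.find h0 → Nat.find h0 ≤ (A (Nat.find h0 - 1)).card := by
    intro h4
    have h5 := Nat.find_min h0 (show Nat.find h0 - 1 < Nat.find h0 by omega)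
    omega
  have h4 : Nat.find h0 ≤ (Bf (Nat.find h0)).card := by
    rcases Nat.eq_zero_or_pos (Nat.find h0) with h5 | h5
    · omega
    · have h6 := hAB' (Nat.find h0 - 1) (by omega)
      rw [Nat.sub_add_cancel h5] at h6
      exact (h3 h5).trans (Finset.card_le_card h6)
  obtain ⟨u, hu1, hu2, hu3⟩ := Finset.exists_subsuperset_card_eq (hAB _ h2) h1 h4
  refine ⟨Nat.find h0, h2, u, hu1, hu2, hu3, fun h5 => ?_⟩
  apply Finset.card_pos.1
  have := h3 h5
  omega

variable {Lf B BL : Type*} [Fintype Lf] [Fintype B] [Fintype BL] [DecidableEq B]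
  {D : PlanData Lf B BL} {N : Nm} {k : ℕ} {la : Lf → ℕ} {ba : B → ℕ} {par : BL → B}

theorem cW_congr (hD : PlanOK D k la ba par) (Y : Ly) {c c' : Cfg Lf B BL} (hσ : c.σ = c'.σ)
    (hτ : ∀ b, (D.rb b).top = true → D.ds b = false → c.τ b = c'.τ b) {n : ℕ ⊕ B}
    (hn : D.cand N k n) : cW D N Y c k la ba par n = cW D N Y c' k la ba par n := by
  rcases n with i | b
  · have hr : D.rv i = .II ∨ D.rv i = .I := hn.2.2.1
    simp only [cW, W00, Sum.elim_inl]
    rw [hσ]
    congr 2
    apply Finset.sum_congr rfl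
    intro b _
    by_cases h1 : ba b = i ∧ (D.rb b).top = true
    · rw [if_pos h1, if_pos h1]
      have h2 : D.ds b = false := by
        cases h3 : D.ds b with
        | false => rfl
        | true =>
          have h4 := hD.dg_rv b h3
          rw [h1.1] at h4
          rcases hr with h5 | h5
          · rw [h5] at h4
            exact absurd h4 (by decide)
          · rw [h5] at h4
            exact absurd h4 (by decide)
      rw [hτ b h1.2 h2]
    · rw [if_neg h1, if_neg h1]
  · have hr : D.rb b = .self := hn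
    have h1 : ¬ (D.rb b).top = true := by
      rw [hr]
      decide
    simp only [cW, W00, Sum.elim_inr]
    rw [hσ, if_neg h1, if_neg h1]

/-- the weights in two layers -/
private theorem ExLow_inl (Y Y' : Ly) (c : Cfg Lf B BL) (i : ℕ) :
    cW D N Y' c k la ba par (Sum.inl i) + Y.bs i =
      cW D N Y c k la ba par (Sum.inl i) + Y'.bs i := by
  simp only [cW, W00, Sum.elim_inl]
  omega

private theorem ExLow_inr (Y Y' : Ly) (c : Cfg Lf B BL) (b : B) :
    cW D N Y' c k la ba par (Sum.inr b) = cW D N Y c k la ba par (Sum.inr b) := rfl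

open Classical in
/-- the number of candidates -/
private theorem ExLow_card (hD : PlanOK D k la ba par) (hN : NmOK D N k par) :
    (((Finset.range k).filter fun i => D.cand N k (Sum.inl i)).disjSum
      (Finset.univ.filter fun b => D.cand N k (Sum.inr b))).card + N.nT + N.c0 ≤ N.Ux := by
  rw [Finset.card_disjSum]
  have h1 : (Finset.univ.filter fun b => D.cand N k (Sum.inr b)).card = D.nb .self := by
    unfold PlanData.nb
    congr!
  have h2 : ((Finset.range k).filter fun i => D.cand N k (Sum.inl i)).card +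
      (if N.om ≠ 0 ∧ D.rv N.om = .II then 1 else 0) ≤ D.nv k .II + D.nv k .I := by
    have h3 : ((Finset.range k).filter fun i => D.cand N k (Sum.inl i)) ⊆
        (((Finset.range k).filter fun i => 1 ≤ i ∧ D.rv i = .II).erase N.om) ∪
          ((Finset.range k).filter fun i => 1 ≤ i ∧ D.rv i = .I) := by
      intro i hi
      rw [Finset.mem_filter] at hi
      obtain ⟨h4, h5, -, h6, h7, -⟩ := hi
      rcases h6 with h6 | h6
      · exact Finset.mem_union_left _
          (Finset.mem_erase.2 ⟨h7, Finset.mem_filter.2 ⟨h4, h5, h6⟩⟩)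
      · exact Finset.mem_union_right _ (Finset.mem_filter.2 ⟨h4, h5, h6⟩)
    have h4 := (Finset.card_le_card h3).trans (Finset.card_union_le _ _)
    have h5 : ((Finset.range k).filter fun i => 1 ≤ i ∧ D.rv i = .I).card = D.nv k .I := rfl
    have h6 : ((Finset.range k).filter fun i => 1 ≤ i ∧ D.rv i = .II).card = D.nv k .II := rfl
    split_ifs with h7
    · have h8 : N.om ∈ (Finset.range k).filter fun i => 1 ≤ i ∧ D.rv i = .II := by
        rw [Finset.mem_filter, Finset.mem_range]
        rcases hN.om_eq with h9 | h9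
        · exact absurd h9 h7.1
        · exact ⟨by omega, Nat.one_le_iff_ne_zero.2 h7.1, h7.2⟩
      rw [Finset.card_erase_of_mem h8] at h4
      have h9 := Finset.card_pos.2 ⟨_, h8⟩
      omega
    · have h8 := Finset.card_erase_le (s := (Finset.range k).filter fun i => 1 ≤ i ∧
        D.rv i = .II) (a := N.om)
      omega
  have h3 := hN.Ux_eq
  have h4 := hN.nT_eq
  have h5 := hN.c0_eq
  omega

theorem exists_low (hD : PlanOK D k la ba par) (hN : NmOK D N k par) (σ : Lf ⊕ BL → ℕ)
    (τ0 : B → ℕ) (Y : ℕ → Ly) (hj : ∀ j, (Y j).j = j)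
    (hY : ∀ j, N.nT + j + N.c0 ≤ N.Ux → LyOK N (Y j) D.rv k)
    (hS : ∀ j, N.nT + (j + 1) + N.c0 ≤ N.Ux → 2 ≤ N.P → StOK N (Y j) (Y (j + 1)) D.rv k) :
    ∃ j, N.nT + j + N.c0 ≤ N.Ux ∧ ∃ (Low : Finset (ℕ ⊕ B)) (lw : ℕ ⊕ B → ℕ),
      ∀ (τ ξ : B → ℕ), (∀ b, (D.rb b).top = true → D.ds b = false → τ b = τ0 b) →
        LowSel D N (Y j) ⟨σ, τ, ξ, Low, lw⟩ k la ba par := by
  classical
  have hcard := ExLow_card (k := k) (la := la) (ba := ba) (par := par) hD hN
  set C : Finset (ℕ ⊕ B) := ((Finset.range k).filter fun i => D.cand N k (Sum.inl i)).disjSum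
      (Finset.univ.filter fun b => D.cand N k (Sum.inr b)) with hCdef
  have hC : ∀ n, n ∈ C ↔ D.cand N k n := by
    intro n
    rcases n with i | b
    · rw [hCdef, Finset.inl_mem_disjSum, Finset.mem_filter, Finset.mem_range]
      exact ⟨fun h => h.2, fun h => ⟨h.2.1, h⟩⟩
    · rw [hCdef, Finset.inr_mem_disjSum, Finset.mem_filter]
      exact ⟨fun h => h.2, fun h => ⟨Finset.mem_univ _, h⟩⟩
  by_cases hP : 2 ≤ N.P
  swap
  · refine ⟨0, by omega, ∅, fun _ => 0, fun τ ξ _ => ?_⟩
    refine ⟨?_, ?_, ?_, ?_, ?_, ?_, ?_⟩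
    · intro n hn
      exact absurd hn (Finset.notMem_empty _)
    · rw [hj 0]
      rfl
    · intro n hn
      exact absurd hn (Finset.notMem_empty _)
    · intro n hn
      exact absurd hn (Finset.notMem_empty _)
    · intro h
      exact absurd h hP
    · intro n hn
      exact absurd hn (Finset.notMem_empty _)
    · intro h
      rw [hj 0] at h
      omega
  let c0 : Cfg Lf B BL := ⟨σ, τ0, fun _ => 0, ∅, fun _ => 0⟩
  let A : ℕ → Finset (ℕ ⊕ B) := fun j => C.filter fun n => ∃ a, 1 ≤ a ∧ a < k ∧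
    (D.rv a).isA = true ∧ cW D N (Y j) c0 k la ba par n + (Y j).X 1 ≤ (Y j).bs a
  let Bf : ℕ → Finset (ℕ ⊕ B) := fun j => C.filter fun n => ∃ a, 1 ≤ a ∧ a < k ∧
    (D.rv a).isA = true ∧ cW D N (Y j) c0 k la ba par n + N.s1 + N.n2 + j ≤ (Y j).bs a
  obtain ⟨j, hjJ, Low, hL1, hL2, hL3, hL4⟩ := jsel C A Bf (N.Ux - N.nT - N.c0)
    (fun j _ => Finset.filter_subset _ _) (by omega)
    (by
      intro j hj1 n hn
      obtain ⟨hn1, a, h1, h2, h3, h4⟩ := Finset.mem_filter.1 hn
      refine Finset.mem_filter.2 ⟨hn1, a, h1, h2, h3, ?_⟩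
      have h5 := (hY j (by omega)).X_lo
      rw [hj j] at h5
      omega)
    (by
      intro j hj1 n hn
      obtain ⟨hn1, a, h1, h2, h3, h4⟩ := Finset.mem_filter.1 hn
      refine Finset.mem_filter.2 ⟨hn1, a, h1, h2, h3, ?_⟩
      have hYj := hY j (by omega)
      have h5 := hYj.X_lo
      rw [hj j] at h5
      have hSt := hS j (by omega) hP
      have hnk : ¬ N.kb a := by
        intro hkb
        rcases n with i | b
        · have h8 := (hC _).1 hn1
          have hN' : (D.rv i).isN = true := by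
            rcases h8.2.2.1 with h9 | h9 <;> rw [h9] <;> rfl
          have h9 := W00_ge (D := D) (N := N) (Y := Y j) (c := c0) (la := la) (ba := ba)
            (par := par) i
          have h10 : cW D N (Y j) c0 k la ba par (Sum.inl i) =
            W00 D N (Y j) c0 la ba par (Sum.inl i) := rfl
          have h12 := hYj.shx a i h1 h2 h8.1 h8.2.1 h3 hkb h8.2.2.2.1 hN'
          omega
        · have h8 : cW D N (Y j) c0 k la ba par (Sum.inr b) =
            W00 D N (Y j) c0 la ba par (Sum.inr b) + Kc D N k := rfl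
          have h9 : 2 * N.w + N.N0 ≤ Kc D N k + 1 := by
            have h10 := hN.ebt
            have h11 := hYj.eN
            unfold Kc
            omega
          have h12 := hYj.bupb a h1 h2 h3 hkb
          omega
      rcases n with i | b
      · have h6 := (hC _).1 hn1
        have h7 := ExLow_inl (D := D) (N := N) (k := k) (la := la) (ba := ba) (par := par)
          (Y j) (Y (j + 1)) c0 i
        have h8 := hSt.st1 i a h6.1 h6.2.1 h1 h2 h6.2.2.2.1 h6.2.2.1 h3 hnk
        rw [hj j] at h8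
        omega
      · have h7 := ExLow_inr (D := D) (N := N) (k := k) (la := la) (ba := ba) (par := par)
          (Y j) (Y (j + 1)) c0 b
        have h8 := hSt.st2 a h1 h2 h3 hnk
        rw [hj j] at h8
        omega)
  refine ⟨j, by omega, Low, fun n => if h : n ∈ Low then (Low.equivFin ⟨n, h⟩).val + 1 else 0,
    fun τ ξ hτ => ?_⟩
  have hcand : ∀ n ∈ Low, D.cand N k n := fun n hn =>
    (hC n).1 (Finset.mem_filter.1 (hL2 hn)).1
  have hcW : ∀ n, D.cand N k n → cW D N (Y j) ⟨σ, τ, ξ, Low, fun n => if h : n ∈ Low then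
      (Low.equivFin ⟨n, h⟩).val + 1 else 0⟩ k la ba par n = cW D N (Y j) c0 k la ba par n :=
    fun n hn => cW_congr (c := ⟨σ, τ, ξ, Low, fun n => if h : n ∈ Low then
      (Low.equivFin ⟨n, h⟩).val + 1 else 0⟩) (c' := c0) hD (Y j) rfl hτ hn
  refine ⟨hcand, ?_, ?_, ?_, ?_, ?_, ?_⟩
  · rw [hj j]
    exact hL3
  · intro n hn
    have hn' : n ∈ Low := hn
    rw [hj j]
    show 1 ≤ (if h : n ∈ Low then (Low.equivFin ⟨n, h⟩).val + 1 else 0) ∧
      (if h : n ∈ Low then (Low.equivFin ⟨n, h⟩).val + 1 else 0) ≤ j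
    rw [dif_pos hn']
    have h1 := (Low.equivFin ⟨n, hn'⟩).isLt
    omega
  · intro n hn n' hn' h
    have hn1 : n ∈ Low := hn
    have hn2 : n' ∈ Low := hn'
    change (if h : n ∈ Low then (Low.equivFin ⟨n, h⟩).val + 1 else 0) =
      (if h : n' ∈ Low then (Low.equivFin ⟨n', h⟩).val + 1 else 0) at h
    rw [dif_pos hn1, dif_pos hn2] at h
    have h1 : Low.equivFin ⟨n, hn1⟩ = Low.equivFin ⟨n', hn2⟩ := Fin.ext (by omega)
    exact congrArg Subtype.val (Low.equivFin.injective h1)
  · intro _ n hn hnL a h1 h2 h3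
    rw [hcW n hn]
    by_contra h4
    apply hnL
    apply hL1
    exact Finset.mem_filter.2 ⟨(hC n).2 hn, a, h1, h2, h3, not_lt.1 h4⟩
  · intro n hn
    obtain ⟨hn1, a, h1, h2, h3, h4⟩ := Finset.mem_filter.1 (hL2 hn)
    refine ⟨a, h1, h2, h3, ?_⟩
    rw [hcW n ((hC n).1 hn1), hj j]
    exact h4
  · intro hj1 he hUx
    rw [hj j] at hj1 hUx
    obtain ⟨n, hn⟩ := hL4 hj1
    obtain ⟨hn1, a, h1, h2, h3, h4⟩ := Finset.mem_filter.1 hn
    have hY1 := hY (j - 1) (by omega)
    have h5 := hN.e_eq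
    have h6 := ns_ge hD
    have h7 := hN.c0_eq
    have hc0 : N.c0 = 0 := by
      rw [he] at h5
      have h8 : N.pk = 0 := by
        by_contra h8
        rw [if_neg h8] at h5
        omega
      rw [if_neg] at h7
      · omega
      · rintro ⟨h9, h10⟩
        exact hN.om_pk h9 h10 h8
    have hX := hY1.X_lo
    rcases n with i | b
    · have h8 := (hC _).1 hn1
      have hN' : (D.rv i).isN = true := by
        rcases h8.2.2.1 with h9 | h9
        · rw [h9]
          rfl
        · rw [h9]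
          rfl
      have h9 := W00_ge (D := D) (N := N) (Y := Y (j - 1)) (c := c0) (la := la) (ba := ba)
        (par := par) i
      have h10 : cW D N (Y (j - 1)) c0 k la ba par (Sum.inl i) =
        W00 D N (Y (j - 1)) c0 la ba par (Sum.inl i) := rfl
      have h11 : ¬ N.kb a := by
        intro h11
        have h12 := hY1.shx a i h1 h2 h8.1 h8.2.1 h3 h11 h8.2.2.2.1 hN'
        omega
      have h12 := hY1.U_eq
      rw [hj (j - 1)] at h12
      exact hY1.lt he (by omega) a i h1 h2 h8.1 h8.2.1 h3 h11 h8.2.2.2.1 hN' (by omega)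
    · have h8 : cW D N (Y (j - 1)) c0 k la ba par (Sum.inr b) =
        W00 D N (Y (j - 1)) c0 la ba par (Sum.inr b) + Kc D N k := rfl
      have h9 : 2 * N.w + N.N0 + 1 ≤ Kc D N k := by
        have h9' := hN.ebe
        unfold Kc
        omega
      by_cases h11 : N.kb a
      · have h12 := hY1.bupb a h1 h2 h3 h11
        omega
      · have h12 := hY1.bupg a h1 h2 h3 h11
        omega

end Pool.Agent.Lob5
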