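import Pool.Agent.Lob5.WEval
import Pool.Agent.Lob89.Greedy

/-!
# Existence of the order of the tops

The bushes with `T` top are divided into three groups: nondesignated ones (`ds b = false`), the designated
ones in the group `G1` and the other designated ones. `G1` is empty if there is no vertex `FR`; otherwise it
contains the bush at the vertex `FR`, and the designated bushes at vertices `Z` which have no leaf of role
`s` and no other bush. Let `g`, `nd` be the numbers of elements of `G1` and of nondesignated bushes.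
`τ0` (it does not depend on the layer): the nondesignated bushes get `g+1, ..., g+nd` in any order.
Given the layer: `G1` gets `1, ..., g` sorted by `Y.bs (ba b)`, and the other designated bushes get
`g+nd+1, ..., nT` sorted by `Y.bs i + (static leaves at i) + (tops of the other bushes with T top at i)`,
`i = ba b` (all other bushes with `T` top at `i` are nondesignated: one designated bush per vertex, `ds_dg`);
use `Pool.Agent.Lob89.greedy` for both (its last statement gives distinct sums).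
* `rng`, `inj`, `nd` (then `G1 = ∅`) are clear (`nT_eq`).
* `r`: a bush `xo` is nondesignated unless it is at `FR` (`tok, t1_ds, t1_rv, t2_rv, b_R4`); a designated bush
  at an `R3`-, `R4`-vertex is not in `G1`.
* `fr`: the bush at `FR` is in `G1` (designated, `b_FR`); a bush `xo` is nondesignated or at a vertex `FR`;
  there is only one such vertex (`FR1`) and one bush there (`one`).
* `st`: two vertices whose designated bushes are both in `G1`: `W00 = Y.bs i + (w+N0+Q+τ b)`, greedy.
  Both not in `G1`: greedy. `i` in `G1`, `o` not (so `FR` exists, `rv o` is `Z, R3` or `R4`, and there is a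
  static leaf at `o`, label `≥ w+1` (`SigOK`, `heN`), or another bush with `T` top): `W00 (inl o) ≥
  Y.bs o + (w+N0+Q+τ_o) + (w+1) > Y.bs i + (w+N0+Q+τ_i)` by `Rd` and `τ_i ≤ g < τ_o`. (At an `R3`-, `R4`-vertex
  there are two bushes with `T` top: `t1` and the designated one, `t1_ds`. Other bushes at a vertex `Z` have
  `T` top: `b_Z`.)
-/

set_option linter.unusedSectionVars false

namespace Pool.Agent.Lob5

open Pool.Agent.Lob89

variable {Lf B BL : Type*} [Fintype Lf] [Fintype B] [Fintype BL] [DecidableEq B]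
  {D : PlanData Lf B BL} {N : Nm} {k : ℕ} {la : Lf → ℕ} {ba : B → ℕ} {par : BL → B}

private theorem exists_lab (P : B → Prop) [DecidablePred P] (V : B → ℕ) (lo : ℕ) :
    ∃ τ : B → ℕ, (∀ b, P b → lo < τ b ∧ τ b ≤ lo + (Finset.univ.filter P).card) ∧
      (∀ b b', P b → P b' → τ b = τ b' → b = b') ∧
      ∀ b b', P b → P b' → V b + τ b = V b' + τ b' → b = b' := by
  obtain ⟨s, h1, -, h3, h4⟩ := greedy (E := {b // P b}) (fun b => V b.1)
    (Finset.Ioc lo (lo + (Finset.univ.filter P).card)) (by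
      rw [Nat.card_Ioc, Nat.add_sub_cancel_left, Fintype.card_subtype])
  refine ⟨fun b => if h : P b then s ⟨b, h⟩ else 0, ?_, ?_, ?_⟩
  · intro b hb
    simp only [dif_pos hb]
    exact Finset.mem_Ioc.1 (h1 ⟨b, hb⟩)
  · intro b b' hb hb' he
    simp only [dif_pos hb, dif_pos hb'] at he
    exact congrArg Subtype.val (h3 he)
  · intro b b' hb hb' he
    simp only [dif_pos hb, dif_pos hb'] at he
    have h5 := @h4 ⟨b, hb⟩ ⟨b', hb'⟩ he
    exact congrArg Subtype.val h5

/-- the nondesignated bushes with `T` top -/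
private def N1 (D : PlanData Lf B BL) (b : B) : Prop := (D.rb b).top = true ∧ D.ds b = false

/-- the first group of designated bushes -/
private def G1 (D : PlanData Lf B BL) (k : ℕ) (la : Lf → ℕ) (ba : B → ℕ) (b : B) : Prop :=
  D.ds b = true ∧ (∃ i, 1 ≤ i ∧ i < k ∧ D.rv i = .FR) ∧
    (D.rv (ba b) = .FR ∨ (D.rv (ba b) = .Z ∧ (∀ x, ¬ (la x = ba b ∧ D.rl x = .s)) ∧
      ∀ b', ba b' = ba b → b' = b))

/-- the other designated bushes -/
private def G2 (D : PlanData Lf B BL) (k : ℕ) (la : Lf → ℕ) (ba : B → ℕ) (b : B) : Prop :=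
  D.ds b = true ∧ ¬ G1 D k la ba b

private theorem isT_cases {r : RV} (h : r.isT = true) : r = .Z ∨ r = .R3 ∨ r = .R4 ∨ r = .FR := by
  cases r <;> simp [RV.isT, RV.isS] at h ⊢

private theorem ds_top (hD : PlanOK D k la ba par) {b : B} (h : D.ds b = true) :
    (D.rb b).top = true := by
  rcases isT_cases (hD.dg_rv b h) with h1 | h1 | h1 | h1
  · rcases hD.b_Z b h1 with h2 | ⟨-, h2⟩
    · rw [h2]
      rfl
    · rw [h] at h2
      cases h2
  · rw [(hD.dg_R3 b h h1).1]
    rfl
  · rcases hD.b_R4 b h1 with ⟨-, h2⟩ | h2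
    · rw [h] at h2
      cases h2
    · rw [h2]
      rfl
  · rcases (hD.b_FR b h1).1 with h2 | h2 <;> rw [h2] <;> rfl

private theorem ds_uniq (hD : PlanOK D k la ba par) {b b' : B} (h : D.ds b = true)
    (h' : D.ds b' = true) (he : ba b = ba b') : b = b' := by
  have h1 := (hD.ds_dg b).1 h
  have h2 := (hD.ds_dg b').1 h'
  rw [he, h2] at h1
  exact (Option.some.inj h1).symm

private theorem top_cases {b : B} (h : (D.rb b).top = true) :
    N1 D b ∨ G1 D k la ba b ∨ G2 D k la ba b := by
  by_cases h1 : D.ds b = true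
  · by_cases h2 : G1 D k la ba b
    · exact Or.inr (Or.inl h2)
    · exact Or.inr (Or.inr ⟨h1, h2⟩)
  · exact Or.inl ⟨h, by simpa using h1⟩

open Classical in
private theorem card_top (hD : PlanOK D k la ba par) (hN : NmOK D N k par) :
    (Finset.univ.filter fun b => G1 D k la ba b).card +
      (Finset.univ.filter fun b => N1 D b).card +
      (Finset.univ.filter fun b => G2 D k la ba b).card = N.nT := by
  have h1 : N.nT = (Finset.univ.filter fun b => (D.rb b).top = true).card := by
    rw [hN.nT_eq]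
    unfold PlanData.nb
    rw [Finset.card_filter, Finset.card_filter, Finset.card_filter, Finset.card_filter,
      Finset.card_filter, ← Finset.sum_add_distrib, ← Finset.sum_add_distrib,
      ← Finset.sum_add_distrib]
    refine Finset.sum_congr rfl fun b _ => ?_
    cases hr : D.rb b <;> simp [RB.top]
  rw [h1, Finset.card_filter, Finset.card_filter, Finset.card_filter, Finset.card_filter,
    ← Finset.sum_add_distrib, ← Finset.sum_add_distrib]
  refine Finset.sum_congr rfl fun b _ => ?_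
  by_cases hd : D.ds b = true
  · have ht := ds_top hD hd
    have hn : ¬ N1 D b := fun h => by
      rw [h.2] at hd
      cases hd
    rw [if_pos ht, if_neg hn]
    by_cases hg : G1 D k la ba b
    · rw [if_pos hg, if_neg (fun h : G2 D k la ba b => h.2 hg)]
    · rw [if_neg hg, if_pos (show G2 D k la ba b from ⟨hd, hg⟩)]
  · rw [if_neg (fun h : G1 D k la ba b => hd h.1), if_neg (fun h : G2 D k la ba b => hd h.1)]
    have hd' : D.ds b = false := by simpa using hd
    by_cases ht : (D.rb b).top = true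
    · rw [if_pos ht, if_pos (show N1 D b from ⟨ht, hd'⟩)]
    · rw [if_neg ht, if_neg (fun h : N1 D b => ht h.1)]

private theorem W00_def (Y : Ly) (c : Cfg Lf B BL) (i : ℕ) :
    W00 D N Y c la ba par (Sum.inl i) = Y.bs i
      + (∑ x, if la x = i ∧ D.rl x = .s then c.σ (Sum.inl x) else 0)
      + ∑ b, if ba b = i ∧ (D.rb b).top = true then N.w + N.N0 + N.Q + c.τ b else 0 := rfl

/-- the weights of the second group -/
private def WW (D : PlanData Lf B BL) (N : Nm) (Y : Ly) (la : Lf → ℕ) (ba : B → ℕ)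
    (σ : Lf ⊕ BL → ℕ) (τ0 : B → ℕ) (b : B) : ℕ :=
  Y.bs (ba b) + (∑ x, if la x = ba b ∧ D.rl x = .s then σ (Sum.inl x) else 0)
    + ∑ b', if (ba b' = ba b ∧ (D.rb b').top = true) ∧ b' ≠ b then N.w + N.N0 + N.Q + τ0 b' else 0

private theorem W00_G2 (hD : PlanOK D k la ba par) (Y : Ly) (c : Cfg Lf B BL) (τ0 : B → ℕ)
    (hτ : ∀ b, N1 D b → c.τ b = τ0 b) {b : B} (hb : D.ds b = true) :
    W00 D N Y c la ba par (Sum.inl (ba b)) =
      WW D N Y la ba c.σ τ0 b + c.τ b + (N.w + N.N0 + N.Q) := by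
  rw [W00_def]
  unfold WW
  have h1 : ∀ b', (if ba b' = ba b ∧ (D.rb b').top = true then N.w + N.N0 + N.Q + c.τ b' else 0) =
      (if (ba b' = ba b ∧ (D.rb b').top = true) ∧ b' ≠ b then N.w + N.N0 + N.Q + τ0 b' else 0) +
      (if b' = b then N.w + N.N0 + N.Q + c.τ b else 0) := by
    intro b'
    by_cases he : b' = b
    · subst he
      rw [if_pos ⟨rfl, ds_top hD hb⟩, if_neg (fun h => h.2 rfl), if_pos rfl, Nat.zero_add]
    · rw [if_neg he, Nat.add_zero]
      by_cases h2 : ba b' = ba b ∧ (D.rb b').top = true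
      · have h3 : D.ds b' = false := by
          by_contra h4
          exact he (ds_uniq hD (by simpa using h4) hb h2.1)
        rw [if_pos h2, if_pos ⟨h2, he⟩, hτ b' ⟨h2.2, h3⟩]
      · rw [if_neg h2, if_neg (fun h => h2 h.1)]
  rw [Finset.sum_congr rfl fun b' _ => h1 b', Finset.sum_add_distrib, Finset.sum_ite_eq',
    if_pos (Finset.mem_univ b)]
  omega

private theorem W00_G1 (hD : PlanOK D k la ba par) (Y : Ly) (c : Cfg Lf B BL) {b : B}
    (hb : G1 D k la ba b) :
    W00 D N Y c la ba par (Sum.inl (ba b)) = Y.bs (ba b) + c.τ b + (N.w + N.N0 + N.Q) := by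
  rcases hb.2.2 with h1 | ⟨-, h2, h3⟩
  · rw [W00_FR hD h1]
    omega
  · rw [W00_def]
    have e1 : (∑ x, if la x = ba b ∧ D.rl x = .s then c.σ (Sum.inl x) else 0) = 0 :=
      Finset.sum_eq_zero fun x _ => if_neg (h2 x)
    have e2 : (∑ b', if ba b' = ba b ∧ (D.rb b').top = true then
        N.w + N.N0 + N.Q + c.τ b' else 0) = N.w + N.N0 + N.Q + c.τ b := by
      rw [Finset.sum_eq_single b]
      · rw [if_pos ⟨rfl, ds_top hD hb.1⟩]
      · intro b' _ hne
        exact if_neg fun h => hne (h3 b' h.1)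
      · intro h
        exact absurd (Finset.mem_univ b) h
    rw [e1, e2]
    omega

/-- static labels are larger than `w` -/
private theorem sig_gt (heN : N.eb + N.et ≤ N.N0) {σ : Lf ⊕ BL → ℕ} (hσ : SigOK D N σ) {x : Lf}
    (hx : D.rl x = .s) : N.w + 1 ≤ σ (Sum.inl x) := by
  have h1 := hσ.rng (Sum.inl x) hx
  omega

private theorem W00_G2_ge (hD : PlanOK D k la ba par) (heN : N.eb + N.et ≤ N.N0) (Y : Ly)
    (c : Cfg Lf B BL) (hσ : SigOK D N c.σ) (hτ : ∀ b, N1 D b → 1 ≤ c.τ b) {b : B}
    (hFR : ∃ i, 1 ≤ i ∧ i < k ∧ D.rv i = .FR) (hb : G2 D k la ba b) :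
    Y.bs (ba b) + c.τ b + (N.w + N.N0 + N.Q) + (N.w + 1) ≤
      W00 D N Y c la ba par (Sum.inl (ba b)) := by
  have ht := ds_top hD hb.1
  have hother : ∀ b', b' ≠ b → ba b' = ba b → (D.rb b').top = true →
      Y.bs (ba b) + c.τ b + (N.w + N.N0 + N.Q) + (N.w + 1) ≤
        W00 D N Y c la ba par (Sum.inl (ba b)) := by
    intro b' hne he ht'
    have h1 := W00_top2 (D := D) (N := N) (Y := Y) (c := c) (la := la) (ba := ba) (par := par)
      ht ht' (Ne.symm hne) he.symm
    have h2 : D.ds b' = false := by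
      by_contra h3
      exact hne (ds_uniq hD (by simpa using h3) hb.1 he)
    have h3 := hτ b' ⟨ht', h2⟩
    omega
  have h12 : D.rv (ba b) = .R3 ∨ D.rv (ba b) = .R4 →
      Y.bs (ba b) + c.τ b + (N.w + N.N0 + N.Q) + (N.w + 1) ≤
        W00 D N Y c la ba par (Sum.inl (ba b)) := by
    intro h1
    have p1 := hD.hd.ba_pos b
    have p2 := hD.hd.ba_lt b
    obtain ⟨b', hb'⟩ := hD.t1_ex (ba b) (by omega) (by omega) (by
      rcases h1 with h1 | h1
      · exact Or.inl h1
      · exact Or.inr (Or.inl h1))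
    have h2 := hD.t1_ba _ _ hb'
    have h3 : D.t1 (ba b') = some b' := by
      rw [h2]
      exact hb'
    have h4 := hD.t1_ds b' h3
    have h5 : D.ds b' ≠ true := by
      intro h6
      have h7 := h4.1 h6
      rw [h2] at h7
      rcases h1 with h1 | h1 <;> rw [h1] at h7 <;> cases h7
    have h6 : (D.rb b').top = true := by
      rcases (hD.tok b').2 (Or.inl h3) with h7 | h7 <;> rw [h7] <;> rfl
    refine hother b' ?_ h2 h6
    rintro rfl
    exact h5 hb.1
  rcases isT_cases (hD.dg_rv b hb.1) with h1 | h1 | h1 | h1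
  · by_cases h2 : ∀ x, ¬ (la x = ba b ∧ D.rl x = .s)
    · have h3 : ¬ ∀ b', ba b' = ba b → b' = b := fun h3 =>
        hb.2 ⟨hb.1, hFR, Or.inr ⟨h1, h2, h3⟩⟩
      push Not at h3
      obtain ⟨b', h4, h5⟩ := h3
      refine hother b' h5 h4 ?_
      rcases hD.b_Z b' (by rw [h4]; exact h1) with h6 | ⟨h6, -⟩ <;> rw [h6] <;> rfl
    · push Not at h2
      obtain ⟨x, hx⟩ := h2
      rw [W00_def]
      have h3 := Finset.single_le_sum
        (f := fun x => if la x = ba b ∧ D.rl x = .s then c.σ (Sum.inl x) else 0)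
        (fun x _ => Nat.zero_le _) (Finset.mem_univ x)
      have h4 := Finset.single_le_sum
        (f := fun b' => if ba b' = ba b ∧ (D.rb b').top = true then
          N.w + N.N0 + N.Q + c.τ b' else 0) (fun x _ => Nat.zero_le _) (Finset.mem_univ b)
      simp only [if_pos hx] at h3
      simp only [ht, and_self, if_true] at h4
      have h5 := sig_gt heN hσ hx.2
      omega
  · exact h12 (Or.inl h1)
  · exact h12 (Or.inr h1)
  · exact absurd ⟨hb.1, hFR, Or.inl h1⟩ hb.2

theorem exists_tau (hD : PlanOK D k la ba par) (hN : NmOK D N k par) (heN : N.eb + N.et ≤ N.N0)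
    (σ : Lf ⊕ BL → ℕ) (hσ : SigOK D N σ) :
    ∃ τ0 : B → ℕ, ∀ Y : Ly, LyOK N Y D.rv k → ∃ τ : B → ℕ,
      (∀ b, (D.rb b).top = true → D.ds b = false → τ b = τ0 b) ∧
      ∀ (ξ : B → ℕ) (Low : Finset (ℕ ⊕ B)) (lw : ℕ ⊕ B → ℕ),
        TauOK D N Y ⟨σ, τ, ξ, Low, lw⟩ k la ba par := by
  classical
  set g := (Finset.univ.filter fun b => G1 D k la ba b).card with hg
  set nd := (Finset.univ.filter fun b => N1 D b).card with hnd
  have hcard := card_top hD hN
  rw [← hg, ← hnd] at hcard
  obtain ⟨τ0, a1, a2, -⟩ := exists_lab (fun b => N1 D b) (fun _ => 0) g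
  rw [← hnd] at a1
  refine ⟨τ0, fun Y hY => ?_⟩
  obtain ⟨τ1, b1, b2, b3⟩ := exists_lab (fun b => G1 D k la ba b) (fun b => Y.bs (ba b)) 0
  obtain ⟨τ2, c1, c2, c3⟩ := exists_lab (fun b => G2 D k la ba b) (WW D N Y la ba σ τ0) (g + nd)
  rw [← hg] at b1
  set τ : B → ℕ := fun b => if N1 D b then τ0 b else if G1 D k la ba b then τ1 b else τ2 b
    with hτ
  have n1 : ∀ b, N1 D b → τ b = τ0 b := fun b hb => if_pos hb
  have hNG : ∀ b, N1 D b → D.ds b = true → False := fun b h h' => by
    rw [h.2] at h'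
    cases h'
  have g1 : ∀ b, G1 D k la ba b → τ b = τ1 b := fun b hb => by
    rw [hτ]
    simp only
    rw [if_neg fun h => hNG b h hb.1, if_pos hb]
  have g2 : ∀ b, G2 D k la ba b → τ b = τ2 b := fun b hb => by
    rw [hτ]
    simp only
    rw [if_neg fun h => hNG b h hb.1, if_neg hb.2]
  have rN : ∀ b, N1 D b → g < τ b ∧ τ b ≤ g + nd := fun b hb => by
    rw [n1 b hb]
    exact a1 b hb
  have r1 : ∀ b, G1 D k la ba b → 1 ≤ τ b ∧ τ b ≤ g := fun b hb => by
    rw [g1 b hb]
    have h1 := b1 b hb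
    omega
  have r2 : ∀ b, G2 D k la ba b → g + nd < τ b ∧ τ b ≤ N.nT := fun b hb => by
    rw [g2 b hb]
    have h1 := c1 b hb
    omega
  -- bushes of role `xo`
  have hxo : ∀ b, D.rb b = .xo → N1 D b ∨ (D.rv (ba b) = .FR ∧ D.ds b = true) := by
    intro b hb
    rcases (hD.tok b).1 (Or.inl hb) with h1 | h1
    · have h2 := hD.t1_ds b h1
      by_cases h3 : D.ds b = true
      · exact Or.inr ⟨h2.1 h3, h3⟩
      · refine Or.inl ⟨?_, by simpa using h3⟩
        rw [hb]
        rfl
    · have h2 := hD.t2_rv b h1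
      rcases hD.b_R4 b h2 with ⟨h3, -⟩ | h3 <;> rw [hb] at h3 <;> cases h3
  have hbr : ∀ b, 1 ≤ ba b ∧ ba b < k := fun b => by
    have p1 := hD.hd.ba_pos b
    have p2 := hD.hd.ba_lt b
    omega
  have hFRG : ∀ b, D.rv (ba b) = .FR → G1 D k la ba b := fun b hb =>
    ⟨(hD.b_FR b hb).2, ⟨ba b, (hbr b).1, (hbr b).2, hb⟩, Or.inl hb⟩
  refine ⟨τ, fun b h1 h2 => n1 b ⟨h1, h2⟩, fun ξ Low lw => ?_⟩
  set c : Cfg Lf B BL := ⟨σ, τ, ξ, Low, lw⟩ with hc
  have hcτ : c.τ = τ := rfl
  have hcσ : c.σ = σ := rfl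
  refine ⟨?_, ?_, ?_, ?_, ?_, ?_⟩
  · intro b hb
    rw [hcτ]
    rcases top_cases (k := k) (la := la) (ba := ba) hb with h | h | h
    · have := rN b h
      omega
    · have := r1 b h
      omega
    · have := r2 b h
      omega
  · intro b b' hb hb' he
    rw [hcτ] at he
    rcases top_cases (k := k) (la := la) (ba := ba) hb with h | h | h <;>
      rcases top_cases (k := k) (la := la) (ba := ba) hb' with h' | h' | h'
    · rw [n1 b h, n1 b' h'] at he
      exact a2 b b' h h' he
    · have := rN b h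
      have := r1 b' h'
      omega
    · have := rN b h
      have := r2 b' h'
      omega
    · have := r1 b h
      have := rN b' h'
      omega
    · rw [g1 b h, g1 b' h'] at he
      exact b2 b b' h h' he
    · have := r1 b h
      have := r2 b' h'
      omega
    · have := r2 b h
      have := rN b' h'
      omega
    · have := r2 b h
      have := r1 b' h'
      omega
    · rw [g2 b h, g2 b' h'] at he
      exact c2 b b' h h' he
  · intro hno b b' h1 h2 h3
    rw [hcτ]
    have h4 := rN b ⟨h1, h2⟩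
    have h5 : G2 D k la ba b' := ⟨h3, fun h => by
      obtain ⟨i, i1, i2, i3⟩ := h.2.1
      exact hno i i1 i2 i3⟩
    have h6 := r2 b' h5
    omega
  · intro b b' h1 h2 h3
    rw [hcτ]
    have h5 : G2 D k la ba b' := ⟨h2, fun h => by
      rcases h.2.2 with h4 | ⟨h4, -⟩ <;> rcases h3 with h3 | h3 <;> rw [h3] at h4 <;> cases h4⟩
    have h6 := r2 b' h5
    rcases hxo b h1 with h4 | h4
    · have := rN b h4
      omega
    · have := r1 b (hFRG b h4.1)
      omega
  · intro b f h1 h2
    rw [hcτ]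
    have h3 := r1 b (hFRG b h1)
    rcases hxo f h2 with h4 | h4
    · have := rN f h4
      omega
    · have h5 : ba b = ba f := hN.FR1 _ _ h1 h4.1 (hbr b).1 (hbr b).2 (hbr f).1 (hbr f).2
      have h6 : b = f := hD.one b f h5 (Or.inr (Or.inr h1))
      rw [h6]
  · have hmix : ∀ b b', G1 D k la ba b → G2 D k la ba b' →
        W00 D N Y c la ba par (Sum.inl (ba b)) < W00 D N Y c la ba par (Sum.inl (ba b')) := by
      intro b b' h h'
      have e1 := W00_G1 (N := N) hD Y c h
      have e2 := W00_G2_ge (N := N) hD heN Y c (by rw [hcσ]; exact hσ)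
        (fun b hb => by
          rw [hcτ]
          have := rN b hb
          omega) h.2.1 h'
      have hS : (D.rv (ba b')).isS = true := by
        rcases isT_cases (hD.dg_rv b' h'.1) with h1 | h1 | h1 | h1
        · rw [h1]
          rfl
        · rw [h1]
          rfl
        · rw [h1]
          rfl
        · exact absurd (hFRG b' h1) h'.2
      have e3 := hY.Rd h.2.1 (ba b) (ba b') (hbr b).1 (hbr b).2 (hbr b').1 (hbr b').2
        (hD.dg_rv b h.1) hS
      rw [hcτ] at e1 e2
      have e4 := r1 b h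
      have e5 := r2 b' h'
      omega
    intro i i' i1 i2 i1' i2' hi hi' he
    obtain ⟨b, hb⟩ := hD.dg_ex i i1 i2 hi
    obtain ⟨b', hb'⟩ := hD.dg_ex i' i1' i2' hi'
    have hba := hD.dg_ba i b hb
    have hba' := hD.dg_ba i' b' hb'
    have hds : D.ds b = true := by
      rw [hD.ds_dg, hba]
      exact hb
    have hds' : D.ds b' = true := by
      rw [hD.ds_dg, hba']
      exact hb'
    rw [← hba, ← hba'] at he ⊢
    by_cases h : G1 D k la ba b <;> by_cases h' : G1 D k la ba b'
    · rw [W00_G1 (N := N) hD Y c h, W00_G1 (N := N) hD Y c h', hcτ, g1 b h, g1 b' h'] at he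
      rw [b3 b b' h h' (by
        show Y.bs (ba b) + τ1 b = Y.bs (ba b') + τ1 b'
        omega)]
    · exact absurd he (hmix b b' h ⟨hds', h'⟩).ne
    · exact absurd he (hmix b' b h' ⟨hds, h⟩).ne'
    · have e1 := W00_G2 (N := N) hD Y c τ0 (by rw [hcτ]; exact n1) hds
      have e2 := W00_G2 (N := N) hD Y c τ0 (by rw [hcτ]; exact n1) hds'
      rw [e1, e2, hcτ, hcσ, g2 b ⟨hds, h⟩, g2 b' ⟨hds', h'⟩] at he
      rw [c3 b b' ⟨hds, h⟩ ⟨hds', h'⟩ (by omega)]

end Pool.Agent.Lob5
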