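import Pool.Agent.Lob5.FillDefs

/-!
# The final labels are distinct and in range

Proof. `slots_*` : the counts `v_l, ..., b_v` say that a node has at most one slot of each kind
(`Finset.card_le_one`), e.g. two leaves of kind `l` at the same path vertex are equal, and a leaf of
kind `l` and a top of kind `lu` do not occur at the same vertex.
Classes of slots: fixed (labels outside `[lo, hi]`, `fix_mid`, and different from `X i`, `fix_X`);
`x`- and `g`-slots (labels `X i` with `1 ≤ i ≤ U`, `X i < lo`; distinct by `xi_inj`, `gi_inj`,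
`gi_xi`
and strict monotonicity of `X`; `flF, fbF`); slots of kinds `l, lu, u, v` (labels in `[lo, hi]`).
Last class: a slot of kind `l` (leaf or bush leaf) belongs to a node `e ∈ F.E` with `F.l e = true`;
`F.pf e = false` (a leaf of kind `l` excludes a top of kind `lu` at the vertex by `v_l`, `pf_v`;
for bushes `pf_b`). For a top `b` of kind `lu`: `e = Sum.inl (ba b) ∈ F.E`, `F.pf e = true`,
`F.ppf e = some b`, and by `Placed.pair` the label `lab e` is `u (some b)`. So the labels of this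
class
are `lab e` (`e` single), `u (some b)` (tops `lu`, or bush leaves of kind `u`, the latter only if
`F.kt b = fix`), `v (some b)`. They are distinct by `single_inj, single_u, single_v, u_inj, v_inj,
u_v`. All integers here are `≥ lo ≥ 0`, so `toNat` is harmless.
`1 ≤ ba b < k` by `F`'s `LobData` (`hF.hd`). Range: `fix_pos, fix_le`; `X i ≥ i ≥ 1` for `i ≥ 1`
by strict
monotonicity, `X i < lo ≤ be + 1`; `lo ≥ 1`: if `lo = 0`, then `X_lo` with `i = 0` fails; `hi ≤ be`.
-/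

set_option linter.unusedSectionVars false

namespace Pool.Agent.Lob5

open Pool.Agent.Lob89

variable {k : ℕ} {Lf B BL : Type*} [Fintype Lf] [Fintype B] [Fintype BL] [DecidableEq B]
  {la : Lf → ℕ} {ba : B → ℕ} {par : BL → B} {F : FillData Lf B BL}
  {lab : ℕ ⊕ B → ℤ} {xi gi : ℕ ⊕ B → ℕ} {u v : Option B → ℤ}

private theorem fl_card_le {n m : ℕ} {p : Prop} [Decidable p]
    (h : n + m = if p then 1 else 0) : n ≤ 1 := by
  split_ifs at h <;> omega

private theorem fl_card_le' {n : ℕ} {p : Prop} [Decidable p]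
    (h : n = if p then 1 else 0) : n ≤ 1 := by
  split_ifs at h <;> omega

private theorem fl_of_pos {n m : ℕ} {p : Prop} [Decidable p]
    (h : n + m = if p then 1 else 0) (hn : 0 < n) : p ∧ m = 0 := by
  split_ifs at h with hp
  · exact ⟨hp, by omega⟩
  · omega

private theorem fl_of_pos' {n : ℕ} {p : Prop} [Decidable p]
    (h : n = if p then 1 else 0) (hn : 0 < n) : p := by
  split_ifs at h with hp
  · exact hp
  · omega

/-- the descriptors of the slots -/
private inductive FlD (k : ℕ) (Lf B BL : Type*)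
  | fx (s : Fin k ⊕ (Lf ⊕ (B ⊕ BL)))
  | sg (e : ℕ ⊕ B)
  | uu (b : B)
  | vv (b : B)
  | xx (n : ℕ ⊕ B)
  | gg (n : ℕ ⊕ B)

/-- the label of a descriptor -/
private def flVal (F : FillData Lf B BL) (lab : ℕ ⊕ B → ℤ) (xi gi : ℕ ⊕ B → ℕ)
    (u v : Option B → ℤ) : FlD k Lf B BL → ℕ
  | .fx s => labels (k := k) F.p F.fl0 F.ft0 F.fb0 s
  | .sg e => (lab e).toNat
  | .uu b => (u (some b)).toNat
  | .vv b => (v (some b)).toNat
  | .xx n => F.X (xi n)
  | .gg n => F.X (gi n)

/-- valid descriptors -/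
private def flOk (F : FillData Lf B BL) : FlD k Lf B BL → Prop
  | .fx s => F.isFix k s
  | .sg e => e ∈ F.E ∧ F.l e = true ∧ F.pf e = false
  | .uu b => some b ∈ F.Pi
  | .vv b => some b ∈ F.Pi
  | .xx n => n ∈ F.E ∧ F.x n = true
  | .gg n => n ∈ F.G

/-- the descriptor of a slot -/
private def flD (F : FillData Lf B BL) (la : Lf → ℕ) (par : BL → B) :
    Fin k ⊕ (Lf ⊕ (B ⊕ BL)) → FlD k Lf B BL
  | .inl i => .fx (.inl i)
  | .inr (.inl x) =>
    match F.kl x with
    | .fix => .fx (.inr (.inl x))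
    | .l => .sg (.inl (la x))
    | .x => .xx (.inl (la x))
    | .g => .gg (.inl (la x))
  | .inr (.inr (.inl b)) =>
    match F.kt b with
    | .fix => .fx (.inr (.inr (.inl b)))
    | .lu => .uu b
  | .inr (.inr (.inr y)) =>
    match F.kb y with
    | .fix => .fx (.inr (.inr (.inr y)))
    | .l => .sg (.inr (par y))
    | .x => .xx (.inr (par y))
    | .g => .gg (.inr (par y))
    | .u => .uu (par y)
    | .v => .vv (par y)

private theorem fl_pi {b : B} (h : F.pr b = true) : some b ∈ F.Pi := by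
  unfold FillData.Pi
  exact Finset.mem_image_of_mem _ (Finset.mem_filter.2 ⟨Finset.mem_univ b, h⟩)

private theorem fl_posL {x : Lf} {K : KL} (h : F.kl x = K) :
    0 < (Finset.univ.filter fun x' => la x' = la x ∧ F.kl x' = K).card :=
  Finset.card_pos.2 ⟨x, Finset.mem_filter.2 ⟨Finset.mem_univ x, rfl, h⟩⟩

private theorem fl_posT {b : B} {K : KT} (h : F.kt b = K) :
    0 < (Finset.univ.filter fun b' => ba b' = ba b ∧ F.kt b' = K).card :=
  Finset.card_pos.2 ⟨b, Finset.mem_filter.2 ⟨Finset.mem_univ b, rfl, h⟩⟩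

private theorem fl_posB {y : BL} {K : KB} (h : F.kb y = K) :
    0 < (Finset.univ.filter fun y' => par y' = par y ∧ F.kb y' = K).card :=
  Finset.card_pos.2 ⟨y, Finset.mem_filter.2 ⟨Finset.mem_univ y, rfl, h⟩⟩

private theorem fl_spec (hF : FillOK F k la ba par) (hR : FillRes F k la ba par lab xi gi u v)
    (s : Fin k ⊕ (Lf ⊕ (B ⊕ BL))) :
    flOk F (flD F la par s) ∧
      labels (k := k) F.p (flF F la lab xi gi) (ftF F ba lab) (fbF F par lab xi gi u v) s =
        flVal F lab xi gi u v (flD F la par s) := by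
  rcases s with i | x | b | y
  · exact ⟨trivial, rfl⟩
  · have h1 := hF.hd.la_pos x
    have h2 : la x < k := by
      have := hF.hd.la_lt x
      omega
    have hlab : labels (k := k) F.p (flF F la lab xi gi) (ftF F ba lab)
      (fbF F par lab xi gi u v) (.inr (.inl x)) = flF F la lab xi gi x := rfl
    rw [hlab]
    unfold flF
    rcases hk : F.kl x with _ | _ | _ | _
    · simp only [flD, hk]
      exact ⟨hk, rfl⟩
    · simp only [flD, hk]
      refine ⟨?_, rfl⟩
      obtain ⟨h3, h4⟩ := fl_of_pos (hF.v_l _ h1 h2) (fl_posL hk)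
      refine ⟨(hF.E_v _).2 ⟨h1, h2, Or.inl h3⟩, h3, ?_⟩
      rw [← Bool.not_eq_true, hF.pf_v _ h1 h2]
      rintro ⟨b, hb⟩
      rw [Finset.card_eq_zero] at h4
      exact Finset.notMem_empty b (h4 ▸ Finset.mem_filter.2 ⟨Finset.mem_univ b, hb⟩)
    · simp only [flD, hk]
      refine ⟨?_, rfl⟩
      have h3 := fl_of_pos' (hF.v_x _ h1 h2) (fl_posL hk)
      exact ⟨(hF.E_v _).2 ⟨h1, h2, Or.inr h3⟩, h3⟩
    · simp only [flD, hk]
      have h3 := fl_of_pos' (hF.v_g _ h1 h2) (fl_posL hk)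
      exact ⟨h3, rfl⟩
  · have hlab : labels (k := k) F.p (flF F la lab xi gi) (ftF F ba lab)
      (fbF F par lab xi gi u v) (.inr (.inr (.inl b))) = ftF F ba lab b := rfl
    rw [hlab]
    unfold ftF
    rcases hk : F.kt b with _ | _
    · simp only [flD, hk]
      exact ⟨hk, rfl⟩
    · simp only [flD, hk]
      refine ⟨fl_pi (hF.lu_pr b hk), ?_⟩
      have h1 : 1 ≤ ba b := by
        have := hF.hd.ba_pos b
        omega
      have h2 : ba b < k := by
        have := hF.hd.ba_lt b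
        omega
      have h3 := hF.v_l _ h1 h2
      rw [add_comm] at h3
      obtain ⟨h4, -⟩ := fl_of_pos h3 (fl_posT hk)
      have h5 : F.pf (Sum.inl (ba b)) = true := (hF.pf_v _ h1 h2).2 ⟨b, rfl, hk⟩
      have h6 := hR.P.pair _ ((hF.E_v _).2 ⟨h1, h2, Or.inl h4⟩) h5
      have h7 : F.ppf (Sum.inl (ba b)) = some b := hF.pp_v b hk
      rw [h7] at h6
      show (lab (Sum.inl (ba b))).toNat = (u (some b)).toNat
      rw [h6]
  · have hlab : labels (k := k) F.p (flF F la lab xi gi) (ftF F ba lab)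
      (fbF F par lab xi gi u v) (.inr (.inr (.inr y))) = fbF F par lab xi gi u v y := rfl
    rw [hlab]
    unfold fbF
    rcases hk : F.kb y with _ | _ | _ | _ | _ | _
    · simp only [flD, hk]
      exact ⟨hk, rfl⟩
    · simp only [flD, hk]
      refine ⟨?_, rfl⟩
      have h3 := fl_of_pos' (hF.b_l _) (fl_posB hk)
      exact ⟨(hF.E_b _).2 (Or.inl h3), h3, hF.pf_b _⟩
    · simp only [flD, hk]
      refine ⟨?_, rfl⟩
      have h3 := fl_of_pos' (hF.b_x _) (fl_posB hk)
      exact ⟨(hF.E_b _).2 (Or.inr h3), h3⟩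
    · simp only [flD, hk]
      have h3 := fl_of_pos' (hF.b_g _) (fl_posB hk)
      exact ⟨h3, rfl⟩
    · simp only [flD, hk]
      exact ⟨fl_pi (fl_of_pos' (hF.b_u _) (fl_posB hk)).1, rfl⟩
    · simp only [flD, hk]
      exact ⟨fl_pi (fl_of_pos' (hF.b_v _) (fl_posB hk)), rfl⟩

private theorem fl_inj (hF : FillOK F k la ba par) (s t : Fin k ⊕ (Lf ⊕ (B ⊕ BL)))
    (h : flD F la par s = flD F la par t) : s = t := by
  have hL : ∀ (x x' : Lf) (K : KL), F.kl x = K → F.kl x' = K → la x = la x' →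
      (Finset.univ.filter fun z => la z = la x ∧ F.kl z = K).card ≤ 1 → x = x' := by
    intro x x' K hx hx' hxx hc
    exact Finset.card_le_one.1 hc x (Finset.mem_filter.2 ⟨Finset.mem_univ x, rfl, hx⟩) x'
      (Finset.mem_filter.2 ⟨Finset.mem_univ x', hxx.symm, hx'⟩)
  have hBB : ∀ (y y' : BL) (K : KB), F.kb y = K → F.kb y' = K → par y = par y' →
      (Finset.univ.filter fun z => par z = par y ∧ F.kb z = K).card ≤ 1 → y = y' := by
    intro y y' K hy hy' hyy hc
    exact Finset.card_le_one.1 hc y (Finset.mem_filter.2 ⟨Finset.mem_univ y, rfl, hy⟩) y'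
      (Finset.mem_filter.2 ⟨Finset.mem_univ y', hyy.symm, hy'⟩)
  have h1 : ∀ x, 1 ≤ la x := hF.hd.la_pos
  have h2 : ∀ x, la x < k := fun x => by
    have := hF.hd.la_lt x
    omega
  rcases s with i | x | b | y <;> rcases t with i' | x' | b' | y'
  · simp only [flD, FlD.fx.injEq] at h
    exact h
  · rcases hk' : F.kl x' with _ | _ | _ | _ <;> simp [flD, hk'] at h
  · rcases hk' : F.kt b' with _ | _ <;> simp [flD, hk'] at h
  · rcases hk' : F.kb y' with _ | _ | _ | _ | _ | _ <;> simp [flD, hk'] at h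
  · rcases hk : F.kl x with _ | _ | _ | _ <;> simp [flD, hk] at h
  · rcases hk : F.kl x with _ | _ | _ | _ <;> rcases hk' : F.kl x' with _ | _ | _ | _ <;>
      simp [flD, hk, hk'] at h
    · rw [h]
    · rw [hL x x' _ hk hk' h (fl_card_le (hF.v_l _ (h1 x) (h2 x)))]
    · rw [hL x x' _ hk hk' h (fl_card_le' (hF.v_x _ (h1 x) (h2 x)))]
    · rw [hL x x' _ hk hk' h (fl_card_le' (hF.v_g _ (h1 x) (h2 x)))]
  · rcases hk : F.kl x with _ | _ | _ | _ <;> rcases hk' : F.kt b' with _ | _ <;>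
      simp [flD, hk, hk'] at h
  · rcases hk : F.kl x with _ | _ | _ | _ <;>
      rcases hk' : F.kb y' with _ | _ | _ | _ | _ | _ <;> simp [flD, hk, hk'] at h
  · rcases hk : F.kt b with _ | _ <;> simp [flD, hk] at h
  · rcases hk : F.kt b with _ | _ <;> rcases hk' : F.kl x' with _ | _ | _ | _ <;>
      simp [flD, hk, hk'] at h
  · rcases hk : F.kt b with _ | _ <;> rcases hk' : F.kt b' with _ | _ <;>
      simp [flD, hk, hk'] at h <;> rw [h]
  · rcases hk : F.kt b with _ | _ <;>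
      rcases hk' : F.kb y' with _ | _ | _ | _ | _ | _ <;> simp [flD, hk, hk'] at h
    exfalso
    have h3 := (fl_of_pos' (hF.b_u _) (fl_posB hk')).2
    rw [← h, hk] at h3
    cases h3
  · rcases hk : F.kb y with _ | _ | _ | _ | _ | _ <;> simp [flD, hk] at h
  · rcases hk : F.kb y with _ | _ | _ | _ | _ | _ <;>
      rcases hk' : F.kl x' with _ | _ | _ | _ <;> simp [flD, hk, hk'] at h
  · rcases hk : F.kb y with _ | _ | _ | _ | _ | _ <;>
      rcases hk' : F.kt b' with _ | _ <;> simp [flD, hk, hk'] at h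
    exfalso
    have h3 := (fl_of_pos' (hF.b_u _) (fl_posB hk)).2
    rw [h, hk'] at h3
    cases h3
  · rcases hk : F.kb y with _ | _ | _ | _ | _ | _ <;>
      rcases hk' : F.kb y' with _ | _ | _ | _ | _ | _ <;> simp [flD, hk, hk'] at h
    · rw [h]
    · rw [hBB y y' _ hk hk' h (fl_card_le' (hF.b_l _))]
    · rw [hBB y y' _ hk hk' h (fl_card_le' (hF.b_x _))]
    · rw [hBB y y' _ hk hk' h (fl_card_le' (hF.b_g _))]
    · rw [hBB y y' _ hk hk' h (fl_card_le' (hF.b_u _))]
    · rw [hBB y y' _ hk hk' h (fl_card_le' (hF.b_v _))]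

/-- the three classes of values -/
private theorem fl_cls (hR : FillRes F k la ba par lab xi gi u v)
    (a : FlD k Lf B BL) (ha : flOk F a) :
    (∃ s, a = .fx s) ∨
    (F.lo ≤ flVal F lab xi gi u v a ∧ flVal F lab xi gi u v a ≤ F.hi) ∨
    (∃ i, 1 ≤ i ∧ i ≤ F.U ∧ flVal F lab xi gi u v a = F.X i) := by
  rcases a with s | e | b | b | n | n
  · exact Or.inl ⟨s, rfl⟩
  · obtain ⟨h1, h2, -⟩ := ha
    have h3 := hR.P.lab_mem e h1 h2
    right
    left
    show F.lo ≤ (lab e).toNat ∧ (lab e).toNat ≤ F.hi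
    omega
  · have h3 := hR.P.u_mem _ ha
    right
    left
    show F.lo ≤ (u (some b)).toNat ∧ (u (some b)).toNat ≤ F.hi
    omega
  · have h3 := hR.P.v_mem _ ha
    right
    left
    show F.lo ≤ (v (some b)).toNat ∧ (v (some b)).toNat ≤ F.hi
    omega
  · obtain ⟨h1, h2⟩ := ha
    have h3 := hR.P.xi_mem n h1 h2
    exact Or.inr (Or.inr ⟨xi n, h3.1, h3.2, rfl⟩)
  · have h3 := hR.gi_mem n ha
    exact Or.inr (Or.inr ⟨gi n, h3.1, h3.2, rfl⟩)

private theorem fl_fx (hF : FillOK F k la ba par) (hR : FillRes F k la ba par lab xi gi u v)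
    {s : Fin k ⊕ (Lf ⊕ (B ⊕ BL))} {a : FlD k Lf B BL} (hs : F.isFix k s) (ha : flOk F a)
    (h : labels (k := k) F.p F.fl0 F.ft0 F.fb0 s = flVal F lab xi gi u v a) : a = .fx s := by
  rcases fl_cls hR a ha with ⟨t, rfl⟩ | h1 | ⟨i, h1, h2, h3⟩
  · rw [hF.fix_inj s t hs ha h]
  · have := hF.fix_mid s hs
    omega
  · exact absurd (h.trans h3) (hF.fix_X s hs i h1 h2)

private theorem fl_val_inj (hF : FillOK F k la ba par)
    (hR : FillRes F k la ba par lab xi gi u v) (a b : FlD k Lf B BL) (ha : flOk F a)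
    (hb : flOk F b) (h : flVal F lab xi gi u v a = flVal F lab xi gi u v b) : a = b := by
  have hlu : ∀ (x y : ℤ), (F.lo : ℤ) ≤ x → (F.lo : ℤ) ≤ y → x.toNat = y.toNat → x = y := by
    intro x y h1 h2 h3
    omega
  have hXx : ∀ (x : ℤ) (i : ℕ), (F.lo : ℤ) ≤ x → i ≤ F.U → x.toNat ≠ F.X i := by
    intro x i h1 h2 h3
    have := hF.X_lo i h2
    omega
  rcases a with s | e | c | c | n | n
  · exact (fl_fx hF hR ha hb h).symm
  all_goals rcases b with t | f | d | d | m | m
  all_goals try exact fl_fx hF hR hb ha h.symm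
  all_goals simp only [flVal] at h
  all_goals simp only [flOk] at ha hb
  -- single labels
  · rw [hR.P.single_inj e ha.1 f hb.1 ha.2.1 ha.2.2 hb.2.1 hb.2.2
      (hlu _ _ (hR.P.lab_mem e ha.1 ha.2.1).1 (hR.P.lab_mem f hb.1 hb.2.1).1 h)]
  · exact absurd (hlu _ _ (hR.P.lab_mem e ha.1 ha.2.1).1 (hR.P.u_mem _ hb).1 h)
      (hR.P.single_u e ha.1 ha.2.1 ha.2.2 _ hb)
  · exact absurd (hlu _ _ (hR.P.lab_mem e ha.1 ha.2.1).1 (hR.P.v_mem _ hb).1 h)
      (hR.P.single_v e ha.1 ha.2.1 ha.2.2 _ hb)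
  · exact absurd h (hXx _ _ (hR.P.lab_mem e ha.1 ha.2.1).1 (hR.P.xi_mem m hb.1 hb.2).2)
  · exact absurd h (hXx _ _ (hR.P.lab_mem e ha.1 ha.2.1).1 (hR.gi_mem m hb).2)
  -- first labels of pairs
  · exact absurd (hlu _ _ (hR.P.lab_mem f hb.1 hb.2.1).1 (hR.P.u_mem _ ha).1 h.symm)
      (hR.P.single_u f hb.1 hb.2.1 hb.2.2 _ ha)
  · rw [Option.some.inj (hR.P.u_inj _ ha _ hb
      (hlu _ _ (hR.P.u_mem _ ha).1 (hR.P.u_mem _ hb).1 h))]
  · exact absurd (hlu _ _ (hR.P.u_mem _ ha).1 (hR.P.v_mem _ hb).1 h) (hR.P.u_v _ ha _ hb)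
  · exact absurd h (hXx _ _ (hR.P.u_mem _ ha).1 (hR.P.xi_mem m hb.1 hb.2).2)
  · exact absurd h (hXx _ _ (hR.P.u_mem _ ha).1 (hR.gi_mem m hb).2)
  -- second labels of pairs
  · exact absurd (hlu _ _ (hR.P.lab_mem f hb.1 hb.2.1).1 (hR.P.v_mem _ ha).1 h.symm)
      (hR.P.single_v f hb.1 hb.2.1 hb.2.2 _ ha)
  · exact absurd (hlu _ _ (hR.P.u_mem _ hb).1 (hR.P.v_mem _ ha).1 h.symm) (hR.P.u_v _ hb _ ha)
  · rw [Option.some.inj (hR.P.v_inj _ ha _ hb
      (hlu _ _ (hR.P.v_mem _ ha).1 (hR.P.v_mem _ hb).1 h))]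
  · exact absurd h (hXx _ _ (hR.P.v_mem _ ha).1 (hR.P.xi_mem m hb.1 hb.2).2)
  · exact absurd h (hXx _ _ (hR.P.v_mem _ ha).1 (hR.gi_mem m hb).2)
  -- labels X
  · exact absurd h.symm (hXx _ _ (hR.P.lab_mem f hb.1 hb.2.1).1 (hR.P.xi_mem n ha.1 ha.2).2)
  · exact absurd h.symm (hXx _ _ (hR.P.u_mem _ hb).1 (hR.P.xi_mem n ha.1 ha.2).2)
  · exact absurd h.symm (hXx _ _ (hR.P.v_mem _ hb).1 (hR.P.xi_mem n ha.1 ha.2).2)
  · rw [hR.P.xi_inj n ha.1 m hb.1 ha.2 hb.2 (hF.X_mono.injective h)]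
  · exact absurd (hF.X_mono.injective h).symm (hR.gi_xi m hb n ha.1 ha.2)
  -- labels of the greedy group
  · exact absurd h.symm (hXx _ _ (hR.P.lab_mem f hb.1 hb.2.1).1 (hR.gi_mem n ha).2)
  · exact absurd h.symm (hXx _ _ (hR.P.u_mem _ hb).1 (hR.gi_mem n ha).2)
  · exact absurd h.symm (hXx _ _ (hR.P.v_mem _ hb).1 (hR.gi_mem n ha).2)
  · exact absurd (hF.X_mono.injective h) (hR.gi_xi n ha m hb.1 hb.2)
  · rw [hR.gi_inj n ha m hb (hF.X_mono.injective h)]

private theorem fl_be (hF : FillOK F k la ba par) (hR : FillRes F k la ba par lab xi gi u v)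
    (a : FlD k Lf B BL) (ha : flOk F a) (hx : ∀ s, a ≠ .fx s) :
    1 ≤ flVal F lab xi gi u v a ∧ flVal F lab xi gi u v a ≤ F.be := by
  rcases fl_cls hR a ha with ⟨t, h1⟩ | h1 | ⟨i, h1, h2, h3⟩
  · exact absurd h1 (hx t)
  · have h2 := hF.X_lo 0 (Nat.zero_le _)
    have h3 := hF.hi_be
    omega
  · have h4 := hF.X_lo i h2
    have h5 := hF.lo_be
    have h6 : i ≤ F.X i := hF.X_mono.le_apply
    omega

theorem fill_labels_inj (hF : FillOK F k la ba par) (hR : FillRes F k la ba par lab xi gi u v) :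
    Function.Injective (labels (k := k) F.p (flF F la lab xi gi) (ftF F ba lab)
      (fbF F par lab xi gi u v)) := by
  intro s t h
  obtain ⟨h1, h2⟩ := fl_spec hF hR s
  obtain ⟨h3, h4⟩ := fl_spec hF hR t
  rw [h2, h4] at h
  exact fl_inj hF s t (fl_val_inj hF hR _ _ h1 h3 h)

theorem fill_labels_rng (hF : FillOK F k la ba par) (hR : FillRes F k la ba par lab xi gi u v)
    (s : Fin k ⊕ (Lf ⊕ (B ⊕ BL))) :
    1 ≤ labels (k := k) F.p (flF F la lab xi gi) (ftF F ba lab) (fbF F par lab xi gi u v) s ∧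
    labels (k := k) F.p (flF F la lab xi gi) (ftF F ba lab) (fbF F par lab xi gi u v) s ≤
      k + Fintype.card Lf + Fintype.card B + Fintype.card BL := by
  obtain ⟨h1, h2⟩ := fl_spec hF hR s
  rw [h2]
  by_cases hx : ∃ t, flD F la par s = .fx t
  · obtain ⟨t, ht⟩ := hx
    rw [ht] at h1 ⊢
    exact ⟨hF.fix_pos t h1, hF.fix_le t h1⟩
  · push Not at hx
    have h3 := fl_be hF hR _ h1 hx
    exact ⟨h3.1, h3.2.trans hF.be_le⟩

/-- the labels at the vertices of degree one are at most `be` -/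
theorem fill_pendant (hF : FillOK F k la ba par) (hR : FillRes F k la ba par lab xi gi u v) :
    (∀ x, flF F la lab xi gi x ≤ F.be) ∧ ∀ y, fbF F par lab xi gi u v y ≤ F.be := by
  constructor
  · intro x
    by_cases hk : F.kl x = KL.fix
    · unfold flF
      rw [hk]
      exact hF.fl_be x hk
    · obtain ⟨h1, h2⟩ := fl_spec hF hR (.inr (.inl x))
      have h3 : flF F la lab xi gi x = _ := h2
      rw [h3]
      refine (fl_be hF hR _ h1 fun s hs => ?_).2
      rcases hk' : F.kl x with _ | _ | _ | _ <;> simp [flD, hk'] at hs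
      exact hk hk'
  · intro y
    by_cases hk : F.kb y = KB.fix
    · unfold fbF
      rw [hk]
      exact hF.fb_be y hk
    · obtain ⟨h1, h2⟩ := fl_spec hF hR (.inr (.inr (.inr y)))
      have h3 : fbF F par lab xi gi u v y = _ := h2
      rw [h3]
      refine (fl_be hF hR _ h1 fun s hs => ?_).2
      rcases hk' : F.kb y with _ | _ | _ | _ | _ | _ <;> simp [flD, hk'] at hs
      exact hk hk'

end Pool.Agent.Lob5
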