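import Pool.Agent.Lob5.FillDefs

/-!
# The vertex sums

Proof. Vertex `i`: split the sum over the leaves at `i` according to the kinds
(`∑ x, if la x = i then fl x else 0 = ∑_{fix} + ∑_{l} + ∑_{x} + ∑_{g}`); on the slots of kind `l` the
label is the constant `lab (inl i)`, so the sum is (number of slots) times the constant; the numbers
are `v_l, v_x, v_g`. The same for the tops at `i` (`fix`, `lu`). Together the number of `l`-leaves and
`lu`-tops is `1` if `F.l (inl i)`, else `0`. For `e = Sum.inl i` no pair is owned by `e` (`own t = inl i`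
with `t ∈ F.Pi` is impossible), so `valK` is `W + lab + X` (`val`, `bz`).
Bush `b`: the top has the label `ft0 b` (kind `fix`, contained in `W0`) or, for kind `lu`, the label
`lab (inl (ba b)) = u (some b)` (`Placed.pair` for the element `inl (ba b)`: it is in `F.E` by `E_v`,
`v_l`, `pf_v`). The bush leaves of kinds `u`, `v` contribute `u (some b)` (if `F.pr b` and `F.kt b = fix`)
and `v (some b)` (if `F.pr b`). So a bush with `F.pr b = true` gets `u (some b) + v (some b)` in total;
in `valK` this is `K` (contained in `W`) plus `u + v - K` (the only `t ∈ F.Pi` with `own t = inr b` is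
`some b`). All integers which occur are `≥ 0`, so `toNat` can be removed.
If a node is in `F.G` then it is not in `F.E` (`G_v, G_b`), so it has no slots of kinds `l, x` and
(`pr_E`, `G_b`) no pair. If a path vertex is neither in `F.E` nor in `F.G` then it has only fixed slots.
-/

namespace Pool.Agent.Lob5

open Pool.Agent.Lob89

variable {k : ℕ} {Lf B BL : Type*} [Fintype Lf] [Fintype B] [Fintype BL] [DecidableEq B]
  {la : Lf → ℕ} {ba : B → ℕ} {par : BL → B} {F : FillData Lf B BL}
  {lab : ℕ ⊕ B → ℤ} {xi gi : ℕ ⊕ B → ℕ} {u v : Option B → ℤ}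

private lemma sum_split (F : FillData Lf B BL) (par : BL → B) (lab : ℕ ⊕ B → ℤ)
    (xi gi : ℕ ⊕ B → ℕ) (u v : Option B → ℤ) (b : B) :
    (∑ y, if par y = b then fbF F par lab xi gi u v y else 0) =
      (∑ y, if par y = b ∧ F.kb y = KB.fix then F.fb0 y else 0)
      + (Finset.univ.filter fun y => par y = b ∧ F.kb y = KB.l).card * (lab (Sum.inr b)).toNat
      + (Finset.univ.filter fun y => par y = b ∧ F.kb y = KB.x).card * F.X (xi (Sum.inr b))
      + (Finset.univ.filter fun y => par y = b ∧ F.kb y = KB.g).card * F.X (gi (Sum.inr b))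
      + (Finset.univ.filter fun y => par y = b ∧ F.kb y = KB.u).card * (u (some b)).toNat
      + (Finset.univ.filter fun y => par y = b ∧ F.kb y = KB.v).card * (v (some b)).toNat := by
  simp only [Finset.card_filter, Finset.sum_mul, ← Finset.sum_add_distrib]
  refine Finset.sum_congr rfl fun y _ => ?_
  by_cases h : par y = b
  · subst h
    cases hk : F.kb y <;> simp [fbF, hk]
  · simp [h]

private lemma filter_own (F : FillData Lf B BL) (b : B) :
    F.Pi.filter (fun t => own t = Sum.inr b) = if F.pr b = true then {some b} else ∅ := by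
  ext t
  cases t with
  | none =>
    split_ifs <;> simp [FillData.Pi]
  | some c =>
    by_cases hc : c = b
    · subst hc
      split_ifs with h <;> simp [FillData.Pi, own, h]
    · split_ifs with h <;> simp [FillData.Pi, own, hc]

private lemma W0_b (F : FillData Lf B BL) (b : B) :
    F.W0 k la ba par (Sum.inr b) = (if F.kt b = KT.fix then F.ft0 b else 0)
      + ∑ y, if par y = b ∧ F.kb y = KB.fix then F.fb0 y else 0 := rfl

private lemma top_lu (hF : FillOK F k la ba par) (hR : FillRes F k la ba par lab xi gi u v) {b : B}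
    (h : F.kt b = KT.lu) : lab (Sum.inl (ba b)) = u (some b) := by
  have h1 : 1 ≤ ba b := le_trans (by norm_num) (hF.hd.ba_pos b)
  have h2 : ba b < k := by
    have := hF.hd.ba_lt b
    omega
  have hpf : F.pf (Sum.inl (ba b)) = true := (hF.pf_v _ h1 h2).2 ⟨b, rfl, h⟩
  have hl : F.l (Sum.inl (ba b)) = true := by
    by_contra hl
    have h3 := hF.v_l _ h1 h2
    rw [if_neg hl] at h3
    have h4 : 0 < (Finset.univ.filter fun b' => ba b' = ba b ∧ F.kt b' = KT.lu).card :=
      Finset.card_pos.2 ⟨b, Finset.mem_filter.2 ⟨Finset.mem_univ _, rfl, h⟩⟩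
    omega
  have hE : Sum.inl (ba b) ∈ F.E := (hF.E_v _).2 ⟨h1, h2, Or.inl hl⟩
  have h5 := hR.P.pair _ hE hpf
  rw [← h5]
  exact congrArg u (hF.pp_v b h)

theorem sum_b_E (hF : FillOK F k la ba par) (hR : FillRes F k la ba par lab xi gi u v) {b : B}
    (h : Sum.inr b ∈ F.E) :
    ((ftF F ba lab b + ∑ y, if par y = b then fbF F par lab xi gi u v y else 0 : ℕ) : ℤ) =
      valK F.l F.x (F.W k la ba par) (fun i => (F.X i : ℤ)) own F.Pi F.K lab xi u v (Sum.inr b) := by
  have hG : Sum.inr b ∉ F.G := fun hg => (hF.G_b b hg).1 h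
  have hV : valK F.l F.x (F.W k la ba par) (fun i => (F.X i : ℤ)) own F.Pi F.K lab xi u v
      (Sum.inr b) = F.W0 k la ba par (Sum.inr b) + (if F.pr b then F.K else 0)
      + bz (F.l (Sum.inr b)) (lab (Sum.inr b)) + bz (F.x (Sum.inr b)) (F.X (xi (Sum.inr b)))
      + ∑ t ∈ F.Pi.filter (fun t => own t = Sum.inr b), (u t + v t - F.K) := rfl
  rw [hV, sum_split, filter_own, hF.b_l, hF.b_x, hF.b_g, hF.b_u, hF.b_v, if_neg hG, W0_b]
  obtain ⟨S, hS⟩ : ∃ S : ℕ, S = ∑ y, if par y = b ∧ F.kb y = KB.fix then F.fb0 y else 0 :=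
    ⟨_, rfl⟩
  rw [← hS]
  have hl : (((if F.l (Sum.inr b) = true then 1 else 0) * (lab (Sum.inr b)).toNat : ℕ) : ℤ) =
      bz (F.l (Sum.inr b)) (lab (Sum.inr b)) := by
    cases hb : F.l (Sum.inr b)
    · simp [bz]
    · have h1 := (hR.P.lab_mem _ h hb).1
      have h2 : (0 : ℤ) ≤ lab (Sum.inr b) := le_trans (Int.natCast_nonneg _) h1
      simp [bz, Int.toNat_of_nonneg h2]
  have hx : (((if F.x (Sum.inr b) = true then 1 else 0) * F.X (xi (Sum.inr b)) : ℕ) : ℤ) =
      bz (F.x (Sum.inr b)) (F.X (xi (Sum.inr b))) := by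
    cases hb : F.x (Sum.inr b) <;> simp [bz]
  rw [← hl, ← hx]
  by_cases hp : F.pr b = true
  · have hm : some b ∈ F.Pi := by
      simp [FillData.Pi, hp]
    have hu : (0 : ℤ) ≤ u (some b) := le_trans (Int.natCast_nonneg _) (hR.P.u_mem _ hm).1
    have hv : (0 : ℤ) ≤ v (some b) := le_trans (Int.natCast_nonneg _) (hR.P.v_mem _ hm).1
    rw [if_pos hp, if_pos hp, if_pos hp, Finset.sum_singleton]
    by_cases hk : F.kt b = KT.fix
    · have e1 : ftF F ba lab b = F.ft0 b := by simp [ftF, hk]
      have e3 : F.pr b = true ∧ F.kt b = KT.fix := ⟨hp, hk⟩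
      rw [e1, if_pos hk, if_pos e3]
      push_cast
      rw [Int.toNat_of_nonneg hu, Int.toNat_of_nonneg hv]
      ring
    · have hk' : F.kt b = KT.lu := by
        cases hk2 : F.kt b
        · exact absurd hk2 hk
        · rfl
      have e1 : ftF F ba lab b = (u (some b)).toNat := by
        have e2 : ftF F ba lab b = (lab (Sum.inl (ba b))).toNat := by simp [ftF, hk']
        rw [e2, top_lu hF hR hk']
      have e3 : ¬ (F.pr b = true ∧ F.kt b = KT.fix) := fun hh => hk hh.2
      rw [e1, if_neg hk, if_neg e3]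
      push_cast
      rw [Int.toNat_of_nonneg hu, Int.toNat_of_nonneg hv]
      ring
  · have hk : F.kt b = KT.fix := by
      cases hk : F.kt b
      · rfl
      · exact absurd (hF.lu_pr b hk) hp
    have e1 : ftF F ba lab b = F.ft0 b := by simp [ftF, hk]
    have e3 : ¬ (F.pr b = true ∧ F.kt b = KT.fix) := fun hh => hp hh.1
    rw [e1, if_neg hp, if_neg hp, if_neg hp, if_neg e3, if_pos hk, Finset.sum_empty]
    push_cast
    ring

theorem sum_b_G (hF : FillOK F k la ba par) (hR : FillRes F k la ba par lab xi gi u v) {b : B}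
    (h : Sum.inr b ∈ F.G) :
    ftF F ba lab b + ∑ y, (if par y = b then fbF F par lab xi gi u v y else 0) =
      F.W0 k la ba par (Sum.inr b) + F.X (gi (Sum.inr b)) := by
  have hE := (hF.G_b b h).1
  have hp : ¬ F.pr b = true := by
    rw [(hF.G_b b h).2]
    exact Bool.false_ne_true
  have hl : ¬ F.l (Sum.inr b) = true := fun hh => hE ((hF.E_b b).2 (Or.inl hh))
  have hx : ¬ F.x (Sum.inr b) = true := fun hh => hE ((hF.E_b b).2 (Or.inr hh))
  have hk : F.kt b = KT.fix := by
    cases hk : F.kt b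
    · rfl
    · exact absurd (hF.lu_pr b hk) hp
  have e1 : ftF F ba lab b = F.ft0 b := by simp [ftF, hk]
  have e3 : ¬ (F.pr b = true ∧ F.kt b = KT.fix) := fun hh => hp hh.1
  rw [sum_split, hF.b_l, hF.b_x, hF.b_g, hF.b_u, hF.b_v, if_pos h, if_neg hl, if_neg hx,
    if_neg e3, if_neg hp, W0_b, if_pos hk, e1]
  ring

end Pool.Agent.Lob5
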