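import Pool.Agent.Lob5.FillDefs

/-!
# The vertex sums

Proof. Vertex `i`: split the sum over the leaves at `i` according to the kinds
(`∑ x, if la x = i then fl x else 0 = ∑_{fix} + ∑_{l} + ∑_{x} + ∑_{g}`); on the slots of kind `l` the
label is the constant `lab (inl i)`, so the sum is (number of slots) times the constant; the numbers
are `v_l, v_x, v_g`. The same for the tops at `i` (`fix`, `lu`). Together the number of `l`-leaves and
`lu`-tops is `1` if `F.l (inl i)`, else `0`. For `e = Sum.inl i` no pair is owned by `e` (`own t = inl i`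
with `t ∈ F.Pi` is impossible), so `valK` is `W + lab + X` (`val`, `bz`).
Bush `b`: the top has the label `ft0 b` (kind `fix`, contained in `W0`) or, for kind `lu`, the label
`lab (inl (ba b)) = u (some b)` (`Placed.pair` for the element `inl (ba b)`: it is in `F.E` by `E_v`,
`v_l`, `pf_v`). The bush leaves of kinds `u`, `v` contribute `u (some b)` (if `F.pr b` and `F.kt b = fix`)
and `v (some b)` (if `F.pr b`). So a bush with `F.pr b = true` gets `u (some b) + v (some b)` in total;
in `valK` this is `K` (contained in `W`) plus `u + v - K` (the only `t ∈ F.Pi` with `own t = inr b` is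
`some b`). All integers which occur are `≥ 0`, so `toNat` can be removed.
If a node is in `F.G` then it is not in `F.E` (`G_v, G_b`), so it has no slots of kinds `l, x` and
(`pr_E`, `G_b`) no pair. If a path vertex is neither in `F.E` nor in `F.G` then it has only fixed slots.
-/

namespace Pool.Agent.Lob5

open Pool.Agent.Lob89

variable {k : ℕ} {Lf B BL : Type*} [Fintype Lf] [Fintype B] [Fintype BL] [DecidableEq B]
  {la : Lf → ℕ} {ba : B → ℕ} {par : BL → B} {F : FillData Lf B BL}
  {lab : ℕ ⊕ B → ℤ} {xi gi : ℕ ⊕ B → ℕ} {u v : Option B → ℤ}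

private theorem sum_if_const {ι : Type*} [Fintype ι] (P : ι → Prop) [DecidablePred P] (c : ℕ) :
    (∑ x, if P x then c else 0) = (Finset.univ.filter P).card * c := by
  rw [← Finset.sum_filter, Finset.sum_const, smul_eq_mul]

omit [Fintype B] [Fintype BL] [DecidableEq B] in
private theorem leaf_split (F : FillData Lf B BL) (la : Lf → ℕ) (lab : ℕ ⊕ B → ℤ)
    (xi gi : ℕ ⊕ B → ℕ) (i : ℕ) :
    (∑ x, if la x = i then flF F la lab xi gi x else 0) =
      (∑ x, if la x = i ∧ F.kl x = KL.fix then F.fl0 x else 0)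
      + (Finset.univ.filter fun x => la x = i ∧ F.kl x = KL.l).card * (lab (Sum.inl i)).toNat
      + (Finset.univ.filter fun x => la x = i ∧ F.kl x = KL.x).card * F.X (xi (Sum.inl i))
      + (Finset.univ.filter fun x => la x = i ∧ F.kl x = KL.g).card * F.X (gi (Sum.inl i)) := by
  rw [← sum_if_const, ← sum_if_const, ← sum_if_const, ← Finset.sum_add_distrib,
    ← Finset.sum_add_distrib, ← Finset.sum_add_distrib]
  refine Finset.sum_congr rfl fun x _ => ?_
  by_cases h : la x = i
  · subst h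
    unfold flF
    cases hk : F.kl x <;> simp
  · simp [h]

omit [Fintype Lf] [Fintype BL] [DecidableEq B] in
private theorem top_split (F : FillData Lf B BL) (ba : B → ℕ) (lab : ℕ ⊕ B → ℤ) (i : ℕ) :
    (∑ b, if ba b = i then ftF F ba lab b else 0) =
      (∑ b, if ba b = i ∧ F.kt b = KT.fix then F.ft0 b else 0)
      + (Finset.univ.filter fun b => ba b = i ∧ F.kt b = KT.lu).card * (lab (Sum.inl i)).toNat := by
  rw [← sum_if_const, ← Finset.sum_add_distrib]
  refine Finset.sum_congr rfl fun b _ => ?_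
  by_cases h : ba b = i
  · subst h
    unfold ftF
    cases hk : F.kt b <;> simp
  · simp [h]

private theorem pathSum_eq (hF : FillOK F k la ba par) (lab : ℕ ⊕ B → ℤ) (xi gi : ℕ ⊕ B → ℕ)
    {i : ℕ} (h1 : 1 ≤ i) (h2 : i < k) :
    pathSum k la ba F.p (flF F la lab xi gi) (ftF F ba lab) i =
      F.W0 k la ba par (Sum.inl i)
      + (if F.l (Sum.inl i) then 1 else 0) * (lab (Sum.inl i)).toNat
      + (if F.x (Sum.inl i) then 1 else 0) * F.X (xi (Sum.inl i))
      + (if Sum.inl i ∈ F.G then 1 else 0) * F.X (gi (Sum.inl i)) := by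
  unfold pathSum FillData.W0
  rw [leaf_split, top_split, ← hF.v_l i h1 h2, ← hF.v_x i h1 h2, ← hF.v_g i h1 h2]
  ring

theorem sum_v_E (hF : FillOK F k la ba par) (hR : FillRes F k la ba par lab xi gi u v) {i : ℕ}
    (h : Sum.inl i ∈ F.E) :
    (pathSum k la ba F.p (flF F la lab xi gi) (ftF F ba lab) i : ℤ) =
      valK F.l F.x (F.W k la ba par) (fun i => (F.X i : ℤ)) own F.Pi F.K lab xi u v (Sum.inl i) := by
  obtain ⟨h1, h2, h3⟩ := (hF.E_v i).1 h
  have hG : Sum.inl i ∉ F.G := fun hg => (hF.G_v i hg).2.2 h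
  rw [pathSum_eq hF lab xi gi h1 h2, if_neg hG]
  have hfil : F.Pi.filter (fun t => own t = (Sum.inl i : ℕ ⊕ B)) = ∅ := by
    refine Finset.filter_eq_empty_iff.2 ?_
    intro t _ ht
    cases t with
    | none =>
      have : (0 : ℕ) = i := Sum.inl_injective ht
      omega
    | some b => exact absurd ht (by simp [own])
  have hW : F.W k la ba par (Sum.inl i) = (F.W0 k la ba par (Sum.inl i) : ℤ) := by
    simp [FillData.W]
  unfold valK val
  rw [hfil, hW]
  have hl : (((if F.l (Sum.inl i) then 1 else 0) * (lab (Sum.inl i)).toNat : ℕ) : ℤ) =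
      bz (F.l (Sum.inl i)) (lab (Sum.inl i)) := by
    unfold bz
    by_cases hl : F.l (Sum.inl i) = true
    · have h0 : (0 : ℤ) ≤ lab (Sum.inl i) :=
        le_trans (Int.natCast_nonneg _) (hR.P.lab_mem _ h hl).1
      simp [hl, Int.toNat_of_nonneg h0]
    · simp [hl]
  have hx : (((if F.x (Sum.inl i) then 1 else 0) * F.X (xi (Sum.inl i)) : ℕ) : ℤ) =
      bz (F.x (Sum.inl i)) (F.X (xi (Sum.inl i)) : ℤ) := by
    unfold bz
    by_cases hx : F.x (Sum.inl i) = true
    · simp [hx]
    · simp [hx]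
  rw [← hl, ← hx]
  push_cast
  simp

theorem sum_v_G (hF : FillOK F k la ba par) (hR : FillRes F k la ba par lab xi gi u v) {i : ℕ}
    (h : Sum.inl i ∈ F.G) :
    pathSum k la ba F.p (flF F la lab xi gi) (ftF F ba lab) i =
      F.W0 k la ba par (Sum.inl i) + F.X (gi (Sum.inl i)) := by
  obtain ⟨h1, h2, h3⟩ := hF.G_v i h
  have hl : ¬ F.l (Sum.inl i) = true := fun hl => h3 ((hF.E_v i).2 ⟨h1, h2, Or.inl hl⟩)
  have hx : ¬ F.x (Sum.inl i) = true := fun hx => h3 ((hF.E_v i).2 ⟨h1, h2, Or.inr hx⟩)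
  rw [pathSum_eq hF lab xi gi h1 h2, if_neg hl, if_neg hx, if_pos h]
  ring

theorem sum_v_fix (hF : FillOK F k la ba par) (hR : FillRes F k la ba par lab xi gi u v) {i : ℕ}
    (h1 : 1 ≤ i) (h2 : i < k) (hE : Sum.inl i ∉ F.E) (hG : Sum.inl i ∉ F.G) :
    pathSum k la ba F.p (flF F la lab xi gi) (ftF F ba lab) i =
      F.W0 k la ba par (Sum.inl i) := by
  have hl : ¬ F.l (Sum.inl i) = true := fun hl => hE ((hF.E_v i).2 ⟨h1, h2, Or.inl hl⟩)
  have hx : ¬ F.x (Sum.inl i) = true := fun hx => hE ((hF.E_v i).2 ⟨h1, h2, Or.inr hx⟩)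
  rw [pathSum_eq hF lab xi gi h1 h2, if_neg hl, if_neg hx, if_neg hG]
  ring

end Pool.Agent.Lob5
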