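import Pool.Agent.Lob5.FillRes
import Pool.Agent.Lob5.FillLab
import Pool.Agent.Lob5.FillSumV
import Pool.Agent.Lob5.FillSumB

/-!
# The filling theorem

Proof. Take `lab, xi, gi, u, v` from `fill_res`, `p := F.p`, `fl := flF ..`, `ft := ftF ..`, `fb
:= fbF ..`. Labels: `fill_labels_inj`, `fill_labels_rng`. Vertex sums: the vertices of degree one
(the path vertices `0` and `k`: `pathSum` is `F.p 1` resp. `F.p k` since by `LobData` nothing
hangs there; leaves; bush leaves) have as sums the labels of their edges; they are pairwise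
different by injectivity of the labels (`2 ≤ k`), and at most `F.be` (`p_one, p_last,
fill_pendant`). The other vertices are nodes in `F.E` (sums `valK`, `> thr`, distinct, not in `Z ∪
R`), nodes in `F.G` (sums `W0 + X (gi)`, at least `g0 + X 1 > be`, at most `g1 + X U ≤ thr`,
distinct; `G` nonempty gives `1 ≤ U` by `g_card`), or path vertices with fixed sums `W0`
(distinct; `> be` or the label of an inner path edge, which is not the label of an edge at a
vertex of degree one; `fx_g`; `fx_thr`). Every bush is in `E` or in `G` (`EG_b`).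
-/

namespace Pool.Agent.Lob5

open Pool.Agent.Lob89

variable {k : ℕ} {Lf B BL : Type*} [Fintype Lf] [Fintype B] [Fintype BL] [DecidableEq B]
  {la : Lf → ℕ} {ba : B → ℕ} {par : BL → B} {F : FillData Lf B BL}
  {lab : ℕ ⊕ B → ℤ} {xi gi : ℕ ⊕ B → ℕ} {u v : Option B → ℤ}

/-- the sum at a node -/
private def V_Fill (F : FillData Lf B BL) (k : ℕ) (la : Lf → ℕ) (ba : B → ℕ) (par : BL → B)
    (lab : ℕ ⊕ B → ℤ) (xi gi : ℕ ⊕ B → ℕ) (u v : Option B → ℤ) : ℕ ⊕ B → ℕ
  | Sum.inl i => pathSum k la ba F.p (flF F la lab xi gi) (ftF F ba lab) i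
  | Sum.inr b => ftF F ba lab b + ∑ y, if par y = b then fbF F par lab xi gi u v y else 0

/-- inner path vertices and bushes -/
private def Nd_Fill (k : ℕ) : ℕ ⊕ B → Prop
  | Sum.inl i => 1 ≤ i ∧ i < k
  | Sum.inr _ => True

private theorem V_E_Fill (hF : FillOK F k la ba par)
    (hR : FillRes F k la ba par lab xi gi u v) {n : ℕ ⊕ B} (h : n ∈ F.E) :
    (V_Fill F k la ba par lab xi gi u v n : ℤ) =
      valK F.l F.x (F.W k la ba par) (fun i => (F.X i : ℤ)) own F.Pi F.K lab xi u v n := by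
  cases n with
  | inl i => exact sum_v_E hF hR h
  | inr b => exact sum_b_E hF hR h

private theorem V_G_Fill (hF : FillOK F k la ba par)
    (hR : FillRes F k la ba par lab xi gi u v) {n : ℕ ⊕ B} (h : n ∈ F.G) :
    V_Fill F k la ba par lab xi gi u v n = F.W0 k la ba par n + F.X (gi n) := by
  cases n with
  | inl i => exact sum_v_G hF hR h
  | inr b => exact sum_b_G hF hR h

/-- the bounds in the greedy group -/
private theorem V_G_bd_Fill (hF : FillOK F k la ba par)
    (hR : FillRes F k la ba par lab xi gi u v) {n : ℕ ⊕ B} (h : n ∈ F.G) : 1 ≤ F.U ∧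
    F.g0 + F.X 1 ≤ V_Fill F k la ba par lab xi gi u v n ∧
    V_Fill F k la ba par lab xi gi u v n ≤ F.g1 + F.X F.U := by
  have h1 := hR.gi_mem n h
  have h2 := hF.g_rng n h
  have h3 : F.X 1 ≤ F.X (gi n) := hF.X_mono.monotone h1.1
  have h4 : F.X (gi n) ≤ F.X F.U := hF.X_mono.monotone h1.2
  rw [V_G_Fill hF hR h]
  exact ⟨h1.1.trans h1.2, by omega, by omega⟩

/-- the fixed nodes -/
private theorem V_F_Fill (hF : FillOK F k la ba par)
    (hR : FillRes F k la ba par lab xi gi u v) {n : ℕ ⊕ B} (hn : Nd_Fill k n) (hE : n ∉ F.E)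
    (hG : n ∉ F.G) : ∃ i, n = Sum.inl i ∧ 1 ≤ i ∧ i < k ∧
      V_Fill F k la ba par lab xi gi u v n = F.W0 k la ba par n := by
  cases n with
  | inl i => exact ⟨i, rfl, hn.1, hn.2, sum_v_fix hF hR hn.1 hn.2 hE hG⟩
  | inr b =>
    rcases hF.EG_b b with h | h
    · exact absurd h hE
    · exact absurd h hG

private theorem lt_E_Fill (hF : FillOK F k la ba par)
    (hR : FillRes F k la ba par lab xi gi u v) {n : ℕ ⊕ B} (h : n ∈ F.E) :
    F.thr < V_Fill F k la ba par lab xi gi u v n := by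
  have h1 := hR.val_thr n h
  rw [← V_E_Fill hF hR h] at h1
  exact_mod_cast h1

/-- nodes in `E` and nodes which are not in `E` -/
private theorem ne_E_Fill (hF : FillOK F k la ba par)
    (hR : FillRes F k la ba par lab xi gi u v) {n n' : ℕ ⊕ B} (hn' : Nd_Fill k n')
    (h : n ∈ F.E) (h' : n' ∉ F.E) :
    V_Fill F k la ba par lab xi gi u v n ≠ V_Fill F k la ba par lab xi gi u v n' := by
  intro he
  have h1 := lt_E_Fill hF hR h
  by_cases hG : n' ∈ F.G
  · obtain ⟨h2, h3, h4⟩ := V_G_bd_Fill hF hR hG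
    have h5 := hF.g_thr h2
    omega
  · obtain ⟨i, rfl, h2, h3, h4⟩ := V_F_Fill hF hR hn' h' hG
    rcases hF.fx_thr i h2 h3 h' hG with h5 | h5
    · omega
    · apply hR.val_ZR n h
      rw [← V_E_Fill hF hR h, he, h4]
      exact h5

/-- nodes in `G` and fixed nodes -/
private theorem ne_G_Fill (hF : FillOK F k la ba par)
    (hR : FillRes F k la ba par lab xi gi u v) {n n' : ℕ ⊕ B} (hn' : Nd_Fill k n')
    (h : n ∈ F.G) (h' : n' ∉ F.E) (h'' : n' ∉ F.G) :
    V_Fill F k la ba par lab xi gi u v n ≠ V_Fill F k la ba par lab xi gi u v n' := by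
  intro he
  obtain ⟨h1, h2, h3⟩ := V_G_bd_Fill hF hR h
  obtain ⟨i, rfl, h4, h5, h6⟩ := V_F_Fill hF hR hn' h' h''
  have h7 := hF.fx_g i h4 h5 h' h'' h1
  omega

/-- the sums at the nodes are distinct -/
private theorem nd_inj_Fill (hF : FillOK F k la ba par)
    (hR : FillRes F k la ba par lab xi gi u v) {n n' : ℕ ⊕ B} (hn : Nd_Fill k n)
    (hn' : Nd_Fill k n')
    (he : V_Fill F k la ba par lab xi gi u v n = V_Fill F k la ba par lab xi gi u v n') :
    n = n' := by
  by_cases hE : n ∈ F.E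
  · by_cases hE' : n' ∈ F.E
    · apply hR.val_inj n hE n' hE'
      rw [← V_E_Fill hF hR hE, ← V_E_Fill hF hR hE', he]
    · exact absurd he (ne_E_Fill hF hR hn' hE hE')
  · by_cases hE' : n' ∈ F.E
    · exact absurd he.symm (ne_E_Fill hF hR hn hE' hE)
    · by_cases hG : n ∈ F.G
      · by_cases hG' : n' ∈ F.G
        · apply hR.g_inj n hG n' hG'
          rw [← V_G_Fill hF hR hG, ← V_G_Fill hF hR hG', he]
        · exact absurd he (ne_G_Fill hF hR hn' hG hE' hG')
      · by_cases hG' : n' ∈ F.G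
        · exact absurd he.symm (ne_G_Fill hF hR hn hG' hE hG)
        · obtain ⟨i, rfl, h4, h5, h6⟩ := V_F_Fill hF hR hn hE hG
          obtain ⟨j, rfl, g4, g5, g6⟩ := V_F_Fill hF hR hn' hE' hG'
          rw [h6, g6] at he
          exact congrArg Sum.inl (hF.fx_inj i j h4 h5 g4 g5 hE hG hE' hG' he)

/-- the sum at a node is large, or the label of an inner edge of the path -/
private theorem nd_gt_Fill (hF : FillOK F k la ba par)
    (hR : FillRes F k la ba par lab xi gi u v) {n : ℕ ⊕ B} (hn : Nd_Fill k n) :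
    F.be < V_Fill F k la ba par lab xi gi u v n ∨
      ∃ e, 2 ≤ e ∧ e < k ∧ V_Fill F k la ba par lab xi gi u v n = F.p e := by
  by_cases hE : n ∈ F.E
  · exact Or.inl (hF.be_thr.trans_lt (lt_E_Fill hF hR hE))
  · by_cases hG : n ∈ F.G
    · obtain ⟨h1, h2, h3⟩ := V_G_bd_Fill hF hR hG
      exact Or.inl ((hF.g_be h1).trans_le h2)
    · obtain ⟨i, rfl, h4, h5, h6⟩ := V_F_Fill hF hR hn hE hG
      rw [h6]
      exact hF.fx_be i h4 h5 hE hG

private theorem sum_zero_Fill {ι : Type*} [Fintype ι] (f : ι → ℕ) (g : ι → ℕ) (i : ℕ)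
    (h : ∀ x, f x ≠ i) : (∑ x, if f x = i then g x else 0) = 0 :=
  Finset.sum_eq_zero fun x _ => if_neg (h x)

omit [Fintype BL] [DecidableEq B] in
private theorem path_zero_Fill (hd : LobData k la ba par) (p : ℕ → ℕ) (fl : Lf → ℕ)
    (ft : B → ℕ) : pathSum k la ba p fl ft 0 = p 1 := by
  have h1 := hd.two_le
  unfold pathSum
  rw [sum_zero_Fill la fl 0 fun x => by have := hd.la_pos x; omega,
    sum_zero_Fill ba ft 0 fun x => by have := hd.ba_pos x; omega, if_neg (by omega),
    if_pos (by omega)]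
  simp

omit [Fintype BL] [DecidableEq B] in
private theorem path_last_Fill (hd : LobData k la ba par) (p : ℕ → ℕ) (fl : Lf → ℕ)
    (ft : B → ℕ) : pathSum k la ba p fl ft k = p k := by
  have h1 := hd.two_le
  unfold pathSum
  rw [sum_zero_Fill la fl k fun x => by have := hd.la_lt x; omega,
    sum_zero_Fill ba ft k fun x => by have := hd.ba_lt x; omega, if_neg (lt_irrefl k),
    if_pos (by omega)]
  omega

/-- the vertices of degree one are replaced by their edges -/
private def cd_Fill (hk : 0 < k) :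
    Fin (k + 1) ⊕ (Lf ⊕ (B ⊕ BL)) → (Fin k ⊕ (Lf ⊕ (B ⊕ BL))) ⊕ (ℕ ⊕ B)
  | Sum.inl i => if (i : ℕ) = 0 then Sum.inl (Sum.inl ⟨0, hk⟩)
      else if (i : ℕ) = k then Sum.inl (Sum.inl ⟨k - 1, Nat.sub_lt hk Nat.one_pos⟩)
      else Sum.inr (Sum.inl i)
  | Sum.inr (Sum.inl x) => Sum.inl (Sum.inr (Sum.inl x))
  | Sum.inr (Sum.inr (Sum.inl b)) => Sum.inr (Sum.inr b)
  | Sum.inr (Sum.inr (Sum.inr y)) => Sum.inl (Sum.inr (Sum.inr (Sum.inr y)))

omit [Fintype Lf] [Fintype B] [Fintype BL] [DecidableEq B] in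
private theorem cd_l_Fill (hk0 : 0 < k) (i : Fin (k + 1)) :
    (cd_Fill (Lf := Lf) (B := B) (BL := BL) hk0 (Sum.inl i) = Sum.inl (Sum.inl ⟨0, hk0⟩) ∧
      (i : ℕ) = 0) ∨
    (cd_Fill (Lf := Lf) (B := B) (BL := BL) hk0 (Sum.inl i) =
      Sum.inl (Sum.inl ⟨k - 1, Nat.sub_lt hk0 Nat.one_pos⟩) ∧ (i : ℕ) = k) ∨
    (cd_Fill (Lf := Lf) (B := B) (BL := BL) hk0 (Sum.inl i) = Sum.inr (Sum.inl (i : ℕ)) ∧
      1 ≤ (i : ℕ) ∧ (i : ℕ) < k) := by
  by_cases h0 : (i : ℕ) = 0
  · exact Or.inl ⟨if_pos h0, h0⟩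
  · by_cases h1 : (i : ℕ) = k
    · exact Or.inr (Or.inl ⟨(if_neg h0).trans (if_pos h1), h1⟩)
    · have h2 := i.2
      exact Or.inr (Or.inr ⟨(if_neg h0).trans (if_neg h1), by omega, by omega⟩)

omit [Fintype Lf] [Fintype B] [Fintype BL] [DecidableEq B] in
private theorem cd_inj_Fill (hk : 2 ≤ k) (hk0 : 0 < k) : Function.Injective
    (cd_Fill (k := k) (Lf := Lf) (B := B) (BL := BL) hk0) := by
  have hne : (⟨0, hk0⟩ : Fin k) ≠ ⟨k - 1, Nat.sub_lt hk0 Nat.one_pos⟩ := by
    intro h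
    have h1 := congrArg Fin.val h
    have h2 : 0 = k - 1 := h1
    omega
  intro s t h
  rcases s with i | x | b | y <;> rcases t with j | x' | b' | y'
  · have : (i : ℕ) = j := by
      rcases cd_l_Fill (Lf := Lf) (B := B) (BL := BL) hk0 i with ⟨h1, h2⟩ | ⟨h1, h2⟩ | ⟨h1, h2⟩ <;>
        rcases cd_l_Fill (Lf := Lf) (B := B) (BL := BL) hk0 j with
          ⟨h3, h4⟩ | ⟨h3, h4⟩ | ⟨h3, h4⟩ <;>
        rw [h1, h3] at h
      · omega
      · exact absurd (Sum.inl.inj (Sum.inl.inj h)) hne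
      · cases h
      · exact absurd (Sum.inl.inj (Sum.inl.inj h)).symm hne
      · omega
      · cases h
      · cases h
      · cases h
      · exact Sum.inl.inj (Sum.inr.inj h)
    rw [Fin.ext this]
  all_goals first
    | (rcases cd_l_Fill (Lf := Lf) (B := B) (BL := BL) hk0 i with ⟨h1, h2⟩ | ⟨h1, h2⟩ | ⟨h1, h2⟩ <;>
        rw [h1] at h <;> cases h)
    | (rcases cd_l_Fill (Lf := Lf) (B := B) (BL := BL) hk0 j with ⟨h1, h2⟩ | ⟨h1, h2⟩ | ⟨h1, h2⟩ <;>
        rw [h1] at h <;> cases h)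
    | (cases h; rfl)
    | (cases h)

theorem fill (hF : FillOK F k la ba par) : HasLabels k la ba par := by
  obtain ⟨lab, xi, gi, u, v, hR⟩ := fill_res hF
  have hk := hF.hd.two_le
  have hk0 : 0 < k := by omega
  obtain ⟨hfl, hfb⟩ := fill_pendant hF hR
  have hinj := fill_labels_inj hF hR
  refine ⟨F.p, flF F la lab xi gi, ftF F ba lab, fbF F par lab xi gi u v, hinj,
    fill_labels_rng hF hR, ?_⟩
  have hcd : ∀ s, vsums k la ba par F.p (flF F la lab xi gi) (ftF F ba lab)
      (fbF F par lab xi gi u v) s = Sum.elim (labels (k := k) F.p (flF F la lab xi gi)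
        (ftF F ba lab) (fbF F par lab xi gi u v)) (V_Fill F k la ba par lab xi gi u v)
        (cd_Fill hk0 s) := by
    intro s
    rcases s with i | x | b | y
    · change pathSum k la ba F.p (flF F la lab xi gi) (ftF F ba lab) i = _
      rcases cd_l_Fill (Lf := Lf) (B := B) (BL := BL) hk0 i with ⟨h1, h2⟩ | ⟨h1, h2⟩ | ⟨h1, h2⟩
      · rw [h1, h2, path_zero_Fill hF.hd]
        rfl
      · rw [h1, h2, path_last_Fill hF.hd]
        change F.p k = F.p (k - 1 + 1)
        rw [Nat.sub_add_cancel (by omega)]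
      · rw [h1]
        rfl
    · rfl
    · rfl
    · rfl
  have hb : ∀ s t, cd_Fill hk0 s = Sum.inl t → labels (k := k) F.p (flF F la lab xi gi)
      (ftF F ba lab) (fbF F par lab xi gi u v) t ≤ F.be ∧
      ∀ j : Fin k, 1 ≤ (j : ℕ) → (j : ℕ) + 1 < k → t ≠ Sum.inl j := by
    intro s t h
    rcases s with i | x | b | y
    · rcases cd_l_Fill (Lf := Lf) (B := B) (BL := BL) hk0 i with ⟨h1, h2⟩ | ⟨h1, h2⟩ | ⟨h1, h2⟩
      · rw [h1] at h
        rw [← Sum.inl.inj h]
        refine ⟨hF.p_one, fun j hj1 hj2 hj => ?_⟩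
        have h3 := congrArg Fin.val (Sum.inl.inj hj)
        change 0 = (j : ℕ) at h3
        omega
      · rw [h1] at h
        rw [← Sum.inl.inj h]
        refine ⟨?_, fun j hj1 hj2 hj => ?_⟩
        · change F.p (k - 1 + 1) ≤ F.be
          rw [Nat.sub_add_cancel (by omega)]
          exact hF.p_last
        · have h3 := congrArg Fin.val (Sum.inl.inj hj)
          change k - 1 = (j : ℕ) at h3
          omega
      · rw [h1] at h
        cases h
    · rw [← Sum.inl.inj h]
      exact ⟨hfl x, fun j _ _ hj => by cases hj⟩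
    · exact absurd h (by simp [cd_Fill])
    · rw [← Sum.inl.inj h]
      exact ⟨hfb y, fun j _ _ hj => by cases hj⟩
  have hn : ∀ s n, cd_Fill (Lf := Lf) (BL := BL) hk0 s = Sum.inr n → Nd_Fill (B := B) k n := by
    intro s n h
    rcases s with i | x | b | y
    · rcases cd_l_Fill (Lf := Lf) (B := B) (BL := BL) hk0 i with ⟨h1, h2⟩ | ⟨h1, h2⟩ | ⟨h1, h2⟩
      · rw [h1] at h
        cases h
      · rw [h1] at h
        cases h
      · rw [h1] at h
        rw [← Sum.inr.inj h]
        exact h2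
    · exact absurd h (by simp [cd_Fill])
    · rw [← Sum.inr.inj h]
      trivial
    · exact absurd h (by simp [cd_Fill])
  have hne : ∀ (s s' : Fin (k + 1) ⊕ (Lf ⊕ (B ⊕ BL))) t n,
      cd_Fill hk0 s = Sum.inl t → cd_Fill hk0 s' = Sum.inr n →
      labels (k := k) F.p (flF F la lab xi gi) (ftF F ba lab) (fbF F par lab xi gi u v) t ≠
        V_Fill F k la ba par lab xi gi u v n := by
    intro s s' t n h h' he
    obtain ⟨h1, h2⟩ := hb s t h
    rcases nd_gt_Fill hF hR (hn s' n h') with h3 | ⟨e, h3, h4, h5⟩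
    · omega
    · have h6 : labels (k := k) F.p (flF F la lab xi gi) (ftF F ba lab)
          (fbF F par lab xi gi u v) (Sum.inl (⟨e - 1, by omega⟩ : Fin k)) = F.p e := by
        change F.p (e - 1 + 1) = F.p e
        rw [Nat.sub_add_cancel (by omega)]
      have h7 := hinj (he.trans (h5.trans h6.symm))
      refine h2 (⟨e - 1, by omega⟩ : Fin k) ?_ ?_ h7
      · change 1 ≤ e - 1
        omega
      · change e - 1 + 1 < k
        omega
  intro s s' h
  rw [hcd, hcd] at h
  apply cd_inj_Fill hk hk0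
  cases h1 : cd_Fill hk0 s with
  | inl t =>
    cases h2 : cd_Fill hk0 s' with
    | inl t' =>
      rw [h1, h2] at h
      exact congrArg Sum.inl (hinj h)
    | inr n' =>
      rw [h1, h2] at h
      exact absurd h (hne s s' t n' h1 h2)
  | inr n =>
    cases h2 : cd_Fill hk0 s' with
    | inl t' =>
      rw [h1, h2] at h
      exact absurd h.symm (hne s' s t' n h2 h1)
    | inr n' =>
      rw [h1, h2] at h
      exact congrArg Sum.inr (nd_inj_Fill hF hR (hn s n h1) (hn s' n' h2) h)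

end Pool.Agent.Lob5
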