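import Pool.Agent.Lob5.WEval

/-!
# Verification: the nodes with fixed sums

Proof. Path vertices outside `E` and `G` have one of the roles `C`, `As` (with `Y.lg i = false`),
`Fs`, `Z`, `R3`, `R4`, `FR` (the others have `hasl`). Their sums (`W0_v`, `W00_base`, `W00_top`):
`C`: `Y.bs i`; `As`, `Fs` (these are the vertices in `Y.ys`): `Y.bs i + Y.yv i`; static vertices
(`isT`): `W00 (inl i)`, which is at least `Y.bs i + (w+N0+Q+τ b)` with `b` the designated bush
(`dg_ex, ds_dg, dg_ba`; it has a `T` top: `L`, `st`, `sp`, `xo`) and `τ b ≥ 1`, hence `> thr` by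
`bT`. (A vertex of role `C, As, Fs` or static is not in `Low` and not `II`.)
* `fx_inj`: `C_inj, V_C, V_inj`, `TauOK.st`; `C`, `As`, `Fs` have sums `≤ thr` (`C_thr, V_thr`).
* `fx_be`: `C_be, V_be`; `be ≤ thr` (`be_thr`). `fx_g`: `C_gap, V_gap`; static:
  `> thr ≥ g1 + X U` (`g1_thr`).
* `fx_thr`: `C_thr, V_thr`; static: by definition of `ZF`, `RF` the sum is in `Z ∪ R`.
-/

namespace Pool.Agent.Lob5

open Pool.Agent.Lob89

variable {Lf B BL : Type*} [Fintype Lf] [Fintype B] [Fintype BL] [DecidableEq B]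
  {D : PlanData Lf B BL} {N : Nm} {Y : Ly} {c : Cfg Lf B BL} {k : ℕ}
  {la : Lf → ℕ} {ba : B → ℕ} {par : BL → B}

private theorem VFx_cases {i : ℕ} (h1 : 1 ≤ i) (h2 : i < k)
    (hE : Sum.inl i ∉ (mkFill D N Y c k la ba par).E)
    (hG : Sum.inl i ∉ (mkFill D N Y c k la ba par).G) :
    D.rv i = .C ∨ Y.ys D.rv i ∨ (D.rv i).isT = true := by
  have hE' : ¬ (D.rv i).hasl = true := by
    intro h3
    apply hE
    exact Finset.inl_mem_disjSum.2 (Finset.mem_filter.2 ⟨Finset.mem_range.2 h2, h1, h3⟩)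
  have hG' : ¬ (D.rv i = .As ∧ Y.lg i = true) := by
    intro h3
    apply hG
    exact Finset.inl_mem_disjSum.2 (Finset.mem_filter.2 ⟨Finset.mem_range.2 h2, h1, h3⟩)
  cases hr : D.rv i with
  | C => exact Or.inl rfl
  | A => exact absurd (by rw [hr]; rfl) hE'
  | As =>
    right; left; left
    refine ⟨hr, ?_⟩
    cases hl : Y.lg i with
    | false => rfl
    | true => exact absurd ⟨hr, hl⟩ hG'
  | F => exact absurd (by rw [hr]; rfl) hE'
  | Fs => exact Or.inr (Or.inl (Or.inr hr))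
  | FR => exact Or.inr (Or.inr rfl)
  | II => exact absurd (by rw [hr]; rfl) hE'
  | I => exact absurd (by rw [hr]; rfl) hE'
  | Z => exact Or.inr (Or.inr rfl)
  | R3 => exact Or.inr (Or.inr rfl)
  | R4 => exact Or.inr (Or.inr rfl)

private theorem VFx_low (h : CfgOK D N Y c k la ba par) {i : ℕ}
    (hr : ¬ (D.rv i = .II ∨ D.rv i = .I)) : Sum.inl i ∉ c.Low := by
  intro h3
  exact hr (h.hL.cand _ h3).2.2.1

private theorem VFx_C (h : CfgOK D N Y c k la ba par) {i : ℕ} (h1 : 1 ≤ i) (h2 : i < k)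
    (hr : D.rv i = .C) : (mkFill D N Y c k la ba par).W0 k la ba par (Sum.inl i) = Y.bs i := by
  have e1 : ¬ ((D.rv i = .As ∧ Y.lg i = false) ∨ D.rv i = .Fs) := by
    rw [hr]
    rintro (⟨h3, -⟩ | h3)
    · exact absurd h3 (by decide)
    · exact absurd h3 (by decide)
  have e2 : Sum.inl i ∉ c.Low := by
    apply VFx_low h
    rw [hr]
    decide
  have e3 : ¬ (D.rv i = .II ∧ i = N.om ∧ Y.xf i = true) := by
    rintro ⟨h3, -⟩
    rw [hr] at h3
    exact absurd h3 (by decide)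
  rw [W0_v h h1 h2, W00_base h.hD h1 h2 (Or.inl hr), if_neg e1, if_neg e2, if_neg e3]
  rfl

private theorem VFx_ys (h : CfgOK D N Y c k la ba par) {i : ℕ} (h1 : 1 ≤ i) (h2 : i < k)
    (hr : Y.ys D.rv i) :
    (mkFill D N Y c k la ba par).W0 k la ba par (Sum.inl i) = Y.bs i + Y.yv i := by
  have hr' : D.rv i = .As ∨ D.rv i = .Fs := by
    rcases hr with ⟨h3, -⟩ | h3
    · exact Or.inl h3
    · exact Or.inr h3
  have h4 : D.rv i = .C ∨ D.rv i = .A ∨ D.rv i = .As ∨ D.rv i = .F ∨ D.rv i = .Fs := by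
    rcases hr' with h3 | h3
    · exact Or.inr (Or.inr (Or.inl h3))
    · exact Or.inr (Or.inr (Or.inr (Or.inr h3)))
  have e1 : (D.rv i = .As ∧ Y.lg i = false) ∨ D.rv i = .Fs := hr
  have e2 : Sum.inl i ∉ c.Low := by
    apply VFx_low h
    rcases hr' with h5 | h5
    · rw [h5]
      decide
    · rw [h5]
      decide
  have e3 : ¬ (D.rv i = .II ∧ i = N.om ∧ Y.xf i = true) := by
    rintro ⟨h3, -⟩
    rcases hr' with h5 | h5
    · rw [h5] at h3
      exact absurd h3 (by decide)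
    · rw [h5] at h3
      exact absurd h3 (by decide)
  rw [W0_v h h1 h2, W00_base h.hD h1 h2 h4, if_pos e1, if_neg e2, if_neg e3]
  rfl

private theorem VFx_T (h : CfgOK D N Y c k la ba par) {i : ℕ} (h1 : 1 ≤ i) (h2 : i < k)
    (hr : (D.rv i).isT = true) :
    (mkFill D N Y c k la ba par).W0 k la ba par (Sum.inl i) =
      W00 D N Y c la ba par (Sum.inl i) := by
  have h5 : ∀ r : RV, r.isT = true → r ≠ .As ∧ r ≠ .Fs ∧ r ≠ .II ∧ r ≠ .I := by
    intro r
    cases r <;> decide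
  obtain ⟨h6, h7, h8, h9⟩ := h5 _ hr
  have e1 : ¬ ((D.rv i = .As ∧ Y.lg i = false) ∨ D.rv i = .Fs) := by
    rintro (⟨h3, -⟩ | h3)
    · exact h6 h3
    · exact h7 h3
  have e2 : Sum.inl i ∉ c.Low := by
    apply VFx_low h
    rintro (h3 | h3)
    · exact h8 h3
    · exact h9 h3
  have e3 : ¬ (D.rv i = .II ∧ i = N.om ∧ Y.xf i = true) := by
    rintro ⟨h3, -⟩
    exact h8 h3
  rw [W0_v h h1 h2, if_neg e1, if_neg e2, if_neg e3]
  rfl

private theorem VFx_thr (h : CfgOK D N Y c k la ba par) {i : ℕ} (h1 : 1 ≤ i) (h2 : i < k)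
    (hr : (D.rv i).isT = true) : Y.thr < W00 D N Y c la ba par (Sum.inl i) := by
  obtain ⟨b, hb⟩ := h.hD.dg_ex i h1 h2 hr
  have hba := h.hD.dg_ba i b hb
  have hds : D.ds b = true := by
    rw [h.hD.ds_dg b, hba]
    exact hb
  have htop : (D.rb b).top = true := by
    cases hq : D.rv i with
    | FR =>
      rcases (h.hD.b_FR b (by rw [hba]; exact hq)).1 with h3 | h3
      · rw [h3]; rfl
      · rw [h3]; rfl
    | Z =>
      rcases h.hD.b_Z b (by rw [hba]; exact hq) with h3 | ⟨h3, h4⟩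
      · rw [h3]; rfl
      · rw [h3]; rfl
    | R3 =>
      rcases h.hD.b_R3 b (by rw [hba]; exact hq) with h3 | ⟨h3 | h3, h4⟩
      · rw [h3]; rfl
      · rw [h3]; rfl
      · rw [h3]; rfl
    | R4 =>
      rcases h.hD.b_R4 b (by rw [hba]; exact hq) with ⟨h3, h4⟩ | h3
      · rw [h3]; rfl
      · rw [h3]; rfl
    | C => rw [hq] at hr; exact absurd hr (by decide)
    | A => rw [hq] at hr; exact absurd hr (by decide)
    | As => rw [hq] at hr; exact absurd hr (by decide)
    | F => rw [hq] at hr; exact absurd hr (by decide)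
    | Fs => rw [hq] at hr; exact absurd hr (by decide)
    | II => rw [hq] at hr; exact absurd hr (by decide)
    | I => rw [hq] at hr; exact absurd hr (by decide)
  have h3 := W00_top (N := N) (Y := Y) (c := c) (la := la) (ba := ba) (par := par) htop
  rw [hba] at h3
  have h4 := (h.hτ.rng b htop).1
  have h5 := h.hY.bT i h1 h2 hr
  omega

theorem v_fx (h : CfgOK D N Y c k la ba par) :
    FillFx (mkFill D N Y c k la ba par) k la ba par := by
  constructor
  · intro i j hi hi' hj hj' hiE hiG hjE hjG he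
    rcases VFx_cases hi hi' hiE hiG with h1 | h1 | h1
    · rcases VFx_cases hj hj' hjE hjG with h2 | h2 | h2
      · rw [VFx_C h hi hi' h1, VFx_C h hj hj' h2] at he
        exact h.hY.C_inj i j hi hi' h1 hj hj' h2 he
      · rw [VFx_C h hi hi' h1, VFx_ys h hj hj' h2] at he
        exact absurd he.symm (h.hY.V_C j i hj hj' h2 hi hi' h1)
      · rw [VFx_C h hi hi' h1, VFx_T h hj hj' h2] at he
        have h3 := h.hY.C_thr i hi hi' h1
        have h4 := VFx_thr h hj hj' h2
        omega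
    · rcases VFx_cases hj hj' hjE hjG with h2 | h2 | h2
      · rw [VFx_ys h hi hi' h1, VFx_C h hj hj' h2] at he
        exact absurd he (h.hY.V_C i j hi hi' h1 hj hj' h2)
      · rw [VFx_ys h hi hi' h1, VFx_ys h hj hj' h2] at he
        exact h.hY.V_inj i j hi hi' h1 hj hj' h2 he
      · rw [VFx_ys h hi hi' h1, VFx_T h hj hj' h2] at he
        have h3 := h.hY.V_thr i hi hi' h1
        have h4 := VFx_thr h hj hj' h2
        omega
    · rcases VFx_cases hj hj' hjE hjG with h2 | h2 | h2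
      · rw [VFx_T h hi hi' h1, VFx_C h hj hj' h2] at he
        have h3 := h.hY.C_thr j hj hj' h2
        have h4 := VFx_thr h hi hi' h1
        omega
      · rw [VFx_T h hi hi' h1, VFx_ys h hj hj' h2] at he
        have h3 := h.hY.V_thr j hj hj' h2
        have h4 := VFx_thr h hi hi' h1
        omega
      · rw [VFx_T h hi hi' h1, VFx_T h hj hj' h2] at he
        exact h.hτ.st i j hi hi' hj hj' h1 h2 he
  · intro i hi hi' hiE hiG
    show Y.be < _ ∨ ∃ e, 2 ≤ e ∧ e < k ∧ _ = Y.p e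
    rcases VFx_cases hi hi' hiE hiG with h1 | h1 | h1
    · rw [VFx_C h hi hi' h1]
      exact h.hY.C_be i hi hi' h1
    · rw [VFx_ys h hi hi' h1]
      exact Or.inl (h.hY.V_be i hi hi' h1)
    · rw [VFx_T h hi hi' h1]
      exact Or.inl (lt_of_le_of_lt h.hY.be_thr (VFx_thr h hi hi' h1))
  · intro i hi hi' hiE hiG hU
    show _ < N.w + N.N0 + N.Q + 1 + Y.X 1 ∨ N.g1 + Y.X Y.U < _
    rcases VFx_cases hi hi' hiE hiG with h1 | h1 | h1
    · rw [VFx_C h hi hi' h1]
      exact h.hY.C_gap hU i hi hi' h1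
    · rw [VFx_ys h hi hi' h1]
      exact h.hY.V_gap hU i hi hi' h1
    · rw [VFx_T h hi hi' h1]
      exact Or.inr (lt_of_le_of_lt (h.hY.g1_thr hU) (VFx_thr h hi hi' h1))
  · intro i hi hi' hiE hiG
    show _ ≤ Y.thr ∨ _ ∈ ZF D N Y c k la ba par ∪ RF D N Y c k la ba par
    rcases VFx_cases hi hi' hiE hiG with h1 | h1 | h1
    · rw [VFx_C h hi hi' h1]
      exact Or.inl (h.hY.C_thr i hi hi' h1)
    · rw [VFx_ys h hi hi' h1]
      exact Or.inl (h.hY.V_thr i hi hi' h1)
    · rw [VFx_T h hi hi' h1]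
      right
      rw [Finset.mem_union]
      have h5 : ∀ r : RV, r.isT = true → r = .Z ∨ (r = .R3 ∨ r = .R4 ∨ r = .FR) := by
        intro r
        cases r <;> decide
      rcases h5 _ h1 with h6 | h6
      · exact Or.inl (Finset.mem_image.2
          ⟨i, Finset.mem_filter.2 ⟨Finset.mem_range.2 hi', hi, h6⟩, rfl⟩)
      · exact Or.inr (Finset.mem_image.2
          ⟨i, Finset.mem_filter.2 ⟨Finset.mem_range.2 hi', hi, h6⟩, rfl⟩)

end Pool.Agent.Lob5
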