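import Pool.Agent.Lob5.WEval
import Pool.Agent.Lob5.Cnt

/-!
# Verification: the greedy group

Proof.
* `g_rng`: vertices `As` with `Y.lg i`: sum `Y.bs i` (`W0_v`, `W00_base`), `lg_rng`. Bushes of role `L`:
  `W0_b`, `W00_b_eq` (`s_s`): `w+N0+Q+τ b + cb x0 * ξ b`; `cb x0 ≤ 1` (`s_x0`); `XiOK.τ` if it is `1` (there is
  `y` with `par y = b` and role `x0`); `1 ≤ τ b ≤ nT`; `g1_ge`; bushes of role `L` are not in `Low`.
* `g_be, g_thr, be_thr`: `g0_be, g1_thr, be_thr`. `g_card`: `nX_eq, G_card, U_eq, NmOK.Ux_eq`.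
-/

namespace Pool.Agent.Lob5

open Pool.Agent.Lob89

variable {Lf B BL : Type*} [Fintype Lf] [Fintype B] [Fintype BL] [DecidableEq B]
  {D : PlanData Lf B BL} {N : Nm} {Y : Ly} {c : Cfg Lf B BL} {k : ℕ}
  {la : Lf → ℕ} {ba : B → ℕ} {par : BL → B}

theorem v_gr (h : CfgOK D N Y c k la ba par) :
    FillGr (mkFill D N Y c k la ba par) k la ba par := by
  refine ⟨?_, h.hY.g0_be, h.hY.g1_thr, ?_, h.hY.be_thr⟩
  · intro n hn
    have g0 : (mkFill D N Y c k la ba par).g0 = N.w + N.N0 + N.Q + 1 := rfl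
    have g1 : (mkFill D N Y c k la ba par).g1 = N.g1 := rfl
    rw [g0, g1]
    have hg := h.hY.g1_ge
    rcases n with i | b
    · have hn' : Sum.inl i ∈ ((Finset.range k).filter fun i => 1 ≤ i ∧ D.rv i = .As ∧
          Y.lg i = true).disjSum (Finset.univ.filter fun b => D.rb b = .L) := hn
      rw [Finset.inl_mem_disjSum, Finset.mem_filter, Finset.mem_range] at hn'
      obtain ⟨h2, h1, hAs, hlg⟩ := hn'
      have hlow : (Sum.inl i : ℕ ⊕ B) ∉ c.Low := by
        intro hc
        have h3 : 1 ≤ i ∧ i < k ∧ (D.rv i = .II ∨ D.rv i = .I) ∧ i ≠ N.om ∧ N.cd i :=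
          h.hL.cand _ hc
        rcases h3.2.2.1 with h4 | h4 <;> rw [hAs] at h4 <;> exact absurd h4 (by decide)
      have hI1 : ¬ ((D.rv i = .As ∧ Y.lg i = false) ∨ D.rv i = .Fs) := by
        rw [hAs, hlg]
        decide
      have hI2 : ¬ (D.rv i = .II ∧ i = N.om ∧ Y.xf i = true) := by
        rw [hAs]
        intro hc
        exact absurd hc.1 (by decide)
      rw [W0_v h h1 h2, W00_base h.hD h1 h2 (Or.inr (Or.inr (Or.inl hAs))), if_neg hI1,
        if_neg hlow, if_neg hI2]
      have h5 := h.hY.lg_rng i h1 h2 hAs hlg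
      omega
    · have hn' : Sum.inr b ∈ ((Finset.range k).filter fun i => 1 ≤ i ∧ D.rv i = .As ∧
          Y.lg i = true).disjSum (Finset.univ.filter fun b => D.rb b = .L) := hn
      rw [Finset.inr_mem_disjSum, Finset.mem_filter] at hn'
      have hL := hn'.2
      have hlow : (Sum.inr b : ℕ ⊕ B) ∉ c.Low := by
        intro hc
        have h3 : D.rb b = .self := h.hL.cand _ hc
        rw [hL] at h3
        exact absurd h3 (by decide)
      have htl : ¬ D.rb b = .tl := by
        rw [hL]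
        decide
      have htop : (D.rb b).top = true := by
        rw [hL]
        rfl
      rw [W0_b h b, W00_b_eq (h.hD.s_s b (Or.inl hL)), if_pos htop, if_neg htl, if_neg hlow]
      have hτ := h.hτ.rng b htop
      have hx0 := h.hD.s_x0 b
      rw [if_pos hL] at hx0
      rcases Nat.lt_or_ge 0 (D.cb par b .x0) with h0 | h0
      · have h1 : D.cb par b .x0 = 1 := by omega
        obtain ⟨y, hy⟩ := Finset.card_pos.1 h0
        rw [Finset.mem_filter] at hy
        have h2 := h.hξ.τ y hy.2.2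
        rw [hy.2.1] at h2
        rw [h1]
        omega
      · have h1 : D.cb par b .x0 = 0 := by omega
        rw [h1]
        omega
  · have h1 := nX_eq (c := c) h.hD h.hN h.hY h.hL
    have h2 := G_card (D := D) (c := c) (la := la) (ba := ba) (par := par) h.hY
    have h3 := h.hY.U_eq
    have h4 := h.hN.Ux_eq
    have h5 : (mkFill D N Y c k la ba par).U = Y.U := rfl
    rw [h5]
    omega

end Pool.Agent.Lob5
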