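import Pool.Agent.Lob5.WEval
import Pool.Agent.Lob5.Cnt

/-!
# Verification: the simple hypotheses of the sweep

Proof. Write `F := mkFill D N Y c k la ba par`.
* `vh_lx`: see `VSlots` (`E_b`): every element has an `l` or `x` flag.
* `vh_pp`: an element with `pf` is a vertex `i` of role `F` or `I`, `1 ≤ i < k`; `F.ppf = D.sf i =
some b` with
  `rb b = self` and `ba b = i` (`sf_ex, sf_ba, self_sf`).
* `vh_cnt`: `hi - lo + 1 = N0 - e = nSg + 2 nPr` (`N0_eq, nS_eq, nPi_eq`, `(e+1)/2 + e/2 = e`).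
* `vh_xcnt`: `nX_eq, Z_card, Z_le, U_eq, Ux_eq`.
* `vh_disj`: `TauOK.st` (a vertex has only one role).
* `vtx_spec`: `Exists.choose_spec`. `vh_tk`: `t1_ex, t1_ba, tok` (the bush `t1 i` has role `xo` or
`sp`, so it owns
  a pair; it is not `self`). `vh_tk2`: if `t1 i = some b` then `ba b = i`, so `tk s` determines
the vertex and
  `s`.
-/

namespace Pool.Agent.Lob5

open Pool.Agent.Lob89

variable {Lf B BL : Type*} [Fintype Lf] [Fintype B] [Fintype BL] [DecidableEq B]
  {D : PlanData Lf B BL} {N : Nm} {Y : Ly} {c : Cfg Lf B BL} {k : ℕ}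
  {la : Lf → ℕ} {ba : B → ℕ} {par : BL → B}

private theorem v0_E_v {i : ℕ} (he : Sum.inl i ∈ (mkFill D N Y c k la ba par).E) :
    1 ≤ i ∧ i < k ∧ (D.rv i).hasl = true := by
  have h1 := Finset.inl_mem_disjSum.1 he
  rw [Finset.mem_filter, Finset.mem_range] at h1
  exact ⟨h1.2.1, h1.1, h1.2.2⟩

private theorem v0_E_b {b : B} (he : Sum.inr b ∈ (mkFill D N Y c k la ba par).E) :
    D.rb b ≠ .L := by
  have h1 := Finset.inr_mem_disjSum.1 he
  rw [Finset.mem_filter] at h1
  exact h1.2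

private theorem v0_Pi {b : B} (hb : (D.rb b).pr = true) :
    some b ∈ (mkFill D N Y c k la ba par).Pi := by
  unfold FillData.Pi
  exact Finset.mem_image_of_mem _ (Finset.mem_filter.2 ⟨Finset.mem_univ b, hb⟩)

/-- the elements with the flag `pf` -/
private theorem v0_pf (hD : PlanOK D k la ba par) {e : ℕ ⊕ B}
    (he : e ∈ (mkFill D N Y c k la ba par).E)
    (hp : (mkFill D N Y c k la ba par).pf e = true) :
    ∃ i b, e = Sum.inl i ∧ 1 ≤ i ∧ i < k ∧ (D.rv i).hasl = true ∧ D.sf i = some b ∧ ba b = i ∧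
      D.rb b = .self ∧ (mkFill D N Y c k la ba par).ppf e = some b := by
  rcases e with i | b
  · obtain ⟨h1, h2, h3⟩ := v0_E_v he
    have h4 : D.rv i = .F ∨ D.rv i = .I := of_decide_eq_true hp
    obtain ⟨b, hb⟩ := hD.sf_ex i h1 h2 h4
    have hba := hD.sf_ba i b hb
    refine ⟨i, b, rfl, h1, h2, h3, hb, hba, ?_, hb⟩
    rw [hD.self_sf, hba]
    exact hb
  · exact absurd hp (by
      show ¬ (false = true)
      simp)

theorem vtx_spec {s : ℤ} (hs : s ∈ (mkFill D N Y c k la ba par).R) :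
    (1 ≤ vtx D N Y c k la ba par s ∧ vtx D N Y c k la ba par s < k ∧
      (D.rv (vtx D N Y c k la ba par s) = .R3 ∨ D.rv (vtx D N Y c k la ba par s) = .R4 ∨
        D.rv (vtx D N Y c k la ba par s) = .FR)) ∧
    (W00 D N Y c la ba par (Sum.inl (vtx D N Y c k la ba par s)) : ℤ) = s := by
  have hs' : s ∈ RF D N Y c k la ba par := hs
  unfold RF at hs'
  rw [Finset.mem_image] at hs'
  obtain ⟨i, hi, hi2⟩ := hs'
  rw [Finset.mem_filter, Finset.mem_range] at hi
  have h : ∃ i, (1 ≤ i ∧ i < k ∧ (D.rv i = .R3 ∨ D.rv i = .R4 ∨ D.rv i = .FR)) ∧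
    (W00 D N Y c la ba par (Sum.inl i) : ℤ) = s := ⟨i, ⟨hi.2.1, hi.1, hi.2.2⟩, hi2⟩
  have e : vtx D N Y c k la ba par s = h.choose := by
    unfold vtx
    rw [dif_pos h]
  rw [e]
  exact h.choose_spec

theorem vh_lx (h : CfgOK D N Y c k la ba par) : ∀ e ∈ (mkFill D N Y c k la ba par).E,
    (mkFill D N Y c k la ba par).l e = true ∨ (mkFill D N Y c k la ba par).x e = true := by
  intro e he
  rcases e with i | b
  · exact Or.inl (v0_E_v he).2.2
  · have h1 := v0_E_b he
    by_cases hx : D.rb b = .xo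
    · right
      have h2 : Sum.inr b ∉ c.Low := by
        intro h3
        have h4 : D.rb b = .self := h.hL.cand _ h3
        rw [hx] at h4
        cases h4
      show (decide (D.rb b ≠ .L ∧ Sum.inr b ∉ c.Low) &&
        ! (decide (D.rb b = .tl) && Y.xf (ba b))) = true
      have h5 : ¬ D.rb b = .tl := by
        rw [hx]
        intro h6
        cases h6
      rw [decide_eq_true ⟨h1, h2⟩, decide_eq_false h5]
      rfl
    · left
      show (D.rb b).hasl = true
      rcases hr : D.rb b with _ | _ | _ | _ | _ | _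
      · exact absurd hr h1
      · rfl
      · rfl
      · exact absurd hr hx
      · rfl
      · rfl

theorem vh_pl (h : CfgOK D N Y c k la ba par) : ∀ e ∈ (mkFill D N Y c k la ba par).E,
    (mkFill D N Y c k la ba par).pf e = true → (mkFill D N Y c k la ba par).l e = true := by
  intro e he hp
  obtain ⟨i, b, rfl, -, -, h3, -⟩ := v0_pf h.hD he hp
  exact h3

theorem vh_ppm (h : CfgOK D N Y c k la ba par) : ∀ e ∈ (mkFill D N Y c k la ba par).E,
    (mkFill D N Y c k la ba par).pf e = true →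
      (mkFill D N Y c k la ba par).ppf e ∈ (mkFill D N Y c k la ba par).Pi := by
  intro e he hp
  obtain ⟨i, b, rfl, -, -, -, -, -, h5, h6⟩ := v0_pf h.hD he hp
  rw [h6]
  exact v0_Pi (by rw [h5]; rfl)

theorem vh_ppi (h : CfgOK D N Y c k la ba par) : ∀ e ∈ (mkFill D N Y c k la ba par).E,
    ∀ f ∈ (mkFill D N Y c k la ba par).E, (mkFill D N Y c k la ba par).pf e = true →
    (mkFill D N Y c k la ba par).pf f = true →
    (mkFill D N Y c k la ba par).ppf e = (mkFill D N Y c k la ba par).ppf f → e = f := by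
  intro e he f hf hp hq hef
  obtain ⟨i, b, rfl, -, -, -, -, h4, -, h6⟩ := v0_pf h.hD he hp
  obtain ⟨j, b', rfl, -, -, -, -, h4', -, h6'⟩ := v0_pf h.hD hf hq
  rw [h6, h6', Option.some.injEq] at hef
  rw [← h4, ← h4', hef]

theorem vh_cnt (h : CfgOK D N Y c k la ba par) :
    ((mkFill D N Y c k la ba par).hi : ℤ) - (mkFill D N Y c k la ba par).lo + 1 =
      nS (mkFill D N Y c k la ba par).l (mkFill D N Y c k la ba par).pf
        (mkFill D N Y c k la ba par).E + 2 * (mkFill D N Y c k la ba par).Pi.card := by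
  have h1 := nS_eq (N := N) (Y := Y) (c := c) h.hD
  have h2 := nPi_eq (N := N) (Y := Y) (c := c) (k := k) (la := la) (ba := ba) (par := par) D
  have h3 := h.hN.N0_eq
  have h4 := h.hY.eN
  have h5 := h.hN.ebe
  rw [h1, h2]
  show ((N.w + N.N0 - N.et : ℕ) : ℤ) - ((N.w + N.eb + 1 : ℕ) : ℤ) + 1 = _
  omega

theorem vh_xcnt (h : CfgOK D N Y c k la ba par) :
    nX (mkFill D N Y c k la ba par).x (mkFill D N Y c k la ba par).E
      + (mkFill D N Y c k la ba par).Z.card + 1 ≤ (mkFill D N Y c k la ba par).U + 1 := by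
  have h1 := nX_eq h.hD h.hN h.hY h.hL
  have h2 := Z_card (N := N) (Y := Y) (c := c) h.hD
  have h3 := Z_le h.hD
  have h4 := h.hY.U_eq
  have h5 := h.hN.Ux_eq
  have h6 : (mkFill D N Y c k la ba par).U = Y.U := rfl
  rw [h6]
  omega

theorem vh_disj (h : CfgOK D N Y c k la ba par) :
    Disjoint (mkFill D N Y c k la ba par).Z (mkFill D N Y c k la ba par).R := by
  rw [Finset.disjoint_left]
  intro s hs hs2
  have hs' : s ∈ ZF D N Y c k la ba par := hs
  unfold ZF at hs'
  rw [Finset.mem_image] at hs'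
  obtain ⟨i, hi, hi2⟩ := hs'
  rw [Finset.mem_filter, Finset.mem_range] at hi
  obtain ⟨⟨h1, h2, h3⟩, h4⟩ := vtx_spec hs2
  have h5 : W00 D N Y c la ba par (Sum.inl i) =
      W00 D N Y c la ba par (Sum.inl (vtx D N Y c k la ba par s)) := by
    rw [← hi2] at h4
    have h6 : (W00 D N Y c la ba par (Sum.inl i) : ℤ) =
        (W00 D N Y c la ba par (Sum.inl (vtx D N Y c k la ba par s)) : ℤ) := by
      rw [← hi2]
      exact h4.symm
    exact Int.ofNat.inj h6
  have h7 : (D.rv (vtx D N Y c k la ba par s)).isT = true := by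
    rcases h3 with h3 | h3 | h3 <;> rw [h3] <;> rfl
  have h8 : (D.rv i).isT = true := by
    rw [hi.2.2]
    rfl
  have h9 := h.hτ.st i _ hi.2.1 hi.1 h1 h2 h8 h7 h5
  rw [← h9, hi.2.2] at h3
  rcases h3 with h3 | h3 | h3 <;> cases h3

theorem vh_lu (h : CfgOK D N Y c k la ba par) (b : B)
    (hb : (mkFill D N Y c k la ba par).kt b = KT.lu) :
    (mkFill D N Y c k la ba par).l (Sum.inr b) = true := by
  have h1 : D.rb b = .self := by
    by_contra hne
    have h2 : (mkFill D N Y c k la ba par).kt b = .fix := if_neg hne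
    rw [h2] at hb
    cases hb
  show (D.rb b).hasl = true
  rw [h1]
  rfl

theorem vh_tk (h : CfgOK D N Y c k la ba par) :
    ∀ s ∈ (mkFill D N Y c k la ba par).R,
      (mkFill D N Y c k la ba par).tk s ∈ (mkFill D N Y c k la ba par).Pi ∧
      ∀ e ∈ (mkFill D N Y c k la ba par).E, (mkFill D N Y c k la ba par).pf e = true →
        (mkFill D N Y c k la ba par).ppf e ≠ (mkFill D N Y c k la ba par).tk s := by
  intro s hs
  obtain ⟨⟨h1, h2, h3⟩, -⟩ := vtx_spec hs
  obtain ⟨b, hb⟩ := h.hD.t1_ex _ h1 h2 h3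
  have hba := h.hD.t1_ba _ _ hb
  have hr : D.rb b = .xo ∨ D.rb b = .sp := by
    rw [h.hD.tok, hba]
    exact Or.inl hb
  have htk : (mkFill D N Y c k la ba par).tk s = some b := hb
  rw [htk]
  refine ⟨v0_Pi (by rcases hr with hr | hr <;> rw [hr] <;> rfl), ?_⟩
  intro e he hp hcon
  obtain ⟨i, b', rfl, -, -, -, -, -, h5, h6⟩ := v0_pf h.hD he hp
  rw [h6, Option.some.injEq] at hcon
  rw [hcon] at h5
  rw [h5] at hr
  rcases hr with hr | hr <;> cases hr

theorem vh_tk2 (h : CfgOK D N Y c k la ba par) :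
    ∀ s ∈ (mkFill D N Y c k la ba par).R, ∀ s' ∈ (mkFill D N Y c k la ba par).R,
      (mkFill D N Y c k la ba par).tk s = (mkFill D N Y c k la ba par).tk s' → s = s' := by
  intro s hs s' hs' heq
  obtain ⟨⟨h1, h2, h3⟩, h4⟩ := vtx_spec hs
  obtain ⟨⟨h1', h2', h3'⟩, h4'⟩ := vtx_spec hs'
  obtain ⟨b, hb⟩ := h.hD.t1_ex _ h1 h2 h3
  obtain ⟨b', hb'⟩ := h.hD.t1_ex _ h1' h2' h3'
  have heq' : D.t1 (vtx D N Y c k la ba par s) = D.t1 (vtx D N Y c k la ba par s') := heq
  rw [hb, hb', Option.some.injEq] at heq'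
  have hba := h.hD.t1_ba _ _ hb
  have hba' := h.hD.t1_ba _ _ hb'
  rw [← h4, ← h4', ← hba, ← hba', heq']

end Pool.Agent.Lob5
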