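import Pool.Agent.Lob5.VH1a

/-!
# Verification: hypothesis (H1) of the sweep

Proof. `F := mkFill ..`, `hi = w+N0-(e+1)/2`. Let `z ∈ F.Z`, `z = W00 (inl z0)`, `rv z0 = Z`, and `b` the
designated bush at `z0` (`dg_ex, ds_dg, dg_ba`; role `L` by `b_Z`, so it has a `T` top). By `W00_top`,
`z ≥ Y.bs z0 + (w+N0+Q+τ b)` and `τ b ≥ 1`. Elements `e` with `F.l e` and without `F.x e`:
(a) vertices of role `A`, `F`: weight `Y.bs e`; (b) nodes in `Low`: weight `cW + s1+n2+lw ≤ Y.bs a` for some
vertex `a` with `isA` (`LowSel.light`, `lw ≤ j`); (c) nodes with fixed `x`-label: the bush `tl` (weight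
`yv + s0v + xv`, no static leaf by `xf_b`, `W00_b_eq`): `xW1`; the vertex `om` of role `II` (weight
`Y.bs om + xv`, `xf_o`, `W00_om`): `oW1`; in case (c) `κ ≥ 0` suffices.
Cases (a), (b): let `a` be a vertex with `isA` and maximal `Y.bs a`. Then `F.W e ≤ Y.bs a = F.W (inl a)` and
`κ(inl a) ≤ κ(e)`: if `f` is counted for `inl a` then `f ≠ e` (otherwise `F.W (inl a) < F.W e`, as `e` has no `x`
flag) and `F.W e ≤ F.W (inl a) < ...`. So it suffices to prove the inequality for `inl a`:
`Y.bs a < Y.bs z0 + Q + τ b + (e+1)/2 + κ`.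
* `¬ kb a`, `¬ kb z0`: `Dgg`. * `¬ kb a`, `kb z0`: `2 ≤ P` by `P2`, `Dgb` and `kap_cand`.
* `kb a`: `2 ≤ P` by `P2`. If there is a vertex `FR`: `Dbr`. Otherwise `Dbb` suffices if
  `τ b + (e+1)/2 + κ ≥ 2`. If not: `τ b = 1`, `e = 0`, `κ = 0`. Every bush with `T` top is designated
  (otherwise `TauOK.nd` gives `τ b ≥ 2`). So `kap_crit`, `LowSel.cr` give `P ≤ Q`, and `bbP` finishes.
-/

namespace Pool.Agent.Lob5

open Pool.Agent.Lob89

variable {Lf B BL : Type*} [Fintype Lf] [Fintype B] [Fintype BL] [DecidableEq B]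
  {D : PlanData Lf B BL} {N : Nm} {Y : Ly} {c : Cfg Lf B BL} {k : ℕ}
  {la : Lf → ℕ} {ba : B → ℕ} {par : BL → B}

/-- `κ` of a vertex -/
private noncomputable def kv (D : PlanData Lf B BL) (N : Nm) (Y : Ly) (c : Cfg Lf B BL) (k : ℕ)
    (la : Lf → ℕ) (ba : B → ℕ) (par : BL → B) (e : ℕ ⊕ B) : ℕ :=
  kap (mkFill D N Y c k la ba par).l (mkFill D N Y c k la ba par).x
    ((mkFill D N Y c k la ba par).W k la ba par) ((mkFill D N Y c k la ba par).X 1)
    (mkFill D N Y c k la ba par).E e

/-- the weight of a vertex with `isA` -/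
private lemma W_isA (h : CfgOK D N Y c k la ba par) {a : ℕ} (h1 : 1 ≤ a) (h2 : a < k)
    (hA : (D.rv a).isA = true) :
    (mkFill D N Y c k la ba par).W k la ba par (Sum.inl a) = (Y.bs a : ℤ) := by
  have hAF : D.rv a = .A ∨ D.rv a = .F := by
    revert hA
    cases D.rv a <;> simp [RV.isA]
  have hW : (mkFill D N Y c k la ba par).W k la ba par (Sum.inl a) =
      ((mkFill D N Y c k la ba par).W0 k la ba par (Sum.inl a) : ℤ) := add_zero _
  have hlow : Sum.inl a ∉ c.Low := by
    intro hm
    have h3 := (h.hL.cand _ hm).2.2.1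
    rcases hAF with h4 | h4 <;> rcases h3 with h3 | h3 <;> rw [h4] at h3 <;> cases h3
  have hb := W00_base (N := N) (Y := Y) (c := c) h.hD h1 h2
    (by rcases hAF with h3 | h3 <;> simp [h3])
  rw [hW, W0_v h h1 h2, hb, if_neg hlow, if_neg, if_neg]
  · rfl
  · rintro ⟨h3, -⟩
    rcases hAF with h4 | h4 <;> rw [h4] at h3 <;> cases h3
  · rintro (⟨h3, -⟩ | h3) <;> rcases hAF with h4 | h4 <;> rw [h4] at h3 <;> cases h3

/-- the designated bushes have large labels -/
private lemma tau_dl (h : CfgOK D N Y c k la ba par) {b : B} (hb : (D.rb b).top = true)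
    (hds : D.ds b = true) : N.dl + 1 ≤ c.τ b := by
  classical
  have h0 := h.hτ.rng b hb
  rcases h.hN.dl_le with h1 | ⟨hFR, h1⟩
  · omega
  · have h2 : (Finset.univ.filter fun b => (D.rb b).top = true ∧ D.ds b = false).card ≤
        (Finset.Ico 1 (c.τ b)).card := by
      refine Finset.card_le_card_of_injOn c.τ ?_ ?_
      · intro b' hb'
        have hb'' := (Finset.mem_filter.1 hb').2
        have h3 := h.hτ.rng b' hb''.1
        have h4 := h.hτ.nd hFR b' b hb''.1 hb''.2 hds
        exact Finset.mem_coe.2 (Finset.mem_Ico.2 ⟨h3.1, h4⟩)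
      · intro b1 hb1 b2 hb2 he
        have h3 := (Finset.mem_filter.1 hb1).2
        have h4 := (Finset.mem_filter.1 hb2).2
        exact h.hτ.inj b1 b2 h3.1 h4.1 he
    rw [Nat.card_Ico] at h2
    omega

/-- the inequality for a vertex with `isA` -/
private lemma main_ineq (h : CfgOK D N Y c k la ba par) {a z : ℕ} (h1 : 1 ≤ a) (h2 : a < k)
    (hA : (D.rv a).isA = true) (h3 : 1 ≤ z) (h4 : z < k) (hZ : D.rv z = .Z) {b : B}
    (hb : D.rb b = .L) (hds : D.ds b = true) :
    Y.bs a < Y.bs z + N.Q + c.τ b + N.et + kv D N Y c k la ba par (Sum.inl a) := by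
  have hS : (D.rv z).isS = true := by rw [hZ]; rfl
  have htop : (D.rb b).top = true := by rw [hb]; rfl
  have hτ := h.hτ.rng b htop
  have hdl := tau_dl h htop hds
  by_cases ha : N.kb a
  · have hP : 2 ≤ N.P := by
      rcases h.hY.P2 with h5 | h5
      · exact h5
      · exact absurd ha (h5 a h1 h2 (Or.inl hA))
    by_cases hFR : ∃ i, 1 ≤ i ∧ i < k ∧ D.rv i = .FR
    · have h5 := h.hY.Dbr hFR a z h1 h2 h3 h4 hA hS ha
      omega
    · push Not at hFR
      have h5 := h.hY.Dbb a z h1 h2 h3 h4 hA hS ha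
      by_contra hcon
      have hτ1 : c.τ b = 1 := by omega
      have he0 : N.e = 0 := by
        have := h.hN.ebt
        omega
      have hκ0 : kv D N Y c k la ba par (Sum.inl a) = 0 := by omega
      have hall : ∀ b', (D.rb b').top = true → D.ds b' = true := by
        intro b' hb'
        by_contra hd
        rw [Bool.not_eq_true] at hd
        have h6 := h.hτ.nd hFR b' b hb' hd hds
        have h7 := h.hτ.rng b' hb'
        omega
      obtain ⟨hj, hU⟩ := kap_crit h h1 h2 hA ha hP he0 hFR hall hκ0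
      have h6 := h.hL.cr hj he0 hU
      have h7 := h.hY.bbP he0 a z h1 h2 h3 h4 hA hS ha (by omega)
      omega
  · by_cases hz : N.kb z
    · have hP : 2 ≤ N.P := by
        rcases h.hY.P2 with h5 | h5
        · exact h5
        · exact absurd hz (h5 z h3 h4 (Or.inr hS))
      have h5 := h.hY.Dgb a z h1 h2 h3 h4 hA hS ha hz
      have h6 := kap_cand h hP h1 h2 hA
      change N.Ux ≤ kv D N Y c k la ba par (Sum.inl a) + _ + _ + _ + _ at h6
      omega
    · have h5 := h.hY.Dgg a z h1 h2 h3 h4 hA hS ha hz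
      omega

/-- the inequality for an element whose weight is at most that of a vertex with `isA` -/
private lemma sub_ineq (h : CfgOK D N Y c k la ba par) {e : ℕ ⊕ B}
    (hx : (mkFill D N Y c k la ba par).x e = false) {a₁ z : ℕ} (h1 : 1 ≤ a₁) (h2 : a₁ < k)
    (hA : (D.rv a₁).isA = true)
    (hWe : (mkFill D N Y c k la ba par).W k la ba par e ≤ (Y.bs a₁ : ℤ)) (h3 : 1 ≤ z)
    (h4 : z < k) (hZ : D.rv z = .Z) {b : B} (hb : D.rb b = .L) (hds : D.ds b = true) :
    (mkFill D N Y c k la ba par).W k la ba par e <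
      Y.bs z + N.Q + c.τ b + N.et + kv D N Y c k la ba par e := by
  obtain ⟨a, haS, hmax⟩ := Finset.exists_max_image
    ((Finset.range k).filter fun i => 1 ≤ i ∧ (D.rv i).isA = true) (fun i => Y.bs i)
    ⟨a₁, Finset.mem_filter.2 ⟨Finset.mem_range.2 h2, h1, hA⟩⟩
  rw [Finset.mem_filter, Finset.mem_range] at haS
  have h5 := hmax a₁ (Finset.mem_filter.2 ⟨Finset.mem_range.2 h2, h1, hA⟩)
  have h6 := main_ineq h haS.2.1 haS.1 haS.2.2 h3 h4 hZ hb hds
  have hWa := W_isA h haS.2.1 haS.1 haS.2.2
  have h5' : (Y.bs a₁ : ℤ) ≤ Y.bs a := by exact_mod_cast h5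
  have hle : kv D N Y c k la ba par (Sum.inl a) ≤ kv D N Y c k la ba par e := by
    unfold kv kap
    apply Finset.card_le_card
    intro f hf
    rw [Finset.mem_filter] at hf ⊢
    obtain ⟨hfE, hne, hl, hlt⟩ := hf
    refine ⟨hfE, ?_, hl, ?_⟩
    · rintro rfl
      rw [hx, hWa] at hlt
      unfold bz at hlt
      simp only [Bool.false_eq_true, if_false] at hlt
      omega
    · refine lt_of_le_of_lt ?_ hlt
      rw [hWa]
      omega
  have h6' : (Y.bs a : ℤ) < Y.bs z + N.Q + c.τ b + N.et +
      kv D N Y c k la ba par (Sum.inl a) := by exact_mod_cast h6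
  have hle' : (kv D N Y c k la ba par (Sum.inl a) : ℤ) ≤ kv D N Y c k la ba par e := by
    exact_mod_cast hle
  omega

theorem vh1 (h : CfgOK D N Y c k la ba par) : ∀ e ∈ (mkFill D N Y c k la ba par).E,
    (mkFill D N Y c k la ba par).l e = true → (mkFill D N Y c k la ba par).x e = false →
    ∀ z ∈ (mkFill D N Y c k la ba par).Z,
      (mkFill D N Y c k la ba par).W k la ba par e + (mkFill D N Y c k la ba par).hi
      - kap (mkFill D N Y c k la ba par).l (mkFill D N Y c k la ba par).x
        ((mkFill D N Y c k la ba par).W k la ba par) ((mkFill D N Y c k la ba par).X 1)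
        (mkFill D N Y c k la ba par).E e < z := by
  intro e he hl hx z hz
  have hD := h.hD
  have hz' : z ∈ ZF D N Y c k la ba par := hz
  unfold ZF at hz'
  rw [Finset.mem_image] at hz'
  obtain ⟨z0, hz0, rfl⟩ := hz'
  rw [Finset.mem_filter, Finset.mem_range] at hz0
  obtain ⟨h4, h3, hZ⟩ := hz0
  obtain ⟨b, hdg⟩ := hD.dg_ex z0 h3 h4 (by rw [hZ]; rfl)
  have hba : ba b = z0 := hD.dg_ba z0 b hdg
  have hds : D.ds b = true := by
    rw [hD.ds_dg, hba]
    exact hdg
  have hb : D.rb b = .L := by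
    rcases hD.b_Z b (by rw [hba]; exact hZ) with h5 | ⟨-, h5⟩
    · exact h5
    · rw [hds] at h5
      cases h5
  have htop : (D.rb b).top = true := by rw [hb]; rfl
  have hW := W00_top (N := N) (Y := Y) (c := c) (la := la) (ba := ba) (par := par) htop
  rw [hba] at hW
  have hτ := h.hτ.rng b htop
  have hS : (D.rv z0).isS = true := by rw [hZ]; rfl
  -- reformulation
  suffices hmain : (mkFill D N Y c k la ba par).W k la ba par e <
      Y.bs z0 + N.Q + c.τ b + N.et + kv D N Y c k la ba par e by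
    have hhi : (mkFill D N Y c k la ba par).hi = N.w + N.N0 - N.et := rfl
    have heN := h.hY.eN
    have hhi' : ((mkFill D N Y c k la ba par).hi : ℤ) =
        N.w + N.N0 - N.et := by
      rw [hhi]
      omega
    have hW' : (Y.bs z0 : ℤ) + (N.w + N.N0 + N.Q + c.τ b) ≤
        (W00 D N Y c la ba par (Sum.inl z0) : ℤ) := by exact_mod_cast hW
    unfold kv at hmain
    rw [hhi']
    omega
  have hcard : (0 : ℤ) ≤ kv D N Y c k la ba par e := Int.natCast_nonneg _
  have hτ' : (1 : ℤ) ≤ c.τ b := by exact_mod_cast hτ.1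
  rcases e with i | b'
  · have he' : i ∈ (Finset.range k).filter fun i => 1 ≤ i ∧ (D.rv i).hasl = true := by
      have h5 : (Sum.inl i : ℕ ⊕ B) ∈
          ((Finset.range k).filter fun i => 1 ≤ i ∧ (D.rv i).hasl = true).disjSum
            (Finset.univ.filter fun b => D.rb b ≠ .L) := he
      rwa [Finset.inl_mem_disjSum] at h5
    rw [Finset.mem_filter, Finset.mem_range] at he'
    obtain ⟨h2, h1, hl'⟩ := he'
    by_cases hA : (D.rv i).isA = true
    · exact sub_ineq h hx h1 h2 hA (W_isA h h1 h2 hA).le h3 h4 hZ hb hds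
    have hII : D.rv i = .II ∨ D.rv i = .I := by
      revert hl' hA
      cases D.rv i <;> simp [RV.hasl, RV.isA]
    have hnot : ¬ ((D.rv i = .As ∧ Y.lg i = false) ∨ D.rv i = .Fs) := by
      rintro (⟨h5, -⟩ | h5) <;> rcases hII with h6 | h6 <;> rw [h6] at h5 <;> cases h5
    have hWi : (mkFill D N Y c k la ba par).W k la ba par (Sum.inl i) =
        ((mkFill D N Y c k la ba par).W0 k la ba par (Sum.inl i) : ℤ) := add_zero _
    have hx' : (decide ((D.rv i = .II ∨ D.rv i = .I) ∧ Sum.inl i ∉ c.Low) &&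
      ! (decide (i = N.om) && Y.xf i)) = false := hx
    by_cases hlow : Sum.inl i ∈ c.Low
    · obtain ⟨a, ha1, ha2, haA, hle⟩ := h.hL.light _ hlow
      have hlw := h.hL.lw_rng _ hlow
      have hom : i ≠ N.om := (h.hL.cand _ hlow).2.2.2.1
      refine sub_ineq h hx ha1 ha2 haA ?_ h3 h4 hZ hb hds
      rw [hWi, W0_v h h1 h2, if_neg hnot, if_pos hlow, if_neg fun h5 => hom h5.2.1]
      unfold cW at hle
      change W00 D N Y c la ba par (Sum.inl i) + 0 + N.s1 + N.n2 + Y.j ≤ Y.bs a at hle
      have : W00 D N Y c la ba par (Sum.inl i) + 0 + (N.s1 + N.n2 + c.lw (Sum.inl i)) + 0 ≤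
          Y.bs a := by omega
      exact_mod_cast this
    · have hboth : i = N.om ∧ Y.xf i = true := by
        by_contra hcon
        have : (decide ((D.rv i = .II ∨ D.rv i = .I) ∧ Sum.inl i ∉ c.Low) &&
            ! (decide (i = N.om) && Y.xf i)) = true := by
          simp only [hII, hlow, not_false_eq_true, and_self, decide_true, Bool.true_and,
            Bool.not_eq_true', Bool.and_eq_false_iff, decide_eq_false_iff_not]
          by_cases h5 : i = N.om
          · right
            rw [← Bool.not_eq_true]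
            exact fun h6 => hcon ⟨h5, h6⟩
          · left
            exact h5
        rw [this] at hx'
        cases hx'
      obtain ⟨hom, hxf⟩ := hboth
      have hk : i + 1 = k := by
        rcases h.hN.om_eq with h5 | h5 <;> omega
      have hrv : D.rv i = .II := by
        rcases hII with h5 | h5
        · exact h5
        · exfalso
          obtain ⟨b', hb'⟩ := hD.sf_ex i h1 h2 (Or.inr h5)
          have h6 := hD.sf_ba i b' hb'
          exact hD.hd.ne_om h.hN.om_eq b' (h6.trans hom)
      have hs : D.cl la i .s = 0 := by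
        have := h.hX.xf_o (by omega) (hom ▸ hrv) (hom ▸ hxf)
        rwa [← hom] at this
      have h5 := h.hY.oW1 i z0 h1 h2 h3 h4 hxf hom hrv hS
      rw [hWi, W0_v h h1 h2, if_neg hnot, if_neg hlow, if_pos ⟨hrv, hom, hxf⟩,
        W00_om (fun b => hom ▸ hD.hd.ne_om h.hN.om_eq b) hs]
      push_cast
      have h5' : (Y.bs i : ℤ) + Y.xv i < Y.bs z0 + N.Q + 1 + N.et := by
        exact_mod_cast h5
      push_cast at h5'
      omega
  · have he' : b' ∈ Finset.univ.filter fun b => D.rb b ≠ .L := by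
      have h5 : (Sum.inr b' : ℕ ⊕ B) ∈
          ((Finset.range k).filter fun i => 1 ≤ i ∧ (D.rv i).hasl = true).disjSum
            (Finset.univ.filter fun b => D.rb b ≠ .L) := he
      rwa [Finset.inr_mem_disjSum] at h5
    rw [Finset.mem_filter] at he'
    have hL : D.rb b' ≠ .L := he'.2
    have hx0 : D.cb par b' .x0 = 0 := by
      have h5 := hD.s_x0 b'
      rw [if_neg hL] at h5
      omega
    have hx' : (decide (D.rb b' ≠ .L ∧ Sum.inr b' ∉ c.Low) &&
      ! (decide (D.rb b' = .tl) && Y.xf (ba b'))) = false := hx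
    have hWb : (mkFill D N Y c k la ba par).W k la ba par (Sum.inr b') =
        ((mkFill D N Y c k la ba par).W0 k la ba par (Sum.inr b') : ℤ) +
          if (D.rb b').pr = true then (Kc D N k : ℤ) else 0 := by
      rw [← Kc_eq (Y := Y) (c := c) hD h.hN]
      rfl
    by_cases hlow : Sum.inr b' ∈ c.Low
    · obtain ⟨a, ha1, ha2, haA, hle⟩ := h.hL.light _ hlow
      have hlw := h.hL.lw_rng _ hlow
      have hself : D.rb b' = .self := h.hL.cand _ hlow
      refine sub_ineq h hx ha1 ha2 haA ?_ h3 h4 hZ hb hds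
      have hpr : (D.rb b').pr = true := by rw [hself]; rfl
      have htl : D.rb b' ≠ .tl := by rw [hself]; simp
      rw [hWb, W0_b h, if_pos hlow, if_neg htl, if_pos hpr, hx0]
      unfold cW at hle
      change W00 D N Y c la ba par (Sum.inr b') + Kc D N k + N.s1 + N.n2 + Y.j ≤ Y.bs a at hle
      have : W00 D N Y c la ba par (Sum.inr b') + 0 * c.ξ b' + 0 +
          (N.s1 + N.n2 + c.lw (Sum.inr b')) + Kc D N k ≤ Y.bs a := by omega
      exact_mod_cast this
    · have hboth : D.rb b' = .tl ∧ Y.xf (ba b') = true := by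
        by_contra hcon
        have : (decide (D.rb b' ≠ .L ∧ Sum.inr b' ∉ c.Low) &&
            ! (decide (D.rb b' = .tl) && Y.xf (ba b'))) = true := by
          simp only [ne_eq, hL, not_false_eq_true, hlow, and_self, decide_true, Bool.true_and,
            Bool.not_eq_true', Bool.and_eq_false_iff, decide_eq_false_iff_not]
          by_cases h5 : D.rb b' = .tl
          · right
            rw [← Bool.not_eq_true]
            exact fun h6 => hcon ⟨h5, h6⟩
          · left
            exact h5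
        rw [this] at hx'
        cases hx'
      obtain ⟨htl, hxf⟩ := hboth
      have hFs : D.rv (ba b') = .Fs := (hD.b_Fs b').1 htl
      have hs := h.hX.xf_b b' htl hxf
      have hbp := hD.hd.ba_pos b'
      have hbl := hD.hd.ba_lt b'
      have h5 := h.hY.xW1 (ba b') z0 (by omega) (by omega) h3 h4 hxf hFs hS
      have hpr : ¬ (D.rb b').pr = true := by rw [htl]; decide
      have htop' : ¬ (D.rb b').top = true := by rw [htl]; decide
      rw [hWb, W0_b h, if_neg hlow, if_pos htl, if_pos hxf, if_neg hpr, hx0,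
        W00_b_eq (N := N) (Y := Y) (c := c) (la := la) (ba := ba) hs, if_neg htop']
      have h5' : (Y.yv (ba b') : ℤ) + N.s0v + Y.xv (ba b') <
          Y.bs z0 + N.Q + 1 + N.et := by exact_mod_cast h5
      push_cast at h5' ⊢
      omega

end Pool.Agent.Lob5
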