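import Pool.Agent.Lob5.VH0

/-!
# Verification: hypotheses (H2), (H3) of the sweep

Proof. `F := mkFill ..`. An element `f` with `F.x f` and without `F.l f` is a bush `b` of role
`xo`; its weight is `(w+N0+Q+τ b) + Kc` (`W0_b`, `W00_b_eq` with `s_s`, `s_x0`, `Kc_eq`);
`2w+N0 ≤ Kc ≤ 2w+N0+2`.
* `N0_ge`: `U ≤ Ux + 1` (`U_eq`, `nlg_le`); `Ux - nT = nb self + nb tl + nv II + nv I`,
  `N0 = e + nSg + 2 nPr` (`N0_eq`), `nv I ≤ nb self` (`self_eq`), so
  `N0 + nT - Ux ≥ e + nb st + 3 nb sp + 2 nb xo`. An `R3`-vertex has a bush `st` (the designated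
  one) and `e ≥ nb st` (`ns_ge`); an `R4`-vertex has two bushes `sp`. Together with
  `nb xo ≥ 1`: `≥ 4`.
* (H2): `s ∈ F.R`, `v := vtx s` (`vtx_spec`).
  `R3, R4`: designated bush `d`, `t := t1 v` not designated (`t1_ds`): `W00_top2`:
  `s ≥ Y.bs v + 2 (w+N0+Q) + τ d + τ t`, `τ b < τ d` (`TauOK.r`), `τ t ≥ 1`. By `Xr`
  `X i + w+N0+nT ≤ Y.bs v + i + 2 ≤ Y.bs v + U + 2`. With `N0_ge` this gives `s > F.W f + X i`.
  `FR`: `s = Y.bs v + (w+N0+Q+τ d)` (`W00_FR`), `τ d ≤ τ b` (`TauOK.fr`), `Rq`: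
  `s < F.W f - 1 + X 1`, and `X 1 ≤ X i`.
* (H3): `hi ≤ w+N0`; `F.W f + X 1 ≥ (w+N0+Q+1) + 2w+N0 + X 1`; so
  `F.W e ≤ 2w+N0+Q+X 1` suffices.
  `e` of role `A`, `F`: `bupb` and `X 1 ≥ P+1` (`X_lo`), `bupg`; `e ∈ Low`: `LowSel.light` and
  the same; fixed `x`-label: `xW2, oW2` (weights as in `VH1`, no static leaves by
  `XfOK.xf_b, xf_o`).
-/

namespace Pool.Agent.Lob5

open Pool.Agent.Lob89

variable {Lf B BL : Type*} [Fintype Lf] [Fintype B] [Fintype BL] [DecidableEq B]
  {D : PlanData Lf B BL} {N : Nm} {Y : Ly} {c : Cfg Lf B BL} {k : ℕ}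
  {la : Lf → ℕ} {ba : B → ℕ} {par : BL → B}

omit [Fintype Lf] [Fintype BL] [DecidableEq B] in
private lemma nb_pos {b : B} {ρ : RB} (hb : D.rb b = ρ) : 1 ≤ D.nb ρ := by
  unfold PlanData.nb
  exact Finset.card_pos.mpr ⟨b, by rw [Finset.mem_filter]; exact ⟨Finset.mem_univ _, hb⟩⟩

private lemma Kc_rng (h : CfgOK D N Y c k la ba par) :
    (2 * N.w + N.N0 ≤ Kc D N k ∨ (N.et = N.eb + 2 ∧ 2 * N.w + N.N0 ≤ Kc D N k + 1)) ∧
      Kc D N k ≤ 2 * N.w + N.N0 + 2 := by
  have heN := h.hY.eN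
  have hebt := h.hN.ebt
  unfold Kc
  omega

theorem N0_ge (h : CfgOK D N Y c k la ba par) (hR : ∃ i, 1 ≤ i ∧ i < k ∧
    (D.rv i = .R3 ∨ D.rv i = .R4)) (hx : ∃ b, D.rb b = .xo) : Y.U + 3 ≤ N.N0 + N.nT := by
  have hD := h.hD
  have h1 := h.hY.U_eq
  have h2 := h.hY.nlg_le
  have h3 := h.hN.Ux_eq
  have h4 := h.hN.nT_eq
  have h5 := h.hN.N0_eq
  have h6 := self_eq hD
  have h7 := ns_ge hD
  have h8 : D.ns ≤ N.e := by
    have := h.hN.e_eq
    omega
  obtain ⟨x, hx⟩ := hx
  have h9 := nb_pos hx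
  unfold PlanData.nSg PlanData.nPr at h5
  obtain ⟨i, hi1, hi2, hi⟩ := hR
  have hT : (D.rv i).isT = true := by rcases hi with hi | hi <;> rw [hi] <;> rfl
  obtain ⟨d, hd⟩ := hD.dg_ex i hi1 hi2 hT
  have hdb := hD.dg_ba i d hd
  have hds : D.ds d = true := (hD.ds_dg d).2 (by rw [hdb]; exact hd)
  rcases hi with hi | hi
  · have h10 := nb_pos (hD.dg_R3 d hds (by rw [hdb]; exact hi)).1
    omega
  · have h10 : D.rb d = .sp := by
      rcases hD.b_R4 d (by rw [hdb]; exact hi) with h11 | h11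
      · rw [hds] at h11
        exact absurd h11.2 (by decide)
      · exact h11
    have h11 := nb_pos h10
    omega

/-- an element without `l` flag is a bush of role `xo` -/
private lemma xo_of {f : ℕ ⊕ B} (hf : f ∈ (mkFill D N Y c k la ba par).E)
    (hl : (mkFill D N Y c k la ba par).l f = false) : ∃ b, f = Sum.inr b ∧ D.rb b = .xo := by
  rcases f with i | b
  · exfalso
    have h3 : (Sum.inl i : ℕ ⊕ B) ∈
        ((Finset.range k).filter fun i => 1 ≤ i ∧ (D.rv i).hasl = true).disjSum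
          (Finset.univ.filter fun b => D.rb b ≠ .L) := hf
    rw [Finset.inl_mem_disjSum, Finset.mem_filter] at h3
    have h4 : (D.rv i).hasl = false := hl
    rw [h3.2.2] at h4
    exact absurd h4 (by decide)
  · refine ⟨b, rfl, ?_⟩
    have h3 : (Sum.inr b : ℕ ⊕ B) ∈
        ((Finset.range k).filter fun i => 1 ≤ i ∧ (D.rv i).hasl = true).disjSum
          (Finset.univ.filter fun b => D.rb b ≠ .L) := hf
    rw [Finset.inr_mem_disjSum, Finset.mem_filter] at h3
    have h4 : (D.rb b).hasl = false := hl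
    have h5 := h3.2
    revert h4 h5
    cases D.rb b <;> simp [RB.hasl]

/-- the weight of a bush of role `xo` -/
private lemma W_xo (h : CfgOK D N Y c k la ba par) {b : B} (hb : D.rb b = .xo) :
    (mkFill D N Y c k la ba par).W k la ba par (Sum.inr b) =
      ((N.w + N.N0 + N.Q + c.τ b + Kc D N k : ℕ) : ℤ) := by
  have hD := h.hD
  have hK := Kc_eq (Y := Y) (c := c) h.hD h.hN
  have hp : (D.rb b).pr = true := by rw [hb]; rfl
  have hW : (mkFill D N Y c k la ba par).W k la ba par (Sum.inr b) =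
      ((mkFill D N Y c k la ba par).W0 k la ba par (Sum.inr b) : ℤ) +
        if (D.rb b).pr = true then (Kc D N k : ℤ) else 0 := by
    rw [← hK]
    rfl
  have hlow : Sum.inr b ∉ c.Low := fun hm => by
    have h3 : D.rb b = .self := h.hL.cand _ hm
    rw [hb] at h3
    exact RB.noConfusion h3
  have hx0 : D.cb par b .x0 = 0 := by
    have h3 := hD.s_x0 b
    rw [hb, if_neg (by decide)] at h3
    omega
  have htl : ¬ D.rb b = .tl := by rw [hb]; decide
  have htop : (D.rb b).top = true := by rw [hb]; rfl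
  rw [hW, if_pos hp, W0_b h, W00_b_eq (hD.s_s b (Or.inr hb)), if_pos htop, hx0, if_neg htl,
    if_neg hlow]
  push_cast
  ring

theorem vh2 (h : CfgOK D N Y c k la ba par) : ∀ f ∈ (mkFill D N Y c k la ba par).E,
    (mkFill D N Y c k la ba par).x f = true → (mkFill D N Y c k la ba par).l f = false →
    ∀ s ∈ (mkFill D N Y c k la ba par).R, ∀ i, 1 ≤ i → i ≤ (mkFill D N Y c k la ba par).U →
      (mkFill D N Y c k la ba par).W k la ba par f + (mkFill D N Y c k la ba par).X i ≠ s ∧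
      (mkFill D N Y c k la ba par).W k la ba par f - 1 + (mkFill D N Y c k la ba par).X i ≠ s := by
  intro f hf _ hl s hs i hi1 hiU
  have hD := h.hD
  obtain ⟨b, rfl, hb⟩ := xo_of hf hl
  have hX : (mkFill D N Y c k la ba par).X = Y.X := rfl
  have hU : i ≤ Y.U := hiU
  rw [W_xo h hb, hX]
  obtain ⟨hK1, hK2⟩ := Kc_rng h
  obtain ⟨⟨hv1, hv2, hv⟩, hsum⟩ := vtx_spec hs
  set v := vtx D N Y c k la ba par s with hvdef
  have hT : (D.rv v).isT = true := by rcases hv with hv | hv | hv <;> rw [hv] <;> rfl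
  obtain ⟨d, hd⟩ := hD.dg_ex v hv1 hv2 hT
  have hdb := hD.dg_ba v d hd
  have hds : D.ds d = true := (hD.ds_dg d).2 (by rw [hdb]; exact hd)
  rw [← hsum]
  have hR : (D.rv v = .R3 ∨ D.rv v = .R4) ∨ D.rv v = .FR := by tauto
  rcases hR with hR | hR
  · have hN0 := N0_ge h ⟨v, hv1, hv2, hR⟩ ⟨b, hb⟩
    have hS : (D.rv v).isS = true := by rcases hR with hR | hR <;> rw [hR] <;> rfl
    have hXr := h.hY.Xr i v hi1 hU hv1 hv2 hS
    obtain ⟨t, ht⟩ := hD.t1_ex v hv1 hv2 (by tauto)
    have htb := hD.t1_ba v t ht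
    have ht' : D.t1 (ba t) = some t := by rw [htb]; exact ht
    have htr := (hD.tok t).2 (Or.inl ht')
    have hne : d ≠ t := by
      rintro rfl
      have h3 := (hD.t1_ds d ht').1 hds
      rw [hdb] at h3
      rcases hR with hR | hR <;> rw [hR] at h3 <;> exact RV.noConfusion h3
    have htt : (D.rb t).top = true := by rcases htr with h3 | h3 <;> rw [h3] <;> rfl
    have hdt : (D.rb d).top = true := by
      rcases hR with hR | hR
      · rw [(hD.dg_R3 d hds (by rw [hdb]; exact hR)).1]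
        rfl
      · rcases hD.b_R4 d (by rw [hdb]; exact hR) with h3 | h3
        · rw [h3.1]; rfl
        · rw [h3]; rfl
    have hW := W00_top2 (N := N) (Y := Y) (c := c) (la := la) (ba := ba) (par := par)
      hdt htt hne (by rw [hdb, htb])
    rw [hdb] at hW
    have hτ1 := h.hτ.r b d hb hds (by rw [hdb]; exact hR)
    have hτ2 := (h.hτ.rng t htt).1
    constructor <;> push_cast <;> omega
  · have hW := W00_FR (N := N) (Y := Y) (c := c) (la := la) (par := par) hD
      (b := d) (by rw [hdb]; exact hR)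
    rw [hdb] at hW
    have hτ1 := h.hτ.fr d b (by rw [hdb]; exact hR) hb
    have hRq := h.hY.Rq v hv1 hv2 hR
    have hXm : Y.X 1 ≤ Y.X i := h.hY.X_mono.monotone hi1
    have hK3 : 2 * N.w + N.N0 ≤ Kc D N k := by
      rcases hK1 with h3 | h3
      · exact h3
      · exact absurd hR (h.hN.et_FR h3.1 v hv1 hv2)
    constructor <;> push_cast <;> omega

/-- the base of a marked vertex -/
private lemma isA_le (h : CfgOK D N Y c k la ba par) {a : ℕ} (h1 : 1 ≤ a) (h2 : a < k)
    (hA : (D.rv a).isA = true) : Y.bs a ≤ 2 * N.w + N.N0 + N.Q + Y.X 1 := by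
  by_cases hk : N.kb a
  · have h3 := h.hY.bupb a h1 h2 hA hk
    have h4 := h.hY.X_lo
    omega
  · have h3 := h.hY.bupg a h1 h2 hA hk
    omega

/-- vertices with `l` flag and without `x` flag -/
private lemma W_lv (h : CfgOK D N Y c k la ba par) {i : ℕ} (h1 : 1 ≤ i) (h2 : i < k)
    (hl : (D.rv i).hasl = true)
    (hx : (mkFill D N Y c k la ba par).x (Sum.inl i) = false) :
    (mkFill D N Y c k la ba par).W0 k la ba par (Sum.inl i) ≤
      2 * N.w + N.N0 + N.Q + Y.X 1 := by
  have hD := h.hD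
  have hx' : (decide ((D.rv i = .II ∨ D.rv i = .I) ∧ Sum.inl i ∉ c.Low) &&
        ! (decide (i = N.om) && Y.xf i)) = false := hx
  have hcand : Sum.inl i ∈ c.Low → (D.rv i = .II ∨ D.rv i = .I) ∧ i ≠ N.om ∧ N.cd i := by
    intro hm
    have h3 := h.hL.cand _ hm
    exact h3.2.2
  rw [W0_v h h1 h2]
  by_cases hAF : D.rv i = .A ∨ D.rv i = .F
  · have hb := W00_base (N := N) (Y := Y) (c := c) hD h1 h2
      (by rcases hAF with h3 | h3 <;> simp [h3])
    have hA : (D.rv i).isA = true := by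
      rcases hAF with h3 | h3 <;> rw [h3] <;> rfl
    have h4 := isA_le h h1 h2 hA
    have hlow : Sum.inl i ∉ c.Low := fun hm => by
      have h5 := (hcand hm).1
      rcases hAF with h3 | h3 <;> rw [h3] at h5 <;> simp at h5
    rw [hb, if_neg (by rcases hAF with h3 | h3 <;> rw [h3] <;> simp), if_neg hlow,
      if_neg (by rcases hAF with h3 | h3 <;> rw [h3] <;> simp)]
    omega
  have hII : D.rv i = .II ∨ D.rv i = .I := by
    revert hl hAF
    cases D.rv i <;> simp [RV.hasl]
  rw [if_neg (by rcases hII with h3 | h3 <;> rw [h3] <;> simp)]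
  by_cases hlow : Sum.inl i ∈ c.Low
  · obtain ⟨a, ha1, ha2, hA, ha⟩ := h.hL.light _ hlow
    have h4 := isA_le h ha1 ha2 hA
    have h5 := h.hL.lw_rng _ hlow
    have h6 := (hcand hlow).2.1
    have h7 : cW D N Y c k la ba par (Sum.inl i) = W00 D N Y c la ba par (Sum.inl i) := rfl
    rw [if_pos hlow, if_neg fun h8 => h6 h8.2.1]
    omega
  · have h3 : i = N.om ∧ Y.xf i = true := by
      by_contra h4
      rw [not_and_or] at h4
      rcases h4 with h4 | h4
      · simp [hII, hlow, h4] at hx'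
      · rw [Bool.not_eq_true] at h4
        simp [hII, hlow, h4] at hx'
    obtain ⟨hom, hxf⟩ := h3
    have hk : i + 1 = k := by
      rcases h.hN.om_eq with h3 | h3 <;> omega
    have hrv : D.rv i = .II := by
      rcases hII with h3 | h3
      · exact h3
      · exfalso
        obtain ⟨b, hb⟩ := hD.sf_ex i h1 h2 (Or.inr h3)
        have h4 := hD.sf_ba i b hb
        exact hD.hd.ne_om h.hN.om_eq b (h4.trans hom)
    have hom0 : N.om ≠ 0 := by omega
    have hs : D.cl la i .s = 0 := by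
      have := h.hX.xf_o hom0 (hom ▸ hrv) (hom ▸ hxf)
      rwa [← hom] at this
    have h5 := W00_om (N := N) (Y := Y) (D := D) (la := la) (c := c) (ba := ba) (par := par)
      (fun b => hom ▸ hD.hd.ne_om h.hN.om_eq b) hs
    have h6 := h.hY.oW2 i h1 h2 hxf hom hrv
    rw [if_neg hlow, if_pos ⟨hrv, hom, hxf⟩, h5]
    omega

/-- bushes with `l` flag and without `x` flag -/
private lemma W_lb (h : CfgOK D N Y c k la ba par) {b : B} (hL : D.rb b ≠ .L)
    (hx : (mkFill D N Y c k la ba par).x (Sum.inr b) = false) :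
    (mkFill D N Y c k la ba par).W0 k la ba par (Sum.inr b)
      + (if (D.rb b).pr = true then Kc D N k else 0) ≤ 2 * N.w + N.N0 + N.Q + Y.X 1 := by
  have hD := h.hD
  have hx' : (decide (D.rb b ≠ .L ∧ Sum.inr b ∉ c.Low) &&
      ! (decide (D.rb b = .tl) && Y.xf (ba b))) = false := hx
  have hcand : Sum.inr b ∈ c.Low → D.rb b = .self := fun hm => h.hL.cand _ hm
  rw [W0_b h]
  by_cases hlow : Sum.inr b ∈ c.Low
  · obtain ⟨a, ha1, ha2, hA, ha⟩ := h.hL.light _ hlow
    have h4 := isA_le h ha1 ha2 hA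
    have h5 := h.hL.lw_rng _ hlow
    have hs := hcand hlow
    have hx0 : D.cb par b .x0 = 0 := by
      have h3 := hD.s_x0 b
      rw [hs, if_neg (by decide)] at h3
      omega
    have h7 : cW D N Y c k la ba par (Sum.inr b) =
      W00 D N Y c la ba par (Sum.inr b) + Kc D N k := rfl
    rw [if_pos hlow, hx0, if_neg (by rw [hs]; decide), if_pos (by rw [hs]; rfl)]
    omega
  · have h3 : D.rb b = .tl ∧ Y.xf (ba b) = true := by
      by_contra h4
      rw [not_and_or] at h4
      rcases h4 with h4 | h4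
      · simp [hL, hlow, h4] at hx'
      · rw [Bool.not_eq_true] at h4
        simp [hL, hlow, h4] at hx'
    obtain ⟨htl, hxf⟩ := h3
    have hx0 : D.cb par b .x0 = 0 := by
      have h3 := hD.s_x0 b
      rw [htl, if_neg (by decide)] at h3
      omega
    have h5 := hD.hd.ba_pos b
    have h6 := hD.hd.ba_lt b
    have h7 := h.hY.xW2 (ba b) (by omega) (by omega) hxf ((hD.b_Fs b).1 htl)
    rw [W00_b_eq (h.hX.xf_b b htl hxf), if_neg (by rw [htl]; decide), hx0, if_pos htl,
      if_pos hxf, if_neg hlow, if_neg (by rw [htl]; decide)]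
    omega

theorem vh3 (h : CfgOK D N Y c k la ba par) : ∀ f ∈ (mkFill D N Y c k la ba par).E,
    (mkFill D N Y c k la ba par).x f = true → (mkFill D N Y c k la ba par).l f = false →
    ∀ e ∈ (mkFill D N Y c k la ba par).E, (mkFill D N Y c k la ba par).l e = true →
    (mkFill D N Y c k la ba par).x e = false →
      (mkFill D N Y c k la ba par).W k la ba par e + (mkFill D N Y c k la ba par).hi <
      (mkFill D N Y c k la ba par).W k la ba par f + (mkFill D N Y c k la ba par).X 1 := by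
  intro f hf _ hl e he _ hxe
  obtain ⟨b, rfl, hb⟩ := xo_of hf hl
  have hX : (mkFill D N Y c k la ba par).X = Y.X := rfl
  have hhi : (mkFill D N Y c k la ba par).hi = N.w + N.N0 - N.et := rfl
  obtain ⟨hK1, hK2⟩ := Kc_rng h
  have hτ := (h.hτ.rng b (by rw [hb]; rfl)).1
  suffices hW : (mkFill D N Y c k la ba par).W k la ba par e ≤
      ((2 * N.w + N.N0 + N.Q + Y.X 1 : ℕ) : ℤ) by
    rw [W_xo h hb, hX, hhi]
    push_cast at hW ⊢
    omega
  rcases e with i | b'
  · have h3 : (Sum.inl i : ℕ ⊕ B) ∈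
        ((Finset.range k).filter fun i => 1 ≤ i ∧ (D.rv i).hasl = true).disjSum
          (Finset.univ.filter fun b => D.rb b ≠ .L) := he
    rw [Finset.inl_mem_disjSum, Finset.mem_filter, Finset.mem_range] at h3
    have h4 := W_lv h h3.2.1 h3.1 h3.2.2 hxe
    have hW : (mkFill D N Y c k la ba par).W k la ba par (Sum.inl i) =
        ((mkFill D N Y c k la ba par).W0 k la ba par (Sum.inl i) : ℤ) := add_zero _
    rw [hW]
    exact_mod_cast h4
  · have h3 : (Sum.inr b' : ℕ ⊕ B) ∈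
        ((Finset.range k).filter fun i => 1 ≤ i ∧ (D.rv i).hasl = true).disjSum
          (Finset.univ.filter fun b => D.rb b ≠ .L) := he
    rw [Finset.inr_mem_disjSum, Finset.mem_filter] at h3
    have h4 := W_lb h h3.2 hxe
    have hK := Kc_eq (Y := Y) (c := c) h.hD h.hN
    have hW : (mkFill D N Y c k la ba par).W k la ba par (Sum.inr b') =
        ((mkFill D N Y c k la ba par).W0 k la ba par (Sum.inr b') : ℤ) +
          if (D.rb b').pr = true then (Kc D N k : ℤ) else 0 := by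
      rw [← hK]
      rfl
    rw [hW]
    split_ifs at h4 ⊢ <;> exact_mod_cast h4

end Pool.Agent.Lob5
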