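import Pool.Agent.Lob5.VH0

/-!
# Verification: hypothesis (H4) of the sweep

Proof. `F := mkFill ..`, `s ∈ F.R`, `v := vtx s` (`vtx_spec`), `F.tk s = D.t1 v`, `F.tk' s = D.t2
v`.
* `rv v = FR`: first alternative. `t1 v = some b` with `ba b = v`, role `xo` or `sp`, so `F.x (inr
  b) = true` (not in `Low`: elements of `Low` which are bushes have role `self`; not `tl`), `F.W
  (inr b) ≥ (w+N0+Q+τ b) + Kc` (`W0_b, W00_b_top, Kc_eq`), `Kc ≥ 2w+N0`; `s = Y.bs v + (w+N0+Q+τ b)`
  (`W00_FR`); `Rq`; `bz (F.l ..) lo ≥ 0`.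
* `rv v = R3`: second alternative with `d = inr δ`, `δ` the designated bush (`dg_R3`: role `st`,
  exactly one static leaf): `F.l d`, not `F.pf d`, `F.x d`; `F.W d = W00 (inr δ) ≤ (w+N0+Q+τ δ) +
  (w+N0)` (`W0_b`, `W00_b_one`). `t := t1 v` has role `xo` or `sp` and is not designated; `s ≥ Y.bs
  v + 2(w+N0+Q) + τ δ + 1` (`W00_top2`). Let `i := min U (1 + |Z| + #)`; `i ≥ 1` as `U ≥ nT ≥ 1`; `i
  ≤ 1 + nb L + nv I + nb xo` (`Z_card, Z_le`, `x_nonsingle`), `Xr`: `X i + w+N0+nT ≤ Y.bs v + i +
  2`. So it suffices that `e/2 + nPr + i + 2 < N0 + nT + Q`; `N0 = e + nSg + 2 nPr`, `nT = nb L + nb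
  st + nb xo + nb sp`, and `(e+1)/2 ≥ 1`, `nSg ≥ nb st + nb self`, `nPr ≥ nb self + nb xo + nb sp`,
  `nb self ≥ nv I`, `nb st ≥ 1`, `nb xo + nb sp ≥ 1` (`ns_ge, self_eq`).
* `rv v = R4`: third alternative: `t1 v`, `t2 v` have role `sp` (`t1_ex, t2_ex, tok, b_R4`), `F.l =
  true`, they own pairs; they are different (`t1_ds, t2_ds`); `ppf e` is a `self` bush; `t1 v' = t2
  v` would give `v' = v`. -/

namespace Pool.Agent.Lob5

open Pool.Agent.Lob89

variable {Lf B BL : Type*} [Fintype Lf] [Fintype B] [Fintype BL] [DecidableEq B]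
  {D : PlanData Lf B BL} {N : Nm} {Y : Ly} {c : Cfg Lf B BL} {k : ℕ}
  {la : Lf → ℕ} {ba : B → ℕ} {par : BL → B} {F : FillData Lf B BL}

private theorem vh4_x (h : CfgOK D N Y c k la ba par) {b : B} (h1 : D.rb b ≠ .L)
    (h2 : D.rb b ≠ .self) (h3 : D.rb b ≠ .tl) :
    (mkFill D N Y c k la ba par).x (Sum.inr b) = true := by
  have e1 : (mkFill D N Y c k la ba par).x (Sum.inr b) =
    (decide (D.rb b ≠ .L ∧ Sum.inr b ∉ c.Low) &&
      ! (decide (D.rb b = .tl) && Y.xf (ba b))) := rfl
  have h4 : Sum.inr b ∉ c.Low := fun hb => h2 (h.hL.cand _ hb)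
  rw [e1]
  simp [h1, h3, h4]

private theorem vh4_W (h : CfgOK D N Y c k la ba par) (b : B) :
    (mkFill D N Y c k la ba par).W k la ba par (Sum.inr b) =
      ((mkFill D N Y c k la ba par).W0 k la ba par (Sum.inr b) : ℤ) +
        if (D.rb b).pr = true then (Kc D N k : ℤ) else 0 := by
  have h1 := Kc_eq (D := D) (N := N) (Y := Y) (c := c) (k := k) (la := la) (ba := ba)
    (par := par) h.hD h.hN
  unfold FillData.W
  rw [h1]
  rfl

private theorem vh4_Kc (h : CfgOK D N Y c k la ba par) {i : ℕ} (h1 : 1 ≤ i) (h2 : i < k)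
    (hr : D.rv i = .FR) : 2 * N.w + N.N0 ≤ Kc D N k := by
  have hebt := h.hN.ebt
  have h3 : N.et ≠ N.eb + 2 := fun h3 => h.hN.et_FR h3 i h1 h2 hr
  unfold Kc
  omega

omit [Fintype Lf] [Fintype BL] [DecidableEq B] in
private theorem vh4_nb (D : PlanData Lf B BL) {b : B} {ρ : RB} (h : D.rb b = ρ) :
    1 ≤ D.nb ρ :=
  Finset.card_pos.2 ⟨b, Finset.mem_filter.2 ⟨Finset.mem_univ _, h⟩⟩

private theorem vh4_bz (b : Bool) (n : ℕ) : 0 ≤ bz b n := by
  unfold bz
  split_ifs
  · exact Int.natCast_nonneg n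
  · exact le_rfl

theorem vh4 (h : CfgOK D N Y c k la ba par) (hF : F = mkFill D N Y c k la ba par) :
    ∀ s ∈ F.R,
    (s < F.W k la ba par (own (F.tk s)) - 1 + bz (F.l (own (F.tk s))) F.lo
      + bz (F.x (own (F.tk s))) (F.X 1)) ∨
    (∃ d ∈ F.E, F.l d = true ∧ F.pf d = false ∧ F.W k la ba par d + (F.lo + F.Pi.card)
      + bz (F.x d) (F.X (min F.U (1 + F.Z.card + (F.E.filter fun e => F.x e = true ∧
        ¬ (F.l e = true ∧ F.pf e = false)).card))) < s) ∨
    (F.l (own (F.tk s)) = true ∧ F.tk' s ∈ F.Pi ∧ F.l (own (F.tk' s)) = true ∧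
      F.tk' s ≠ F.tk s ∧ (∀ e ∈ F.E, F.pf e = true → F.ppf e ≠ F.tk' s) ∧
      ∀ s' ∈ F.R, F.tk' s ≠ F.tk s' ∧ (F.tk' s = F.tk' s' → s = s')) := by
  subst hF
  intro s hs
  have hD := h.hD
  obtain ⟨⟨hv1, hv2, hv3⟩, hv4⟩ := vtx_spec hs
  have etk : ∀ s, (mkFill D N Y c k la ba par).tk s = D.t1 (vtx D N Y c k la ba par s) :=
    fun _ => rfl
  have etk' : ∀ s, (mkFill D N Y c k la ba par).tk' s = D.t2 (vtx D N Y c k la ba par s) :=
    fun _ => rfl
  have el : ∀ b, (mkFill D N Y c k la ba par).l (Sum.inr b) = (D.rb b).hasl := fun _ => rfl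
  rw [etk, etk']
  obtain ⟨b, hb⟩ := hD.t1_ex _ hv1 hv2 hv3
  have hba := hD.t1_ba _ b hb
  have hbt : D.rb b = .xo ∨ D.rb b = .sp := (hD.tok b).2 (Or.inl (by rw [hba, hb]))
  have hbtop : (D.rb b).top = true := by rcases hbt with h1 | h1 <;> rw [h1] <;> rfl
  have hbpr : (D.rb b).pr = true := by rcases hbt with h1 | h1 <;> rw [h1] <;> rfl
  set v := vtx D N Y c k la ba par s with hv
  have heN := h.hY.eN
  have hebt := h.hN.ebt
  rcases hv3 with hr | hr | hr
  · -- role `R3`
    right
    left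
    obtain ⟨δ, hδ⟩ := hD.dg_ex v hv1 hv2 (by rw [hr]; rfl)
    have hδa := hD.dg_ba v δ hδ
    have hδs : D.ds δ = true := (hD.ds_dg δ).2 (by rw [hδa, hδ])
    obtain ⟨hδ1, hδ2⟩ := hD.dg_R3 δ hδs (by rw [hδa, hr])
    have hδt : (D.rb δ).top = true := by rw [hδ1]; rfl
    have hx : (mkFill D N Y c k la ba par).x (Sum.inr δ) = true :=
      vh4_x h (by rw [hδ1]; decide) (by rw [hδ1]; decide) (by rw [hδ1]; decide)
    have hLow : Sum.inr δ ∉ c.Low := by
      intro hl
      have h1 : D.rb δ = .self := h.hL.cand _ hl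
      rw [hδ1] at h1
      exact absurd h1 (by decide)
    refine ⟨Sum.inr δ, ?_, ?_, rfl, ?_⟩
    · change Sum.inr δ ∈ (((Finset.range k).filter fun i => 1 ≤ i ∧
        (D.rv i).hasl = true).disjSum (Finset.univ.filter fun b => D.rb b ≠ .L))
      rw [Finset.inr_mem_disjSum, Finset.mem_filter]
      exact ⟨Finset.mem_univ _, by rw [hδ1]; decide⟩
    · rw [el, hδ1]
      rfl
    · have hW : (mkFill D N Y c k la ba par).W0 k la ba par (Sum.inr δ) =
          W00 D N Y c la ba par (Sum.inr δ) := by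
        rw [W0_b h δ]
        have h1 := hD.s_x0 δ
        rw [if_neg (by rw [hδ1]; decide)] at h1
        have h2 : D.cb par δ .x0 = 0 := by omega
        rw [h2, if_neg (by rw [hδ1]; decide), if_neg hLow]
        omega
      have hW1 := W00_b_one (Y := Y) (c := c) (la := la) (ba := ba) heN h.hσ hδ2
      rw [if_pos hδt] at hW1
      have hne : δ ≠ b := by
        rintro rfl
        rw [hδ1] at hbt
        exact absurd hbt (by decide)
      have hW2 := W00_top2 (N := N) (Y := Y) (c := c) (la := la) (ba := ba) (par := par)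
        hδt hbtop hne (by rw [hδa, hba])
      rw [hδa] at hW2
      have hτ := (h.hτ.rng b hbtop).1
      have hPi := nPi_eq (N := N) (Y := Y) (c := c) (k := k) (la := la) (ba := ba)
        (par := par) D
      have hZ := (Z_card (N := N) (Y := Y) (c := c) (la := la) (ba := ba) (par := par) hD).trans
        (Z_le hD)
      have hxn := x_nonsingle (N := N) (Y := Y) (c := c) (la := la) (ba := ba) (par := par) hD
      set z := (mkFill D N Y c k la ba par).Z.card with hz
      set q := ((mkFill D N Y c k la ba par).E.filter fun e =>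
        (mkFill D N Y c k la ba par).x e = true ∧
        ¬ ((mkFill D N Y c k la ba par).l e = true ∧
          (mkFill D N Y c k la ba par).pf e = false)).card with hq
      have eX : (mkFill D N Y c k la ba par).X = Y.X := rfl
      have eU : (mkFill D N Y c k la ba par).U = Y.U := rfl
      have elo : (mkFill D N Y c k la ba par).lo = N.w + N.eb + 1 := rfl
      rw [hPi, eX, eU, elo, vh4_W h, if_neg (by rw [hδ1]; decide), hW, hx]
      have h1 := h.hN.e_eq
      have h2 := h.hN.N0_eq
      have h3 := h.hN.nT_eq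
      have h4 := ns_ge hD
      have h5 := self_eq hD
      have h6 := vh4_nb D hδ1
      have h7 : 1 ≤ D.nb .xo + D.nb .sp := by
        rcases hbt with h8 | h8
        · have := vh4_nb D h8
          omega
        · have := vh4_nb D h8
          omega
      have h8 := h.hY.U_ge
      have h9 : D.nSg k = D.nv k .A + D.nv k .II + D.nb .st + D.nb .self + D.nb .sp +
        D.nb .tl := rfl
      have h10 : D.nPr = D.nb .self + D.nb .xo + D.nb .sp := rfl
      have h11 := h.hY.Xr (min Y.U (1 + z + q)) v (by omega) (by omega) hv1 hv2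
        (by rw [hr]; rfl)
      have h12 : min Y.U (1 + z + q) ≤ 1 + z + q := min_le_right _ _
      have h13 : bz true (Y.X (min Y.U (1 + z + q)) : ℤ) =
        (Y.X (min Y.U (1 + z + q)) : ℤ) := rfl
      rw [h13]
      have h14 : D.ns ≤ N.e := by omega
      have h15 : (((W00 D N Y c la ba par (Sum.inl v) : ℕ) : ℤ)) = s := hv4
      generalize Y.X (min Y.U (1 + z + q)) = xi at *
      generalize min Y.U (1 + z + q) = i at *
      generalize W00 D N Y c la ba par (Sum.inl v) = wv at *
      generalize W00 D N Y c la ba par (Sum.inr δ) = wd at *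
      push_cast
      omega
  · -- role `R4`
    right
    right
    obtain ⟨b', hb'⟩ := hD.t2_ex _ hv1 hv2 hr
    have hba' := hD.t2_ba _ b' hb'
    have hbt' : D.rb b' = .xo ∨ D.rb b' = .sp := (hD.tok b').2 (Or.inr (by rw [hba', hb']))
    have hsp : D.rb b = .sp := by
      rcases hD.b_R4 b (by rw [hba, hr]) with h1 | h1
      · rw [h1.1] at hbt
        exact absurd hbt (by decide)
      · exact h1
    have hsp' : D.rb b' = .sp := by
      rcases hD.b_R4 b' (by rw [hba', hr]) with h1 | h1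
      · rw [h1.1] at hbt'
        exact absurd hbt' (by decide)
      · exact h1
    have hne : D.t1 v ≠ some b' := by
      intro h1
      have h2 := hD.t2_ds b' (by rw [hba', hb'])
      have h3 := (hD.t1_ds b' (by rw [hba', h1])).1 h2
      rw [hba', hr] at h3
      exact absurd h3 (by decide)
    rw [hb']
    refine ⟨?_, ?_, ?_, fun h1 => hne h1.symm, ?_, fun s' hs' => ⟨?_, ?_⟩⟩
    · rw [hb]
      change (D.rb b).hasl = true
      rw [hsp]
      rfl
    · unfold FillData.Pi
      refine Finset.mem_image_of_mem _ (Finset.mem_filter.2 ⟨Finset.mem_univ _, ?_⟩)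
      change (D.rb b').pr = true
      rw [hsp']
      rfl
    · change (D.rb b').hasl = true
      rw [hsp']
      rfl
    · rintro (i | b'') - hp h1
      · have h2 : D.sf i = some b' := h1
        have h3 := hD.sf_ba i b' h2
        have h4 := (hD.self_sf b').2 (by rw [h3, h2])
        rw [hsp'] at h4
        exact absurd h4 (by decide)
      · exact absurd hp (by simp [mkFill])
    · rw [etk]
      intro h1
      have h2 := hD.t1_ba _ b' h1.symm
      rw [← h2, hba'] at h1
      exact hne h1.symm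
    · rw [etk']
      intro h1
      have h2 := hD.t2_ba _ b' h1.symm
      have h3 := (vtx_spec hs').2
      rw [← h2, hba'] at h3
      rw [← h3, ← hv4]
  · -- role `FR`
    left
    rw [hb]
    change s < (mkFill D N Y c k la ba par).W k la ba par (Sum.inr b) - 1 +
      bz ((mkFill D N Y c k la ba par).l (Sum.inr b)) (mkFill D N Y c k la ba par).lo +
      bz ((mkFill D N Y c k la ba par).x (Sum.inr b)) ((mkFill D N Y c k la ba par).X 1)
    have hx : (mkFill D N Y c k la ba par).x (Sum.inr b) = true :=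
      vh4_x h (by rcases hbt with h1 | h1 <;> rw [h1] <;> decide)
        (by rcases hbt with h1 | h1 <;> rw [h1] <;> decide)
        (by rcases hbt with h1 | h1 <;> rw [h1] <;> decide)
    have eX : (mkFill D N Y c k la ba par).X = Y.X := rfl
    rw [vh4_W h, if_pos hbpr, hx, eX]
    have h1 := vh4_bz ((mkFill D N Y c k la ba par).l (Sum.inr b))
      (mkFill D N Y c k la ba par).lo
    have h2 : bz true (Y.X 1 : ℤ) = (Y.X 1 : ℤ) := rfl
    have h3 := vh4_Kc h hv1 hv2 hr
    have h4 := W0_b h b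
    have h5 := W00_b_top (N := N) (Y := Y) (c := c) (la := la) (ba := ba) (par := par) hbtop
    have h6 := W00_FR (N := N) (Y := Y) (c := c) (la := la) (b := b) hD (by rw [hba, hr])
    rw [hba] at h6
    have h7 := h.hY.Rq v hv1 hv2 hr
    rw [h2, ← hv4, h6]
    generalize bz ((mkFill D N Y c k la ba par).l (Sum.inr b))
      (mkFill D N Y c k la ba par).lo = y at *
    have h8 : N.w + N.N0 + N.Q + c.τ b ≤
      (mkFill D N Y c k la ba par).W0 k la ba par (Sum.inr b) := by
      rw [h4]
      omega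
    generalize (mkFill D N Y c k la ba par).W0 k la ba par (Sum.inr b) = w0 at *
    generalize Kc D N k = K at *
    push_cast
    omega

end Pool.Agent.Lob5
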