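import Pool.Agent.Lob5.WEval
import Pool.Agent.Lob5.Cnt

/-!
# Verification: lower bounds for the elements

Proof. `lo = w + e/2 + 1`, `X 1 ≥ s1+n2+j+P+1 ≥ 1` (`X_lo`), `K = Kc = 2w+N0+1+e/2-(e+1)/2+(nSg % 2)`, so
`K ≥ 2w+N0` and `K - (nSg % 2) ≥ 2w+N0` (`Kc_eq`, `eN`, `nS_eq`). `thr ≤ 3w+N0+1` (`thr_le`).
Elements (`E`): vertices with `hasl`, bushes not of role `L`.
* `A`, `F` vertices: `l` only; weight `Y.bs i` (`W0_v, W00_base`): `bA`.
* `II`, `I` vertices `i ≠ om`, not in `Low`: `l` and `x`; weight `≥ Y.bs i` (`W00_ge`): `bN`. In `Low`: weight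
  `≥ Y.bs i + 1`, `l` only, `cd i` (`LowSel.cand`): `bc`.
* the vertex `om` of role `II`: not in `Low`; `XfOK.lb_o` (weight `≥ Y.bs om`, plus `xv` if `Y.xf`) if it has no
  static leaf, `lb_o'` and `W00_v_stat` if it has one (then `Y.xf om = false` by `xf_o`).
* `st` bushes: `l, x`: weight `≥ (w+N0+Q+1) + (w+1)` (`W00_b_stat`, `s_st`), plus `lo ≥ w+1` and `X 1 ≥ 1`.
* `self`: weight `≥ K ≥ 2w+N0`, plus `lo ≥ w+1`, plus `X 1 ≥ 1` or a low label `≥ 1`.
* `xo`: `x` only: weight `≥ (w+N0+Q+1) + K`, `- (nS % 2)`: `≥ 3w+2N0+1`, plus `X 1 ≥ 1`.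
* `sp`: `l, x`: weight `≥ w+N0+Q+1+K`.
* `tl`: `XfOK.lb_b` if there is no static leaf of role `s` (`W0_b`: `yv + s0v + ..`), otherwise `lb_b'` with
  `W00_b_stat` (then `Y.xf = false` by `xf_b`).
-/

namespace Pool.Agent.Lob5

open Pool.Agent.Lob89

variable {Lf B BL : Type*} [Fintype Lf] [Fintype B] [Fintype BL] [DecidableEq B]
  {D : PlanData Lf B BL} {N : Nm} {Y : Ly} {c : Cfg Lf B BL} {k : ℕ}
  {la : Lf → ℕ} {ba : B → ℕ} {par : BL → B}

private lemma bzt {b : Bool} (h : b = true) (v : ℤ) : bz b v = v := by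
  rw [h]; rfl

private lemma bzf {b : Bool} (h : b = false) (v : ℤ) : bz b v = 0 := by
  rw [h]; rfl

/-- the vertices -/
private lemma lb_v (h : CfgOK D N Y c k la ba par) {i : ℕ} (h1 : 1 ≤ i) (h2 : i < k)
    (hl : (D.rv i).hasl = true) :
    Y.thr < (mkFill D N Y c k la ba par).W0 k la ba par (Sum.inl i) + (N.w + N.eb + 1)
      + if (mkFill D N Y c k la ba par).x (Sum.inl i) = true then Y.X 1 else 0 := by
  have hD := h.hD
  have hx : (mkFill D N Y c k la ba par).x (Sum.inl i) =
      (decide ((D.rv i = .II ∨ D.rv i = .I) ∧ Sum.inl i ∉ c.Low) &&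
        ! (decide (i = N.om) && Y.xf i)) := rfl
  have hcand : Sum.inl i ∈ c.Low → (D.rv i = .II ∨ D.rv i = .I) ∧ i ≠ N.om ∧ N.cd i := by
    intro hm
    have h3 := h.hL.cand _ hm
    exact h3.2.2
  rw [W0_v h h1 h2, hx]
  by_cases hAF : D.rv i = .A ∨ D.rv i = .F
  · have hb := W00_base (N := N) (Y := Y) (c := c) hD h1 h2
      (by rcases hAF with h3 | h3 <;> simp [h3])
    have hA : (D.rv i).isA = true := by
      rcases hAF with h3 | h3 <;> rw [h3] <;> rfl
    have h4 := h.hY.bA i h1 h2 hA
    rw [hb]
    omega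
  have hII : D.rv i = .II ∨ D.rv i = .I := by
    revert hl hAF
    cases D.rv i <;> simp [RV.hasl]
  have hge := W00_ge (D := D) (N := N) (Y := Y) (c := c) (la := la) (ba := ba) (par := par) i
  by_cases hom : i = N.om
  · -- the fat end
    have hk : i + 1 = k := by
      rcases h.hN.om_eq with h3 | h3 <;> omega
    have hrv : D.rv i = .II := by
      rcases hII with h3 | h3
      · exact h3
      · exfalso
        obtain ⟨b, hb⟩ := hD.sf_ex i h1 h2 (Or.inr h3)
        have h4 := hD.sf_ba i b hb
        exact hD.hd.ne_om h.hN.om_eq b (h4.trans hom)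
    have hlow : Sum.inl i ∉ c.Low := fun hm => (hcand hm).2.1 hom
    have hom0 : N.om ≠ 0 := by omega
    have hrv' : D.rv N.om = .II := hom ▸ hrv
    rw [if_neg hlow, if_neg (by rw [hrv]; simp)]
    by_cases hxf : Y.xf i = true
    · have hs : D.cl la i .s = 0 := by
        have := h.hX.xf_o hom0 hrv' (hom ▸ hxf)
        rwa [← hom] at this
      have h3 := h.hX.lb_o hom0 hrv' (hom ▸ hs)
      rw [← hom, if_pos hxf] at h3
      rw [if_pos ⟨hrv, hom, hxf⟩]
      omega
    · have hxt : (decide ((D.rv i = .II ∨ D.rv i = .I) ∧ Sum.inl i ∉ c.Low) &&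
          ! (decide (i = N.om) && Y.xf i)) = true := by
        rw [Bool.not_eq_true] at hxf
        simp [hrv, hlow, hxf]
      rw [if_neg fun h3 => hxf h3.2.2, if_pos hxt]
      by_cases hs : D.cl la i .s = 0
      · have h3 := h.hX.lb_o hom0 hrv' (hom ▸ hs)
        rw [← hom, if_neg hxf] at h3
        omega
      · have h3 := h.hX.lb_o' hom0 hrv' (by rw [← hom]; omega)
        rw [← hom] at h3
        have h4 := W00_v_stat (Y := Y) (ba := ba) (par := par) h.hY.eN h.hσ
          (by omega : 1 ≤ D.cl la i .s)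
        omega
  · by_cases hlow : Sum.inl i ∈ c.Low
    · have h3 := h.hY.bc i h1 h2 hom hII (hcand hlow).2.2
      rw [if_pos hlow]
      omega
    · have h3 := h.hY.bN i h1 h2 hom hII
      have hxt : (decide ((D.rv i = .II ∨ D.rv i = .I) ∧ Sum.inl i ∉ c.Low) &&
          ! (decide (i = N.om) && Y.xf i)) = true := by
        simp [hII, hlow, hom]
      rw [if_pos hxt]
      omega

/-- the bushes -/
private lemma lb_b (h : CfgOK D N Y c k la ba par) {b : B} (hL : D.rb b ≠ .L) :
    Y.thr + (if (D.rb b).hasl = true then 0 else D.nSg k % 2) <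
      (mkFill D N Y c k la ba par).W0 k la ba par (Sum.inr b)
      + (if (D.rb b).pr = true then Kc D N k else 0)
      + (if (D.rb b).hasl = true then N.w + N.eb + 1 else 0)
      + if (mkFill D N Y c k la ba par).x (Sum.inr b) = true then Y.X 1 else 0 := by
  have hD := h.hD
  have hx : (mkFill D N Y c k la ba par).x (Sum.inr b) =
      (decide (D.rb b ≠ .L ∧ Sum.inr b ∉ c.Low) && ! (decide (D.rb b = .tl) && Y.xf (ba b))) :=
    rfl
  have hcand : Sum.inr b ∈ c.Low → D.rb b = .self := fun hm => h.hL.cand _ hm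
  have hX1 := h.hY.X_lo
  have heN := h.hY.eN
  have hebt := h.hN.ebt
  have hK : 2 * N.w + N.N0 + D.nSg k % 2 ≤ Kc D N k + 1 := by
    unfold Kc
    omega
  have hthr : Y.thr + N.et ≤ 3 * N.w + N.N0 + 2 + N.eb := by
    have h1 := h.hY.thr_le
    have h2 := h.hY.thr_le'
    omega
  have hK' : Y.thr + D.nSg k % 2 ≤ Kc D N k + N.w + 1 := by
    unfold Kc
    omega
  have hxt : Sum.inr b ∉ c.Low → D.rb b ≠ .tl →
      (decide (D.rb b ≠ .L ∧ Sum.inr b ∉ c.Low) && ! (decide (D.rb b = .tl) && Y.xf (ba b))) =
        true := by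
    intro h3 h4
    simp [hL, h3, h4]
  rw [W0_b h, hx]
  cases hb : D.rb b with
  | L => exact absurd hb hL
  | st =>
    have hlow : Sum.inr b ∉ c.Low := fun hm => by
      have := hcand hm
      rw [hb] at this
      exact RB.noConfusion this
    have h3 := W00_b_stat (Y := Y) (la := la) (ba := ba) h.hY.eN h.hσ (hD.s_st b hb)
    have htop : (D.rb b).top = true := by rw [hb]; rfl
    rw [if_pos htop] at h3
    have h4 := h.hτ.rng b htop
    have h5 := hxt hlow (by rw [hb]; simp)
    rw [hb] at h5
    rw [if_pos h5, if_pos (show RB.st.hasl = true from rfl), if_pos (show RB.st.hasl = true from rfl)]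
    omega
  | self =>
    by_cases hlow : Sum.inr b ∈ c.Low
    · have h5 := h.hL.lw_rng _ hlow
      rw [if_pos (show RB.self.hasl = true from rfl), if_pos (show RB.self.hasl = true from rfl),
        if_pos (show RB.self.pr = true from rfl), if_pos hlow]
      omega
    · have h5 := hxt hlow (by rw [hb]; simp)
      rw [hb] at h5
      rw [if_pos h5, if_pos (show RB.self.hasl = true from rfl),
        if_pos (show RB.self.hasl = true from rfl), if_pos (show RB.self.pr = true from rfl)]
      omega
  | xo =>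
    have hlow : Sum.inr b ∉ c.Low := fun hm => by
      have := hcand hm
      rw [hb] at this
      exact RB.noConfusion this
    have htop : (D.rb b).top = true := by rw [hb]; rfl
    have h3 := W00_b_top (N := N) (Y := Y) (c := c) (la := la) (ba := ba) (par := par) htop
    have h4 := h.hτ.rng b htop
    have h5 := hxt hlow (by rw [hb]; simp)
    rw [hb] at h5
    rw [if_pos h5, if_neg (show ¬ RB.xo.hasl = true by decide),
      if_neg (show ¬ RB.xo.hasl = true by decide), if_pos (show RB.xo.pr = true from rfl)]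
    omega
  | sp =>
    have hlow : Sum.inr b ∉ c.Low := fun hm => by
      have := hcand hm
      rw [hb] at this
      exact RB.noConfusion this
    have htop : (D.rb b).top = true := by rw [hb]; rfl
    have h3 := W00_b_top (N := N) (Y := Y) (c := c) (la := la) (ba := ba) (par := par) htop
    have h4 := h.hτ.rng b htop
    have h5 := hxt hlow (by rw [hb]; simp)
    rw [hb] at h5
    rw [if_pos h5, if_pos (show RB.sp.hasl = true from rfl),
      if_pos (show RB.sp.hasl = true from rfl), if_pos (show RB.sp.pr = true from rfl)]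
    omega
  | tl =>
    have hlow : Sum.inr b ∉ c.Low := fun hm => by
      have := hcand hm
      rw [hb] at this
      exact RB.noConfusion this
    rw [if_pos (show RB.tl.hasl = true from rfl), if_pos (show RB.tl.hasl = true from rfl),
      if_neg (show ¬ RB.tl.pr = true by decide), if_pos rfl, if_neg hlow]
    by_cases hxf : Y.xf (ba b) = true
    · have hs := h.hX.xf_b b hb hxf
      have h3 := h.hX.lb_b b hb hs
      rw [if_pos hxf] at h3 ⊢
      omega
    · have hxt' : (decide (RB.tl ≠ .L ∧ Sum.inr b ∉ c.Low) &&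
          ! (decide (RB.tl = .tl) && Y.xf (ba b))) = true := by
        rw [Bool.not_eq_true] at hxf
        simp [hlow, hxf]
      rw [if_neg hxf, if_pos hxt']
      by_cases hs : D.cb par b .s = 0
      · have h3 := h.hX.lb_b b hb hs
        rw [if_neg hxf] at h3
        omega
      · have h3 := h.hX.lb_b' b hb (by omega)
        have h4 := W00_b_stat (Y := Y) (la := la) (ba := ba) h.hY.eN h.hσ
          (by omega : 1 ≤ D.cb par b .s)
        have htop : ¬ (D.rb b).top = true := by rw [hb]; decide
        rw [if_neg htop] at h4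
        omega

theorem v_lb (h : CfgOK D N Y c k la ba par) :
    FillLB (mkFill D N Y c k la ba par) k la ba par := by
  refine ⟨fun e he => ?_⟩
  have hth : (mkFill D N Y c k la ba par).thr = Y.thr := rfl
  have hlo : (mkFill D N Y c k la ba par).lo = N.w + N.eb + 1 := rfl
  have hX : (mkFill D N Y c k la ba par).X = Y.X := rfl
  rw [nS_eq h.hD, hth, hlo, hX]
  rcases e with i | b
  · have he' : i ∈ (Finset.range k).filter fun i => 1 ≤ i ∧ (D.rv i).hasl = true := by
      have h3 : (Sum.inl i : ℕ ⊕ B) ∈
          ((Finset.range k).filter fun i => 1 ≤ i ∧ (D.rv i).hasl = true).disjSum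
            (Finset.univ.filter fun b => D.rb b ≠ .L) := he
      rwa [Finset.inl_mem_disjSum] at h3
    rw [Finset.mem_filter, Finset.mem_range] at he'
    obtain ⟨h2, h1, hl⟩ := he'
    have h3 := lb_v h h1 h2 hl
    have hl' : (mkFill D N Y c k la ba par).l (Sum.inl i) = true := hl
    have hW : (mkFill D N Y c k la ba par).W k la ba par (Sum.inl i) =
        ((mkFill D N Y c k la ba par).W0 k la ba par (Sum.inl i) : ℤ) := add_zero _
    rw [bzt hl', bzf (b := ! _) (by rw [hl']; rfl), hW]
    by_cases hx : (mkFill D N Y c k la ba par).x (Sum.inl i) = true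
    · rw [bzt hx]
      rw [if_pos hx] at h3
      push_cast at h3 ⊢
      omega
    · rw [if_neg hx] at h3
      rw [Bool.not_eq_true] at hx
      rw [bzf hx]
      push_cast at h3 ⊢
      omega
  · have he' : b ∈ Finset.univ.filter fun b => D.rb b ≠ .L := by
      have h3 : (Sum.inr b : ℕ ⊕ B) ∈
          ((Finset.range k).filter fun i => 1 ≤ i ∧ (D.rv i).hasl = true).disjSum
            (Finset.univ.filter fun b => D.rb b ≠ .L) := he
      rwa [Finset.inr_mem_disjSum] at h3
    rw [Finset.mem_filter] at he'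
    have h3 := lb_b h he'.2
    have hK := Kc_eq (Y := Y) (c := c) h.hD h.hN
    have hl : (mkFill D N Y c k la ba par).l (Sum.inr b) = (D.rb b).hasl := rfl
    have hW : (mkFill D N Y c k la ba par).W k la ba par (Sum.inr b) =
        ((mkFill D N Y c k la ba par).W0 k la ba par (Sum.inr b) : ℤ) +
          if (D.rb b).pr = true then (Kc D N k : ℤ) else 0 := by
      rw [← hK]
      rfl
    rw [hl, hW]
    by_cases hx : (mkFill D N Y c k la ba par).x (Sum.inr b) = true
    · rw [bzt hx]
      rw [if_pos hx] at h3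
      by_cases hh : (D.rb b).hasl = true
      · rw [bzt hh, bzf (b := ! _) (by rw [hh]; rfl)]
        rw [if_pos hh, if_pos hh] at h3
        by_cases hp : (D.rb b).pr = true
        · rw [if_pos hp] at h3 ⊢
          push_cast at h3 ⊢
          omega
        · rw [if_neg hp] at h3 ⊢
          push_cast at h3 ⊢
          omega
      · rw [if_neg hh, if_neg hh] at h3
        rw [Bool.not_eq_true] at hh
        rw [bzf hh, bzt (b := ! _) (by rw [hh]; rfl)]
        by_cases hp : (D.rb b).pr = true
        · rw [if_pos hp] at h3 ⊢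
          push_cast at h3 ⊢
          omega
        · rw [if_neg hp] at h3 ⊢
          push_cast at h3 ⊢
          omega
    · rw [if_neg hx] at h3
      rw [Bool.not_eq_true] at hx
      rw [bzf hx]
      by_cases hh : (D.rb b).hasl = true
      · rw [bzt hh, bzf (b := ! _) (by rw [hh]; rfl)]
        rw [if_pos hh, if_pos hh] at h3
        by_cases hp : (D.rb b).pr = true
        · rw [if_pos hp] at h3 ⊢
          push_cast at h3 ⊢
          omega
        · rw [if_neg hp] at h3 ⊢
          push_cast at h3 ⊢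
          omega
      · rw [if_neg hh, if_neg hh] at h3
        rw [Bool.not_eq_true] at hh
        rw [bzf hh, bzt (b := ! _) (by rw [hh]; rfl)]
        by_cases hp : (D.rb b).pr = true
        · rw [if_pos hp] at h3 ⊢
          push_cast at h3 ⊢
          omega
        · rw [if_neg hp] at h3 ⊢
          push_cast at h3 ⊢
          omega

end Pool.Agent.Lob5
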