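import Pool.Agent.Lob5.Cfg

/-!
# Verification: labels

Proof. Zones of the fixed labels (`Z1 := s1+n2`): `ξ` labels in `[1, n2]` (`XiOK`), low
labels `s1+n2+lw ∈ [s1+n2+1, s1+n2+j]`, labels `yv`, `xv` in `[s1+n2+j+1, w]` (`y_rng, x_rng`),
path edges (`p_rng`), static labels in `[w+1, w+e/2]` or `[w+N0-(e+1)/2+1, w+N0]` (`SigOK`), tops
`w+N0+Q+τ b` with `1 ≤ τ b ≤ nT`. Path edges are different from `yv, xv, X` (`y_p, x_p, X_p`),
they lie in the low part `[s1+n2+j+1, w]`, or in `[w+N0+1, w+N0+Q]`, `[w+N0+Q+nT+1, w+N0+nT+h]`,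
or in `[n2+1, n2+s1]`, or equal to `pk` (a static label which is not used by `σ`, `SigOK.pk`;
`NmOK.pk_rng`).
`fix_inj`: the slots: a path edge (`p_inj`); leaves and tops with label `yv i` (one per vertex:
leaf of role `y` at an `As`-vertex, top of role `tl` at an `Fs`-vertex; `y_inj`); slots with label
`xv i` (one per vertex in `xs`; `x_inj, x_y`); low labels: the `x`-slot of a node in `Low`
(`lw_inj`, one slot per node); `ξ (par y)`: leaf of role `x0` (`XiOK.inj`, at most one per bush);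
`σ` (`SigOK.inj`); tops (`TauOK.inj`). Uniqueness of slots: the cardinalities in `PlanOK`
(`Finset.card_le_one`). `mkFill` gives a leaf of role `x` of a node outside `Low` the kind `fix`
only if the node is in `xs`: for bushes role `tl`, so `rv (ba b) = Fs` (`b_Fs`); for the vertex
`om`: role `II` (role `I` is impossible, there is no bush at `k - 1`).
`fix_pos`: all these labels are positive. `fix_le`: `NmOK.tot`. `fix_mid`: the labels are `≤ w +
e/2` or `> w+N0-(e+1)/2`. `fix_X`: `X_rng`, `y_X, x_X, X_p`. `X_lo`: `X_rng` and `X_zero`.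
`hi_be, lo_be, be_le`: `be_ge, be_le, eN, NmOK.tot`. `fl_be, fb_be`: labels of leaves are `≤ w+N0`
(`Y.xv`, `Y.yv` of vertices which are not in `xs`, `ys` do not occur, see above).
-/

namespace Pool.Agent.Lob5

open Pool.Agent.Lob89

set_option linter.unusedSectionVars false

variable {Lf B BL : Type*} [Fintype Lf] [Fintype B] [Fintype BL] [DecidableEq B]
  {D : PlanData Lf B BL} {N : Nm} {Y : Ly} {c : Cfg Lf B BL} {k : ℕ}
  {la : Lf → ℕ} {ba : B → ℕ} {par : BL → B}

/-- codes of the fixed labels -/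
private inductive Cd (Lf B BL : Type*)
  | p (e : ℕ)
  | y (i : ℕ)
  | x (i : ℕ)
  | lo (n : ℕ ⊕ B)
  | si (s : Lf ⊕ BL)
  | xi (b : B)
  | to (b : B)

/-- the label of a code -/
private def cval (N : Nm) (Y : Ly) (c : Cfg Lf B BL) : Cd Lf B BL → ℕ
  | .p e => Y.p e
  | .y i => Y.yv i
  | .x i => Y.xv i
  | .lo n => N.s1 + N.n2 + c.lw n
  | .si s => c.σ s
  | .xi b => c.ξ b
  | .to b => N.w + N.N0 + N.Q + c.τ b

/-- the codes which occur -/
private def cok (D : PlanData Lf B BL) (N : Nm) (Y : Ly) (c : Cfg Lf B BL) (k : ℕ)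
    (par : BL → B) : Cd Lf B BL → Prop
  | .p e => 1 ≤ e ∧ e ≤ k
  | .y i => 1 ≤ i ∧ i < k ∧ Y.ys D.rv i
  | .x i => 1 ≤ i ∧ i < k ∧ Y.xs N D.rv i
  | .lo n => n ∈ c.Low
  | .si s => D.stat s
  | .xi b => ∃ y, D.rs y = .x0 ∧ par y = b
  | .to b => (D.rb b).top = true

/-- the zones -/
private def czone (N : Nm) (Y : Ly) (c : Cfg Lf B BL) : Cd Lf B BL → Prop
  | .p e => (N.s1 + N.n2 + Y.j < Y.p e ∧ Y.p e ≤ N.w) ∨
    (N.w + N.N0 + 1 ≤ Y.p e ∧ Y.p e ≤ N.w + N.N0 + N.Q) ∨
    (N.w + N.N0 + N.Q + N.nT + 1 ≤ Y.p e ∧ Y.p e ≤ N.w + N.N0 + N.nT + N.h) ∨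
    (N.n2 + 1 ≤ Y.p e ∧ Y.p e ≤ N.n2 + N.s1) ∨ (Y.p e = N.pk ∧ N.pk ≠ 0)
  | .y i => N.s1 + N.n2 + Y.j < Y.yv i ∧ Y.yv i ≤ N.w
  | .x i => N.s1 + N.n2 + Y.j < Y.xv i ∧ Y.xv i ≤ N.w
  | .lo n => 1 ≤ c.lw n ∧ c.lw n ≤ Y.j
  | .si s => ((N.w < c.σ s ∧ c.σ s ≤ N.w + N.eb) ∨
    (N.w + N.N0 < c.σ s + N.et ∧ c.σ s ≤ N.w + N.N0)) ∧ c.σ s ≠ N.pk
  | .xi b => 1 ≤ c.ξ b ∧ c.ξ b ≤ N.n2
  | .to b => 1 ≤ c.τ b ∧ c.τ b ≤ N.nT

private theorem czone_of_ok (h : CfgOK D N Y c k la ba par) (a : Cd Lf B BL)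
    (ha : cok D N Y c k par a) : czone N Y c a := by
  rcases a with e | i | i | n | s | b | b
  · exact h.hY.p_rng e ha.1 ha.2
  · exact h.hY.y_rng i ha.1 ha.2.1 ha.2.2
  · exact h.hY.x_rng i ha.1 ha.2.1 ha.2.2
  · exact h.hL.lw_rng n ha
  · exact ⟨h.hσ.rng s ha, h.hσ.pk s ha⟩
  · obtain ⟨y, hy, rfl⟩ := ha
    exact h.hξ.rng y hy
  · exact h.hτ.rng b ha

private theorem cval_inj (h : CfgOK D N Y c k la ba par) (a b : Cd Lf B BL)
    (ha : cok D N Y c k par a) (hb : cok D N Y c k par b)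
    (hv : cval N Y c a = cval N Y c b) : a = b := by
  have za := czone_of_ok h a ha
  have zb := czone_of_ok h b hb
  have e1 := h.hY.zone
  have e2 := h.hY.eN
  have e3 := h.hN.pk_rng
  rcases a with e | i | i | n | s | f | f <;> rcases b with e' | i' | i' | n' | s' | f' | f' <;>
    simp only [cval, czone] at hv za zb <;> first
      | (exfalso; omega)
      | skip
  · rw [h.hY.p_inj e e' ha.1 ha.2 hb.1 hb.2 hv]
  · exact absurd hv.symm (h.hY.y_p i' e hb.1 hb.2.1 hb.2.2 ha.1 ha.2)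
  · exact absurd hv.symm (h.hY.x_p i' e hb.1 hb.2.1 hb.2.2 ha.1 ha.2)
  · exact absurd hv (h.hY.y_p i e' ha.1 ha.2.1 ha.2.2 hb.1 hb.2)
  · rw [h.hY.y_inj i i' ha.1 ha.2.1 ha.2.2 hb.1 hb.2.1 hb.2.2 hv]
  · exact absurd hv.symm (h.hY.x_y i' i hb.1 hb.2.1 hb.2.2 ha.1 ha.2.1 ha.2.2)
  · exact absurd hv (h.hY.x_p i e' ha.1 ha.2.1 ha.2.2 hb.1 hb.2)
  · exact absurd hv (h.hY.x_y i i' ha.1 ha.2.1 ha.2.2 hb.1 hb.2.1 hb.2.2)
  · rw [h.hY.x_inj i i' ha.1 ha.2.1 ha.2.2 hb.1 hb.2.1 hb.2.2 hv]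
  · rw [h.hL.lw_inj n ha n' hb (by omega)]
  · rw [h.hσ.inj s s' ha hb hv]
  · obtain ⟨y, hy, rfl⟩ := ha
    obtain ⟨y', hy', rfl⟩ := hb
    rw [h.hξ.inj y y' hy hy' hv]
  · rw [h.hτ.inj f f' ha hb (by omega)]

open Classical in
/-- the code of a slot -/
private noncomputable def ccode (D : PlanData Lf B BL) (c : Cfg Lf B BL) (k : ℕ)
    (la : Lf → ℕ) (ba : B → ℕ) (par : BL → B) : Fin k ⊕ (Lf ⊕ (B ⊕ BL)) → Cd Lf B BL
  | .inl e => .p (e + 1)
  | .inr (.inl x) => match D.rl x with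
    | .x => if Sum.inl (la x) ∈ c.Low then .lo (Sum.inl (la x)) else .x (la x)
    | .s => .si (Sum.inl x)
    | _ => .y (la x)
  | .inr (.inr (.inl b)) => if D.rb b = .tl then .y (ba b) else .to b
  | .inr (.inr (.inr y)) => match D.rs y with
    | .x => if Sum.inr (par y) ∈ c.Low then .lo (Sum.inr (par y)) else .x (ba (par y))
    | .x0 => .xi (par y)
    | _ => .si (Sum.inr y)

private theorem role_x (h : PlanOK D k la ba par) (x : Lf) (hx : D.rl x = .x) :
    D.rv (la x) = .II ∨ D.rv (la x) = .I := by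
  have h1 := h.hd.la_pos x
  have h2 := h.hd.la_lt x
  have h3 := h.l_x (la x) h1 (by omega)
  by_contra hc
  rw [if_neg hc, PlanData.cl, Finset.card_eq_zero] at h3
  have : x ∈ (Finset.univ.filter fun z => la z = la x ∧ D.rl z = .x) := by simp [hx]
  rw [h3] at this
  simp at this

private theorem role_y (h : PlanOK D k la ba par) (x : Lf) (hx : D.rl x = .y) :
    D.rv (la x) = .As := by
  have h1 := h.hd.la_pos x
  have h2 := h.hd.la_lt x
  have h3 := h.l_y (la x) h1 (by omega)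
  by_contra hc
  rw [if_neg hc, PlanData.cl, Finset.card_eq_zero] at h3
  have : x ∈ (Finset.univ.filter fun z => la z = la x ∧ D.rl z = .y) := by simp [hx]
  rw [h3] at this
  simp at this

private theorem uniq_l {κ : SV} (x x' : Lf) (hx : D.rl x = κ) (hx' : D.rl x' = κ)
    (e : la x = la x') (hc : D.cl la (la x) κ ≤ 1) : x = x' := by
  rw [PlanData.cl, Finset.card_le_one] at hc
  exact hc x (by simp [hx]) x' (by simp [hx', e])

private theorem uniq_b {κ : SB} (y y' : BL) (hy : D.rs y = κ) (hy' : D.rs y' = κ)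
    (e : par y = par y') (hc : D.cb par (par y) κ ≤ 1) : y = y' := by
  rw [PlanData.cb, Finset.card_le_one] at hc
  exact hc y (by simp [hy]) y' (by simp [hy', e])

/-- the fixed leaf of role `x` at a path vertex outside `Low` -/
private theorem fix_om (h : CfgOK D N Y c k la ba par) (x : Lf) (hx : D.rl x = .x)
    (ho : la x = N.om) : D.rv (la x) = .II := by
  rcases role_x h.hD x hx with h1 | h1
  · exact h1
  · exfalso
    have h2 := h.hD.hd.la_pos x
    have h3 := h.hD.hd.la_lt x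
    obtain ⟨b, hb⟩ := h.hD.sf_ex (la x) h2 (by omega) (Or.inr h1)
    have h4 := h.hD.sf_ba _ _ hb
    exact h.hD.hd.ne_om h.hN.om_eq b (h4.trans ho)

private theorem code_ok (h : CfgOK D N Y c k la ba par) (s : Fin k ⊕ (Lf ⊕ (B ⊕ BL)))
    (hs : (mkFill D N Y c k la ba par).isFix k s) :
    cok D N Y c k par (ccode D c k la ba par s) ∧
    labels (k := k) (mkFill D N Y c k la ba par).p (mkFill D N Y c k la ba par).fl0
      (mkFill D N Y c k la ba par).ft0 (mkFill D N Y c k la ba par).fb0 s =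
      cval N Y c (ccode D c k la ba par s) := by
  rcases s with e | x | b | y
  · exact ⟨⟨by omega, by omega⟩, rfl⟩
  · have h2 := h.hD.hd.la_pos x
    have h3 := h.hD.hd.la_lt x
    rcases hr : D.rl x
    · simp [FillData.isFix, mkFill, hr] at hs
    · by_cases hl : Sum.inl (la x) ∈ c.Low
      · simp [ccode, hr, hl, cok, cval, labels, mkFill]
      · simp only [FillData.isFix, mkFill, hr, hl, false_or, Sum.elim_inr, Sum.elim_inl] at hs
        have h4 : la x = N.om ∧ Y.xf (la x) = true := by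
          by_contra hc
          rw [if_neg hc] at hs
          exact absurd hs (by decide)
        have h5 := fix_om h x hr h4.1
        refine ⟨?_, ?_⟩
        · simp only [ccode, hr, hl, if_false, cok]
          exact ⟨h2, by omega, h4.2, Or.inr ⟨h4.1, h5⟩⟩
        · simp [ccode, hr, hl, cval, labels, mkFill]
    · simp [ccode, hr, cok, cval, labels, mkFill, PlanData.stat]
    · simp only [FillData.isFix, mkFill, hr, Sum.elim_inr, Sum.elim_inl] at hs
      have h4 : Y.lg (la x) = false := by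
        by_contra hc
        have hc' : Y.lg (la x) = true := by simpa using hc
        rw [if_pos hc'] at hs
        exact absurd hs (by decide)
      have h5 := role_y h.hD x hr
      refine ⟨?_, ?_⟩
      · simp only [ccode, hr, cok]
        exact ⟨h2, by omega, Or.inl ⟨h5, h4⟩⟩
      · simp [ccode, hr, cval, labels, mkFill]
  · have h2 := h.hD.hd.ba_pos b
    have h3 := h.hD.hd.ba_lt b
    by_cases ht : D.rb b = .tl
    · have h4 := (h.hD.b_Fs b).1 ht
      refine ⟨?_, ?_⟩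
      · simp only [ccode, ht, if_true, cok]
        exact ⟨by omega, by omega, Or.inr h4⟩
      · simp [ccode, ht, cval, labels, mkFill]
    · simp only [FillData.isFix, mkFill, Sum.elim_inr, Sum.elim_inl] at hs
      have h4 : D.rb b ≠ .self := by
        intro hc
        rw [if_pos hc] at hs
        exact absurd hs (by decide)
      refine ⟨?_, ?_⟩
      · simp only [ccode, ht, if_false, cok]
        rcases hb : D.rb b <;> simp_all [RB.top]
      · simp [ccode, ht, cval, labels, mkFill]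
  · rcases hr : D.rs y
    · simp [FillData.isFix, mkFill, hr] at hs
    · simp only [FillData.isFix, mkFill, hr, Sum.elim_inr] at hs
      have hL : D.rb (par y) ≠ .L := by
        intro hc
        rw [if_pos hc] at hs
        exact absurd hs (by decide)
      rw [if_neg hL] at hs
      by_cases hl : Sum.inr (par y) ∈ c.Low
      · simp [ccode, hr, hl, cok, cval, labels, mkFill]
      · have h4 : D.rb (par y) = .tl ∧ Y.xf (ba (par y)) = true := by
          by_contra hc
          rw [if_neg (by simp only [hl, false_or]; exact hc)] at hs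
          exact absurd hs (by decide)
        have h5 := (h.hD.b_Fs _).1 h4.1
        have h6 := h.hD.hd.ba_pos (par y)
        have h7 := h.hD.hd.ba_lt (par y)
        refine ⟨?_, ?_⟩
        · simp only [ccode, hr, hl, if_false, cok]
          exact ⟨by omega, by omega, h4.2, Or.inl h5⟩
        · simp [ccode, hr, hl, cval, labels, mkFill]
    · simp [ccode, hr, cok, cval, labels, mkFill, PlanData.stat]
    · simp [ccode, hr, cok, cval, labels, mkFill, PlanData.stat]
    · simp [FillData.isFix, mkFill, hr] at hs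
    · simp [FillData.isFix, mkFill, hr] at hs
    · refine ⟨?_, ?_⟩
      · simp only [ccode, hr, cok]
        exact ⟨y, hr, rfl⟩
      · simp [ccode, hr, cval, labels, mkFill]

/-- what a fixed leaf with a code `y`, `x` or `lo` is -/
private theorem inv_l (h : CfgOK D N Y c k la ba par) (x : Lf)
    (hs : (mkFill D N Y c k la ba par).isFix k (Sum.inr (Sum.inl x))) :
    (D.rl x = .x ∧ Sum.inl (la x) ∈ c.Low ∧
      ccode D c k la ba par (Sum.inr (Sum.inl x)) = .lo (Sum.inl (la x))) ∨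
    (D.rl x = .x ∧ D.rv (la x) = .II ∧
      ccode D c k la ba par (Sum.inr (Sum.inl x)) = .x (la x)) ∨
    (D.rl x = .y ∧ D.rv (la x) = .As ∧
      ccode D c k la ba par (Sum.inr (Sum.inl x)) = .y (la x)) ∨
    (D.rl x = .s ∧ ccode D c k la ba par (Sum.inr (Sum.inl x)) = .si (Sum.inl x)) := by
  rcases hr : D.rl x
  · simp [FillData.isFix, mkFill, hr] at hs
  · by_cases hl : Sum.inl (la x) ∈ c.Low
    · left
      simp [ccode, hr, hl]
    · right; left
      simp only [FillData.isFix, mkFill, hr, hl, false_or, Sum.elim_inr, Sum.elim_inl] at hs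
      have h4 : la x = N.om ∧ Y.xf (la x) = true := by
        by_contra hc
        rw [if_neg hc] at hs
        exact absurd hs (by decide)
      exact ⟨rfl, fix_om h x hr h4.1, by simp [ccode, hr, hl]⟩
  · right; right; right
    simp [ccode, hr]
  · right; right; left
    exact ⟨rfl, role_y h.hD x hr, by simp [ccode, hr]⟩

private theorem inv_t (h : CfgOK D N Y c k la ba par) (b : B) :
    (D.rv (ba b) = .Fs ∧ D.rb b = .tl ∧
      ccode D c k la ba par (Sum.inr (Sum.inr (Sum.inl b))) = .y (ba b)) ∨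
    (D.rb b ≠ .tl ∧ ccode D c k la ba par (Sum.inr (Sum.inr (Sum.inl b))) = .to b) := by
  by_cases ht : D.rb b = .tl
  · left
    exact ⟨(h.hD.b_Fs b).1 ht, ht, by simp [ccode, ht]⟩
  · right
    exact ⟨ht, by simp [ccode, ht]⟩

private theorem inv_b (h : CfgOK D N Y c k la ba par) (y : BL)
    (hs : (mkFill D N Y c k la ba par).isFix k (Sum.inr (Sum.inr (Sum.inr y)))) :
    (D.rs y = .x ∧ Sum.inr (par y) ∈ c.Low ∧
      ccode D c k la ba par (Sum.inr (Sum.inr (Sum.inr y))) = .lo (Sum.inr (par y))) ∨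
    (D.rs y = .x ∧ D.rb (par y) = .tl ∧ D.rv (ba (par y)) = .Fs ∧
      ccode D c k la ba par (Sum.inr (Sum.inr (Sum.inr y))) = .x (ba (par y))) ∨
    (D.rs y = .x0 ∧ ccode D c k la ba par (Sum.inr (Sum.inr (Sum.inr y))) = .xi (par y)) ∨
    ccode D c k la ba par (Sum.inr (Sum.inr (Sum.inr y))) = .si (Sum.inr y) := by
  rcases hr : D.rs y
  · simp [FillData.isFix, mkFill, hr] at hs
  · simp only [FillData.isFix, mkFill, hr, Sum.elim_inr] at hs
    have hL : D.rb (par y) ≠ .L := by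
      intro hc
      rw [if_pos hc] at hs
      exact absurd hs (by decide)
    rw [if_neg hL] at hs
    by_cases hl : Sum.inr (par y) ∈ c.Low
    · left
      simp [ccode, hr, hl]
    · right; left
      have h4 : D.rb (par y) = .tl ∧ Y.xf (ba (par y)) = true := by
        by_contra hc
        rw [if_neg (by simp only [hl, false_or]; exact hc)] at hs
        exact absurd hs (by decide)
      exact ⟨rfl, h4.1, (h.hD.b_Fs _).1 h4.1, by simp [ccode, hr, hl]⟩
  · right; right; right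
    simp [ccode, hr]
  · right; right; right
    simp [ccode, hr]
  · simp [FillData.isFix, mkFill, hr] at hs
  · simp [FillData.isFix, mkFill, hr] at hs
  · right; right; left
    simp [ccode, hr]

private theorem code_inj (h : CfgOK D N Y c k la ba par) (s t : Fin k ⊕ (Lf ⊕ (B ⊕ BL)))
    (hs : (mkFill D N Y c k la ba par).isFix k s) (ht : (mkFill D N Y c k la ba par).isFix k t)
    (e : ccode D c k la ba par s = ccode D c k la ba par t) : s = t := by
  have cx : ∀ x, D.cl la (la x) .x ≤ 1 := by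
    intro x
    have h2 := h.hD.hd.la_pos x
    have h3 := h.hD.hd.la_lt x
    rw [h.hD.l_x (la x) h2 (by omega)]
    split <;> omega
  have cy : ∀ x, D.cl la (la x) .y ≤ 1 := by
    intro x
    have h2 := h.hD.hd.la_pos x
    have h3 := h.hD.hd.la_lt x
    rw [h.hD.l_y (la x) h2 (by omega)]
    split <;> omega
  have bx : ∀ b, D.cb par b .x ≤ 1 := fun b => (h.hD.s_x b).le
  have bx0 : ∀ b, D.cb par b .x0 ≤ 1 := by
    intro b
    have := h.hD.s_x0 b
    split at this <;> omega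
  rcases s with f | x | b | y <;> rcases t with f' | x' | b' | y'
  · simp only [ccode, Cd.p.injEq] at e
    have : f = f' := Fin.ext (by omega)
    rw [this]
  · exfalso
    rcases inv_l h x' ht with ⟨-, -, e'⟩ | ⟨-, -, e'⟩ | ⟨-, -, e'⟩ | ⟨-, e'⟩ <;>
      rw [e'] at e <;> simp [ccode] at e
  · exfalso
    rcases inv_t (c := c) h b' with ⟨-, -, e'⟩ | ⟨-, e'⟩ <;> rw [e'] at e <;> simp [ccode] at e
  · exfalso
    rcases inv_b h y' ht with ⟨-, -, e'⟩ | ⟨-, -, -, e'⟩ | ⟨-, e'⟩ | e' <;>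
      rw [e'] at e <;> simp [ccode] at e
  · exfalso
    rcases inv_l h x hs with ⟨-, -, e'⟩ | ⟨-, -, e'⟩ | ⟨-, -, e'⟩ | ⟨-, e'⟩ <;>
      rw [e'] at e <;> simp [ccode] at e
  · have : x = x' := by
      rcases inv_l h x hs with ⟨r, -, e1⟩ | ⟨r, -, e1⟩ | ⟨r, -, e1⟩ | ⟨r, e1⟩ <;>
      rcases inv_l h x' ht with ⟨r', -, e2⟩ | ⟨r', -, e2⟩ | ⟨r', -, e2⟩ | ⟨r', e2⟩ <;>
      rw [e1, e2] at e <;> simp at e
      · exact uniq_l x x' r r' e (cx x)
      · exact uniq_l x x' r r' e (cx x)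
      · exact uniq_l x x' r r' e (cy x)
      · exact e
    rw [this]
  · exfalso
    rcases inv_l h x hs with ⟨r, -, e1⟩ | ⟨r, -, e1⟩ | ⟨r, v, e1⟩ | ⟨r, e1⟩ <;>
    rcases inv_t (c := c) h b' with ⟨v', -, e2⟩ | ⟨-, e2⟩ <;>
      rw [e1, e2] at e <;> simp at e
    rw [e, v'] at v
    exact absurd v (by decide)
  · exfalso
    rcases inv_l h x hs with ⟨r, -, e1⟩ | ⟨r, v, e1⟩ | ⟨r, -, e1⟩ | ⟨r, e1⟩ <;>
    rcases inv_b h y' ht with ⟨-, -, e2⟩ | ⟨-, -, v', e2⟩ | ⟨-, e2⟩ | e2 <;>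
      rw [e1, e2] at e <;> simp at e
    rw [e, v'] at v
    exact absurd v (by decide)
  · exfalso
    rcases inv_t (c := c) h b with ⟨-, -, e'⟩ | ⟨-, e'⟩ <;> rw [e'] at e <;> simp [ccode] at e
  · exfalso
    rcases inv_l h x' ht with ⟨r, -, e1⟩ | ⟨r, -, e1⟩ | ⟨r, v, e1⟩ | ⟨r, e1⟩ <;>
    rcases inv_t (c := c) h b with ⟨v', -, e2⟩ | ⟨-, e2⟩ <;>
      rw [e1, e2] at e <;> simp at e
    rw [← e, v'] at v
    exact absurd v (by decide)
  · have : b = b' := by
      rcases inv_t (c := c) h b with ⟨v, -, e1⟩ | ⟨-, e1⟩ <;>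
      rcases inv_t (c := c) h b' with ⟨v', -, e2⟩ | ⟨-, e2⟩ <;>
        rw [e1, e2] at e <;> simp at e
      · exact h.hD.one b b' e (Or.inr (Or.inl v))
      · exact e
    rw [this]
  · exfalso
    rcases inv_t (c := c) h b with ⟨-, -, e1⟩ | ⟨-, e1⟩ <;>
    rcases inv_b h y' ht with ⟨-, -, e2⟩ | ⟨-, -, -, e2⟩ | ⟨-, e2⟩ | e2 <;>
      rw [e1, e2] at e <;> simp at e
  · exfalso
    rcases inv_b h y hs with ⟨-, -, e'⟩ | ⟨-, -, -, e'⟩ | ⟨-, e'⟩ | e' <;>
      rw [e'] at e <;> simp [ccode] at e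
  · exfalso
    rcases inv_l h x' ht with ⟨r, -, e1⟩ | ⟨r, v, e1⟩ | ⟨r, -, e1⟩ | ⟨r, e1⟩ <;>
    rcases inv_b h y hs with ⟨-, -, e2⟩ | ⟨-, -, v', e2⟩ | ⟨-, e2⟩ | e2 <;>
      rw [e1, e2] at e <;> simp at e
    rw [← e, v'] at v
    exact absurd v (by decide)
  · exfalso
    rcases inv_t (c := c) h b' with ⟨-, -, e1⟩ | ⟨-, e1⟩ <;>
    rcases inv_b h y hs with ⟨-, -, e2⟩ | ⟨-, -, -, e2⟩ | ⟨-, e2⟩ | e2 <;>
      rw [e1, e2] at e <;> simp at e
  · have : y = y' := by
      rcases inv_b h y hs with ⟨r, -, e1⟩ | ⟨r, -, v, e1⟩ | ⟨r, e1⟩ | e1 <;>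
      rcases inv_b h y' ht with ⟨r', -, e2⟩ | ⟨r', -, -, e2⟩ | ⟨r', e2⟩ | e2 <;>
      rw [e1, e2] at e <;> simp at e
      · exact uniq_b y y' r r' e (bx _)
      · exact uniq_b y y' r r' (h.hD.one _ _ e (Or.inr (Or.inl v))) (bx _)
      · exact uniq_b y y' r r' e (bx0 _)
      · exact e
    rw [this]

/-- leaf codes have labels `≤ w + N0` -/
private theorem leaf_le (h : CfgOK D N Y c k la ba par) (a : Cd Lf B BL)
    (ha : cok D N Y c k par a) (h1 : ∀ e, a ≠ .p e) (h2 : ∀ b, a ≠ .to b) :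
    cval N Y c a ≤ N.w + N.N0 := by
  have za := czone_of_ok h a ha
  have e1 := h.hY.zone
  have e2 := h.hY.eN
  rcases a with e | i | i | n | s | b | b <;> simp only [cval, czone] at za ⊢
  · exact absurd rfl (h1 e)
  · omega
  · omega
  · omega
  · omega
  · omega
  · exact absurd rfl (h2 b)

private theorem v_labs_aux (h : CfgOK D N Y c k la ba par) (hQ : N.Q ≤ N.h) :
    FillLabs (mkFill D N Y c k la ba par) k la ba par := by
  have e1 := h.hY.zone
  have e2 := h.hY.eN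
  have e3 := h.hN.pk_rng
  have e4 := h.hN.tot
  have e5 := h.hY.be_ge
  have e6 := h.hY.be_le
  refine ⟨?_, ?_, ?_, ?_, ?_, ?_, ?_, ?_, ?_, ?_, ?_, ?_, ?_, ?_⟩
  · intro s t hs ht e
    obtain ⟨a1, a2⟩ := code_ok h s hs
    obtain ⟨b1, b2⟩ := code_ok h t ht
    rw [a2, b2] at e
    exact code_inj h s t hs ht (cval_inj h _ _ a1 b1 e)
  · intro s hs
    obtain ⟨a1, a2⟩ := code_ok h s hs
    rw [a2]
    have za := czone_of_ok h _ a1
    generalize ccode D c k la ba par s = a at za ⊢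
    clear a1 a2 hs s
    rcases a with e | i | i | n | s | b | b <;>
      simp only [cval, czone] at za ⊢ <;> omega
  · intro s hs
    obtain ⟨a1, a2⟩ := code_ok h s hs
    rw [a2, ← e4]
    have za := czone_of_ok h _ a1
    generalize ccode D c k la ba par s = a at za ⊢
    clear a1 a2 hs s
    rcases a with e | i | i | n | s | b | b <;>
      simp only [cval, czone] at za ⊢ <;> omega
  · intro s hs
    obtain ⟨a1, a2⟩ := code_ok h s hs
    rw [a2]
    have za := czone_of_ok h _ a1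
    show _ < N.w + N.eb + 1 ∨ N.w + N.N0 - N.et < _
    generalize ccode D c k la ba par s = a at za ⊢
    clear a1 a2 hs s
    rcases a with e | i | i | n | s | b | b <;>
      simp only [cval, czone] at za ⊢ <;> omega
  · intro s hs i hi hU
    obtain ⟨a1, a2⟩ := code_ok h s hs
    rw [a2]
    have za := czone_of_ok h _ a1
    have hX := h.hY.X_rng i hi hU
    show _ ≠ Y.X i
    generalize ccode D c k la ba par s = a at a1 za ⊢
    clear a2 hs s
    rcases a with e | i' | i' | n | s | b | b <;> simp only [cval, czone] at za ⊢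
    · exact (h.hY.X_p i e hi hU a1.1 a1.2).symm
    · exact h.hY.y_X i' i a1.1 a1.2.1 a1.2.2 hi hU
    · exact h.hY.x_X i' i a1.1 a1.2.1 a1.2.2 hi hU
    all_goals omega
  · exact h.hY.X_mono
  · intro i hi
    show Y.X i < N.w + N.eb + 1
    rcases Nat.eq_zero_or_pos i with rfl | hp
    · have := h.hY.X_zero
      omega
    · have := h.hY.X_rng i hp hi
      omega
  · show N.w + N.N0 - N.et ≤ Y.be
    omega
  · show N.w + N.eb + 1 ≤ Y.be + 1
    omega
  · show Y.be ≤ _
    omega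
  · exact h.hY.p_one
  · exact h.hY.p_last
  · intro x hx
    obtain ⟨a1, a2⟩ := code_ok h (Sum.inr (Sum.inl x)) hx
    have a3 := leaf_le h _ a1 (by
      intro e he
      rcases inv_l h x hx with ⟨-, -, e'⟩ | ⟨-, -, e'⟩ | ⟨-, -, e'⟩ | ⟨-, e'⟩ <;>
        rw [e'] at he <;> simp at he) (by
      intro e he
      rcases inv_l h x hx with ⟨-, -, e'⟩ | ⟨-, -, e'⟩ | ⟨-, -, e'⟩ | ⟨-, e'⟩ <;>
        rw [e'] at he <;> simp at he)
    rw [← a2] at a3
    exact le_trans a3 e5
  · intro y hy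
    obtain ⟨a1, a2⟩ := code_ok h (Sum.inr (Sum.inr (Sum.inr y))) hy
    have a3 := leaf_le h _ a1 (by
      intro e he
      rcases inv_b h y hy with ⟨-, -, e'⟩ | ⟨-, -, -, e'⟩ | ⟨-, e'⟩ | e' <;>
        rw [e'] at he <;> simp at he) (by
      intro e he
      rcases inv_b h y hy with ⟨-, -, e'⟩ | ⟨-, -, -, e'⟩ | ⟨-, e'⟩ | e' <;>
        rw [e'] at he <;> simp at he)
    rw [← a2] at a3
    exact le_trans a3 e5

theorem v_labs (h : CfgOK D N Y c k la ba par) :
    FillLabs (mkFill D N Y c k la ba par) k la ba par := by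
  exact v_labs_aux h h.hN.Qh

end Pool.Agent.Lob5
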