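import Pool.Agent.Lob5.VSlots
import Pool.Agent.Lob5.VLabs
import Pool.Agent.Lob5.VFx
import Pool.Agent.Lob5.VGr
import Pool.Agent.Lob5.VLB
import Pool.Agent.Lob5.VH0
import Pool.Agent.Lob5.VH1
import Pool.Agent.Lob5.VH2
import Pool.Agent.Lob5.VH4
import Pool.Agent.Lob5.Fill

/-!
# Verification: everything together

Proof. `FillOK` from `v_slots, v_labs, v_fx, v_gr, v_lb`, the hypotheses of the sweep (`vh_*`, `vh1, vh2,
vh3, vh4`; `mono`: `X_mono`), `hd` from `PlanOK`; then `fill`.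
-/

namespace Pool.Agent.Lob5

open Pool.Agent.Lob89

variable {Lf B BL : Type*} [Fintype Lf] [Fintype B] [Fintype BL] [DecidableEq B]
  {D : PlanData Lf B BL} {N : Nm} {Y : Ly} {c : Cfg Lf B BL} {k : ℕ}
  {la : Lf → ℕ} {ba : B → ℕ} {par : BL → B}

private theorem sw_VAll (h : CfgOK D N Y c k la ba par) :
    FillSw (mkFill D N Y c k la ba par) k la ba par where
  H :=
    { lx := vh_lx h
      pl := vh_pl h
      ppm := vh_ppm h
      ppi := vh_ppi h
      cnt := vh_cnt h
      xcnt := vh_xcnt h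
      mono := fun _ _ hij => Int.ofNat_lt.2 (h.hY.X_mono hij)
      disj := vh_disj h
      h1 := vh1 h
      h2 := fun f hf h1 h2 s hs i hi hi' => (vh2 h f hf h1 h2 s hs i hi hi').1
      h3 := vh3 h }
  lu_l := vh_lu h
  tk_mem := vh_tk h
  tk_inj := vh_tk2 h
  h2' := fun _ f hf h1 h2 s hs i hi hi' => (vh2 h f hf h1 h2 s hs i hi hi').2
  h4 := fun _ => vh4 h rfl

theorem fillOK_of_cfg (h : CfgOK D N Y c k la ba par) :
    FillOK (mkFill D N Y c k la ba par) k la ba par :=
  { v_slots h, v_labs h, v_fx h, v_gr h, sw_VAll h, v_lb h with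
    hd := h.hD.hd }

theorem hasLabels_of_cfg (h : CfgOK D N Y c k la ba par) : HasLabels k la ba par :=
  fill (fillOK_of_cfg h)

end Pool.Agent.Lob5
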