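import Pool.Agent.Lob5.ExSig
import Pool.Agent.Lob5.ExTau
import Pool.Agent.Lob5.ExLow
import Pool.Agent.Lob5.VAll

/-!
# The non-pure class, from a family of layers

Proof. `nT + c0 ≤ Ux` (`NmOK.Ux_eq, nT_eq, c0_eq`), so `hY 0` gives `e ≤ N0`. `exists_sigma`, `exists_tau`,
`exists_low` (with this `σ`, `τ0`), then for the chosen `j` the order `τ` of `exists_tau` for `Y j`, `exists_xi`,
and `hasLabels_of_cfg`.
-/

namespace Pool.Agent.Lob5

open Pool.Agent.Lob89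

variable {Lf B BL : Type*} [Fintype Lf] [Fintype B] [Fintype BL] [DecidableEq B]
  {D : PlanData Lf B BL} {N : Nm} {k : ℕ} {la : Lf → ℕ} {ba : B → ℕ} {par : BL → B}

theorem np_main (hD : PlanOK D k la ba par) (hNP : D.NP k) (hN : NmOK D N k par) (Y : ℕ → Ly)
    (hj : ∀ j, (Y j).j = j)
    (hY : ∀ j, N.nT + j + N.c0 ≤ N.Ux → LyOK N (Y j) D.rv k)
    (hX : ∀ j, N.nT + j + N.c0 ≤ N.Ux → XfOK D N (Y j) k la ba par)
    (hS : ∀ j, N.nT + (j + 1) + N.c0 ≤ N.Ux → 2 ≤ N.P → StOK N (Y j) (Y (j + 1)) D.rv k) :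
    HasLabels k la ba par := by
  have heN : N.eb + N.et ≤ N.N0 := by
    have h := hN.N0_eq
    have h' := hN.ebe
    omega
  obtain ⟨σ, hσ⟩ := exists_sigma hD hN heN
  obtain ⟨τ0, hτ0⟩ := exists_tau hD hN heN σ hσ
  obtain ⟨j, hjle, Low, lw, hL⟩ := exists_low hD hN σ τ0 Y hj hY hS
  obtain ⟨τ, hτ, hT⟩ := hτ0 (Y j) (hY j hjle)
  have hT0 := hT (fun _ => 0) Low lw
  obtain ⟨ξ, hξ⟩ := exists_xi hD hN τ hT0.rng hT0.inj
  exact hasLabels_of_cfg
    { hD := hD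
      hNP := hNP
      hN := hN
      hY := hY j hjle
      hX := hX j hjle
      hσ := hσ
      hτ := hT ξ Low lw
      hξ := hξ σ Low lw
      hL := hL τ ξ hτ : CfgOK D N (Y j) ⟨σ, τ, ξ, Low, lw⟩ k la ba par }

end Pool.Agent.Lob5
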