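import Pool.Agent.Lob5.Plan
import Pool.Agent.Lob89.PureBase

/-!
# Not pure

Proof. Suppose `¬ D.NP k`. Then every path vertex has one of the roles `C, A, As, Z, R3, R4`; `R3` and
`R4` are impossible since `t1 i` exists and is a bush with `T` top (`xo` or `sp`), not designated
(`t1_ex, t1_ds, tok`). At a vertex `Z` every bush has role `L` or `st` (`b_Z`), hence `T` top, hence is
designated; so there is exactly one (`ds_dg, dg_ba, dg_ex`) and it has role `L`. A `Z` vertex has no
leaf: leaves of roles `l, x, y` are excluded by `l_l, l_x, l_y`, role `s` by `¬ NP`. Vertices `A`, `As`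
have exactly one leaf (`l_l, l_x, l_y, l_s`) and no bush (`b_C`); a vertex `C` has nothing. So `la`, `ba`
are injective and `la x ≠ ba b`. All bushes are at vertices (`1 ≤ ba b < k`) of role `Z`, so they have
role `L`: one leaf of role `x`, at most one of role `x0`, none of other roles (`s_l, ..., s_st`).
`last b`: the leaf of role `x`; `two b`: there is a leaf of role `x0`.
-/

namespace Pool.Agent.Lob5

open Pool.Agent.Lob89

variable {Lf B BL : Type*} [Fintype Lf] [Fintype B] [Fintype BL] [DecidableEq B]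

private theorem cl_pos_PlanNP {la : Lf → ℕ} {D : PlanData Lf B BL} {x : Lf} {κ : SV}
    (h : D.rl x = κ) : D.cl la (la x) κ ≠ 0 := by
  unfold PlanData.cl
  rw [Finset.card_ne_zero]
  exact ⟨x, by simp [h]⟩

private theorem cl_one_PlanNP {la : Lf → ℕ} {D : PlanData Lf B BL} {x x' : Lf} {i : ℕ} {κ : SV}
    (hc : D.cl la i κ ≤ 1) (hx : la x = i) (hx' : la x' = i) (h : D.rl x = κ)
    (h' : D.rl x' = κ) : x = x' := by
  unfold PlanData.cl at hc
  rw [Finset.card_le_one] at hc
  exact hc x (by simp [h, hx]) x' (by simp [h', hx'])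

private theorem cb_pos_PlanNP {par : BL → B} {D : PlanData Lf B BL} {y : BL} {b : B} {κ : SB}
    (hy : par y = b) (h : D.rs y = κ) : D.cb par b κ ≠ 0 := by
  unfold PlanData.cb
  rw [Finset.card_ne_zero]
  exact ⟨y, by simp [h, hy]⟩

private theorem cb_one_PlanNP {par : BL → B} {D : PlanData Lf B BL} {y y' : BL} {b : B} {κ : SB}
    (hc : D.cb par b κ ≤ 1) (hy : par y = b) (hy' : par y' = b) (h : D.rs y = κ)
    (h' : D.rs y' = κ) : y = y' := by
  unfold PlanData.cb at hc
  rw [Finset.card_le_one] at hc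
  exact hc y (by simp [h, hy]) y' (by simp [h', hy'])

theorem pure_or_NP {k : ℕ} {la : Lf → ℕ} {ba : B → ℕ} {par : BL → B} {D : PlanData Lf B BL}
    (hD : PlanOK D k la ba par) :
    (∃ (last : B → BL) (two : B → Prop), PureData la ba par last two) ∨ D.NP k := by
  by_cases hN : D.NP k
  · exact Or.inr hN
  left
  have h1 : ∀ i, 1 ≤ i → i < k →
      ¬ (D.rv i = .F ∨ D.rv i = .Fs ∨ D.rv i = .FR ∨ D.rv i = .II ∨ D.rv i = .I) :=
    fun i hi hk h => hN (Or.inl ⟨i, hi, hk, h⟩)
  have h2 : ∀ x, D.rl x ≠ .s := fun x h => hN (Or.inr (Or.inl ⟨x, h⟩))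
  have h3 : ∀ b, (D.rb b).top = true → D.ds b = true := by
    intro b hb
    by_contra h
    exact hN (Or.inr (Or.inr ⟨b, hb, by simpa using h⟩))
  have hba : ∀ b, 1 ≤ ba b ∧ ba b < k := fun b => by
    have := hD.hd.ba_pos b
    have := hD.hd.ba_lt b
    omega
  have hla : ∀ x, 1 ≤ la x ∧ la x < k := fun x => by
    have := hD.hd.la_pos x
    have := hD.hd.la_lt x
    omega
  have hR : ∀ i, 1 ≤ i → i < k → ¬ (D.rv i = .R3 ∨ D.rv i = .R4) := by
    intro i hi hk h
    obtain ⟨b, hb⟩ := hD.t1_ex i hi hk (by tauto)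
    have hbi := hD.t1_ba i b hb
    rw [← hbi] at hb
    have h4 : (D.rb b).top = true := by
      rcases (hD.tok b).2 (Or.inl hb) with h | h <;> rw [h] <;> rfl
    have h5 := (hD.t1_ds b hb).1 (h3 b h4)
    rw [hbi] at h5
    exact h1 i hi hk (by tauto)
  have hZ : ∀ b, D.rv (ba b) = .Z := by
    intro b
    have h4 := hD.b_C b
    have h5 := h1 (ba b) (hba b).1 (hba b).2
    have h6 := hR (ba b) (hba b).1 (hba b).2
    cases h7 : D.rv (ba b) <;> simp_all
  have hL : ∀ b, D.rb b = .L := by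
    intro b
    rcases hD.b_Z b (hZ b) with h | ⟨h, h'⟩
    · exact h
    · have := h3 b (by rw [h]; rfl)
      rw [h'] at this
      exact absurd this (by simp)
  have hds : ∀ b, D.dg (ba b) = some b := fun b => (hD.ds_dg b).1 (h3 b (by rw [hL b]; rfl))
  have hA : ∀ x, (D.rl x = .l ∧ D.rv (la x) = .A) ∨ (D.rl x = .y ∧ D.rv (la x) = .As) := by
    intro x
    have h4 := h1 (la x) (hla x).1 (hla x).2
    cases h5 : D.rl x with
    | l =>
      left
      refine ⟨rfl, ?_⟩
      have h6 := cl_pos_PlanNP (la := la) h5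
      rw [hD.l_l (la x) (hla x).1 (hla x).2] at h6
      have h7 : D.rv (la x) = .A ∨ D.rv (la x) = .II := by
        by_contra h0
        exact h6 (if_neg h0)
      tauto
    | x =>
      exfalso
      have h6 := cl_pos_PlanNP (la := la) h5
      rw [hD.l_x (la x) (hla x).1 (hla x).2] at h6
      have h7 : D.rv (la x) = .II ∨ D.rv (la x) = .I := by
        by_contra h0
        exact h6 (if_neg h0)
      tauto
    | s => exact absurd h5 (h2 x)
    | y =>
      right
      refine ⟨rfl, ?_⟩
      have h6 := cl_pos_PlanNP (la := la) h5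
      rw [hD.l_y (la x) (hla x).1 (hla x).2] at h6
      by_contra h0
      exact h6 (if_neg h0)
  have hcl : ∀ i, 1 ≤ i → i < k → D.cl la i .l ≤ 1 := by
    intro i hi hk
    rw [hD.l_l i hi hk]
    split_ifs <;> norm_num
  have hcy : ∀ i, 1 ≤ i → i < k → D.cl la i .y ≤ 1 := by
    intro i hi hk
    rw [hD.l_y i hi hk]
    split_ifs <;> norm_num
  have hlast : ∀ b, ∃ y, par y = b ∧ D.rs y = .x := by
    intro b
    have h4 : D.cb par b .x ≠ 0 := by rw [hD.s_x b]; norm_num
    unfold PlanData.cb at h4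
    rw [Finset.card_ne_zero] at h4
    obtain ⟨y, hy⟩ := h4
    exact ⟨y, by simpa using hy⟩
  choose last hl1 hl2 using hlast
  have hx0 : ∀ y, y ≠ last (par y) → D.rs y = .x0 := by
    intro y hy
    have h4 := hL (par y)
    cases h5 : D.rs y with
    | l =>
      exfalso
      have h6 : D.cb par (par y) .l = 0 := by
        rw [hD.s_l, h4]
        rfl
      exact cb_pos_PlanNP rfl h5 h6
    | x => exact absurd (cb_one_PlanNP (hD.s_x (par y)).le rfl (hl1 (par y)) h5 (hl2 (par y))) hy
    | s => exact absurd (hD.s_s (par y) (Or.inl h4)) (cb_pos_PlanNP rfl h5)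
    | s0 =>
      exfalso
      have h6 : D.cb par (par y) .s0 = 0 := by
        rw [hD.s_s0, h4]
        rfl
      exact cb_pos_PlanNP rfl h5 h6
    | u =>
      exfalso
      have h6 : D.cb par (par y) .u = 0 := by
        rw [hD.s_u, h4]
        rfl
      exact cb_pos_PlanNP rfl h5 h6
    | v =>
      exfalso
      have h6 : D.cb par (par y) .v = 0 := by
        rw [hD.s_v, h4]
        rfl
      exact cb_pos_PlanNP rfl h5 h6
    | x0 => rfl
  refine ⟨last, fun b => ∃ y, par y = b ∧ y ≠ last b, ?_, ?_, ?_, hl1, fun b => Iff.rfl, ?_⟩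
  · intro x x' hxx
    rcases hA x with ⟨h4, h5⟩ | ⟨h4, h5⟩ <;> rcases hA x' with ⟨h6, h7⟩ | ⟨h6, h7⟩
    · exact cl_one_PlanNP (hcl (la x) (hla x).1 (hla x).2) rfl hxx.symm h4 h6
    · rw [hxx, h7] at h5
      cases h5
    · rw [hxx, h7] at h5
      cases h5
    · exact cl_one_PlanNP (hcy (la x) (hla x).1 (hla x).2) rfl hxx.symm h4 h6
  · intro b b' hbb
    have h4 := hds b
    have h5 := hds b'
    rw [hbb, h5] at h4
    exact (Option.some_injective _ h4).symm
  · intro x b hxb
    have h4 := hZ b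
    rw [← hxb] at h4
    rcases hA x with ⟨-, h5⟩ | ⟨-, h5⟩ <;> rw [h5] at h4 <;> cases h4
  · intro y y' hyy h4 h5
    refine cb_one_PlanNP (κ := .x0) ?_ rfl hyy.symm (hx0 y h4) (hx0 y' h5)
    refine (hD.s_x0 _).trans ?_
    split_ifs <;> norm_num

end Pool.Agent.Lob5
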