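import Pool.Agent.Lob5.E4Ly
import Pool.Agent.Lob5.NpMain
import Pool.Agent.Lob5.PlanNP
import Pool.Agent.Lob34.Exists
import Pool.Agent.Lob89.PureEven

/-!
# `K` even, the vertex `K - 1` has at least three leaves (and the path edge `K`)

Proof. As `OddMain`, with `k = K - 1` odd. `K = 2` is treated separately: all leaves are at the
vertex 1, there is no bush, at least five edges: label arbitrarily, the sum at the vertex 1 is
larger than all labels, the other sums are the labels. For `K ≥ 4`: `exists_seam` with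
`ld = LDk la ba k`, `al = ALk la ba par k`; `exists_plan` with `om = k` (`om + 1 = K`; `S.q < k`).
`D.rv k = II` by `om_II`; `D.cl la k .s ≥ 1`: there are at least three leaves at `k`, one of
role `l`, one of role `x`, none of role `y` (`l_l, l_x, l_y`). `pure_or_NP`: pure: `pure_all`;
otherwise `np_main` with `N = nmE4 S (numE D K sp) (D.ns+1)`, `Y = lyE4 ..`,
`nm_e4, ly_e4, xf_e4, st_e4`.
-/

namespace Pool.Agent.Lob5

open Pool.Agent.Lob89

private theorem e4_two {Lf B BL : Type*} [Fintype Lf] [Fintype B] [Fintype BL] [DecidableEq B]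
    {la : Lf → ℕ} {ba : B → ℕ} {par : BL → B} (hd : LobData 2 la ba par) :
    HasLabels 2 la ba par := by
  classical
  have hB : ∀ b : B, False := by
    intro b
    have h1 := (hd.ev (by omega) b).1
    have h2 := (hd.ev (by omega) b).2
    omega
  have hBL : ∀ b : BL, False := fun b => hB (par b)
  let g : Lf ≃ Fin (Fintype.card Lf) := Fintype.equivFin Lf
  let n := Fintype.card Lf
  have hn : n = Fintype.card Lf := rfl
  let p : ℕ → ℕ := fun e => n + e
  let fl : Lf → ℕ := fun x => (g x : ℕ) + 1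
  have hfl : ∀ x, 1 ≤ fl x ∧ fl x ≤ n := fun x => ⟨Nat.le_add_left 1 _, (g x).isLt⟩
  have hinj : ∀ x y, fl x = fl y → x = y := by
    intro x y h
    have h1 : (g x : ℕ) = (g y : ℕ) := by
      have h2 : (g x : ℕ) + 1 = (g y : ℕ) + 1 := h
      omega
    exact g.injective (Fin.ext h1)
  have hp0 : pathSum 2 la ba p fl (fun _ => 0) 0 = n + 1 := pathSum_zero hd
  have hp2 : pathSum 2 la ba p fl (fun _ => 0) 2 = n + 2 := pathSum_last hd
  have hp1 : n + 3 ≤ pathSum 2 la ba p fl (fun _ => 0) 1 := by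
    have h1 : p 1 = n + 1 := rfl
    have h2 : p (1 + 1) = n + 2 := rfl
    simp only [pathSum, le_refl, if_true, show (1 : ℕ) < 2 by omega]
    omega
  have hv : ∀ i : Fin 3, (i = 0 ∧ pathSum 2 la ba p fl (fun _ => 0) i = n + 1) ∨
      (i = 1 ∧ n + 3 ≤ pathSum 2 la ba p fl (fun _ => 0) i) ∨
      (i = 2 ∧ pathSum 2 la ba p fl (fun _ => 0) i = n + 2) := by
    intro i
    fin_cases i
    · left
      exact ⟨rfl, hp0⟩
    · right; left
      exact ⟨rfl, hp1⟩
    · right; right
      exact ⟨rfl, hp2⟩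
  refine ⟨p, fl, fun _ => 0, fun _ => 0, ?_, ?_, ?_⟩
  · rintro (i | x | b | b) (j | y | c | c) h
    · have h1 : n + ((i : ℕ) + 1) = n + ((j : ℕ) + 1) := h
      rw [show i = j from Fin.ext (by omega)]
    · have h1 : n + ((i : ℕ) + 1) = fl y := h
      have := hfl y
      omega
    · exact (hB c).elim
    · exact (hBL c).elim
    · have h1 : fl x = n + ((j : ℕ) + 1) := h
      have := hfl x
      omega
    · have h1 : fl x = fl y := h
      rw [hinj x y h1]
    · exact (hB c).elim
    · exact (hBL c).elim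
    all_goals first | exact (hB b).elim | exact (hBL b).elim
  · rintro (i | x | b | b)
    · have h1 := i.isLt
      show 1 ≤ n + ((i : ℕ) + 1) ∧ n + ((i : ℕ) + 1) ≤ _
      omega
    · have := hfl x
      show 1 ≤ fl x ∧ fl x ≤ _
      omega
    · exact (hB b).elim
    · exact (hBL b).elim
  · rintro (i | x | b | b) (j | y | c | c) h
    · have h1 : pathSum 2 la ba p fl (fun _ => 0) i =
        pathSum 2 la ba p fl (fun _ => 0) j := h
      rcases hv i with ⟨h2, h3⟩ | ⟨h2, h3⟩ | ⟨h2, h3⟩ <;>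
        rcases hv j with ⟨h4, h5⟩ | ⟨h4, h5⟩ | ⟨h4, h5⟩ <;>
        first | exact congrArg Sum.inl (h2.trans h4.symm) | (exfalso; omega)
    · exfalso
      have h1 : pathSum 2 la ba p fl (fun _ => 0) i = fl y := h
      have h6 := hfl y
      rcases hv i with ⟨h2, h3⟩ | ⟨h2, h3⟩ | ⟨h2, h3⟩ <;> omega
    · exact (hB c).elim
    · exact (hBL c).elim
    · exfalso
      have h1 : fl x = pathSum 2 la ba p fl (fun _ => 0) j := h
      have h6 := hfl x
      rcases hv j with ⟨h2, h3⟩ | ⟨h2, h3⟩ | ⟨h2, h3⟩ <;> omega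
    · have h1 : fl x = fl y := h
      rw [hinj x y h1]
    · exact (hB c).elim
    · exact (hBL c).elim
    all_goals first | exact (hB b).elim | exact (hBL b).elim

theorem e4_main {K : ℕ} {Lf B BL : Type*} [Fintype Lf] [Fintype B] [Fintype BL] [DecidableEq B]
    {la : Lf → ℕ} {ba : B → ℕ} {par : BL → B} (hd : LobData K la ba par) (hK : K % 2 = 0)
    (x y z : Lf) (hxy : x ≠ y) (hxz : x ≠ z) (hyz : y ≠ z) (hx : la x + 1 = K)
    (hy : la y + 1 = K) (hz : la z + 1 = K) : HasLabels K la ba par := by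
  have h2 := hd.two_le
  rcases Nat.lt_or_ge K 4 with h4 | h4
  · obtain rfl : K = 2 := by omega
    exact e4_two hd
  obtain ⟨k, rfl⟩ : ∃ k, K = k + 1 := ⟨K - 1, by omega⟩
  have h3 : 3 ≤ k := by omega
  have hk : k % 2 = 1 := by omega
  have hal : ∀ i, ALk la ba par k i → LDk la ba k i := by
    rintro i ⟨h, hi⟩
    rcases h with ⟨x, hx, _⟩ | ⟨b, hb, _⟩
    · exact ⟨Or.inl ⟨x, hx⟩, hi⟩
    · exact ⟨Or.inr ⟨b, hb⟩, hi⟩
  have hld : ∀ i, LDk la ba k i → 1 ≤ i ∧ i < k := by
    rintro i ⟨⟨x, rfl⟩ | ⟨b, rfl⟩, hi⟩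
    · exact ⟨hd.la_pos x, hi⟩
    · exact ⟨hd.ba_pos b, hi⟩
  obtain ⟨S⟩ := Pool.Agent.Lob34.exists_seam hk h3 (LDk la ba k) (ALk la ba par k) hal hld
  have hq : S.mode ≠ 0 → ALk la ba par k S.q := by
    intro hm
    have hle := S.mode_le
    have hcases : S.mode = 1 ∨ (S.mode = 2 ∨ S.mode = 3) ∨ S.mode = 4 ∨ S.mode = 5 := by omega
    rcases hcases with h | h | h | h
    · exact (S.m1 h).1
    · exact (S.m2 h).1
    · exact (S.m4 h).1
    · exact (S.m5 h).1
  have hq' : S.mode ≠ 0 → 1 ≤ S.q ∧ S.q < k + 1 ∧ S.q ≠ k ∧ AL la ba par S.q := by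
    intro hm
    have h5 := hld _ (hal _ (hq hm))
    exact ⟨h5.1, by omega, by omega, (hq hm).1⟩
  obtain ⟨D, sp, hD, hS⟩ := exists_plan hd S.q S.mode k (Or.inr ⟨rfl, hK⟩) hq'
  rcases pure_or_NP hD with ⟨last, two, hP⟩ | hNP
  · classical
    exact pure_all hd hP
  have hx' : la x = k := by omega
  have hy' : la y = k := by omega
  have hz' : la z = k := by omega
  have hom : D.rv k = .II := hS.om_II (by omega) x y hx' hy' hxy
  have hs : 1 ≤ D.cl la k .s := by
    have hl := hD.l_l k (by omega) (by omega)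
    have hxx := hD.l_x k (by omega) (by omega)
    have hyy := hD.l_y k (by omega) (by omega)
    rw [hom] at hl hxx hyy
    simp only [reduceCtorEq, or_true, true_or, if_true, if_false] at hl hxx hyy
    by_contra hcon
    have hss : D.cl la k .s = 0 := by omega
    unfold PlanData.cl at hl hxx hyy hss
    have hl1 := Finset.card_le_one.1 hl.le
    have hx1 := Finset.card_le_one.1 hxx.le
    rw [Finset.card_eq_zero] at hyy hss
    have cases : ∀ w, la w = k → D.rl w = .l ∨ D.rl w = .x := by
      intro w hw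
      have h6 : w ∉ Finset.univ.filter fun x => la x = k ∧ D.rl x = .y := by
        rw [hyy]; exact Finset.notMem_empty _
      have h7 : w ∉ Finset.univ.filter fun x => la x = k ∧ D.rl x = .s := by
        rw [hss]; exact Finset.notMem_empty _
      simp only [Finset.mem_filter, Finset.mem_univ, true_and, not_and] at h6 h7
      have h8 := h6 hw
      have h9 := h7 hw
      cases hr : D.rl w <;> simp_all
    have two_l : ∀ v w, la v = k → la w = k → D.rl v = .l → D.rl w = .l → v = w := by
      intro v w hv hw h6 h7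
      exact hl1 v (by simp [hv, h6]) w (by simp [hw, h7])
    have two_x : ∀ v w, la v = k → la w = k → D.rl v = .x → D.rl w = .x → v = w := by
      intro v w hv hw h6 h7
      exact hx1 v (by simp [hv, h6]) w (by simp [hw, h7])
    rcases cases x hx' with a | a <;> rcases cases y hy' with b | b <;>
      rcases cases z hz' with c | c
    · exact hxy (two_l x y hx' hy' a b)
    · exact hxy (two_l x y hx' hy' a b)
    · exact hxz (two_l x z hx' hz' a c)
    · exact hyz (two_x y z hy' hz' b c)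
    · exact hyz (two_l y z hy' hz' b c)
    · exact hxz (two_x x z hx' hz' a c)
    · exact hxy (two_x x y hx' hy' a b)
    · exact hxy (two_x x y hx' hy' a b)
  have hq1 : S.mode ≠ 0 → 1 ≤ S.q := fun hm => (hq' hm).1
  exact np_main hD hNP (nm_e4 hD S hS hq1 hom hs) (fun j => lyE4 S (numE D (k + 1) sp) j)
    (fun j => rfl) (fun j hj => ly_e4 hD S hS hq1 S.m5h hom hs hj)
    (fun j hj => xf_e4 hD S hS hq1 S.m5h hom hs hj)
    (fun j hj hP => st_e4 hD S hS hq1 S.m5h hom hs hj hP)

end Pool.Agent.Lob5
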