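import Pool.Agent.Lob5.HoleAll
import Pool.Agent.Lob34.Few

/-!
# Existence of a seam with the structural facts `SeamP`
-/

namespace Pool.Agent.Lob5

theorem exists_seamP {k : ℕ} (hk : k % 2 = 1) (h3 : 3 ≤ k) (ld al : ℕ → Prop)
    (hal : ∀ i, al i → ld i) (hld : ∀ i, ld i → 1 ≤ i ∧ i < k) :
    ∃ S : Seam k ld al, SeamP S := by
  obtain ⟨S, h1, h2⟩ := Pool.Agent.Lob34.exists_seamWP hk h3 ld al hal hld
  exact ⟨S, h1, h2⟩

end Pool.Agent.Lob5
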