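import Pool.Agent.Lob5.OddLy
import Pool.Agent.Lob5.NpMain
import Pool.Agent.Lob5.PlanNP
import Pool.Agent.Lob34.Exists
import Pool.Agent.Lob89.PureEven

/-!
# `k` odd

Proof. `k ≥ 3`. `exists_seam` with `ld = LD la ba`, `al = AL la ba par` (`AL` implies `LD`; `LD i` implies
`1 ≤ i < k` by `LobData`). `exists_plan` with `q = S.q`, `mode = S.mode`, `om = 0`: if `mode ≠ 0` then `q` is marked
by `S.m1, m2, m4, m5` (`mode ≤ 5`), so `1 ≤ q < k` (`al_ld, ld_pos, ld_lt`). `pure_or_NP`: pure: `pure_all`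
(`Classical.decPred`); otherwise `np_main` with `N = nmOdd ..`, `Y = lyOdd S n`, `nm_odd, ly_odd, xf_odd, st_odd`.
-/

namespace Pool.Agent.Lob5

open Pool.Agent.Lob89

theorem odd_main {k : ℕ} {Lf B BL : Type*} [Fintype Lf] [Fintype B] [Fintype BL] [DecidableEq B]
    {la : Lf → ℕ} {ba : B → ℕ} {par : BL → B} (hd : LobData k la ba par) (hk : k % 2 = 1) :
    HasLabels k la ba par := by
  have h2 := hd.two_le
  have h3 : 3 ≤ k := by omega
  have hal : ∀ i, AL la ba par i → LD la ba i := by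
    intro i h
    rcases h with ⟨x, hx, _⟩ | ⟨b, hb, _⟩
    · exact Or.inl ⟨x, hx⟩
    · exact Or.inr ⟨b, hb⟩
  have hld : ∀ i, LD la ba i → 1 ≤ i ∧ i < k := by
    rintro i (⟨x, rfl⟩ | ⟨b, rfl⟩)
    · have := hd.la_pos x
      have := hd.la_lt x
      omega
    · have := hd.ba_pos b
      have := hd.ba_lt b
      omega
  obtain ⟨S⟩ := Pool.Agent.Lob34.exists_seam hk h3 (LD la ba) (AL la ba par) hal hld
  have hq : S.mode ≠ 0 → AL la ba par S.q := by
    intro hm
    have hle := S.mode_le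
    have hcases : S.mode = 1 ∨ (S.mode = 2 ∨ S.mode = 3) ∨ S.mode = 4 ∨ S.mode = 5 := by omega
    rcases hcases with h | h | h | h
    · exact (S.m1 h).1
    · exact (S.m2 h).1
    · exact (S.m4 h).1
    · exact (S.m5 h).1
  have hq' : S.mode ≠ 0 → 1 ≤ S.q ∧ S.q < k ∧ S.q ≠ 0 ∧ AL la ba par S.q := by
    intro hm
    have h4 := hld _ (hal _ (hq hm))
    exact ⟨h4.1, h4.2, by omega, hq hm⟩
  obtain ⟨D, sp, hD, hS⟩ := exists_plan hd S.q S.mode 0 (Or.inl rfl) hq'
  rcases pure_or_NP hD with ⟨last, two, hP⟩ | hNP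
  · classical
    exact pure_all hd hP
  · have hq1 : S.mode ≠ 0 → 1 ≤ S.q := fun hm => (hq' hm).1
    exact np_main hD hNP (nm_odd hD S hS hq1) (fun j => lyOdd S (numOf D k sp) j)
      (fun j => rfl) (fun j hj => ly_odd hD S hS hq1 hj) (fun j hj => xf_odd hD S hS hq1 hj)
      (fun j hj hP => st_odd hD S hS hq1 hj hP)

end Pool.Agent.Lob5
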