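import Pool.Agent.Lob5.P3Ly
import Pool.Agent.Lob5.HoleSeam
import Pool.Agent.Lob5.E4Main
import Pool.Agent.Lob89.RedE

/-!
# `K` even, exactly two leaves (and the path edge `K`) at the vertex `K - 1`

Proof: as `e4_main` (`K = k + 1`, `k` odd, `k ≥ 3`), with `exists_seamP` instead of `exists_seam`. The plan
(`exists_plan` with `om = k`) has `D.rv k = II` (`hS.om_II`, there are two different leaves at `k`), and
`D.cl la k .s = 0`: `l_l, l_x` give one leaf of role `l` and one of role `x` at `k`, and there are only two leaves.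
`np_main` with `N = nm3 S (numZ D k sp) (D.ns+1)`, `Y = ly3 ..` (`lay3_j` for `hj`), `nm_P3, ly_P3, xf_P3, st_P3`.
Pure plans: `pure_or_NP`, `pure_all`.
-/

namespace Pool.Agent.Lob5

open Pool.Agent.Lob89

theorem P3_main {K : ℕ} {Lf B BL : Type*} [Fintype Lf] [Fintype B] [Fintype BL] [DecidableEq B]
    {la : Lf → ℕ} {ba : B → ℕ} {par : BL → B} (hd : LobData K la ba par) (hK : K % 2 = 0)
    (h4 : 4 ≤ K) (h2 : (Finset.univ.filter fun x => la x + 1 = K).card = 2) :
    HasLabels K la ba par := by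
  have h2' := hd.two_le
  obtain ⟨k, rfl⟩ : ∃ k, K = k + 1 := ⟨K - 1, by omega⟩
  have h3 : 3 ≤ k := by omega
  have hk : k % 2 = 1 := by omega
  have hal : ∀ i, ALk la ba par k i → LDk la ba k i := by
    rintro i ⟨h, hi⟩
    rcases h with ⟨x, hx, _⟩ | ⟨b, hb, _⟩
    · exact ⟨Or.inl ⟨x, hx⟩, hi⟩
    · exact ⟨Or.inr ⟨b, hb⟩, hi⟩
  have hld : ∀ i, LDk la ba k i → 1 ≤ i ∧ i < k := by
    rintro i ⟨⟨x, rfl⟩ | ⟨b, rfl⟩, hi⟩
    · exact ⟨hd.la_pos x, hi⟩
    · exact ⟨hd.ba_pos b, hi⟩
  obtain ⟨S, hSP⟩ := exists_seamP hk h3 (LDk la ba k) (ALk la ba par k) hal hld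
  have hq : S.mode ≠ 0 → ALk la ba par k S.q := by
    intro hm
    have hle := S.mode_le
    have hcases : S.mode = 1 ∨ (S.mode = 2 ∨ S.mode = 3) ∨ S.mode = 4 ∨ S.mode = 5 := by omega
    rcases hcases with h | h | h | h
    · exact (S.m1 h).1
    · exact (S.m2 h).1
    · exact (S.m4 h).1
    · exact (S.m5 h).1
  have hq' : S.mode ≠ 0 → 1 ≤ S.q ∧ S.q < k + 1 ∧ S.q ≠ k ∧ AL la ba par S.q := by
    intro hm
    have h5 := hld _ (hal _ (hq hm))
    exact ⟨h5.1, by omega, by omega, (hq hm).1⟩
  obtain ⟨D, sp, hD, hS⟩ := exists_plan hd S.q S.mode k (Or.inr ⟨rfl, hK⟩) hq'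
  rcases pure_or_NP hD with ⟨last, two, hP⟩ | hNP
  · classical
    exact pure_all hd hP
  classical
  obtain ⟨x, y, hxy, hF⟩ := Finset.card_eq_two.1 h2
  have hx' : la x = k := by
    have h : x ∈ Finset.univ.filter fun x => la x + 1 = k + 1 := by
      rw [hF]
      exact Finset.mem_insert_self _ _
    have := (Finset.mem_filter.1 h).2
    omega
  have hy' : la y = k := by
    have h : y ∈ Finset.univ.filter fun x => la x + 1 = k + 1 := by
      rw [hF]
      exact Finset.mem_insert_of_mem (Finset.mem_singleton_self _)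
    have := (Finset.mem_filter.1 h).2
    omega
  have hom : D.rv k = .II := hS.om_II (by omega) x y hx' hy' hxy
  have hs : D.cl la k .s = 0 := by
    have hl := hD.l_l k (by omega) (by omega)
    have hxx := hD.l_x k (by omega) (by omega)
    rw [hom] at hl hxx
    simp only [reduceCtorEq, or_true, true_or, if_true] at hl hxx
    have h5 : D.cl la k .l + D.cl la k .x + D.cl la k .s ≤ 2 := by
      rw [← h2]
      unfold PlanData.cl
      have d1 : Disjoint (Finset.univ.filter fun x => la x = k ∧ D.rl x = .l)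
          (Finset.univ.filter fun x => la x = k ∧ D.rl x = .x) := by
        rw [Finset.disjoint_filter]
        rintro w _ ⟨_, h6⟩ ⟨_, h7⟩
        rw [h6] at h7
        exact absurd h7 (by decide)
      have d2 : Disjoint ((Finset.univ.filter fun x => la x = k ∧ D.rl x = .l) ∪
          (Finset.univ.filter fun x => la x = k ∧ D.rl x = .x))
          (Finset.univ.filter fun x => la x = k ∧ D.rl x = .s) := by
        rw [Finset.disjoint_union_left]
        constructor
        · rw [Finset.disjoint_filter]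
          rintro w _ ⟨_, h6⟩ ⟨_, h7⟩
          rw [h6] at h7
          exact absurd h7 (by decide)
        · rw [Finset.disjoint_filter]
          rintro w _ ⟨_, h6⟩ ⟨_, h7⟩
          rw [h6] at h7
          exact absurd h7 (by decide)
      rw [← Finset.card_union_of_disjoint d1, ← Finset.card_union_of_disjoint d2]
      refine Finset.card_le_card ?_
      intro w hw
      simp only [Finset.mem_union, Finset.mem_filter, Finset.mem_univ, true_and] at hw ⊢
      omega
    omega
  have hq1 : S.mode ≠ 0 → 1 ≤ S.q := fun hm => (hq' hm).1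
  exact np_main hD hNP (nm_P3 hD S hS hq1 hom) (fun j => ly3 S (numZ D k sp) (D.ns + 1) j)
    (fun j => lay3_j S (numZ D k sp) (D.ns + 1) j)
    (fun j hj => ly_P3 hD S hS hq1 hom hs hj)
    (fun j hj => xf_P3 hD S hS hq1 hom hs hj)
    (fun j hj hP => st_P3 hD S hSP hS hq1 hom hj hP)

end Pool.Agent.Lob5
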