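import Pool.Agent.Lob5.P2Sel
import Pool.Agent.Lob5.P2LyX
import Pool.Agent.Lob5.P3Main

/-!
# `K` even, exactly one leaf (and the path edge `K`) at the vertex `K - 1`

Proof: as `P3_main` (`K = k + 1`), with `exists_seamQ` for the word read backwards (`LDr la ba k`,
`ALr la ba par k`; `LDr i`
implies `1 ≤ i < k` as `LDk la ba k (k - i)` implies `1 ≤ k - i < k`). `exists_plan` with the
vertex `k - S.q` (in the
modes `≠ 0`: `ALr S.q`, so `AL (k - S.q)`, `1 ≤ k - S.q < k`, `≠ k`) and `om = k`; in the mode 0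
the hypothesis `hq'` is void.
`D.rv k = As` (`hS.om_A`, the only leaf at `k`). `h1 : ¬ ALr 1`: `AL (k - 1)` is impossible: no
leaf at `K - 2 = k - 1` (`h.la2'`), and a
bush at `k - 1` has at most two leaves (`h.b2'`, the card is 1). Pure plans: `pure_or_NP`,
`pure_all`. Otherwise
`p2_family` for `n = numZ D k sp`, `e = D.ns + 1` (`he, heN, he2`: fields of `ctx_Zr`; `hld`:
`n.Ux ≥ 1` gives a bush or an `II`- or `I`-vertex
`i < k`, it is loaded (`hS.ld_iff`), so `LDr (k - i)`), and `np_main` with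
`N = nm2 S n e` (`nm_P2r`), `Y j = ly2 S n e (F j).1 (F j).2`, `ly2_gen` (with `ctx_Zr`), `xf_P2`,
`st_P2`. The condition
`N.nT + j + N.c0 ≤ N.Ux` gives `Adm` by `adm_Zr`.
-/

namespace Pool.Agent.Lob5

open Pool.Agent.Lob89

theorem P2_main {K : ℕ} {Lf B BL : Type*} [Fintype Lf] [Fintype B] [Fintype BL] [DecidableEq B]
    {la : Lf → ℕ} {ba : B → ℕ} {par : BL → B} (h : EvenData K la ba par)
    (h4 : 4 ≤ K) (h2 : (Finset.univ.filter fun x => la x + 1 = K).card = 1) :
    HasLabels K la ba par := by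
  have hd := h.hd
  have hK := h.even
  obtain ⟨k, rfl⟩ : ∃ k, K = k + 1 := ⟨K - 1, by omega⟩
  have h3 : 3 ≤ k := by omega
  have hk : k % 2 = 1 := by omega
  have hal : ∀ i, ALr la ba par k i → LDr la ba k i := by
    rintro i ⟨h, hi⟩
    rcases h with ⟨x, hx, _⟩ | ⟨b, hb, _⟩
    · exact ⟨Or.inl ⟨x, hx⟩, hi⟩
    · exact ⟨Or.inr ⟨b, hb⟩, hi⟩
  have hld : ∀ i, LDr la ba k i → 1 ≤ i ∧ i < k := by
    rintro i ⟨⟨x, hx⟩ | ⟨b, hb⟩, hi⟩
    · have := hd.la_pos x
      omega
    · have := hd.ba_pos b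
      omega
  have h1 : ¬ ALr la ba par k 1 := by
    rintro ⟨⟨y, hy, _⟩ | ⟨b, hb, _, _, hb3⟩, _⟩
    · exact h.la2' y (by omega)
    · have h5 := h.b2' b (by omega)
      rw [h2] at h5
      omega
  obtain ⟨S, hSQ⟩ := exists_seamQ hk h3 (LDr la ba k) (ALr la ba par k) hal hld h1
  have hqk := S.hq
  have hq : S.mode ≠ 0 → ALr la ba par k S.q := by
    intro hm
    have hle := S.mode_le
    have hcases : S.mode = 1 ∨ (S.mode = 2 ∨ S.mode = 3) ∨ S.mode = 4 ∨ S.mode = 5 := by omega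
    rcases hcases with h | h | h | h
    · exact (S.m1 h).1
    · exact (S.m2 h).1
    · exact (S.m4 h).1
    · exact (S.m5 h).1
  have hq1 : S.mode ≠ 0 → 1 ≤ S.q := fun hm => (hld _ (hal _ (hq hm))).1
  have hq' : S.mode ≠ 0 → 1 ≤ k - S.q ∧ k - S.q < k + 1 ∧ k - S.q ≠ k ∧
      AL la ba par (k - S.q) := by
    intro hm
    have h5 := hld _ (hal _ (hq hm))
    exact ⟨by omega, by omega, by omega, (hq hm).1⟩
  obtain ⟨D, sp, hD, hS⟩ := exists_plan hd (k - S.q) S.mode k (Or.inr ⟨rfl, hK⟩) hq'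
  rcases pure_or_NP hD with ⟨last, two, hP⟩ | hNP
  · classical
    exact pure_all hd hP
  classical
  obtain ⟨x, hF⟩ := Finset.card_eq_one.1 h2
  have hx' : la x = k := by
    have h : x ∈ Finset.univ.filter fun x => la x + 1 = k + 1 := by
      rw [hF]
      exact Finset.mem_singleton_self _
    have := (Finset.mem_filter.1 h).2
    omega
  have hxu : ∀ y, la y = k → y = x := by
    intro y hy
    have h : y ∈ Finset.univ.filter fun x => la x + 1 = k + 1 :=
      Finset.mem_filter.2 ⟨Finset.mem_univ _, by omega⟩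
    rw [hF] at h
    exact Finset.mem_singleton.1 h
  have hom : D.rv k = .As := hS.om_A (by omega) x hx' hxu
  have H := ctx_Zr hD S hS hq1
  have hex : 1 ≤ (numZ D k sp).Ux → ∃ i, LDr la ba k i := by
    intro hU
    by_cases hB : ∃ b : B, True
    · obtain ⟨b, _⟩ := hB
      have h5 := hd.ev hK b
      refine ⟨k - ba b, Or.inr ⟨b, by omega⟩, by omega⟩
    · have hnb : ∀ ρ, D.nb ρ = 0 := by
        intro ρ
        rw [PlanData.nb, Finset.card_eq_zero, Finset.filter_eq_empty_iff]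
        exact fun b _ _ => hB ⟨b, trivial⟩
      have hnv : ∀ ρ, ρ ≠ .C → D.nv k ρ ≠ 0 → ∃ i, LDr la ba k i := by
        intro ρ hρ h5
        rw [PlanData.nv, Finset.card_ne_zero] at h5
        obtain ⟨i, hi⟩ := h5
        rw [Finset.mem_filter, Finset.mem_range] at hi
        obtain ⟨hi1, hi2, hi3⟩ := hi
        have h6 := (hS.ld_iff i hi2 (by omega) (by omega)).2 (by rw [hi3]; exact hρ)
        refine ⟨k - i, ?_, by omega⟩
        rw [show k - (k - i) = i by omega]
        exact h6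
      change 1 ≤ D.nb .L + D.nb .st + D.nb .self + D.nb .xo + D.nb .sp + D.nb .tl
        + D.nv k .II + D.nv k .I at hU
      rw [hnb, hnb, hnb, hnb, hnb, hnb] at hU
      by_cases h5 : D.nv k .II = 0
      · exact hnv .I (by simp) (by omega)
      · exact hnv .II (by simp) h5
  obtain ⟨F, hF1, hF2, hF3⟩ := p2_family S hSQ (numZ D k sp) (D.ns + 1) h1 H.e1 H.eN hex
  have hadm : ∀ j, (nm2 S (numZ D k sp) (D.ns + 1)).nT + j +
      (nm2 S (numZ D k sp) (D.ns + 1)).c0 ≤ (nm2 S (numZ D k sp) (D.ns + 1)).Ux →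
      Adm S (numZ D k sp) j := by
    intro j hj
    change (numZ D k sp).nT + j + (0 + if 2 ≤ sp then 1 else 0) ≤ (numZ D k sp).Ux at hj
    exact adm_Zr hD S hS hq1 (by omega)
  have hN : NmOK D (nm2 S (numZ D k sp) (D.ns + 1)) (k + 1) par := nm_P2r hD S hS hq1 hom
  exact np_main hD hNP hN
    (fun j => ly2 S (numZ D k sp) (D.ns + 1) (F j).1 (F j).2)
    (fun j => hF1 j)
    (fun j hj => ly2_gen S (numZ D k sp) H hom (by rw [hF1 j]; exact hadm j hj)
      (hF2 j (hadm j hj)))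
    (fun j hj => xf_P2 hD S hS hq1 hom (by rw [hF1 j]; exact hadm j hj) (hF2 j (hadm j hj)))
    (fun j hj hP => st_P2 hD S hS hq1 hom (hF3 hP j (hadm (j + 1) hj)))

end Pool.Agent.Lob5
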