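import Pool.Agent.Lob5.PlanExB

/-!
# Existence of the plan

`LD i`: something is attached to the path vertex `i`. `AL i`: exactly one leaf and no bush, or exactly
one bush, with at least three leaves, and no leaf. `om = 0` (no fat end) or `om = k - 1`.

Proof. The leaves of the bushes are done in `PlanExB` (`exists_rs`; `exists_assign` may also be used
for the leaves at the path vertices). It suffices to find `rv, rb, rl, ds, sf, dg, t1, t2`.
The roles are chosen locally, for every `i < k` (the functions `rl`, `rb`, `ds` are glued along `la`,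
`ba`, and `rs` along `par`); all conditions of `PlanOK` except `s_*` and `dg_R3` only concern the leaves
and bushes at one vertex `i`, and `s_*`, `dg_R3` the leaves of one bush `b` (given its role).
Let `λ` be the number of leaves at `i`, and call a bush small if it has at most two leaves.
* `i = om`: `C` if `λ = 0`, `As` if `λ = 1` (the leaf has role `y`), `II` if `λ ≥ 2` (there is no bush at
  `k - 1` by `ba_lt`).
* no leaf, no bush: `C`.
* `λ = 1`, no bush: `A` (role `l`), or `As` (role `y`) if `mode ≠ 0` and `i = q`.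
* `λ = 0`, exactly one bush, which is not small: `F` (bush `self`); if `mode ≠ 0` and `i = q`: `Fs` (bush
  `tl`) if `mode ≠ 5`, and `FR` if `mode = 5` (bush `xo` if it has three leaves, otherwise `sp`;
  designated, `t1 i = some b`).
* `λ ≥ 2`: `II` (one leaf `l`, one `x`, the others `s`; small bushes `L`, the others `st`).
* `λ = 1` and some bush is not small: `I` (leaf `x`; one bush which is not small gets `self`; the others
  `L` if small, else `st`).
* `λ = 1`, at least one bush, all small: `Z` (leaf `s`), bushes `L`, one of them designated.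
* `λ = 0`, exactly one bush, small: `Z`, bush `L`, designated.
* `λ = 0`, at least two bushes, some small: `Z`; a small one is designated; small: `L`, others `st`.
* `λ = 0`, at least two bushes, none small, some with exactly three leaves: `R3`: such a bush is
  designated (role `st`), another bush is `t1 i`, it has role `xo` if it has three leaves, otherwise
  `sp`; all others are `st`.
* `λ = 0`, at least two bushes, all with at least four leaves: `R4`: `t1 i` and `t2 i` two different
  bushes with role `sp`, `t2 i` is designated; the others `st`.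
Leaves of a bush with `r` leaves: `L`: `x`, and `x0` if `r = 2`; `st` (`r ≥ 3`): `l, x`, the others
`s`; `self` (`r ≥ 3`): `v, l, x`, the others `s`; `xo` (`r = 3`): `u, v, x`; `sp` (`r ≥ 4`): `u, v, l, x`,
the others `s`; `tl` (`r ≥ 3`): `s0, l, x`, the others `s`.
`sp = 0` if `mode = 0` or `q` is `FR`; `1` if `q` is `As`; if `q` is `Fs`: `2` if its bush has at least
four leaves, `3` if it has three.
-/

namespace Pool.Agent.Lob5

open Pool.Agent.Lob89

section

variable {Lf B BL : Type*} [Fintype Lf] [Fintype B] [Fintype BL] [DecidableEq B]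

/-- loaded -/
def LD (la : Lf → ℕ) (ba : B → ℕ) (i : ℕ) : Prop := (∃ x, la x = i) ∨ ∃ b, ba b = i

/-- marked -/
def AL (la : Lf → ℕ) (ba : B → ℕ) (par : BL → B) (i : ℕ) : Prop :=
  (∃ x, la x = i ∧ (∀ x', la x' = i → x' = x) ∧ ∀ b, ba b ≠ i) ∨
  (∃ b, ba b = i ∧ (∀ b', ba b' = i → b' = b) ∧ (∀ x, la x ≠ i) ∧
    3 ≤ (Finset.univ.filter fun y => par y = b).card)

/-- The relation between the plan and the seam. -/
structure PlanSp (D : PlanData Lf B BL) (k : ℕ) (la : Lf → ℕ) (ba : B → ℕ) (par : BL → B)
    (q mode sp om : ℕ) : Prop where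
  ld_iff : ∀ i, 1 ≤ i → i < k → i ≠ om → (LD la ba i ↔ D.rv i ≠ .C)
  al_iff : ∀ i, 1 ≤ i → i < k → i ≠ om → (AL la ba par i ↔
    (D.rv i = .A ∨ D.rv i = .F ∨ D.rv i = .As ∨ D.rv i = .Fs ∨ D.rv i = .FR))
  As_q : ∀ i, 1 ≤ i → i < k → i ≠ om → D.rv i = .As → i = q ∧ sp = 1 ∧ mode ≠ 0
  Fs_q : ∀ i, 1 ≤ i → i < k → D.rv i = .Fs → i = q ∧ (sp = 2 ∨ sp = 3) ∧ mode ≠ 0 ∧ mode ≠ 5
  FR_q : ∀ i, 1 ≤ i → i < k → D.rv i = .FR → i = q ∧ sp = 0 ∧ mode = 5
  q_sp : mode ≠ 0 → D.rv q = .As ∨ D.rv q = .Fs ∨ D.rv q = .FR
  m0 : mode = 0 → sp = 0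
  sp2 : sp = 2 → ∀ b, D.rb b = .tl → 1 ≤ D.cb par b .s
  sp3 : sp = 3 → ∀ b, D.rb b = .tl → D.cb par b .s = 0
  om_C : om ≠ 0 → (∀ x, la x ≠ om) → D.rv om = .C
  om_A : om ≠ 0 → ∀ x, la x = om → (∀ x', la x' = om → x' = x) → D.rv om = .As
  om_II : om ≠ 0 → ∀ x x', la x = om → la x' = om → x ≠ x' → D.rv om = .II

/-- the number of leaves of a bush -/
private def rn (par : BL → B) (b : B) : ℕ := (Finset.univ.filter fun y => par y = b).card

/-- the conditions on the leaves at the vertex `i` -/
private structure LfOK (la : Lf → ℕ) (i : ℕ) (ρ : RV) (rl : Lf → SV) : Prop where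
  l_l : (Finset.univ.filter fun x => la x = i ∧ rl x = .l).card =
    if ρ = .A ∨ ρ = .II then 1 else 0
  l_x : (Finset.univ.filter fun x => la x = i ∧ rl x = .x).card =
    if ρ = .II ∨ ρ = .I then 1 else 0
  l_y : (Finset.univ.filter fun x => la x = i ∧ rl x = .y).card = if ρ = .As then 1 else 0
  l_s : (Finset.univ.filter fun x => la x = i ∧ rl x = .s).card ≠ 0 → ρ = .II ∨ ρ = .Z
  l_Z : ρ = .Z → (Finset.univ.filter fun x => la x = i ∧ rl x = .s).card ≤ 1

/-- the conditions at the vertex `i` -/
private structure Loc (la : Lf → ℕ) (ba : B → ℕ) (par : BL → B) (q mode om i : ℕ) (ρ : RV)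
    (sf dg t1 t2 : Option B) (rl : Lf → SV) : Prop where
  sf_ba : ∀ b, sf = some b → 3 ≤ rn par b
  t1_ba : ∀ b, t1 = some b → 3 ≤ rn par b
  t2_ba : ∀ b, t2 = some b → dg = some b
  t1_dg : ∀ b, t1 = some b → (dg = some b ↔ ρ = .FR)
  rsf : (∃ b, sf = some b) ↔ (ρ = .F ∨ ρ = .I)
  rdg : (∃ b, dg = some b) ↔ ρ.isT = true
  rt1 : (∃ b, t1 = some b) ↔ (ρ = .R3 ∨ ρ = .R4 ∨ ρ = .FR)
  rt2 : (∃ b, t2 = some b) ↔ ρ = .R4
  bC : ∀ b, ba b = i → ρ ≠ .C ∧ ρ ≠ .A ∧ ρ ≠ .As
  bF : ρ = .F → ∀ b, ba b = i → sf = some b
  bFs : ρ = .Fs → ∀ b, ba b = i → 3 ≤ rn par b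
  bFR : ρ = .FR → ∀ b, ba b = i → t1 = some b ∧ dg = some b
  bZ : ρ = .Z → ∀ b, dg = some b → rn par b ≤ 2
  bR3 : ρ = .R3 → ∀ b, ba b = i → 3 ≤ rn par b
  bR3' : ρ = .R3 → ∀ b, dg = some b → rn par b = 3
  bR4 : ρ = .R4 → ∀ b, ba b = i → 4 ≤ rn par b
  one : ∀ b b', ba b = i → ba b' = i → (ρ = .F ∨ ρ = .Fs ∨ ρ = .FR) → b = b'
  Fs_ex : ρ = .Fs → ∃ b, ba b = i
  lf : LfOK la i ρ rl
  ld : i ≠ om → (LD la ba i ↔ ρ ≠ .C)
  al : i ≠ om → (AL la ba par i ↔ (ρ = .A ∨ ρ = .F ∨ ρ = .As ∨ ρ = .Fs ∨ ρ = .FR))
  As_q : i ≠ om → ρ = .As → i = q ∧ mode ≠ 0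
  Fs_q : ρ = .Fs → i = q ∧ mode ≠ 0 ∧ mode ≠ 5
  FR_q : ρ = .FR → i = q ∧ mode = 5
  q_sp : mode ≠ 0 → i = q → ρ = .As ∨ ρ = .Fs ∨ ρ = .FR
  om_C : i = om → (∀ x, la x ≠ i) → ρ = .C
  om_A : i = om → ∀ x, la x = i → (∀ x', la x' = i → x' = x) → ρ = .As
  om_II : i = om → ∀ x x', la x = i → la x' = i → x ≠ x' → ρ = .II

omit [Fintype B] [Fintype BL] [DecidableEq B] in
private theorem lf0 {la : Lf → ℕ} {i : ℕ} (h : ∀ x, la x ≠ i) {ρ : RV} (h1 : ρ ≠ .A)
    (h2 : ρ ≠ .II) (h3 : ρ ≠ .I) (h4 : ρ ≠ .As) : LfOK la i ρ fun _ => .s := by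
  have hc : ∀ κ : SV, (Finset.univ.filter fun x => la x = i ∧ SV.s = κ).card = 0 := by
    intro κ
    rw [Finset.card_eq_zero, Finset.filter_eq_empty_iff]
    rintro x _ ⟨hx, _⟩
    exact h x hx
  refine ⟨?_, ?_, ?_, ?_, ?_⟩
  · rw [hc, if_neg (by simp [h1, h2])]
  · rw [hc, if_neg (by simp [h2, h3])]
  · rw [hc, if_neg h4]
  · rw [hc]
    simp
  · rw [hc]
    simp

omit [Fintype B] [Fintype BL] [DecidableEq B] in
private theorem lf1 {la : Lf → ℕ} {i : ℕ} {x0 : Lf} (h0 : la x0 = i)
    (hu : ∀ x, la x = i → x = x0) {ρ : RV} {c : SV}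
    (h : (ρ = .A ∧ c = .l) ∨ (ρ = .As ∧ c = .y) ∨ (ρ = .I ∧ c = .x) ∨ (ρ = .Z ∧ c = .s)) :
    LfOK la i ρ fun _ => c := by
  have hc : ∀ κ : SV, (Finset.univ.filter fun x => la x = i ∧ c = κ).card =
      if c = κ then 1 else 0 := by
    intro κ
    by_cases hk : c = κ
    · rw [if_pos hk, Finset.card_eq_one]
      refine ⟨x0, ?_⟩
      ext x
      rw [Finset.mem_filter, Finset.mem_singleton]
      constructor
      · rintro ⟨_, hx, _⟩
        exact hu x hx
      · rintro rfl
        exact ⟨Finset.mem_univ _, h0, hk⟩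
    · rw [if_neg hk, Finset.card_eq_zero, Finset.filter_eq_empty_iff]
      rintro x _ ⟨_, hx⟩
      exact hk hx
  rcases h with ⟨rfl, rfl⟩ | ⟨rfl, rfl⟩ | ⟨rfl, rfl⟩ | ⟨rfl, rfl⟩ <;>
    exact ⟨by rw [hc]; simp, by rw [hc]; simp, by rw [hc]; simp, by rw [hc]; simp,
      by rw [hc]; simp⟩

omit [Fintype B] [Fintype BL] [DecidableEq B] in
private theorem lf2 [DecidableEq Lf] {la : Lf → ℕ} {i : ℕ} {x1 x2 : Lf} (h1 : la x1 = i)
    (h2 : la x2 = i) (h12 : x1 ≠ x2) :
    LfOK la i .II fun x => if x = x1 then .l else if x = x2 then .x else .s := by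
  refine ⟨?_, ?_, ?_, ?_, ?_⟩
  · rw [if_pos (Or.inr rfl), Finset.card_eq_one]
    refine ⟨x1, ?_⟩
    ext x
    rw [Finset.mem_filter, Finset.mem_singleton]
    constructor
    · rintro ⟨_, _, hx⟩
      by_contra hne
      rw [if_neg hne] at hx
      split_ifs at hx
    · rintro rfl
      exact ⟨Finset.mem_univ _, h1, if_pos rfl⟩
  · rw [if_pos (Or.inl rfl), Finset.card_eq_one]
    refine ⟨x2, ?_⟩
    ext x
    rw [Finset.mem_filter, Finset.mem_singleton]
    constructor
    · rintro ⟨_, _, hx⟩
      by_contra hne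
      rw [if_neg hne] at hx
      split_ifs at hx
    · rintro rfl
      exact ⟨Finset.mem_univ _, h2, by rw [if_neg (Ne.symm h12), if_pos rfl]⟩
  · rw [if_neg (by simp), Finset.card_eq_zero, Finset.filter_eq_empty_iff]
    rintro x _ ⟨_, hx⟩
    split_ifs at hx
  · intro _
    exact Or.inl rfl
  · intro h
    cases h

/-- the case of the vertex `om` -/
private theorem loc_om {k : ℕ} {la : Lf → ℕ} {ba : B → ℕ} {par : BL → B}
    (hd : LobData k la ba par) (q mode om : ℕ) (hom : om = 0 ∨ (om + 1 = k ∧ k % 2 = 0))
    (hq : mode ≠ 0 → q ≠ om) (h1 : 1 ≤ om) :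
    ∃ ρ sf dg t1 t2 rl, (∀ b, sf = some b → ba b = om) ∧ (∀ b, dg = some b → ba b = om) ∧
      (∀ b, t1 = some b → ba b = om) ∧ (∀ b, t2 = some b → ba b = om) ∧
      Loc la ba par q mode om om ρ sf dg t1 t2 rl := by
  classical
  have hb : ∀ b, ba b ≠ om := hd.ne_om hom
  by_cases hx : ∀ x, la x ≠ om
  · refine ⟨.C, none, none, none, none, fun _ => .s, by simp, by simp, by simp, by simp, ?_⟩
    refine ⟨by simp, by simp, by simp, by simp, by simp, by simp [RV.isT, RV.isS], by simp,
      by simp, fun b h => absurd h (hb b), by simp, by simp, by simp, by simp, by simp,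
      by simp, by simp, by simp, by simp,
      lf0 hx (by simp) (by simp) (by simp) (by simp), fun h => absurd rfl h,
      fun h => absurd rfl h, fun h => absurd rfl h, by simp, by simp,
      fun h h' => absurd h'.symm (hq h), fun _ _ => rfl, fun _ x hx' => absurd hx' (hx x),
      fun _ x _ hx' => absurd hx' (hx x)⟩
  · push Not at hx
    obtain ⟨x1, hx1⟩ := hx
    by_cases hu : ∀ x, la x = om → x = x1
    · refine ⟨.As, none, none, none, none, fun _ => .y, by simp, by simp, by simp, by simp, ?_⟩
      refine ⟨by simp, by simp, by simp, by simp, by simp, by simp [RV.isT, RV.isS], by simp,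
        by simp, fun b h => absurd h (hb b), by simp, by simp, by simp, by simp, by simp,
        by simp, by simp, by simp, by simp, lf1 hx1 hu (by simp), fun h => absurd rfl h,
        fun h => absurd rfl h, fun h => absurd rfl h, by simp, by simp, fun _ _ => Or.inl rfl,
        fun _ h => absurd hx1 (h x1), fun _ _ _ _ => rfl,
        fun _ x x' hx hx' hne => absurd ((hu x hx).trans (hu x' hx').symm) hne⟩
    · push Not at hu
      obtain ⟨x2, hx2, h12⟩ := hu
      refine ⟨.II, none, none, none, none,
        fun x => if x = x1 then .l else if x = x2 then .x else .s, by simp, by simp, by simp,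
        by simp, ?_⟩
      refine ⟨by simp, by simp, by simp, by simp, by simp, by simp [RV.isT, RV.isS], by simp,
        by simp, fun b h => absurd h (hb b), by simp, by simp, by simp, by simp, by simp,
        by simp, by simp, by simp, by simp, lf2 hx1 hx2 (Ne.symm h12),
        fun h => absurd rfl h, fun h => absurd rfl h, fun h => absurd rfl h, by simp, by simp,
        fun h h' => absurd h'.symm (hq h), fun _ h => absurd hx1 (h x1),
        fun _ x _ hu' => absurd ((hu' x2 hx2).trans (hu' x1 hx1).symm) h12,
        fun _ _ _ _ _ _ => rfl⟩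

/-- the case of a vertex `i ≠ om` -/
private theorem loc_in {la : Lf → ℕ} {ba : B → ℕ} {par : BL → B}
    (q mode om i : ℕ) (hi : i ≠ om)
    (hq : mode ≠ 0 → i = q → AL la ba par i) :
    ∃ ρ sf dg t1 t2 rl, (∀ b, sf = some b → ba b = i) ∧ (∀ b, dg = some b → ba b = i) ∧
      (∀ b, t1 = some b → ba b = i) ∧ (∀ b, t2 = some b → ba b = i) ∧
      Loc la ba par q mode om i ρ sf dg t1 t2 rl := by
  classical
  have hoC : ∀ ρ : RV, i = om → (∀ x, la x ≠ i) → ρ = .C := fun _ h => absurd h hi
  have hoA : ∀ ρ : RV, i = om → ∀ x, la x = i → (∀ x', la x' = i → x' = x) → ρ = .As :=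
    fun _ h => absurd h hi
  have hoI : ∀ ρ : RV, i = om → ∀ x x', la x = i → la x' = i → x ≠ x' → ρ = .II :=
    fun _ h => absurd h hi
  -- the case that the vertex is not marked
  have hnq : ∀ ρ : RV, ¬ AL la ba par i → mode ≠ 0 → i = q → ρ = .As ∨ ρ = .Fs ∨ ρ = .FR :=
    fun _ h h1 h2 => absurd (hq h1 h2) h
  by_cases hx : ∀ x, la x ≠ i
  · by_cases hb : ∀ b, ba b ≠ i
    · -- nothing
      have hAL : ¬ AL la ba par i := by
        rintro (⟨x, h, _⟩ | ⟨b, h, _⟩)
        · exact hx x h
        · exact hb b h
      have hLD : ¬ LD la ba i := by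
        rintro (⟨x, h⟩ | ⟨b, h⟩)
        · exact hx x h
        · exact hb b h
      refine ⟨.C, none, none, none, none, fun _ => .s, by simp, by simp, by simp, by simp, ?_⟩
      refine ⟨by simp, by simp, by simp, by simp, by simp, by simp [RV.isT, RV.isS], by simp,
        by simp, fun b h => absurd h (hb b), by simp, by simp, by simp, by simp, by simp,
        by simp, by simp, by simp, by simp,
        lf0 hx (by simp) (by simp) (by simp) (by simp), fun _ => by simp [hLD],
        fun _ => by simp [hAL], by simp, by simp, by simp, hnq _ hAL, hoC _, hoA _, hoI _⟩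
    · push Not at hb
      obtain ⟨b0, hb0⟩ := hb
      have hLD : LD la ba i := Or.inr ⟨b0, hb0⟩
      by_cases hs : ∃ b, ba b = i ∧ rn par b ≤ 2
      · -- some small bush
        obtain ⟨b1, hb1, hs1⟩ := hs
        have hAL : ¬ AL la ba par i := by
          rintro (⟨x, h, _⟩ | ⟨b, _, h, _, h'⟩)
          · exact hx x h
          · have h3 := h b1 hb1
            subst h3
            have h4 : 3 ≤ rn par b1 := h'
            omega
        refine ⟨.Z, none, some b1, none, none, fun _ => .s, by simp, by simpa using hb1,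
          by simp, by simp, ?_⟩
        refine ⟨by simp, by simp, by simp, by simp, by simp, by simp [RV.isT, RV.isS], by simp,
          by simp, by simp, by simp, by simp, by simp, fun _ b h => by
            rw [← Option.some.inj h]
            exact hs1, by simp,
          by simp, by simp, by simp, by simp,
          lf0 hx (by simp) (by simp) (by simp) (by simp), fun _ => by simp [hLD],
          fun _ => by simp [hAL], by simp, by simp, by simp, hnq _ hAL, hoC _, hoA _, hoI _⟩
      · push Not at hs
        have hs3 : ∀ b, ba b = i → 3 ≤ rn par b := fun b h => by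
          have := hs b h
          omega
        by_cases hu : ∀ b, ba b = i → b = b0
        · -- exactly one bush
          have hAL : AL la ba par i := Or.inr ⟨b0, hb0, hu, hx, hs3 b0 hb0⟩
          by_cases hqq : mode ≠ 0 ∧ i = q
          · by_cases h5 : mode = 5
            · refine ⟨.FR, none, some b0, some b0, none, fun _ => .s, by simp,
                by simpa using hb0, by simpa using hb0, by simp, ?_⟩
              refine ⟨by simp, by simpa using hs3 b0 hb0, by simp, by simp, by simp,
                by simp [RV.isT, RV.isS], by simp, by simp, by simp, by simp, by simp,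
                fun _ b h => by rw [hu b h]; exact ⟨rfl, rfl⟩, by simp, by simp, by simp,
                by simp, fun b b' h h' _ => (hu b h).trans (hu b' h').symm, by simp,
                lf0 hx (by simp) (by simp) (by simp) (by simp), fun _ => by simp [hLD],
                fun _ => by simp [hAL], by simp, by simp, fun _ => ⟨hqq.2, h5⟩, by simp,
                hoC _, hoA _, hoI _⟩
            · refine ⟨.Fs, none, none, none, none, fun _ => .s, by simp, by simp, by simp,
                by simp, ?_⟩
              refine ⟨by simp, by simp, by simp, by simp, by simp, by simp [RV.isT, RV.isS],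
                by simp, by simp, by simp, by simp, fun _ => hs3, by simp, by simp, by simp,
                by simp, by simp, fun b b' h h' _ => (hu b h).trans (hu b' h').symm,
                fun _ => ⟨b0, hb0⟩, lf0 hx (by simp) (by simp) (by simp) (by simp),
                fun _ => by simp [hLD], fun _ => by simp [hAL], by simp,
                fun _ => ⟨hqq.2, hqq.1, h5⟩, by simp, by simp, hoC _, hoA _, hoI _⟩
          · refine ⟨.F, some b0, none, none, none, fun _ => .s, by simpa using hb0, by simp,
              by simp, by simp, ?_⟩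
            refine ⟨by simpa using hs3 b0 hb0, by simp, by simp, by simp, by simp,
              by simp [RV.isT, RV.isS], by simp, by simp, by simp,
              fun _ b h => by rw [hu b h], by simp, by simp, by simp, by simp, by simp, by simp,
              fun b b' h h' _ => (hu b h).trans (hu b' h').symm, by simp,
              lf0 hx (by simp) (by simp) (by simp) (by simp), fun _ => by simp [hLD],
              fun _ => by simp [hAL], by simp, by simp, by simp,
              fun h h' => absurd ⟨h, h'⟩ hqq, hoC _, hoA _, hoI _⟩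
        · -- at least two bushes
          have hAL : ¬ AL la ba par i := by
            rintro (⟨x, h, _⟩ | ⟨b, _, h, _, h'⟩)
            · exact hx x h
            · exact hu fun b' hb' => (h b' hb').trans (h b0 hb0).symm
          by_cases h3 : ∃ b, ba b = i ∧ rn par b = 3
          · obtain ⟨b1, hb1, hr1⟩ := h3
            obtain ⟨b2, hb2, h12⟩ : ∃ b2, ba b2 = i ∧ b2 ≠ b1 := by
              by_contra hcon
              push Not at hcon
              exact hu fun b hb => (hcon b hb).trans (hcon b0 hb0).symm
            refine ⟨.R3, none, some b1, some b2, none, fun _ => .s, by simp,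
              by simpa using hb1, by simpa using hb2, by simp, ?_⟩
            refine ⟨by simp, by simpa using hs3 b2 hb2, by simp,
              by simpa using Ne.symm h12, by simp,
              by simp [RV.isT, RV.isS], by simp, by simp, by simp, by simp, by simp,
              by simp, by simp, fun _ => hs3, fun _ b h => by
                rw [← Option.some.inj h]
                exact hr1, by simp, by simp, by simp,
              lf0 hx (by simp) (by simp) (by simp) (by simp), fun _ => by simp [hLD],
              fun _ => by simp [hAL], by simp, by simp, by simp, hnq _ hAL, hoC _, hoA _,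
              hoI _⟩
          · push Not at h3
            have hs4 : ∀ b, ba b = i → 4 ≤ rn par b := fun b h => by
              have := hs3 b h
              have := h3 b h
              omega
            push Not at hu
            obtain ⟨b1, hb1, h10⟩ := hu
            refine ⟨.R4, none, some b1, some b0, some b1, fun _ => .s, by simp,
              by simpa using hb1, by simpa using hb0, by simpa using hb1, ?_⟩
            refine ⟨by simp, by simpa using hs3 b0 hb0, by simp,
              by simpa using h10, by simp,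
              by simp [RV.isT, RV.isS], by simp, by simp, by simp, by simp, by simp,
              by simp, by simp, by simp, by simp, fun _ => hs4, by simp, by simp,
              lf0 hx (by simp) (by simp) (by simp) (by simp), fun _ => by simp [hLD],
              fun _ => by simp [hAL], by simp, by simp, by simp, hnq _ hAL, hoC _, hoA _,
              hoI _⟩
  · push Not at hx
    obtain ⟨x1, hx1⟩ := hx
    have hLD : LD la ba i := Or.inl ⟨x1, hx1⟩
    by_cases hu : ∀ x, la x = i → x = x1
    · by_cases hb : ∀ b, ba b ≠ i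
      · -- one leaf
        have hAL : AL la ba par i := Or.inl ⟨x1, hx1, hu, hb⟩
        by_cases hqq : mode ≠ 0 ∧ i = q
        · refine ⟨.As, none, none, none, none, fun _ => .y, by simp, by simp, by simp,
            by simp, ?_⟩
          refine ⟨by simp, by simp, by simp, by simp, by simp, by simp [RV.isT, RV.isS],
            by simp, by simp, fun b h => absurd h (hb b), by simp, by simp, by simp, by simp,
            by simp, by simp, by simp, by simp, by simp, lf1 hx1 hu (by simp),
            fun _ => by simp [hLD], fun _ => by simp [hAL], fun _ _ => ⟨hqq.2, hqq.1⟩,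
            by simp, by simp, by simp, hoC _, hoA _, hoI _⟩
        · refine ⟨.A, none, none, none, none, fun _ => .l, by simp, by simp, by simp,
            by simp, ?_⟩
          refine ⟨by simp, by simp, by simp, by simp, by simp, by simp [RV.isT, RV.isS],
            by simp, by simp, fun b h => absurd h (hb b), by simp, by simp, by simp, by simp,
            by simp, by simp, by simp, by simp, by simp, lf1 hx1 hu (by simp),
            fun _ => by simp [hLD], fun _ => by simp [hAL], by simp, by simp, by simp,
            fun h h' => absurd ⟨h, h'⟩ hqq, hoC _, hoA _, hoI _⟩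
      · push Not at hb
        obtain ⟨b0, hb0⟩ := hb
        have hAL : ¬ AL la ba par i := by
          rintro (⟨x, _, _, h⟩ | ⟨b, _, _, h, _⟩)
          · exact h b0 hb0
          · exact h x1 hx1
        by_cases hs : ∃ b, ba b = i ∧ 3 ≤ rn par b
        · obtain ⟨b1, hb1, hr1⟩ := hs
          refine ⟨.I, some b1, none, none, none, fun _ => .x, by simpa using hb1, by simp,
            by simp, by simp, ?_⟩
          refine ⟨by simpa using hr1, by simp, by simp, by simp, by simp,
            by simp [RV.isT, RV.isS], by simp, by simp, by simp, by simp, by simp, by simp,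
            by simp, by simp, by simp, by simp, by simp, by simp, lf1 hx1 hu (by simp),
            fun _ => by simp [hLD], fun _ => by simp [hAL], by simp, by simp, by simp,
            hnq _ hAL, hoC _, hoA _, hoI _⟩
        · push Not at hs
          refine ⟨.Z, none, some b0, none, none, fun _ => .s, by simp, by simpa using hb0,
            by simp, by simp, ?_⟩
          refine ⟨by simp, by simp, by simp, by simp, by simp, by simp [RV.isT, RV.isS],
            by simp, by simp, by simp, by simp, by simp, by simp, fun _ b h => by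
              rw [← Option.some.inj h]
              have := hs b0 hb0
              omega, by simp,
            by simp, by simp, by simp, by simp, lf1 hx1 hu (by simp), fun _ => by simp [hLD],
            fun _ => by simp [hAL], by simp, by simp, by simp, hnq _ hAL, hoC _, hoA _, hoI _⟩
    · push Not at hu
      obtain ⟨x2, hx2, h12⟩ := hu
      have hAL : ¬ AL la ba par i := by
        rintro (⟨x, _, h, _⟩ | ⟨b, _, _, h, _⟩)
        · exact h12 ((h x2 hx2).trans (h x1 hx1).symm)
        · exact h x1 hx1
      refine ⟨.II, none, none, none, none,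
        fun x => if x = x1 then .l else if x = x2 then .x else .s, by simp, by simp, by simp,
        by simp, ?_⟩
      refine ⟨by simp, by simp, by simp, by simp, by simp, by simp [RV.isT, RV.isS], by simp,
        by simp, by simp, by simp, by simp, by simp, by simp, by simp,
        by simp, by simp, by simp, by simp, lf2 hx1 hx2 (Ne.symm h12),
        fun _ => by simp [hLD], fun _ => by simp [hAL], by simp, by simp, by simp,
        hnq _ hAL, hoC _, hoA _, hoI _⟩

/-- the role of a bush with `r` leaves -/
private def rbOf (ρ : RV) (sf t1 t2 : Option B) (r : ℕ) (b : B) : RB :=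
  if sf = some b then .self else if t1 = some b ∨ t2 = some b then (if r = 3 then .xo else .sp)
    else if ρ = .Fs then .tl else if r ≤ 2 then .L else .st

theorem exists_plan {k : ℕ} {la : Lf → ℕ} {ba : B → ℕ} {par : BL → B}
    (hd : LobData k la ba par) (q mode om : ℕ) (hom : om = 0 ∨ (om + 1 = k ∧ k % 2 = 0))
    (hq : mode ≠ 0 → 1 ≤ q ∧ q < k ∧ q ≠ om ∧ AL la ba par q) :
    ∃ (D : PlanData Lf B BL) (sp : ℕ), PlanOK D k la ba par ∧
      PlanSp D k la ba par q mode sp om := by
  classical
  have hrn : ∀ b, 1 ≤ rn par b := by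
    intro b
    obtain ⟨y, hy⟩ := hd.par_surj b
    exact Finset.card_pos.2 ⟨y, Finset.mem_filter.2 ⟨Finset.mem_univ _, hy⟩⟩
  have main : ∀ i, ∃ ρ sf dg t1 t2 rl, (∀ b, sf = some b → ba b = i) ∧
      (∀ b, dg = some b → ba b = i) ∧ (∀ b, t1 = some b → ba b = i) ∧
      (∀ b, t2 = some b → ba b = i) ∧
      (1 ≤ i → i < k → Loc la ba par q mode om i ρ sf dg t1 t2 rl) := by
    intro i
    by_cases h : 1 ≤ i ∧ i < k
    · by_cases hi : i = om
      · subst hi
        obtain ⟨ρ, sf, dg, t1, t2, rl, h1, h2, h3, h4, h5⟩ := loc_om hd q mode i hom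
          (fun h => (hq h).2.2.1) h.1
        exact ⟨ρ, sf, dg, t1, t2, rl, h1, h2, h3, h4, fun _ _ => h5⟩
      · obtain ⟨ρ, sf, dg, t1, t2, rl, h1, h2, h3, h4, h5⟩ := loc_in (la := la) (ba := ba)
          (par := par) q mode om i hi (fun h h' => h' ▸ (hq h).2.2.2)
        exact ⟨ρ, sf, dg, t1, t2, rl, h1, h2, h3, h4, fun _ _ => h5⟩
    · exact ⟨.C, none, none, none, none, fun _ => .s, by simp, by simp, by simp, by simp,
        fun h1 h2 => absurd ⟨h1, h2⟩ h⟩
  choose rv sf dg t1 t2 rl hsf hdg ht1 ht2 hL using main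
  have hB : ∀ b, 1 ≤ ba b ∧ ba b < k := by
    intro b
    have h1 := hd.ba_pos b
    have h2 := hd.ba_lt b
    omega
  have L : ∀ b, Loc la ba par q mode om (ba b) (rv (ba b)) (sf (ba b)) (dg (ba b)) (t1 (ba b))
      (t2 (ba b)) (rl (ba b)) := fun b => hL _ (hB b).1 (hB b).2
  let rb : B → RB := fun b =>
    rbOf (rv (ba b)) (sf (ba b)) (t1 (ba b)) (t2 (ba b)) (rn par b) b
  have hrb : ∀ b, rb b = rbOf (rv (ba b)) (sf (ba b)) (t1 (ba b)) (t2 (ba b)) (rn par b) b :=
    fun _ => rfl
  -- the roles of the vertices of the special bushes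
  have Nsf : ∀ b, sf (ba b) = some b → rv (ba b) = .F ∨ rv (ba b) = .I :=
    fun b h => (L b).rsf.1 ⟨b, h⟩
  have Nt1 : ∀ b, t1 (ba b) = some b → rv (ba b) = .R3 ∨ rv (ba b) = .R4 ∨ rv (ba b) = .FR :=
    fun b h => (L b).rt1.1 ⟨b, h⟩
  have Nt2 : ∀ b, t2 (ba b) = some b → rv (ba b) = .R4 := fun b h => (L b).rt2.1 ⟨b, h⟩
  have R1 : ∀ b, rb b = .self ↔ sf (ba b) = some b := by
    intro b
    rw [hrb]
    unfold rbOf
    split_ifs with h1 h2 h3 h4 h5 <;> simp [h1]
  have R2 : ∀ b, (rb b = .xo ∨ rb b = .sp) ↔ (t1 (ba b) = some b ∨ t2 (ba b) = some b) := by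
    intro b
    rw [hrb]
    unfold rbOf
    split_ifs with h1 h2 h3 h4 h5
    · constructor
      · rintro (h | h) <;> cases h
      · intro h
        exfalso
        rcases Nsf b h1 with h6 | h6 <;> rcases h with h | h
        · rcases Nt1 b h with h7 | h7 | h7 <;> rw [h6] at h7 <;> cases h7
        · have h7 := Nt2 b h
          rw [h6] at h7
          cases h7
        · rcases Nt1 b h with h7 | h7 | h7 <;> rw [h6] at h7 <;> cases h7
        · have h7 := Nt2 b h
          rw [h6] at h7
          cases h7
    · exact ⟨fun _ => h2, fun _ => Or.inl rfl⟩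
    · exact ⟨fun _ => h2, fun _ => Or.inr rfl⟩
    · exact ⟨fun h => (by rcases h with h | h <;> cases h), fun h => absurd h h2⟩
    · exact ⟨fun h => (by rcases h with h | h <;> cases h), fun h => absurd h h2⟩
    · exact ⟨fun h => (by rcases h with h | h <;> cases h), fun h => absurd h h2⟩
  have R3 : ∀ b, rb b = .tl ↔ rv (ba b) = .Fs := by
    intro b
    rw [hrb]
    unfold rbOf
    split_ifs with h1 h2 h3 h4 h5
    · refine ⟨fun h => (by cases h), fun h => ?_⟩
      exfalso
      rcases Nsf b h1 with h6 | h6 <;> rw [h6] at h <;> cases h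
    · refine ⟨fun h => (by cases h), fun h => ?_⟩
      exfalso
      rcases h2 with h2 | h2
      · rcases Nt1 b h2 with h7 | h7 | h7 <;> rw [h7] at h <;> cases h
      · rw [Nt2 b h2] at h
        cases h
    · refine ⟨fun h => (by cases h), fun h => ?_⟩
      exfalso
      rcases h2 with h2 | h2
      · rcases Nt1 b h2 with h7 | h7 | h7 <;> rw [h7] at h <;> cases h
      · rw [Nt2 b h2] at h
        cases h
    · exact ⟨fun _ => h4, fun _ => rfl⟩
    · exact ⟨fun h => (by cases h), fun h => absurd h h4⟩
    · exact ⟨fun h => (by cases h), fun h => absurd h h4⟩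
  have R4 : ∀ b, rb b = .L → rn par b ≤ 2 := by
    intro b h
    rw [hrb] at h
    unfold rbOf at h
    split_ifs at h with h1 h2 h3 h4 h5
    exact h5
  have R5 : ∀ b, rb b = .st → 3 ≤ rn par b := by
    intro b h
    rw [hrb] at h
    unfold rbOf at h
    split_ifs at h with h1 h2 h3 h4 h5
    omega
  have R6 : ∀ b, rb b = .xo → rn par b = 3 := by
    intro b h
    rw [hrb] at h
    unfold rbOf at h
    split_ifs at h with h1 h2 h3 h4 h5
    exact h3
  have R7 : ∀ b, rb b = .sp → 4 ≤ rn par b := by
    intro b h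
    have h' := h
    rw [hrb] at h
    unfold rbOf at h
    split_ifs at h with h1 h2 h3 h4 h5
    rcases h2 with h2 | h2
    · have := (L b).t1_ba b h2
      omega
    · exact (L b).bR4 (Nt2 b h2) b rfl
  have R8 : ∀ b, rb b = .self → 3 ≤ rn par b := fun b h => (L b).sf_ba b ((R1 b).1 h)
  have R9 : ∀ b, rb b = .tl → 3 ≤ rn par b := fun b h => (L b).bFs ((R3 b).1 h) b rfl
  have R0 : ∀ b, rb b = .self ∨ (rb b = .xo ∨ rb b = .sp) ∨ rb b = .tl ∨ rb b = .L ∨
      rb b = .st := by
    intro b
    cases h : rb b <;> simp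
  have N1 : ∀ b, rb b = .self → rv (ba b) = .F ∨ rv (ba b) = .I := fun b h =>
    Nsf b ((R1 b).1 h)
  have N2 : ∀ b, (rb b = .xo ∨ rb b = .sp) →
      rv (ba b) = .R3 ∨ rv (ba b) = .R4 ∨ rv (ba b) = .FR := by
    intro b h
    rcases (R2 b).1 h with h1 | h1
    · exact Nt1 b h1
    · exact Or.inr (Or.inl (Nt2 b h1))
  obtain ⟨rs, hrs⟩ := exists_rs par rb
    (fun b h => ⟨hrn b, R4 b h⟩)
    (fun b h => by
      rcases h with h | h | h
      · exact R5 b h
      · exact R8 b h
      · exact R9 b h) (fun b h => R6 b h) (fun b h => R7 b h)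
  let D : PlanData Lf B BL :=
    { rv := rv
      rb := rb
      rl := fun x => rl (la x) x
      rs := rs
      ds := fun b => decide (dg (ba b) = some b)
      sf := sf
      dg := dg
      t1 := t1
      t2 := t2 }
  have hcl : ∀ i κ, D.cl la i κ =
      (Finset.univ.filter fun x => la x = i ∧ rl i x = κ).card := by
    intro i κ
    unfold PlanData.cl
    congr 1
    refine Finset.filter_congr fun x _ => ?_
    constructor
    · rintro ⟨h, h'⟩
      exact ⟨h, by rw [← h]; exact h'⟩
    · rintro ⟨h, h'⟩
      exact ⟨h, by change rl (la x) x = κ; rw [h]; exact h'⟩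
  have hds : ∀ b, D.ds b = true ↔ dg (ba b) = some b := fun b => decide_eq_true_iff
  have hdf : ∀ b, dg (ba b) ≠ some b → D.ds b = false := fun b h => decide_eq_false h
  have hOK : PlanOK D k la ba par := by
    refine
      { hd := hd
        l_l := fun i h1 h2 => ?_
        l_x := fun i h1 h2 => ?_
        l_y := fun i h1 h2 => ?_
        l_s := fun i h1 h2 => ?_
        l_Z := fun i h1 h2 => ?_
        b_C := fun b => (L b).bC b rfl
        b_F := fun b h => (R1 b).2 ((L b).bF h b rfl)
        b_Fs := R3
        b_FR := fun b h => ⟨(R2 b).2 (Or.inl ((L b).bFR h b rfl).1),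
          (hds b).2 ((L b).bFR h b rfl).2⟩
        b_II := fun b h => ?_
        b_I := fun b h => ?_
        b_Z := fun b h => ?_
        b_R3 := fun b h => ?_
        b_R4 := fun b h => ?_
        one := fun b b' hbb h => (L b).one b b' rfl hbb.symm h
        Fs_ex := fun i h1 h2 h => (hL i h1 h2).Fs_ex h
        self_sf := R1
        sf_ba := hsf
        sf_ex := fun i h1 h2 h => (hL i h1 h2).rsf.2 h
        sf_rv := N1
        ds_dg := hds
        dg_ba := hdg
        dg_ex := fun i h1 h2 h => (hL i h1 h2).rdg.2 h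
        dg_rv := fun b h => (L b).rdg.1 ⟨b, (hds b).1 h⟩
        dg_R3 := fun b h h' => ?_
        tok := R2
        t1_ba := ht1
        t2_ba := ht2
        t1_ex := fun i h1 h2 h => (hL i h1 h2).rt1.2 h
        t1_rv := Nt1
        t1_ds := fun b h => (hds b).trans ((L b).t1_dg b h)
        t2_ex := fun i h1 h2 h => (hL i h1 h2).rt2.2 h
        t2_rv := Nt2
        t2_ds := fun b h => (hds b).2 ((L b).t2_ba b h)
        s_l := fun b => (hrs b).1
        s_x := fun b => (hrs b).2.1
        s_u := fun b => (hrs b).2.2.1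
        s_v := fun b => (hrs b).2.2.2.1
        s_s0 := fun b => (hrs b).2.2.2.2.1
        s_x0 := fun b => ?_
        s_s := fun b h => ?_
        s_st := fun b h => ?_ }
    · rw [hcl]
      exact (hL i h1 h2).lf.l_l
    · rw [hcl]
      exact (hL i h1 h2).lf.l_x
    · rw [hcl]
      exact (hL i h1 h2).lf.l_y
    · rw [hcl]
      exact (hL i h1 h2).lf.l_s
    · rw [hcl]
      exact (hL i h1 h2).lf.l_Z
    · have h' : rv (ba b) = .II := h
      rcases R0 b with h1 | h1 | h1 | h1 | h1
      · rcases N1 b h1 with h2 | h2 <;> rw [h'] at h2 <;> cases h2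
      · rcases N2 b h1 with h2 | h2 | h2 <;> rw [h'] at h2 <;> cases h2
      · rw [(R3 b).1 h1] at h'
        cases h'
      · exact Or.inl h1
      · exact Or.inr h1
    · have h' : rv (ba b) = .I := h
      rcases R0 b with h1 | h1 | h1 | h1 | h1
      · exact Or.inr (Or.inr h1)
      · rcases N2 b h1 with h2 | h2 | h2 <;> rw [h'] at h2 <;> cases h2
      · rw [(R3 b).1 h1] at h'
        cases h'
      · exact Or.inl h1
      · exact Or.inr (Or.inl h1)
    · have h' : rv (ba b) = .Z := h
      rcases R0 b with h1 | h1 | h1 | h1 | h1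
      · rcases N1 b h1 with h2 | h2 <;> rw [h'] at h2 <;> cases h2
      · rcases N2 b h1 with h2 | h2 | h2 <;> rw [h'] at h2 <;> cases h2
      · rw [(R3 b).1 h1] at h'
        cases h'
      · exact Or.inl h1
      · refine Or.inr ⟨h1, hdf b fun h2 => ?_⟩
        have h3 := (L b).bZ h' b h2
        have h4 := R5 b h1
        omega
    · have h' : rv (ba b) = .R3 := h
      rcases R0 b with h1 | h1 | h1 | h1 | h1
      · rcases N1 b h1 with h2 | h2 <;> rw [h'] at h2 <;> cases h2
      · refine Or.inr ⟨h1, hdf b fun h2 => ?_⟩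
        rcases (R2 b).1 h1 with h3 | h3
        · have h4 := ((L b).t1_dg b h3).1 h2
          rw [h'] at h4
          cases h4
        · have h4 := Nt2 b h3
          rw [h'] at h4
          cases h4
      · rw [(R3 b).1 h1] at h'
        cases h'
      · have h3 := R4 b h1
        have h4 := (L b).bR3 h' b rfl
        omega
      · exact Or.inl h1
    · have h' : rv (ba b) = .R4 := h
      have h5 := (L b).bR4 h' b rfl
      rcases R0 b with h1 | (h1 | h1) | h1 | h1 | h1
      · rcases N1 b h1 with h2 | h2 <;> rw [h'] at h2 <;> cases h2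
      · have h3 := R6 b h1
        omega
      · exact Or.inr h1
      · rw [(R3 b).1 h1] at h'
        cases h'
      · have h3 := R4 b h1
        omega
      · refine Or.inl ⟨h1, hdf b fun h2 => ?_⟩
        obtain ⟨b', hb'⟩ := (L b).rt2.2 h'
        have h3 := (L b).t2_ba b' hb'
        rw [h2] at h3
        have h4 : b = b' := Option.some.inj h3
        rw [← h4] at hb'
        rcases (R2 b).2 (Or.inr hb') with h6 | h6 <;> rw [h1] at h6 <;> cases h6
    · have hdg' := (hds b).1 h
      have h3 := (L b).bR3' h' b hdg'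
      have hst : rb b = .st := by
        have h'' : rv (ba b) = .R3 := h'
        rcases R0 b with h1 | h1 | h1 | h1 | h1
        · rcases N1 b h1 with h2 | h2 <;> rw [h''] at h2 <;> cases h2
        · exfalso
          rcases (R2 b).1 h1 with h5 | h5
          · have h4 := ((L b).t1_dg b h5).1 hdg'
            rw [h''] at h4
            cases h4
          · have h4 := Nt2 b h5
            rw [h''] at h4
            cases h4
        · rw [(R3 b).1 h1] at h''
          cases h''
        · have h4 := R4 b h1
          omega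
        · exact h1
      refine ⟨hst, ?_⟩
      have h4 := (hrs b).2.2.2.2.2.2
      rw [hst] at h4
      have h5 : D.cb par b .s = rn par b - 2 := h4
      omega
    · have h1 : D.cb par b .x0 = if rb b = .L then rn par b - 1 else 0 :=
        (hrs b).2.2.2.2.2.1
      rw [h1]
      change _ ≤ if rb b = .L then 1 else 0
      by_cases h2 : rb b = .L
      · rw [if_pos h2, if_pos h2]
        have := R4 b h2
        omega
      · rw [if_neg h2, if_neg h2]
    · have h1 := (hrs b).2.2.2.2.2.2
      rcases h with h | h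
      · have h' : rb b = .L := h
        rw [h'] at h1
        exact h1
      · have h' : rb b = .xo := h
        rw [h'] at h1
        exact h1
    · have h1 := (hrs b).2.2.2.2.2.2
      have h' : rb b = .st := h
      rw [h'] at h1
      have h5 : D.cb par b .s = rn par b - 2 := h1
      have h6 := R5 b h'
      omega
  have htl : ∀ b, rb b = .tl → D.cb par b .s = rn par b - 3 := by
    intro b h
    have h1 := (hrs b).2.2.2.2.2.2
    rw [h] at h1
    exact h1
  refine ⟨D, if mode = 0 then 0 else if rv q = .As then 1 else if rv q = .Fs then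
    (if ∃ b, ba b = q ∧ rn par b = 3 then 3 else 2) else 0, hOK, ?_⟩
  refine
    { ld_iff := fun i h1 h2 h3 => (hL i h1 h2).ld h3
      al_iff := fun i h1 h2 h3 => (hL i h1 h2).al h3
      As_q := fun i h1 h2 h3 h4 => ?_
      Fs_q := fun i h1 h2 h3 => ?_
      FR_q := fun i h1 h2 h3 => ?_
      q_sp := fun h => (hL q (hq h).1 (hq h).2.1).q_sp h rfl
      m0 := fun h => if_pos h
      sp2 := fun h b hb => ?_
      sp3 := fun h b hb => ?_
      om_C := fun h h' => (hL om (by omega) (by omega)).om_C rfl h'
      om_A := fun h => (hL om (by omega) (by omega)).om_A rfl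
      om_II := fun h => (hL om (by omega) (by omega)).om_II rfl }
  · obtain ⟨h5, h6⟩ := (hL i h1 h2).As_q h3 h4
    subst h5
    have h7 : rv i = .As := h4
    refine ⟨rfl, ?_, h6⟩
    rw [if_neg h6, if_pos h7]
  · obtain ⟨h5, h6, h7⟩ := (hL i h1 h2).Fs_q h3
    subst h5
    have h8 : rv i = .Fs := h3
    refine ⟨rfl, ?_, h6, h7⟩
    rw [if_neg h6, if_neg (by rw [h8]; simp), if_pos h8]
    split_ifs
    · exact Or.inr rfl
    · exact Or.inl rfl
  · obtain ⟨h5, h6⟩ := (hL i h1 h2).FR_q h3
    subst h5
    have h8 : rv i = .FR := h3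
    refine ⟨rfl, ?_, h6⟩
    rw [if_neg (by omega), if_neg (by rw [h8]; simp), if_neg (by rw [h8]; simp)]
  · have hb' : rb b = .tl := hb
    have h1 := (R3 b).1 hb'
    obtain ⟨h2, h3, h4⟩ := (L b).Fs_q h1
    have h5 := R9 b hb'
    rw [htl b hb']
    have h6 : rv q = .Fs := h2 ▸ h1
    rw [if_neg h3, if_neg (by rw [h6]; simp), if_pos h6] at h
    have h10 : rn par b ≠ 3 := fun h9 => by
      rw [if_pos ⟨b, h2, h9⟩] at h
      omega
    omega
  · have hb' : rb b = .tl := hb
    have h1 := (R3 b).1 hb'
    obtain ⟨h2, h3, h4⟩ := (L b).Fs_q h1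
    rw [htl b hb']
    have h6 : rv q = .Fs := h2 ▸ h1
    rw [if_neg h3, if_neg (by rw [h6]; simp), if_pos h6] at h
    have h9 : ∃ b, ba b = q ∧ rn par b = 3 := by
      by_contra h9
      rw [if_neg h9] at h
      omega
    obtain ⟨b', hb1, hb2⟩ := h9
    have h10 : b = b' := (L b).one b b' rfl (hb1.trans h2.symm) (Or.inr (Or.inl h1))
    rw [h10, hb2]

end

end Pool.Agent.Lob5
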