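import Pool.Agent.Lob5.OddDefs

/-!
# `k` odd: the numbers

* `n2_le`: a leaf of role `x0` belongs to a bush of role `L`, which has at most one (`s_x0`).
* `card_all`: count leaves, bushes and bush leaves by roles: leaves at path vertices (`l_l, l_x, l_y`; all
  leaves are at vertices `1 ≤ i < k`): `nv A + nv II` of role `l`, `nv II + nv I` of role `x`, `nv As` of role
  `y`; bush leaves: role `l`: `nb st + nb self + nb sp + nb tl`; role `x`: one per bush; role `u`:
  `nb xo + nb sp`; role `v`: `nb self + nb xo + nb sp`; role `x0`: `n2`; roles `s, s0` are counted in `ns`.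
* `nm_odd`: `tot`: `wz = n2 + Ux + h + 1 + [sp ≠ 0]`, `k = 2h+1`, `card_all`, and `nv As + nb tl = [sp ≠ 0]`
  (`As_q, Fs_q, FR_q, q_sp, m0`; at an `Fs`-vertex there is exactly one bush, of role `tl`: `Fs_ex, b_Fs, one`).
  `c0_eq`, `tl_le`: the same. `s0_rng`: a bush `tl` has a leaf of role `s0`, so `e ≥ 1`. `FR1`: `FR_q`.
* `adm_odd`: `sp14`: `q_sp`.
-/

namespace Pool.Agent.Lob5

open Pool.Agent.Lob89

variable {Lf B BL : Type*} [Fintype Lf] [Fintype B] [Fintype BL] [DecidableEq B]
  {D : PlanData Lf B BL} {k : ℕ} {la : Lf → ℕ} {ba : B → ℕ} {par : BL → B} {ld al : ℕ → Prop}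

omit [Fintype B] [Fintype BL] [Fintype Lf] [DecidableEq B] in
private theorem ba_rng' (hD : LobData k la ba par) (b : B) : 1 ≤ ba b ∧ ba b < k := by
  have h1 := hD.ba_pos b
  have h2 := hD.ba_lt b
  omega

omit [Fintype B] [Fintype BL] [Fintype Lf] [DecidableEq B] in
private theorem la_rng' (hD : LobData k la ba par) (x : Lf) : 1 ≤ la x ∧ la x < k := by
  have h1 := hD.la_pos x
  have h2 := hD.la_lt x
  omega

omit [Fintype Lf] in
/-- leaves of bushes of role `κ` -/
private theorem card_rs (D : PlanData Lf B BL) (par : BL → B) (κ : SB) :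
    (Finset.univ.filter fun y => D.rs y = κ).card = ∑ b, D.cb par b κ := by
  rw [Finset.card_eq_sum_card_fiberwise (f := par) (t := Finset.univ)
    (fun x _ => Finset.mem_coe.2 (Finset.mem_univ _))]
  refine Finset.sum_congr rfl fun b _ => ?_
  rw [PlanData.cb, Finset.filter_filter]
  congr 1
  ext y
  simp only [Finset.mem_filter, Finset.mem_univ, true_and]
  tauto

omit [Fintype B] [Fintype BL] [DecidableEq B] in
/-- leaves at path vertices of role `κ` -/
private theorem card_rl (D : PlanData Lf B BL) (hD : LobData k la ba par) (κ : SV) :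
    (Finset.univ.filter fun x => D.rl x = κ).card =
      ∑ i ∈ (Finset.range k).filter (fun i => 1 ≤ i), D.cl la i κ := by
  rw [Finset.card_eq_sum_card_fiberwise (f := la) (t := (Finset.range k).filter (fun i => 1 ≤ i))
    (fun x _ => by
      have h := la_rng' hD x
      simp only [Finset.coe_filter, Finset.mem_range, Set.mem_ofPred_eq]
      exact ⟨h.2, h.1⟩)]
  refine Finset.sum_congr rfl fun i _ => ?_
  rw [PlanData.cl, Finset.filter_filter]
  congr 1
  ext y
  simp only [Finset.mem_filter, Finset.mem_univ, true_and]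
  tauto

omit [Fintype Lf] [Fintype BL] [DecidableEq B] in
private theorem nb_eq (D : PlanData Lf B BL) (ρ : RB) :
    D.nb ρ = ∑ b, if D.rb b = ρ then 1 else 0 := by
  rw [PlanData.nb, Finset.card_filter]

omit [Fintype Lf] [Fintype B] [Fintype BL] [DecidableEq B] in
private theorem nv_eq (D : PlanData Lf B BL) (k : ℕ) (ρ : RV) :
    D.nv k ρ = ∑ i ∈ (Finset.range k).filter (fun i => 1 ≤ i), if D.rv i = ρ then 1 else 0 := by
  rw [PlanData.nv, ← Finset.card_filter, Finset.filter_filter]

theorem n2_le (hD : PlanOK D k la ba par) : D.n2 ≤ D.nb .L := by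
  rw [PlanData.n2, card_rs D par, nb_eq]
  exact Finset.sum_le_sum fun b _ => hD.s_x0 b

omit [Fintype B] [Fintype BL] [DecidableEq B] in
private theorem card_SV (D : PlanData Lf B BL) : Fintype.card Lf =
    (Finset.univ.filter fun x => D.rl x = .l).card + (Finset.univ.filter fun x => D.rl x = .x).card
    + (Finset.univ.filter fun x => D.rl x = .s).card
    + (Finset.univ.filter fun x => D.rl x = .y).card := by
  simp only [Finset.card_filter]
  rw [← Finset.sum_add_distrib, ← Finset.sum_add_distrib, ← Finset.sum_add_distrib,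
    ← Finset.card_univ, Finset.card_eq_sum_ones]
  refine Finset.sum_congr rfl fun x _ => ?_
  cases D.rl x <;> simp

omit [Fintype Lf] [Fintype B] [DecidableEq B] in
private theorem card_SB (D : PlanData Lf B BL) : Fintype.card BL =
    (Finset.univ.filter fun x => D.rs x = .l).card + (Finset.univ.filter fun x => D.rs x = .x).card
    + (Finset.univ.filter fun x => D.rs x = .s ∨ D.rs x = .s0).card
    + (Finset.univ.filter fun x => D.rs x = .u).card
    + (Finset.univ.filter fun x => D.rs x = .v).card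
    + (Finset.univ.filter fun x => D.rs x = .x0).card := by
  simp only [Finset.card_filter]
  rw [← Finset.sum_add_distrib, ← Finset.sum_add_distrib, ← Finset.sum_add_distrib,
    ← Finset.sum_add_distrib, ← Finset.sum_add_distrib, ← Finset.card_univ,
    Finset.card_eq_sum_ones]
  refine Finset.sum_congr rfl fun x _ => ?_
  cases D.rs x <;> simp

omit [Fintype Lf] [Fintype BL] [DecidableEq B] in
private theorem card_RB (D : PlanData Lf B BL) : Fintype.card B =
    D.nb .L + D.nb .st + D.nb .self + D.nb .xo + D.nb .sp + D.nb .tl := by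
  simp only [nb_eq]
  rw [← Finset.sum_add_distrib, ← Finset.sum_add_distrib, ← Finset.sum_add_distrib,
    ← Finset.sum_add_distrib, ← Finset.sum_add_distrib, ← Finset.card_univ,
    Finset.card_eq_sum_ones]
  refine Finset.sum_congr rfl fun x _ => ?_
  cases D.rb x <;> simp

theorem card_all (hD : PlanOK D k la ba par) :
    Fintype.card Lf + Fintype.card B + Fintype.card BL =
      D.ns + D.n2 + D.nv k .As + (D.nv k .A + D.nv k .II + D.nv k .II + D.nv k .I)
      + 2 * D.nb .L + 3 * D.nb .st + 4 * D.nb .self + 4 * D.nb .xo + 5 * D.nb .sp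
      + 3 * D.nb .tl := by
  have hl : (Finset.univ.filter fun x => D.rl x = .l).card = D.nv k .A + D.nv k .II := by
    rw [card_rl D hD.hd, nv_eq, nv_eq, ← Finset.sum_add_distrib]
    refine Finset.sum_congr rfl fun i hi => ?_
    rw [Finset.mem_filter, Finset.mem_range] at hi
    rw [hD.l_l i hi.2 hi.1]
    cases D.rv i <;> simp
  have hx : (Finset.univ.filter fun x => D.rl x = .x).card = D.nv k .II + D.nv k .I := by
    rw [card_rl D hD.hd, nv_eq, nv_eq, ← Finset.sum_add_distrib]
    refine Finset.sum_congr rfl fun i hi => ?_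
    rw [Finset.mem_filter, Finset.mem_range] at hi
    rw [hD.l_x i hi.2 hi.1]
    cases D.rv i <;> simp
  have hy : (Finset.univ.filter fun x => D.rl x = .y).card = D.nv k .As := by
    rw [card_rl D hD.hd, nv_eq]
    refine Finset.sum_congr rfl fun i hi => ?_
    rw [Finset.mem_filter, Finset.mem_range] at hi
    rw [hD.l_y i hi.2 hi.1]
  have bl : (Finset.univ.filter fun y => D.rs y = .l).card =
      D.nb .st + D.nb .self + D.nb .sp + D.nb .tl := by
    rw [card_rs D par, nb_eq, nb_eq, nb_eq, nb_eq, ← Finset.sum_add_distrib,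
      ← Finset.sum_add_distrib, ← Finset.sum_add_distrib]
    refine Finset.sum_congr rfl fun b _ => ?_
    rw [hD.s_l b]
    cases D.rb b <;> simp [RB.hasl]
  have bx : (Finset.univ.filter fun y => D.rs y = .x).card = Fintype.card B := by
    rw [card_rs D par, ← Finset.card_univ, Finset.card_eq_sum_ones]
    exact Finset.sum_congr rfl fun b _ => hD.s_x b
  have bu : (Finset.univ.filter fun y => D.rs y = .u).card = D.nb .xo + D.nb .sp := by
    rw [card_rs D par, nb_eq, nb_eq, ← Finset.sum_add_distrib]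
    refine Finset.sum_congr rfl fun b _ => ?_
    rw [hD.s_u b]
    cases D.rb b <;> simp
  have bv : (Finset.univ.filter fun y => D.rs y = .v).card =
      D.nb .self + D.nb .xo + D.nb .sp := by
    rw [card_rs D par, nb_eq, nb_eq, nb_eq, ← Finset.sum_add_distrib,
      ← Finset.sum_add_distrib]
    refine Finset.sum_congr rfl fun b _ => ?_
    rw [hD.s_v b]
    cases D.rb b <;> simp [RB.pr]
  have hB := card_RB D
  have hLf := card_SV D
  have hBL := card_SB D
  rw [PlanData.ns, PlanData.n2]
  omega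

/-- the number of special vertices -/
private theorem spec (hD : PlanOK D k la ba par) (S : Seam k ld al) {sp : ℕ}
    (hS : PlanSp D k la ba par S.q S.mode sp 0) (hq : S.mode ≠ 0 → 1 ≤ S.q) :
    (sp = 0 ∧ D.nv k .As = 0 ∧ D.nb .tl = 0) ∨ (sp = 1 ∧ D.nv k .As = 1 ∧ D.nb .tl = 0) ∨
      ((sp = 2 ∨ sp = 3) ∧ D.nv k .As = 0 ∧ D.nb .tl = 1) := by
  have hAs : sp ≠ 1 → D.nv k .As = 0 := by
    intro h
    rw [PlanData.nv, Finset.card_eq_zero, Finset.filter_eq_empty_iff]
    rintro i hi ⟨h1, h2⟩
    exact h (hS.As_q i h1 (Finset.mem_range.1 hi) (by omega) h2).2.1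
  have htl : ∀ b, D.rb b = .tl → ba b = S.q ∧ (sp = 2 ∨ sp = 3) := by
    intro b hb
    have h1 := ba_rng' hD.hd b
    have h2 := hS.Fs_q (ba b) h1.1 h1.2 ((hD.b_Fs b).1 hb)
    exact ⟨h2.1, h2.2.1⟩
  have htl0 : sp ≠ 2 → sp ≠ 3 → D.nb .tl = 0 := by
    intro h1 h2
    rw [PlanData.nb, Finset.card_eq_zero, Finset.filter_eq_empty_iff]
    intro b _ hb
    rcases (htl b hb).2 with h | h
    · exact h1 h
    · exact h2 h
  by_cases h0 : sp = 0
  · exact Or.inl ⟨h0, hAs (by omega), htl0 (by omega) (by omega)⟩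
  · have hm : S.mode ≠ 0 := fun h => h0 (hS.m0 h)
    have hq1 := hq hm
    have hq2 := S.hq
    rcases hS.q_sp hm with h | h | h
    · have h1 := (hS.As_q S.q hq1 hq2 (by omega) h).2.1
      refine Or.inr (Or.inl ⟨h1, ?_, htl0 (by omega) (by omega)⟩)
      rw [PlanData.nv, Finset.card_eq_one]
      refine ⟨S.q, ?_⟩
      ext i
      simp only [Finset.mem_filter, Finset.mem_range, Finset.mem_singleton]
      constructor
      · rintro ⟨h2, h3, h4⟩
        exact (hS.As_q i h3 h2 (by omega) h4).1
      · rintro rfl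
        exact ⟨hq2, hq1, h⟩
    · have h1 := (hS.Fs_q S.q hq1 hq2 h).2.1
      refine Or.inr (Or.inr ⟨h1, hAs (by omega), ?_⟩)
      obtain ⟨b, hb⟩ := hD.Fs_ex S.q hq1 hq2 h
      rw [PlanData.nb, Finset.card_eq_one]
      refine ⟨b, ?_⟩
      ext b'
      simp only [Finset.mem_filter, Finset.mem_univ, true_and, Finset.mem_singleton]
      constructor
      · intro h2
        have h3 := (htl b' h2).1
        refine hD.one b' b (by rw [h3, hb]) (Or.inr (Or.inl ?_))
        rw [h3, h]
      · rintro rfl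
        rw [hD.b_Fs, hb, h]
    · exact absurd (hS.FR_q S.q hq1 hq2 h).2.1 h0

theorem nm_odd (hD : PlanOK D k la ba par) (S : Seam k ld al) {sp : ℕ}
    (hS : PlanSp D k la ba par S.q S.mode sp 0) (hq : S.mode ≠ 0 → 1 ≤ S.q) :
    NmOK D (nmOdd S (numOf D k sp) D.ns) k par := by
  have hsp := spec hD S hS hq
  refine
    { e_eq := ?_
      ebt := Or.inl ⟨rfl, rfl⟩
      et_FR := fun h => absurd h (et_ne _)
      N0_eq := ?_
      nT_eq := rfl
      n2_eq := rfl
      Ux_eq := rfl
      tot := ?_
      c0_eq := ?_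
      tl_le := ?_
      Qh := S.Qh
      om_eq := Or.inl rfl
      om_pk := fun h => absurd rfl h
      pk_rng := fun h => absurd rfl h
      s0_rng := ?_
      dl_le := Or.inl rfl
      FR1 := ?_ }
  · simp [nmOdd]
  · simp [nmOdd, numOf]
  · have h1 := card_all hD
    have h2 := S.hk
    have h3 : (if (numOf D k sp).sp = 0 then 0 else 1) = D.nv k .As + D.nb .tl := by
      change (if sp = 0 then 0 else 1) = _
      rcases hsp with ⟨h, h', h''⟩ | ⟨h, h', h''⟩ | ⟨h, h', h''⟩
      · simp [h, h', h'']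
      · simp [h, h', h'']
      · rw [if_neg (by omega)]
        omega
    change wz S (numOf D k sp) + (numOf D k sp).N0 + (numOf D k sp).nT + S.h = _
    rw [wz, h3]
    simp only [numOf, PlanData.nSg, PlanData.nPr]
    omega
  · have h0 : (if (nmOdd S (numOf D k sp) D.ns).om ≠ 0 ∧
        D.rv (nmOdd S (numOf D k sp) D.ns).om = .II then 1 else 0) = 0 :=
      if_neg (fun h => h.1 rfl)
    rw [h0]
    change (if 2 ≤ sp then 1 else 0) = D.nb .tl + 0
    rcases hsp with ⟨h, h', h''⟩ | ⟨h, h', h''⟩ | ⟨h, h', h''⟩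
    · rw [if_neg (by omega), h'']
    · rw [if_neg (by omega), h'']
    · rw [if_pos (by omega), h'']
  · rcases hsp with ⟨h, h', h''⟩ | ⟨h, h', h''⟩ | ⟨h, h', h''⟩ <;> omega
  · intro htl
    obtain ⟨b, hb⟩ : ∃ b, D.rb b = .tl := by
      by_contra hcon
      refine htl ?_
      rw [PlanData.nb, Finset.card_eq_zero, Finset.filter_eq_empty_iff]
      exact fun b _ hb => hcon ⟨b, hb⟩
    have h1 := hD.s_s0 b
    rw [if_pos hb] at h1
    have h2 : 0 < D.cb par b .s0 := by omega
    rw [PlanData.cb, Finset.card_pos] at h2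
    obtain ⟨y, hy⟩ := h2
    rw [Finset.mem_filter] at hy
    have h3 : 0 < (Finset.univ.filter fun y => D.rs y = .s ∨ D.rs y = .s0).card := by
      rw [Finset.card_pos]
      exact ⟨y, Finset.mem_filter.2 ⟨Finset.mem_univ _, Or.inr hy.2.2⟩⟩
    have h4 : 1 ≤ D.ns := by
      rw [PlanData.ns]
      omega
    have h5 : 1 ≤ wz S (numOf D k sp) := by
      rw [wz]
      omega
    simp only [nmOdd]
    omega
  · intro i i' h h' h1 h2 h3 h4
    rw [(hS.FR_q i h1 h2 h).1, (hS.FR_q i' h3 h4 h').1]

theorem adm_odd (hD : PlanOK D k la ba par) (S : Seam k ld al) {sp : ℕ}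
    (hS : PlanSp D k la ba par S.q S.mode sp 0) (hq : S.mode ≠ 0 → 1 ≤ S.q) {j : ℕ}
    (hj : (nmOdd S (numOf D k sp) D.ns).nT + j + (nmOdd S (numOf D k sp) D.ns).c0 ≤
      (nmOdd S (numOf D k sp) D.ns).Ux) :
    Adm S (numOf D k sp) j := by
  have hq2 := S.hq
  refine ⟨?_, hj, hS.m0, ?_, ?_⟩
  · have h := n2_le hD
    simp only [numOf]
    omega
  · intro h1 h2
    have hm : S.mode ≠ 0 := by omega
    have hq1 := hq hm
    simp only [numOf]
    rcases hS.q_sp hm with h | h | h
    · have h3 := (hS.As_q S.q hq1 hq2 (by omega) h).2.1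
      omega
    · have h3 := (hS.Fs_q S.q hq1 hq2 h).2.1
      omega
    · have h3 := (hS.FR_q S.q hq1 hq2 h).2.2
      omega
  · intro h1
    have hm : S.mode ≠ 0 := by omega
    have hq1 := hq hm
    simp only [numOf]
    rcases hS.q_sp hm with h | h | h
    · have h3 := (hS.As_q S.q hq1 hq2 (by omega) h).2.1
      omega
    · have h3 := (hS.Fs_q S.q hq1 hq2 h).2.2.2
      omega
    · have h3 := (hS.FR_q S.q hq1 hq2 h).2.1
      omega

end Pool.Agent.Lob5
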