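import Pool.Agent.Lob5.E4Defs
import Pool.Agent.Lob5.OddNm
import Pool.Agent.Lob5.Cnt

/-!
# Fat end with a static leaf: the numbers

Adapt `OddNm` (`nm_odd`, `adm_odd`, the private lemma `spec`): the plan has `K = k + 1` path
  edges and
`om = k`, the seam belongs to `k`; all statements about vertices `1 ≤ i < k` are as in `OddNm`;
  the
vertex `k = om` has the role `II` (`hom`). `card_all hD` is the count for `K`. `K = 2h+2`,
`N0 = ns + 1 + nSg K + 2 nPr`, the static path edge `K` accounts for the additional unit.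
* `nb tl ≤ 1`, `nv K As + nb tl = [sp ≠ 0]`, `nb tl = [2 ≤ sp]` as in `OddNm` (`om` has role
  `II`, so it is neither
  `As` nor `Fs`; `FR` likewise).
* `c0_eq`: `om ≠ 0` and `rv om = II`. `pk_rng`: second alternative, `e ≥ 1`. `s0_rng`: a bush
  `tl` has a leaf
  `s0` (as in `OddNm`) and `om` has a leaf of role `s` (`hs`), so `ns ≥ 2`, `e ≥ 3`, `(e+1)/2 ≥
  2`.
* `e_ge`: the same counting.
-/

namespace Pool.Agent.Lob5

open Pool.Agent.Lob89

variable {Lf B BL : Type*} [Fintype Lf] [Fintype B] [Fintype BL] [DecidableEq B]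
  {D : PlanData Lf B BL} {k : ℕ} {la : Lf → ℕ} {ba : B → ℕ} {par : BL → B} {ld al : ℕ → Prop}

omit [Fintype B] [Fintype BL] [Fintype Lf] [DecidableEq B] in
private theorem ba_rngE (hD : LobData (k + 1) la ba par) (b : B) : 1 ≤ ba b ∧ ba b < k + 1 := by
  have h1 := hD.ba_pos b
  have h2 := hD.ba_lt b
  omega

theorem e_ge (hD : PlanOK D (k + 1) la ba par) (hs : 1 ≤ D.cl la k .s) :
    1 ≤ D.ns ∧ (D.nb .tl ≠ 0 → 2 ≤ D.ns) := by
  have h0 : 1 ≤ (Finset.univ.filter fun x => D.rl x = .s).card := by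
    have h1 : 0 < D.cl la k .s := by omega
    rw [PlanData.cl, Finset.card_pos] at h1
    obtain ⟨x, hx⟩ := h1
    rw [Finset.mem_filter] at hx
    exact Finset.card_pos.2 ⟨x, Finset.mem_filter.2 ⟨Finset.mem_univ _, hx.2.2⟩⟩
  rw [PlanData.ns]
  refine ⟨by omega, fun htl => ?_⟩
  obtain ⟨b, hb⟩ : ∃ b, D.rb b = .tl := by
    by_contra hcon
    refine htl ?_
    rw [PlanData.nb, Finset.card_eq_zero, Finset.filter_eq_empty_iff]
    exact fun b _ hb => hcon ⟨b, hb⟩
  have h1 := hD.s_s0 b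
  rw [if_pos hb] at h1
  have h2 : 0 < D.cb par b .s0 := by omega
  rw [PlanData.cb, Finset.card_pos] at h2
  obtain ⟨y, hy⟩ := h2
  rw [Finset.mem_filter] at hy
  have h3 : 0 < (Finset.univ.filter fun y => D.rs y = .s ∨ D.rs y = .s0).card := by
    rw [Finset.card_pos]
    exact ⟨y, Finset.mem_filter.2 ⟨Finset.mem_univ _, Or.inr hy.2.2⟩⟩
  omega

/-- the number of special vertices -/
private theorem specE (hD : PlanOK D (k + 1) la ba par) (S : Seam k ld al) {sp : ℕ}
    (hS : PlanSp D (k + 1) la ba par S.q S.mode sp k) (hq : S.mode ≠ 0 → 1 ≤ S.q)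
    (hom : D.rv k = .II) :
    (sp = 0 ∧ D.nv (k + 1) .As = 0 ∧ D.nb .tl = 0) ∨
      (sp = 1 ∧ D.nv (k + 1) .As = 1 ∧ D.nb .tl = 0) ∨
      ((sp = 2 ∨ sp = 3) ∧ D.nv (k + 1) .As = 0 ∧ D.nb .tl = 1) := by
  have hne : ∀ i, D.rv i = .As → i ≠ k := by
    rintro i h rfl
    rw [hom] at h
    exact absurd h (by decide)
  have hAs : sp ≠ 1 → D.nv (k + 1) .As = 0 := by
    intro h
    rw [PlanData.nv, Finset.card_eq_zero, Finset.filter_eq_empty_iff]
    rintro i hi ⟨h1, h2⟩
    exact h (hS.As_q i h1 (Finset.mem_range.1 hi) (hne i h2) h2).2.1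
  have htl : ∀ b, D.rb b = .tl → ba b = S.q ∧ (sp = 2 ∨ sp = 3) := by
    intro b hb
    have h1 := ba_rngE hD.hd b
    have h2 := hS.Fs_q (ba b) h1.1 h1.2 ((hD.b_Fs b).1 hb)
    exact ⟨h2.1, h2.2.1⟩
  have htl0 : sp ≠ 2 → sp ≠ 3 → D.nb .tl = 0 := by
    intro h1 h2
    rw [PlanData.nb, Finset.card_eq_zero, Finset.filter_eq_empty_iff]
    intro b _ hb
    rcases (htl b hb).2 with h | h
    · exact h1 h
    · exact h2 h
  by_cases h0 : sp = 0
  · exact Or.inl ⟨h0, hAs (by omega), htl0 (by omega) (by omega)⟩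
  · have hm : S.mode ≠ 0 := fun h => h0 (hS.m0 h)
    have hq1 := hq hm
    have hq0 := S.hq
    have hq2 : S.q < k + 1 := by omega
    rcases hS.q_sp hm with h | h | h
    · have h1 := (hS.As_q S.q hq1 hq2 (by omega) h).2.1
      refine Or.inr (Or.inl ⟨h1, ?_, htl0 (by omega) (by omega)⟩)
      rw [PlanData.nv, Finset.card_eq_one]
      refine ⟨S.q, ?_⟩
      ext i
      simp only [Finset.mem_filter, Finset.mem_range, Finset.mem_singleton]
      constructor
      · rintro ⟨h2, h3, h4⟩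
        exact (hS.As_q i h3 h2 (hne i h4) h4).1
      · rintro rfl
        exact ⟨hq2, hq1, h⟩
    · have h1 := (hS.Fs_q S.q hq1 hq2 h).2.1
      refine Or.inr (Or.inr ⟨h1, hAs (by omega), ?_⟩)
      obtain ⟨b, hb⟩ := hD.Fs_ex S.q hq1 hq2 h
      rw [PlanData.nb, Finset.card_eq_one]
      refine ⟨b, ?_⟩
      ext b'
      simp only [Finset.mem_filter, Finset.mem_univ, true_and, Finset.mem_singleton]
      constructor
      · intro h2
        have h3 := (htl b' h2).1
        refine hD.one b' b (by rw [h3, hb]) (Or.inr (Or.inl ?_))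
        rw [h3, h]
      · rintro rfl
        rw [hD.b_Fs, hb, h]
    · exact absurd (hS.FR_q S.q hq1 hq2 h).2.1 h0

theorem nm_e4 (hD : PlanOK D (k + 1) la ba par) (S : Seam k ld al) {sp : ℕ}
    (hS : PlanSp D (k + 1) la ba par S.q S.mode sp k) (hq : S.mode ≠ 0 → 1 ≤ S.q)
    (hom : D.rv k = .II) (hs : 1 ≤ D.cl la k .s) :
    NmOK D (nmE4 S (numE D (k + 1) sp) (D.ns + 1)) (k + 1) par := by
  have hsp := specE hD S hS hq hom
  have hge := e_ge hD hs
  have hw : 1 ≤ wz S (numE D (k + 1) sp) := by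
    rw [wz]
    omega
  have hk := S.hk
  have hpk : (nmE4 S (numE D (k + 1) sp) (D.ns + 1)).pk ≠ 0 := by
    change wz S (numE D (k + 1) sp) + (numE D (k + 1) sp).N0 ≠ 0
    omega
  refine
    { e_eq := ?_
      ebt := Or.inl ⟨rfl, rfl⟩
      et_FR := fun h => absurd h (et_ne _)
      N0_eq := ?_
      nT_eq := rfl
      n2_eq := rfl
      Ux_eq := rfl
      tot := ?_
      c0_eq := ?_
      tl_le := ?_
      Qh := S.Qh
      om_eq := Or.inr ⟨rfl, by have := S.hk; omega⟩
      om_pk := fun _ _ => hpk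
      pk_rng := fun _ => Or.inr ?_
      s0_rng := ?_
      dl_le := Or.inl rfl
      FR1 := ?_ }
  · rw [if_neg hpk]
    rfl
  · rfl
  · have h1 := card_all hD
    have h3 : (if (numE D (k + 1) sp).sp = 0 then 0 else 1) =
        D.nv (k + 1) .As + D.nb .tl := by
      change (if sp = 0 then 0 else 1) = _
      rcases hsp with ⟨h, h', h''⟩ | ⟨h, h', h''⟩ | ⟨h, h', h''⟩
      · simp [h, h', h'']
      · simp [h, h', h'']
      · rw [if_neg (by omega)]
        omega
    change wz S (numE D (k + 1) sp) + (numE D (k + 1) sp).N0 + (numE D (k + 1) sp).nT + S.h = _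
    rw [wz, h3]
    simp only [numE, numOf, PlanData.nSg, PlanData.nPr]
    omega
  · have h0 : (if (nmE4 S (numE D (k + 1) sp) (D.ns + 1)).om ≠ 0 ∧
        D.rv (nmE4 S (numE D (k + 1) sp) (D.ns + 1)).om = .II then 1 else 0) = 1 := by
      refine if_pos ⟨?_, hom⟩
      change k ≠ 0
      omega
    rw [h0]
    change 1 + (if 2 ≤ sp then 1 else 0) = D.nb .tl + 1
    rcases hsp with ⟨h, h', h''⟩ | ⟨h, h', h''⟩ | ⟨h, h', h''⟩
    · rw [if_neg (by omega), h'']
    · rw [if_neg (by omega), h'']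
    · rw [if_pos (by omega), h'']
  · rcases hsp with ⟨h, h', h''⟩ | ⟨h, h', h''⟩ | ⟨h, h', h''⟩ <;> omega
  · simp only [nmE4]
    omega
  · intro htl
    have h2 := hge.2 htl
    simp only [nmE4]
    omega
  · intro i i' h h' h1 h2 h3 h4
    rw [(hS.FR_q i h1 h2 h).1, (hS.FR_q i' h3 h4 h').1]

theorem adm_e4 (hD : PlanOK D (k + 1) la ba par) (S : Seam k ld al) {sp : ℕ}
    (hS : PlanSp D (k + 1) la ba par S.q S.mode sp k) (hq : S.mode ≠ 0 → 1 ≤ S.q) {j : ℕ}
    (hj : (nmE4 S (numE D (k + 1) sp) (D.ns + 1)).nT + j + (nmE4 S (numE D (k + 1) sp) (D.ns + 1)).c0 ≤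
      (nmE4 S (numE D (k + 1) sp) (D.ns + 1)).Ux) :
    Adm S (numE D (k + 1) sp) j := by
  have hq0 := S.hq
  have hq2 : S.q < k + 1 := by omega
  refine ⟨?_, ?_, hS.m0, ?_, ?_⟩
  · have h := n2_le hD
    simp only [numE, numOf]
    omega
  · simp only [nmE4] at hj
    omega
  · intro h1 h2
    have hm : S.mode ≠ 0 := by omega
    have hq1 := hq hm
    simp only [numE, numOf]
    rcases hS.q_sp hm with h | h | h
    · have h3 := (hS.As_q S.q hq1 hq2 (by omega) h).2.1
      omega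
    · have h3 := (hS.Fs_q S.q hq1 hq2 h).2.1
      omega
    · have h3 := (hS.FR_q S.q hq1 hq2 h).2.2
      omega
  · intro h1
    have hm : S.mode ≠ 0 := by omega
    have hq1 := hq hm
    simp only [numE, numOf]
    rcases hS.q_sp hm with h | h | h
    · have h3 := (hS.As_q S.q hq1 hq2 (by omega) h).2.1
      omega
    · have h3 := (hS.Fs_q S.q hq1 hq2 h).2.2.2
      omega
    · have h3 := (hS.FR_q S.q hq1 hq2 h).2.1
      omega

end Pool.Agent.Lob5
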