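import Pool.Agent.Lob5.Sweep
import Pool.Agent.Lob89.Defs

/-!
# Filling in the labels: definitions

Every edge (slot) which is not a path edge gets a kind.
* leaves at path vertices (`Lf`): `fix` (its label is already fixed), `l` (the `l`-label of its path
  vertex), `x` (the `X`-label of its path vertex), `g` (path vertex of the greedy group);
* tops (`B`, the edge between path vertex and bush centre): `fix`, or `lu`: it is the `l`-label of
  the path vertex and at the same time the first label `u` of the pair of the bush;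
* bush leaves (`BL`): `fix`, `l`, `x`, `g` (for the node bush), `u`, `v` (labels of its pair).

Nodes are `Sum.inl i` (path vertex) and `Sum.inr b` (bush centre). `E`: nodes with an `l`- or an
`x`-label, they are the elements of the sweep. `G`: nodes of the greedy group, they have one
`g`-slot and no `l, x`. All other path vertices have fixed sums.
-/

namespace Pool.Agent.Lob5

open Pool.Agent.Lob89

/-- kinds of leaves at path vertices -/
inductive KL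
  | fix
  | l
  | x
  | g
  deriving DecidableEq

/-- kinds of tops -/
inductive KT
  | fix
  | lu
  deriving DecidableEq

/-- kinds of bush leaves -/
inductive KB
  | fix
  | l
  | x
  | g
  | u
  | v
  deriving DecidableEq

/-- The data. -/
structure FillData (Lf B BL : Type*) where
  kl : Lf → KL
  kt : B → KT
  kb : BL → KB
  fl0 : Lf → ℕ
  ft0 : B → ℕ
  fb0 : BL → ℕ
  p : ℕ → ℕ
  X : ℕ → ℕ
  U : ℕ
  lo : ℕ
  hi : ℕ
  be : ℕ
  thr : ℕ
  g0 : ℕ
  g1 : ℕ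
  l : ℕ ⊕ B → Bool
  x : ℕ ⊕ B → Bool
  pf : ℕ ⊕ B → Bool
  pr : B → Bool
  pp : ℕ → Option B
  E : Finset (ℕ ⊕ B)
  G : Finset (ℕ ⊕ B)
  Z : Finset ℤ
  R : Finset ℤ
  tk : ℤ → Option B
  tk' : ℤ → Option B

/-- the owner of a pair -/
def own {B : Type*} : Option B → ℕ ⊕ B
  | some b => Sum.inr b
  | none => Sum.inl 0

namespace FillData

variable {Lf B BL : Type*} [Fintype Lf] [Fintype B] [Fintype BL] [DecidableEq B]

/-- the pair of a node -/
def ppf (F : FillData Lf B BL) : ℕ ⊕ B → Option B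
  | Sum.inl i => F.pp i
  | Sum.inr _ => none

/-- the set of all pairs -/
def Pi (F : FillData Lf B BL) : Finset (Option B) :=
  (Finset.univ.filter fun b => F.pr b = true).image some

/-- the sum of all labels at the node which are already fixed -/
def W0 (F : FillData Lf B BL) (k : ℕ) (la : Lf → ℕ) (ba : B → ℕ) (par : BL → B) : ℕ ⊕ B → ℕ
  | Sum.inl i => (if 1 ≤ i then F.p i else 0) + (if i < k then F.p (i + 1) else 0)
      + (∑ x, if la x = i ∧ F.kl x = KL.fix then F.fl0 x else 0)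
      + ∑ b, if ba b = i ∧ F.kt b = KT.fix then F.ft0 b else 0
  | Sum.inr b => (if F.kt b = KT.fix then F.ft0 b else 0)
      + ∑ y, if par y = b ∧ F.kb y = KB.fix then F.fb0 y else 0

/-- twice the mean of the pairs -/
def K (F : FillData Lf B BL) : ℤ := F.lo + F.hi + (nS F.l F.pf F.E % 2 : ℕ)

/-- the weights for the sweep: the owner of a pair gets the sum `K` of its pair -/
def W (F : FillData Lf B BL) (k : ℕ) (la : Lf → ℕ) (ba : B → ℕ) (par : BL → B) (n : ℕ ⊕ B) : ℤ :=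
  F.W0 k la ba par n + (match n with
    | Sum.inl _ => 0
    | Sum.inr b => if F.pr b then F.K else 0)

/-- the slots with fixed labels -/
def isFix (F : FillData Lf B BL) (k : ℕ) : Fin k ⊕ (Lf ⊕ (B ⊕ BL)) → Prop :=
  Sum.elim (fun _ => True) (Sum.elim (fun x => F.kl x = KL.fix)
    (Sum.elim (fun b => F.kt b = KT.fix) (fun y => F.kb y = KB.fix)))

end FillData

/-- Hypotheses: the slots of a node and the sets of nodes. -/
structure FillSlots {Lf B BL : Type*} [Fintype Lf] [Fintype B] [Fintype BL] [DecidableEq B]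
    (F : FillData Lf B BL) (k : ℕ) (la : Lf → ℕ) (ba : B → ℕ) (par : BL → B) : Prop where
  v_l : ∀ i, 1 ≤ i → i < k → (Finset.univ.filter fun x => la x = i ∧ F.kl x = KL.l).card
    + (Finset.univ.filter fun b => ba b = i ∧ F.kt b = KT.lu).card = if F.l (Sum.inl i) then 1 else 0
  v_x : ∀ i, 1 ≤ i → i < k → (Finset.univ.filter fun x => la x = i ∧ F.kl x = KL.x).card
    = if F.x (Sum.inl i) then 1 else 0
  v_g : ∀ i, 1 ≤ i → i < k → (Finset.univ.filter fun x => la x = i ∧ F.kl x = KL.g).card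
    = if Sum.inl i ∈ F.G then 1 else 0
  b_l : ∀ b, (Finset.univ.filter fun y => par y = b ∧ F.kb y = KB.l).card
    = if F.l (Sum.inr b) then 1 else 0
  b_x : ∀ b, (Finset.univ.filter fun y => par y = b ∧ F.kb y = KB.x).card
    = if F.x (Sum.inr b) then 1 else 0
  b_g : ∀ b, (Finset.univ.filter fun y => par y = b ∧ F.kb y = KB.g).card
    = if Sum.inr b ∈ F.G then 1 else 0
  b_u : ∀ b, (Finset.univ.filter fun y => par y = b ∧ F.kb y = KB.u).card
    = if F.pr b = true ∧ F.kt b = KT.fix then 1 else 0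
  b_v : ∀ b, (Finset.univ.filter fun y => par y = b ∧ F.kb y = KB.v).card
    = if F.pr b = true then 1 else 0
  lu_pr : ∀ b, F.kt b = KT.lu → F.pr b = true
  pf_v : ∀ i, 1 ≤ i → i < k → (F.pf (Sum.inl i) = true ↔ ∃ b, ba b = i ∧ F.kt b = KT.lu)
  pf_b : ∀ b, F.pf (Sum.inr b) = false
  pp_v : ∀ b, F.kt b = KT.lu → F.pp (ba b) = some b
  -- the sets of nodes
  E_v : ∀ i, Sum.inl i ∈ F.E ↔ 1 ≤ i ∧ i < k ∧ (F.l (Sum.inl i) = true ∨ F.x (Sum.inl i) = true)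
  E_b : ∀ b, Sum.inr b ∈ F.E ↔ F.l (Sum.inr b) = true ∨ F.x (Sum.inr b) = true
  G_v : ∀ i, Sum.inl i ∈ F.G → 1 ≤ i ∧ i < k ∧ Sum.inl i ∉ F.E
  G_b : ∀ b, Sum.inr b ∈ F.G → Sum.inr b ∉ F.E ∧ F.pr b = false
  EG_b : ∀ b, Sum.inr b ∈ F.E ∨ Sum.inr b ∈ F.G
  pr_E : ∀ b, F.pr b = true → Sum.inr b ∈ F.E

/-- Hypotheses: the labels. -/
structure FillLabs {Lf B BL : Type*} [Fintype Lf] [Fintype B] [Fintype BL] [DecidableEq B]
    (F : FillData Lf B BL) (k : ℕ) (la : Lf → ℕ) (ba : B → ℕ) (par : BL → B) : Prop where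
  fix_inj : ∀ s t, F.isFix k s → F.isFix k t →
    labels (k := k) F.p F.fl0 F.ft0 F.fb0 s = labels (k := k) F.p F.fl0 F.ft0 F.fb0 t → s = t
  fix_pos : ∀ s, F.isFix k s → 1 ≤ labels (k := k) F.p F.fl0 F.ft0 F.fb0 s
  fix_le : ∀ s, F.isFix k s → labels (k := k) F.p F.fl0 F.ft0 F.fb0 s ≤
    k + Fintype.card Lf + Fintype.card B + Fintype.card BL
  fix_mid : ∀ s, F.isFix k s → labels (k := k) F.p F.fl0 F.ft0 F.fb0 s < F.lo ∨
    F.hi < labels (k := k) F.p F.fl0 F.ft0 F.fb0 s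
  fix_X : ∀ s, F.isFix k s → ∀ i, 1 ≤ i → i ≤ F.U →
    labels (k := k) F.p F.fl0 F.ft0 F.fb0 s ≠ F.X i
  X_mono : StrictMono F.X
  X_lo : ∀ i, i ≤ F.U → F.X i < F.lo
  hi_be : F.hi ≤ F.be
  lo_be : F.lo ≤ F.be + 1
  be_le : F.be ≤ k + Fintype.card Lf + Fintype.card B + Fintype.card BL
  p_one : F.p 1 ≤ F.be
  p_last : F.p k ≤ F.be
  fl_be : ∀ x, F.kl x = KL.fix → F.fl0 x ≤ F.be
  fb_be : ∀ y, F.kb y = KB.fix → F.fb0 y ≤ F.be

/-- Hypotheses: the nodes with fixed sums. -/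
structure FillFx {Lf B BL : Type*} [Fintype Lf] [Fintype B] [Fintype BL] [DecidableEq B]
    (F : FillData Lf B BL) (k : ℕ) (la : Lf → ℕ) (ba : B → ℕ) (par : BL → B) : Prop where
  fx_inj : ∀ i j, 1 ≤ i → i < k → 1 ≤ j → j < k → Sum.inl i ∉ F.E → Sum.inl i ∉ F.G →
    Sum.inl j ∉ F.E → Sum.inl j ∉ F.G → F.W0 k la ba par (Sum.inl i) = F.W0 k la ba par (Sum.inl j) →
    i = j
  fx_be : ∀ i, 1 ≤ i → i < k → Sum.inl i ∉ F.E → Sum.inl i ∉ F.G →
    F.be < F.W0 k la ba par (Sum.inl i) ∨ ∃ e, 2 ≤ e ∧ e < k ∧ F.W0 k la ba par (Sum.inl i) = F.p e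
  fx_g : ∀ i, 1 ≤ i → i < k → Sum.inl i ∉ F.E → Sum.inl i ∉ F.G → 1 ≤ F.U →
    F.W0 k la ba par (Sum.inl i) < F.g0 + F.X 1 ∨ F.g1 + F.X F.U < F.W0 k la ba par (Sum.inl i)
  fx_thr : ∀ i, 1 ≤ i → i < k → Sum.inl i ∉ F.E → Sum.inl i ∉ F.G →
    F.W0 k la ba par (Sum.inl i) ≤ F.thr ∨ (F.W0 k la ba par (Sum.inl i) : ℤ) ∈ F.Z ∪ F.R

/-- Hypotheses: the greedy group. -/
structure FillGr {Lf B BL : Type*} [Fintype Lf] [Fintype B] [Fintype BL] [DecidableEq B]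
    (F : FillData Lf B BL) (k : ℕ) (la : Lf → ℕ) (ba : B → ℕ) (par : BL → B) : Prop where
  g_rng : ∀ n ∈ F.G, F.g0 ≤ F.W0 k la ba par n ∧ F.W0 k la ba par n ≤ F.g1
  g_be : 1 ≤ F.U → F.be < F.g0 + F.X 1
  g_thr : 1 ≤ F.U → F.g1 + F.X F.U ≤ F.thr
  g_card : nX F.x F.E + F.G.card ≤ F.U
  be_thr : F.be ≤ F.thr

/-- Hypotheses: the sweep. -/
structure FillSw {Lf B BL : Type*} [Fintype Lf] [Fintype B] [Fintype BL] [DecidableEq B]
    (F : FillData Lf B BL) (k : ℕ) (la : Lf → ℕ) (ba : B → ℕ) (par : BL → B) : Prop where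
  H : SweepHyp F.l F.x F.pf F.ppf (F.W k la ba par) (fun i => (F.X i : ℤ)) F.E F.Pi F.lo F.hi
    1 F.U F.Z F.R
  lu_l : ∀ b, F.kt b = KT.lu → F.l (Sum.inr b) = true
  tk_mem : ∀ s ∈ F.R, F.tk s ∈ F.Pi ∧ ∀ e ∈ F.E, F.pf e = true → F.ppf e ≠ F.tk s
  tk_inj : ∀ s ∈ F.R, ∀ s' ∈ F.R, F.tk s = F.tk s' → s = s'
  h2' : Odd (nS F.l F.pf F.E) → ∀ f ∈ F.E, F.x f = true → F.l f = false → ∀ s ∈ F.R,
    ∀ i, 1 ≤ i → i ≤ F.U → F.W k la ba par f - 1 + F.X i ≠ s
  h4 : Odd (nS F.l F.pf F.E) → ∀ s ∈ F.R,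
    (s < F.W k la ba par (own (F.tk s)) - 1 + bz (F.l (own (F.tk s))) F.lo
      + bz (F.x (own (F.tk s))) (F.X 1)) ∨
    (∃ d ∈ F.E, F.l d = true ∧ F.pf d = false ∧ F.W k la ba par d + (F.lo + F.Pi.card)
      + bz (F.x d) (F.X (min F.U (1 + F.Z.card + (F.E.filter fun e => F.x e = true ∧
        ¬ (F.l e = true ∧ F.pf e = false)).card))) < s) ∨
    (F.l (own (F.tk s)) = true ∧ F.tk' s ∈ F.Pi ∧ F.l (own (F.tk' s)) = true ∧
      F.tk' s ≠ F.tk s ∧ (∀ e ∈ F.E, F.pf e = true → F.ppf e ≠ F.tk' s) ∧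
      ∀ s' ∈ F.R, F.tk' s ≠ F.tk s' ∧ (F.tk' s = F.tk' s' → s = s'))

/-- Hypotheses: lower bound for the elements. -/
structure FillLB {Lf B BL : Type*} [Fintype Lf] [Fintype B] [Fintype BL] [DecidableEq B]
    (F : FillData Lf B BL) (k : ℕ) (la : Lf → ℕ) (ba : B → ℕ) (par : BL → B) : Prop where
  LB : ∀ e ∈ F.E, (F.thr : ℤ) < F.W k la ba par e + bz (F.l e) F.lo + bz (F.x e) (F.X 1)
    - bz (! F.l e) (nS F.l F.pf F.E % 2 : ℕ)

/-- The hypotheses. -/
structure FillOK {Lf B BL : Type*} [Fintype Lf] [Fintype B] [Fintype BL] [DecidableEq B]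
    (F : FillData Lf B BL) (k : ℕ) (la : Lf → ℕ) (ba : B → ℕ) (par : BL → B) : Prop
    extends FillSlots F k la ba par, FillLabs F k la ba par, FillFx F k la ba par,
      FillGr F k la ba par, FillSw F k la ba par, FillLB F k la ba par where
  hd : LobData k la ba par

section labels

variable {Lf B BL : Type*} (F : FillData Lf B BL) (la : Lf → ℕ) (ba : B → ℕ)
  (par : BL → B) (lab : ℕ ⊕ B → ℤ) (xi gi : ℕ ⊕ B → ℕ) (u v : Option B → ℤ)

/-- the final label of a leaf -/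
def flF (x : Lf) : ℕ :=
  match F.kl x with
  | KL.fix => F.fl0 x
  | KL.l => (lab (Sum.inl (la x))).toNat
  | KL.x => F.X (xi (Sum.inl (la x)))
  | KL.g => F.X (gi (Sum.inl (la x)))

/-- the final label of a top -/
def ftF (b : B) : ℕ :=
  match F.kt b with
  | KT.fix => F.ft0 b
  | KT.lu => (lab (Sum.inl (ba b))).toNat

/-- the final label of a bush leaf -/
def fbF (y : BL) : ℕ :=
  match F.kb y with
  | KB.fix => F.fb0 y
  | KB.l => (lab (Sum.inr (par y))).toNat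
  | KB.x => F.X (xi (Sum.inr (par y)))
  | KB.g => F.X (gi (Sum.inr (par y)))
  | KB.u => (u (some (par y))).toNat
  | KB.v => (v (some (par y))).toNat

end labels

/-- The result of the sweep and of the greedy step. -/
structure FillRes {Lf B BL : Type*} [Fintype Lf] [Fintype B] [Fintype BL] [DecidableEq B]
    (F : FillData Lf B BL) (k : ℕ) (la : Lf → ℕ) (ba : B → ℕ) (par : BL → B)
    (lab : ℕ ⊕ B → ℤ) (xi gi : ℕ ⊕ B → ℕ) (u v : Option B → ℤ) : Prop where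
  P : Placed F.l F.x F.pf F.ppf F.E F.Pi F.lo F.hi 1 F.U lab xi u v
  gi_mem : ∀ n ∈ F.G, 1 ≤ gi n ∧ gi n ≤ F.U
  gi_inj : ∀ n ∈ F.G, ∀ n' ∈ F.G, gi n = gi n' → n = n'
  gi_xi : ∀ n ∈ F.G, ∀ e ∈ F.E, F.x e = true → gi n ≠ xi e
  val_inj : ∀ e ∈ F.E, ∀ f ∈ F.E,
    valK F.l F.x (F.W k la ba par) (fun i => (F.X i : ℤ)) own F.Pi F.K lab xi u v e =
    valK F.l F.x (F.W k la ba par) (fun i => (F.X i : ℤ)) own F.Pi F.K lab xi u v f → e = f
  val_ZR : ∀ e ∈ F.E,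
    valK F.l F.x (F.W k la ba par) (fun i => (F.X i : ℤ)) own F.Pi F.K lab xi u v e ∉ F.Z ∪ F.R
  val_thr : ∀ e ∈ F.E, (F.thr : ℤ) <
    valK F.l F.x (F.W k la ba par) (fun i => (F.X i : ℤ)) own F.Pi F.K lab xi u v e
  g_inj : ∀ n ∈ F.G, ∀ n' ∈ F.G, F.W0 k la ba par n + F.X (gi n) =
    F.W0 k la ba par n' + F.X (gi n') → n = n'

end Pool.Agent.Lob5
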