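import Pool.Agent.Lob5.Gen
import Pool.Agent.Lob5.FillDefs

/-!
# Configurations: all labels except those of the sweep and of the greedy group

`σ`: static labels (leaves of roles `s`, `s0`); `τ b`: the top of a bush with `T` top has the label
`w+N0+Q+τ b`; `ξ b`: the label `X0` of the second leaf of a bush of role `L`; `Low`: the nodes which
get low labels, the `x`-label of such a node `n` is `s1+n2+lw n`.
`mkFill`: the data for the filling theorem.
-/

namespace Pool.Agent.Lob5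

open Pool.Agent.Lob89

/-- the choices -/
structure Cfg (Lf B BL : Type*) where
  σ : Lf ⊕ BL → ℕ
  τ : B → ℕ
  ξ : B → ℕ
  Low : Finset (ℕ ⊕ B)
  lw : ℕ ⊕ B → ℕ

/-- vertices with an `l`-label -/
def RV.hasl : RV → Bool
  | .A => true
  | .F => true
  | .II => true
  | .I => true
  | _ => false

section

variable {Lf B BL : Type*} [Fintype Lf] [Fintype B] [Fintype BL] [DecidableEq B]

/-- base, static leaves and `T` tops at a node -/
def W00 (D : PlanData Lf B BL) (N : Nm) (Y : Ly) (c : Cfg Lf B BL) (la : Lf → ℕ) (ba : B → ℕ)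
    (par : BL → B) : ℕ ⊕ B → ℕ
  | Sum.inl i => Y.bs i + (∑ x, if la x = i ∧ D.rl x = .s then c.σ (Sum.inl x) else 0)
      + ∑ b, if ba b = i ∧ (D.rb b).top = true then N.w + N.N0 + N.Q + c.τ b else 0
  | Sum.inr b => (if (D.rb b).top = true then N.w + N.N0 + N.Q + c.τ b else 0)
      + ∑ y, if par y = b ∧ D.rs y = .s then c.σ (Sum.inr y) else 0

/-- the sum of the labels of a pair -/
def Kc (D : PlanData Lf B BL) (N : Nm) (k : ℕ) : ℕ :=
  (N.w + N.eb + 1) + (N.w + N.N0 - N.et) + D.nSg k % 2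

/-- the static vertices whose sum must be avoided with an `X` label -/
def ZF (D : PlanData Lf B BL) (N : Nm) (Y : Ly) (c : Cfg Lf B BL) (k : ℕ) (la : Lf → ℕ)
    (ba : B → ℕ) (par : BL → B) : Finset ℤ :=
  ((Finset.range k).filter fun i => 1 ≤ i ∧ D.rv i = .Z).image
    fun i => (W00 D N Y c la ba par (Sum.inl i) : ℤ)

/-- the static vertices whose sum must be avoided with a pair -/
def RF (D : PlanData Lf B BL) (N : Nm) (Y : Ly) (c : Cfg Lf B BL) (k : ℕ) (la : Lf → ℕ)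
    (ba : B → ℕ) (par : BL → B) : Finset ℤ :=
  ((Finset.range k).filter fun i => 1 ≤ i ∧ (D.rv i = .R3 ∨ D.rv i = .R4 ∨ D.rv i = .FR)).image
    fun i => (W00 D N Y c la ba par (Sum.inl i) : ℤ)

open Classical in
/-- the vertex with static sum `s` -/
noncomputable def vtx (D : PlanData Lf B BL) (N : Nm) (Y : Ly) (c : Cfg Lf B BL) (k : ℕ)
    (la : Lf → ℕ) (ba : B → ℕ) (par : BL → B) (s : ℤ) : ℕ :=
  if h : ∃ i, (1 ≤ i ∧ i < k ∧ (D.rv i = .R3 ∨ D.rv i = .R4 ∨ D.rv i = .FR)) ∧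
    (W00 D N Y c la ba par (Sum.inl i) : ℤ) = s then h.choose else 0

/-- the data for the filling theorem -/
noncomputable def mkFill (D : PlanData Lf B BL) (N : Nm) (Y : Ly) (c : Cfg Lf B BL) (k : ℕ)
    (la : Lf → ℕ) (ba : B → ℕ) (par : BL → B) : FillData Lf B BL where
  kl x := match D.rl x with
    | .l => .l
    | .x => if Sum.inl (la x) ∈ c.Low ∨ (la x = N.om ∧ Y.xf (la x) = true) then .fix else .x
    | .s => .fix
    | .y => if Y.lg (la x) then .g else .fix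
  kt b := if D.rb b = .self then .lu else .fix
  kb y := match D.rs y with
    | .l => .l
    | .x => if D.rb (par y) = .L then .g
      else if Sum.inr (par y) ∈ c.Low ∨ (D.rb (par y) = .tl ∧ Y.xf (ba (par y)) = true) then .fix
      else .x
    | .s => .fix
    | .s0 => .fix
    | .u => .u
    | .v => .v
    | .x0 => .fix
  fl0 x := match D.rl x with
    | .l => 0
    | .x => if Sum.inl (la x) ∈ c.Low then N.s1 + N.n2 + c.lw (Sum.inl (la x)) else Y.xv (la x)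
    | .s => c.σ (Sum.inl x)
    | .y => Y.yv (la x)
  ft0 b := if D.rb b = .tl then Y.yv (ba b) else N.w + N.N0 + N.Q + c.τ b
  fb0 y := match D.rs y with
    | .x => if Sum.inr (par y) ∈ c.Low then N.s1 + N.n2 + c.lw (Sum.inr (par y))
      else Y.xv (ba (par y))
    | .s => c.σ (Sum.inr y)
    | .s0 => c.σ (Sum.inr y)
    | .x0 => c.ξ (par y)
    | _ => 0
  p := Y.p
  X := Y.X
  U := Y.U
  lo := N.w + N.eb + 1
  hi := N.w + N.N0 - N.et
  be := Y.be
  thr := Y.thr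
  g0 := N.w + N.N0 + N.Q + 1
  g1 := N.g1
  l := Sum.elim (fun i => (D.rv i).hasl) (fun b => (D.rb b).hasl)
  x := Sum.elim
    (fun i => decide ((D.rv i = .II ∨ D.rv i = .I) ∧ Sum.inl i ∉ c.Low) &&
      ! (decide (i = N.om) && Y.xf i))
    (fun b => decide (D.rb b ≠ .L ∧ Sum.inr b ∉ c.Low) && ! (decide (D.rb b = .tl) && Y.xf (ba b)))
  pf := Sum.elim (fun i => decide (D.rv i = .F ∨ D.rv i = .I)) (fun _ => false)
  pr b := (D.rb b).pr
  pp := D.sf
  E := ((Finset.range k).filter fun i => 1 ≤ i ∧ (D.rv i).hasl = true).disjSum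
    (Finset.univ.filter fun b => D.rb b ≠ .L)
  G := ((Finset.range k).filter fun i => 1 ≤ i ∧ D.rv i = .As ∧ Y.lg i = true).disjSum
    (Finset.univ.filter fun b => D.rb b = .L)
  Z := ZF D N Y c k la ba par
  R := RF D N Y c k la ba par
  tk s := D.t1 (vtx D N Y c k la ba par s)
  tk' s := D.t2 (vtx D N Y c k la ba par s)

/-- slots with static labels -/
def PlanData.stat (D : PlanData Lf B BL) : Lf ⊕ BL → Prop :=
  Sum.elim (fun x => D.rl x = .s) (fun y => D.rs y = .s ∨ D.rs y = .s0)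

/-- candidates for low labels -/
def PlanData.cand (D : PlanData Lf B BL) (N : Nm) (k : ℕ) : ℕ ⊕ B → Prop :=
  Sum.elim (fun i => 1 ≤ i ∧ i < k ∧ (D.rv i = .II ∨ D.rv i = .I) ∧ i ≠ N.om ∧ N.cd i)
    (fun b => D.rb b = .self)

/-- weight of a candidate -/
def cW (D : PlanData Lf B BL) (N : Nm) (Y : Ly) (c : Cfg Lf B BL) (k : ℕ) (la : Lf → ℕ)
    (ba : B → ℕ) (par : BL → B) (n : ℕ ⊕ B) : ℕ :=
  W00 D N Y c la ba par n + Sum.elim (fun _ => 0) (fun _ => Kc D N k) n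

/-- the static labels are chosen correctly -/
structure SigOK (D : PlanData Lf B BL) (N : Nm) (σ : Lf ⊕ BL → ℕ) : Prop where
  rng : ∀ s, D.stat s → (N.w < σ s ∧ σ s ≤ N.w + N.eb) ∨
    (N.w + N.N0 < σ s + N.et ∧ σ s ≤ N.w + N.N0)
  inj : ∀ s t, D.stat s → D.stat t → σ s = σ t → s = t
  s0 : ∀ y, D.rs y = .s0 → σ (Sum.inr y) = N.s0v
  pk : ∀ s, D.stat s → σ s ≠ N.pk

/-- the tops are chosen correctly -/
structure TauOK (D : PlanData Lf B BL) (N : Nm) (Y : Ly) (c : Cfg Lf B BL) (k : ℕ)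
    (la : Lf → ℕ) (ba : B → ℕ) (par : BL → B) : Prop where
  rng : ∀ b, (D.rb b).top = true → 1 ≤ c.τ b ∧ c.τ b ≤ N.nT
  inj : ∀ b b', (D.rb b).top = true → (D.rb b').top = true → c.τ b = c.τ b' → b = b'
  nd : (∀ i, 1 ≤ i → i < k → D.rv i ≠ .FR) → ∀ b b', (D.rb b).top = true → D.ds b = false →
    D.ds b' = true → c.τ b < c.τ b'
  r : ∀ b b', D.rb b = .xo → D.ds b' = true → D.rv (ba b') = .R3 ∨ D.rv (ba b') = .R4 →
    c.τ b < c.τ b'
  fr : ∀ b f, D.rv (ba b) = .FR → D.rb f = .xo → c.τ b ≤ c.τ f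
  st : ∀ i i', 1 ≤ i → i < k → 1 ≤ i' → i' < k → (D.rv i).isT = true → (D.rv i').isT = true →
    W00 D N Y c la ba par (Sum.inl i) = W00 D N Y c la ba par (Sum.inl i') → i = i'

/-- the labels `X0` are chosen correctly -/
structure XiOK (D : PlanData Lf B BL) (N : Nm) (c : Cfg Lf B BL) (par : BL → B) : Prop where
  rng : ∀ y, D.rs y = .x0 → 1 ≤ c.ξ (par y) ∧ c.ξ (par y) ≤ N.n2
  inj : ∀ y y', D.rs y = .x0 → D.rs y' = .x0 → c.ξ (par y) = c.ξ (par y') → par y = par y'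
  τ : ∀ y, D.rs y = .x0 → c.τ (par y) + c.ξ (par y) ≤ N.nT + 1

/-- the low nodes are chosen correctly -/
structure LowSel (D : PlanData Lf B BL) (N : Nm) (Y : Ly) (c : Cfg Lf B BL) (k : ℕ)
    (la : Lf → ℕ) (ba : B → ℕ) (par : BL → B) : Prop where
  cand : ∀ n ∈ c.Low, D.cand N k n
  card : c.Low.card = Y.j
  lw_rng : ∀ n ∈ c.Low, 1 ≤ c.lw n ∧ c.lw n ≤ Y.j
  lw_inj : ∀ n ∈ c.Low, ∀ n' ∈ c.Low, c.lw n = c.lw n' → n = n'
  heavy : 2 ≤ N.P → ∀ n, D.cand N k n → n ∉ c.Low → ∀ a, 1 ≤ a → a < k →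
    (D.rv a).isA = true → Y.bs a < cW D N Y c k la ba par n + Y.X 1
  light : ∀ n ∈ c.Low, ∃ a, 1 ≤ a ∧ a < k ∧ (D.rv a).isA = true ∧
    cW D N Y c k la ba par n + N.s1 + N.n2 + Y.j ≤ Y.bs a
  cr : 1 ≤ Y.j → N.e = 0 → N.Ux = N.nT + N.c0 + Y.j → N.P ≤ N.Q

/-- everything together -/
structure CfgOK (D : PlanData Lf B BL) (N : Nm) (Y : Ly) (c : Cfg Lf B BL) (k : ℕ)
    (la : Lf → ℕ) (ba : B → ℕ) (par : BL → B) : Prop where
  hD : PlanOK D k la ba par
  hNP : D.NP k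
  hN : NmOK D N k par
  hY : LyOK N Y D.rv k
  hX : XfOK D N Y k la ba par
  hσ : SigOK D N c.σ
  hτ : TauOK D N Y c k la ba par
  hξ : XiOK D N c par
  hL : LowSel D N Y c k la ba par

end

end Pool.Agent.Lob5
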