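import Pool.Agent.Lob5.LowBase

/-!
# The general facts for layouts with `k2 = true` (mode K2ii)

As `LowGen`, with the formulas `bs2_..` of `LowBase`. Positions: bad odd edges of rank `r < P`:
`n2+j+r`; `X i` : `n2+j+P-1+i`; good odd edges of rank `r`: `n2+j+U+r-1`; the edge `q+1`
(bad, rank `P`): `n2+j+U+h+1`, whose label is `w`. Here `y1 = n2+j+1`, so every position `≥ n2+j+1`
is shifted by at least one: `lam i ≥ i + 1`.
* Unloaded vertices never contain the edge `q+1` (both `q` and `q+1` are loaded), `rk_lt_P`.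
* The vertex `q+1` is loaded, not `α`; its base is `w + (w+N0+nT+Q+1)` (`bs2_Pg`, `m3`), which is
  large; its odd edge is bad. No `α` different from `q` contains the edge `q+1`.
* `i ≠ q ∨ ¬ al i`: `q` itself is `α` (`m2`), so `i ≠ q` here.
* odd edge bad, `i ≠ q+1`: `bs = w+N0+nT+lam(n2+j+ro)+re ≥ w+N0+nT+n2+j+J+1`;
  odd edge good: `bs ≥ w+N0+n2+j+U+J`.
-/

namespace Pool.Agent.Lob5

variable {k : ℕ} {ld al : ℕ → Prop}

private theorem lam_shift (y1 y2 : ℕ) {i j : ℕ} (h : i ≤ j) :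
    lam y1 y2 i + j ≤ lam y1 y2 j + i := by
  unfold lam
  split_ifs <;> omega

private theorem lam_ge {y1 y2 i : ℕ} (h : y1 ≤ i) : i + 1 ≤ lam y1 y2 i := by
  unfold lam
  rw [if_pos h]
  omega

/-- the ranges of the ranks of the odd edge at a vertex -/
private theorem rng_o (S : Seam k ld al) {i : ℕ} (h1 : 1 ≤ i) (h2 : i < k) :
    (S.bad (oe i) → 1 ≤ S.rk (oe i) ∧ S.rk (oe i) ≤ S.P) ∧
      (¬ S.bad (oe i) → S.P + 1 ≤ S.rk (oe i) ∧ S.rk (oe i) ≤ S.h + 1) := by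
  have h3 : 1 ≤ oe i ∧ oe i ≤ k := by
    unfold oe
    split_ifs <;> omega
  exact ⟨fun h => S.rk_ob _ h3.1 h3.2 oe_odd h, fun h => S.rk_og _ h3.1 h3.2 oe_odd h⟩

/-- the ranges of the ranks of the even edge at a vertex -/
private theorem rng_e (S : Seam k ld al) {i : ℕ} (h1 : 1 ≤ i) (h2 : i < k) :
    (S.bad (ee i) → 1 ≤ S.rk (ee i) ∧ S.rk (ee i) ≤ S.Q) ∧
      (¬ S.bad (ee i) → S.Q + 1 ≤ S.rk (ee i) ∧ S.rk (ee i) ≤ S.h) := by
  have h3 : 1 ≤ ee i ∧ ee i ≤ k := by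
    unfold ee
    split_ifs <;> omega
  exact ⟨fun h => S.rk_eb _ h3.1 h3.2 ee_even h, fun h => S.rk_eg _ h3.1 h3.2 ee_even h⟩

/-- both edges determine the vertex -/
private theorem edges_eq {i j : ℕ} (h1 : oe i = oe j) (h2 : ee i = ee j) : i = j := by
  unfold oe at h1
  unfold ee at h2
  split_ifs at h1 h2 <;> omega

private theorem oe_mem {i : ℕ} (h1 : 1 ≤ i) (h2 : i < k) : 1 ≤ oe i ∧ oe i ≤ k := by
  unfold oe
  split_ifs <;> omega

private theorem ee_mem {i : ℕ} (h1 : 1 ≤ i) (h2 : i < k) : 1 ≤ ee i ∧ ee i ≤ k := by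
  unfold ee
  split_ifs <;> omega

theorem lowOK_ii (S : Seam k ld al) (n : Num) (Λ : Lay) (hm : S.mode = 3) (hk2 : Λ.k2 = true)
    (h1 : Λ.y1 = n.n2 + Λ.j + 1) (h12 : Λ.y1 < Λ.y2)
    (hw : wz S n = n.n2 + Λ.j + Λ.U + S.h + 1 + 1 + (if Λ.y2 ≤ wz S n then 1 else 0))
    (hU : n.nT ≤ Λ.U) : LowOK S n Λ := by
  have hP1 := S.P1
  have hPh := S.Ph
  have hQh := S.Qh
  have hPQ := S.PQ
  obtain ⟨hqal, hqbad, hq2, hqrk, hq1rk⟩ := S.m2 (Or.inr hm)
  obtain ⟨hq1k, hq1ld, hq1al, hq2rk⟩ := S.m3 hm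
  -- facts on `lam`
  have hmono : ∀ {i j : ℕ}, i ≤ j → lam Λ.y1 Λ.y2 i ≤ lam Λ.y1 Λ.y2 j := fun h =>
    (lam_mono Λ.y1 Λ.y2).monotone h
  have hge : ∀ {i : ℕ}, n.n2 + Λ.j + 1 ≤ i → i + 1 ≤ lam Λ.y1 Λ.y2 i := fun h =>
    lam_ge (by omega)
  have hle : ∀ i : ℕ, lam Λ.y1 Λ.y2 i ≤ i + 2 := lam_le Λ.y1 Λ.y2
  have hwge : n.n2 + Λ.j + Λ.U + S.h + 2 ≤ wz S n := by
    split_ifs at hw <;> omega
  have hlw : lam Λ.y1 Λ.y2 (n.n2 + Λ.j + Λ.U + S.h + 1) ≤ wz S n := by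
    unfold lam
    split_ifs at hw ⊢ <;> omega
  have hlw' : ∀ {i : ℕ}, i ≤ n.n2 + Λ.j + Λ.U + S.h + 1 → lam Λ.y1 Λ.y2 i ≤ wz S n := fun h =>
    (hmono h).trans hlw
  -- the odd edges
  have hrk : ∀ e, 1 ≤ e → e ≤ k → e % 2 = 1 → 1 ≤ S.rk e ∧ S.rk e ≤ S.h + 1 := by
    intro e h3 h4 h5
    by_cases hb : S.bad e
    · have := S.rk_ob e h3 h4 h5 hb
      omega
    · have := S.rk_og e h3 h4 h5 hb
      omega
  have hplo : ∀ e, e % 2 = 1 → pl S n Λ e = lam Λ.y1 Λ.y2 (lop S n Λ (S.rk e)) := fun e h => by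
    unfold pl
    rw [if_pos h]
  have hple : ∀ e, e % 2 = 0 → pl S n Λ e = wz S n + n.N0 + S.rk e +
      (if S.Q < S.rk e then n.nT else 0) := fun e h => by
    unfold pl
    rw [if_neg (by omega)]
  have hlop : ∀ r, lop S n Λ r = if r < S.P then n.n2 + Λ.j + r
      else if r = S.P then n.n2 + Λ.j + Λ.U + S.h + 1
      else n.n2 + Λ.j + Λ.U + r - 1 := fun r => by
    unfold lop
    rw [if_pos hk2]
  have hlopr : ∀ r, 1 ≤ r → r ≤ S.h + 1 → n.n2 + Λ.j + 1 ≤ lop S n Λ r ∧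
      lop S n Λ r ≤ n.n2 + Λ.j + Λ.U + S.h + 1 := by
    intro r h3 h4
    rw [hlop]
    split_ifs <;> omega
  have hpodd : ∀ e, 1 ≤ e → e ≤ k → e % 2 = 1 →
      n.n2 + Λ.j < pl S n Λ e ∧ pl S n Λ e ≤ wz S n ∧ pl S n Λ e ≠ Λ.y1 ∧ pl S n Λ e ≠ Λ.y2 := by
    intro e h3 h4 h5
    obtain ⟨h6, h7⟩ := hrk e h3 h4 h5
    obtain ⟨h8, h9⟩ := hlopr _ h6 h7
    rw [hplo e h5]
    have h10 := hge h8
    exact ⟨by omega, hlw' h9, lam_ne h12 _⟩
  have hpeven : ∀ e, 1 ≤ e → e ≤ k → e % 2 = 0 →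
      (wz S n + n.N0 + 1 ≤ pl S n Λ e ∧ pl S n Λ e ≤ wz S n + n.N0 + S.Q) ∨
        (wz S n + n.N0 + S.Q + n.nT + 1 ≤ pl S n Λ e ∧ pl S n Λ e ≤ mz S n) := by
    intro e h3 h4 h5
    rw [hple e h5]
    unfold mz
    by_cases hb : S.bad e
    · have h6 := S.rk_eb e h3 h4 h5 hb
      left
      rw [if_neg (by omega)]
      omega
    · have h6 := S.rk_eg e h3 h4 h5 hb
      right
      rw [if_pos (by omega)]
      omega
  have hX : ∀ i, Xl S n Λ i = lam Λ.y1 Λ.y2 (n.n2 + Λ.j + S.P + i - 1) := fun i => by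
    unfold Xl
    rw [if_pos hk2]
  -- the unloaded vertices
  have hunl : ∀ i, 1 ≤ i → i < k → ¬ ld i →
      (S.bad i ∧ S.rk (oe i) + 1 ≤ S.P ∧ 1 ≤ S.rk (oe i) ∧ S.rk (ee i) ≤ S.Q ∧
        bs S n Λ i = wz S n + n.N0 + lam Λ.y1 Λ.y2 (n.n2 + Λ.j + S.rk (oe i)) + S.rk (ee i)) ∨
      (¬ S.bad i ∧ S.P + 1 ≤ S.rk (oe i) ∧ S.Q + 1 ≤ S.rk (ee i) ∧
        bs S n Λ i = wz S n + n.N0 + n.nT +
          lam Λ.y1 Λ.y2 (n.n2 + Λ.j + Λ.U + S.rk (oe i) - 1) + S.rk (ee i)) := by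
    intro i h3 h4 h5
    obtain ⟨h6, h7⟩ := S.same' h3 h4 h5
    by_cases hb : S.bad i
    · left
      have ho := h7.2 hb
      have he := h6.1 ho
      have h8 := rk_lt_P S hm h3 h4 ho (fun h => h5 (h ▸ S.al_ld _ hqal))
        (fun h => h5 (h ▸ hq1ld))
      exact ⟨hb, h8, ((rng_o S h3 h4).1 ho).1, ((rng_e S h3 h4).1 he).2,
        bs2_bb S n Λ hk2 h3 h4 ho h8 he⟩
    · right
      have ho : ¬ S.bad (oe i) := fun h => hb (h7.1 h)
      have he : ¬ S.bad (ee i) := fun h => ho (h6.2 h)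
      exact ⟨hb, ((rng_o S h3 h4).2 ho).1, ((rng_e S h3 h4).2 he).1,
        bs2_gg S n Λ hk2 h3 h4 ho he⟩
  -- the loaded vertices
  have hld : ∀ i, ld i → i ≠ S.q →
      (i = S.q + 1 ∧ wz S n + n.N0 + n.nT + (n.n2 + Λ.j + Λ.U + S.h + 2) + (S.Q + 1) ≤
        bs S n Λ i) ∨
      (i ≠ S.q + 1 ∧ S.bad (oe i) ∧ S.rk (oe i) + 1 ≤ S.P ∧ 1 ≤ S.rk (oe i) ∧
        S.rk (ee i) ≤ S.h ∧ bs S n Λ i = wz S n + n.N0 + n.nT +
          lam Λ.y1 Λ.y2 (n.n2 + Λ.j + S.rk (oe i)) + S.rk (ee i)) ∨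
      (i ≠ S.q + 1 ∧ ¬ S.bad (oe i) ∧ S.P + 1 ≤ S.rk (oe i) ∧ S.rk (oe i) ≤ S.h + 1 ∧
        S.rk (ee i) ≤ S.Q ∧ bs S n Λ i = wz S n + n.N0 +
          lam Λ.y1 Λ.y2 (n.n2 + Λ.j + Λ.U + S.rk (oe i) - 1) + S.rk (ee i)) := by
    intro i h3 h4
    have h5 := S.ld_pos i h3
    have h6 := S.ld_lt i h3
    by_cases hq : i = S.q + 1
    · left
      refine ⟨hq, ?_⟩
      have ho : oe i = S.q + 1 := by
        unfold oe
        rw [hq, if_pos (by omega)]
      have he : ee i = S.q + 2 := by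
        unfold ee
        rw [hq, if_pos (by omega)]
      have hbe : ¬ S.bad (ee i) := by
        intro hb
        have h7 := (rng_e S h5 h6).1 hb
        rw [he, hq2rk] at h7
        omega
      rw [bs2_Pg S n Λ hk2 h5 h6 (by rw [ho]; exact hq1rk) hbe, he, hq2rk]
      have h7 := hge (i := n.n2 + Λ.j + Λ.U + S.h + 1) (by omega)
      omega
    · right
      by_cases hb : S.bad (oe i)
      · left
        have hbe := (S.diff' h3).1 hb
        have h7 := rk_lt_P S hm h5 h6 hb h4 hq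
        exact ⟨hq, hb, h7, ((rng_o S h5 h6).1 hb).1, ((rng_e S h5 h6).2 hbe).2,
          bs2_bg S n Λ hk2 h5 h6 hb h7 hbe⟩
      · right
        have hbe : S.bad (ee i) := by
          by_contra h7
          exact hb ((S.diff' h3).2 h7)
        exact ⟨hq, hb, ((rng_o S h5 h6).2 hb).1, ((rng_o S h5 h6).2 hb).2,
          ((rng_e S h5 h6).1 hbe).2, bs2_gb S n Λ hk2 h5 h6 hb hbe⟩
  have hneq : ∀ i, (i ≠ S.q ∨ ¬ al i) → i ≠ S.q := by
    rintro i (h | h)
    · exact h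
    · rintro rfl
      exact h hqal
  refine
    { U_ge := hU
      w_ge := by omega
      y1_gt := by omega
      p_odd := hpodd
      p_even := hpeven
      p_inj := ?_
      X_mono := ?_
      X_lo := ?_
      X_up := ?_
      X_w := ?_
      X_y := ?_
      X_p := ?_
      C_lo := ?_
      C_up := ?_
      C_inj := ?_
      C_gap := ?_
      bP := ?_
      bQ := ?_
      bh := ?_
      bup := ?_
      shx := ?_ }
  · -- p_inj
    intro e f h3 h4 h5 h6 h7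
    rcases Nat.mod_two_eq_zero_or_one e with he | he <;>
      rcases Nat.mod_two_eq_zero_or_one f with hf | hf
    · apply S.rk_inj e f h3 h4 h5 h6 (he.trans hf.symm)
      rw [hple e he, hple f hf] at h7
      split_ifs at h7 <;> omega
    · exfalso
      have h8 := hpeven e h3 h4 he
      have h9 := hpodd f h5 h6 hf
      omega
    · exfalso
      have h8 := hpeven f h5 h6 hf
      have h9 := hpodd e h3 h4 he
      omega
    · apply S.rk_inj e f h3 h4 h5 h6 (he.trans hf.symm)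
      rw [hplo e he, hplo f hf] at h7
      have h8 := (lam_mono Λ.y1 Λ.y2).injective h7
      obtain ⟨h9, h10⟩ := hrk e h3 h4 he
      obtain ⟨h11, h12⟩ := hrk f h5 h6 hf
      rw [hlop, hlop] at h8
      split_ifs at h8 <;> omega
  · -- X_mono
    intro i i' h
    rw [hX, hX]
    exact lam_mono Λ.y1 Λ.y2 (by omega)
  · intro i h
    rw [hX]
    have := hge (i := n.n2 + Λ.j + S.P + i - 1) (by omega)
    omega
  · intro i
    rw [hX]
    have := hle (n.n2 + Λ.j + S.P + i - 1)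
    omega
  · intro i h h'
    rw [hX]
    exact hlw' (by omega)
  · intro i _
    rw [hX]
    exact lam_ne h12 _
  · -- X_p
    intro i e h3 h4 h5 h6 h7 h8
    rw [hX, hplo e h7] at h8
    have h9 := (lam_mono Λ.y1 Λ.y2).injective h8
    obtain ⟨h10, h11⟩ := hrk e h5 h6 h7
    rw [hlop] at h9
    split_ifs at h9 <;> omega
  · -- C_lo
    intro i h3 h4 h5
    rcases hunl i h3 h4 h5 with ⟨-, -, h6, -, h7⟩ | ⟨-, -, h6, h7⟩
    · have := hge (i := n.n2 + Λ.j + S.rk (oe i)) (by omega)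
      omega
    · omega
  · -- C_up
    intro i h3 h4 _
    unfold bs
    rcases Nat.mod_two_eq_zero_or_one i with hi | hi
    · have h6 := hpeven i h3 h4.le hi
      have h7 := hpodd (i + 1) (by omega) h4 (by omega)
      unfold mz at h6 ⊢
      omega
    · have h6 := hpodd i h3 h4.le hi
      have h7 := hpeven (i + 1) (by omega) h4 (by omega)
      unfold mz at h7 ⊢
      omega
  · -- C_inj
    intro i i' h3 h4 h5 h3' h4' h5' h6
    have hsame : (S.bad i ↔ S.bad i') → i = i' := by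
      intro hb
      have hcmp := S.cmp i i' h3 h4 h5 h3' h4' h5' hb
      have key : S.rk (oe i) = S.rk (oe i') ∧ S.rk (ee i) = S.rk (ee i') := by
        rcases hunl i h3 h4 h5 with ⟨hbi, h7, h8, h9, h10⟩ | ⟨hbi, h7, h8, h10⟩ <;>
          rcases hunl i' h3' h4' h5' with ⟨hbi', h7', h8', h9', h10'⟩ | ⟨hbi', h7', h8', h10'⟩
        · rcases hcmp with ⟨h11, h12⟩ | ⟨h11, h12⟩
          · rcases h11.eq_or_lt with h13 | h13
            · rw [h13] at h10
              omega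
            · have := lam_mono Λ.y1 Λ.y2
                (show n.n2 + Λ.j + S.rk (oe i) < n.n2 + Λ.j + S.rk (oe i') by omega)
              omega
          · rcases h11.eq_or_lt with h13 | h13
            · rw [h13] at h10'
              omega
            · have := lam_mono Λ.y1 Λ.y2
                (show n.n2 + Λ.j + S.rk (oe i') < n.n2 + Λ.j + S.rk (oe i) by omega)
              omega
        · exact absurd (hb.1 hbi) hbi'
        · exact absurd (hb.2 hbi') hbi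
        · rcases hcmp with ⟨h11, h12⟩ | ⟨h11, h12⟩
          · rcases h11.eq_or_lt with h13 | h13
            · rw [h13] at h10
              omega
            · have := lam_mono Λ.y1 Λ.y2 (show n.n2 + Λ.j + Λ.U + S.rk (oe i) - 1 <
                n.n2 + Λ.j + Λ.U + S.rk (oe i') - 1 by omega)
              omega
          · rcases h11.eq_or_lt with h13 | h13
            · rw [h13] at h10'
              omega
            · have := lam_mono Λ.y1 Λ.y2 (show n.n2 + Λ.j + Λ.U + S.rk (oe i') - 1 <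
                n.n2 + Λ.j + Λ.U + S.rk (oe i) - 1 by omega)
              omega
      have e1 := S.rk_inj _ _ (oe_mem h3 h4).1 (oe_mem h3 h4).2 (oe_mem h3' h4').1
        (oe_mem h3' h4').2 (oe_odd.trans oe_odd.symm) key.1
      have e2 := S.rk_inj _ _ (ee_mem h3 h4).1 (ee_mem h3 h4).2 (ee_mem h3' h4').1
        (ee_mem h3' h4').2 (ee_even.trans ee_even.symm) key.2
      exact edges_eq e1 e2
    rcases hunl i h3 h4 h5 with ⟨hbi, h7, h8, h9, h10⟩ | ⟨hbi, h7, h8, h10⟩ <;>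
      rcases hunl i' h3' h4' h5' with ⟨hbi', h7', h8', h9', h10'⟩ | ⟨hbi', h7', h8', h10'⟩
    · exact hsame ⟨fun _ => hbi', fun _ => hbi⟩
    · exfalso
      have := lam_mono Λ.y1 Λ.y2 (show n.n2 + Λ.j + S.rk (oe i) <
        n.n2 + Λ.j + Λ.U + S.rk (oe i') - 1 by omega)
      omega
    · exfalso
      have := lam_mono Λ.y1 Λ.y2 (show n.n2 + Λ.j + S.rk (oe i') <
        n.n2 + Λ.j + Λ.U + S.rk (oe i) - 1 by omega)
      omega
    · exact hsame ⟨fun h => absurd h hbi, fun h => absurd h hbi'⟩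
  · -- C_gap
    intro hU1 i h3 h4 h5
    rw [hX, hX]
    rcases hunl i h3 h4 h5 with ⟨hbi, h7, h8, h9, h10⟩ | ⟨hbi, h7, h8, h10⟩
    · left
      have := lam_mono Λ.y1 Λ.y2 (show n.n2 + Λ.j + S.rk (oe i) <
        n.n2 + Λ.j + S.P + 1 - 1 by omega)
      omega
    · right
      have := lam_mono Λ.y1 Λ.y2 (show n.n2 + Λ.j + S.P + Λ.U - 1 <
        n.n2 + Λ.j + Λ.U + S.rk (oe i) - 1 by omega)
      omega
  · -- bP
    intro i h3 h4
    have h5 := hneq i h4
    have h6 := rk_sum S.rk i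
    rcases hld i h3 h5 with ⟨-, h7⟩ | ⟨-, hb, h7, h8, h9, h10⟩ | ⟨-, hb, h7, h8, h9, h10⟩
    · omega
    · have h11 := S.lowb i h3 h5 hb
      have h12 := hge (i := n.n2 + Λ.j + S.rk (oe i)) (by omega)
      omega
    · have h11 := S.lowg i h3 h5 hb
      have h12 := hge (i := n.n2 + Λ.j + Λ.U + S.rk (oe i) - 1) (by omega)
      omega
  · -- bQ
    intro i h3 h4
    have h5 := hneq i h4
    have h6 := rk_sum S.rk i
    rcases hld i h3 h5 with ⟨-, h7⟩ | ⟨-, hb, h7, h8, h9, h10⟩ | ⟨-, hb, h7, h8, h9, h10⟩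
    · omega
    · have h11 := S.lowb i h3 h5 hb
      have h12 := hge (i := n.n2 + Λ.j + S.rk (oe i)) (by omega)
      omega
    · have h11 := S.lowg i h3 h5 hb
      have h12 := hge (i := n.n2 + Λ.j + Λ.U + S.rk (oe i) - 1) (by omega)
      omega
  · -- bh
    intro i h3 h4 h4'
    have h5 := hneq i h4
    have h6 := rk_sum S.rk i
    have h13 : S.h + 1 ≤ S.rk i + S.rk (i + 1) := by
      rcases h4' with h | h | h
      · exact S.big i h3 h5 (Or.inl h)
      · exact absurd h h5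
      · exact h
    rcases hld i h3 h5 with ⟨-, h7⟩ | ⟨-, hb, h7, h8, h9, h10⟩ | ⟨-, hb, h7, h8, h9, h10⟩
    · omega
    · have h12 := hge (i := n.n2 + Λ.j + S.rk (oe i)) (by omega)
      omega
    · have h12 := hge (i := n.n2 + Λ.j + Λ.U + S.rk (oe i) - 1) (by omega)
      omega
  · -- bup
    intro a h3 h4
    rcases hld a (S.al_ld a h3) h4 with ⟨h7, -⟩ | ⟨-, hb, h7, h8, h9, h10⟩ |
      ⟨-, hb, h7, h8, h9, h10⟩
    · exact absurd (h7 ▸ h3) hq1al
    · have h12 := hle (n.n2 + Λ.j + S.rk (oe a))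
      omega
    · have h12 := hlw' (i := n.n2 + Λ.j + Λ.U + S.rk (oe a) - 1) (by omega)
      omega
  · -- shx
    intro a x h3 h4 h5 h6 h7
    have hxq : x ≠ S.q := by
      rintro rfl
      exact h7 hqal
    have hJa := rk_sum S.rk a
    have hJx := rk_sum S.rk x
    have hsh := S.sh a x h3 h4 h5 h6 h7
    rw [hX]
    rcases hld a (S.al_ld a h3) h4 with ⟨h8, -⟩ | ⟨-, hb, h8, h9, h10, h11⟩ |
      ⟨-, hb, h8, h9, h10, h11⟩
    · exact absurd (h8 ▸ h3) hq1al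
    · have h12 := lam_shift Λ.y1 Λ.y2 (show n.n2 + Λ.j + S.rk (oe a) ≤
        n.n2 + Λ.j + S.P + 1 - 1 by omega)
      rcases hld x h6 hxq with ⟨-, h13⟩ | ⟨-, hb', h13, h14, h15, h16⟩ |
        ⟨-, hb', h13, h14, h15, h16⟩
      · omega
      · have h17 := hge (i := n.n2 + Λ.j + S.rk (oe x)) (by omega)
        omega
      · have h17 := hge (i := n.n2 + Λ.j + Λ.U + S.rk (oe x) - 1) (by omega)
        omega
    · exact absurd h5 hb

end Pool.Agent.Lob5
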