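import Pool.Agent.Lob5.LowGen
import Pool.Agent.Lob5.LowGen2

/-!
# Four further facts about the layouts

`w = wz S n`, `J i = rk i + rk (i+1) = rk (oe i) + rk (ee i)`; kind b: odd edge bad (`bs_bg`),
kind g: odd edge good (`bs_gb`). Read the docstrings of `ModN`, `Mod1`, ..., `Mod5` and the proofs
there (they are finished): the same shifts occur here.

* `bupb` (kind b, `a ≠ q`): the label of the odd edge is at most `n2+j+P+c` where `c` is the number
  of inserted labels `≤ w` (in mode 3: `n2+j+rk+1` with `rk < P`), the even edge is good, its label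
  is at most `w+N0+nT+h`, and `w ≥ n2+j+U+h+1+c`, `U ≥ nT`.
* `bupg` (kind g): odd edge `≤ w`, even edge bad `≤ w+N0+Q`.
* `bbP` (`sp ≤ 1`, so at most one inserted label): `S.sh : J a + 1 ≤ J z + P`, the shift of `a` is at
  most one (kind b/g: `U ≥ nT`). In mode 3: kind b (`≠ q, q+1`) has shift exactly 1 and kind g
  has `w+N0+n2+j+U+J`; `z = q+1` has the base `w + (w+N0+nT+Q+1)`, use `bupb`-type bounds.
* `lt`: `a` is kind g, `X 1 ≥ n2+j+P+1`.
  `x` kind g: `J x + (n2+j+P+1) ≤ J a + 1` (the shifts differ by at most one, by zero if there is no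
  inserted label), and `S.tgg : J a + 2 ≤ J x + Q + 1`.
  `x` kind b: `nT + J x + (n2+j+P+1) ≤ U + J a + (shift of a)` and `U ≤ nT + 1 + [lg]`,
  `S.tgb : J a + (1 if mode = 0 or 3, else 2) ≤ J x + Q + 1`. In the modes 0 and 5 (`layNone`,
  `layLg`) the shifts are 0; modes 1, 2, 4, 5: the shift of `a` is at most 1; mode 3: kind b has shift
  exactly 1, kind g has 0 and `X 1 = n2+j+P+1`; `x = q+1` is impossible in mode 3 (`bupg`).
  In all cases one gets `n2+j+P ≤ Q`.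
-/

namespace Pool.Agent.Lob5

variable {k : ℕ} {ld al : ℕ → Prop}

/-- Further facts. -/
structure ExtOK (S : Seam k ld al) (n : Num) (Λ : Lay) : Prop where
  bupb : ∀ a, al a → a ≠ S.q → S.bad (oe a) → bs S n Λ a + 1 ≤ 2 * wz S n + n.N0 + S.P
  bupg : ∀ a, al a → a ≠ S.q → ¬ S.bad (oe a) → bs S n Λ a ≤ 2 * wz S n + n.N0 + S.Q
  bbP : n.sp ≤ 1 → ∀ a z, al a → a ≠ S.q → S.bad (oe a) → ld z → ¬ al z →
    bs S n Λ a ≤ bs S n Λ z + S.P
  lt : n.sp ≤ 1 → Λ.U ≤ n.nT + 1 + (if Λ.lg then 1 else 0) →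
    ∀ a x, al a → a ≠ S.q → ¬ S.bad (oe a) → ld x → ¬ al x →
    bs S n Λ x + Xl S n Λ 1 ≤ bs S n Λ a → n.n2 + Λ.j + S.P ≤ S.Q

private theorem x_sh {y1 y2 i j : ℕ} (h : i ≤ j) : lam y1 y2 i + j ≤ lam y1 y2 j + i := by
  unfold lam
  split_ifs <;> omega

private theorem x_oe {i : ℕ} (h1 : 1 ≤ i) (h2 : i < k) : 1 ≤ oe i ∧ oe i ≤ k := by
  unfold oe
  split_ifs <;> omega

private theorem x_ee {i : ℕ} (h1 : 1 ≤ i) (h2 : i < k) : 1 ≤ ee i ∧ ee i ≤ k := by
  unfold ee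
  split_ifs <;> omega

private theorem x_rng (S : Seam k ld al) {i : ℕ} (h1 : 1 ≤ i) (h2 : i < k) :
    (S.bad (oe i) → 1 ≤ S.rk (oe i) ∧ S.rk (oe i) ≤ S.P) ∧
    (¬ S.bad (oe i) → S.P + 1 ≤ S.rk (oe i) ∧ S.rk (oe i) ≤ S.h + 1) ∧
    (S.bad (ee i) → 1 ≤ S.rk (ee i) ∧ S.rk (ee i) ≤ S.Q) ∧
    (¬ S.bad (ee i) → S.Q + 1 ≤ S.rk (ee i) ∧ S.rk (ee i) ≤ S.h) :=
  ⟨S.rk_ob _ (x_oe h1 h2).1 (x_oe h1 h2).2 oe_odd,
    S.rk_og _ (x_oe h1 h2).1 (x_oe h1 h2).2 oe_odd,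
    S.rk_eb _ (x_ee h1 h2).1 (x_ee h1 h2).2 ee_even,
    S.rk_eg _ (x_ee h1 h2).1 (x_ee h1 h2).2 ee_even⟩

private theorem ext_gen (S : Seam k ld al) (n : Num) (Λ : Lay) (hk2 : Λ.k2 = false)
    (h12 : Λ.y1 < Λ.y2)
    (hw : wz S n = n.n2 + Λ.j + Λ.U + S.h + 1 + (if Λ.y1 ≤ wz S n then 1 else 0)
      + (if Λ.y2 ≤ wz S n then 1 else 0))
    (hU : n.nT ≤ Λ.U)
    (hone : n.sp ≤ 1 → ∃ e, e ≤ 1 ∧
      1 + (if Λ.lg then 1 else 0) + e ≤ (if S.mode = 0 ∨ S.mode = 3 then 1 else 2) ∧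
      ∀ i, i ≤ n.n2 + Λ.j + Λ.U + S.h + 1 → lam Λ.y1 Λ.y2 i ≤ i + e) : ExtOK S n Λ := by
  have hPh := S.Ph
  have hQh := S.Qh
  have hlw : ∀ i, i ≤ n.n2 + Λ.j + Λ.U + S.h + 1 →
      lam Λ.y1 Λ.y2 i + (n.n2 + Λ.j + Λ.U + S.h + 1) ≤ wz S n + i := by
    intro i hi
    refine (x_sh hi).trans ?_
    have : lam Λ.y1 Λ.y2 (n.n2 + Λ.j + Λ.U + S.h + 1) ≤ wz S n := by
      unfold lam
      split_ifs at hw ⊢ <;> omega
    omega
  have hX : Xl S n Λ 1 = lam Λ.y1 Λ.y2 (n.n2 + Λ.j + S.P + 1) := by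
    unfold Xl
    rw [hk2]
    rfl
  have hkb : ∀ i, ld i → S.bad (oe i) → 1 ≤ S.rk (oe i) ∧ S.rk (oe i) ≤ S.P ∧
      S.rk (ee i) ≤ S.h ∧ bs S n Λ i = wz S n + n.N0 + n.nT +
        lam Λ.y1 Λ.y2 (n.n2 + Λ.j + S.rk (oe i)) + S.rk (ee i) := by
    intro i hi hb
    have h1 := S.ld_pos i hi
    have h2 := S.ld_lt i hi
    obtain ⟨r1, r2, r3, r4⟩ := x_rng S h1 h2
    have hg : ¬ S.bad (ee i) := (S.diff' hi).1 hb
    exact ⟨(r1 hb).1, (r1 hb).2, (r4 hg).2, bs_bg S n Λ hk2 h1 h2 hb hg⟩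
  have hkg : ∀ i, ld i → ¬ S.bad (oe i) → S.P + 1 ≤ S.rk (oe i) ∧ S.rk (oe i) ≤ S.h + 1 ∧
      S.rk (ee i) ≤ S.Q ∧ bs S n Λ i = wz S n + n.N0 +
        lam Λ.y1 Λ.y2 (n.n2 + Λ.j + Λ.U + S.rk (oe i)) + S.rk (ee i) := by
    intro i hi hb
    have h1 := S.ld_pos i hi
    have h2 := S.ld_lt i hi
    obtain ⟨r1, r2, r3, r4⟩ := x_rng S h1 h2
    have hg : S.bad (ee i) := by
      by_contra hg
      exact hb ((S.diff' hi).2 hg)
    exact ⟨(r2 hb).1, (r2 hb).2, (r3 hg).2, bs_gb S n Λ hk2 h1 h2 hb hg⟩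
  refine ⟨?_, ?_, ?_, ?_⟩
  · intro a ha _ hb
    obtain ⟨h1, h2, h3, h4⟩ := hkb a (S.al_ld a ha) hb
    have h5 := hlw (n.n2 + Λ.j + S.rk (oe a)) (by omega)
    omega
  · intro a ha _ hb
    obtain ⟨h1, h2, h3, h4⟩ := hkg a (S.al_ld a ha) hb
    have h5 := hlw (n.n2 + Λ.j + Λ.U + S.rk (oe a)) (by omega)
    omega
  · intro hs a z ha haq hb hz hza
    obtain ⟨e, he1, he2, he3⟩ := hone hs
    obtain ⟨h1, h2, h3, h4⟩ := hkb a (S.al_ld a ha) hb
    have h5 := he3 (n.n2 + Λ.j + S.rk (oe a)) (by omega)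
    have h6 := S.sh a z ha haq hb hz hza
    have h7 := rk_sum S.rk a
    have h8 := rk_sum S.rk z
    by_cases hbz : S.bad (oe z)
    · obtain ⟨g1, g2, g3, g4⟩ := hkb z hz hbz
      have g5 := le_lam Λ.y1 Λ.y2 (n.n2 + Λ.j + S.rk (oe z))
      omega
    · obtain ⟨g1, g2, g3, g4⟩ := hkg z hz hbz
      have g5 := le_lam Λ.y1 Λ.y2 (n.n2 + Λ.j + Λ.U + S.rk (oe z))
      omega
  · intro hs hU2 a x ha haq hb hx hxa hle
    obtain ⟨e, he1, he2, he3⟩ := hone hs
    obtain ⟨h1, h2, h3, h4⟩ := hkg a (S.al_ld a ha) hb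
    have h5 := he3 (n.n2 + Λ.j + Λ.U + S.rk (oe a)) (by omega)
    have h7 := rk_sum S.rk a
    have h8 := rk_sum S.rk x
    have h9 := le_lam Λ.y1 Λ.y2 (n.n2 + Λ.j + S.P + 1)
    rw [hX] at hle
    by_cases hbx : S.bad (oe x)
    · obtain ⟨g1, g2, g3, g4⟩ := hkb x hx hbx
      have g5 := le_lam Λ.y1 Λ.y2 (n.n2 + Λ.j + S.rk (oe x))
      have g6 := S.tgb a x ha haq hb hx hxa hbx
      omega
    · obtain ⟨g1, g2, g3, g4⟩ := hkg x hx hbx
      have g5 := le_lam Λ.y1 Λ.y2 (n.n2 + Λ.j + Λ.U + S.rk (oe x))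
      have g6 := S.tgg a x ha haq hb hx hxa hbx
      omega

private theorem ext_ii (S : Seam k ld al) (n : Num) (Λ : Lay) (hm : S.mode = 3)
    (hk2 : Λ.k2 = true) (hlg : Λ.lg = false)
    (h1 : Λ.y1 = n.n2 + Λ.j + 1)
    (hw : wz S n = n.n2 + Λ.j + Λ.U + S.h + 1 + 1 + (if Λ.y2 ≤ wz S n then 1 else 0))
    (hU : n.nT ≤ Λ.U) (hone : n.sp ≤ 1 → Λ.y2 = wz S n + 2) : ExtOK S n Λ := by
  have hP1 := S.P1
  have hPh := S.Ph
  have hQh := S.Qh
  obtain ⟨hqal, hqbad, hq2, hqrk, hq1rk⟩ := S.m2 (Or.inr hm)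
  obtain ⟨hq1k, hq1ld, hq1al, hq2rk⟩ := S.m3 hm
  have hge : ∀ i, n.n2 + Λ.j + 1 ≤ i → i + 1 ≤ lam Λ.y1 Λ.y2 i := by
    intro i h
    unfold lam
    rw [if_pos (show Λ.y1 ≤ i by omega)]
    omega
  have hlw : ∀ i, i ≤ n.n2 + Λ.j + Λ.U + S.h + 1 →
      lam Λ.y1 Λ.y2 i + (n.n2 + Λ.j + Λ.U + S.h + 1) ≤ wz S n + i := by
    intro i hi
    refine (x_sh hi).trans ?_
    have : lam Λ.y1 Λ.y2 (n.n2 + Λ.j + Λ.U + S.h + 1) ≤ wz S n := by
      unfold lam
      split_ifs at hw ⊢ <;> omega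
    omega
  have hex : n.sp ≤ 1 → ∀ i, i ≤ n.n2 + Λ.j + Λ.U + S.h + 1 → lam Λ.y1 Λ.y2 i ≤ i + 1 := by
    intro hs i hi
    have h2 := hone hs
    unfold lam
    rw [if_neg (show ¬ Λ.y2 ≤ i + 1 by split_ifs at hw <;> omega)]
    split_ifs <;> omega
  have hX : Xl S n Λ 1 = lam Λ.y1 Λ.y2 (n.n2 + Λ.j + S.P) := by
    unfold Xl
    rw [hk2]
    rfl
  -- the loaded vertices
  have hld : ∀ i, ld i → i ≠ S.q →
      (i = S.q + 1 ∧ wz S n + n.N0 + n.nT + (n.n2 + Λ.j + Λ.U + S.h + 2) + (S.Q + 1) ≤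
        bs S n Λ i) ∨
      (i ≠ S.q + 1 ∧ S.bad (oe i) ∧ S.rk (oe i) + 1 ≤ S.P ∧ 1 ≤ S.rk (oe i) ∧
        S.rk (ee i) ≤ S.h ∧ bs S n Λ i = wz S n + n.N0 + n.nT +
          lam Λ.y1 Λ.y2 (n.n2 + Λ.j + S.rk (oe i)) + S.rk (ee i)) ∨
      (i ≠ S.q + 1 ∧ ¬ S.bad (oe i) ∧ S.P + 1 ≤ S.rk (oe i) ∧ S.rk (oe i) ≤ S.h + 1 ∧
        S.rk (ee i) ≤ S.Q ∧ bs S n Λ i = wz S n + n.N0 +
          lam Λ.y1 Λ.y2 (n.n2 + Λ.j + Λ.U + S.rk (oe i) - 1) + S.rk (ee i)) := by
    intro i h3 h4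
    have h5 := S.ld_pos i h3
    have h6 := S.ld_lt i h3
    obtain ⟨r1, r2, r3, r4⟩ := x_rng S h5 h6
    by_cases hq : i = S.q + 1
    · left
      refine ⟨hq, ?_⟩
      have ho : oe i = S.q + 1 := by
        unfold oe
        rw [hq, if_pos (by omega)]
      have he : ee i = S.q + 2 := by
        unfold ee
        rw [hq, if_pos (by omega)]
      have hbe : ¬ S.bad (ee i) := by
        intro hb
        have h7 := r3 hb
        rw [he, hq2rk] at h7
        omega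
      rw [bs2_Pg S n Λ hk2 h5 h6 (by rw [ho]; exact hq1rk) hbe, he, hq2rk]
      have h7 := hge (n.n2 + Λ.j + Λ.U + S.h + 1) (by omega)
      omega
    · right
      by_cases hb : S.bad (oe i)
      · left
        have hbe := (S.diff' h3).1 hb
        have h7 := rk_lt_P S hm h5 h6 hb h4 hq
        exact ⟨hq, hb, h7, (r1 hb).1, (r4 hbe).2, bs2_bg S n Λ hk2 h5 h6 hb h7 hbe⟩
      · right
        have hbe : S.bad (ee i) := by
          by_contra h7
          exact hb ((S.diff' h3).2 h7)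
        exact ⟨hq, hb, (r2 hb).1, (r2 hb).2, (r3 hbe).2, bs2_gb S n Λ hk2 h5 h6 hb hbe⟩
  have hneq : ∀ i, ¬ al i → i ≠ S.q := by
    rintro i h rfl
    exact h hqal
  refine ⟨?_, ?_, ?_, ?_⟩
  · intro a ha haq hb
    rcases hld a (S.al_ld a ha) haq with ⟨h7, -⟩ | ⟨-, hb', h7, h8, h9, h10⟩ | ⟨-, hb', -⟩
    · exact absurd (h7 ▸ ha) hq1al
    · have h5 := hlw (n.n2 + Λ.j + S.rk (oe a)) (by omega)
      omega
    · exact absurd hb hb'
  · intro a ha haq hb
    rcases hld a (S.al_ld a ha) haq with ⟨h7, -⟩ | ⟨-, hb', -⟩ | ⟨-, hb', h7, h8, h9, h10⟩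
    · exact absurd (h7 ▸ ha) hq1al
    · exact absurd hb' hb
    · have h5 := hlw (n.n2 + Λ.j + Λ.U + S.rk (oe a) - 1) (by omega)
      omega
  · intro hs a z ha haq hb hz hza
    have h6 := S.sh a z ha haq hb hz hza
    have hJa := rk_sum S.rk a
    have hJz := rk_sum S.rk z
    rcases hld a (S.al_ld a ha) haq with ⟨h7, -⟩ | ⟨-, hb', h7, h8, h9, h10⟩ | ⟨-, hb', -⟩
    · exact absurd (h7 ▸ ha) hq1al
    · have h5 := hex hs (n.n2 + Λ.j + S.rk (oe a)) (by omega)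
      rcases hld z hz (hneq z hza) with ⟨-, g1⟩ | ⟨-, -, g1, g2, g3, g4⟩ |
        ⟨-, -, g1, g2, g3, g4⟩
      · omega
      · have g5 := hge (n.n2 + Λ.j + S.rk (oe z)) (by omega)
        omega
      · have g5 := hge (n.n2 + Λ.j + Λ.U + S.rk (oe z) - 1) (by omega)
        omega
    · exact absurd hb hb'
  · intro hs hU2 a x ha haq hb hx hxa hle
    have hJa := rk_sum S.rk a
    have hJx := rk_sum S.rk x
    rw [hlg] at hU2
    rw [hX] at hle
    have hx1 := hge (n.n2 + Λ.j + S.P) (by omega)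
    simp only [Bool.false_eq_true, if_false] at hU2
    rcases hld a (S.al_ld a ha) haq with ⟨h7, -⟩ | ⟨-, hb', -⟩ | ⟨-, hb', h7, h8, h9, h10⟩
    · exact absurd (h7 ▸ ha) hq1al
    · exact absurd hb' hb
    · have h5 := hex hs (n.n2 + Λ.j + Λ.U + S.rk (oe a) - 1) (by omega)
      rcases hld x hx (hneq x hxa) with ⟨-, g1⟩ | ⟨-, gb, g1, g2, g3, g4⟩ |
        ⟨-, gb, g1, g2, g3, g4⟩
      · omega
      · have g5 := hge (n.n2 + Λ.j + S.rk (oe x)) (by omega)
        have g6 := S.tgb a x ha haq hb hx hxa gb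
        rw [if_pos (Or.inr hm)] at g6
        omega
      · have g5 := hge (n.n2 + Λ.j + Λ.U + S.rk (oe x) - 1) (by omega)
        have g6 := S.tgg a x ha haq hb hx hxa gb
        omega

private theorem x_cases (S : Seam k ld al) (n : Num) (i : ℕ) (hA : Adm S n i) :
    (n.sp = 0 ∧ ∀ j, layOf S n j = layNone S n j) ∨
      (S.mode = 1 ∧ ∀ j, layOf S n j = lay1 S n j) ∨
      (S.mode = 2 ∧ ∀ j, layOf S n j = lay2 S n j) ∨
      (S.mode = 3 ∧ ∀ j, layOf S n j = lay3 S n j) ∨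
      (S.mode = 4 ∧ ∀ j, layOf S n j = lay4 S n j) ∨
      (S.mode = 5 ∧ n.sp = 1 ∧ ∀ j, layOf S n j = lay5 S n j) := by
  by_cases h0 : n.sp = 0
  · exact Or.inl ⟨h0, fun j => by simp [layOf, h0]⟩
  by_cases h1 : S.mode = 1
  · exact Or.inr (Or.inl ⟨h1, fun j => by simp [layOf, h0, h1]⟩)
  by_cases h2 : S.mode = 2
  · exact Or.inr (Or.inr (Or.inl ⟨h2, fun j => by simp [layOf, h0, h2]⟩))
  by_cases h3 : S.mode = 3
  · exact Or.inr (Or.inr (Or.inr (Or.inl ⟨h3, fun j => by simp [layOf, h0, h3]⟩)))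
  by_cases h4 : S.mode = 4
  · exact Or.inr (Or.inr (Or.inr (Or.inr (Or.inl ⟨h4, fun j => by simp [layOf, h0, h4]⟩))))
  have hm0 : S.mode ≠ 0 := fun h => h0 (hA.sp0 h)
  have h5 : S.mode = 5 := by
    have := S.mode_le
    omega
  have hs := hA.sp5 h5
  exact Or.inr (Or.inr (Or.inr (Or.inr (Or.inr ⟨h5, by omega, fun j => by
    simp [layOf, h0, h5]⟩))))

private theorem x_wz (S : Seam k ld al) (n : Num) (h : n.sp ≠ 0) :
    wz S n = n.n2 + n.Ux + S.h + 2 := by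
  unfold wz
  rw [if_neg h]

/-- one inserted label -/
private theorem ext_layS (S : Seam k ld al) (n : Num) (j y : ℕ) (hs : n.sp ≠ 0)
    (hA : Adm S n j) (hm : S.mode ≠ 0 ∧ S.mode ≠ 3) (h2 : y ≤ wz S n) :
    ExtOK S n (layS S n j y) := by
  have hw := x_wz S n hs
  have hjU := hA.jU
  have hj : n.nT + j ≤ n.Ux := by split_ifs at hjU <;> omega
  refine ext_gen S n _ rfl ?_ ?_ ?_ ?_
  · change y < wz S n + 2
    omega
  · change wz S n = n.n2 + j + (n.Ux - j) + S.h + 1 + (if y ≤ wz S n then 1 else 0)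
      + (if wz S n + 2 ≤ wz S n then 1 else 0)
    rw [if_pos h2, if_neg (by omega)]
    omega
  · change n.nT ≤ n.Ux - j
    omega
  · intro _
    refine ⟨1, le_rfl, ?_, ?_⟩
    · have h3 : ¬ (S.mode = 0 ∨ S.mode = 3) := by omega
      rw [if_neg h3]
      simp [layS]
    · intro i hi
      have hi' : i ≤ n.n2 + j + (n.Ux - j) + S.h + 1 := hi
      change lam y (wz S n + 2) i ≤ i + 1
      unfold lam
      rw [if_neg (show ¬ wz S n + 2 ≤ i + 1 by omega)]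
      split_ifs <;> omega

/-- two inserted labels -/
private theorem ext_layD (S : Seam k ld al) (n : Num) (j y x : ℕ) (hs : n.sp = 3)
    (hA : Adm S n j) (hne : y ≠ x) (h1 : y ≤ wz S n) (h2 : x ≤ wz S n) :
    ExtOK S n (layD n j y x) := by
  have hw := x_wz S n (by omega)
  have hjU := hA.jU
  rw [if_pos (by omega)] at hjU
  refine ext_gen S n _ rfl ?_ ?_ ?_ ?_
  · change min y x < max y x
    omega
  · change wz S n = n.n2 + j + (n.Ux - 1 - j) + S.h + 1 + (if min y x ≤ wz S n then 1 else 0)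
      + (if max y x ≤ wz S n then 1 else 0)
    rw [if_pos (by omega), if_pos (by omega)]
    omega
  · change n.nT ≤ n.Ux - 1 - j
    omega
  · intro h
    omega

theorem ext_all (S : Seam k ld al) (n : Num) (j : ℕ) (hA : Adm S n j) :
    ExtOK S n (layOf S n j) := by
  have hP1 := S.P1
  have hPh := S.Ph
  have hQh := S.Qh
  have hjU := hA.jU
  rcases x_cases S n j hA with
    ⟨h, e⟩ | ⟨h, e⟩ | ⟨h, e⟩ | ⟨h, e⟩ | ⟨h, e⟩ | ⟨h, hs, e⟩ <;> rw [e]
  · -- no special vertex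
    have hw : wz S n = n.n2 + n.Ux + S.h + 1 := by simp [wz, h]
    have hj : n.nT + j ≤ n.Ux := by split_ifs at hjU <;> omega
    refine ext_gen S n _ rfl ?_ ?_ ?_ ?_
    · change wz S n + 1 < wz S n + 2
      omega
    · change wz S n = n.n2 + j + (n.Ux - j) + S.h + 1 + (if wz S n + 1 ≤ wz S n then 1 else 0)
        + (if wz S n + 2 ≤ wz S n then 1 else 0)
      rw [if_neg (by omega), if_neg (by omega)]
      omega
    · change n.nT ≤ n.Ux - j
      omega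
    · intro _
      refine ⟨0, by omega, ?_, ?_⟩
      · simp only [layNone, Bool.false_eq_true, if_false]
        split_ifs <;> omega
      · intro i hi
        have hi' : i ≤ n.n2 + j + (n.Ux - j) + S.h + 1 := hi
        change lam (wz S n + 1) (wz S n + 2) i ≤ i + 0
        unfold lam
        rw [if_neg (by omega), if_neg (by omega)]
  · -- mode 1
    have hsp := hA.sp14 (by omega) (by omega)
    have hw := x_wz S n (by omega)
    have h2T := hA.n2T
    have hj : n.nT + j ≤ n.Ux := by split_ifs at hjU <;> omega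
    have hP : S.P ≤ S.h := by
      obtain ⟨h1, h2, h3, h4, h5, h6⟩ := S.m1 h
      have h7 := S.al_ld _ h1
      have h8 := S.rk_og S.q (S.ld_pos _ h7) (S.ld_lt _ h7).le h3 h2
      omega
    obtain ⟨_, _, _, _, _, hQ1⟩ := S.m1 h
    unfold lay1
    by_cases hc : n.sp = 3 ∧ (n.n2 + j + n.nT + S.h + 1 - S.Q) + (n.n2 + j + S.P + 1 +
        (if n.n2 + j + n.nT + S.h + 1 - S.Q ≤ n.n2 + j + S.P + 1 then 1 else 0)) <
        n.nT + S.h + n.n2 + j + 1
    · rw [if_pos hc]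
      refine ext_layD S n j _ _ hc.1 hA ?_ ?_ ?_
      · split_ifs <;> omega
      · omega
      · split_ifs <;> omega
    · rw [if_neg hc]
      exact ext_layS S n j _ (by omega) hA (by omega) (by omega)
  · -- mode 2
    have hsp := hA.sp14 (by omega) (by omega)
    have hw := x_wz S n (by omega)
    unfold lay2
    refine ext_layS S n j _ (by omega) hA (by omega) ?_
    split_ifs <;> omega
  · -- mode 3
    have hsp := hA.sp14 (by omega) (by omega)
    have hw := x_wz S n (by omega)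
    have hj : n.nT + j ≤ n.Ux := by split_ifs at hjU <;> omega
    unfold lay3
    split_ifs with hc
    · rw [if_pos (by omega)] at hjU
      refine ext_ii S n _ h rfl rfl rfl ?_ ?_ ?_
      · change wz S n = n.n2 + j + (n.Ux - 1 - j) + S.h + 1 + 1 +
          (if n.nT + S.h ≤ wz S n then 1 else 0)
        rw [if_pos (by omega)]
        omega
      · change n.nT ≤ n.Ux - 1 - j
        omega
      · intro hs
        omega
    · refine ext_ii S n _ h rfl rfl rfl ?_ ?_ ?_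
      · change wz S n = n.n2 + j + (n.Ux - j) + S.h + 1 + 1 +
          (if wz S n + 2 ≤ wz S n then 1 else 0)
        rw [if_neg (by omega)]
        omega
      · change n.nT ≤ n.Ux - j
        omega
      · intro _
        rfl
  · -- mode 4
    have hsp := hA.sp14 (by omega) (by omega)
    have hw := x_wz S n (by omega)
    have hc := S.cutG_le (n.n2 + j + S.Q + 2)
    unfold lay4
    split_ifs with c1 c2 c3
    · exact ext_layS S n j _ (by omega) hA (by omega) le_rfl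
    · exact ext_layD S n j _ _ c2.1 hA (by omega) (by omega) (by omega)
    · exact ext_layD S n j _ _ c2.1 hA (by omega) (by omega) (by omega)
    · exact ext_layS S n j _ (by omega) hA (by omega) (by omega)
  · -- mode 5
    have hw := x_wz S n (by omega)
    have hj : n.nT + j ≤ n.Ux := by split_ifs at hjU <;> omega
    unfold lay5
    dsimp only
    split_ifs with c1 c2 c3
    · have := S.cutB_le (n.n2 + n.Ux + S.P + 2 + 1)
      exact ext_layS S n j _ (by omega) hA (by omega) (by omega)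
    · refine ext_gen S n _ rfl ?_ ?_ ?_ ?_
      · change wz S n + 1 < wz S n + 2
        omega
      · change wz S n = n.n2 + j + (n.Ux - j + 1) + S.h + 1 +
          (if wz S n + 1 ≤ wz S n then 1 else 0) + (if wz S n + 2 ≤ wz S n then 1 else 0)
        rw [if_neg (by omega), if_neg (by omega)]
        omega
      · change n.nT ≤ n.Ux - j + 1
        omega
      · intro _
        refine ⟨0, by omega, ?_, ?_⟩
        · have h3 : ¬ (S.mode = 0 ∨ S.mode = 3) := by omega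
          rw [if_neg h3]
          simp [layLg]
        · intro i hi
          have hi' : i ≤ n.n2 + j + (n.Ux - j + 1) + S.h + 1 := hi
          change lam (wz S n + 1) (wz S n + 2) i ≤ i + 0
          unfold lam
          rw [if_neg (by omega), if_neg (by omega)]
    · have := S.cutG_le (n.n2 + n.Ux + S.P + 2 - n.nT)
      exact ext_layS S n j _ (by omega) hA (by omega) (by omega)
    all_goals exact ext_layS S n j _ (by omega) hA (by omega) (by omega)

end Pool.Agent.Lob5
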