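import Pool.Agent.Lob5.LayAll
import Pool.Agent.Lob5.Ext
import Pool.Agent.Lob5.PlanEx
import Pool.Agent.Lob5.Cfg

/-!
# `k` odd: numbers and layers
-/

namespace Pool.Agent.Lob5

open Pool.Agent.Lob89

variable {k : ℕ} {ld al : ℕ → Prop}

/-- the numbers of the plan -/
def numOf {Lf B BL : Type*} [Fintype Lf] [Fintype B] [Fintype BL] [DecidableEq B]
    (D : PlanData Lf B BL) (k sp : ℕ) : Num where
  n2 := D.n2
  nT := D.nb .L + D.nb .st + D.nb .xo + D.nb .sp
  N0 := D.ns + D.nSg k + 2 * D.nPr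
  Ux := D.nb .L + D.nb .st + D.nb .self + D.nb .xo + D.nb .sp + D.nb .tl
    + D.nv k .II + D.nv k .I
  sp := sp

/-- the numbers for the verification -/
def nmOdd (S : Seam k ld al) (n : Num) (e : ℕ) : Nm where
  h := S.h
  P := S.P
  Q := S.Q
  w := wz S n
  N0 := n.N0
  nT := n.nT
  n2 := n.n2
  Ux := n.Ux
  e := e
  eb := e / 2
  et := (e + 1) / 2
  s1 := 0
  s0v := wz S n + n.N0
  pk := 0
  c0 := if 2 ≤ n.sp then 1 else 0
  om := 0
  g1 := wz S n + n.N0 + S.Q + n.nT + 1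
  kb := fun i => S.bad (oe i)
  cd := fun i => i = S.q ∨ S.h + 1 ≤ S.rk i + S.rk (i + 1)

/-- the layers -/
def lyOdd (S : Seam k ld al) (n : Num) (j : ℕ) : Ly where
  j := j
  U := (layOf S n j).U
  thr := wz S n + mz S n + n.n2 + j + 1
  be := wz S n + n.N0
  nxf := if (layOf S n j).xsf then 1 else 0
  nlg := if (layOf S n j).lg then 1 else 0
  yv := fun _ => (layOf S n j).y
  xv := fun _ => (layOf S n j).xs
  xf := fun _ => (layOf S n j).xsf
  lg := fun _ => (layOf S n j).lg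
  p := pl S n (layOf S n j)
  X := fun i => if i = 0 then 0 else Xl S n (layOf S n j) i

theorem et_ne (e : ℕ) : ¬ (e + 1) / 2 = e / 2 + 2 := by omega

end Pool.Agent.Lob5
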