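import Pool.Agent.Lob89.Defs

/-!
# Reversal of the path

`HasLabels` for the reversed data implies `HasLabels`: reversed: `la' x = k - la x`, `ba' b = k - ba b`. If
`p', fl, ft, fb` are labels for the reversed data, then `p e = p' (k + 1 - e)` and the same `fl, ft, fb` work:
the path sum at `i` is the path sum of the reversed data at `k - i`.
-/

namespace Pool.Agent.Lob5

open Pool.Agent.Lob89

theorem mirror_data {k : ℕ} {Lf B BL : Type*} {la : Lf → ℕ} {ba : B → ℕ} {par : BL → B}
    (hd : LobData k la ba par) : LobData k (fun x => k - la x) (fun b => k - ba b) par where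
  two_le := hd.two_le
  la_pos := fun x => by
    have h1 := hd.la_lt x
    show 1 ≤ k - la x
    omega
  la_lt := fun x => by
    have h1 := hd.la_pos x
    have h2 := hd.la_lt x
    show k - la x + 1 ≤ k
    omega
  ba_pos := fun b => by
    have h1 := hd.ba_lt b
    show 1 ≤ k - ba b
    omega
  ba_lt := fun b => by
    have h1 := hd.ba_pos b
    have h2 := hd.ba_lt b
    show k - ba b + 1 ≤ k
    omega
  ev := fun hk b => by
    have h1 := hd.ev hk b
    show 2 ≤ k - ba b ∧ k - ba b + 2 ≤ k
    omega
  par_surj := hd.par_surj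

theorem mirror {k : ℕ} {Lf B BL : Type*} [Fintype Lf] [Fintype B] [Fintype BL] [DecidableEq B]
    {la : Lf → ℕ} {ba : B → ℕ} {par : BL → B} (hd : LobData k la ba par)
    (h : HasLabels k (fun x => k - la x) (fun b => k - ba b) par) : HasLabels k la ba par := by
  obtain ⟨p, fl, ft, fb, hinj, hrng, hv⟩ := h
  have hrev : ∀ n : ℕ, Function.Injective (Fin.rev (n := n)) := fun n => Fin.rev_injective
  have hL : labels (k := k) (fun e => p (k + 1 - e)) fl ft fb
      = labels (k := k) p fl ft fb ∘ Sum.map Fin.rev id := by
    funext s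
    rcases s with i | s
    · have hi := i.2
      have h1 : k + 1 - ((i : ℕ) + 1) = ((Fin.rev i : Fin k) : ℕ) + 1 := by
        rw [Fin.val_rev]
        omega
      show p (k + 1 - ((i : ℕ) + 1)) = p (((Fin.rev i : Fin k) : ℕ) + 1)
      rw [h1]
    · rfl
  have hV : vsums k la ba par (fun e => p (k + 1 - e)) fl ft fb
      = vsums k (fun x => k - la x) (fun b => k - ba b) par p fl ft fb
        ∘ Sum.map Fin.rev id := by
    funext s
    rcases s with i | s
    · have hi : (i : ℕ) ≤ k := Nat.lt_succ_iff.mp i.2
      have hr : ((Fin.rev i : Fin (k + 1)) : ℕ) = k - i := by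
        rw [Fin.val_rev]
        omega
      show pathSum k la ba (fun e => p (k + 1 - e)) fl ft i
        = pathSum k (fun x => k - la x) (fun b => k - ba b) p fl ft
          ((Fin.rev i : Fin (k + 1)) : ℕ)
      rw [hr]
      unfold pathSum
      have e1 : (if 1 ≤ (i : ℕ) then p (k + 1 - i) else 0)
          = if k - (i : ℕ) < k then p (k - i + 1) else 0 := by
        by_cases h1 : 1 ≤ (i : ℕ)
        · have h2 : k - (i : ℕ) < k := by omega
          have h3 : k + 1 - (i : ℕ) = k - i + 1 := by omega
          rw [if_pos h1, if_pos h2, h3]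
        · have h2 : ¬ k - (i : ℕ) < k := by omega
          rw [if_neg h1, if_neg h2]
      have e2 : (if (i : ℕ) < k then p (k + 1 - (i + 1)) else 0)
          = if 1 ≤ k - (i : ℕ) then p (k - i) else 0 := by
        by_cases h1 : (i : ℕ) < k
        · have h2 : 1 ≤ k - (i : ℕ) := by omega
          have h3 : k + 1 - ((i : ℕ) + 1) = k - i := by omega
          rw [if_pos h1, if_pos h2, h3]
        · have h2 : ¬ 1 ≤ k - (i : ℕ) := by omega
          rw [if_neg h1, if_neg h2]
      have e3 : (∑ x, if la x = (i : ℕ) then fl x else 0)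
          = ∑ x, if k - la x = k - (i : ℕ) then fl x else 0 := by
        refine Finset.sum_congr rfl fun x _ => ?_
        have h1 := hd.la_lt x
        have h2 : la x = (i : ℕ) ↔ k - la x = k - (i : ℕ) := by omega
        exact if_congr h2 rfl rfl
      have e4 : (∑ b, if ba b = (i : ℕ) then ft b else 0)
          = ∑ b, if k - ba b = k - (i : ℕ) then ft b else 0 := by
        refine Finset.sum_congr rfl fun b _ => ?_
        have h1 := hd.ba_lt b
        have h2 : ba b = (i : ℕ) ↔ k - ba b = k - (i : ℕ) := by omega
        exact if_congr h2 rfl rfl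
      rw [e1, e2, e3, e4]
      ring
    · rfl
  refine ⟨fun e => p (k + 1 - e), fl, ft, fb, ?_, ?_, ?_⟩
  · rw [hL]
    exact hinj.comp (Sum.map_injective.mpr ⟨hrev k, Function.injective_id⟩)
  · intro s
    rw [hL]
    exact hrng _
  · rw [hV]
    exact hv.comp (Sum.map_injective.mpr ⟨hrev (k + 1), Function.injective_id⟩)

end Pool.Agent.Lob5
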