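import Pool.Agent.Lob5.P2GenB

/-!
# Structural facts about the seam (modes `≥ 1`), used in the selection of the layers for `K - 1` with one leaf

All fields are checked by computer (exhaustively for `k ≤ 13`, millions of random words up to `k = 45`), natural
seam, no condition on `al`. Time: the edges `q+1, .., k, 1, .., q` in this order; good ranks increase, bad ranks
decrease. `R` = rank of the last good even edge before the edge `1` in time (or `Q`); `l` = number of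
vertices which are not loaded directly before `q`.

Hints (`G, B` = numbers of good and bad edges in `1..q`, `G', B'` in `q+1..k`, `_o, _e` odd and even ones; modes 1, 2, 3:
`S_q ≤ S_k`, so `G' ≥ B' ≥ 1`; `B ≥ G + 1`). An unloaded good vertex whose two edges have exactly `m` good edges after
them in time has `rk i + rk (i+1) = 2h+1-m` (the later one of its two edges is counted among the `m+1`st). So
`no`: the run of `q` has `l+1` good edges, the next good run in time order backwards starts later. `M1`: `2h+1-R-rk 1` is the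
number of good edges after the edge `1` in time; there are bad edges in `1..q`, so the edge `1` is not in the run of `q`.
`E0`: `G' ≥ 1`. `P1`: equivalent to `l+2 ≤ 2 g_o + G'_o`, `g_o` = number of good odd edges in `2..q`. Mode 1 (`q` odd):
`2 g_o ≥ l+1`, and `G' ≥ (k-q)/2`, `G'_e ≤ (k-q)/2-1` (`q+1` is bad), so `G'_o ≥ 1`. Mode 2: `2 g_o ≥ l`; `G' ≥ (k-q+1)/2`,
`G'_e ≤ (k-q-1)/2-1` (`q+2` is bad), so `G'_o ≥ 2`. `P3`, modes 2, 3: `B ≥ G+2`, edge `q` good and even, so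
`B_o ≥ 2`, and `q+1` is a bad odd edge. `P2` (`q` even): `B_o ≥ ⌊l/2⌋+2`, and `q+1` is a bad odd edge. `Q1'` (mode 1) is similar.
-/

namespace Pool.Agent.Lob5

variable {k : ℕ} {ld al : ℕ → Prop}

/-- the top block of good vertices (modes 1 and 2, edge `1` good) -/
structure TopG (S : Seam k ld al) (R l : ℕ) : Prop where
  no : ∀ i, 1 ≤ i → i < k → ¬ ld i → ¬ S.bad i → S.rk i + S.rk (i + 1) + l ≠ 2 * S.h + 1
  M1 : R + S.rk 1 + l ≤ 2 * S.h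
  P1 : S.P + S.rk 1 + l + 1 ≤ 2 * S.h
  r1 : 2 * S.rk 1 + l ≤ 2 * S.h + 2
  P2 : S.mode = 2 → l + 5 ≤ 2 * S.P
  Q1 : S.mode = 1 → S.rk 1 + l + 3 ≤ S.h + S.Q
  Q1' : S.mode = 1 → l + 5 ≤ 2 * S.Q
  st1 : S.mode = 1 → ∀ i, 1 ≤ i → i < k → ¬ ld i → ¬ S.bad i →
    2 * S.h + 1 < S.rk i + S.rk (i + 1) + l →
    S.rk (ee i) ≤ S.rk (oe i) ∧ S.rk (oe i) ≤ S.rk (ee i) + 1
  st2 : S.mode = 2 → ∀ i, 1 ≤ i → i < k → ¬ ld i → ¬ S.bad i →
    2 * S.h + 1 < S.rk i + S.rk (i + 1) + l →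
    S.rk (ee i) + 1 ≤ S.rk (oe i) ∧ S.rk (oe i) ≤ S.rk (ee i) + 2

/-- `Hole0` and the relation to `cutG` -/
structure HoleG (S : Seam k ld al) (R : ℕ) : Prop extends Hole0 S R where
  c1 : ∀ r, S.Q + 1 ≤ r → r ≤ R → S.P + S.cutG r < S.rk 1
  c2 : ∀ r, R + 1 ≤ r → r ≤ S.h → S.rk 1 ≤ S.P + S.cutG r
  E0 : 1 ≤ S.mode → S.P + S.Q + 2 ≤ R + S.rk 1
  top : S.mode = 1 ∨ S.mode = 2 → ∃ l, TopG S R l

/-- all facts -/
structure SeamR (S : Seam k ld al) : Prop where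
  Ph1 : 1 ≤ S.mode → S.P ≤ S.h
  Qh1 : 1 ≤ S.mode → S.Q + 1 ≤ S.h
  P3 : 2 ≤ S.mode → 3 ≤ S.P
  Q1 : 1 ≤ S.mode → 1 ≤ S.Q
  /-- edge `1` good -/
  g : ¬ S.bad 1 → ∃ R, HoleG S R
  /-- edge `1` bad -/
  b1 : S.bad 1 → S.P + S.Q ≤ S.rk 1 + S.h + 1
  b2 : S.bad 1 → 1 ≤ S.mode → S.P + S.Q ≤ S.rk 1 + S.h
  b3 : S.bad 1 → ∃ R, HoleB S R ∧ (S.mode = 1 ∨ S.mode = 2 → R + 1 ≤ S.Q)
  /-- mode 2 -/
  m2 : S.mode = 2 → S.q + 1 < k ∧ ¬ ld (S.q + 1) ∧ S.rk (S.q + 2) = S.Q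

/-- further facts for the modes 3, 4, 5 (checked in the same way) -/
structure SeamT (S : Seam k ld al) : Prop where
  h5 : S.mode = 5 → S.P + 1 ≤ S.h
  b45 : S.bad 1 → S.mode = 4 ∨ S.mode = 5 → S.P + S.Q + 2 ≤ S.rk 1 + S.h
  g5 : S.mode = 5 → ¬ S.bad 1 → ∃ R, HoleG S R ∧ S.Q + 1 ≤ R
  g3 : 3 ≤ S.mode → ¬ S.bad 1 → S.P + S.rk 1 ≤ 2 * S.h
  Q2 : 3 ≤ S.mode → S.Q + 2 ≤ S.h

end Pool.Agent.Lob5
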