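import Pool.Agent.Lob5.OddDefs

/-!
# `K = k + 1` even, fat end with a static leaf: numbers and layers

The seam `S` belongs to the odd word of length `k`; the main word has `K = k + 1` path edges. The
vertex `K - 1 = k` has the role `II` and at least one leaf of role `s`. The path edge `K` has the static
label `w + N0`; the labels of the other path edges are those of the odd case.
-/

namespace Pool.Agent.Lob5

open Pool.Agent.Lob89

variable {k : ℕ} {ld al : ℕ → Prop}

/-- loaded, for the word of length `k` -/
def LDk {Lf B : Type*} (la : Lf → ℕ) (ba : B → ℕ) (k i : ℕ) : Prop := LD la ba i ∧ i < k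

/-- marked, for the word of length `k` -/
def ALk {Lf B BL : Type*} [Fintype BL] [DecidableEq B] (la : Lf → ℕ) (ba : B → ℕ) (par : BL → B)
    (k i : ℕ) : Prop := AL la ba par i ∧ i < k

/-- the numbers of the plan (`K` path edges); there is one more static label -/
def numE {Lf B BL : Type*} [Fintype Lf] [Fintype B] [Fintype BL] [DecidableEq B]
    (D : PlanData Lf B BL) (K sp : ℕ) : Num :=
  { numOf D K sp with N0 := D.ns + 1 + D.nSg K + 2 * D.nPr }

/-- the numbers for the verification -/
def nmE4 (S : Seam k ld al) (n : Num) (e : ℕ) : Nm where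
  h := S.h
  P := S.P
  Q := S.Q
  w := wz S n
  N0 := n.N0
  nT := n.nT
  n2 := n.n2
  Ux := n.Ux
  e := e
  eb := e / 2
  et := (e + 1) / 2
  s1 := 0
  s0v := wz S n + n.N0 - 1
  pk := wz S n + n.N0
  c0 := 1 + if 2 ≤ n.sp then 1 else 0
  om := k
  g1 := wz S n + n.N0 + S.Q + n.nT + 1
  kb := fun i => S.bad (oe i)
  cd := fun i => i = S.q ∨ S.h + 1 ≤ S.rk i + S.rk (i + 1)

/-- the layers -/
def lyE4 (S : Seam k ld al) (n : Num) (j : ℕ) : Ly where
  j := j
  U := (layOf S n j).U
  thr := wz S n + mz S n + n.n2 + j + 1
  be := wz S n + n.N0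
  nxf := if (layOf S n j).xsf then 1 else 0
  nlg := if (layOf S n j).lg then 1 else 0
  yv := fun _ => (layOf S n j).y
  xv := fun _ => (layOf S n j).xs
  xf := fun i => if i = k then false else (layOf S n j).xsf
  lg := fun _ => (layOf S n j).lg
  p := fun e => if e = k + 1 then wz S n + n.N0 else pl S n (layOf S n j) e
  X := fun i => if i = 0 then 0 else Xl S n (layOf S n j) i

end Pool.Agent.Lob5
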