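import Pool.Agent.Lob5.OddNm
import Pool.Agent.Lob5.Cnt

/-!
# `k` odd: the layers satisfy `LyOK`, `XfOK`, `StOK`

Write `L := low_all S n j hA`, `M := mod_all S n j hA`, `E := ext_all S n j hA`, `n := numOf D k
sp`, `Λ := layOf S n j`, `w = wz S n`, `m = mz S n = w+N0+nT+h`, `Y := lyOdd S n j`; `Y.bs i = bs
S n Λ i`. Translation of roles (`1 ≤ i < k`, `hS.ld_iff, al_iff`, `ld = LD la ba`, `al = AL la ba
par`): `rv i = C` iff not loaded; `isA`: marked and `i ≠ q` (if `mode = 0` then `q` is not marked,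
`S.m0`; otherwise `q_sp`); `isN, isS`: loaded, not marked; `As, Fs, FR`: `i = q`, `sp = 1`, `sp ∈
{2,3}`, `sp = 0 ∧ mode = 5`.
* numbers: `L.U_ge, M.U_eq, L.w_ge` (`nT + h + n2 + j + 1 ≤ w`), `S.Qh`, `L.X_w`. `nxf_eq`: if
  `Λ.xsf` then `sp = 3` (`M.xs_ok`), so `q` is the only vertex `Fs`; `om = 0`. `nlg_eq`: if `Λ.lg`
  then `sp = 1` (`M.lg_ok`).
* `p_rng, p_inj`: `L.p_odd, L.p_even, L.p_inj`; `p_one, p_last`: `1` and `k` are odd. `X_mono`:
  `L.X_mono` and `X 1 ≥ 1` (`L.X_lo`). `y_*, x_*`: `M.y_ok, M.xs_ok, L.X_y, L.p_odd, L.p_even`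
  (even edges `> w`). For `rv i = Fs` we have `sp ≠ 1`, so `Λ.lg = false`.
* `C_*`: `L.C_lo, C_up, C_inj, C_gap`; `V_*`: `M.V_lo, V_up, V_C, V_L`; `lg_rng`: `M.lg_ok`.
* `bA, bc`: `L.bh`; `bN`: `L.bQ`, `X 1 ≥ n2+j+P+1`, `S.PQ`; `bT`: `L.bP`, `S.PQ`; for `FR`: `mode
  = 5`, `sp = 0`, `layOf = layNone`, `r1_base`, `nT + j ≤ Ux`.
* `P2`: `two_le_P`. `Dbb, Dbr`: `M.Dbb` (`FR`: `sp = 0`, `mode = 5`). `Dgg`: `M.Dgg`, if `sp ≥ 2`
  then there is a bush `tl`, it has a leaf of role `s0`, so `e = ns ≥ 1` (`ns_ge`). `Dgb`: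
  `M.Dgb`; the set counted by `sgc` is contained in the one counted by `sg` (`z` is static, `II,
  I` are not); `c0 ≤ (e+1)/2` as before.
* `bupb, bupg, bbP, lt`: `E` (`e = 0` implies `sp ≤ 1`); `shx`: `L.shx`.
* `xW1, xW2`: `M.Fx` (`y + xs ≤ nT+h+n2+j+2`), `L.bP`, `S.PQ`, `e ≥ 1`, `w ≥ nT+h+n2+j+1`, `X 1 ≥
  2` (`P ≥ 1`); `oW1, oW2`: `om = 0`.
* `Xr`: `L.X_up`, `L.bP`. `Rq`: `r1_base`, `w = n2+Ux+h+1`, `X 1 ≥ n2+j+P+1`, and `h ≥ 2`: `q` is
  even (`S.m5`), there is a bush at `q` (`dg_ex, dg_ba`), so `q + 2 ≤ k`, `k ≥ 5` is odd. `Rd`: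
  `r1_dist` (`layNone`; `isT` implies loaded; `rv o` static implies `o ≠ q`).
* `xf_odd`: `lb_b`: `cb s = 0` implies `sp = 3` (`Fs_q`, `sp2`): `M.F3` or `M.Fx`. `lb_b'`:
  `L.w_ge`.
* `st_odd`: `step_all`.

-/

namespace Pool.Agent.Lob5

open Pool.Agent.Lob89

section gen

variable {k : ℕ} {ld al : ℕ → Prop}

/-- the translation of the roles -/
private structure Ctx (S : Seam k ld al) (n : Num) (e j : ℕ) (rv : ℕ → RV) : Prop where
  hA : Adm S n j
  eN : e ≤ n.N0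
  e1 : 2 ≤ n.sp → 1 ≤ e
  C : ∀ i, 1 ≤ i → i < k → rv i = .C → ¬ ld i
  A : ∀ i, 1 ≤ i → i < k → (rv i).isA = true → al i ∧ i ≠ S.q
  N : ∀ i, 1 ≤ i → i < k → (rv i).isN = true → ld i ∧ ¬ al i
  As : ∀ i, 1 ≤ i → i < k → rv i = .As → i = S.q ∧ n.sp = 1
  Fs : ∀ i, 1 ≤ i → i < k → rv i = .Fs → i = S.q ∧ (n.sp = 2 ∨ n.sp = 3)
  FR : ∀ i, 1 ≤ i → i < k → rv i = .FR → i = S.q ∧ n.sp = 0 ∧ S.mode = 5 ∧ 2 ≤ S.h
  q1 : n.sp = 1 → 1 ≤ S.q ∧ rv S.q = .As
  q3 : 2 ≤ n.sp → 1 ≤ S.q ∧ rv S.q = .Fs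

private theorem lay_j (S : Seam k ld al) (n : Num) (j : ℕ) : (layOf S n j).j = j := by
  unfold layOf lay1 lay2 lay3 lay4 lay5 layNone layLg layS layD
  dsimp only
  split_ifs <;> rfl

private theorem isS_N {r : RV} (h : r.isS = true) : r.isN = true := by
  cases r <;> simp_all [RV.isS, RV.isN]

private theorem II_N {r : RV} (h : r = .II ∨ r = .I) : r.isN = true := by
  rcases h with h | h <;> subst h <;> rfl

private theorem isT_cases {r : RV} (h : r.isT = true) : r = .FR ∨ r.isS = true := by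
  cases r <;> simp_all [RV.isS, RV.isT]

private theorem ly_gen (S : Seam k ld al) (n : Num) {e j : ℕ} {rv : ℕ → RV}
    (H : Ctx S n e j rv) (N : Nm) (hN : N = nmOdd S n e) (Y : Ly) (hY : Y = lyOdd S n j) :
    LyOK N Y rv k := by
  classical
  have L := low_all S n j H.hA
  have M := mod_all S n j H.hA
  have E := ext_all S n j H.hA
  have hj := lay_j S n j
  -- the numbers
  have e_h : N.h = S.h := by rw [hN]; rfl
  have e_P : N.P = S.P := by rw [hN]; rfl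
  have e_Q : N.Q = S.Q := by rw [hN]; rfl
  have e_w : N.w = wz S n := by rw [hN]; rfl
  have e_N0 : N.N0 = n.N0 := by rw [hN]; rfl
  have e_nT : N.nT = n.nT := by rw [hN]; rfl
  have e_n2 : N.n2 = n.n2 := by rw [hN]; rfl
  have e_Ux : N.Ux = n.Ux := by rw [hN]; rfl
  have e_e : N.e = e := by rw [hN]; rfl
  have e_eb : N.eb = e / 2 := by rw [hN]; rfl
  have e_et : N.et = (e + 1) / 2 := by rw [hN]; rfl
  have e_s1 : N.s1 = 0 := by rw [hN]; rfl
  have e_s0v : N.s0v = wz S n + n.N0 := by rw [hN]; rfl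
  have e_pk : N.pk = 0 := by rw [hN]; rfl
  have e_c0 : N.c0 = if 2 ≤ n.sp then 1 else 0 := by rw [hN]; rfl
  have e_om : N.om = 0 := by rw [hN]; rfl
  have e_g1 : N.g1 = wz S n + n.N0 + S.Q + n.nT + 1 := by rw [hN]; rfl
  have e_kb : ∀ i, N.kb i ↔ S.bad (oe i) := by intro i; rw [hN]; rfl
  have e_cd : ∀ i, N.cd i ↔ (i = S.q ∨ S.h + 1 ≤ S.rk i + S.rk (i + 1)) := by
    intro i; rw [hN]; rfl
  have f_j : Y.j = j := by rw [hY]; rfl
  have f_U : Y.U = (layOf S n j).U := by rw [hY]; rfl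
  have f_thr : Y.thr = wz S n + mz S n + n.n2 + j + 1 := by rw [hY]; rfl
  have f_be : Y.be = wz S n + n.N0 := by rw [hY]; rfl
  have f_nxf : Y.nxf = if (layOf S n j).xsf then 1 else 0 := by rw [hY]; rfl
  have f_nlg : Y.nlg = if (layOf S n j).lg then 1 else 0 := by rw [hY]; rfl
  have f_yv : ∀ i, Y.yv i = (layOf S n j).y := by intro i; rw [hY]; rfl
  have f_xv : ∀ i, Y.xv i = (layOf S n j).xs := by intro i; rw [hY]; rfl
  have f_xf : ∀ i, Y.xf i = (layOf S n j).xsf := by intro i; rw [hY]; rfl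
  have f_lg : ∀ i, Y.lg i = (layOf S n j).lg := by intro i; rw [hY]; rfl
  have f_p : ∀ i, Y.p i = pl S n (layOf S n j) i := by intro i; rw [hY]; rfl
  have f_bs : ∀ i, Y.bs i = bs S n (layOf S n j) i := by intro i; rw [hY]; rfl
  have f_X0 : Y.X 0 = 0 := by rw [hY]; rfl
  have f_X : ∀ i, 1 ≤ i → Y.X i = Xl S n (layOf S n j) i := by
    intro i hi
    rw [hY]
    exact if_neg (by omega)
  have e_m : mz S n = wz S n + n.N0 + n.nT + S.h := rfl
  have hPh := S.Ph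
  have hQh := S.Qh
  have hPQ := S.PQ
  have hP1 := S.P1
  have hk := S.hk
  have hh1 := S.h1
  have hqk := S.hq
  have hUg := L.U_ge
  have hwg := L.w_ge
  have hUe := M.U_eq
  have hX1 := L.X_lo 1 le_rfl
  have fX1 := f_X 1 le_rfl
  have hjU : n.nT + j ≤ n.Ux := by
    have := H.hA.jU
    omega
  rw [hj] at hwg hUe hX1
  -- the roles
  have noFslg : 2 ≤ n.sp → (layOf S n j).lg = false := by
    intro h
    by_contra hc
    have := (M.lg_ok (by simpa using hc)).1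
    omega
  have xs3 : ∀ i, Y.xf i = true → n.sp = 3 := by
    intro i h
    rw [f_xf] at h
    exact (M.xs_ok h).1
  have ysq : ∀ i, 1 ≤ i → i < k → Y.ys rv i → i = S.q ∧ n.sp ≠ 0 ∧ (layOf S n j).lg = false := by
    rintro i h1 h2 (⟨h3, h4⟩ | h3)
    · obtain ⟨h5, h6⟩ := H.As i h1 h2 h3
      exact ⟨h5, by omega, by rw [← f_lg i]; exact h4⟩
    · obtain ⟨h5, h6⟩ := H.Fs i h1 h2 h3
      exact ⟨h5, by omega, noFslg (by omega)⟩
  have xsq : ∀ i, 1 ≤ i → i < k → Y.xs N rv i → i = S.q ∧ n.sp = 3 ∧ (layOf S n j).xsf = true ∧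
      rv i = .Fs := by
    rintro i h1 h2 ⟨h3, h4⟩
    have h5 : rv i = .Fs := by
      rcases h4 with h4 | ⟨h4, _⟩
      · exact h4
      · rw [e_om] at h4
        omega
    exact ⟨(H.Fs i h1 h2 h5).1, xs3 i h3, by rw [← f_xf i]; exact h3, h5⟩
  have FRn : (∃ i, 1 ≤ i ∧ i < k ∧ rv i = .FR) → n.sp = 0 ∧ S.mode = 5 ∧ 2 ≤ S.h ∧
      rv S.q = .FR ∧ layOf S n j = layNone S n j := by
    rintro ⟨i, h1, h2, h3⟩
    obtain ⟨h4, h5, h6, h7⟩ := H.FR i h1 h2 h3
    exact ⟨h5, h6, h7, by rw [← h4]; exact h3, by simp [layOf, h5]⟩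
  have pev : ∀ e, 1 ≤ e → e ≤ k → e % 2 = 0 → wz S n < Y.p e := by
    intro e h1 h2 h3
    rw [f_p]
    rcases L.p_even e h1 h2 h3 with h | h <;> omega
  have c01 : N.c0 ≤ N.et := by
    rw [e_c0, e_et]
    split_ifs with h
    · have := H.e1 h
      omega
    · omega
  have hmono : StrictMono Y.X := by
    intro a b hab
    have hb : 1 ≤ b := by omega
    rw [f_X b hb]
    by_cases ha : a = 0
    · rw [ha, f_X0]
      have := L.X_lo b hb
      omega
    · rw [f_X a (by omega)]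
      exact L.X_mono hab
  have base_P : ∀ z, 1 ≤ z → z < k → (rv z).isN = true →
      wz S n + n.N0 + n.nT + n.n2 + j + S.P ≤ Y.bs z := by
    intro z h1 h2 h3
    obtain ⟨h4, h5⟩ := H.N z h1 h2 h3
    have := L.bP z h4 (Or.inr h5)
    rw [hj] at this
    rw [f_bs]
    exact this
  have base_Q : ∀ z, 1 ≤ z → z < k → (rv z).isN = true →
      wz S n + n.N0 + n.nT + n.n2 + j + S.Q ≤ Y.bs z := by
    intro z h1 h2 h3
    obtain ⟨h4, h5⟩ := H.N z h1 h2 h3
    have := L.bQ z h4 (Or.inr h5)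
    rw [hj] at this
    rw [f_bs]
    exact this
  have baseR : ∀ i, 1 ≤ i → i < k → rv i = .FR →
      Y.bs i = wz S n + n.N0 + n.n2 + n.Ux + S.P + 2 ∧ 2 ≤ S.h ∧
        wz S n = n.n2 + n.Ux + S.h + 1 := by
    intro i h1 h2 h3
    obtain ⟨h4, h5, h6, h7⟩ := H.FR i h1 h2 h3
    have h8 := r1_base S n j h5 H.hA h6
    rw [f_bs, h4, (FRn ⟨i, h1, h2, h3⟩).2.2.2.2]
    exact ⟨h8, h7, by simp [wz, h5]⟩
  refine
    { eN := ?_, U_ge := ?_, U_eq := ?_, nxf_eq := ?_, nlg_le := ?_, nlg_eq := ?_, be_ge := ?_,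
      be_le := ?_, be_thr := ?_, thr_le := ?_, thr_le' := ?_, g1_ge := ?_, g1_thr := ?_, g0_be := ?_,
      zone := ?_, p_rng := ?_, p_inj := ?_, p_one := ?_, p_last := ?_, X_mono := hmono,
      X_zero := ?_, X_rng := ?_, X_lo := ?_, X_p := ?_, y_rng := ?_, y_X := ?_, y_p := ?_,
      y_inj := ?_, x_rng := ?_, x_X := ?_, x_p := ?_, x_inj := ?_, x_y := ?_, C_inj := ?_,
      C_be := ?_, C_gap := ?_, C_thr := ?_, V_be := ?_, V_thr := ?_, V_C := ?_, V_inj := ?_,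
      V_gap := ?_, lg_rng := ?_, bA := ?_, bN := ?_, bc := ?_, bT := ?_, P2 := ?_, Dbb := ?_,
      Dbr := ?_, Dgg := ?_, Dgb := ?_, bupb := ?_, bupg := ?_, shx := ?_, bbP := ?_, lt := ?_,
      xW1 := ?_, xW2 := ?_, oW1 := ?_, oW2 := ?_, Xr := ?_, Rq := ?_, Rd := ?_ }
  · -- eN
    have := H.eN
    omega
  · -- U_ge
    omega
  · -- U_eq
    omega
  · -- nxf_eq
    rw [f_nxf]
    split_ifs with hx
    · have h3 := (M.xs_ok hx).1
      obtain ⟨h4, h5⟩ := H.q3 (by omega)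
      symm
      rw [Finset.card_eq_one]
      refine ⟨S.q, ?_⟩
      ext i
      rw [Finset.mem_filter, Finset.mem_range, Finset.mem_singleton]
      constructor
      · rintro ⟨h6, h7, h8⟩
        exact (xsq i h7 h6 h8).1
      · rintro rfl
        exact ⟨hqk, h4, by rw [f_xf]; exact hx, Or.inl h5⟩
    · symm
      rw [Finset.card_eq_zero, Finset.filter_eq_empty_iff]
      intro i hi
      rw [Finset.mem_range] at hi
      rintro ⟨h7, h8⟩
      exact hx (xsq i h7 hi h8).2.2.1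
  · -- nlg_le
    rw [f_nlg]
    split_ifs <;> omega
  · -- nlg_eq
    rw [f_nlg]
    split_ifs with hx
    · have h3 := (M.lg_ok hx).1
      obtain ⟨h4, h5⟩ := H.q1 h3
      symm
      rw [Finset.card_eq_one]
      refine ⟨S.q, ?_⟩
      ext i
      rw [Finset.mem_filter, Finset.mem_range, Finset.mem_singleton]
      constructor
      · rintro ⟨h6, h7, h8, _⟩
        exact (H.As i h7 h6 h8).1
      · rintro rfl
        exact ⟨hqk, h4, h5, by rw [f_lg]; exact hx⟩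
    · symm
      rw [Finset.card_eq_zero, Finset.filter_eq_empty_iff]
      intro i hi
      rintro ⟨h7, h8, h9⟩
      rw [f_lg] at h9
      exact hx h9
  · -- be_ge
    omega
  · -- be_le
    omega
  · -- be_thr
    omega
  · -- thr_le
    omega
  · -- thr_le'
    intro h
    omega
  · -- g1_ge
    omega
  · -- g1_thr
    intro hU
    have h1 := L.X_w (layOf S n j).U (by omega) le_rfl
    rw [f_X Y.U hU, f_U]
    omega
  · -- g0_be
    intro _
    omega
  · -- zone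
    omega
  · -- p_rng
    intro e h1 h2
    rcases Nat.mod_two_eq_zero_or_one e with h3 | h3
    · have h4 := L.p_even e h1 h2 h3
      rw [← f_p] at h4
      rcases h4 with h4 | h4
      · exact Or.inr (Or.inl (by omega))
      · exact Or.inr (Or.inr (Or.inl (by omega)))
    · have h4 := L.p_odd e h1 h2 h3
      rw [← f_p, hj] at h4
      exact Or.inl (by omega)
  · -- p_inj
    intro e f h1 h2 h3 h4 h5
    rw [f_p, f_p] at h5
    exact L.p_inj e f h1 h2 h3 h4 h5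
  · -- p_one
    have h4 := L.p_odd 1 le_rfl (by omega) rfl
    rw [← f_p] at h4
    omega
  · -- p_last
    have h4 := L.p_odd k (by omega) le_rfl (by omega)
    rw [← f_p] at h4
    omega
  · -- X_zero
    omega
  · -- X_rng
    intro i h1 h2
    have h3 := L.X_lo i h1
    have h4 := L.X_w i h1 (by omega)
    rw [hj] at h3
    rw [f_X i h1]
    omega
  · -- X_lo
    omega
  · -- X_p
    intro i e h1 h2 h3 h4
    rcases Nat.mod_two_eq_zero_or_one e with h5 | h5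
    · have h6 := pev e h3 h4 h5
      have h7 := L.X_w i h1 (by omega)
      rw [f_X i h1]
      omega
    · rw [f_X i h1, f_p]
      exact L.X_p i e h1 (by omega) h3 h4 h5
  · -- y_rng
    intro i h1 h2 h3
    obtain ⟨h4, h5, h6⟩ := ysq i h1 h2 h3
    have h7 := M.y_ok h5 h6
    rw [f_yv]
    omega
  · -- y_X
    intro i m h1 h2 h3 h4 h5
    obtain ⟨h6, h7, h8⟩ := ysq i h1 h2 h3
    have h9 := M.y_ok h7 h8
    have h10 := L.X_y m h4
    rw [f_yv, f_X m h4]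
    rcases h9.2.2 with h | h
    · rw [h]
      exact fun h' => h10.1 h'.symm
    · rw [h]
      exact fun h' => h10.2 h'.symm
  · -- y_p
    intro i e h1 h2 h3 h4 h5
    obtain ⟨h6, h7, h8⟩ := ysq i h1 h2 h3
    have h9 := M.y_ok h7 h8
    rcases Nat.mod_two_eq_zero_or_one e with h10 | h10
    · have h11 := pev e h4 h5 h10
      rw [f_yv]
      omega
    · have h11 := L.p_odd e h4 h5 h10
      rw [f_yv, f_p]
      rcases h9.2.2 with h | h <;> omega
  · -- y_inj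
    intro i i' h1 h2 h3 h4 h5 h6 _
    rw [(ysq i h1 h2 h3).1, (ysq i' h4 h5 h6).1]
  · -- x_rng
    intro i h1 h2 h3
    obtain ⟨h4, h5, h6, _⟩ := xsq i h1 h2 h3
    have h7 := M.xs_ok h6
    rw [f_xv]
    omega
  · -- x_X
    intro i m h1 h2 h3 h4 h5
    obtain ⟨h6, h7, h8, _⟩ := xsq i h1 h2 h3
    have h9 := M.xs_ok h8
    have h10 := L.X_y m h4
    rw [f_xv, f_X m h4]
    rcases h9.2.2.2.2 with h | h
    · rw [h]
      exact fun h' => h10.1 h'.symm
    · rw [h]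
      exact fun h' => h10.2 h'.symm
  · -- x_p
    intro i e h1 h2 h3 h4 h5
    obtain ⟨h6, h7, h8, _⟩ := xsq i h1 h2 h3
    have h9 := M.xs_ok h8
    rcases Nat.mod_two_eq_zero_or_one e with h10 | h10
    · have h11 := pev e h4 h5 h10
      rw [f_xv]
      omega
    · have h11 := L.p_odd e h4 h5 h10
      rw [f_xv, f_p]
      rcases h9.2.2.2.2 with h | h <;> omega
  · -- x_inj
    intro i i' h1 h2 h3 h4 h5 h6 _
    rw [(xsq i h1 h2 h3).1, (xsq i' h4 h5 h6).1]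
  · -- x_y
    intro i i' h1 h2 h3 h4 h5 h6
    obtain ⟨_, _, h8, _⟩ := xsq i h1 h2 h3
    rw [f_xv, f_yv]
    exact (M.xs_ok h8).2.2.2.1
  · -- C_inj
    intro i i' h1 h2 h3 h4 h5 h6 h7
    rw [f_bs, f_bs] at h7
    exact L.C_inj i i' h1 h2 (H.C i h1 h2 h3) h4 h5 (H.C i' h4 h5 h6) h7
  · -- C_be
    intro i h1 h2 h3
    have h4 := L.C_lo i h1 h2 (H.C i h1 h2 h3)
    rw [f_bs]
    exact Or.inl (by omega)
  · -- C_gap
    intro hU i h1 h2 h3
    have h4 := L.C_gap (by omega) i h1 h2 (H.C i h1 h2 h3)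
    rw [f_bs, f_X Y.U hU, f_U]
    omega
  · -- C_thr
    intro i h1 h2 h3
    have h4 := L.C_up i h1 h2 (H.C i h1 h2 h3)
    rw [f_bs]
    omega
  · -- V_be
    intro i h1 h2 h3
    obtain ⟨h4, h5, h6⟩ := ysq i h1 h2 h3
    have h7 := M.V_lo h5 h6
    rw [f_yv, f_bs, h4]
    omega
  · -- V_thr
    intro i h1 h2 h3
    obtain ⟨h4, h5, h6⟩ := ysq i h1 h2 h3
    have h7 := M.V_up h5 h6
    rw [hj] at h7
    rw [f_yv, f_bs, h4]
    omega
  · -- V_C
    intro i i' h1 h2 h3 h1' h2' h3'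
    obtain ⟨h4, h5, h6⟩ := ysq i h1 h2 h3
    have h7 := M.V_C h5 h6 i' h1' h2' (H.C i' h1' h2' h3')
    rw [f_yv, f_bs, f_bs, h4]
    exact h7.symm
  · -- V_inj
    intro i i' h1 h2 h3 h4 h5 h6 _
    rw [(ysq i h1 h2 h3).1, (ysq i' h4 h5 h6).1]
  · -- V_gap
    intro hU i h1 h2 h3
    obtain ⟨h4, h5, h6⟩ := ysq i h1 h2 h3
    have h7 := M.V_L h5 h6 (by omega)
    rw [f_yv, f_bs, h4, f_X Y.U hU, f_U]
    omega
  · -- lg_rng
    intro i h1 h2 h3 h4
    rw [f_lg] at h4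
    have h5 := M.lg_ok h4
    rw [f_bs, (H.As i h1 h2 h3).1]
    omega
  · -- bA
    intro i h1 h2 h3
    obtain ⟨h4, h5⟩ := H.A i h1 h2 h3
    have h6 := L.bh i (S.al_ld i h4) (Or.inl h5) (Or.inl h4)
    rw [hj] at h6
    rw [f_bs]
    omega
  · -- bN
    intro i h1 h2 _ h3
    have h4 := base_Q i h1 h2 (II_N h3)
    omega
  · -- bc
    intro i h1 h2 _ h3 h4
    obtain ⟨h5, h6⟩ := H.N i h1 h2 (II_N h3)
    have h7 := L.bh i h5 (Or.inr h6) (Or.inr ((e_cd i).1 h4))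
    rw [hj] at h7
    rw [f_bs]
    omega
  · -- bT
    intro i h1 h2 h3
    rcases isT_cases h3 with h4 | h4
    · have h5 := baseR i h1 h2 h4
      omega
    · have h5 := base_P i h1 h2 (isS_N h4)
      omega
  · -- P2
    by_cases hP2 : 2 ≤ S.P
    · exact Or.inl (by omega)
    · refine Or.inr fun i h1 h2 h3 h4 => hP2 ?_
      rw [e_kb] at h4
      rcases h3 with h3 | h3
      · exact (two_le_P S (S.al_ld i (H.A i h1 h2 h3).1) h4).1
      · exact (two_le_P S (H.N i h1 h2 (isS_N h3)).1 h4).1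
  · -- Dbb
    intro a z h1 h2 h3 h4 h5 h6 h7
    obtain ⟨h8, h9⟩ := H.A a h1 h2 h5
    obtain ⟨h10, h11⟩ := H.N z h3 h4 (isS_N h6)
    have h12 := M.Dbb a z h8 h9 ((e_kb a).1 h7) h10 h11
    rw [f_bs, f_bs]
    omega
  · -- Dbr
    intro hF a z h1 h2 h3 h4 h5 h6 h7
    obtain ⟨g1, g2, _⟩ := FRn hF
    obtain ⟨h8, h9⟩ := H.A a h1 h2 h5
    obtain ⟨h10, h11⟩ := H.N z h3 h4 (isS_N h6)
    have h12 := M.Dbb a z h8 h9 ((e_kb a).1 h7) h10 h11
    rw [if_pos ⟨g1, g2⟩] at h12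
    rw [f_bs, f_bs]
    omega
  · -- Dgg
    intro a z h1 h2 h3 h4 h5 h6 h7 h8
    obtain ⟨h9, h10⟩ := H.A a h1 h2 h5
    obtain ⟨h11, h12⟩ := H.N z h3 h4 (isS_N h6)
    have h13 := M.Dgg a z h9 h10 (fun h => h7 ((e_kb a).2 h)) h11 h12
      (fun h => h8 ((e_kb z).2 h))
    rw [f_bs, f_bs]
    omega
  · -- Dgb
    intro a z h1 h2 h3 h4 h5 h6 h7 h8
    obtain ⟨h9, h10⟩ := H.A a h1 h2 h5
    obtain ⟨h11, h12⟩ := H.N z h3 h4 (isS_N h6)
    have h13 := M.Dgb a z h9 h10 (fun h => h7 ((e_kb a).2 h)) h11 h12 ((e_kb z).1 h8)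
    rw [hj] at h13
    have h14 : N.sgc rv k ≤ sg k ld al S.rk S.h S.q z := by
      unfold Nm.sgc sg
      refine Finset.card_le_card fun i hi => ?_
      rw [Finset.mem_filter, Finset.mem_range] at hi ⊢
      obtain ⟨g1, g2, g3, _, g5⟩ := hi
      obtain ⟨g6, g7⟩ := H.N i g2 g1 (II_N g3)
      rw [e_cd] at g5
      push Not at g5
      refine ⟨g1, g6, g7, g5.1, ?_, by omega⟩
      rintro rfl
      rcases g3 with g3 | g3 <;> rw [g3] at h6 <;> exact absurd h6 (by simp [RV.isS])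
    rw [f_bs, f_bs]
    omega
  · -- bupb
    intro a h1 h2 h3 h4
    obtain ⟨h5, h6⟩ := H.A a h1 h2 h3
    have h7 := E.bupb a h5 h6 ((e_kb a).1 h4)
    rw [f_bs]
    omega
  · -- bupg
    intro a h1 h2 h3 h4
    obtain ⟨h5, h6⟩ := H.A a h1 h2 h3
    have h7 := E.bupg a h5 h6 (fun h => h4 ((e_kb a).2 h))
    rw [f_bs]
    omega
  · -- shx
    intro a x h1 h2 h3 h4 h5 h6 _ h7
    obtain ⟨h8, h9⟩ := H.A a h1 h2 h5
    obtain ⟨h10, h11⟩ := H.N x h3 h4 h7
    have h12 := L.shx a x h8 h9 ((e_kb a).1 h6) h10 h11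
    rw [f_bs, f_bs, fX1]
    exact h12
  · -- bbP
    intro h0 a z h1 h2 h3 h4 h5 h6 h7
    have hs : n.sp ≤ 1 := by
      by_contra hc
      have := H.e1 (by omega)
      omega
    obtain ⟨h8, h9⟩ := H.A a h1 h2 h5
    obtain ⟨h10, h11⟩ := H.N z h3 h4 (isS_N h6)
    have h12 := E.bbP hs a z h8 h9 ((e_kb a).1 h7) h10 h11
    rw [f_bs, f_bs]
    omega
  · -- lt
    intro h0 hU a x h1 h2 h3 h4 h5 h6 _ h7 h8
    have hs : n.sp ≤ 1 := by
      by_contra hc
      have := H.e1 (by omega)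
      omega
    obtain ⟨h9, h10⟩ := H.A a h1 h2 h5
    obtain ⟨h11, h12⟩ := H.N x h3 h4 h7
    rw [f_bs, f_bs, fX1] at h8
    have h13 := E.lt hs (by omega) a x h9 h10 (fun h => h6 ((e_kb a).2 h)) h11 h12 h8
    omega
  · -- xW1
    intro i z h1 h2 h3 h4 h5 h6 h7
    have h8 := xs3 i h5
    have h9 := H.e1 (by omega)
    rw [f_xf] at h5
    have h10 := M.Fx h5
    rw [hj] at h10
    have h11 := base_P z h3 h4 (isS_N h7)
    rw [f_yv, f_xv]
    omega
  · -- xW2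
    intro i h1 h2 h3 h4
    rw [f_xf] at h3
    have h10 := M.Fx h3
    rw [hj] at h10
    rw [f_yv, f_xv]
    omega
  · -- oW1
    intro i z h1 _ _ _ _ h2
    omega
  · -- oW2
    intro i h1 _ _ h2
    omega
  · -- Xr
    intro m r h1 h2 h3 h4 h5
    have h6 := L.X_up m
    rw [hj] at h6
    have h7 := base_P r h3 h4 (isS_N h5)
    rw [f_X m h1]
    omega
  · -- Rq
    intro i h1 h2 h3
    have h4 := baseR i h1 h2 h3
    omega
  · -- Rd
    intro hF i o h1 h2 h3 h4 h5 h6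
    obtain ⟨g1, g2, _, g4, g5⟩ := FRn hF
    have h7 : ld i := by
      rcases isT_cases h5 with h7 | h7
      · rw [(H.FR i h1 h2 h7).1]
        exact S.al_ld _ (S.m5 g2).1
      · exact (H.N i h1 h2 (isS_N h7)).1
    have h8 : o ≠ S.q := by
      rintro rfl
      rw [g4] at h6
      exact absurd h6 (by simp [RV.isS])
    have h9 := r1_dist S n j g1 H.hA g2 i o h7 (H.N o h3 h4 (isS_N h6)).1 h8
    rw [f_bs, f_bs, g5]
    omega

end gen

variable {Lf B BL : Type*} [Fintype Lf] [Fintype B] [Fintype BL] [DecidableEq B]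
  {D : PlanData Lf B BL} {k : ℕ} {la : Lf → ℕ} {ba : B → ℕ} {par : BL → B}

private theorem ctx_odd (hD : PlanOK D k la ba par) (S : Seam k (LD la ba) (AL la ba par)) {sp : ℕ}
    (hS : PlanSp D k la ba par S.q S.mode sp 0) (hq : S.mode ≠ 0 → 1 ≤ S.q) {j : ℕ}
    (hA : Adm S (numOf D k sp) j) : Ctx S (numOf D k sp) D.ns j D.rv := by
  have hsp : (numOf D k sp).sp = sp := rfl
  have hqk := S.hq
  have q1 : sp = 1 → 1 ≤ S.q ∧ D.rv S.q = .As := by
    intro h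
    have hm : S.mode ≠ 0 := fun h0 => by have := hS.m0 h0; omega
    have h1 := hq hm
    refine ⟨h1, ?_⟩
    rcases hS.q_sp hm with h2 | h2 | h2
    · exact h2
    · have := (hS.Fs_q _ h1 hqk h2).2.1
      omega
    · have := (hS.FR_q _ h1 hqk h2).2.1
      omega
  have q3 : 2 ≤ sp → 1 ≤ S.q ∧ D.rv S.q = .Fs := by
    intro h
    have hm : S.mode ≠ 0 := fun h0 => by have := hS.m0 h0; omega
    have h1 := hq hm
    refine ⟨h1, ?_⟩
    rcases hS.q_sp hm with h2 | h2 | h2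
    · have := (hS.As_q _ h1 hqk (by omega) h2).2.1
      omega
    · exact h2
    · have := (hS.FR_q _ h1 hqk h2).2.1
      omega
  refine
    { hA := hA, eN := ?_, e1 := ?_, C := ?_, A := ?_, N := ?_, As := ?_, Fs := ?_, FR := ?_,
      q1 := q1, q3 := q3 }
  · change D.ns ≤ D.ns + D.nSg k + 2 * D.nPr
    omega
  · intro h
    obtain ⟨h1, h2⟩ := q3 h
    obtain ⟨b, hb⟩ := hD.Fs_ex _ h1 hqk h2
    have h3 : D.rb b = .tl := (hD.b_Fs b).2 (by rw [hb]; exact h2)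
    have h4 : 1 ≤ D.nb .tl := by
      unfold PlanData.nb
      exact Finset.card_pos.2 ⟨b, by rw [Finset.mem_filter]; exact ⟨Finset.mem_univ _, h3⟩⟩
    have h5 := ns_ge hD
    omega
  · intro i h1 h2 h3 h4
    exact (hS.ld_iff i h1 h2 (by omega)).1 h4 h3
  · intro i h1 h2 h3
    have h4 : D.rv i = .A ∨ D.rv i = .F := by
      cases hr : D.rv i <;> simp_all [RV.isA]
    have h5 : AL la ba par i := (hS.al_iff i h1 h2 (by omega)).2 (by tauto)
    refine ⟨h5, ?_⟩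
    rintro rfl
    by_cases hm : S.mode = 0
    · rcases S.m0 hm with h6 | h6
      · omega
      · exact h6.2.1 h5
    · rcases hS.q_sp hm with h6 | h6 | h6 <;> rw [h6] at h3 <;>
        exact absurd h3 (by simp [RV.isA])
  · intro i h1 h2 h3
    refine ⟨(hS.ld_iff i h1 h2 (by omega)).2 ?_, fun h => ?_⟩
    · intro h
      rw [h] at h3
      exact absurd h3 (by simp [RV.isN, RV.isS])
    · rcases (hS.al_iff i h1 h2 (by omega)).1 h with h | h | h | h | h <;> rw [h] at h3 <;>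
        exact absurd h3 (by simp [RV.isN, RV.isS])
  · intro i h1 h2 h3
    obtain ⟨h4, h5, _⟩ := hS.As_q i h1 h2 (by omega) h3
    exact ⟨h4, h5⟩
  · intro i h1 h2 h3
    obtain ⟨h4, h5, _⟩ := hS.Fs_q i h1 h2 h3
    exact ⟨h4, h5⟩
  · intro i h1 h2 h3
    obtain ⟨h4, h5, h6⟩ := hS.FR_q i h1 h2 h3
    exact ⟨h4, h5, h6, S.m5h h6⟩

theorem ly_odd (hD : PlanOK D k la ba par) (S : Seam k (LD la ba) (AL la ba par)) {sp : ℕ}
    (hS : PlanSp D k la ba par S.q S.mode sp 0) (hq : S.mode ≠ 0 → 1 ≤ S.q) {j : ℕ}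
    (hj : (nmOdd S (numOf D k sp) D.ns).nT + j + (nmOdd S (numOf D k sp) D.ns).c0 ≤
      (nmOdd S (numOf D k sp) D.ns).Ux) :
    LyOK (nmOdd S (numOf D k sp) D.ns) (lyOdd S (numOf D k sp) j) D.rv k :=
  ly_gen S (numOf D k sp) (ctx_odd hD S hS hq (adm_odd hD S hS hq hj)) _ rfl _ rfl

theorem xf_odd (hD : PlanOK D k la ba par) (S : Seam k (LD la ba) (AL la ba par)) {sp : ℕ}
    (hS : PlanSp D k la ba par S.q S.mode sp 0) (hq : S.mode ≠ 0 → 1 ≤ S.q) {j : ℕ}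
    (hj : (nmOdd S (numOf D k sp) D.ns).nT + j + (nmOdd S (numOf D k sp) D.ns).c0 ≤
      (nmOdd S (numOf D k sp) D.ns).Ux) :
    XfOK D (nmOdd S (numOf D k sp) D.ns) (lyOdd S (numOf D k sp) j) k la ba par := by
  have hA := adm_odd hD S hS hq hj
  have L := low_all S (numOf D k sp) j hA
  have M := mod_all S (numOf D k sp) j hA
  have hY := ly_odd hD S hS hq hj
  have hlj := lay_j S (numOf D k sp) j
  have hUg := L.U_ge
  have hwg := L.w_ge
  have hX1 := L.X_lo 1 le_rfl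
  have e_m : mz S (numOf D k sp) = wz S (numOf D k sp) + (numOf D k sp).N0 +
    (numOf D k sp).nT + S.h := rfl
  have hsp : (numOf D k sp).sp = sp := rfl
  rw [hlj] at hwg hX1
  have hFs : ∀ b, D.rb b = .tl → sp = 2 ∨ sp = 3 := by
    intro b hb
    have h1 := (hD.b_Fs b).1 hb
    exact (hS.Fs_q _ (by have := hD.hd.ba_pos b; omega) (by have := hD.hd.ba_lt b; omega) h1).2.1
  refine
    { xf_b := ?_, xf_o := fun h => absurd rfl h, lb_b := ?_, lb_b' := ?_,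
      lb_o := fun h => absurd rfl h, lb_o' := fun h => absurd rfl h }
  · intro b hb hx
    exact hS.sp3 (M.xs_ok hx).1 b hb
  · intro b hb h0
    have h3 : sp = 3 := by
      rcases hFs b hb with h | h
      · have := hS.sp2 h b hb
        omega
      · exact h
    change wz S (numOf D k sp) + mz S (numOf D k sp) + (numOf D k sp).n2 + j + 1 <
      (layOf S (numOf D k sp) j).y + (wz S (numOf D k sp) + (numOf D k sp).N0) +
      (wz S (numOf D k sp) + D.ns / 2 + 1) +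
      (if (layOf S (numOf D k sp) j).xsf then (layOf S (numOf D k sp) j).xs
        else Xl S (numOf D k sp) (layOf S (numOf D k sp) j) 1)
    split_ifs with hx
    · have h4 := M.Fx hx
      rw [hlj] at h4
      omega
    · have h4 := M.F3 (by omega) (by simpa using hx)
      rw [hlj] at h4
      omega
  · intro b hb h1
    change wz S (numOf D k sp) + mz S (numOf D k sp) + (numOf D k sp).n2 + j + 1 <
      (layOf S (numOf D k sp) j).y + (wz S (numOf D k sp) + (numOf D k sp).N0) +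
      2 * wz S (numOf D k sp) + 2 + Xl S (numOf D k sp) (layOf S (numOf D k sp) j) 1
    omega

theorem st_odd (hD : PlanOK D k la ba par) (S : Seam k (LD la ba) (AL la ba par)) {sp : ℕ}
    (hS : PlanSp D k la ba par S.q S.mode sp 0) (hq : S.mode ≠ 0 → 1 ≤ S.q) {j : ℕ}
    (hj : (nmOdd S (numOf D k sp) D.ns).nT + (j + 1) + (nmOdd S (numOf D k sp) D.ns).c0 ≤
      (nmOdd S (numOf D k sp) D.ns).Ux) (hP : 2 ≤ (nmOdd S (numOf D k sp) D.ns).P) :
    StOK (nmOdd S (numOf D k sp) D.ns) (lyOdd S (numOf D k sp) j)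
      (lyOdd S (numOf D k sp) (j + 1)) D.rv k := by
  have hA := adm_odd hD S hS hq hj
  have H := ctx_odd hD S hS hq hA
  have T := step_all S (numOf D k sp) j hP hA
  have hX := (ly_odd hD S hS hq (j := j) (by omega)).X_lo
  refine ⟨?_, ?_⟩
  · intro i a h1 h2 h3 h4 _ h5 h6 _
    obtain ⟨h7, h8⟩ := H.A a h3 h4 h6
    obtain ⟨h9, h10⟩ := H.N i h1 h2 (II_N h5)
    have h11 := T.st1 i a h9 h10 h7 h8
    change (lyOdd S (numOf D k sp) (j + 1)).bs i + (lyOdd S (numOf D k sp) j).bs a ≤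
      (lyOdd S (numOf D k sp) j).bs i + (lyOdd S (numOf D k sp) (j + 1)).bs a + 2 at h11
    omega
  · intro a h1 h2 h3 _
    obtain ⟨h7, h8⟩ := H.A a h1 h2 h3
    have h11 := T.st2 a h7 h8
    change (lyOdd S (numOf D k sp) j).bs a ≤ (lyOdd S (numOf D k sp) (j + 1)).bs a + 2 at h11
    omega

end Pool.Agent.Lob5
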