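import Pool.Agent.Lob5.E4Nm
import Pool.Agent.Lob5.OddLy

/-!
# Fat end with a static leaf: the layers satisfy `LyOK`, `XfOK`, `StOK`

Adaptation of `OddLy` (the main word has `K = k + 1` path edges, the seam `S` belongs to `k`,
`ld = LDk la ba k`, `al = ALk la ba par k`). Vertices `i < k` are as in `OddLy`; `i = k = om` has
the role `II` (`hom`), which is none of `C, A, F, As, Fs, FR, isS, isT`, and all fields about `II`
and `I` vertices, about `isN` (`shx, lt`), and `sgc` exclude `om`. For `i + 1 ≤ k`: `Y.p i, Y.p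
(i+1)` are the labels of the odd case. `Y.p (k+1) = w + N0 = pk`.
* `p_rng`: for the edge `k + 1` the last alternative (`pk ≠ 0`); `p_inj`: `pk` is in the middle
  zone (`w < w + N0` as `N0 ≥ 1`), the others are not; `p_last`: `be = w + N0`; `X_p, y_p, x_p`:
  `pk > w`.
* `nxf_eq`: `xf k = false`.
* `Dgg, Dgb`: `e ≥ 2`, and `e ≥ 3` if `sp ≥ 2` (`e_ge`), so `c0 ≤ (e+1)/2` and
  `1 + [sp ≥ 2] ≤ (e+1)/2`.
* `bbP, lt`: `e = 0` is impossible. `oW1, oW2`: `xf k = false`.
* `xW1, xW2`: `s0v` is smaller by one than in `OddLy`.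
* `xf_e4`: `xf_o`: `xf k = false`; `lb_b`: `e/2 ≥ 1` compensates for `s0v = w+N0-1` (`e ≥ 3`);
  `lb_b'`: `L.w_ge`; `lb_o`: impossible by `hs`; `lb_o'`: `bs om ≥ w + N0`, `L.w_ge`.
* `st_e4`: as `st_odd`.
* `Rq`: here `LobData` does not give `h ≥ 2` (`k = 3` with the mode 5 is possible), therefore the
  hypothesis `h5 : S.mode = 5 → 2 ≤ S.h`; `exists_seam5` (file `Seam5`) gives such a seam.
-/

namespace Pool.Agent.Lob5

open Pool.Agent.Lob89

section gen

variable {k : ℕ} {ld al : ℕ → Prop}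

/-- the translation of the roles -/
private structure Ctx4 (S : Seam k ld al) (n : Num) (e j : ℕ) (rv : ℕ → RV) : Prop where
  hA : Adm S n j
  eN : e ≤ n.N0
  e2 : 2 ≤ e
  e3 : 2 ≤ n.sp → 3 ≤ e
  om : rv k = .II
  C : ∀ i, 1 ≤ i → i < k → rv i = .C → ¬ ld i
  A : ∀ i, 1 ≤ i → i < k → (rv i).isA = true → al i ∧ i ≠ S.q
  N : ∀ i, 1 ≤ i → i < k → (rv i).isN = true → ld i ∧ ¬ al i
  As : ∀ i, 1 ≤ i → i < k → rv i = .As → i = S.q ∧ n.sp = 1
  Fs : ∀ i, 1 ≤ i → i < k → rv i = .Fs → i = S.q ∧ (n.sp = 2 ∨ n.sp = 3)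
  FR : ∀ i, 1 ≤ i → i < k → rv i = .FR → i = S.q ∧ n.sp = 0 ∧ S.mode = 5 ∧ 2 ≤ S.h
  q1 : n.sp = 1 → 1 ≤ S.q ∧ rv S.q = .As
  q3 : 2 ≤ n.sp → 1 ≤ S.q ∧ rv S.q = .Fs

private theorem lay_j (S : Seam k ld al) (n : Num) (j : ℕ) : (layOf S n j).j = j := by
  unfold layOf lay1 lay2 lay3 lay4 lay5 layNone layLg layS layD
  dsimp only
  split_ifs <;> rfl

private theorem isS_N {r : RV} (h : r.isS = true) : r.isN = true := by
  cases r <;> simp_all [RV.isS, RV.isN]

private theorem II_N {r : RV} (h : r = .II ∨ r = .I) : r.isN = true := by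
  rcases h with h | h <;> subst h <;> rfl

private theorem isT_cases {r : RV} (h : r.isT = true) : r = .FR ∨ r.isS = true := by
  cases r <;> simp_all [RV.isS, RV.isT]

private theorem ly_gen4 (S : Seam k ld al) (n : Num) {e j : ℕ} {rv : ℕ → RV}
    (H : Ctx4 S n e j rv) (N : Nm) (hN : N = nmE4 S n e) (Y : Ly) (hY : Y = lyE4 S n j) :
    LyOK N Y rv (k + 1) := by
  classical
  have L := low_all S n j H.hA
  have M := mod_all S n j H.hA
  have E := ext_all S n j H.hA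
  have hj := lay_j S n j
  have He2 := H.e2
  -- the numbers
  have e_h : N.h = S.h := by rw [hN]; rfl
  have e_P : N.P = S.P := by rw [hN]; rfl
  have e_Q : N.Q = S.Q := by rw [hN]; rfl
  have e_w : N.w = wz S n := by rw [hN]; rfl
  have e_N0 : N.N0 = n.N0 := by rw [hN]; rfl
  have e_nT : N.nT = n.nT := by rw [hN]; rfl
  have e_n2 : N.n2 = n.n2 := by rw [hN]; rfl
  have e_Ux : N.Ux = n.Ux := by rw [hN]; rfl
  have e_e : N.e = e := by rw [hN]; rfl
  have e_eb : N.eb = e / 2 := by rw [hN]; rfl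
  have e_et : N.et = (e + 1) / 2 := by rw [hN]; rfl
  have e_s1 : N.s1 = 0 := by rw [hN]; rfl
  have e_s0v : N.s0v = wz S n + n.N0 - 1 := by rw [hN]; rfl
  have e_pk : N.pk = wz S n + n.N0 := by rw [hN]; rfl
  have e_c0 : N.c0 = 1 + if 2 ≤ n.sp then 1 else 0 := by rw [hN]; rfl
  have e_om : N.om = k := by rw [hN]; rfl
  have e_g1 : N.g1 = wz S n + n.N0 + S.Q + n.nT + 1 := by rw [hN]; rfl
  have e_kb : ∀ i, N.kb i ↔ S.bad (oe i) := by intro i; rw [hN]; rfl
  have e_cd : ∀ i, N.cd i ↔ (i = S.q ∨ S.h + 1 ≤ S.rk i + S.rk (i + 1)) := by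
    intro i; rw [hN]; rfl
  have f_j : Y.j = j := by rw [hY]; rfl
  have f_U : Y.U = (layOf S n j).U := by rw [hY]; rfl
  have f_thr : Y.thr = wz S n + mz S n + n.n2 + j + 1 := by rw [hY]; rfl
  have f_be : Y.be = wz S n + n.N0 := by rw [hY]; rfl
  have f_nxf : Y.nxf = if (layOf S n j).xsf then 1 else 0 := by rw [hY]; rfl
  have f_nlg : Y.nlg = if (layOf S n j).lg then 1 else 0 := by rw [hY]; rfl
  have f_yv : ∀ i, Y.yv i = (layOf S n j).y := by intro i; rw [hY]; rfl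
  have f_xv : ∀ i, Y.xv i = (layOf S n j).xs := by intro i; rw [hY]; rfl
  have f_xf : ∀ i, i ≠ k → Y.xf i = (layOf S n j).xsf := by
    intro i hi
    rw [hY]
    exact if_neg hi
  have f_xk : Y.xf k = false := by
    rw [hY]
    exact if_pos rfl
  have f_lg : ∀ i, Y.lg i = (layOf S n j).lg := by intro i; rw [hY]; rfl
  have f_p : ∀ i, i ≠ k + 1 → Y.p i = pl S n (layOf S n j) i := by
    intro i hi
    rw [hY]
    exact if_neg hi
  have f_pk : Y.p (k + 1) = wz S n + n.N0 := by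
    rw [hY]
    exact if_pos rfl
  have f_bs : ∀ i, i < k → Y.bs i = bs S n (layOf S n j) i := by
    intro i hi
    unfold Ly.bs bs
    rw [f_p i (by omega), f_p (i + 1) (by omega)]
  have f_X0 : Y.X 0 = 0 := by rw [hY]; rfl
  have f_X : ∀ i, 1 ≤ i → Y.X i = Xl S n (layOf S n j) i := by
    intro i hi
    rw [hY]
    exact if_neg (by omega)
  have e_m : mz S n = wz S n + n.N0 + n.nT + S.h := rfl
  have hPh := S.Ph
  have hQh := S.Qh
  have hPQ := S.PQ
  have hP1 := S.P1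
  have hk := S.hk
  have hh1 := S.h1
  have hqk := S.hq
  have hUg := L.U_ge
  have hwg := L.w_ge
  have hUe := M.U_eq
  have hX1 := L.X_lo 1 le_rfl
  have fX1 := f_X 1 le_rfl
  have hN0 : e ≤ n.N0 := H.eN
  have hjU : n.nT + j ≤ n.Ux := by
    have := H.hA.jU
    omega
  rw [hj] at hwg hUe hX1
  -- the roles: all vertices of the roles below are `< k`
  have neII : ∀ i, i < k + 1 → rv i ≠ .II → i < k := by
    intro i h1 h2
    rcases Nat.lt_or_ge i k with h | h
    · exact h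
    · exact absurd (by rw [show i = k by omega]; exact H.om) h2
  have lC : ∀ i, i < k + 1 → rv i = .C → i < k := fun i h1 h2 =>
    neII i h1 (by rw [h2]; simp)
  have lAs : ∀ i, i < k + 1 → rv i = .As → i < k := fun i h1 h2 =>
    neII i h1 (by rw [h2]; simp)
  have lFs : ∀ i, i < k + 1 → rv i = .Fs → i < k := fun i h1 h2 =>
    neII i h1 (by rw [h2]; simp)
  have lFR : ∀ i, i < k + 1 → rv i = .FR → i < k := fun i h1 h2 =>
    neII i h1 (by rw [h2]; simp)
  have lA : ∀ i, i < k + 1 → (rv i).isA = true → i < k := fun i h1 h2 =>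
    neII i h1 (by intro h; rw [h] at h2; exact absurd h2 (by simp [RV.isA]))
  have lS : ∀ i, i < k + 1 → (rv i).isS = true → i < k := fun i h1 h2 =>
    neII i h1 (by intro h; rw [h] at h2; exact absurd h2 (by simp [RV.isS]))
  have lT : ∀ i, i < k + 1 → (rv i).isT = true → i < k := fun i h1 h2 =>
    neII i h1 (by intro h; rw [h] at h2; exact absurd h2 (by simp [RV.isT, RV.isS]))
  have lom : ∀ i, i < k + 1 → i ≠ N.om → i < k := by
    intro i h1 h2
    rw [e_om] at h2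
    omega
  have noFslg : 2 ≤ n.sp → (layOf S n j).lg = false := by
    intro h
    by_contra hc
    have := (M.lg_ok (by simpa using hc)).1
    omega
  have lys : ∀ i, i < k + 1 → Y.ys rv i → i < k := by
    rintro i h1 (⟨h3, _⟩ | h3)
    · exact lAs i h1 h3
    · exact lFs i h1 h3
  have lxs : ∀ i, i < k + 1 → Y.xs N rv i → i < k := by
    rintro i h1 ⟨h2, h3 | ⟨h3, _⟩⟩
    · exact lFs i h1 h3
    · rw [e_om] at h3
      rw [h3, f_xk] at h2
      exact absurd h2 (by simp)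
  have xs3 : ∀ i, Y.xf i = true → n.sp = 3 ∧ (layOf S n j).xsf = true := by
    intro i h
    by_cases hi : i = k
    · rw [hi, f_xk] at h
      exact absurd h (by simp)
    · rw [f_xf i hi] at h
      exact ⟨(M.xs_ok h).1, h⟩
  have ysq : ∀ i, 1 ≤ i → i < k + 1 → Y.ys rv i →
      i = S.q ∧ n.sp ≠ 0 ∧ (layOf S n j).lg = false := by
    intro i h1 h2 h
    have h2' := lys i h2 h
    rcases h with ⟨h3, h4⟩ | h3
    · obtain ⟨h5, h6⟩ := H.As i h1 h2' h3
      exact ⟨h5, by omega, by rw [← f_lg i]; exact h4⟩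
    · obtain ⟨h5, h6⟩ := H.Fs i h1 h2' h3
      exact ⟨h5, by omega, noFslg (by omega)⟩
  have xsq : ∀ i, 1 ≤ i → i < k + 1 → Y.xs N rv i →
      i = S.q ∧ n.sp = 3 ∧ (layOf S n j).xsf = true ∧ rv i = .Fs := by
    intro i h1 h2 h
    have h2' := lxs i h2 h
    obtain ⟨h3, h4⟩ := h
    have h5 : rv i = .Fs := by
      rcases h4 with h4 | ⟨h4, _⟩
      · exact h4
      · rw [e_om] at h4
        omega
    exact ⟨(H.Fs i h1 h2' h5).1, (xs3 i h3).1, (xs3 i h3).2, h5⟩
  have FRn : (∃ i, 1 ≤ i ∧ i < k + 1 ∧ rv i = .FR) → n.sp = 0 ∧ S.mode = 5 ∧ 2 ≤ S.h ∧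
      rv S.q = .FR ∧ layOf S n j = layNone S n j := by
    rintro ⟨i, h1, h2, h3⟩
    obtain ⟨h4, h5, h6, h7⟩ := H.FR i h1 (lFR i h2 h3) h3
    exact ⟨h5, h6, h7, by rw [← h4]; exact h3, by simp [layOf, h5]⟩
  have pev : ∀ e, 1 ≤ e → e ≤ k → e % 2 = 0 → wz S n < Y.p e := by
    intro e h1 h2 h3
    rw [f_p e (by omega)]
    rcases L.p_even e h1 h2 h3 with h | h <;> omega
  have plt : ∀ e, 1 ≤ e → e ≤ k → Y.p e ≠ wz S n + n.N0 := by
    intro e h1 h2
    rw [f_p e (by omega)]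
    rcases Nat.mod_two_eq_zero_or_one e with h3 | h3
    · rcases L.p_even e h1 h2 h3 with h | h <;> omega
    · have := L.p_odd e h1 h2 h3
      omega
  have c01 : N.c0 ≤ N.et := by
    rw [e_c0, e_et]
    split_ifs with h
    · have := H.e3 h
      omega
    · omega
  have c02 : (if 2 ≤ n.sp then 1 else 0) ≤ N.et := by
    rw [e_et]
    split_ifs with h <;> omega
  have hmono : StrictMono Y.X := by
    intro a b hab
    have hb : 1 ≤ b := by omega
    rw [f_X b hb]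
    by_cases ha : a = 0
    · rw [ha, f_X0]
      have := L.X_lo b hb
      omega
    · rw [f_X a (by omega)]
      exact L.X_mono hab
  have base_P : ∀ z, 1 ≤ z → z < k → (rv z).isN = true →
      wz S n + n.N0 + n.nT + n.n2 + j + S.P ≤ Y.bs z := by
    intro z h1 h2 h3
    obtain ⟨h4, h5⟩ := H.N z h1 h2 h3
    have := L.bP z h4 (Or.inr h5)
    rw [hj] at this
    rw [f_bs z h2]
    exact this
  have base_Q : ∀ z, 1 ≤ z → z < k → (rv z).isN = true →
      wz S n + n.N0 + n.nT + n.n2 + j + S.Q ≤ Y.bs z := by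
    intro z h1 h2 h3
    obtain ⟨h4, h5⟩ := H.N z h1 h2 h3
    have := L.bQ z h4 (Or.inr h5)
    rw [hj] at this
    rw [f_bs z h2]
    exact this
  have baseR : ∀ i, 1 ≤ i → i < k → rv i = .FR →
      Y.bs i = wz S n + n.N0 + n.n2 + n.Ux + S.P + 2 ∧ 2 ≤ S.h ∧
        wz S n = n.n2 + n.Ux + S.h + 1 := by
    intro i h1 h2 h3
    obtain ⟨h4, h5, h6, h7⟩ := H.FR i h1 h2 h3
    have h8 := r1_base S n j h5 H.hA h6
    rw [f_bs i h2, h4, (FRn ⟨i, h1, by omega, h3⟩).2.2.2.2]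
    exact ⟨h8, h7, by simp [wz, h5]⟩
  refine
    { eN := ?_, U_ge := ?_, U_eq := ?_, nxf_eq := ?_, nlg_le := ?_, nlg_eq := ?_, be_ge := ?_,
      be_le := ?_, be_thr := ?_, thr_le := ?_, thr_le' := ?_, g1_ge := ?_, g1_thr := ?_, g0_be := ?_,
      zone := ?_, p_rng := ?_, p_inj := ?_, p_one := ?_, p_last := ?_, X_mono := hmono,
      X_zero := ?_, X_rng := ?_, X_lo := ?_, X_p := ?_, y_rng := ?_, y_X := ?_, y_p := ?_,
      y_inj := ?_, x_rng := ?_, x_X := ?_, x_p := ?_, x_inj := ?_, x_y := ?_, C_inj := ?_,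
      C_be := ?_, C_gap := ?_, C_thr := ?_, V_be := ?_, V_thr := ?_, V_C := ?_, V_inj := ?_,
      V_gap := ?_, lg_rng := ?_, bA := ?_, bN := ?_, bc := ?_, bT := ?_, P2 := ?_, Dbb := ?_,
      Dbr := ?_, Dgg := ?_, Dgb := ?_, bupb := ?_, bupg := ?_, shx := ?_, bbP := ?_, lt := ?_,
      xW1 := ?_, xW2 := ?_, oW1 := ?_, oW2 := ?_, Xr := ?_, Rq := ?_, Rd := ?_ }
  · -- eN
    have := H.eN
    omega
  · -- U_ge
    omega
  · -- U_eq
    omega
  · -- nxf_eq
    rw [f_nxf]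
    split_ifs with hx
    · have h3 := (M.xs_ok hx).1
      obtain ⟨h4, h5⟩ := H.q3 (by omega)
      symm
      rw [Finset.card_eq_one]
      refine ⟨S.q, ?_⟩
      ext i
      rw [Finset.mem_filter, Finset.mem_range, Finset.mem_singleton]
      constructor
      · rintro ⟨h6, h7, h8⟩
        exact (xsq i h7 h6 h8).1
      · rintro rfl
        exact ⟨by omega, h4, by rw [f_xf _ (by omega)]; exact hx, Or.inl h5⟩
    · symm
      rw [Finset.card_eq_zero, Finset.filter_eq_empty_iff]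
      intro i hi
      rw [Finset.mem_range] at hi
      rintro ⟨h7, h8⟩
      exact hx (xsq i h7 hi h8).2.2.1
  · -- nlg_le
    rw [f_nlg]
    split_ifs <;> omega
  · -- nlg_eq
    rw [f_nlg]
    split_ifs with hx
    · have h3 := (M.lg_ok hx).1
      obtain ⟨h4, h5⟩ := H.q1 h3
      symm
      rw [Finset.card_eq_one]
      refine ⟨S.q, ?_⟩
      ext i
      rw [Finset.mem_filter, Finset.mem_range, Finset.mem_singleton]
      constructor
      · rintro ⟨h6, h7, h8, _⟩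
        exact (H.As i h7 (lAs i h6 h8) h8).1
      · rintro rfl
        exact ⟨by omega, h4, h5, by rw [f_lg]; exact hx⟩
    · symm
      rw [Finset.card_eq_zero, Finset.filter_eq_empty_iff]
      intro i hi
      rintro ⟨h7, h8, h9⟩
      rw [f_lg] at h9
      exact hx h9
  · -- be_ge
    omega
  · -- be_le
    omega
  · -- be_thr
    omega
  · -- thr_le
    omega
  · -- thr_le'
    intro h
    omega
  · -- g1_ge
    omega
  · -- g1_thr
    intro hU
    have h1 := L.X_w (layOf S n j).U (by omega) le_rfl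
    rw [f_X Y.U hU, f_U]
    omega
  · -- g0_be
    intro _
    omega
  · -- zone
    omega
  · -- p_rng
    intro e h1 h2
    by_cases hek : e = k + 1
    · right; right; right; right
      rw [hek, f_pk, e_pk]
      exact ⟨rfl, by omega⟩
    · rcases Nat.mod_two_eq_zero_or_one e with h3 | h3
      · have h4 := L.p_even e h1 (by omega) h3
        rw [← f_p e hek] at h4
        rcases h4 with h4 | h4
        · exact Or.inr (Or.inl (by omega))
        · exact Or.inr (Or.inr (Or.inl (by omega)))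
      · have h4 := L.p_odd e h1 (by omega) h3
        rw [← f_p e hek, hj] at h4
        exact Or.inl (by omega)
  · -- p_inj
    intro e f h1 h2 h3 h4 h5
    by_cases hek : e = k + 1
    · by_cases hfk : f = k + 1
      · rw [hek, hfk]
      · rw [hek, f_pk] at h5
        exact absurd h5.symm (plt f h3 (by omega))
    · by_cases hfk : f = k + 1
      · rw [hfk, f_pk] at h5
        exact absurd h5 (plt e h1 (by omega))
      · rw [f_p e hek, f_p f hfk] at h5
        exact L.p_inj e f h1 (by omega) h3 (by omega) h5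
  · -- p_one
    have h4 := L.p_odd 1 le_rfl (by omega) rfl
    rw [← f_p 1 (by omega)] at h4
    omega
  · -- p_last
    rw [f_pk]
    omega
  · -- X_zero
    omega
  · -- X_rng
    intro i h1 h2
    have h3 := L.X_lo i h1
    have h4 := L.X_w i h1 (by omega)
    rw [hj] at h3
    rw [f_X i h1]
    omega
  · -- X_lo
    omega
  · -- X_p
    intro i e h1 h2 h3 h4
    have h7 := L.X_w i h1 (by omega)
    by_cases hek : e = k + 1
    · rw [hek, f_pk, f_X i h1]
      omega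
    · rcases Nat.mod_two_eq_zero_or_one e with h5 | h5
      · have h6 := pev e h3 (by omega) h5
        rw [f_X i h1]
        omega
      · rw [f_X i h1, f_p e hek]
        exact L.X_p i e h1 (by omega) h3 (by omega) h5
  · -- y_rng
    intro i h1 h2 h3
    obtain ⟨h4, h5, h6⟩ := ysq i h1 h2 h3
    have h7 := M.y_ok h5 h6
    rw [f_yv]
    omega
  · -- y_X
    intro i m h1 h2 h3 h4 h5
    obtain ⟨h6, h7, h8⟩ := ysq i h1 h2 h3
    have h9 := M.y_ok h7 h8
    have h10 := L.X_y m h4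
    rw [f_yv, f_X m h4]
    rcases h9.2.2 with h | h
    · rw [h]
      exact fun h' => h10.1 h'.symm
    · rw [h]
      exact fun h' => h10.2 h'.symm
  · -- y_p
    intro i e h1 h2 h3 h4 h5
    obtain ⟨h6, h7, h8⟩ := ysq i h1 h2 h3
    have h9 := M.y_ok h7 h8
    by_cases hek : e = k + 1
    · rw [hek, f_pk, f_yv]
      omega
    · rcases Nat.mod_two_eq_zero_or_one e with h10 | h10
      · have h11 := pev e h4 (by omega) h10
        rw [f_yv]
        omega
      · have h11 := L.p_odd e h4 (by omega) h10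
        rw [f_yv, f_p e hek]
        rcases h9.2.2 with h | h <;> omega
  · -- y_inj
    intro i i' h1 h2 h3 h4 h5 h6 _
    rw [(ysq i h1 h2 h3).1, (ysq i' h4 h5 h6).1]
  · -- x_rng
    intro i h1 h2 h3
    obtain ⟨h4, h5, h6, _⟩ := xsq i h1 h2 h3
    have h7 := M.xs_ok h6
    rw [f_xv]
    omega
  · -- x_X
    intro i m h1 h2 h3 h4 h5
    obtain ⟨h6, h7, h8, _⟩ := xsq i h1 h2 h3
    have h9 := M.xs_ok h8
    have h10 := L.X_y m h4
    rw [f_xv, f_X m h4]
    rcases h9.2.2.2.2 with h | h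
    · rw [h]
      exact fun h' => h10.1 h'.symm
    · rw [h]
      exact fun h' => h10.2 h'.symm
  · -- x_p
    intro i e h1 h2 h3 h4 h5
    obtain ⟨h6, h7, h8, _⟩ := xsq i h1 h2 h3
    have h9 := M.xs_ok h8
    by_cases hek : e = k + 1
    · rw [hek, f_pk, f_xv]
      omega
    · rcases Nat.mod_two_eq_zero_or_one e with h10 | h10
      · have h11 := pev e h4 (by omega) h10
        rw [f_xv]
        omega
      · have h11 := L.p_odd e h4 (by omega) h10
        rw [f_xv, f_p e hek]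
        rcases h9.2.2.2.2 with h | h <;> omega
  · -- x_inj
    intro i i' h1 h2 h3 h4 h5 h6 _
    rw [(xsq i h1 h2 h3).1, (xsq i' h4 h5 h6).1]
  · -- x_y
    intro i i' h1 h2 h3 h4 h5 h6
    obtain ⟨_, _, h8, _⟩ := xsq i h1 h2 h3
    rw [f_xv, f_yv]
    exact (M.xs_ok h8).2.2.2.1
  · -- C_inj
    intro i i' h1 h2 h3 h4 h5 h6 h7
    have g2 := lC i h2 h3
    have g5 := lC i' h5 h6
    rw [f_bs i g2, f_bs i' g5] at h7
    exact L.C_inj i i' h1 g2 (H.C i h1 g2 h3) h4 g5 (H.C i' h4 g5 h6) h7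
  · -- C_be
    intro i h1 h2 h3
    have g2 := lC i h2 h3
    have h4 := L.C_lo i h1 g2 (H.C i h1 g2 h3)
    rw [f_bs i g2]
    exact Or.inl (by omega)
  · -- C_gap
    intro hU i h1 h2 h3
    have g2 := lC i h2 h3
    have h4 := L.C_gap (by omega) i h1 g2 (H.C i h1 g2 h3)
    rw [f_bs i g2, f_X Y.U hU, f_U]
    omega
  · -- C_thr
    intro i h1 h2 h3
    have g2 := lC i h2 h3
    have h4 := L.C_up i h1 g2 (H.C i h1 g2 h3)
    rw [f_bs i g2]
    omega
  · -- V_be
    intro i h1 h2 h3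
    obtain ⟨h4, h5, h6⟩ := ysq i h1 h2 h3
    have h7 := M.V_lo h5 h6
    rw [f_yv, f_bs i (lys i h2 h3), h4]
    omega
  · -- V_thr
    intro i h1 h2 h3
    obtain ⟨h4, h5, h6⟩ := ysq i h1 h2 h3
    have h7 := M.V_up h5 h6
    rw [hj] at h7
    rw [f_yv, f_bs i (lys i h2 h3), h4]
    omega
  · -- V_C
    intro i i' h1 h2 h3 h1' h2' h3'
    obtain ⟨h4, h5, h6⟩ := ysq i h1 h2 h3
    have g2 := lC i' h2' h3'
    have h7 := M.V_C h5 h6 i' h1' g2 (H.C i' h1' g2 h3')
    rw [f_yv, f_bs i (lys i h2 h3), f_bs i' g2, h4]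
    exact h7.symm
  · -- V_inj
    intro i i' h1 h2 h3 h4 h5 h6 _
    rw [(ysq i h1 h2 h3).1, (ysq i' h4 h5 h6).1]
  · -- V_gap
    intro hU i h1 h2 h3
    obtain ⟨h4, h5, h6⟩ := ysq i h1 h2 h3
    have h7 := M.V_L h5 h6 (by omega)
    rw [f_yv, f_bs i (lys i h2 h3), h4, f_X Y.U hU, f_U]
    omega
  · -- lg_rng
    intro i h1 h2 h3 h4
    rw [f_lg] at h4
    have h5 := M.lg_ok h4
    have g2 := lAs i h2 h3
    rw [f_bs i g2, (H.As i h1 g2 h3).1]
    omega
  · -- bA
    intro i h1 h2 h3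
    have g2 := lA i h2 h3
    obtain ⟨h4, h5⟩ := H.A i h1 g2 h3
    have h6 := L.bh i (S.al_ld i h4) (Or.inl h5) (Or.inl h4)
    rw [hj] at h6
    rw [f_bs i g2]
    omega
  · -- bN
    intro i h1 h2 ho h3
    have g2 := lom i h2 ho
    have h4 := base_Q i h1 g2 (II_N h3)
    omega
  · -- bc
    intro i h1 h2 ho h3 h4
    have g2 := lom i h2 ho
    obtain ⟨h5, h6⟩ := H.N i h1 g2 (II_N h3)
    have h7 := L.bh i h5 (Or.inr h6) (Or.inr ((e_cd i).1 h4))
    rw [hj] at h7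
    rw [f_bs i g2]
    omega
  · -- bT
    intro i h1 h2 h3
    have g2 := lT i h2 h3
    rcases isT_cases h3 with h4 | h4
    · have h5 := baseR i h1 g2 h4
      omega
    · have h5 := base_P i h1 g2 (isS_N h4)
      omega
  · -- P2
    by_cases hP2 : 2 ≤ S.P
    · exact Or.inl (by omega)
    · refine Or.inr fun i h1 h2 h3 h4 => hP2 ?_
      rw [e_kb] at h4
      rcases h3 with h3 | h3
      · exact (two_le_P S (S.al_ld i (H.A i h1 (lA i h2 h3) h3).1) h4).1
      · exact (two_le_P S (H.N i h1 (lS i h2 h3) (isS_N h3)).1 h4).1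
  · -- Dbb
    intro a z h1 h2 h3 h4 h5 h6 h7
    have g2 := lA a h2 h5
    have g4 := lS z h4 h6
    obtain ⟨h8, h9⟩ := H.A a h1 g2 h5
    obtain ⟨h10, h11⟩ := H.N z h3 g4 (isS_N h6)
    have h12 := M.Dbb a z h8 h9 ((e_kb a).1 h7) h10 h11
    rw [f_bs a g2, f_bs z g4]
    omega
  · -- Dbr
    intro hF a z h1 h2 h3 h4 h5 h6 h7
    obtain ⟨g1, g3, _⟩ := FRn hF
    have g2 := lA a h2 h5
    have g4 := lS z h4 h6
    obtain ⟨h8, h9⟩ := H.A a h1 g2 h5
    obtain ⟨h10, h11⟩ := H.N z h3 g4 (isS_N h6)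
    have h12 := M.Dbb a z h8 h9 ((e_kb a).1 h7) h10 h11
    rw [if_pos ⟨g1, g3⟩] at h12
    rw [f_bs a g2, f_bs z g4]
    omega
  · -- Dgg
    intro a z h1 h2 h3 h4 h5 h6 h7 h8
    have g2 := lA a h2 h5
    have g4 := lS z h4 h6
    obtain ⟨h9, h10⟩ := H.A a h1 g2 h5
    obtain ⟨h11, h12⟩ := H.N z h3 g4 (isS_N h6)
    have h13 := M.Dgg a z h9 h10 (fun h => h7 ((e_kb a).2 h)) h11 h12
      (fun h => h8 ((e_kb z).2 h))
    rw [f_bs a g2, f_bs z g4]
    omega
  · -- Dgb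
    intro a z h1 h2 h3 h4 h5 h6 h7 h8
    have g2 := lA a h2 h5
    have g4 := lS z h4 h6
    obtain ⟨h9, h10⟩ := H.A a h1 g2 h5
    obtain ⟨h11, h12⟩ := H.N z h3 g4 (isS_N h6)
    have h13 := M.Dgb a z h9 h10 (fun h => h7 ((e_kb a).2 h)) h11 h12 ((e_kb z).1 h8)
    rw [hj] at h13
    have h14 : N.sgc rv (k + 1) ≤ sg k ld al S.rk S.h S.q z := by
      unfold Nm.sgc sg
      refine Finset.card_le_card fun i hi => ?_
      rw [Finset.mem_filter, Finset.mem_range] at hi ⊢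
      obtain ⟨g1, g5, g6, g7, g8⟩ := hi
      have g9 := lom i g1 g7
      obtain ⟨g10, g11⟩ := H.N i g5 g9 (II_N g6)
      rw [e_cd] at g8
      push Not at g8
      refine ⟨g9, g10, g11, g8.1, ?_, by omega⟩
      rintro rfl
      rcases g6 with g6 | g6 <;> rw [g6] at h6 <;> exact absurd h6 (by simp [RV.isS])
    rw [f_bs a g2, f_bs z g4]
    omega
  · -- bupb
    intro a h1 h2 h3 h4
    have g2 := lA a h2 h3
    obtain ⟨h5, h6⟩ := H.A a h1 g2 h3
    have h7 := E.bupb a h5 h6 ((e_kb a).1 h4)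
    rw [f_bs a g2]
    omega
  · -- bupg
    intro a h1 h2 h3 h4
    have g2 := lA a h2 h3
    obtain ⟨h5, h6⟩ := H.A a h1 g2 h3
    have h7 := E.bupg a h5 h6 (fun h => h4 ((e_kb a).2 h))
    rw [f_bs a g2]
    omega
  · -- shx
    intro a x h1 h2 h3 h4 h5 h6 ho h7
    have g2 := lA a h2 h5
    have g4 := lom x h4 ho
    obtain ⟨h8, h9⟩ := H.A a h1 g2 h5
    obtain ⟨h10, h11⟩ := H.N x h3 g4 h7
    have h12 := L.shx a x h8 h9 ((e_kb a).1 h6) h10 h11
    rw [f_bs a g2, f_bs x g4, fX1]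
    exact h12
  · -- bbP
    intro h0
    omega
  · -- lt
    intro h0
    omega
  · -- xW1
    intro i z h1 h2 h3 h4 h5 h6 h7
    have h8 := xs3 i h5
    have h9 := H.e3 (by omega)
    have h10 := M.Fx h8.2
    rw [hj] at h10
    have h11 := base_P z h3 (lS z h4 h7) (isS_N h7)
    rw [f_yv, f_xv]
    omega
  · -- xW2
    intro i h1 h2 h3 h4
    have h10 := M.Fx (xs3 i h3).2
    rw [hj] at h10
    rw [f_yv, f_xv]
    omega
  · -- oW1
    intro i z _ _ _ _ h1 h2
    rw [e_om] at h2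
    rw [h2, f_xk] at h1
    exact absurd h1 (by simp)
  · -- oW2
    intro i _ _ h1 h2
    rw [e_om] at h2
    rw [h2, f_xk] at h1
    exact absurd h1 (by simp)
  · -- Xr
    intro m r h1 h2 h3 h4 h5
    have h6 := L.X_up m
    rw [hj] at h6
    have h7 := base_P r h3 (lS r h4 h5) (isS_N h5)
    rw [f_X m h1]
    omega
  · -- Rq
    intro i h1 h2 h3
    have h4 := baseR i h1 (lFR i h2 h3) h3
    omega
  · -- Rd
    intro hF i o h1 h2 h3 h4 h5 h6
    obtain ⟨g1, g3, _, g4, g5⟩ := FRn hF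
    have g2 := lT i h2 h5
    have g6 := lS o h4 h6
    have h7 : ld i := by
      rcases isT_cases h5 with h7 | h7
      · rw [(H.FR i h1 g2 h7).1]
        exact S.al_ld _ (S.m5 g3).1
      · exact (H.N i h1 g2 (isS_N h7)).1
    have h8 : o ≠ S.q := by
      rintro rfl
      rw [g4] at h6
      exact absurd h6 (by simp [RV.isS])
    have h9 := r1_dist S n j g1 H.hA g3 i o h7 (H.N o h3 g6 (isS_N h6)).1 h8
    rw [f_bs i g2, f_bs o g6, g5]
    omega

end gen

variable {Lf B BL : Type*} [Fintype Lf] [Fintype B] [Fintype BL] [DecidableEq B]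
  {D : PlanData Lf B BL} {k : ℕ} {la : Lf → ℕ} {ba : B → ℕ} {par : BL → B}

private theorem ctx_e4 (hD : PlanOK D (k + 1) la ba par)
    (S : Seam k (LDk la ba k) (ALk la ba par k)) {sp : ℕ}
    (hS : PlanSp D (k + 1) la ba par S.q S.mode sp k) (hq : S.mode ≠ 0 → 1 ≤ S.q)
    (h5 : S.mode = 5 → 2 ≤ S.h) (hom : D.rv k = .II) (hs : 1 ≤ D.cl la k .s) {j : ℕ}
    (hA : Adm S (numE D (k + 1) sp) j) :
    Ctx4 S (numE D (k + 1) sp) (D.ns + 1) j D.rv := by
  have hsp : (numE D (k + 1) sp).sp = sp := rfl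
  have hqk := S.hq
  have hge := e_ge hD hs
  have q1 : sp = 1 → 1 ≤ S.q ∧ D.rv S.q = .As := by
    intro h
    have hm : S.mode ≠ 0 := fun h0 => by have := hS.m0 h0; omega
    have h1 := hq hm
    refine ⟨h1, ?_⟩
    rcases hS.q_sp hm with h2 | h2 | h2
    · exact h2
    · have := (hS.Fs_q _ h1 (by omega) h2).2.1
      omega
    · have := (hS.FR_q _ h1 (by omega) h2).2.1
      omega
  have q3 : 2 ≤ sp → 1 ≤ S.q ∧ D.rv S.q = .Fs := by
    intro h
    have hm : S.mode ≠ 0 := fun h0 => by have := hS.m0 h0; omega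
    have h1 := hq hm
    refine ⟨h1, ?_⟩
    rcases hS.q_sp hm with h2 | h2 | h2
    · have := (hS.As_q _ h1 (by omega) (by omega) h2).2.1
      omega
    · exact h2
    · have := (hS.FR_q _ h1 (by omega) h2).2.1
      omega
  refine
    { hA := hA, eN := ?_, e2 := by omega, e3 := ?_, om := hom, C := ?_, A := ?_, N := ?_,
      As := ?_, Fs := ?_, FR := ?_, q1 := q1, q3 := q3 }
  · change D.ns + 1 ≤ D.ns + 1 + D.nSg (k + 1) + 2 * D.nPr
    omega
  · intro h
    obtain ⟨h1, h2⟩ := q3 h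
    obtain ⟨b, hb⟩ := hD.Fs_ex _ h1 (by omega) h2
    have h3 : D.rb b = .tl := (hD.b_Fs b).2 (by rw [hb]; exact h2)
    have h4 : 1 ≤ D.nb .tl := by
      unfold PlanData.nb
      exact Finset.card_pos.2 ⟨b, by rw [Finset.mem_filter]; exact ⟨Finset.mem_univ _, h3⟩⟩
    have h6 := hge.2 (by omega)
    omega
  · rintro i h1 h2 h3 ⟨h4, _⟩
    exact (hS.ld_iff i h1 (by omega) (by omega)).1 h4 h3
  · intro i h1 h2 h3
    have h4 : D.rv i = .A ∨ D.rv i = .F := by
      cases hr : D.rv i <;> simp_all [RV.isA]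
    have h6 : AL la ba par i := (hS.al_iff i h1 (by omega) (by omega)).2 (by tauto)
    refine ⟨⟨h6, h2⟩, ?_⟩
    rintro rfl
    by_cases hm : S.mode = 0
    · rcases S.m0 hm with h7 | h7
      · omega
      · exact h7.2.1 ⟨h6, h2⟩
    · rcases hS.q_sp hm with h7 | h7 | h7 <;> rw [h7] at h3 <;>
        exact absurd h3 (by simp [RV.isA])
  · intro i h1 h2 h3
    refine ⟨⟨(hS.ld_iff i h1 (by omega) (by omega)).2 ?_, h2⟩, fun h => ?_⟩
    · intro h
      rw [h] at h3
      exact absurd h3 (by simp [RV.isN, RV.isS])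
    · rcases (hS.al_iff i h1 (by omega) (by omega)).1 h.1 with h | h | h | h | h <;>
        rw [h] at h3 <;> exact absurd h3 (by simp [RV.isN, RV.isS])
  · intro i h1 h2 h3
    obtain ⟨h4, h6, _⟩ := hS.As_q i h1 (by omega) (by omega) h3
    exact ⟨h4, h6⟩
  · intro i h1 h2 h3
    obtain ⟨h4, h6, _⟩ := hS.Fs_q i h1 (by omega) h3
    exact ⟨h4, h6⟩
  · intro i h1 h2 h3
    obtain ⟨h4, h6, h7⟩ := hS.FR_q i h1 (by omega) h3
    exact ⟨h4, h6, h7, h5 h7⟩

theorem ly_e4 (hD : PlanOK D (k + 1) la ba par) (S : Seam k (LDk la ba k) (ALk la ba par k))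
    {sp : ℕ} (hS : PlanSp D (k + 1) la ba par S.q S.mode sp k) (hq : S.mode ≠ 0 → 1 ≤ S.q)
    (h5 : S.mode = 5 → 2 ≤ S.h) (hom : D.rv k = .II) (hs : 1 ≤ D.cl la k .s) {j : ℕ}
    (hj : (nmE4 S (numE D (k + 1) sp) (D.ns + 1)).nT + j
      + (nmE4 S (numE D (k + 1) sp) (D.ns + 1)).c0 ≤ (nmE4 S (numE D (k + 1) sp) (D.ns + 1)).Ux) :
    LyOK (nmE4 S (numE D (k + 1) sp) (D.ns + 1)) (lyE4 S (numE D (k + 1) sp) j) D.rv (k + 1) :=
  ly_gen4 S (numE D (k + 1) sp) (ctx_e4 hD S hS hq h5 hom hs (adm_e4 hD S hS hq hj)) _ rfl _ rfl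

theorem xf_e4 (hD : PlanOK D (k + 1) la ba par) (S : Seam k (LDk la ba k) (ALk la ba par k))
    {sp : ℕ} (hS : PlanSp D (k + 1) la ba par S.q S.mode sp k) (hq : S.mode ≠ 0 → 1 ≤ S.q)
    (h5 : S.mode = 5 → 2 ≤ S.h) (hom : D.rv k = .II) (hs : 1 ≤ D.cl la k .s) {j : ℕ}
    (hj : (nmE4 S (numE D (k + 1) sp) (D.ns + 1)).nT + j
      + (nmE4 S (numE D (k + 1) sp) (D.ns + 1)).c0 ≤ (nmE4 S (numE D (k + 1) sp) (D.ns + 1)).Ux) :
    XfOK D (nmE4 S (numE D (k + 1) sp) (D.ns + 1)) (lyE4 S (numE D (k + 1) sp) j) (k + 1)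
      la ba par := by
  have hA := adm_e4 hD S hS hq hj
  have L := low_all S (numE D (k + 1) sp) j hA
  have M := mod_all S (numE D (k + 1) sp) j hA
  have hY := ly_e4 hD S hS hq h5 hom hs hj
  have hlj := lay_j S (numE D (k + 1) sp) j
  have hUg := L.U_ge
  have hwg := L.w_ge
  have hX1 := L.X_lo 1 le_rfl
  have hge := e_ge hD hs
  have e_m : mz S (numE D (k + 1) sp) = wz S (numE D (k + 1) sp) + (numE D (k + 1) sp).N0 +
    (numE D (k + 1) sp).nT + S.h := rfl
  have hsp : (numE D (k + 1) sp).sp = sp := rfl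
  have hN0 : 1 ≤ (numE D (k + 1) sp).N0 := by
    change 1 ≤ D.ns + 1 + D.nSg (k + 1) + 2 * D.nPr
    omega
  rw [hlj] at hwg hX1
  have hFs : ∀ b, D.rb b = .tl → (sp = 2 ∨ sp = 3) ∧ ba b ≠ k := by
    intro b hb
    have h1 := (hD.b_Fs b).1 hb
    refine ⟨(hS.Fs_q _ (by have := hD.hd.ba_pos b; omega)
      (by have := hD.hd.ba_lt b; omega) h1).2.1, fun h => ?_⟩
    rw [h, hom] at h1
    exact absurd h1 (by simp)
  have hxf : ∀ i, i ≠ k →
      (lyE4 S (numE D (k + 1) sp) j).xf i = (layOf S (numE D (k + 1) sp) j).xsf := by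
    intro i hi
    exact if_neg hi
  have hpk : (lyE4 S (numE D (k + 1) sp) j).p (k + 1) =
      wz S (numE D (k + 1) sp) + (numE D (k + 1) sp).N0 := if_pos rfl
  have hxk : (lyE4 S (numE D (k + 1) sp) j).xf k = false := if_pos rfl
  have hne : ∀ b, D.rb b = .tl → D.nb .tl ≠ 0 := by
    intro b hb
    unfold PlanData.nb
    exact (Finset.card_pos.2 ⟨b, by rw [Finset.mem_filter]; exact ⟨Finset.mem_univ _, hb⟩⟩).ne'
  refine
    { xf_b := ?_, xf_o := ?_, lb_b := ?_, lb_b' := ?_, lb_o := ?_, lb_o' := ?_ }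
  · intro b hb hx
    rw [hxf _ (hFs b hb).2] at hx
    exact hS.sp3 (M.xs_ok hx).1 b hb
  · intro _ _ h
    change (lyE4 S (numE D (k + 1) sp) j).xf k = true at h
    rw [hxk] at h
    exact absurd h (by simp)
  · intro b hb h0
    have h3 : sp = 3 := by
      rcases (hFs b hb).1 with h | h
      · have := hS.sp2 h b hb
        omega
      · exact h
    have h4 := hge.2 (hne b hb)
    rw [hxf _ (hFs b hb).2]
    change wz S (numE D (k + 1) sp) + mz S (numE D (k + 1) sp) + (numE D (k + 1) sp).n2 + j + 1 <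
      (layOf S (numE D (k + 1) sp) j).y +
      (wz S (numE D (k + 1) sp) + (numE D (k + 1) sp).N0 - 1) +
      (wz S (numE D (k + 1) sp) + (D.ns + 1) / 2 + 1) +
      (if (layOf S (numE D (k + 1) sp) j).xsf then (layOf S (numE D (k + 1) sp) j).xs
        else Xl S (numE D (k + 1) sp) (layOf S (numE D (k + 1) sp) j) 1)
    split_ifs with hx
    · have h4 := M.Fx hx
      rw [hlj] at h4
      omega
    · have h4 := M.F3 (by omega) (by simpa using hx)
      rw [hlj] at h4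
      omega
  · intro b hb h1
    change wz S (numE D (k + 1) sp) + mz S (numE D (k + 1) sp) + (numE D (k + 1) sp).n2 + j + 1 <
      (layOf S (numE D (k + 1) sp) j).y +
      (wz S (numE D (k + 1) sp) + (numE D (k + 1) sp).N0 - 1) +
      2 * wz S (numE D (k + 1) sp) + 2 +
      Xl S (numE D (k + 1) sp) (layOf S (numE D (k + 1) sp) j) 1
    omega
  · intro _ _ h
    change D.cl la k .s = 0 at h
    omega
  · intro _ _ _
    change wz S (numE D (k + 1) sp) + mz S (numE D (k + 1) sp) + (numE D (k + 1) sp).n2 + j + 1 <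
      ((lyE4 S (numE D (k + 1) sp) j).p k + (lyE4 S (numE D (k + 1) sp) j).p (k + 1)) +
      2 * wz S (numE D (k + 1) sp) + 2 +
      Xl S (numE D (k + 1) sp) (layOf S (numE D (k + 1) sp) j) 1
    rw [hpk]
    omega

theorem st_e4 (hD : PlanOK D (k + 1) la ba par) (S : Seam k (LDk la ba k) (ALk la ba par k))
    {sp : ℕ} (hS : PlanSp D (k + 1) la ba par S.q S.mode sp k) (hq : S.mode ≠ 0 → 1 ≤ S.q)
    (h5 : S.mode = 5 → 2 ≤ S.h) (hom : D.rv k = .II) (hs : 1 ≤ D.cl la k .s) {j : ℕ}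
    (hj : (nmE4 S (numE D (k + 1) sp) (D.ns + 1)).nT + (j + 1)
      + (nmE4 S (numE D (k + 1) sp) (D.ns + 1)).c0 ≤ (nmE4 S (numE D (k + 1) sp) (D.ns + 1)).Ux)
    (hP : 2 ≤ (nmE4 S (numE D (k + 1) sp) (D.ns + 1)).P) :
    StOK (nmE4 S (numE D (k + 1) sp) (D.ns + 1)) (lyE4 S (numE D (k + 1) sp) j)
      (lyE4 S (numE D (k + 1) sp) (j + 1)) D.rv (k + 1) := by
  have hA := adm_e4 hD S hS hq hj
  have H := ctx_e4 hD S hS hq h5 hom hs hA
  have T := step_all S (numE D (k + 1) sp) j hP hA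
  have hbs : ∀ j' i, i < k → (lyE4 S (numE D (k + 1) sp) j').bs i =
      bs S (numE D (k + 1) sp) (layOf S (numE D (k + 1) sp) j') i := by
    intro j' i hi
    have h1 : (lyE4 S (numE D (k + 1) sp) j').p i =
        pl S (numE D (k + 1) sp) (layOf S (numE D (k + 1) sp) j') i := if_neg (by omega)
    have h2 : (lyE4 S (numE D (k + 1) sp) j').p (i + 1) =
        pl S (numE D (k + 1) sp) (layOf S (numE D (k + 1) sp) j') (i + 1) := if_neg (by omega)
    unfold Ly.bs bs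
    rw [h1, h2]
  have lA : ∀ a, a < k + 1 → (D.rv a).isA = true → a < k := by
    intro a h1 h2
    rcases Nat.lt_or_ge a k with h | h
    · exact h
    · rw [show a = k by omega, hom] at h2
      exact absurd h2 (by simp [RV.isA])
  have hX := (ly_e4 hD S hS hq h5 hom hs (j := j) (by omega)).X_lo
  refine ⟨?_, ?_⟩
  · intro i a h1 h2 h3 h4 ho h5 h6 _
    have g2 : i < k := by
      change i ≠ k at ho
      omega
    have g4 := lA a h4 h6
    obtain ⟨h7, h8⟩ := H.A a h3 g4 h6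
    obtain ⟨h9, h10⟩ := H.N i h1 g2 (II_N h5)
    rw [hbs _ i g2, hbs _ i g2, hbs _ a g4, hbs _ a g4]
    have h11 := T.st1 i a h9 h10 h7 h8
    omega
  · intro a h1 h2 h3 _
    have g2 := lA a h2 h3
    obtain ⟨h7, h8⟩ := H.A a h1 g2 h3
    rw [hbs _ a g2, hbs _ a g2]
    have h11 := T.st2 a h7 h8
    omega

end Pool.Agent.Lob5
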