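import Pool.Agent.Lob5.Cfg
import Pool.Agent.Lob89.Greedy

/-!
# Existence of the static labels and of the labels `X0`

* `exists_sigma`. The set of static labels `T = [w+1, w+e/2] ∪ [w+N0-(e+1)/2+1, w+N0]` has `e` elements (it is
  a disjoint union since `e ≤ N0`). There are `D.ns = e - [pk ≠ 0]` static slots (`e_eq`), at most one of
  them has role `s0` (`cb b s0 = 1` only for bushes of role `tl`, `s_s0`, `nb tl ≤ 1`), it gets `s0v` (an
  element of `T` different from `pk`, `s0_rng`); the others get the elements of `T \ {pk, s0v}` injectively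
  (`pk ∈ T` if `pk ≠ 0`, `pk_rng`).
* `exists_xi`. Let `H` be the set of bushes with a leaf of role `x0`; these bushes have role `L` and exactly one
  such leaf (`s_x0`), so `H.card = D.n2 = N.n2` (`n2_eq`). Order `H` by decreasing `τ`
  (`exists_antitone` in `Lob89/Greedy` with `J := τ`): the `i`-th bush gets `i`; its `τ` is at most
  `nT - i + 1` as `τ` is injective on `H` with values in `[1, nT]` (`i - 1` bushes have larger `τ`).
-/

namespace Pool.Agent.Lob5

open Pool.Agent.Lob89

variable {Lf B BL : Type*} [Fintype Lf] [Fintype B] [Fintype BL] [DecidableEq B]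
  {D : PlanData Lf B BL} {N : Nm} {k : ℕ} {la : Lf → ℕ} {ba : B → ℕ} {par : BL → B}

private theorem sel {α : Type*} (S : Finset α) (T : Finset ℕ) (h : S.card = T.card) :
    ∃ f : α → ℕ, (∀ s ∈ S, f s ∈ T) ∧ ∀ s ∈ S, ∀ t ∈ S, f s = f t → s = t := by
  classical
  let e := Finset.equivOfCardEq h
  refine ⟨fun s => if hs : s ∈ S then (e ⟨s, hs⟩ : ℕ) else 0, ?_, ?_⟩
  · intro s hs
    simp only [dif_pos hs]
    exact (e ⟨s, hs⟩).2
  · intro s hs t ht hst
    simp only [dif_pos hs, dif_pos ht] at hst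
    have h1 : e ⟨s, hs⟩ = e ⟨t, ht⟩ := Subtype.ext hst
    exact congrArg Subtype.val (e.injective h1)

theorem exists_sigma (hD : PlanOK D k la ba par) (hN : NmOK D N k par) (heN : N.eb + N.et ≤ N.N0) :
    ∃ σ : Lf ⊕ BL → ℕ, SigOK D N σ := by
  classical
  set T : Finset ℕ := Finset.Ioc N.w (N.w + N.eb) ∪
    Finset.Ioc (N.w + N.N0 - N.et) (N.w + N.N0) with hT
  have hTmem : ∀ n, n ∈ T ↔ (N.w < n ∧ n ≤ N.w + N.eb) ∨
      (N.w + N.N0 < n + N.et ∧ n ≤ N.w + N.N0) := by
    intro n
    rw [hT, Finset.mem_union, Finset.mem_Ioc, Finset.mem_Ioc]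
    have h1 : N.et ≤ N.N0 := by omega
    constructor
    · rintro (h | h)
      · exact Or.inl h
      · exact Or.inr ⟨by omega, h.2⟩
    · rintro (h | h)
      · exact Or.inl h
      · exact Or.inr ⟨by omega, h.2⟩
  have hebe := hN.ebe
  have hTc : T.card = N.e := by
    rw [hT, Finset.card_union_of_disjoint, Nat.card_Ioc, Nat.card_Ioc]
    · omega
    · rw [Finset.disjoint_left]
      intro n hn hn'
      rw [Finset.mem_Ioc] at hn hn'
      omega
  set St : Finset (Lf ⊕ BL) := (Finset.univ.filter fun x => D.rl x = .s).disjSum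
    (Finset.univ.filter fun y => D.rs y = .s ∨ D.rs y = .s0) with hSt
  have hStc : St.card = D.ns := by
    rw [hSt, Finset.card_disjSum]
    rfl
  have hStm : ∀ s, s ∈ St ↔ D.stat s := by
    intro s
    rcases s with x | y
    · rw [hSt, Finset.inl_mem_disjSum, Finset.mem_filter]
      exact ⟨fun h => h.2, fun h => ⟨Finset.mem_univ _, h⟩⟩
    · rw [hSt, Finset.inr_mem_disjSum, Finset.mem_filter]
      exact ⟨fun h => h.2, fun h => ⟨Finset.mem_univ _, h⟩⟩
  have he := hN.e_eq
  have hpk : (T.erase N.pk).card = D.ns := by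
    by_cases h0 : N.pk = 0
    · rw [if_pos h0] at he
      rw [Finset.erase_eq_of_notMem, hTc]
      · omega
      · rw [hTmem, h0]
        omega
    · rw [if_neg h0] at he
      rw [Finset.card_erase_of_mem ((hTmem _).2 (hN.pk_rng h0)), hTc]
      omega
  by_cases hy : ∃ y, D.rs y = .s0
  · obtain ⟨y0, hy0⟩ := hy
    have htl : ∀ y, D.rs y = .s0 → D.rb (par y) = .tl := by
      intro y hy
      by_contra hc
      have h1 := hD.s_s0 (par y)
      rw [if_neg hc] at h1
      unfold PlanData.cb at h1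
      rw [Finset.card_eq_zero] at h1
      have h2 : y ∈ Finset.univ.filter fun y' => par y' = par y ∧ D.rs y' = .s0 :=
        Finset.mem_filter.2 ⟨Finset.mem_univ _, rfl, hy⟩
      rw [h1] at h2
      exact absurd h2 (Finset.notMem_empty _)
    have hmem0 : par y0 ∈ Finset.univ.filter fun b => D.rb b = .tl :=
      Finset.mem_filter.2 ⟨Finset.mem_univ _, htl y0 hy0⟩
    have hnb : D.nb .tl ≠ 0 := by
      unfold PlanData.nb
      exact Finset.card_ne_zero_of_mem hmem0
    obtain ⟨hs0, hs0pk⟩ := hN.s0_rng hnb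
    have huniq : ∀ y, D.rs y = .s0 → y = y0 := by
      intro y hy
      have h1 : par y ∈ Finset.univ.filter fun b => D.rb b = .tl :=
        Finset.mem_filter.2 ⟨Finset.mem_univ _, htl y hy⟩
      have h2 := hN.tl_le
      unfold PlanData.nb at h2
      have h3 : par y = par y0 := Finset.card_le_one.1 h2 _ h1 _ hmem0
      have h4 := hD.s_s0 (par y0)
      rw [if_pos (htl y0 hy0)] at h4
      unfold PlanData.cb at h4
      exact Finset.card_le_one.1 h4.le y (Finset.mem_filter.2 ⟨Finset.mem_univ _, h3, hy⟩) y0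
        (Finset.mem_filter.2 ⟨Finset.mem_univ _, rfl, hy0⟩)
    have hst0 : (Sum.inr y0 : Lf ⊕ BL) ∈ St := (hStm _).2 (Or.inr hy0)
    have hs0T : N.s0v ∈ T.erase N.pk := Finset.mem_erase.2 ⟨hs0pk, (hTmem _).2 hs0⟩
    obtain ⟨f, hf, hfi⟩ := sel (St.erase (Sum.inr y0)) ((T.erase N.pk).erase N.s0v) (by
      rw [Finset.card_erase_of_mem hst0, Finset.card_erase_of_mem hs0T, hpk, hStc])
    have hfT : ∀ s, D.stat s → s ≠ Sum.inr y0 → f s ∈ T ∧ f s ≠ N.pk ∧ f s ≠ N.s0v := by
      intro s hs hne
      have h1 := hf s (Finset.mem_erase.2 ⟨hne, (hStm s).2 hs⟩)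
      rw [Finset.mem_erase, Finset.mem_erase] at h1
      exact ⟨h1.2.2, h1.2.1, h1.1⟩
    refine ⟨Function.update f (Sum.inr y0) N.s0v, ?_, ?_, ?_, ?_⟩
    · intro s hs
      rw [← hTmem]
      by_cases h : s = Sum.inr y0
      · rw [h, Function.update_self]
        exact (hTmem _).2 hs0
      · rw [Function.update_of_ne h]
        exact (hfT s hs h).1
    · intro s t hs ht hst
      by_cases h : s = Sum.inr y0
      · by_cases h' : t = Sum.inr y0
        · rw [h, h']
        · exfalso
          rw [h, Function.update_self, Function.update_of_ne h'] at hst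
          exact (hfT t ht h').2.2 hst.symm
      · by_cases h' : t = Sum.inr y0
        · exfalso
          rw [h', Function.update_self, Function.update_of_ne h] at hst
          exact (hfT s hs h).2.2 hst
        · rw [Function.update_of_ne h, Function.update_of_ne h'] at hst
          exact hfi s (Finset.mem_erase.2 ⟨h, (hStm s).2 hs⟩) t
            (Finset.mem_erase.2 ⟨h', (hStm t).2 ht⟩) hst
    · intro y hy
      rw [huniq y hy, Function.update_self]
    · intro s hs
      by_cases h : s = Sum.inr y0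
      · rw [h, Function.update_self]
        exact hs0pk
      · rw [Function.update_of_ne h]
        exact (hfT s hs h).2.1
  · push Not at hy
    obtain ⟨f, hf, hfi⟩ := sel St (T.erase N.pk) (by rw [hpk, hStc])
    refine ⟨f, ?_, ?_, ?_, ?_⟩
    · intro s hs
      rw [← hTmem]
      exact (Finset.mem_erase.1 (hf s ((hStm s).2 hs))).2
    · intro s t hs ht hst
      exact hfi s ((hStm s).2 hs) t ((hStm t).2 ht) hst
    · intro y hy'
      exact absurd hy' (hy y)
    · intro s hs
      exact (Finset.mem_erase.1 (hf s ((hStm s).2 hs))).1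

theorem exists_xi (hD : PlanOK D k la ba par) (hN : NmOK D N k par) (τ : B → ℕ)
    (h1 : ∀ b, (D.rb b).top = true → 1 ≤ τ b ∧ τ b ≤ N.nT)
    (h2 : ∀ b b', (D.rb b).top = true → (D.rb b').top = true → τ b = τ b' → b = b') :
    ∃ ξ : B → ℕ, ∀ (σ : Lf ⊕ BL → ℕ) (Low : Finset (ℕ ⊕ B)) (lw : ℕ ⊕ B → ℕ),
      XiOK D N ⟨σ, τ, ξ, Low, lw⟩ par := by
  classical
  set Y : Finset BL := Finset.univ.filter fun y => D.rs y = .x0 with hY
  set H : Finset B := Y.image par with hH
  have hL : ∀ y, D.rs y = .x0 → D.rb (par y) = .L := by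
    intro y hy
    by_contra hc
    have h3 := hD.s_x0 (par y)
    rw [if_neg hc] at h3
    unfold PlanData.cb at h3
    have h4 : y ∈ Finset.univ.filter fun y' => par y' = par y ∧ D.rs y' = .x0 :=
      Finset.mem_filter.2 ⟨Finset.mem_univ _, rfl, hy⟩
    have h5 := Finset.card_pos.2 ⟨y, h4⟩
    omega
  have hpar : ∀ y y', D.rs y = .x0 → D.rs y' = .x0 → par y = par y' → y = y' := by
    intro y y' hy hy' hyy
    have h3 := hD.s_x0 (par y)
    rw [if_pos (hL y hy)] at h3
    unfold PlanData.cb at h3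
    exact Finset.card_le_one.1 h3 y (Finset.mem_filter.2 ⟨Finset.mem_univ _, rfl, hy⟩) y'
      (Finset.mem_filter.2 ⟨Finset.mem_univ _, hyy.symm, hy'⟩)
  have hHc : H.card = N.n2 := by
    rw [hH, Finset.card_image_of_injOn, hN.n2_eq]
    · rfl
    · intro y hy y' hy' hyy
      have e1 : D.rs y = .x0 := (Finset.mem_filter.1 hy).2
      have e2 : D.rs y' = .x0 := (Finset.mem_filter.1 hy').2
      exact hpar y y' e1 e2 hyy
  have htop : ∀ b ∈ H, (D.rb b).top = true := by
    intro b hb
    rw [hH, Finset.mem_image] at hb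
    obtain ⟨y, hy, rfl⟩ := hb
    rw [hL y (Finset.mem_filter.1 hy).2]
    rfl
  obtain ⟨ρ, hρ1, hρ2, hρ3⟩ := exists_antitone (fun b : {b // b ∈ H} => τ b)
  have hcard : Fintype.card {b // b ∈ H} = N.n2 := by
    rw [Fintype.card_coe, hHc]
  rw [hcard] at hρ1
  have hmem : ∀ y, D.rs y = .x0 → par y ∈ H := by
    intro y hy
    rw [hH]
    exact Finset.mem_image_of_mem _ (Finset.mem_filter.2 ⟨Finset.mem_univ _, hy⟩)
  -- the key inequality
  have hkey : ∀ b : {b // b ∈ H}, τ b + ρ b ≤ N.nT + 1 := by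
    intro b
    have hb := h1 b (htop b b.2)
    have hge : (Finset.univ.filter fun b' : {b // b ∈ H} => ¬ ρ b' < ρ b).card ≤
        N.n2 + 1 - ρ b := by
      rw [← Nat.card_Icc]
      refine Finset.card_le_card_of_injOn ρ ?_ hρ2.injOn
      intro b' hb'
      have e1 : ¬ ρ b' < ρ b := (Finset.mem_filter.1 hb').2
      rw [Finset.mem_coe, Finset.mem_Icc]
      exact ⟨by omega, (hρ1 b').2⟩
    have hlt : (Finset.univ.filter fun b' : {b // b ∈ H} => ρ b' < ρ b).card ≤
        N.nT - τ b := by
      rw [← Nat.card_Ioc]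
      refine Finset.card_le_card_of_injOn (fun b' => τ b') ?_ ?_
      · intro b' hb'
        have e1 : ρ b' < ρ b := (Finset.mem_filter.1 hb').2
        have e2 : ¬ τ b' < τ b := fun hc => by
          have := hρ3 b b' hc
          omega
        have e3 : τ b' ≠ τ b := fun hc => by
          have := h2 b' b (htop b' b'.2) (htop b b.2) hc
          rw [Subtype.ext this] at e1
          exact lt_irrefl _ e1
        rw [Finset.mem_coe, Finset.mem_Ioc]
        change τ b < τ b' ∧ τ b' ≤ N.nT
        exact ⟨by omega, (h1 b' (htop b' b'.2)).2⟩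
      · intro b' _ b'' _ hbb
        exact Subtype.ext (h2 b' b'' (htop b' b'.2) (htop b'' b''.2) hbb)
    have hsum := Finset.card_filter_add_card_filter_not (s := Finset.univ)
      (fun b' : {b // b ∈ H} => ρ b' < ρ b)
    rw [Finset.card_univ, hcard] at hsum
    have := hρ1 b
    omega
  refine ⟨fun b => if h : b ∈ H then ρ ⟨b, h⟩ else 0, fun σ Low lw => ⟨?_, ?_, ?_⟩⟩
  · intro y hy
    simp only [dif_pos (hmem y hy)]
    have := hρ1 ⟨par y, hmem y hy⟩
    omega
  · intro y y' hy hy' hyy
    simp only [dif_pos (hmem y hy), dif_pos (hmem y' hy')] at hyy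
    have h3 : ρ ⟨par y, hmem y hy⟩ = ρ ⟨par y', hmem y' hy'⟩ := by omega
    exact congrArg Subtype.val (hρ2 h3)
  · intro y hy
    simp only [dif_pos (hmem y hy)]
    have h3 := hkey ⟨par y, hmem y hy⟩
    simp only at h3
    omega

end Pool.Agent.Lob5
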