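import Pool.Agent.Lob5.FillDefs
import Pool.Agent.Lob89.Greedy

/-!
# The sweep and the greedy step

Proof. Apply `sweep` with `pp := F.ppf`, `own := own`, `W := F.W k la ba par`, `K := F.K`
(`F.K` is its definition), `own_mem` from `pr_E` and `pf_b` (elements of `F.Pi` are `some b` with
`F.pr b = true`), `own_inj` trivial, `own_pp`: an element `e` with `F.pf e = true` is `Sum.inl i` with
`1 ≤ i < k` (`pf_b`, `E_v`), by `pf_v` there is `b` with `ba b = i`, `F.kt b = lu`, `pp_v`, `lu_l`.
Lower bound: `LB` and the last statement of `sweep`.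
Greedy step: the indices in `[1, U]` which are not `xi e` for `e ∈ F.E`, `F.x e = true`, are at least
`U - nX F.x F.E ≥ F.G.card` many; take a subset `I` of them with exactly `F.G.card` elements and apply
`Pool.Agent.Lob89.greedy` to the type `{n // n ∈ F.G}`, `W n := F.W0 k la ba par n` and
`M := I.image F.X` (`F.X` is injective). Every value `σ n ∈ M` is `F.X (gi n)` for a unique index
`gi n ∈ I`.
-/

namespace Pool.Agent.Lob5

open Pool.Agent.Lob89

variable {k : ℕ} {Lf B BL : Type*} [Fintype Lf] [Fintype B] [Fintype BL] [DecidableEq B]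
  {la : Lf → ℕ} {ba : B → ℕ} {par : BL → B}

theorem fill_res {F : FillData Lf B BL} (hF : FillOK F k la ba par) :
    ∃ (lab : ℕ ⊕ B → ℤ) (xi gi : ℕ ⊕ B → ℕ) (u v : Option B → ℤ),
      FillRes F k la ba par lab xi gi u v := by
  classical
  obtain ⟨lab, xi, u, v, P, hinj, hZR, hge⟩ := sweep F.l F.x F.pf F.ppf own (F.W k la ba par)
    (fun i => (F.X i : ℤ)) F.E F.Pi F.lo F.hi F.U F.Z F.R F.tk F.tk' F.K rfl hF.H
    (by
      intro t ht
      unfold FillData.Pi at ht
      rw [Finset.mem_image] at ht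
      obtain ⟨b, hb, rfl⟩ := ht
      rw [Finset.mem_filter] at hb
      exact ⟨hF.pr_E b hb.2, hF.pf_b b⟩)
    (by
      intro s hs t ht hst
      unfold FillData.Pi at hs ht
      rw [Finset.mem_image] at hs ht
      obtain ⟨b, _, rfl⟩ := hs
      obtain ⟨c, _, rfl⟩ := ht
      have h1 : (Sum.inr b : ℕ ⊕ B) = Sum.inr c := hst
      rw [Sum.inr.inj h1])
    (by
      intro e he hp
      rcases e with i | b
      · obtain ⟨h1, h2, _⟩ := (hF.E_v i).1 he
        obtain ⟨b, hb, hk⟩ := (hF.pf_v i h1 h2).1 hp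
        have h3 : F.ppf (Sum.inl i) = some b := by
          have h4 := hF.pp_v b hk
          rw [hb] at h4
          exact h4
        rw [h3]
        exact hF.lu_l b hk
      · rw [hF.pf_b b] at hp
        exact absurd hp Bool.false_ne_true)
    hF.tk_mem hF.tk_inj hF.h2' hF.h4
  -- the free indices
  set S : Finset ℕ := (Finset.Icc 1 F.U) \ ((F.E.filter fun e => F.x e = true).image xi) with hS
  have hScard : F.G.card ≤ S.card := by
    have h1 := Finset.le_card_sdiff ((F.E.filter fun e => F.x e = true).image xi)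
      (Finset.Icc 1 F.U)
    have h2 : ((F.E.filter fun e => F.x e = true).image xi).card ≤ nX F.x F.E :=
      Finset.card_image_le
    rw [Nat.card_Icc] at h1
    have h3 := hF.g_card
    rw [hS]
    omega
  obtain ⟨I, hIS, hIc⟩ := Finset.exists_subset_card_eq hScard
  have hXinj : Function.Injective F.X := hF.X_mono.injective
  obtain ⟨σ, hσM, _, hσinj, hσW⟩ := greedy (fun n : {n // n ∈ F.G} => F.W0 k la ba par n)
    (I.image F.X) (by
      rw [Finset.card_image_of_injective _ hXinj, hIc, Fintype.card_coe])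
  have hex : ∀ n : {n // n ∈ F.G}, ∃ i ∈ I, F.X i = σ n := by
    intro n
    obtain ⟨i, hi, h⟩ := Finset.mem_image.1 (hσM n)
    exact ⟨i, hi, h⟩
  choose g hgI hgX using hex
  have hgi : ∀ n (hn : n ∈ F.G), (if h : n ∈ F.G then g ⟨n, h⟩ else 0) = g ⟨n, hn⟩ := by
    intro n hn
    rw [dif_pos hn]
  have hgS : ∀ n, g n ∈ S := fun n => hIS (hgI n)
  refine ⟨lab, xi, fun n => if h : n ∈ F.G then g ⟨n, h⟩ else 0, u, v, ?_⟩
  refine ⟨P, ?_, ?_, ?_, hinj, ?_, ?_, ?_⟩
  · intro n hn
    rw [hgi n hn]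
    have h1 := hgS ⟨n, hn⟩
    rw [hS, Finset.mem_sdiff, Finset.mem_Icc] at h1
    exact h1.1
  · intro n hn n' hn' h
    rw [hgi n hn, hgi n' hn'] at h
    have h1 : σ ⟨n, hn⟩ = σ ⟨n', hn'⟩ := by
      rw [← hgX, ← hgX, h]
    exact congrArg Subtype.val (hσinj h1)
  · intro n hn e he hx h
    rw [hgi n hn] at h
    have h1 := hgS ⟨n, hn⟩
    rw [hS, Finset.mem_sdiff] at h1
    apply h1.2
    rw [h]
    exact Finset.mem_image_of_mem _ (Finset.mem_filter.2 ⟨he, hx⟩)
  · intro e he
    rw [Finset.mem_union]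
    intro hc
    rcases hc with hc | hc
    · exact (hZR e he).1 hc
    · exact (hZR e he).2 hc
  · intro e he
    exact lt_of_lt_of_le (hF.LB e he) (hge e he)
  · intro n hn n' hn' h
    rw [hgi n hn, hgi n' hn', hgX, hgX] at h
    exact congrArg Subtype.val (hσW (a₁ := ⟨n, hn⟩) (a₂ := ⟨n', hn'⟩) h)

end Pool.Agent.Lob5
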