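import Pool.Agent.Lob5.GLay

/-!
# Layers given by an increasing labelling: comparison of bases, steps

See `GLay` for the notation and the basic facts.

`dab_GL`: `Dbb`, both of kind b: `hb` and `S.tbb`; `z` of kind g: `σ (n2+j+U+rz) ≥ σ (n2+j+ra) + (U+rz-ra)`, `S.tbg`.
`Dgg`: `bs a ≤ 2w+N0-(h+1)+J a`, `bs z ≥ w+N0+n2+j+U+J z`, `hr`, `S.tgg`. `Dgb`: `bs a ≤ 2w+N0-(h+1)+J a`,
`bs z ≥ w+N0+nT+n2+j+J z`, `w = n2+Ux+1+h+1+[sp ≠ 0]`, `S.tgb`, `hm`.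

`step_GL`: with `t a = w - (h+1-rk (oe a)) - σ (n2+j+U+rk (oe a))` (a natural number, the number of missing
labels above), `s i = σ (n2+j+rk (oe i)) - (n2+j+rk (oe i))`: kind g: the base grows by `t a - t' a`; kind b: by
`1 + s' i - s i`; `s' i + t' a ≤ r`, `t i, t' i ≤ r`. `st1`: kind b: `h1`. kind g: if `rk (oe i) ≤ rk (oe a)` then `t a ≤ t i`, `t' a ≤ t' i`,
otherwise `t i ≤ t a`, `t' i ≤ t' a`; `h2`. `st2`: `h2`. (`i = q`, `¬ al q` is the same.)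
-/

namespace Pool.Agent.Lob5

variable {k : ℕ} {ld al : ℕ → Prop}

private theorem gd_oe {i : ℕ} (h1 : 1 ≤ i) (h2 : i < k) : 1 ≤ oe i ∧ oe i ≤ k := by
  unfold oe
  split_ifs <;> omega

private theorem gd_ee {i : ℕ} (h1 : 1 ≤ i) (h2 : i < k) : 1 ≤ ee i ∧ ee i ≤ k := by
  unfold ee
  split_ifs <;> omega

private theorem gd_two (Λ : FLay) (i : ℕ) : Λ.bs i = Λ.p (oe i) + Λ.p (ee i) := by
  unfold FLay.bs oe ee
  by_cases h : i % 2 = 1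
  · rw [if_pos h, if_pos h]
  · rw [if_neg h, if_neg h, add_comm]

private theorem gd_sh {σ : ℕ → ℕ} (h : StrictMono σ) {r r' : ℕ} (hr : r ≤ r') :
    σ r + r' ≤ σ r' + r := by
  obtain ⟨d, rfl⟩ := Nat.exists_eq_add_of_le hr
  clear hr
  induction d with
  | zero => simp
  | succ d ih =>
    have h1 : σ (r + d) < σ (r + (d + 1)) := h (by omega)
    omega

private theorem gd_ge {σ : ℕ → ℕ} (h : StrictMono σ) (r : ℕ) : r ≤ σ r := h.le_apply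

/-- kind b -/
private theorem gd_b (S : Seam k ld al) (n : Num) {Λ : FLay} {σ : ℕ → ℕ} (h : GLy S n Λ σ)
    {i : ℕ} (hi : ld i) (hb : S.bad (oe i)) :
    1 ≤ S.rk (oe i) ∧ S.rk (oe i) ≤ S.P ∧
      Λ.bs i = wz S n.up + n.N0 + n.nT + σ (n.n2 + Λ.j + S.rk (oe i)) + S.rk (ee i) := by
  have h1 := S.ld_pos i hi
  have h2 := S.ld_lt i hi
  have r1 := S.rk_ob _ (gd_oe h1 h2).1 (gd_oe h1 h2).2 oe_odd hb
  have r2 := S.rk_eg _ (gd_ee h1 h2).1 (gd_ee h1 h2).2 ee_even ((S.diff' hi).1 hb)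
  refine ⟨r1.1, r1.2, ?_⟩
  rw [gd_two, h.podd _ oe_odd, h.peven _ ee_even, if_pos r1.2, if_pos (by omega), Nat.add_zero]
  omega

/-- kind g -/
private theorem gd_g (S : Seam k ld al) (n : Num) {Λ : FLay} {σ : ℕ → ℕ} (h : GLy S n Λ σ)
    {i : ℕ} (hi : ld i) (hb : ¬ S.bad (oe i)) :
    S.P + 1 ≤ S.rk (oe i) ∧ S.rk (oe i) ≤ S.h + 1 ∧
      Λ.bs i = wz S n.up + n.N0 + σ (n.n2 + Λ.j + S.rk (oe i) + Λ.U) + S.rk (ee i) := by
  have h1 := S.ld_pos i hi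
  have h2 := S.ld_lt i hi
  have r1 := S.rk_og _ (gd_oe h1 h2).1 (gd_oe h1 h2).2 oe_odd hb
  have hbe : S.bad (ee i) := by
    by_contra h3
    exact hb ((S.diff' hi).2 h3)
  have r2 := S.rk_eb _ (gd_ee h1 h2).1 (gd_ee h1 h2).2 ee_even hbe
  refine ⟨r1.1, r1.2, ?_⟩
  rw [gd_two, h.podd _ oe_odd, h.peven _ ee_even, if_neg (by omega), if_neg (by omega)]
  omega

theorem dab_GL (S : Seam k ld al) (n : Num) {Λ : FLay} {σ : ℕ → ℕ} (h : GLy S n Λ σ)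
    (hm : n.sp ≠ 0 → S.mode ≠ 0 ∧ S.mode ≠ 3)
    (hr : wz S n.up ≤ n.n2 + Λ.j + Λ.U + S.h + 1 + 2 + (if 2 ≤ n.sp then 1 else 0))
    (hb : ∀ r r', 1 ≤ r → r ≤ S.P → 1 ≤ r' → r' ≤ S.P →
      σ (n.n2 + Λ.j + r) + r' + (if n.sp = 0 ∧ S.mode = 5 then 1 else 0) ≤
        σ (n.n2 + Λ.j + r') + r + (if S.mode = 1 ∨ S.mode = 2 ∨ S.mode = 5 then 1 else 0)) :
    FDab S n Λ := by
  have hup : wz S n.up = n.n2 + n.Ux + S.h + 1 + (if n.sp = 0 then 0 else 1) + 1 := by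
    rw [wz_up]
    rfl
  have hU := h.U_ge
  have htop := h.top
  refine ⟨?_, ?_, ?_⟩
  · intro a z ha haq hba hz hza
    have hla := S.al_ld a ha
    have hJa := rk_sum S.rk a
    have hJz := rk_sum S.rk z
    obtain ⟨a1, a2, a3⟩ := gd_b S n h hla hba
    by_cases hbz : S.bad (oe z)
    · obtain ⟨z1, z2, z3⟩ := gd_b S n h hz hbz
      have h1 := hb _ _ a1 a2 z1 z2
      have h2 := S.tbb a z ha haq hba hz hza hbz
      rw [a3, z3]
      omega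
    · obtain ⟨z1, z2, z3⟩ := gd_g S n h hz hbz
      have h1 := gd_sh h.mono (show n.n2 + Λ.j + S.rk (oe a) ≤ n.n2 + Λ.j + S.rk (oe z) + Λ.U by
        omega)
      have h2 := S.tbg a z ha haq hba hz hza hbz
      rw [a3, z3]
      split_ifs at h2 ⊢ <;> omega
  · intro a z ha haq hba hz hza hbz
    have hla := S.al_ld a ha
    have hJa := rk_sum S.rk a
    have hJz := rk_sum S.rk z
    obtain ⟨a1, a2, a3⟩ := gd_g S n h hla hba
    obtain ⟨z1, z2, z3⟩ := gd_g S n h hz hbz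
    have h1 := gd_sh h.mono (show n.n2 + Λ.j + S.rk (oe a) + Λ.U ≤
      n.n2 + Λ.j + Λ.U + S.h + 1 by omega)
    have h2 := S.tgg a z ha haq hba hz hza hbz
    have h3 := gd_ge h.mono (n.n2 + Λ.j + S.rk (oe z) + Λ.U)
    rw [a3, z3]
    omega
  · intro a z ha haq hba hz hza hbz
    have hla := S.al_ld a ha
    have hJa := rk_sum S.rk a
    have hJz := rk_sum S.rk z
    obtain ⟨a1, a2, a3⟩ := gd_g S n h hla hba
    obtain ⟨z1, z2, z3⟩ := gd_b S n h hz hbz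
    have h1 := gd_sh h.mono (show n.n2 + Λ.j + S.rk (oe a) + Λ.U ≤
      n.n2 + Λ.j + Λ.U + S.h + 1 by omega)
    have h2 := S.tgb a z ha haq hba hz hza hbz
    have h3 := gd_ge h.mono (n.n2 + Λ.j + S.rk (oe z))
    rw [a3, z3]
    by_cases hs : n.sp = 0
    · rw [if_pos hs] at hup
      have h4 : 1 ≤ (if S.mode = 0 ∨ S.mode = 3 then 1 else 2) := by split_ifs <;> omega
      omega
    · rw [if_neg hs] at hup
      rw [if_neg (by have := hm hs; omega)] at h2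
      omega

theorem step_GL (S : Seam k ld al) (n : Num) {Λ Λ' : FLay} {σ σ' : ℕ → ℕ} (h : GLy S n Λ σ)
    (h' : GLy S n Λ' σ') (hj : Λ'.j = Λ.j + 1) (r : ℕ)
    (hr : wz S n.up ≤ n.n2 + Λ.j + Λ.U + S.h + 1 + r)
    (hr' : wz S n.up ≤ n.n2 + Λ'.j + Λ'.U + S.h + 1 + r)
    (h2 : r + (n.n2 + Λ.j + 1) ≤ Λ.X 1)
    (h1 : ∀ i, ld i → ¬ al i → S.bad (oe i) → r + 1 + (n.n2 + Λ.j + 1) ≤ Λ.X 1) :
    FStep S n Λ Λ' := by
  have hU := h.U_ge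
  have htop := h.top
  have hU' := h'.U_ge
  have htop' := h'.top
  rw [hj] at hr' htop'
  -- the base of a vertex of kind g
  have key : ∀ a, ld a → ¬ S.bad (oe a) → ∃ t t' : ℕ, t ≤ r ∧ t' ≤ r ∧
      Λ'.bs a + t' = Λ.bs a + t ∧ S.P + 1 ≤ S.rk (oe a) ∧ S.rk (oe a) ≤ S.h + 1 ∧
      σ (n.n2 + Λ.j + S.rk (oe a) + Λ.U) + (S.h + 1 - S.rk (oe a)) + t = wz S n.up ∧
      σ' (n.n2 + (Λ.j + 1) + S.rk (oe a) + Λ'.U) + (S.h + 1 - S.rk (oe a)) + t' =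
        wz S n.up := by
    intro a ha hba
    obtain ⟨a1, a2, a3⟩ := gd_g S n h ha hba
    obtain ⟨-, -, a3'⟩ := gd_g S n h' ha hba
    rw [hj] at a3'
    have g1 := gd_sh h.mono (show n.n2 + Λ.j + S.rk (oe a) + Λ.U ≤
      n.n2 + Λ.j + Λ.U + S.h + 1 by omega)
    have g2 := gd_sh h'.mono (show n.n2 + (Λ.j + 1) + S.rk (oe a) + Λ'.U ≤
      n.n2 + (Λ.j + 1) + Λ'.U + S.h + 1 by omega)
    have g3 := gd_ge h.mono (n.n2 + Λ.j + S.rk (oe a) + Λ.U)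
    have g4 := gd_ge h'.mono (n.n2 + (Λ.j + 1) + S.rk (oe a) + Λ'.U)
    refine ⟨wz S n.up - (S.h + 1 - S.rk (oe a)) - σ (n.n2 + Λ.j + S.rk (oe a) + Λ.U),
      wz S n.up - (S.h + 1 - S.rk (oe a)) - σ' (n.n2 + (Λ.j + 1) + S.rk (oe a) + Λ'.U),
      ?_, ?_, ?_, a1, a2, ?_, ?_⟩
    · omega
    · omega
    · rw [a3, a3']
      omega
    · omega
    · omega
  refine ⟨?_, ?_⟩
  · intro i a hi hia ha haq hba
    obtain ⟨t, t', h3, h4, h5, h6, h7, h8, h9⟩ := key a (S.al_ld a ha) hba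
    by_cases hbi : S.bad (oe i)
    · obtain ⟨i1, i2, i3⟩ := gd_b S n h hi hbi
      obtain ⟨-, -, i3'⟩ := gd_b S n h' hi hbi
      rw [hj] at i3'
      have g1 := gd_sh h'.mono (show n.n2 + (Λ.j + 1) + S.rk (oe i) ≤
        n.n2 + (Λ.j + 1) + S.rk (oe a) + Λ'.U by omega)
      have g2 := gd_ge h.mono (n.n2 + Λ.j + S.rk (oe i))
      have g3 := h1 i hi hia hbi
      rw [i3, i3']
      omega
    · obtain ⟨u, u', k3, k4, k5, k6, k7, k8, k9⟩ := key i hi hbi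
      rcases Nat.le_total (S.rk (oe i)) (S.rk (oe a)) with hle | hle
      · have g2 := gd_sh h'.mono (show n.n2 + (Λ.j + 1) + S.rk (oe i) + Λ'.U ≤
          n.n2 + (Λ.j + 1) + S.rk (oe a) + Λ'.U by omega)
        omega
      · have g1 := gd_sh h.mono (show n.n2 + Λ.j + S.rk (oe a) + Λ.U ≤
          n.n2 + Λ.j + S.rk (oe i) + Λ.U by omega)
        omega
  · intro a ha haq hba
    obtain ⟨t, t', h3, h4, h5, h6, h7, h8, h9⟩ := key a (S.al_ld a ha) hba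
    omega

end Pool.Agent.Lob5
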