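import Pool.Agent.Lob5.GLay

/-!
# The layers used so far are of the form `GLy` (all modes except the mode 3 with `sp ≠ 0`)

* `gl_ins`: insertion of `z` into any layout `Λ` with `k2 = false`: `σ r = sk z (lam y1 y2 r)`.
* `gi_P`: `σ r = lam y1 y2 r`, for `layOf S n.up j`.
* `gi_X`: `z = Xl i0`, at the position `r0 = n2+j+P+i0`: `σ r = lam y1 y2 (sk r0 r)`.
* `gl_Z`: all layers. `GIF`: the facts about the layouts which are used.
-/

namespace Pool.Agent.Lob5

variable {k : ℕ} {ld al : ℕ → Prop}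

private theorem gi_wz (S : Seam k ld al) (n : Num) (h : n.sp ≠ 0) :
    wz S n = n.n2 + n.Ux + S.h + 2 := by
  unfold wz
  rw [if_neg h]

/-- the facts about the layouts which are used -/
private def GIF (S : Seam k ld al) (n : Num) (Λ : Lay) : Prop :=
  Λ.k2 = false ∧ n.nT ≤ Λ.U ∧
    lam Λ.y1 Λ.y2 (n.n2 + Λ.j + Λ.U + S.h + 1) ≤ wz S n ∧
    wz S n ≤ n.n2 + Λ.j + Λ.U + S.h + 1 + 1 + (if n.sp = 3 then 1 else 0)

private theorem gi_S (S : Seam k ld al) (n : Num) (j y : ℕ) (hs : n.sp ≠ 0)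
    (hA : Adm S n j) : GIF S n (layS S n j y) := by
  have hw := gi_wz S n hs
  have hjU := hA.jU
  have hj : n.nT + j ≤ n.Ux := by split_ifs at hjU <;> omega
  refine ⟨rfl, ?_, ?_, ?_⟩
  · change n.nT ≤ n.Ux - j
    omega
  · change lam y (wz S n + 2) (n.n2 + j + (n.Ux - j) + S.h + 1) ≤ wz S n
    unfold lam
    split_ifs <;> omega
  · change wz S n ≤ n.n2 + j + (n.Ux - j) + S.h + 1 + 1 + (if n.sp = 3 then 1 else 0)
    split_ifs <;> omega

private theorem gi_D (S : Seam k ld al) (n : Num) (j y x : ℕ) (hs : n.sp = 3)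
    (hA : Adm S n j) : GIF S n (layD n j y x) := by
  have hw := gi_wz S n (by omega)
  have hjU := hA.jU
  rw [if_pos (by omega)] at hjU
  refine ⟨rfl, ?_, ?_, ?_⟩
  · change n.nT ≤ n.Ux - 1 - j
    omega
  · change lam (min y x) (max y x) (n.n2 + j + (n.Ux - 1 - j) + S.h + 1) ≤ wz S n
    unfold lam
    split_ifs <;> omega
  · change wz S n ≤ n.n2 + j + (n.Ux - 1 - j) + S.h + 1 + 1 + (if n.sp = 3 then 1 else 0)
    rw [if_pos hs]
    omega

private theorem gi_lay (S : Seam k ld al) (n : Num) (j : ℕ) (hm3 : S.mode = 3 → n.sp = 0)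
    (hA : Adm S n j) : GIF S n (layOf S n j) := by
  have hjU := hA.jU
  have hj : n.nT + j ≤ n.Ux := by split_ifs at hjU <;> omega
  unfold layOf
  by_cases h0 : n.sp = 0
  · rw [if_pos h0]
    have hw : wz S n = n.n2 + n.Ux + S.h + 1 := by
      unfold wz
      rw [if_pos h0]
    refine ⟨rfl, ?_, ?_, ?_⟩
    · change n.nT ≤ n.Ux - j
      omega
    · change lam (wz S n + 1) (wz S n + 2) (n.n2 + j + (n.Ux - j) + S.h + 1) ≤ wz S n
      unfold lam
      split_ifs <;> omega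
    · change wz S n ≤ n.n2 + j + (n.Ux - j) + S.h + 1 + 1 + (if n.sp = 3 then 1 else 0)
      omega
  rw [if_neg h0]
  by_cases h1 : S.mode = 1
  · rw [if_pos h1]
    unfold lay1
    split_ifs
    all_goals first
      | exact gi_S S n j _ h0 hA
      | exact gi_D S n j _ _ (by omega) hA
  rw [if_neg h1]
  by_cases h2 : S.mode = 2
  · rw [if_pos h2]
    exact gi_S S n j _ h0 hA
  rw [if_neg h2, if_neg fun h => h0 (hm3 h)]
  by_cases h4 : S.mode = 4
  · rw [if_pos h4]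
    unfold lay4
    split_ifs with a b c
    · exact gi_S S n j _ h0 hA
    · exact gi_D S n j _ _ b.1 hA
    · exact gi_D S n j _ _ b.1 hA
    · exact gi_S S n j _ h0 hA
  rw [if_neg h4]
  unfold lay5
  dsimp only
  split_ifs
  · exact gi_S S n j _ h0 hA
  · have hw := gi_wz S n h0
    refine ⟨rfl, ?_, ?_, ?_⟩
    · change n.nT ≤ n.Ux - j + 1
      omega
    · change lam (wz S n + 1) (wz S n + 2) (n.n2 + j + (n.Ux - j + 1) + S.h + 1) ≤ wz S n
      unfold lam
      split_ifs <;> omega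
    · change wz S n ≤ n.n2 + j + (n.Ux - j + 1) + S.h + 1 + 1 + (if n.sp = 3 then 1 else 0)
      omega
  · exact gi_S S n j _ h0 hA
  · exact gi_S S n j _ h0 hA
  · exact gi_S S n j _ h0 hA

private theorem gi_pre (S : Seam k ld al) (n : Num) (j z : ℕ) (hm3 : S.mode = 3 → n.sp = 0)
    (hA : Adm S n j) : GIF S n (preG S n j z) := by
  unfold preG
  split_ifs with h
  · exact gi_S S n j _ h.1.1 hA
  · exact gi_lay S n j hm3 hA

private theorem gi_odd (S : Seam k ld al) (n : Num) (Λ : Lay) (hk2 : Λ.k2 = false) {e : ℕ}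
    (h : e % 2 = 1) : pl S n Λ e =
      lam Λ.y1 Λ.y2 (n.n2 + Λ.j + S.rk e + (if S.rk e ≤ S.P then 0 else Λ.U)) := by
  unfold pl lop
  rw [if_pos h, hk2]
  congr 1
  simp only [Bool.false_eq_true, if_false]
  split_ifs <;> omega

private theorem gi_even (S : Seam k ld al) (n : Num) (Λ : Lay) {e : ℕ} (h : e % 2 = 0) :
    pl S n Λ e = wz S n + n.N0 + S.rk e + (if S.Q < S.rk e then n.nT else 0) := by
  unfold pl
  rw [if_neg (by omega)]

private theorem gi_Xl (S : Seam k ld al) (n : Num) (Λ : Lay) (hk2 : Λ.k2 = false) (i : ℕ) :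
    Xl S n Λ i = lam Λ.y1 Λ.y2 (n.n2 + Λ.j + S.P + i) := by
  unfold Xl
  rw [hk2]
  rfl

theorem gl_ins (S : Seam k ld al) (n : Num) (Λ : Lay) (z : ℕ) (hk2 : Λ.k2 = false)
    (hU : n.nT ≤ Λ.U)
    (hw : sk z (lam Λ.y1 Λ.y2 (n.n2 + Λ.j + Λ.U + S.h + 1)) ≤ wz S n.up) :
    GLy S n (insG S n Λ z) (fun r => sk z (lam Λ.y1 Λ.y2 r)) where
  mono := (sk_mono z).comp (lam_mono _ _)
  top := hw
  U_ge := hU
  podd e he := by
    change (if e % 2 = 1 then sk z (pl S n Λ e) else pl S n Λ e + 1) =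
      sk z (lam Λ.y1 Λ.y2 (n.n2 + Λ.j + S.rk e + (if S.rk e ≤ S.P then 0 else Λ.U)))
    rw [if_pos he, gi_odd S n Λ hk2 he]
  peven e he := by
    change (if e % 2 = 1 then sk z (pl S n Λ e) else pl S n Λ e + 1) = _
    rw [if_neg (by omega), gi_even S n Λ he, wz_up]
    omega
  X i := by
    change sk z (Xl S n Λ i) = sk z (lam Λ.y1 Λ.y2 (n.n2 + Λ.j + S.P + i))
    rw [gi_Xl S n Λ hk2]

private theorem gi_P (S : Seam k ld al) (n : Num) (j : ℕ) (hm3 : S.mode = 3 → n.sp = 0)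
    (hA : Adm S n j) : (∃ σ, GLy S n (funP S n j) σ) ∧
      wz S n.up ≤ n.n2 + (funP S n j).j + (funP S n j).U + S.h + 1 + 2 +
        (if n.sp = 3 then 1 else 0) := by
  obtain ⟨h1, h2, h3, h4⟩ := gi_lay S n.up j hm3 (adm_up hA)
  have hj := lay_j' S n.up j
  set M := layOf S n.up j with hM
  rw [hj] at h3 h4
  refine ⟨⟨lam M.y1 M.y2, lam_mono _ _, h3, h2, fun e he => ?_, fun e he => ?_, fun i => ?_⟩,
    ?_⟩
  · change pl S n.up M e =
      lam M.y1 M.y2 (n.n2 + j + S.rk e + (if S.rk e ≤ S.P then 0 else M.U))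
    rw [gi_odd S n.up M h1 he, hj]
    rfl
  · exact gi_even S n.up M he
  · change Xl S n.up M i = lam M.y1 M.y2 (n.n2 + j + S.P + i)
    rw [gi_Xl S n.up M h1, hj]
    rfl
  · change wz S n.up ≤ n.n2 + j + M.U + S.h + 1 + 2 + (if n.sp = 3 then 1 else 0)
    change wz S n.up ≤ n.n2 + j + M.U + S.h + 1 + 1 + (if n.sp = 3 then 1 else 0) at h4
    omega

private theorem gi_X (S : Seam k ld al) (n : Num) (j z : ℕ) (hm3 : S.mode = 3 → n.sp = 0)
    (hA : Adm S n j) (hz : ZX S n j z) : (∃ σ, GLy S n (funX S n j z) σ) ∧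
      wz S n.up ≤ n.n2 + (funX S n j z).j + (funX S n j z).U + S.h + 1 + 2 +
        (if n.sp = 3 then 1 else 0) := by
  have hU : n.nT ≤ (layOf S n.up j).U - 1 := (flow_X S n j z hA hz).U_ge
  obtain ⟨h1, h2, h3, h4⟩ := gi_lay S n.up j hm3 (adm_up hA)
  have hj := lay_j' S n.up j
  obtain ⟨i0, hi1, hi2, hi3⟩ := hz
  rw [gi_Xl S n.up _ h1, hj] at hi3
  have hX : ∀ i, Xl S n.up (layOf S n.up j) i =
      lam (layOf S n.up j).y1 (layOf S n.up j).y2 (n.n2 + j + S.P + i) := by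
    intro i
    rw [gi_Xl S n.up _ h1, hj]
    rfl
  change lam (layOf S n.up j).y1 (layOf S n.up j).y2 (n.n2 + j + S.P + i0) = z at hi3
  set M := layOf S n.up j with hM
  rw [hj] at h3 h4
  change lam M.y1 M.y2 (n.n2 + j + M.U + S.h + 1) ≤ wz S n.up at h3
  change wz S n.up ≤ n.n2 + j + M.U + S.h + 1 + 1 + (if n.sp = 3 then 1 else 0) at h4
  have hm := lam_mono M.y1 M.y2
  refine ⟨⟨fun r => lam M.y1 M.y2 (sk (n.n2 + j + S.P + i0) r), hm.comp (sk_mono _), ?_, hU,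
    fun e he => ?_, fun e he => ?_, fun i => ?_⟩, ?_⟩
  · change lam M.y1 M.y2 (sk (n.n2 + j + S.P + i0) (n.n2 + j + (M.U - 1) + S.h + 1)) ≤ _
    refine le_trans (hm.monotone ?_) h3
    have := sk_le (n.n2 + j + S.P + i0) (n.n2 + j + (M.U - 1) + S.h + 1)
    omega
  · change pl S n.up M e = lam M.y1 M.y2 (sk (n.n2 + j + S.P + i0)
      (n.n2 + j + S.rk e + (if S.rk e ≤ S.P then 0 else M.U - 1)))
    rw [gi_odd S n.up M h1 he, hj]
    congr 1
    change n.n2 + j + S.rk e + (if S.rk e ≤ S.P then 0 else M.U) = _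
    unfold sk
    split_ifs <;> omega
  · exact gi_even S n.up M he
  · change (if Xl S n.up M i < z then Xl S n.up M i else Xl S n.up M (i + 1)) =
      lam M.y1 M.y2 (sk (n.n2 + j + S.P + i0) (n.n2 + j + S.P + i))
    rw [hX, hX, ← hi3]
    unfold sk
    by_cases hc : i0 ≤ i
    · rw [if_neg (fun h => by have := hm.lt_iff_lt.1 h; omega), if_pos (by omega)]
      rfl
    · rw [if_pos (hm (by omega)), if_neg (by omega)]
  · change wz S n.up ≤ n.n2 + j + (M.U - 1) + S.h + 1 + 2 + (if n.sp = 3 then 1 else 0)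
    omega

theorem gl_Z (S : Seam k ld al) (n : Num) (j : ℕ) (hm3 : S.mode = 3 → n.sp = 0)
    (hA : Adm S n j) {Λ : FLay} (h : LayZ S n j Λ) :
    (∃ σ, GLy S n Λ σ) ∧
      wz S n.up ≤ n.n2 + Λ.j + Λ.U + S.h + 1 + 2 + (if n.sp = 3 then 1 else 0) := by
  cases h with
  | P => exact gi_P S n j hm3 hA
  | X z h => exact gi_X S n j z hm3 hA h
  | G z h =>
    obtain ⟨h1, h2, h3, h4⟩ := gi_pre S n j z hm3 hA
    refine ⟨⟨_, gl_ins S n (preG S n j z) z h1 h2 ?_⟩, ?_⟩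
    · rw [wz_up]
      exact (sk_le _ _).trans (by omega)
    · rw [wz_up]
      change wz S n + 1 ≤ n.n2 + (preG S n j z).j + (preG S n j z).U + S.h + 1 + 2 +
        (if n.sp = 3 then 1 else 0)
      omega

end Pool.Agent.Lob5
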