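import Pool.Agent.Lob5.HoleAll

/-!
# Layers given by an increasing labelling of the positions

`GLy S n Λ σ` (all modes except the mode 3 with `sp ≠ 0`): the free labels of the low zone in increasing order are
`σ 1 < σ 2 < ...`; the positions `n2+j+1, ..., n2+j+P` are the bad odd edges, then come the `U` labels `X`, then the
good odd edges (last position `n2+j+U+h+1`). `w = wz S n.up`, `J i = rk i + rk (i+1) = rk (oe i) + rk (ee i)`,
kind b: `S.bad (oe i)`, kind g: not (for a loaded vertex `ee i` is of the other colour, `S.diff'`).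

Basic facts. `r ≤ σ r` (`StrictMono.le_apply`), `σ r + (r' - r) ≤ σ r'` for `r ≤ r'`, so with
`top = n2+j+U+h+1`: `σ r + (top - r) ≤ w` for `r ≤ top`, and `top ≤ w`.
`bs i = p (oe i) + p (ee i)` (`FLay.bs`, by the parity of `i`).
* kind b: `bs i = w+N0+nT + σ (n2+j+rk (oe i)) + rk (ee i)`,
* kind g: `bs i = w+N0 + σ (n2+j+U+rk (oe i)) + rk (ee i)`.

`flow_GL` (cf. `lowOK_gen` in `LowGen`, `flow_ins` in `HoleIns`, where almost the same proofs are):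
* `U_ge, w_ge, p_odd, p_even, p_inj, X_mono, X_lo, X_w, X_p`: positions. `C_lo, C_up`: clear.
* `C_inj`: two vertices which are not loaded are comparable (`hi_cmp` in `HoleIns`, private, copy it:
  same colour: `S.cmp`; bad and good: all ranks of the bad one are smaller), `σ` increasing, so equal sums give
  equal ranks of both edges, so equal edges (`S.rk_inj`), so `i = i'`.
* `C_gap`: bad: `σ (n2+j+rk) < X 1`, even label `≤ w+N0+Q`; good: `X U < σ ..`, even label `≥ w+N0+nT+Q+1`.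
* `bP, bQ, bh`: `r ≤ σ r`, `U ≥ nT`, and `S.lowb, S.lowg, S.big`; `i = q` (then `¬ al q`, so `S.mode = 0`): `S.m0`.
* `bupb`: `σ (n2+j+rk) + (U+h+1-rk) ≤ w`. `bupg`: `σ ≤ w`. `shx`: `S.sh`, `X 1 ≥ σ (n2+j+ra) + (P+1-ra)`.
* `Xr`: `hX` and `bP`.

-/

namespace Pool.Agent.Lob5

variable {k : ℕ} {ld al : ℕ → Prop}

/-- a layer given by an increasing labelling of the positions -/
structure GLy (S : Seam k ld al) (n : Num) (Λ : FLay) (σ : ℕ → ℕ) : Prop where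
  mono : StrictMono σ
  top : σ (n.n2 + Λ.j + Λ.U + S.h + 1) ≤ wz S n.up
  U_ge : n.nT ≤ Λ.U
  podd : ∀ e, e % 2 = 1 →
    Λ.p e = σ (n.n2 + Λ.j + S.rk e + (if S.rk e ≤ S.P then 0 else Λ.U))
  peven : ∀ e, e % 2 = 0 →
    Λ.p e = wz S n.up + n.N0 + S.rk e + (if S.Q < S.rk e then n.nT else 0)
  X : ∀ i, Λ.X i = σ (n.n2 + Λ.j + S.P + i)

private theorem gl_oe {i : ℕ} (h1 : 1 ≤ i) (h2 : i < k) : 1 ≤ oe i ∧ oe i ≤ k := by
  unfold oe
  split_ifs <;> omega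

private theorem gl_ee {i : ℕ} (h1 : 1 ≤ i) (h2 : i < k) : 1 ≤ ee i ∧ ee i ≤ k := by
  unfold ee
  split_ifs <;> omega

private theorem gl_rng (S : Seam k ld al) {i : ℕ} (h1 : 1 ≤ i) (h2 : i < k) :
    (S.bad (oe i) → 1 ≤ S.rk (oe i) ∧ S.rk (oe i) ≤ S.P) ∧
    (¬ S.bad (oe i) → S.P + 1 ≤ S.rk (oe i) ∧ S.rk (oe i) ≤ S.h + 1) ∧
    (S.bad (ee i) → 1 ≤ S.rk (ee i) ∧ S.rk (ee i) ≤ S.Q) ∧
    (¬ S.bad (ee i) → S.Q + 1 ≤ S.rk (ee i) ∧ S.rk (ee i) ≤ S.h) :=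
  ⟨S.rk_ob _ (gl_oe h1 h2).1 (gl_oe h1 h2).2 oe_odd,
    S.rk_og _ (gl_oe h1 h2).1 (gl_oe h1 h2).2 oe_odd,
    S.rk_eb _ (gl_ee h1 h2).1 (gl_ee h1 h2).2 ee_even,
    S.rk_eg _ (gl_ee h1 h2).1 (gl_ee h1 h2).2 ee_even⟩

/-- unloaded vertices have comparable ranks -/
private theorem gl_cmp (S : Seam k ld al) {i i' : ℕ} (h1 : 1 ≤ i) (h2 : i < k) (h3 : ¬ ld i)
    (h1' : 1 ≤ i') (h2' : i' < k) (h3' : ¬ ld i') :
    (S.rk (oe i) ≤ S.rk (oe i') ∧ S.rk (ee i) ≤ S.rk (ee i')) ∨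
      (S.rk (oe i') ≤ S.rk (oe i) ∧ S.rk (ee i') ≤ S.rk (ee i)) := by
  obtain ⟨ho, hbi⟩ := S.same' h1 h2 h3
  obtain ⟨ho', hbi'⟩ := S.same' h1' h2' h3'
  obtain ⟨r1, r2, r3, r4⟩ := gl_rng S h1 h2
  obtain ⟨r1', r2', r3', r4'⟩ := gl_rng S h1' h2'
  by_cases hc : S.bad (oe i) <;> by_cases hc' : S.bad (oe i')
  · exact S.cmp i i' h1 h2 h3 h1' h2' h3' ⟨fun _ => hbi'.1 hc', fun _ => hbi.1 hc⟩
  · left
    have h7 := r1 hc
    have h8 := r3 (ho.1 hc)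
    have h9 := r2' hc'
    have h10 := r4' (fun h => hc' (ho'.2 h))
    omega
  · right
    have h7 := r1' hc'
    have h8 := r3' (ho'.1 hc')
    have h9 := r2 hc
    have h10 := r4 (fun h => hc (ho.2 h))
    omega
  · exact S.cmp i i' h1 h2 h3 h1' h2' h3'
      ⟨fun h => absurd (hbi.2 h) hc, fun h => absurd (hbi'.2 h) hc'⟩

private theorem gl_eq {i i' : ℕ} (h1 : oe i = oe i') (h2 : ee i = ee i') : i = i' := by
  unfold oe at h1
  unfold ee at h2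
  split_ifs at h1 h2 <;> omega

/-- at a loaded vertex `q` which is not an `α` -/
private theorem gl_q (S : Seam k ld al) (h : ld S.q) (ha : ¬ al S.q) :
    S.h + 1 ≤ S.rk S.q + S.rk (S.q + 1) ∧ S.P ≤ S.rk S.q + S.rk (S.q + 1) ∧
      S.Q ≤ S.rk S.q + S.rk (S.q + 1) := by
  have hm : S.mode = 0 := by
    by_contra hm
    have h5 := S.mode_le
    have h6 : S.mode = 1 ∨ (S.mode = 2 ∨ S.mode = 3) ∨ S.mode = 4 ∨ S.mode = 5 := by omega
    rcases h6 with h6 | h6 | h6 | h6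
    · exact ha (S.m1 h6).1
    · exact ha (S.m2 h6).1
    · exact ha (S.m4 h6).1
    · exact ha (S.m5 h6).1
  have hP := S.P1
  have hPh := S.Ph
  have hQh := S.Qh
  have hPQ := S.PQ
  rcases S.m0 hm with h0 | ⟨_, _, _, h3, h4⟩
  · have := S.ld_pos _ h
    omega
  · rcases Nat.mod_two_eq_zero_or_one S.q with h5 | h5
    · have := h4 h5
      omega
    · have := h3 h5
      omega

private theorem gl_J (S : Seam k ld al) {i : ℕ} (hi : ld i) (h : i ≠ S.q ∨ ¬ al i) :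
    S.P ≤ S.rk i + S.rk (i + 1) ∧ S.Q ≤ S.rk i + S.rk (i + 1) := by
  by_cases hq : i = S.q
  · subst hq
    have := gl_q S hi (h.resolve_left (fun h => h rfl))
    exact this.2
  · by_cases hb : S.bad (oe i)
    · have := S.lowb i hi hq hb
      omega
    · have := S.lowg i hi hq hb
      omega

private theorem gl_Jh (S : Seam k ld al) {i : ℕ} (hi : ld i) (h : i ≠ S.q ∨ ¬ al i)
    (h' : al i ∨ i = S.q ∨ S.h + 1 ≤ S.rk i + S.rk (i + 1)) :
    S.h + 1 ≤ S.rk i + S.rk (i + 1) := by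
  by_cases hq : i = S.q
  · subst hq
    exact (gl_q S hi (h.resolve_left (fun h => h rfl))).1
  · rcases h' with h' | h' | h'
    · exact S.big i hi hq (Or.inl h')
    · exact absurd h' hq
    · exact h'

/-- the two labels at a vertex -/
private theorem gl_two (Λ : FLay) (i : ℕ) : Λ.bs i = Λ.p (oe i) + Λ.p (ee i) := by
  unfold FLay.bs oe ee
  by_cases h : i % 2 = 1
  · rw [if_pos h, if_pos h]
  · rw [if_neg h, if_neg h, add_comm]

private theorem gl_sh {σ : ℕ → ℕ} (h : StrictMono σ) (i d : ℕ) : σ i + d ≤ σ (i + d) := by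
  induction d with
  | zero => exact le_rfl
  | succ d ih =>
    have h1 := h (show i + d < i + (d + 1) by omega)
    omega

private theorem gl_shift {σ : ℕ → ℕ} (h : StrictMono σ) {i j : ℕ} (hij : i ≤ j) :
    σ i + j ≤ σ j + i := by
  obtain ⟨d, rfl⟩ := Nat.exists_eq_add_of_le hij
  have := gl_sh h i d
  omega

private theorem gl_odd {S : Seam k ld al} {n : Num} {Λ : FLay} {σ : ℕ → ℕ} (h : GLy S n Λ σ)
    {e : ℕ} (h1 : 1 ≤ e) (h2 : e ≤ k) (h3 : e % 2 = 1) :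
    (S.bad e ∧ 1 ≤ S.rk e ∧ S.rk e ≤ S.P ∧ Λ.p e = σ (n.n2 + Λ.j + S.rk e)) ∨
    (¬ S.bad e ∧ S.P + 1 ≤ S.rk e ∧ S.rk e ≤ S.h + 1 ∧
      Λ.p e = σ (n.n2 + Λ.j + S.rk e + Λ.U)) := by
  by_cases hb : S.bad e
  · have h4 := S.rk_ob e h1 h2 h3 hb
    refine Or.inl ⟨hb, h4.1, h4.2, ?_⟩
    rw [h.podd e h3, if_pos h4.2, add_zero]
  · have h4 := S.rk_og e h1 h2 h3 hb
    refine Or.inr ⟨hb, h4.1, h4.2, ?_⟩
    rw [h.podd e h3, if_neg (by omega)]

private theorem gl_even {S : Seam k ld al} {n : Num} {Λ : FLay} {σ : ℕ → ℕ} (h : GLy S n Λ σ)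
    {e : ℕ} (h1 : 1 ≤ e) (h2 : e ≤ k) (h3 : e % 2 = 0) :
    (S.bad e ∧ 1 ≤ S.rk e ∧ S.rk e ≤ S.Q ∧ Λ.p e = wz S n.up + n.N0 + S.rk e) ∨
    (¬ S.bad e ∧ S.Q + 1 ≤ S.rk e ∧ S.rk e ≤ S.h ∧
      Λ.p e = wz S n.up + n.N0 + S.rk e + n.nT) := by
  by_cases hb : S.bad e
  · have h4 := S.rk_eb e h1 h2 h3 hb
    refine Or.inl ⟨hb, h4.1, h4.2, ?_⟩
    rw [h.peven e h3, if_neg (by omega), add_zero]
  · have h4 := S.rk_eg e h1 h2 h3 hb
    refine Or.inr ⟨hb, h4.1, h4.2, ?_⟩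
    rw [h.peven e h3, if_pos (by omega)]

/-- the base of a loaded vertex -/
private theorem gl_bs {S : Seam k ld al} {n : Num} {Λ : FLay} {σ : ℕ → ℕ} (h : GLy S n Λ σ)
    {i : ℕ} (hi : ld i) :
    wz S n.up + n.N0 + n.nT + (n.n2 + Λ.j) + (S.rk i + S.rk (i + 1)) ≤ Λ.bs i := by
  have h1 := S.ld_pos i hi
  have h2 := S.ld_lt i hi
  have hs := rk_sum S.rk i
  have hd := S.diff' hi
  have hU := h.U_ge
  rw [gl_two]
  rcases gl_odd h (gl_oe h1 h2).1 (gl_oe h1 h2).2 oe_odd with ⟨a1, a2, a3, a4⟩ | ⟨a1, a2, a3, a4⟩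
  · rcases gl_even h (gl_ee h1 h2).1 (gl_ee h1 h2).2 ee_even with
      ⟨b1, b2, b3, b4⟩ | ⟨b1, b2, b3, b4⟩
    · exact absurd b1 (hd.1 a1)
    · have := h.mono.le_apply (x := n.n2 + Λ.j + S.rk (oe i))
      omega
  · rcases gl_even h (gl_ee h1 h2).1 (gl_ee h1 h2).2 ee_even with
      ⟨b1, b2, b3, b4⟩ | ⟨b1, b2, b3, b4⟩
    · have := h.mono.le_apply (x := n.n2 + Λ.j + S.rk (oe i) + Λ.U)
      omega
    · exact absurd (hd.2 b1) a1

/-- the general facts -/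
theorem flow_GL' (S : Seam k ld al) (n : Num) {Λ : FLay} {σ : ℕ → ℕ} (h : GLy S n Λ σ)
    (hX : ∀ t, 1 ≤ t → t ≤ Λ.U → Λ.X t ≤ n.n2 + Λ.j + S.P + t + 2 ∨
      Λ.X t ≤ n.n2 + Λ.j + S.Q + t + 2) : FLow S n Λ := by
  have hP1 := S.P1
  have hPh := S.Ph
  have hQh := S.Qh
  have hPQ := S.PQ
  have hU := h.U_ge
  have hmz : mz S n.up = wz S n.up + n.N0 + n.nT + S.h := rfl
  have hlw : ∀ i, i ≤ n.n2 + Λ.j + Λ.U + S.h + 1 →
      σ i + (n.n2 + Λ.j + Λ.U + S.h + 1) ≤ wz S n.up + i := by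
    intro i hi
    have h1 := gl_shift h.mono hi
    have h2 := h.top
    omega
  have hle : ∀ i, i ≤ σ i := fun i => h.mono.le_apply
  have hodd : ∀ e, 1 ≤ e → e ≤ k → e % 2 = 1 →
      n.n2 + Λ.j < Λ.p e ∧ Λ.p e ≤ wz S n.up := by
    intro e h1 h2 h3
    rcases gl_odd h h1 h2 h3 with ⟨_, h4, h5, h6⟩ | ⟨_, h4, h5, h6⟩
    · have := hle (n.n2 + Λ.j + S.rk e)
      have := hlw (n.n2 + Λ.j + S.rk e) (by omega)
      omega
    · have := hle (n.n2 + Λ.j + S.rk e + Λ.U)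
      have := hlw (n.n2 + Λ.j + S.rk e + Λ.U) (by omega)
      omega
  have heven : ∀ e, 1 ≤ e → e ≤ k → e % 2 = 0 →
      wz S n.up + n.N0 + 1 ≤ Λ.p e ∧ Λ.p e ≤ mz S n.up := by
    intro e h1 h2 h3
    rcases gl_even h h1 h2 h3 with ⟨_, h4, h5, h6⟩ | ⟨_, h4, h5, h6⟩ <;> omega
  have hXm : StrictMono Λ.X := by
    intro i i' hii
    rw [h.X, h.X]
    exact h.mono (by omega)
  have hbP : ∀ i, ld i → (i ≠ S.q ∨ ¬ al i) →
      wz S n.up + n.N0 + n.nT + n.n2 + Λ.j + S.P ≤ Λ.bs i := by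
    intro i hi hqi
    have := gl_bs h hi
    have := gl_J S hi hqi
    omega
  have hbQ : ∀ i, ld i → (i ≠ S.q ∨ ¬ al i) →
      wz S n.up + n.N0 + n.nT + n.n2 + Λ.j + S.Q ≤ Λ.bs i := by
    intro i hi hqi
    have := gl_bs h hi
    have := gl_J S hi hqi
    omega
  refine
    { U_ge := hU
      w_ge := (hle _).trans h.top
      p_odd := hodd
      p_even := h.peven
      p_inj := ?_
      X_mono := hXm
      X_lo := ?_
      X_w := ?_
      X_p := ?_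
      C_lo := ?_
      C_up := ?_
      C_inj := ?_
      C_gap := ?_
      bP := hbP
      bQ := ?_
      bh := ?_
      bupb := ?_
      bupg := ?_
      shx := ?_
      Xr := ?_ }
  · -- p_inj
    intro e f he1 he2 hf1 hf2 hef
    rcases Nat.mod_two_eq_zero_or_one e with he | he <;>
      rcases Nat.mod_two_eq_zero_or_one f with hf | hf
    · refine S.rk_inj e f he1 he2 hf1 hf2 (he.trans hf.symm) ?_
      rcases gl_even h he1 he2 he with ⟨_, h4, h5, h6⟩ | ⟨_, h4, h5, h6⟩ <;>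
        rcases gl_even h hf1 hf2 hf with ⟨_, h7, h8, h9⟩ | ⟨_, h7, h8, h9⟩ <;> omega
    · have := heven e he1 he2 he
      have := hodd f hf1 hf2 hf
      omega
    · have := heven f hf1 hf2 hf
      have := hodd e he1 he2 he
      omega
    · refine S.rk_inj e f he1 he2 hf1 hf2 (he.trans hf.symm) ?_
      have hinj := h.mono.injective
      rcases gl_odd h he1 he2 he with ⟨_, h4, h5, h6⟩ | ⟨_, h4, h5, h6⟩ <;>
        rcases gl_odd h hf1 hf2 hf with ⟨_, h7, h8, h9⟩ | ⟨_, h7, h8, h9⟩ <;>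
        · have h10 := hinj (h6.symm.trans (hef.trans h9))
          omega
  · -- X_lo
    intro i _
    rw [h.X]
    exact hle _
  · -- X_w
    intro i hi1 hi2
    rw [h.X]
    have := hlw (n.n2 + Λ.j + S.P + i) (by omega)
    omega
  · -- X_p
    intro i e hi1 hi2 he1 he2 he3 hx
    rw [h.X] at hx
    have hinj := h.mono.injective
    rcases gl_odd h he1 he2 he3 with ⟨_, h4, h5, h6⟩ | ⟨_, h4, h5, h6⟩ <;>
      · have h10 := hinj (hx.trans h6)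
        omega
  · -- C_lo
    intro i hi1 hi2 _
    rw [gl_two]
    have := hodd (oe i) (gl_oe hi1 hi2).1 (gl_oe hi1 hi2).2 oe_odd
    have := heven (ee i) (gl_ee hi1 hi2).1 (gl_ee hi1 hi2).2 ee_even
    omega
  · -- C_up
    intro i hi1 hi2 _
    rw [gl_two]
    have := hodd (oe i) (gl_oe hi1 hi2).1 (gl_oe hi1 hi2).2 oe_odd
    have := heven (ee i) (gl_ee hi1 hi2).1 (gl_ee hi1 hi2).2 ee_even
    omega
  · -- C_inj
    have hmo : ∀ i i', S.rk (oe i) ≤ S.rk (oe i') → Λ.p (oe i) ≤ Λ.p (oe i') := by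
      intro i i' hr
      rw [h.podd _ oe_odd, h.podd _ oe_odd]
      refine h.mono.monotone ?_
      split_ifs <;> omega
    have hme : ∀ i i', S.rk (ee i) ≤ S.rk (ee i') → Λ.p (ee i) ≤ Λ.p (ee i') := by
      intro i i' hr
      rw [h.peven _ ee_even, h.peven _ ee_even]
      split_ifs <;> omega
    have hinj : ∀ e f, 1 ≤ e → e ≤ k → 1 ≤ f → f ≤ k → e % 2 = f % 2 → Λ.p e = Λ.p f →
        e = f := by
      intro e f he1 he2 hf1 hf2 hef hp
      refine S.rk_inj e f he1 he2 hf1 hf2 hef ?_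
      rcases Nat.mod_two_eq_zero_or_one e with he | he
      · rcases gl_even h he1 he2 he with ⟨_, h4, h5, h6⟩ | ⟨_, h4, h5, h6⟩ <;>
          rcases gl_even h hf1 hf2 (hef.symm.trans he) with ⟨_, h7, h8, h9⟩ | ⟨_, h7, h8, h9⟩ <;>
          omega
      · have hin := h.mono.injective
        rcases gl_odd h he1 he2 he with ⟨_, h4, h5, h6⟩ | ⟨_, h4, h5, h6⟩ <;>
          rcases gl_odd h hf1 hf2 (hef.symm.trans he) with ⟨_, h7, h8, h9⟩ | ⟨_, h7, h8, h9⟩ <;>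
          · have h10 := hin (h6.symm.trans (hp.trans h9))
            omega
    have hkey : ∀ i i', 1 ≤ i → i < k → 1 ≤ i' → i' < k → S.rk (oe i) ≤ S.rk (oe i') →
        S.rk (ee i) ≤ S.rk (ee i') → Λ.bs i = Λ.bs i' → i = i' := by
      intro i i' h1 h2 h1' h2' h7 h8 h9
      have h10 := hmo i i' h7
      have h11 := hme i i' h8
      rw [gl_two, gl_two] at h9
      exact gl_eq (hinj _ _ (gl_oe h1 h2).1 (gl_oe h1 h2).2 (gl_oe h1' h2').1
        (gl_oe h1' h2').2 (oe_odd.trans oe_odd.symm) (by omega))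
        (hinj _ _ (gl_ee h1 h2).1 (gl_ee h1 h2).2 (gl_ee h1' h2').1
        (gl_ee h1' h2').2 (ee_even.trans ee_even.symm) (by omega))
    intro i i' hi1 hi2 hi3 hi1' hi2' hi3' hb
    rcases gl_cmp S hi1 hi2 hi3 hi1' hi2' hi3' with ⟨h7, h8⟩ | ⟨h7, h8⟩
    · exact hkey i i' hi1 hi2 hi1' hi2' h7 h8 hb
    · exact (hkey i' i hi1' hi2' hi1 hi2 h7 h8 hb.symm).symm
  · -- C_gap
    intro hU1 i hi1 hi2 hi3
    obtain ⟨ho, hbi⟩ := S.same' hi1 hi2 hi3
    rw [h.X, h.X, gl_two]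
    rcases gl_odd h (gl_oe hi1 hi2).1 (gl_oe hi1 hi2).2 oe_odd with
      ⟨a1, a2, a3, a4⟩ | ⟨a1, a2, a3, a4⟩
    · rcases gl_even h (gl_ee hi1 hi2).1 (gl_ee hi1 hi2).2 ee_even with
        ⟨b1, b2, b3, b4⟩ | ⟨b1, b2, b3, b4⟩
      · left
        have := h.mono (show n.n2 + Λ.j + S.rk (oe i) < n.n2 + Λ.j + S.P + 1 by omega)
        omega
      · exact absurd (ho.1 a1) b1
    · rcases gl_even h (gl_ee hi1 hi2).1 (gl_ee hi1 hi2).2 ee_even with
        ⟨b1, b2, b3, b4⟩ | ⟨b1, b2, b3, b4⟩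
      · exact absurd (ho.2 b1) a1
      · right
        have := h.mono (show n.n2 + Λ.j + S.P + Λ.U < n.n2 + Λ.j + S.rk (oe i) + Λ.U by omega)
        omega
  · -- bQ
    intro i hi hqi
    have := gl_bs h hi
    have := gl_J S hi hqi
    omega
  · -- bh
    intro i hi hqi h'
    have := gl_bs h hi
    have := gl_Jh S hi hqi h'
    omega
  · -- bupb
    intro a ha _ hb
    have hl := S.al_ld a ha
    have ha1 := S.ld_pos a hl
    have ha2 := S.ld_lt a hl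
    rw [gl_two]
    rcases gl_odd h (gl_oe ha1 ha2).1 (gl_oe ha1 ha2).2 oe_odd with
      ⟨a1, a2, a3, a4⟩ | ⟨a1, a2, a3, a4⟩
    · have := hlw (n.n2 + Λ.j + S.rk (oe a)) (by omega)
      rcases gl_even h (gl_ee ha1 ha2).1 (gl_ee ha1 ha2).2 ee_even with
        ⟨b1, b2, b3, b4⟩ | ⟨b1, b2, b3, b4⟩ <;> omega
    · exact absurd hb a1
  · -- bupg
    intro a ha _ hb
    have hl := S.al_ld a ha
    have ha1 := S.ld_pos a hl
    have ha2 := S.ld_lt a hl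
    rw [gl_two]
    have h7 := hodd (oe a) (gl_oe ha1 ha2).1 (gl_oe ha1 ha2).2 oe_odd
    rcases gl_even h (gl_ee ha1 ha2).1 (gl_ee ha1 ha2).2 ee_even with
      ⟨b1, b2, b3, b4⟩ | ⟨b1, b2, b3, b4⟩
    · omega
    · exact absurd ((S.diff' hl).2 b1) hb
  · -- shx
    intro a x ha haq hb hx hxa
    have hl := S.al_ld a ha
    have ha1 := S.ld_pos a hl
    have ha2 := S.ld_lt a hl
    have h8 := gl_bs h hx
    have h9 := S.sh a x ha haq hb hx hxa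
    have h10 := rk_sum S.rk a
    rw [gl_two Λ a, h.X]
    rcases gl_odd h (gl_oe ha1 ha2).1 (gl_oe ha1 ha2).2 oe_odd with
      ⟨a1, a2, a3, a4⟩ | ⟨a1, a2, a3, a4⟩
    · have h11 := gl_shift h.mono
        (show n.n2 + Λ.j + S.rk (oe a) ≤ n.n2 + Λ.j + S.P + 1 by omega)
      rcases gl_even h (gl_ee ha1 ha2).1 (gl_ee ha1 ha2).2 ee_even with
        ⟨b1, b2, b3, b4⟩ | ⟨b1, b2, b3, b4⟩ <;> omega
    · exact absurd hb a1
  · -- Xr
    intro t r ht1 ht2 hr hra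
    have h3 := hX t ht1 ht2
    have h4 := hbP r hr (Or.inr hra)
    have h5 := hbQ r hr (Or.inr hra)
    omega

theorem flow_GL (S : Seam k ld al) (n : Num) {Λ : FLay} {σ : ℕ → ℕ} (h : GLy S n Λ σ)
    (hX : ∀ t, 1 ≤ t → t ≤ Λ.U → Λ.X t ≤ n.n2 + Λ.j + S.P + t + 2) : FLow S n Λ :=
  flow_GL' S n h fun t h1 h2 => Or.inl (hX t h1 h2)

/-- the comparison facts of `FMod` -/
structure FDab (S : Seam k ld al) (n : Num) (Λ : FLay) : Prop where
  Dbb : ∀ a z, al a → a ≠ S.q → S.bad (oe a) → ld z → ¬ al z →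
    Λ.bs a + (if n.sp = 0 ∧ S.mode = 5 then 1 else 0) ≤ Λ.bs z + S.Q + 1
  Dgg : ∀ a z, al a → a ≠ S.q → ¬ S.bad (oe a) → ld z → ¬ al z → ¬ S.bad (oe z) →
    Λ.bs a ≤ Λ.bs z + S.Q + 1 + (if 2 ≤ n.sp then 1 else 0)
  Dgb : ∀ a z, al a → a ≠ S.q → ¬ S.bad (oe a) → ld z → ¬ al z → S.bad (oe z) →
    Λ.bs a + sg k ld al S.rk S.h S.q z + n.nT + Λ.j ≤ Λ.bs z + S.Q + n.Ux + 1

end Pool.Agent.Lob5
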