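import Pool.Agent.Lob5.Plan

/-!
# Layers: the path labels, abstractly

`Nm`: numbers which do not depend on the number `j` of low labels. Zones: `[1, n2]` second leaves of
bushes of role `L` (labels `X0`), `[n2+1, n2+s1]` reserved, `[s1+n2+1, s1+n2+j]` low labels,
`[.., w]` path edges, `X` labels and the labels `yv, xv`; `[w+1, w+N0]` middle zone: statics
`[w+1, w+eb]` and `[w+N0-et+1, w+N0]`, in between the labels of the sweep; then bad even edges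
(`Q`), `T` labels (`nT`), good even edges; total `w+N0+nT+h`.
`pk`: label of the path edge `k` if it is a static label, otherwise `0`; `s0v`: label of the leaf of
role `s0`; `c0`: number of nodes of the type `tl` (bush `tl`, and the vertex `om` if it has role `II`);
`om`: the fat end `k - 1`, or `0`; `dl`: a lower bound for the number of nondesignated bushes with `T` top
(`0` if there is a vertex `FR`); `kb i`: the odd edge at `i` is bad; `cd i`: `i` is a candidate for a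
low label.
`Ly`: the labels for a given `j`. `yv i`: label `y` of the vertex `i` (role `As` without `lg`: the leaf;
role `Fs`: the top of its bush). `xf i`: the `x`-label of the node of type `tl` at `i` is fixed, it is
`xv i`. `lg i`: the vertex `i` of role `As` belongs to the greedy group.
-/

namespace Pool.Agent.Lob5

/-- The numbers. -/
structure Nm where
  h : ℕ
  P : ℕ
  Q : ℕ
  w : ℕ
  N0 : ℕ
  nT : ℕ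
  n2 : ℕ
  Ux : ℕ
  e : ℕ
  eb : ℕ
  et : ℕ
  s1 : ℕ
  s0v : ℕ
  pk : ℕ
  c0 : ℕ
  om : ℕ
  g1 : ℕ
  kb : ℕ → Prop
  cd : ℕ → Prop
  dl : ℕ := 0

/-- The labels. -/
structure Ly where
  j : ℕ
  U : ℕ
  thr : ℕ
  be : ℕ
  nxf : ℕ
  nlg : ℕ
  yv : ℕ → ℕ
  xv : ℕ → ℕ
  xf : ℕ → Bool
  lg : ℕ → Bool
  p : ℕ → ℕ
  X : ℕ → ℕ

/-- base of a path vertex -/
def Ly.bs (Y : Ly) (i : ℕ) : ℕ := Y.p i + Y.p (i + 1)

/-- the vertices with a label `y` -/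
def Ly.ys (Y : Ly) (rv : ℕ → RV) (i : ℕ) : Prop := (rv i = .As ∧ Y.lg i = false) ∨ rv i = .Fs

/-- the vertices with a fixed `x`-label -/
def Ly.xs (Y : Ly) (N : Nm) (rv : ℕ → RV) (i : ℕ) : Prop :=
  Y.xf i = true ∧ (rv i = .Fs ∨ (i = N.om ∧ rv i = .II))

open Classical in
/-- number of `II`- and `I`-vertices which are no candidates -/
noncomputable def Nm.sgc (N : Nm) (rv : ℕ → RV) (k : ℕ) : ℕ :=
  ((Finset.range k).filter fun i =>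
    1 ≤ i ∧ (rv i = .II ∨ rv i = .I) ∧ i ≠ N.om ∧ ¬ N.cd i).card

open Classical in
/-- The facts about the labels. -/
structure LyOK (N : Nm) (Y : Ly) (rv : ℕ → RV) (k : ℕ) : Prop where
  -- numbers
  eN : N.eb + N.et ≤ N.N0
  U_ge : N.nT ≤ Y.U
  U_eq : Y.U + Y.j + Y.nxf = N.Ux + Y.nlg
  nxf_eq : Y.nxf = ((Finset.range k).filter fun i => 1 ≤ i ∧ Y.xs N rv i).card
  nlg_le : Y.nlg ≤ 1
  nlg_eq : Y.nlg = ((Finset.range k).filter fun i => 1 ≤ i ∧ rv i = .As ∧ Y.lg i = true).card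
  be_ge : N.w + N.N0 ≤ Y.be
  be_le : Y.be ≤ N.w + N.N0 + N.nT + N.h
  be_thr : Y.be ≤ Y.thr
  thr_le : Y.thr ≤ 3 * N.w + N.N0 + 1
  thr_le' : N.et = N.eb + 2 → Y.thr ≤ 3 * N.w + N.N0
  g1_ge : N.w + N.N0 + N.Q + N.nT + 1 ≤ N.g1
  g1_thr : 1 ≤ Y.U → N.g1 + Y.X Y.U ≤ Y.thr
  g0_be : 1 ≤ Y.U → Y.be < N.w + N.N0 + N.Q + 1 + Y.X 1
  zone : N.s1 + N.n2 + Y.j ≤ N.w
  -- labels
  p_rng : ∀ e, 1 ≤ e → e ≤ k →
    (N.s1 + N.n2 + Y.j < Y.p e ∧ Y.p e ≤ N.w) ∨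
    (N.w + N.N0 + 1 ≤ Y.p e ∧ Y.p e ≤ N.w + N.N0 + N.Q) ∨
    (N.w + N.N0 + N.Q + N.nT + 1 ≤ Y.p e ∧ Y.p e ≤ N.w + N.N0 + N.nT + N.h) ∨
    (N.n2 + 1 ≤ Y.p e ∧ Y.p e ≤ N.n2 + N.s1) ∨ (Y.p e = N.pk ∧ N.pk ≠ 0)
  p_inj : ∀ e f, 1 ≤ e → e ≤ k → 1 ≤ f → f ≤ k → Y.p e = Y.p f → e = f
  p_one : Y.p 1 ≤ Y.be
  p_last : Y.p k ≤ Y.be
  X_mono : StrictMono Y.X
  X_zero : Y.X 0 ≤ N.w
  X_rng : ∀ i, 1 ≤ i → i ≤ Y.U → N.s1 + N.n2 + Y.j < Y.X i ∧ Y.X i ≤ N.w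
  X_lo : N.s1 + N.n2 + Y.j + N.P + 1 ≤ Y.X 1
  X_p : ∀ i e, 1 ≤ i → i ≤ Y.U → 1 ≤ e → e ≤ k → Y.X i ≠ Y.p e
  y_rng : ∀ i, 1 ≤ i → i < k → Y.ys rv i → N.s1 + N.n2 + Y.j < Y.yv i ∧ Y.yv i ≤ N.w
  y_X : ∀ i n, 1 ≤ i → i < k → Y.ys rv i → 1 ≤ n → n ≤ Y.U → Y.yv i ≠ Y.X n
  y_p : ∀ i e, 1 ≤ i → i < k → Y.ys rv i → 1 ≤ e → e ≤ k → Y.yv i ≠ Y.p e
  y_inj : ∀ i i', 1 ≤ i → i < k → Y.ys rv i → 1 ≤ i' → i' < k → Y.ys rv i' →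
    Y.yv i = Y.yv i' → i = i'
  x_rng : ∀ i, 1 ≤ i → i < k → Y.xs N rv i → N.s1 + N.n2 + Y.j < Y.xv i ∧ Y.xv i ≤ N.w
  x_X : ∀ i n, 1 ≤ i → i < k → Y.xs N rv i → 1 ≤ n → n ≤ Y.U → Y.xv i ≠ Y.X n
  x_p : ∀ i e, 1 ≤ i → i < k → Y.xs N rv i → 1 ≤ e → e ≤ k → Y.xv i ≠ Y.p e
  x_inj : ∀ i i', 1 ≤ i → i < k → Y.xs N rv i → 1 ≤ i' → i' < k → Y.xs N rv i' →
    Y.xv i = Y.xv i' → i = i'
  x_y : ∀ i i', 1 ≤ i → i < k → Y.xs N rv i → 1 ≤ i' → i' < k → Y.ys rv i' → Y.xv i ≠ Y.yv i'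
  -- vertices with nothing attached
  C_inj : ∀ i i', 1 ≤ i → i < k → rv i = .C → 1 ≤ i' → i' < k → rv i' = .C →
    Y.bs i = Y.bs i' → i = i'
  C_be : ∀ i, 1 ≤ i → i < k → rv i = .C → Y.be < Y.bs i ∨ ∃ e, 2 ≤ e ∧ e < k ∧ Y.bs i = Y.p e
  C_gap : 1 ≤ Y.U → ∀ i, 1 ≤ i → i < k → rv i = .C →
    Y.bs i < N.w + N.N0 + N.Q + 1 + Y.X 1 ∨ N.g1 + Y.X Y.U < Y.bs i
  C_thr : ∀ i, 1 ≤ i → i < k → rv i = .C → Y.bs i ≤ Y.thr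
  -- vertices with a label `y`
  V_be : ∀ i, 1 ≤ i → i < k → Y.ys rv i → Y.be < Y.bs i + Y.yv i
  V_thr : ∀ i, 1 ≤ i → i < k → Y.ys rv i → Y.bs i + Y.yv i ≤ Y.thr
  V_C : ∀ i i', 1 ≤ i → i < k → Y.ys rv i → 1 ≤ i' → i' < k → rv i' = .C →
    Y.bs i + Y.yv i ≠ Y.bs i'
  V_inj : ∀ i i', 1 ≤ i → i < k → Y.ys rv i → 1 ≤ i' → i' < k → Y.ys rv i' →
    Y.bs i + Y.yv i = Y.bs i' + Y.yv i' → i = i'
  V_gap : 1 ≤ Y.U → ∀ i, 1 ≤ i → i < k → Y.ys rv i →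
    Y.bs i + Y.yv i < N.w + N.N0 + N.Q + 1 + Y.X 1 ∨ N.g1 + Y.X Y.U < Y.bs i + Y.yv i
  lg_rng : ∀ i, 1 ≤ i → i < k → rv i = .As → Y.lg i = true →
    N.w + N.N0 + N.Q + 1 ≤ Y.bs i ∧ Y.bs i ≤ N.g1
  -- lower bounds
  bA : ∀ i, 1 ≤ i → i < k → (rv i).isA = true → Y.thr < Y.bs i + N.w + 1
  bN : ∀ i, 1 ≤ i → i < k → i ≠ N.om → (rv i = .II ∨ rv i = .I) →
    Y.thr < Y.bs i + N.w + 1 + Y.X 1
  bc : ∀ i, 1 ≤ i → i < k → i ≠ N.om → (rv i = .II ∨ rv i = .I) → N.cd i →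
    Y.thr < Y.bs i + N.w + 1
  bT : ∀ i, 1 ≤ i → i < k → (rv i).isT = true → Y.thr < Y.bs i + N.w + N.N0 + N.Q + 1
  -- comparison of bases
  P2 : 2 ≤ N.P ∨ ∀ i, 1 ≤ i → i < k → (rv i).isA = true ∨ (rv i).isS = true → ¬ N.kb i
  Dbb : ∀ a z, 1 ≤ a → a < k → 1 ≤ z → z < k → (rv a).isA = true → (rv z).isS = true →
    N.kb a → Y.bs a ≤ Y.bs z + N.Q + max 1 (N.dl + N.et)
  Dbr : (∃ i, 1 ≤ i ∧ i < k ∧ rv i = .FR) → ∀ a z, 1 ≤ a → a < k → 1 ≤ z → z < k →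
    (rv a).isA = true → (rv z).isS = true → N.kb a → Y.bs a ≤ Y.bs z + N.Q
  Dgg : ∀ a z, 1 ≤ a → a < k → 1 ≤ z → z < k → (rv a).isA = true → (rv z).isS = true →
    ¬ N.kb a → ¬ N.kb z → Y.bs a ≤ Y.bs z + N.Q + N.et + N.dl
  Dgb : ∀ a z, 1 ≤ a → a < k → 1 ≤ z → z < k → (rv a).isA = true → (rv z).isS = true →
    ¬ N.kb a → N.kb z →
    Y.bs a + N.sgc rv k + N.nT + Y.j + N.c0 ≤ Y.bs z + N.Q + N.Ux + N.et + N.dl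
  bupb : ∀ a, 1 ≤ a → a < k → (rv a).isA = true → N.kb a → Y.bs a + 1 ≤ 2 * N.w + N.N0 + N.P
  bupg : ∀ a, 1 ≤ a → a < k → (rv a).isA = true → ¬ N.kb a → Y.bs a ≤ 2 * N.w + N.N0 + N.Q
  shx : ∀ a x, 1 ≤ a → a < k → 1 ≤ x → x < k → (rv a).isA = true → N.kb a →
    x ≠ N.om → (rv x).isN = true → Y.bs a < Y.bs x + Y.X 1
  bbP : N.e = 0 → ∀ a z, 1 ≤ a → a < k → 1 ≤ z → z < k → (rv a).isA = true →
    (rv z).isS = true → N.kb a → N.dl = 0 → Y.bs a ≤ Y.bs z + N.P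
  lt : N.e = 0 → Y.U ≤ N.nT + 1 + Y.nlg → ∀ a x, 1 ≤ a → a < k → 1 ≤ x → x < k →
    (rv a).isA = true → ¬ N.kb a → x ≠ N.om → (rv x).isN = true →
    Y.bs x + Y.X 1 ≤ Y.bs a → N.P ≤ N.Q
  -- nodes with a fixed `x`-label
  xW1 : ∀ i z, 1 ≤ i → i < k → 1 ≤ z → z < k → Y.xf i = true → rv i = .Fs →
    (rv z).isS = true → Y.yv i + N.s0v + Y.xv i < Y.bs z + N.Q + 1 + N.et
  xW2 : ∀ i, 1 ≤ i → i < k → Y.xf i = true → rv i = .Fs →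
    Y.yv i + N.s0v + Y.xv i ≤ 2 * N.w + N.N0 + N.Q + Y.X 1
  oW1 : ∀ i z, 1 ≤ i → i < k → 1 ≤ z → z < k → Y.xf i = true → i = N.om → rv i = .II →
    (rv z).isS = true → Y.bs i + Y.xv i < Y.bs z + N.Q + 1 + N.et
  oW2 : ∀ i, 1 ≤ i → i < k → Y.xf i = true → i = N.om → rv i = .II →
    Y.bs i + Y.xv i ≤ 2 * N.w + N.N0 + N.Q + Y.X 1
  -- upper bound for the `X` labels
  Xr : ∀ n r, 1 ≤ n → n ≤ Y.U → 1 ≤ r → r < k → (rv r).isS = true →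
    Y.X n + N.w + N.N0 + N.nT ≤ Y.bs r + n + 2
  -- the vertex `FR`
  Rq : ∀ i, 1 ≤ i → i < k → rv i = .FR → Y.bs i + 1 < 2 * N.w + N.N0 + Y.X 1
  Rd : (∃ i, 1 ≤ i ∧ i < k ∧ rv i = .FR) → ∀ i o, 1 ≤ i → i < k → 1 ≤ o → o < k →
    (rv i).isT = true → (rv o).isS = true → Y.bs i ≤ Y.bs o + N.w

/-- The facts about two consecutive layers. -/
structure StOK (N : Nm) (Y Y' : Ly) (rv : ℕ → RV) (k : ℕ) : Prop where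
  st1 : ∀ i a, 1 ≤ i → i < k → 1 ≤ a → a < k → i ≠ N.om → (rv i = .II ∨ rv i = .I) →
    (rv a).isA = true → ¬ N.kb a →
    Y'.bs i + Y.bs a + (N.s1 + N.n2 + Y.j + 1) ≤ Y.bs i + Y'.bs a + Y.X 1
  st2 : ∀ a, 1 ≤ a → a < k → (rv a).isA = true → ¬ N.kb a →
    Y.bs a + (N.s1 + N.n2 + Y.j + 1) ≤ Y'.bs a + Y.X 1

section

variable {Lf B BL : Type*} [Fintype Lf] [Fintype B] [Fintype BL] [DecidableEq B]

/-- number of single elements of the sweep -/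
def PlanData.nSg (D : PlanData Lf B BL) (k : ℕ) : ℕ :=
  D.nv k .A + D.nv k .II + D.nb .st + D.nb .self + D.nb .sp + D.nb .tl

/-- number of pairs -/
def PlanData.nPr (D : PlanData Lf B BL) : ℕ := D.nb .self + D.nb .xo + D.nb .sp

/-- The relation between plan and numbers. -/
structure NmOK (D : PlanData Lf B BL) (N : Nm) (k : ℕ) (par : BL → B) : Prop where
  e_eq : N.e = D.ns + (if N.pk = 0 then 0 else 1)
  ebt : (N.eb = N.e / 2 ∧ N.et = (N.e + 1) / 2) ∨ (N.e = 2 ∧ N.eb = 0 ∧ N.et = 2)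
  et_FR : N.et = N.eb + 2 → ∀ i, 1 ≤ i → i < k → D.rv i ≠ .FR
  N0_eq : N.N0 = N.e + D.nSg k + 2 * D.nPr
  nT_eq : N.nT = D.nb .L + D.nb .st + D.nb .xo + D.nb .sp
  n2_eq : N.n2 = D.n2
  Ux_eq : N.Ux = D.nb .L + D.nb .st + D.nb .self + D.nb .xo + D.nb .sp + D.nb .tl
    + D.nv k .II + D.nv k .I
  tot : N.w + N.N0 + N.nT + N.h = k + Fintype.card Lf + Fintype.card B + Fintype.card BL
  c0_eq : N.c0 = D.nb .tl + (if N.om ≠ 0 ∧ D.rv N.om = .II then 1 else 0)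
  tl_le : D.nb .tl ≤ 1
  Qh : N.Q ≤ N.h
  om_eq : N.om = 0 ∨ (N.om + 1 = k ∧ k % 2 = 0)
  om_pk : N.om ≠ 0 → D.rv N.om = .II → N.pk ≠ 0
  pk_rng : N.pk ≠ 0 → (N.w < N.pk ∧ N.pk ≤ N.w + N.eb) ∨
    (N.w + N.N0 < N.pk + N.et ∧ N.pk ≤ N.w + N.N0)
  s0_rng : D.nb .tl ≠ 0 → ((N.w < N.s0v ∧ N.s0v ≤ N.w + N.eb) ∨
    (N.w + N.N0 < N.s0v + N.et ∧ N.s0v ≤ N.w + N.N0)) ∧ N.s0v ≠ N.pk
  dl_le : N.dl = 0 ∨ ((∀ i, 1 ≤ i → i < k → D.rv i ≠ .FR) ∧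
    N.dl ≤ (Finset.univ.filter fun b => (D.rb b).top = true ∧ D.ds b = false).card)
  -- only one `FR`
  FR1 : ∀ i i', D.rv i = .FR → D.rv i' = .FR → 1 ≤ i → i < k → 1 ≤ i' → i' < k → i = i'

theorem NmOK.ebe {D : PlanData Lf B BL} {N : Nm} {k : ℕ} {par : BL → B}
    (hN : NmOK D N k par) : N.eb + N.et = N.e := by
  rcases hN.ebt with h | h <;> omega

/-- compatibility of fixed `x`-labels with the plan -/
structure XfOK (D : PlanData Lf B BL) (N : Nm) (Y : Ly) (k : ℕ) (la : Lf → ℕ) (ba : B → ℕ)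
    (par : BL → B) : Prop where
  xf_b : ∀ b, D.rb b = .tl → Y.xf (ba b) = true → D.cb par b .s = 0
  xf_o : N.om ≠ 0 → D.rv N.om = .II → Y.xf N.om = true → D.cl la N.om .s = 0
  -- lower bounds, depending on the number of static leaves
  lb_b : ∀ b, D.rb b = .tl → D.cb par b .s = 0 → Y.thr < Y.yv (ba b) + N.s0v
    + (N.w + N.eb + 1) + (if Y.xf (ba b) then Y.xv (ba b) else Y.X 1)
  lb_b' : ∀ b, D.rb b = .tl → 1 ≤ D.cb par b .s → Y.thr < Y.yv (ba b) + N.s0v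
    + 2 * N.w + 2 + Y.X 1
  lb_o : N.om ≠ 0 → D.rv N.om = .II → D.cl la N.om .s = 0 → Y.thr < Y.bs N.om
    + (N.w + N.eb + 1) + (if Y.xf N.om then Y.xv N.om else Y.X 1)
  lb_o' : N.om ≠ 0 → D.rv N.om = .II → 1 ≤ D.cl la N.om .s → Y.thr < Y.bs N.om
    + 2 * N.w + 2 + Y.X 1

end

end Pool.Agent.Lob5
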