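import Pool.Agent.Lob5.HoleIns

/-!
# Reserved label above the labels `X`: mode 1

`topY` is false, `preG = layOf S n j = lay1 S n j =: Λ`. `Λ.y = y = n2+j+nT+h+1-Q` for `n` and for
`n.up`, also the condition for `xsf` and the value of `xs` are the same for `n` and `n.up`, so
`U⁺ = Λ.U + 1` and `hz.gt : lam (n2+j+P+Λ.U+1) < z` (the missing second label is `wz S n + 2` resp.
`wz S n.up + 2`, irrelevant for positions `≤ wz S n`). So `flow_ins` applies.
`y ≤ n2+j+P+nT ≤ n2+j+P+Λ.U` (`h+1 ≤ P+Q`), so `y < z` and `sk z y = y`.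
`q` is odd, `rk q = h+1` (the largest odd label), `rk (q+1) = Q`:
`V = bs q + y = sk z (pl q) + (w+N0+Q) + y = sk z (pl q) + m + n2 + j + 1` where `w = wz S n + 1`,
`m = mz S n + 1`.
* `V_up`: `sk z (pl q) ≤ w`. `V_C`: an unloaded vertex has an odd label `< sk z (pl q)` (smaller rank,
  `lop` and `lam` are monotone for `k2 = false`) and an even label `≤ m`.
  `V_L`: second alternative (`pl q > Xl U`, `Q ≤ h`).
* `F3`: `M.F3`, `le_sk`. `Fx`: `M.Fx` and `sk z xs ≤ xs + 1`. `y_ok, xs_ok`: `M.y_ok, M.xs_ok, L.X_y, L.p_odd`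
  and `sk_inj`. `D`: `dab_ins`, `M.dab`, `bad_lt`. `FZed`: `fzed_ins`, `M.U_eq`.
Here `M = mod_all S n j hA`, `L = low_all S n j hA`.
-/

namespace Pool.Agent.Lob5

variable {k : ℕ} {ld al : ℕ → Prop}

private theorem lam_step (S : Seam k ld al) (n : Num) (j : ℕ) (hm : S.mode = 1) (hA : Adm S n j)
    {z : ℕ} (hz : ZG S n j z) (e : ∀ n' : Num, n'.sp = n.sp → layOf S n' j = lay1 S n' j) :
    lam (lay1 S n j).y1 (lay1 S n j).y2
      (n.n2 + (lay1 S n j).j + S.P + (lay1 S n j).U + 1) < z := by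
  have hgt := hz.gt
  rw [e n.up rfl] at hgt
  have hsp := hA.sp14 (by omega) (by omega)
  have hw : wz S n = n.n2 + n.Ux + S.h + 2 := by
    unfold wz
    rw [if_neg (by omega)]
  have hwu := wz_up S n
  have hjU := hA.jU
  have hPh := S.Ph
  have hc : lay1 S n.up j = if n.sp = 3 ∧ (n.n2 + j + n.nT + S.h + 1 - S.Q) +
      (n.n2 + j + S.P + 1 +
      (if n.n2 + j + n.nT + S.h + 1 - S.Q ≤ n.n2 + j + S.P + 1 then 1 else 0)) <
      n.nT + S.h + n.n2 + j + 1 then
    layD n.up j (n.n2 + j + n.nT + S.h + 1 - S.Q)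
      (if S.Q = n.n2 + j + n.nT + S.h + 1 - S.Q then S.Q + 1 else S.Q)
  else layS S n.up j (n.n2 + j + n.nT + S.h + 1 - S.Q) := rfl
  by_cases h : n.sp = 3 ∧ (n.n2 + j + n.nT + S.h + 1 - S.Q) + (n.n2 + j + S.P + 1 +
      (if n.n2 + j + n.nT + S.h + 1 - S.Q ≤ n.n2 + j + S.P + 1 then 1 else 0)) <
      n.nT + S.h + n.n2 + j + 1
  · rw [hc, if_pos h] at hgt
    unfold lay1
    rw [if_pos h]
    obtain ⟨x, hx⟩ : ∃ x, x = if S.Q = n.n2 + j + n.nT + S.h + 1 - S.Q then S.Q + 1 else S.Q :=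
      ⟨_, rfl⟩
    rw [← hx] at hgt ⊢
    rw [if_pos (by omega)] at hjU
    simp only [layD, Xl, Num.up, Bool.false_eq_true, if_false, Nat.sub_zero] at hgt ⊢
    have e1 : n.n2 + j + S.P + (n.Ux + 1 - 1 - j) = n.n2 + j + S.P + (n.Ux - 1 - j) + 1 := by
      omega
    rw [e1] at hgt
    exact hgt
  · rw [hc, if_neg h] at hgt
    unfold lay1
    rw [if_neg h]
    have hjU2 : n.nT + j ≤ n.Ux := by
      split_ifs at hjU <;> omega
    simp only [layS, Xl, Bool.false_eq_true, if_false, Nat.sub_zero] at hgt ⊢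
    have e1 : n.up.n2 + j + S.P + (n.up.Ux - j) = n.n2 + j + S.P + (n.Ux - j) + 1 := by
      unfold Num.up
      dsimp only
      omega
    rw [e1, hwu] at hgt
    unfold lam at hgt ⊢
    split_ifs at hgt ⊢ <;> omega

theorem hg_1 (S : Seam k ld al) (n : Num) (j z : ℕ) (hm : S.mode = 1) (hA : Adm S n j)
    (hz : ZG S n j z) : FLow S n (funG S n j z) ∧ FMod S n (funG S n j z) ∧
      FZed S n (funG S n j z) := by
  have hsp := hA.sp14 (by omega) (by omega)
  have e : ∀ n' : Num, n'.sp = n.sp → layOf S n' j = lay1 S n' j := by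
    intro n' hn'
    unfold layOf
    rw [if_neg (by omega), if_pos hm]
  have htop : ¬ topY S n := by
    unfold topY
    omega
  have hpre : preG S n j z = lay1 S n j := by
    unfold preG
    rw [if_neg (fun h => htop h.1), e n rfl]
  have hlam := lam_step S n j hm hA hz e
  have M := mod_1 S n j hm hA
  have L := low_1 S n j hm hA
  have hzle := hz.le
  have hwu := wz_up S n
  have hmu := mz_up S n
  have hw : wz S n = n.n2 + n.Ux + S.h + 2 := by
    unfold wz
    rw [if_neg (by omega)]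
  have hmz : mz S n = wz S n + n.N0 + n.nT + S.h := rfl
  have hjU := hA.jU
  have hQ := S.Qh
  have hPQ := S.PQ
  have h2T := hA.n2T
  obtain ⟨q1, q2, q3, q4, q5, q6⟩ := S.m1 hm
  have q7 := S.al_ld _ q1
  have q8 := S.ld_pos _ q7
  have q9 := S.ld_lt _ q7
  have q10 := S.rk_og S.q q8 q9.le q3 q2
  have hg : funG S n j z = insG S n (lay1 S n j) z := by
    unfold funG
    rw [hpre]
  rw [hg]
  have hj : (lay1 S n j).j = j := by
    rw [← e n rfl]
    exact lay_j' S n j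
  have hk2 : (lay1 S n j).k2 = false := by
    unfold lay1
    split_ifs <;> rfl
  have hlg : (lay1 S n j).lg = false := by
    unfold lay1
    split_ifs <;> rfl
  have hy : (lay1 S n j).y = n.n2 + j + n.nT + S.h + 1 - S.Q := by
    unfold lay1
    split_ifs <;> rfl
  have h12 : n.n2 + (lay1 S n j).j < (lay1 S n j).y1 ∧ (lay1 S n j).y1 < (lay1 S n j).y2 ∧
      wz S n = n.n2 + (lay1 S n j).j + (lay1 S n j).U + S.h + 1 +
        (if (lay1 S n j).y1 ≤ wz S n then 1 else 0)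
      + (if (lay1 S n j).y2 ≤ wz S n then 1 else 0) := by
    unfold lay1
    by_cases hc : n.sp = 3 ∧ (n.n2 + j + n.nT + S.h + 1 - S.Q) + (n.n2 + j + S.P + 1 +
        (if n.n2 + j + n.nT + S.h + 1 - S.Q ≤ n.n2 + j + S.P + 1 then 1 else 0)) <
        n.nT + S.h + n.n2 + j + 1
    · rw [if_pos hc]
      obtain ⟨hc1, hc2⟩ := hc
      have hXQ : n.n2 + j + S.P + 2 ≤ S.Q := by
        split_ifs at hc2 <;> omega
      rw [if_pos (by omega)] at hjU
      simp only [layD]
      refine ⟨?_, ?_, ?_⟩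
      · split_ifs <;> omega
      · split_ifs <;> omega
      · rw [hw]
        split_ifs <;> omega
    · rw [if_neg hc]
      have hjU2 : n.nT + j ≤ n.Ux := by
        split_ifs at hjU <;> omega
      simp only [layS]
      refine ⟨?_, ?_, ?_⟩
      · omega
      · omega
      · rw [if_pos (by omega), if_neg (by omega)]
        omega
  generalize hΛ : lay1 S n j = Λ at *
  obtain ⟨h1, h12, hww⟩ := h12
  have hUge := L.U_ge
  have hlt : lam Λ.y1 Λ.y2 (n.n2 + Λ.j + S.P + Λ.U) < z :=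
    lt_trans (lam_lt (Nat.lt_succ_self _)) hlam
  have hyz : Λ.y < z := by
    have := le_lam Λ.y1 Λ.y2 (n.n2 + Λ.j + S.P + Λ.U)
    rw [hy]
    omega
  have hsy : sk z Λ.y = Λ.y := sk_of_lt hyz
  have hzw : z ≤ wz S n + 1 := by omega
  have q11 : oe S.q = S.q := by
    unfold oe
    rw [if_pos q3]
  have q12 : ee S.q = S.q + 1 := by
    unfold ee
    rw [if_pos q3]
  -- the odd edge `q`
  have hplq : pl S n Λ S.q = lam Λ.y1 Λ.y2 (n.n2 + Λ.j + Λ.U + (S.h + 1)) := by
    unfold pl lop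
    rw [if_pos q3, hk2, if_neg Bool.false_ne_true, if_neg (by omega), q4]
  have hplq1 : pl S n Λ (S.q + 1) = wz S n + n.N0 + S.Q := by
    unfold pl
    rw [if_neg (by omega), q5, if_neg (by omega)]
    rfl
  have hbq : (insG S n Λ z).bs S.q + Λ.y =
      sk z (pl S n Λ S.q) + wz S n.up + n.N0 + n.nT + S.h + n.n2 + j + 1 := by
    unfold FLay.bs insG
    dsimp only
    rw [if_pos q3, if_neg (by omega), hplq1, hy, hwu]
    omega
  have hsk : sk z (pl S n Λ S.q) ≤ wz S n.up := by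
    have h1 := (L.p_odd S.q q8 q9.le q3).2.1
    have h2 := sk_le z (pl S n Λ S.q)
    omega
  have hbi : ∀ i, 1 ≤ i → i < k → ¬ ld i →
      (insG S n Λ z).bs i ≤ sk z (pl S n Λ S.q) + (wz S n.up + n.N0 + n.nT + S.h) := by
    intro i i1 i2 i3
    have hodd : ∀ e, 1 ≤ e → e ≤ k → e % 2 = 1 → pl S n Λ e ≤ pl S n Λ S.q := by
      intro e e1 e2 e3
      rw [hplq]
      unfold pl lop
      rw [if_pos e3, hk2, if_neg Bool.false_ne_true]
      have hr : S.rk e ≤ S.h + 1 := by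
        by_cases hb : S.bad e
        · have := S.rk_ob e e1 e2 e3 hb
          omega
        · exact (S.rk_og e e1 e2 e3 hb).2
      split_ifs
      · exact (lam_mono _ _).monotone (by omega)
      · exact (lam_mono _ _).monotone (by omega)
    have heven : ∀ e, 1 ≤ e → e ≤ k → e % 2 = 0 →
        pl S n Λ e + 1 ≤ wz S n.up + n.N0 + n.nT + S.h := by
      intro e e1 e2 e3
      rcases L.p_even e e1 e2 e3 with h | h <;> omega
    unfold FLay.bs insG
    dsimp only
    by_cases hp : i % 2 = 1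
    · rw [if_pos hp, if_neg (by omega)]
      have a1 := (sk_mono z).monotone (hodd i i1 (by omega) hp)
      have a2 := heven (i + 1) (by omega) (by omega) (by omega)
      omega
    · rw [if_neg hp, if_pos (by omega)]
      have a1 := (sk_mono z).monotone (hodd (i + 1) (by omega) (by omega) (by omega))
      have a2 := heven i i1 (by omega) (by omega)
      omega
  have hd := dab_ins S n Λ z M.dab (by
    intro a ha haq hba
    have a1 := S.al_ld _ ha
    exact (bad_lt S n Λ hk2 hlt (S.ld_pos _ a1) (S.ld_lt _ a1) hba).1)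
  have hplodd : ∀ e, e % 2 = 1 → (insG S n Λ z).p e = sk z (pl S n Λ e) := by
    intro e he
    unfold insG
    dsimp only
    rw [if_pos he]
  refine ⟨flow_ins S n Λ z hk2 h1 h12 hww hUge hlt hzw, ?_, fzed_ins S n Λ z M.U_eq (by
    have := le_lam Λ.y1 Λ.y2 (n.n2 + Λ.j + S.P + Λ.U)
    omega) hzw⟩
  refine ⟨?_, ?_, ?_, ?_, ?_, ?_, ?_, ?_, ?_, hd.1, hd.2.1, hd.2.2⟩
  · intro hs _
    obtain ⟨y1, y2, y3⟩ := M.y_ok hs hlg
    change n.n2 + Λ.j < sk z Λ.y ∧ sk z Λ.y ≤ wz S n.up ∧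
      (∀ i, 1 ≤ i → i ≤ Λ.U → sk z (Xl S n Λ i) ≠ sk z Λ.y) ∧
      (∀ e, 1 ≤ e → e ≤ k → e % 2 = 1 → (insG S n Λ z).p e ≠ sk z Λ.y)
    refine ⟨?_, ?_, ?_, ?_⟩
    · rw [hsy]
      exact y1
    · rw [hsy]
      omega
    · intro i i1 _ h
      have h3 := sk_inj h
      have h4 := L.X_y i i1
      rcases y3 with y3 | y3 <;> rw [y3] at h3
      · exact h4.1 h3
      · exact h4.2 h3
    · intro e' e1 e2 e3 h
      rw [hplodd e' e3] at h
      have h3 := sk_inj h
      have h4 := (L.p_odd e' e1 e2 e3).2.2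
      rcases y3 with y3 | y3 <;> rw [y3] at h3
      · exact h4.1 h3
      · exact h4.2 h3
  · intro hx
    obtain ⟨x1, x2, x3, x4, x5⟩ := M.xs_ok hx
    change n.sp = 3 ∧ n.n2 + Λ.j < sk z Λ.xs ∧ sk z Λ.xs ≤ wz S n.up ∧ sk z Λ.xs ≠ sk z Λ.y ∧
      (∀ i, 1 ≤ i → i ≤ Λ.U → sk z (Xl S n Λ i) ≠ sk z Λ.xs) ∧
      (∀ e, 1 ≤ e → e ≤ k → e % 2 = 1 → (insG S n Λ z).p e ≠ sk z Λ.xs)
    refine ⟨x1, ?_, ?_, ?_, ?_, ?_⟩
    · have := le_sk z Λ.xs
      omega
    · have := sk_le z Λ.xs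
      omega
    · intro h
      exact x4 (sk_inj h)
    · intro i i1 _ h
      have h3 := sk_inj h
      have h4 := L.X_y i i1
      rcases x5 with y3 | y3 <;> rw [y3] at h3
      · exact h4.1 h3
      · exact h4.2 h3
    · intro e' e1 e2 e3 h
      rw [hplodd e' e3] at h
      have h3 := sk_inj h
      have h4 := (L.p_odd e' e1 e2 e3).2.2
      rcases x5 with y3 | y3 <;> rw [y3] at h3
      · exact h4.1 h3
      · exact h4.2 h3
  · intro h
    change Λ.lg = true at h
    rw [hlg] at h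
    cases h
  · intro _ _
    change wz S n.up + n.N0 < (insG S n Λ z).bs S.q + sk z Λ.y
    rw [hsy, hbq]
    omega
  · intro _ _
    change (insG S n Λ z).bs S.q + sk z Λ.y ≤ wz S n.up + mz S n.up + n.n2 + Λ.j + 1
    rw [hsy, hbq]
    omega
  · intro _ _ i i1 i2 i3
    change (insG S n Λ z).bs i ≠ (insG S n Λ z).bs S.q + sk z Λ.y
    rw [hsy, hbq]
    have := hbi i i1 i2 i3
    omega
  · intro _ _ hU1
    right
    change wz S n.up + n.N0 + S.Q + n.nT + 1 + sk z (Xl S n Λ Λ.U) <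
      (insG S n Λ z).bs S.q + sk z Λ.y
    rw [hsy, hbq]
    have h4 : sk z (Xl S n Λ Λ.U) < sk z (pl S n Λ S.q) := by
      apply sk_lt
      rw [hplq]
      unfold Xl
      rw [hk2]
      apply lam_lt
      simp only [Bool.false_eq_true, if_false]
      omega
    omega
  · intro h3 hx
    change n.nT + S.h + n.n2 + Λ.j + 1 ≤ sk z Λ.y + sk z (Xl S n Λ 1)
    have h4 := M.F3 h3 hx
    have h5 := le_sk z (Xl S n Λ 1)
    omega
  · intro hx
    change n.nT + S.h + n.n2 + Λ.j + 1 ≤ sk z Λ.y + sk z Λ.xs ∧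
      sk z Λ.y + sk z Λ.xs ≤ n.nT + S.h + n.n2 + Λ.j + 3
    have h4 := M.Fx hx
    have h5 := le_sk z Λ.xs
    have h6 := sk_le z Λ.xs
    omega

end Pool.Agent.Lob5
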