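import Pool.Agent.Lob5.HoleIns

/-!
# Reserved label above the labels `X`: mode 2

`layOf = lay2 = layS S n j y0`, `y0 = wz+1-P` if `n2+j+P < wz+1-P`, otherwise `y0 = wz-P` (`wz = wz S n`).
`topY` holds. `preG = layS S n j y'` with `y' = y0+1` if `y0+1 < z`, otherwise `y' = y0` and then `y0 ≥ z`
(`hz.ny`: `z ≠ y0+1`). In both cases the final label is `sk z y' = y0 + 1`.
`hz.gt`: `z > Xl S n.up (layOf S n.up j) (Ux+1-j) ≥ n2+P+Ux+1 ≥ lam (n2+j+P+U)`, `U = Ux - j`, so
`flow_ins` applies to `Λ = preG` (`y' ≤ wz`: if `y' = y0+1 < z ≤ wz+1`).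
`q` is even, `rk q = h`: `pl q = mz S n`, final label `m`. `q+1` is odd and bad, `rk (q+1) = P`,
`pl (q+1) = lam y' (wz+2) (n2+j+P) < z` (`bad_lt`). If `y0 = wz+1-P > n2+j+P` it is `n2+j+P`;
otherwise `y' ≤ n2+j+P` and it is `n2+j+P+1`. In both cases
`V = bs q + (y0+1) = w + m + n2 + j + 1` (`w = wz+1`, `m = mz S n + 1`). So `V_up` is an equality, `V_C` by
`C_up` of `flow_ins`, `V_L`: second alternative (`X_w`, `Q ≤ h`, `N0, h ≥ 0`, `X U ≤ w`, `m ≥ w+N0+nT+Q`).
* `F3`: `y + X 1 ≥ (wz+1-P) + (n2+j+P+1)`, `wz = n2+Ux+h+2`, `Ux ≥ nT+j+1`.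
* `D`: `dab_ins` with `dab_layS` (resp. `(mod_all ..).dab`). `FZed`: `fzed_ins`.
(`m2_wz`, `m2_y` in `Mod2.lean` are useful, copy them.)
-/

namespace Pool.Agent.Lob5

variable {k : ℕ} {ld al : ℕ → Prop}

private theorem wz_HoleG2 (S : Seam k ld al) (n : Num) (j : ℕ) (hm : S.mode = 2)
    (hA : Adm S n j) : n.sp ≠ 0 ∧ j ≤ n.Ux ∧ n.nT ≤ n.Ux - j ∧
      wz S n = n.n2 + j + (n.Ux - j) + S.h + 2 := by
  have h1 := hA.sp14 (by omega) (by omega)
  have h2 := hA.jU
  have h3 : n.sp ≠ 0 := by omega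
  have h4 : n.nT + j ≤ n.Ux := by
    split_ifs at h2 <;> omega
  refine ⟨h3, by omega, by omega, ?_⟩
  unfold wz
  rw [if_neg h3]
  omega

private theorem layOf_HoleG2 (S : Seam k ld al) (n : Num) (j : ℕ) (hm : S.mode = 2)
    (hs : n.sp ≠ 0) : layOf S n j = lay2 S n j := by
  simp [layOf, hs, hm]

/-- the layout into which `z` is inserted; `y0 + 1` is the final label of the special vertex -/
private theorem pre_HoleG2 (S : Seam k ld al) (n : Num) (j z : ℕ) (hm : S.mode = 2)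
    (hA : Adm S n j) (hz : ZG S n j z) :
    ∃ y0 y, preG S n j z = layS S n j y ∧ n.n2 + j < y ∧ y ≤ wz S n ∧ sk z y = y0 + 1 ∧
      n.n2 + j < y0 ∧ y0 ≤ wz S n ∧ wz S n ≤ y0 + S.P ∧
      lam y (wz S n + 2) (n.n2 + j + S.P) + y0 = wz S n + n.n2 + j + 1 ∧
      lam y (wz S n + 2) (n.n2 + j + S.P + (n.Ux - j)) < z ∧ z ≤ wz S n + 1 ∧
      n.n2 + j + S.P < z := by
  obtain ⟨h1, h2, h3, h4⟩ := wz_HoleG2 S n j hm hA
  have h5 := S.Ph
  have h6 := S.P1
  have hs' : n.up.sp ≠ 0 := h1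
  have e1 := layOf_HoleG2 S n j hm h1
  have e2 := layOf_HoleG2 S n.up j hm hs'
  have hgt := hz.gt
  have hle := hz.le
  have htop : topY S n := ⟨h1, Or.inl hm⟩
  have hny := hz.ny htop
  rw [wz_up] at hle
  rw [e2] at hgt
  have hgt2 : n.n2 + j + S.P + (n.Ux + 1 - j) < z := by
    refine lt_of_le_of_lt ?_ hgt
    exact le_lam _ _ _
  set y0 : ℕ := if n.n2 + j + S.P < wz S n + 1 - S.P then wz S n + 1 - S.P
    else wz S n - S.P with hy0
  have e3 : layOf S n j = layS S n j y0 := e1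
  have e4 : (layOf S n j).y = y0 := by
    rw [e3]
    rfl
  rw [e4] at hny
  refine ⟨y0, if y0 + 1 < z then y0 + 1 else y0, ?_, ?_, ?_, ?_, ?_, ?_, ?_, ?_, ?_, hle, ?_⟩
  · unfold preG
    rw [e4]
    by_cases h : y0 + 1 < z
    · rw [if_pos ⟨htop, h⟩, if_pos h]
    · rw [if_neg (fun hh => h hh.2), if_neg h, e3]
  · rw [hy0]
    split_ifs <;> omega
  · rw [hy0]
    split_ifs <;> omega
  · unfold sk
    split_ifs <;> omega
  · rw [hy0]
    split_ifs <;> omega
  · rw [hy0]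
    split_ifs <;> omega
  · rw [hy0]
    split_ifs <;> omega
  · unfold lam
    rw [if_neg (by omega : ¬ wz S n + 2 ≤ n.n2 + j + S.P + 1), hy0]
    split_ifs <;> omega
  · unfold lam
    rw [if_neg (by omega : ¬ wz S n + 2 ≤ n.n2 + j + S.P + (n.Ux - j) + 1)]
    split_ifs <;> omega
  · omega

theorem hg_2 (S : Seam k ld al) (n : Num) (j z : ℕ) (hm : S.mode = 2) (hA : Adm S n j)
    (hz : ZG S n j z) : FLow S n (funG S n j z) ∧ FMod S n (funG S n j z) ∧
      FZed S n (funG S n j z) := by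
  obtain ⟨h1, h2, h3, h4⟩ := wz_HoleG2 S n j hm hA
  obtain ⟨y0, y, hpre, hy1, hy2, hsk, hy3, hy4, hy5, hlam, hz1, hz2, hz3⟩ :=
    pre_HoleG2 S n j z hm hA hz
  have h5 := S.Ph
  have h6 := S.P1
  unfold funG
  rw [hpre]
  have hj : (layS S n j y).j = j := rfl
  have hU : (layS S n j y).U = n.Ux - j := rfl
  have hF : FLow S n (insG S n (layS S n j y) z) := by
    refine flow_ins S n (layS S n j y) z rfl hy1 ?_ ?_ h3 hz1 hz2
    · change y < wz S n + 2
      omega
    · change wz S n = n.n2 + j + (n.Ux - j) + S.h + 1 + (if y ≤ wz S n then 1 else 0) +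
        (if wz S n + 2 ≤ wz S n then 1 else 0)
      rw [if_pos hy2, if_neg (by omega)]
      omega
  have hL : LowOK S n (layS S n j y) := by
    refine lowOK_gen S n (layS S n j y) rfl hy1 ?_ ?_ h3
    · change y < wz S n + 2
      omega
    · change wz S n = n.n2 + j + (n.Ux - j) + S.h + 1 + (if y ≤ wz S n then 1 else 0) +
        (if wz S n + 2 ≤ wz S n then 1 else 0)
      rw [if_pos hy2, if_neg (by omega)]
      omega
  have hD := dab_ins S n (layS S n j y) z (dab_layS S n j y (Or.inl hm) h1 hA hy1 hy2)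
    (fun a ha _ hb => (bad_lt S n (layS S n j y) rfl hz1 (S.ld_pos a (S.al_ld a ha))
      (S.ld_lt a (S.al_ld a ha)) hb).1)
  obtain ⟨m1, m2, m3, m4, m5⟩ := S.m2 (Or.inl hm)
  have hq := S.al_ld _ m1
  have hq1 := S.ld_pos _ hq
  have hq2 := S.ld_lt _ hq
  have hoe : oe S.q = S.q + 1 := by
    unfold oe
    rw [if_neg (by omega)]
  have hee : ee S.q = S.q := by
    unfold ee
    rw [if_neg (by omega)]
  have hQh : S.Q + 1 ≤ S.h := by
    have h := (S.rk_eg S.q hq1 hq2.le m3 m2).1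
    omega
  have h9 : ¬ S.bad (ee S.q) := by
    rw [hee]
    exact m2
  have h10 : S.bad (oe S.q) := (S.diff' hq).2 h9
  have hbq : bs S n (layS S n j y) S.q = mz S n +
      lam y (wz S n + 2) (n.n2 + j + S.P) := by
    rw [bs_bg S n (layS S n j y) rfl hq1 hq2 h10 h9, hoe, hee, m4, m5]
    change wz S n + n.N0 + n.nT + lam y (wz S n + 2) (n.n2 + j + S.P) + S.h = _
    unfold mz
    omega
  have hV : (insG S n (layS S n j y) z).bs S.q + (insG S n (layS S n j y) z).y =
      wz S n.up + mz S n.up + n.n2 + j + 1 := by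
    have h11 := (bad_lt S n (layS S n j y) rfl hz1 hq1 hq2 h10).1
    rw [bs_ins, if_neg (by omega), hbq, wz_up, mz_up]
    change mz S n + lam y (wz S n + 2) (n.n2 + j + S.P) + 1 + 0 + sk z y = _
    rw [hsk]
    omega
  have hmz : mz S n.up = wz S n.up + n.N0 + n.nT + S.h := rfl
  have hwu := wz_up S n
  have hyy : (insG S n (layS S n j y) z).y = y0 + 1 := hsk
  refine ⟨hF, ?_, ?_⟩
  · refine ⟨?_, ?_, ?_, ?_, ?_, ?_, ?_, ?_, ?_, hD.1, hD.2.1, hD.2.2⟩
    · intro _ _
      refine ⟨?_, ?_, ?_, ?_⟩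
      · rw [hyy]
        change n.n2 + j < y0 + 1
        omega
      · rw [hyy]
        omega
      · intro i hi _ he
        exact (hL.X_y i hi).1 (sk_inj he)
      · intro e he1 he2 he3 he
        refine (hL.p_odd e he1 he2 he3).2.2.1 ?_
        have h12 : (if e % 2 = 1 then sk z (pl S n (layS S n j y) e)
          else pl S n (layS S n j y) e + 1) = sk z y := he
        rw [if_pos he3] at h12
        exact sk_inj h12
    · intro h
      exact absurd h (by simp [insG, layS])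
    · intro h
      exact absurd h (by simp [insG, layS])
    · intro _ _
      rw [hV]
      omega
    · intro _ _
      rw [hV]
      exact le_rfl
    · intro _ _ i hi1 hi2 hi3
      have h12 := hF.C_up i hi1 hi2 hi3
      rw [hV]
      omega
    · intro _ _ hU1
      right
      have h12 := hF.X_w _ hU1 le_rfl
      rw [hV]
      omega
    · intro _ _
      have h12 := hF.X_lo 1 le_rfl
      change n.n2 + j + S.P + 1 ≤ _ at h12
      rw [hyy]
      change n.nT + S.h + n.n2 + j + 1 ≤ _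
      omega
    · intro h
      exact absurd h (by simp [insG, layS])
  · refine fzed_ins S n (layS S n j y) z ?_ hz3 hz2
    change n.Ux - j + j + 0 = n.Ux + 0
    omega

end Pool.Agent.Lob5
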