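import Pool.Agent.Lob5.HoleIns3

/-!
# Reserved label above the labels `X`: mode 3

`topY` is false, `preG = layOf S n j = lay3 S n j =: Λ`, `k2 = true`, `y1 = y = n2+j+1`, `xs =
nT+h` if `sp = 3` and `n2+j+P+1 < nT+h` (the same condition for `n.up`), `U⁺ = Λ.U + 1`. `hz.gt`:
`lam (n2+j+P+U⁺-1) < z`, so `lam (n2+j+P+Λ.U-1) < z` and `flow_ins3` applies; `y < z`, so `sk z y
= y`. `q` is even, `rk q = h`: final label `m`. `q+1`: odd, `rk (q+1) = P`, position `n2+j+U+h+1`,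
the largest odd label. `V = m + sk z (pl (q+1)) + n2 + j + 1`.
* `V_up`: `sk z (pl (q+1)) ≤ w`. `V_C`: an unloaded vertex does not contain the edge `q+1` (`q`,
  `q+1` are loaded: `S.m2, S.m3, al_ld`), its odd label is smaller than that of `q+1`, its even
  label `≤ m`. `V_L`: second alternative.
* `F3`: `M.F3`; `Fx`: `M.Fx`, `sk_le`. `D`: `dab_ins` with `bad_lt3` (`a ≠ q+1` as `q+1` is not
  `al`).
* `FZed`: `fzed_ins`, `M.U_eq`; `n2+j+P < z`: `lam (n2+j+P+U⁺-1) ≥ n2+j+P+1` for `U⁺ ≥ 1`. Here `M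
  = mod_all S n j hA`, `L = low_all S n j hA`.
-/

namespace Pool.Agent.Lob5

variable {k : ℕ} {ld al : ℕ → Prop}

private theorem g3_aux (S : Seam k ld al) (n : Num) (Λ : Lay) (z : ℕ) (hm : S.mode = 3)
    (L : LowOK S n Λ) (M : ModOK S n Λ) (hk2 : Λ.k2 = true) (hlg : Λ.lg = false)
    (hsp : n.sp ≠ 0) (hy1 : Λ.y1 = n.n2 + Λ.j + 1) (hy : Λ.y = Λ.y1) (h12 : Λ.y1 < Λ.y2)
    (hw : wz S n = n.n2 + Λ.j + Λ.U + S.h + 1 + 1 + (if Λ.y2 ≤ wz S n then 1 else 0))
    (hy2 : Λ.y2 ≠ wz S n) (hz : lam Λ.y1 Λ.y2 (n.n2 + Λ.j + S.P + Λ.U) < z)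
    (hzw : z ≤ wz S n + 1) :
    FLow S n (insG S n Λ z) ∧ FMod S n (insG S n Λ z) ∧ FZed S n (insG S n Λ z) := by
  have hP1 := S.P1
  have hPh := S.Ph
  have hU := L.U_ge
  have hmz : mz S n = wz S n + n.N0 + n.nT + S.h := rfl
  have hwu := wz_up S n
  have hmu := mz_up S n
  obtain ⟨m1, m2, m3, m4, m5⟩ := S.m2 (Or.inr hm)
  obtain ⟨q1, q2, q3, q4⟩ := S.m3 hm
  have hq := S.al_ld _ m1
  have hq1 := S.ld_pos _ hq
  have hq2 := S.ld_lt _ hq
  have hoe : oe S.q = S.q + 1 := by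
    unfold oe
    rw [if_neg (by omega)]
  have hee : ee S.q = S.q := by
    unfold ee
    rw [if_neg (by omega)]
  have hQh : S.Q + 1 ≤ S.h := by
    have h := (S.rk_eg S.q hq1 hq2.le m3 m2).1
    omega
  have hgq : ¬ S.bad (ee S.q) := by
    rw [hee]
    exact m2
  have top : lam Λ.y1 Λ.y2 (n.n2 + Λ.j + Λ.U + S.h + 1) = wz S n := by
    unfold lam
    rw [if_pos (by omega)]
    split_ifs at hw ⊢ <;> omega
  have hplq : pl S n Λ (oe S.q) = wz S n := by
    rw [← top, hoe]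
    unfold pl lop
    rw [if_pos (by omega), hk2, m5]
    simp
  have hbq : bs S n Λ S.q = mz S n + wz S n := by
    rw [bs2_Pg S n Λ hk2 hq1 hq2 (by rw [hoe]; exact m5) hgq, hee, m4, top, hmz]
    omega
  -- the position of `z`
  have hlz : n.n2 + Λ.j + S.P + 1 < z ∧ lam Λ.y1 Λ.y2 (n.n2 + Λ.j + S.P + Λ.U - 1) < z := by
    constructor
    · have h1 : n.n2 + Λ.j + S.P + Λ.U + 1 ≤ lam Λ.y1 Λ.y2 (n.n2 + Λ.j + S.P + Λ.U) := by
        unfold lam
        rw [if_pos (by omega)]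
        omega
      omega
    · exact lt_trans (lam_lt (by omega)) hz
  have hyz : sk z Λ.y = Λ.y := sk_of_lt (by omega)
  have hb : ∀ a, al a → a ≠ S.q → S.bad (oe a) → pl S n Λ (oe a) < z := by
    intro a ha haq hba
    have ha' := S.al_ld _ ha
    exact (bad_lt3 S n Λ hm hk2 hlz.2 (S.ld_pos a ha') (S.ld_lt a ha') hba haq
      (by rintro rfl; exact q3 ha)).1
  obtain ⟨d1, d2, d3⟩ := dab_ins S n Λ z M.dab hb
  have hbsq := bs_ins S n Λ z S.q
  rw [hplq, hbq] at hbsq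
  have hodd : ∀ e, e % 2 = 1 → (insG S n Λ z).p e = sk z (pl S n Λ e) := fun e he => if_pos he
  refine ⟨flow_ins3 S n Λ z hm hk2 hy1 h12 hw hU hlz.2 hzw, ?_,
    fzed_ins S n Λ z M.U_eq (by omega) hzw⟩
  refine
    { y_ok := fun _ _ => ?_
      xs_ok := fun hx => ?_
      lg_ok := ?_
      V_lo := fun _ _ => ?_
      V_up := fun _ _ => ?_
      V_C := fun _ _ i h1 h2 h3 => ?_
      V_L := fun _ _ hU1 => ?_
      F3 := ?_
      Fx := ?_
      Dbb := d1
      Dgg := d2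
      Dgb := d3 }
  · change n.n2 + Λ.j < sk z Λ.y ∧ sk z Λ.y ≤ wz S n.up ∧
      (∀ i, 1 ≤ i → i ≤ Λ.U → sk z (Xl S n Λ i) ≠ sk z Λ.y) ∧ _
    have h4 := (M.y_ok hsp hlg).2.1
    refine ⟨by omega, by omega, fun i h1 _ h => ?_, fun e h1 h2 h3 h => ?_⟩
    · exact (L.X_y i h1).1 (by rw [← hy]; exact sk_inj h)
    · rw [hodd e h3] at h
      exact (L.p_odd e h1 h2 h3).2.2.1 (by rw [← hy]; exact sk_inj h)
  · obtain ⟨x1, x2, x3, x4, x5⟩ := M.xs_ok hx
    change n.sp = 3 ∧ n.n2 + Λ.j < sk z Λ.xs ∧ sk z Λ.xs ≤ wz S n.up ∧ sk z Λ.xs ≠ sk z Λ.y ∧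
      (∀ i, 1 ≤ i → i ≤ Λ.U → sk z (Xl S n Λ i) ≠ sk z Λ.xs) ∧ _
    have h4 := le_sk z Λ.xs
    have h5 := sk_le z Λ.xs
    refine ⟨x1, by omega, by omega, fun h => x4 (sk_inj h), fun i h1 _ h => ?_,
      fun e h1 h2 h3 h => ?_⟩
    · have h6 := L.X_y i h1
      have h7 := sk_inj h
      rcases x5 with x5 | x5
      · exact h6.1 (by rw [h7, x5])
      · exact h6.2 (by rw [h7, x5])
    · change (insG S n Λ z).p e = sk z Λ.xs at h
      rw [hodd e h3] at h
      have h6 := L.p_odd e h1 h2 h3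
      have h7 := sk_inj h
      rcases x5 with x5 | x5
      · exact h6.2.2.1 (by rw [h7, x5])
      · exact h6.2.2.2 (by rw [h7, x5])
  · intro h
    change Λ.lg = true at h
    rw [hlg] at h
    exact absurd h (by decide)
  · change wz S n.up + n.N0 < (insG S n Λ z).bs S.q + sk z Λ.y
    rw [hbsq, hyz]
    omega
  · change (insG S n Λ z).bs S.q + sk z Λ.y ≤ wz S n.up + mz S n.up + n.n2 + Λ.j + 1
    rw [hbsq, hyz]
    split_ifs <;> omega
  · change (insG S n Λ z).bs i ≠ (insG S n Λ z).bs S.q + sk z Λ.y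
    have h4 := L.C_up i h1 h2 h3
    have h5 : 1 ≤ oe i ∧ oe i ≤ k := by
      unfold oe
      split_ifs <;> omega
    have h6 := (L.p_odd (oe i) h5.1 h5.2 oe_odd).2.1
    rw [hbsq, hyz, bs_ins]
    split_ifs <;> omega
  · right
    change wz S n.up + n.N0 + S.Q + n.nT + 1 + sk z (Xl S n Λ Λ.U) <
      (insG S n Λ z).bs S.q + sk z Λ.y
    have h4 := L.X_w _ hU1 le_rfl
    have h5 : Xl S n Λ Λ.U < z := by
      unfold Xl
      rw [hk2]
      exact hlz.2
    rw [hbsq, hyz, sk_of_lt h5]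
    split_ifs <;> omega
  · intro h1 h2
    have h3 := M.F3 h1 h2
    have h4 := le_sk z (Xl S n Λ 1)
    change n.nT + S.h + n.n2 + Λ.j + 1 ≤ sk z Λ.y + sk z (Xl S n Λ 1)
    omega
  · intro h1
    have h3 := M.Fx h1
    have h4 := le_sk z Λ.xs
    have h5 := sk_le z Λ.xs
    change n.nT + S.h + n.n2 + Λ.j + 1 ≤ sk z Λ.y + sk z Λ.xs ∧
      sk z Λ.y + sk z Λ.xs ≤ n.nT + S.h + n.n2 + Λ.j + 3
    omega

theorem hg_3 (S : Seam k ld al) (n : Num) (j z : ℕ) (hm : S.mode = 3) (hA : Adm S n j)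
    (hz : ZG S n j z) : FLow S n (funG S n j z) ∧ FMod S n (funG S n j z) ∧
      FZed S n (funG S n j z) := by
  have hsp := (hA.sp14 (by omega) (by omega)).1
  have hjU := hA.jU
  have hP1 := S.P1
  have hPh := S.Ph
  have hw : wz S n = n.n2 + n.Ux + S.h + 2 := by
    unfold wz
    rw [if_neg (by omega)]
  have hwu := wz_up S n
  have htop : ¬ topY S n := by
    unfold topY
    omega
  have hlay : ∀ n' : Num, n'.sp = n.sp → layOf S n' j = lay3 S n' j := by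
    intro n' h
    unfold layOf
    rw [if_neg (by omega), if_neg (by omega), if_neg (by omega), if_pos hm]
  have hfun : funG S n j z = insG S n (layOf S n j) z := by
    unfold funG preG
    rw [if_neg (fun h => htop h.1)]
  have L := low_all S n j hA
  have M := mod_all S n j hA
  have hgt := hz.gt
  have hle := hz.le
  rw [hfun]
  rw [hlay n.up rfl] at hgt
  rw [hlay n rfl] at L M ⊢
  by_cases c1 : n.sp = 3 ∧ n.n2 + j + S.P + 1 < n.nT + S.h
  · have e1 : lay3 S n j = ⟨j, n.Ux - 1 - j, n.n2 + j + 1, n.nT + S.h, true, n.n2 + j + 1,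
        n.nT + S.h, true, false⟩ := by
      unfold lay3
      rw [if_pos c1]
    have e2 : lay3 S n.up j = ⟨j, n.Ux + 1 - 1 - j, n.n2 + j + 1, n.nT + S.h, true,
        n.n2 + j + 1, n.nT + S.h, true, false⟩ := by
      unfold lay3
      rw [if_pos (show n.up.sp = 3 ∧ n.up.n2 + j + S.P + 1 < n.up.nT + S.h from c1)]
      rfl
    rw [if_pos (by omega)] at hjU
    rw [e1] at L M ⊢
    rw [e2] at hgt
    refine g3_aux S n _ z hm L M rfl rfl (by omega) rfl rfl ?_ ?_ ?_ ?_ (by omega) <;>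
      dsimp only
    · omega
    · rw [if_pos (by omega)]
      omega
    · omega
    · refine lt_of_le_of_lt (le_of_eq ?_) hgt
      unfold Xl
      change lam (n.n2 + j + 1) (n.nT + S.h) _ = lam (n.n2 + j + 1) (n.nT + S.h) _
      congr 1
      change _ = n.n2 + j + S.P + (n.Ux + 1 - 1 - j) - 1
      omega
  · have e1 : lay3 S n j = ⟨j, n.Ux - j, n.n2 + j + 1, wz S n + 2, true, n.n2 + j + 1,
        0, false, false⟩ := by
      unfold lay3
      rw [if_neg c1]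
    have e2 : lay3 S n.up j = ⟨j, n.Ux + 1 - j, n.n2 + j + 1, wz S n.up + 2, true,
        n.n2 + j + 1, 0, false, false⟩ := by
      unfold lay3
      rw [if_neg (show ¬ (n.up.sp = 3 ∧ n.up.n2 + j + S.P + 1 < n.up.nT + S.h) from c1)]
      rfl
    have hjU' : n.nT + j ≤ n.Ux := by
      split_ifs at hjU <;> omega
    rw [e1] at L M ⊢
    rw [e2] at hgt
    refine g3_aux S n _ z hm L M rfl rfl (by omega) rfl rfl ?_ ?_ ?_ ?_ (by omega) <;>
      dsimp only
    · omega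
    · rw [if_neg (by omega)]
      omega
    · omega
    · refine lt_of_le_of_lt (le_of_eq ?_) hgt
      unfold Xl
      change lam (n.n2 + j + 1) (wz S n + 2) (n.n2 + j + S.P + (n.Ux - j)) =
        lam (n.n2 + j + 1) (wz S n.up + 2) (n.n2 + j + S.P + (n.Ux + 1 - j) - 1)
      unfold lam
      split_ifs <;> omega

end Pool.Agent.Lob5
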