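import Pool.Agent.Lob5.HoleIns

/-!
# Reserved label above the labels `X`: mode 4

`topY` is false, `preG = layOf S n j = lay4 S n j =: Λ`. Let `r = n2+j+Q+2`, `c = cutG r`. `q` is odd and
bad, `rk q = 1`, `pl q = n2+j+1 < z` (both inserted labels are larger); `rk (q+1) = Q+1 ≤ h`, so
`bs q = (n2+j+1) + (w+N0+nT+Q+1) = w+N0+nT+r` in the final coordinates, `V = w+N0+nT+r + sk z Λ.y`.
Hypothesis of `flow_ins`: if `Λ.xsf = false` then also `(layOf S n.up j).xsf = false` (the condition for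
`n.up` is stronger), `U⁺ = Ux+1-j`, `hz.gt` gives `z > n2+P+Ux+1`, and `lam (n2+j+P+U) = lam (n2+P+Ux) =
n2+P+Ux` as `Λ.y ≥ n2+P+Ux+1` (`+1` in the case `y = wz`, no problem). If `Λ.xsf = true`: `U = Ux-1-j`,
`lam (n2+P+Ux-1) ≤ n2+P+Ux` (only `xs` can be below), and `U⁺ ≥ Ux-j`, so `z > n2+P+Ux`.
* Case `h < r`: `y = wz` is larger than all odd labels, also after `sk z`; even labels `≤ m =
  w+N0+nT+h < w+N0+nT+r`, so `V_C`. `V_up`: `sk z wz ≤ w`, `Q+1 ≤ h`.
* Case `r ≤ h`: `V` is the sum of the virtual good even label `E = w+N0+nT+r` and `sk z y`. For a good odd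
  edge of rank `ρ`: `pl < y` iff `ρ ≤ P+c`, otherwise `pl > y` (for the three layouts: `y = n2+Ux+P+c+1`,
  `U = Ux-j`; `y = y0+1`, `xs = nT+h+n2+j-y0 ≤ y0`, `U = Ux-1-j`; `y = y0`, `xs > y0+1`, `U = Ux-1-j`;
  where `y0 = n2+Ux+P+c`). Unloaded good vertex `i`: `rk (ee i) < r`: `cutG_lt`, both labels are
  smaller; `rk (ee i) > r`: `cutG_gt`, both larger; `rk (ee i) = r`: even labels equal, odd label `≠ y`.
  Unloaded bad vertices: odd label `< y` and even label `≤ w+N0+Q < E`. `sk z` is strictly monotone.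
* `V_L`: second alternative: `r ≥ Q+2`, `Xl U < y`. `F3` (`xsf = false`, `sp = 3`): if `h < r`: `y ≥ wz` is
  large enough; otherwise `y + P ≥ nT+h` and `X 1 ≥ n2+j+P+1`. `Fx`: `M.Fx`: use the exact value
  `Λ.y + Λ.xs = nT+h+n2+j+1`, each of the two grows by at most one.
* `D`: `dab_ins`, `M.dab`, `bad_lt`. `FZed`: `fzed_ins`, `M.U_eq`.
`M = mod_all S n j hA`, `L = low_all S n j hA`; see `Mod4.lean` for the same arguments without `z`.
-/

namespace Pool.Agent.Lob5

variable {k : ℕ} {ld al : ℕ → Prop}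

private theorem oe_HoleG4 {i k : ℕ} (h1 : 1 ≤ i) (h2 : i < k) : 1 ≤ oe i ∧ oe i ≤ k := by
  unfold oe
  split_ifs <;> omega

private theorem ee_HoleG4 {i k : ℕ} (h1 : 1 ≤ i) (h2 : i < k) : 1 ≤ ee i ∧ ee i ≤ k := by
  unfold ee
  split_ifs <;> omega

private theorem ob_HoleG4 (S : Seam k ld al) {i : ℕ} (h1 : 1 ≤ i) (h2 : i < k)
    (hb : S.bad (oe i)) : 1 ≤ S.rk (oe i) ∧ S.rk (oe i) ≤ S.P :=
  S.rk_ob _ (oe_HoleG4 h1 h2).1 (oe_HoleG4 h1 h2).2 oe_odd hb

private theorem og_HoleG4 (S : Seam k ld al) {i : ℕ} (h1 : 1 ≤ i) (h2 : i < k)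
    (hb : ¬ S.bad (oe i)) : S.P + 1 ≤ S.rk (oe i) ∧ S.rk (oe i) ≤ S.h + 1 :=
  S.rk_og _ (oe_HoleG4 h1 h2).1 (oe_HoleG4 h1 h2).2 oe_odd hb

private theorem eb_HoleG4 (S : Seam k ld al) {i : ℕ} (h1 : 1 ≤ i) (h2 : i < k)
    (hb : S.bad (ee i)) : 1 ≤ S.rk (ee i) ∧ S.rk (ee i) ≤ S.Q :=
  S.rk_eb _ (ee_HoleG4 h1 h2).1 (ee_HoleG4 h1 h2).2 ee_even hb

private theorem eg_HoleG4 (S : Seam k ld al) {i : ℕ} (h1 : 1 ≤ i) (h2 : i < k)
    (hb : ¬ S.bad (ee i)) : S.Q + 1 ≤ S.rk (ee i) ∧ S.rk (ee i) ≤ S.h :=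
  S.rk_eg _ (ee_HoleG4 h1 h2).1 (ee_HoleG4 h1 h2).2 ee_even hb

/-- the base of `q` -/
private theorem bsq_HoleG4 (S : Seam k ld al) (n : Num) (Λ : Lay) (hm : S.mode = 4)
    (hk2 : Λ.k2 = false) (b0 : ∀ i, i ≤ n.n2 + Λ.j + S.P → lam Λ.y1 Λ.y2 i = i) :
    bs S n Λ S.q = wz S n + n.N0 + n.nT + (n.n2 + Λ.j + 1) + (S.Q + 1) ∧ S.Q + 1 ≤ S.h ∧
      1 ≤ S.q ∧ S.q < k ∧ S.bad (oe S.q) := by
  obtain ⟨hal, hbad, hodd, hr1, hr2⟩ := S.m4 hm
  have hld := S.al_ld _ hal
  have h1 := S.ld_pos _ hld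
  have h2 := S.ld_lt _ hld
  have e1 : oe S.q = S.q := by unfold oe; rw [if_pos hodd]
  have e2 : ee S.q = S.q + 1 := by unfold ee; rw [if_pos hodd]
  have ho : S.bad (oe S.q) := by rw [e1]; exact hbad
  have he : ¬ S.bad (ee S.q) := (S.diff' hld).1 ho
  have h3 := eg_HoleG4 S h1 h2 he
  rw [bs_bg S n Λ hk2 h1 h2 ho he, e1, e2, hr1, hr2, b0 _ (by have := S.P1; omega)]
  rw [e2, hr2] at h3
  exact ⟨rfl, h3.2, h1, h2, by rw [e1] at ho; exact ho⟩

/-- everything which does not depend on the case -/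
private theorem aux_HoleG4 (S : Seam k ld al) (n : Num) (Λ : Lay) (z : ℕ) (hm : S.mode = 4)
    (hk2 : Λ.k2 = false) (hlg : Λ.lg = false) (M : ModOK S n Λ) (hs : 1 ≤ n.sp)
    (h1 : n.n2 + Λ.j < Λ.y1) (h12 : Λ.y1 < Λ.y2)
    (hw : wz S n = n.n2 + Λ.j + Λ.U + S.h + 1 + (if Λ.y1 ≤ wz S n then 1 else 0)
      + (if Λ.y2 ≤ wz S n then 1 else 0))
    (hU : n.nT ≤ Λ.U) (hz : lam Λ.y1 Λ.y2 (n.n2 + Λ.j + S.P + Λ.U) < z)
    (hzw : z ≤ wz S n + 1)
    (b0 : ∀ i, i ≤ n.n2 + Λ.j + S.P → lam Λ.y1 Λ.y2 i = i)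
    (hy1 : n.n2 + Λ.j + S.P < Λ.y)
    (hX : 1 ≤ Λ.U → lam Λ.y1 Λ.y2 (n.n2 + Λ.j + S.P + Λ.U) ≤ Λ.y)
    (hC : ∀ i, 1 ≤ i → i < k → ¬ ld i → ¬ S.bad i →
      (S.rk (ee i) < n.n2 + Λ.j + S.Q + 2 ∧
        lam Λ.y1 Λ.y2 (n.n2 + Λ.j + Λ.U + S.rk (oe i)) < Λ.y) ∨
      (n.n2 + Λ.j + S.Q + 2 < S.rk (ee i) ∧
        Λ.y < lam Λ.y1 Λ.y2 (n.n2 + Λ.j + Λ.U + S.rk (oe i))) ∨
      (S.rk (ee i) = n.n2 + Λ.j + S.Q + 2 ∧
        lam Λ.y1 Λ.y2 (n.n2 + Λ.j + Λ.U + S.rk (oe i)) ≠ Λ.y))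
    (hFx : Λ.xsf = true → Λ.y + Λ.xs = n.nT + S.h + n.n2 + Λ.j + 1) :
    FLow S n (insG S n Λ z) ∧ FMod S n (insG S n Λ z) ∧ FZed S n (insG S n Λ z) := by
  have L := lowOK_gen S n Λ hk2 h1 h12 hw hU
  have hF := flow_ins S n Λ z hk2 h1 h12 hw hU hz hzw
  have hbl : ∀ i, 1 ≤ i → i < k → S.bad (oe i) → pl S n Λ (oe i) < z :=
    fun i h3 h4 h5 => (bad_lt S n Λ hk2 hz h3 h4 h5).1
  have hD := dab_ins S n Λ z M.dab
    (fun a ha _ hb => hbl a (S.ld_pos a (S.al_ld a ha)) (S.ld_lt a (S.al_ld a ha)) hb)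
  obtain ⟨hq, hQh, hq1, hq2, hqb⟩ := bsq_HoleG4 S n Λ hm hk2 b0
  have hsp : n.sp ≠ 0 := by omega
  have hwu := wz_up S n
  have hmu := mz_up S n
  have hmz : mz S n = wz S n + n.N0 + n.nT + S.h := rfl
  have hV : (insG S n Λ z).bs S.q + (insG S n Λ z).y =
      wz S n + n.N0 + n.nT + (n.n2 + Λ.j + S.Q + 2) + 1 + sk z Λ.y := by
    have h3 := hbl _ hq1 hq2 hqb
    rw [bs_ins, if_neg (by omega), hq]
    change _ + sk z Λ.y = _
    omega
  have hyk := M.y_ok hsp hlg
  have hs1 := le_sk z Λ.y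
  have hs2 := sk_le z Λ.y
  have hpo : ∀ e, e % 2 = 1 → (insG S n Λ z).p e = sk z (pl S n Λ e) := fun e he => by
    change (if e % 2 = 1 then sk z (pl S n Λ e) else pl S n Λ e + 1) = _
    rw [if_pos he]
  have hlp : n.n2 + Λ.j + S.P < z := by
    have h3 := le_lam Λ.y1 Λ.y2 (n.n2 + Λ.j + S.P + Λ.U)
    omega
  refine ⟨hF, ?_, fzed_ins S n Λ z M.U_eq hlp hzw⟩
  refine ⟨?_, ?_, ?_, ?_, ?_, ?_, ?_, ?_, ?_, hD.1, hD.2.1, hD.2.2⟩
  · intro _ _
    refine ⟨?_, ?_, ?_, ?_⟩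
    · change n.n2 + Λ.j < sk z Λ.y
      omega
    · change sk z Λ.y ≤ wz S n.up
      omega
    · intro i hi _ he
      have h3 : Xl S n Λ i = Λ.y := sk_inj he
      have h4 := L.X_y i hi
      rcases hyk.2.2 with h5 | h5
      · exact h4.1 (h3.trans h5)
      · exact h4.2 (h3.trans h5)
    · intro e he1 he2 he3 he
      rw [hpo e he3] at he
      have h3 : pl S n Λ e = Λ.y := sk_inj he
      have h4 := (L.p_odd e he1 he2 he3).2.2
      rcases hyk.2.2 with h5 | h5
      · exact h4.1 (h3.trans h5)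
      · exact h4.2 (h3.trans h5)
  · intro hx
    obtain ⟨x1, x2, x3, x4, x5⟩ := M.xs_ok hx
    have hs3 := le_sk z Λ.xs
    have hs4 := sk_le z Λ.xs
    refine ⟨x1, ?_, ?_, ?_, ?_, ?_⟩
    · change n.n2 + Λ.j < sk z Λ.xs
      omega
    · change sk z Λ.xs ≤ wz S n.up
      omega
    · intro he
      exact x4 (sk_inj he)
    · intro i hi _ he
      have h3 : Xl S n Λ i = Λ.xs := sk_inj he
      have h4 := L.X_y i hi
      rcases x5 with h5 | h5
      · exact h4.1 (h3.trans h5)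
      · exact h4.2 (h3.trans h5)
    · intro e he1 he2 he3 he
      rw [hpo e he3] at he
      have h3 : pl S n Λ e = Λ.xs := sk_inj he
      have h4 := (L.p_odd e he1 he2 he3).2.2
      rcases x5 with h5 | h5
      · exact h4.1 (h3.trans h5)
      · exact h4.2 (h3.trans h5)
  · intro h
    have h3 : Λ.lg = true := h
    rw [hlg] at h3
    exact absurd h3 (by decide)
  · intro _ _
    rw [hV]
    omega
  · intro _ _
    rw [hV]
    change _ ≤ wz S n.up + mz S n.up + n.n2 + Λ.j + 1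
    omega
  · intro _ _ i hi1 hi2 hi3
    rw [hV, bs_ins]
    obtain ⟨ho, hbi⟩ := S.same' hi1 hi2 hi3
    by_cases hb : S.bad (oe i)
    · have h3 := ob_HoleG4 S hi1 hi2 hb
      have h4 := eb_HoleG4 S hi1 hi2 (ho.1 hb)
      have h5 := hbl i hi1 hi2 hb
      rw [if_neg (by omega), bs_bb S n Λ hk2 hi1 hi2 hb (ho.1 hb), b0 _ (by omega)]
      omega
    · have h3 : ¬ S.bad (ee i) := fun h => hb (ho.2 h)
      have h4 : ¬ S.bad i := fun h => hb (hbi.2 h)
      have h5 := hC i hi1 hi2 hi3 h4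
      have h6 : pl S n Λ (oe i) = lam Λ.y1 Λ.y2 (n.n2 + Λ.j + Λ.U + S.rk (oe i)) := by
        have h7 := og_HoleG4 S hi1 hi2 hb
        unfold pl lop
        rw [if_pos oe_odd, hk2]
        simp only [Bool.false_eq_true, if_false]
        rw [if_neg (by omega)]
      have h7 : sk z (pl S n Λ (oe i)) =
          pl S n Λ (oe i) + (if z ≤ pl S n Λ (oe i) then 1 else 0) := by
        unfold sk
        split_ifs <;> rfl
      rw [bs_gg S n Λ hk2 hi1 hi2 hb h3, ← h6]
      rw [← h6] at h5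
      intro h8
      rcases h5 with ⟨h9, h10⟩ | ⟨h9, h10⟩ | ⟨h9, h10⟩
      · have h11 := sk_lt (z := z) h10
        omega
      · have h11 := sk_lt (z := z) h10
        omega
      · have h11 : sk z (pl S n Λ (oe i)) ≠ sk z Λ.y := fun h => h10 (sk_inj h)
        omega
  · intro _ _ hU1
    right
    have h3 := hX hU1
    have h4 : Xl S n Λ Λ.U = lam Λ.y1 Λ.y2 (n.n2 + Λ.j + S.P + Λ.U) := by
      unfold Xl
      rw [hk2]
      rfl
    have h5 : (insG S n Λ z).X Λ.U = Xl S n Λ Λ.U := sk_of_lt (by rw [h4]; exact hz)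
    change wz S n.up + n.N0 + S.Q + n.nT + 1 + (insG S n Λ z).X Λ.U < _
    rw [hV, h5, h4]
    omega
  · intro h3 h4
    have h5 := M.F3 h3 h4
    have h6 := le_sk z (Xl S n Λ 1)
    change n.nT + S.h + n.n2 + Λ.j + 1 ≤ sk z Λ.y + sk z (Xl S n Λ 1)
    omega
  · intro hx
    have h3 := hFx hx
    have h4 := le_sk z Λ.xs
    have h5 := sk_le z Λ.xs
    change n.nT + S.h + n.n2 + Λ.j + 1 ≤ sk z Λ.y + sk z Λ.xs ∧
      sk z Λ.y + sk z Λ.xs ≤ n.nT + S.h + n.n2 + Λ.j + 3
    omega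

private theorem wz_HoleG4 (S : Seam k ld al) (n : Num) (h : 1 ≤ n.sp) :
    wz S n = n.n2 + n.Ux + S.h + 2 := by
  unfold wz
  rw [if_neg (by omega)]

/-- the lower bound for `z` -/
private theorem gt_HoleG4 (S : Seam k ld al) (n : Num) (j z : ℕ) (hA : Adm S n j)
    (hz : Xl S n.up (lay4 S n.up j) (lay4 S n.up j).U < z) :
    n.n2 + n.Ux + S.P < z ∧ ((S.h < n.n2 + j + S.Q + 2 ∨
      ¬ (n.sp = 3 ∧ n.n2 + n.Ux + S.P + S.cutG (n.n2 + j + S.Q + 2) + 1 + S.P <
        n.nT + S.h)) → n.n2 + n.Ux + S.P + 1 < z) := by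
  have hjU := hA.jU
  have hX : ∀ Λ : Lay, Λ.k2 = false →
      n.n2 + Λ.j + S.P + Λ.U ≤ Xl S n.up Λ Λ.U := by
    intro Λ hk2
    unfold Xl
    rw [hk2]
    exact le_lam _ _ _
  have e : ∀ c, (n.up.sp = 3 ∧ n.up.n2 + n.up.Ux + S.P + c + 1 + S.P < n.up.nT + S.h) ↔
      (n.sp = 3 ∧ n.n2 + (n.Ux + 1) + S.P + c + 1 + S.P < n.nT + S.h) := fun _ => Iff.rfl
  unfold lay4 at hz
  rw [show n.up.n2 = n.n2 from rfl] at hz
  split_ifs at hz with c1 c2 c3
  · have h1 := hX _ rfl |>.trans_lt hz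
    change n.n2 + j + S.P + (n.Ux + 1 - j) < z at h1
    have h2 : n.nT + j ≤ n.Ux := by split_ifs at hjU <;> omega
    omega
  · rw [show n.up.sp = n.sp from rfl, show n.up.Ux = n.Ux + 1 from rfl,
      show n.up.nT = n.nT from rfl] at c2
    have h1 := hX _ rfl |>.trans_lt hz
    change n.n2 + j + S.P + (n.Ux + 1 - 1 - j) < z at h1
    have h2 : n.nT + j ≤ n.Ux := by split_ifs at hjU <;> omega
    refine ⟨by omega, fun h => ?_⟩
    rcases h with h | h
    · exact absurd h c1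
    · exact absurd ⟨c2.1, by omega⟩ h
  · rw [show n.up.sp = n.sp from rfl, show n.up.Ux = n.Ux + 1 from rfl,
      show n.up.nT = n.nT from rfl] at c2
    have h1 := hX _ rfl |>.trans_lt hz
    change n.n2 + j + S.P + (n.Ux + 1 - 1 - j) < z at h1
    have h2 : n.nT + j ≤ n.Ux := by split_ifs at hjU <;> omega
    refine ⟨by omega, fun h => ?_⟩
    rcases h with h | h
    · exact absurd h c1
    · exact absurd ⟨c2.1, by omega⟩ h
  · have h1 := hX _ rfl |>.trans_lt hz
    change n.n2 + j + S.P + (n.Ux + 1 - j) < z at h1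
    have h2 : n.nT + j ≤ n.Ux := by split_ifs at hjU <;> omega
    omega

theorem hg_4 (S : Seam k ld al) (n : Num) (j z : ℕ) (hm : S.mode = 4) (hA : Adm S n j)
    (hz : ZG S n j z) : FLow S n (funG S n j z) ∧ FMod S n (funG S n j z) ∧
      FZed S n (funG S n j z) := by
  have hsp := (hA.sp14 (by omega) (by omega)).1
  have hs : n.sp ≠ 0 := by omega
  have hs' : n.up.sp ≠ 0 := hs
  have hw := wz_HoleG4 S n hsp
  have hjU := hA.jU
  have hP1 := S.P1
  have hPh := S.Ph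
  have hc := S.cutG_le (n.n2 + j + S.Q + 2)
  have M := mod_4 S n j hm hA
  have e1 : layOf S n j = lay4 S n j := by simp [layOf, hs, hm]
  have e2 : layOf S n.up j = lay4 S n.up j := by simp [layOf, hs', hm]
  have htop : ¬ topY S n := by
    rintro ⟨-, h | h⟩
    · omega
    · omega
  have hpre : preG S n j z = lay4 S n j := by
    unfold preG
    rw [if_neg (fun h => htop h.1), e1]
  have hgt := hz.gt
  rw [e2] at hgt
  obtain ⟨g1, g2⟩ := gt_HoleG4 S n j z hA hgt
  have hle := hz.le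
  rw [wz_up] at hle
  unfold funG
  rw [hpre]
  by_cases c1 : S.h < n.n2 + j + S.Q + 2
  · have g3 := g2 (Or.inl c1)
    have hjU' : n.nT + j ≤ n.Ux := by split_ifs at hjU <;> omega
    have e3 : lay4 S n j = layS S n j (wz S n) := by
      unfold lay4
      rw [if_pos c1]
    rw [e3] at M ⊢
    refine aux_HoleG4 S n _ z hm rfl rfl M hsp ?_ ?_ ?_ ?_ ?_ hle ?_ ?_ ?_ ?_ ?_ <;>
      dsimp only [layS]
    · omega
    · omega
    · rw [if_pos le_rfl, if_neg (by omega)]
      omega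
    · omega
    · unfold lam
      rw [if_neg (by omega), if_neg (by omega)]
      omega
    · intro i hi
      unfold lam
      rw [if_neg (by omega), if_neg (by omega), add_zero, add_zero]
    · omega
    · intro h
      unfold lam
      rw [if_neg (by omega), if_neg (by omega)]
      omega
    · intro i h1 h2 hld hb
      have hs := S.same' h1 h2 hld
      have h3 := og_HoleG4 S h1 h2 fun h => hb (hs.2.1 h)
      have h4 := eg_HoleG4 S h1 h2 fun h => hb (hs.2.1 (hs.1.2 h))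
      left
      refine ⟨by omega, ?_⟩
      unfold lam
      rw [if_neg (by omega), if_neg (by omega)]
      omega
    · intro h
      exact absurd h (by decide)
  by_cases c2 : n.sp = 3 ∧ n.n2 + n.Ux + S.P + S.cutG (n.n2 + j + S.Q + 2) + 1 + S.P <
      n.nT + S.h
  · rw [if_pos (by omega)] at hjU
    by_cases c3 : n.nT + S.h + n.n2 + j ≤
        2 * (n.n2 + n.Ux + S.P + S.cutG (n.n2 + j + S.Q + 2))
    · have e3 : lay4 S n j = layD n j (n.n2 + n.Ux + S.P + S.cutG (n.n2 + j + S.Q + 2) + 1)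
          (n.nT + S.h + n.n2 + j - (n.n2 + n.Ux + S.P + S.cutG (n.n2 + j + S.Q + 2))) := by
        unfold lay4
        rw [if_neg c1, if_pos c2, if_pos c3]
      rw [e3] at M ⊢
      set c := S.cutG (n.n2 + j + S.Q + 2) with hcdef
      have hmin : min (n.n2 + n.Ux + S.P + c + 1)
          (n.nT + S.h + n.n2 + j - (n.n2 + n.Ux + S.P + c)) =
          n.nT + S.h + n.n2 + j - (n.n2 + n.Ux + S.P + c) := by omega
      have hmax : max (n.n2 + n.Ux + S.P + c + 1)
          (n.nT + S.h + n.n2 + j - (n.n2 + n.Ux + S.P + c)) =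
          n.n2 + n.Ux + S.P + c + 1 := by omega
      unfold layD at M ⊢
      rw [hmin, hmax] at M ⊢
      refine aux_HoleG4 S n _ z hm rfl rfl M hsp ?_ ?_ ?_ ?_ ?_ hle ?_ ?_ ?_ ?_ ?_ <;>
        dsimp only
      · omega
      · omega
      · rw [if_pos (by omega), if_pos (by omega)]
        omega
      · omega
      · unfold lam
        split_ifs <;> omega
      · intro i hi
        unfold lam
        rw [if_neg (by omega), if_neg (by omega), add_zero, add_zero]
      · omega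
      · intro h
        unfold lam
        split_ifs <;> omega
      · intro i h1 h2 hld hb
        have hs := S.same' h1 h2 hld
        have h3 := og_HoleG4 S h1 h2 fun h => hb (hs.2.1 h)
        have h4 := eg_HoleG4 S h1 h2 fun h => hb (hs.2.1 (hs.1.2 h))
        rcases lt_trichotomy (S.rk (ee i)) (n.n2 + j + S.Q + 2) with h5 | h5 | h5
        · have h6 := S.cutG_lt (n.n2 + j + S.Q + 2) (by omega) (by omega) i h1 h2 hld hb h5
          rw [← hcdef] at h6
          left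
          refine ⟨h5, ?_⟩
          unfold lam
          split_ifs <;> omega
        · right
          right
          exact ⟨h5, (lam_ne (y1 := n.nT + S.h + n.n2 + j - (n.n2 + n.Ux + S.P + c))
            (y2 := n.n2 + n.Ux + S.P + c + 1) (by omega)
            (n.n2 + j + (n.Ux - 1 - j) + S.rk (oe i))).2⟩
        · have h6 := S.cutG_gt (n.n2 + j + S.Q + 2) (by omega) (by omega) i h1 h2 hld hb h5
          rw [← hcdef] at h6
          right
          left
          refine ⟨h5, ?_⟩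
          unfold lam
          split_ifs <;> omega
      · intro _
        omega
    · have e3 : lay4 S n j = layD n j (n.n2 + n.Ux + S.P + S.cutG (n.n2 + j + S.Q + 2))
          (n.nT + S.h + n.n2 + j + 1 - (n.n2 + n.Ux + S.P + S.cutG (n.n2 + j + S.Q + 2))) := by
        unfold lay4
        rw [if_neg c1, if_pos c2, if_neg c3]
      rw [e3] at M ⊢
      set c := S.cutG (n.n2 + j + S.Q + 2) with hcdef
      have hmin : min (n.n2 + n.Ux + S.P + c)
          (n.nT + S.h + n.n2 + j + 1 - (n.n2 + n.Ux + S.P + c)) = n.n2 + n.Ux + S.P + c := by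
        omega
      have hmax : max (n.n2 + n.Ux + S.P + c)
          (n.nT + S.h + n.n2 + j + 1 - (n.n2 + n.Ux + S.P + c)) =
          n.nT + S.h + n.n2 + j + 1 - (n.n2 + n.Ux + S.P + c) := by omega
      unfold layD at M ⊢
      rw [hmin, hmax] at M ⊢
      refine aux_HoleG4 S n _ z hm rfl rfl M hsp ?_ ?_ ?_ ?_ ?_ hle ?_ ?_ ?_ ?_ ?_ <;>
        dsimp only
      · omega
      · omega
      · rw [if_pos (by omega), if_pos (by omega)]
        omega
      · omega
      · unfold lam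
        split_ifs <;> omega
      · intro i hi
        unfold lam
        rw [if_neg (by omega), if_neg (by omega), add_zero, add_zero]
      · omega
      · intro h
        unfold lam
        split_ifs <;> omega
      · intro i h1 h2 hld hb
        have hs := S.same' h1 h2 hld
        have h3 := og_HoleG4 S h1 h2 fun h => hb (hs.2.1 h)
        have h4 := eg_HoleG4 S h1 h2 fun h => hb (hs.2.1 (hs.1.2 h))
        rcases lt_trichotomy (S.rk (ee i)) (n.n2 + j + S.Q + 2) with h5 | h5 | h5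
        · have h6 := S.cutG_lt (n.n2 + j + S.Q + 2) (by omega) (by omega) i h1 h2 hld hb h5
          rw [← hcdef] at h6
          left
          refine ⟨h5, ?_⟩
          unfold lam
          split_ifs <;> omega
        · right
          right
          exact ⟨h5, (lam_ne (y1 := n.n2 + n.Ux + S.P + c)
            (y2 := n.nT + S.h + n.n2 + j + 1 - (n.n2 + n.Ux + S.P + c)) (by omega)
            (n.n2 + j + (n.Ux - 1 - j) + S.rk (oe i))).1⟩
        · have h6 := S.cutG_gt (n.n2 + j + S.Q + 2) (by omega) (by omega) i h1 h2 hld hb h5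
          rw [← hcdef] at h6
          right
          left
          refine ⟨h5, ?_⟩
          unfold lam
          split_ifs <;> omega
      · intro _
        omega
  · have g3 := g2 (Or.inr c2)
    have hjU' : n.nT + j ≤ n.Ux := by split_ifs at hjU <;> omega
    have e3 : lay4 S n j =
        layS S n j (n.n2 + n.Ux + S.P + S.cutG (n.n2 + j + S.Q + 2) + 1) := by
      unfold lay4
      rw [if_neg c1, if_neg c2]
    rw [e3] at M ⊢
    set c := S.cutG (n.n2 + j + S.Q + 2) with hcdef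
    refine aux_HoleG4 S n _ z hm rfl rfl M hsp ?_ ?_ ?_ ?_ ?_ hle ?_ ?_ ?_ ?_ ?_ <;>
      dsimp only [layS]
    · omega
    · omega
    · rw [if_pos (by omega), if_neg (by omega)]
      omega
    · omega
    · unfold lam
      rw [if_neg (by omega), if_neg (by omega)]
      omega
    · intro i hi
      unfold lam
      rw [if_neg (by omega), if_neg (by omega), add_zero, add_zero]
    · omega
    · intro h
      unfold lam
      split_ifs <;> omega
    · intro i h1 h2 hld hb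
      have hs := S.same' h1 h2 hld
      have h3 := og_HoleG4 S h1 h2 fun h => hb (hs.2.1 h)
      have h4 := eg_HoleG4 S h1 h2 fun h => hb (hs.2.1 (hs.1.2 h))
      rcases lt_trichotomy (S.rk (ee i)) (n.n2 + j + S.Q + 2) with h5 | h5 | h5
      · have h6 := S.cutG_lt (n.n2 + j + S.Q + 2) (by omega) (by omega) i h1 h2 hld hb h5
        rw [← hcdef] at h6
        left
        refine ⟨h5, ?_⟩
        unfold lam
        split_ifs <;> omega
      · right
        right
        exact ⟨h5, (lam_ne (y1 := n.n2 + n.Ux + S.P + c + 1) (y2 := wz S n + 2) (by omega)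
          (n.n2 + j + (n.Ux - j) + S.rk (oe i))).1⟩
      · have h6 := S.cutG_gt (n.n2 + j + S.Q + 2) (by omega) (by omega) i h1 h2 hld hb h5
        rw [← hcdef] at h6
        right
        left
        refine ⟨h5, ?_⟩
        unfold lam
        split_ifs <;> omega
    · intro h
      exact absurd h (by decide)

end Pool.Agent.Lob5
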