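import Pool.Agent.Lob5.HoleIns

/-!
# Reserved label above the labels `X`: mode 5

`layOf = lay5`, `v = n2+Ux+P+2`. `q` is even and bad, `rk q = 1`: final label `w+N0+1`; `q+1` is odd and
good, `rk (q+1) = P+1`, so `P ≤ h`. `V = w+N0+1 + sk z (pl (q+1)) + (final y)`. For `n.up` one has `v+1`.
In all cases `U⁺ ≥ Ux+1-j`, so `hz.gt` gives `z > n2+P+Ux+1 = v-1`.
* (i) `v+1 ≤ Q`: `y = n2+j+cutB (v+1)+1 ≤ n2+j+P+1`, `U = Ux-j`, `pl (q+1) = lam (n2+Ux+P+1) = v`. For
  `n.up`: either again case (i), `Xl⁺ U⁺ = lam (n2+P+Ux+1) = v`, or `v+1 = Q` and `layLg`, `U⁺ = Ux+2-j`,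
  `Xl⁺ U⁺ = n2+P+Ux+2 = v`. So `z > v`. `V = (w+N0+v+1) + y`: virtual bad even edge of rank `v+1 ≤ Q`; a bad
  odd edge of rank `ρ` has its label `< y` iff `ρ ≤ cutB (v+1)`: `cutB_lt, cutB_gt`; good unloaded vertices
  have larger labels. `V_L`: first alternative (`y ≤ n2+j+P+1 < X 1`).
* (ii) `Q ≤ v ≤ Q+nT`: `layLg`, `U = Ux-j+1`, `pl (q+1) = v`. If `n.up` is `layLg` then
  `Xl⁺ U⁺ = n2+P+Ux+2 = v < z`; otherwise `z > v-1` and `z ≠ v` (`hz.nl`). So `z > v` and
  `bs q = w+N0+1+v`: `lg_ok`.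
* (iii) `Q+nT < v ≤ nT+h`: `c = cutG (v-nT) ≥ 1` (`cutG_one`), `y0 = n2+Ux+P+c+1`,
  `pl (q+1) = n2+Ux+P+1 = v-1 < z`. `V = (w+N0+nT+(v-nT)) + sk z y0`: virtual good even edge of rank `v-nT`, as
  in the mode 4 (`cutG_lt, cutG_gt`). `V_L`: second alternative.
* (iv) `nT+h < v`: `topY` holds. `t = min (v-nT-h) (n2+j+1)`, `nom = wz+t-(v-nT-h)`, `y0 = nom` if `v ≤ nom`,
  otherwise `nom-1`. `preG = layS S n j y'`, `y' = y0+1` if `y0+1 < z`, else `y' = y0 ≥ z` (`hz.ny`);
  the final label is `y0+1`. If `v ≤ nom`: `pl (q+1) = v-1 < z`. Otherwise `y' ≤ nom ≤ v-1`, `pl (q+1) = v`,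
  and `z > v`: here `v-nT-h ≥ n2+j+1` (otherwise `nom = wz ≥ v` by `P ≤ h`), so `nom` is the same for `n.up`,
  `y⁺ = nom-1 ≤ v-2` and `Xl⁺ U⁺ = lam (v-1) = v`. In both cases `V = w+m+t`, `1 ≤ t ≤ n2+j+1`: `V_up`, `V_C`
  by `C_up`, `V_L`: second alternative.
* `flow_ins`: (i), (iii), (iv): `lam (n2+j+P+U) = lam (n2+P+Ux) ≤ n2+P+Ux+1 < z`; (ii): `n2+P+Ux+1 < z`.
* `D`: `dab_ins` with `(mod_all ..).dab` or `dab_layS`. `FZed`: `fzed_ins`.
See `Mod5.lean` for the same arguments without `z`.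
-/

namespace Pool.Agent.Lob5

variable {k : ℕ} {ld al : ℕ → Prop}

private lemma oe_range5 {i k : ℕ} (h1 : 1 ≤ i) (h2 : i < k) : 1 ≤ oe i ∧ oe i ≤ k := by
  unfold oe; split_ifs <;> omega

private lemma ee_range5 {i k : ℕ} (h1 : 1 ≤ i) (h2 : i < k) : 1 ≤ ee i ∧ ee i ≤ k := by
  unfold ee; split_ifs <;> omega

/-- the facts about `q` in mode 5 -/
private lemma q5 (S : Seam k ld al) (hm : S.mode = 5) :
    1 ≤ S.q ∧ S.q < k ∧ oe S.q = S.q + 1 ∧ ee S.q = S.q ∧ S.bad (ee S.q) ∧ ¬ S.bad (oe S.q) ∧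
      S.rk (ee S.q) = 1 ∧ S.rk (oe S.q) = S.P + 1 ∧ S.P ≤ S.h ∧ 1 ≤ S.Q := by
  obtain ⟨h1, h2, h3, h4, h5⟩ := S.m5 hm
  have hld := S.al_ld _ h1
  have hp := S.ld_pos _ hld
  have hk := S.ld_lt _ hld
  have hoe : oe S.q = S.q + 1 := by unfold oe; rw [if_neg (by omega)]
  have hee : ee S.q = S.q := by unfold ee; rw [if_neg (by omega)]
  have hg : ¬ S.bad (S.q + 1) := (S.diff _ hld).1 h2
  have hr := S.rk_og (S.q + 1) (by omega) (by omega) (by omega) hg
  have hr2 := S.rk_eb S.q (by omega) (by omega) h3 h2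
  refine ⟨hp, hk, hoe, hee, ?_, ?_, ?_, ?_, ?_, ?_⟩
  · rw [hee]; exact h2
  · rw [hoe]; exact hg
  · rw [hee]; exact h4
  · rw [hoe]; exact h5
  · omega
  · omega

private lemma wz5 (S : Seam k ld al) (n : Num) (hs : n.sp = 1) :
    wz S n = n.n2 + n.Ux + S.h + 2 := by
  unfold wz; rw [hs]; simp

private lemma lam_two (y W i : ℕ) (h : i ≤ W) :
    lam y (W + 2) i = if y ≤ i then i + 1 else i := by
  unfold lam; split_ifs <;> omega

/-- the base of `q` for `layS` -/
private lemma layS_bsq (S : Seam k ld al) (n : Num) (j y : ℕ) (hm : S.mode = 5) (hs : n.sp = 1)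
    (hA : Adm S n j) :
    bs S n (layS S n j y) S.q = wz S n + n.N0 +
      (if y ≤ n.n2 + n.Ux + S.P + 1 then n.n2 + n.Ux + S.P + 2 else n.n2 + n.Ux + S.P + 1)
      + 1 := by
  obtain ⟨q1, q2, q3, q4, q5, q6, q7, q8, q9, q10⟩ := q5 S hm
  have hjU := hA.jU
  have hw := wz5 S n hs
  rw [if_neg (by omega)] at hjU
  rw [bs_gb S n (layS S n j y) rfl q1 q2 q6 q5, q7, q8]
  have e1 : n.n2 + (layS S n j y).j + (layS S n j y).U + (S.P + 1) = n.n2 + n.Ux + S.P + 1 := by
    change n.n2 + j + (n.Ux - j) + (S.P + 1) = n.n2 + n.Ux + S.P + 1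
    omega
  rw [e1]
  change wz S n + n.N0 + lam y (wz S n + 2) (n.n2 + n.Ux + S.P + 1) + 1 = _
  rw [lam_two _ _ _ (by omega)]

private lemma layS_X1 (S : Seam k ld al) (n : Num) (j y : ℕ) :
    n.n2 + j + S.P + 1 ≤ Xl S n (layS S n j y) 1 := by
  unfold Xl
  exact le_lam _ _ _

private lemma layS_XU (S : Seam k ld al) (n : Num) (j y : ℕ) (hs : n.sp = 1)
    (hA : Adm S n j) (hP : S.P ≤ S.h) :
    Xl S n (layS S n j y) (layS S n j y).U =
      (if y ≤ n.n2 + n.Ux + S.P then n.n2 + n.Ux + S.P + 1 else n.n2 + n.Ux + S.P) := by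
  have hjU := hA.jU
  have hw := wz5 S n hs
  rw [if_neg (by omega)] at hjU
  unfold Xl
  have e1 : n.n2 + (layS S n j y).j + S.P + (layS S n j y).U -
      (if (layS S n j y).k2 = true then 1 else 0) = n.n2 + n.Ux + S.P := by
    change n.n2 + j + S.P + (n.Ux - j) - 0 = n.n2 + n.Ux + S.P
    omega
  rw [e1]
  change lam y (wz S n + 2) (n.n2 + n.Ux + S.P) = _
  rw [lam_two _ _ _ (by omega)]

private lemma layS_low (S : Seam k ld al) (n : Num) (j y : ℕ) (hs : n.sp = 1)
    (hA : Adm S n j) (h1 : n.n2 + j < y) (h2 : y ≤ wz S n) : LowOK S n (layS S n j y) := by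
  have hjU := hA.jU
  have hw := wz5 S n hs
  rw [if_neg (by omega)] at hjU
  apply lowOK_gen
  · rfl
  · exact h1
  · change y < wz S n + 2
    omega
  · change wz S n = n.n2 + j + (n.Ux - j) + S.h + 1 + (if y ≤ wz S n then 1 else 0)
      + (if wz S n + 2 ≤ wz S n then 1 else 0)
    rw [if_pos h2, if_neg (by omega)]
    omega
  · change n.nT ≤ n.Ux - j
    omega

private lemma layLg_low (S : Seam k ld al) (n : Num) (j : ℕ) (hs : n.sp = 1)
    (hA : Adm S n j) : LowOK S n (layLg S n j) := by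
  have hjU := hA.jU
  have hw := wz5 S n hs
  rw [if_neg (by omega)] at hjU
  apply lowOK_gen
  · rfl
  · change n.n2 + j < wz S n + 1
    omega
  · change wz S n + 1 < wz S n + 2
    omega
  · change wz S n = n.n2 + j + (n.Ux - j + 1) + S.h + 1 + (if wz S n + 1 ≤ wz S n then 1 else 0)
      + (if wz S n + 2 ≤ wz S n then 1 else 0)
    rw [if_neg (by omega), if_neg (by omega)]
    omega
  · change n.nT ≤ n.Ux - j + 1
    omega

private lemma up_n2 (n : Num) : n.up.n2 = n.n2 := rfl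

private lemma up_nT (n : Num) : n.up.nT = n.nT := rfl

private lemma up_N0 (n : Num) : n.up.N0 = n.N0 := rfl

private lemma up_Ux (n : Num) : n.up.Ux = n.Ux + 1 := rfl

private lemma up_sp (n : Num) : n.up.sp = n.sp := rfl

/-- the label in the last case -/
private lemma y4 (W d j' h P n2 Ux nT : ℕ) (hW : W = n2 + Ux + h + 2)
    (hv : nT + h + d = n2 + Ux + P + 2) (hP : P ≤ h) (hh : 1 ≤ h) (hd1 : 1 ≤ d) :
    ∃ t, 1 ≤ t ∧ t ≤ j' + 1 ∧
      ((nT + h + d ≤ (if nT + h + d ≤ W + min d (j' + 1) - d then W + min d (j' + 1) - d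
          else W + min d (j' + 1) - d - 1) ∧
        (if nT + h + d ≤ W + min d (j' + 1) - d then W + min d (j' + 1) - d
          else W + min d (j' + 1) - d - 1) ≤ W ∧
        d + (if nT + h + d ≤ W + min d (j' + 1) - d then W + min d (j' + 1) - d
          else W + min d (j' + 1) - d - 1) = W + t) ∨
      ((if nT + h + d ≤ W + min d (j' + 1) - d then W + min d (j' + 1) - d
          else W + min d (j' + 1) - d - 1) + 2 ≤ nT + h + d ∧
        j' < (if nT + h + d ≤ W + min d (j' + 1) - d then W + min d (j' + 1) - d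
          else W + min d (j' + 1) - d - 1) ∧
        d + (if nT + h + d ≤ W + min d (j' + 1) - d then W + min d (j' + 1) - d
          else W + min d (j' + 1) - d - 1) + 1 = W + t ∧ t = j' + 1)) := by
  rcases le_total d (j' + 1) with hd | hd
  · rw [min_eq_left hd]
    refine ⟨d, hd1, hd, ?_⟩
    left
    rw [if_pos (by omega)]
    omega
  · rw [min_eq_right hd]
    refine ⟨j' + 1, by omega, le_rfl, ?_⟩
    by_cases hc : nT + h + d ≤ W + (j' + 1) - d
    · left
      rw [if_pos hc]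
      omega
    · right
      rw [if_neg hc]
      omega

private lemma lay5_cases (S : Seam k ld al) (n : Num) (j : ℕ) (hm : S.mode = 5) (hs : n.sp = 1) :
    (n.n2 + n.Ux + S.P + 3 ≤ S.Q ∧
      lay5 S n j = layS S n j (n.n2 + j + S.cutB (n.n2 + n.Ux + S.P + 3) + 1)) ∨
    (S.Q ≤ n.n2 + n.Ux + S.P + 2 ∧ n.n2 + n.Ux + S.P + 2 ≤ S.Q + n.nT ∧
      lay5 S n j = layLg S n j) ∨
    (∃ r, n.nT + r = n.n2 + n.Ux + S.P + 2 ∧ S.Q + 1 ≤ r ∧ r ≤ S.h ∧
      lay5 S n j = layS S n j (n.n2 + n.Ux + S.P + S.cutG r + 1)) ∨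
    (∃ d y t, n.nT + S.h + d = n.n2 + n.Ux + S.P + 2 ∧ 1 ≤ d ∧ 1 ≤ t ∧ t ≤ n.n2 + j + 1 ∧
      lay5 S n j = layS S n j y ∧
      ((n.n2 + n.Ux + S.P + 2 ≤ y ∧ y ≤ wz S n ∧ d + y = wz S n + t) ∨
        (y + 2 ≤ n.n2 + n.Ux + S.P + 2 ∧ n.n2 + j < y ∧ d + y + 1 = wz S n + t ∧
          t = n.n2 + j + 1))) := by
  have hw := wz5 S n hs
  have hP := (q5 S hm).2.2.2.2.2.2.2.2.1
  by_cases c1 : n.n2 + n.Ux + S.P + 2 + 1 ≤ S.Q
  · left
    refine ⟨c1, ?_⟩
    unfold lay5
    dsimp only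
    rw [if_pos c1]
  right
  by_cases c2 : n.n2 + n.Ux + S.P + 2 ≤ S.Q + n.nT
  · left
    refine ⟨by omega, c2, ?_⟩
    unfold lay5
    dsimp only
    rw [if_neg c1, if_pos c2]
  right
  by_cases c3 : n.n2 + n.Ux + S.P + 2 ≤ n.nT + S.h
  · left
    refine ⟨n.n2 + n.Ux + S.P + 2 - n.nT, by omega, by omega, by omega, ?_⟩
    unfold lay5
    dsimp only
    rw [if_neg c1, if_neg c2, if_pos c3]
  right
  obtain ⟨d, hd⟩ : ∃ d, n.nT + S.h + d = n.n2 + n.Ux + S.P + 2 :=
    ⟨n.n2 + n.Ux + S.P + 2 - (n.nT + S.h), by omega⟩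
  have hd2 : n.n2 + n.Ux + S.P + 2 - n.nT - S.h = d := by omega
  obtain ⟨t, t1, t2, t3⟩ := y4 (wz S n) d (n.n2 + j) S.h S.P n.n2 n.Ux n.nT hw hd hP S.h1
    (by omega)
  refine ⟨d, (if n.n2 + n.Ux + S.P + 2 ≤ wz S n + min d (n.n2 + j + 1) - d then
    wz S n + min d (n.n2 + j + 1) - d else wz S n + min d (n.n2 + j + 1) - d - 1),
    t, hd, by omega, t1, t2, ?_, ?_⟩
  · unfold lay5
    dsimp only
    rw [if_neg c1, if_neg c2, if_neg c3, hd2]
  · rw [hd] at t3
    exact t3

private lemma layOf5 (S : Seam k ld al) (n : Num) (j : ℕ) (hm : S.mode = 5) (hs : n.sp = 1) :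
    layOf S n j = lay5 S n j := by
  unfold layOf
  rw [if_neg (by omega), if_neg (by omega), if_neg (by omega), if_neg (by omega),
    if_neg (by omega)]

/-- the odd edge at `q` for `layS` -/
private lemma layS_plq (S : Seam k ld al) (n : Num) (j y : ℕ) (hm : S.mode = 5) (hs : n.sp = 1)
    (hA : Adm S n j) :
    pl S n (layS S n j y) (oe S.q) =
      if y ≤ n.n2 + n.Ux + S.P + 1 then n.n2 + n.Ux + S.P + 2 else n.n2 + n.Ux + S.P + 1 := by
  obtain ⟨q1, q2, q3, q4, q5, q6, q7, q8, q9, q10⟩ := q5 S hm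
  have hjU := hA.jU
  have hw := wz5 S n hs
  rw [if_neg (by omega)] at hjU
  unfold pl
  rw [if_pos oe_odd, q8]
  have e1 : lop S n (layS S n j y) (S.P + 1) = n.n2 + n.Ux + S.P + 1 := by
    unfold lop
    change (if false = true then _ else (if S.P + 1 ≤ S.P then n.n2 + j + (S.P + 1)
      else n.n2 + j + (n.Ux - j) + (S.P + 1))) = _
    rw [if_neg (by simp), if_neg (by omega)]
    omega
  rw [e1]
  change lam y (wz S n + 2) _ = _
  rw [lam_two _ _ _ (by omega)]

/-- the unloaded vertices for `layS` -/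
private lemma layS_un (S : Seam k ld al) (n : Num) (j y : ℕ) (hs : n.sp = 1)
    (hA : Adm S n j) {i : ℕ} (h1 : 1 ≤ i) (h2 : i < k) (h : ¬ ld i) :
    (S.bad i ∧ S.bad (oe i) ∧ 1 ≤ S.rk (oe i) ∧ S.rk (oe i) ≤ S.P ∧ 1 ≤ S.rk (ee i) ∧
      S.rk (ee i) ≤ S.Q ∧
      pl S n (layS S n j y) (oe i) = (if y ≤ n.n2 + j + S.rk (oe i) then
        n.n2 + j + S.rk (oe i) + 1 else n.n2 + j + S.rk (oe i)) ∧
      bs S n (layS S n j y) i = wz S n + n.N0 + pl S n (layS S n j y) (oe i) + S.rk (ee i)) ∨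
    (¬ S.bad i ∧ S.P + 1 ≤ S.rk (oe i) ∧ S.rk (oe i) ≤ S.h + 1 ∧ S.Q + 1 ≤ S.rk (ee i) ∧
      S.rk (ee i) ≤ S.h ∧
      pl S n (layS S n j y) (oe i) = (if y ≤ n.n2 + n.Ux + S.rk (oe i) then
        n.n2 + n.Ux + S.rk (oe i) + 1 else n.n2 + n.Ux + S.rk (oe i)) ∧
      bs S n (layS S n j y) i = wz S n + n.N0 + n.nT + pl S n (layS S n j y) (oe i) +
        S.rk (ee i)) := by
  obtain ⟨s1, s2⟩ := S.same' h1 h2 h
  have hjU := hA.jU
  have hw := wz5 S n hs
  rw [if_neg (by omega)] at hjU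
  have ro := oe_range5 h1 h2
  have re := ee_range5 h1 h2
  have hPh := S.Ph
  by_cases hb : S.bad i
  · left
    have hbo : S.bad (oe i) := s2.2 hb
    have hbe : S.bad (ee i) := s1.1 hbo
    have r1 := S.rk_ob _ ro.1 ro.2 oe_odd hbo
    have r2 := S.rk_eb _ re.1 re.2 ee_even hbe
    have e1 : lop S n (layS S n j y) (S.rk (oe i)) = n.n2 + j + S.rk (oe i) := by
      unfold lop
      change (if false = true then _ else (if S.rk (oe i) ≤ S.P then n.n2 + j + S.rk (oe i)
        else n.n2 + j + (n.Ux - j) + S.rk (oe i))) = _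
      rw [if_neg (by simp), if_pos r1.2]
    have e2 : pl S n (layS S n j y) (oe i) = lam y (wz S n + 2) (n.n2 + j + S.rk (oe i)) := by
      unfold pl
      rw [if_pos oe_odd, e1]
      rfl
    refine ⟨hb, hbo, r1.1, r1.2, r2.1, r2.2, ?_, ?_⟩
    · rw [e2, lam_two _ _ _ (by omega)]
    · rw [bs_bb S n (layS S n j y) rfl h1 h2 hbo hbe, e2]
      rfl
  · right
    have hbo : ¬ S.bad (oe i) := fun hc => hb (s2.1 hc)
    have hbe : ¬ S.bad (ee i) := fun hc => hbo (s1.2 hc)
    have r1 := S.rk_og _ ro.1 ro.2 oe_odd hbo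
    have r2 := S.rk_eg _ re.1 re.2 ee_even hbe
    have e1 : lop S n (layS S n j y) (S.rk (oe i)) = n.n2 + n.Ux + S.rk (oe i) := by
      unfold lop
      change (if false = true then _ else (if S.rk (oe i) ≤ S.P then n.n2 + j + S.rk (oe i)
        else n.n2 + j + (n.Ux - j) + S.rk (oe i))) = _
      rw [if_neg (by simp), if_neg (by omega)]
      omega
    have e2 : pl S n (layS S n j y) (oe i) =
        lam y (wz S n + 2) (n.n2 + n.Ux + S.rk (oe i)) := by
      unfold pl
      rw [if_pos oe_odd, e1]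
      rfl
    have e3 : n.n2 + (layS S n j y).j + (layS S n j y).U + S.rk (oe i) =
        n.n2 + n.Ux + S.rk (oe i) := by
      change n.n2 + j + (n.Ux - j) + S.rk (oe i) = n.n2 + n.Ux + S.rk (oe i)
      omega
    refine ⟨hb, r1.1, r1.2, r2.1, r2.2, ?_, ?_⟩
    · rw [e2, lam_two _ _ _ (by omega)]
    · rw [bs_gg S n (layS S n j y) rfl h1 h2 hbo hbe, e3, e2]
      rfl

/-- `z` is above `n2 + Ux + P + 1`, often above `v` -/
private lemma zgt (S : Seam k ld al) (n : Num) (j z : ℕ) (hm : S.mode = 5) (hs : n.sp = 1)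
    (hA : Adm S n j) (hz : ZG S n j z) :
    n.n2 + n.Ux + S.P + 1 < z ∧ (n.n2 + n.Ux + S.P + 3 ≤ S.Q → n.n2 + n.Ux + S.P + 2 < z) ∧
      (lay5 S n j = layLg S n j → n.n2 + n.Ux + S.P + 2 < z) ∧
      (∀ d y, n.nT + S.h + d = n.n2 + n.Ux + S.P + 2 → 1 ≤ d → y + 2 ≤ n.n2 + n.Ux + S.P + 2 →
        d + y + 1 = wz S n + (n.n2 + j + 1) → n.n2 + n.Ux + S.P + 2 < z) := by
  have hA' := adm_up hA
  have hs' : n.up.sp = 1 := hs
  have hP := (q5 S hm).2.2.2.2.2.2.2.2.1
  have hQh := S.Qh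
  have hjU := hA.jU
  rw [if_neg (by omega)] at hjU
  have hw := wz5 S n hs
  have hwu := wz_up S n
  have hg := hz.gt
  rw [layOf5 S n.up j hm hs'] at hg
  have hnl := hz.nl (by omega) hm
  rw [layOf5 S n j hm hs, layOf5 S n.up j hm hs'] at hnl
  have keyS : ∀ y, lay5 S n.up j = layS S n.up j y →
      n.n2 + n.Ux + S.P + 1 < z ∧ (y ≤ n.n2 + n.Ux + S.P + 1 → n.n2 + n.Ux + S.P + 2 < z) := by
    intro y e
    have h1 := layS_XU S n.up j y hs' hA' hP
    rw [e, h1, up_n2, up_Ux] at hg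
    split_ifs at hg <;> omega
  have cas := lay5_cases S n.up j hm hs'
  simp only [up_n2, up_nT, up_Ux, hwu] at cas
  rcases cas with ⟨c1, e⟩ | ⟨c1, c2, e⟩ | ⟨r, r1, r2, r3, e⟩ | ⟨d, y, t, d1, d2, t1, t2, e, hy⟩
  · have hk := keyS _ e
    have hc := S.cutB_le (n.n2 + (n.Ux + 1) + S.P + 3)
    have h2 := hk.2 (by omega)
    exact ⟨by omega, fun _ => h2, fun _ => h2, fun _ _ _ _ _ _ => h2⟩
  · have h2 : n.n2 + n.Ux + S.P + 2 < z := by
      rw [e] at hg
      have e1 : Xl S n.up (layLg S n.up j) (layLg S n.up j).U = n.n2 + n.Ux + S.P + 2 := by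
        unfold Xl
        have e2 : n.up.n2 + (layLg S n.up j).j + S.P + (layLg S n.up j).U -
            (if (layLg S n.up j).k2 = true then 1 else 0) = n.n2 + n.Ux + S.P + 2 := by
          change n.n2 + j + S.P + (n.Ux + 1 - j + 1) - 0 = _
          omega
        rw [e2]
        change lam (wz S n.up + 1) (wz S n.up + 2) _ = _
        unfold lam
        rw [if_neg (by omega), if_neg (by omega)]
      rw [e1] at hg
      exact hg
    exact ⟨by omega, fun _ => h2, fun _ => h2, fun _ _ _ _ _ _ => h2⟩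
  · have hk := keyS _ e
    have hlg : (lay5 S n.up j).lg = false := by rw [e]; rfl
    refine ⟨hk.1, by omega, ?_, ?_⟩
    · intro e2
      have := hnl (by rw [e2]; rfl) hlg
      have := hk.1
      omega
    · intro d y h1 h2 h3 h4
      omega
  · have hk := keyS _ e
    have hlg : (lay5 S n.up j).lg = false := by rw [e]; rfl
    refine ⟨hk.1, by omega, ?_, ?_⟩
    · intro e2
      have := hnl (by rw [e2]; rfl) hlg
      have := hk.1
      omega
    · intro d' y' h1 h2 h3 h4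
      apply hk.2
      rcases hy with hy | hy <;> omega

private lemma insS_low (S : Seam k ld al) (n : Num) (j y z : ℕ) (hs : n.sp = 1)
    (hA : Adm S n j) (h1 : n.n2 + j < y) (h2 : y ≤ wz S n)
    (hz1 : n.n2 + n.Ux + S.P + 1 < z) (hz2 : z ≤ wz S n + 1) (hPh : S.P ≤ S.h) :
    FLow S n (insG S n (layS S n j y) z) := by
  have hjU := hA.jU
  have hw := wz5 S n hs
  rw [if_neg (by omega)] at hjU
  apply flow_ins
  · rfl
  · exact h1
  · change y < wz S n + 2
    omega
  · change wz S n = n.n2 + j + (n.Ux - j) + S.h + 1 + (if y ≤ wz S n then 1 else 0)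
      + (if wz S n + 2 ≤ wz S n then 1 else 0)
    rw [if_pos h2, if_neg (by omega)]
    omega
  · change n.nT ≤ n.Ux - j
    omega
  · change lam y (wz S n + 2) (n.n2 + j + S.P + (n.Ux - j)) < z
    rw [lam_two _ _ _ (by omega)]
    split_ifs <;> omega
  · exact hz2

private lemma insS_all (S : Seam k ld al) (n : Num) (j y z : ℕ) (hm : S.mode = 5) (hs : n.sp = 1)
    (hA : Adm S n j) (h1 : n.n2 + j < y) (h2 : y ≤ wz S n)
    (hz1 : n.n2 + n.Ux + S.P + 1 < z) (hz2 : z ≤ wz S n + 1)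
    (hup : (insG S n (layS S n j y) z).bs S.q + sk z y ≤
      wz S n.up + mz S n.up + n.n2 + j + 1)
    (hC : ∀ i, 1 ≤ i → i < k → ¬ ld i → (insG S n (layS S n j y) z).bs i ≠
      (insG S n (layS S n j y) z).bs S.q + sk z y)
    (hL : (insG S n (layS S n j y) z).bs S.q + sk z y <
        wz S n.up + n.N0 + S.Q + 1 + sk z (Xl S n (layS S n j y) 1) ∨
      wz S n.up + n.N0 + S.Q + n.nT + 1 + sk z (Xl S n (layS S n j y) (layS S n j y).U) <
        (insG S n (layS S n j y) z).bs S.q + sk z y) :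
    FLow S n (insG S n (layS S n j y) z) ∧ FMod S n (insG S n (layS S n j y) z) ∧
      FZed S n (insG S n (layS S n j y) z) := by
  have hjU := hA.jU
  have hw := wz5 S n hs
  have hwu := wz_up S n
  rw [if_neg (by omega)] at hjU
  have hPh := (q5 S hm).2.2.2.2.2.2.2.2.1
  have L := layS_low S n j y hs hA h1 h2
  have hlow := insS_low S n j y z hs hA h1 h2 hz1 hz2 hPh
  have hzl : lam (layS S n j y).y1 (layS S n j y).y2
      (n.n2 + (layS S n j y).j + S.P + (layS S n j y).U) < z := by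
    change lam y (wz S n + 2) (n.n2 + j + S.P + (n.Ux - j)) < z
    rw [lam_two _ _ _ (by omega)]
    split_ifs <;> omega
  obtain ⟨d1, d2, d3⟩ := dab_ins S n (layS S n j y) z
    (dab_layS S n j y (Or.inr hm) (by omega) hA h1 h2) (by
      intro a ha _ hb
      exact (bad_lt S n (layS S n j y) rfl hzl (S.ld_pos a (S.al_ld a ha))
        (S.ld_lt a (S.al_ld a ha)) hb).1)
  have hbsq := layS_bsq S n j y hm hs hA
  have hbsq' := bs_ins S n (layS S n j y) z S.q
  have hyy := le_sk z y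
  have hyy' := sk_le z y
  refine ⟨hlow, ⟨?_, ?_, ?_, ?_, ?_, ?_, ?_, ?_, ?_, d1, d2, d3⟩, ?_⟩
  · intro _ _
    refine ⟨?_, ?_, ?_, ?_⟩
    · change n.n2 + j < sk z y
      omega
    · change sk z y ≤ wz S n.up
      omega
    · intro i i1 i2 e
      have e' : sk z (Xl S n (layS S n j y) i) = sk z y := e
      exact (L.X_y i i1).1 (sk_inj e')
    · intro e e1 e2 e3 e4
      have e5 : (if e % 2 = 1 then sk z (pl S n (layS S n j y) e)
        else pl S n (layS S n j y) e + 1) = sk z y := e4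
      rw [if_pos e3] at e5
      exact (L.p_odd e e1 e2 e3).2.2.1 (sk_inj e5)
  · intro h
    exact absurd h (by simp [insG, layS])
  · intro h
    exact absurd h (by simp [insG, layS])
  · intro _ _
    change wz S n.up + n.N0 < (insG S n (layS S n j y) z).bs S.q + sk z y
    rw [hbsq', hbsq]
    omega
  · intro _ _
    exact hup
  · intro _ _
    exact hC
  · intro _ _ _
    exact hL
  · intro h
    omega
  · intro h
    exact absurd h (by simp [insG, layS])
  · apply fzed_ins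
    · change (n.Ux - j) + j + 0 = n.Ux + 0
      omega
    · change n.n2 + j + S.P < z
      omega
    · exact hz2

theorem hg_5 (S : Seam k ld al) (n : Num) (j z : ℕ) (hm : S.mode = 5) (hs : n.sp = 1) (hA : Adm S n j)
    (hz : ZG S n j z) : FLow S n (funG S n j z) ∧ FMod S n (funG S n j z) ∧
      FZed S n (funG S n j z) := by
  obtain ⟨z1, z2, z3, z4⟩ := zgt S n j z hm hs hA hz
  have hjU := hA.jU
  have hw := wz5 S n hs
  have hwu := wz_up S n
  have hmu := mz_up S n
  have hmz : mz S n = wz S n + n.N0 + n.nT + S.h := rfl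
  obtain ⟨q1, q2, q3, q4, q5', q6, q7, q8, hP, q10⟩ := q5 S hm
  have hQh := S.Qh
  have hzw := hz.le
  rw [if_neg (by omega)] at hjU
  unfold funG
  rcases lay5_cases S n j hm hs with ⟨c1, e⟩ | ⟨c1, c2, e⟩ | ⟨r, r1, r2, r3, e⟩ |
    ⟨d, y, t, d1, d2, t1, t2, e, hy⟩
  · have epre : preG S n j z = lay5 S n j := by
      unfold preG
      rw [if_neg, layOf5 S n j hm hs]
      rintro ⟨⟨_, ht⟩, _⟩
      omega
    rw [epre, e]
    have hc := S.cutB_le (n.n2 + n.Ux + S.P + 3)
    have hlt := S.cutB_lt (n.n2 + n.Ux + S.P + 3) (by omega) c1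
    have hgt := S.cutB_gt (n.n2 + n.Ux + S.P + 3) (by omega) c1
    generalize S.cutB (n.n2 + n.Ux + S.P + 3) = c at hc hlt hgt ⊢
    have hq := layS_bsq S n j (n.n2 + j + c + 1) hm hs hA
    have hpq := layS_plq S n j (n.n2 + j + c + 1) hm hs hA
    rw [if_pos (by omega)] at hq hpq
    have hX := layS_X1 S n j (n.n2 + j + c + 1)
    have hXs := le_sk z (Xl S n (layS S n j (n.n2 + j + c + 1)) 1)
    have hq' := bs_ins S n (layS S n j (n.n2 + j + c + 1)) z S.q
    rw [hpq, if_neg (by omega), hq] at hq'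
    have hsk : sk z (n.n2 + j + c + 1) = n.n2 + j + c + 1 := sk_of_lt (by omega)
    apply insS_all S n j _ z hm hs hA (by omega) (by omega) z1 (by omega)
    · rw [hq', hsk]
      omega
    · intro i i1 i2 i3
      rw [bs_ins, hq', hsk]
      rcases layS_un S n j (n.n2 + j + c + 1) hs hA i1 i2 i3 with
        ⟨hb, hbo, a1, a2, a3, a4, a5, a6⟩ | ⟨hb, a1, a2, a3, a4, a5, a6⟩
      · have h1 := hlt i i1 i2 i3 hb
        have h2 := hgt i i1 i2 i3 hb
        rw [a6]
        rw [a5]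
        split_ifs <;> omega
      · rw [a6]
        rw [a5]
        split_ifs <;> omega
    · left
      rw [hq', hsk]
      omega
  · have epre : preG S n j z = lay5 S n j := by
      unfold preG
      rw [if_neg, layOf5 S n j hm hs]
      rintro ⟨⟨_, ht⟩, _⟩
      omega
    have z3' := z3 e
    rw [epre, e]
    have hbq : bs S n (layLg S n j) S.q = wz S n + n.N0 + (n.n2 + n.Ux + S.P + 2) + 1 := by
      rw [bs_gb S n (layLg S n j) rfl q1 q2 q6 q5', q7, q8]
      have e1 : n.n2 + (layLg S n j).j + (layLg S n j).U + (S.P + 1) =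
          n.n2 + n.Ux + S.P + 2 := by
        change n.n2 + j + (n.Ux - j + 1) + (S.P + 1) = n.n2 + n.Ux + S.P + 2
        omega
      rw [e1]
      change wz S n + n.N0 + lam (wz S n + 1) (wz S n + 2) (n.n2 + n.Ux + S.P + 2) + 1 = _
      unfold lam
      rw [if_neg (by omega), if_neg (by omega)]
    have hplq : pl S n (layLg S n j) (oe S.q) = n.n2 + n.Ux + S.P + 2 := by
      unfold pl
      rw [if_pos oe_odd, q8]
      have e1 : lop S n (layLg S n j) (S.P + 1) = n.n2 + n.Ux + S.P + 2 := by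
        unfold lop
        change (if false = true then _ else (if S.P + 1 ≤ S.P then n.n2 + j + (S.P + 1)
          else n.n2 + j + (n.Ux - j + 1) + (S.P + 1))) = _
        rw [if_neg (by simp), if_neg (by omega)]
        omega
      rw [e1]
      change lam (wz S n + 1) (wz S n + 2) _ = _
      unfold lam
      rw [if_neg (by omega), if_neg (by omega)]
    have hzl : lam (layLg S n j).y1 (layLg S n j).y2
        (n.n2 + (layLg S n j).j + S.P + (layLg S n j).U) < z := by
      change lam (wz S n + 1) (wz S n + 2) (n.n2 + j + S.P + (n.Ux - j + 1)) < z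
      unfold lam
      rw [if_neg (by omega), if_neg (by omega)]
      omega
    have hM : ModOK S n (layLg S n j) := by
      rw [← e]
      exact mod_5 S n j hm hs hA
    have hlow : FLow S n (insG S n (layLg S n j) z) := by
      apply flow_ins
      · rfl
      · change n.n2 + j < wz S n + 1
        omega
      · change wz S n + 1 < wz S n + 2
        omega
      · change wz S n = n.n2 + j + (n.Ux - j + 1) + S.h + 1 +
          (if wz S n + 1 ≤ wz S n then 1 else 0) + (if wz S n + 2 ≤ wz S n then 1 else 0)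
        rw [if_neg (by omega), if_neg (by omega)]
        omega
      · change n.nT ≤ n.Ux - j + 1
        omega
      · exact hzl
      · omega
    obtain ⟨d1, d2, d3⟩ := dab_ins S n (layLg S n j) z hM.dab (by
        intro a ha _ hb
        exact (bad_lt S n (layLg S n j) rfl hzl (S.ld_pos a (S.al_ld a ha))
          (S.ld_lt a (S.al_ld a ha)) hb).1)
    have hq' := bs_ins S n (layLg S n j) z S.q
    rw [hplq, if_neg (by omega), hbq] at hq'
    refine ⟨hlow, ⟨?_, ?_, ?_, ?_, ?_, ?_, ?_, ?_, ?_, d1, d2, d3⟩, ?_⟩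
    · intro _ h
      exact absurd h (by simp [insG, layLg])
    · intro h
      exact absurd h (by simp [insG, layLg])
    · intro h
      refine ⟨hs, rfl, ?_, ?_⟩
      · rw [hq']
        omega
      · rw [hq']
        omega
    · intro _ h
      exact absurd h (by simp [insG, layLg])
    · intro _ h
      exact absurd h (by simp [insG, layLg])
    · intro _ h
      exact absurd h (by simp [insG, layLg])
    · intro _ h
      exact absurd h (by simp [insG, layLg])
    · intro h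
      omega
    · intro h
      exact absurd h (by simp [insG, layLg])
    · apply fzed_ins
      · change (n.Ux - j + 1) + j + 0 = n.Ux + 1
        omega
      · change n.n2 + j + S.P < z
        omega
      · omega
  · have epre : preG S n j z = lay5 S n j := by
      unfold preG
      rw [if_neg, layOf5 S n j hm hs]
      rintro ⟨⟨_, ht⟩, _⟩
      omega
    rw [epre, e]
    have hc := S.cutG_le r
    have hlt := S.cutG_lt r r2 r3
    have hgt := S.cutG_gt r r2 r3
    have hone := S.cutG_one hm r r2 r3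
    generalize S.cutG r = c at hc hlt hgt hone ⊢
    have hq := layS_bsq S n j (n.n2 + n.Ux + S.P + c + 1) hm hs hA
    have hpq := layS_plq S n j (n.n2 + n.Ux + S.P + c + 1) hm hs hA
    rw [if_neg (by omega)] at hq hpq
    have hX := layS_XU S n j (n.n2 + n.Ux + S.P + c + 1) hs hA hP
    rw [if_neg (by omega)] at hX
    have hq' := bs_ins S n (layS S n j (n.n2 + n.Ux + S.P + c + 1)) z S.q
    rw [hpq, if_neg (by omega), hq] at hq'
    have hs1 := le_sk z (n.n2 + n.Ux + S.P + c + 1)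
    have hs2 := sk_le z (n.n2 + n.Ux + S.P + c + 1)
    apply insS_all S n j _ z hm hs hA (by omega) (by omega) z1 (by omega)
    · rw [hq']
      omega
    · intro i i1 i2 i3
      rw [bs_ins, hq']
      rcases layS_un S n j (n.n2 + n.Ux + S.P + c + 1) hs hA i1 i2 i3 with
        ⟨hb, hbo, a1, a2, a3, a4, a5, a6⟩ | ⟨hb, a1, a2, a3, a4, a5, a6⟩
      · rw [a6]
        rw [a5]
        split_ifs <;> omega
      · have h1 := hlt i i1 i2 i3 hb
        have h2 := hgt i i1 i2 i3 hb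
        rw [a6]
        rw [a5]
        unfold sk
        split_ifs <;> omega
    · right
      rw [hq', hX, sk_of_lt (by omega)]
      omega
  · -- the last case
    have htop : topY S n := ⟨by omega, Or.inr ⟨hm, by omega⟩⟩
    have hny := hz.ny htop
    rw [layOf5 S n j hm hs, e] at hny
    have hny' : z ≠ y + 1 := hny
    have epre : ∃ y', preG S n j z = layS S n j y' ∧ sk z y' = y + 1 ∧ n.n2 + j < y' ∧
        y' ≤ wz S n ∧ (y' = y ∨ y' = y + 1) := by
      unfold preG
      rw [layOf5 S n j hm hs, e]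
      by_cases hyz : y + 1 < z
      · refine ⟨y + 1, ?_, sk_of_lt hyz, by omega, by omega, Or.inr rfl⟩
        rw [if_pos ⟨htop, hyz⟩]
        rfl
      · refine ⟨y, ?_, ?_, by omega, by omega, Or.inl rfl⟩
        · rw [if_neg]
          rintro ⟨_, h⟩
          exact hyz h
        · unfold sk
          rw [if_pos (by omega)]
    obtain ⟨y', epre, hsky, hy1, hy2, hyy⟩ := epre
    rw [epre]
    have hq := layS_bsq S n j y' hm hs hA
    have hpq := layS_plq S n j y' hm hs hA
    have hX := layS_XU S n j y' hs hA hP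
    have hq' := bs_ins S n (layS S n j y') z S.q
    have hV : (insG S n (layS S n j y') z).bs S.q + (y + 1) = wz S n.up + mz S n.up + t := by
      rcases hy with ⟨b1, b2, b3⟩ | ⟨b1, b2, b3, b4⟩
      · rw [if_neg (by omega)] at hq hpq
        rw [hpq, if_neg (by omega), hq] at hq'
        rw [hq']
        omega
      · have z4' := z4 d y d1 d2 b1 (by omega)
        rw [if_pos (by omega)] at hq hpq
        rw [hpq, if_neg (by omega), hq] at hq'
        rw [hq']
        omega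
    have hlow := insS_low S n j y' z hs hA hy1 hy2 z1 (by omega) hP
    apply insS_all S n j _ z hm hs hA hy1 hy2 z1 (by omega)
    · rw [hsky, hV]
      omega
    · intro i i1 i2 i3
      rw [hsky, hV]
      have := hlow.C_up i i1 i2 i3
      omega
    · right
      rw [hsky, hV, hX]
      have : sk z (if y' ≤ n.n2 + n.Ux + S.P then n.n2 + n.Ux + S.P + 1
          else n.n2 + n.Ux + S.P) ≤ n.n2 + n.Ux + S.P + 1 := by
        rw [sk_of_lt (by split_ifs <;> omega)]
        split_ifs <;> omega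
      omega

end Pool.Agent.Lob5
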