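import Pool.Agent.Lob5.HoleIns

/-!
# Reserved label above the labels `X`: no special vertex

`layOf = layNone` for `n` and `n.up`; `topY` is false, so `preG = layOf`. All labels `≤ w` are equal to
their positions (`lam (w+1) (w+2) i = i` for `i < w`). `hz.gt`: `z > n2+j+P+(Ux+1-j) = n2+P+Ux+1`
(`hA.jU`), so the hypothesis of `flow_ins` holds: `lam (n2+j+P+U) = n2+P+Ux < z`.
`FMod`: `y, xs, lg, V, F3, Fx` are void (`sp = 0`, `lg = xsf = false`); `D`: `dab_ins` with
`(mod_all ..).dab` and `bad_lt`. `FZed`: `fzed_ins`.
-/

namespace Pool.Agent.Lob5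

variable {k : ℕ} {ld al : ℕ → Prop}

theorem hg_none (S : Seam k ld al) (n : Num) (j z : ℕ) (hs : n.sp = 0) (hA : Adm S n j)
    (hz : ZG S n j z) : FLow S n (funG S n j z) ∧ FMod S n (funG S n j z) ∧
      FZed S n (funG S n j z) := by
  have hPh := S.Ph
  have hjU : n.nT + j ≤ n.Ux := by
    have := hA.jU
    rw [hs] at this
    simpa using this
  have hw : wz S n = n.n2 + n.Ux + S.h + 1 := by simp [wz, hs]
  have hup := wz_up S n
  have e1 : layOf S n j = layNone S n j := by simp [layOf, hs]
  have e2 : layOf S n.up j = layNone S n.up j := by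
    have hs' : n.up.sp = 0 := hs
    simp [layOf, hs']
  have hty : ¬ topY S n := fun h => h.1 hs
  have e3 : preG S n j z = layNone S n j := by
    unfold preG
    rw [if_neg (fun h => hty h.1), e1]
  have e4 : funG S n j z = insG S n (layNone S n j) z := by
    unfold funG
    rw [e3]
  have hgt : n.n2 + n.Ux + S.P + 1 < z := by
    have h1 := hz.gt
    rw [e2] at h1
    have h2 : n.n2 + j + S.P + (n.Ux + 1 - j) ≤
        Xl S n.up (layNone S n.up j) (layNone S n.up j).U := by
      change n.n2 + j + S.P + (n.Ux + 1 - j) ≤
        lam (wz S n.up + 1) (wz S n.up + 2) (n.n2 + j + S.P + (n.Ux + 1 - j) - 0)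
      unfold lam
      split_ifs <;> omega
    omega
  have hle : z ≤ wz S n + 1 := by
    have := hz.le
    omega
  have hlam : lam (layNone S n j).y1 (layNone S n j).y2
      (n.n2 + (layNone S n j).j + S.P + (layNone S n j).U) < z := by
    change lam (wz S n + 1) (wz S n + 2) (n.n2 + j + S.P + (n.Ux - j)) < z
    unfold lam
    rw [if_neg (by omega), if_neg (by omega)]
    omega
  have hb : ∀ a, al a → a ≠ S.q → S.bad (oe a) → pl S n (layNone S n j) (oe a) < z := by
    intro a ha _ hba
    have h1 := S.al_ld a ha
    exact (bad_lt S n (layNone S n j) rfl hlam (S.ld_pos a h1) (S.ld_lt a h1) hba).1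
  have hlow : FLow S n (insG S n (layNone S n j) z) := by
    refine flow_ins S n (layNone S n j) z rfl ?_ ?_ ?_ ?_ hlam hle
    · change n.n2 + j < wz S n + 1
      omega
    · change wz S n + 1 < wz S n + 2
      omega
    · change wz S n = n.n2 + j + (n.Ux - j) + S.h + 1 + (if wz S n + 1 ≤ wz S n then 1 else 0)
        + (if wz S n + 2 ≤ wz S n then 1 else 0)
      rw [if_neg (by omega), if_neg (by omega)]
      omega
    · change n.nT ≤ n.Ux - j
      omega
  have hdab := dab_ins S n (layNone S n j) z (mod_none S n j hs hA).dab hb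
  have hzed : FZed S n (insG S n (layNone S n j) z) := by
    refine fzed_ins S n (layNone S n j) z ?_ ?_ hle
    · change n.Ux - j + j + (if false = true then 1 else 0) =
        n.Ux + (if false = true then 1 else 0)
      simp only [Bool.false_eq_true, if_false]
      omega
    · change n.n2 + j + S.P < z
      omega
  rw [e4]
  refine ⟨hlow, ?_, hzed⟩
  have hxs : (insG S n (layNone S n j) z).xsf = true → False := fun h => by
    change false = true at h
    exact Bool.false_ne_true h
  have hlg : (insG S n (layNone S n j) z).lg = true → False := fun h => by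
    change false = true at h
    exact Bool.false_ne_true h
  exact
    { y_ok := fun h => absurd hs h
      xs_ok := fun h => (hxs h).elim
      lg_ok := fun h => (hlg h).elim
      V_lo := fun h => absurd hs h
      V_up := fun h => absurd hs h
      V_C := fun h => absurd hs h
      V_L := fun h => absurd hs h
      F3 := fun h => by omega
      Fx := fun h => (hxs h).elim
      Dbb := hdab.1
      Dgg := hdab.2.1
      Dgb := hdab.2.2 }

end Pool.Agent.Lob5
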