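import Pool.Agent.Lob5.HoleSt0

/-!
# Consecutive layers: mode 1

Only the odd edges matter (`fstep_of`). `K := w-h-1` with `w = wz S n.up`; for a good odd edge of rank `r`
with the label `o` one has `o + A = K + r` where `A` is the number of inserted labels (`y`, `xs` if they
are inserted, and `z` in the layers `funG`) above `o` (`lab_P`, `lab_G`; `sk_lt`). `Λ` belongs to `j`, `Λ'` to
`j+1`; for a good edge `o - o' = A' - A`.
`y = n2+j+nT+h+1-Q` in all layers for `j` (`y < z` in `funG`, see `HoleG1`), `y ≤ n2+j+P+nT`, so `y` is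
below all good odd labels and does not contribute to `A`. `xs` is inserted iff `sp = 3` and
`n2+j+P+1+(1 if y ≤ n2+j+P+1) < Q`; if this holds for `j+1` then also for `j`. `xs = Q`, or `Q+1` if `y = Q`;
it is above all bad odd labels and above `X 1`.
* bad odd edges: `p = n2+j+r+[y ≤ n2+j+r]`, and `y' = y+1`, so `p' = p+1`. `X 1 ≥ n2+j+P+1`.
* `sp ≠ 3` or not `xs` (for `j` and `j+1`): `A, A' ≤ 1` (only `z`), so all differences are `≤ 2`.
* otherwise `A, A' ≤ 2`. `st2`: `≤ 2`. `st1`, `i` good: `(A i - A' i) + (A' a - A a) ≤ 2`: if `r i < r a` then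
  `A i - A a` is the number of inserted labels between the two labels, `≤ 2`, and `A' a - A' i ≤ 0`;
  similarly if `r i > r a`. `st1`, `i` bad: `1 + (A' a - A a) ≤ 3`, and `P ≥ 3` by `h2`.
-/

namespace Pool.Agent.Lob5

variable {k : ℕ} {ld al : ℕ → Prop}

/-- the facts about the layout of the mode 1 -/
private structure LF1 (S : Seam k ld al) (n : Num) (j : ℕ) (L : Lay) : Prop where
  hj : L.j = j
  hk2 : L.k2 = false
  h12 : L.y1 < L.y2
  hw : wz S n = n.n2 + L.j + L.U + S.h + 1 + (if L.y1 ≤ wz S n then 1 else 0)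
      + (if L.y2 ≤ wz S n then 1 else 0)
  hU : n.nT ≤ L.U
  ys : (L.y1 = n.n2 + j + n.nT + S.h + 1 - S.Q ∧ n.n2 + j + S.P + 1 < L.y2) ∨
    (L.y2 = n.n2 + j + n.nT + S.h + 1 - S.Q ∧ n.n2 + j + S.P + 1 < L.y1)
  yw : L.y1 = n.n2 + j + n.nT + S.h + 1 - S.Q ∨ L.y2 = n.n2 + j + n.nT + S.h + 1 - S.Q

private theorem lf1 (S : Seam k ld al) (n : Num) (j : ℕ) (hm : S.mode = 1) (hA : Adm S n j) :
    LF1 S n j (layOf S n j) := by
  have hsp := hA.sp14 (by omega) (by omega)
  have hjU := hA.jU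
  have hQ := S.Qh
  have hPQ := S.PQ
  have hPh := S.Ph
  have hwz : wz S n = n.n2 + n.Ux + S.h + 2 := by
    unfold wz
    rw [if_neg (by omega)]
  have hL : layOf S n j = lay1 S n j := by
    unfold layOf
    rw [if_neg (by omega), if_pos hm]
  rw [hL]
  unfold lay1
  by_cases hc : n.sp = 3 ∧ (n.n2 + j + n.nT + S.h + 1 - S.Q) + (n.n2 + j + S.P + 1 +
      (if n.n2 + j + n.nT + S.h + 1 - S.Q ≤ n.n2 + j + S.P + 1 then 1 else 0)) <
      n.nT + S.h + n.n2 + j + 1
  · rw [if_pos hc]
    obtain ⟨h3, hlt⟩ := hc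
    have hU1 : n.nT + j + 1 ≤ n.Ux := by
      rw [h3] at hjU
      simpa using hjU
    have hx : n.n2 + j + S.P + 1 < S.Q := by
      split_ifs at hlt <;> omega
    generalize hy : n.n2 + j + n.nT + S.h + 1 - S.Q = y
    have hx2 : ∃ x, (if S.Q = y then S.Q + 1 else S.Q) = x ∧ x ≠ y ∧ S.Q ≤ x ∧ x ≤ S.Q + 1 := by
      refine ⟨_, rfl, ?_, ?_, ?_⟩ <;> split_ifs <;> omega
    obtain ⟨x, hxe, hxy, hx3, hx4⟩ := hx2
    rw [hxe]
    unfold layD
    rcases Nat.lt_or_gt_of_ne hxy with h | h
    · rw [min_eq_right h.le, max_eq_left h.le]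
      constructor
      · rfl
      · rfl
      · exact h
      · dsimp only
        rw [if_pos (by omega), if_pos (by omega)]
        omega
      · dsimp only
        omega
      · right
        dsimp only
        omega
      · right
        dsimp only
        omega
    · rw [min_eq_left h.le, max_eq_right h.le]
      constructor
      · rfl
      · rfl
      · exact h
      · dsimp only
        rw [if_pos (by omega), if_pos (by omega)]
        omega
      · dsimp only
        omega
      · left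
        dsimp only
        omega
      · left
        dsimp only
        omega
  · rw [if_neg hc]
    have hU1 : n.nT + j ≤ n.Ux := by omega
    unfold layS
    constructor
    · rfl
    · rfl
    · dsimp only
      omega
    · dsimp only
      rw [if_pos (by omega), if_neg (by omega)]
      omega
    · dsimp only
      omega
    · left
      dsimp only
      omega
    · left
      rfl

private theorem lam_ge (y1 y2 p : ℕ) : p ≤ lam y1 y2 p := by
  unfold lam
  omega

private theorem lam_le' {y1 y2 p q : ℕ} (h : p ≤ q) : lam y1 y2 p ≤ lam y1 y2 q := by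
  unfold lam
  split_ifs <;> omega

/-- the common description of the layers -/
private structure DD (S : Seam k ld al) (n : Num) (j : ℕ) (Λ : FLay) (A : ℕ → ℕ) : Prop where
  hj : Λ.j = j
  g : ∀ e, 1 ≤ e → e ≤ k → e % 2 = 1 → ¬ S.bad e →
    Λ.p e + A e + S.h + 1 = wz S n.up + S.rk e ∧ A e ≤ 2
  m : ∀ e f, 1 ≤ e → e ≤ k → e % 2 = 1 → ¬ S.bad e → 1 ≤ f → f ≤ k → f % 2 = 1 →
    ¬ S.bad f → S.rk e ≤ S.rk f → A f ≤ A e
  X1 : n.n2 + j + S.P + 1 ≤ Λ.X 1
  b : ∀ e, 1 ≤ e → e ≤ k → e % 2 = 1 → S.bad e →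
    Λ.p e = n.n2 + j + S.rk e + (if n.nT + S.h + 1 ≤ S.Q + S.rk e then 1 else 0)

private theorem pl_good (S : Seam k ld al) (n : Num) (L : Lay) (hk2 : L.k2 = false) {e : ℕ}
    (h1 : 1 ≤ e) (h2 : e ≤ k) (h3 : e % 2 = 1) (hb : ¬ S.bad e) :
    pl S n L e = lam L.y1 L.y2 (n.n2 + L.j + L.U + S.rk e) ∧ S.P + 1 ≤ S.rk e := by
  have hr := S.rk_og e h1 h2 h3 hb
  refine ⟨?_, hr.1⟩
  unfold pl lop
  rw [if_pos h3, hk2]
  simp only [Bool.false_eq_true, if_false]
  rw [if_neg (by omega)]

private theorem abv_mono (w : ℕ) (L : Lay) {x x' : ℕ} (h : x ≤ x') : abv w L x' ≤ abv w L x := by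
  unfold abv
  split_ifs <;> omega

private theorem abv_one (S : Seam k ld al) (n : Num) (j : ℕ) {L : Lay} (hL : LF1 S n j L) {e : ℕ}
    (h1 : 1 ≤ e) (h2 : e ≤ k) (h3 : e % 2 = 1) (hb : ¬ S.bad e) :
    abv (wz S n) L (pl S n L e) ≤ 1 := by
  obtain ⟨hp, hr⟩ := pl_good S n L hL.hk2 h1 h2 h3 hb
  have hge := lam_ge L.y1 L.y2 (n.n2 + L.j + L.U + S.rk e)
  rw [← hp] at hge
  have hU := hL.hU
  have hj := hL.hj
  have hQ := S.Qh
  have hPQ := S.PQ
  unfold abv
  rcases hL.yw with h | h
  · rw [if_neg (by omega)]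
    split_ifs <;> omega
  · rw [if_neg (show ¬ (pl S n L e < L.y2 ∧ L.y2 ≤ wz S n) by omega)]
    split_ifs <;> omega

private theorem pl_bad (S : Seam k ld al) (n : Num) (j : ℕ) {L : Lay} (hL : LF1 S n j L) {e : ℕ}
    (h1 : 1 ≤ e) (h2 : e ≤ k) (h3 : e % 2 = 1) (hb : S.bad e) :
    pl S n L e = n.n2 + j + S.rk e + (if n.nT + S.h + 1 ≤ S.Q + S.rk e then 1 else 0) ∧
      S.rk e ≤ S.P := by
  obtain ⟨hp, hr1, hr2⟩ := bad_pos S n L hL.hk2 h1 h2 h3 hb
  refine ⟨?_, hr2⟩
  rw [hp, hL.hj]
  have hQ := S.Qh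
  have h12 := hL.h12
  unfold lam
  rcases hL.ys with ⟨h, h'⟩ | ⟨h, h'⟩
  · rw [if_neg (show ¬ L.y2 ≤ n.n2 + j + S.rk e + 1 by omega), h]
    split_ifs <;> omega
  · rw [if_neg (show ¬ L.y2 ≤ n.n2 + j + S.rk e + 1 by omega),
      if_neg (show ¬ L.y1 ≤ n.n2 + j + S.rk e by omega)]
    split_ifs <;> omega

private theorem dd (S : Seam k ld al) (n : Num) (j : ℕ) (hm : S.mode = 1)
    (hA : Adm S n j) {Λ : FLay} (h : LayPG S n j Λ) : ∃ A, DD S n j Λ A := by
  cases h with
  | P =>
    have hL := lf1 S n.up j hm (adm_up hA)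
    refine ⟨fun e => abv (wz S n.up) (layOf S n.up j) (pl S n.up (layOf S n.up j) e), ?_⟩
    constructor
    · rfl
    · intro e h1 h2 h3 hb
      refine ⟨?_, ?_⟩
      · exact lab_P S n.up (layOf S n.up j) hL.hk2 hL.h12 hL.hw h1 h2 h3 hb
      · have := abv_one S n.up j hL h1 h2 h3 hb
        omega
    · intro e f h1 h2 h3 hb h1' h2' h3' hb' hr
      apply abv_mono
      rw [(pl_good S n.up _ hL.hk2 h1 h2 h3 hb).1, (pl_good S n.up _ hL.hk2 h1' h2' h3' hb').1]
      exact lam_le' (by omega)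
    · change _ ≤ Xl S n.up (layOf S n.up j) 1
      unfold Xl
      rw [hL.hk2, hL.hj]
      simp only [Bool.false_eq_true, if_false]
      exact lam_ge _ _ _
    · intro e h1 h2 h3 hb
      exact (pl_bad S n.up j hL h1 h2 h3 hb).1
  | G z hz =>
    have hL := lf1 S n j hm hA
    have hLu := lf1 S n.up j hm (adm_up hA)
    have hpre : preG S n j z = layOf S n j := by
      unfold preG topY
      rw [if_neg]
      rintro ⟨⟨_, h | h⟩, _⟩ <;> omega
    unfold funG
    rw [hpre]
    refine ⟨fun e => abv (wz S n) (layOf S n j) (pl S n (layOf S n j) e)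
      + (if (insG S n (layOf S n j) z).p e < z then 1 else 0), ?_⟩
    have hpe : ∀ e, e % 2 = 1 →
        (insG S n (layOf S n j) z).p e = sk z (pl S n (layOf S n j) e) := by
      intro e he
      change (if e % 2 = 1 then sk z (pl S n (layOf S n j) e) else pl S n (layOf S n j) e + 1) = _
      rw [if_pos he]
    constructor
    · exact hL.hj
    · intro e h1 h2 h3 hb
      refine ⟨?_, ?_⟩
      · have := lab_G S n (layOf S n j) z hL.hk2 hL.h12 hL.hw h1 h2 h3 hb
        omega
      · have := abv_one S n j hL h1 h2 h3 hb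
        split_ifs <;> omega
    · intro e f h1 h2 h3 hb h1' h2' h3' hb' hr
      have hpl : pl S n (layOf S n j) e ≤ pl S n (layOf S n j) f := by
        rw [(pl_good S n _ hL.hk2 h1 h2 h3 hb).1, (pl_good S n _ hL.hk2 h1' h2' h3' hb').1]
        exact lam_le' (by omega)
      have ha := abv_mono (wz S n) (layOf S n j) hpl
      have hs : sk z (pl S n (layOf S n j) e) ≤ sk z (pl S n (layOf S n j) f) :=
        (sk_mono z).monotone hpl
      rw [hpe e h3, hpe f h3']
      split_ifs <;> omega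
    · change _ ≤ sk z (Xl S n (layOf S n j) 1)
      refine le_trans ?_ (le_sk _ _)
      unfold Xl
      rw [hL.hk2, hL.hj]
      simp only [Bool.false_eq_true, if_false]
      exact lam_ge _ _ _
    · intro e h1 h2 h3 hb
      rw [hpe e h3]
      obtain ⟨hp, hr⟩ := pl_bad S n j hL h1 h2 h3 hb
      have hzz := hz.gt
      have hU1 : 1 ≤ (layOf S n.up j).U := by
        have := hLu.hw
        have hw2 : wz S n.up = n.n2 + (n.Ux + 1) + S.h + 2 := by
          unfold wz
          have hsp := hA.sp14 (by omega) (by omega)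
          change n.n2 + (n.Ux + 1) + S.h + 1 + (if n.sp = 0 then 0 else 1) = _
          rw [if_neg (by omega)]
        have hj := hLu.hj
        have hjU := hA.jU
        have e1 : n.up.n2 = n.n2 := rfl
        split_ifs at this with g1 g2 g3
        · by_cases h2 : 2 ≤ n.sp
          · rw [if_pos h2] at hjU
            omega
          · -- sp = 1: no second inserted label
            exfalso
            have hL1 : layOf S n.up j = lay1 S n.up j := by
              unfold layOf
              have hsp := hA.sp14 (by omega) (by omega)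
              rw [if_neg (show ¬ n.up.sp = 0 by change ¬ n.sp = 0; omega), if_pos hm]
            rw [hL1] at g2
            unfold lay1 at g2
            rw [if_neg (by
              rintro ⟨h, _⟩
              change n.sp = 3 at h
              omega)] at g2
            change wz S n.up + 2 ≤ wz S n.up at g2
            omega
        · omega
        · omega
        · omega
      have hz2 : n.n2 + j + S.P + 1 ≤ Xl S n.up (layOf S n.up j) (layOf S n.up j).U := by
        unfold Xl
        rw [hLu.hk2, hLu.hj]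
        simp only [Bool.false_eq_true, if_false]
        refine le_trans ?_ (lam_ge _ _ _)
        change _ ≤ n.n2 + j + S.P + (layOf S n.up j).U - 0
        omega
      rw [sk_of_lt, hp]
      rw [hp]
      split_ifs <;> omega

theorem fs_1 (S : Seam k ld al) (n : Num) (j : ℕ) (hm : S.mode = 1) (hP : 2 ≤ S.P)
    (h2 : S.P = 2 → ∀ i, ld i → ¬ al i → ¬ S.bad (oe i))
    (hA : Adm S n (j + 1)) {Λ Λ' : FLay} (h : LayPG S n j Λ) (h' : LayPG S n (j + 1) Λ') :
    FStep S n Λ Λ' := by
  obtain ⟨A, hD⟩ := dd S n j hm (adm_pred hA) h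
  obtain ⟨A', hD'⟩ := dd S n (j + 1) hm hA h'
  have hoe : ∀ i, ld i → 1 ≤ oe i ∧ oe i ≤ k ∧ oe i % 2 = 1 := by
    intro i hi
    have h1 := S.ld_pos i hi
    have h2 := S.ld_lt i hi
    have h3 := S.hk
    unfold oe
    split_ifs <;> omega
  apply fstep_of S n h h'
  constructor
  · intro i a hi hni ha haq hba
    have hla := S.al_ld a ha
    obtain ⟨a1, a2, a3⟩ := hoe a hla
    obtain ⟨i1, i2, i3⟩ := hoe i hi
    obtain ⟨ga, ga2⟩ := hD.g (oe a) a1 a2 a3 hba
    obtain ⟨ga', ga2'⟩ := hD'.g (oe a) a1 a2 a3 hba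
    have hX := hD.X1
    rw [hD.hj]
    by_cases hbi : S.bad (oe i)
    · have b1 := hD.b (oe i) i1 i2 i3 hbi
      have b2 := hD'.b (oe i) i1 i2 i3 hbi
      have hP3 : S.P ≠ 2 := fun h => h2 h i hi hni hbi
      omega
    · obtain ⟨gi, gi2⟩ := hD.g (oe i) i1 i2 i3 hbi
      obtain ⟨gi', gi2'⟩ := hD'.g (oe i) i1 i2 i3 hbi
      rcases le_total (S.rk (oe i)) (S.rk (oe a)) with hr | hr
      · have := hD.m (oe i) (oe a) i1 i2 i3 hbi a1 a2 a3 hba hr
        have := hD'.m (oe i) (oe a) i1 i2 i3 hbi a1 a2 a3 hba hr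
        omega
      · have := hD.m (oe a) (oe i) a1 a2 a3 hba i1 i2 i3 hbi hr
        have := hD'.m (oe a) (oe i) a1 a2 a3 hba i1 i2 i3 hbi hr
        omega
  · intro a ha haq hba
    have hla := S.al_ld a ha
    obtain ⟨a1, a2, a3⟩ := hoe a hla
    obtain ⟨ga, ga2⟩ := hD.g (oe a) a1 a2 a3 hba
    obtain ⟨ga', ga2'⟩ := hD'.g (oe a) a1 a2 a3 hba
    have hX := hD.X1
    rw [hD.hj]
    omega

end Pool.Agent.Lob5
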