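import Pool.Agent.Lob5.HoleSt0

/-!
# Consecutive layers: mode 2

Only the odd edges matter (`fstep_of`). `K := w-h-1` with `w = wz S n.up`; for a good odd edge of rank `r`
with the label `o` one has `o + A = K + r` where `A` is the number of inserted labels (`y`, `xs` if they
are inserted, and `z` in the layers `funG`) above `o` (`lab_P`, `lab_G`; `sk_lt`). `Λ` belongs to `j`, `Λ'` to
`j+1`; for a good edge `o - o' = A' - A`.
The inserted label `y` has the final value `w+1-P` or `w-P` in all layers (`w = wz S n.up`); in `funP` it is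
`w+1-P` iff `n2+j+P < w+1-P`, in `funG` iff `n2+j+P < w-P` (see `HoleG2`); the other inserted label is `z`.
So `A, A' ≤ 2`, and `y' ≤ y`, `y' = y` or `y' = y-1 ≤ n2+j+P` (then `y'` is below all good labels).
* `st2`: `A' ≤ 2 ≤ P`.
* `st1`, `i` good: `≤ 2` as in the mode 1 (number of inserted labels between the two labels).
* `st1`, `i` bad: `p = n2+j+r+[y ≤ n2+j+r]`, so `p' - p ∈ {1, 2}`. If it is 2 then `y' ≤ n2+j+1+r ≤ n2+j+1+P`, so
  `y'` is below all good labels, `A' ≤ 1`, and the total is `≤ 3`. If it is 1 the total is `≤ 1+2`.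
-/

namespace Pool.Agent.Lob5

variable {k : ℕ} {ld al : ℕ → Prop}

/-- the layer `layS` with the reserved label `z` inserted (`z = 0` for the layers `funP`) -/
private def gg (Y' B z r : ℕ) : ℕ :=
  (B + r + (if Y' ≤ B + r then 1 else 0)) +
    (if z ≤ B + r + (if Y' ≤ B + r then 1 else 0) then 1 else 0)

private theorem gg_rng (Y' B z r : ℕ) : B + r ≤ gg Y' B z r ∧ gg Y' B z r ≤ B + r + 2 ∧
    (Y' ≤ B + r → B + r + 1 ≤ gg Y' B z r) := by
  unfold gg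
  split_ifs <;> omega

private theorem gg_mono (Y' B z r s : ℕ) (h : r ≤ s) :
    gg Y' B z r + s ≤ gg Y' B z s + r ∧ gg Y' B z s + r ≤ gg Y' B z r + s + 2 := by
  unfold gg
  split_ifs <;> omega

private theorem s2_oe {i : ℕ} (h1 : 1 ≤ i) (h2 : i < k) : 1 ≤ oe i ∧ oe i ≤ k := by
  unfold oe
  split_ifs <;> omega

private structure Fc (S : Seam k ld al) (n : Num) (j : ℕ) (Λ : FLay) (Y : ℕ) (g : ℕ → ℕ) :
    Prop where
  hj : Λ.j = j
  X1 : n.n2 + j + S.P + 1 ≤ Λ.X 1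
  bd : ∀ e, 1 ≤ e → e ≤ k → e % 2 = 1 → S.bad e →
    Λ.p e = n.n2 + j + S.rk e + (if Y ≤ n.n2 + j + S.rk e then 1 else 0)
  gd : ∀ e, 1 ≤ e → e ≤ k → e % 2 = 1 → ¬ S.bad e → Λ.p e = g (S.rk e)
  rng : ∀ r, S.P + 1 ≤ r → r ≤ S.h + 1 → n.n2 + n.Ux + r ≤ g r ∧ g r ≤ n.n2 + n.Ux + r + 2 ∧
    (Y ≤ n.n2 + j + S.P → n.n2 + n.Ux + r + 1 ≤ g r)
  mono : ∀ r s, S.P + 1 ≤ r → r ≤ s → s ≤ S.h + 1 →
    g r + s ≤ g s + r ∧ g s + r ≤ g r + s + 2

private theorem wzup (S : Seam k ld al) (n : Num) (hsp : n.sp ≠ 0) :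
    wz S n = n.n2 + n.Ux + S.h + 2 ∧ wz S n.up = n.n2 + n.Ux + S.h + 3 := by
  have h := wz_up S n
  have h2 : wz S n = n.n2 + n.Ux + S.h + 2 := by
    unfold wz
    rw [if_neg hsp]
  omega

private theorem lay_eq (S : Seam k ld al) (n : Num) (j : ℕ) (hm : S.mode = 2) (hsp : n.sp ≠ 0) :
    layOf S n j = layS S n j
      (if n.n2 + j + S.P < wz S n + 1 - S.P then wz S n + 1 - S.P else wz S n - S.P) := by
  unfold layOf
  rw [if_neg hsp, if_neg (by omega), if_pos hm]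
  rfl

private theorem fcP (S : Seam k ld al) (n : Num) (j : ℕ) (hm : S.mode = 2) (hsp : n.sp ≠ 0)
    (hj : j ≤ n.Ux) : ∃ Y g, Fc S n j (funP S n j) Y g := by
  obtain ⟨hw1, hw⟩ := wzup S n hsp
  have hP1 := S.P1
  have hPh := S.Ph
  have hL := lay_eq S n.up j hm hsp
  set Y := (if n.up.n2 + j + S.P < wz S n.up + 1 - S.P then wz S n.up + 1 - S.P
    else wz S n.up - S.P) with hY
  have hY1 : 1 ≤ Y ∧ Y ≤ wz S n.up := by
    rw [hY]; split_ifs <;> omega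
  have hp : ∀ e, e % 2 = 1 → (funP S n j).p e =
      lam Y (wz S n.up + 2) (if S.rk e ≤ S.P then n.n2 + j + S.rk e
        else n.n2 + j + (n.Ux + 1 - j) + S.rk e) := by
    intro e he
    change pl S n.up (layOf S n.up j) e = _
    rw [hL]
    unfold pl
    rw [if_pos he]
    rfl
  refine ⟨Y, gg (Y - 1) (n.n2 + n.Ux) 0, ⟨rfl, ?_, ?_, ?_, ?_, ?_⟩⟩
  · change _ ≤ Xl S n.up (layOf S n.up j) 1
    rw [hL]
    change _ ≤ lam Y (wz S n.up + 2) (n.n2 + j + S.P + 1 - 0)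
    unfold lam
    omega
  · intro e h1 h2 h3 h4
    have h5 := S.rk_ob e h1 h2 h3 h4
    rw [hp e h3, if_pos h5.2]
    unfold lam
    rw [if_neg (by omega : ¬ wz S n.up + 2 ≤ n.n2 + j + S.rk e + 1)]
    rfl
  · intro e h1 h2 h3 h4
    have h5 := S.rk_og e h1 h2 h3 h4
    rw [hp e h3, if_neg (by omega)]
    unfold lam gg
    rw [if_neg (by omega : ¬ wz S n.up + 2 ≤ n.n2 + j + (n.Ux + 1 - j) + S.rk e + 1)]
    split_ifs <;> omega
  · intro r h1 h2
    have h3 := gg_rng (Y - 1) (n.n2 + n.Ux) 0 r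
    refine ⟨h3.1, h3.2.1, fun h4 => h3.2.2 (by omega)⟩
  · intro r s _ h2 _
    exact gg_mono _ _ _ r s h2

private theorem fcG (S : Seam k ld al) (n : Num) (j z : ℕ) (hm : S.mode = 2) (hsp : n.sp ≠ 0)
    (hj : j ≤ n.Ux) (hz : ZG S n j z) : ∃ Y g, Fc S n j (funG S n j z) Y g := by
  obtain ⟨hw1, hw⟩ := wzup S n hsp
  have hP1 := S.P1
  have hPh := S.Ph
  have hL := lay_eq S n j hm hsp
  have hLu := lay_eq S n.up j hm hsp
  set y0 := (if n.n2 + j + S.P < wz S n + 1 - S.P then wz S n + 1 - S.P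
    else wz S n - S.P) with hY
  have hY1 : 1 ≤ y0 ∧ y0 ≤ wz S n := by
    rw [hY]; split_ifs <;> omega
  have htop : topY S n := ⟨hsp, Or.inl hm⟩
  have hyv : (layOf S n j).y = y0 := by rw [hL]; rfl
  have hny := hz.ny htop
  rw [hyv] at hny
  have hgt := hz.gt
  have hgt' : n.n2 + n.Ux + 1 + S.P < z := by
    refine lt_of_le_of_lt ?_ hgt
    rw [hLu]
    change _ ≤ lam _ (wz S n.up + 2) (n.n2 + j + S.P + (n.Ux + 1 - j) - 0)
    unfold lam
    omega
  -- the layout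
  have hpre : ∃ Y', preG S n j z = layS S n j Y' ∧ ((Y' = y0 + 1 ∧ y0 + 1 < z) ∨
      (Y' = y0 ∧ z ≤ y0)) := by
    unfold preG
    rw [hyv]
    by_cases h : y0 + 1 < z
    · rw [if_pos ⟨htop, h⟩]
      exact ⟨_, rfl, Or.inl ⟨rfl, h⟩⟩
    · rw [if_neg (fun h' => h h'.2)]
      exact ⟨_, hL, Or.inr ⟨rfl, by omega⟩⟩
  obtain ⟨Y', hpre, hYc⟩ := hpre
  have hp : ∀ e, e % 2 = 1 → (funG S n j z).p e =
      sk z (lam Y' (wz S n + 2) (if S.rk e ≤ S.P then n.n2 + j + S.rk e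
        else n.n2 + j + (n.Ux - j) + S.rk e)) := by
    intro e he
    unfold funG insG
    rw [hpre]
    dsimp only
    rw [if_pos he]
    unfold pl
    rw [if_pos he]
    rfl
  refine ⟨y0 + 1, gg Y' (n.n2 + n.Ux) z, ⟨preG_j S n j z, ?_, ?_, ?_, ?_, ?_⟩⟩
  · unfold funG insG
    rw [hpre]
    change _ ≤ sk z (lam Y' (wz S n + 2) (n.n2 + j + S.P + 1 - 0))
    refine le_trans ?_ (le_sk _ _)
    unfold lam
    omega
  · intro e h1 h2 h3 h4
    have h5 := S.rk_ob e h1 h2 h3 h4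
    rw [hp e h3, if_pos h5.2]
    unfold lam
    rw [if_neg (by omega : ¬ wz S n + 2 ≤ n.n2 + j + S.rk e + 1), sk_of_lt (by
      split_ifs <;> omega)]
    rcases hYc with ⟨h6, h7⟩ | ⟨h6, h7⟩
    · rw [h6]
      rfl
    · rw [if_neg (by omega), if_neg (by omega)]
  · intro e h1 h2 h3 h4
    have h5 := S.rk_og e h1 h2 h3 h4
    rw [hp e h3, if_neg (by omega)]
    have h6 : n.n2 + j + (n.Ux - j) + S.rk e = n.n2 + n.Ux + S.rk e := by omega
    rw [h6]
    unfold lam gg sk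
    rw [if_neg (by omega : ¬ wz S n + 2 ≤ n.n2 + n.Ux + S.rk e + 1)]
    split_ifs <;> omega
  · intro r h1 h2
    have h3 := gg_rng Y' (n.n2 + n.Ux) z r
    refine ⟨h3.1, h3.2.1, fun h4 => h3.2.2 (by omega)⟩
  · intro r s _ h2 _
    exact gg_mono _ _ _ r s h2

private theorem fc (S : Seam k ld al) (n : Num) (j : ℕ) (hm : S.mode = 2) (hsp : n.sp ≠ 0)
    (hj : j ≤ n.Ux) {Λ : FLay} (h : LayPG S n j Λ) : ∃ Y g, Fc S n j Λ Y g := by
  cases h with
  | P => exact fcP S n j hm hsp hj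
  | G z h => exact fcG S n j z hm hsp hj h

theorem fs_2 (S : Seam k ld al) (n : Num) (j : ℕ) (hm : S.mode = 2) (hP : 3 ≤ S.P)
    (hA : Adm S n (j + 1)) {Λ Λ' : FLay} (h : LayPG S n j Λ) (h' : LayPG S n (j + 1) Λ') :
    FStep S n Λ Λ' := by
  have hsp : n.sp ≠ 0 := by
    have := hA.sp14 (by omega) (by omega)
    omega
  have hjU := hA.jU
  obtain ⟨Y, g, F⟩ := fc S n j hm hsp (by omega) h
  obtain ⟨Y', g', F'⟩ := fc S n (j + 1) hm hsp (by omega) h'
  refine fstep_of S n h h' ⟨?_, ?_⟩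
  · intro i a hi hni ha haq hab
    have hal := S.al_ld a ha
    have ha1 := s2_oe (S.ld_pos a hal) (S.ld_lt a hal)
    have hi1 := s2_oe (S.ld_pos i hi) (S.ld_lt i hi)
    have hra := S.rk_og (oe a) ha1.1 ha1.2 oe_odd hab
    rw [F.gd (oe a) ha1.1 ha1.2 oe_odd hab, F'.gd (oe a) ha1.1 ha1.2 oe_odd hab, F.hj]
    have hX := F.X1
    have r1 := F.rng _ hra.1 hra.2
    have r2 := F'.rng _ hra.1 hra.2
    by_cases hib : S.bad (oe i)
    · have hri := S.rk_ob (oe i) hi1.1 hi1.2 oe_odd hib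
      rw [F.bd (oe i) hi1.1 hi1.2 oe_odd hib, F'.bd (oe i) hi1.1 hi1.2 oe_odd hib]
      split_ifs <;> omega
    · have hri := S.rk_og (oe i) hi1.1 hi1.2 oe_odd hib
      rw [F.gd (oe i) hi1.1 hi1.2 oe_odd hib, F'.gd (oe i) hi1.1 hi1.2 oe_odd hib]
      rcases le_total (S.rk (oe i)) (S.rk (oe a)) with hle | hle
      · have m1 := F.mono _ _ hri.1 hle hra.2
        have m2 := F'.mono _ _ hri.1 hle hra.2
        omega
      · have m1 := F.mono _ _ hra.1 hle hri.2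
        have m2 := F'.mono _ _ hra.1 hle hri.2
        omega
  · intro a ha haq hab
    have hal := S.al_ld a ha
    have ha1 := s2_oe (S.ld_pos a hal) (S.ld_lt a hal)
    have hra := S.rk_og (oe a) ha1.1 ha1.2 oe_odd hab
    rw [F.gd (oe a) ha1.1 ha1.2 oe_odd hab, F'.gd (oe a) ha1.1 ha1.2 oe_odd hab, F.hj]
    have hX := F.X1
    have r1 := F.rng _ hra.1 hra.2
    have r2 := F'.rng _ hra.1 hra.2
    omega

end Pool.Agent.Lob5
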