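import Pool.Agent.Lob5.HoleSt0

/-!
# Consecutive layers: mode 3

Only the odd edges matter (`fstep_of`). `k2 = true`, `y = n2+j+1` is below everything;
`xs = nT+h` (if
`sp = 3` and `n2+j+P+1 < nT+h`) is above the bad zone. Put `s = n2+Ux+r`. Good odd edges of rank `r`
have the label `l` or `l+1` (`l+1` iff `z ≤ l`), where `l = s` or `l = s-1` (`s-1` iff `xs` is
inserted in the layout for `n` and `s ≤ nT+h`); in `funP` this holds with `l = s` and `z = nT+h` or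
`z = 0` (`lab_St3`). The edge `q+1` (rank `P`) has the label `w` or `w-1`. The other bad odd edges:
`n2+j+r+1`, so `p' = p+1`. `X 1 ≥ n2+j+P+1`. The two differences are at most `3` in sum because the
difference `2` for `i` forces `s i ≤ nT+h` and for `a` it would force `s a > nT+h` and `s a ≤ nT+h`.
-/

namespace Pool.Agent.Lob5

variable {k : ℕ} {ld al : ℕ → Prop}

private theorem lay_St3 (S : Seam k ld al) (n : Num) (j : ℕ) (hs : n.sp ≠ 0) (hm : S.mode = 3) :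
    layOf S n j = lay3 S n j := by
  unfold layOf
  rw [if_neg hs, if_neg (by omega), if_neg (by omega), if_pos hm]

private theorem pre_St3 (S : Seam k ld al) (n : Num) (j z : ℕ) (hs : n.sp ≠ 0)
    (hm : S.mode = 3) : preG S n j z = lay3 S n j := by
  unfold preG
  rw [if_neg, lay_St3 S n j hs hm]
  rintro ⟨⟨-, h | h⟩, -⟩ <;> omega

/-- the two kinds of layouts -/
private theorem kind_St3 (S : Seam k ld al) (n : Num) (j : ℕ) :
    (lay3 S n j).k2 = true ∧ (lay3 S n j).j = j ∧ (lay3 S n j).y1 = n.n2 + j + 1 ∧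
      ((n.sp = 3 ∧ n.n2 + j + S.P + 1 < n.nT + S.h ∧ (lay3 S n j).y2 = n.nT + S.h ∧
          (lay3 S n j).U = n.Ux - 1 - j) ∨
        ((lay3 S n j).y2 = wz S n + 2 ∧ (lay3 S n j).U = n.Ux - j)) := by
  unfold lay3
  split_ifs with h
  · exact ⟨rfl, rfl, rfl, Or.inl ⟨h.1, h.2, rfl, rfl⟩⟩
  · exact ⟨rfl, rfl, rfl, Or.inr ⟨rfl, rfl⟩⟩

private theorem lam_St3 (y1 y2 i : ℕ) (h : y1 ≤ i) :
    (y2 ≤ i + 1 ∧ lam y1 y2 i = i + 2) ∨ (i + 1 < y2 ∧ lam y1 y2 i = i + 1) := by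
  unfold lam
  rw [if_pos h]
  split_ifs <;> omega

/-- the path labels of a layout `lay3` with the numbers `n`, `U + j + [xs] = Ux` -/
private theorem pl_St3 (S : Seam k ld al) (n : Num) (j : ℕ) (hm : S.mode = 3) (hP : 3 ≤ S.P)
    (hs : n.sp ≠ 0) (hjU : n.nT + j ≤ n.Ux ∧ (n.sp = 3 → n.nT + j + 1 ≤ n.Ux)) :
    (Xl S n (lay3 S n j) 1 = n.n2 + j + S.P + 1 ∧
      n.n2 + j + S.P ≤ Xl S n (lay3 S n j) (lay3 S n j).U) ∧
    (∀ e, 1 ≤ e → e ≤ k → e % 2 = 1 → S.bad e → e ≠ S.q + 1 →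
      S.rk e < S.P ∧ pl S n (lay3 S n j) e = n.n2 + j + S.rk e + 1) ∧
    pl S n (lay3 S n j) (S.q + 1) = wz S n ∧
    ((n.sp = 3 ∧ ∀ e, 1 ≤ e → e ≤ k → e % 2 = 1 → ¬ S.bad e →
        ((n.nT + S.h + 1 ≤ n.n2 + n.Ux + S.rk e ∧
            pl S n (lay3 S n j) e = n.n2 + n.Ux + S.rk e) ∨
          (n.n2 + n.Ux + S.rk e ≤ n.nT + S.h ∧
            pl S n (lay3 S n j) e + 1 = n.n2 + n.Ux + S.rk e))) ∨
      ∀ e, 1 ≤ e → e ≤ k → e % 2 = 1 → ¬ S.bad e →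
        pl S n (lay3 S n j) e = n.n2 + n.Ux + S.rk e) := by
  have hw : wz S n = n.n2 + n.Ux + S.h + 2 := by
    unfold wz
    rw [if_neg hs]
  have hPh := S.Ph
  obtain ⟨-, -, hq2, -, hq1rk⟩ := S.m2 (Or.inr hm)
  obtain ⟨hq1k, -, -, -⟩ := S.m3 hm
  obtain ⟨k2, hj, y1, hk⟩ := kind_St3 S n j
  have hpl : ∀ e, e % 2 = 1 → pl S n (lay3 S n j) e =
      lam (n.n2 + j + 1) (lay3 S n j).y2 (lop S n (lay3 S n j) (S.rk e)) := by
    intro e he
    unfold pl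
    rw [if_pos he, y1]
  have hX : ∀ i, Xl S n (lay3 S n j) i =
      lam (n.n2 + j + 1) (lay3 S n j).y2 (n.n2 + j + S.P + i - 1) := by
    intro i
    unfold Xl
    rw [y1, hj, k2]
    rfl
  have hlop : ∀ r, lop S n (lay3 S n j) r = if r < S.P then n.n2 + j + r
      else if r = S.P then n.n2 + j + (lay3 S n j).U + S.h + 1
      else n.n2 + j + (lay3 S n j).U + r - 1 := by
    intro r
    unfold lop
    rw [k2, hj]
    rfl
  refine ⟨⟨?_, ?_⟩, ?_, ?_, ?_⟩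
  · rw [hX]
    have h1 := lam_St3 (n.n2 + j + 1) (lay3 S n j).y2 (n.n2 + j + S.P + 1 - 1) (by omega)
    omega
  · rw [hX]
    have h1 := lam_St3 (n.n2 + j + 1) (lay3 S n j).y2
      (n.n2 + j + S.P + (lay3 S n j).U - 1) (by omega)
    omega
  · intro e h1 h2 h3 hb hq
    obtain ⟨r1, r2⟩ := S.rk_ob e h1 h2 h3 hb
    have r3 : S.rk e ≠ S.P := by
      intro h
      apply hq
      exact S.rk_inj e (S.q + 1) h1 h2 (by omega) (by omega) (by omega) (by rw [h, hq1rk])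
    refine ⟨by omega, ?_⟩
    rw [hpl e h3, hlop, if_pos (by omega)]
    have h4 := lam_St3 (n.n2 + j + 1) (lay3 S n j).y2 (n.n2 + j + S.rk e) (by omega)
    omega
  · rw [hpl (S.q + 1) (by omega), hlop, hq1rk, if_neg (by omega), if_pos rfl]
    have h4 := lam_St3 (n.n2 + j + 1) (lay3 S n j).y2
      (n.n2 + j + (lay3 S n j).U + S.h + 1) (by omega)
    omega
  · rcases hk with ⟨hs3, c1, c2, c3⟩ | ⟨c2, c3⟩
    · left
      refine ⟨hs3, fun e h1 h2 h3 hb => ?_⟩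
      obtain ⟨r1, r2⟩ := S.rk_og e h1 h2 h3 hb
      rw [hpl e h3, hlop, if_neg (by omega), if_neg (by omega)]
      have h4 := lam_St3 (n.n2 + j + 1) (lay3 S n j).y2
        (n.n2 + j + (lay3 S n j).U + S.rk e - 1) (by omega)
      omega
    · right
      intro e h1 h2 h3 hb
      obtain ⟨r1, r2⟩ := S.rk_og e h1 h2 h3 hb
      rw [hpl e h3, hlop, if_neg (by omega), if_neg (by omega)]
      have h4 := lam_St3 (n.n2 + j + 1) (lay3 S n j).y2
        (n.n2 + j + (lay3 S n j).U + S.rk e - 1) (by omega)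
      omega

private theorem sk_St3 (z x : ℕ) : (z ≤ x ∧ sk z x = x + 1) ∨ (x < z ∧ sk z x = x) := by
  unfold sk
  split_ifs <;> omega

/-- the labels of the layers -/
private theorem lab_St3 (S : Seam k ld al) (n : Num) (j : ℕ) (hm : S.mode = 3) (hP : 3 ≤ S.P)
    (hA : Adm S n j) {Λ : FLay} (h : LayPG S n j Λ) :
    n.n2 + Λ.j + S.P + 1 ≤ Λ.X 1 ∧
    (∀ e, 1 ≤ e → e ≤ k → e % 2 = 1 → S.bad e → e ≠ S.q + 1 →
      Λ.p e = n.n2 + j + S.rk e + 1) ∧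
    (wz S n ≤ Λ.p (S.q + 1) ∧ Λ.p (S.q + 1) ≤ wz S n + 1) ∧
    ∃ T z, (T = 0 ∨ T = n.nT + S.h) ∧ ∀ e, 1 ≤ e → e ≤ k → e % 2 = 1 → ¬ S.bad e →
      ∃ l, ((T + 1 ≤ n.n2 + n.Ux + S.rk e ∧ l = n.n2 + n.Ux + S.rk e) ∨
          (n.n2 + n.Ux + S.rk e ≤ T ∧ l + 1 = n.n2 + n.Ux + S.rk e)) ∧
        ((z ≤ l ∧ Λ.p e = l + 1) ∨ (l < z ∧ Λ.p e = l)) := by
  have hsp := hA.sp14 (by omega) (by omega)
  have hs : n.sp ≠ 0 := by omega
  have hjU := hA.jU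
  have hjU' : n.nT + j ≤ n.Ux ∧ (n.sp = 3 → n.nT + j + 1 ≤ n.Ux) := by
    split_ifs at hjU <;> constructor <;> intros <;> omega
  have hq := (S.m2 (Or.inr hm)).2.2.1
  have hwu := wz_up S n
  obtain ⟨⟨X1, XU⟩, b1, t1, g1⟩ := pl_St3 S n.up j hm hP hs
    ⟨show n.nT + j ≤ n.Ux + 1 by omega, fun h3 => show n.nT + j + 1 ≤ n.Ux + 1 by omega⟩
  have hup : n.up.n2 = n.n2 ∧ n.up.nT = n.nT ∧ n.up.Ux = n.Ux + 1 := ⟨rfl, rfl, rfl⟩
  obtain ⟨u1, u2, u3⟩ := hup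
  rw [u1] at X1 XU b1 g1
  rw [u2, u3] at g1
  cases h with
  | P =>
    have e0 : layOf S n.up j = lay3 S n.up j := lay_St3 S n.up j hs hm
    have ep : (funP S n j).p = pl S n.up (lay3 S n.up j) := by
      unfold funP
      rw [e0]
    have eX : (funP S n j).X = Xl S n.up (lay3 S n.up j) := by
      unfold funP
      rw [e0]
    have ej : (funP S n j).j = j := rfl
    rw [ep, eX, ej]
    refine ⟨X1.ge, fun e h1 h2 h3 hb hne => (b1 e h1 h2 h3 hb hne).2, ⟨by omega, by omega⟩, ?_⟩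
    rcases g1 with ⟨-, g⟩ | g
    · refine ⟨0, n.nT + S.h, Or.inl rfl, fun e h1 h2 h3 hb => ?_⟩
      obtain ⟨r1, r2⟩ := S.rk_og e h1 h2 h3 hb
      refine ⟨n.n2 + n.Ux + S.rk e, Or.inl ⟨by omega, rfl⟩, ?_⟩
      have := g e h1 h2 h3 hb
      omega
    · refine ⟨0, 0, Or.inl rfl, fun e h1 h2 h3 hb => ?_⟩
      obtain ⟨r1, r2⟩ := S.rk_og e h1 h2 h3 hb
      refine ⟨n.n2 + n.Ux + S.rk e, Or.inl ⟨by omega, rfl⟩, ?_⟩
      have := g e h1 h2 h3 hb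
      omega
  | G z hz =>
    obtain ⟨⟨Y1, YU⟩, b2, t2, g2⟩ := pl_St3 S n j hm hP hs hjU'
    have hzgt := hz.gt
    rw [lay_St3 S n.up j hs hm] at hzgt
    have hzle := hz.le
    have e0 : preG S n j z = lay3 S n j := pre_St3 S n j z hs hm
    have ep : ∀ e, e % 2 = 1 → (funG S n j z).p e = sk z (pl S n (lay3 S n j) e) := by
      intro e he
      unfold funG insG
      rw [e0]
      exact if_pos he
    have eX : ∀ i, (funG S n j z).X i = sk z (Xl S n (lay3 S n j) i) := by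
      intro i
      unfold funG insG
      rw [e0]
    have ej : (funG S n j z).j = j := by
      unfold funG insG
      rw [e0]
      exact (kind_St3 S n j).2.1
    rw [eX, ej]
    refine ⟨?_, ?_, ?_, ?_⟩
    · rw [Y1]
      exact le_sk _ _
    · intro e h1 h2 h3 hb hne
      obtain ⟨c1, c2⟩ := b2 e h1 h2 h3 hb hne
      rw [ep e h3, c2]
      exact sk_of_lt (by omega)
    · rw [ep (S.q + 1) (by omega), t2]
      exact ⟨le_sk _ _, sk_le _ _⟩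
    · rcases g2 with ⟨-, g⟩ | g
      · refine ⟨n.nT + S.h, z, Or.inr rfl, fun e h1 h2 h3 hb => ?_⟩
        refine ⟨pl S n (lay3 S n j) e, g e h1 h2 h3 hb, ?_⟩
        rw [ep e h3]
        exact sk_St3 z _
      · refine ⟨0, z, Or.inl rfl, fun e h1 h2 h3 hb => ?_⟩
        obtain ⟨r1, r2⟩ := S.rk_og e h1 h2 h3 hb
        refine ⟨pl S n (lay3 S n j) e, Or.inl ⟨by omega, g e h1 h2 h3 hb⟩, ?_⟩
        rw [ep e h3]
        exact sk_St3 z _

private theorem oe_St3 {i : ℕ} (h1 : 1 ≤ i) (h2 : i < k) (hk : k % 2 = 1) :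
    1 ≤ oe i ∧ oe i ≤ k ∧ oe i % 2 = 1 := by
  unfold oe
  split_ifs <;> omega

theorem fs_3 (S : Seam k ld al) (n : Num) (j : ℕ) (hm : S.mode = 3) (hP : 3 ≤ S.P)
    (hA : Adm S n (j + 1)) {Λ Λ' : FLay} (h : LayPG S n j Λ) (h' : LayPG S n (j + 1) Λ') :
    FStep S n Λ Λ' := by
  obtain ⟨hX, hb, hq, T, z, hT, hg⟩ := lab_St3 S n j hm hP (adm_pred hA) h
  obtain ⟨-, hb', hq', T', z', hT', hg'⟩ := lab_St3 S n (j + 1) hm hP hA h'
  have hk : k % 2 = 1 := by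
    have := S.hk
    omega
  refine fstep_of S n h h' ⟨?_, ?_⟩
  · intro i a hi hia ha haq hag
    have i1 := S.ld_pos i hi
    have i2 := S.ld_lt i hi
    have a1 := S.ld_pos a (S.al_ld a ha)
    have a2 := S.ld_lt a (S.al_ld a ha)
    obtain ⟨oi1, oi2, oi3⟩ := oe_St3 i1 i2 hk
    obtain ⟨oa1, oa2, oa3⟩ := oe_St3 a1 a2 hk
    obtain ⟨l, h1, h2⟩ := hg (oe a) oa1 oa2 oa3 hag
    obtain ⟨l', h1', h2'⟩ := hg' (oe a) oa1 oa2 oa3 hag
    obtain ⟨ra1, ra2⟩ := S.rk_og (oe a) oa1 oa2 oa3 hag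
    by_cases hib : S.bad (oe i)
    · by_cases hiq : oe i = S.q + 1
      · rw [hiq]
        omega
      · have h3 := hb (oe i) oi1 oi2 oi3 hib hiq
        have h3' := hb' (oe i) oi1 oi2 oi3 hib hiq
        omega
    · obtain ⟨m, h3, h4⟩ := hg (oe i) oi1 oi2 oi3 hib
      obtain ⟨m', h3', h4'⟩ := hg' (oe i) oi1 oi2 oi3 hib
      obtain ⟨ri1, ri2⟩ := S.rk_og (oe i) oi1 oi2 oi3 hib
      omega
  · intro a ha haq hag
    have a1 := S.ld_pos a (S.al_ld a ha)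
    have a2 := S.ld_lt a (S.al_ld a ha)
    obtain ⟨oa1, oa2, oa3⟩ := oe_St3 a1 a2 hk
    obtain ⟨l, h1, h2⟩ := hg (oe a) oa1 oa2 oa3 hag
    obtain ⟨l', h1', h2'⟩ := hg' (oe a) oa1 oa2 oa3 hag
    omega

end Pool.Agent.Lob5
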