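import Pool.Agent.Lob5.HoleSt0

/-!
# Consecutive layers: mode 4

Only the odd edges matter (`fstep_of`). `K := w-h-1` with `w = wz S n.up`; for a good odd edge
of rank `r` with the label `o` one has `o + A = K + r` where `A` is the number of inserted labels
(`y`, `xs` if they are inserted, and `z` in the layers `funG`) above `o` (`lab_P`, `lab_G`;
`sk_lt`). `Λ` belongs to `j`, `Λ'` to `j+1`; for a good edge `o - o' = A' - A`.
All inserted labels are above the bad zone and above `X 1` or irrelevant for it: bad odd edges: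
`p = n2+j+r`, `p' = p+1`, `X 1 ≥ n2+j+P+1`. Inserted: `y`, `z` (in `funG`), and `xs` if `xsf`. If
`xsf` holds for a layer of `j+1` then `n2+j+1+Q+2 ≤ h ≤ P+Q-1` (the first case of `lay4` has no
`xs`), so `P ≥ n2+j+4 ≥ 4`. If `xsf` holds for a layer of `j`: `P ≥ 3`.
* `st2`: `A' ≤ 2`, or `A' ≤ 3` and `P ≥ 4`. `st1`, `i` bad: `1 + A'`, the same.
* `st1`, `i` good: `(A i - A' i) + (A' a - A a)`: at most the number of inserted labels of one of
  the two layers (those between the two labels), so at most 3.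
-/

namespace Pool.Agent.Lob5

variable {k : ℕ} {ld al : ℕ → Prop}

private theorem st4_oe {i : ℕ} (h1 : 1 ≤ i) (h2 : i < k) : 1 ≤ oe i ∧ oe i ≤ k := by
  unfold oe
  split_ifs <;> omega

private theorem st4_lo (S : Seam k ld al) (n : Num) (j : ℕ) (hm : S.mode = 4)
    (hsp : n.sp ≠ 0) : layOf S n j = lay4 S n j := by
  unfold layOf
  rw [if_neg hsp, if_neg (by omega), if_neg (by omega), if_neg (by omega), if_pos hm]

private theorem st4_facts (S : Seam k ld al) (m : Num) (j : ℕ) (hsp : m.sp ≠ 0)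
    (hA : m.nT + j + (if 2 ≤ m.sp then 1 else 0) ≤ m.Ux) :
    (lay4 S m j).k2 = false ∧ (lay4 S m j).j = j ∧ (lay4 S m j).y1 < (lay4 S m j).y2 ∧
      m.n2 + j + S.P < (lay4 S m j).y1 ∧ (lay4 S m j).y1 ≤ wz S m ∧
      wz S m = m.n2 + j + (lay4 S m j).U + S.h + 2 +
        (if (lay4 S m j).y2 ≤ wz S m then 1 else 0) ∧
      ((lay4 S m j).y2 ≤ wz S m → m.n2 + j + S.Q + 2 ≤ S.h) := by
  have hPh := S.Ph
  have hw : wz S m = m.n2 + m.Ux + S.h + 2 := by simp only [wz, if_neg hsp]
  have hc := S.cutG_le (m.n2 + j + S.Q + 2)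
  by_cases h1 : S.h < m.n2 + j + S.Q + 2
  · have e : lay4 S m j = layS S m j (wz S m) := by rw [lay4, if_pos h1]
    rw [e]
    simp only [layS]
    refine ⟨trivial, trivial, by omega, by omega, le_rfl, ?_, fun h => by omega⟩
    rw [if_neg (by omega)]
    omega
  by_cases h2 : m.sp = 3 ∧
      m.n2 + m.Ux + S.P + S.cutG (m.n2 + j + S.Q + 2) + 1 + S.P < m.nT + S.h
  · rw [if_pos (by omega)] at hA
    by_cases h3 : m.nT + S.h + m.n2 + j ≤
        2 * (m.n2 + m.Ux + S.P + S.cutG (m.n2 + j + S.Q + 2))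
    · have e : lay4 S m j = layD m j (m.n2 + m.Ux + S.P + S.cutG (m.n2 + j + S.Q + 2) + 1)
          (m.nT + S.h + m.n2 + j - (m.n2 + m.Ux + S.P + S.cutG (m.n2 + j + S.Q + 2))) := by
        rw [lay4, if_neg h1, if_pos h2, if_pos h3]
      rw [e]
      simp only [layD]
      refine ⟨trivial, trivial, by omega, by omega, by omega, ?_, fun h => by omega⟩
      rw [if_pos (by omega)]
      omega
    · have e : lay4 S m j = layD m j (m.n2 + m.Ux + S.P + S.cutG (m.n2 + j + S.Q + 2))
          (m.nT + S.h + m.n2 + j + 1 -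
            (m.n2 + m.Ux + S.P + S.cutG (m.n2 + j + S.Q + 2))) := by
        rw [lay4, if_neg h1, if_pos h2, if_neg h3]
      rw [e]
      simp only [layD]
      refine ⟨trivial, trivial, by omega, by omega, by omega, ?_, fun h => by omega⟩
      rw [if_pos (by omega)]
      omega
  · have e : lay4 S m j =
        layS S m j (m.n2 + m.Ux + S.P + S.cutG (m.n2 + j + S.Q + 2) + 1) := by
      rw [lay4, if_neg h1, if_neg h2]
    rw [e]
    simp only [layS]
    refine ⟨trivial, trivial, by omega, by omega, by omega, ?_, fun h => by omega⟩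
    rw [if_neg (by omega)]
    omega

/-- `A e` is the number of the inserted labels above the good odd edge `e` -/
private structure St4D (S : Seam k ld al) (n : Num) (j : ℕ) (Λ : FLay) (A : ℕ → ℕ) (N : ℕ) :
    Prop where
  lab : ∀ e, 1 ≤ e → e ≤ k → e % 2 = 1 → ¬ S.bad e →
    Λ.p e + A e + S.h + 1 = wz S n.up + S.rk e
  le : ∀ e, A e ≤ N
  anti : ∀ e f, 1 ≤ e → e ≤ k → e % 2 = 1 → ¬ S.bad e → 1 ≤ f → f ≤ k → f % 2 = 1 →
    ¬ S.bad f → S.rk e ≤ S.rk f → A f ≤ A e
  bad : ∀ e, 1 ≤ e → e ≤ k → e % 2 = 1 → S.bad e → Λ.p e = n.n2 + j + S.rk e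
  X1 : n.n2 + j + S.P + 1 ≤ Λ.X 1
  N3 : N ≤ 3
  P4 : N = 3 → n.n2 + j + S.Q + 2 ≤ S.h
  hj : Λ.j = j

private theorem st4_abv_le (w : ℕ) (Λ : Lay) (x : ℕ) :
    abv w Λ x ≤ (if Λ.y1 ≤ w then 1 else 0) + (if Λ.y2 ≤ w then 1 else 0) := by
  unfold abv
  split_ifs <;> omega

private theorem st4_abv_anti (w : ℕ) (Λ : Lay) {x x' : ℕ} (h : x ≤ x') :
    abv w Λ x' ≤ abv w Λ x := by
  unfold abv
  split_ifs <;> omega

private theorem st4_lam_mono (y1 y2 : ℕ) {i j : ℕ} (h : i ≤ j) :
    lam y1 y2 i ≤ lam y1 y2 j := by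
  unfold lam
  split_ifs <;> omega

private theorem st4_pl_mono (S : Seam k ld al) (m : Num) (Λ : Lay) (hk2 : Λ.k2 = false)
    {e f : ℕ} (h3 : e % 2 = 1) (h6 : f % 2 = 1) (he : ¬ S.rk e ≤ S.P) (hf : ¬ S.rk f ≤ S.P)
    (h : S.rk e ≤ S.rk f) : pl S m Λ e ≤ pl S m Λ f := by
  unfold pl lop
  rw [if_pos h3, if_pos h6, hk2]
  simp only [Bool.false_eq_true, if_false]
  rw [if_neg he, if_neg hf]
  exact st4_lam_mono _ _ (by omega)

private theorem st4_dat (S : Seam k ld al) (n : Num) (j : ℕ) (hm : S.mode = 4)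
    (hA : Adm S n j) {Λ : FLay} (h : LayPG S n j Λ) : ∃ A N, St4D S n j Λ A N := by
  have hsp : n.sp ≠ 0 := by
    have := hA.sp14 (by omega) (by omega)
    omega
  obtain ⟨a1, a2, a3, a4, a5, a6, a7⟩ := st4_facts S n.up j hsp (adm_up hA).jU
  have eu : layOf S n.up j = lay4 S n.up j := st4_lo S n.up j hm hsp
  have e2 : n.up.n2 = n.n2 := rfl
  rw [e2] at a4 a6 a7
  cases h with
  | P =>
    refine ⟨fun e => abv (wz S n.up) (lay4 S n.up j) (pl S n.up (lay4 S n.up j) e), 2, ?_⟩
    have hw : wz S n.up = n.up.n2 + (lay4 S n.up j).j + (lay4 S n.up j).U + S.h + 1 +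
        (if (lay4 S n.up j).y1 ≤ wz S n.up then 1 else 0) +
        (if (lay4 S n.up j).y2 ≤ wz S n.up then 1 else 0) := by
      rw [if_pos a5, a2, e2]
      omega
    have ep : ∀ e, (funP S n j).p e = pl S n.up (lay4 S n.up j) e := by
      intro e
      change pl S n.up (layOf S n.up j) e = _
      rw [eu]
    have eX : (funP S n j).X 1 = Xl S n.up (lay4 S n.up j) 1 := by
      change Xl S n.up (layOf S n.up j) 1 = _
      rw [eu]
    refine ⟨?_, ?_, ?_, ?_, ?_, by omega, fun h => by omega, rfl⟩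
    · intro e h1 h2 h3 hb
      rw [ep]
      exact lab_P S n.up (lay4 S n.up j) a1 a3 hw h1 h2 h3 hb
    · intro e
      have := st4_abv_le (wz S n.up) (lay4 S n.up j) (pl S n.up (lay4 S n.up j) e)
      refine this.trans ?_
      split_ifs <;> omega
    · intro e f h1 h2 h3 hb h4 h5 h6 hc hr
      have re := S.rk_og e h1 h2 h3 hb
      have rf := S.rk_og f h4 h5 h6 hc
      exact st4_abv_anti _ _ (st4_pl_mono S n.up _ a1 h3 h6 (by omega) (by omega) hr)
    · intro e h1 h2 h3 hb
      obtain ⟨b1, b2, b3⟩ := bad_pos S n.up (lay4 S n.up j) a1 h1 h2 h3 hb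
      rw [ep, b1, a2, e2]
      unfold lam
      rw [if_neg (by omega), if_neg (by omega)]
      omega
    · rw [eX]
      unfold Xl
      rw [a1, a2, e2]
      refine le_trans ?_ (le_lam _ _ _)
      simp
  | G z hz =>
    obtain ⟨c1, c2, c3, c4, c5, c6, c7⟩ := st4_facts S n j hsp hA.jU
    have ev : layOf S n j = lay4 S n j := st4_lo S n j hm hsp
    have eg : preG S n j z = lay4 S n j := by
      unfold preG
      rw [if_neg, ev]
      intro ht
      rcases ht.1.2 with h | h
      · omega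
      · omega
    have hz1 : n.n2 + j + S.P < z := by
      refine lt_of_le_of_lt ?_ hz.gt
      rw [eu]
      unfold Xl
      rw [a1, a2, e2]
      refine le_trans ?_ (le_lam _ _ _)
      simp
    have hw : wz S n = n.n2 + (lay4 S n j).j + (lay4 S n j).U + S.h + 1 +
        (if (lay4 S n j).y1 ≤ wz S n then 1 else 0) +
        (if (lay4 S n j).y2 ≤ wz S n then 1 else 0) := by
      rw [if_pos c5, c2]
      omega
    have ef : funG S n j z = insG S n (lay4 S n j) z := by
      unfold funG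
      rw [eg]
    have ep : ∀ e, e % 2 = 1 → (insG S n (lay4 S n j) z).p e = sk z (pl S n (lay4 S n j) e) := by
      intro e he
      change (if e % 2 = 1 then _ else _) = _
      rw [if_pos he]
    rw [ef]
    refine ⟨fun e => abv (wz S n) (lay4 S n j) (pl S n (lay4 S n j) e) +
      (if sk z (pl S n (lay4 S n j) e) < z then 1 else 0),
      2 + (if (lay4 S n j).y2 ≤ wz S n then 1 else 0), ?_⟩
    refine ⟨?_, ?_, ?_, ?_, ?_, ?_, ?_, c2⟩
    · intro e h1 h2 h3 hb
      have := lab_G S n (lay4 S n j) z c1 c3 hw h1 h2 h3 hb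
      rw [ep e h3] at this ⊢
      omega
    · intro e
      have := st4_abv_le (wz S n) (lay4 S n j) (pl S n (lay4 S n j) e)
      rw [if_pos c5] at this
      have h2 : (if sk z (pl S n (lay4 S n j) e) < z then 1 else 0) ≤ 1 := by
        split_ifs <;> omega
      change _ + _ ≤ _
      omega
    · intro e f h1 h2 h3 hb h4 h5 h6 hc hr
      have re := S.rk_og e h1 h2 h3 hb
      have rf := S.rk_og f h4 h5 h6 hc
      have hp := st4_pl_mono S n _ c1 h3 h6 (by omega) (by omega) hr
      have h7 := st4_abv_anti (wz S n) (lay4 S n j) hp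
      have h8 : sk z (pl S n (lay4 S n j) e) ≤ sk z (pl S n (lay4 S n j) f) :=
        (sk_mono z).monotone hp
      change _ + _ ≤ _ + _
      refine Nat.add_le_add h7 ?_
      split_ifs <;> omega
    · intro e h1 h2 h3 hb
      obtain ⟨b1, b2, b3⟩ := bad_pos S n (lay4 S n j) c1 h1 h2 h3 hb
      have b4 : pl S n (lay4 S n j) e = n.n2 + j + S.rk e := by
        rw [b1, c2]
        unfold lam
        rw [if_neg (by omega), if_neg (by omega)]
        omega
      rw [ep e h3, b4]
      exact sk_of_lt (by omega)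
    · change _ ≤ sk z (Xl S n (lay4 S n j) 1)
      refine le_trans ?_ (le_sk _ _)
      unfold Xl
      rw [c1, c2]
      refine le_trans ?_ (le_lam _ _ _)
      simp
    · split_ifs <;> omega
    · intro h
      apply c7
      by_contra h9
      rw [if_neg h9] at h
      omega

theorem fs_4 (S : Seam k ld al) (n : Num) (j : ℕ) (hm : S.mode = 4) (hP : 3 ≤ S.P)
    (hA : Adm S n (j + 1)) {Λ Λ' : FLay} (h : LayPG S n j Λ) (h' : LayPG S n (j + 1) Λ') :
    FStep S n Λ Λ' := by
  obtain ⟨A, N, hD⟩ := st4_dat S n j hm (adm_pred hA) h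
  obtain ⟨A', N', hD'⟩ := st4_dat S n (j + 1) hm hA h'
  have hN := hD.N3
  have hN' := hD'.N3
  have hX := hD.X1
  have hj := hD.hj
  have hPQ := S.PQ
  have h4 : N' ≤ 2 ∨ 4 ≤ S.P := by
    by_cases h3 : N' = 3
    · have := hD'.P4 h3
      right
      omega
    · left
      omega
  refine fstep_of S n h h' ⟨?_, ?_⟩
  · intro i a hi hai ha haq hba
    have li := st4_oe (S.ld_pos i hi) (S.ld_lt i hi)
    have hla := S.al_ld a ha
    have la := st4_oe (S.ld_pos a hla) (S.ld_lt a hla)
    have b1 := hD.lab _ la.1 la.2 oe_odd hba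
    have b2 := hD'.lab _ la.1 la.2 oe_odd hba
    have b3 := hD'.le (oe a)
    have b4 := hD.le (oe i)
    by_cases hbi : S.bad (oe i)
    · have b5 := hD.bad _ li.1 li.2 oe_odd hbi
      have b6 := hD'.bad _ li.1 li.2 oe_odd hbi
      omega
    · have b5 := hD.lab _ li.1 li.2 oe_odd hbi
      have b6 := hD'.lab _ li.1 li.2 oe_odd hbi
      rcases le_total (S.rk (oe i)) (S.rk (oe a)) with hr | hr
      · have b7 := hD'.anti _ _ li.1 li.2 oe_odd hbi la.1 la.2 oe_odd hba hr
        omega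
      · have b7 := hD.anti _ _ la.1 la.2 oe_odd hba li.1 li.2 oe_odd hbi hr
        omega
  · intro a ha haq hba
    have hla := S.al_ld a ha
    have la := st4_oe (S.ld_pos a hla) (S.ld_lt a hla)
    have b1 := hD.lab _ la.1 la.2 oe_odd hba
    have b2 := hD'.lab _ la.1 la.2 oe_odd hba
    have b3 := hD'.le (oe a)
    omega

end Pool.Agent.Lob5
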