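import Pool.Agent.Lob5.HoleSt0

/-!
# Consecutive layers: mode 5

Only the odd edges matter (`fstep_of`). `w = wz S n.up`. `Ly5`: for a good odd edge of rank `r`
with the label `o` one has `o + A r + h + 1 = w + r`, where `A` is antitone and `A + e ≤ 2`; for a
bad odd edge of rank `r` the label is between `n2+j+r` and `n2+j+r+e`, `e ≤ 1`; `X 1 > n2+j+P`.
At most two labels `y`, `z` are inserted (`y` is not inserted in the case `layLg`); `z` is above
the bad zone (`z_HoleSt5`), and if `y` is in the bad zone then `e = 1` and `y` is below all good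
labels, otherwise `e = 0`. The value of `y` is irrelevant (`form_HoleSt5`).
* `st2`: the difference of the two good labels is `A' r - A r ≤ 2`.
* `st1`, `i` bad: `(1 + e') + A' ≤ 3`. `st1`, `i` good: `(A i - A' i) + (A' a - A a) ≤ 2`.
-/

namespace Pool.Agent.Lob5

variable {k : ℕ} {ld al : ℕ → Prop}

private theorem le_lam_HoleSt5 (y1 y2 i : ℕ) : i ≤ lam y1 y2 i := by
  unfold lam
  omega

private theorem oe_HoleSt5 {i : ℕ} (h1 : 1 ≤ i) (h2 : i < k) :
    1 ≤ oe i ∧ oe i ≤ k ∧ oe i % 2 = 1 := by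
  unfold oe
  split_ifs <;> omega

private theorem plg_HoleSt5 (S : Seam k ld al) (n : Num) (L : Lay) (hk2 : L.k2 = false) {f : ℕ}
    (h1 : 1 ≤ f) (h2 : f ≤ k) (h3 : f % 2 = 1) (hb : ¬ S.bad f) :
    pl S n L f = lam L.y1 L.y2 (n.n2 + L.j + L.U + S.rk f) := by
  have h4 := S.rk_og f h1 h2 h3 hb
  unfold pl lop
  rw [if_pos h3, hk2]
  simp only [Bool.false_eq_true, if_false]
  rw [if_neg (by omega)]

private theorem plb_HoleSt5 (S : Seam k ld al) (n : Num) (L : Lay) (hk2 : L.k2 = false) {f : ℕ}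
    (h1 : 1 ≤ f) (h2 : f ≤ k) (h3 : f % 2 = 1) (hb : S.bad f) :
    pl S n L f = lam L.y1 L.y2 (n.n2 + L.j + S.rk f) := by
  have h4 := S.rk_ob f h1 h2 h3 hb
  unfold pl lop
  rw [if_pos h3, hk2]
  simp only [Bool.false_eq_true, if_false]
  rw [if_pos (by omega)]

private theorem Xl_HoleSt5 (S : Seam k ld al) (n : Num) (L : Lay) (hk2 : L.k2 = false) (i : ℕ) :
    Xl S n L i = lam L.y1 L.y2 (n.n2 + L.j + S.P + i) := by
  unfold Xl
  rw [hk2]
  rfl

private theorem form_HoleSt5 (S : Seam k ld al) (n : Num) (j : ℕ) (hm : S.mode = 5)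
    (hs : n.sp ≠ 0) : (∃ y, layOf S n j = layS S n j y) ∨ layOf S n j = layLg S n j := by
  unfold layOf
  rw [if_neg hs, if_neg (by omega), if_neg (by omega), if_neg (by omega), if_neg (by omega)]
  unfold lay5
  dsimp only
  split_ifs
  · exact Or.inl ⟨_, rfl⟩
  · exact Or.inr rfl
  · exact Or.inl ⟨_, rfl⟩
  all_goals exact Or.inl ⟨_, rfl⟩

/-- the facts about one layer -/
private structure Ly5 (S : Seam k ld al) (n : Num) (j : ℕ) (Λ : FLay) (e : ℕ) (A : ℕ → ℕ) :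
    Prop where
  e1 : e ≤ 1
  hj : Λ.j = j
  X1 : n.n2 + j + S.P + 1 ≤ Λ.X 1
  A2 : ∀ r, S.P + 1 ≤ r → r ≤ S.h + 1 → A r + e ≤ 2
  anti : ∀ r s, S.P + 1 ≤ r → r ≤ s → s ≤ S.h + 1 → A s ≤ A r
  good : ∀ f, 1 ≤ f → f ≤ k → f % 2 = 1 → ¬ S.bad f →
    Λ.p f + A (S.rk f) + S.h + 1 = wz S n.up + S.rk f
  badz : ∀ f, 1 ≤ f → f ≤ k → f % 2 = 1 → S.bad f →
    n.n2 + j + S.rk f ≤ Λ.p f ∧ Λ.p f ≤ n.n2 + j + S.rk f + e

private theorem wz_HoleSt5 (S : Seam k ld al) (n : Num) (hs : n.sp = 1) :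
    wz S n = n.n2 + n.Ux + S.h + 2 ∧ wz S n.up = n.n2 + n.Ux + S.h + 3 := by
  have h1 : wz S n = n.n2 + n.Ux + S.h + 2 := by
    unfold wz
    rw [if_neg (by omega)]
  have h2 := wz_up S n
  exact ⟨h1, by omega⟩

private theorem lyP_HoleSt5 (S : Seam k ld al) (n : Num) (j : ℕ) (hm : S.mode = 5)
    (hs : n.sp = 1) (hj : j ≤ n.Ux) : ∃ e A, Ly5 S n j (funP S n j) e A := by
  obtain ⟨hw, hw'⟩ := wz_HoleSt5 S n hs
  have hs' : n.up.sp ≠ 0 := by
    change n.sp ≠ 0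
    omega
  rcases form_HoleSt5 S n.up j hm hs' with ⟨y, hy⟩ | hy
  · have hp : (funP S n j).p = pl S n.up (layS S n.up j y) := by
      change pl S n.up (layOf S n.up j) = _
      rw [hy]
    have hX : (funP S n j).X = Xl S n.up (layS S n.up j y) := by
      change Xl S n.up (layOf S n.up j) = _
      rw [hy]
    refine ⟨if y ≤ n.n2 + j + S.P then 1 else 0,
      fun r => wz S n.up + r - (S.h + 1) - lam y (wz S n.up + 2) (n.n2 + j + (n.Ux + 1 - j) + r),
      ?_, rfl, ?_, ?_, ?_, ?_, ?_⟩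
    · split_ifs <;> omega
    · rw [hX, Xl_HoleSt5 S n.up _ rfl]
      exact le_lam_HoleSt5 _ _ _
    · intro r h1 h2
      unfold lam
      split_ifs <;> omega
    · intro r s h1 h2 h3
      unfold lam
      split_ifs <;> omega
    · intro f h1 h2 h3 h4
      have h5 := S.rk_og f h1 h2 h3 h4
      rw [hp, plg_HoleSt5 S n.up _ rfl h1 h2 h3 h4]
      change lam y (wz S n.up + 2) (n.n2 + j + (n.Ux + 1 - j) + S.rk f) +
        (wz S n.up + S.rk f - (S.h + 1) -
          lam y (wz S n.up + 2) (n.n2 + j + (n.Ux + 1 - j) + S.rk f)) + S.h + 1 = _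
      unfold lam
      split_ifs <;> omega
    · intro f h1 h2 h3 h4
      have h5 := S.rk_ob f h1 h2 h3 h4
      have h6 := S.Ph
      rw [hp, plb_HoleSt5 S n.up _ rfl h1 h2 h3 h4]
      change n.n2 + j + S.rk f ≤ lam y (wz S n.up + 2) (n.n2 + j + S.rk f) ∧
        lam y (wz S n.up + 2) (n.n2 + j + S.rk f) ≤ _
      unfold lam
      split_ifs <;> omega
  · have hp : (funP S n j).p = pl S n.up (layLg S n.up j) := by
      change pl S n.up (layOf S n.up j) = _
      rw [hy]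
    have hX : (funP S n j).X = Xl S n.up (layLg S n.up j) := by
      change Xl S n.up (layOf S n.up j) = _
      rw [hy]
    refine ⟨0, fun _ => 0, ?_, rfl, ?_, ?_, ?_, ?_, ?_⟩
    · omega
    · rw [hX, Xl_HoleSt5 S n.up _ rfl]
      exact le_lam_HoleSt5 _ _ _
    · intro r h1 h2
      omega
    · intro r s h1 h2 h3
      omega
    · intro f h1 h2 h3 h4
      have h5 := S.rk_og f h1 h2 h3 h4
      rw [hp, plg_HoleSt5 S n.up _ rfl h1 h2 h3 h4]
      change lam (wz S n.up + 1) (wz S n.up + 2) (n.n2 + j + (n.Ux + 1 - j + 1) + S.rk f) +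
        0 + S.h + 1 = _
      unfold lam
      split_ifs <;> omega
    · intro f h1 h2 h3 h4
      have h5 := S.rk_ob f h1 h2 h3 h4
      have h6 := S.Ph
      rw [hp, plb_HoleSt5 S n.up _ rfl h1 h2 h3 h4]
      change n.n2 + j + S.rk f ≤ lam (wz S n.up + 1) (wz S n.up + 2) (n.n2 + j + S.rk f) ∧
        lam (wz S n.up + 1) (wz S n.up + 2) (n.n2 + j + S.rk f) ≤ _
      unfold lam
      split_ifs <;> omega

private theorem z_HoleSt5 (S : Seam k ld al) (n : Num) (j z : ℕ) (hm : S.mode = 5)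
    (hs : n.sp = 1) (hj : j ≤ n.Ux) (hz : ZG S n j z) : n.n2 + j + S.P + 2 ≤ z := by
  have hs' : n.up.sp ≠ 0 := by
    change n.sp ≠ 0
    omega
  have h1 := hz.gt
  rcases form_HoleSt5 S n.up j hm hs' with ⟨y, hy⟩ | hy
  · rw [hy, Xl_HoleSt5 S n.up _ rfl] at h1
    have h2 := le_lam_HoleSt5 y (wz S n.up + 2) (n.n2 + j + S.P + (n.Ux + 1 - j))
    have h3 : lam y (wz S n.up + 2) (n.n2 + j + S.P + (n.Ux + 1 - j)) < z := h1
    omega
  · rw [hy, Xl_HoleSt5 S n.up _ rfl] at h1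
    have h2 := le_lam_HoleSt5 (wz S n.up + 1) (wz S n.up + 2)
      (n.n2 + j + S.P + (n.Ux + 1 - j + 1))
    have h3 : lam (wz S n.up + 1) (wz S n.up + 2) (n.n2 + j + S.P + (n.Ux + 1 - j + 1)) < z := h1
    omega

private theorem lyS_HoleSt5 (S : Seam k ld al) (n : Num) (j z y : ℕ)
    (hs : n.sp = 1) (hj : j ≤ n.Ux) (hz : n.n2 + j + S.P + 2 ≤ z) :
    ∃ e A, Ly5 S n j (insG S n (layS S n j y) z) e A := by
  obtain ⟨hw, hw'⟩ := wz_HoleSt5 S n hs
  have hp : ∀ f, f % 2 = 1 →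
      (insG S n (layS S n j y) z).p f = sk z (pl S n (layS S n j y) f) := by
    intro f hf
    change (if f % 2 = 1 then sk z (pl S n (layS S n j y) f) else _) = _
    rw [if_pos hf]
  refine ⟨if y ≤ n.n2 + j + S.P then 1 else 0,
    fun r => wz S n.up + r - (S.h + 1) -
      sk z (lam y (wz S n + 2) (n.n2 + j + (n.Ux - j) + r)), ?_, rfl, ?_, ?_, ?_, ?_, ?_⟩
  · split_ifs <;> omega
  · change _ ≤ sk z (Xl S n (layS S n j y) 1)
    rw [Xl_HoleSt5 S n _ rfl]
    exact (le_lam_HoleSt5 _ _ _).trans (le_sk _ _)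
  · intro r h1 h2
    have h3 := le_sk z (lam y (wz S n + 2) (n.n2 + j + (n.Ux - j) + r))
    have h5 : (if y ≤ n.n2 + j + S.P then 1 else 0) ≤ 1 := by split_ifs <;> omega
    have h4 : n.n2 + j + (n.Ux - j) + r + (if y ≤ n.n2 + j + S.P then 1 else 0) ≤
        lam y (wz S n + 2) (n.n2 + j + (n.Ux - j) + r) := by
      unfold lam
      split_ifs <;> omega
    omega
  · intro r s h1 h2 h3
    have h5 : lam y (wz S n + 2) (n.n2 + j + (n.Ux - j) + r) + (s - r) ≤
        lam y (wz S n + 2) (n.n2 + j + (n.Ux - j) + s) := by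
      unfold lam
      split_ifs <;> omega
    have h6 : sk z (lam y (wz S n + 2) (n.n2 + j + (n.Ux - j) + r)) + (s - r) ≤
        sk z (lam y (wz S n + 2) (n.n2 + j + (n.Ux - j) + s)) := by
      unfold sk
      split_ifs <;> omega
    omega
  · intro f h1 h2 h3 h4
    have h5 := S.rk_og f h1 h2 h3 h4
    have h6 : lam y (wz S n + 2) (n.n2 + j + (n.Ux - j) + S.rk f) ≤
        n.n2 + j + (n.Ux - j) + S.rk f + 1 := by
      unfold lam
      split_ifs <;> omega
    have h7 := sk_le z (lam y (wz S n + 2) (n.n2 + j + (n.Ux - j) + S.rk f))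
    rw [hp f h3, plg_HoleSt5 S n _ rfl h1 h2 h3 h4]
    change sk z (lam y (wz S n + 2) (n.n2 + j + (n.Ux - j) + S.rk f)) +
      (wz S n.up + S.rk f - (S.h + 1) -
        sk z (lam y (wz S n + 2) (n.n2 + j + (n.Ux - j) + S.rk f))) + S.h + 1 = _
    omega
  · intro f h1 h2 h3 h4
    have h5 := S.rk_ob f h1 h2 h3 h4
    have h6 := S.Ph
    rw [hp f h3, plb_HoleSt5 S n _ rfl h1 h2 h3 h4]
    change n.n2 + j + S.rk f ≤ sk z (lam y (wz S n + 2) (n.n2 + j + S.rk f)) ∧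
      sk z (lam y (wz S n + 2) (n.n2 + j + S.rk f)) ≤ _
    have h8 : lam y (wz S n + 2) (n.n2 + j + S.rk f) ≤ n.n2 + j + S.rk f + 1 := by
      unfold lam
      split_ifs <;> omega
    rw [sk_of_lt (by omega)]
    unfold lam
    split_ifs <;> omega

private theorem lyL_HoleSt5 (S : Seam k ld al) (n : Num) (j z : ℕ)
    (hs : n.sp = 1) (hj : j ≤ n.Ux) (hz : n.n2 + j + S.P + 2 ≤ z) :
    ∃ e A, Ly5 S n j (insG S n (layLg S n j) z) e A := by
  obtain ⟨hw, hw'⟩ := wz_HoleSt5 S n hs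
  have hp : ∀ f, f % 2 = 1 →
      (insG S n (layLg S n j) z).p f = sk z (pl S n (layLg S n j) f) := by
    intro f hf
    change (if f % 2 = 1 then sk z (pl S n (layLg S n j) f) else _) = _
    rw [if_pos hf]
  have hl : ∀ i, i ≤ wz S n → lam (wz S n + 1) (wz S n + 2) i = i := by
    intro i hi
    unfold lam
    split_ifs <;> omega
  refine ⟨0, fun r => if z ≤ n.n2 + j + (n.Ux - j + 1) + r then 0 else 1,
    ?_, rfl, ?_, ?_, ?_, ?_, ?_⟩
  · omega
  · change _ ≤ sk z (Xl S n (layLg S n j) 1)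
    rw [Xl_HoleSt5 S n _ rfl]
    exact (le_lam_HoleSt5 _ _ _).trans (le_sk _ _)
  · intro r h1 h2
    split_ifs <;> omega
  · intro r s h1 h2 h3
    split_ifs <;> omega
  · intro f h1 h2 h3 h4
    have h5 := S.rk_og f h1 h2 h3 h4
    rw [hp f h3, plg_HoleSt5 S n _ rfl h1 h2 h3 h4]
    change sk z (lam (wz S n + 1) (wz S n + 2) (n.n2 + j + (n.Ux - j + 1) + S.rk f)) +
      (if z ≤ n.n2 + j + (n.Ux - j + 1) + S.rk f then 0 else 1) + S.h + 1 = _
    rw [hl _ (by omega)]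
    unfold sk
    split_ifs <;> omega
  · intro f h1 h2 h3 h4
    have h5 := S.rk_ob f h1 h2 h3 h4
    have h6 := S.Ph
    rw [hp f h3, plb_HoleSt5 S n _ rfl h1 h2 h3 h4]
    change n.n2 + j + S.rk f ≤ sk z (lam (wz S n + 1) (wz S n + 2) (n.n2 + j + S.rk f)) ∧
      sk z (lam (wz S n + 1) (wz S n + 2) (n.n2 + j + S.rk f)) ≤ _
    rw [hl _ (by omega), sk_of_lt (by omega)]
    omega

private theorem ly_HoleSt5 (S : Seam k ld al) (n : Num) (j : ℕ) (hm : S.mode = 5)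
    (hs : n.sp = 1) (hj : j ≤ n.Ux) {Λ : FLay} (h : LayPG S n j Λ) :
    ∃ e A, Ly5 S n j Λ e A := by
  cases h with
  | P => exact lyP_HoleSt5 S n j hm hs hj
  | G z hz =>
    have hz2 := z_HoleSt5 S n j z hm hs hj hz
    unfold funG preG
    split_ifs with hc
    · exact lyS_HoleSt5 S n j z _ hs hj hz2
    · rcases form_HoleSt5 S n j hm (by omega) with ⟨y, hy⟩ | hy
      · rw [hy]
        exact lyS_HoleSt5 S n j z y hs hj hz2
      · rw [hy]
        exact lyL_HoleSt5 S n j z hs hj hz2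

theorem fs_5 (S : Seam k ld al) (n : Num) (j : ℕ) (hm : S.mode = 5) (hs : n.sp = 1) (hP : 3 ≤ S.P)
    (hA : Adm S n (j + 1)) {Λ Λ' : FLay} (h : LayPG S n j Λ) (h' : LayPG S n (j + 1) Λ') :
    FStep S n Λ Λ' := by
  have hjU := hA.jU
  have hj : j + 1 ≤ n.Ux := by split_ifs at hjU <;> omega
  obtain ⟨e, A, L⟩ := ly_HoleSt5 S n j hm hs (by omega) h
  obtain ⟨e', A', L'⟩ := ly_HoleSt5 S n (j + 1) hm hs hj h'
  have hX := L.X1
  have hLj := L.hj
  have he := L.e1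
  have he' := L'.e1
  refine fstep_of S n h h' ⟨?_, ?_⟩
  · intro i a hi hia ha haq hab
    have i1 := S.ld_pos i hi
    have i2 := S.ld_lt i hi
    have a1 := S.ld_pos a (S.al_ld a ha)
    have a2 := S.ld_lt a (S.al_ld a ha)
    obtain ⟨i3, i4, i5⟩ := oe_HoleSt5 i1 i2
    obtain ⟨a3, a4, a5⟩ := oe_HoleSt5 a1 a2
    have g1 := L.good _ a3 a4 a5 hab
    have g2 := L'.good _ a3 a4 a5 hab
    have ra := S.rk_og _ a3 a4 a5 hab
    have A1 := L.A2 _ ra.1 ra.2
    have A2 := L'.A2 _ ra.1 ra.2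
    by_cases hib : S.bad (oe i)
    · have b1 := L.badz _ i3 i4 i5 hib
      have b2 := L'.badz _ i3 i4 i5 hib
      omega
    · have g3 := L.good _ i3 i4 i5 hib
      have g4 := L'.good _ i3 i4 i5 hib
      have ri := S.rk_og _ i3 i4 i5 hib
      have A3 := L.A2 _ ri.1 ri.2
      have A4 := L'.A2 _ ri.1 ri.2
      rcases le_total (S.rk (oe i)) (S.rk (oe a)) with hr | hr
      · have m1 := L.anti _ _ ri.1 hr ra.2
        have m2 := L'.anti _ _ ri.1 hr ra.2
        omega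
      · have m1 := L.anti _ _ ra.1 hr ri.2
        have m2 := L'.anti _ _ ra.1 hr ri.2
        omega
  · intro a ha haq hab
    have a1 := S.ld_pos a (S.al_ld a ha)
    have a2 := S.ld_lt a (S.al_ld a ha)
    obtain ⟨a3, a4, a5⟩ := oe_HoleSt5 a1 a2
    have g1 := L.good _ a3 a4 a5 hab
    have g2 := L'.good _ a3 a4 a5 hab
    have ra := S.rk_og _ a3 a4 a5 hab
    have A1 := L.A2 _ ra.1 ra.2
    have A2 := L'.A2 _ ra.1 ra.2
    omega

end Pool.Agent.Lob5
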