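import Pool.Agent.Lob5.HoleSt0

/-!
# Consecutive layers: no special vertex

Only the odd edges matter (`fstep_of`). `layOf = layNone` for `n` and `n.up`, `preG = layOf`, all labels are
equal to their positions (`lam (w+1) (w+2) i = i` for `i < w`). Bad odd edges of rank `r`: label
`n2+j+r` in `funP` and in `funG` (`z > n2+P+Ux+1`), so `p' = p+1`. Good ones: `n2+Ux+1+r` in `funP`,
`sk z (n2+Ux+r)` in `funG`. `X 1 ≥ n2+j+P+1`. So `st2`: `p - p' ≤ 1`; `st1`: the difference is at most 2
in all cases (`i` bad: `1 + 1`; `i` good: `1 + 1`), and `P ≥ 2`.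
-/

namespace Pool.Agent.Lob5

variable {k : ℕ} {ld al : ℕ → Prop}

private theorem lam_id_StN {w i : ℕ} (h : i ≤ w) : lam (w + 1) (w + 2) i = i := by
  unfold lam
  rw [if_neg (by omega), if_neg (by omega)]
  rfl

private theorem le_lam_StN (y1 y2 i : ℕ) : i ≤ lam y1 y2 i := by
  unfold lam
  omega

private theorem layOf_StN (S : Seam k ld al) (n : Num) (j : ℕ) (hs : n.sp = 0) :
    layOf S n j = layNone S n j := by
  unfold layOf
  rw [if_pos hs]

/-- everything about one layer -/
private theorem one_StN (S : Seam k ld al) (n : Num) (j : ℕ) (hs : n.sp = 0)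
    (hA : Adm S n j) {Λ : FLay} (h : LayPG S n j Λ) :
    Λ.j = j ∧ n.n2 + j + S.P + 1 ≤ Λ.X 1 ∧
      (∀ e, 1 ≤ e → e ≤ k → e % 2 = 1 → S.bad e → Λ.p e = n.n2 + j + S.rk e) ∧
      (∀ e, 1 ≤ e → e ≤ k → e % 2 = 1 → ¬ S.bad e →
        n.n2 + n.Ux + S.rk e ≤ Λ.p e ∧ Λ.p e ≤ n.n2 + n.Ux + S.rk e + 1) := by
  have hju : n.nT + j ≤ n.Ux := by
    have := hA.jU
    omega
  have hPh := S.Ph
  have hw : wz S n = n.n2 + n.Ux + S.h + 1 := by
    unfold wz
    rw [if_pos hs]
  have hsu : n.up.sp = 0 := hs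
  have hwu : wz S n.up = n.n2 + n.Ux + 1 + S.h + 1 := by
    rw [wz_up, hw]
    omega
  cases h with
  | P =>
    refine ⟨rfl, ?_, ?_, ?_⟩
    · change _ ≤ Xl S n.up (layOf S n.up j) 1
      rw [layOf_StN S n.up j hsu]
      unfold Xl layNone
      refine le_trans ?_ (le_lam_StN _ _ _)
      change n.n2 + j + S.P + 1 ≤ n.n2 + j + S.P + 1 - 0
      omega
    · intro e h1 h2 h3 hb
      have hr := S.rk_ob e h1 h2 h3 hb
      change pl S n.up (layOf S n.up j) e = _
      rw [layOf_StN S n.up j hsu]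
      unfold pl lop layNone
      simp only [if_pos h3, if_pos hr.2, Bool.false_eq_true, if_false]
      rw [lam_id_StN]
      · rfl
      · rw [hwu]
        change n.n2 + j + _ ≤ _
        omega
    · intro e h1 h2 h3 hb
      have hr := S.rk_og e h1 h2 h3 hb
      change _ ≤ pl S n.up (layOf S n.up j) e ∧ pl S n.up (layOf S n.up j) e ≤ _
      rw [layOf_StN S n.up j hsu]
      unfold pl lop layNone
      have hr' : ¬ S.rk e ≤ S.P := by omega
      simp only [if_pos h3, if_neg hr', Bool.false_eq_true, if_false]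
      rw [lam_id_StN]
      · change _ ≤ n.n2 + j + (n.Ux + 1 - j) + _ ∧ n.n2 + j + (n.Ux + 1 - j) + _ ≤ _
        omega
      · rw [hwu]
        change n.n2 + j + (n.Ux + 1 - j) + _ ≤ _
        omega
  | G z hz =>
    have hpre : preG S n j z = layNone S n j := by
      unfold preG
      rw [if_neg, layOf_StN S n j hs]
      rintro ⟨⟨h1, _⟩, _⟩
      exact h1 hs
    have hzg : n.n2 + S.P + n.Ux + 1 < z := by
      have := hz.gt
      rw [layOf_StN S n.up j hsu] at this
      refine lt_of_le_of_lt ?_ this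
      unfold Xl layNone
      refine le_trans ?_ (le_lam_StN _ _ _)
      change _ ≤ n.n2 + j + S.P + (n.Ux + 1 - j) - 0
      omega
    refine ⟨preG_j S n j z, ?_, ?_, ?_⟩
    · change _ ≤ sk z (Xl S n (preG S n j z) 1)
      rw [hpre]
      refine le_trans ?_ (le_sk _ _)
      unfold Xl layNone
      refine le_trans ?_ (le_lam_StN _ _ _)
      change n.n2 + j + S.P + 1 ≤ n.n2 + j + S.P + 1 - 0
      omega
    · intro e h1 h2 h3 hb
      have hr := S.rk_ob e h1 h2 h3 hb
      change (if e % 2 = 1 then sk z (pl S n (preG S n j z) e) else _) = _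
      rw [hpre, if_pos h3]
      unfold pl lop layNone
      simp only [if_pos h3, if_pos hr.2, Bool.false_eq_true, if_false]
      rw [lam_id_StN (by omega), sk_of_lt (by omega)]
    · intro e h1 h2 h3 hb
      have hr := S.rk_og e h1 h2 h3 hb
      have he : (funG S n j z).p e = sk z (n.n2 + n.Ux + S.rk e) := by
        change (if e % 2 = 1 then sk z (pl S n (preG S n j z) e) else _) = _
        rw [hpre, if_pos h3]
        unfold pl lop layNone
        have hr' : ¬ S.rk e ≤ S.P := by omega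
        simp only [if_pos h3, if_neg hr', Bool.false_eq_true, if_false]
        rw [lam_id_StN (by omega)]
        congr 1
        omega
      rw [he]
      exact ⟨le_sk _ _, sk_le _ _⟩

theorem fs_none (S : Seam k ld al) (n : Num) (j : ℕ) (hs : n.sp = 0) (hP : 2 ≤ S.P)
    (hA : Adm S n (j + 1)) {Λ Λ' : FLay} (h : LayPG S n j Λ) (h' : LayPG S n (j + 1) Λ') :
    FStep S n Λ Λ' := by
  obtain ⟨hj, hX, hb, hg⟩ := one_StN S n j hs (adm_pred hA) h
  obtain ⟨_, _, hb', hg'⟩ := one_StN S n (j + 1) hs hA h'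
  have hoe : ∀ i, ld i → 1 ≤ oe i ∧ oe i ≤ k ∧ oe i % 2 = 1 := by
    intro i hi
    have h1 := S.ld_pos i hi
    have h2 := S.ld_lt i hi
    unfold oe
    split_ifs with h3 <;> omega
  refine fstep_of S n h h' ⟨?_, ?_⟩
  · intro i a hi hai ha haq hba
    rw [hj]
    obtain ⟨i1, i2, i3⟩ := hoe i hi
    obtain ⟨a1, a2, a3⟩ := hoe a (S.al_ld a ha)
    have g1 := hg (oe a) a1 a2 a3 hba
    have g2 := hg' (oe a) a1 a2 a3 hba
    by_cases hbi : S.bad (oe i)
    · have b1 := hb (oe i) i1 i2 i3 hbi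
      have b2 := hb' (oe i) i1 i2 i3 hbi
      omega
    · have b1 := hg (oe i) i1 i2 i3 hbi
      have b2 := hg' (oe i) i1 i2 i3 hbi
      omega
  · intro a ha haq hba
    rw [hj]
    obtain ⟨a1, a2, a3⟩ := hoe a (S.al_ld a ha)
    have g1 := hg (oe a) a1 a2 a3 hba
    have g2 := hg' (oe a) a1 a2 a3 hba
    omega

end Pool.Agent.Lob5
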