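import Pool.Agent.Lob5.HoleX
import Pool.Agent.Lob5.HoleGN
import Pool.Agent.Lob5.HoleG1
import Pool.Agent.Lob5.HoleG2
import Pool.Agent.Lob5.HoleG3
import Pool.Agent.Lob5.HoleG4
import Pool.Agent.Lob5.HoleG5
import Pool.Agent.Lob5.HoleStN
import Pool.Agent.Lob5.HoleSt1
import Pool.Agent.Lob5.HoleSt2
import Pool.Agent.Lob5.HoleSt3
import Pool.Agent.Lob5.HoleSt4
import Pool.Agent.Lob5.HoleSt5

/-!
# The hole theorem (all modes together)

Case distinction as in `LayAll.lean` (`cases_lay`): `sp = 0`, or the mode is `1, ..., 5`; in the mode 5 with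
`sp ≠ 0` one has `sp = 1`. `S.mode ≥ 2` and `S.P ≠ 2`, `2 ≤ S.P` give `3 ≤ S.P`.
-/

namespace Pool.Agent.Lob5

variable {k : ℕ} {ld al : ℕ → Prop}

/-- the layers with the reserved label `z` -/
inductive LayR (S : Seam k ld al) (n : Num) (j : ℕ) : ℕ → FLay → Prop
  | X (z : ℕ) (h : ZX S n j z) : LayR S n j z (funX S n j z)
  | G (z : ℕ) (h : ZG S n j z) : LayR S n j z (funG S n j z)

theorem LayR.Z {S : Seam k ld al} {n : Num} {j z : ℕ} {Λ : FLay} (h : LayR S n j z Λ) :
    LayZ S n j Λ ∧ Λ.z = z := by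
  cases h with
  | X h => exact ⟨LayZ.X z h, rfl⟩
  | G h => exact ⟨LayZ.G z h, rfl⟩

/-- the structural facts about the seam which are used for the steps -/
structure SeamP (S : Seam k ld al) : Prop where
  m2P : 2 ≤ S.mode → S.P ≠ 2
  m1P : S.mode = 1 → S.P = 2 → ∀ i, ld i → ¬ al i → ¬ S.bad (oe i)

private theorem cases_HoleAll (S : Seam k ld al) (n : Num) (i : ℕ) (hA : Adm S n i) :
    n.sp = 0 ∨ S.mode = 1 ∨ S.mode = 2 ∨ S.mode = 3 ∨ S.mode = 4 ∨
      (S.mode = 5 ∧ n.sp = 1) := by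
  by_cases h0 : n.sp = 0
  · exact Or.inl h0
  have hm0 : S.mode ≠ 0 := fun h => h0 (hA.sp0 h)
  have hm5 : S.mode = 5 → n.sp ≤ 1 := hA.sp5
  have := S.mode_le
  omega

private theorem hg_HoleAll (S : Seam k ld al) (n : Num) (j z : ℕ) (hA : Adm S n j)
    (hz : ZG S n j z) : FLow S n (funG S n j z) ∧ FMod S n (funG S n j z) ∧
      FZed S n (funG S n j z) := by
  rcases cases_HoleAll S n j hA with h | h | h | h | h | ⟨h, hs⟩
  · exact hg_none S n j z h hA hz
  · exact hg_1 S n j z h hA hz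
  · exact hg_2 S n j z h hA hz
  · exact hg_3 S n j z h hA hz
  · exact hg_4 S n j z h hA hz
  · exact hg_5 S n j z h hs hA hz

theorem flow_Z (S : Seam k ld al) (n : Num) (j : ℕ) (hA : Adm S n j) {Λ : FLay}
    (h : LayZ S n j Λ) : FLow S n Λ := by
  cases h with
  | P => exact flow_P S n j hA
  | X z h => exact flow_X S n j z hA h
  | G z h => exact (hg_HoleAll S n j z hA h).1

theorem fmod_Z (S : Seam k ld al) (n : Num) (j : ℕ) (hA : Adm S n j) {Λ : FLay}
    (h : LayZ S n j Λ) : FMod S n Λ := by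
  cases h with
  | P => exact fmod_P S n j hA
  | X z h => exact fmod_X S n j z hA h
  | G z h => exact (hg_HoleAll S n j z hA h).2.1

theorem fzed_R (S : Seam k ld al) (n : Num) (j z : ℕ) (hA : Adm S n j) {Λ : FLay}
    (h : LayR S n j z Λ) : FZed S n Λ := by
  cases h with
  | X h => exact fzed_X S n j z hA h
  | G h => exact (hg_HoleAll S n j z hA h).2.2

theorem fstep_Z (S : Seam k ld al) (n : Num) (j : ℕ) (hP : 2 ≤ S.P) (hS : SeamP S)
    (hA : Adm S n (j + 1)) {Λ Λ' : FLay} (h : LayZ S n j Λ) (h' : LayZ S n (j + 1) Λ') :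
    FStep S n Λ Λ' := by
  have h2P := hS.m2P
  refine fstep_all S n j hA ?_ h h'
  intro M M' hM hM'
  rcases cases_HoleAll S n (j + 1) hA with h | h | h | h | h | ⟨h, hs⟩
  · exact fs_none S n j h hP hA hM hM'
  · exact fs_1 S n j h hP (hS.m1P h) hA hM hM'
  · exact fs_2 S n j h (by have := h2P (by omega); omega) hA hM hM'
  · exact fs_3 S n j h (by have := h2P (by omega); omega) hA hM hM'
  · exact fs_4 S n j h (by have := h2P (by omega); omega) hA hM hM'
  · exact fs_5 S n j h hs (by have := h2P (by omega); omega) hA hM hM'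

end Pool.Agent.Lob5
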