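import Pool.Agent.Lob5.LayAll
import Pool.Agent.Lob5.Ext

/-!
# One reserved label in the low zone (`K` even)

`n`: the numbers without the vertex `v = v_(K-1)`; `n.up`: with one more `X` label. The low zone has
`w = wz S n.up = wz S n + 1` labels, `m = mz S n.up = mz S n + 1`. One label `z` of the low zone is
reserved (it will be the label of a leaf at `v`). Two constructions:

* `z` is one of the labels `X` of the layout `layOf S n.up j` (`ZX`): this `X` label is removed,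
  everything else is unchanged (`funX`).
* `z` is above the last label `X` of this layout (`ZG`): `z` is inserted into the layout for `n`
  (`funG`): labels `x ≥ z` of the low zone become `x + 1` (`sk z x`), all labels above the low zone
  are shifted by one (`w` grows by one). In the mode 2 and in the last case of the mode 5 the label `y`
  of the special vertex has to be `y + 1` in any case (`preG`), so `z = y + 1` is excluded; in the
  mode 5 one value of `z` is excluded if the layout for `n` is `layLg` and that for `n.up` is not.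

`FLay`: layers as functions. `FLow`, `FMod`, `FZed`: the facts (cf. `LowOK`, `ExtOK`, `ModOK`),
`FStep`: two consecutive layers. All of them are checked by computer (`fok.cpp`) on millions of instances.
-/

namespace Pool.Agent.Lob5

/-- insertion of the label `z` -/
def sk (z x : ℕ) : ℕ := if z ≤ x then x + 1 else x

/-- one more `X` label -/
def Num.up (n : Num) : Num := { n with Ux := n.Ux + 1 }

/-- a layer, as functions: `p e` label of the path edge `e`, `X i` (`1 ≤ i ≤ U`) the labels `X`, `y`,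
`xs` the labels of the special vertex and its bush, `z` the reserved label -/
structure FLay where
  j : ℕ
  U : ℕ
  z : ℕ
  y : ℕ
  xs : ℕ
  xsf : Bool
  lg : Bool
  p : ℕ → ℕ
  X : ℕ → ℕ

/-- base -/
def FLay.bs (Λ : FLay) (i : ℕ) : ℕ := Λ.p i + Λ.p (i + 1)

variable {k : ℕ} {ld al : ℕ → Prop}

/-- the layout for `n.up` without reserved label -/
def funP (S : Seam k ld al) (n : Num) (j : ℕ) : FLay where
  j := j
  U := (layOf S n.up j).U
  z := 0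
  y := (layOf S n.up j).y
  xs := (layOf S n.up j).xs
  xsf := (layOf S n.up j).xsf
  lg := (layOf S n.up j).lg
  p := pl S n.up (layOf S n.up j)
  X := Xl S n.up (layOf S n.up j)

/-- `z` is one of the labels `X` -/
def ZX (S : Seam k ld al) (n : Num) (j z : ℕ) : Prop :=
  ∃ i, 1 ≤ i ∧ i ≤ (layOf S n.up j).U ∧ Xl S n.up (layOf S n.up j) i = z

/-- the label `X` with the value `z` is removed -/
def funX (S : Seam k ld al) (n : Num) (j z : ℕ) : FLay where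
  j := j
  U := (layOf S n.up j).U - 1
  z := z
  y := (layOf S n.up j).y
  xs := (layOf S n.up j).xs
  xsf := (layOf S n.up j).xsf
  lg := (layOf S n.up j).lg
  p := pl S n.up (layOf S n.up j)
  X := fun i => if Xl S n.up (layOf S n.up j) i < z then Xl S n.up (layOf S n.up j) i
    else Xl S n.up (layOf S n.up j) (i + 1)

/-- the sum of the special vertex is as large as possible -/
def topY (S : Seam k ld al) (n : Num) : Prop :=
  n.sp ≠ 0 ∧ (S.mode = 2 ∨ (S.mode = 5 ∧ n.nT + S.h < n.n2 + n.Ux + S.P + 2))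

instance (S : Seam k ld al) (n : Num) : Decidable (topY S n) := by
  unfold topY
  infer_instance

/-- the layout into which `z` is inserted -/
def preG (S : Seam k ld al) (n : Num) (j z : ℕ) : Lay :=
  if topY S n ∧ (layOf S n j).y + 1 < z then layS S n j ((layOf S n j).y + 1) else layOf S n j

/-- insertion of `z` into the layout `Λ` -/
def insG (S : Seam k ld al) (n : Num) (Λ : Lay) (z : ℕ) : FLay where
  j := Λ.j
  U := Λ.U
  z := z
  y := sk z Λ.y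
  xs := sk z Λ.xs
  xsf := Λ.xsf
  lg := Λ.lg
  p := fun e => if e % 2 = 1 then sk z (pl S n Λ e) else pl S n Λ e + 1
  X := fun i => sk z (Xl S n Λ i)

/-- `z` is above the labels `X` -/
structure ZG (S : Seam k ld al) (n : Num) (j z : ℕ) : Prop where
  gt : Xl S n.up (layOf S n.up j) (layOf S n.up j).U < z
  le : z ≤ wz S n.up
  ny : topY S n → z ≠ (layOf S n j).y + 1
  nl : n.sp ≠ 0 → S.mode = 5 → (layOf S n j).lg = true → (layOf S n.up j).lg = false →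
    z ≠ n.n2 + n.Ux + S.P + 2

/-- the layer with `z` above the labels `X` -/
def funG (S : Seam k ld al) (n : Num) (j z : ℕ) : FLay := insG S n (preG S n j z) z

/-- The general facts (for all three kinds of layers). -/
structure FLow (S : Seam k ld al) (n : Num) (Λ : FLay) : Prop where
  U_ge : n.nT ≤ Λ.U
  w_ge : n.n2 + Λ.j + Λ.U + S.h + 1 ≤ wz S n.up
  p_odd : ∀ e, 1 ≤ e → e ≤ k → e % 2 = 1 → n.n2 + Λ.j < Λ.p e ∧ Λ.p e ≤ wz S n.up
  p_even : ∀ e, e % 2 = 0 →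
    Λ.p e = wz S n.up + n.N0 + S.rk e + (if S.Q < S.rk e then n.nT else 0)
  p_inj : ∀ e f, 1 ≤ e → e ≤ k → 1 ≤ f → f ≤ k → Λ.p e = Λ.p f → e = f
  X_mono : StrictMono Λ.X
  X_lo : ∀ i, 1 ≤ i → n.n2 + Λ.j + S.P + i ≤ Λ.X i
  X_w : ∀ i, 1 ≤ i → i ≤ Λ.U → Λ.X i ≤ wz S n.up
  X_p : ∀ i e, 1 ≤ i → i ≤ Λ.U → 1 ≤ e → e ≤ k → e % 2 = 1 → Λ.X i ≠ Λ.p e
  C_lo : ∀ i, 1 ≤ i → i < k → ¬ ld i → wz S n.up + n.N0 < Λ.bs i
  C_up : ∀ i, 1 ≤ i → i < k → ¬ ld i → Λ.bs i ≤ wz S n.up + mz S n.up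
  C_inj : ∀ i i', 1 ≤ i → i < k → ¬ ld i → 1 ≤ i' → i' < k → ¬ ld i' →
    Λ.bs i = Λ.bs i' → i = i'
  C_gap : 1 ≤ Λ.U → ∀ i, 1 ≤ i → i < k → ¬ ld i →
    Λ.bs i < wz S n.up + n.N0 + S.Q + 1 + Λ.X 1 ∨
      wz S n.up + n.N0 + S.Q + n.nT + 1 + Λ.X Λ.U < Λ.bs i
  bP : ∀ i, ld i → (i ≠ S.q ∨ ¬ al i) →
    wz S n.up + n.N0 + n.nT + n.n2 + Λ.j + S.P ≤ Λ.bs i
  bQ : ∀ i, ld i → (i ≠ S.q ∨ ¬ al i) →
    wz S n.up + n.N0 + n.nT + n.n2 + Λ.j + S.Q ≤ Λ.bs i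
  bh : ∀ i, ld i → (i ≠ S.q ∨ ¬ al i) → (al i ∨ i = S.q ∨ S.h + 1 ≤ S.rk i + S.rk (i + 1)) →
    wz S n.up + n.N0 + n.nT + n.n2 + Λ.j + S.h + 1 ≤ Λ.bs i
  bupb : ∀ a, al a → a ≠ S.q → S.bad (oe a) → Λ.bs a + 1 ≤ 2 * wz S n.up + n.N0 + S.P
  bupg : ∀ a, al a → a ≠ S.q → ¬ S.bad (oe a) → Λ.bs a ≤ 2 * wz S n.up + n.N0 + S.Q
  shx : ∀ a x, al a → a ≠ S.q → S.bad (oe a) → ld x → ¬ al x → Λ.bs a < Λ.bs x + Λ.X 1
  Xr : ∀ t r, 1 ≤ t → t ≤ Λ.U → ld r → ¬ al r →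
    Λ.X t + wz S n.up + n.N0 + n.nT ≤ Λ.bs r + t + 2

/-- The facts which depend on the mode. -/
structure FMod (S : Seam k ld al) (n : Num) (Λ : FLay) : Prop where
  y_ok : n.sp ≠ 0 → Λ.lg = false →
    n.n2 + Λ.j < Λ.y ∧ Λ.y ≤ wz S n.up ∧
      (∀ i, 1 ≤ i → i ≤ Λ.U → Λ.X i ≠ Λ.y) ∧
      (∀ e, 1 ≤ e → e ≤ k → e % 2 = 1 → Λ.p e ≠ Λ.y)
  xs_ok : Λ.xsf = true → n.sp = 3 ∧ n.n2 + Λ.j < Λ.xs ∧ Λ.xs ≤ wz S n.up ∧ Λ.xs ≠ Λ.y ∧
    (∀ i, 1 ≤ i → i ≤ Λ.U → Λ.X i ≠ Λ.xs) ∧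
      (∀ e, 1 ≤ e → e ≤ k → e % 2 = 1 → Λ.p e ≠ Λ.xs)
  lg_ok : Λ.lg = true → n.sp = 1 ∧ Λ.xsf = false ∧
    wz S n.up + n.N0 + S.Q + 1 ≤ Λ.bs S.q ∧ Λ.bs S.q ≤ wz S n.up + n.N0 + S.Q + n.nT + 1
  V_lo : n.sp ≠ 0 → Λ.lg = false → wz S n.up + n.N0 < Λ.bs S.q + Λ.y
  V_up : n.sp ≠ 0 → Λ.lg = false →
    Λ.bs S.q + Λ.y ≤ wz S n.up + mz S n.up + n.n2 + Λ.j + 1
  V_C : n.sp ≠ 0 → Λ.lg = false → ∀ i, 1 ≤ i → i < k → ¬ ld i →
    Λ.bs i ≠ Λ.bs S.q + Λ.y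
  V_L : n.sp ≠ 0 → Λ.lg = false → 1 ≤ Λ.U →
    Λ.bs S.q + Λ.y < wz S n.up + n.N0 + S.Q + 1 + Λ.X 1 ∨
      wz S n.up + n.N0 + S.Q + n.nT + 1 + Λ.X Λ.U < Λ.bs S.q + Λ.y
  F3 : n.sp = 3 → Λ.xsf = false → n.nT + S.h + n.n2 + Λ.j + 1 ≤ Λ.y + Λ.X 1
  Fx : Λ.xsf = true → n.nT + S.h + n.n2 + Λ.j + 1 ≤ Λ.y + Λ.xs ∧
    Λ.y + Λ.xs ≤ n.nT + S.h + n.n2 + Λ.j + 3
  Dbb : ∀ a z, al a → a ≠ S.q → S.bad (oe a) → ld z → ¬ al z →
    Λ.bs a + (if n.sp = 0 ∧ S.mode = 5 then 1 else 0) ≤ Λ.bs z + S.Q + 1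
  Dgg : ∀ a z, al a → a ≠ S.q → ¬ S.bad (oe a) → ld z → ¬ al z → ¬ S.bad (oe z) →
    Λ.bs a ≤ Λ.bs z + S.Q + 1 + (if 2 ≤ n.sp then 1 else 0)
  Dgb : ∀ a z, al a → a ≠ S.q → ¬ S.bad (oe a) → ld z → ¬ al z → S.bad (oe z) →
    Λ.bs a + sg k ld al S.rk S.h S.q z + n.nT + Λ.j ≤ Λ.bs z + S.Q + n.Ux + 1

/-- The facts about the reserved label. -/
structure FZed (S : Seam k ld al) (n : Num) (Λ : FLay) : Prop where
  U_eq : Λ.U + Λ.j + (if Λ.xsf then 1 else 0) = n.Ux + (if Λ.lg then 1 else 0)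
  rng : n.n2 + Λ.j + S.P < Λ.z ∧ Λ.z ≤ wz S n.up
  p : ∀ e, 1 ≤ e → e ≤ k → e % 2 = 1 → Λ.p e ≠ Λ.z
  X : ∀ i, 1 ≤ i → i ≤ Λ.U → Λ.X i ≠ Λ.z
  y : n.sp ≠ 0 → Λ.lg = false → Λ.y ≠ Λ.z
  xs : Λ.xsf = true → Λ.xs ≠ Λ.z

/-- Two consecutive layers (cf. `StOK`). -/
structure FStep (S : Seam k ld al) (n : Num) (Λ Λ' : FLay) : Prop where
  st1 : ∀ i a, ld i → ¬ al i → al a → a ≠ S.q → ¬ S.bad (oe a) →
    Λ'.bs i + Λ.bs a + (n.n2 + Λ.j + 1) ≤ Λ.bs i + Λ'.bs a + Λ.X 1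
  st2 : ∀ a, al a → a ≠ S.q → ¬ S.bad (oe a) →
    Λ.bs a + (n.n2 + Λ.j + 1) ≤ Λ'.bs a + Λ.X 1

/-- the layers which are used -/
inductive LayZ (S : Seam k ld al) (n : Num) (j : ℕ) : FLay → Prop
  | P : LayZ S n j (funP S n j)
  | X (z : ℕ) (h : ZX S n j z) : LayZ S n j (funX S n j z)
  | G (z : ℕ) (h : ZG S n j z) : LayZ S n j (funG S n j z)

/-! ### elementary facts -/

theorem wz_up (S : Seam k ld al) (n : Num) : wz S n.up = wz S n + 1 := by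
  unfold wz Num.up
  dsimp only
  split_ifs <;> omega

theorem mz_up (S : Seam k ld al) (n : Num) : mz S n.up = mz S n + 1 := by
  unfold mz
  rw [wz_up]
  change wz S n + 1 + n.N0 + n.nT + S.h = _
  omega

theorem adm_up {S : Seam k ld al} {n : Num} {j : ℕ} (h : Adm S n j) : Adm S n.up j where
  n2T := h.n2T
  jU := by
    have := h.jU
    change _ ≤ n.Ux + 1
    change n.nT + j + (if 2 ≤ n.sp then 1 else 0) ≤ n.Ux + 1
    omega
  sp0 := h.sp0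
  sp14 := h.sp14
  sp5 := h.sp5

theorem sk_lt {z x y : ℕ} (h : x < y) : sk z x < sk z y := by
  unfold sk
  split_ifs <;> omega

theorem sk_mono (z : ℕ) : StrictMono (sk z) := fun _ _ h => sk_lt h

theorem sk_inj {z x y : ℕ} (h : sk z x = sk z y) : x = y := (sk_mono z).injective h

theorem le_sk (z x : ℕ) : x ≤ sk z x := by
  unfold sk
  split_ifs <;> omega

theorem sk_le (z x : ℕ) : sk z x ≤ x + 1 := by
  unfold sk
  split_ifs <;> omega

theorem sk_ne (z x : ℕ) : sk z x ≠ z := by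
  unfold sk
  split_ifs <;> omega

theorem sk_of_lt {z x : ℕ} (h : x < z) : sk z x = x := by
  unfold sk
  rw [if_neg (by omega)]

theorem lay_j' (S : Seam k ld al) (n : Num) (j : ℕ) : (layOf S n j).j = j := by
  unfold layOf lay1 lay2 lay3 lay4 lay5 layNone layLg layS layD
  dsimp only
  split_ifs <;> rfl

theorem preG_j (S : Seam k ld al) (n : Num) (j z : ℕ) : (preG S n j z).j = j := by
  unfold preG
  split_ifs
  · rfl
  · exact lay_j' S n j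

theorem LayZ.hj {S : Seam k ld al} {n : Num} {j : ℕ} {Λ : FLay} (h : LayZ S n j Λ) :
    Λ.j = j := by
  cases h with
  | P => rfl
  | X z h => rfl
  | G z h => exact preG_j S n j z

end Pool.Agent.Lob5
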