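import Pool.Agent.Lob5.HoleLy

/-!
# The facts about the vertex of role `FR` (mode 5, `sp = 0`)

`layOf = layNone` for `n` and `n.up` (`sp = 0`), `preG = layOf`. `funP`, `funX`: `r1_base`,
`r1_dist` for `n.up` (`n.up.Ux = n.Ux + 1`). `funG`: the base of every vertex grows by one or two
(`ins_two`), so `r1_base`, `r1_dist` for `n` give the claims.
-/

namespace Pool.Agent.Lob5

variable {k : ℕ} {ld al : ℕ → Prop}

/-- the base grows by one or two -/
private theorem ins_two (S : Seam k ld al) (n : Num) (Λ : Lay) (z i : ℕ) :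
    bs S n Λ i + 1 ≤ (insG S n Λ z).bs i ∧ (insG S n Λ z).bs i ≤ bs S n Λ i + 2 := by
  change bs S n Λ i + 1 ≤ (if i % 2 = 1 then sk z (pl S n Λ i) else pl S n Λ i + 1) +
      (if (i + 1) % 2 = 1 then sk z (pl S n Λ (i + 1)) else pl S n Λ (i + 1) + 1) ∧
    (if i % 2 = 1 then sk z (pl S n Λ i) else pl S n Λ i + 1) +
      (if (i + 1) % 2 = 1 then sk z (pl S n Λ (i + 1)) else pl S n Λ (i + 1) + 1) ≤
      bs S n Λ i + 2
  have h1 := le_sk z (pl S n Λ i)
  have h2 := sk_le z (pl S n Λ i)
  have h3 := le_sk z (pl S n Λ (i + 1))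
  have h4 := sk_le z (pl S n Λ (i + 1))
  unfold bs
  rcases Nat.mod_two_eq_zero_or_one i with h | h
  · rw [if_neg (by omega), if_pos (by omega)]
    omega
  · rw [if_pos (by omega), if_neg (by omega)]
    omega

theorem ffr (S : Seam k ld al) (n : Num) (j : ℕ) (hs : n.sp = 0) (hm : S.mode = 5)
    (hA : Adm S n j) {Λ : FLay} (h : LayZ S n j Λ) : FFR S n Λ := by
  have hsu : n.up.sp = 0 := hs
  have eu : layOf S n.up j = layNone S n.up j := by simp [layOf, hsu]
  have en : layOf S n j = layNone S n j := by simp [layOf, hs]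
  have hw := wz_up S n
  have b1 := r1_base S n.up j hsu (adm_up hA) hm
  have b2 := r1_base S n j hs hA hm
  have d1 := r1_dist S n.up j hsu (adm_up hA) hm
  have d2 := r1_dist S n j hs hA hm
  change bs S n.up (layNone S n.up j) S.q =
    wz S n.up + n.N0 + n.n2 + (n.Ux + 1) + S.P + 2 at b1
  have hP : ∀ i, (funP S n j).bs i = bs S n.up (layNone S n.up j) i := by
    intro i
    change bs S n.up (layOf S n.up j) i = _
    rw [eu]
  cases h with
  | P =>
    refine ⟨?_, ?_, ?_⟩
    · rw [hP]
      omega
    · rw [hP]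
      omega
    · intro i o hi ho hoq
      rw [hP, hP]
      exact d1 i o hi ho hoq
  | X z hz =>
    refine ⟨?_, ?_, ?_⟩
    · change _ ≤ (funP S n j).bs S.q
      rw [hP]
      omega
    · change (funP S n j).bs S.q ≤ _
      rw [hP]
      omega
    · intro i o hi ho hoq
      change (funP S n j).bs i ≤ (funP S n j).bs o + _
      rw [hP, hP]
      exact d1 i o hi ho hoq
  | G z hz =>
    have hpre : preG S n j z = layNone S n j := by
      unfold preG
      rw [if_neg (fun h => h.1.1 hs), en]
    have hG : funG S n j z = insG S n (layNone S n j) z := by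
      unfold funG
      rw [hpre]
    rw [hG]
    have i2 := ins_two S n (layNone S n j) z
    refine ⟨?_, ?_, ?_⟩
    · have := i2 S.q
      omega
    · have := i2 S.q
      omega
    · intro i o hi ho hoq
      have h1 := i2 i
      have h2 := i2 o
      have h3 := d2 i o hi ho hoq
      omega

end Pool.Agent.Lob5
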