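import Pool.Agent.Lob5.HoleDefs

/-!
# Insertion of `z` into a layout: the general facts

`Λ` is any layout with `k2 = false` (`flow_ins`) or as in the mode 3 (`flow_ins3`), `z` is above the
position of the last label `X` (of the last bad odd edge if `U = 0`). Let `L := lowOK_gen ..` (resp.
`lowOK_ii ..`). Labels: odd edges `sk z (pl e)`, even edges `pl e + 1`, `X i = sk z (Xl i)`.
Bases: `bs_ins : (insG S n Λ z).bs i = bs S n Λ i + 1 + (1 if z ≤ pl (oe i))`.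

* `bad_lt`: the bad odd labels (in the mode 3: except for the edge `q+1`, i.e. for vertices
  `i ≠ q, q+1`, `rk_lt_P`) are `lam y1 y2 (n2+j+rk)` with `rk ≤ P`, so `< z`, and `< Xl 1`; so for
  these vertices the base grows by exactly 1. `X i = Xl i` for `1 ≤ i ≤ U` by `hz` (`lam` monotone).
* `p_odd, p_even, p_inj, X_mono, X_lo, X_w, X_p`: from `L` and `sk_lt, sk_inj, le_sk, sk_le`.
* `C_lo, C_up`: from `p_odd`, `p_even` (`bs` is the sum of an odd and an even label, `rk ≤ h`).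
* `C_inj`: two unloaded vertices are comparable: `pl (oe i) ≤ pl (oe i')` and
`pl (ee i) ≤ pl (ee i')`, or
  conversely (same colour: `S.cmp` and monotonicity of `lam`; bad and good: positions
  `n2+j+rk ≤ n2+j+P < n2+j+U+P+1`, `rk (ee) ≤ Q < rk (ee')`; `S.same'`). This is preserved by
`sk z`,
  so equal sums give equal labels; then `p_inj` (see `lowOK_gen`, `lg_eq`: `oe i = oe i'` and
  `ee i = ee i'` imply `i = i'`).
* `C_gap`: bad (`bad_lt`): `bs = bs' + 1 < w' + N0 + Q + 1 + Xl 1 + 1`. Good: the second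
alternative of
  `L.C_gap` must hold (odd label `> Xl U`, even label `≥ w'+N0+nT+Q+1`) and stays true.
* `bP, bQ, bh`: the bases grow by at least one. `bupb`: `bad_lt`; one needs
  `bs a + 1 ≤ 2 * wz S n + N0 + P` for `Λ`, see the proof of `bupb` in `ext_gen` / `ext_ii` in
`Ext.lean`
  (private there, copy it: only `hw` and `hU` are used); `bupg` the same.
* `shx`: `bad_lt` for `a`. (Mode 3: `a ≠ q`, and `a ≠ q+1` as `q+1` is not `al`.)
* `Xr`: `X t = Xl t ≤ n2+j+P+t+2` (`L.X_up`) and `L.bP`, `w = wz S n + 1`.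
* `fzed_ins`: `sk_ne`.
* `dab_ins`: `bad_lt` for `a` with bad odd edge; otherwise the base of `a` grows by at most 2 and
the base
  of `z` by at least 1.
* `dab_layS`: modes 2 and 5 (`sp ≠ 0`), a layout with one inserted label, `Λ.U + Λ.j = Ux`: as in
  `Mod2`/`Mod5`: with `J i = rk i + rk (i+1)`, `bs_bg, bs_gb`, the shift by `lam` is 0 or 1;
  `Dbb`: `S.tbb, S.tbg`; `Dgg`: `S.tgg`; `Dgb`: `S.tgb`, `U = Ux - j ≥ nT`.
-/

namespace Pool.Agent.Lob5

variable {k : ℕ} {ld al : ℕ → Prop}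

private theorem hi_sk (z x : ℕ) : sk z x = x + (if z ≤ x then 1 else 0) := by
  unfold sk
  split_ifs <;> rfl

private theorem hi_sh {y1 y2 i j : ℕ} (h : i ≤ j) : lam y1 y2 i + j ≤ lam y1 y2 j + i := by
  unfold lam
  split_ifs <;> omega

private theorem hi_le {y1 y2 i j : ℕ} (h : i ≤ j) : lam y1 y2 i ≤ lam y1 y2 j :=
  (lam_mono y1 y2).monotone h

private theorem hi_oe {i : ℕ} (h1 : 1 ≤ i) (h2 : i < k) : 1 ≤ oe i ∧ oe i ≤ k := by
  unfold oe
  split_ifs <;> omega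

private theorem hi_ee {i : ℕ} (h1 : 1 ≤ i) (h2 : i < k) : 1 ≤ ee i ∧ ee i ≤ k := by
  unfold ee
  split_ifs <;> omega

private theorem hi_rng (S : Seam k ld al) {i : ℕ} (h1 : 1 ≤ i) (h2 : i < k) :
    (S.bad (oe i) → 1 ≤ S.rk (oe i) ∧ S.rk (oe i) ≤ S.P) ∧
    (¬ S.bad (oe i) → S.P + 1 ≤ S.rk (oe i) ∧ S.rk (oe i) ≤ S.h + 1) ∧
    (S.bad (ee i) → 1 ≤ S.rk (ee i) ∧ S.rk (ee i) ≤ S.Q) ∧
    (¬ S.bad (ee i) → S.Q + 1 ≤ S.rk (ee i) ∧ S.rk (ee i) ≤ S.h) :=
  ⟨S.rk_ob _ (hi_oe h1 h2).1 (hi_oe h1 h2).2 oe_odd,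
    S.rk_og _ (hi_oe h1 h2).1 (hi_oe h1 h2).2 oe_odd,
    S.rk_eb _ (hi_ee h1 h2).1 (hi_ee h1 h2).2 ee_even,
    S.rk_eg _ (hi_ee h1 h2).1 (hi_ee h1 h2).2 ee_even⟩

private theorem hi_lop (S : Seam k ld al) (n : Num) (Λ : Lay) (hk2 : Λ.k2 = false) (r : ℕ) :
    lop S n Λ r = if r ≤ S.P then n.n2 + Λ.j + r else n.n2 + Λ.j + Λ.U + r := by
  unfold lop
  rw [hk2]
  simp

private theorem hi_odd (S : Seam k ld al) (n : Num) (Λ : Lay) {e : ℕ} (h : e % 2 = 1) :
    pl S n Λ e = lam Λ.y1 Λ.y2 (lop S n Λ (S.rk e)) := by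
  unfold pl
  rw [if_pos h]

private theorem hi_even (S : Seam k ld al) (n : Num) (Λ : Lay) {e : ℕ} (h : e % 2 = 0) :
    pl S n Λ e = wz S n + n.N0 + S.rk e + (if S.Q < S.rk e then n.nT else 0) := by
  unfold pl
  rw [if_neg (by omega)]

/-- the two labels at a vertex -/
private theorem hi_two (S : Seam k ld al) (n : Num) (Λ : Lay) (i : ℕ) :
    bs S n Λ i = pl S n Λ (oe i) + pl S n Λ (ee i) := by
  unfold bs oe ee
  by_cases h : i % 2 = 1
  · rw [if_pos h, if_pos h]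
  · rw [if_neg h, if_neg h, add_comm]

private theorem hi_Xl (S : Seam k ld al) (n : Num) (Λ : Lay) (hk2 : Λ.k2 = false) (i : ℕ) :
    Xl S n Λ i = lam Λ.y1 Λ.y2 (n.n2 + Λ.j + S.P + i) := by
  unfold Xl
  rw [hk2]
  rfl

/-- unloaded vertices have comparable ranks -/
private theorem hi_cmp (S : Seam k ld al) {i i' : ℕ} (h1 : 1 ≤ i) (h2 : i < k) (h3 : ¬ ld i)
    (h1' : 1 ≤ i') (h2' : i' < k) (h3' : ¬ ld i') :
    (S.rk (oe i) ≤ S.rk (oe i') ∧ S.rk (ee i) ≤ S.rk (ee i')) ∨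
      (S.rk (oe i') ≤ S.rk (oe i) ∧ S.rk (ee i') ≤ S.rk (ee i)) := by
  obtain ⟨ho, hbi⟩ := S.same' h1 h2 h3
  obtain ⟨ho', hbi'⟩ := S.same' h1' h2' h3'
  obtain ⟨r1, r2, r3, r4⟩ := hi_rng S h1 h2
  obtain ⟨r1', r2', r3', r4'⟩ := hi_rng S h1' h2'
  by_cases hc : S.bad (oe i) <;> by_cases hc' : S.bad (oe i')
  · exact S.cmp i i' h1 h2 h3 h1' h2' h3' ⟨fun _ => hbi'.1 hc', fun _ => hbi.1 hc⟩
  · left
    have h7 := r1 hc
    have h8 := r3 (ho.1 hc)
    have h9 := r2' hc'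
    have h10 := r4' (fun h => hc' (ho'.2 h))
    omega
  · right
    have h7 := r1' hc'
    have h8 := r3' (ho'.1 hc')
    have h9 := r2 hc
    have h10 := r4 (fun h => hc (ho.2 h))
    omega
  · exact S.cmp i i' h1 h2 h3 h1' h2' h3'
      ⟨fun h => absurd (hbi.2 h) hc, fun h => absurd (hbi'.2 h) hc'⟩

theorem bs_ins (S : Seam k ld al) (n : Num) (Λ : Lay) (z i : ℕ) :
    (insG S n Λ z).bs i = bs S n Λ i + 1 + (if z ≤ pl S n Λ (oe i) then 1 else 0) := by
  unfold FLay.bs insG bs oe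
  dsimp only
  by_cases h : i % 2 = 1
  · have h' : ¬ (i + 1) % 2 = 1 := by omega
    simp only [h, h', if_true, if_false, hi_sk]
    omega
  · have h' : (i + 1) % 2 = 1 := by omega
    simp only [h, h', if_true, if_false, hi_sk]
    omega

theorem bad_lt (S : Seam k ld al) (n : Num) (Λ : Lay) (hk2 : Λ.k2 = false) {z : ℕ}
    (hz : lam Λ.y1 Λ.y2 (n.n2 + Λ.j + S.P + Λ.U) < z) {i : ℕ} (h1 : 1 ≤ i) (h2 : i < k)
    (hb : S.bad (oe i)) : pl S n Λ (oe i) < z ∧ pl S n Λ (oe i) < Xl S n Λ 1 := by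
  obtain ⟨r1, r2, r3, r4⟩ := hi_rng S h1 h2
  have h3 := r1 hb
  rw [hi_odd S n Λ oe_odd, hi_lop S n Λ hk2, if_pos h3.2, hi_Xl S n Λ hk2]
  have h4 := hi_le (y1 := Λ.y1) (y2 := Λ.y2)
    (show n.n2 + Λ.j + S.rk (oe i) ≤ n.n2 + Λ.j + S.P + Λ.U by omega)
  have h5 := lam_lt (y1 := Λ.y1) (y2 := Λ.y2)
    (show n.n2 + Λ.j + S.rk (oe i) < n.n2 + Λ.j + S.P + 1 by omega)
  omega

theorem flow_ins (S : Seam k ld al) (n : Num) (Λ : Lay) (z : ℕ) (hk2 : Λ.k2 = false)
    (h1 : n.n2 + Λ.j < Λ.y1) (h12 : Λ.y1 < Λ.y2)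
    (hw : wz S n = n.n2 + Λ.j + Λ.U + S.h + 1 + (if Λ.y1 ≤ wz S n then 1 else 0)
      + (if Λ.y2 ≤ wz S n then 1 else 0))
    (hU : n.nT ≤ Λ.U) (hz : lam Λ.y1 Λ.y2 (n.n2 + Λ.j + S.P + Λ.U) < z)
    (hzw : z ≤ wz S n + 1) : FLow S n (insG S n Λ z) := by
  have L := lowOK_gen S n Λ hk2 h1 h12 hw hU
  have hPh := S.Ph
  have hQh := S.Qh
  have hwu := wz_up S n
  have hmu := mz_up S n
  have hlw : ∀ i, i ≤ n.n2 + Λ.j + Λ.U + S.h + 1 →
      lam Λ.y1 Λ.y2 i + (n.n2 + Λ.j + Λ.U + S.h + 1) ≤ wz S n + i := by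
    intro i hi
    refine (hi_sh hi).trans ?_
    have : lam Λ.y1 Λ.y2 (n.n2 + Λ.j + Λ.U + S.h + 1) ≤ wz S n := by
      unfold lam
      split_ifs at hw ⊢ <;> omega
    omega
  have hXz : ∀ t, t ≤ Λ.U → Xl S n Λ t < z := by
    intro t ht
    rw [hi_Xl S n Λ hk2]
    have := hi_le (y1 := Λ.y1) (y2 := Λ.y2)
      (show n.n2 + Λ.j + S.P + t ≤ n.n2 + Λ.j + S.P + Λ.U by omega)
    omega
  have hXe : ∀ t, t ≤ Λ.U → (insG S n Λ z).X t = Xl S n Λ t := fun t ht =>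
    sk_of_lt (hXz t ht)
  have hpo : ∀ e, e % 2 = 1 → (insG S n Λ z).p e = sk z (pl S n Λ e) := fun e he => by
    change (if e % 2 = 1 then sk z (pl S n Λ e) else pl S n Λ e + 1) = _
    rw [if_pos he]
  have hpe : ∀ e, e % 2 = 0 → (insG S n Λ z).p e = pl S n Λ e + 1 := fun e he => by
    change (if e % 2 = 1 then sk z (pl S n Λ e) else pl S n Λ e + 1) = _
    rw [if_neg (by omega)]
  have hbs := bs_ins S n Λ z
  have hlo : ∀ i, bs S n Λ i + 1 ≤ (insG S n Λ z).bs i := fun i => by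
    rw [hbs]
    omega
  have hup : ∀ i, (insG S n Λ z).bs i ≤ bs S n Λ i + 2 := fun i => by
    rw [hbs]
    split_ifs <;> omega
  have hbb : ∀ i, 1 ≤ i → i < k → S.bad (oe i) → (insG S n Λ z).bs i = bs S n Λ i + 1 := by
    intro i h3 h4 h5
    have h6 := (bad_lt S n Λ hk2 hz h3 h4 h5).1
    rw [hbs, if_neg (by omega)]
  refine
    { U_ge := hU
      w_ge := ?_
      p_odd := ?_
      p_even := ?_
      p_inj := ?_
      X_mono := ?_
      X_lo := ?_
      X_w := ?_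
      X_p := ?_
      C_lo := ?_
      C_up := ?_
      C_inj := ?_
      C_gap := ?_
      bP := ?_
      bQ := ?_
      bh := ?_
      bupb := ?_
      bupg := ?_
      shx := ?_
      Xr := ?_ }
  · -- w_ge
    change n.n2 + Λ.j + Λ.U + S.h + 1 ≤ wz S n.up
    have := L.w_ge
    omega
  · -- p_odd
    intro e h3 h4 h5
    change n.n2 + Λ.j < _ ∧ _
    rw [hpo e h5, hwu]
    have h6 := L.p_odd e h3 h4 h5
    have h7 := le_sk z (pl S n Λ e)
    have h8 := sk_le z (pl S n Λ e)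
    omega
  · -- p_even
    intro e h3
    rw [hpe e h3, hi_even S n Λ h3, hwu]
    omega
  · -- p_inj
    intro e f h3 h4 h5 h6 h7
    rcases Nat.mod_two_eq_zero_or_one e with he | he <;>
      rcases Nat.mod_two_eq_zero_or_one f with hf | hf
    · rw [hpe e he, hpe f hf] at h7
      exact L.p_inj e f h3 h4 h5 h6 (by omega)
    · rw [hpe e he, hpo f hf] at h7
      have h8 := L.p_even e h3 h4 he
      have h9 := L.p_odd f h5 h6 hf
      have h10 := sk_le z (pl S n Λ f)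
      omega
    · rw [hpo e he, hpe f hf] at h7
      have h8 := L.p_even f h5 h6 hf
      have h9 := L.p_odd e h3 h4 he
      have h10 := sk_le z (pl S n Λ e)
      omega
    · rw [hpo e he, hpo f hf] at h7
      exact L.p_inj e f h3 h4 h5 h6 (sk_inj h7)
  · -- X_mono
    intro i i' h
    exact sk_lt (L.X_mono h)
  · -- X_lo
    intro i h
    change n.n2 + Λ.j + S.P + i ≤ sk z (Xl S n Λ i)
    have h3 := L.X_lo i h
    have h4 := le_sk z (Xl S n Λ i)
    omega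
  · -- X_w
    intro i h h'
    change sk z (Xl S n Λ i) ≤ _
    have h3 := L.X_w i h h'
    have h4 := sk_le z (Xl S n Λ i)
    omega
  · -- X_p
    intro i e h3 h4 h5 h6 h7 h8
    rw [hpo e h7] at h8
    exact L.X_p i e h3 h4 h5 h6 h7 (sk_inj h8)
  · -- C_lo
    intro i h3 h4 h5
    have h6 := L.C_lo i h3 h4 h5
    have h7 := hlo i
    omega
  · -- C_up
    intro i h3 h4 h5
    have h6 := L.C_up i h3 h4 h5
    have h7 := hup i
    omega
  · -- C_inj
    intro i i' h3 h4 h5 h3' h4' h5' h6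
    refine L.C_inj i i' h3 h4 h5 h3' h4' h5' ?_
    have hsum : ∀ i, (insG S n Λ z).bs i = sk z (pl S n Λ (oe i)) + pl S n Λ (ee i) + 1 := by
      intro i
      rw [hbs, hi_two, hi_sk]
      omega
    have hmo : ∀ i i', S.rk (oe i) ≤ S.rk (oe i') →
        pl S n Λ (oe i) ≤ pl S n Λ (oe i') := by
      intro i i' h
      rw [hi_odd S n Λ oe_odd, hi_odd S n Λ oe_odd]
      refine hi_le ?_
      rw [hi_lop S n Λ hk2, hi_lop S n Λ hk2]
      split_ifs <;> omega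
    have hme : ∀ i i', S.rk (ee i) ≤ S.rk (ee i') →
        pl S n Λ (ee i) ≤ pl S n Λ (ee i') := by
      intro i i' h
      rw [hi_even S n Λ ee_even, hi_even S n Λ ee_even]
      split_ifs <;> omega
    have hkey : ∀ i i', S.rk (oe i) ≤ S.rk (oe i') → S.rk (ee i) ≤ S.rk (ee i') →
        (insG S n Λ z).bs i = (insG S n Λ z).bs i' → bs S n Λ i = bs S n Λ i' := by
      intro i i' h7 h8 h9
      have h10 := hmo i i' h7
      have h11 := hme i i' h8
      have h12' := (sk_mono z).monotone h10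
      rw [hsum, hsum] at h9
      have h13 : sk z (pl S n Λ (oe i)) = sk z (pl S n Λ (oe i')) := by omega
      have h14 := sk_inj h13
      rw [hi_two, hi_two]
      omega
    rcases hi_cmp S h3 h4 h5 h3' h4' h5' with ⟨h7, h8⟩ | ⟨h7, h8⟩
    · exact hkey i i' h7 h8 h6
    · exact (hkey i' i h7 h8 h6.symm).symm
  · -- C_gap
    intro hU1 i h3 h4 h5
    change 1 ≤ Λ.U at hU1
    change (insG S n Λ z).bs i < wz S n.up + n.N0 + S.Q + 1 + (insG S n Λ z).X 1 ∨
      wz S n.up + n.N0 + S.Q + n.nT + 1 + (insG S n Λ z).X Λ.U < (insG S n Λ z).bs i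
    rw [hXe 1 hU1, hXe Λ.U le_rfl, hwu]
    by_cases hb : S.bad (oe i)
    · rw [hbb i h3 h4 hb]
      rcases L.C_gap hU1 i h3 h4 h5 with h6 | h6
      · left
        omega
      · right
        omega
    · right
      obtain ⟨ho, hbi⟩ := S.same' h3 h4 h5
      obtain ⟨r1, r2, r3, r4⟩ := hi_rng S h3 h4
      have he : ¬ S.bad (ee i) := fun h => hb (ho.2 h)
      have h6 := bs_gg S n Λ hk2 h3 h4 hb he
      have h7 := r2 hb
      have h8 := r4 he
      have h9 := lam_lt (y1 := Λ.y1) (y2 := Λ.y2)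
        (show n.n2 + Λ.j + S.P + Λ.U < n.n2 + Λ.j + Λ.U + S.rk (oe i) by omega)
      have h10 := hlo i
      rw [hi_Xl S n Λ hk2]
      omega
  · -- bP
    intro i h3 h4
    change wz S n.up + n.N0 + n.nT + n.n2 + Λ.j + S.P ≤ _
    have h5 := L.bP i h3 h4
    have h6 := hlo i
    omega
  · -- bQ
    intro i h3 h4
    change wz S n.up + n.N0 + n.nT + n.n2 + Λ.j + S.Q ≤ _
    have h5 := L.bQ i h3 h4
    have h6 := hlo i
    omega
  · -- bh
    intro i h3 h4 h5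
    change wz S n.up + n.N0 + n.nT + n.n2 + Λ.j + S.h + 1 ≤ _
    have h5 := L.bh i h3 h4 h5
    have h6 := hlo i
    omega
  · -- bupb
    intro a ha _ hb
    have hl := S.al_ld a ha
    have ha1 := S.ld_pos a hl
    have ha2 := S.ld_lt a hl
    obtain ⟨r1, r2, r3, r4⟩ := hi_rng S ha1 ha2
    have hg : ¬ S.bad (ee a) := (S.diff' hl).1 hb
    have h4 := bs_bg S n Λ hk2 ha1 ha2 hb hg
    have h5 := hlw (n.n2 + Λ.j + S.rk (oe a)) (by have := r1 hb; omega)
    have h6 := r1 hb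
    have h7 := r4 hg
    rw [hbb a ha1 ha2 hb]
    omega
  · -- bupg
    intro a ha _ hb
    have hl := S.al_ld a ha
    have ha1 := S.ld_pos a hl
    have ha2 := S.ld_lt a hl
    obtain ⟨r1, r2, r3, r4⟩ := hi_rng S ha1 ha2
    have hg : S.bad (ee a) := by
      by_contra hg
      exact hb ((S.diff' hl).2 hg)
    have h4 := bs_gb S n Λ hk2 ha1 ha2 hb hg
    have h5 := hlw (n.n2 + Λ.j + Λ.U + S.rk (oe a)) (by have := r2 hb; omega)
    have h6 := r2 hb
    have h7 := r3 hg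
    have h8 := hup a
    omega
  · -- shx
    intro a x ha haq hb hx hxa
    have hl := S.al_ld a ha
    have ha1 := S.ld_pos a hl
    have ha2 := S.ld_lt a hl
    change (insG S n Λ z).bs a < (insG S n Λ z).bs x + sk z (Xl S n Λ 1)
    rw [hbb a ha1 ha2 hb]
    have h6 := L.shx a x ha haq hb hx hxa
    have h7 := hlo x
    have h8 := le_sk z (Xl S n Λ 1)
    omega
  · -- Xr
    intro t r h3 h4 h5 h6
    rw [hXe t h4]
    have h7 := L.X_up t
    have h8 := L.bP r h5 (Or.inr h6)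
    have h9 := hlo r
    omega

theorem fzed_ins (S : Seam k ld al) (n : Num) (Λ : Lay) (z : ℕ)
    (hU : Λ.U + Λ.j + (if Λ.xsf then 1 else 0) = n.Ux + (if Λ.lg then 1 else 0))
    (hr : n.n2 + Λ.j + S.P < z) (hzw : z ≤ wz S n + 1) : FZed S n (insG S n Λ z) where
  U_eq := hU
  rng := ⟨hr, by rw [wz_up]; exact hzw⟩
  p := fun e _ _ h3 => by
    change (if e % 2 = 1 then sk z (pl S n Λ e) else pl S n Λ e + 1) ≠ z
    rw [if_pos h3]
    exact sk_ne z _
  X := fun i _ _ => sk_ne z _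
  y := fun _ _ => sk_ne z _
  xs := fun _ => sk_ne z _

/-- the comparison facts of a layout -/
structure DabOK (S : Seam k ld al) (n : Num) (Λ : Lay) : Prop where
  Dbb : ∀ a z, al a → a ≠ S.q → S.bad (oe a) → ld z → ¬ al z →
    bs S n Λ a + (if n.sp = 0 ∧ S.mode = 5 then 1 else 0) ≤ bs S n Λ z + S.Q + 1
  Dgg : ∀ a z, al a → a ≠ S.q → ¬ S.bad (oe a) → ld z → ¬ al z → ¬ S.bad (oe z) →
    bs S n Λ a ≤ bs S n Λ z + S.Q + (if 2 ≤ n.sp then 1 else 0)
  Dgb : ∀ a z, al a → a ≠ S.q → ¬ S.bad (oe a) → ld z → ¬ al z → S.bad (oe z) →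
    bs S n Λ a + sg k ld al S.rk S.h S.q z + n.nT + Λ.j ≤ bs S n Λ z + S.Q + n.Ux

theorem ModOK.dab {S : Seam k ld al} {n : Num} {Λ : Lay} (M : ModOK S n Λ) : DabOK S n Λ :=
  ⟨M.Dbb, M.Dgg, M.Dgb⟩

/-- The comparison facts after the insertion of `z`. -/
theorem dab_ins (S : Seam k ld al) (n : Num) (Λ : Lay) (z : ℕ) (M : DabOK S n Λ)
    (hb : ∀ a, al a → a ≠ S.q → S.bad (oe a) → pl S n Λ (oe a) < z) :
    (∀ a z', al a → a ≠ S.q → S.bad (oe a) → ld z' → ¬ al z' →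
      (insG S n Λ z).bs a + (if n.sp = 0 ∧ S.mode = 5 then 1 else 0) ≤
        (insG S n Λ z).bs z' + S.Q + 1) ∧
    (∀ a z', al a → a ≠ S.q → ¬ S.bad (oe a) → ld z' → ¬ al z' → ¬ S.bad (oe z') →
      (insG S n Λ z).bs a ≤ (insG S n Λ z).bs z' + S.Q + 1 + (if 2 ≤ n.sp then 1 else 0)) ∧
    (∀ a z', al a → a ≠ S.q → ¬ S.bad (oe a) → ld z' → ¬ al z' → S.bad (oe z') →
      (insG S n Λ z).bs a + sg k ld al S.rk S.h S.q z' + n.nT + (insG S n Λ z).j ≤
        (insG S n Λ z).bs z' + S.Q + n.Ux + 1) := by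
  have hlo : ∀ i, bs S n Λ i + 1 ≤ (insG S n Λ z).bs i := fun i => by
    rw [bs_ins]
    omega
  have hup : ∀ i, (insG S n Λ z).bs i ≤ bs S n Λ i + 2 := fun i => by
    rw [bs_ins]
    split_ifs <;> omega
  refine ⟨?_, ?_, ?_⟩
  · intro a z' ha haq hba hz hz'
    have h1 := hb a ha haq hba
    have h2 := M.Dbb a z' ha haq hba hz hz'
    have h3 := hlo z'
    have h4 : (insG S n Λ z).bs a = bs S n Λ a + 1 := by
      rw [bs_ins, if_neg (by omega)]
    omega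
  · intro a z' ha haq hba hz hz' hbz
    have h2 := M.Dgg a z' ha haq hba hz hz' hbz
    have h3 := hlo z'
    have h4 := hup a
    omega
  · intro a z' ha haq hba hz hz' hbz
    have h2 := M.Dgb a z' ha haq hba hz hz' hbz
    have h3 := hlo z'
    have h4 := hup a
    change (insG S n Λ z).bs a + sg k ld al S.rk S.h S.q z' + n.nT + Λ.j ≤
      (insG S n Λ z).bs z' + S.Q + n.Ux + 1
    omega

private theorem hi_lam {y1 y2 i : ℕ} (h : i + 1 < y2) :
    i ≤ lam y1 y2 i ∧ lam y1 y2 i ≤ i + 1 := by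
  unfold lam
  rw [if_neg (by omega : ¬ y2 ≤ i + 1)]
  split_ifs <;> omega

theorem dab_layS (S : Seam k ld al) (n : Num) (j y : ℕ) (hm : S.mode = 2 ∨ S.mode = 5)
    (hs : n.sp ≠ 0) (hA : Adm S n j) (hy1 : n.n2 + j < y) (hy2 : y ≤ wz S n) :
    DabOK S n (layS S n j y) := by
  have hPh := S.Ph
  have hQh := S.Qh
  have hjU := hA.jU
  have hj : n.nT + j ≤ n.Ux := by split_ifs at hjU <;> omega
  have hw : wz S n = n.n2 + n.Ux + S.h + 2 := by
    unfold wz
    rw [if_neg hs]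
  have hm4 : S.mode ≠ 4 := by omega
  have hm3 : ¬ (S.mode = 0 ∨ S.mode = 3) := by omega
  have hm125 : S.mode = 1 ∨ S.mode = 2 ∨ S.mode = 5 := by omega
  have hB : ∀ i, ld i → S.bad (oe i) →
      wz S n + n.N0 + n.nT + n.n2 + j + (S.rk i + S.rk (i + 1)) ≤ bs S n (layS S n j y) i ∧
        bs S n (layS S n j y) i ≤
          wz S n + n.N0 + n.nT + n.n2 + j + (S.rk i + S.rk (i + 1)) + 1 := by
    intro i hi hb
    have h1 := S.ld_pos i hi
    have h2 := S.ld_lt i hi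
    obtain ⟨r1, r2, r3, r4⟩ := hi_rng S h1 h2
    have h4 := r1 hb
    have h5 := rk_sum S.rk i
    rw [bs_bg S n (layS S n j y) rfl h1 h2 hb ((S.diff' hi).1 hb)]
    change wz S n + n.N0 + n.nT + n.n2 + j + (S.rk i + S.rk (i + 1)) ≤
      wz S n + n.N0 + n.nT + lam y (wz S n + 2) (n.n2 + j + S.rk (oe i)) + S.rk (ee i) ∧
      wz S n + n.N0 + n.nT + lam y (wz S n + 2) (n.n2 + j + S.rk (oe i)) + S.rk (ee i) ≤
        wz S n + n.N0 + n.nT + n.n2 + j + (S.rk i + S.rk (i + 1)) + 1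
    have h6 := hi_lam (y1 := y) (y2 := wz S n + 2) (i := n.n2 + j + S.rk (oe i)) (by omega)
    omega
  have hG : ∀ i, ld i → ¬ S.bad (oe i) →
      wz S n + n.N0 + n.n2 + j + (n.Ux - j) + (S.rk i + S.rk (i + 1)) ≤
        bs S n (layS S n j y) i ∧
        bs S n (layS S n j y) i ≤
          wz S n + n.N0 + n.n2 + j + (n.Ux - j) + (S.rk i + S.rk (i + 1)) + 1 := by
    intro i hi hb
    have h1 := S.ld_pos i hi
    have h2 := S.ld_lt i hi
    obtain ⟨r1, r2, r3, r4⟩ := hi_rng S h1 h2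
    have h4 := r2 hb
    have h5 := rk_sum S.rk i
    have he : S.bad (ee i) := by
      by_contra h
      exact hb ((S.diff' hi).2 h)
    rw [bs_gb S n (layS S n j y) rfl h1 h2 hb he]
    change wz S n + n.N0 + n.n2 + j + (n.Ux - j) + (S.rk i + S.rk (i + 1)) ≤
      wz S n + n.N0 + lam y (wz S n + 2) (n.n2 + j + (n.Ux - j) + S.rk (oe i)) +
        S.rk (ee i) ∧
      wz S n + n.N0 + lam y (wz S n + 2) (n.n2 + j + (n.Ux - j) + S.rk (oe i)) +
        S.rk (ee i) ≤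
        wz S n + n.N0 + n.n2 + j + (n.Ux - j) + (S.rk i + S.rk (i + 1)) + 1
    have h6 := hi_lam (y1 := y) (y2 := wz S n + 2)
      (i := n.n2 + j + (n.Ux - j) + S.rk (oe i)) (by omega)
    omega
  refine ⟨?_, ?_, ?_⟩
  · intro a z ha haq hba hz hz'
    rw [if_neg (fun h => hs h.1)]
    have h9 := (hB a (S.al_ld a ha) hba).2
    by_cases hbz : S.bad (oe z)
    · have h10 := (hB z hz hbz).1
      have h11 := S.tbb a z ha haq hba hz hz' hbz
      rw [if_pos hm125] at h11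
      omega
    · have h10 := (hG z hz hbz).1
      have h11 := S.tbg a z ha haq hba hz hz' hbz
      rw [if_neg hm4] at h11
      omega
  · intro a z ha haq hba hz hz' hbz
    have h9 := (hG a (S.al_ld a ha) hba).2
    have h10 := (hG z hz hbz).1
    have h11 := S.tgg a z ha haq hba hz hz' hbz
    omega
  · intro a z ha haq hba hz hz' hbz
    change bs S n (layS S n j y) a + sg k ld al S.rk S.h S.q z + n.nT + j ≤ _
    have h9 := (hG a (S.al_ld a ha) hba).2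
    have h10 := (hB z hz hbz).1
    have h11 := S.tgb a z ha haq hba hz hz' hbz
    rw [if_neg hm3] at h11
    omega

end Pool.Agent.Lob5
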