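import Pool.Agent.Lob5.HoleIns

/-!
# Insertion of `z` into a layout of the mode 3: the general facts

As `flow_ins` (read the docstring of `HoleIns`), with `L := lowOK_ii ..` instead of `lowOK_gen`.
Here `k2 = true`: positions: bad odd edges of rank `r < P`: `n2+j+r`; `X i`: `n2+j+P-1+i`; good odd
edges of rank `r`: `n2+j+U+r-1`; the edge `q+1` (bad, rank `P`): `n2+j+U+h+1`. Unloaded vertices do
not contain the edge `q+1` (`q` and `q+1` are loaded), `rk_lt_P`; `al` vertices `≠ q` neither.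
`bupb, bupg`: see `ext_ii` in `Ext.lean`.
-/

namespace Pool.Agent.Lob5

variable {k : ℕ} {ld al : ℕ → Prop}

private theorem i3_oe {i : ℕ} (h1 : 1 ≤ i) (h2 : i < k) : 1 ≤ oe i ∧ oe i ≤ k := by
  unfold oe
  split_ifs <;> omega

private theorem i3_ee {i : ℕ} (h1 : 1 ≤ i) (h2 : i < k) : 1 ≤ ee i ∧ ee i ≤ k := by
  unfold ee
  split_ifs <;> omega

private theorem i3_sh {y1 y2 i j : ℕ} (h : i ≤ j) : lam y1 y2 i + j ≤ lam y1 y2 j + i := by
  unfold lam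
  split_ifs <;> omega

private theorem i3_plo (S : Seam k ld al) (n : Num) (Λ : Lay) {e : ℕ} (h : e % 2 = 1) :
    pl S n Λ e = lam Λ.y1 Λ.y2 (lop S n Λ (S.rk e)) := by
  unfold pl
  rw [if_pos h]

private theorem i3_ple (S : Seam k ld al) (n : Num) (Λ : Lay) {e : ℕ} (h : e % 2 = 0) :
    pl S n Λ e = wz S n + n.N0 + S.rk e + (if S.Q < S.rk e then n.nT else 0) := by
  unfold pl
  rw [if_neg (by omega)]

private theorem i3_bs (S : Seam k ld al) (n : Num) (Λ : Lay) (i : ℕ) :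
    bs S n Λ i = pl S n Λ (oe i) + pl S n Λ (ee i) := by
  unfold bs oe ee
  split_ifs <;> omega

private theorem i3_lop (S : Seam k ld al) (n : Num) (Λ : Lay) (hk2 : Λ.k2 = true) (r : ℕ) :
    lop S n Λ r = if r < S.P then n.n2 + Λ.j + r
      else if r = S.P then n.n2 + Λ.j + Λ.U + S.h + 1
      else n.n2 + Λ.j + Λ.U + r - 1 := by
  unfold lop
  rw [if_pos hk2]

private theorem i3_X (S : Seam k ld al) (n : Num) (Λ : Lay) (hk2 : Λ.k2 = true) (i : ℕ) :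
    Xl S n Λ i = lam Λ.y1 Λ.y2 (n.n2 + Λ.j + S.P + i - 1) := by
  unfold Xl
  rw [if_pos hk2]

theorem bad_lt3 (S : Seam k ld al) (n : Num) (Λ : Lay) (hm : S.mode = 3) (hk2 : Λ.k2 = true)
    {z : ℕ} (hz : lam Λ.y1 Λ.y2 (n.n2 + Λ.j + S.P + Λ.U - 1) < z) {i : ℕ} (h1 : 1 ≤ i)
    (h2 : i < k) (hb : S.bad (oe i)) (hq : i ≠ S.q) (hq1 : i ≠ S.q + 1) :
    pl S n Λ (oe i) < z ∧ pl S n Λ (oe i) < Xl S n Λ 1 := by
  have h3 := rk_lt_P S hm h1 h2 hb hq hq1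
  have h4 : pl S n Λ (oe i) = lam Λ.y1 Λ.y2 (n.n2 + Λ.j + S.rk (oe i)) := by
    rw [i3_plo S n Λ oe_odd, i3_lop S n Λ hk2, if_pos h3]
  rw [h4, i3_X S n Λ hk2]
  constructor
  · exact lt_of_le_of_lt ((lam_mono Λ.y1 Λ.y2).monotone (by omega)) hz
  · exact lam_lt (by omega)

theorem flow_ins3 (S : Seam k ld al) (n : Num) (Λ : Lay) (z : ℕ) (hm : S.mode = 3)
    (hk2 : Λ.k2 = true) (h1 : Λ.y1 = n.n2 + Λ.j + 1) (h12 : Λ.y1 < Λ.y2)
    (hw : wz S n = n.n2 + Λ.j + Λ.U + S.h + 1 + 1 + (if Λ.y2 ≤ wz S n then 1 else 0))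
    (hU : n.nT ≤ Λ.U) (hz : lam Λ.y1 Λ.y2 (n.n2 + Λ.j + S.P + Λ.U - 1) < z)
    (hzw : z ≤ wz S n + 1) : FLow S n (insG S n Λ z) := by
  have L := lowOK_ii S n Λ hm hk2 h1 h12 hw hU
  have hP1 := S.P1
  have hPh := S.Ph
  have hQh := S.Qh
  have hwu := wz_up S n
  have hmu := mz_up S n
  obtain ⟨hqal, hqbad, hq2, hqrk, hq1rk⟩ := S.m2 (Or.inr hm)
  obtain ⟨hq1k, hq1ld, hq1al, hq2rk⟩ := S.m3 hm
  have hpo : ∀ e, e % 2 = 1 → (insG S n Λ z).p e = sk z (pl S n Λ e) := fun e h => by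
    change (if e % 2 = 1 then sk z (pl S n Λ e) else pl S n Λ e + 1) = _
    rw [if_pos h]
  have hpe : ∀ e, e % 2 = 0 → (insG S n Λ z).p e = pl S n Λ e + 1 := fun e h => by
    change (if e % 2 = 1 then sk z (pl S n Λ e) else pl S n Λ e + 1) = _
    rw [if_neg (by omega)]
  have hXi : ∀ i, (insG S n Λ z).X i = sk z (Xl S n Λ i) := fun _ => rfl
  have hbs : ∀ i, (insG S n Λ z).bs i = sk z (pl S n Λ (oe i)) + (pl S n Λ (ee i) + 1) := by
    intro i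
    rw [← hpo _ oe_odd, ← hpe _ ee_even]
    unfold FLay.bs oe ee
    split_ifs <;> omega
  have hb1 : ∀ i, bs S n Λ i + 1 ≤ (insG S n Λ z).bs i := by
    intro i
    rw [hbs, i3_bs]
    have := le_sk z (pl S n Λ (oe i))
    omega
  have hb2 : ∀ i, (insG S n Λ z).bs i ≤ bs S n Λ i + 2 := by
    intro i
    rw [hbs, i3_bs]
    have := sk_le z (pl S n Λ (oe i))
    omega
  have hbb : ∀ i, 1 ≤ i → i < k → S.bad (oe i) → i ≠ S.q → i ≠ S.q + 1 →
      (insG S n Λ z).bs i = bs S n Λ i + 1 := by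
    intro i h3 h4 h5 h6 h7
    rw [hbs, i3_bs, sk_of_lt (bad_lt3 S n Λ hm hk2 hz h3 h4 h5 h6 h7).1]
    omega
  have hX1 : Xl S n Λ 1 ≤ (insG S n Λ z).X 1 := le_sk _ _
  have hrgo : ∀ i, 1 ≤ i → i < k → (S.bad (oe i) → 1 ≤ S.rk (oe i) ∧ S.rk (oe i) ≤ S.P) ∧
      (¬ S.bad (oe i) → S.P + 1 ≤ S.rk (oe i) ∧ S.rk (oe i) ≤ S.h + 1) := fun i h3 h4 =>
    ⟨S.rk_ob _ (i3_oe h3 h4).1 (i3_oe h3 h4).2 oe_odd,
      S.rk_og _ (i3_oe h3 h4).1 (i3_oe h3 h4).2 oe_odd⟩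
  have hrge : ∀ i, 1 ≤ i → i < k → (S.bad (ee i) → 1 ≤ S.rk (ee i) ∧ S.rk (ee i) ≤ S.Q) ∧
      (¬ S.bad (ee i) → S.Q + 1 ≤ S.rk (ee i) ∧ S.rk (ee i) ≤ S.h) := fun i h3 h4 =>
    ⟨S.rk_eb _ (i3_ee h3 h4).1 (i3_ee h3 h4).2 ee_even,
      S.rk_eg _ (i3_ee h3 h4).1 (i3_ee h3 h4).2 ee_even⟩
  -- the unloaded vertices
  have hunl : ∀ i, 1 ≤ i → i < k → ¬ ld i →
      (S.bad i ∧ S.bad (oe i) ∧ i ≠ S.q ∧ i ≠ S.q + 1 ∧ S.rk (oe i) + 1 ≤ S.P ∧
        S.rk (ee i) ≤ S.Q ∧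
        pl S n Λ (oe i) = lam Λ.y1 Λ.y2 (n.n2 + Λ.j + S.rk (oe i)) ∧
        pl S n Λ (ee i) = wz S n + n.N0 + S.rk (ee i)) ∨
      (¬ S.bad i ∧ S.P + 1 ≤ S.rk (oe i) ∧ S.Q + 1 ≤ S.rk (ee i) ∧
        pl S n Λ (oe i) = lam Λ.y1 Λ.y2 (n.n2 + Λ.j + Λ.U + S.rk (oe i) - 1) ∧
        pl S n Λ (ee i) = wz S n + n.N0 + n.nT + S.rk (ee i)) := by
    intro i h3 h4 h5
    obtain ⟨h6, h7⟩ := S.same' h3 h4 h5
    by_cases hb : S.bad i
    · left
      have ho := h7.2 hb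
      have he := h6.1 ho
      have hiq : i ≠ S.q := fun h => h5 (h ▸ S.al_ld _ hqal)
      have hiq1 : i ≠ S.q + 1 := fun h => h5 (h ▸ hq1ld)
      have h8 := rk_lt_P S hm h3 h4 ho hiq hiq1
      have h9 := (hrge i h3 h4).1 he
      refine ⟨hb, ho, hiq, hiq1, h8, h9.2, ?_, ?_⟩
      · rw [i3_plo S n Λ oe_odd, i3_lop S n Λ hk2, if_pos h8]
      · rw [i3_ple S n Λ ee_even, if_neg (by omega), add_zero]
    · right
      have ho : ¬ S.bad (oe i) := fun h => hb (h7.1 h)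
      have he : ¬ S.bad (ee i) := fun h => ho (h6.2 h)
      have h8 := (hrgo i h3 h4).2 ho
      have h9 := (hrge i h3 h4).2 he
      refine ⟨hb, h8.1, h9.1, ?_, ?_⟩
      · rw [i3_plo S n Λ oe_odd, i3_lop S n Λ hk2, if_neg (by omega), if_neg (by omega)]
      · rw [i3_ple S n Λ ee_even, if_pos (by omega)]
        omega
  have hlw : ∀ i, i ≤ n.n2 + Λ.j + Λ.U + S.h + 1 →
      lam Λ.y1 Λ.y2 i + (n.n2 + Λ.j + Λ.U + S.h + 1) ≤ wz S n + i := by
    intro i hi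
    refine (i3_sh hi).trans ?_
    have : lam Λ.y1 Λ.y2 (n.n2 + Λ.j + Λ.U + S.h + 1) ≤ wz S n := by
      unfold lam
      split_ifs at hw ⊢ <;> omega
    omega
  have hlm : ∀ {i j : ℕ}, i ≤ j → lam Λ.y1 Λ.y2 i ≤ lam Λ.y1 Λ.y2 j := fun h =>
    (lam_mono Λ.y1 Λ.y2).monotone h
  refine
    { U_ge := hU
      w_ge := ?_
      p_odd := ?_
      p_even := ?_
      p_inj := ?_
      X_mono := ?_
      X_lo := ?_
      X_w := ?_
      X_p := ?_
      C_lo := ?_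
      C_up := ?_
      C_inj := ?_
      C_gap := ?_
      bP := ?_
      bQ := ?_
      bh := ?_
      bupb := ?_
      bupg := ?_
      shx := ?_
      Xr := ?_ }
  · have h3 := L.w_ge
    change n.n2 + Λ.j + Λ.U + S.h + 1 ≤ wz S n.up
    omega
  · intro e h3 h4 h5
    have h6 := L.p_odd e h3 h4 h5
    rw [hpo e h5]
    have h7 := le_sk z (pl S n Λ e)
    have h8 := sk_le z (pl S n Λ e)
    change n.n2 + Λ.j < _ ∧ _
    omega
  · intro e h3
    rw [hpe e h3, i3_ple S n Λ h3, hwu]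
    omega
  · intro e f h3 h4 h5 h6 h7
    rcases Nat.mod_two_eq_zero_or_one e with he | he <;>
      rcases Nat.mod_two_eq_zero_or_one f with hf | hf
    · rw [hpe e he, hpe f hf] at h7
      exact L.p_inj e f h3 h4 h5 h6 (by omega)
    · exfalso
      rw [hpe e he, hpo f hf] at h7
      have h8 := L.p_even e h3 h4 he
      have h9 := L.p_odd f h5 h6 hf
      have h10 := sk_le z (pl S n Λ f)
      omega
    · exfalso
      rw [hpo e he, hpe f hf] at h7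
      have h8 := L.p_even f h5 h6 hf
      have h9 := L.p_odd e h3 h4 he
      have h10 := sk_le z (pl S n Λ e)
      omega
    · rw [hpo e he, hpo f hf] at h7
      exact L.p_inj e f h3 h4 h5 h6 (sk_inj h7)
  · exact (sk_mono z).comp L.X_mono
  · intro i hi
    exact (L.X_lo i hi).trans (le_sk _ _)
  · intro i hi hiU
    have h3 := L.X_w i hi hiU
    have h4 := sk_le z (Xl S n Λ i)
    rw [hXi, hwu]
    omega
  · intro i e hi hiU h3 h4 h5 h6
    rw [hXi, hpo e h5] at h6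
    exact L.X_p i e hi hiU h3 h4 h5 (sk_inj h6)
  · intro i h3 h4 h5
    have h6 := L.C_lo i h3 h4 h5
    have h7 := hb1 i
    omega
  · intro i h3 h4 h5
    have h6 := L.C_up i h3 h4 h5
    have h7 := hb2 i
    omega
  · intro i i' h3 h4 h5 h6 h7 h8 h9
    have hc : (pl S n Λ (oe i) ≤ pl S n Λ (oe i') ∧ pl S n Λ (ee i) ≤ pl S n Λ (ee i')) ∨
        (pl S n Λ (oe i') ≤ pl S n Λ (oe i) ∧ pl S n Λ (ee i') ≤ pl S n Λ (ee i)) := by
      rcases hunl i h3 h4 h5 with ⟨b1, -, -, -, r1, r2, p1, p2⟩ | ⟨b1, r1, r2, p1, p2⟩ <;>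
        rcases hunl i' h6 h7 h8 with ⟨b1', -, -, -, r1', r2', p1', p2'⟩ |
          ⟨b1', r1', r2', p1', p2'⟩ <;>
        rw [p1, p2, p1', p2']
      · rcases S.cmp i i' h3 h4 h5 h6 h7 h8 (by tauto) with ⟨c1, c2⟩ | ⟨c1, c2⟩
        · exact Or.inl ⟨hlm (by omega), by omega⟩
        · exact Or.inr ⟨hlm (by omega), by omega⟩
      · exact Or.inl ⟨hlm (by omega), by omega⟩
      · exact Or.inr ⟨hlm (by omega), by omega⟩
      · rcases S.cmp i i' h3 h4 h5 h6 h7 h8 (by tauto) with ⟨c1, c2⟩ | ⟨c1, c2⟩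
        · exact Or.inl ⟨hlm (by omega), by omega⟩
        · exact Or.inr ⟨hlm (by omega), by omega⟩
    rw [hbs, hbs] at h9
    have h10 : sk z (pl S n Λ (oe i)) = sk z (pl S n Λ (oe i')) ∧
        pl S n Λ (ee i) = pl S n Λ (ee i') := by
      rcases hc with ⟨c1, c2⟩ | ⟨c1, c2⟩
      · have c3 := (sk_mono z).monotone c1
        omega
      · have c3 := (sk_mono z).monotone c1
        omega
    apply L.C_inj i i' h3 h4 h5 h6 h7 h8
    rw [i3_bs, i3_bs, sk_inj h10.1, h10.2]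
  · intro hU1 i h3 h4 h5
    change 1 ≤ Λ.U at hU1
    rcases hunl i h3 h4 h5 with ⟨b1, b2, b3, b4, r1, r2, p1, p2⟩ | ⟨b1, r1, r2, p1, p2⟩
    · left
      have h6 := bad_lt3 S n Λ hm hk2 hz h3 h4 b2 b3 b4
      rw [hbb i h3 h4 b2 b3 b4, i3_bs, p2, hwu]
      omega
    · right
      have h6 : Xl S n Λ Λ.U < pl S n Λ (oe i) := by
        rw [p1, i3_X S n Λ hk2]
        exact lam_lt (by omega)
      have h7 := sk_lt (z := z) h6
      rw [hbs, p2, hwu]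
      change wz S n + 1 + n.N0 + S.Q + n.nT + 1 + sk z (Xl S n Λ Λ.U) < _
      omega
  · intro i h3 h4
    have h5 := L.bP i h3 h4
    have h6 := hb1 i
    rw [hwu]
    change wz S n + 1 + n.N0 + n.nT + n.n2 + Λ.j + S.P ≤ _
    omega
  · intro i h3 h4
    have h5 := L.bQ i h3 h4
    have h6 := hb1 i
    rw [hwu]
    change wz S n + 1 + n.N0 + n.nT + n.n2 + Λ.j + S.Q ≤ _
    omega
  · intro i h3 h4 h5
    have h6 := L.bh i h3 h4 h5
    have h7 := hb1 i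
    rw [hwu]
    change wz S n + 1 + n.N0 + n.nT + n.n2 + Λ.j + S.h + 1 ≤ _
    omega
  · intro a ha haq hb
    have h3 := S.al_ld a ha
    have h4 := S.ld_pos a h3
    have h5 := S.ld_lt a h3
    have haq1 : a ≠ S.q + 1 := fun h => hq1al (h ▸ ha)
    have h6 := rk_lt_P S hm h4 h5 hb haq haq1
    have h7 := (S.diff' h3).1 hb
    have h8 := (hrge a h4 h5).2 h7
    have h9 := hlw (n.n2 + Λ.j + S.rk (oe a)) (by omega)
    rw [hbb a h4 h5 hb haq haq1, bs2_bg S n Λ hk2 h4 h5 hb h6 h7, hwu]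
    omega
  · intro a ha haq hb
    have h3 := S.al_ld a ha
    have h4 := S.ld_pos a h3
    have h5 := S.ld_lt a h3
    have h7 : S.bad (ee a) := by
      by_contra h7
      exact hb ((S.diff' h3).2 h7)
    have h6 := (hrgo a h4 h5).2 hb
    have h8 := (hrge a h4 h5).1 h7
    have h9 := hlw (n.n2 + Λ.j + Λ.U + S.rk (oe a) - 1) (by omega)
    have h10 := hb2 a
    rw [bs2_gb S n Λ hk2 h4 h5 hb h7] at h10
    rw [hwu]
    omega
  · intro a x ha haq hb hx hxa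
    have h3 := S.al_ld a ha
    have haq1 : a ≠ S.q + 1 := fun h => hq1al (h ▸ ha)
    have h4 := L.shx a x ha haq hb hx hxa
    have h5 := hbb a (S.ld_pos a h3) (S.ld_lt a h3) hb haq haq1
    have h6 := hb1 x
    omega
  · intro t r ht htU hr hra
    change t ≤ Λ.U at htU
    have h3 : Xl S n Λ t < z := by
      refine lt_of_le_of_lt ?_ hz
      rw [i3_X S n Λ hk2]
      exact hlm (by omega)
    have h4 := L.X_up t
    have h5 := L.bP r hr (Or.inr hra)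
    have h6 := hb1 r
    rw [hXi, sk_of_lt h3, hwu]
    omega

end Pool.Agent.Lob5
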