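import Pool.Agent.Lob5.HoleDefs
import Pool.Agent.Lob5.OddDefs

/-!
# `K = k + 1` even: the layers of the word of length `k` satisfy `LyOK`

`nmZ`: the numbers (`e` static labels including `pk`; `eb`, `et` the bottom and the top ones; if
`2 ≤ sp` and `e = 2` both are on the top, `s0v = w + N0`, `pk = w + N0 - 1`; otherwise `pk = w + N0`,
`s0v = w + N0 - 1`). `ux` is the number of `X` labels which are used, `c + [2 ≤ sp]` the number `c0`.
`lyZ`: the layer; `pK` is the label of the path edge `K = k + 1`, `xk, lk` the values `xf k`, `lg k`, and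
`yv k = xv k = z`. Here only the vertices `1 ≤ i < k` are considered (`LyOK .. k`), the vertex `k` comes in
`HoleLyB`.

Proof: adaptation of `E4Ly` (`ly_gen4`): the facts `L : LowOK`, `M : ModOK`, `E : ExtOK` are replaced by the
fields of `hL : FLow`, `hM : FMod`, and `r1_base, r1_dist` by `hR : FFR`; all vertices and edges are `≤ k`,
so the values at `k` (`xk, lk, z`) and at `k + 1` (`pK`) do not occur. Differences to `E4Ly`:
* `e ≥ 1`, and `e ≥ 2` if `2 ≤ sp`, give `et ≥ 1 + [2 ≤ sp]` and `eb + et = e` (`ebO, etO`);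
  `thr_le'`: `thr = 2w+N0+nT+h+n2+j+1 ≤ 3w+N0` by `w_ge`, `U_ge`.
* `Dgg`: `hM.Dgg` and `et ≥ 1 + [2 ≤ sp]`. `Dgb`: `hM.Dgb`, `hc : c + n.Ux ≤ ux`, `et ≥ 1 + [2 ≤ sp]`.
* `bbP`, `lt`: `e = 0` is impossible. `oW1, oW2`: `i = N.om = k` is impossible for `i < k`.
* `xW1`: here `xf`, so `sp = 3` and `et = 2` (if `e = 2`) or `et ≥ 2`: `y + xs ≤ nT+h+n2+j+3`,
  `s0v ≤ w+N0` (`= w+N0-1` if `e ≥ 3`), `bs z ≥ w+N0+nT+n2+j+P`, `h+1 ≤ P+Q`: if `e = 2`:
  `w+N0 + nT+h+n2+j+3 < w+N0+nT+n2+j+P+Q+1+2`; if `e ≥ 3` one more. Also `bQ` may be used.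
* `xW2`: `y + s0v + xs ≤ w+N0+nT+h+n2+j+3 ≤ 2w+N0+Q+X 1` (`w_ge`, `X_lo`, `P, Q` with `P ≥ 1`).
* `Xr`: `hL.Xr`. `Rq`: `FFR.r1b`, `2 ≤ h` (`S.m5h`), `w = n2+Ux+h+2` (`sp = 0`, `wz_up`).
* `nxf_eq`, `nlg_eq`: as in `E4Ly` (only vertices `< k`).
-/

namespace Pool.Agent.Lob5

variable {k : ℕ} {ld al : ℕ → Prop}

/-- number of static labels at the bottom of the middle zone -/
def ebO (sp e : ℕ) : ℕ := if 2 ≤ sp ∧ e = 2 then 0 else e / 2

/-- number of static labels at the top of the middle zone -/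
def etO (sp e : ℕ) : ℕ := if 2 ≤ sp ∧ e = 2 then 2 else (e + 1) / 2

theorem eb_et (sp e : ℕ) : ebO sp e + etO sp e = e := by
  unfold ebO etO
  split_ifs <;> omega

theorem et_ge (sp e : ℕ) (h1 : 1 ≤ e) (h2 : 2 ≤ sp → 2 ≤ e) :
    1 + (if 2 ≤ sp then 1 else 0) ≤ etO sp e := by
  unfold etO
  split_ifs <;> omega

/-- the numbers for the verification -/
def nmZ (S : Seam k ld al) (n : Num) (e ux c : ℕ) : Nm where
  h := S.h
  P := S.P
  Q := S.Q
  w := wz S n.up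
  N0 := n.N0
  nT := n.nT
  n2 := n.n2
  Ux := ux
  e := e
  eb := ebO n.sp e
  et := etO n.sp e
  s1 := 0
  s0v := wz S n.up + n.N0 - (if 2 ≤ n.sp ∧ e = 2 then 0 else 1)
  pk := wz S n.up + n.N0 - (if 2 ≤ n.sp ∧ e = 2 then 1 else 0)
  c0 := c + if 2 ≤ n.sp then 1 else 0
  om := k
  g1 := wz S n.up + n.N0 + S.Q + n.nT + 1
  kb := fun i => S.bad (oe i)
  cd := fun i => i = S.q ∨ S.h + 1 ≤ S.rk i + S.rk (i + 1)

/-- the layers -/
def lyZ (S : Seam k ld al) (n : Num) (Λ : FLay) (pK : ℕ) (xk lk : Bool) (a b : ℕ) : Ly where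
  j := Λ.j
  U := Λ.U
  thr := wz S n.up + mz S n.up + n.n2 + Λ.j + 1
  be := wz S n.up + n.N0
  nxf := (if Λ.xsf then 1 else 0) + a
  nlg := (if Λ.lg then 1 else 0) + b
  yv := fun i => if i = k then Λ.z else Λ.y
  xv := fun i => if i = k then Λ.z else Λ.xs
  xf := fun i => if i = k then xk else Λ.xsf
  lg := fun i => if i = k then lk else Λ.lg
  p := fun e => if e = k + 1 then pK else Λ.p e
  X := fun i => if i = 0 then 0 else Λ.X i

/-- facts about the vertex `FR` -/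
structure FFR (S : Seam k ld al) (n : Num) (Λ : FLay) : Prop where
  r1a : wz S n.up + n.N0 + n.n2 + n.Ux + S.P + 2 ≤ Λ.bs S.q
  r1b : Λ.bs S.q ≤ wz S n.up + n.N0 + n.n2 + n.Ux + S.P + 3
  r2 : ∀ i o, ld i → ld o → o ≠ S.q → Λ.bs i ≤ Λ.bs o + wz S n.up

/-- the translation of the roles -/
structure CtxZ (S : Seam k ld al) (n : Num) (e : ℕ) (rv : ℕ → RV) : Prop where
  eN : e ≤ n.N0
  e1 : 1 ≤ e
  e2 : 2 ≤ n.sp → 2 ≤ e
  C : ∀ i, 1 ≤ i → i < k → rv i = .C → ¬ ld i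
  A : ∀ i, 1 ≤ i → i < k → (rv i).isA = true → al i ∧ i ≠ S.q
  N : ∀ i, 1 ≤ i → i < k → (rv i).isN = true → ld i ∧ ¬ al i
  As : ∀ i, 1 ≤ i → i < k → rv i = .As → i = S.q ∧ n.sp = 1
  Fs : ∀ i, 1 ≤ i → i < k → rv i = .Fs → i = S.q ∧ (n.sp = 2 ∨ n.sp = 3)
  FR : ∀ i, 1 ≤ i → i < k → rv i = .FR → i = S.q ∧ n.sp = 0 ∧ S.mode = 5
  q1 : n.sp = 1 → 1 ≤ S.q ∧ rv S.q = .As
  q3 : 2 ≤ n.sp → 1 ≤ S.q ∧ rv S.q = .Fs

private theorem isS_isN {r : RV} (h : r.isS = true) : r.isN = true := by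
  cases r <;> simp_all [RV.isS, RV.isN]

private theorem II_isN {r : RV} (h : r = .II ∨ r = .I) : r.isN = true := by
  rcases h with h | h <;> subst h <;> rfl

private theorem isT_FRS {r : RV} (h : r.isT = true) : r = .FR ∨ r.isS = true := by
  cases r <;> simp_all [RV.isS, RV.isT]

private theorem lyA_gen (S : Seam k ld al) (n : Num) {e j ux c : ℕ} {rv : ℕ → RV}
    (H : CtxZ S n e rv) (hA : Adm S n j) (Λ : FLay) (hj : Λ.j = j) (hL : FLow S n Λ)
    (hM : FMod S n Λ) (hR : n.sp = 0 → S.mode = 5 → FFR S n Λ)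
    (hU : Λ.U + Λ.j + (if Λ.xsf then 1 else 0) = ux + (if Λ.lg then 1 else 0))
    (hc : c + n.Ux ≤ ux) (pK : ℕ) (xk lk : Bool)
    (N : Nm) (hN : N = nmZ S n e ux c) (Y : Ly) (hY : Y = lyZ S n Λ pK xk lk 0 0) :
    LyOK N Y rv k := by
  classical
  have He1 := H.e1
  have hEt := et_ge n.sp e H.e1 H.e2
  have hEE := eb_et n.sp e
  -- the numbers
  have e_h : N.h = S.h := by rw [hN]; rfl
  have e_P : N.P = S.P := by rw [hN]; rfl
  have e_Q : N.Q = S.Q := by rw [hN]; rfl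
  have e_w : N.w = wz S n.up := by rw [hN]; rfl
  have e_N0 : N.N0 = n.N0 := by rw [hN]; rfl
  have e_nT : N.nT = n.nT := by rw [hN]; rfl
  have e_n2 : N.n2 = n.n2 := by rw [hN]; rfl
  have e_Ux : N.Ux = ux := by rw [hN]; rfl
  have e_e : N.e = e := by rw [hN]; rfl
  have e_eb : N.eb = ebO n.sp e := by rw [hN]; rfl
  have e_et : N.et = etO n.sp e := by rw [hN]; rfl
  have e_s1 : N.s1 = 0 := by rw [hN]; rfl
  have e_s0v : N.s0v = wz S n.up + n.N0 - (if 2 ≤ n.sp ∧ e = 2 then 0 else 1) := by rw [hN]; rfl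
  have e_c0 : N.c0 = c + if 2 ≤ n.sp then 1 else 0 := by rw [hN]; rfl
  have e_om : N.om = k := by rw [hN]; rfl
  have e_g1 : N.g1 = wz S n.up + n.N0 + S.Q + n.nT + 1 := by rw [hN]; rfl
  have e_kb : ∀ i, N.kb i ↔ S.bad (oe i) := by intro i; rw [hN]; rfl
  have e_cd : ∀ i, N.cd i ↔ (i = S.q ∨ S.h + 1 ≤ S.rk i + S.rk (i + 1)) := by
    intro i; rw [hN]; rfl
  have f_j : Y.j = Λ.j := by rw [hY]; rfl
  have f_U : Y.U = Λ.U := by rw [hY]; rfl
  have f_thr : Y.thr = wz S n.up + mz S n.up + n.n2 + Λ.j + 1 := by rw [hY]; rfl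
  have f_be : Y.be = wz S n.up + n.N0 := by rw [hY]; rfl
  have f_nxf : Y.nxf = if Λ.xsf then 1 else 0 := by rw [hY]; rfl
  have f_nlg : Y.nlg = if Λ.lg then 1 else 0 := by rw [hY]; rfl
  have f_yv : ∀ i, i < k → Y.yv i = Λ.y := by
    intro i hi
    rw [hY]
    exact if_neg (by omega)
  have f_xv : ∀ i, i < k → Y.xv i = Λ.xs := by
    intro i hi
    rw [hY]
    exact if_neg (by omega)
  have f_xf : ∀ i, i < k → Y.xf i = Λ.xsf := by
    intro i hi
    rw [hY]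
    exact if_neg (by omega)
  have f_lg : ∀ i, i < k → Y.lg i = Λ.lg := by
    intro i hi
    rw [hY]
    exact if_neg (by omega)
  have f_p : ∀ i, i ≤ k → Y.p i = Λ.p i := by
    intro i hi
    rw [hY]
    exact if_neg (by omega)
  have f_bs : ∀ i, i < k → Y.bs i = Λ.bs i := by
    intro i hi
    unfold Ly.bs FLay.bs
    rw [f_p i (by omega), f_p (i + 1) (by omega)]
  have f_X0 : Y.X 0 = 0 := by rw [hY]; rfl
  have f_X : ∀ i, 1 ≤ i → Y.X i = Λ.X i := by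
    intro i hi
    rw [hY]
    exact if_neg (by omega)
  have e_m : mz S n.up = wz S n.up + n.N0 + n.nT + S.h := rfl
  have hPh := S.Ph
  have hQh := S.Qh
  have hPQ := S.PQ
  have hP1 := S.P1
  have hk := S.hk
  have hh1 := S.h1
  have hqk := S.hq
  have hUg := hL.U_ge
  have hwg := hL.w_ge
  have hX1 := hL.X_lo 1 le_rfl
  have fX1 := f_X 1 le_rfl
  have hN0 : e ≤ n.N0 := H.eN
  have hjU : n.nT + j ≤ n.Ux := by
    have := hA.jU
    omega
  -- the roles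
  have noFslg : 2 ≤ n.sp → Λ.lg = false := by
    intro h
    by_contra hc
    have := (hM.lg_ok (by simpa using hc)).1
    omega
  have ysq : ∀ i, 1 ≤ i → i < k → Y.ys rv i → i = S.q ∧ n.sp ≠ 0 ∧ Λ.lg = false := by
    intro i h1 h2 h
    rcases h with ⟨h3, h4⟩ | h3
    · obtain ⟨h5, h6⟩ := H.As i h1 h2 h3
      exact ⟨h5, by omega, by rw [← f_lg i h2]; exact h4⟩
    · obtain ⟨h5, h6⟩ := H.Fs i h1 h2 h3
      exact ⟨h5, by omega, noFslg (by omega)⟩
  have xsq : ∀ i, 1 ≤ i → i < k → Y.xs N rv i →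
      i = S.q ∧ n.sp = 3 ∧ Λ.xsf = true ∧ rv i = .Fs := by
    intro i h1 h2 h
    obtain ⟨h3, h4⟩ := h
    have h5 : rv i = .Fs := by
      rcases h4 with h4 | ⟨h4, _⟩
      · exact h4
      · rw [e_om] at h4
        omega
    rw [f_xf i h2] at h3
    exact ⟨(H.Fs i h1 h2 h5).1, (hM.xs_ok h3).1, h3, h5⟩
  have FRn : (∃ i, 1 ≤ i ∧ i < k ∧ rv i = .FR) → n.sp = 0 ∧ S.mode = 5 ∧ rv S.q = .FR ∧
      FFR S n Λ := by
    rintro ⟨i, h1, h2, h3⟩
    obtain ⟨h4, h5, h6⟩ := H.FR i h1 h2 h3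
    exact ⟨h5, h6, by rw [← h4]; exact h3, hR h5 h6⟩
  have pev : ∀ e, e ≤ k → e % 2 = 0 → wz S n.up < Y.p e ∨ e = 0 := by
    intro e h2 h3
    rcases Nat.eq_zero_or_pos e with h0 | h0
    · exact Or.inr h0
    · left
      rw [f_p e h2, hL.p_even e h3]
      by_cases hb : S.bad e
      · have := S.rk_eb e h0 h2 h3 hb
        omega
      · have := S.rk_eg e h0 h2 h3 hb
        omega
  have hmono : StrictMono Y.X := by
    intro a b hab
    have hb : 1 ≤ b := by omega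
    rw [f_X b hb]
    by_cases ha : a = 0
    · rw [ha, f_X0]
      have := hL.X_lo b hb
      omega
    · rw [f_X a (by omega)]
      exact hL.X_mono hab
  have base_P : ∀ z, 1 ≤ z → z < k → (rv z).isN = true →
      wz S n.up + n.N0 + n.nT + n.n2 + Λ.j + S.P ≤ Y.bs z := by
    intro z h1 h2 h3
    obtain ⟨h4, h5⟩ := H.N z h1 h2 h3
    rw [f_bs z h2]
    exact hL.bP z h4 (Or.inr h5)
  have base_Q : ∀ z, 1 ≤ z → z < k → (rv z).isN = true →
      wz S n.up + n.N0 + n.nT + n.n2 + Λ.j + S.Q ≤ Y.bs z := by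
    intro z h1 h2 h3
    obtain ⟨h4, h5⟩ := H.N z h1 h2 h3
    rw [f_bs z h2]
    exact hL.bQ z h4 (Or.inr h5)
  have baseR : ∀ i, 1 ≤ i → i < k → rv i = .FR →
      wz S n.up + n.N0 + n.n2 + n.Ux + S.P + 2 ≤ Y.bs i ∧
      Y.bs i ≤ wz S n.up + n.N0 + n.n2 + n.Ux + S.P + 3 ∧ 2 ≤ S.h ∧
        wz S n.up = n.n2 + n.Ux + S.h + 2 := by
    intro i h1 h2 h3
    obtain ⟨h4, h5, h6⟩ := H.FR i h1 h2 h3
    have h8 := hR h5 h6
    rw [f_bs i h2, h4]
    refine ⟨h8.r1a, h8.r1b, S.m5h h6, ?_⟩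
    rw [wz_up]
    unfold wz
    rw [if_pos h5]
  refine
    { eN := ?_, U_ge := ?_, U_eq := ?_, nxf_eq := ?_, nlg_le := ?_, nlg_eq := ?_, be_ge := ?_,
      be_le := ?_, be_thr := ?_, thr_le := ?_, thr_le' := ?_, g1_ge := ?_, g1_thr := ?_, g0_be := ?_,
      zone := ?_, p_rng := ?_, p_inj := ?_, p_one := ?_, p_last := ?_, X_mono := hmono,
      X_zero := ?_, X_rng := ?_, X_lo := ?_, X_p := ?_, y_rng := ?_, y_X := ?_, y_p := ?_,
      y_inj := ?_, x_rng := ?_, x_X := ?_, x_p := ?_, x_inj := ?_, x_y := ?_, C_inj := ?_,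
      C_be := ?_, C_gap := ?_, C_thr := ?_, V_be := ?_, V_thr := ?_, V_C := ?_, V_inj := ?_,
      V_gap := ?_, lg_rng := ?_, bA := ?_, bN := ?_, bc := ?_, bT := ?_, P2 := ?_, Dbb := ?_,
      Dbr := ?_, Dgg := ?_, Dgb := ?_, bupb := ?_, bupg := ?_, shx := ?_, bbP := ?_, lt := ?_,
      xW1 := ?_, xW2 := ?_, oW1 := ?_, oW2 := ?_, Xr := ?_, Rq := ?_, Rd := ?_ }
  · -- eN
    omega
  · -- U_ge
    omega
  · -- U_eq
    omega
  · -- nxf_eq
    rw [f_nxf]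
    split_ifs with hx
    · have h3 := (hM.xs_ok hx).1
      obtain ⟨h4, h5⟩ := H.q3 (by omega)
      symm
      rw [Finset.card_eq_one]
      refine ⟨S.q, ?_⟩
      ext i
      rw [Finset.mem_filter, Finset.mem_range, Finset.mem_singleton]
      constructor
      · rintro ⟨h6, h7, h8⟩
        exact (xsq i h7 h6 h8).1
      · rintro rfl
        exact ⟨hqk, h4, by rw [f_xf _ hqk]; exact hx, Or.inl h5⟩
    · symm
      rw [Finset.card_eq_zero, Finset.filter_eq_empty_iff]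
      intro i hi
      rw [Finset.mem_range] at hi
      rintro ⟨h7, h8⟩
      exact hx (xsq i h7 hi h8).2.2.1
  · -- nlg_le
    rw [f_nlg]
    split_ifs <;> omega
  · -- nlg_eq
    rw [f_nlg]
    split_ifs with hx
    · have h3 := (hM.lg_ok hx).1
      obtain ⟨h4, h5⟩ := H.q1 h3
      symm
      rw [Finset.card_eq_one]
      refine ⟨S.q, ?_⟩
      ext i
      rw [Finset.mem_filter, Finset.mem_range, Finset.mem_singleton]
      constructor
      · rintro ⟨h6, h7, h8, _⟩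
        exact (H.As i h7 h6 h8).1
      · rintro rfl
        exact ⟨hqk, h4, h5, by rw [f_lg _ hqk]; exact hx⟩
    · symm
      rw [Finset.card_eq_zero, Finset.filter_eq_empty_iff]
      intro i hi
      rw [Finset.mem_range] at hi
      rintro ⟨h7, h8, h9⟩
      rw [f_lg i hi] at h9
      exact hx h9
  · -- be_ge
    omega
  · -- be_le
    omega
  · -- be_thr
    omega
  · -- thr_le
    omega
  · -- thr_le'
    intro _
    omega
  · -- g1_ge
    omega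
  · -- g1_thr
    intro hU1
    have h1 := hL.X_w Λ.U (by omega) le_rfl
    rw [f_X Y.U hU1, f_U]
    omega
  · -- g0_be
    intro _
    omega
  · -- zone
    omega
  · -- p_rng
    intro e h1 h2
    rcases Nat.mod_two_eq_zero_or_one e with h3 | h3
    · have h4 := hL.p_even e h3
      rw [← f_p e h2] at h4
      by_cases hb : S.bad e
      · have h5 := S.rk_eb e h1 h2 h3 hb
        rw [if_neg (by omega)] at h4
        exact Or.inr (Or.inl (by omega))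
      · have h5 := S.rk_eg e h1 h2 h3 hb
        rw [if_pos (by omega)] at h4
        exact Or.inr (Or.inr (Or.inl (by omega)))
    · have h4 := hL.p_odd e h1 h2 h3
      rw [← f_p e h2] at h4
      exact Or.inl (by omega)
  · -- p_inj
    intro e f h1 h2 h3 h4 h5
    rw [f_p e h2, f_p f h4] at h5
    exact hL.p_inj e f h1 h2 h3 h4 h5
  · -- p_one
    have h4 := hL.p_odd 1 le_rfl (by omega) rfl
    rw [← f_p 1 (by omega)] at h4
    omega
  · -- p_last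
    have h4 := hL.p_odd k (by omega) le_rfl (by omega)
    rw [← f_p k le_rfl] at h4
    omega
  · -- X_zero
    omega
  · -- X_rng
    intro i h1 h2
    have h3 := hL.X_lo i h1
    have h4 := hL.X_w i h1 (by omega)
    rw [f_X i h1]
    omega
  · -- X_lo
    omega
  · -- X_p
    intro i e h1 h2 h3 h4
    have h7 := hL.X_w i h1 (by omega)
    rcases Nat.mod_two_eq_zero_or_one e with h5 | h5
    · have h6 := pev e h4 h5
      rw [f_X i h1]
      omega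
    · rw [f_X i h1, f_p e h4]
      exact hL.X_p i e h1 (by omega) h3 h4 h5
  · -- y_rng
    intro i h1 h2 h3
    obtain ⟨h4, h5, h6⟩ := ysq i h1 h2 h3
    have h7 := hM.y_ok h5 h6
    rw [f_yv i h2]
    omega
  · -- y_X
    intro i m h1 h2 h3 h4 h5
    obtain ⟨h6, h7, h8⟩ := ysq i h1 h2 h3
    have h9 := (hM.y_ok h7 h8).2.2.1 m h4 (by omega)
    rw [f_yv i h2, f_X m h4]
    exact fun h' => h9 h'.symm
  · -- y_p
    intro i e h1 h2 h3 h4 h5
    obtain ⟨h6, h7, h8⟩ := ysq i h1 h2 h3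
    have h9 := hM.y_ok h7 h8
    rw [f_yv i h2]
    rcases Nat.mod_two_eq_zero_or_one e with h10 | h10
    · have h11 := pev e h5 h10
      omega
    · have h11 := h9.2.2.2 e h4 h5 h10
      rw [f_p e h5]
      exact fun h' => h11 h'.symm
  · -- y_inj
    intro i i' h1 h2 h3 h4 h5 h6 _
    rw [(ysq i h1 h2 h3).1, (ysq i' h4 h5 h6).1]
  · -- x_rng
    intro i h1 h2 h3
    obtain ⟨h4, h5, h6, _⟩ := xsq i h1 h2 h3
    have h7 := hM.xs_ok h6
    rw [f_xv i h2]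
    omega
  · -- x_X
    intro i m h1 h2 h3 h4 h5
    obtain ⟨h6, h7, h8, _⟩ := xsq i h1 h2 h3
    have h9 := (hM.xs_ok h8).2.2.2.2.1 m h4 (by omega)
    rw [f_xv i h2, f_X m h4]
    exact fun h' => h9 h'.symm
  · -- x_p
    intro i e h1 h2 h3 h4 h5
    obtain ⟨h6, h7, h8, _⟩ := xsq i h1 h2 h3
    have h9 := hM.xs_ok h8
    rw [f_xv i h2]
    rcases Nat.mod_two_eq_zero_or_one e with h10 | h10
    · have h11 := pev e h5 h10
      omega
    · have h11 := h9.2.2.2.2.2 e h4 h5 h10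
      rw [f_p e h5]
      exact fun h' => h11 h'.symm
  · -- x_inj
    intro i i' h1 h2 h3 h4 h5 h6 _
    rw [(xsq i h1 h2 h3).1, (xsq i' h4 h5 h6).1]
  · -- x_y
    intro i i' h1 h2 h3 h4 h5 h6
    obtain ⟨_, _, h8, _⟩ := xsq i h1 h2 h3
    rw [f_xv i h2, f_yv i' h5]
    exact (hM.xs_ok h8).2.2.2.1
  · -- C_inj
    intro i i' h1 h2 h3 h4 h5 h6 h7
    rw [f_bs i h2, f_bs i' h5] at h7
    exact hL.C_inj i i' h1 h2 (H.C i h1 h2 h3) h4 h5 (H.C i' h4 h5 h6) h7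
  · -- C_be
    intro i h1 h2 h3
    have h4 := hL.C_lo i h1 h2 (H.C i h1 h2 h3)
    rw [f_bs i h2]
    exact Or.inl (by omega)
  · -- C_gap
    intro hU1 i h1 h2 h3
    have h4 := hL.C_gap (by omega) i h1 h2 (H.C i h1 h2 h3)
    rw [f_bs i h2, f_X Y.U hU1, f_U]
    omega
  · -- C_thr
    intro i h1 h2 h3
    have h4 := hL.C_up i h1 h2 (H.C i h1 h2 h3)
    rw [f_bs i h2]
    omega
  · -- V_be
    intro i h1 h2 h3
    obtain ⟨h4, h5, h6⟩ := ysq i h1 h2 h3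
    have h7 := hM.V_lo h5 h6
    rw [f_yv i h2, f_bs i h2, h4]
    omega
  · -- V_thr
    intro i h1 h2 h3
    obtain ⟨h4, h5, h6⟩ := ysq i h1 h2 h3
    have h7 := hM.V_up h5 h6
    rw [f_yv i h2, f_bs i h2, h4]
    omega
  · -- V_C
    intro i i' h1 h2 h3 h1' h2' h3'
    obtain ⟨h4, h5, h6⟩ := ysq i h1 h2 h3
    have h7 := hM.V_C h5 h6 i' h1' h2' (H.C i' h1' h2' h3')
    rw [f_yv i h2, f_bs i h2, f_bs i' h2', h4]
    exact h7.symm
  · -- V_inj
    intro i i' h1 h2 h3 h4 h5 h6 _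
    rw [(ysq i h1 h2 h3).1, (ysq i' h4 h5 h6).1]
  · -- V_gap
    intro hU1 i h1 h2 h3
    obtain ⟨h4, h5, h6⟩ := ysq i h1 h2 h3
    have h7 := hM.V_L h5 h6 (by omega)
    rw [f_yv i h2, f_bs i h2, h4, f_X Y.U hU1, f_U]
    omega
  · -- lg_rng
    intro i h1 h2 h3 h4
    rw [f_lg i h2] at h4
    have h5 := hM.lg_ok h4
    rw [f_bs i h2, (H.As i h1 h2 h3).1]
    omega
  · -- bA
    intro i h1 h2 h3
    obtain ⟨h4, h5⟩ := H.A i h1 h2 h3
    have h6 := hL.bh i (S.al_ld i h4) (Or.inl h5) (Or.inl h4)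
    rw [f_bs i h2]
    omega
  · -- bN
    intro i h1 h2 _ h3
    have h4 := base_Q i h1 h2 (II_isN h3)
    omega
  · -- bc
    intro i h1 h2 _ h3 h4
    obtain ⟨h5, h6⟩ := H.N i h1 h2 (II_isN h3)
    have h7 := hL.bh i h5 (Or.inr h6) (Or.inr ((e_cd i).1 h4))
    rw [f_bs i h2]
    omega
  · -- bT
    intro i h1 h2 h3
    rcases isT_FRS h3 with h4 | h4
    · have h5 := baseR i h1 h2 h4
      omega
    · have h5 := base_P i h1 h2 (isS_isN h4)
      omega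
  · -- P2
    by_cases hP2 : 2 ≤ S.P
    · exact Or.inl (by omega)
    · refine Or.inr fun i h1 h2 h3 h4 => hP2 ?_
      rw [e_kb] at h4
      rcases h3 with h3 | h3
      · exact (two_le_P S (S.al_ld i (H.A i h1 h2 h3).1) h4).1
      · exact (two_le_P S (H.N i h1 h2 (isS_isN h3)).1 h4).1
  · -- Dbb
    intro a z h1 h2 h3 h4 h5 h6 h7
    obtain ⟨h8, h9⟩ := H.A a h1 h2 h5
    obtain ⟨h10, h11⟩ := H.N z h3 h4 (isS_isN h6)
    have h12 := hM.Dbb a z h8 h9 ((e_kb a).1 h7) h10 h11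
    rw [f_bs a h2, f_bs z h4]
    omega
  · -- Dbr
    intro hF a z h1 h2 h3 h4 h5 h6 h7
    obtain ⟨g1, g3, _⟩ := FRn hF
    obtain ⟨h8, h9⟩ := H.A a h1 h2 h5
    obtain ⟨h10, h11⟩ := H.N z h3 h4 (isS_isN h6)
    have h12 := hM.Dbb a z h8 h9 ((e_kb a).1 h7) h10 h11
    rw [if_pos ⟨g1, g3⟩] at h12
    rw [f_bs a h2, f_bs z h4]
    omega
  · -- Dgg
    intro a z h1 h2 h3 h4 h5 h6 h7 h8
    obtain ⟨h9, h10⟩ := H.A a h1 h2 h5
    obtain ⟨h11, h12⟩ := H.N z h3 h4 (isS_isN h6)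
    have h13 := hM.Dgg a z h9 h10 (fun h => h7 ((e_kb a).2 h)) h11 h12
      (fun h => h8 ((e_kb z).2 h))
    rw [f_bs a h2, f_bs z h4]
    omega
  · -- Dgb
    intro a z h1 h2 h3 h4 h5 h6 h7 h8
    obtain ⟨h9, h10⟩ := H.A a h1 h2 h5
    obtain ⟨h11, h12⟩ := H.N z h3 h4 (isS_isN h6)
    have h13 := hM.Dgb a z h9 h10 (fun h => h7 ((e_kb a).2 h)) h11 h12 ((e_kb z).1 h8)
    have h14 : N.sgc rv k ≤ sg k ld al S.rk S.h S.q z := by
      unfold Nm.sgc sg
      refine Finset.card_le_card fun i hi => ?_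
      rw [Finset.mem_filter, Finset.mem_range] at hi ⊢
      obtain ⟨g1, g5, g6, g7, g8⟩ := hi
      obtain ⟨g10, g11⟩ := H.N i g5 g1 (II_isN g6)
      rw [e_cd] at g8
      push Not at g8
      refine ⟨g1, g10, g11, g8.1, ?_, by omega⟩
      rintro rfl
      rcases g6 with g6 | g6 <;> rw [g6] at h6 <;> exact absurd h6 (by simp [RV.isS])
    rw [f_bs a h2, f_bs z h4]
    omega
  · -- bupb
    intro a h1 h2 h3 h4
    obtain ⟨h5, h6⟩ := H.A a h1 h2 h3
    have h7 := hL.bupb a h5 h6 ((e_kb a).1 h4)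
    rw [f_bs a h2]
    omega
  · -- bupg
    intro a h1 h2 h3 h4
    obtain ⟨h5, h6⟩ := H.A a h1 h2 h3
    have h7 := hL.bupg a h5 h6 (fun h => h4 ((e_kb a).2 h))
    rw [f_bs a h2]
    omega
  · -- shx
    intro a x h1 h2 h3 h4 h5 h6 _ h7
    obtain ⟨h8, h9⟩ := H.A a h1 h2 h5
    obtain ⟨h10, h11⟩ := H.N x h3 h4 h7
    have h12 := hL.shx a x h8 h9 ((e_kb a).1 h6) h10 h11
    rw [f_bs a h2, f_bs x h4, fX1]
    exact h12
  · -- bbP
    intro h0
    omega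
  · -- lt
    intro h0
    omega
  · -- xW1
    intro i z h1 h2 h3 h4 h5 h6 h7
    rw [f_xf i h2] at h5
    have h8 := hM.xs_ok h5
    have h9 := H.e2 (by omega)
    have h10 := hM.Fx h5
    have h11 := base_P z h3 h4 (isS_isN h7)
    rw [f_yv i h2, f_xv i h2, e_s0v, e_et]
    rw [if_pos (by omega : 2 ≤ n.sp)] at hEt
    by_cases h12 : e = 2
    · rw [if_pos ⟨by omega, h12⟩]
      omega
    · rw [if_neg (fun h => h12 h.2)]
      omega
  · -- xW2
    intro i h1 h2 h3 h4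
    rw [f_xf i h2] at h3
    have h10 := hM.Fx h3
    rw [f_yv i h2, f_xv i h2, e_s0v]
    omega
  · -- oW1
    intro i z _ h2 _ _ _ h3
    rw [e_om] at h3
    omega
  · -- oW2
    intro i _ h2 _ h3
    rw [e_om] at h3
    omega
  · -- Xr
    intro m r h1 h2 h3 h4 h5
    obtain ⟨h6, h7⟩ := H.N r h3 h4 (isS_isN h5)
    have h8 := hL.Xr m r h1 (by omega) h6 h7
    rw [f_X m h1, f_bs r h4]
    omega
  · -- Rq
    intro i h1 h2 h3
    have h4 := baseR i h1 h2 h3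
    omega
  · -- Rd
    intro hF i o h1 h2 h3 h4 h5 h6
    obtain ⟨g1, g3, g4, g5⟩ := FRn hF
    have h7 : ld i := by
      rcases isT_FRS h5 with h7 | h7
      · rw [(H.FR i h1 h2 h7).1]
        exact S.al_ld _ (S.m5 g3).1
      · exact (H.N i h1 h2 (isS_isN h7)).1
    have h8 : o ≠ S.q := by
      rintro rfl
      rw [g4] at h6
      exact absurd h6 (by simp [RV.isS])
    have h9 := g5.r2 i o h7 (H.N o h3 h4 (isS_isN h6)).1 h8
    rw [f_bs i h2, f_bs o h4]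
    omega

theorem ly_A (S : Seam k ld al) (n : Num) {e j ux c : ℕ} {rv : ℕ → RV}
    (H : CtxZ S n e rv) (hA : Adm S n j) (Λ : FLay) (hj : Λ.j = j) (hL : FLow S n Λ)
    (hM : FMod S n Λ) (hR : n.sp = 0 → S.mode = 5 → FFR S n Λ)
    (hU : Λ.U + Λ.j + (if Λ.xsf then 1 else 0) = ux + (if Λ.lg then 1 else 0))
    (hc : c + n.Ux ≤ ux) (pK : ℕ) (xk lk : Bool) :
    LyOK (nmZ S n e ux c) (lyZ S n Λ pK xk lk 0 0) rv k :=
  lyA_gen S n H hA Λ hj hL hM hR hU hc pK xk lk _ rfl _ rfl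

end Pool.Agent.Lob5
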