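import Pool.Agent.Lob5.Gen

/-!
# One more path edge

The layer `Y` of the word of length `k` satisfies `LyOK .. k`. The path edge `k + 1` gets a label, and the
vertex `k = om` has one of the roles `C`, `As`, `II`. `ExtV`: the facts about the new vertex and the
new edge; `a`, `b` are the contributions to `nxf`, `nlg`.

Proof of `ly_B`. All fields are those of `h0 : LyOK N Y rv k` for vertices `< k` and edges `≤ k`; for the
vertex `k` and the edge `k + 1` use `hV`. `N'`, `Y'` differ from `N`, `Y` only in `Ux, c0, nxf, nlg`, and `Ly.bs`,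
`Ly.ys`, `Ly.xs` do not use these (`Ly.xs` uses `N.om`).
* `nxf_eq`, `nlg_eq`: `Finset.range (k+1) = insert k (range k)`, `Finset.filter_insert`, `hk : 1 ≤ k`.
* `C_be` for `i < k`: `e < k` implies `e < k + 1`.
* roles: `rv k` is none of `A, F, Fs, FR, I, Z, R3, R4`, so `isA`, `isS`, `isN` (except `II`), `isT` of `rv k` are
  false, and for `rv k = II` all statements exclude `i = om = k` (`hom`).
* `Dgb`: `sgc rv (k+1) = sgc rv k` (`i ≠ om = k`), and `hc`. `lt`: `U ≤ nT+1+nlg'` with `e = 0`: `he` excludes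
  it.
-/

namespace Pool.Agent.Lob5

/-- The facts about the vertex `k` and the edge `k + 1`. -/
structure ExtV (N : Nm) (Y : Ly) (rv : ℕ → RV) (k a b : ℕ) : Prop where
  role : rv k = .C ∨ rv k = .As ∨ rv k = .II
  ha : a = 1 ∧ rv k = .II ∧ Y.xf k = true ∨ a = 0 ∧ ¬ (rv k = .II ∧ Y.xf k = true)
  hb : b = 1 ∧ rv k = .As ∧ Y.lg k = true ∨ b = 0 ∧ ¬ (rv k = .As ∧ Y.lg k = true)
  nlg : Y.nlg + b ≤ 1
  -- the edge `k + 1`
  p_rng :
    (N.s1 + N.n2 + Y.j < Y.p (k + 1) ∧ Y.p (k + 1) ≤ N.w) ∨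
    (N.w + N.N0 + 1 ≤ Y.p (k + 1) ∧ Y.p (k + 1) ≤ N.w + N.N0 + N.Q) ∨
    (N.w + N.N0 + N.Q + N.nT + 1 ≤ Y.p (k + 1) ∧ Y.p (k + 1) ≤ N.w + N.N0 + N.nT + N.h) ∨
    (N.n2 + 1 ≤ Y.p (k + 1) ∧ Y.p (k + 1) ≤ N.n2 + N.s1) ∨ (Y.p (k + 1) = N.pk ∧ N.pk ≠ 0)
  p_inj : ∀ e, 1 ≤ e → e ≤ k → Y.p e ≠ Y.p (k + 1)
  p_last : Y.p (k + 1) ≤ Y.be
  X_p : ∀ i, 1 ≤ i → i ≤ Y.U → Y.X i ≠ Y.p (k + 1)
  y_p : ∀ i, 1 ≤ i → i < k + 1 → Y.ys rv i → Y.yv i ≠ Y.p (k + 1)
  x_p : ∀ i, 1 ≤ i → i < k + 1 → Y.xs N rv i → Y.xv i ≠ Y.p (k + 1)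
  -- role `C`
  C_inj : rv k = .C → ∀ i, 1 ≤ i → i < k → rv i = .C → Y.bs i ≠ Y.bs k
  C_be : rv k = .C → Y.be < Y.bs k ∨ ∃ e, 2 ≤ e ∧ e < k + 1 ∧ Y.bs k = Y.p e
  C_gap : rv k = .C → 1 ≤ Y.U →
    Y.bs k < N.w + N.N0 + N.Q + 1 + Y.X 1 ∨ N.g1 + Y.X Y.U < Y.bs k
  C_thr : rv k = .C → Y.bs k ≤ Y.thr
  C_V : rv k = .C → ∀ i, 1 ≤ i → i < k → Y.ys rv i → Y.bs i + Y.yv i ≠ Y.bs k
  -- role `As`, not in the greedy group
  y_rng : Y.ys rv k → N.s1 + N.n2 + Y.j < Y.yv k ∧ Y.yv k ≤ N.w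
  y_X : Y.ys rv k → ∀ i, 1 ≤ i → i ≤ Y.U → Y.yv k ≠ Y.X i
  y_pk : Y.ys rv k → ∀ e, 1 ≤ e → e ≤ k → Y.yv k ≠ Y.p e
  y_inj : Y.ys rv k → ∀ i, 1 ≤ i → i < k → Y.ys rv i → Y.yv i ≠ Y.yv k
  x_y : Y.ys rv k → ∀ i, 1 ≤ i → i < k → Y.xs N rv i → Y.xv i ≠ Y.yv k
  V_be : Y.ys rv k → Y.be < Y.bs k + Y.yv k
  V_thr : Y.ys rv k → Y.bs k + Y.yv k ≤ Y.thr
  V_C : Y.ys rv k → ∀ i, 1 ≤ i → i < k → rv i = .C → Y.bs k + Y.yv k ≠ Y.bs i
  V_inj : Y.ys rv k → ∀ i, 1 ≤ i → i < k → Y.ys rv i →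
    Y.bs i + Y.yv i ≠ Y.bs k + Y.yv k
  V_gap : Y.ys rv k → 1 ≤ Y.U →
    Y.bs k + Y.yv k < N.w + N.N0 + N.Q + 1 + Y.X 1 ∨ N.g1 + Y.X Y.U < Y.bs k + Y.yv k
  -- role `As` in the greedy group
  lg_rng : rv k = .As → Y.lg k = true →
    N.w + N.N0 + N.Q + 1 ≤ Y.bs k ∧ Y.bs k ≤ N.g1
  -- role `II` with a fixed `x`-label
  xx_rng : Y.xs N rv k → N.s1 + N.n2 + Y.j < Y.xv k ∧ Y.xv k ≤ N.w
  xx_X : Y.xs N rv k → ∀ i, 1 ≤ i → i ≤ Y.U → Y.xv k ≠ Y.X i
  xx_p : Y.xs N rv k → ∀ e, 1 ≤ e → e ≤ k → Y.xv k ≠ Y.p e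
  xx_inj : Y.xs N rv k → ∀ i, 1 ≤ i → i < k → Y.xs N rv i → Y.xv i ≠ Y.xv k
  xx_y : Y.xs N rv k → ∀ i, 1 ≤ i → i < k → Y.ys rv i → Y.xv k ≠ Y.yv i
  oW1 : Y.xf k = true → rv k = .II → ∀ z, 1 ≤ z → z < k → (rv z).isS = true →
    Y.bs k + Y.xv k < Y.bs z + N.Q + 1 + N.et
  oW2 : Y.xf k = true → rv k = .II → Y.bs k + Y.xv k ≤ 2 * N.w + N.N0 + N.Q + Y.X 1

theorem ly_B {N : Nm} {Y : Ly} {rv : ℕ → RV} {k a b : ℕ} (h0 : LyOK N Y rv k) (hk : 2 ≤ k)
    (hom : N.om = k) (he : 1 ≤ N.e) (hV : ExtV N Y rv k a b) (ux c0 : ℕ)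
    (hU : Y.U + Y.j + Y.nxf + a = ux + Y.nlg + b) (hc : c0 + N.Ux ≤ N.c0 + ux) :
    LyOK { N with Ux := ux, c0 := c0 } { Y with nxf := Y.nxf + a, nlg := Y.nlg + b } rv
      (k + 1) := by
  classical
  have hA : (rv k).isA = false := by rcases hV.role with h | h | h <;> rw [h] <;> rfl
  have hS : (rv k).isS = false := by rcases hV.role with h | h | h <;> rw [h] <;> rfl
  have hT : (rv k).isT = false := by rcases hV.role with h | h | h <;> rw [h] <;> rfl
  have hFR : rv k ≠ .FR := by rcases hV.role with h | h | h <;> rw [h] <;> decide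
  have hFs : rv k ≠ .Fs := by rcases hV.role with h | h | h <;> rw [h] <;> decide
  have eA : ∀ i, i < k + 1 → (rv i).isA = true → i < k := by
    intro i h1 h2
    rcases Nat.lt_succ_iff_lt_or_eq.mp h1 with h | h
    · exact h
    · rw [h, hA] at h2
      exact absurd h2 (by decide)
  have eS : ∀ i, i < k + 1 → (rv i).isS = true → i < k := by
    intro i h1 h2
    rcases Nat.lt_succ_iff_lt_or_eq.mp h1 with h | h
    · exact h
    · rw [h, hS] at h2
      exact absurd h2 (by decide)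
  have eT : ∀ i, i < k + 1 → (rv i).isT = true → i < k := by
    intro i h1 h2
    rcases Nat.lt_succ_iff_lt_or_eq.mp h1 with h | h
    · exact h
    · rw [h, hT] at h2
      exact absurd h2 (by decide)
  have eR : ∀ i, i < k + 1 → rv i = .FR → i < k := by
    intro i h1 h2
    rcases Nat.lt_succ_iff_lt_or_eq.mp h1 with h | h
    · exact h
    · rw [h] at h2
      exact absurd h2 hFR
  have eF : ∀ i, i < k + 1 → rv i = .Fs → i < k := by
    intro i h1 h2
    rcases Nat.lt_succ_iff_lt_or_eq.mp h1 with h | h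
    · exact h
    · rw [h] at h2
      exact absurd h2 hFs
  have eO : ∀ i, i < k + 1 → i ≠ N.om → i < k := by
    intro i h1 h2
    omega
  have eL : ∀ i, i < k + 1 → i < k ∨ i = k := fun i h => Nat.lt_succ_iff_lt_or_eq.mp h
  have eP : ∀ e, e ≤ k + 1 → e ≤ k ∨ e = k + 1 := by
    intro e h
    omega
  have hk1 : 1 ≤ k := by omega
  have hkk : k ∉ (Finset.range k).filter fun i => 1 ≤ i ∧ Y.xs N rv i := by
    simp
  have hkl : k ∉ (Finset.range k).filter fun i => 1 ≤ i ∧ rv i = .As ∧ Y.lg i = true := by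
    simp
  have hnx : Y.nxf + a = ((Finset.range (k + 1)).filter fun i => 1 ≤ i ∧ Y.xs N rv i).card := by
    rw [Finset.range_add_one, Finset.filter_insert, h0.nxf_eq]
    rcases hV.ha with ⟨h1, h2, h3⟩ | ⟨h1, h2⟩
    · have h4 : 1 ≤ k ∧ Y.xs N rv k := ⟨hk1, h3, Or.inr ⟨hom.symm, h2⟩⟩
      rw [if_pos h4, Finset.card_insert_of_notMem hkk, h1]
    · have h4 : ¬ (1 ≤ k ∧ Y.xs N rv k) := by
        rintro ⟨-, h5, h6 | ⟨-, h6⟩⟩
        · exact hFs h6
        · exact h2 ⟨h6, h5⟩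
      rw [if_neg h4, h1, Nat.add_zero]
  have hnl : Y.nlg + b =
      ((Finset.range (k + 1)).filter fun i => 1 ≤ i ∧ rv i = .As ∧ Y.lg i = true).card := by
    rw [Finset.range_add_one, Finset.filter_insert, h0.nlg_eq]
    rcases hV.hb with ⟨h1, h2, h3⟩ | ⟨h1, h2⟩
    · rw [if_pos ⟨hk1, h2, h3⟩, Finset.card_insert_of_notMem hkl, h1]
    · have h4 : ¬ (1 ≤ k ∧ rv k = .As ∧ Y.lg k = true) := by
        rintro ⟨-, h5⟩
        exact h2 h5
      rw [if_neg h4, h1, Nat.add_zero]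
  have hsg : N.sgc rv (k + 1) = N.sgc rv k := by
    unfold Nm.sgc
    rw [Finset.range_add_one, Finset.filter_insert, if_neg]
    rintro ⟨-, -, h, -⟩
    exact h hom.symm
  have hsg' : Nm.sgc { N with Ux := ux, c0 := c0 } rv (k + 1) = N.sgc rv k := hsg
  refine
    { eN := h0.eN
      U_ge := h0.U_ge
      U_eq := ?_
      nxf_eq := hnx
      nlg_le := hV.nlg
      nlg_eq := hnl
      be_ge := h0.be_ge
      be_le := h0.be_le
      be_thr := h0.be_thr
      thr_le := h0.thr_le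
      thr_le' := h0.thr_le'
      g1_ge := h0.g1_ge
      g1_thr := h0.g1_thr
      g0_be := h0.g0_be
      zone := h0.zone
      p_rng := ?_
      p_inj := ?_
      p_one := h0.p_one
      p_last := hV.p_last
      X_mono := h0.X_mono
      X_zero := h0.X_zero
      X_rng := h0.X_rng
      X_lo := h0.X_lo
      X_p := ?_
      y_rng := ?_
      y_X := ?_
      y_p := ?_
      y_inj := ?_
      x_rng := ?_
      x_X := ?_
      x_p := ?_
      x_inj := ?_
      x_y := ?_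
      C_inj := ?_
      C_be := ?_
      C_gap := ?_
      C_thr := ?_
      V_be := ?_
      V_thr := ?_
      V_C := ?_
      V_inj := ?_
      V_gap := ?_
      lg_rng := ?_
      bA := fun i h1 h2 h3 => h0.bA i h1 (eA i h2 h3) h3
      bN := fun i h1 h2 h3 h4 => h0.bN i h1 (eO i h2 h3) h3 h4
      bc := fun i h1 h2 h3 h4 h5 => h0.bc i h1 (eO i h2 h3) h3 h4 h5
      bT := fun i h1 h2 h3 => h0.bT i h1 (eT i h2 h3) h3
      P2 := ?_
      Dbb := fun a z h1 h2 h3 h4 h5 h6 h7 =>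
        h0.Dbb a z h1 (eA a h2 h5) h3 (eS z h4 h6) h5 h6 h7
      Dbr := ?_
      Dgg := fun a z h1 h2 h3 h4 h5 h6 h7 h8 =>
        h0.Dgg a z h1 (eA a h2 h5) h3 (eS z h4 h6) h5 h6 h7 h8
      Dgb := ?_
      bupb := fun a h1 h2 h3 h4 => h0.bupb a h1 (eA a h2 h3) h3 h4
      bupg := fun a h1 h2 h3 h4 => h0.bupg a h1 (eA a h2 h3) h3 h4
      shx := fun a x h1 h2 h3 h4 h5 h6 h7 h8 =>
        h0.shx a x h1 (eA a h2 h5) h3 (eO x h4 h7) h5 h6 h7 h8
      bbP := fun h a z h1 h2 h3 h4 h5 h6 h7 =>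
        h0.bbP h a z h1 (eA a h2 h5) h3 (eS z h4 h6) h5 h6 h7
      lt := ?_
      xW1 := fun i z h1 h2 h3 h4 h5 h6 h7 =>
        h0.xW1 i z h1 (eF i h2 h6) h3 (eS z h4 h7) h5 h6 h7
      xW2 := fun i h1 h2 h3 h4 => h0.xW2 i h1 (eF i h2 h4) h3 h4
      oW1 := ?_
      oW2 := ?_
      Xr := fun n r h1 h2 h3 h4 h5 => h0.Xr n r h1 h2 h3 (eS r h4 h5) h5
      Rq := fun i h1 h2 h3 => h0.Rq i h1 (eR i h2 h3) h3
      Rd := ?_ }
  -- U_eq
  · show Y.U + Y.j + (Y.nxf + a) = ux + (Y.nlg + b)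
    omega
  -- p_rng
  · intro e h1 h2
    rcases eP e h2 with h | h
    · exact h0.p_rng e h1 h
    · subst h
      exact hV.p_rng
  -- p_inj
  · intro e f h1 h2 h3 h4 h5
    rcases eP e h2 with h | h
    · rcases eP f h4 with h' | h'
      · exact h0.p_inj e f h1 h h3 h' h5
      · subst h'
        exact absurd h5 (hV.p_inj e h1 h)
    · subst h
      rcases eP f h4 with h' | h'
      · exact absurd h5.symm (hV.p_inj f h3 h')
      · exact h'.symm
  -- X_p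
  · intro i e h1 h2 h3 h4
    rcases eP e h4 with h | h
    · exact h0.X_p i e h1 h2 h3 h
    · subst h
      exact hV.X_p i h1 h2
  -- y_rng
  · intro i h1 h2 h3
    rcases eL i h2 with h | h
    · exact h0.y_rng i h1 h h3
    · subst h
      exact hV.y_rng h3
  -- y_X
  · intro i n h1 h2 h3 h4 h5
    rcases eL i h2 with h | h
    · exact h0.y_X i n h1 h h3 h4 h5
    · subst h
      exact hV.y_X h3 n h4 h5
  -- y_p
  · intro i e h1 h2 h3 h4 h5
    rcases eP e h5 with h' | h'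
    · rcases eL i h2 with h | h
      · exact h0.y_p i e h1 h h3 h4 h'
      · subst h
        exact hV.y_pk h3 e h4 h'
    · subst h'
      exact hV.y_p i h1 h2 h3
  -- y_inj
  · intro i i' h1 h2 h3 h4 h5 h6 h7
    rcases eL i h2 with h | h
    · rcases eL i' h5 with h' | h'
      · exact h0.y_inj i i' h1 h h3 h4 h' h6 h7
      · subst h'
        exact absurd h7 (hV.y_inj h6 i h1 h h3)
    · subst h
      rcases eL i' h5 with h' | h'
      · exact absurd h7.symm (hV.y_inj h3 i' h4 h' h6)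
      · exact h'.symm
  -- x_rng
  · intro i h1 h2 h3
    rcases eL i h2 with h | h
    · exact h0.x_rng i h1 h h3
    · subst h
      exact hV.xx_rng h3
  -- x_X
  · intro i n h1 h2 h3 h4 h5
    rcases eL i h2 with h | h
    · exact h0.x_X i n h1 h h3 h4 h5
    · subst h
      exact hV.xx_X h3 n h4 h5
  -- x_p
  · intro i e h1 h2 h3 h4 h5
    rcases eP e h5 with h' | h'
    · rcases eL i h2 with h | h
      · exact h0.x_p i e h1 h h3 h4 h'
      · subst h
        exact hV.xx_p h3 e h4 h'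
    · subst h'
      exact hV.x_p i h1 h2 h3
  -- x_inj
  · intro i i' h1 h2 h3 h4 h5 h6 h7
    rcases eL i h2 with h | h
    · rcases eL i' h5 with h' | h'
      · exact h0.x_inj i i' h1 h h3 h4 h' h6 h7
      · subst h'
        exact absurd h7 (hV.xx_inj h6 i h1 h h3)
    · subst h
      rcases eL i' h5 with h' | h'
      · exact absurd h7.symm (hV.xx_inj h3 i' h4 h' h6)
      · exact h'.symm
  -- x_y
  · intro i i' h1 h2 h3 h4 h5 h6
    rcases eL i h2 with h | h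
    · rcases eL i' h5 with h' | h'
      · exact h0.x_y i i' h1 h h3 h4 h' h6
      · subst h'
        exact hV.x_y h6 i h1 h h3
    · subst h
      rcases eL i' h5 with h' | h'
      · exact hV.xx_y h3 i' h4 h' h6
      · exfalso
        subst h'
        rcases h3 with ⟨-, h8 | ⟨-, h8⟩⟩
        · exact hFs h8
        · rcases h6 with ⟨h9, -⟩ | h9
          · rw [h8] at h9
            exact absurd h9 (by decide)
          · rw [h8] at h9
            exact absurd h9 (by decide)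
  -- C_inj
  · intro i i' h1 h2 h3 h4 h5 h6 h7
    rcases eL i h2 with h | h
    · rcases eL i' h5 with h' | h'
      · exact h0.C_inj i i' h1 h h3 h4 h' h6 h7
      · subst h'
        exact absurd h7 (hV.C_inj h6 i h1 h h3)
    · subst h
      rcases eL i' h5 with h' | h'
      · exact absurd h7.symm (hV.C_inj h3 i' h4 h' h6)
      · exact h'.symm
  -- C_be
  · intro i h1 h2 h3
    rcases eL i h2 with h | h
    · rcases h0.C_be i h1 h h3 with h4 | ⟨e, h4, h5, h6⟩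
      · exact Or.inl h4
      · exact Or.inr ⟨e, h4, Nat.lt_succ_of_lt h5, h6⟩
    · subst h
      exact hV.C_be h3
  -- C_gap
  · intro h0' i h1 h2 h3
    rcases eL i h2 with h | h
    · exact h0.C_gap h0' i h1 h h3
    · subst h
      exact hV.C_gap h3 h0'
  -- C_thr
  · intro i h1 h2 h3
    rcases eL i h2 with h | h
    · exact h0.C_thr i h1 h h3
    · subst h
      exact hV.C_thr h3
  -- V_be
  · intro i h1 h2 h3
    rcases eL i h2 with h | h
    · exact h0.V_be i h1 h h3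
    · subst h
      exact hV.V_be h3
  -- V_thr
  · intro i h1 h2 h3
    rcases eL i h2 with h | h
    · exact h0.V_thr i h1 h h3
    · subst h
      exact hV.V_thr h3
  -- V_C
  · intro i i' h1 h2 h3 h4 h5 h6
    rcases eL i h2 with h | h
    · rcases eL i' h5 with h' | h'
      · exact h0.V_C i i' h1 h h3 h4 h' h6
      · subst h'
        exact hV.C_V h6 i h1 h h3
    · subst h
      rcases eL i' h5 with h' | h'
      · exact hV.V_C h3 i' h4 h' h6
      · exfalso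
        subst h'
        rcases h3 with ⟨h9, -⟩ | h9
        · rw [h9] at h6
          exact absurd h6 (by decide)
        · rw [h9] at h6
          exact absurd h6 (by decide)
  -- V_inj
  · intro i i' h1 h2 h3 h4 h5 h6 h7
    rcases eL i h2 with h | h
    · rcases eL i' h5 with h' | h'
      · exact h0.V_inj i i' h1 h h3 h4 h' h6 h7
      · subst h'
        exact absurd h7 (hV.V_inj h6 i h1 h h3)
    · subst h
      rcases eL i' h5 with h' | h'
      · exact absurd h7.symm (hV.V_inj h3 i' h4 h' h6)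
      · exact h'.symm
  -- V_gap
  · intro h0' i h1 h2 h3
    rcases eL i h2 with h | h
    · exact h0.V_gap h0' i h1 h h3
    · subst h
      exact hV.V_gap h3 h0'
  -- lg_rng
  · intro i h1 h2 h3 h4
    rcases eL i h2 with h | h
    · exact h0.lg_rng i h1 h h3 h4
    · subst h
      exact hV.lg_rng h3 h4
  -- P2
  · rcases h0.P2 with h | h
    · exact Or.inl h
    · right
      intro i h1 h2 h3
      rcases h3 with h3 | h3
      · exact h i h1 (eA i h2 h3) (Or.inl h3)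
      · exact h i h1 (eS i h2 h3) (Or.inr h3)
  -- Dbr
  · rintro ⟨i, h1, h2, h3⟩ a z h4 h5 h6 h7 h8 h9 h10
    exact h0.Dbr ⟨i, h1, eR i h2 h3, h3⟩ a z h4 (eA a h5 h8) h6 (eS z h7 h9) h8 h9 h10
  -- Dgb
  · intro a z h1 h2 h3 h4 h5 h6 h7 h8
    have h9 := h0.Dgb a z h1 (eA a h2 h5) h3 (eS z h4 h6) h5 h6 h7 h8
    show Y.bs a + Nm.sgc { N with Ux := ux, c0 := c0 } rv (k + 1) + N.nT + Y.j + c0 ≤
      Y.bs z + N.Q + ux + N.et + N.dl
    rw [hsg']
    omega
  -- lt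
  · intro h
    have h' : N.e = 0 := h
    omega
  -- oW1
  · intro i z h1 h2 h3 h4 h5 h6 h7 h8
    rcases eL i h2 with h | h
    · exact h0.oW1 i z h1 h h3 (eS z h4 h8) h5 h6 h7 h8
    · subst h
      exact hV.oW1 h5 h7 z h3 (eS z h4 h8) h8
  -- oW2
  · intro i h1 h2 h3 h4 h5
    rcases eL i h2 with h | h
    · exact h0.oW2 i h1 h h3 h4 h5
    · subst h
      exact hV.oW2 h3 h5
  -- Rd
  · rintro ⟨i', h1, h2, h3⟩ i o h4 h5 h6 h7 h8 h9
    exact h0.Rd ⟨i', h1, eR i' h2 h3, h3⟩ i o h4 (eT i h5 h8) h6 (eS o h7 h9) h8 h9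

end Pool.Agent.Lob5
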