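import Pool.Agent.Lob5.HoleDefs

/-!
# Two consecutive layers: reductions and the position of the good odd labels

* `bs_oe`: the base is the sum of the labels of `oe i` and `ee i`. The labels of the even edges are the
  same in all layers (`even_P`, `even_G`), so `FStep` only concerns the odd edges (`fstep_of`).
* `funX` has the same path labels as `funP` and a larger or equal `X 1` (`Xl` is strictly monotone,
  `L.X_mono` for `n.up`): `fs_XP`, `fs_PX`.
* `lab_lam`: `lam y1 y2 p = L` (`y1 < y2`) implies `L = p + [y1 ≤ L] + [y2 ≤ L]`.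
* `lab_P`, `lab_G`: good odd edge `e` of rank `r`, `k2 = false`: position `n2+j+U+r`, and
  `w' = n2+j+U+h+1 + [y1 ≤ w'] + [y2 ≤ w']`: so label + number of inserted labels above it
  `= w-h-1+r`. In `lab_G` the reserved label `z` is one of the inserted labels, `w = wz S n + 1`.
  `lab_P3`, `lab_G3`: the same for `k2 = true`: position `n2+j+U+r-1`; `top3`: the edge of rank `P`, position
  `n2+j+U+h+1`.
* `bad_P`, `bad_G`: a bad odd edge of rank `r` (`r < P` if `k2`) has the position `n2+j+r`, and `z` is above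
  it.
-/

namespace Pool.Agent.Lob5

variable {k : ℕ} {ld al : ℕ → Prop}

/-- the layers `funP`, `funG` -/
inductive LayPG (S : Seam k ld al) (n : Num) (j : ℕ) : FLay → Prop
  | P : LayPG S n j (funP S n j)
  | G (z : ℕ) (h : ZG S n j z) : LayPG S n j (funG S n j z)

/-- `FStep` for the odd edges -/
structure FStepO (S : Seam k ld al) (n : Num) (Λ Λ' : FLay) : Prop where
  st1 : ∀ i a, ld i → ¬ al i → al a → a ≠ S.q → ¬ S.bad (oe a) →
    Λ'.p (oe i) + Λ.p (oe a) + (n.n2 + Λ.j + 1) ≤ Λ.p (oe i) + Λ'.p (oe a) + Λ.X 1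
  st2 : ∀ a, al a → a ≠ S.q → ¬ S.bad (oe a) →
    Λ.p (oe a) + (n.n2 + Λ.j + 1) ≤ Λ'.p (oe a) + Λ.X 1

theorem fbs_oe (Λ : FLay) (i : ℕ) : Λ.bs i = Λ.p (oe i) + Λ.p (ee i) := by
  unfold FLay.bs oe ee
  split_ifs
  · rfl
  · exact Nat.add_comm _ _

private theorem ee_mod_two (i : ℕ) : ee i % 2 = 0 := by
  unfold ee
  split_ifs <;> omega

theorem even_P (S : Seam k ld al) (n : Num) (j e : ℕ) (he : e % 2 = 0) :
    (funP S n j).p e = wz S n.up + n.N0 + S.rk e + (if S.Q < S.rk e then n.nT else 0) := by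
  change pl S n.up (layOf S n.up j) e = _
  unfold pl
  rw [if_neg (by omega)]
  rfl

theorem even_G (S : Seam k ld al) (n : Num) (Λ : Lay) (z e : ℕ) (he : e % 2 = 0) :
    (insG S n Λ z).p e = wz S n.up + n.N0 + S.rk e + (if S.Q < S.rk e then n.nT else 0) := by
  change (if e % 2 = 1 then sk z (pl S n Λ e) else pl S n Λ e + 1) = _
  rw [if_neg (by omega), wz_up]
  unfold pl
  rw [if_neg (by omega)]
  omega

private theorem even_PG (S : Seam k ld al) (n : Num) {j e : ℕ} {Λ : FLay} (h : LayPG S n j Λ)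
    (he : e % 2 = 0) :
    Λ.p e = wz S n.up + n.N0 + S.rk e + (if S.Q < S.rk e then n.nT else 0) := by
  cases h with
  | P => exact even_P S n j e he
  | G z _ => exact even_G S n (preG S n j z) z e he

theorem fstep_of (S : Seam k ld al) (n : Num) {j j' : ℕ} {Λ Λ' : FLay} (h : LayPG S n j Λ)
    (h' : LayPG S n j' Λ') (hO : FStepO S n Λ Λ') : FStep S n Λ Λ' where
  st1 := by
    intro i a h1 h2 h3 h4 h5
    have ho := hO.st1 i a h1 h2 h3 h4 h5
    have ei := even_PG S n h (ee_mod_two i)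
    have ei' := even_PG S n h' (ee_mod_two i)
    have ea := even_PG S n h (ee_mod_two a)
    have ea' := even_PG S n h' (ee_mod_two a)
    rw [fbs_oe Λ' i, fbs_oe Λ a, fbs_oe Λ i, fbs_oe Λ' a, ei, ei', ea, ea']
    omega
  st2 := by
    intro a h3 h4 h5
    have ho := hO.st2 a h3 h4 h5
    have ea := even_PG S n h (ee_mod_two a)
    have ea' := even_PG S n h' (ee_mod_two a)
    rw [fbs_oe Λ a, fbs_oe Λ' a, ea, ea']
    omega

private theorem funX_one (S : Seam k ld al) (n : Num) (j z : ℕ) (hA : Adm S n j) :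
    (funP S n j).X 1 ≤ (funX S n j z).X 1 := by
  have hm := (low_all S n.up j (adm_up hA)).X_mono
  have h12 : Xl S n.up (layOf S n.up j) 1 < Xl S n.up (layOf S n.up j) 2 :=
    hm (by norm_num)
  change Xl S n.up (layOf S n.up j) 1 ≤
    (if Xl S n.up (layOf S n.up j) 1 < z then Xl S n.up (layOf S n.up j) 1
      else Xl S n.up (layOf S n.up j) (1 + 1))
  split_ifs
  · exact le_rfl
  · exact h12.le

theorem fs_XP (S : Seam k ld al) (n : Num) (j z : ℕ) (hA : Adm S n j) (hz : ZX S n j z)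
    {Λ' : FLay} (h : FStep S n (funP S n j) Λ') : FStep S n (funX S n j z) Λ' where
  st1 := by
    intro i a h1 h2 h3 h4 h5
    have ho := h.st1 i a h1 h2 h3 h4 h5
    have hx := funX_one S n j z hA
    change Λ'.bs i + (funP S n j).bs a + (n.n2 + (funP S n j).j + 1) ≤
      (funP S n j).bs i + Λ'.bs a + (funX S n j z).X 1
    omega
  st2 := by
    intro a h3 h4 h5
    have ho := h.st2 a h3 h4 h5
    have hx := funX_one S n j z hA
    change (funP S n j).bs a + (n.n2 + (funP S n j).j + 1) ≤ Λ'.bs a + (funX S n j z).X 1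
    omega

theorem fs_PX (S : Seam k ld al) (n : Num) (j z : ℕ) {Λ : FLay}
    (h : FStep S n Λ (funP S n j)) : FStep S n Λ (funX S n j z) where
  st1 := by
    intro i a h1 h2 h3 h4 h5
    exact h.st1 i a h1 h2 h3 h4 h5
  st2 := by
    intro a h3 h4 h5
    exact h.st2 a h3 h4 h5

theorem adm_pred {S : Seam k ld al} {n : Num} {j : ℕ} (h : Adm S n (j + 1)) : Adm S n j where
  n2T := h.n2T
  jU := by
    have := h.jU
    omega
  sp0 := h.sp0
  sp14 := h.sp14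
  sp5 := h.sp5

theorem fstep_all (S : Seam k ld al) (n : Num) (j : ℕ) (hA : Adm S n (j + 1))
    (h : ∀ Λ Λ', LayPG S n j Λ → LayPG S n (j + 1) Λ' → FStep S n Λ Λ') {Λ Λ' : FLay}
    (h1 : LayZ S n j Λ) (h2 : LayZ S n (j + 1) Λ') : FStep S n Λ Λ' := by
  have key : ∀ M, LayPG S n j M → FStep S n M Λ' := by
    intro M hM
    cases h2 with
    | P => exact h M _ hM .P
    | X z hz => exact fs_PX S n (j + 1) z (h M _ hM .P)
    | G z hz => exact h M _ hM (.G z hz)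
  cases h1 with
  | P => exact key _ .P
  | X z hz => exact fs_XP S n j z (adm_pred hA) hz (key _ .P)
  | G z hz => exact key _ (.G z hz)

theorem lab_lam {y1 y2 p : ℕ} (h : y1 < y2) :
    lam y1 y2 p = p + (if y1 ≤ lam y1 y2 p then 1 else 0) +
      (if y2 ≤ lam y1 y2 p then 1 else 0) := by
  unfold lam
  split_ifs <;> omega

/-- label and the inserted labels above it -/
private theorem lam_abv {w p p' : ℕ} (Λ : Lay) (h12 : Λ.y1 < Λ.y2) (hp : p ≤ p')
    (hw : w = p' + (if Λ.y1 ≤ w then 1 else 0) + (if Λ.y2 ≤ w then 1 else 0)) :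
    lam Λ.y1 Λ.y2 p + ((if lam Λ.y1 Λ.y2 p < Λ.y1 ∧ Λ.y1 ≤ w then 1 else 0) +
      (if lam Λ.y1 Λ.y2 p < Λ.y2 ∧ Λ.y2 ≤ w then 1 else 0)) + p' = w + p := by
  have hl := lab_lam (p := p) h12
  have hu : lam Λ.y1 Λ.y2 p ≤ w := by
    unfold lam
    by_cases ha : Λ.y1 ≤ w
    · by_cases hb : Λ.y2 ≤ w
      · rw [if_pos ha, if_pos hb] at hw
        split_ifs <;> omega
      · rw [if_pos ha, if_neg hb] at hw
        split_ifs <;> omega
    · rw [if_neg ha, if_neg (by omega : ¬ Λ.y2 ≤ w)] at hw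
      split_ifs <;> omega
  generalize lam Λ.y1 Λ.y2 p = L at hl hu ⊢
  by_cases ha : Λ.y1 ≤ w
  · by_cases hb : Λ.y2 ≤ w
    · rw [if_pos ha, if_pos hb] at hw
      split_ifs at hl ⊢ <;> omega
    · rw [if_pos ha, if_neg hb] at hw
      split_ifs at hl ⊢ <;> omega
  · rw [if_neg ha, if_neg (by omega : ¬ Λ.y2 ≤ w)] at hw
    split_ifs at hl ⊢ <;> omega

private theorem sk_abv' (z x : ℕ) : sk z x + (if sk z x < z then 1 else 0) = x + 1 := by
  unfold sk
  split_ifs <;> omega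

/-- number of inserted labels `≤ w` of the layout which are above `x` -/
def abv (w : ℕ) (Λ : Lay) (x : ℕ) : ℕ :=
  (if x < Λ.y1 ∧ Λ.y1 ≤ w then 1 else 0) + (if x < Λ.y2 ∧ Λ.y2 ≤ w then 1 else 0)

theorem lab_P (S : Seam k ld al) (n : Num) (Λ : Lay) (hk2 : Λ.k2 = false)
    (h12 : Λ.y1 < Λ.y2)
    (hw : wz S n = n.n2 + Λ.j + Λ.U + S.h + 1 + (if Λ.y1 ≤ wz S n then 1 else 0)
      + (if Λ.y2 ≤ wz S n then 1 else 0)) {e : ℕ} (h1 : 1 ≤ e) (h2 : e ≤ k)
    (h3 : e % 2 = 1) (hb : ¬ S.bad e) :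
    pl S n Λ e + abv (wz S n) Λ (pl S n Λ e) + S.h + 1 = wz S n + S.rk e := by
  have hr := S.rk_og e h1 h2 h3 hb
  have hpl : pl S n Λ e = lam Λ.y1 Λ.y2 (n.n2 + Λ.j + Λ.U + S.rk e) := by
    unfold pl lop
    rw [if_pos h3, hk2]
    simp only [Bool.false_eq_true, if_false]
    rw [if_neg (by omega)]
  have key := lam_abv (w := wz S n) (p := n.n2 + Λ.j + Λ.U + S.rk e)
    (p' := n.n2 + Λ.j + Λ.U + S.h + 1) Λ h12 (by omega) hw
  unfold abv
  rw [hpl]
  omega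

theorem lab_G (S : Seam k ld al) (n : Num) (Λ : Lay) (z : ℕ) (hk2 : Λ.k2 = false)
    (h12 : Λ.y1 < Λ.y2)
    (hw : wz S n = n.n2 + Λ.j + Λ.U + S.h + 1 + (if Λ.y1 ≤ wz S n then 1 else 0)
      + (if Λ.y2 ≤ wz S n then 1 else 0)) {e : ℕ} (h1 : 1 ≤ e) (h2 : e ≤ k)
    (h3 : e % 2 = 1) (hb : ¬ S.bad e) :
    (insG S n Λ z).p e + abv (wz S n) Λ (pl S n Λ e)
      + (if (insG S n Λ z).p e < z then 1 else 0) + S.h + 1 = wz S n.up + S.rk e := by
  have hP := lab_P S n Λ hk2 h12 hw h1 h2 h3 hb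
  have hp : (insG S n Λ z).p e = sk z (pl S n Λ e) := by
    change (if e % 2 = 1 then sk z (pl S n Λ e) else pl S n Λ e + 1) = _
    rw [if_pos h3]
  have hs : sk z (pl S n Λ e) + (if sk z (pl S n Λ e) < z then 1 else 0) = pl S n Λ e + 1 :=
    sk_abv' z (pl S n Λ e)
  rw [hp, wz_up]
  omega

theorem lab_P3 (S : Seam k ld al) (n : Num) (Λ : Lay) (hm : S.mode = 3) (hk2 : Λ.k2 = true)
    (h12 : Λ.y1 < Λ.y2)
    (hw : wz S n = n.n2 + Λ.j + Λ.U + S.h + 1 + (if Λ.y1 ≤ wz S n then 1 else 0)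
      + (if Λ.y2 ≤ wz S n then 1 else 0)) {e : ℕ} (h1 : 1 ≤ e) (h2 : e ≤ k)
    (h3 : e % 2 = 1) (hb : ¬ S.bad e) :
    pl S n Λ e + abv (wz S n) Λ (pl S n Λ e) + S.h + 2 = wz S n + S.rk e := by
  have hr := S.rk_og e h1 h2 h3 hb
  have hP := S.P1
  have hpl : pl S n Λ e = lam Λ.y1 Λ.y2 (n.n2 + Λ.j + Λ.U + S.rk e - 1) := by
    unfold pl lop
    rw [if_pos h3, hk2]
    simp only [if_true]
    rw [if_neg (by omega), if_neg (by omega)]
  have key := lam_abv (w := wz S n) (p := n.n2 + Λ.j + Λ.U + S.rk e - 1)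
    (p' := n.n2 + Λ.j + Λ.U + S.h + 1) Λ h12 (by omega) hw
  unfold abv
  rw [hpl]
  omega

theorem top_P3 (S : Seam k ld al) (n : Num) (Λ : Lay) (hm : S.mode = 3) (hk2 : Λ.k2 = true)
    (h12 : Λ.y1 < Λ.y2)
    (hw : wz S n = n.n2 + Λ.j + Λ.U + S.h + 1 + (if Λ.y1 ≤ wz S n then 1 else 0)
      + (if Λ.y2 ≤ wz S n then 1 else 0)) :
    pl S n Λ (S.q + 1) + abv (wz S n) Λ (pl S n Λ (S.q + 1)) = wz S n := by
  obtain ⟨-, -, hq0, -, hqP⟩ := S.m2 (Or.inr hm)
  have hpl : pl S n Λ (S.q + 1) = lam Λ.y1 Λ.y2 (n.n2 + Λ.j + Λ.U + S.h + 1) := by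
    unfold pl lop
    rw [if_pos (by omega : (S.q + 1) % 2 = 1), hk2, hqP]
    simp only [if_true]
    rw [if_neg (by omega)]
  have key := lam_abv (w := wz S n) (p := n.n2 + Λ.j + Λ.U + S.h + 1)
    (p' := n.n2 + Λ.j + Λ.U + S.h + 1) Λ h12 le_rfl hw
  unfold abv
  rw [hpl]
  omega

theorem sk_abv (z x : ℕ) : sk z x + (if sk z x < z then 1 else 0) = x + 1 :=
  sk_abv' z x

theorem bad_pos (S : Seam k ld al) (n : Num) (Λ : Lay) (hk2 : Λ.k2 = false) {e : ℕ}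
    (h1 : 1 ≤ e) (h2 : e ≤ k) (h3 : e % 2 = 1) (hb : S.bad e) :
    pl S n Λ e = lam Λ.y1 Λ.y2 (n.n2 + Λ.j + S.rk e) ∧ 1 ≤ S.rk e ∧ S.rk e ≤ S.P := by
  have hr := S.rk_ob e h1 h2 h3 hb
  refine ⟨?_, hr.1, hr.2⟩
  unfold pl lop
  rw [if_pos h3, hk2]
  simp only [Bool.false_eq_true, if_false]
  rw [if_pos hr.2]

theorem bad_pos3 (S : Seam k ld al) (n : Num) (Λ : Lay) (hm : S.mode = 3) (hk2 : Λ.k2 = true)
    {e : ℕ} (h1 : 1 ≤ e) (h2 : e ≤ k) (h3 : e % 2 = 1) (hb : S.bad e) (hq : e ≠ S.q + 1) :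
    pl S n Λ e = lam Λ.y1 Λ.y2 (n.n2 + Λ.j + S.rk e) ∧ 1 ≤ S.rk e ∧ S.rk e < S.P := by
  have hr := S.rk_ob e h1 h2 h3 hb
  obtain ⟨-, -, hq0, -, hqP⟩ := S.m2 (Or.inr hm)
  have hqk := S.hq
  have hne : S.rk e ≠ S.P := by
    intro he
    apply hq
    exact S.rk_inj e (S.q + 1) h1 h2 (by omega) (by omega) (by omega) (by rw [he, hqP])
  have hlt : S.rk e < S.P := by omega
  refine ⟨?_, hr.1, hlt⟩
  unfold pl lop
  rw [if_pos h3, hk2]
  simp only [if_true]
  rw [if_pos hlt]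

end Pool.Agent.Lob5
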