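import Pool.Agent.Lob5.HoleDefs

/-!
# The layers `funP` and `funX`

Everything is transferred from `L := low_all S n.up j (adm_up hA)`, `M := mod_all S n.up j (adm_up hA)`,
`E := ext_all S n.up j (adm_up hA)` for the layout `Λ := layOf S n.up j` (`lay_j' : Λ.j = j`).
`n.up.n2 = n.n2` etc. hold by `rfl`, `n.up.Ux = n.Ux + 1`.

* `funP`: the fields are literally those of `L, M, E`, with `U_P` (from `M.U_eq`); `p_even` by `unfold pl`;
  `Dgg, Dgb, Fx` are a little weaker; `y_ok, xs_ok`: `M.y_ok` and `L.X_y`, `L.p_odd`.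
* `xr_P`: `Xl i + w + N0 + nT ≤ bs r + i + 1` for `i ≥ 2` (and for `i ≥ 1` with `+ 2` it is `L.X_up`,
  `L.bP`; both are needed). For `i ≥ 1`: if `Λ.xsf = false` then `Λ.y2 = wz S n.up + 2` in all cases of
  `layOf`, or (`layNone`, `layLg`) both are `> w`, so for positions `≤ w` one has `lam y1 y2 i ≤ i + 1`, so
  `Xl i ≤ n2+j+P+i+1` (positions of the `X i`, `i ≤ U`, are `≤ w` by `L.w_ge`), and `L.bP` gives the
  claim. If `Λ.xsf = true`: `n.sp = 3` and the mode is 1, 3 or 4. Mode 3: `k2 = true`, so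
  `Xl i = lam (n2+j+P+i-1) ≤ n2+j+P+i+1`. Modes 1 and 4: `S.P + 1 ≤ S.Q`, use `L.bQ` and `L.X_up`.
  (Mode 1, `lay1`: the condition says `n2+j+nT+h+1-Q + (n2+j+P+1) < nT+h+n2+j+1`, so `n2+j+P+1 < Q`.
  Mode 4, `lay4`: `n2 + (Ux+1) + P + cutG + 1 + P < nT + h`, `Ux ≥ nT + j + 1`, `h + 1 ≤ P + Q`.)
* `funX` (`z = Xl i0`, `1 ≤ i0 ≤ Λ.U`): same `p`; `X i = Xl i` or `Xl (i+1)`, so `Xl i ≤ X i ≤ Xl (i+1)`
  and `X i ≠ z` by strict monotonicity. Hence `X (U) ≤ Xl (Λ.U)` for `U = Λ.U - 1 ≥ 1`, `Xl 1 ≤ X 1`, and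
  all inequalities of `L, M` get weaker in the right direction. `U_ge`: `U_P` and `hA.jU`
  (`xsf` implies `sp = 3`): `Λ.U ≥ n.nT + 1`. `Xr`: `xr_P` with `i = t + 1`.
  `FZed`: `z > n2+j+P` by `L.X_lo`; `p ≠ z`: `L.X_p`; `y, xs ≠ z`: `L.X_y` and `M.y_ok, M.xs_ok`.
-/

namespace Pool.Agent.Lob5

variable {k : ℕ} {ld al : ℕ → Prop}

private theorem hx_cases (S : Seam k ld al) (n : Num) (i : ℕ) (hA : Adm S n i) :
    (n.sp = 0 ∧ ∀ j, layOf S n j = layNone S n j) ∨
      (S.mode = 1 ∧ ∀ j, layOf S n j = lay1 S n j) ∨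
      (S.mode = 2 ∧ ∀ j, layOf S n j = lay2 S n j) ∨
      (S.mode = 3 ∧ ∀ j, layOf S n j = lay3 S n j) ∨
      (S.mode = 4 ∧ ∀ j, layOf S n j = lay4 S n j) ∨
      (S.mode = 5 ∧ n.sp = 1 ∧ ∀ j, layOf S n j = lay5 S n j) := by
  by_cases h0 : n.sp = 0
  · exact Or.inl ⟨h0, fun j => by simp [layOf, h0]⟩
  by_cases h1 : S.mode = 1
  · exact Or.inr (Or.inl ⟨h1, fun j => by simp [layOf, h0, h1]⟩)
  by_cases h2 : S.mode = 2
  · exact Or.inr (Or.inr (Or.inl ⟨h2, fun j => by simp [layOf, h0, h2]⟩))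
  by_cases h3 : S.mode = 3
  · exact Or.inr (Or.inr (Or.inr (Or.inl ⟨h3, fun j => by simp [layOf, h0, h3]⟩)))
  by_cases h4 : S.mode = 4
  · exact Or.inr (Or.inr (Or.inr (Or.inr (Or.inl ⟨h4, fun j => by simp [layOf, h0, h4]⟩))))
  have hm0 : S.mode ≠ 0 := fun h => h0 (hA.sp0 h)
  have h5 : S.mode = 5 := by
    have := S.mode_le
    omega
  have hs := hA.sp5 h5
  exact Or.inr (Or.inr (Or.inr (Or.inr (Or.inr ⟨h5, by omega, fun j => by
    simp [layOf, h0, h5]⟩))))

/-- labels without second inserted label in the low zone -/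
private theorem hx_one (S : Seam k ld al) (n : Num) (Λ : Lay) (hk2 : Λ.k2 = false)
    (hy2 : wz S n + 2 ≤ Λ.y2) (i : ℕ) (h : n.n2 + Λ.j + S.P + i ≤ wz S n) :
    Xl S n Λ i ≤ n.n2 + Λ.j + S.P + i + 1 := by
  unfold Xl
  rw [hk2]
  change lam Λ.y1 Λ.y2 (n.n2 + Λ.j + S.P + i) ≤ _
  unfold lam
  rw [if_neg (show ¬ Λ.y2 ≤ n.n2 + Λ.j + S.P + i + 1 by omega)]
  split_ifs <;> omega

private theorem hx_key (S : Seam k ld al) (n : Num) (j : ℕ) (hA : Adm S n j) (i : ℕ)
    (h1 : 1 ≤ i) (h2 : i ≤ (layOf S n j).U) :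
    Xl S n (layOf S n j) i ≤ n.n2 + (layOf S n j).j + S.P + i + 1 ∨ S.P + 1 ≤ S.Q := by
  have L := low_all S n j hA
  have hw := L.w_ge
  have hPh := S.Ph
  have hQh := S.Qh
  have hPQ := S.PQ
  have hjU := hA.jU
  have hpos : n.n2 + (layOf S n j).j + S.P + i ≤ wz S n := by omega
  clear hw L
  rcases hx_cases S n j hA with
    ⟨h, e⟩ | ⟨h, e⟩ | ⟨h, e⟩ | ⟨h, e⟩ | ⟨h, e⟩ | ⟨h, hs, e⟩ <;> rw [e] at hpos h2 ⊢
  · exact Or.inl (hx_one S n _ rfl le_rfl i hpos)
  · unfold lay1 at hpos h2 ⊢
    by_cases hc : n.sp = 3 ∧ (n.n2 + j + n.nT + S.h + 1 - S.Q) + (n.n2 + j + S.P + 1 +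
        (if n.n2 + j + n.nT + S.h + 1 - S.Q ≤ n.n2 + j + S.P + 1 then 1 else 0)) <
        n.nT + S.h + n.n2 + j + 1
    · right
      have := hc.2
      omega
    · rw [if_neg hc] at hpos h2 ⊢
      exact Or.inl (hx_one S n _ rfl le_rfl i hpos)
  · exact Or.inl (hx_one S n _ rfl le_rfl i hpos)
  · left
    have hk2 : (lay3 S n j).k2 = true := by
      unfold lay3
      split_ifs <;> rfl
    unfold Xl
    rw [hk2]
    change lam _ _ (n.n2 + (lay3 S n j).j + S.P + i - 1) ≤ _
    unfold lam
    split_ifs <;> omega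
  · unfold lay4 at hpos h2 ⊢
    by_cases hc : S.h < n.n2 + j + S.Q + 2
    · rw [if_pos hc] at hpos h2 ⊢
      exact Or.inl (hx_one S n _ rfl le_rfl i hpos)
    · rw [if_neg hc] at hpos h2 ⊢
      by_cases hd : n.sp = 3 ∧
          n.n2 + n.Ux + S.P + S.cutG (n.n2 + j + S.Q + 2) + 1 + S.P < n.nT + S.h
      · right
        have h3 := hd.1
        have h4 := hd.2
        rw [if_pos (by omega)] at hjU
        omega
      · rw [if_neg hd] at hpos h2 ⊢
        exact Or.inl (hx_one S n _ rfl le_rfl i hpos)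
  · left
    unfold lay5 at hpos h2 ⊢
    dsimp only at hpos h2 ⊢
    by_cases c1 : n.n2 + n.Ux + S.P + 2 + 1 ≤ S.Q
    · rw [if_pos c1] at hpos h2 ⊢
      exact hx_one S n _ rfl le_rfl i hpos
    rw [if_neg c1] at hpos h2 ⊢
    by_cases c2 : n.n2 + n.Ux + S.P + 2 ≤ S.Q + n.nT
    · rw [if_pos c2] at hpos h2 ⊢
      exact hx_one S n _ rfl le_rfl i hpos
    rw [if_neg c2] at hpos h2 ⊢
    by_cases c3 : n.n2 + n.Ux + S.P + 2 ≤ n.nT + S.h
    · rw [if_pos c3] at hpos h2 ⊢
      exact hx_one S n _ rfl le_rfl i hpos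
    rw [if_neg c3] at hpos h2 ⊢
    exact hx_one S n _ rfl le_rfl i hpos

theorem U_P (S : Seam k ld al) (n : Num) (j : ℕ) (hA : Adm S n j) :
    (funP S n j).U + j + (if (funP S n j).xsf then 1 else 0) =
      n.Ux + 1 + (if (funP S n j).lg then 1 else 0) ∧ n.nT + 1 ≤ (funP S n j).U := by
  have M := mod_all S n.up j (adm_up hA)
  have hU := M.U_eq
  rw [lay_j'] at hU
  have hU' : (layOf S n.up j).U + j + (if (layOf S n.up j).xsf then 1 else 0) =
      n.Ux + 1 + (if (layOf S n.up j).lg then 1 else 0) := hU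
  refine ⟨hU', ?_⟩
  change n.nT + 1 ≤ (layOf S n.up j).U
  have hjU := hA.jU
  by_cases hx : (layOf S n.up j).xsf = true
  · have h3 : n.sp = 3 := (M.xs_ok hx).1
    rw [if_pos (by omega)] at hjU
    rw [if_pos hx] at hU'
    omega
  · rw [if_neg hx] at hU'
    omega

theorem xr_P (S : Seam k ld al) (n : Num) (j : ℕ) (hA : Adm S n j) (i r : ℕ) (h1 : 1 ≤ i)
    (h2 : i ≤ (layOf S n.up j).U) (hr : ld r) (hra : ¬ al r) :
    Xl S n.up (layOf S n.up j) i + wz S n.up + n.N0 + n.nT ≤
      bs S n.up (layOf S n.up j) r + i + 1 := by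
  have hA' := adm_up hA
  have L := low_all S n.up j hA'
  rcases hx_key S n.up j hA' i h1 h2 with h | h
  · have h3 : wz S n.up + n.N0 + n.nT + n.up.n2 + (layOf S n.up j).j + S.P ≤
        bs S n.up (layOf S n.up j) r := L.bP r hr (Or.inr hra)
    omega
  · have h3 : wz S n.up + n.N0 + n.nT + n.up.n2 + (layOf S n.up j).j + S.Q ≤
        bs S n.up (layOf S n.up j) r := L.bQ r hr (Or.inr hra)
    have h4 := L.X_up i
    omega

theorem flow_P (S : Seam k ld al) (n : Num) (j : ℕ) (hA : Adm S n j) :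
    FLow S n (funP S n j) := by
  have hA' := adm_up hA
  have L := low_all S n.up j hA'
  have E := ext_all S n.up j hA'
  have hj := lay_j' S n.up j
  exact
    { U_ge := L.U_ge
      w_ge := by
        have := L.w_ge
        rw [hj] at this
        exact this
      p_odd := fun e h1 h2 h3 => by
        have := L.p_odd e h1 h2 h3
        rw [hj] at this
        exact ⟨this.1, this.2.1⟩
      p_even := fun e he => by
        change pl S n.up (layOf S n.up j) e = _
        unfold pl
        rw [if_neg (by omega)]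
        rfl
      p_inj := L.p_inj
      X_mono := L.X_mono
      X_lo := fun i hi => by
        have := L.X_lo i hi
        rw [hj] at this
        exact this
      X_w := L.X_w
      X_p := L.X_p
      C_lo := L.C_lo
      C_up := L.C_up
      C_inj := L.C_inj
      C_gap := L.C_gap
      bP := fun i h1 h2 => by
        have := L.bP i h1 h2
        rw [hj] at this
        exact this
      bQ := fun i h1 h2 => by
        have := L.bQ i h1 h2
        rw [hj] at this
        exact this
      bh := fun i h1 h2 h3 => by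
        have := L.bh i h1 h2 h3
        rw [hj] at this
        exact this
      bupb := E.bupb
      bupg := E.bupg
      shx := L.shx
      Xr := fun t r h1 h2 h3 h4 => (xr_P S n j hA t r h1 h2 h3 h4).trans (Nat.le_succ _) }

theorem fmod_P (S : Seam k ld al) (n : Num) (j : ℕ) (hA : Adm S n j) :
    FMod S n (funP S n j) := by
  have hA' := adm_up hA
  have L := low_all S n.up j hA'
  have M := mod_all S n.up j hA'
  have hj := lay_j' S n.up j
  have hX : ∀ i, 1 ≤ i → ∀ x, (x = (layOf S n.up j).y1 ∨ x = (layOf S n.up j).y2) →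
      Xl S n.up (layOf S n.up j) i ≠ x := by
    rintro i hi x (rfl | rfl)
    · exact (L.X_y i hi).1
    · exact (L.X_y i hi).2
  have hp : ∀ e, 1 ≤ e → e ≤ k → e % 2 = 1 →
      ∀ x, (x = (layOf S n.up j).y1 ∨ x = (layOf S n.up j).y2) →
      pl S n.up (layOf S n.up j) e ≠ x := by
    rintro e h1 h2 h3 x (rfl | rfl)
    · exact (L.p_odd e h1 h2 h3).2.2.1
    · exact (L.p_odd e h1 h2 h3).2.2.2
  exact
    { y_ok := fun h1 h2 => by
        have h := M.y_ok h1 h2
        have h3 := h.1
        rw [hj] at h3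
        exact ⟨h3, h.2.1, fun i hi _ => hX i hi _ h.2.2, fun e g1 g2 g3 => hp e g1 g2 g3 _ h.2.2⟩
      xs_ok := fun h1 => by
        have h := M.xs_ok h1
        have h3 := h.2.1
        rw [hj] at h3
        exact ⟨h.1, h3, h.2.2.1, h.2.2.2.1, fun i hi _ => hX i hi _ h.2.2.2.2,
          fun e g1 g2 g3 => hp e g1 g2 g3 _ h.2.2.2.2⟩
      lg_ok := M.lg_ok
      V_lo := M.V_lo
      V_up := fun h1 h2 => by
        have := M.V_up h1 h2
        rw [hj] at this
        exact this
      V_C := M.V_C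
      V_L := M.V_L
      F3 := fun h1 h2 => by
        have := M.F3 h1 h2
        rw [hj] at this
        exact this
      Fx := fun h1 => by
        have := M.Fx h1
        rw [hj] at this
        exact ⟨this.1, this.2.trans (Nat.le_succ _)⟩
      Dbb := M.Dbb
      Dgg := fun a z h1 h2 h3 h4 h5 h6 => by
        have h7 : bs S n.up (layOf S n.up j) a ≤ bs S n.up (layOf S n.up j) z + S.Q +
          (if 2 ≤ n.sp then 1 else 0) := M.Dgg a z h1 h2 h3 h4 h5 h6
        change bs S n.up (layOf S n.up j) a ≤ bs S n.up (layOf S n.up j) z + S.Q + 1 +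
          (if 2 ≤ n.sp then 1 else 0)
        omega
      Dgb := fun a z h1 h2 h3 h4 h5 h6 => by
        have := M.Dgb a z h1 h2 h3 h4 h5 h6
        rw [hj] at this
        exact this }

/-- facts about the labels of `funX` -/
private theorem hx_X (S : Seam k ld al) (n : Num) (j z : ℕ) (hA : Adm S n j) (i : ℕ) :
    Xl S n.up (layOf S n.up j) i ≤ (funX S n j z).X i ∧
      (funX S n j z).X i ≤ Xl S n.up (layOf S n.up j) (i + 1) ∧ (funX S n j z).X i ≠ z ∧
      ((funX S n j z).X i = Xl S n.up (layOf S n.up j) i ∨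
        (funX S n j z).X i = Xl S n.up (layOf S n.up j) (i + 1)) := by
  have L := low_all S n.up j (adm_up hA)
  have h := L.X_mono (Nat.lt_succ_self i)
  have h' : Xl S n.up (layOf S n.up j) i < Xl S n.up (layOf S n.up j) (i + 1) := h
  change _ ≤ (if Xl S n.up (layOf S n.up j) i < z then Xl S n.up (layOf S n.up j) i
    else Xl S n.up (layOf S n.up j) (i + 1)) ∧
    (if Xl S n.up (layOf S n.up j) i < z then Xl S n.up (layOf S n.up j) i
    else Xl S n.up (layOf S n.up j) (i + 1)) ≤ _ ∧
    (if Xl S n.up (layOf S n.up j) i < z then Xl S n.up (layOf S n.up j) i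
    else Xl S n.up (layOf S n.up j) (i + 1)) ≠ _ ∧
    ((if Xl S n.up (layOf S n.up j) i < z then Xl S n.up (layOf S n.up j) i
    else Xl S n.up (layOf S n.up j) (i + 1)) = _ ∨
    (if Xl S n.up (layOf S n.up j) i < z then Xl S n.up (layOf S n.up j) i
    else Xl S n.up (layOf S n.up j) (i + 1)) = _)
  by_cases hc : Xl S n.up (layOf S n.up j) i < z
  · simp only [if_pos hc]
    exact ⟨le_rfl, h'.le, hc.ne, Or.inl trivial⟩
  · simp only [if_neg hc]
    exact ⟨h'.le, le_rfl, by omega, Or.inr trivial⟩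

private theorem hx_mono (S : Seam k ld al) (n : Num) (j z : ℕ) (hA : Adm S n j) :
    StrictMono (funX S n j z).X := by
  have L := low_all S n.up j (adm_up hA)
  intro a b hab
  change (if Xl S n.up (layOf S n.up j) a < z then Xl S n.up (layOf S n.up j) a
    else Xl S n.up (layOf S n.up j) (a + 1)) <
    (if Xl S n.up (layOf S n.up j) b < z then Xl S n.up (layOf S n.up j) b
    else Xl S n.up (layOf S n.up j) (b + 1))
  have h1 : Xl S n.up (layOf S n.up j) a < Xl S n.up (layOf S n.up j) b := L.X_mono hab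
  have h2 : Xl S n.up (layOf S n.up j) (a + 1) < Xl S n.up (layOf S n.up j) (b + 1) :=
    L.X_mono (Nat.succ_lt_succ hab)
  have h3 : Xl S n.up (layOf S n.up j) b < Xl S n.up (layOf S n.up j) (b + 1) :=
    L.X_mono (Nat.lt_succ_self b)
  split_ifs <;> omega

/-- the last label -/
private theorem hx_last (S : Seam k ld al) (n : Num) (j z : ℕ) (hA : Adm S n j)
    (hU : 1 ≤ (funX S n j z).U) :
    (funX S n j z).X (funX S n j z).U ≤ Xl S n.up (layOf S n.up j) (layOf S n.up j).U := by
  have h := (hx_X S n j z hA (funX S n j z).U).2.1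
  have h2 : (funX S n j z).U = (layOf S n.up j).U - 1 := rfl
  have h3 : (funX S n j z).U + 1 = (layOf S n.up j).U := by omega
  rw [h3] at h
  exact h

theorem flow_X (S : Seam k ld al) (n : Num) (j z : ℕ) (hA : Adm S n j) (hz : ZX S n j z) :
    FLow S n (funX S n j z) := by
  have hA' := adm_up hA
  have L := low_all S n.up j hA'
  have F := flow_P S n j hA
  have hj := lay_j' S n.up j
  have hUP := (U_P S n j hA).2
  have hUP' : n.nT + 1 ≤ (layOf S n.up j).U := hUP
  have hU : (funX S n j z).U = (layOf S n.up j).U - 1 := rfl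
  have hX := hx_X S n j z hA
  exact
    { U_ge := by
        rw [hU]
        omega
      w_ge := by
        have : n.n2 + (funP S n j).j + (layOf S n.up j).U + S.h + 1 ≤ wz S n.up := F.w_ge
        change n.n2 + (funP S n j).j + ((layOf S n.up j).U - 1) + S.h + 1 ≤ wz S n.up
        omega
      p_odd := F.p_odd
      p_even := F.p_even
      p_inj := F.p_inj
      X_mono := hx_mono S n j z hA
      X_lo := fun i hi => le_trans (F.X_lo i hi) (hX i).1
      X_w := fun i h1 h2 => by
        rw [hU] at h2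
        exact (hX i).2.1.trans (L.X_w (i + 1) (by omega) (by omega))
      X_p := fun i e h1 h2 h3 h4 h5 => by
        rw [hU] at h2
        rcases (hX i).2.2.2 with h | h <;> rw [h]
        · exact L.X_p i e h1 (by omega) h3 h4 h5
        · exact L.X_p (i + 1) e (by omega) (by omega) h3 h4 h5
      C_lo := F.C_lo
      C_up := F.C_up
      C_inj := F.C_inj
      C_gap := fun h i h1 h2 h3 => by
        have h4 := hx_last S n j z hA h
        have h5 := (hX 1).1
        have h6 : bs S n.up (layOf S n.up j) i <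
            wz S n.up + n.N0 + S.Q + 1 + Xl S n.up (layOf S n.up j) 1 ∨
            wz S n.up + n.N0 + S.Q + n.nT + 1 +
              Xl S n.up (layOf S n.up j) (layOf S n.up j).U < bs S n.up (layOf S n.up j) i :=
          L.C_gap (by omega) i h1 h2 h3
        change bs S n.up (layOf S n.up j) i < wz S n.up + n.N0 + S.Q + 1 + (funX S n j z).X 1 ∨
            wz S n.up + n.N0 + S.Q + n.nT + 1 +
              (funX S n j z).X (funX S n j z).U < bs S n.up (layOf S n.up j) i
        omega
      bP := F.bP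
      bQ := F.bQ
      bh := F.bh
      bupb := F.bupb
      bupg := F.bupg
      shx := fun a x h1 h2 h3 h4 h5 =>
        (L.shx a x h1 h2 h3 h4 h5).trans_le (Nat.add_le_add_left (hX 1).1 _)
      Xr := fun t r h1 h2 h3 h4 => by
        rw [hU] at h2
        have h5 := xr_P S n j hA (t + 1) r (by omega) (by omega) h3 h4
        have h6 := (hX t).2.1
        change (funX S n j z).X t + wz S n.up + n.N0 + n.nT ≤
          bs S n.up (layOf S n.up j) r + t + 2
        omega }

theorem fmod_X (S : Seam k ld al) (n : Num) (j z : ℕ) (hA : Adm S n j) (hz : ZX S n j z) :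
    FMod S n (funX S n j z) := by
  have hA' := adm_up hA
  have L := low_all S n.up j hA'
  have M := mod_all S n.up j hA'
  have F := fmod_P S n j hA
  have hU : (funX S n j z).U = (layOf S n.up j).U - 1 := rfl
  have hUP' : n.nT + 1 ≤ (layOf S n.up j).U := (U_P S n j hA).2
  have hX := hx_X S n j z hA
  have hne : ∀ i, 1 ≤ i → i ≤ (funX S n j z).U → ∀ x,
      (∀ i, 1 ≤ i → i ≤ (funP S n j).U → (funP S n j).X i ≠ x) → (funX S n j z).X i ≠ x := by
    intro i h1 h2 x h
    rw [hU] at h2
    have hUP : (funP S n j).U = (layOf S n.up j).U := rfl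
    rcases (hX i).2.2.2 with h3 | h3 <;> rw [h3]
    · exact h i h1 (by omega)
    · exact h (i + 1) (by omega) (by omega)
  exact
    { y_ok := fun h1 h2 => by
        have h := F.y_ok h1 h2
        exact ⟨h.1, h.2.1, fun i hi hi2 => hne i hi hi2 _ h.2.2.1, h.2.2.2⟩
      xs_ok := fun h1 => by
        have h := F.xs_ok h1
        exact ⟨h.1, h.2.1, h.2.2.1, h.2.2.2.1, fun i hi hi2 => hne i hi hi2 _ h.2.2.2.2.1,
          h.2.2.2.2.2⟩
      lg_ok := F.lg_ok
      V_lo := F.V_lo
      V_up := F.V_up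
      V_C := F.V_C
      V_L := fun h1 h2 h => by
        have h4 := hx_last S n j z hA h
        have h5 := (hX 1).1
        have h6 : bs S n.up (layOf S n.up j) S.q + (layOf S n.up j).y <
            wz S n.up + n.N0 + S.Q + 1 + Xl S n.up (layOf S n.up j) 1 ∨
            wz S n.up + n.N0 + S.Q + n.nT + 1 +
              Xl S n.up (layOf S n.up j) (layOf S n.up j).U <
              bs S n.up (layOf S n.up j) S.q + (layOf S n.up j).y :=
          M.V_L h1 h2 (by omega)
        change bs S n.up (layOf S n.up j) S.q + (layOf S n.up j).y <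
            wz S n.up + n.N0 + S.Q + 1 + (funX S n j z).X 1 ∨
            wz S n.up + n.N0 + S.Q + n.nT + 1 +
              (funX S n j z).X (funX S n j z).U <
              bs S n.up (layOf S n.up j) S.q + (layOf S n.up j).y
        omega
      F3 := fun h1 h2 => le_trans (F.F3 h1 h2) (Nat.add_le_add_left (hX 1).1 _)
      Fx := F.Fx
      Dbb := F.Dbb
      Dgg := F.Dgg
      Dgb := F.Dgb }

theorem fzed_X (S : Seam k ld al) (n : Num) (j z : ℕ) (hA : Adm S n j) (hz : ZX S n j z) :
    FZed S n (funX S n j z) := by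
  have hA' := adm_up hA
  have L := low_all S n.up j hA'
  have M := mod_all S n.up j hA'
  have hj := lay_j' S n.up j
  have hUP := U_P S n j hA
  have hUP1 : (layOf S n.up j).U + j + (if (layOf S n.up j).xsf then 1 else 0) =
      n.Ux + 1 + (if (layOf S n.up j).lg then 1 else 0) := hUP.1
  have hUP2 : n.nT + 1 ≤ (layOf S n.up j).U := hUP.2
  have hX := hx_X S n j z hA
  obtain ⟨i0, g1, g2, g3⟩ := hz
  exact
    { U_eq := by
        change (layOf S n.up j).U - 1 + j + (if (layOf S n.up j).xsf then 1 else 0) =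
          n.Ux + (if (layOf S n.up j).lg then 1 else 0)
        omega
      rng := by
        have h1 := L.X_lo i0 g1
        have h2 := L.X_w i0 g1 g2
        rw [hj] at h1
        have h3 : n.n2 + j + S.P + i0 ≤ Xl S n.up (layOf S n.up j) i0 := h1
        change n.n2 + j + S.P < z ∧ z ≤ wz S n.up
        omega
      p := fun e h1 h2 h3 => by
        have h4 := L.X_p i0 e g1 g2 h1 h2 h3
        rw [g3] at h4
        exact h4.symm
      X := fun i _ _ => (hX i).2.2.1
      y := fun h1 h2 => by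
        have h := (M.y_ok h1 h2).2.2
        have h3 := L.X_y i0 g1
        rw [g3] at h3
        rcases h with h | h
        · exact fun h4 => h3.1 (h4.symm.trans h)
        · exact fun h4 => h3.2 (h4.symm.trans h)
      xs := fun h1 => by
        have h := (M.xs_ok h1).2.2.2.2
        have h3 := L.X_y i0 g1
        rw [g3] at h3
        rcases h with h | h
        · exact fun h4 => h3.1 (h4.symm.trans h)
        · exact fun h4 => h3.2 (h4.symm.trans h) }

end Pool.Agent.Lob5
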