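import Pool.Agent.Lob5.LowGen
import Pool.Agent.Lob5.LowGen2

/-!
# Mode 1 (K1)

Notation: `w = wz S n`, `m = mz S n`, `J i = rk i + rk (i+1) = rk (oe i) + rk (ee i)`.
Bases of loaded vertices by `bs_bg` (odd edge bad, kind b) and `bs_gb` (odd edge good, kind g):
kind b: `w+N0+nT+(n2+j+J)+s`, kind g: `w+N0+(n2+j+U+J)+s`, where the shift `s` is the number of
inserted labels below the odd edge. Unloaded vertices: `bs_bb`, `bs_gg`. The `D`-fields follow from
`S.tbb, S.tbg, S.tgb, S.tgg` (with the value of `S.mode` inserted), `U ≥ nT` and the bounds for the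
shifts. For kind b `a` and kind g `z` use `U ≥ nT`. For a kind b vertex the good even edge exists.

`q` is odd, `e_q` good of rank `h+1` (label `w`: the last position; so `P ≤ h`), `e_{q+1}` bad of rank
`Q` (label `w+N0+Q`). `y = n2+j+nT+h+1-Q`.
`low_1`: `lowOK_gen`. One inserted label: `n2+j < y ≤ n2+j+U+h`. Two inserted labels (`sp = 3`,
`U = Ux-1-j`, `x = Q`, or `Q+1` if `Q = y`): the condition says `X1 + 1 ≤ Q` where
`X1 = n2+j+P+1+[y ≤ n2+j+P+1]`, so `x ≥ n2+j+P+2`, `x ≤ h+1`.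
`mod_1`: `V = w + (w+N0+Q) + y = w+m+n2+j+1`, larger than `w+m ≥` all unloaded sums (`C_up`) and than
`w+N0+Q+nT+1+X U` since `X U ≤ w-1`. `F3`: `X 1 = n2+j+P+1+[y ≤ n2+j+P+1]`. `Fx`: `y+Q = nT+h+n2+j+1`.
Shifts: kind b at most 1 (the label `x` is above all bad odd edges), kind g at most 1 resp. 2 (two
inserted labels, then `sp = 3` and `U + j = Ux - 1`).
-/

namespace Pool.Agent.Lob5

variable {k : ℕ} {ld al : ℕ → Prop}

private theorem wz_eq (S : Seam k ld al) (n : Num) (hsp : n.sp ≠ 0) :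
    wz S n = n.n2 + n.Ux + S.h + 2 := by
  unfold wz
  rw [if_neg hsp]

private theorem P_le (S : Seam k ld al) (hm : S.mode = 1) : S.P ≤ S.h := by
  obtain ⟨h1, h2, h3, h4, h5, h6⟩ := S.m1 hm
  have h7 := S.al_ld _ h1
  have h8 := S.rk_og S.q (S.ld_pos _ h7) (S.ld_lt _ h7).le h3 h2
  omega

private theorem lamS {y w p : ℕ} (hp : p ≤ w) : lam y (w + 2) p = p + (if y ≤ p then 1 else 0) := by
  unfold lam
  rw [if_neg (show ¬ w + 2 ≤ p + 1 by omega), Nat.add_zero]

theorem low_1 (S : Seam k ld al) (n : Num) (j : ℕ) (hm : S.mode = 1) (hA : Adm S n j) :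
    LowOK S n (lay1 S n j) := by
  have hsp := hA.sp14 (by omega) (by omega)
  have hw := wz_eq S n (by omega)
  have hP := P_le S hm
  have hjU := hA.jU
  have hQ := S.Qh
  have h2T := hA.n2T
  unfold lay1
  split_ifs with hc h0 h1 h2 h3
  all_goals first
    | (refine lowOK_gen S n _ rfl ?_ ?_ ?_ ?_ <;> simp only [layS, layD]
       · omega
       · omega
       · split_ifs at hjU ⊢ <;> omega
       · split_ifs at hjU <;> omega)

private theorem mod_aux (S : Seam k ld al) (n : Num) (j : ℕ) (Λ : Lay) (hm : S.mode = 1)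
    (hA : Adm S n j) (hj : Λ.j = j) (hk2 : Λ.k2 = false) (hlg : Λ.lg = false)
    (hy : Λ.y = n.n2 + j + n.nT + S.h + 1 - S.Q) (hlow : LowOK S n Λ)
    (hUe : Λ.U + Λ.j + (if Λ.xsf then 1 else 0) = n.Ux)
    (hyy : Λ.y = Λ.y1 ∨ Λ.y = Λ.y2)
    (hxs : Λ.xsf = true → n.sp = 3 ∧ n.n2 + Λ.j < Λ.xs ∧ Λ.xs ≤ wz S n ∧ Λ.xs ≠ Λ.y ∧
      (Λ.xs = Λ.y1 ∨ Λ.xs = Λ.y2))
    (hw : lam Λ.y1 Λ.y2 (n.n2 + Λ.j + Λ.U + (S.h + 1)) = wz S n)
    (hs1 : ∀ p, p ≤ n.n2 + j + S.P → lam Λ.y1 Λ.y2 p ≤ p + 1)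
    (hs2 : ∀ p, p ≤ wz S n → lam Λ.y1 Λ.y2 p ≤ p + 1 + (if Λ.xsf then 1 else 0))
    (F3 : n.sp = 3 → Λ.xsf = false → n.nT + S.h + n.n2 + Λ.j + 1 ≤ Λ.y + Xl S n Λ 1)
    (Fx : Λ.xsf = true → n.nT + S.h + n.n2 + Λ.j + 1 ≤ Λ.y + Λ.xs ∧
      Λ.y + Λ.xs ≤ n.nT + S.h + n.n2 + Λ.j + 2) : ModOK S n Λ := by
  have hsp := hA.sp14 (by omega) (by omega)
  have hwz := wz_eq S n (by omega)
  have hP := P_le S hm
  have hjU := hA.jU
  have hQ := S.Qh
  have hUge := hlow.U_ge
  obtain ⟨q1, q2, q3, q4, q5, q6⟩ := S.m1 hm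
  have q7 := S.al_ld _ q1
  have q8 := S.ld_pos _ q7
  have q9 := S.ld_lt _ q7
  have q10 : oe S.q = S.q := by
    unfold oe
    rw [if_pos q3]
  have q11 : ee S.q = S.q + 1 := by
    unfold ee
    rw [if_pos q3]
  have q12 : S.bad (ee S.q) := by
    by_contra hb
    have h1 := (S.diff' q7).2 hb
    rw [q10] at h1
    exact q2 h1
  have hbq : bs S n Λ S.q = wz S n + n.N0 + wz S n + S.Q := by
    rw [bs_gb S n Λ hk2 q8 q9 (by rw [q10]; exact q2) q12, q10, q11, q4, q5, hw]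
  have hmz : mz S n = wz S n + n.N0 + n.nT + S.h := rfl
  have hV : bs S n Λ S.q + Λ.y = wz S n + mz S n + n.n2 + j + 1 := by
    rw [hbq, hy, hmz]
    omega
  have hUw : n.n2 + Λ.j + Λ.U + S.h + 1 ≤ wz S n := hlow.w_ge
  refine ⟨?_, ?_, ?_, ?_, ?_, ?_, ?_, ?_, F3, Fx, ?_, ?_, ?_⟩
  · rw [hUe, hlg]
    simp
  · intro _ _
    refine ⟨?_, ?_, hyy⟩
    · rw [hj, hy]
      omega
    · rw [hy, hwz]
      omega
  · exact hxs
  · intro h
    rw [hlg] at h
    cases h
  · intro _ _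
    rw [hV, hmz]
    omega
  · intro _ _
    rw [hV, hj]
  · intro _ _ i h1 h2 h3
    have h4 := hlow.C_up i h1 h2 h3
    rw [hV]
    omega
  · intro _ _ hU1
    right
    rw [hV, hmz]
    have h4 : Xl S n Λ Λ.U < wz S n := by
      unfold Xl
      rw [hk2]
      rw [← hw]
      apply lam_lt
      simp only [Bool.false_eq_true, if_false]
      omega
    omega
  · intro a z ha haq hba hz hnz
    have a1 := S.al_ld _ ha
    have a2 := S.ld_pos _ a1
    have a3 := S.ld_lt _ a1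
    have z2 := S.ld_pos _ hz
    have z3 := S.ld_lt _ hz
    have a4 : ¬ S.bad (ee a) := (S.diff' a1).1 hba
    have a5 := rk_sum S.rk a
    have z5 := rk_sum S.rk z
    have a6 := (S.rk_ob (oe a) (by unfold oe; split_ifs <;> omega)
      (by unfold oe; split_ifs <;> omega) oe_odd hba)
    have a7 := hs1 (n.n2 + Λ.j + S.rk (oe a)) (by omega)
    rw [if_neg (by omega), Nat.add_zero, bs_bg S n Λ hk2 a2 a3 hba a4]
    by_cases hbz : S.bad (oe z)
    · have z4 : ¬ S.bad (ee z) := (S.diff' hz).1 hbz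
      rw [bs_bg S n Λ hk2 z2 z3 hbz z4]
      have t := S.tbb a z ha haq hba hz hnz hbz
      rw [if_pos (Or.inl hm)] at t
      have z7 := le_lam Λ.y1 Λ.y2 (n.n2 + Λ.j + S.rk (oe z))
      omega
    · have z4 : S.bad (ee z) := by
        by_contra hb
        exact hbz ((S.diff' hz).2 hb)
      rw [bs_gb S n Λ hk2 z2 z3 hbz z4]
      have t := S.tbg a z ha haq hba hz hnz hbz
      rw [if_neg (by omega)] at t
      have z7 := le_lam Λ.y1 Λ.y2 (n.n2 + Λ.j + Λ.U + S.rk (oe z))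
      omega
  · intro a z ha haq hba hz hnz hbz
    have a1 := S.al_ld _ ha
    have a2 := S.ld_pos _ a1
    have a3 := S.ld_lt _ a1
    have z2 := S.ld_pos _ hz
    have z3 := S.ld_lt _ hz
    have a4 : S.bad (ee a) := by
      by_contra hb
      exact hba ((S.diff' a1).2 hb)
    have z4 : S.bad (ee z) := by
      by_contra hb
      exact hbz ((S.diff' hz).2 hb)
    have a5 := rk_sum S.rk a
    have z5 := rk_sum S.rk z
    have a6 := (S.rk_og (oe a) (by unfold oe; split_ifs <;> omega)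
      (by unfold oe; split_ifs <;> omega) oe_odd hba)
    have a7 := hs2 (n.n2 + Λ.j + Λ.U + S.rk (oe a)) (by omega)
    have z7 := le_lam Λ.y1 Λ.y2 (n.n2 + Λ.j + Λ.U + S.rk (oe z))
    have t := S.tgg a z ha haq hba hz hnz hbz
    rw [bs_gb S n Λ hk2 a2 a3 hba a4, bs_gb S n Λ hk2 z2 z3 hbz z4]
    by_cases hx : Λ.xsf = true
    · have hx3 := (hxs hx).1
      rw [if_pos hx] at a7
      rw [if_pos (by omega)]
      omega
    · rw [if_neg hx] at a7
      split_ifs <;> omega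
  · intro a z ha haq hba hz hnz hbz
    have a1 := S.al_ld _ ha
    have a2 := S.ld_pos _ a1
    have a3 := S.ld_lt _ a1
    have z2 := S.ld_pos _ hz
    have z3 := S.ld_lt _ hz
    have a4 : S.bad (ee a) := by
      by_contra hb
      exact hba ((S.diff' a1).2 hb)
    have z4 : ¬ S.bad (ee z) := (S.diff' hz).1 hbz
    have a5 := rk_sum S.rk a
    have z5 := rk_sum S.rk z
    have a6 := (S.rk_og (oe a) (by unfold oe; split_ifs <;> omega)
      (by unfold oe; split_ifs <;> omega) oe_odd hba)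
    have a7 := hs2 (n.n2 + Λ.j + Λ.U + S.rk (oe a)) (by omega)
    have z7 := le_lam Λ.y1 Λ.y2 (n.n2 + Λ.j + S.rk (oe z))
    have t := S.tgb a z ha haq hba hz hnz hbz
    rw [if_neg (by omega)] at t
    rw [bs_gb S n Λ hk2 a2 a3 hba a4, bs_bg S n Λ hk2 z2 z3 hbz z4]
    by_cases hx : Λ.xsf = true
    · rw [if_pos hx] at a7 hUe
      omega
    · rw [if_neg hx] at a7 hUe
      omega

theorem mod_1 (S : Seam k ld al) (n : Num) (j : ℕ) (hm : S.mode = 1) (hA : Adm S n j) :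
    ModOK S n (lay1 S n j) := by
  have hlow := low_1 S n j hm hA
  have hsp := hA.sp14 (by omega) (by omega)
  have hwz := wz_eq S n (by omega)
  have hP := P_le S hm
  have hjU := hA.jU
  have hQ := S.Qh
  obtain ⟨q1, q2, q3, q4, q5, q6⟩ := S.m1 hm
  by_cases hc : n.sp = 3 ∧ (n.n2 + j + n.nT + S.h + 1 - S.Q) + (n.n2 + j + S.P + 1 +
      (if n.n2 + j + n.nT + S.h + 1 - S.Q ≤ n.n2 + j + S.P + 1 then 1 else 0)) <
      n.nT + S.h + n.n2 + j + 1
  · have e1 : lay1 S n j = layD n j (n.n2 + j + n.nT + S.h + 1 - S.Q)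
        (if S.Q = n.n2 + j + n.nT + S.h + 1 - S.Q then S.Q + 1 else S.Q) := by
      unfold lay1
      rw [if_pos hc]
    obtain ⟨hc1, hc2⟩ := hc
    have hXQ : n.n2 + j + S.P + 2 ≤ S.Q := by
      split_ifs at hc2 <;> omega
    rw [if_pos (by omega)] at hjU
    rw [e1] at hlow ⊢
    set y := n.n2 + j + n.nT + S.h + 1 - S.Q with hy
    obtain ⟨x, hx⟩ : ∃ x, x = if S.Q = y then S.Q + 1 else S.Q := ⟨_, rfl⟩
    rw [← hx] at hlow ⊢
    have hx1 : S.Q ≤ x ∧ x ≤ S.Q + 1 ∧ x ≠ y := by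
      split_ifs at hx <;> omega
    have hy1 : n.n2 + j < y := by omega
    have hy2 : y + 2 ≤ wz S n := by omega
    have hx2 : x + 1 ≤ wz S n := by omega
    refine mod_aux S n j _ hm hA rfl rfl rfl rfl hlow ?_ ?_ ?_ ?_ ?_ ?_ ?_ ?_
    · simp only [layD, if_true]
      omega
    · simp only [layD]
      omega
    · intro _
      simp only [layD]
      refine ⟨hc1, ?_, ?_, ?_, ?_⟩ <;> omega
    · simp only [layD, lam]
      split_ifs <;> omega
    · intro p hp
      simp only [layD, lam]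
      split_ifs <;> omega
    · intro p hp
      simp only [layD, lam, if_true]
      split_ifs <;> omega
    · intro _ h
      simp [layD] at h
    · intro _
      simp only [layD]
      omega
  · have e1 : lay1 S n j = layS S n j (n.n2 + j + n.nT + S.h + 1 - S.Q) := by
      unfold lay1
      rw [if_neg hc]
    rw [e1] at hlow ⊢
    have hjU2 : n.nT + j ≤ n.Ux := by
      split_ifs at hjU <;> omega
    refine mod_aux S n j _ hm hA rfl rfl rfl rfl hlow ?_ ?_ ?_ ?_ ?_ ?_ ?_ ?_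
    · simp only [layS, Bool.false_eq_true, if_false]
      omega
    · exact Or.inl rfl
    · intro h
      simp [layS] at h
    · simp only [layS, lam]
      split_ifs <;> omega
    · intro p hp
      simp only [layS, lam]
      split_ifs <;> omega
    · intro p hp
      simp only [layS, lam, Bool.false_eq_true, if_false]
      split_ifs <;> omega
    · intro h3 _
      have hc2 : n.nT + S.h + n.n2 + j + 1 ≤ (n.n2 + j + n.nT + S.h + 1 - S.Q) +
          (n.n2 + j + S.P + 1 +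
            (if n.n2 + j + n.nT + S.h + 1 - S.Q ≤ n.n2 + j + S.P + 1 then 1 else 0)) :=
        not_lt.1 fun h => hc ⟨h3, h⟩
      simp only [layS, Xl, lam, Bool.false_eq_true, if_false, Nat.sub_zero]
      rw [if_neg (show ¬ wz S n + 2 ≤ n.n2 + j + S.P + 1 + 1 by omega)]
      split_ifs at hc2 ⊢ <;> omega
    · intro h
      simp [layS] at h

end Pool.Agent.Lob5
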