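import Pool.Agent.Lob5.LowGen
import Pool.Agent.Lob5.LowGen2

/-!
# Mode 2 (K2)

Notation: `w = wz S n`, `m = mz S n`, `J i = rk i + rk (i+1) = rk (oe i) + rk (ee i)`.
Bases of loaded vertices by `bs_bg` (odd edge bad, kind b) and `bs_gb` (odd edge good, kind g):
kind b: `w+N0+nT+(n2+j+J)+s`, kind g: `w+N0+(n2+j+U+J)+s`, where the shift `s` is the number of
inserted labels below the odd edge. Unloaded vertices: `bs_bb`, `bs_gg`. The `D`-fields follow from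
`S.tbb, S.tbg, S.tgb, S.tgg` (with the value of `S.mode` inserted), `U ≥ nT` and the bounds for the
shifts. For kind b `a` and kind g `z` use `U ≥ nT`. For a kind b vertex the good even edge exists.

`q` is even, `e_q` good of rank `h` (label `m`; so `Q + 1 ≤ h`), `e_{q+1}` bad of rank `P` (label
`lam (n2+j+P)`). `y = w+1-P` if `n2+j+P < w+1-P`, then `lam (n2+j+P) = n2+j+P`; otherwise `y = w-P ≤
n2+j+P-1`, then `lam (n2+j+P) = n2+j+P+1`. In both cases `V = m + lam(n2+j+P) + y = w+m+n2+j+1`.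
`w - P ≥ n2+j+U+h+2-P ≥ n2+j+1`. `V_L`: `X U ≤ w`, `Q < h`. `F3`: `y + X 1 ≥ (w-P) + (n2+j+P+1)`.
Shifts at most 1.
-/

namespace Pool.Agent.Lob5

variable {k : ℕ} {ld al : ℕ → Prop}

private theorem m2_oe {i : ℕ} (h1 : 1 ≤ i) (h2 : i < k) : 1 ≤ oe i ∧ oe i ≤ k := by
  unfold oe
  split_ifs <;> omega

private theorem m2_lam {y1 y2 i : ℕ} (h : i + 1 < y2) :
    i ≤ lam y1 y2 i ∧ lam y1 y2 i ≤ i + 1 := by
  unfold lam
  rw [if_neg (by omega : ¬ y2 ≤ i + 1)]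
  split_ifs <;> omega

private theorem m2_wz (S : Seam k ld al) (n : Num) (j : ℕ) (hm : S.mode = 2)
    (hA : Adm S n j) : n.sp ≠ 0 ∧ j ≤ n.Ux ∧ n.nT ≤ n.Ux - j ∧
      wz S n = n.n2 + j + (n.Ux - j) + S.h + 2 := by
  have h1 := hA.sp14 (by omega) (by omega)
  have h2 := hA.jU
  have h3 : n.sp ≠ 0 := by omega
  have h4 : n.nT + j ≤ n.Ux := by
    split_ifs at h2 <;> omega
  refine ⟨h3, by omega, by omega, ?_⟩
  unfold wz
  rw [if_neg h3]
  omega

private theorem m2_bad (S : Seam k ld al) (n : Num) (Λ : Lay) (hk2 : Λ.k2 = false)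
    (hy : n.n2 + Λ.j + S.P + 1 < Λ.y2) {i : ℕ} (hi : ld i) (hb : S.bad (oe i)) :
    wz S n + n.N0 + n.nT + n.n2 + Λ.j + (S.rk i + S.rk (i + 1)) ≤ bs S n Λ i ∧
      bs S n Λ i ≤ wz S n + n.N0 + n.nT + n.n2 + Λ.j + (S.rk i + S.rk (i + 1)) + 1 := by
  have h1 := S.ld_pos i hi
  have h2 := S.ld_lt i hi
  have h3 := m2_oe h1 h2
  have h4 := S.rk_ob (oe i) h3.1 h3.2 oe_odd hb
  have h5 := rk_sum S.rk i
  rw [bs_bg S n Λ hk2 h1 h2 hb ((S.diff' hi).1 hb)]
  have h6 := m2_lam (y1 := Λ.y1) (y2 := Λ.y2) (i := n.n2 + Λ.j + S.rk (oe i)) (by omega)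
  omega

private theorem m2_good (S : Seam k ld al) (n : Num) (Λ : Lay) (hk2 : Λ.k2 = false)
    (hy : n.n2 + Λ.j + Λ.U + (S.h + 1) + 1 < Λ.y2) {i : ℕ} (hi : ld i) (hb : ¬ S.bad (oe i)) :
    wz S n + n.N0 + n.n2 + Λ.j + Λ.U + (S.rk i + S.rk (i + 1)) ≤ bs S n Λ i ∧
      bs S n Λ i ≤ wz S n + n.N0 + n.n2 + Λ.j + Λ.U + (S.rk i + S.rk (i + 1)) + 1 := by
  have h1 := S.ld_pos i hi
  have h2 := S.ld_lt i hi
  have h3 := m2_oe h1 h2
  have h4 := S.rk_og (oe i) h3.1 h3.2 oe_odd hb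
  have h5 := rk_sum S.rk i
  have he : S.bad (ee i) := by
    by_contra h
    exact hb ((S.diff' hi).2 h)
  rw [bs_gb S n Λ hk2 h1 h2 hb he]
  have h6 := m2_lam (y1 := Λ.y1) (y2 := Λ.y2) (i := n.n2 + Λ.j + Λ.U + S.rk (oe i)) (by omega)
  omega

/-- The label of the special vertex. -/
private theorem m2_y (S : Seam k ld al) (n : Num) (j : ℕ) (hm : S.mode = 2)
    (hA : Adm S n j) :
    n.n2 + j < (lay2 S n j).y1 ∧ (lay2 S n j).y1 ≤ wz S n ∧
      wz S n ≤ (lay2 S n j).y1 + S.P ∧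
      lam (lay2 S n j).y1 (wz S n + 2) (n.n2 + j + S.P) + (lay2 S n j).y1 =
        wz S n + n.n2 + j + 1 := by
  obtain ⟨h1, h2, h3, h4⟩ := m2_wz S n j hm hA
  have h5 := S.Ph
  have h6 := S.P1
  have h7 : (lay2 S n j).y1 =
    if n.n2 + j + S.P < wz S n + 1 - S.P then wz S n + 1 - S.P else wz S n - S.P := rfl
  rw [h7]
  unfold lam
  rw [if_neg (by omega : ¬ wz S n + 2 ≤ n.n2 + j + S.P + 1)]
  split_ifs <;> refine ⟨?_, ?_, ?_, ?_⟩ <;> omega

theorem low_2 (S : Seam k ld al) (n : Num) (j : ℕ) (hm : S.mode = 2) (hA : Adm S n j) :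
    LowOK S n (lay2 S n j) := by
  obtain ⟨h1, h2, h3, h4⟩ := m2_wz S n j hm hA
  obtain ⟨h5, h6, h7, h8⟩ := m2_y S n j hm hA
  have hy2 : (lay2 S n j).y2 = wz S n + 2 := rfl
  have hj : (lay2 S n j).j = j := rfl
  have hU : (lay2 S n j).U = n.Ux - j := rfl
  refine lowOK_gen S n (lay2 S n j) rfl ?_ ?_ ?_ ?_
  · rw [hj]
    exact h5
  · rw [hy2]
    omega
  · rw [hy2, hj, hU, if_pos h6, if_neg (by omega : ¬ wz S n + 2 ≤ wz S n)]
    omega
  · rw [hU]
    exact h3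

theorem mod_2 (S : Seam k ld al) (n : Num) (j : ℕ) (hm : S.mode = 2) (hA : Adm S n j) :
    ModOK S n (lay2 S n j) := by
  obtain ⟨h1, h2, h3, h4⟩ := m2_wz S n j hm hA
  obtain ⟨h5, h6, h7, h8⟩ := m2_y S n j hm hA
  have hL := low_2 S n j hm hA
  have hP := S.Ph
  have hy2 : (lay2 S n j).y2 = wz S n + 2 := rfl
  have hj : (lay2 S n j).j = j := rfl
  have hU : (lay2 S n j).U = n.Ux - j := rfl
  have hy : (lay2 S n j).y = (lay2 S n j).y1 := rfl
  have hxsf : (lay2 S n j).xsf = false := rfl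
  have hlg : (lay2 S n j).lg = false := rfl
  obtain ⟨m1, m2, m3, m4, m5⟩ := S.m2 (Or.inl hm)
  have hq := S.al_ld _ m1
  have hq1 := S.ld_pos _ hq
  have hq2 := S.ld_lt _ hq
  have hoe : oe S.q = S.q + 1 := by
    unfold oe
    rw [if_neg (by omega)]
  have hee : ee S.q = S.q := by
    unfold ee
    rw [if_neg (by omega)]
  have hQh : S.Q + 1 ≤ S.h := by
    have h := (S.rk_eg S.q hq1 hq2.le m3 m2).1
    omega
  have hbq : bs S n (lay2 S n j) S.q = mz S n +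
      lam (lay2 S n j).y1 (wz S n + 2) (n.n2 + j + S.P) := by
    have h9 : ¬ S.bad (ee S.q) := by
      rw [hee]
      exact m2
    have h10 : S.bad (oe S.q) := (S.diff' hq).2 h9
    rw [bs_bg S n (lay2 S n j) rfl hq1 hq2 h10 h9, hoe, hee, m4, m5, hj, hy2]
    unfold mz
    omega
  have hV : bs S n (lay2 S n j) S.q + (lay2 S n j).y = wz S n + mz S n + n.n2 + j + 1 := by
    rw [hbq, hy]
    omega
  have hmz : mz S n = wz S n + n.N0 + n.nT + S.h := rfl
  have hB : ∀ i, ld i → S.bad (oe i) →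
      wz S n + n.N0 + n.nT + n.n2 + j + (S.rk i + S.rk (i + 1)) ≤ bs S n (lay2 S n j) i ∧
        bs S n (lay2 S n j) i ≤
          wz S n + n.N0 + n.nT + n.n2 + j + (S.rk i + S.rk (i + 1)) + 1 := fun i hi hb =>
    m2_bad S n (lay2 S n j) rfl (by rw [hj, hy2]; omega) hi hb
  have hG : ∀ i, ld i → ¬ S.bad (oe i) →
      wz S n + n.N0 + n.n2 + j + (n.Ux - j) + (S.rk i + S.rk (i + 1)) ≤
        bs S n (lay2 S n j) i ∧
        bs S n (lay2 S n j) i ≤
          wz S n + n.N0 + n.n2 + j + (n.Ux - j) + (S.rk i + S.rk (i + 1)) + 1 :=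
    fun i hi hb => m2_good S n (lay2 S n j) rfl (by rw [hj, hU, hy2]; omega) hi hb
  refine ⟨?_, ?_, ?_, ?_, ?_, ?_, ?_, ?_, ?_, ?_, ?_, ?_, ?_⟩
  · rw [hU, hj, hxsf, hlg]
    simp only [Bool.false_eq_true, if_false]
    omega
  · intro _ _
    rw [hj, hy]
    exact ⟨h5, h6, Or.inl rfl⟩
  · intro h
    rw [hxsf] at h
    exact absurd h (by simp)
  · intro h
    rw [hlg] at h
    exact absurd h (by simp)
  · intro _ _
    rw [hV]
    omega
  · intro _ _
    rw [hV, hj]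
  · intro _ _ i hi1 hi2 hi3
    have h9 := hL.C_up i hi1 hi2 hi3
    rw [hV]
    omega
  · intro _ _ hU1
    right
    have h9 := hL.X_w _ hU1 le_rfl
    rw [hV]
    omega
  · intro _ _
    have h9 := hL.X_lo 1 le_rfl
    rw [hj] at h9 ⊢
    rw [hy]
    omega
  · intro h
    rw [hxsf] at h
    exact absurd h (by simp)
  · intro a z ha haq hba hz hz'
    rw [if_neg (fun h => h1 h.1)]
    have h9 := (hB a (S.al_ld a ha) hba).2
    by_cases hbz : S.bad (oe z)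
    · have h10 := (hB z hz hbz).1
      have h11 := S.tbb a z ha haq hba hz hz' hbz
      rw [if_pos (Or.inr (Or.inl hm))] at h11
      omega
    · have h10 := (hG z hz hbz).1
      have h11 := S.tbg a z ha haq hba hz hz' hbz
      rw [if_neg (by omega)] at h11
      omega
  · intro a z ha haq hba hz hz' hbz
    have h9 := (hG a (S.al_ld a ha) hba).2
    have h10 := (hG z hz hbz).1
    have h11 := S.tgg a z ha haq hba hz hz' hbz
    omega
  · intro a z ha haq hba hz hz' hbz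
    have h9 := (hG a (S.al_ld a ha) hba).2
    have h10 := (hB z hz hbz).1
    have h11 := S.tgb a z ha haq hba hz hz' hbz
    rw [if_neg (by omega)] at h11
    rw [hj]
    omega

end Pool.Agent.Lob5
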