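import Pool.Agent.Lob5.LowGen
import Pool.Agent.Lob5.LowGen2

/-!
# Mode 3 (K2ii)

Notation: `w = wz S n`, `m = mz S n`, `J i = rk i + rk (i+1) = rk (oe i) + rk (ee i)`.
Bases of loaded vertices by `bs_bg` (odd edge bad, kind b) and `bs_gb` (odd edge good, kind g):
kind b: `w+N0+nT+(n2+j+J)+s`, kind g: `w+N0+(n2+j+U+J)+s`, where the shift `s` is the number of
inserted labels below the odd edge. Unloaded vertices: `bs_bb`, `bs_gg`. The `D`-fields follow from
`S.tbb, S.tbg, S.tgb, S.tgg` (with the value of `S.mode` inserted), `U ≥ nT` and the bounds for the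
shifts. For kind b `a` and kind g `z` use `U ≥ nT`. For a kind b vertex the good even edge exists.

Here `k2 = true`; use `lowOK_ii` and the formulas `bs2_..`, `rk_lt_P`. `q` is even, `e_q` good of rank
`h` (label `m`), `e_{q+1}` bad of rank `P`, its label is `w` (last position). `y = n2+j+1`,
`V = m + w + n2+j+1`. Second inserted label (if `sp = 3` and `n2+j+P+1 < nT+h`, then `U = Ux-1-j`):
`nT+h`, it is above `X 1 = n2+j+P+1`. `F3`: `X 1 = lam (n2+j+P) = n2+j+P+1`.
Bases of loaded vertices: kind b (`≠ q, q+1`): `w+N0+nT+n2+j+J+1` exactly; kind g: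
`w+N0+n2+j+U+J+s` with `s = 0`, resp. `s ∈ {0,1}` if there is a second inserted label (and then
`U + j = Ux - 1`); the vertex `q+1` (not `α`, kind b): `w + (w+N0+nT+Q+1)` (rank of `e_{q+2}` is `Q+1`).
`Dgb` for `z = q+1`: `S.tgb` bounds `J a + sg`, and `w ≥ n2+j+U+h+2`.
An `α` vertex `a ≠ q` is not `q+1`.
-/

namespace Pool.Agent.Lob5

variable {k : ℕ} {ld al : ℕ → Prop}

private theorem m3_oe {i : ℕ} (h1 : 1 ≤ i) (h2 : i < k) : 1 ≤ oe i ∧ oe i ≤ k := by
  unfold oe
  split_ifs <;> omega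

private theorem m3_wz (S : Seam k ld al) (n : Num) (h : 1 ≤ n.sp) :
    wz S n = n.n2 + n.Ux + S.h + 2 := by
  unfold wz
  rw [if_neg (by omega)]

theorem low_3 (S : Seam k ld al) (n : Num) (j : ℕ) (hm : S.mode = 3) (hA : Adm S n j) :
    LowOK S n (lay3 S n j) := by
  have hsp := (hA.sp14 (by omega) (by omega)).1
  have hw := m3_wz S n hsp
  have hjU := hA.jU
  have hP1 := S.P1
  unfold lay3
  split_ifs with c1
  · rw [if_pos (by omega)] at hjU
    refine lowOK_ii S n _ hm rfl rfl ?_ ?_ ?_ <;> dsimp only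
    · omega
    · rw [if_pos (by omega)]
      omega
    · omega
  · refine lowOK_ii S n _ hm rfl rfl ?_ ?_ ?_ <;> dsimp only
    · omega
    · rw [if_neg (by omega)]
      split_ifs at hjU <;> omega
    · split_ifs at hjU <;> omega

/-- everything, for a layout with one or two inserted labels -/
private theorem mod3_aux (S : Seam k ld al) (n : Num) (Λ : Lay) (hm : S.mode = 3)
    (hL : LowOK S n Λ) (hk2 : Λ.k2 = true) (hlg : Λ.lg = false) (hsp : 1 ≤ n.sp) (e : ℕ)
    (hxs : (if Λ.xsf then 1 else 0) = e) (he : e = 1 → n.sp = 3)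
    (hUe : Λ.U + Λ.j + e = n.Ux) (hy1 : Λ.y1 = n.n2 + Λ.j + 1) (hy : Λ.y = Λ.y1)
    (hw : wz S n = n.n2 + Λ.j + Λ.U + S.h + 2 + e)
    (b0 : ∀ i, n.n2 + Λ.j + 1 ≤ i → i ≤ n.n2 + Λ.j + S.P → lam Λ.y1 Λ.y2 i = i + 1)
    (gs : ∀ i, n.n2 + Λ.j + 1 ≤ i → i ≤ n.n2 + Λ.j + Λ.U + S.h + 1 →
      i + 1 ≤ lam Λ.y1 Λ.y2 i ∧ lam Λ.y1 Λ.y2 i ≤ i + 1 + e)
    (top : lam Λ.y1 Λ.y2 (n.n2 + Λ.j + Λ.U + S.h + 1) = wz S n)
    (hxs' : Λ.xsf = true → n.n2 + Λ.j < Λ.xs ∧ Λ.xs ≤ wz S n ∧ Λ.xs ≠ Λ.y ∧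
      (Λ.xs = Λ.y1 ∨ Λ.xs = Λ.y2))
    (hF : n.sp = 3 → Λ.xsf = false → n.nT + S.h ≤ n.n2 + Λ.j + S.P + 1)
    (hFx : Λ.xsf = true → n.nT + S.h + n.n2 + Λ.j + 1 ≤ Λ.y + Λ.xs ∧
      Λ.y + Λ.xs ≤ n.nT + S.h + n.n2 + Λ.j + 2) : ModOK S n Λ := by
  have hP1 := S.P1
  have hPh := S.Ph
  have hU := hL.U_ge
  have hmz : mz S n = wz S n + n.N0 + n.nT + S.h := rfl
  obtain ⟨m1, m2, m3, m4, m5⟩ := S.m2 (Or.inr hm)
  obtain ⟨q1, q2, q3, q4⟩ := S.m3 hm
  have hq := S.al_ld _ m1
  have hq1 := S.ld_pos _ hq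
  have hq2 := S.ld_lt _ hq
  have hoe : oe S.q = S.q + 1 := by
    unfold oe
    rw [if_neg (by omega)]
  have hee : ee S.q = S.q := by
    unfold ee
    rw [if_neg (by omega)]
  have hoe1 : oe (S.q + 1) = S.q + 1 := by
    unfold oe
    rw [if_pos (by omega)]
  have hee1 : ee (S.q + 1) = S.q + 2 := by
    unfold ee
    rw [if_pos (by omega)]
  have hQh : S.Q + 1 ≤ S.h := by
    have h := (S.rk_eg S.q hq1 hq2.le m3 m2).1
    omega
  have hgq : ¬ S.bad (ee S.q) := by
    rw [hee]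
    exact m2
  have hbq1 : S.bad (oe (S.q + 1)) := by
    have h10 : S.bad (oe S.q) := (S.diff' hq).2 hgq
    rw [hoe1, ← hoe]
    exact h10
  have hgq1 : ¬ S.bad (ee (S.q + 1)) := (S.diff' q2).1 hbq1
  have hbq : bs S n Λ S.q = mz S n + wz S n := by
    rw [bs2_Pg S n Λ hk2 hq1 hq2 (by rw [hoe]; exact m5) hgq, hee, m4, top, hmz]
    omega
  have hbq' : bs S n Λ (S.q + 1) = wz S n + n.N0 + n.nT + wz S n + (S.Q + 1) := by
    rw [bs2_Pg S n Λ hk2 (by omega) q1 (by rw [hoe1]; exact m5) hgq1, hee1, q4, top]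
  have hJq1 : S.rk (S.q + 1) + S.rk (S.q + 1 + 1) = S.P + (S.Q + 1) := by
    rw [m5]
    exact congrArg _ q4
  -- loaded vertices of kind b
  have hB : ∀ i, ld i → i ≠ S.q → i ≠ S.q + 1 → S.bad (oe i) →
      bs S n Λ i = wz S n + n.N0 + n.nT + n.n2 + Λ.j + (S.rk i + S.rk (i + 1)) + 1 := by
    intro i hi h3 h4 hb
    have h1 := S.ld_pos i hi
    have h2 := S.ld_lt i hi
    have h5 := rk_lt_P S hm h1 h2 hb h3 h4
    have h6 := m3_oe h1 h2
    have h7 := S.rk_ob (oe i) h6.1 h6.2 oe_odd hb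
    have h8 := rk_sum S.rk i
    rw [bs2_bg S n Λ hk2 h1 h2 hb h5 ((S.diff' hi).1 hb), b0 _ (by omega) (by omega)]
    omega
  -- loaded vertices of kind g
  have hG : ∀ i, ld i → ¬ S.bad (oe i) →
      wz S n + n.N0 + n.n2 + Λ.j + Λ.U + (S.rk i + S.rk (i + 1)) ≤ bs S n Λ i ∧
        bs S n Λ i ≤ wz S n + n.N0 + n.n2 + Λ.j + Λ.U + (S.rk i + S.rk (i + 1)) + e := by
    intro i hi hb
    have h1 := S.ld_pos i hi
    have h2 := S.ld_lt i hi
    have h6 := m3_oe h1 h2
    have h7 := S.rk_og (oe i) h6.1 h6.2 oe_odd hb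
    have h8 := rk_sum S.rk i
    have hbe : S.bad (ee i) := by
      by_contra h
      exact hb ((S.diff' hi).2 h)
    rw [bs2_gb S n Λ hk2 h1 h2 hb hbe]
    have h9 := gs (n.n2 + Λ.j + Λ.U + S.rk (oe i) - 1) (by omega) (by omega)
    omega
  have hnq : ∀ z, ¬ al z → z ≠ S.q := by
    rintro z hz rfl
    exact hz m1
  have hnq1 : ∀ a, al a → a ≠ S.q + 1 := by
    rintro a ha rfl
    exact q3 ha
  refine
    { U_eq := ?_
      y_ok := fun _ _ => ⟨by omega, by omega, Or.inl hy⟩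
      xs_ok := ?_
      lg_ok := ?_
      V_lo := fun _ _ => by omega
      V_up := fun _ _ => by omega
      V_C := fun _ _ i h1 h2 h3 => ?_
      V_L := fun _ _ hU1 => ?_
      F3 := ?_
      Fx := hFx
      Dbb := ?_
      Dgg := ?_
      Dgb := ?_ }
  · rw [hlg, hxs]
    simpa using hUe
  · intro h
    refine ⟨he ?_, hxs' h⟩
    rw [← hxs, h]
    rfl
  · intro h
    rw [hlg] at h
    exact absurd h (by decide)
  · have h4 := hL.C_up i h1 h2 h3
    omega
  · right
    have h4 := hL.X_w _ hU1 le_rfl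
    omega
  · intro h1 h2
    have h3 := hF h1 h2
    have h4 := b0 (n.n2 + Λ.j + S.P) (by omega) le_rfl
    have h5 : Xl S n Λ 1 = lam Λ.y1 Λ.y2 (n.n2 + Λ.j + S.P) := by
      unfold Xl
      rw [hk2]
      rfl
    rw [h5]
    omega
  · intro a z ha haq hba hz hz'
    have h1 := hB a (S.al_ld _ ha) haq (hnq1 a ha) hba
    have h2 : ¬ (n.sp = 0 ∧ S.mode = 5) := by omega
    rw [if_neg h2]
    by_cases hz1 : z = S.q + 1
    · have h4 := S.tbb a z ha haq hba hz hz' (by rw [hz1]; exact hbq1)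
      rw [hz1] at h4 ⊢
      rw [if_neg (by omega), hJq1] at h4
      omega
    · by_cases hbz : S.bad (oe z)
      · have h3 := hB z hz (hnq z hz') hz1 hbz
        have h4 := S.tbb a z ha haq hba hz hz' hbz
        rw [if_neg (by omega)] at h4
        omega
      · have h3 := hG z hz hbz
        have h4 := S.tbg a z ha haq hba hz hz' hbz
        rw [if_neg (by omega)] at h4
        omega
  · intro a z ha haq hba hz hz' hbz
    have h1 := hG a (S.al_ld _ ha) hba
    have h3 := hG z hz hbz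
    have h4 := S.tgg a z ha haq hba hz hz' hbz
    have h5 : e = 0 ∨ e = 1 := by
      rw [← hxs]
      split_ifs <;> simp
    rcases h5 with h5 | h5 <;> omega
  · intro a z ha haq hba hz hz' hbz
    have h1 := hG a (S.al_ld _ ha) hba
    have h4 := S.tgb a z ha haq hba hz hz' hbz
    rw [if_pos (Or.inr hm)] at h4
    by_cases hz1 : z = S.q + 1
    · rw [hz1] at h4 ⊢
      rw [hJq1] at h4
      omega
    · have h3 := hB z hz (hnq z hz') hz1 hbz
      omega

theorem mod_3 (S : Seam k ld al) (n : Num) (j : ℕ) (hm : S.mode = 3) (hA : Adm S n j) :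
    ModOK S n (lay3 S n j) := by
  have hL := low_3 S n j hm hA
  have hsp := (hA.sp14 (by omega) (by omega)).1
  have hw := m3_wz S n hsp
  have hjU := hA.jU
  have hn2 := hA.n2T
  have hP1 := S.P1
  have hPh := S.Ph
  unfold lay3 at hL ⊢
  split_ifs at hL ⊢ with c1
  · rw [if_pos (by omega)] at hjU
    refine mod3_aux S n _ hm hL rfl rfl hsp 1 rfl (fun _ => c1.1) ?_ rfl rfl ?_ ?_ ?_ ?_ ?_ ?_ ?_ <;>
      dsimp only
    · omega
    · omega
    · intro i h1 h2
      unfold lam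
      rw [if_pos h1, if_neg (by omega)]
    · intro i h1 h2
      unfold lam
      rw [if_pos h1]
      split_ifs <;> omega
    · unfold lam
      rw [if_pos (by omega), if_pos (by omega)]
      omega
    · intro _
      exact ⟨by omega, by omega, by omega, Or.inr rfl⟩
    · intro _ h
      exact absurd h (by decide)
    · intro _
      omega
  · have hjU' : n.nT + j ≤ n.Ux := by
      split_ifs at hjU <;> omega
    refine mod3_aux S n _ hm hL rfl rfl hsp 0 rfl (fun h => absurd h (by decide)) ?_ rfl rfl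
      ?_ ?_ ?_ ?_ ?_ ?_ ?_ <;> dsimp only
    · omega
    · omega
    · intro i h1 h2
      unfold lam
      rw [if_pos h1, if_neg (by omega)]
    · intro i h1 h2
      unfold lam
      rw [if_pos h1, if_neg (by omega)]
      omega
    · unfold lam
      rw [if_pos (by omega), if_neg (by omega)]
      omega
    · intro h
      exact absurd h (by decide)
    · intro h _
      omega
    · intro h
      exact absurd h (by decide)

end Pool.Agent.Lob5
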