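import Pool.Agent.Lob5.LowGen
import Pool.Agent.Lob5.LowGen2

/-!
# Mode 4 (K3)

Notation: `w = wz S n`, `m = mz S n`, `J i = rk i + rk (i+1) = rk (oe i) + rk (ee i)`.
Bases of loaded vertices by `bs_bg` (odd edge bad, kind b) and `bs_gb` (odd edge good, kind g):
kind b: `w+N0+nT+(n2+j+J)+s`, kind g: `w+N0+(n2+j+U+J)+s`, where the shift `s` is the number of
inserted labels below the odd edge. Unloaded vertices: `bs_bb`, `bs_gg`. The `D`-fields follow from
`S.tbb, S.tbg, S.tgb, S.tgg` (with the value of `S.mode` inserted), `U ≥ nT` and the bounds for the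
shifts. For kind b `a` and kind g `z` use `U ≥ nT`. For a kind b vertex the good even edge exists.

`q` is odd, `e_q` bad of rank 1 (label `lam (n2+j+1) = n2+j+1`), `e_{q+1}` good of rank `Q+1 ≤ h`;
so `bs q = w+N0+nT+r` with `r = n2+j+Q+2`.
* `h < r`: `y = w`, no shifts at all (all positions are `< w`), `V = w+m+(r-h)`, `r-h ≤ n2+j+1`,
  `X U ≤ w-1`.
* `r ≤ h`: `c := S.cutG r`, `P + c ≤ h+1`. One inserted label `y = n2+j+U+P+c+1` (`U = Ux-j`):
  `V = w+N0+nT+r+y`. Unloaded good vertex `i`, `bs i = w+N0+nT+lam(n2+j+U+ro)+re`: if `re < r` then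
  `ro ≤ P+c` (`cutG_lt`), the label is `< y`; if `re > r` then `ro > P+c` (`cutG_gt`), the label is
  `> y`; if `re = r` the label is `≠ y`. In all cases `bs i ≠ V`. Unloaded bad vertices are `< V`.
  `y > X U` and `r > Q+1`, so `V` is above the `L`-range. `V ≤ w+N0+nT+h+w`.
  `F3`: if the condition `y+P < nT+h` fails then `y + X 1 = y+n2+j+P+1 ≥ nT+h+n2+j+1`.
* two inserted labels (`sp = 3`, `y0+1+P < nT+h`, `U = Ux-1-j`, `y0 = n2+Ux+P+c = n2+j+U+1+P+c`,
  `T = nT+h+n2+j`): (A) `T ≤ 2y0`: `y = y0+1`, `x = T-y0 ≤ y0`; (B) `T > 2y0`: `y = y0`,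
  `x = T+1-y0 ≥ y0+2`. Always `x > n2+j+P+1` (so kind b has shift 0 and `X 1 = n2+j+P+1`), `x ≤ w`.
  The good odd edge of rank `P+c` (position `y0-1`) has label `< y`, the one of rank `P+c+1`
  (position `y0`) has label `> y`; continue as before. `y + x = T+1`.
Shifts: kind b 0; kind g `≤ 1` resp. `≤ 2` (two inserted labels).
-/

namespace Pool.Agent.Lob5

variable {k : ℕ} {ld al : ℕ → Prop}

private theorem oe_rng {i k : ℕ} (h1 : 1 ≤ i) (h2 : i < k) : 1 ≤ oe i ∧ oe i ≤ k := by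
  unfold oe
  split_ifs <;> omega

private theorem ee_rng {i k : ℕ} (h1 : 1 ≤ i) (h2 : i < k) : 1 ≤ ee i ∧ ee i ≤ k := by
  unfold ee
  split_ifs <;> omega

private theorem r_ob (S : Seam k ld al) {i : ℕ} (h1 : 1 ≤ i) (h2 : i < k) (hb : S.bad (oe i)) :
    1 ≤ S.rk (oe i) ∧ S.rk (oe i) ≤ S.P :=
  S.rk_ob _ (oe_rng h1 h2).1 (oe_rng h1 h2).2 oe_odd hb

private theorem r_og (S : Seam k ld al) {i : ℕ} (h1 : 1 ≤ i) (h2 : i < k) (hb : ¬ S.bad (oe i)) :
    S.P + 1 ≤ S.rk (oe i) ∧ S.rk (oe i) ≤ S.h + 1 :=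
  S.rk_og _ (oe_rng h1 h2).1 (oe_rng h1 h2).2 oe_odd hb

private theorem r_eb (S : Seam k ld al) {i : ℕ} (h1 : 1 ≤ i) (h2 : i < k) (hb : S.bad (ee i)) :
    1 ≤ S.rk (ee i) ∧ S.rk (ee i) ≤ S.Q :=
  S.rk_eb _ (ee_rng h1 h2).1 (ee_rng h1 h2).2 ee_even hb

private theorem r_eg (S : Seam k ld al) {i : ℕ} (h1 : 1 ≤ i) (h2 : i < k) (hb : ¬ S.bad (ee i)) :
    S.Q + 1 ≤ S.rk (ee i) ∧ S.rk (ee i) ≤ S.h :=
  S.rk_eg _ (ee_rng h1 h2).1 (ee_rng h1 h2).2 ee_even hb

/-- the base of `q` -/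
private theorem bs_q4 (S : Seam k ld al) (n : Num) (Λ : Lay) (hm : S.mode = 4)
    (hk2 : Λ.k2 = false) (b0 : ∀ i, i ≤ n.n2 + Λ.j + S.P → lam Λ.y1 Λ.y2 i = i) :
    bs S n Λ S.q = wz S n + n.N0 + n.nT + (n.n2 + Λ.j + 1) + (S.Q + 1) ∧ S.Q + 1 ≤ S.h := by
  obtain ⟨hal, hbad, hodd, hr1, hr2⟩ := S.m4 hm
  have hld := S.al_ld _ hal
  have h1 := S.ld_pos _ hld
  have h2 := S.ld_lt _ hld
  have e1 : oe S.q = S.q := by unfold oe; rw [if_pos hodd]
  have e2 : ee S.q = S.q + 1 := by unfold ee; rw [if_pos hodd]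
  have ho : S.bad (oe S.q) := by rw [e1]; exact hbad
  have he : ¬ S.bad (ee S.q) := (S.diff' hld).1 ho
  have h3 := r_eg S h1 h2 he
  rw [bs_bg S n Λ hk2 h1 h2 ho he, e1, e2, hr1, hr2, b0 _ (by have := S.P1; omega)]
  rw [e2, hr2] at h3
  exact ⟨rfl, h3.2⟩

/-- a loaded vertex with bad odd edge -/
private theorem bs_kb (S : Seam k ld al) (n : Num) (Λ : Lay) (hk2 : Λ.k2 = false)
    (b0 : ∀ i, i ≤ n.n2 + Λ.j + S.P → lam Λ.y1 Λ.y2 i = i) {i : ℕ} (hld : ld i)
    (ho : S.bad (oe i)) :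
    bs S n Λ i = wz S n + n.N0 + n.nT + n.n2 + Λ.j + (S.rk i + S.rk (i + 1)) := by
  have h1 := S.ld_pos _ hld
  have h2 := S.ld_lt _ hld
  have h3 := r_ob S h1 h2 ho
  rw [bs_bg S n Λ hk2 h1 h2 ho ((S.diff' hld).1 ho), b0 _ (by omega), ← rk_sum]
  omega

/-- a loaded vertex with good odd edge -/
private theorem bs_kg (S : Seam k ld al) (n : Num) (Λ : Lay) (hk2 : Λ.k2 = false) (e : ℕ)
    (gs : ∀ i, i ≤ n.n2 + Λ.j + Λ.U + S.h + 1 → lam Λ.y1 Λ.y2 i ≤ i + 1 + e) {i : ℕ}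
    (hld : ld i) (ho : ¬ S.bad (oe i)) :
    wz S n + n.N0 + n.n2 + Λ.j + Λ.U + (S.rk i + S.rk (i + 1)) ≤ bs S n Λ i ∧
      bs S n Λ i ≤ wz S n + n.N0 + n.n2 + Λ.j + Λ.U + (S.rk i + S.rk (i + 1)) + 1 + e := by
  have h1 := S.ld_pos _ hld
  have h2 := S.ld_lt _ hld
  have h3 := r_og S h1 h2 ho
  have he : S.bad (ee i) := by
    by_contra h
    exact ho ((S.diff' hld).2 h)
  have h4 := gs (n.n2 + Λ.j + Λ.U + S.rk (oe i)) (by omega)
  have h5 := le_lam Λ.y1 Λ.y2 (n.n2 + Λ.j + Λ.U + S.rk (oe i))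
  rw [bs_gb S n Λ hk2 h1 h2 ho he, ← rk_sum]
  omega

/-- everything which does not depend on the special vertex -/
private theorem mod4_aux (S : Seam k ld al) (n : Num) (Λ : Lay) (hm : S.mode = 4)
    (hk2 : Λ.k2 = false) (hlg : Λ.lg = false) (hsp : 1 ≤ n.sp) (e : ℕ)
    (hxs : (if Λ.xsf then 1 else 0) = e) (he : e = 1 → n.sp = 3)
    (hUe : Λ.U + Λ.j + e = n.Ux) (hU : n.nT ≤ Λ.U)
    (b0 : ∀ i, i ≤ n.n2 + Λ.j + S.P → lam Λ.y1 Λ.y2 i = i)
    (gs : ∀ i, i ≤ n.n2 + Λ.j + Λ.U + S.h + 1 → lam Λ.y1 Λ.y2 i ≤ i + 1 + e)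
    (hy1 : n.n2 + Λ.j + S.P < Λ.y) (hy2 : Λ.y ≤ wz S n) (hy : Λ.y = Λ.y1 ∨ Λ.y = Λ.y2)
    (hxs' : Λ.xsf = true → n.n2 + Λ.j < Λ.xs ∧ Λ.xs ≤ wz S n ∧ Λ.xs ≠ Λ.y ∧
      (Λ.xs = Λ.y1 ∨ Λ.xs = Λ.y2))
    (hV : n.n2 + Λ.j + S.Q + 2 + Λ.y ≤ wz S n + S.h + n.n2 + Λ.j + 1)
    (hC : ∀ i, 1 ≤ i → i < k → ¬ ld i → ¬ S.bad i →
      lam Λ.y1 Λ.y2 (n.n2 + Λ.j + Λ.U + S.rk (oe i)) + S.rk (ee i) ≠
        n.n2 + Λ.j + S.Q + 2 + Λ.y)
    (hX : 1 ≤ Λ.U → lam Λ.y1 Λ.y2 (n.n2 + Λ.j + S.P + Λ.U) ≤ Λ.y)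
    (hF : n.sp = 3 → Λ.xsf = false →
      n.nT + S.h + n.n2 + Λ.j + 1 ≤ Λ.y + lam Λ.y1 Λ.y2 (n.n2 + Λ.j + S.P + 1))
    (hFx : Λ.xsf = true → n.nT + S.h + n.n2 + Λ.j + 1 ≤ Λ.y + Λ.xs ∧
      Λ.y + Λ.xs ≤ n.nT + S.h + n.n2 + Λ.j + 2) : ModOK S n Λ := by
  have hq := bs_q4 S n Λ hm hk2 b0
  have hP1 := S.P1
  refine
    { U_eq := ?_
      y_ok := fun _ _ => ⟨by omega, hy2, hy⟩
      xs_ok := ?_
      lg_ok := ?_
      V_lo := fun _ _ => by omega
      V_up := fun _ _ => by unfold mz; omega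
      V_C := fun _ _ => ?_
      V_L := fun _ _ hU1 => ?_
      F3 := ?_
      Fx := hFx
      Dbb := ?_
      Dgg := ?_
      Dgb := ?_ }
  · rw [hlg, hxs]
    simpa using hUe
  · intro h
    refine ⟨he ?_, hxs' h⟩
    rw [← hxs, h]
    rfl
  · intro h
    rw [hlg] at h
    exact absurd h (by decide)
  · intro i h1 h2 hld heq
    by_cases hb : S.bad (oe i)
    · have hs := S.same' h1 h2 hld
      have h3 := r_ob S h1 h2 hb
      have h4 := r_eb S h1 h2 (hs.1.1 hb)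
      rw [bs_bb S n Λ hk2 h1 h2 hb (hs.1.1 hb), b0 _ (by omega), hq.1] at heq
      omega
    · have hs := S.same' h1 h2 hld
      have h3 : ¬ S.bad (ee i) := fun h => hb (hs.1.2 h)
      have h4 : ¬ S.bad i := fun h => hb (hs.2.2 h)
      have h5 := hC i h1 h2 hld h4
      rw [bs_gg S n Λ hk2 h1 h2 hb h3, hq.1] at heq
      omega
  · right
    have h3 := hX hU1
    have h4 : Xl S n Λ Λ.U = lam Λ.y1 Λ.y2 (n.n2 + Λ.j + S.P + Λ.U) := by
      unfold Xl
      rw [hk2]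
      rfl
    rw [h4, hq.1]
    omega
  · intro h1 h2
    have h3 := hF h1 h2
    have h4 : Xl S n Λ 1 = lam Λ.y1 Λ.y2 (n.n2 + Λ.j + S.P + 1) := by
      unfold Xl
      rw [hk2]
      rfl
    rw [h4]
    exact h3
  · intro a z ha haq hba hz hz'
    have h1 := bs_kb S n Λ hk2 b0 (S.al_ld _ ha) hba
    have h2 : ¬ (n.sp = 0 ∧ S.mode = 5) := by omega
    rw [if_neg h2]
    by_cases hbz : S.bad (oe z)
    · have h3 := bs_kb S n Λ hk2 b0 hz hbz
      have h4 := S.tbb a z ha haq hba hz hz' hbz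
      split_ifs at h4 <;> omega
    · have h3 := bs_kg S n Λ hk2 e gs hz hbz
      have h4 := S.tbg a z ha haq hba hz hz' hbz
      rw [if_pos hm] at h4
      omega
  · intro a z ha haq hba hz hz' hbz
    have h1 := bs_kg S n Λ hk2 e gs (S.al_ld _ ha) hba
    have h3 := bs_kg S n Λ hk2 e gs hz hbz
    have h4 := S.tgg a z ha haq hba hz hz' hbz
    have h5 : e = 0 ∨ e = 1 := by
      rw [← hxs]
      split_ifs <;> simp
    rcases h5 with h5 | h5
    · omega
    · rw [if_pos (by have := he h5; omega)]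
      omega
  · intro a z ha haq hba hz hz' hbz
    have h1 := bs_kg S n Λ hk2 e gs (S.al_ld _ ha) hba
    have h3 := bs_kb S n Λ hk2 b0 hz hbz
    have h4 := S.tgb a z ha haq hba hz hz' hbz
    rw [if_neg (by omega)] at h4
    omega

private theorem wz_eq (S : Seam k ld al) (n : Num) (h : 1 ≤ n.sp) :
    wz S n = n.n2 + n.Ux + S.h + 2 := by
  unfold wz
  rw [if_neg (by omega)]

theorem low_4 (S : Seam k ld al) (n : Num) (j : ℕ) (hm : S.mode = 4) (hA : Adm S n j) :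
    LowOK S n (lay4 S n j) := by
  have hsp := (hA.sp14 (by omega) (by omega)).1
  have hw := wz_eq S n hsp
  have hjU := hA.jU
  have hP1 := S.P1
  have hc := S.cutG_le (n.n2 + j + S.Q + 2)
  unfold lay4
  split_ifs with c1 c2 c3
  · refine lowOK_gen S n _ rfl ?_ ?_ ?_ ?_ <;> dsimp only [layS]
    · omega
    · omega
    · rw [if_pos le_rfl, if_neg (by omega)]
      omega
    · split_ifs at hjU <;> omega
  · rw [if_pos (by omega)] at hjU
    refine lowOK_gen S n _ rfl ?_ ?_ ?_ ?_ <;> dsimp only [layD]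
    · omega
    · omega
    · rw [if_pos (by omega), if_pos (by omega)]
      omega
    · omega
  · rw [if_pos (by omega)] at hjU
    refine lowOK_gen S n _ rfl ?_ ?_ ?_ ?_ <;> dsimp only [layD]
    · omega
    · omega
    · rw [if_pos (by omega), if_pos (by omega)]
      omega
    · omega
  · refine lowOK_gen S n _ rfl ?_ ?_ ?_ ?_ <;> dsimp only [layS]
    · split_ifs at hjU <;> omega
    · omega
    · rw [if_pos (by omega), if_neg (by omega)]
      omega
    · split_ifs at hjU <;> omega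

theorem mod_4 (S : Seam k ld al) (n : Num) (j : ℕ) (hm : S.mode = 4) (hA : Adm S n j) :
    ModOK S n (lay4 S n j) := by
  have hsp := (hA.sp14 (by omega) (by omega)).1
  have hw := wz_eq S n hsp
  have hjU := hA.jU
  have hP1 := S.P1
  have hc := S.cutG_le (n.n2 + j + S.Q + 2)
  have hQh : S.Q + 1 ≤ S.h := by
    obtain ⟨hal, hbad, hodd, hr1, hr2⟩ := S.m4 hm
    have hld := S.al_ld _ hal
    have e1 : oe S.q = S.q := by unfold oe; rw [if_pos hodd]
    exact (two_le_P S hld (by rw [e1]; exact hbad)).2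
  unfold lay4
  split_ifs with c1 c2 c3
  · have hjU' : n.nT + j ≤ n.Ux := by split_ifs at hjU <;> omega
    refine mod4_aux S n _ hm rfl rfl hsp 0 rfl (by omega) ?_ ?_ ?_ ?_ ?_ ?_ ?_ ?_ ?_ ?_ ?_ ?_ ?_ <;>
      dsimp only [layS]
    · omega
    · omega
    · intro i hi
      unfold lam
      rw [if_neg (by omega), if_neg (by omega), add_zero, add_zero]
    · intro i hi
      unfold lam
      rw [if_neg (by omega), if_neg (by omega)]
      omega
    · omega
    · omega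
    · exact Or.inl rfl
    · intro h
      exact absurd h (by decide)
    · omega
    · intro i h1 h2 hld hb
      have hs := S.same' h1 h2 hld
      have h3 := r_og S h1 h2 fun h => hb (hs.2.1 h)
      have h4 := r_eg S h1 h2 fun h => hb (hs.2.1 (hs.1.2 h))
      unfold lam
      rw [if_neg (by omega), if_neg (by omega)]
      omega
    · intro h
      unfold lam
      rw [if_neg (by omega), if_neg (by omega)]
      omega
    · intro _ _
      have := le_lam (wz S n) (wz S n + 2) (n.n2 + j + S.P + 1)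
      omega
    · intro h
      exact absurd h (by decide)
  · rw [if_pos (by omega)] at hjU
    set c := S.cutG (n.n2 + j + S.Q + 2) with hcdef
    have hmin : min (n.n2 + n.Ux + S.P + c + 1) (n.nT + S.h + n.n2 + j - (n.n2 + n.Ux + S.P + c)) =
        n.nT + S.h + n.n2 + j - (n.n2 + n.Ux + S.P + c) := by omega
    have hmax : max (n.n2 + n.Ux + S.P + c + 1) (n.nT + S.h + n.n2 + j - (n.n2 + n.Ux + S.P + c)) =
        n.n2 + n.Ux + S.P + c + 1 := by omega
    unfold layD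
    rw [hmin, hmax]
    refine mod4_aux S n _ hm rfl rfl hsp 1 rfl (fun _ => c2.1) ?_ ?_ ?_ ?_ ?_ ?_ ?_ ?_ ?_ ?_ ?_ ?_
      ?_ <;> dsimp only
    · omega
    · omega
    · intro i hi
      unfold lam
      rw [if_neg (by omega), if_neg (by omega), add_zero, add_zero]
    · intro i hi
      have := lam_le (n.nT + S.h + n.n2 + j - (n.n2 + n.Ux + S.P + c))
        (n.n2 + n.Ux + S.P + c + 1) i
      omega
    · omega
    · omega
    · exact Or.inr rfl
    · intro _
      exact ⟨by omega, by omega, by omega, Or.inl rfl⟩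
    · omega
    · intro i h1 h2 hld hb
      have hs := S.same' h1 h2 hld
      have h3 := r_og S h1 h2 fun h => hb (hs.2.1 h)
      have h4 := r_eg S h1 h2 fun h => hb (hs.2.1 (hs.1.2 h))
      rcases lt_trichotomy (S.rk (ee i)) (n.n2 + j + S.Q + 2) with h5 | h5 | h5
      · have h6 := S.cutG_lt (n.n2 + j + S.Q + 2) (by omega) (by omega) i h1 h2 hld hb h5
        rw [← hcdef] at h6
        unfold lam
        split_ifs <;> omega
      · have h6 := (lam_ne (y1 := n.nT + S.h + n.n2 + j - (n.n2 + n.Ux + S.P + c))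
          (y2 := n.n2 + n.Ux + S.P + c + 1) (by omega)
          (n.n2 + j + (n.Ux - 1 - j) + S.rk (oe i))).2
        omega
      · have h6 := S.cutG_gt (n.n2 + j + S.Q + 2) (by omega) (by omega) i h1 h2 hld hb h5
        rw [← hcdef] at h6
        have h7 := le_lam (n.nT + S.h + n.n2 + j - (n.n2 + n.Ux + S.P + c))
          (n.n2 + n.Ux + S.P + c + 1) (n.n2 + j + (n.Ux - 1 - j) + S.rk (oe i))
        unfold lam
        split_ifs <;> omega
    · intro h
      unfold lam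
      split_ifs <;> omega
    · intro _ h
      exact absurd h (by decide)
    · intro _
      omega
  · rw [if_pos (by omega)] at hjU
    set c := S.cutG (n.n2 + j + S.Q + 2) with hcdef
    have hmin : min (n.n2 + n.Ux + S.P + c)
        (n.nT + S.h + n.n2 + j + 1 - (n.n2 + n.Ux + S.P + c)) = n.n2 + n.Ux + S.P + c := by omega
    have hmax : max (n.n2 + n.Ux + S.P + c)
        (n.nT + S.h + n.n2 + j + 1 - (n.n2 + n.Ux + S.P + c)) =
        n.nT + S.h + n.n2 + j + 1 - (n.n2 + n.Ux + S.P + c) := by omega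
    unfold layD
    rw [hmin, hmax]
    refine mod4_aux S n _ hm rfl rfl hsp 1 rfl (fun _ => c2.1) ?_ ?_ ?_ ?_ ?_ ?_ ?_ ?_ ?_ ?_ ?_ ?_
      ?_ <;> dsimp only
    · omega
    · omega
    · intro i hi
      unfold lam
      rw [if_neg (by omega), if_neg (by omega), add_zero, add_zero]
    · intro i hi
      have := lam_le (n.n2 + n.Ux + S.P + c)
        (n.nT + S.h + n.n2 + j + 1 - (n.n2 + n.Ux + S.P + c)) i
      omega
    · omega
    · omega
    · exact Or.inl rfl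
    · intro _
      exact ⟨by omega, by omega, by omega, Or.inr rfl⟩
    · omega
    · intro i h1 h2 hld hb
      have hs := S.same' h1 h2 hld
      have h3 := r_og S h1 h2 fun h => hb (hs.2.1 h)
      have h4 := r_eg S h1 h2 fun h => hb (hs.2.1 (hs.1.2 h))
      rcases lt_trichotomy (S.rk (ee i)) (n.n2 + j + S.Q + 2) with h5 | h5 | h5
      · have h6 := S.cutG_lt (n.n2 + j + S.Q + 2) (by omega) (by omega) i h1 h2 hld hb h5
        rw [← hcdef] at h6
        unfold lam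
        split_ifs <;> omega
      · have h6 := (lam_ne (y1 := n.n2 + n.Ux + S.P + c)
          (y2 := n.nT + S.h + n.n2 + j + 1 - (n.n2 + n.Ux + S.P + c)) (by omega)
          (n.n2 + j + (n.Ux - 1 - j) + S.rk (oe i))).1
        omega
      · have h6 := S.cutG_gt (n.n2 + j + S.Q + 2) (by omega) (by omega) i h1 h2 hld hb h5
        rw [← hcdef] at h6
        unfold lam
        split_ifs <;> omega
    · intro h
      unfold lam
      split_ifs <;> omega
    · intro _ h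
      exact absurd h (by decide)
    · intro _
      omega
  · have hjU' : n.nT + j ≤ n.Ux := by split_ifs at hjU <;> omega
    set c := S.cutG (n.n2 + j + S.Q + 2) with hcdef
    refine mod4_aux S n _ hm rfl rfl hsp 0 rfl (by omega) ?_ ?_ ?_ ?_ ?_ ?_ ?_ ?_ ?_ ?_ ?_ ?_ ?_ <;>
      dsimp only [layS]
    · omega
    · omega
    · intro i hi
      unfold lam
      rw [if_neg (by omega), if_neg (by omega), add_zero, add_zero]
    · intro i hi
      unfold lam
      split_ifs <;> omega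
    · omega
    · omega
    · exact Or.inl rfl
    · intro h
      exact absurd h (by decide)
    · omega
    · intro i h1 h2 hld hb
      have hs := S.same' h1 h2 hld
      have h3 := r_og S h1 h2 fun h => hb (hs.2.1 h)
      have h4 := r_eg S h1 h2 fun h => hb (hs.2.1 (hs.1.2 h))
      rcases lt_trichotomy (S.rk (ee i)) (n.n2 + j + S.Q + 2) with h5 | h5 | h5
      · have h6 := S.cutG_lt (n.n2 + j + S.Q + 2) (by omega) (by omega) i h1 h2 hld hb h5
        rw [← hcdef] at h6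
        unfold lam
        split_ifs <;> omega
      · have h6 := (lam_ne (y1 := n.n2 + n.Ux + S.P + c + 1) (y2 := wz S n + 2) (by omega)
          (n.n2 + j + (n.Ux - j) + S.rk (oe i))).1
        omega
      · have h6 := S.cutG_gt (n.n2 + j + S.Q + 2) (by omega) (by omega) i h1 h2 hld hb h5
        rw [← hcdef] at h6
        unfold lam
        split_ifs <;> omega
    · intro h
      unfold lam
      split_ifs <;> omega
    · intro h3 _
      have h4 : ¬ (n.n2 + n.Ux + S.P + c + 1 + S.P < n.nT + S.h) := fun h => c2 ⟨h3, h⟩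
      have := le_lam (n.n2 + n.Ux + S.P + c + 1) (wz S n + 2) (n.n2 + j + S.P + 1)
      omega
    · intro h
      exact absurd h (by decide)

end Pool.Agent.Lob5
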