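import Pool.Agent.Lob5.LowGen
import Pool.Agent.Lob5.LowGen2

/-!
# Mode 5 (K4), special `A` (`sp = 1`)

Notation: `w = wz S n`, `m = mz S n`, `J i = rk i + rk (i+1) = rk (oe i) + rk (ee i)`.
Bases of loaded vertices by `bs_bg` (odd edge bad, kind b) and `bs_gb` (odd edge good, kind g):
kind b: `w+N0+nT+(n2+j+J)+s`, kind g: `w+N0+(n2+j+U+J)+s`, where the shift `s` is the number of
inserted labels below the odd edge. Unloaded vertices: `bs_bb`, `bs_gg`. The `D`-fields follow from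
`S.tbb, S.tbg, S.tgb, S.tgg` (with the value of `S.mode` inserted), `U ≥ nT` and the bounds for the
shifts. For kind b `a` and kind g `z` use `U ≥ nT`. For a kind b vertex the good even edge exists.

`q` is even, `e_q` bad of rank 1 (label `w+N0+1`), `e_{q+1}` good of rank `P+1 ≤ h+1`, at position
`n2+j+U+P+1`. `v = n2+Ux+P+2`, `w = n2+Ux+h+2`.
* `v+1 ≤ Q`: `r = v+1`, `c = S.cutB r ≤ P`, `y = n2+j+c+1`; the position of `e_{q+1}` is `≥ y`, so
  `bs q = w+N0+1+(n2+j+U+P+2) = w+N0+r`, `V = w+N0+r+y`. Unloaded bad vertex: `re < r → ro ≤ c → `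
  label `< y`; `re > r → ro > c →` label `> y`; `re = r`: label `≠ y`. Unloaded good vertices are `> V`,
  and `V ≤ w+N0+Q+n2+j+P+1 < w+N0+Q+1+X 1`.
* `Q ≤ v ≤ Q+nT`: `layLg` (`U = Ux-j+1`, no inserted labels), `bs q = w+N0+v+1`.
* `Q+nT < v ≤ nT+h`: `r = v-nT`, `c = S.cutG r ≥ 1` (`cutG_one`), `y = n2+j+U+P+c+1` is above `e_{q+1}`:
  `bs q = w+N0+v = w+N0+nT+r`; continue as in mode 4.
* `v > nT+h`: `t = min (v-nT-h) (n2+j+1)`, `y' = w+t-(v-nT-h)`. If `t = v-nT-h` then `y' = w ≥ v`.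
  If `v ≤ y'`: `y = y'`, `bs q = w+N0+v`; otherwise `y = y'-1 < v`, `bs q = w+N0+v+1`; always
  `V = w+m+t`. (`w - v = h - P ≥ 0`, `y' = h-P+nT+h+t`.) `X U ≤ w-1` because `e_{q+1}` is above.
Shifts at most 1 (0 for `layLg`, where `U + j = Ux + 1`).
-/

namespace Pool.Agent.Lob5

variable {k : ℕ} {ld al : ℕ → Prop}

private lemma oe_range5 {i k : ℕ} (h1 : 1 ≤ i) (h2 : i < k) : 1 ≤ oe i ∧ oe i ≤ k := by
  unfold oe; split_ifs <;> omega

private lemma ee_range5 {i k : ℕ} (h1 : 1 ≤ i) (h2 : i < k) : 1 ≤ ee i ∧ ee i ≤ k := by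
  unfold ee; split_ifs <;> omega

private lemma rk_oe_le5 (S : Seam k ld al) {i : ℕ} (h1 : 1 ≤ i) (h2 : i < k) :
    1 ≤ S.rk (oe i) ∧ S.rk (oe i) ≤ S.h + 1 := by
  have hr := oe_range5 h1 h2
  have hPh := S.Ph
  by_cases hb : S.bad (oe i)
  · have := S.rk_ob _ hr.1 hr.2 oe_odd hb
    omega
  · have := S.rk_og _ hr.1 hr.2 oe_odd hb
    omega

/-- the facts about `q` in mode 5 -/
private lemma q5 (S : Seam k ld al) (hm : S.mode = 5) :
    1 ≤ S.q ∧ S.q < k ∧ oe S.q = S.q + 1 ∧ ee S.q = S.q ∧ S.bad (ee S.q) ∧ ¬ S.bad (oe S.q) ∧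
      S.rk (ee S.q) = 1 ∧ S.rk (oe S.q) = S.P + 1 ∧ S.P ≤ S.h ∧ 1 ≤ S.Q := by
  obtain ⟨h1, h2, h3, h4, h5⟩ := S.m5 hm
  have hld := S.al_ld _ h1
  have hp := S.ld_pos _ hld
  have hk := S.ld_lt _ hld
  have hoe : oe S.q = S.q + 1 := by unfold oe; rw [if_neg (by omega)]
  have hee : ee S.q = S.q := by unfold ee; rw [if_neg (by omega)]
  have hg : ¬ S.bad (S.q + 1) := (S.diff _ hld).1 h2
  have hr := S.rk_og (S.q + 1) (by omega) (by omega) (by omega) hg
  have hr2 := S.rk_eb S.q (by omega) (by omega) h3 h2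
  refine ⟨hp, hk, hoe, hee, ?_, ?_, ?_, ?_, ?_, ?_⟩
  · rw [hee]; exact h2
  · rw [hoe]; exact hg
  · rw [hee]; exact h4
  · rw [hoe]; exact h5
  · omega
  · omega

private lemma wz5 (S : Seam k ld al) (n : Num) (hs : n.sp = 1) :
    wz S n = n.n2 + n.Ux + S.h + 2 := by
  unfold wz; rw [hs]; simp

private lemma D5 (S : Seam k ld al) (n : Num) (Λ : Lay) (hk2 : Λ.k2 = false) (hm : S.mode = 5)
    (hs : n.sp = 1) (hU : n.nT ≤ Λ.U)
    (hW : ∀ x, x ≤ n.n2 + Λ.j + Λ.U + S.h + 1 → lam Λ.y1 Λ.y2 x ≤ x + 1)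
    (hW2 : ∀ x, x ≤ n.n2 + Λ.j + Λ.U + S.h + 1 → lam Λ.y1 Λ.y2 x + Λ.j + Λ.U ≤ x + n.Ux + 1) :
    (∀ a z, al a → a ≠ S.q → S.bad (oe a) → ld z → ¬ al z →
      bs S n Λ a + (if n.sp = 0 ∧ S.mode = 5 then 1 else 0) ≤ bs S n Λ z + S.Q + 1) ∧
    (∀ a z, al a → a ≠ S.q → ¬ S.bad (oe a) → ld z → ¬ al z → ¬ S.bad (oe z) →
      bs S n Λ a ≤ bs S n Λ z + S.Q + (if 2 ≤ n.sp then 1 else 0)) ∧
    (∀ a z, al a → a ≠ S.q → ¬ S.bad (oe a) → ld z → ¬ al z → S.bad (oe z) →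
      bs S n Λ a + sg k ld al S.rk S.h S.q z + n.nT + Λ.j ≤ bs S n Λ z + S.Q + n.Ux) := by
  have hsp : ¬ (n.sp = 0 ∧ S.mode = 5) := by omega
  have hsp2 : ¬ (2 ≤ n.sp) := by omega
  rw [if_neg hsp, if_neg hsp2]
  -- the two kinds
  have kb : ∀ i, ld i → S.bad (oe i) → bs S n Λ i ≤ wz S n + n.N0 + n.nT +
      (n.n2 + Λ.j + (S.rk i + S.rk (i + 1))) + 1 ∧
      wz S n + n.N0 + n.nT + (n.n2 + Λ.j + (S.rk i + S.rk (i + 1))) ≤ bs S n Λ i := by
    intro i hl hb
    have h1 := S.ld_pos i hl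
    have h2 := S.ld_lt i hl
    have e1 := bs_bg S n Λ hk2 h1 h2 hb ((S.diff' hl).1 hb)
    have e2 := rk_sum S.rk i
    have e3 := rk_oe_le5 S h1 h2
    have e4 := hW (n.n2 + Λ.j + S.rk (oe i)) (by omega)
    have e5 := le_lam Λ.y1 Λ.y2 (n.n2 + Λ.j + S.rk (oe i))
    omega
  have kg : ∀ i, ld i → ¬ S.bad (oe i) → bs S n Λ i ≤ wz S n + n.N0 +
      (n.n2 + Λ.j + Λ.U + (S.rk i + S.rk (i + 1))) + 1 ∧
      bs S n Λ i ≤ wz S n + n.N0 + (n.n2 + n.Ux + (S.rk i + S.rk (i + 1))) + 1 ∧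
      wz S n + n.N0 + (n.n2 + Λ.j + Λ.U + (S.rk i + S.rk (i + 1))) ≤ bs S n Λ i := by
    intro i hl hb
    have h1 := S.ld_pos i hl
    have h2 := S.ld_lt i hl
    have hb2 : S.bad (ee i) := by
      by_contra hc
      exact hb ((S.diff' hl).2 hc)
    have e1 := bs_gb S n Λ hk2 h1 h2 hb hb2
    have e2 := rk_sum S.rk i
    have e3 := rk_oe_le5 S h1 h2
    have e4 := hW (n.n2 + Λ.j + Λ.U + S.rk (oe i)) (by omega)
    have e6 := hW2 (n.n2 + Λ.j + Λ.U + S.rk (oe i)) (by omega)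
    have e5 := le_lam Λ.y1 Λ.y2 (n.n2 + Λ.j + Λ.U + S.rk (oe i))
    omega
  refine ⟨?_, ?_, ?_⟩
  · intro a z ha haq hb hz hz2
    have ka := kb a (S.al_ld a ha) hb
    by_cases hbz : S.bad (oe z)
    · have kz := kb z hz hbz
      have t := S.tbb a z ha haq hb hz hz2 hbz
      rw [if_pos (by omega)] at t
      omega
    · have kz := kg z hz hbz
      have t := S.tbg a z ha haq hb hz hz2 hbz
      rw [if_neg (by omega)] at t
      omega
  · intro a z ha haq hb hz hz2 hbz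
    have ka := kg a (S.al_ld a ha) hb
    have kz := kg z hz hbz
    have t := S.tgg a z ha haq hb hz hz2 hbz
    omega
  · intro a z ha haq hb hz hz2 hbz
    have ka := kg a (S.al_ld a ha) hb
    have kz := kb z hz hbz
    have t := S.tgb a z ha haq hb hz hz2 hbz
    rw [if_neg (by omega)] at t
    omega

private lemma lam_two (y W i : ℕ) (h : i ≤ W) :
    lam y (W + 2) i = if y ≤ i then i + 1 else i := by
  unfold lam; split_ifs <;> omega

private lemma layS_low (S : Seam k ld al) (n : Num) (j y : ℕ) (hs : n.sp = 1)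
    (hA : Adm S n j) (h1 : n.n2 + j < y) (h2 : y ≤ wz S n) : LowOK S n (layS S n j y) := by
  have hjU := hA.jU
  have hw := wz5 S n hs
  rw [if_neg (by omega)] at hjU
  apply lowOK_gen
  · rfl
  · exact h1
  · change y < wz S n + 2
    omega
  · change wz S n = n.n2 + j + (n.Ux - j) + S.h + 1 + (if y ≤ wz S n then 1 else 0)
      + (if wz S n + 2 ≤ wz S n then 1 else 0)
    rw [if_pos h2, if_neg (by omega)]
    omega
  · change n.nT ≤ n.Ux - j
    omega

private lemma layLg_low (S : Seam k ld al) (n : Num) (j : ℕ) (hs : n.sp = 1)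
    (hA : Adm S n j) : LowOK S n (layLg S n j) := by
  have hjU := hA.jU
  have hw := wz5 S n hs
  rw [if_neg (by omega)] at hjU
  apply lowOK_gen
  · rfl
  · change n.n2 + j < wz S n + 1
    omega
  · change wz S n + 1 < wz S n + 2
    omega
  · change wz S n = n.n2 + j + (n.Ux - j + 1) + S.h + 1 + (if wz S n + 1 ≤ wz S n then 1 else 0)
      + (if wz S n + 2 ≤ wz S n then 1 else 0)
    rw [if_neg (by omega), if_neg (by omega)]
    omega
  · change n.nT ≤ n.Ux - j + 1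
    omega

/-- the base of `q` for `layS` -/
private lemma layS_bsq (S : Seam k ld al) (n : Num) (j y : ℕ) (hm : S.mode = 5) (hs : n.sp = 1)
    (hA : Adm S n j) :
    bs S n (layS S n j y) S.q = wz S n + n.N0 +
      (if y ≤ n.n2 + n.Ux + S.P + 1 then n.n2 + n.Ux + S.P + 2 else n.n2 + n.Ux + S.P + 1)
      + 1 := by
  obtain ⟨q1, q2, q3, q4, q5, q6, q7, q8, q9, q10⟩ := q5 S hm
  have hjU := hA.jU
  have hw := wz5 S n hs
  rw [if_neg (by omega)] at hjU
  rw [bs_gb S n (layS S n j y) rfl q1 q2 q6 q5, q7, q8]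
  have e1 : n.n2 + (layS S n j y).j + (layS S n j y).U + (S.P + 1) = n.n2 + n.Ux + S.P + 1 := by
    change n.n2 + j + (n.Ux - j) + (S.P + 1) = n.n2 + n.Ux + S.P + 1
    omega
  rw [e1]
  change wz S n + n.N0 + lam y (wz S n + 2) (n.n2 + n.Ux + S.P + 1) + 1 = _
  rw [lam_two _ _ _ (by omega)]

/-- the facts about unloaded vertices for `layS` -/
private lemma layS_un (S : Seam k ld al) (n : Num) (j y : ℕ) (hs : n.sp = 1)
    (hA : Adm S n j) {i : ℕ} (h1 : 1 ≤ i) (h2 : i < k) (h : ¬ ld i) :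
    (S.bad i ∧ 1 ≤ S.rk (oe i) ∧ S.rk (oe i) ≤ S.P ∧ 1 ≤ S.rk (ee i) ∧ S.rk (ee i) ≤ S.Q ∧
      bs S n (layS S n j y) i = wz S n + n.N0 +
        (if y ≤ n.n2 + j + S.rk (oe i) then n.n2 + j + S.rk (oe i) + 1
          else n.n2 + j + S.rk (oe i)) + S.rk (ee i)) ∨
    (¬ S.bad i ∧ S.P + 1 ≤ S.rk (oe i) ∧ S.rk (oe i) ≤ S.h + 1 ∧ S.Q + 1 ≤ S.rk (ee i) ∧
      S.rk (ee i) ≤ S.h ∧
      bs S n (layS S n j y) i = wz S n + n.N0 + n.nT +
        (if y ≤ n.n2 + n.Ux + S.rk (oe i) then n.n2 + n.Ux + S.rk (oe i) + 1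
          else n.n2 + n.Ux + S.rk (oe i)) + S.rk (ee i)) := by
  obtain ⟨s1, s2⟩ := S.same' h1 h2 h
  have hjU := hA.jU
  have hw := wz5 S n hs
  rw [if_neg (by omega)] at hjU
  have ro := oe_range5 h1 h2
  have re := ee_range5 h1 h2
  have hPh := S.Ph
  by_cases hb : S.bad i
  · left
    have hbo : S.bad (oe i) := s2.2 hb
    have hbe : S.bad (ee i) := s1.1 hbo
    have r1 := S.rk_ob _ ro.1 ro.2 oe_odd hbo
    have r2 := S.rk_eb _ re.1 re.2 ee_even hbe
    refine ⟨hb, r1.1, r1.2, r2.1, r2.2, ?_⟩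
    rw [bs_bb S n (layS S n j y) rfl h1 h2 hbo hbe]
    change wz S n + n.N0 + lam y (wz S n + 2) (n.n2 + j + S.rk (oe i)) + S.rk (ee i) = _
    rw [lam_two _ _ _ (by omega)]
  · right
    have hbo : ¬ S.bad (oe i) := fun hc => hb (s2.1 hc)
    have hbe : ¬ S.bad (ee i) := fun hc => hbo (s1.2 hc)
    have r1 := S.rk_og _ ro.1 ro.2 oe_odd hbo
    have r2 := S.rk_eg _ re.1 re.2 ee_even hbe
    refine ⟨hb, r1.1, r1.2, r2.1, r2.2, ?_⟩
    rw [bs_gg S n (layS S n j y) rfl h1 h2 hbo hbe]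
    have e1 : n.n2 + (layS S n j y).j + (layS S n j y).U + S.rk (oe i) =
        n.n2 + n.Ux + S.rk (oe i) := by
      change n.n2 + j + (n.Ux - j) + S.rk (oe i) = n.n2 + n.Ux + S.rk (oe i)
      omega
    rw [e1]
    change wz S n + n.N0 + n.nT + lam y (wz S n + 2) (n.n2 + n.Ux + S.rk (oe i)) +
      S.rk (ee i) = _
    rw [lam_two _ _ _ (by omega)]

private lemma layS_X1 (S : Seam k ld al) (n : Num) (j y : ℕ) :
    n.n2 + j + S.P + 1 ≤ Xl S n (layS S n j y) 1 := by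
  unfold Xl
  exact le_lam _ _ _

private lemma layS_XU (S : Seam k ld al) (n : Num) (j y : ℕ) (hs : n.sp = 1)
    (hA : Adm S n j) (hP : S.P ≤ S.h) :
    Xl S n (layS S n j y) (layS S n j y).U =
      (if y ≤ n.n2 + n.Ux + S.P then n.n2 + n.Ux + S.P + 1 else n.n2 + n.Ux + S.P) := by
  have hjU := hA.jU
  have hw := wz5 S n hs
  rw [if_neg (by omega)] at hjU
  unfold Xl
  have e1 : n.n2 + (layS S n j y).j + S.P + (layS S n j y).U -
      (if (layS S n j y).k2 = true then 1 else 0) = n.n2 + n.Ux + S.P := by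
    change n.n2 + j + S.P + (n.Ux - j) - 0 = n.n2 + n.Ux + S.P
    omega
  rw [e1]
  change lam y (wz S n + 2) (n.n2 + n.Ux + S.P) = _
  rw [lam_two _ _ _ (by omega)]

/-- assembly for `layS` -/
private lemma layS_mod (S : Seam k ld al) (n : Num) (j y : ℕ) (hm : S.mode = 5) (hs : n.sp = 1)
    (hA : Adm S n j) (h1 : n.n2 + j < y) (h2 : y ≤ wz S n)
    (hup : bs S n (layS S n j y) S.q + y ≤ wz S n + mz S n + n.n2 + j + 1)
    (hC : ∀ i, 1 ≤ i → i < k → ¬ ld i →
      bs S n (layS S n j y) i ≠ bs S n (layS S n j y) S.q + y)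
    (hL : bs S n (layS S n j y) S.q + y < wz S n + n.N0 + S.Q + 1 + Xl S n (layS S n j y) 1 ∨
      wz S n + n.N0 + S.Q + n.nT + 1 + Xl S n (layS S n j y) (layS S n j y).U <
        bs S n (layS S n j y) S.q + y) :
    ModOK S n (layS S n j y) := by
  have hjU := hA.jU
  have hw := wz5 S n hs
  rw [if_neg (by omega)] at hjU
  have hq := layS_bsq S n j y hm hs hA
  obtain ⟨d1, d2, d3⟩ := D5 S n (layS S n j y) rfl hm hs (by change n.nT ≤ n.Ux - j; omega)
    (by
      intro x hx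
      have hx' : x ≤ n.n2 + j + (n.Ux - j) + S.h + 1 := hx
      change lam y (wz S n + 2) x ≤ x + 1
      rw [lam_two _ _ _ (by omega)]
      split_ifs <;> omega)
    (by
      intro x hx
      have hx' : x ≤ n.n2 + j + (n.Ux - j) + S.h + 1 := hx
      change lam y (wz S n + 2) x + j + (n.Ux - j) ≤ x + n.Ux + 1
      rw [lam_two _ _ _ (by omega)]
      split_ifs <;> omega)
  refine ⟨?_, ?_, ?_, ?_, ?_, ?_, ?_, ?_, ?_, ?_, d1, d2, d3⟩
  · change (n.Ux - j) + j + 0 = n.Ux + 0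
    omega
  · intro _ _
    exact ⟨h1, h2, Or.inl rfl⟩
  · intro h
    exact absurd h (by simp [layS])
  · intro h
    exact absurd h (by simp [layS])
  · intro _ _
    change wz S n + n.N0 < bs S n (layS S n j y) S.q + y
    omega
  · intro _ _
    exact hup
  · intro _ _
    exact hC
  · intro _ _ _
    exact hL
  · intro h
    omega
  · intro h
    exact absurd h (by simp [layS])

/-- the label in the last case -/
private lemma y4 (W d j' h P n2 Ux nT : ℕ) (hW : W = n2 + Ux + h + 2)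
    (hv : nT + h + d = n2 + Ux + P + 2) (hP : P ≤ h) (hh : 1 ≤ h) (hd1 : 1 ≤ d) :
    ∃ t, 1 ≤ t ∧ t ≤ j' + 1 ∧
      ((nT + h + d ≤ (if nT + h + d ≤ W + min d (j' + 1) - d then W + min d (j' + 1) - d
          else W + min d (j' + 1) - d - 1) ∧
        (if nT + h + d ≤ W + min d (j' + 1) - d then W + min d (j' + 1) - d
          else W + min d (j' + 1) - d - 1) ≤ W ∧
        d + (if nT + h + d ≤ W + min d (j' + 1) - d then W + min d (j' + 1) - d
          else W + min d (j' + 1) - d - 1) = W + t) ∨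
      ((if nT + h + d ≤ W + min d (j' + 1) - d then W + min d (j' + 1) - d
          else W + min d (j' + 1) - d - 1) + 2 ≤ nT + h + d ∧
        j' < (if nT + h + d ≤ W + min d (j' + 1) - d then W + min d (j' + 1) - d
          else W + min d (j' + 1) - d - 1) ∧
        d + (if nT + h + d ≤ W + min d (j' + 1) - d then W + min d (j' + 1) - d
          else W + min d (j' + 1) - d - 1) + 1 = W + t)) := by
  rcases le_total d (j' + 1) with hd | hd
  · rw [min_eq_left hd]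
    refine ⟨d, hd1, hd, ?_⟩
    left
    rw [if_pos (by omega)]
    omega
  · rw [min_eq_right hd]
    refine ⟨j' + 1, by omega, le_rfl, ?_⟩
    by_cases hc : nT + h + d ≤ W + (j' + 1) - d
    · left
      rw [if_pos hc]
      omega
    · right
      rw [if_neg hc]
      omega

private lemma lay5_cases (S : Seam k ld al) (n : Num) (j : ℕ) (hm : S.mode = 5) (hs : n.sp = 1) :
    (n.n2 + n.Ux + S.P + 3 ≤ S.Q ∧
      lay5 S n j = layS S n j (n.n2 + j + S.cutB (n.n2 + n.Ux + S.P + 3) + 1)) ∨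
    (S.Q ≤ n.n2 + n.Ux + S.P + 2 ∧ n.n2 + n.Ux + S.P + 2 ≤ S.Q + n.nT ∧
      lay5 S n j = layLg S n j) ∨
    (∃ r, n.nT + r = n.n2 + n.Ux + S.P + 2 ∧ S.Q + 1 ≤ r ∧ r ≤ S.h ∧
      lay5 S n j = layS S n j (n.n2 + n.Ux + S.P + S.cutG r + 1)) ∨
    (∃ d y t, n.nT + S.h + d = n.n2 + n.Ux + S.P + 2 ∧ 1 ≤ d ∧ 1 ≤ t ∧ t ≤ n.n2 + j + 1 ∧
      lay5 S n j = layS S n j y ∧
      ((n.n2 + n.Ux + S.P + 2 ≤ y ∧ y ≤ wz S n ∧ d + y = wz S n + t) ∨
        (y + 2 ≤ n.n2 + n.Ux + S.P + 2 ∧ n.n2 + j < y ∧ d + y + 1 = wz S n + t))) := by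
  have hw := wz5 S n hs
  have hP := (q5 S hm).2.2.2.2.2.2.2.2.1
  by_cases c1 : n.n2 + n.Ux + S.P + 2 + 1 ≤ S.Q
  · left
    refine ⟨c1, ?_⟩
    unfold lay5
    dsimp only
    rw [if_pos c1]
  right
  by_cases c2 : n.n2 + n.Ux + S.P + 2 ≤ S.Q + n.nT
  · left
    refine ⟨by omega, c2, ?_⟩
    unfold lay5
    dsimp only
    rw [if_neg c1, if_pos c2]
  right
  by_cases c3 : n.n2 + n.Ux + S.P + 2 ≤ n.nT + S.h
  · left
    refine ⟨n.n2 + n.Ux + S.P + 2 - n.nT, by omega, by omega, by omega, ?_⟩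
    unfold lay5
    dsimp only
    rw [if_neg c1, if_neg c2, if_pos c3]
  right
  obtain ⟨d, hd⟩ : ∃ d, n.nT + S.h + d = n.n2 + n.Ux + S.P + 2 :=
    ⟨n.n2 + n.Ux + S.P + 2 - (n.nT + S.h), by omega⟩
  have hd2 : n.n2 + n.Ux + S.P + 2 - n.nT - S.h = d := by omega
  obtain ⟨t, t1, t2, t3⟩ := y4 (wz S n) d (n.n2 + j) S.h S.P n.n2 n.Ux n.nT hw hd hP S.h1
    (by omega)
  refine ⟨d, (if n.n2 + n.Ux + S.P + 2 ≤ wz S n + min d (n.n2 + j + 1) - d then
    wz S n + min d (n.n2 + j + 1) - d else wz S n + min d (n.n2 + j + 1) - d - 1),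
    t, hd, by omega, t1, t2, ?_, ?_⟩
  · unfold lay5
    dsimp only
    rw [if_neg c1, if_neg c2, if_neg c3, hd2]
  · rw [hd] at t3
    exact t3

theorem low_5 (S : Seam k ld al) (n : Num) (j : ℕ) (hm : S.mode = 5) (hs : n.sp = 1)
    (hA : Adm S n j) : LowOK S n (lay5 S n j) := by
  have hjU := hA.jU
  have hw := wz5 S n hs
  have hP := (q5 S hm).2.2.2.2.2.2.2.2.1
  rw [if_neg (by omega)] at hjU
  rcases lay5_cases S n j hm hs with ⟨c1, e⟩ | ⟨_, _, e⟩ | ⟨r, r1, r2, r3, e⟩ |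
    ⟨d, y, t, d1, d2, t1, t2, e, hy⟩
  · rw [e]
    have := S.cutB_le (n.n2 + n.Ux + S.P + 3)
    exact layS_low S n j _ hs hA (by omega) (by omega)
  · rw [e]
    exact layLg_low S n j hs hA
  · rw [e]
    have := S.cutG_le r
    exact layS_low S n j _ hs hA (by omega) (by omega)
  · rw [e]
    exact layS_low S n j _ hs hA (by omega) (by omega)

theorem mod_5 (S : Seam k ld al) (n : Num) (j : ℕ) (hm : S.mode = 5) (hs : n.sp = 1)
    (hA : Adm S n j) : ModOK S n (lay5 S n j) := by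
  have hjU := hA.jU
  have hw := wz5 S n hs
  have hmz : mz S n = wz S n + n.N0 + n.nT + S.h := rfl
  obtain ⟨q1, q2, q3, q4, q5', q6, q7, q8, hP, q10⟩ := q5 S hm
  have hQh := S.Qh
  rw [if_neg (by omega)] at hjU
  rcases lay5_cases S n j hm hs with ⟨c1, e⟩ | ⟨c1, c2, e⟩ | ⟨r, r1, r2, r3, e⟩ |
    ⟨d, y, t, d1, d2, t1, t2, e, hy⟩
  · rw [e]
    have hc := S.cutB_le (n.n2 + n.Ux + S.P + 3)
    have hlt := S.cutB_lt (n.n2 + n.Ux + S.P + 3) (by omega) c1
    have hgt := S.cutB_gt (n.n2 + n.Ux + S.P + 3) (by omega) c1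
    generalize S.cutB (n.n2 + n.Ux + S.P + 3) = c at hc hlt hgt ⊢
    have hq := layS_bsq S n j (n.n2 + j + c + 1) hm hs hA
    rw [if_pos (by omega)] at hq
    have hX := layS_X1 S n j (n.n2 + j + c + 1)
    apply layS_mod S n j _ hm hs hA (by omega) (by omega) (by omega)
    · intro i i1 i2 i3
      rcases layS_un S n j (n.n2 + j + c + 1) hs hA i1 i2 i3 with
        ⟨hb, a1, a2, a3, a4, a5⟩ | ⟨hb, a1, a2, a3, a4, a5⟩
      · have h1 := hlt i i1 i2 i3 hb
        have h2 := hgt i i1 i2 i3 hb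
        rw [a5, hq]
        split_ifs <;> omega
      · rw [a5, hq]
        split_ifs <;> omega
    · left
      omega
  · rw [e]
    have hbq : bs S n (layLg S n j) S.q = wz S n + n.N0 + (n.n2 + n.Ux + S.P + 2) + 1 := by
      rw [bs_gb S n (layLg S n j) rfl q1 q2 q6 q5', q7, q8]
      have e1 : n.n2 + (layLg S n j).j + (layLg S n j).U + (S.P + 1) =
          n.n2 + n.Ux + S.P + 2 := by
        change n.n2 + j + (n.Ux - j + 1) + (S.P + 1) = n.n2 + n.Ux + S.P + 2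
        omega
      rw [e1]
      change wz S n + n.N0 + lam (wz S n + 1) (wz S n + 2) (n.n2 + n.Ux + S.P + 2) + 1 = _
      unfold lam
      rw [if_neg (by omega), if_neg (by omega)]
    obtain ⟨d1, d2, d3⟩ := D5 S n (layLg S n j) rfl hm hs
      (by change n.nT ≤ n.Ux - j + 1; omega)
      (by
        intro x hx
        have hx' : x ≤ n.n2 + j + (n.Ux - j + 1) + S.h + 1 := hx
        change lam (wz S n + 1) (wz S n + 2) x ≤ x + 1
        unfold lam
        split_ifs <;> omega)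
      (by
        intro x hx
        have hx' : x ≤ n.n2 + j + (n.Ux - j + 1) + S.h + 1 := hx
        change lam (wz S n + 1) (wz S n + 2) x + j + (n.Ux - j + 1) ≤ x + n.Ux + 1
        unfold lam
        split_ifs <;> omega)
    refine ⟨?_, ?_, ?_, ?_, ?_, ?_, ?_, ?_, ?_, ?_, d1, d2, d3⟩
    · change (n.Ux - j + 1) + j + 0 = n.Ux + 1
      omega
    · intro _ h
      exact absurd h (by simp [layLg])
    · intro h
      exact absurd h (by simp [layLg])
    · intro h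
      refine ⟨hs, rfl, ?_, ?_⟩ <;> omega
    · intro _ h
      exact absurd h (by simp [layLg])
    · intro _ h
      exact absurd h (by simp [layLg])
    · intro _ h
      exact absurd h (by simp [layLg])
    · intro _ h
      exact absurd h (by simp [layLg])
    · intro h
      omega
    · intro h
      exact absurd h (by simp [layLg])
  · rw [e]
    have hc := S.cutG_le r
    have hlt := S.cutG_lt r r2 r3
    have hgt := S.cutG_gt r r2 r3
    have hone := S.cutG_one hm r r2 r3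
    generalize S.cutG r = c at hc hlt hgt hone ⊢
    have hq := layS_bsq S n j (n.n2 + n.Ux + S.P + c + 1) hm hs hA
    rw [if_neg (by omega)] at hq
    have hX := layS_XU S n j (n.n2 + n.Ux + S.P + c + 1) hs hA hP
    rw [if_neg (by omega)] at hX
    apply layS_mod S n j _ hm hs hA (by omega) (by omega) (by omega)
    · intro i i1 i2 i3
      rcases layS_un S n j (n.n2 + n.Ux + S.P + c + 1) hs hA i1 i2 i3 with
        ⟨hb, a1, a2, a3, a4, a5⟩ | ⟨hb, a1, a2, a3, a4, a5⟩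
      · rw [a5, hq]
        split_ifs <;> omega
      · have h1 := hlt i i1 i2 i3 hb
        have h2 := hgt i i1 i2 i3 hb
        rw [a5, hq]
        split_ifs <;> omega
    · right
      omega
  · have hlow := low_5 S n j hm hs hA
    rw [e] at hlow
    rw [e]
    have hq := layS_bsq S n j y hm hs hA
    have hX := layS_XU S n j y hs hA hP
    have hq2 : bs S n (layS S n j y) S.q + y = wz S n + mz S n + t := by
      rw [hq]
      split_ifs <;> omega
    apply layS_mod S n j _ hm hs hA (by omega) (by omega) (by omega)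
    · intro i i1 i2 i3
      have := hlow.C_up i i1 i2 i3
      omega
    · right
      rw [hq2, hX]
      split_ifs <;> omega

end Pool.Agent.Lob5
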