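import Pool.Agent.Lob5.LowGen
import Pool.Agent.Lob5.LowGen2

/-!
# Consecutive layouts, mode 1 (K1)

`w`, `P`, `n2 + Ux` do not depend on `j`. Denote by `lab, lab'` the labels of an odd edge in the
layouts `j` and `j+1`; even edges do not change. So `bs' i - bs i = lab' - lab` of the odd edge of `i`.
It suffices to show: a good odd edge has `-1 ≤ lab' - lab ≤ 1`, a bad odd edge has `0 ≤ lab' - lab ≤ 2`,
and if some bad odd edge has `lab' - lab = 2` then no good odd edge has `lab' - lab = -1`.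
(`st2` is then clear.) Use `bs_bg`, `bs_gb` for loaded vertices.

`y(j) = n2+j+nT+h+1-Q` moves up by 1 together with the bad odd edges: these keep their shift w.r.t.
`y`, and the label `x` (if present) is above them: `lab' - lab = 1`.
Good odd edge of rank `r`, `s = n2+Ux+r`: with one inserted label its label is `s + [y ≤ s]`; with two
(`U = Ux-1-j`) it is `s - 1 + c`, `c` = number of inserted labels below it. If the layout `j+1` has two
inserted labels then so has the layout `j` (the condition is `X1 + 1 ≤ Q` and `X1` grows).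
one -> one: `[y+1 ≤ s] - [y ≤ s] ∈ {-1,0}`. two -> two: `x` is constant or (case `Q = y`) changes by
one; the count `c` changes by at most one. two -> one: `lab' - lab = 1 + [y' below] - c ∈ {-1,0,1}`.
(Here `y' = y+1`; if `y'` is below the new label then `y` was below the old one.)
-/

namespace Pool.Agent.Lob5

variable {k : ℕ} {ld al : ℕ → Prop}

private lemma l1_k2 (S : Seam k ld al) (n : Num) (j : ℕ) : (lay1 S n j).k2 = false := by
  unfold lay1
  split_ifs <;> rfl

/-- bad odd labels -/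
private lemma l1_bad (S : Seam k ld al) (n : Num) (j : ℕ) (hsp : n.sp ≠ 0)
    (hA : n.nT + j + (if 2 ≤ n.sp then 1 else 0) ≤ n.Ux) {r : ℕ} (hr : r ≤ S.P) :
    lam (lay1 S n j).y1 (lay1 S n j).y2 (n.n2 + (lay1 S n j).j + r) =
      n.n2 + j + r + (if n.n2 + j + n.nT + S.h + 1 - S.Q ≤ n.n2 + j + r then 1 else 0) := by
  have hPh := S.Ph
  have hQh := S.Qh
  have hw : wz S n = n.n2 + n.Ux + S.h + 2 := by simp only [wz, if_neg hsp]
  by_cases hc : n.sp = 3 ∧ (n.n2 + j + n.nT + S.h + 1 - S.Q) + (n.n2 + j + S.P + 1 +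
      (if n.n2 + j + n.nT + S.h + 1 - S.Q ≤ n.n2 + j + S.P + 1 then 1 else 0)) <
      n.nT + S.h + n.n2 + j + 1
  · have e2 : lay1 S n j = layD n j (n.n2 + j + n.nT + S.h + 1 - S.Q)
      (if S.Q = n.n2 + j + n.nT + S.h + 1 - S.Q then S.Q + 1 else S.Q) := by
      rw [lay1, if_pos hc]
    rw [e2]
    obtain ⟨-, hc⟩ := hc
    simp only [layD, lam]
    split_ifs at hc ⊢ <;> omega
  · have e2 : lay1 S n j = layS S n j (n.n2 + j + n.nT + S.h + 1 - S.Q) := by
      rw [lay1, if_neg hc]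
    rw [e2]
    clear hc
    simp only [layS, lam]
    split_ifs <;> omega

/-- good odd labels -/
private lemma l1_good (S : Seam k ld al) (n : Num) (j : ℕ) (hsp : n.sp ≠ 0)
    (hA : n.nT + j + (if 2 ≤ n.sp then 1 else 0) ≤ n.Ux) {r y x s L : ℕ} (hr : 1 ≤ r)
    (hr2 : r ≤ S.h + 1) (hy : y = n.n2 + j + n.nT + S.h + 1 - S.Q)
    (hs : s = n.n2 + n.Ux + r)
    (hx : x = if S.Q = n.n2 + j + n.nT + S.h + 1 - S.Q then S.Q + 1 else S.Q)
    (hL : L = lam (lay1 S n j).y1 (lay1 S n j).y2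
      (n.n2 + (lay1 S n j).j + (lay1 S n j).U + r)) :
    ((n.sp = 3 ∧ ((y ≤ n.n2 + j + S.P + 1 ∧ y + (n.n2 + j + S.P + 1 + 1) <
        n.nT + S.h + n.n2 + j + 1) ∨
      (n.n2 + j + S.P + 1 < y ∧ y + (n.n2 + j + S.P + 1) < n.nT + S.h + n.n2 + j + 1))) ∧
      ((L + 1 = s ∧ s ≤ y ∧ s ≤ x) ∨ (L = s ∧ y + 1 ≤ s ∧ s < x) ∨
        (L = s ∧ x + 1 ≤ s ∧ s < y) ∨ (L = s + 1 ∧ y ≤ s ∧ x ≤ s))) ∨
    (¬ (n.sp = 3 ∧ ((y ≤ n.n2 + j + S.P + 1 ∧ y + (n.n2 + j + S.P + 1 + 1) <
        n.nT + S.h + n.n2 + j + 1) ∨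
      (n.n2 + j + S.P + 1 < y ∧ y + (n.n2 + j + S.P + 1) < n.nT + S.h + n.n2 + j + 1))) ∧
      ((L = s ∧ s < y) ∨ (L = s + 1 ∧ y ≤ s))) := by
  have hPh := S.Ph
  have hQh := S.Qh
  have hw : wz S n = n.n2 + n.Ux + S.h + 2 := by simp only [wz, if_neg hsp]
  by_cases hc : n.sp = 3 ∧ (n.n2 + j + n.nT + S.h + 1 - S.Q) + (n.n2 + j + S.P + 1 +
      (if n.n2 + j + n.nT + S.h + 1 - S.Q ≤ n.n2 + j + S.P + 1 then 1 else 0)) <
      n.nT + S.h + n.n2 + j + 1
  · left
    have e2 : lay1 S n j = layD n j y x := by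
      rw [lay1, if_pos hc, hx, hy]
    rw [e2] at hL
    obtain ⟨h3, hc⟩ := hc
    rw [if_pos (by omega)] at hA
    have hxy : x ≠ y := by
      rw [hx, hy]
      split_ifs <;> omega
    refine ⟨⟨h3, ?_⟩, ?_⟩
    · split_ifs at hc <;> omega
    · clear hc hx hy e2
      have e1 : n.n2 + j + (n.Ux - 1 - j) + r = s - 1 := by omega
      simp only [layD, lam, e1] at hL
      split_ifs at hL <;> omega
  · right
    have e2 : lay1 S n j = layS S n j y := by
      rw [lay1, if_neg hc, hy]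
    rw [e2] at hL
    refine ⟨?_, ?_⟩
    · rintro ⟨h3, h4⟩
      apply hc
      refine ⟨h3, ?_⟩
      rw [← hy]
      split_ifs <;> omega
    · clear hc hx e2
      have e1 : n.n2 + j + (n.Ux - j) + r = s := by
        split_ifs at hA <;> omega
      simp only [layS, lam, e1] at hL
      split_ifs at hL <;> omega

private lemma l1_step (S : Seam k ld al) (n : Num) (j : ℕ) (hsp : n.sp ≠ 0)
    (hA : n.nT + (j + 1) + (if 2 ≤ n.sp then 1 else 0) ≤ n.Ux) {r L L' : ℕ} (hr : S.P + 1 ≤ r)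
    (hr2 : r ≤ S.h + 1)
    (hL : L = lam (lay1 S n j).y1 (lay1 S n j).y2
      (n.n2 + (lay1 S n j).j + (lay1 S n j).U + r))
    (hL' : L' = lam (lay1 S n (j + 1)).y1 (lay1 S n (j + 1)).y2
      (n.n2 + (lay1 S n (j + 1)).j + (lay1 S n (j + 1)).U + r)) :
    L ≤ L' + 1 ∧ L' ≤ L + 1 := by
  have hQh := S.Qh
  have hPQ := S.PQ
  have hA0 : n.nT + j + (if 2 ≤ n.sp then 1 else 0) ≤ n.Ux := by omega
  have h1 := l1_good S n j hsp hA0 (by omega) hr2 rfl rfl rfl hL
  have h2 := l1_good S n (j + 1) hsp hA (by omega) hr2 rfl rfl rfl hL'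
  have hA1 : n.nT + (j + 1) ≤ n.Ux := by omega
  clear hL hL' hA hA0
  generalize hx : (if S.Q = n.n2 + j + n.nT + S.h + 1 - S.Q then S.Q + 1 else S.Q) = x at h1
  generalize hx' : (if S.Q = n.n2 + (j + 1) + n.nT + S.h + 1 - S.Q then S.Q + 1 else S.Q) = x'
    at h2
  rcases h1 with ⟨⟨h3, h4⟩, h1⟩ | ⟨h4, h1⟩ <;> rcases h2 with ⟨⟨h5, h6⟩, h2⟩ | ⟨h6, h2⟩
  · split_ifs at hx hx' <;> omega
  · split_ifs at hx hx' <;> omega
  · exfalso
    split_ifs at hx hx' <;> omega
  · clear hx hx'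
    omega

theorem step_1 (S : Seam k ld al) (n : Num) (j : ℕ) (hm : S.mode = 1) (hP : 2 ≤ S.P)
    (hA : Adm S n (j + 1)) : StepOK S n (lay1 S n j) (lay1 S n (j + 1)) := by
  have hsp : n.sp ≠ 0 := by
    have := hA.sp14 (by omega) (by omega)
    omega
  have hU := hA.jU
  have hQh := S.Qh
  have hU0 : n.nT + j + (if 2 ≤ n.sp then 1 else 0) ≤ n.Ux := by omega
  -- the change of the base
  have hbad : ∀ i, ld i → S.bad (oe i) →
      bs S n (lay1 S n (j + 1)) i = bs S n (lay1 S n j) i + 1 := by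
    intro i hi hb
    have h1 := S.ld_pos i hi
    have h2 := S.ld_lt i hi
    have he := (S.diff' hi).mp hb
    have hr : S.rk (oe i) ≤ S.P := by
      have ho : oe i = i ∨ oe i = i + 1 := by
        unfold oe
        split_ifs <;> simp
      exact (S.rk_ob (oe i) (by omega) (by omega) oe_odd hb).2
    rw [bs_bg S n _ (l1_k2 S n _) h1 h2 hb he, bs_bg S n _ (l1_k2 S n _) h1 h2 hb he,
      l1_bad S n j hsp hU0 hr, l1_bad S n (j + 1) hsp hU hr]
    split_ifs <;> omega
  have hgood : ∀ i, ld i → ¬ S.bad (oe i) →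
      bs S n (lay1 S n j) i ≤ bs S n (lay1 S n (j + 1)) i + 1 ∧
      bs S n (lay1 S n (j + 1)) i ≤ bs S n (lay1 S n j) i + 1 := by
    intro i hi hb
    have h1 := S.ld_pos i hi
    have h2 := S.ld_lt i hi
    have he : S.bad (ee i) := by
      by_contra he
      exact hb ((S.diff' hi).mpr he)
    have hr : S.P + 1 ≤ S.rk (oe i) ∧ S.rk (oe i) ≤ S.h + 1 := by
      have ho : oe i = i ∨ oe i = i + 1 := by
        unfold oe
        split_ifs <;> simp
      exact S.rk_og (oe i) (by omega) (by omega) oe_odd hb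
    have h3 := l1_step S n j hsp hU hr.1 hr.2 rfl rfl
    rw [bs_gb S n _ (l1_k2 S n _) h1 h2 hb he, bs_gb S n _ (l1_k2 S n _) h1 h2 hb he]
    omega
  refine ⟨fun i a hi _ ha _ => ?_, fun a ha _ => ?_⟩
  · have hla := S.al_ld a ha
    by_cases hbi : S.bad (oe i) <;> by_cases hba : S.bad (oe a)
    · have h1 := hbad i hi hbi
      have h2 := hbad a hla hba
      omega
    · have h1 := hbad i hi hbi
      have h2 := hgood a hla hba
      omega
    · have h1 := hgood i hi hbi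
      have h2 := hbad a hla hba
      omega
    · have h1 := hgood i hi hbi
      have h2 := hgood a hla hba
      omega
  · have hla := S.al_ld a ha
    by_cases hba : S.bad (oe a)
    · have h2 := hbad a hla hba
      omega
    · have h2 := hgood a hla hba
      omega

end Pool.Agent.Lob5
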