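import Pool.Agent.Lob5.LowGen
import Pool.Agent.Lob5.LowGen2

/-!
# Consecutive layouts, mode 2 (K2)

`w`, `P`, `n2 + Ux` do not depend on `j`. Denote by `lab, lab'` the labels of an odd edge in the
layouts `j` and `j+1`; even edges do not change. So `bs' i - bs i = lab' - lab` of the odd edge of `i`.
It suffices to show: a good odd edge has `-1 ≤ lab' - lab ≤ 1`, a bad odd edge has `0 ≤ lab' - lab ≤ 2`,
and if some bad odd edge has `lab' - lab = 2` then no good odd edge has `lab' - lab = -1`.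
(`st2` is then clear.) Use `bs_bg`, `bs_gb` for loaded vertices.

`y(j)` is `w+1-P` or `w-P`; going from `j` to `j+1` it is constant or changes from `w+1-P` to `w-P`.
Good odd edges: `lab' - lab ∈ {0, 1}`. Bad odd edges: position +1, shift +0 or +1: `lab' - lab ∈ {1,2}`.
-/

namespace Pool.Agent.Lob5

variable {k : ℕ} {ld al : ℕ → Prop}

private theorem s2_wz (S : Seam k ld al) (n : Num) (j : ℕ) (hm : S.mode = 2)
    (hA : Adm S n (j + 1)) : n.nT + (j + 1) ≤ n.Ux ∧ wz S n = n.n2 + n.Ux + S.h + 2 := by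
  have h1 := hA.sp14 (by omega) (by omega)
  have h2 := hA.jU
  have h3 : n.sp ≠ 0 := by omega
  refine ⟨by split_ifs at h2 <;> omega, ?_⟩
  unfold wz
  rw [if_neg h3]

private theorem s2_lay (S : Seam k ld al) (n : Num) (j : ℕ) :
    (lay2 S n j).k2 = false ∧ (lay2 S n j).j = j ∧ (lay2 S n j).U = n.Ux - j ∧
      (lay2 S n j).y2 = wz S n + 2 ∧
      ((n.n2 + j + S.P < wz S n + 1 - S.P ∧ (lay2 S n j).y1 = wz S n + 1 - S.P) ∨
        (¬ n.n2 + j + S.P < wz S n + 1 - S.P ∧ (lay2 S n j).y1 = wz S n - S.P)) := by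
  refine ⟨rfl, rfl, rfl, rfl, ?_⟩
  by_cases h : n.n2 + j + S.P < wz S n + 1 - S.P
  · left
    refine ⟨h, ?_⟩
    unfold lay2
    rw [if_pos h]
    rfl
  · right
    refine ⟨h, ?_⟩
    unfold lay2
    rw [if_neg h]
    rfl

private theorem s2_lam {y1 y2 i : ℕ} (h : i + 1 < y2) :
    (y1 ≤ i ∧ lam y1 y2 i = i + 1) ∨ (i < y1 ∧ lam y1 y2 i = i) := by
  unfold lam
  rw [if_neg (by omega : ¬ y2 ≤ i + 1)]
  split_ifs <;> omega

theorem step_2 (S : Seam k ld al) (n : Num) (j : ℕ) (hm : S.mode = 2) (hP : 2 ≤ S.P)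
    (hA : Adm S n (j + 1)) : StepOK S n (lay2 S n j) (lay2 S n (j + 1)) := by
  obtain ⟨hU, hw⟩ := s2_wz S n j hm hA
  have hPh := S.Ph
  obtain ⟨k1, j1, u1, z1, a1⟩ := s2_lay S n j
  obtain ⟨k2, j2, u2, z2, a2⟩ := s2_lay S n (j + 1)
  -- the change of the base
  have hbad : ∀ i, ld i → S.bad (oe i) →
      bs S n (lay2 S n j) i + 1 ≤ bs S n (lay2 S n (j + 1)) i ∧
      bs S n (lay2 S n (j + 1)) i ≤ bs S n (lay2 S n j) i + 2 := by
    intro i hi hb
    have h1 := S.ld_pos i hi
    have h2 := S.ld_lt i hi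
    have he := (S.diff' hi).mp hb
    have ho : oe i = i ∨ oe i = i + 1 := by
      unfold oe
      split_ifs <;> simp
    have hr := (S.rk_ob (oe i) (by omega) (by omega) oe_odd hb).2
    rw [bs_bg S n _ k1 h1 h2 hb he, bs_bg S n _ k2 h1 h2 hb he, j1, j2]
    have l1 := s2_lam (y1 := (lay2 S n j).y1) (y2 := (lay2 S n j).y2)
      (i := n.n2 + j + S.rk (oe i)) (by omega)
    have l2 := s2_lam (y1 := (lay2 S n (j + 1)).y1) (y2 := (lay2 S n (j + 1)).y2)
      (i := n.n2 + (j + 1) + S.rk (oe i)) (by omega)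
    omega
  have hgood : ∀ i, ld i → ¬ S.bad (oe i) →
      bs S n (lay2 S n j) i ≤ bs S n (lay2 S n (j + 1)) i ∧
      bs S n (lay2 S n (j + 1)) i ≤ bs S n (lay2 S n j) i + 1 := by
    intro i hi hb
    have h1 := S.ld_pos i hi
    have h2 := S.ld_lt i hi
    have he : S.bad (ee i) := by
      by_contra he
      exact hb ((S.diff' hi).mpr he)
    have ho : oe i = i ∨ oe i = i + 1 := by
      unfold oe
      split_ifs <;> simp
    have hr := S.rk_og (oe i) (by omega) (by omega) oe_odd hb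
    rw [bs_gb S n _ k1 h1 h2 hb he, bs_gb S n _ k2 h1 h2 hb he, j1, j2, u1, u2]
    have l1 := s2_lam (y1 := (lay2 S n j).y1) (y2 := (lay2 S n j).y2)
      (i := n.n2 + j + (n.Ux - j) + S.rk (oe i)) (by omega)
    have l2 := s2_lam (y1 := (lay2 S n (j + 1)).y1) (y2 := (lay2 S n (j + 1)).y2)
      (i := n.n2 + (j + 1) + (n.Ux - (j + 1)) + S.rk (oe i)) (by omega)
    omega
  refine ⟨fun i a hi _ ha _ => ?_, fun a ha _ => ?_⟩
  · have hla := S.al_ld a ha
    by_cases hbi : S.bad (oe i) <;> by_cases hba : S.bad (oe a)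
    · have h1 := hbad i hi hbi
      have h2 := hbad a hla hba
      omega
    · have h1 := hbad i hi hbi
      have h2 := hgood a hla hba
      omega
    · have h1 := hgood i hi hbi
      have h2 := hbad a hla hba
      omega
    · have h1 := hgood i hi hbi
      have h2 := hgood a hla hba
      omega
  · have hla := S.al_ld a ha
    by_cases hba : S.bad (oe a)
    · have h2 := hbad a hla hba
      omega
    · have h2 := hgood a hla hba
      omega

end Pool.Agent.Lob5
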