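import Pool.Agent.Lob5.LowGen
import Pool.Agent.Lob5.LowGen2

/-!
# Consecutive layouts, mode 3 (K2ii)

`w`, `P`, `n2 + Ux` do not depend on `j`. Denote by `lab, lab'` the labels of an odd edge in the
layouts `j` and `j+1`; even edges do not change. So `bs' i - bs i = lab' - lab` of the odd edge of `i`.
It suffices to show: a good odd edge has `-1 ≤ lab' - lab ≤ 1`, a bad odd edge has `0 ≤ lab' - lab ≤ 2`,
and if some bad odd edge has `lab' - lab = 2` then no good odd edge has `lab' - lab = -1`.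
(`st2` is then clear.) Use `bs_bg`, `bs_gb` for loaded vertices.

Use the formulas `bs2_..`. Bad odd edges of rank `< P`: `lab' - lab = 1` (shift always exactly 1); the
edge `q+1`: constant `w`. Good odd edge of rank `r`, `s = n2+Ux+r`: one inserted label: `lab = s`;
two: `lab = s - 1 + [nT+h ≤ s - 1]`-like (`∈ {s-1, s}`, the second inserted label `nT+h` is constant).
If the layout `j+1` has two inserted labels then so has the layout `j`. So `lab' - lab ∈ {0,1}`.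
-/

namespace Pool.Agent.Lob5

variable {k : ℕ} {ld al : ℕ → Prop}

private theorem Step3_y (S : Seam k ld al) (n : Num) (j : ℕ) (hw : wz S n = n.n2 + n.Ux + S.h + 2) :
    (lay3 S n j).k2 = true ∧ (lay3 S n j).j = j ∧ (lay3 S n j).y1 = n.n2 + j + 1 ∧
      ((n.sp = 3 ∧ n.n2 + j + S.P + 1 < n.nT + S.h ∧ (lay3 S n j).y2 = n.nT + S.h ∧
          (lay3 S n j).U = n.Ux - 1 - j) ∨
        (¬ (n.sp = 3 ∧ n.n2 + j + S.P + 1 < n.nT + S.h) ∧
          (lay3 S n j).y2 = n.n2 + n.Ux + S.h + 4 ∧ (lay3 S n j).U = n.Ux - j)) := by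
  unfold lay3
  split_ifs with h
  · exact ⟨rfl, rfl, rfl, Or.inl ⟨h.1, h.2, rfl, rfl⟩⟩
  · refine ⟨rfl, rfl, rfl, Or.inr ⟨h, ?_, rfl⟩⟩
    show wz S n + 2 = _
    rw [hw]

private theorem Step3_lam (y1 y2 i : ℕ) :
    ((y1 ≤ i ∧ y2 ≤ i + 1 ∧ lam y1 y2 i = i + 2) ∨ (y1 ≤ i ∧ i + 1 < y2 ∧ lam y1 y2 i = i + 1)) ∨
      ((i < y1 ∧ y2 ≤ i + 1 ∧ lam y1 y2 i = i + 1) ∨ (i < y1 ∧ i + 1 < y2 ∧ lam y1 y2 i = i)) := by
  unfold lam
  split_ifs with h1 h2 h2 <;> omega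

theorem step_3 (S : Seam k ld al) (n : Num) (j : ℕ) (hm : S.mode = 3) (hP : 2 ≤ S.P)
    (hA : Adm S n (j + 1)) : StepOK S n (lay3 S n j) (lay3 S n (j + 1)) := by
  have hsp := hA.sp14 (by omega) (by omega)
  have hw : wz S n = n.n2 + n.Ux + S.h + 2 := by
    unfold wz
    rw [if_neg (show ¬ n.sp = 0 by omega)]
  have hjU := hA.jU
  have hjU' : n.nT + (j + 1) ≤ n.Ux ∧ (n.sp = 3 → n.nT + (j + 1) + 1 ≤ n.Ux) := by
    split_ifs at hjU <;> constructor <;> intros <;> omega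
  clear hjU
  have hn2 := hA.n2T
  have hPh := S.Ph
  obtain ⟨k1, j1, a1, b1⟩ := Step3_y S n j hw
  obtain ⟨k2, j2, a2, b2⟩ := Step3_y S n (j + 1) hw
  have key : ∀ i, ld i → bs S n (lay3 S n j) i ≤ bs S n (lay3 S n (j + 1)) i ∧
      bs S n (lay3 S n (j + 1)) i ≤ bs S n (lay3 S n j) i + 1 := by
    intro i hi
    have i1 := S.ld_pos i hi
    have i2 := S.ld_lt i hi
    have ho1 : 1 ≤ oe i ∧ oe i ≤ k := by
      unfold oe
      split_ifs <;> omega
    by_cases ho : S.bad (oe i)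
    · have he : ¬ S.bad (ee i) := (S.diff' hi).1 ho
      obtain ⟨r1, r2⟩ := S.rk_ob (oe i) ho1.1 ho1.2 oe_odd ho
      rcases Nat.lt_or_eq_of_le r2 with r3 | r3
      · rw [bs2_bg S n _ k1 i1 i2 ho r3 he, bs2_bg S n _ k2 i1 i2 ho r3 he, j1, j2, a1, a2]
        have l1 := Step3_lam (n.n2 + j + 1) (lay3 S n j).y2 (n.n2 + j + S.rk (oe i))
        have l2 := Step3_lam (n.n2 + (j + 1) + 1) (lay3 S n (j + 1)).y2
          (n.n2 + (j + 1) + S.rk (oe i))
        omega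
      · rw [bs2_Pg S n _ k1 i1 i2 r3 he, bs2_Pg S n _ k2 i1 i2 r3 he, j1, j2, a1, a2]
        have l1 := Step3_lam (n.n2 + j + 1) (lay3 S n j).y2
          (n.n2 + j + (lay3 S n j).U + S.h + 1)
        have l2 := Step3_lam (n.n2 + (j + 1) + 1) (lay3 S n (j + 1)).y2
          (n.n2 + (j + 1) + (lay3 S n (j + 1)).U + S.h + 1)
        omega
    · have he : S.bad (ee i) := by
        by_contra hcon
        exact ho ((S.diff' hi).2 hcon)
      obtain ⟨r1, r2⟩ := S.rk_og (oe i) ho1.1 ho1.2 oe_odd ho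
      rw [bs2_gb S n _ k1 i1 i2 ho he, bs2_gb S n _ k2 i1 i2 ho he, j1, j2, a1, a2]
      have l1 := Step3_lam (n.n2 + j + 1) (lay3 S n j).y2
        (n.n2 + j + (lay3 S n j).U + S.rk (oe i) - 1)
      have l2 := Step3_lam (n.n2 + (j + 1) + 1) (lay3 S n (j + 1)).y2
        (n.n2 + (j + 1) + (lay3 S n (j + 1)).U + S.rk (oe i) - 1)
      omega
  refine ⟨fun i a hi _ ha _ => ?_, fun a ha _ => ?_⟩
  · have h1 := key i hi
    have h2 := key a (S.al_ld a ha)
    omega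
  · have h2 := key a (S.al_ld a ha)
    omega

end Pool.Agent.Lob5
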