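import Pool.Agent.Lob5.LowGen
import Pool.Agent.Lob5.LowGen2

/-!
# Consecutive layouts, mode 4 (K3)

`w`, `P`, `n2 + Ux` do not depend on `j`. Denote by `lab, lab'` the labels of an odd edge in the
layouts `j` and `j+1`; even edges do not change. So `bs' i - bs i = lab' - lab` of the odd edge of `i`.
It suffices to show: a good odd edge has `-1 ≤ lab' - lab ≤ 1`, a bad odd edge has `0 ≤ lab' - lab ≤ 2`,
and if some bad odd edge has `lab' - lab = 2` then no good odd edge has `lab' - lab = -1`.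
(`st2` is then clear.) Use `bs_bg`, `bs_gb` for loaded vertices.

Bad odd edges are below all inserted labels: `lab' - lab = 1`. Good odd edge of rank `r`,
`s = n2+Ux+r`. `r* = n2+j+Q+2` grows by 1, `c = cutG r*` is monotone (`cutG_mono`).
* `h < r*(j)`: then the same for `j+1`; no shifts, `lab' = lab`.
* one -> one (or one -> `y = w`): `lab = s + [y ≤ s]` and `y` does not decrease: `lab' - lab ∈ {-1,0}`.
* two -> one: `lab = s - 1 + (number of inserted labels below)`, `lab' = s + [y' below]`, and `y' ≥ y`,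
  so `lab' - lab = 1 + [y' below] - number ∈ {-1,0,1}`.
* one -> two does not occur (`y` does not decrease, so the condition `y+P < nT+h` cannot become true).
* two -> two: the number of inserted labels below `s`-level changes by at most one: if `c` is the
  same then `y0` is the same, `T` grows by one, `{y, x}` changes from `{y0+1, T-y0}` (if `T ≤ 2y0`) or
  `{y0, T+1-y0}` (if `T > 2y0`) to the same with `T+1`: in each case at most one inserted label moves,
  by one or two steps (from `{y0+1, y0}` to `{y0, y0+2}`); if `c` grows by `d ≥ 1` then `y` grows and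
  `x` does not grow.
-/

namespace Pool.Agent.Lob5

variable {k : ℕ} {ld al : ℕ → Prop}

private lemma l4_k2 (S : Seam k ld al) (n : Num) (j : ℕ) : (lay4 S n j).k2 = false := by
  unfold lay4
  split_ifs <;> rfl

/-- bad odd labels -/
private lemma l4_bad (S : Seam k ld al) (n : Num) (j : ℕ) (hsp : n.sp ≠ 0)
    (hA : n.nT + j + (if 2 ≤ n.sp then 1 else 0) ≤ n.Ux) {r : ℕ} (hr : r ≤ S.P) :
    lam (lay4 S n j).y1 (lay4 S n j).y2 (n.n2 + (lay4 S n j).j + r) = n.n2 + j + r := by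
  have hPh := S.Ph
  have hw : wz S n = n.n2 + n.Ux + S.h + 2 := by simp only [wz, if_neg hsp]
  unfold lay4
  split_ifs with h1 h2 h3
  · simp only [layS, lam]
    rw [if_neg (by omega), if_neg (by omega)]
    omega
  · rw [if_pos (by omega)] at hA
    simp only [layD, lam]
    rw [if_neg (by omega), if_neg (by omega)]
    omega
  · rw [if_pos (by omega)] at hA
    simp only [layD, lam]
    rw [if_neg (by omega), if_neg (by omega)]
    omega
  · simp only [layS, lam]
    rw [if_neg (by omega), if_neg (by omega)]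
    omega

/-- good odd labels -/
private lemma l4_good (S : Seam k ld al) (n : Num) (j : ℕ) (hsp : n.sp ≠ 0)
    (hA : n.nT + j + (if 2 ≤ n.sp then 1 else 0) ≤ n.Ux) {r c L : ℕ} (hr : 1 ≤ r)
    (hr2 : r ≤ S.h + 1) (hc : c = S.cutG (n.n2 + j + S.Q + 2))
    (hL : L = lam (lay4 S n j).y1 (lay4 S n j).y2
      (n.n2 + (lay4 S n j).j + (lay4 S n j).U + r)) :
    ∃ δ1 δ2 : ℕ,
    ((S.P + c + 1 ≤ r ∧ δ1 = 1) ∨ (r < S.P + c + 1 ∧ δ1 = 0)) ∧
    ((n.nT + S.h + n.n2 + j + 1 ≤ n.n2 + n.Ux + r + (n.n2 + n.Ux + S.P + c) ∧ δ2 = 1) ∨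
      (n.n2 + n.Ux + r + (n.n2 + n.Ux + S.P + c) < n.nT + S.h + n.n2 + j + 1 ∧ δ2 = 0)) ∧
    ((S.h < n.n2 + j + S.Q + 2 ∧ L = n.n2 + n.Ux + r) ∨
    (n.n2 + j + S.Q + 2 ≤ S.h ∧
      (n.sp ≠ 3 ∨ n.nT + S.h ≤ n.n2 + n.Ux + S.P + c + 1 + S.P) ∧
      L = n.n2 + n.Ux + r + δ1) ∨
    (n.n2 + j + S.Q + 2 ≤ S.h ∧
      (n.sp = 3 ∧ n.n2 + n.Ux + S.P + c + 1 + S.P < n.nT + S.h) ∧
      L + 1 = n.n2 + n.Ux + r + δ1 + δ2)) := by
  have hPh := S.Ph
  have hw : wz S n = n.n2 + n.Ux + S.h + 2 := by simp only [wz, if_neg hsp]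
  refine ⟨if S.P + c + 1 ≤ r then 1 else 0,
    if n.nT + S.h + n.n2 + j + 1 ≤ n.n2 + n.Ux + r + (n.n2 + n.Ux + S.P + c) then 1 else 0,
    ?_, ?_, ?_⟩
  · by_cases h : S.P + c + 1 ≤ r
    · exact Or.inl ⟨h, if_pos h⟩
    · exact Or.inr ⟨by omega, if_neg h⟩
  · by_cases h : n.nT + S.h + n.n2 + j + 1 ≤ n.n2 + n.Ux + r + (n.n2 + n.Ux + S.P + c)
    · exact Or.inl ⟨h, if_pos h⟩
    · exact Or.inr ⟨by omega, if_neg h⟩
  by_cases h1 : S.h < n.n2 + j + S.Q + 2
  · left
    refine ⟨h1, ?_⟩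
    rw [hL, lay4, if_pos h1]
    simp only [layS, lam]
    rw [if_neg (by omega), if_neg (by omega)]
    omega
  · right
    by_cases h2 : n.sp = 3 ∧ n.n2 + n.Ux + S.P + c + 1 + S.P < n.nT + S.h
    · right
      refine ⟨by omega, h2, ?_⟩
      subst hc
      rw [if_pos (by omega)] at hA
      have e1 : n.n2 + j + (n.Ux - 1 - j) + r = n.n2 + n.Ux + r - 1 := by omega
      by_cases h3 : n.nT + S.h + n.n2 + j ≤
          2 * (n.n2 + n.Ux + S.P + S.cutG (n.n2 + j + S.Q + 2))
      · have e2 : lay4 S n j = layD n j (n.n2 + n.Ux + S.P + S.cutG (n.n2 + j + S.Q + 2) + 1)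
            (n.nT + S.h + n.n2 + j - (n.n2 + n.Ux + S.P + S.cutG (n.n2 + j + S.Q + 2))) := by
          rw [lay4, if_neg h1, if_pos h2, if_pos h3]
        rw [hL, e2]
        simp only [layD, lam, e1]
        split_ifs <;> omega
      · have e2 : lay4 S n j = layD n j (n.n2 + n.Ux + S.P + S.cutG (n.n2 + j + S.Q + 2))
            (n.nT + S.h + n.n2 + j + 1 -
              (n.n2 + n.Ux + S.P + S.cutG (n.n2 + j + S.Q + 2))) := by
          rw [lay4, if_neg h1, if_pos h2, if_neg h3]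
        rw [hL, e2]
        simp only [layD, lam, e1]
        split_ifs <;> omega
    · left
      refine ⟨by omega, by omega, ?_⟩
      subst hc
      have e1 : n.n2 + j + (n.Ux - j) + r = n.n2 + n.Ux + r := by omega
      have e2 : lay4 S n j =
          layS S n j (n.n2 + n.Ux + S.P + S.cutG (n.n2 + j + S.Q + 2) + 1) := by
        rw [lay4, if_neg h1, if_neg h2]
      rw [hL, e2]
      simp only [layS, lam, e1]
      split_ifs <;> omega

private lemma l4_step (S : Seam k ld al) (n : Num) (j : ℕ) (hsp : n.sp ≠ 0)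
    (hA : n.nT + (j + 1) + (if 2 ≤ n.sp then 1 else 0) ≤ n.Ux) {r L L' : ℕ} (hr : 1 ≤ r)
    (hr2 : r ≤ S.h + 1)
    (hL : L = lam (lay4 S n j).y1 (lay4 S n j).y2
      (n.n2 + (lay4 S n j).j + (lay4 S n j).U + r))
    (hL' : L' = lam (lay4 S n (j + 1)).y1 (lay4 S n (j + 1)).y2
      (n.n2 + (lay4 S n (j + 1)).j + (lay4 S n (j + 1)).U + r)) :
    L ≤ L' + 1 ∧ L' ≤ L + 1 := by
  have hA0 : n.nT + j + (if 2 ≤ n.sp then 1 else 0) ≤ n.Ux := by omega
  have hc : S.cutG (n.n2 + j + S.Q + 2) ≤ S.cutG (n.n2 + (j + 1) + S.Q + 2) := by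
    have := S.cutG_mono (n.n2 + j + S.Q + 2)
    rwa [show n.n2 + j + S.Q + 2 + 1 = n.n2 + (j + 1) + S.Q + 2 by ring] at this
  generalize hc1 : S.cutG (n.n2 + j + S.Q + 2) = c at hc
  generalize hc2 : S.cutG (n.n2 + (j + 1) + S.Q + 2) = c' at hc
  obtain ⟨δ1, δ2, h1, h2, h3⟩ := l4_good S n j hsp hA0 hr hr2 hc1.symm hL
  obtain ⟨ε1, ε2, h4, h5, h6⟩ := l4_good S n (j + 1) hsp hA hr hr2 hc2.symm hL'
  clear hL hL' hc1 hc2 hA hA0
  rcases h3 with h3 | h3 | h3 <;> rcases h6 with h6 | h6 | h6 <;> omega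

theorem step_4 (S : Seam k ld al) (n : Num) (j : ℕ) (hm : S.mode = 4) (hP : 2 ≤ S.P)
    (hA : Adm S n (j + 1)) : StepOK S n (lay4 S n j) (lay4 S n (j + 1)) := by
  have hsp : n.sp ≠ 0 := by
    have := hA.sp14 (by omega) (by omega)
    omega
  have hU := hA.jU
  have hU0 : n.nT + j + (if 2 ≤ n.sp then 1 else 0) ≤ n.Ux := by omega
  -- the change of the base
  have hbad : ∀ i, ld i → S.bad (oe i) →
      bs S n (lay4 S n (j + 1)) i = bs S n (lay4 S n j) i + 1 := by
    intro i hi hb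
    have h1 := S.ld_pos i hi
    have h2 := S.ld_lt i hi
    have he := (S.diff' hi).mp hb
    have hr : S.rk (oe i) ≤ S.P := by
      have ho : oe i = i ∨ oe i = i + 1 := by
        unfold oe
        split_ifs <;> simp
      exact (S.rk_ob (oe i) (by omega) (by omega) oe_odd hb).2
    rw [bs_bg S n _ (l4_k2 S n _) h1 h2 hb he, bs_bg S n _ (l4_k2 S n _) h1 h2 hb he,
      l4_bad S n j hsp hU0 hr, l4_bad S n (j + 1) hsp hU hr]
    omega
  have hgood : ∀ i, ld i → ¬ S.bad (oe i) →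
      bs S n (lay4 S n j) i ≤ bs S n (lay4 S n (j + 1)) i + 1 ∧
      bs S n (lay4 S n (j + 1)) i ≤ bs S n (lay4 S n j) i + 1 := by
    intro i hi hb
    have h1 := S.ld_pos i hi
    have h2 := S.ld_lt i hi
    have he : S.bad (ee i) := by
      by_contra he
      exact hb ((S.diff' hi).mpr he)
    have hr : S.P + 1 ≤ S.rk (oe i) ∧ S.rk (oe i) ≤ S.h + 1 := by
      have ho : oe i = i ∨ oe i = i + 1 := by
        unfold oe
        split_ifs <;> simp
      exact S.rk_og (oe i) (by omega) (by omega) oe_odd hb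
    have h3 := l4_step S n j hsp hU (by omega) hr.2 rfl rfl
    rw [bs_gb S n _ (l4_k2 S n _) h1 h2 hb he, bs_gb S n _ (l4_k2 S n _) h1 h2 hb he]
    omega
  refine ⟨fun i a hi _ ha _ => ?_, fun a ha _ => ?_⟩
  · have hla := S.al_ld a ha
    by_cases hbi : S.bad (oe i) <;> by_cases hba : S.bad (oe a)
    · have h1 := hbad i hi hbi
      have h2 := hbad a hla hba
      omega
    · have h1 := hbad i hi hbi
      have h2 := hgood a hla hba
      omega
    · have h1 := hgood i hi hbi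
      have h2 := hbad a hla hba
      omega
    · have h1 := hgood i hi hbi
      have h2 := hgood a hla hba
      omega
  · have hla := S.al_ld a ha
    by_cases hba : S.bad (oe a)
    · have h2 := hbad a hla hba
      omega
    · have h2 := hgood a hla hba
      omega

end Pool.Agent.Lob5
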