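import Pool.Agent.Lob5.LowGen
import Pool.Agent.Lob5.LowGen2

/-!
# Consecutive layouts, mode 5 (K4), `sp = 1`

`w`, `P`, `n2 + Ux` do not depend on `j`. Denote by `lab, lab'` the labels of an odd edge in the
layouts `j` and `j+1`; even edges do not change. So `bs' i - bs i = lab' - lab` of the odd edge of `i`.
It suffices to show: a good odd edge has `-1 ≤ lab' - lab ≤ 1`, a bad odd edge has `0 ≤ lab' - lab ≤ 2`,
and if some bad odd edge has `lab' - lab = 2` then no good odd edge has `lab' - lab = -1`.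
(`st2` is then clear.) Use `bs_bg`, `bs_gb` for loaded vertices.

`v` and `w` do not depend on `j`, so the case of `lay5` is the same for `j` and `j+1`.
* `v+1 ≤ Q`: `y` moves up by 1 with the bad odd edges (`lab' - lab = 1`), the good ones are above `y`
  in both layouts (`lab' = lab`).
* `layLg`: no inserted labels. * `Q+nT < v ≤ nT+h`: `y` is constant and above the bad odd edges.
* `v > nT+h`: `t` grows by 0 or 1; `y` is constant, or grows by 1, or (when `y' ` passes `v`) by 2.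
  Good odd edges `lab' - lab ∈ {-1,0}` (and `0` if `y` is constant); bad odd edges: `y` constant:
  `lab' - lab ∈ {1,2}`; `y` grows: `lab' - lab ∈ {0,1}`.
-/

namespace Pool.Agent.Lob5

variable {k : ℕ} {ld al : ℕ → Prop}

private theorem s5_lab (w c y r : ℕ) (h : c + r < w) :
    lam y (w + 2) (c + r) = c + r + (if y ≤ c + r then 1 else 0) := by
  unfold lam
  split_ifs <;> omega

/-- The labels of the odd edges in the layouts `j` and `j + 1`. -/
private theorem s5_key (S : Seam k ld al) (n : Num) (j : ℕ) (hs : n.sp = 1)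
    (hA : Adm S n (j + 1)) :
    (lay5 S n j).k2 = false ∧ (lay5 S n j).j = j ∧
    (∀ r r', r ≤ S.P →
      lam (lay5 S n j).y1 (lay5 S n j).y2 (n.n2 + j + r) ≤
        lam (lay5 S n (j + 1)).y1 (lay5 S n (j + 1)).y2 (n.n2 + (j + 1) + r) ∧
      lam (lay5 S n (j + 1)).y1 (lay5 S n (j + 1)).y2 (n.n2 + (j + 1) + r) ≤
        lam (lay5 S n j).y1 (lay5 S n j).y2 (n.n2 + j + r) + 2 ∧
      (S.P + 1 ≤ r' → r' ≤ S.h + 1 →
      lam (lay5 S n (j + 1)).y1 (lay5 S n (j + 1)).y2
          (n.n2 + (j + 1) + (lay5 S n (j + 1)).U + r') ≤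
        lam (lay5 S n j).y1 (lay5 S n j).y2 (n.n2 + j + (lay5 S n j).U + r') ∧
      lam (lay5 S n j).y1 (lay5 S n j).y2 (n.n2 + j + (lay5 S n j).U + r') ≤
        lam (lay5 S n (j + 1)).y1 (lay5 S n (j + 1)).y2
          (n.n2 + (j + 1) + (lay5 S n (j + 1)).U + r') + 1 ∧
      lam (lay5 S n (j + 1)).y1 (lay5 S n (j + 1)).y2 (n.n2 + (j + 1) + r) +
          lam (lay5 S n j).y1 (lay5 S n j).y2 (n.n2 + j + (lay5 S n j).U + r') ≤
        lam (lay5 S n j).y1 (lay5 S n j).y2 (n.n2 + j + r) +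
          lam (lay5 S n (j + 1)).y1 (lay5 S n (j + 1)).y2
            (n.n2 + (j + 1) + (lay5 S n (j + 1)).U + r') + 2)) := by
  have hU := hA.jU
  have hPh := S.Ph
  have hQh := S.Qh
  have hw : wz S n = n.n2 + n.Ux + S.h + 2 := by
    unfold wz
    rw [if_neg (by omega)]
  have hU1 : n.Ux - j = n.Ux - (j + 1) + 1 := by
    rw [if_neg (by omega)] at hU
    omega
  have hjU : j + 1 ≤ n.Ux := by omega
  by_cases c1 : n.n2 + n.Ux + S.P + 2 + 1 ≤ S.Q
  · have hB := S.cutB_le (n.n2 + n.Ux + S.P + 2 + 1)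
    have e : ∀ j, lay5 S n j =
        layS S n j (n.n2 + j + S.cutB (n.n2 + n.Ux + S.P + 2 + 1) + 1) := by
      intro j
      unfold lay5
      simp only
      rw [if_pos c1]
    rw [e j, e (j + 1)]
    refine ⟨rfl, rfl, ?_⟩
    intro r r' hr
    simp only [layS]
    unfold lam
    refine ⟨?_, ?_, fun hr1 hr2 => ?_⟩
    · split_ifs <;> omega
    · split_ifs <;> omega
    · split_ifs <;> omega
  by_cases c2 : n.n2 + n.Ux + S.P + 2 ≤ S.Q + n.nT
  · have e : ∀ j, lay5 S n j = layLg S n j := by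
      intro j
      unfold lay5
      simp only
      rw [if_neg c1, if_pos c2]
    rw [e j, e (j + 1)]
    refine ⟨rfl, rfl, ?_⟩
    intro r r' hr
    simp only [layLg]
    unfold lam
    refine ⟨?_, ?_, fun hr1 hr2 => ?_⟩
    · split_ifs <;> omega
    · split_ifs <;> omega
    · split_ifs <;> omega
  by_cases c3 : n.n2 + n.Ux + S.P + 2 ≤ n.nT + S.h
  · have e : ∀ j, lay5 S n j = layS S n j
        (n.n2 + n.Ux + S.P + S.cutG (n.n2 + n.Ux + S.P + 2 - n.nT) + 1) := by
      intro j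
      unfold lay5
      simp only
      rw [if_neg c1, if_neg c2, if_pos c3]
    rw [e j, e (j + 1)]
    refine ⟨rfl, rfl, ?_⟩
    intro r r' hr
    simp only [layS]
    unfold lam
    refine ⟨?_, ?_, fun hr1 hr2 => ?_⟩
    · split_ifs <;> omega
    · split_ifs <;> omega
    · split_ifs <;> omega
  · have e : ∀ j, ∃ y, lay5 S n j = layS S n j y ∧
        y = if n.n2 + n.Ux + S.P + 2 ≤ wz S n + min (n.n2 + n.Ux + S.P + 2 - n.nT - S.h)
            (n.n2 + j + 1) - (n.n2 + n.Ux + S.P + 2 - n.nT - S.h) then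
          wz S n + min (n.n2 + n.Ux + S.P + 2 - n.nT - S.h)
            (n.n2 + j + 1) - (n.n2 + n.Ux + S.P + 2 - n.nT - S.h)
        else wz S n + min (n.n2 + n.Ux + S.P + 2 - n.nT - S.h)
            (n.n2 + j + 1) - (n.n2 + n.Ux + S.P + 2 - n.nT - S.h) - 1 := by
      intro j
      refine ⟨_, ?_, rfl⟩
      unfold lay5
      simp only
      rw [if_neg c1, if_neg c2, if_neg c3]
    obtain ⟨y, e1, hy⟩ := e j
    obtain ⟨y', e2, hy'⟩ := e (j + 1)
    have hyy : y' = y ∨ y' = y + 1 ∨ y' = y + 2 := by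
      rw [hy, hy']
      split_ifs <;> omega
    clear hy hy'
    rw [e1, e2]
    refine ⟨rfl, rfl, ?_⟩
    intro r r' hr
    simp only [layS]
    have f1 : n.n2 + (j + 1) + (n.Ux - (j + 1)) + r' = n.n2 + n.Ux + r' := by omega
    have f2 : n.n2 + j + (n.Ux - j) + r' = n.n2 + n.Ux + r' := by omega
    rw [f1, f2, s5_lab (wz S n) (n.n2 + j) y r (by omega),
      s5_lab (wz S n) (n.n2 + (j + 1)) y' r (by omega)]
    refine ⟨?_, ?_, fun hr1 hr2 => ?_⟩
    · split_ifs <;> omega
    · split_ifs <;> omega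
    · rw [s5_lab (wz S n) (n.n2 + n.Ux) y r' (by omega),
        s5_lab (wz S n) (n.n2 + n.Ux) y' r' (by omega)]
      split_ifs <;> omega

theorem step_5 (S : Seam k ld al) (n : Num) (j : ℕ) (hm : S.mode = 5) (hs : n.sp = 1)
    (hP : 2 ≤ S.P) (hA : Adm S n (j + 1)) :
    StepOK S n (lay5 S n j) (lay5 S n (j + 1)) := by
  have _ := hm
  have _ := hP
  obtain ⟨k1, j1, key⟩ := s5_key S n j hs hA
  have hk2 : (lay5 S n (j + 1)).k2 = false := by
    unfold lay5
    simp only
    split_ifs <;> rfl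
  have hj2 : (lay5 S n (j + 1)).j = j + 1 := by
    unfold lay5
    simp only
    split_ifs <;> rfl
  have hh1 := S.h1
  -- bad and good odd edges
  have hor : ∀ i, ld i →
      (∃ r b, r ≤ S.P ∧
        bs S n (lay5 S n j) i =
          b + lam (lay5 S n j).y1 (lay5 S n j).y2 (n.n2 + j + r) ∧
        bs S n (lay5 S n (j + 1)) i =
          b + lam (lay5 S n (j + 1)).y1 (lay5 S n (j + 1)).y2 (n.n2 + (j + 1) + r)) ∨
      (∃ r b, S.P + 1 ≤ r ∧ r ≤ S.h + 1 ∧
        bs S n (lay5 S n j) i =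
          b + lam (lay5 S n j).y1 (lay5 S n j).y2 (n.n2 + j + (lay5 S n j).U + r) ∧
        bs S n (lay5 S n (j + 1)) i =
          b + lam (lay5 S n (j + 1)).y1 (lay5 S n (j + 1)).y2
            (n.n2 + (j + 1) + (lay5 S n (j + 1)).U + r)) := by
    intro i hi
    have hi1 := S.ld_pos i hi
    have hi2 := S.ld_lt i hi
    have hd := S.diff' hi
    have ho1 : 1 ≤ oe i := by
      unfold oe
      split_ifs <;> omega
    have ho2 : oe i ≤ k := by
      unfold oe
      split_ifs <;> omega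
    by_cases hb : S.bad (oe i)
    · left
      have hr := S.rk_ob (oe i) ho1 ho2 oe_odd hb
      refine ⟨S.rk (oe i), wz S n + n.N0 + n.nT + S.rk (ee i), hr.2, ?_, ?_⟩
      · rw [bs_bg S n _ k1 hi1 hi2 hb (hd.1 hb), j1]
        ring
      · rw [bs_bg S n _ hk2 hi1 hi2 hb (hd.1 hb), hj2]
        ring
    · right
      have hr := S.rk_og (oe i) ho1 ho2 oe_odd hb
      have he : S.bad (ee i) := by
        by_contra hc
        exact hb (hd.2 hc)
      refine ⟨S.rk (oe i), wz S n + n.N0 + S.rk (ee i), hr.1, hr.2, ?_, ?_⟩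
      · rw [bs_gb S n _ k1 hi1 hi2 hb he, j1]
        ring
      · rw [bs_gb S n _ hk2 hi1 hi2 hb he, hj2]
        ring
  refine ⟨?_, ?_⟩
  · intro i a hi _ ha _
    rcases hor i hi with ⟨r, b, h1, h2, h3⟩ | ⟨r, b, h1, h1', h2, h3⟩ <;>
    rcases hor a (S.al_ld a ha) with ⟨s, c, g1, g2, g3⟩ | ⟨s, c, g1, g1', g2, g3⟩
    · rw [h2, h3, g2, g3]
      have e1 := key r 0 h1
      have e2 := key s 0 g1
      omega
    · rw [h2, h3, g2, g3]
      obtain ⟨e1, e2, e3⟩ := key r s h1
      have e4 := e3 g1 g1'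
      omega
    · rw [h2, h3, g2, g3]
      obtain ⟨e1, e2, e3⟩ := key s r g1
      have e4 := e3 h1 h1'
      omega
    · rw [h2, h3, g2, g3]
      have e1 := (key 0 r (Nat.zero_le _)).2.2 h1 h1'
      have e2 := (key 0 s (Nat.zero_le _)).2.2 g1 g1'
      omega
  · intro a ha _
    rcases hor a (S.al_ld a ha) with ⟨s, c, g1, g2, g3⟩ | ⟨s, c, g1, g1', g2, g3⟩
    · rw [g2, g3]
      have e1 := key s 0 g1
      omega
    · rw [g2, g3]
      have e1 := (key 0 s (Nat.zero_le _)).2.2 g1 g1'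
      omega

end Pool.Agent.Lob5
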