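import Pool.Agent.Lob5.LowGen
import Pool.Agent.Lob5.LowGen2

/-!
# Consecutive layouts, no special vertex

`w`, `P`, `n2 + Ux` do not depend on `j`. Denote by `lab, lab'` the labels of an odd edge in the
layouts `j` and `j+1`; even edges do not change. So `bs' i - bs i = lab' - lab` of the odd edge of `i`.
It suffices to show: a good odd edge has `-1 ≤ lab' - lab ≤ 1`, a bad odd edge has `0 ≤ lab' - lab ≤ 2`,
and if some bad odd edge has `lab' - lab = 2` then no good odd edge has `lab' - lab = -1`.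
(`st2` is then clear.) Use `bs_bg`, `bs_gb` for loaded vertices.

Here the bad odd edges move up by exactly 1 (`n2+j+rk`), the good ones stay (`n2+j+U+rk = n2+Ux+rk`).
-/

namespace Pool.Agent.Lob5

variable {k : ℕ} {ld al : ℕ → Prop}

private theorem oe_range {i : ℕ} (h1 : 1 ≤ i) (h2 : i < k) : 1 ≤ oe i ∧ oe i ≤ k := by
  unfold oe
  split_ifs <;> omega

private theorem rk_oe_bad (S : Seam k ld al) {i : ℕ} (h1 : 1 ≤ i) (h2 : i < k)
    (hb : S.bad (oe i)) : S.rk (oe i) ≤ S.P :=
  (S.rk_ob (oe i) (oe_range h1 h2).1 (oe_range h1 h2).2 oe_odd hb).2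

private theorem rk_oe_good (S : Seam k ld al) {i : ℕ} (h1 : 1 ≤ i) (h2 : i < k)
    (hb : ¬ S.bad (oe i)) : S.rk (oe i) ≤ S.h + 1 :=
  (S.rk_og (oe i) (oe_range h1 h2).1 (oe_range h1 h2).2 oe_odd hb).2

private theorem lam_none {w i : ℕ} (h : i ≤ w) : lam (w + 1) (w + 2) i = i := by
  unfold lam
  rw [if_neg (by omega), if_neg (by omega), add_zero, add_zero]

open Classical in
private theorem bs_none (S : Seam k ld al) (n : Num) (j : ℕ) (hs : n.sp = 0)
    (hj : j ≤ n.Ux) {i : ℕ} (hi : ld i) :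
    bs S n (layNone S n j) i = if S.bad (oe i) then
      wz S n + n.N0 + n.nT + (n.n2 + j + S.rk (oe i)) + S.rk (ee i)
    else wz S n + n.N0 + (n.n2 + n.Ux + S.rk (oe i)) + S.rk (ee i) := by
  have hw : wz S n = n.n2 + n.Ux + S.h + 1 := by
    unfold wz
    rw [if_pos hs]
  have h1 := S.ld_pos i hi
  have h2 := S.ld_lt i hi
  have hP := S.Ph
  by_cases hb : S.bad (oe i)
  · rw [if_pos hb]
    have he : ¬ S.bad (ee i) := (S.diff' hi).1 hb
    have hr := rk_oe_bad S h1 h2 hb
    have h := bs_bg S n (layNone S n j) rfl h1 h2 hb he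
    have hl : lam (layNone S n j).y1 (layNone S n j).y2 (n.n2 + (layNone S n j).j + S.rk (oe i))
        = n.n2 + j + S.rk (oe i) :=
      lam_none (w := wz S n) (i := n.n2 + j + S.rk (oe i)) (by omega)
    rw [h, hl]
  · rw [if_neg hb]
    have he : S.bad (ee i) := by
      by_contra hne
      exact hb ((S.diff' hi).2 hne)
    have hr := rk_oe_good S h1 h2 hb
    have h := bs_gb S n (layNone S n j) rfl h1 h2 hb he
    have hl : lam (layNone S n j).y1 (layNone S n j).y2
        (n.n2 + (layNone S n j).j + (layNone S n j).U + S.rk (oe i))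
        = n.n2 + n.Ux + S.rk (oe i) := by
      have hu : n.n2 + (layNone S n j).j + (layNone S n j).U + S.rk (oe i) =
          n.n2 + n.Ux + S.rk (oe i) := by
        show n.n2 + j + (n.Ux - j) + S.rk (oe i) = n.n2 + n.Ux + S.rk (oe i)
        omega
      rw [hu]
      exact lam_none (w := wz S n) (i := n.n2 + n.Ux + S.rk (oe i)) (by omega)
    rw [h, hl]

private theorem bs_step (S : Seam k ld al) (n : Num) (j : ℕ) (hs : n.sp = 0)
    (hj : j + 1 ≤ n.Ux) {i : ℕ} (hi : ld i) :
    bs S n (layNone S n j) i ≤ bs S n (layNone S n (j + 1)) i ∧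
      bs S n (layNone S n (j + 1)) i ≤ bs S n (layNone S n j) i + 1 := by
  rw [bs_none S n j hs (by omega) hi, bs_none S n (j + 1) hs hj hi]
  split_ifs <;> omega

theorem step_none (S : Seam k ld al) (n : Num) (j : ℕ) (hs : n.sp = 0) (hA : Adm S n (j + 1)) :
    StepOK S n (layNone S n j) (layNone S n (j + 1)) := by
  have hj : j + 1 ≤ n.Ux := by
    have h := hA.jU
    omega
  refine ⟨fun i a hi _ ha _ => ?_, fun a ha _ => ?_⟩
  · have h1 := bs_step S n j hs hj hi
    have h2 := bs_step S n j hs hj (S.al_ld a ha)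
    omega
  · have h2 := bs_step S n j hs hj (S.al_ld a ha)
    omega

end Pool.Agent.Lob5
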