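import Pool.Agent.Lob5.ModN
import Pool.Agent.Lob5.Mod1
import Pool.Agent.Lob5.Mod2
import Pool.Agent.Lob5.Mod3
import Pool.Agent.Lob5.Mod4
import Pool.Agent.Lob5.Mod5
import Pool.Agent.Lob5.StepN
import Pool.Agent.Lob5.Step1
import Pool.Agent.Lob5.Step2
import Pool.Agent.Lob5.Step3
import Pool.Agent.Lob5.Step4
import Pool.Agent.Lob5.Step5

/-!
# All layouts together (case distinction in `layOf`, `Adm`)
-/

namespace Pool.Agent.Lob5

variable {k : ℕ} {ld al : ℕ → Prop}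

private theorem cases_lay (S : Seam k ld al) (n : Num) (i : ℕ) (hA : Adm S n i) :
    (n.sp = 0 ∧ ∀ j, layOf S n j = layNone S n j) ∨
      (S.mode = 1 ∧ ∀ j, layOf S n j = lay1 S n j) ∨
      (S.mode = 2 ∧ ∀ j, layOf S n j = lay2 S n j) ∨
      (S.mode = 3 ∧ ∀ j, layOf S n j = lay3 S n j) ∨
      (S.mode = 4 ∧ ∀ j, layOf S n j = lay4 S n j) ∨
      (S.mode = 5 ∧ n.sp = 1 ∧ ∀ j, layOf S n j = lay5 S n j) := by
  by_cases h0 : n.sp = 0
  · exact Or.inl ⟨h0, fun j => by simp [layOf, h0]⟩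
  by_cases h1 : S.mode = 1
  · exact Or.inr (Or.inl ⟨h1, fun j => by simp [layOf, h0, h1]⟩)
  by_cases h2 : S.mode = 2
  · exact Or.inr (Or.inr (Or.inl ⟨h2, fun j => by simp [layOf, h0, h2]⟩))
  by_cases h3 : S.mode = 3
  · exact Or.inr (Or.inr (Or.inr (Or.inl ⟨h3, fun j => by simp [layOf, h0, h3]⟩)))
  by_cases h4 : S.mode = 4
  · exact Or.inr (Or.inr (Or.inr (Or.inr (Or.inl ⟨h4, fun j => by simp [layOf, h0, h4]⟩))))
  have hm0 : S.mode ≠ 0 := fun h => h0 (hA.sp0 h)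
  have h5 : S.mode = 5 := by
    have := S.mode_le
    omega
  have hs := hA.sp5 h5
  exact Or.inr (Or.inr (Or.inr (Or.inr (Or.inr ⟨h5, by omega, fun j => by
    simp [layOf, h0, h5]⟩))))

theorem low_all (S : Seam k ld al) (n : Num) (j : ℕ) (hA : Adm S n j) :
    LowOK S n (layOf S n j) := by
  rcases cases_lay S n j hA with
    ⟨h, e⟩ | ⟨h, e⟩ | ⟨h, e⟩ | ⟨h, e⟩ | ⟨h, e⟩ | ⟨h, hs, e⟩ <;> rw [e]
  · exact low_none S n j h hA
  · exact low_1 S n j h hA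
  · exact low_2 S n j h hA
  · exact low_3 S n j h hA
  · exact low_4 S n j h hA
  · exact low_5 S n j h hs hA

theorem mod_all (S : Seam k ld al) (n : Num) (j : ℕ) (hA : Adm S n j) :
    ModOK S n (layOf S n j) := by
  rcases cases_lay S n j hA with
    ⟨h, e⟩ | ⟨h, e⟩ | ⟨h, e⟩ | ⟨h, e⟩ | ⟨h, e⟩ | ⟨h, hs, e⟩ <;> rw [e]
  · exact mod_none S n j h hA
  · exact mod_1 S n j h hA
  · exact mod_2 S n j h hA
  · exact mod_3 S n j h hA
  · exact mod_4 S n j h hA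
  · exact mod_5 S n j h hs hA

theorem step_all (S : Seam k ld al) (n : Num) (j : ℕ) (hP : 2 ≤ S.P)
    (hA : Adm S n (j + 1)) : StepOK S n (layOf S n j) (layOf S n (j + 1)) := by
  rcases cases_lay S n (j + 1) hA with
    ⟨h, e⟩ | ⟨h, e⟩ | ⟨h, e⟩ | ⟨h, e⟩ | ⟨h, e⟩ | ⟨h, hs, e⟩ <;> rw [e, e]
  · exact step_none S n j h hA
  · exact step_1 S n j h hP hA
  · exact step_2 S n j h hP hA
  · exact step_3 S n j h hP hA
  · exact step_4 S n j h hP hA
  · exact step_5 S n j h hs hP hA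

end Pool.Agent.Lob5
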