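import Pool.Agent.Lob5.Seam

/-!
# The labels of the path and of the low zone

Numbers: `n2` = number of bushes with two leaves, `nT` = number of tops in the `T` zone, `N0` = size
of the middle zone, `Ux` = number of leaves that need an `X` label, `sp` = kind of the special
vertex (0 none, 1 an `A`, 2 an `F1` with at least 4 leaves in its bush, 3 an `F1` with 3 leaves).

Zones: low `[1, w]`, middle `[w+1, w+N0]`, then `w+N0+1, ..., m = w+N0+nT+h`: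
bad even edges `w+N0+r` (`r ≤ Q`), tops `w+N0+Q+t` (`1 ≤ t ≤ nT`), good even edges `w+N0+nT+r`.
In the low zone at most two labels `y1 < y2` are inserted; `lam y1 y2 i` is the `i`-th element of
the complement of `{y1, y2}` (absent labels are `w+1`, `w+2`). Order of the remaining low labels:
`X0` (`n2` labels), `Xb` (`j` labels), bad odd edges (`P`), `X` (`U` labels), good odd edges.
If `k2`: the bad odd edge of rank `P` (it is the edge `q+1`) is moved to the top of the low zone.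
-/

namespace Pool.Agent.Lob5

/-- the `i`-th positive integer different from `y1 < y2` -/
def lam (y1 y2 i : ℕ) : ℕ := i + (if y1 ≤ i then 1 else 0) + (if y2 ≤ i + 1 then 1 else 0)

/-- The numbers of a configuration. -/
structure Num where
  n2 : ℕ
  nT : ℕ
  N0 : ℕ
  Ux : ℕ
  sp : ℕ

/-- A layout of the low zone: `j` bottom labels `Xb`, `U` labels `X`, inserted labels `y1 < y2`,
`y` the label of the special vertex, `xs` (if `xsf`) the fixed label of the special bush;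
`lg`: the special `A` joins the `L`-group. -/
structure Lay where
  j : ℕ
  U : ℕ
  y1 : ℕ
  y2 : ℕ
  k2 : Bool
  y : ℕ
  xs : ℕ
  xsf : Bool
  lg : Bool

variable {k : ℕ} {ld al : ℕ → Prop}

/-- the size `w` of the low zone -/
def wz (S : Seam k ld al) (n : Num) : ℕ := n.n2 + n.Ux + S.h + 1 + (if n.sp = 0 then 0 else 1)

/-- the total number `m` of labels -/
def mz (S : Seam k ld al) (n : Num) : ℕ := wz S n + n.N0 + n.nT + S.h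

/-- position of the odd edge of rank `r` -/
def lop (S : Seam k ld al) (n : Num) (Λ : Lay) (r : ℕ) : ℕ :=
  if Λ.k2 then
    (if r < S.P then n.n2 + Λ.j + r
      else if r = S.P then n.n2 + Λ.j + Λ.U + S.h + 1
      else n.n2 + Λ.j + Λ.U + r - 1)
  else (if r ≤ S.P then n.n2 + Λ.j + r else n.n2 + Λ.j + Λ.U + r)

/-- the label of the path edge `e` -/
def pl (S : Seam k ld al) (n : Num) (Λ : Lay) (e : ℕ) : ℕ :=
  if e % 2 = 1 then lam Λ.y1 Λ.y2 (lop S n Λ (S.rk e))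
  else wz S n + n.N0 + S.rk e + (if S.Q < S.rk e then n.nT else 0)

/-- the label `X i`, `1 ≤ i ≤ U` -/
def Xl (S : Seam k ld al) (n : Num) (Λ : Lay) (i : ℕ) : ℕ :=
  lam Λ.y1 Λ.y2 (n.n2 + Λ.j + S.P + i - (if Λ.k2 then 1 else 0))

/-- the base of the path vertex `i`: the sum of the labels of its two path edges -/
def bs (S : Seam k ld al) (n : Num) (Λ : Lay) (i : ℕ) : ℕ := pl S n Λ i + pl S n Λ (i + 1)

/-- The general facts. `B0 = w + N0 + nT + n2 + j`. -/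
structure LowOK (S : Seam k ld al) (n : Num) (Λ : Lay) : Prop where
  U_ge : n.nT ≤ Λ.U
  w_ge : n.n2 + Λ.j + Λ.U + S.h + 1 ≤ wz S n
  y1_gt : n.n2 + Λ.j < Λ.y1
  p_odd : ∀ e, 1 ≤ e → e ≤ k → e % 2 = 1 →
    n.n2 + Λ.j < pl S n Λ e ∧ pl S n Λ e ≤ wz S n ∧ pl S n Λ e ≠ Λ.y1 ∧ pl S n Λ e ≠ Λ.y2
  p_even : ∀ e, 1 ≤ e → e ≤ k → e % 2 = 0 →
    (wz S n + n.N0 + 1 ≤ pl S n Λ e ∧ pl S n Λ e ≤ wz S n + n.N0 + S.Q) ∨
      (wz S n + n.N0 + S.Q + n.nT + 1 ≤ pl S n Λ e ∧ pl S n Λ e ≤ mz S n)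
  p_inj : ∀ e f, 1 ≤ e → e ≤ k → 1 ≤ f → f ≤ k → pl S n Λ e = pl S n Λ f → e = f
  X_mono : StrictMono (Xl S n Λ)
  X_lo : ∀ i, 1 ≤ i → n.n2 + Λ.j + S.P + i ≤ Xl S n Λ i
  X_up : ∀ i, Xl S n Λ i ≤ n.n2 + Λ.j + S.P + i + 2
  X_w : ∀ i, 1 ≤ i → i ≤ Λ.U → Xl S n Λ i ≤ wz S n
  X_y : ∀ i, 1 ≤ i → Xl S n Λ i ≠ Λ.y1 ∧ Xl S n Λ i ≠ Λ.y2
  X_p : ∀ i e, 1 ≤ i → i ≤ Λ.U → 1 ≤ e → e ≤ k → e % 2 = 1 → Xl S n Λ i ≠ pl S n Λ e
  C_lo : ∀ i, 1 ≤ i → i < k → ¬ ld i → wz S n + n.N0 < bs S n Λ i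
  C_up : ∀ i, 1 ≤ i → i < k → ¬ ld i → bs S n Λ i ≤ wz S n + mz S n
  C_inj : ∀ i i', 1 ≤ i → i < k → ¬ ld i → 1 ≤ i' → i' < k → ¬ ld i' →
    bs S n Λ i = bs S n Λ i' → i = i'
  C_gap : 1 ≤ Λ.U → ∀ i, 1 ≤ i → i < k → ¬ ld i →
    bs S n Λ i < wz S n + n.N0 + S.Q + 1 + Xl S n Λ 1 ∨
      wz S n + n.N0 + S.Q + n.nT + 1 + Xl S n Λ Λ.U < bs S n Λ i
  bP : ∀ i, ld i → (i ≠ S.q ∨ ¬ al i) →
    wz S n + n.N0 + n.nT + n.n2 + Λ.j + S.P ≤ bs S n Λ i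
  bQ : ∀ i, ld i → (i ≠ S.q ∨ ¬ al i) →
    wz S n + n.N0 + n.nT + n.n2 + Λ.j + S.Q ≤ bs S n Λ i
  bh : ∀ i, ld i → (i ≠ S.q ∨ ¬ al i) → (al i ∨ i = S.q ∨ S.h + 1 ≤ S.rk i + S.rk (i + 1)) →
    wz S n + n.N0 + n.nT + n.n2 + Λ.j + S.h + 1 ≤ bs S n Λ i
  bup : ∀ a, al a → a ≠ S.q → bs S n Λ a ≤ 2 * wz S n + n.N0 + S.P + S.Q
  shx : ∀ a x, al a → a ≠ S.q → S.bad (oe a) → ld x → ¬ al x →
    bs S n Λ a < bs S n Λ x + Xl S n Λ 1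

/-- The facts which depend on the mode. -/
structure ModOK (S : Seam k ld al) (n : Num) (Λ : Lay) : Prop where
  U_eq : Λ.U + Λ.j + (if Λ.xsf then 1 else 0) = n.Ux + (if Λ.lg then 1 else 0)
  y_ok : n.sp ≠ 0 → Λ.lg = false →
    n.n2 + Λ.j < Λ.y ∧ Λ.y ≤ wz S n ∧ (Λ.y = Λ.y1 ∨ Λ.y = Λ.y2)
  xs_ok : Λ.xsf = true → n.sp = 3 ∧ n.n2 + Λ.j < Λ.xs ∧ Λ.xs ≤ wz S n ∧ Λ.xs ≠ Λ.y ∧
    (Λ.xs = Λ.y1 ∨ Λ.xs = Λ.y2)
  lg_ok : Λ.lg = true → n.sp = 1 ∧ Λ.xsf = false ∧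
    wz S n + n.N0 + S.Q + 1 ≤ bs S n Λ S.q ∧ bs S n Λ S.q ≤ wz S n + n.N0 + S.Q + n.nT + 1
  V_lo : n.sp ≠ 0 → Λ.lg = false → wz S n + n.N0 < bs S n Λ S.q + Λ.y
  V_up : n.sp ≠ 0 → Λ.lg = false → bs S n Λ S.q + Λ.y ≤ wz S n + mz S n + n.n2 + Λ.j + 1
  V_C : n.sp ≠ 0 → Λ.lg = false → ∀ i, 1 ≤ i → i < k → ¬ ld i →
    bs S n Λ i ≠ bs S n Λ S.q + Λ.y
  V_L : n.sp ≠ 0 → Λ.lg = false → 1 ≤ Λ.U →
    bs S n Λ S.q + Λ.y < wz S n + n.N0 + S.Q + 1 + Xl S n Λ 1 ∨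
      wz S n + n.N0 + S.Q + n.nT + 1 + Xl S n Λ Λ.U < bs S n Λ S.q + Λ.y
  F3 : n.sp = 3 → Λ.xsf = false → n.nT + S.h + n.n2 + Λ.j + 1 ≤ Λ.y + Xl S n Λ 1
  Fx : Λ.xsf = true → n.nT + S.h + n.n2 + Λ.j + 1 ≤ Λ.y + Λ.xs ∧
    Λ.y + Λ.xs ≤ n.nT + S.h + n.n2 + Λ.j + 2
  Dbb : ∀ a z, al a → a ≠ S.q → S.bad (oe a) → ld z → ¬ al z →
    bs S n Λ a + (if n.sp = 0 ∧ S.mode = 5 then 1 else 0) ≤ bs S n Λ z + S.Q + 1
  Dgg : ∀ a z, al a → a ≠ S.q → ¬ S.bad (oe a) → ld z → ¬ al z → ¬ S.bad (oe z) →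
    bs S n Λ a ≤ bs S n Λ z + S.Q + (if 2 ≤ n.sp then 1 else 0)
  Dgb : ∀ a z, al a → a ≠ S.q → ¬ S.bad (oe a) → ld z → ¬ al z → S.bad (oe z) →
    bs S n Λ a + sg k ld al S.rk S.h S.q z + n.nT + Λ.j ≤ bs S n Λ z + S.Q + n.Ux

/-- Two consecutive layouts (`Λ` with `j` and `Λ'` with `j + 1`). -/
structure StepOK (S : Seam k ld al) (n : Num) (Λ Λ' : Lay) : Prop where
  st1 : ∀ i a, ld i → ¬ al i → al a → a ≠ S.q →
    bs S n Λ' i + bs S n Λ a ≤ bs S n Λ i + bs S n Λ' a + 2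
  st2 : ∀ a, al a → a ≠ S.q → bs S n Λ a ≤ bs S n Λ' a + 2

/-- layout without inserted labels -/
def layNone (S : Seam k ld al) (n : Num) (j : ℕ) : Lay :=
  ⟨j, n.Ux - j, wz S n + 1, wz S n + 2, false, 0, 0, false, false⟩

/-- the special `A` joins the `L`-group -/
def layLg (S : Seam k ld al) (n : Num) (j : ℕ) : Lay :=
  ⟨j, n.Ux - j + 1, wz S n + 1, wz S n + 2, false, 0, 0, false, true⟩

/-- one inserted label -/
def layS (S : Seam k ld al) (n : Num) (j y : ℕ) : Lay :=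
  ⟨j, n.Ux - j, y, wz S n + 2, false, y, 0, false, false⟩

/-- two inserted labels -/
def layD (n : Num) (j y x : ℕ) : Lay :=
  ⟨j, n.Ux - 1 - j, min y x, max y x, false, y, x, true, false⟩

/-- K1 -/
def lay1 (S : Seam k ld al) (n : Num) (j : ℕ) : Lay :=
  if n.sp = 3 ∧ (n.n2 + j + n.nT + S.h + 1 - S.Q) + (n.n2 + j + S.P + 1 +
      (if n.n2 + j + n.nT + S.h + 1 - S.Q ≤ n.n2 + j + S.P + 1 then 1 else 0)) <
      n.nT + S.h + n.n2 + j + 1 then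
    layD n j (n.n2 + j + n.nT + S.h + 1 - S.Q)
      (if S.Q = n.n2 + j + n.nT + S.h + 1 - S.Q then S.Q + 1 else S.Q)
  else layS S n j (n.n2 + j + n.nT + S.h + 1 - S.Q)

/-- K2 -/
def lay2 (S : Seam k ld al) (n : Num) (j : ℕ) : Lay :=
  layS S n j (if n.n2 + j + S.P < wz S n + 1 - S.P then wz S n + 1 - S.P else wz S n - S.P)

/-- K2ii -/
def lay3 (S : Seam k ld al) (n : Num) (j : ℕ) : Lay :=
  if n.sp = 3 ∧ n.n2 + j + S.P + 1 < n.nT + S.h then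
    ⟨j, n.Ux - 1 - j, n.n2 + j + 1, n.nT + S.h, true, n.n2 + j + 1, n.nT + S.h, true, false⟩
  else ⟨j, n.Ux - j, n.n2 + j + 1, wz S n + 2, true, n.n2 + j + 1, 0, false, false⟩

/-- K3 -/
def lay4 (S : Seam k ld al) (n : Num) (j : ℕ) : Lay :=
  if S.h < n.n2 + j + S.Q + 2 then layS S n j (wz S n)
  else if n.sp = 3 ∧ n.n2 + n.Ux + S.P + S.cutG (n.n2 + j + S.Q + 2) + 1 + S.P < n.nT + S.h then
    (if n.nT + S.h + n.n2 + j ≤ 2 * (n.n2 + n.Ux + S.P + S.cutG (n.n2 + j + S.Q + 2)) then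
      layD n j (n.n2 + n.Ux + S.P + S.cutG (n.n2 + j + S.Q + 2) + 1)
        (n.nT + S.h + n.n2 + j - (n.n2 + n.Ux + S.P + S.cutG (n.n2 + j + S.Q + 2)))
    else
      layD n j (n.n2 + n.Ux + S.P + S.cutG (n.n2 + j + S.Q + 2))
        (n.nT + S.h + n.n2 + j + 1 - (n.n2 + n.Ux + S.P + S.cutG (n.n2 + j + S.Q + 2))))
  else layS S n j (n.n2 + n.Ux + S.P + S.cutG (n.n2 + j + S.Q + 2) + 1)

/-- K4, with `v = n2 + Ux + P + 2` -/
def lay5 (S : Seam k ld al) (n : Num) (j : ℕ) : Lay :=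
  let v := n.n2 + n.Ux + S.P + 2
  if v + 1 ≤ S.Q then layS S n j (n.n2 + j + S.cutB (v + 1) + 1)
  else if v ≤ S.Q + n.nT then layLg S n j
  else if v ≤ n.nT + S.h then layS S n j (n.n2 + n.Ux + S.P + S.cutG (v - n.nT) + 1)
  else
    let y := wz S n + min (v - n.nT - S.h) (n.n2 + j + 1) - (v - n.nT - S.h)
    layS S n j (if v ≤ y then y else y - 1)

/-- The layout with `j` bottom labels. -/
def layOf (S : Seam k ld al) (n : Num) (j : ℕ) : Lay :=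
  if n.sp = 0 then layNone S n j
  else if S.mode = 1 then lay1 S n j
  else if S.mode = 2 then lay2 S n j
  else if S.mode = 3 then lay3 S n j
  else if S.mode = 4 then lay4 S n j
  else lay5 S n j

/-- Admissible numbers. -/
structure Adm (S : Seam k ld al) (n : Num) (j : ℕ) : Prop where
  n2T : n.n2 ≤ n.nT
  jU : n.nT + j + (if 2 ≤ n.sp then 1 else 0) ≤ n.Ux
  sp0 : S.mode = 0 → n.sp = 0
  sp14 : 1 ≤ S.mode → S.mode ≤ 4 → 1 ≤ n.sp ∧ n.sp ≤ 3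
  sp5 : S.mode = 5 → n.sp ≤ 1

end Pool.Agent.Lob5
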