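import Pool.Agent.Lob5.Low

/-!
# Elementary facts about `lam` and the bases

`lam_lt`: `lam` is strictly monotone if `y1 ≤ y2`; `lam_ne`: it avoids `y1 < y2`.
The base formulas are obtained by unfolding `bs`, `pl`, `lop` and the rank ranges of the seam
(`rk ≤ P` for bad odd edges, `P < rk` for good odd edges, `rk ≤ Q` bad even, `Q < rk` good even).
Split on the parity of `i` (`oe i`, `ee i` are `i`, `i+1` or `i+1`, `i`).
-/

namespace Pool.Agent.Lob5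

theorem lam_lt {y1 y2 i j : ℕ} (h : i < j) : lam y1 y2 i < lam y1 y2 j := by
  unfold lam
  split_ifs <;> omega

theorem lam_mono (y1 y2 : ℕ) : StrictMono (lam y1 y2) := by
  intro i j h
  exact lam_lt h

theorem le_lam (y1 y2 i : ℕ) : i ≤ lam y1 y2 i := by
  unfold lam
  omega

theorem lam_le (y1 y2 i : ℕ) : lam y1 y2 i ≤ i + 2 := by
  unfold lam
  split_ifs <;> omega

theorem lam_ne {y1 y2 : ℕ} (h : y1 < y2) (i : ℕ) : lam y1 y2 i ≠ y1 ∧ lam y1 y2 i ≠ y2 := by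
  unfold lam
  constructor <;> split_ifs <;> omega

variable {k : ℕ} {ld al : ℕ → Prop}

/-- at a loaded vertex the two edges have different colours; `oe i` bad iff `ee i` good -/
theorem Seam.diff' (S : Seam k ld al) {i : ℕ} (h : ld i) : S.bad (oe i) ↔ ¬ S.bad (ee i) := by
  have h1 := S.diff i h
  unfold oe ee
  split_ifs
  · exact h1
  · tauto

theorem Seam.same' (S : Seam k ld al) {i : ℕ} (h1 : 1 ≤ i) (h2 : i < k) (h : ¬ ld i) :
    (S.bad (oe i) ↔ S.bad (ee i)) ∧ (S.bad (oe i) ↔ S.bad i) := by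
  have h3 := S.same i h1 h2 h
  unfold oe ee
  split_ifs
  · exact ⟨h3, Iff.rfl⟩
  · exact ⟨h3.symm, h3.symm⟩

theorem oe_odd {i : ℕ} : oe i % 2 = 1 := by
  unfold oe
  split_ifs <;> omega

theorem ee_even {i : ℕ} : ee i % 2 = 0 := by
  unfold ee
  split_ifs <;> omega

/-- `rk (oe i) + rk (ee i)` is the sum over both edges -/
theorem rk_sum (rk : ℕ → ℕ) (i : ℕ) : rk (oe i) + rk (ee i) = rk i + rk (i + 1) := by
  unfold oe ee
  split_ifs <;> omega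

private theorem oe_rng {i : ℕ} (h1 : 1 ≤ i) (h2 : i < k) : 1 ≤ oe i ∧ oe i ≤ k := by
  unfold oe
  split_ifs <;> omega

private theorem ee_rng {i : ℕ} (h1 : 1 ≤ i) (h2 : i < k) : 1 ≤ ee i ∧ ee i ≤ k := by
  unfold ee
  split_ifs <;> omega

private theorem bs_eq (S : Seam k ld al) (n : Num) (Λ : Lay) (i : ℕ) :
    bs S n Λ i = lam Λ.y1 Λ.y2 (lop S n Λ (S.rk (oe i))) +
      (wz S n + n.N0 + S.rk (ee i) + (if S.Q < S.rk (ee i) then n.nT else 0)) := by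
  unfold bs pl oe ee
  by_cases h : i % 2 = 1
  · have h' : ¬ (i + 1) % 2 = 1 := by omega
    simp only [h, h', if_true, if_false]
  · have h' : (i + 1) % 2 = 1 := by omega
    simp only [h, h', if_true, if_false]
    omega

private theorem ob (S : Seam k ld al) {i : ℕ} (h1 : 1 ≤ i) (h2 : i < k) (h : S.bad (oe i)) :
    1 ≤ S.rk (oe i) ∧ S.rk (oe i) ≤ S.P :=
  S.rk_ob _ (oe_rng h1 h2).1 (oe_rng h1 h2).2 oe_odd h

private theorem og (S : Seam k ld al) {i : ℕ} (h1 : 1 ≤ i) (h2 : i < k) (h : ¬ S.bad (oe i)) :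
    S.P + 1 ≤ S.rk (oe i) ∧ S.rk (oe i) ≤ S.h + 1 :=
  S.rk_og _ (oe_rng h1 h2).1 (oe_rng h1 h2).2 oe_odd h

private theorem eb (S : Seam k ld al) {i : ℕ} (h1 : 1 ≤ i) (h2 : i < k) (h : S.bad (ee i)) :
    1 ≤ S.rk (ee i) ∧ S.rk (ee i) ≤ S.Q :=
  S.rk_eb _ (ee_rng h1 h2).1 (ee_rng h1 h2).2 ee_even h

private theorem eg (S : Seam k ld al) {i : ℕ} (h1 : 1 ≤ i) (h2 : i < k) (h : ¬ S.bad (ee i)) :
    S.Q + 1 ≤ S.rk (ee i) ∧ S.rk (ee i) ≤ S.h :=
  S.rk_eg _ (ee_rng h1 h2).1 (ee_rng h1 h2).2 ee_even h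

/-- `k2 = false`, odd edge bad, even edge good -/
theorem bs_bg (S : Seam k ld al) (n : Num) (Λ : Lay) (hk2 : Λ.k2 = false) {i : ℕ} (h1 : 1 ≤ i)
    (h2 : i < k) (ho : S.bad (oe i)) (he : ¬ S.bad (ee i)) :
    bs S n Λ i = wz S n + n.N0 + n.nT + lam Λ.y1 Λ.y2 (n.n2 + Λ.j + S.rk (oe i))
      + S.rk (ee i) := by
  have h3 := ob S h1 h2 ho
  have h4 := eg S h1 h2 he
  rw [bs_eq]
  unfold lop
  rw [hk2, if_neg Bool.false_ne_true, if_pos (by omega), if_pos (by omega)]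
  omega

/-- `k2 = false`, odd edge good, even edge bad -/
theorem bs_gb (S : Seam k ld al) (n : Num) (Λ : Lay) (hk2 : Λ.k2 = false) {i : ℕ} (h1 : 1 ≤ i)
    (h2 : i < k) (ho : ¬ S.bad (oe i)) (he : S.bad (ee i)) :
    bs S n Λ i = wz S n + n.N0 + lam Λ.y1 Λ.y2 (n.n2 + Λ.j + Λ.U + S.rk (oe i))
      + S.rk (ee i) := by
  have h3 := og S h1 h2 ho
  have h4 := eb S h1 h2 he
  rw [bs_eq]
  unfold lop
  rw [hk2, if_neg Bool.false_ne_true, if_neg (by omega), if_neg (by omega)]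
  omega

/-- `k2 = false`, both edges bad -/
theorem bs_bb (S : Seam k ld al) (n : Num) (Λ : Lay) (hk2 : Λ.k2 = false) {i : ℕ} (h1 : 1 ≤ i)
    (h2 : i < k) (ho : S.bad (oe i)) (he : S.bad (ee i)) :
    bs S n Λ i = wz S n + n.N0 + lam Λ.y1 Λ.y2 (n.n2 + Λ.j + S.rk (oe i)) + S.rk (ee i) := by
  have h3 := ob S h1 h2 ho
  have h4 := eb S h1 h2 he
  rw [bs_eq]
  unfold lop
  rw [hk2, if_neg Bool.false_ne_true, if_pos (by omega), if_neg (by omega)]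
  omega

/-- `k2 = false`, both edges good -/
theorem bs_gg (S : Seam k ld al) (n : Num) (Λ : Lay) (hk2 : Λ.k2 = false) {i : ℕ} (h1 : 1 ≤ i)
    (h2 : i < k) (ho : ¬ S.bad (oe i)) (he : ¬ S.bad (ee i)) :
    bs S n Λ i = wz S n + n.N0 + n.nT + lam Λ.y1 Λ.y2 (n.n2 + Λ.j + Λ.U + S.rk (oe i))
      + S.rk (ee i) := by
  have h3 := og S h1 h2 ho
  have h4 := eg S h1 h2 he
  rw [bs_eq]
  unfold lop
  rw [hk2, if_neg Bool.false_ne_true, if_neg (by omega), if_pos (by omega)]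
  omega

/-- `k2 = true`, odd edge bad of rank `< P`, even edge good -/
theorem bs2_bg (S : Seam k ld al) (n : Num) (Λ : Lay) (hk2 : Λ.k2 = true) {i : ℕ} (h1 : 1 ≤ i)
    (h2 : i < k) (ho : S.bad (oe i)) (hr : S.rk (oe i) < S.P) (he : ¬ S.bad (ee i)) :
    bs S n Λ i = wz S n + n.N0 + n.nT + lam Λ.y1 Λ.y2 (n.n2 + Λ.j + S.rk (oe i))
      + S.rk (ee i) := by
  have h3 := ob S h1 h2 ho
  have h4 := eg S h1 h2 he
  rw [bs_eq]
  unfold lop
  rw [hk2, if_pos rfl, if_pos hr, if_pos (by omega)]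
  omega

/-- `k2 = true`, odd edge bad of rank `P` (the edge `q+1`), even edge good -/
theorem bs2_Pg (S : Seam k ld al) (n : Num) (Λ : Lay) (hk2 : Λ.k2 = true) {i : ℕ} (h1 : 1 ≤ i)
    (h2 : i < k) (hr : S.rk (oe i) = S.P) (he : ¬ S.bad (ee i)) :
    bs S n Λ i = wz S n + n.N0 + n.nT + lam Λ.y1 Λ.y2 (n.n2 + Λ.j + Λ.U + S.h + 1)
      + S.rk (ee i) := by
  have h4 := eg S h1 h2 he
  rw [bs_eq]
  unfold lop
  rw [hk2, if_pos rfl, if_neg (by omega), if_pos hr, if_pos (by omega)]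
  omega

/-- `k2 = true`, odd edge good, even edge bad -/
theorem bs2_gb (S : Seam k ld al) (n : Num) (Λ : Lay) (hk2 : Λ.k2 = true) {i : ℕ} (h1 : 1 ≤ i)
    (h2 : i < k) (ho : ¬ S.bad (oe i)) (he : S.bad (ee i)) :
    bs S n Λ i = wz S n + n.N0 + lam Λ.y1 Λ.y2 (n.n2 + Λ.j + Λ.U + S.rk (oe i) - 1)
      + S.rk (ee i) := by
  have h3 := og S h1 h2 ho
  have h4 := eb S h1 h2 he
  rw [bs_eq]
  unfold lop
  rw [hk2, if_pos rfl, if_neg (by omega), if_neg (by omega), if_neg (by omega)]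
  omega

/-- `k2 = true`, both edges bad, odd rank `< P` -/
theorem bs2_bb (S : Seam k ld al) (n : Num) (Λ : Lay) (hk2 : Λ.k2 = true) {i : ℕ} (h1 : 1 ≤ i)
    (h2 : i < k) (ho : S.bad (oe i)) (hr : S.rk (oe i) < S.P) (he : S.bad (ee i)) :
    bs S n Λ i = wz S n + n.N0 + lam Λ.y1 Λ.y2 (n.n2 + Λ.j + S.rk (oe i)) + S.rk (ee i) := by
  have h3 := ob S h1 h2 ho
  have h4 := eb S h1 h2 he
  rw [bs_eq]
  unfold lop
  rw [hk2, if_pos rfl, if_pos hr, if_neg (by omega)]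
  omega

/-- `k2 = true`, both edges good -/
theorem bs2_gg (S : Seam k ld al) (n : Num) (Λ : Lay) (hk2 : Λ.k2 = true) {i : ℕ} (h1 : 1 ≤ i)
    (h2 : i < k) (ho : ¬ S.bad (oe i)) (he : ¬ S.bad (ee i)) :
    bs S n Λ i = wz S n + n.N0 + n.nT + lam Λ.y1 Λ.y2 (n.n2 + Λ.j + Λ.U + S.rk (oe i) - 1)
      + S.rk (ee i) := by
  have h3 := og S h1 h2 ho
  have h4 := eg S h1 h2 he
  rw [bs_eq]
  unfold lop
  rw [hk2, if_pos rfl, if_neg (by omega), if_neg (by omega), if_pos (by omega)]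
  omega

/-- In mode 3 (K2ii): the odd edge `q + 1` is only at the vertices `q` and `q + 1`; every other
vertex with bad odd edge has odd rank `< P` (`rk_inj` and `rk (q+1) = P`). -/
theorem rk_lt_P (S : Seam k ld al) (hm : S.mode = 3) {i : ℕ} (h1 : 1 ≤ i) (h2 : i < k)
    (hb : S.bad (oe i)) (hq : i ≠ S.q) (hq1 : i ≠ S.q + 1) : S.rk (oe i) < S.P := by
  have h3 := ob S h1 h2 hb
  obtain ⟨_, _, hq2, _, hqP⟩ := S.m2 (Or.inr hm)
  obtain ⟨hqk, _, _, _⟩ := S.m3 hm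
  refine lt_of_le_of_ne h3.2 fun h4 => ?_
  have h5 := S.rk_inj (oe i) (S.q + 1) (oe_rng h1 h2).1 (oe_rng h1 h2).2 (by omega) (by omega)
    (by rw [oe_odd]; omega) (by rw [h4, hqP])
  unfold oe at h5
  split_ifs at h5 <;> omega

/-- A loaded vertex with bad odd edge forces `2 ≤ P`: its even edge is good, so `Q < h`. -/
theorem two_le_P (S : Seam k ld al) {i : ℕ} (h : ld i) (hb : S.bad (oe i)) :
    2 ≤ S.P ∧ S.Q + 1 ≤ S.h := by
  have h1 := S.ld_pos i h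
  have h2 := S.ld_lt i h
  have h3 := eg S h1 h2 ((S.diff' h).1 hb)
  have h4 := S.PQ
  omega

end Pool.Agent.Lob5
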