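import Pool.Agent.Lob5.LowBase

/-!
# The general facts for layouts with `k2 = false`

Proof. Write `lam = lam y1 y2`, `c` = number of inserted labels `≤ w` (so
`w = n2 + j + U + h + 1 + c` and `lam i ≤ i + c'` with `c'` the number of inserted labels below).
All labels of the low zone are `lam` of different positions in `[n2+j+1, n2+j+U+h+1]`:
bad odd edges `n2+j+rk`, `X i` : `n2+j+P+i`, good odd edges `n2+j+U+rk`; `lam` is strictly
increasing and `lam (n2+j+U+h+1) ≤ w` (if both `y1, y2 ≤ w` it is `+2`, etc.), it avoids `y1, y2`.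
Bases: use `bs_bg, bs_gb, bs_bb, bs_gg` of `LowBase` and `rk_sum`.
* `C_inj`: two unloaded vertices of the same colour are comparable (`S.cmp`), at least one rank
  differs (`rk_inj`; different vertices do not have the same two edges), so the sums differ; a bad
  and a good one are separated by `C_gap`-type bounds: bad sums are at most
  `w+N0+lam(n2+j+P)+Q`, good ones at least `w+N0+nT+lam(n2+j+U+P+1)+Q+1`.
* `C_gap`: bad: `≤ w+N0+Q+lam(n2+j+P) < w+N0+Q+1+X 1`; good: `≥ w+N0+nT+Q+1+lam(n2+j+U+P+1) >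
  w+N0+nT+Q+1+X U`.
* `bP, bQ, bh`: odd edge bad: `bs ≥ w+N0+nT+n2+j+J` with `J = rk i + rk (i+1)`, and `J ≥ P, Q`
  by `lowb`; odd edge good: `bs ≥ w+N0+U+n2+j+J`, `U ≥ nT`, `J ≥ P, Q` (`lowg`);
  `J ≥ h+1` by `big` for `al`. For `i = q` (then not `al q`, so `mode = 0` by `m1 .. m5`):
  `m0` gives `J = h+1+Q` (`q` odd, odd edge good) or `J = h + P` (`q` even, odd edge bad).
* `bup`: odd edge good: `lam(..) ≤ w`, even edge bad: `≤ w+N0+Q`; odd edge bad: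
  `lam(n2+j+rk) + rk(ee) + nT ≤ n2+j+P+c+h+nT ≤ w + P - 1`.
* `shx`: `a` has bad odd edge. `S.sh : J a + 1 ≤ J x + P`; `X 1 = lam(n2+j+P+1)`, and `lam` of the
  odd position of `a` is at most its position plus the shift of `X 1`; for `x` with good odd edge
  use `U ≥ nT`.
-/

namespace Pool.Agent.Lob5

variable {k : ℕ} {ld al : ℕ → Prop}

private theorem lg_lam_sh {y1 y2 i j : ℕ} (h : i ≤ j) : lam y1 y2 i + j ≤ lam y1 y2 j + i := by
  unfold lam
  split_ifs <;> omega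

private theorem lg_lam_le {y1 y2 i j : ℕ} (h : i ≤ j) : lam y1 y2 i ≤ lam y1 y2 j := by
  have := lg_lam_sh (y1 := y1) (y2 := y2) h
  omega

/-- the position of an odd edge -/
private theorem lg_lop (S : Seam k ld al) (n : Num) (Λ : Lay) (hk2 : Λ.k2 = false) (r : ℕ) :
    lop S n Λ r = if r ≤ S.P then n.n2 + Λ.j + r else n.n2 + Λ.j + Λ.U + r := by
  unfold lop
  rw [hk2]
  simp

private theorem lg_odd (S : Seam k ld al) (n : Num) (Λ : Lay) {e : ℕ} (h : e % 2 = 1) :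
    pl S n Λ e = lam Λ.y1 Λ.y2 (lop S n Λ (S.rk e)) := by
  unfold pl
  rw [if_pos h]

private theorem lg_even (S : Seam k ld al) (n : Num) (Λ : Lay) {e : ℕ} (h : e % 2 = 0) :
    pl S n Λ e = wz S n + n.N0 + S.rk e + (if S.Q < S.rk e then n.nT else 0) := by
  unfold pl
  rw [if_neg (by omega)]

/-- the ranges of the ranks at a vertex -/
private theorem lg_oe {i : ℕ} (h1 : 1 ≤ i) (h2 : i < k) : 1 ≤ oe i ∧ oe i ≤ k := by
  unfold oe
  split_ifs <;> omega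

private theorem lg_ee {i : ℕ} (h1 : 1 ≤ i) (h2 : i < k) : 1 ≤ ee i ∧ ee i ≤ k := by
  unfold ee
  split_ifs <;> omega

private theorem lg_range (S : Seam k ld al) {i : ℕ} (h1 : 1 ≤ i) (h2 : i < k) :
    (S.bad (oe i) → 1 ≤ S.rk (oe i) ∧ S.rk (oe i) ≤ S.P) ∧
    (¬ S.bad (oe i) → S.P + 1 ≤ S.rk (oe i) ∧ S.rk (oe i) ≤ S.h + 1) ∧
    (S.bad (ee i) → 1 ≤ S.rk (ee i) ∧ S.rk (ee i) ≤ S.Q) ∧
    (¬ S.bad (ee i) → S.Q + 1 ≤ S.rk (ee i) ∧ S.rk (ee i) ≤ S.h) :=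
  ⟨S.rk_ob _ (lg_oe h1 h2).1 (lg_oe h1 h2).2 oe_odd,
    S.rk_og _ (lg_oe h1 h2).1 (lg_oe h1 h2).2 oe_odd,
    S.rk_eb _ (lg_ee h1 h2).1 (lg_ee h1 h2).2 ee_even,
    S.rk_eg _ (lg_ee h1 h2).1 (lg_ee h1 h2).2 ee_even⟩

private theorem lg_eq {i i' : ℕ} (h1 : oe i = oe i') (h2 : ee i = ee i') : i = i' := by
  unfold oe at h1
  unfold ee at h2
  split_ifs at h1 h2 <;> omega

/-- at a loaded vertex `q` which is not an `α` -/
private theorem lg_q (S : Seam k ld al) (h : ld S.q) (ha : ¬ al S.q) :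
    S.h + 1 ≤ S.rk S.q + S.rk (S.q + 1) ∧ S.P ≤ S.rk S.q + S.rk (S.q + 1) ∧
      S.Q ≤ S.rk S.q + S.rk (S.q + 1) := by
  have hm : S.mode = 0 := by
    by_contra hm
    have h5 := S.mode_le
    have h6 : S.mode = 1 ∨ (S.mode = 2 ∨ S.mode = 3) ∨ S.mode = 4 ∨ S.mode = 5 := by omega
    rcases h6 with h6 | h6 | h6 | h6
    · exact ha (S.m1 h6).1
    · exact ha (S.m2 h6).1
    · exact ha (S.m4 h6).1
    · exact ha (S.m5 h6).1
  have hP := S.P1
  have hPh := S.Ph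
  have hQh := S.Qh
  have hPQ := S.PQ
  rcases S.m0 hm with h0 | ⟨_, _, _, h3, h4⟩
  · have := S.ld_pos _ h
    omega
  · rcases Nat.mod_two_eq_zero_or_one S.q with h5 | h5
    · have := h4 h5
      omega
    · have := h3 h5
      omega

private theorem lg_J (S : Seam k ld al) {i : ℕ} (hi : ld i) (h : i ≠ S.q ∨ ¬ al i) :
    S.P ≤ S.rk i + S.rk (i + 1) ∧ S.Q ≤ S.rk i + S.rk (i + 1) := by
  by_cases hq : i = S.q
  · subst hq
    have := lg_q S hi (h.resolve_left (fun h => h rfl))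
    exact this.2
  · by_cases hb : S.bad (oe i)
    · have := S.lowb i hi hq hb
      omega
    · have := S.lowg i hi hq hb
      omega

private theorem lg_Jh (S : Seam k ld al) {i : ℕ} (hi : ld i) (h : i ≠ S.q ∨ ¬ al i)
    (h' : al i ∨ i = S.q ∨ S.h + 1 ≤ S.rk i + S.rk (i + 1)) :
    S.h + 1 ≤ S.rk i + S.rk (i + 1) := by
  by_cases hq : i = S.q
  · subst hq
    exact (lg_q S hi (h.resolve_left (fun h => h rfl))).1
  · rcases h' with h' | h' | h'
    · exact S.big i hi hq (Or.inl h')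
    · exact absurd h' hq
    · exact h'

/-- the base of a loaded vertex -/
private theorem lg_bs (S : Seam k ld al) (n : Num) (Λ : Lay) (hk2 : Λ.k2 = false)
    (hU : n.nT ≤ Λ.U) {i : ℕ} (hi : ld i) :
    wz S n + n.N0 + n.nT + (n.n2 + Λ.j) + (S.rk i + S.rk (i + 1)) ≤ bs S n Λ i := by
  have h1 := S.ld_pos i hi
  have h2 := S.ld_lt i hi
  have hs := rk_sum S.rk i
  by_cases hb : S.bad (oe i)
  · have hg : ¬ S.bad (ee i) := (S.diff' hi).1 hb
    rw [bs_bg S n Λ hk2 h1 h2 hb hg]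
    have := le_lam Λ.y1 Λ.y2 (n.n2 + Λ.j + S.rk (oe i))
    omega
  · have hg : S.bad (ee i) := by
      by_contra hg
      exact hb ((S.diff' hi).2 hg)
    rw [bs_gb S n Λ hk2 h1 h2 hb hg]
    have := le_lam Λ.y1 Λ.y2 (n.n2 + Λ.j + Λ.U + S.rk (oe i))
    omega

/-- the two labels at a vertex -/
private theorem lg_two (S : Seam k ld al) (n : Num) (Λ : Lay) (i : ℕ) :
    bs S n Λ i = pl S n Λ (oe i) + pl S n Λ (ee i) := by
  unfold bs oe ee
  by_cases h : i % 2 = 1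
  · rw [if_pos h, if_pos h]
  · rw [if_neg h, if_neg h, add_comm]

theorem lowOK_gen (S : Seam k ld al) (n : Num) (Λ : Lay) (hk2 : Λ.k2 = false)
    (h1 : n.n2 + Λ.j < Λ.y1) (h12 : Λ.y1 < Λ.y2)
    (hw : wz S n = n.n2 + Λ.j + Λ.U + S.h + 1 + (if Λ.y1 ≤ wz S n then 1 else 0)
      + (if Λ.y2 ≤ wz S n then 1 else 0))
    (hU : n.nT ≤ Λ.U) : LowOK S n Λ := by
  have hP1 := S.P1
  have hPh := S.Ph
  have hQh := S.Qh
  have hPQ := S.PQ
  set N := n.n2 + Λ.j with hN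
  have hM : N + Λ.U + S.h + 1 ≤ wz S n := by
    rw [hw]
    omega
  have hlw : ∀ i, i ≤ N + Λ.U + S.h + 1 → lam Λ.y1 Λ.y2 i + (N + Λ.U + S.h + 1) ≤
      wz S n + i := by
    intro i hi
    refine (lg_lam_sh hi).trans ?_
    have : lam Λ.y1 Λ.y2 (N + Λ.U + S.h + 1) ≤ wz S n := by
      unfold lam
      split_ifs at hw ⊢ <;> omega
    omega
  have hpo : ∀ e, 1 ≤ e → e ≤ k → e % 2 = 1 →
      (S.bad e ∧ 1 ≤ S.rk e ∧ S.rk e ≤ S.P ∧ pl S n Λ e = lam Λ.y1 Λ.y2 (N + S.rk e)) ∨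
      (¬ S.bad e ∧ S.P + 1 ≤ S.rk e ∧ S.rk e ≤ S.h + 1 ∧
        pl S n Λ e = lam Λ.y1 Λ.y2 (N + Λ.U + S.rk e)) := by
    intro e h1 h2 h3
    rw [lg_odd S n Λ h3, lg_lop S n Λ hk2]
    by_cases hb : S.bad e
    · have := S.rk_ob e h1 h2 h3 hb
      exact Or.inl ⟨hb, this.1, this.2, by rw [if_pos this.2]⟩
    · have := S.rk_og e h1 h2 h3 hb
      exact Or.inr ⟨hb, this.1, this.2, by rw [if_neg (by omega)]⟩
  have hpe : ∀ e, 1 ≤ e → e ≤ k → e % 2 = 0 →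
      (S.bad e ∧ 1 ≤ S.rk e ∧ S.rk e ≤ S.Q ∧ pl S n Λ e = wz S n + n.N0 + S.rk e) ∨
      (¬ S.bad e ∧ S.Q + 1 ≤ S.rk e ∧ S.rk e ≤ S.h ∧
        pl S n Λ e = wz S n + n.N0 + S.rk e + n.nT) := by
    intro e h1 h2 h3
    rw [lg_even S n Λ h3]
    by_cases hb : S.bad e
    · have := S.rk_eb e h1 h2 h3 hb
      exact Or.inl ⟨hb, this.1, this.2, by rw [if_neg (by omega)]; omega⟩
    · have := S.rk_eg e h1 h2 h3 hb
      exact Or.inr ⟨hb, this.1, this.2, by rw [if_pos (by omega)]⟩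
  have hmz : mz S n = wz S n + n.N0 + n.nT + S.h := rfl
  have hX : ∀ i, Xl S n Λ i = lam Λ.y1 Λ.y2 (N + S.P + i) := by
    intro i
    unfold Xl
    rw [hk2]
    simp [hN]
  have hodd : ∀ e, 1 ≤ e → e ≤ k → e % 2 = 1 → N < pl S n Λ e ∧ pl S n Λ e ≤ wz S n := by
    intro e h1 h2 h3
    rcases hpo e h1 h2 h3 with ⟨_, h4, h5, h6⟩ | ⟨_, h4, h5, h6⟩
    · rw [h6]
      have := le_lam Λ.y1 Λ.y2 (N + S.rk e)
      have := hlw (N + S.rk e) (by omega)
      omega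
    · rw [h6]
      have := le_lam Λ.y1 Λ.y2 (N + Λ.U + S.rk e)
      have := hlw (N + Λ.U + S.rk e) (by omega)
      omega
  have heven : ∀ e, 1 ≤ e → e ≤ k → e % 2 = 0 →
      wz S n + n.N0 + 1 ≤ pl S n Λ e ∧ pl S n Λ e ≤ mz S n := by
    intro e h1 h2 h3
    rcases hpe e h1 h2 h3 with ⟨_, h4, h5, h6⟩ | ⟨_, h4, h5, h6⟩ <;> omega
  refine ⟨hU, hM, h1, ?_, ?_, ?_, ?_, ?_, ?_, ?_, ?_, ?_, ?_, ?_, ?_, ?_, ?_, ?_, ?_, ?_, ?_⟩
  · -- p_odd
    intro e he1 he2 he3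
    refine ⟨(hodd e he1 he2 he3).1, (hodd e he1 he2 he3).2, ?_⟩
    rw [lg_odd S n Λ he3]
    exact lam_ne h12 _
  · -- p_even
    intro e he1 he2 he3
    rcases hpe e he1 he2 he3 with ⟨_, h4, h5, h6⟩ | ⟨_, h4, h5, h6⟩ <;> omega
  · -- p_inj
    intro e f he1 he2 hf1 hf2 hef
    rcases Nat.mod_two_eq_zero_or_one e with he | he <;>
      rcases Nat.mod_two_eq_zero_or_one f with hf | hf
    · refine S.rk_inj e f he1 he2 hf1 hf2 (he.trans hf.symm) ?_
      rcases hpe e he1 he2 he with ⟨_, h4, h5, h6⟩ | ⟨_, h4, h5, h6⟩ <;>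
        rcases hpe f hf1 hf2 hf with ⟨_, h7, h8, h9⟩ | ⟨_, h7, h8, h9⟩ <;> omega
    · have := heven e he1 he2 he
      have := hodd f hf1 hf2 hf
      omega
    · have := heven f hf1 hf2 hf
      have := hodd e he1 he2 he
      omega
    · refine S.rk_inj e f he1 he2 hf1 hf2 (he.trans hf.symm) ?_
      have hinj := (lam_mono Λ.y1 Λ.y2).injective
      rcases hpo e he1 he2 he with ⟨_, h4, h5, h6⟩ | ⟨_, h4, h5, h6⟩ <;>
        rcases hpo f hf1 hf2 hf with ⟨_, h7, h8, h9⟩ | ⟨_, h7, h8, h9⟩ <;>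
        · have h10 := hinj (h6.symm.trans (hef.trans h9))
          omega
  · -- X_mono
    intro i i' hii
    rw [hX, hX]
    exact lam_mono _ _ (by omega)
  · -- X_lo
    intro i _
    rw [hX]
    exact le_lam _ _ _
  · -- X_up
    intro i
    rw [hX]
    exact lam_le _ _ _
  · -- X_w
    intro i hi1 hi2
    rw [hX]
    have := hlw (N + S.P + i) (by omega)
    omega
  · -- X_y
    intro i _
    rw [hX]
    exact lam_ne h12 _
  · -- X_p
    intro i e hi1 hi2 he1 he2 he3 hx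
    rw [hX] at hx
    have hinj := (lam_mono Λ.y1 Λ.y2).injective
    rcases hpo e he1 he2 he3 with ⟨_, h4, h5, h6⟩ | ⟨_, h4, h5, h6⟩ <;>
      · have h10 := hinj (hx.trans h6)
        omega
  · -- C_lo
    intro i hi1 hi2 _
    rw [lg_two]
    have := hodd (oe i) (lg_oe hi1 hi2).1 (lg_oe hi1 hi2).2 oe_odd
    have := heven (ee i) (lg_ee hi1 hi2).1 (lg_ee hi1 hi2).2 ee_even
    omega
  · -- C_up
    intro i hi1 hi2 _
    rw [lg_two]
    have := hodd (oe i) (lg_oe hi1 hi2).1 (lg_oe hi1 hi2).2 oe_odd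
    have := heven (ee i) (lg_ee hi1 hi2).1 (lg_ee hi1 hi2).2 ee_even
    omega
  · -- C_inj
    intro i i' hi1 hi2 hi3 hi1' hi2' hi3' hb
    obtain ⟨ho, hbi⟩ := S.same' hi1 hi2 hi3
    obtain ⟨ho', hbi'⟩ := S.same' hi1' hi2' hi3'
    obtain ⟨r1, r2, r3, r4⟩ := lg_range S hi1 hi2
    obtain ⟨r1', r2', r3', r4'⟩ := lg_range S hi1' hi2'
    have hfin : ∀ (c : ℕ), (S.bad i ↔ S.bad i') →
        lam Λ.y1 Λ.y2 (c + S.rk (oe i)) + S.rk (ee i) =
          lam Λ.y1 Λ.y2 (c + S.rk (oe i')) + S.rk (ee i') → i = i' := by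
      intro c hc heq
      have hlm : ∀ x y, x ≤ y → lam Λ.y1 Λ.y2 (c + x) + y ≤ lam Λ.y1 Λ.y2 (c + y) + x := by
        intro x y hxy
        have := lg_lam_sh (y1 := Λ.y1) (y2 := Λ.y2) (show c + x ≤ c + y by omega)
        omega
      have h9 : S.rk (oe i) = S.rk (oe i') ∧ S.rk (ee i) = S.rk (ee i') := by
        rcases S.cmp i i' hi1 hi2 hi3 hi1' hi2' hi3' hc with ⟨h7, h8⟩ | ⟨h7, h8⟩
        · have := hlm _ _ h7
          omega
        · have := hlm _ _ h7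
          omega
      refine lg_eq (S.rk_inj _ _ (lg_oe hi1 hi2).1 (lg_oe hi1 hi2).2 (lg_oe hi1' hi2').1
        (lg_oe hi1' hi2').2 (oe_odd.trans oe_odd.symm) h9.1)
        (S.rk_inj _ _ (lg_ee hi1 hi2).1 (lg_ee hi1 hi2).2 (lg_ee hi1' hi2').1
        (lg_ee hi1' hi2').2 (ee_even.trans ee_even.symm) h9.2)
    by_cases hc : S.bad (oe i) <;> by_cases hc' : S.bad (oe i')
    · rw [bs_bb S n Λ hk2 hi1 hi2 hc (ho.1 hc), bs_bb S n Λ hk2 hi1' hi2' hc' (ho'.1 hc')] at hb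
      exact hfin (n.n2 + Λ.j) ⟨fun _ => hbi'.1 hc', fun _ => hbi.1 hc⟩ (by omega)
    · have he' : ¬ S.bad (ee i') := fun h => hc' (ho'.2 h)
      rw [bs_bb S n Λ hk2 hi1 hi2 hc (ho.1 hc), bs_gg S n Λ hk2 hi1' hi2' hc' he'] at hb
      have h7 := r1 hc
      have h8 := r3 (ho.1 hc)
      have h9 := r2' hc'
      have h10 := r4' he'
      have h11 := lg_lam_sh (y1 := Λ.y1) (y2 := Λ.y2)
        (show n.n2 + Λ.j + S.rk (oe i) ≤ n.n2 + Λ.j + Λ.U + S.rk (oe i') by omega)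
      omega
    · have he : ¬ S.bad (ee i) := fun h => hc (ho.2 h)
      rw [bs_bb S n Λ hk2 hi1' hi2' hc' (ho'.1 hc'), bs_gg S n Λ hk2 hi1 hi2 hc he] at hb
      have h7 := r1' hc'
      have h8 := r3' (ho'.1 hc')
      have h9 := r2 hc
      have h10 := r4 he
      have h11 := lg_lam_sh (y1 := Λ.y1) (y2 := Λ.y2)
        (show n.n2 + Λ.j + S.rk (oe i') ≤ n.n2 + Λ.j + Λ.U + S.rk (oe i) by omega)
      omega
    · have he : ¬ S.bad (ee i) := fun h => hc (ho.2 h)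
      have he' : ¬ S.bad (ee i') := fun h => hc' (ho'.2 h)
      rw [bs_gg S n Λ hk2 hi1 hi2 hc he, bs_gg S n Λ hk2 hi1' hi2' hc' he'] at hb
      exact hfin (n.n2 + Λ.j + Λ.U) ⟨fun h => absurd (hbi.2 h) hc, fun h => absurd (hbi'.2 h) hc'⟩
        (by omega)
  · -- C_gap
    intro hU1 i hi1 hi2 hi3
    obtain ⟨ho, hbi⟩ := S.same' hi1 hi2 hi3
    obtain ⟨r1, r2, r3, r4⟩ := lg_range S hi1 hi2
    rw [hX, hX]
    by_cases hc : S.bad (oe i)
    · left
      rw [bs_bb S n Λ hk2 hi1 hi2 hc (ho.1 hc)]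
      have h7 := r1 hc
      have h8 := r3 (ho.1 hc)
      have h11 := lg_lam_sh (y1 := Λ.y1) (y2 := Λ.y2)
        (show n.n2 + Λ.j + S.rk (oe i) ≤ N + S.P + 1 by omega)
      omega
    · right
      have he : ¬ S.bad (ee i) := fun h => hc (ho.2 h)
      rw [bs_gg S n Λ hk2 hi1 hi2 hc he]
      have h7 := r2 hc
      have h8 := r4 he
      have h11 := lg_lam_sh (y1 := Λ.y1) (y2 := Λ.y2)
        (show N + S.P + Λ.U ≤ n.n2 + Λ.j + Λ.U + S.rk (oe i) by omega)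
      omega
  · -- bP
    intro i hi hqi
    have := lg_bs S n Λ hk2 hU hi
    have := lg_J S hi hqi
    omega
  · -- bQ
    intro i hi hqi
    have := lg_bs S n Λ hk2 hU hi
    have := lg_J S hi hqi
    omega
  · -- bh
    intro i hi hqi h'
    have := lg_bs S n Λ hk2 hU hi
    have := lg_Jh S hi hqi h'
    omega
  · -- bup
    intro a ha _
    have hl := S.al_ld a ha
    have ha1 := S.ld_pos a hl
    have ha2 := S.ld_lt a hl
    obtain ⟨r1, r2, r3, r4⟩ := lg_range S ha1 ha2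
    by_cases hb : S.bad (oe a)
    · have hg : ¬ S.bad (ee a) := (S.diff' hl).1 hb
      rw [bs_bg S n Λ hk2 ha1 ha2 hb hg]
      have h7 := r1 hb
      have h8 := r4 hg
      have := hlw (n.n2 + Λ.j + S.rk (oe a)) (by omega)
      omega
    · have hg : S.bad (ee a) := by
        by_contra hg
        exact hb ((S.diff' hl).2 hg)
      rw [bs_gb S n Λ hk2 ha1 ha2 hb hg]
      have h7 := r2 hb
      have h8 := r3 hg
      have := hlw (n.n2 + Λ.j + Λ.U + S.rk (oe a)) (by omega)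
      omega
  · -- shx
    intro a x ha haq hb hx hxa
    have hl := S.al_ld a ha
    have ha1 := S.ld_pos a hl
    have ha2 := S.ld_lt a hl
    obtain ⟨r1, r2, r3, r4⟩ := lg_range S ha1 ha2
    have hg : ¬ S.bad (ee a) := (S.diff' hl).1 hb
    rw [bs_bg S n Λ hk2 ha1 ha2 hb hg, hX]
    have h7 := r1 hb
    have h8 := lg_bs S n Λ hk2 hU hx
    have h9 := S.sh a x ha haq hb hx hxa
    have h10 := rk_sum S.rk a
    have h11 := lg_lam_sh (y1 := Λ.y1) (y2 := Λ.y2)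
      (show n.n2 + Λ.j + S.rk (oe a) ≤ N + S.P + 1 by omega)
    omega

end Pool.Agent.Lob5
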