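import Pool.Agent.Lob5.HoleLyB

/-!
# Layers read backwards

`LyOK N Y rv k` only speaks about the vertices `1 ≤ i < k` and the edges `1 ≤ e ≤ k`. The substitution
`i ↦ k - i`, `e ↦ k + 1 - e` (`bs (k - i)` of the one is `bs i` of the other: `hbs` below) transforms the
facts for the roles `i ↦ rv (k - i)` into those for `rv`. `kb`, `cd` are reversed as well. `hom : N.om = k`, so
all conditions `i ≠ N.om` hold for `i < k`.

Proof of `ly_rev`. First `hbs : ∀ i, 1 ≤ i → i < k → Y'.bs i = Y.bs (k - i)` (unfold `Ly.bs`; `hY.p i`,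
`hY.p (i+1)`; `k + 1 - i = (k - i) + 1`, `k + 1 - (i + 1) = k - i`), `hys : Y'.ys rv i ↔ Y.ys (fun i => rv (k - i))
(k - i)` (`k - (k - i) = i`) and `hxs` the same for `Ly.xs` (`i = N.om` is impossible). Then every field of `LyOK` for
`Y'` at `i` is the field for `Y` at `k - i`. `nxf_eq`, `nlg_eq` and `sgc` (in `Dgb`): the involution
`i ↦ k - i` of `{i ∈ range k | 1 ≤ i}` (`Finset.card_bij` or `Finset.card_nbij'`). `C_be`: the edge `e` becomes
`k + 1 - e`.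
-/

namespace Pool.Agent.Lob5

/-- the numbers for the word read backwards -/
def Nm.rev (N : Nm) (k : ℕ) : Nm :=
  { N with kb := fun i => N.kb (k - i), cd := fun i => N.cd (k - i) }

/-- `Y'` is `Y` read backwards -/
structure RevLy (Y Y' : Ly) (k : ℕ) : Prop where
  j : Y'.j = Y.j
  U : Y'.U = Y.U
  thr : Y'.thr = Y.thr
  be : Y'.be = Y.be
  nxf : Y'.nxf = Y.nxf
  nlg : Y'.nlg = Y.nlg
  X : Y'.X = Y.X
  p : ∀ e, 1 ≤ e → e ≤ k → Y'.p e = Y.p (k + 1 - e)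
  yv : ∀ i, 1 ≤ i → i < k → Y'.yv i = Y.yv (k - i)
  xv : ∀ i, 1 ≤ i → i < k → Y'.xv i = Y.xv (k - i)
  xf : ∀ i, 1 ≤ i → i < k → Y'.xf i = Y.xf (k - i)
  lg : ∀ i, 1 ≤ i → i < k → Y'.lg i = Y.lg (k - i)

private theorem card_rev_LyRev {k : ℕ} {P Q : ℕ → Prop}
    {dP : DecidablePred fun i => 1 ≤ i ∧ P i} {dQ : DecidablePred fun i => 1 ≤ i ∧ Q i}
    (h : ∀ i, 1 ≤ i → i < k → (P i ↔ Q (k - i))) :
    (@Finset.filter ℕ (fun i => 1 ≤ i ∧ P i) dP (Finset.range k)).card =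
      (@Finset.filter ℕ (fun i => 1 ≤ i ∧ Q i) dQ (Finset.range k)).card := by
  refine Finset.card_nbij' (fun i => k - i) (fun i => k - i) ?_ ?_ ?_ ?_
  · intro i hi
    simp only [Finset.coe_filter, Finset.mem_range, Set.mem_ofPred_eq] at hi ⊢
    exact ⟨by omega, by omega, (h i hi.2.1 hi.1).1 hi.2.2⟩
  · intro i hi
    simp only [Finset.coe_filter, Finset.mem_range, Set.mem_ofPred_eq] at hi ⊢
    refine ⟨by omega, by omega, (h (k - i) (by omega) (by omega)).2 ?_⟩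
    rw [Nat.sub_sub_self (by omega)]
    exact hi.2.2
  · intro i hi
    simp only [Finset.coe_filter, Finset.mem_range, Set.mem_ofPred_eq] at hi
    exact Nat.sub_sub_self (by omega)
  · intro i hi
    simp only [Finset.coe_filter, Finset.mem_range, Set.mem_ofPred_eq] at hi
    exact Nat.sub_sub_self (by omega)

theorem ly_rev {N : Nm} {Y Y' : Ly} {rv : ℕ → RV} {k : ℕ} (hk : 1 ≤ k) (hom : N.om = k)
    (h : LyOK N Y (fun i => rv (k - i)) k) (hY : RevLy Y Y' k) :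
    LyOK (N.rev k) Y' rv k := by
  obtain ⟨j', U', thr', be', nxf', nlg', yv', xv', xf', lg', p', X'⟩ := Y'
  obtain ⟨e1, e2, e3, e4, e5, e6, e7, hp, hyv, hxv, hxf, hlg⟩ := hY
  dsimp only at e1 e2 e3 e4 e5 e6 e7 hp hyv hxv hxf hlg
  subst e1 e2 e3 e4 e5 e6 e7
  have hbs : ∀ i, 1 ≤ i → i < k → p' i + p' (i + 1) = Y.bs (k - i) := by
    intro i h1 h2
    rw [hp i h1 h2.le, hp (i + 1) (by omega) (by omega)]
    unfold Ly.bs
    have a1 : k + 1 - i = k - i + 1 := by omega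
    have a2 : k + 1 - (i + 1) = k - i := by omega
    rw [a1, a2, add_comm]
  have hrv : ∀ i, 1 ≤ i → i < k → rv (k - (k - i)) = rv i := by
    intro i h1 h2
    rw [Nat.sub_sub_self h2.le]
  have hys : ∀ i, 1 ≤ i → i < k → (Ly.ys ⟨Y.j, Y.U, Y.thr, Y.be, Y.nxf, Y.nlg, yv', xv', xf',
      lg', p', Y.X⟩ rv i ↔ Y.ys (fun i => rv (k - i)) (k - i)) := by
    intro i h1 h2
    unfold Ly.ys
    beta_reduce
    rw [hrv i h1 h2]
    dsimp only
    rw [hlg i h1 h2]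
  have hxs : ∀ i, 1 ≤ i → i < k → (Ly.xs ⟨Y.j, Y.U, Y.thr, Y.be, Y.nxf, Y.nlg, yv', xv', xf',
      lg', p', Y.X⟩ (N.rev k) rv i ↔ Y.xs N (fun i => rv (k - i)) (k - i)) := by
    intro i h1 h2
    unfold Ly.xs
    beta_reduce
    rw [hrv i h1 h2]
    dsimp only
    rw [hxf i h1 h2]
    have a1 : ¬ (i = (N.rev k).om ∧ rv i = .II) := by
      intro hh
      have : i = N.om := hh.1
      omega
    have a2 : ¬ (k - i = N.om ∧ rv i = .II) := by
      intro hh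
      have := hh.1
      omega
    simp only [a1, a2]
  have hsg : (N.rev k).sgc rv k = N.sgc (fun i => rv (k - i)) k := by
    unfold Nm.sgc
    refine card_rev_LyRev fun i h1 h2 => ?_
    beta_reduce
    rw [hrv i h1 h2]
    have a1 : (N.rev k).cd i = N.cd (k - i) := rfl
    have a2 : (N.rev k).om = N.om := rfl
    have a3 : i ≠ N.om := by omega
    have a4 : k - i ≠ N.om := by omega
    rw [a1, a2]
    simp only [ne_eq, a3, a4]
  have m1 : ∀ i, 1 ≤ i → i < k → 1 ≤ k - i := fun i h1 h2 => by omega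
  have m2 : ∀ i, 1 ≤ i → i < k → k - i < k := fun i h1 h2 => by omega
  have m3 : ∀ i i', i < k → i' < k → k - i = k - i' → i = i' := fun i i' h1 h2 h3 => by omega
  have m4 : ∀ i, i < k → i ≠ N.om := fun i h1 => by omega
  have hFR : (∃ i, 1 ≤ i ∧ i < k ∧ rv i = .FR) → ∃ i, 1 ≤ i ∧ i < k ∧ rv (k - i) = .FR := by
    rintro ⟨i, h1, h2, h3⟩
    exact ⟨k - i, m1 i h1 h2, m2 i h1 h2, by rw [hrv i h1 h2]; exact h3⟩
  constructor
  case eN => exact h.eN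
  case U_ge => exact h.U_ge
  case U_eq => exact h.U_eq
  case nxf_eq =>
    refine h.nxf_eq.trans (card_rev_LyRev fun i h1 h2 => ?_).symm
    exact hxs i h1 h2
  case nlg_le => exact h.nlg_le
  case nlg_eq =>
    refine h.nlg_eq.trans (card_rev_LyRev fun i h1 h2 => ?_).symm
    beta_reduce
    rw [hrv i h1 h2]
    dsimp only
    rw [hlg i h1 h2]
  case be_ge => exact h.be_ge
  case be_le => exact h.be_le
  case be_thr => exact h.be_thr
  case thr_le => exact h.thr_le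
  case thr_le' => exact h.thr_le'
  case g1_ge => exact h.g1_ge
  case g1_thr => exact h.g1_thr
  case g0_be => exact h.g0_be
  case zone => exact h.zone
  case p_rng =>
    intro e h1 h2
    dsimp only
    rw [hp e h1 h2]
    exact h.p_rng (k + 1 - e) (by omega) (by omega)
  case p_inj =>
    intro e f h1 h2 h3 h4 h5
    dsimp only at h5
    rw [hp e h1 h2, hp f h3 h4] at h5
    have := h.p_inj (k + 1 - e) (k + 1 - f) (by omega) (by omega) (by omega) (by omega) h5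
    omega
  case p_one =>
    dsimp only
    rw [hp 1 le_rfl hk]
    exact h.p_last
  case p_last =>
    dsimp only
    rw [hp k hk le_rfl, Nat.add_sub_cancel_left]
    exact h.p_one
  case X_mono => exact h.X_mono
  case X_zero => exact h.X_zero
  case X_rng => exact h.X_rng
  case X_lo => exact h.X_lo
  case X_p =>
    intro i e h1 h2 h3 h4
    dsimp only
    rw [hp e h3 h4]
    exact h.X_p i _ h1 h2 (by omega) (by omega)
  case y_rng =>
    intro i h1 h2 h3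
    have := h.y_rng (k - i) (m1 i h1 h2) (m2 i h1 h2) ((hys i h1 h2).1 h3)
    dsimp only
    rw [hyv i h1 h2]
    exact this
  case y_X =>
    intro i n h1 h2 h3 h4 h5
    dsimp only
    rw [hyv i h1 h2]
    exact h.y_X (k - i) n (m1 i h1 h2) (m2 i h1 h2) ((hys i h1 h2).1 h3) h4 h5
  case y_p =>
    intro i e h1 h2 h3 h4 h5
    dsimp only
    rw [hyv i h1 h2, hp e h4 h5]
    exact h.y_p (k - i) _ (m1 i h1 h2) (m2 i h1 h2) ((hys i h1 h2).1 h3) (by omega) (by omega)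
  case y_inj =>
    intro i i' h1 h2 h3 h4 h5 h6 h7
    dsimp only at h7
    rw [hyv i h1 h2, hyv i' h4 h5] at h7
    exact m3 i i' h2 h5 (h.y_inj _ _ (m1 i h1 h2) (m2 i h1 h2) ((hys i h1 h2).1 h3)
      (m1 i' h4 h5) (m2 i' h4 h5) ((hys i' h4 h5).1 h6) h7)
  case x_rng =>
    intro i h1 h2 h3
    have := h.x_rng (k - i) (m1 i h1 h2) (m2 i h1 h2) ((hxs i h1 h2).1 h3)
    dsimp only
    rw [hxv i h1 h2]
    exact this
  case x_X =>
    intro i n h1 h2 h3 h4 h5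
    dsimp only
    rw [hxv i h1 h2]
    exact h.x_X (k - i) n (m1 i h1 h2) (m2 i h1 h2) ((hxs i h1 h2).1 h3) h4 h5
  case x_p =>
    intro i e h1 h2 h3 h4 h5
    dsimp only
    rw [hxv i h1 h2, hp e h4 h5]
    exact h.x_p (k - i) _ (m1 i h1 h2) (m2 i h1 h2) ((hxs i h1 h2).1 h3) (by omega) (by omega)
  case x_inj =>
    intro i i' h1 h2 h3 h4 h5 h6 h7
    dsimp only at h7
    rw [hxv i h1 h2, hxv i' h4 h5] at h7
    exact m3 i i' h2 h5 (h.x_inj _ _ (m1 i h1 h2) (m2 i h1 h2) ((hxs i h1 h2).1 h3)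
      (m1 i' h4 h5) (m2 i' h4 h5) ((hxs i' h4 h5).1 h6) h7)
  case x_y =>
    intro i i' h1 h2 h3 h4 h5 h6
    dsimp only
    rw [hxv i h1 h2, hyv i' h4 h5]
    exact h.x_y _ _ (m1 i h1 h2) (m2 i h1 h2) ((hxs i h1 h2).1 h3)
      (m1 i' h4 h5) (m2 i' h4 h5) ((hys i' h4 h5).1 h6)
  case C_inj =>
    intro i i' h1 h2 h3 h4 h5 h6 h7
    change p' i + p' (i + 1) = p' i' + p' (i' + 1) at h7
    rw [hbs i h1 h2, hbs i' h4 h5] at h7
    exact m3 i i' h2 h5 (h.C_inj _ _ (m1 i h1 h2) (m2 i h1 h2) ((hrv i h1 h2).trans h3)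
      (m1 i' h4 h5) (m2 i' h4 h5) ((hrv i' h4 h5).trans h6) h7)
  case C_be =>
    intro i h1 h2 h3
    change Y.be < p' i + p' (i + 1) ∨ ∃ e, 2 ≤ e ∧ e < k ∧ p' i + p' (i + 1) = p' e
    rw [hbs i h1 h2]
    rcases h.C_be (k - i) (m1 i h1 h2) (m2 i h1 h2) ((hrv i h1 h2).trans h3) with h4 | h4
    · exact Or.inl h4
    · obtain ⟨e, h5, h6, h7⟩ := h4
      refine Or.inr ⟨k + 1 - e, by omega, by omega, ?_⟩
      rw [hp (k + 1 - e) (by omega) (by omega), h7]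
      congr 1
      omega
  case C_gap =>
    intro hu i h1 h2 h3
    change p' i + p' (i + 1) < N.w + N.N0 + N.Q + 1 + Y.X 1 ∨ N.g1 + Y.X Y.U < p' i + p' (i + 1)
    rw [hbs i h1 h2]
    exact h.C_gap hu (k - i) (m1 i h1 h2) (m2 i h1 h2) ((hrv i h1 h2).trans h3)
  case C_thr =>
    intro i h1 h2 h3
    change p' i + p' (i + 1) ≤ Y.thr
    rw [hbs i h1 h2]
    exact h.C_thr (k - i) (m1 i h1 h2) (m2 i h1 h2) ((hrv i h1 h2).trans h3)
  case V_be =>
    intro i h1 h2 h3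
    change Y.be < p' i + p' (i + 1) + yv' i
    rw [hbs i h1 h2, hyv i h1 h2]
    exact h.V_be (k - i) (m1 i h1 h2) (m2 i h1 h2) ((hys i h1 h2).1 h3)
  case V_thr =>
    intro i h1 h2 h3
    change p' i + p' (i + 1) + yv' i ≤ Y.thr
    rw [hbs i h1 h2, hyv i h1 h2]
    exact h.V_thr (k - i) (m1 i h1 h2) (m2 i h1 h2) ((hys i h1 h2).1 h3)
  case V_C =>
    intro i i' h1 h2 h3 h4 h5 h6
    change p' i + p' (i + 1) + yv' i ≠ p' i' + p' (i' + 1)
    rw [hbs i h1 h2, hyv i h1 h2, hbs i' h4 h5]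
    exact h.V_C _ _ (m1 i h1 h2) (m2 i h1 h2) ((hys i h1 h2).1 h3) (m1 i' h4 h5) (m2 i' h4 h5)
      ((hrv i' h4 h5).trans h6)
  case V_inj =>
    intro i i' h1 h2 h3 h4 h5 h6 h7
    change p' i + p' (i + 1) + yv' i = p' i' + p' (i' + 1) + yv' i' at h7
    rw [hbs i h1 h2, hyv i h1 h2, hbs i' h4 h5, hyv i' h4 h5] at h7
    exact m3 i i' h2 h5 (h.V_inj _ _ (m1 i h1 h2) (m2 i h1 h2) ((hys i h1 h2).1 h3)
      (m1 i' h4 h5) (m2 i' h4 h5) ((hys i' h4 h5).1 h6) h7)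
  case V_gap =>
    intro hu i h1 h2 h3
    change p' i + p' (i + 1) + yv' i < N.w + N.N0 + N.Q + 1 + Y.X 1 ∨
      N.g1 + Y.X Y.U < p' i + p' (i + 1) + yv' i
    rw [hbs i h1 h2, hyv i h1 h2]
    exact h.V_gap hu (k - i) (m1 i h1 h2) (m2 i h1 h2) ((hys i h1 h2).1 h3)
  case lg_rng =>
    intro i h1 h2 h3 h4
    change N.w + N.N0 + N.Q + 1 ≤ p' i + p' (i + 1) ∧ p' i + p' (i + 1) ≤ N.g1
    dsimp only at h4
    rw [hlg i h1 h2] at h4
    rw [hbs i h1 h2]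
    exact h.lg_rng (k - i) (m1 i h1 h2) (m2 i h1 h2) ((hrv i h1 h2).trans h3) h4
  case bA =>
    intro i h1 h2 h3
    change Y.thr < p' i + p' (i + 1) + N.w + 1
    rw [hbs i h1 h2]
    exact h.bA (k - i) (m1 i h1 h2) (m2 i h1 h2) (by beta_reduce; rw [hrv i h1 h2]; exact h3)
  case bN =>
    intro i h1 h2 _ h3
    change Y.thr < p' i + p' (i + 1) + N.w + 1 + Y.X 1
    rw [hbs i h1 h2]
    exact h.bN (k - i) (m1 i h1 h2) (m2 i h1 h2) (m4 _ (m2 i h1 h2))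
      (by beta_reduce; rw [hrv i h1 h2]; exact h3)
  case bc =>
    intro i h1 h2 _ h3 h4
    change Y.thr < p' i + p' (i + 1) + N.w + 1
    rw [hbs i h1 h2]
    exact h.bc (k - i) (m1 i h1 h2) (m2 i h1 h2) (m4 _ (m2 i h1 h2))
      (by beta_reduce; rw [hrv i h1 h2]; exact h3) h4
  case bT =>
    intro i h1 h2 h3
    change Y.thr < p' i + p' (i + 1) + N.w + N.N0 + N.Q + 1
    rw [hbs i h1 h2]
    exact h.bT (k - i) (m1 i h1 h2) (m2 i h1 h2) (by beta_reduce; rw [hrv i h1 h2]; exact h3)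
  case P2 =>
    rcases h.P2 with h3 | h3
    · exact Or.inl h3
    · refine Or.inr fun i h1 h2 h4 => ?_
      exact h3 (k - i) (m1 i h1 h2) (m2 i h1 h2) (by beta_reduce; rw [hrv i h1 h2]; exact h4)
  case Dbb =>
    intro a z a1 a2 z1 z2 h3 h4 h5
    change p' a + p' (a + 1) ≤ p' z + p' (z + 1) + N.Q + max 1 (N.dl + N.et)
    rw [hbs a a1 a2, hbs z z1 z2]
    exact h.Dbb _ _ (m1 a a1 a2) (m2 a a1 a2) (m1 z z1 z2) (m2 z z1 z2)
      (by beta_reduce; rw [hrv a a1 a2]; exact h3) (by beta_reduce; rw [hrv z z1 z2]; exact h4) h5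
  case Dbr =>
    intro hf a z a1 a2 z1 z2 h3 h4 h5
    change p' a + p' (a + 1) ≤ p' z + p' (z + 1) + N.Q
    rw [hbs a a1 a2, hbs z z1 z2]
    exact h.Dbr (hFR hf) _ _ (m1 a a1 a2) (m2 a a1 a2) (m1 z z1 z2) (m2 z z1 z2)
      (by beta_reduce; rw [hrv a a1 a2]; exact h3) (by beta_reduce; rw [hrv z z1 z2]; exact h4) h5
  case Dgg =>
    intro a z a1 a2 z1 z2 h3 h4 h5 h6
    change p' a + p' (a + 1) ≤ p' z + p' (z + 1) + N.Q + N.et + N.dl
    rw [hbs a a1 a2, hbs z z1 z2]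
    exact h.Dgg _ _ (m1 a a1 a2) (m2 a a1 a2) (m1 z z1 z2) (m2 z z1 z2)
      (by beta_reduce; rw [hrv a a1 a2]; exact h3) (by beta_reduce; rw [hrv z z1 z2]; exact h4)
      h5 h6
  case Dgb =>
    intro a z a1 a2 z1 z2 h3 h4 h5 h6
    rw [hsg]
    change p' a + p' (a + 1) + _ + N.nT + Y.j + N.c0 ≤ p' z + p' (z + 1) + N.Q + N.Ux + N.et +
      N.dl
    rw [hbs a a1 a2, hbs z z1 z2]
    exact h.Dgb _ _ (m1 a a1 a2) (m2 a a1 a2) (m1 z z1 z2) (m2 z z1 z2)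
      (by beta_reduce; rw [hrv a a1 a2]; exact h3) (by beta_reduce; rw [hrv z z1 z2]; exact h4)
      h5 h6
  case bupb =>
    intro a a1 a2 h3 h5
    change p' a + p' (a + 1) + 1 ≤ 2 * N.w + N.N0 + N.P
    rw [hbs a a1 a2]
    exact h.bupb _ (m1 a a1 a2) (m2 a a1 a2) (by beta_reduce; rw [hrv a a1 a2]; exact h3) h5
  case bupg =>
    intro a a1 a2 h3 h5
    change p' a + p' (a + 1) ≤ 2 * N.w + N.N0 + N.Q
    rw [hbs a a1 a2]
    exact h.bupg _ (m1 a a1 a2) (m2 a a1 a2) (by beta_reduce; rw [hrv a a1 a2]; exact h3) h5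
  case shx =>
    intro a x a1 a2 x1 x2 h3 h4 _ h6
    change p' a + p' (a + 1) < p' x + p' (x + 1) + Y.X 1
    rw [hbs a a1 a2, hbs x x1 x2]
    exact h.shx _ _ (m1 a a1 a2) (m2 a a1 a2) (m1 x x1 x2) (m2 x x1 x2)
      (by beta_reduce; rw [hrv a a1 a2]; exact h3) h4 (m4 _ (m2 x x1 x2))
      (by beta_reduce; rw [hrv x x1 x2]; exact h6)
  case bbP =>
    intro he a z a1 a2 z1 z2 h3 h4 h5 h6
    change p' a + p' (a + 1) ≤ p' z + p' (z + 1) + N.P
    rw [hbs a a1 a2, hbs z z1 z2]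
    exact h.bbP he _ _ (m1 a a1 a2) (m2 a a1 a2) (m1 z z1 z2) (m2 z z1 z2)
      (by beta_reduce; rw [hrv a a1 a2]; exact h3) (by beta_reduce; rw [hrv z z1 z2]; exact h4)
      h5 h6
  case lt =>
    intro he hu a x a1 a2 x1 x2 h3 h4 _ h6 h7
    change p' x + p' (x + 1) + Y.X 1 ≤ p' a + p' (a + 1) at h7
    rw [hbs a a1 a2, hbs x x1 x2] at h7
    exact h.lt he hu _ _ (m1 a a1 a2) (m2 a a1 a2) (m1 x x1 x2) (m2 x x1 x2)
      (by beta_reduce; rw [hrv a a1 a2]; exact h3) h4 (m4 _ (m2 x x1 x2))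
      (by beta_reduce; rw [hrv x x1 x2]; exact h6) h7
  case xW1 =>
    intro i z h1 h2 z1 z2 h3 h4 h5
    change yv' i + N.s0v + xv' i < p' z + p' (z + 1) + N.Q + 1 + N.et
    dsimp only at h3
    rw [hxf i h1 h2] at h3
    rw [hbs z z1 z2, hyv i h1 h2, hxv i h1 h2]
    exact h.xW1 _ _ (m1 i h1 h2) (m2 i h1 h2) (m1 z z1 z2) (m2 z z1 z2) h3
      ((hrv i h1 h2).trans h4) (by beta_reduce; rw [hrv z z1 z2]; exact h5)
  case xW2 =>
    intro i h1 h2 h3 h4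
    change yv' i + N.s0v + xv' i ≤ 2 * N.w + N.N0 + N.Q + Y.X 1
    dsimp only at h3
    rw [hxf i h1 h2] at h3
    rw [hyv i h1 h2, hxv i h1 h2]
    exact h.xW2 _ (m1 i h1 h2) (m2 i h1 h2) h3 ((hrv i h1 h2).trans h4)
  case oW1 =>
    intro i z h1 h2 z1 z2 _ h4
    exact absurd h4 (m4 i h2)
  case oW2 =>
    intro i h1 h2 _ h4
    exact absurd h4 (m4 i h2)
  case Xr =>
    intro n r n1 n2 r1 r2 h3
    change Y.X n + N.w + N.N0 + N.nT ≤ p' r + p' (r + 1) + n + 2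
    rw [hbs r r1 r2]
    exact h.Xr n _ n1 n2 (m1 r r1 r2) (m2 r r1 r2) (by beta_reduce; rw [hrv r r1 r2]; exact h3)
  case Rq =>
    intro i h1 h2 h3
    change p' i + p' (i + 1) + 1 < 2 * N.w + N.N0 + Y.X 1
    rw [hbs i h1 h2]
    exact h.Rq _ (m1 i h1 h2) (m2 i h1 h2) ((hrv i h1 h2).trans h3)
  case Rd =>
    intro hf i o h1 h2 o1 o2 h3 h4
    change p' i + p' (i + 1) ≤ p' o + p' (o + 1) + N.w
    rw [hbs i h1 h2, hbs o o1 o2]
    exact h.Rd (hFR hf) _ _ (m1 i h1 h2) (m2 i h1 h2) (m1 o o1 o2) (m2 o o1 o2)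
      (by beta_reduce; rw [hrv i h1 h2]; exact h3) (by beta_reduce; rw [hrv o o1 o2]; exact h4)

end Pool.Agent.Lob5
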