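import Pool.Agent.Lob5.LowGen
import Pool.Agent.Lob5.LowGen2

/-!
# No special vertex (`sp = 0`, modes 0 and 5)

Notation: `w = wz S n`, `m = mz S n`, `J i = rk i + rk (i+1) = rk (oe i) + rk (ee i)`.
Bases of loaded vertices by `bs_bg` (odd edge bad, kind b) and `bs_gb` (odd edge good, kind g):
kind b: `w+N0+nT+(n2+j+J)+s`, kind g: `w+N0+(n2+j+U+J)+s`, where the shift `s` is the number of
inserted labels below the odd edge. Unloaded vertices: `bs_bb`, `bs_gg`. The `D`-fields follow from
`S.tbb, S.tbg, S.tgb, S.tgg` (with the value of `S.mode` inserted), `U ≥ nT` and the bounds for the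
shifts. For kind b `a` and kind g `z` use `U ≥ nT`. For a kind b vertex the good even edge exists.

`layNone`: `U = Ux - j`, no inserted labels (`y1 = w+1`, `y2 = w+2`), `lam p = p` for positions
`p ≤ w`. `low_none` is `lowOK_gen`. In `mod_none` all fields with `sp ≠ 0`, `xsf`, `lg` are vacuous;
`Adm` excludes the modes 1 to 4. All shifts are 0:
`Dbb`: kind b/b `J a + (0 or 1) ≤ J z + Q + 1`; `Dgb`: `U + j = Ux`.
`r1`: mode 5 (`m5`: `q` even, `rk q = 1` bad even edge, `rk (q+1) = P+1` good odd edge):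
`bs q = (w+N0+1) + (n2+j+U+P+1)`. `r1_dist`: upper bounds kind g `J ≤ h+1+Q`, kind b `J ≤ P+h`,
lower bounds for `o ≠ q`: kind b `J ≥ P, Q+2`, kind g `J ≥ P+2, Q`; `w = n2+j+U+h+1`.
-/

namespace Pool.Agent.Lob5

variable {k : ℕ} {ld al : ℕ → Prop}

private theorem wN (S : Seam k ld al) (n : Num) (hs : n.sp = 0) :
    wz S n = n.n2 + n.Ux + S.h + 1 := by
  simp [wz, hs]

private theorem jUN (S : Seam k ld al) (n : Num) (j : ℕ) (hs : n.sp = 0) (hA : Adm S n j) :
    n.nT + j ≤ n.Ux := by
  have := hA.jU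
  rw [hs] at this
  simpa using this

private theorem lam_id {w p : ℕ} (h : p ≤ w) : lam (w + 1) (w + 2) p = p := by
  unfold lam
  rw [if_neg (by omega), if_neg (by omega)]
  omega

private theorem oe_range {i : ℕ} (h1 : 1 ≤ i) (h2 : i < k) : 1 ≤ oe i ∧ oe i ≤ k := by
  unfold oe
  split_ifs <;> omega

private theorem ee_range {i : ℕ} (h1 : 1 ≤ i) (h2 : i < k) : 1 ≤ ee i ∧ ee i ≤ k := by
  unfold ee
  split_ifs <;> omega

/-- facts for a loaded vertex with bad odd edge -/
private theorem base_b (S : Seam k ld al) (n : Num) (j : ℕ) (hs : n.sp = 0) (hA : Adm S n j)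
    {i : ℕ} (hi : ld i) (ho : S.bad (oe i)) :
    bs S n (layNone S n j) i = wz S n + n.N0 + n.nT + n.n2 + j + (S.rk i + S.rk (i + 1)) ∧
      S.rk i + S.rk (i + 1) ≤ S.P + S.h := by
  have h1 := S.ld_pos i hi
  have h2 := S.ld_lt i hi
  have he : ¬ S.bad (ee i) := (S.diff' hi).1 ho
  have hsum := rk_sum S.rk i
  have hor := oe_range (k := k) h1 h2
  have her := ee_range (k := k) h1 h2
  have hro := S.rk_ob (oe i) hor.1 hor.2 oe_odd ho
  have hre := S.rk_eg (ee i) her.1 her.2 ee_even he
  have hw := wN S n hs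
  have hj := jUN S n j hs hA
  have hP := S.Ph
  refine ⟨?_, by omega⟩
  rw [bs_bg S n (layNone S n j) rfl h1 h2 ho he]
  have hl : lam (layNone S n j).y1 (layNone S n j).y2
      (n.n2 + (layNone S n j).j + S.rk (oe i)) = n.n2 + j + S.rk (oe i) :=
    lam_id (by show n.n2 + j + S.rk (oe i) ≤ wz S n; omega)
  rw [hl]
  omega

/-- facts for a loaded vertex with good odd edge -/
private theorem base_g (S : Seam k ld al) (n : Num) (j : ℕ) (hs : n.sp = 0) (hA : Adm S n j)
    {i : ℕ} (hi : ld i) (ho : ¬ S.bad (oe i)) :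
    bs S n (layNone S n j) i = wz S n + n.N0 + n.n2 + n.Ux + (S.rk i + S.rk (i + 1)) ∧
      S.rk i + S.rk (i + 1) ≤ S.h + 1 + S.Q := by
  have h1 := S.ld_pos i hi
  have h2 := S.ld_lt i hi
  have he : S.bad (ee i) := by
    by_contra hc
    exact ho ((S.diff' hi).2 hc)
  have hsum := rk_sum S.rk i
  have hor := oe_range (k := k) h1 h2
  have her := ee_range (k := k) h1 h2
  have hro := S.rk_og (oe i) hor.1 hor.2 oe_odd ho
  have hre := S.rk_eb (ee i) her.1 her.2 ee_even he
  have hw := wN S n hs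
  have hj := jUN S n j hs hA
  refine ⟨?_, by omega⟩
  rw [bs_gb S n (layNone S n j) rfl h1 h2 ho he]
  have hl : lam (layNone S n j).y1 (layNone S n j).y2
      (n.n2 + (layNone S n j).j + (layNone S n j).U + S.rk (oe i))
        = n.n2 + j + (n.Ux - j) + S.rk (oe i) :=
    lam_id (by show n.n2 + j + (n.Ux - j) + S.rk (oe i) ≤ wz S n; omega)
  rw [hl]
  omega

private theorem modeN (S : Seam k ld al) (n : Num) (j : ℕ) (hs : n.sp = 0) (hA : Adm S n j) :
    S.mode = 0 ∨ S.mode = 5 := by
  have h5 := S.mode_le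
  by_contra hc
  have := (hA.sp14 (by omega) (by omega)).1
  omega

theorem low_none (S : Seam k ld al) (n : Num) (j : ℕ) (hs : n.sp = 0) (hA : Adm S n j) :
    LowOK S n (layNone S n j) := by
  have hw := wN S n hs
  have hj := jUN S n j hs hA
  refine lowOK_gen S n (layNone S n j) rfl ?_ ?_ ?_ ?_
  · show n.n2 + j < wz S n + 1
    omega
  · show wz S n + 1 < wz S n + 2
    omega
  · show wz S n = n.n2 + j + (n.Ux - j) + S.h + 1 + (if wz S n + 1 ≤ wz S n then 1 else 0)
      + (if wz S n + 2 ≤ wz S n then 1 else 0)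
    rw [if_neg (by omega), if_neg (by omega)]
    omega
  · show n.nT ≤ n.Ux - j
    omega

theorem mod_none (S : Seam k ld al) (n : Num) (j : ℕ) (hs : n.sp = 0) (hA : Adm S n j) :
    ModOK S n (layNone S n j) := by
  have hw := wN S n hs
  have hj := jUN S n j hs hA
  have hm := modeN S n j hs hA
  have hlg : (layNone S n j).lg = false := rfl
  have hxs : (layNone S n j).xsf = false := rfl
  refine ⟨?_, ?_, ?_, ?_, ?_, ?_, ?_, ?_, ?_, ?_, ?_, ?_, ?_⟩
  · show (n.Ux - j) + j + (if false = true then 1 else 0) = n.Ux + (if false = true then 1 else 0)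
    simp
    omega
  · intro h; exact absurd hs h
  · intro h; rw [hxs] at h; exact absurd h (by simp)
  · intro h; rw [hlg] at h; exact absurd h (by simp)
  · intro h; exact absurd hs h
  · intro h; exact absurd hs h
  · intro h; exact absurd hs h
  · intro h; exact absurd hs h
  · intro h; rw [hs] at h; exact absurd h (by norm_num)
  · intro h; rw [hxs] at h; exact absurd h (by simp)
  · intro a z ha haq hba hz hza
    have hla := S.al_ld a ha
    obtain ⟨hbs, -⟩ := base_b S n j hs hA hla hba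
    by_cases hbz : S.bad (oe z)
    · obtain ⟨hbz', -⟩ := base_b S n j hs hA hz hbz
      have ht := S.tbb a z ha haq hba hz hza hbz
      rw [hbs, hbz']
      rcases hm with hm | hm
      · simp [hm] at ht ⊢
        omega
      · simp [hm, hs] at ht ⊢
        omega
    · obtain ⟨hbz', -⟩ := base_g S n j hs hA hz hbz
      have ht := S.tbg a z ha haq hba hz hza hbz
      rw [hbs, hbz']
      have h4 : S.mode ≠ 4 := by omega
      rw [if_neg h4] at ht
      split_ifs <;> omega
  · intro a z ha haq hba hz hza hbz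
    obtain ⟨hbs, -⟩ := base_g S n j hs hA (S.al_ld a ha) hba
    obtain ⟨hbz', -⟩ := base_g S n j hs hA hz hbz
    have ht := S.tgg a z ha haq hba hz hza hbz
    rw [hbs, hbz']
    split_ifs <;> omega
  · intro a z ha haq hba hz hza hbz
    obtain ⟨hbs, -⟩ := base_g S n j hs hA (S.al_ld a ha) hba
    obtain ⟨hbz', -⟩ := base_b S n j hs hA hz hbz
    have ht := S.tgb a z ha haq hba hz hza hbz
    rw [hbs, hbz']
    show _ + _ + n.nT + j ≤ _
    have h1 : (1 : ℕ) ≤ (if S.mode = 0 ∨ S.mode = 3 then 1 else 2) := by split_ifs <;> omega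
    omega

theorem r1_base (S : Seam k ld al) (n : Num) (j : ℕ) (hs : n.sp = 0) (hA : Adm S n j)
    (hm : S.mode = 5) :
    bs S n (layNone S n j) S.q = wz S n + n.N0 + n.n2 + n.Ux + S.P + 2 := by
  obtain ⟨hal, hbq, hq2, hr1, hr2⟩ := S.m5 hm
  have hl := S.al_ld _ hal
  have hoe : oe S.q = S.q + 1 := by unfold oe; rw [if_neg (by omega)]
  have hng : ¬ S.bad (oe S.q) := by rw [hoe]; exact (S.diff _ hl).1 hbq
  obtain ⟨hb, -⟩ := base_g S n j hs hA hl hng
  rw [hb]
  omega

theorem r1_dist (S : Seam k ld al) (n : Num) (j : ℕ) (hs : n.sp = 0) (hA : Adm S n j)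
    (hm : S.mode = 5) (i o : ℕ) (hi : ld i) (ho : ld o) (hoq : o ≠ S.q) :
    bs S n (layNone S n j) i ≤ bs S n (layNone S n j) o + wz S n := by
  have hw := wN S n hs
  have hj := jUN S n j hs hA
  by_cases hbi : S.bad (oe i)
  · obtain ⟨hb, hu⟩ := base_b S n j hs hA hi hbi
    by_cases hbo : S.bad (oe o)
    · obtain ⟨hb', -⟩ := base_b S n j hs hA ho hbo
      have hlo := S.lowb o ho hoq hbo
      omega
    · obtain ⟨hb', -⟩ := base_g S n j hs hA ho hbo
      have hlo := S.lowg o ho hoq hbo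
      omega
  · obtain ⟨hb, hu⟩ := base_g S n j hs hA hi hbi
    by_cases hbo : S.bad (oe o)
    · obtain ⟨hb', -⟩ := base_b S n j hs hA ho hbo
      have hlo := S.lowb o ho hoq hbo
      omega
    · obtain ⟨hb', -⟩ := base_g S n j hs hA ho hbo
      have hlo := S.lowg o ho hoq hbo
      omega

end Pool.Agent.Lob5
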