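import Pool.Agent.Lob5.P2Str

/-!
# `P2OK` from the facts about the new vertex

`p2ok_z, p2ok_L, pre_R`: by definition. `p2ok_z`: `P2Pre`, `VOK` (`thr, C, gap`), `ffr` is void (`n.sp ≠ 0`), `L_..` are void. `p2ok_L`:
`flow_Z`, `fmod_Z` (`LayZ.P`), `ffr` (see the `p2_sel0` in `P2S0`, `p3_sel` in `P3Sel`), `U_P` for `U_eq`, `L_rng`: `h1, h2`. `pre_R`: for `LayR` (`P3Sel`,
`HoleAll`): `flow_Z, fmod_Z, fzed_R` and `FZed`.
-/

namespace Pool.Agent.Lob5

variable {k : ℕ} {ld al : ℕ → Prop}

theorem p2ok_z {S : Seam k ld al} {n : Num} {e : ℕ} {Λ : FLay} (hp : P2Pre S n Λ)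
    (hs : n.sp ≠ 0) (hv : VOK S n e Λ)
    (hVV : Λ.lg = false → Λ.bs S.q + Λ.y ≠ Λ.vk S n e) : P2OK S n e Λ false := by
  exact
    { flow := hp.flow
      fmod := hp.fmod
      ffr := fun h => absurd h hs
      U_eq := by
        have h1 := hp.U_eq
        simpa using h1
      z_rng := fun _ => hp.z_rng
      z_p := fun _ => hp.z_p
      z_X := fun _ => hp.z_X
      z_y := fun _ => hp.z_y
      z_xs := fun _ => hp.z_xs
      V_thr := fun _ => hv.thr
      V_C := fun _ => hv.C
      V_V := fun _ _ => hVV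
      V_gap := fun _ => hv.gap
      L_lg := fun h => absurd h (by simp)
      L_rng := fun h => absurd h (by simp) }

theorem p2ok_L (S : Seam k ld al) (n : Num) (e j : ℕ) (hA : Adm S n j)
    (hlg : (funP S n j).lg = false)
    (h1 : wz S n.up + n.N0 + S.Q + 1 ≤ (funP S n j).p 1 + pkZ S n e)
    (h2 : (funP S n j).p 1 + pkZ S n e ≤ wz S n.up + n.N0 + S.Q + n.nT + 1) :
    P2OK S n e (funP S n j) true := by
  exact
    { flow := flow_Z S n j hA LayZ.P
      fmod := fmod_Z S n j hA LayZ.P
      ffr := fun hs hm => ffr S n j hs hm hA LayZ.P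
      U_eq := by
        have h3 := (U_P S n j hA).1
        rw [hlg] at h3 ⊢
        change (funP S n j).U + j + _ = _
        simp at h3 ⊢
        omega
      z_rng := fun h => absurd h (by simp)
      z_p := fun h => absurd h (by simp)
      z_X := fun h => absurd h (by simp)
      z_y := fun h => absurd h (by simp)
      z_xs := fun h => absurd h (by simp)
      V_thr := fun h => absurd h (by simp)
      V_C := fun h => absurd h (by simp)
      V_V := fun h => absurd h (by simp)
      V_gap := fun h => absurd h (by simp)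
      L_lg := fun _ => hlg
      L_rng := fun _ => ⟨h1, h2⟩ }

theorem pre_R (S : Seam k ld al) (n : Num) (j z : ℕ) (hA : Adm S n j) {Λ : FLay}
    (h : LayR S n j z Λ) : P2Pre S n Λ := by
  have hZ := fzed_R S n j z hA h
  have hr := hZ.rng
  exact
    { flow := flow_Z S n j hA h.Z.1
      fmod := fmod_Z S n j hA h.Z.1
      U_eq := hZ.U_eq
      z_rng := ⟨by omega, hr.2⟩
      z_p := hZ.p
      z_X := hZ.X
      z_y := hZ.y
      z_xs := hZ.xs }

end Pool.Agent.Lob5
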