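import Pool.Agent.Lob5.P2Str

/-!
# The sum at the vertex with one leaf: three more places

Cf. `von_A, von_C, von_T` in `P2Gen` (proofs there; copy the private lemmas). `w = wz S n.up`, `mz S n.up = w+N0+nT+h`.

* `von_B`: like `von_C`, in the bad zone: `v = w+N0+r+z`, `z < X 1`. Bad sums: `w+N0+p (oe)+rk (ee)`; if `rk (ee) = r` use `p (oe) ≠ z`.
  Good sums are `≥ w+N0+nT+Q+1+X 1 > v`.
* `von_top`: if the label `w` is not used by an odd edge then all sums are `< w + mz`. `X U + (h+1-P) ≤ σ top ≤ w-1`.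
* `von_R`: `v = w + mz - l`. Good vertex with `J = rk oe + rk ee`: if `J + l ≥ 2h+2` then (`half`) `2 rk oe + l ≥ 2h+2`, so the label is
  `w-(h+1)+rk oe` (`hno`) and the sum is `w+mz-(2h+1-J) > v`. If `J + l ≤ 2h` then the sum is `≤ w+mz-(2h+1-J) < v` (labels are
  `≤ w-(h+1)+rk oe`: `σ` increasing, `top`). Bad sums: `σ b + (U+h+1-P) ≤ w`. `gap`: `X U + (h+1-P) ≤ w`, `P+Q+l < 2h`.
-/

namespace Pool.Agent.Lob5

variable {k : ℕ} {ld al : ℕ → Prop}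

private theorem oe_P2StrB {i : ℕ} (h1 : 1 ≤ i) (h2 : i < k) : 1 ≤ oe i ∧ oe i ≤ k := by
  unfold oe
  split_ifs <;> omega

private theorem ee_P2StrB {i : ℕ} (h1 : 1 ≤ i) (h2 : i < k) : 1 ≤ ee i ∧ ee i ≤ k := by
  unfold ee
  split_ifs <;> omega

/-- the two labels at a vertex -/
private theorem two_P2StrB (Λ : FLay) (i : ℕ) : Λ.bs i = Λ.p (oe i) + Λ.p (ee i) := by
  unfold FLay.bs oe ee
  by_cases h : i % 2 = 1
  · rw [if_pos h, if_pos h]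
  · rw [if_neg h, if_neg h, add_comm]

private theorem sh_P2StrB {σ : ℕ → ℕ} (h : StrictMono σ) (i d : ℕ) : σ i + d ≤ σ (i + d) := by
  induction d with
  | zero => exact le_rfl
  | succ d ih =>
    have h1 := h (show i + d < i + (d + 1) by omega)
    omega

private theorem shift_P2StrB {σ : ℕ → ℕ} (h : StrictMono σ) {i j : ℕ} (hij : i ≤ j) :
    σ i + j ≤ σ j + i := by
  obtain ⟨d, rfl⟩ := Nat.exists_eq_add_of_le hij
  have := sh_P2StrB h i d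
  omega

/-- the sum at a vertex which is not loaded -/
private theorem sum_P2StrB {S : Seam k ld al} {n : Num} {Λ : FLay} {σ : ℕ → ℕ}
    (h : GLy S n Λ σ) {i : ℕ} (h1 : 1 ≤ i) (h2 : i < k) (h3 : ¬ ld i) :
    (S.bad i ∧ 1 ≤ S.rk (oe i) ∧ S.rk (oe i) ≤ S.P ∧ 1 ≤ S.rk (ee i) ∧ S.rk (ee i) ≤ S.Q ∧
      Λ.p (oe i) = σ (n.n2 + Λ.j + S.rk (oe i)) ∧
      Λ.bs i = Λ.p (oe i) + (wz S n.up + n.N0 + S.rk (ee i))) ∨
    (¬ S.bad i ∧ S.P + 1 ≤ S.rk (oe i) ∧ S.rk (oe i) ≤ S.h + 1 ∧ S.Q + 1 ≤ S.rk (ee i) ∧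
      S.rk (ee i) ≤ S.h ∧ Λ.p (oe i) = σ (n.n2 + Λ.j + S.rk (oe i) + Λ.U) ∧
      Λ.bs i = Λ.p (oe i) + (wz S n.up + n.N0 + S.rk (ee i) + n.nT)) := by
  obtain ⟨ho, hbi⟩ := S.same' h1 h2 h3
  have o1 := (oe_P2StrB h1 h2).1
  have o2 := (oe_P2StrB h1 h2).2
  have e1 := (ee_P2StrB h1 h2).1
  have e2 := (ee_P2StrB h1 h2).2
  by_cases hc : S.bad (oe i)
  · have r1 := S.rk_ob _ o1 o2 oe_odd hc
    have r2 := S.rk_eb _ e1 e2 ee_even (ho.1 hc)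
    refine Or.inl ⟨hbi.1 hc, r1.1, r1.2, r2.1, r2.2, ?_, ?_⟩
    · rw [h.podd _ oe_odd, if_pos r1.2, add_zero]
    · rw [two_P2StrB, h.peven _ ee_even, if_neg (by omega), add_zero]
  · have r1 := S.rk_og _ o1 o2 oe_odd hc
    have r2 := S.rk_eg _ e1 e2 ee_even (fun h => hc (ho.2 h))
    refine Or.inr ⟨fun h => hc (hbi.2 h), r1.1, r1.2, r2.1, r2.2, ?_, ?_⟩
    · rw [h.podd _ oe_odd, if_neg (by omega)]
    · rw [two_P2StrB, h.peven _ ee_even, if_pos (by omega)]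

theorem von_B (S : Seam k ld al) (n : Num) {Λ : FLay} {σ : ℕ → ℕ} (h : GLy S n Λ σ)
    (v z r : ℕ) (hr : r ≤ S.Q) (hv : v = wz S n.up + n.N0 + r + z) (hz : z ≤ wz S n.up)
    (hzX : z < Λ.X 1) (hzp : ∀ f, 1 ≤ f → f ≤ k → f % 2 = 1 → Λ.p f ≠ z)
    (hlt : ∀ i, 1 ≤ i → i < k → ¬ ld i → S.bad i → S.rk (ee i) < r → Λ.p (oe i) < z)
    (hgt : ∀ i, 1 ≤ i → i < k → ¬ ld i → S.bad i → r < S.rk (ee i) → z < Λ.p (oe i)) :
    VOKn S n Λ v := by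
  have hmz : mz S n.up = wz S n.up + n.N0 + n.nT + S.h := rfl
  have hQh := S.Qh
  refine ⟨by omega, ?_, ?_⟩
  · intro i i1 i2 i3
    rcases sum_P2StrB h i1 i2 i3 with ⟨a0, a1, a2, a3, a4, a5, a6⟩ | ⟨_, a1, a2, a3, a4, a5, a6⟩
    · rcases lt_trichotomy (S.rk (ee i)) r with h4 | h4 | h4
      · have h5 := hlt i i1 i2 i3 a0 h4
        omega
      · have h5 := hzp (oe i) (oe_P2StrB i1 i2).1 (oe_P2StrB i1 i2).2 oe_odd
        omega
      · have h5 := hgt i i1 i2 i3 a0 h4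
        omega
    · have h4 := h.mono.monotone
        (show n.n2 + Λ.j + S.P + 1 ≤ n.n2 + Λ.j + S.rk (oe i) + Λ.U by omega)
      have h5 := h.X 1
      omega
  · intro _
    left
    omega

theorem von_top (S : Seam k ld al) (n : Num) {Λ : FLay} {σ : ℕ → ℕ} (h : GLy S n Λ σ) (v : ℕ)
    (hPQ : 1 ≤ Λ.U → S.P + S.Q ≤ 2 * S.h)
    (htop : σ (n.n2 + Λ.j + Λ.U + S.h + 1) < wz S n.up)
    (h1 : wz S n.up + mz S n.up ≤ v)
    (h2 : v ≤ wz S n.up + mz S n.up + n.n2 + Λ.j + 1) : VOKn S n Λ v := by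
  have hmz : mz S n.up = wz S n.up + n.N0 + n.nT + S.h := rfl
  have hPh := S.Ph
  have hQh := S.Qh
  refine ⟨h2, ?_, ?_⟩
  · intro i i1 i2 i3
    rcases sum_P2StrB h i1 i2 i3 with ⟨_, a1, a2, a3, a4, a5, a6⟩ | ⟨a0, a1, a2, a3, a4, a5, a6⟩
    · have h4 := h.mono.monotone
        (show n.n2 + Λ.j + S.rk (oe i) ≤ n.n2 + Λ.j + Λ.U + S.h + 1 by omega)
      omega
    · have h4 := h.mono.monotone
        (show n.n2 + Λ.j + S.rk (oe i) + Λ.U ≤ n.n2 + Λ.j + Λ.U + S.h + 1 by omega)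
      omega
  · intro h4
    have h5 := hPQ h4
    right
    have h6 := h.X Λ.U
    have h7 := shift_P2StrB h.mono
      (show n.n2 + Λ.j + S.P + Λ.U ≤ n.n2 + Λ.j + Λ.U + S.h + 1 by omega)
    omega

theorem von_R (S : Seam k ld al) (n : Num) {Λ : FLay} {σ : ℕ → ℕ} (h : GLy S n Λ σ)
    (v l : ℕ) (hl : S.P + S.Q + l < 2 * S.h)
    (hJ : ∀ i, 1 ≤ i → i < k → ¬ ld i → ¬ S.bad i →
      S.rk (oe i) + S.rk (ee i) + l ≠ 2 * S.h + 1)
    (half : ∀ i, 1 ≤ i → i < k → ¬ ld i → ¬ S.bad i →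
      2 * S.h + 2 ≤ S.rk (oe i) + S.rk (ee i) + l → S.rk (ee i) ≤ S.rk (oe i))
    (hno : ∀ g, 2 * S.h + 2 ≤ 2 * g + l → g ≤ S.h + 1 →
      σ (n.n2 + Λ.j + Λ.U + g) + (S.h + 1) = wz S n.up + g)
    (hv : v + l = wz S n.up + mz S n.up) : VOKn S n Λ v := by
  have hmz : mz S n.up = wz S n.up + n.N0 + n.nT + S.h := rfl
  have hPh := S.Ph
  have hQh := S.Qh
  have htop := h.top
  refine ⟨by omega, ?_, ?_⟩
  · intro i i1 i2 i3
    rcases sum_P2StrB h i1 i2 i3 with ⟨_, a1, a2, a3, a4, a5, a6⟩ | ⟨a0, a1, a2, a3, a4, a5, a6⟩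
    · have h4 := shift_P2StrB h.mono
        (show n.n2 + Λ.j + S.rk (oe i) ≤ n.n2 + Λ.j + Λ.U + S.h + 1 by omega)
      omega
    · have h8 := hJ i i1 i2 i3 a0
      by_cases h9 : 2 * S.h + 2 ≤ S.rk (oe i) + S.rk (ee i) + l
      · have h10 := half i i1 i2 i3 a0 h9
        have h11 := hno (S.rk (oe i)) (by omega) a2
        have h12 : n.n2 + Λ.j + Λ.U + S.rk (oe i) = n.n2 + Λ.j + S.rk (oe i) + Λ.U := by omega
        rw [h12, ← a5] at h11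
        omega
      · have h4 := shift_P2StrB h.mono
          (show n.n2 + Λ.j + S.rk (oe i) + Λ.U ≤ n.n2 + Λ.j + Λ.U + S.h + 1 by omega)
        omega
  · intro h4
    right
    have h6 := h.X Λ.U
    have h7 := shift_P2StrB h.mono
      (show n.n2 + Λ.j + S.P + Λ.U ≤ n.n2 + Λ.j + Λ.U + S.h + 1 by omega)
    omega

end Pool.Agent.Lob5
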