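import Pool.Agent.Lob5.P2Str

/-!
# The layer with the reserved labels `y` and `z`

Notation: `a = n2+j`, `b = a+P`, `T = nT+h+a`, `w = wz S n.up = n2+Ux+h+3` (`sp ≠ 0`).

* `layY_gl`: `gl_ins` (`sigY` is its `σ`); `U ≥ nT` by `hA.jU` (`sp = 3`: one more); `top`: two (three) reserved labels `≤ w`
  (`xs ≤ T+3-y ≤ nT+h+2 < w` as `y ≥ a+1`, `Ux ≥ nT+1`).
* `layY_pre`: `flow`: `flow_GL'` (`X t ≤ b+t+2`, or `≤ b+t+3 ≤ a+Q+t+2` with three reserved labels by `xQ`); `fmod`: `dab_GL` for the last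
  three facts, with `hb`: `σ b ≤ b+1` by `bd` (in the case `xs`: `xs ≥ T+1-y > b+1`), and `r ≤ σ r`, so
  `σ (a+r) ≤ a+r+1` for `r ≤ P`. `y_ok, xs_ok, z_..`: `sk_inj`, `sk_ne`, `lam` never takes the values `y1, y2`
  (see `Plan`, `LowBase` for lemmas on `lam`). `F3`: `X 1 = σ (b+1) ≥ b+1+[y ≤ b+1]`. `Fx`: `xs ∈ [T+1-y, T+3-y]`. `V_lo`: `hVlo`; `V_up, V_C, V_L`: `hV`.
  `lg_ok`: void. `U_eq`: `U = Ux - j` or `Ux - 1 - j`.
-/

namespace Pool.Agent.Lob5

variable {k : ℕ} {ld al : ℕ → Prop}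

/-- the facts about the layout before the insertion of `z` -/
private structure YF (S : Seam k ld al) (n : Num) (j y z : ℕ) (M : Lay) : Prop where
  k2 : M.k2 = false
  ej : M.j = j
  lg : M.lg = false
  ey : M.y = if z < y then y - 1 else y
  yy : M.y = M.y1 ∨ M.y = M.y2
  y12 : M.y1 < M.y2
  eU : M.U + j + (if M.xsf then 1 else 0) = n.Ux
  UT : n.nT ≤ M.U
  top : lam M.y1 M.y2 (n.n2 + M.j + M.U + S.h + 1) ≤ wz S n
  xt : M.xsf = true → n.sp = 3 ∧ n.nT + S.h + n.n2 + j + 1 ≤ y + M.xs ∧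
    y + M.xs ≤ n.nT + S.h + n.n2 + j + 2 ∧ M.xs ≠ M.y ∧ (M.xs = M.y1 ∨ M.xs = M.y2) ∧
    y + (n.n2 + j + S.P + 1) < n.nT + S.h + n.n2 + j + 1
  xf : M.xsf = false → n.sp = 3 → n.nT + S.h + n.n2 + j + 1 ≤
    y + lam M.y1 M.y2 (n.n2 + j + S.P + 1)
  lo : ∀ r, r ≤ S.P → lam M.y1 M.y2 (n.n2 + j + r) ≤
    n.n2 + j + r + (if M.y ≤ n.n2 + j + r then 1 else 0)
  X : ∀ t, 1 ≤ t → t ≤ M.U →
    lam M.y1 M.y2 (n.n2 + j + S.P + t) ≤ n.n2 + j + S.P + t + 1 ∨ S.P + 1 ≤ S.Q

private theorem yf_wz (S : Seam k ld al) (n : Num) (hs : n.sp ≠ 0) :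
    wz S n = n.n2 + n.Ux + S.h + 2 := by
  unfold wz
  rw [if_neg hs]

private theorem yf_S (S : Seam k ld al) (n : Num) (j y z y0 : ℕ) (hs : n.sp ≠ 0)
    (hA : Adm S n j) (h : YZ S n j y z) (hy0 : y0 = if z < y then y - 1 else y)
    (hc : n.sp = 3 → n.nT + S.h + n.n2 + j + 1 ≤
      y + (n.n2 + j + S.P + 1 + (if y ≤ n.n2 + j + S.P + 1 then 1 else 0))) :
    YF S n j y z (layS S n j y0) := by
  have hw := yf_wz S n hs
  have hjU := hA.jU
  have hj : n.nT + j ≤ n.Ux := by split_ifs at hjU <;> omega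
  have hyw := h.yw
  rw [wz_up, hw] at hyw
  have hya := h.ya
  have hPh := S.Ph
  have hle : y0 ≤ y := by rw [hy0]; split_ifs <;> omega
  refine
    { k2 := rfl
      ej := rfl
      lg := rfl
      ey := hy0
      yy := Or.inl rfl
      y12 := ?_
      eU := ?_
      UT := ?_
      top := ?_
      xt := ?_
      xf := ?_
      lo := ?_
      X := ?_ }
  · change y0 < wz S n + 2
    omega
  · change n.Ux - j + j + 0 = n.Ux
    omega
  · change n.nT ≤ n.Ux - j
    omega
  · change lam y0 (wz S n + 2) (n.n2 + j + (n.Ux - j) + S.h + 1) ≤ wz S n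
    unfold lam
    split_ifs <;> omega
  · intro hx
    exact absurd hx Bool.false_ne_true
  · intro _ h3
    have h4 := hc h3
    change _ ≤ y + lam y0 (wz S n + 2) (n.n2 + j + S.P + 1)
    unfold lam
    split_ifs at h4 ⊢ <;> omega
  · intro r hr
    change lam y0 (wz S n + 2) (n.n2 + j + r) ≤
      n.n2 + j + r + (if y0 ≤ n.n2 + j + r then 1 else 0)
    unfold lam
    split_ifs <;> omega
  · intro t ht1 ht2
    change t ≤ n.Ux - j at ht2
    left
    change lam y0 (wz S n + 2) (n.n2 + j + S.P + t) ≤ n.n2 + j + S.P + t + 1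
    unfold lam
    split_ifs <;> omega

private theorem yf_D (S : Seam k ld al) (n : Num) (j y z y0 x0 : ℕ)
    (hA : Adm S n j) (h : YZ S n j y z) (hy0 : y0 = if z < y then y - 1 else y)
    (hx0 : x0 = if n.nT + S.h + n.n2 + j + 1 - y = y0 then n.nT + S.h + n.n2 + j + 2 - y
      else n.nT + S.h + n.n2 + j + 1 - y)
    (hc : n.sp = 3 ∧
      y + (n.n2 + j + S.P + 1 + (if y ≤ n.n2 + j + S.P + 1 then 1 else 0)) <
        n.nT + S.h + n.n2 + j + 1) :
    YF S n j y z (layD n j y0 x0) := by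
  have hw := yf_wz S n (by omega)
  have hjU := hA.jU
  have hxQ := h.xQ hc.1 hc.2
  have hc2 := hc.2
  rw [if_pos (by omega)] at hjU
  have hyw := h.yw
  rw [wz_up, hw] at hyw
  have hya := h.ya
  have hPh := S.Ph
  have hle : y0 ≤ y ∧ y ≤ y0 + 1 := by rw [hy0]; split_ifs <;> omega
  have hlt : y + (n.n2 + j + S.P + 1) < n.nT + S.h + n.n2 + j + 1 := by omega
  have hx1 : n.nT + S.h + n.n2 + j + 1 ≤ y + x0 ∧ y + x0 ≤ n.nT + S.h + n.n2 + j + 2 ∧
      x0 ≠ y0 := by
    rw [hx0]
    split_ifs <;> omega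
  refine
    { k2 := rfl
      ej := rfl
      lg := rfl
      ey := hy0
      yy := ?_
      y12 := ?_
      eU := ?_
      UT := ?_
      top := ?_
      xt := ?_
      xf := ?_
      lo := ?_
      X := ?_ }
  · change y0 = min y0 x0 ∨ y0 = max y0 x0
    omega
  · change min y0 x0 < max y0 x0
    omega
  · change n.Ux - 1 - j + j + 1 = n.Ux
    omega
  · change n.nT ≤ n.Ux - 1 - j
    omega
  · change lam (min y0 x0) (max y0 x0) (n.n2 + j + (n.Ux - 1 - j) + S.h + 1) ≤ wz S n
    unfold lam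
    split_ifs <;> omega
  · intro _
    refine ⟨hc.1, hx1.1, hx1.2.1, hx1.2.2, ?_, hlt⟩
    change x0 = min y0 x0 ∨ x0 = max y0 x0
    omega
  · intro hx
    exact absurd hx.symm Bool.false_ne_true
  · intro r hr
    change lam (min y0 x0) (max y0 x0) (n.n2 + j + r) ≤
      n.n2 + j + r + (if y0 ≤ n.n2 + j + r then 1 else 0)
    unfold lam
    split_ifs <;> omega
  · intro t ht1 ht2
    exact Or.inr hxQ

private theorem yf_pre (S : Seam k ld al) (n : Num) (j y z : ℕ) (hs : n.sp ≠ 0)
    (hA : Adm S n j) (h : YZ S n j y z) : YF S n j y z (preY S n j y z) := by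
  unfold preY
  by_cases hc : n.sp = 3 ∧
      y + (n.n2 + j + S.P + 1 + (if y ≤ n.n2 + j + S.P + 1 then 1 else 0)) <
        n.nT + S.h + n.n2 + j + 1
  · rw [if_pos hc]
    exact yf_D S n j y z _ _ hA h rfl rfl hc
  · rw [if_neg hc]
    refine yf_S S n j y z _ hs hA h rfl fun h3 => ?_
    by_contra h4
    exact hc ⟨h3, by omega⟩

theorem layY_gl (S : Seam k ld al) (n : Num) (j y z : ℕ) (hs : n.sp ≠ 0) (hA : Adm S n j)
    (h : YZ S n j y z) : GLy S n (layY S n j y z) (sigY S n j y z) := by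
  have F := yf_pre S n j y z hs hA h
  refine gl_ins S n (preY S n j y z) z F.k2 F.UT ?_
  rw [wz_up]
  exact (sk_le _ _).trans (Nat.succ_le_succ F.top)

theorem layY_pre (S : Seam k ld al) (n : Num) (j y z : ℕ) (hs : n.sp ≠ 0)
    (hm : S.mode = 1 ∨ S.mode = 2 ∨ S.mode = 5) (hA : Adm S n j) (h : YZ S n j y z)
    (hVlo : wz S n.up + n.N0 < (layY S n j y z).bs S.q + y)
    (hV : VOKn S n (layY S n j y z) ((layY S n j y z).bs S.q + y)) :
    P2Pre S n (layY S n j y z) ∧ (layY S n j y z).y = y ∧ (layY S n j y z).z = z ∧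
      (layY S n j y z).lg = false ∧ (layY S n j y z).j = j := by
  have F := yf_pre S n j y z hs hA h
  have hG := layY_gl S n j y z hs hA h
  have hw := yf_wz S n hs
  have hww := wz_up S n
  have hyw := h.yw
  have hya := h.ya
  have hza := h.za
  have hzw := h.zw
  have hyz := h.yz
  have hbd := h.bd
  have hPh := S.Ph
  have hjU := hA.jU
  have eU := F.eU
  have eLU : (layY S n j y z).U = (preY S n j y z).U := rfl
  have eLx : (layY S n j y z).xsf = (preY S n j y z).xsf := rfl
  have eLxs : (layY S n j y z).xs = sk z (preY S n j y z).xs := rfl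
  have eLj : (layY S n j y z).j = j := F.ej
  have eLlg : (layY S n j y z).lg = false := F.lg
  have eLz : (layY S n j y z).z = z := rfl
  have eLy : (layY S n j y z).y = y := by
    change sk z (preY S n j y z).y = y
    rw [F.ey]
    unfold sk
    split_ifs <;> omega
  have eX : ∀ i, (layY S n j y z).X i =
      sk z (lam (preY S n j y z).y1 (preY S n j y z).y2 (n.n2 + j + S.P + i)) := by
    intro i
    rw [hG.X i, eLj]
    rfl
  have eP : ∀ e, e % 2 = 1 → (layY S n j y z).p e =
      sk z (lam (preY S n j y z).y1 (preY S n j y z).y2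
        (n.n2 + j + S.rk e + (if S.rk e ≤ S.P then 0 else (layY S n j y z).U))) := by
    intro e he
    rw [hG.podd e he, eLj]
    rfl
  have eLy' : (layY S n j y z).y = sk z (preY S n j y z).y := rfl
  have hne := lam_ne F.y12
  have hney : ∀ r, sk z (lam (preY S n j y z).y1 (preY S n j y z).y2 r) ≠
      sk z (preY S n j y z).y := by
    intro r hr
    have h1 := sk_inj hr
    rcases F.yy with h2 | h2
    · exact (hne r).1 (h1.trans h2)
    · exact (hne r).2 (h1.trans h2)
  have hnex : (preY S n j y z).xsf = true →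
      ∀ r, sk z (lam (preY S n j y z).y1 (preY S n j y z).y2 r) ≠
      sk z (preY S n j y z).xs := by
    intro hx r hr
    have h1 := sk_inj hr
    rcases (F.xt hx).2.2.2.2.1 with h2 | h2
    · exact (hne r).1 (h1.trans h2)
    · exact (hne r).2 (h1.trans h2)
  have hflow : FLow S n (layY S n j y z) := by
    refine flow_GL' S n hG fun t h1 h2 => ?_
    rw [eX, eLj]
    have h3 := sk_le z (lam (preY S n j y z).y1 (preY S n j y z).y2 (n.n2 + j + S.P + t))
    rcases F.X t h1 h2 with h4 | h4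
    · left
      omega
    · right
      have h5 := lam_le (preY S n j y z).y1 (preY S n j y z).y2 (n.n2 + j + S.P + t)
      omega
  have hUr : wz S n.up ≤ n.n2 + (layY S n j y z).j + (layY S n j y z).U + S.h + 1 + 2 +
      (if 2 ≤ n.sp then 1 else 0) := by
    rw [eLj, eLU, hww, hw]
    by_cases hx : (preY S n j y z).xsf = true
    · rw [if_pos hx] at eU
      have h3 := (F.xt hx).1
      rw [if_pos (by omega)]
      omega
    · rw [if_neg hx] at eU
      omega
  have hsig : ∀ r, r ≤ S.P → sigY S n j y z (n.n2 + j + r) ≤ n.n2 + j + r + 1 := by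
    intro r hr
    have h1 := F.lo r hr
    have h2 := F.ey
    change sk z (lam (preY S n j y z).y1 (preY S n j y z).y2 (n.n2 + j + r)) ≤ _
    rcases hbd with h3 | h3
    · have h4 : ¬ (preY S n j y z).y ≤ n.n2 + j + r := by
        rw [h2]
        split_ifs <;> omega
      rw [if_neg h4] at h1
      have h5 := sk_le z (lam (preY S n j y z).y1 (preY S n j y z).y2 (n.n2 + j + r))
      omega
    · have h4 : lam (preY S n j y z).y1 (preY S n j y z).y2 (n.n2 + j + r) ≤
          n.n2 + j + r + 1 := by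
        split_ifs at h1 <;> omega
      rw [sk_of_lt (by omega)]
      exact h4
  have hD : FDab S n (layY S n j y z) := by
    refine dab_GL S n hG (fun _ => by omega) hUr ?_
    intro r r' h1 h2 h3 h4
    rw [eLj, if_neg (fun hh => hs hh.1), if_pos hm]
    have h5 := hsig r h2
    have h6 : n.n2 + j + r' ≤ sigY S n j y z (n.n2 + j + r') := hG.mono.le_apply
    omega
  refine ⟨⟨hflow, ?_, ?_, ?_, ?_, ?_, ?_, ?_⟩, eLy, eLz, eLlg, eLj⟩
  · refine
      { y_ok := ?_
        xs_ok := ?_
        lg_ok := ?_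
        V_lo := ?_
        V_up := ?_
        V_C := ?_
        V_L := ?_
        F3 := ?_
        Fx := ?_
        Dbb := hD.Dbb
        Dgg := hD.Dgg
        Dgb := hD.Dgb }
    · intro _ _
      refine ⟨?_, ?_, ?_, ?_⟩
      · rw [eLj, eLy]
        exact hya
      · rw [eLy]
        exact hyw
      · intro i _ _
        rw [eX, eLy']
        exact hney _
      · intro e _ _ he
        rw [eP e he, eLy']
        exact hney _
    · intro hx
      rw [eLx] at hx
      obtain ⟨x1, x2, x3, x4, x5, x6⟩ := F.xt hx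
      rw [if_pos (by omega)] at hjU
      have h3 := le_sk z (preY S n j y z).xs
      have h4 := sk_le z (preY S n j y z).xs
      refine ⟨x1, ?_, ?_, ?_, ?_, ?_⟩
      · rw [eLj, eLxs]
        omega
      · rw [eLxs, hww, hw]
        omega
      · rw [eLxs, eLy']
        exact fun hh => x4 (sk_inj hh)
      · intro i _ _
        rw [eX, eLxs]
        exact hnex hx _
      · intro e _ _ he
        rw [eP e he, eLxs]
        exact hnex hx _
    · intro hl
      rw [eLlg] at hl
      exact absurd hl Bool.false_ne_true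
    · intro _ _
      rw [eLy]
      exact hVlo
    · intro _ _
      rw [eLy]
      exact hV.thr
    · intro _ _
      rw [eLy]
      exact hV.C
    · intro _ _
      rw [eLy]
      exact hV.gap
    · intro h3 hx
      rw [eLx] at hx
      have h4 := F.xf hx h3
      have h5 := le_sk z (lam (preY S n j y z).y1 (preY S n j y z).y2 (n.n2 + j + S.P + 1))
      rw [eLj, eLy, eX]
      omega
    · intro hx
      rw [eLx] at hx
      obtain ⟨x1, x2, x3, x4, x5, x6⟩ := F.xt hx
      have h3 := le_sk z (preY S n j y z).xs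
      have h4 := sk_le z (preY S n j y z).xs
      rw [eLj, eLy, eLxs]
      omega
  · rw [eLU, eLj, eLx, eLlg]
    change _ = n.Ux + 0
    omega
  · rw [eLj, eLz]
    exact ⟨hza, hzw⟩
  · intro f _ _ hf
    rw [eP f hf, eLz]
    exact sk_ne z _
  · intro i _ _
    rw [eX, eLz]
    exact sk_ne z _
  · intro _ _
    rw [eLy, eLz]
    exact hyz
  · intro _
    rw [eLxs, eLz]
    exact sk_ne z _

end Pool.Agent.Lob5
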