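import Pool.Agent.Lob5.P2Num
import Pool.Agent.Lob5.P2StrA
import Pool.Agent.Lob5.P2StrB
import Pool.Agent.Lob5.P2StrC

/-!
# Mode 1: common facts

`C1`: the hypotheses in the mode 1. `num1`: the numbers. `vk1`: the sum at the new vertex. `hole1`: positions below and
above the label `z`. `fin1`: the layer `layY S n j y z` with `y = T+1-Q` (or `y = T+2-Q` if `z = w`) is good if the sum
at the new vertex is good.
-/

namespace Pool.Agent.Lob5

variable {k : ℕ} {ld al : ℕ → Prop}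

/-- the hypotheses in the mode 1 -/
structure C1 (S : Seam k ld al) (n : Num) (e j : ℕ) : Prop where
  hs : n.sp ≠ 0
  hm : S.mode = 1
  hA : Adm S n j
  he : 1 ≤ e
  heN : e ≤ n.N0
  h1 : ¬ al 1
  b1m : S.bad 1 → S.P + S.Q ≤ S.rk 1 + S.h
  b1r : S.bad 1 → S.rk 1 + 2 ≤ S.h

/-- the numbers -/
structure Num1 (S : Seam k ld al) (n : Num) (e j : ℕ) : Prop where
  w : wz S n.up = n.n2 + n.Ux + S.h + 3
  m : mz S n.up = wz S n.up + n.N0 + n.nT + S.h
  P1 : 1 ≤ S.P
  Ph : S.P ≤ S.h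
  Q1 : 1 ≤ S.Q
  Qh : S.Q ≤ S.h
  PQ : S.h + 1 ≤ S.P + S.Q
  n2T : n.n2 ≤ n.nT
  jU : n.nT + j ≤ n.Ux
  jU3 : n.sp = 3 → n.nT + j + 1 ≤ n.Ux
  d : dZ n.sp e ≤ 1
  dN : dZ n.sp e + pkZ S n e = wz S n.up + n.N0
  b : S.bad 1 → 1 ≤ S.rk 1 ∧ S.rk 1 ≤ S.P ∧ S.P + S.Q ≤ S.rk 1 + S.h ∧ S.rk 1 + 2 ≤ S.h
  g : ¬ S.bad 1 → S.P + 1 ≤ S.rk 1 ∧ S.rk 1 ≤ S.h

theorem C1.num {S : Seam k ld al} {n : Num} {e j : ℕ} (c : C1 S n e j) : Num1 S n e j := by
  obtain ⟨ha, hb, hq2, hrq, hrq1, hQ1⟩ := S.m1 c.hm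
  have hk := S.hk
  have hh := S.h1
  have hq := S.hq
  have hqld := S.al_ld _ ha
  have hq1 := S.ld_pos _ hqld
  have hrg := S.rk_og S.q hq1 (by omega) hq2 hb
  have hd : dZ n.sp e ≤ 1 := by
    unfold dZ
    split_ifs <;> omega
  have heN := c.heN
  have he := c.he
  have hjU := c.hA.jU
  refine
    { w := ?_
      m := rfl
      P1 := S.P1
      Ph := by omega
      Q1 := hQ1
      Qh := S.Qh
      PQ := S.PQ
      n2T := c.hA.n2T
      jU := by split_ifs at hjU <;> omega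
      jU3 := fun h3 => by
        rw [if_pos (by omega)] at hjU
        omega
      d := hd
      dN := ?_
      b := fun hb1 => ?_
      g := fun hb1 => ?_ }
  · rw [wz_up]
    unfold wz
    rw [if_neg c.hs]
  · unfold pkZ
    omega
  · have h3 := S.rk_ob 1 le_rfl (by omega) rfl hb1
    exact ⟨h3.1, h3.2, c.b1m hb1, c.b1r hb1⟩
  · have h3 := S.rk_og 1 le_rfl (by omega) rfl hb1
    refine ⟨h3.1, ?_⟩
    by_contra h4
    have h5 : S.rk 1 = S.rk S.q := by omega
    have h6 := S.rk_inj 1 S.q le_rfl (by omega) hq1 (by omega) (by omega) h5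
    exact c.h1 (h6 ▸ ha)

theorem YNum.ne {S : Seam k ld al} {n : Num} {j y z x U : ℕ} (h : YNum S n j y z x U)
    (hyz : YZ S n j y z) : x ≠ y ∧ x ≠ z := by
  have hyw := hyz.yw
  have hzw := hyz.zw
  rcases h.cs with ⟨_, h5, _⟩ | ⟨_, _, _, _, _, h5, h6, _⟩
  · omega
  · exact ⟨h5, h6⟩

/-- positions below and above `z` -/
theorem hole1 {S : Seam k ld al} {n : Num} {j y z x U : ℕ} (h : YNum S n j y z x U)
    (hyw : y ≤ wz S n.up) (hyz : y ≠ z) (hzw : z ≤ wz S n.up) (pos : ℕ)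
    (hz : z = pos + 1 + (if y < z then 1 else 0) + (if x < z then 1 else 0)) (r : ℕ) :
    (r ≤ pos → sigY S n j y z r < z) ∧ (pos < r → z < sigY S n j y z r) := by
  obtain ⟨h1, h2, h3, h4⟩ := h.char r
  have hxy : x ≠ y ∧ x ≠ z := by
    rcases h.cs with ⟨_, h5, _⟩ | ⟨_, _, _, _, _, h5, h6, _⟩
    · omega
    · exact ⟨h5, h6⟩
  constructor
  · intro h5
    split_ifs at h1 hz <;> omega
  · intro h5
    split_ifs at h1 hz <;> omega

theorem layY_j (S : Seam k ld al) (n : Num) (j y z : ℕ) : (layY S n j y z).j = j := by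
  change (preY S n j y z).j = j
  unfold preY
  split_ifs <;> rfl

/-- the sum at the new vertex -/
theorem vk1 {S : Seam k ld al} {n : Num} {e j y z x U : ℕ} (c : C1 S n e j)
    (h : YNum S n j y z x U) (hyz : YZ S n j y z) :
    (layY S n j y z).vk S n e + dZ n.sp e =
      sigY S n j y z (n.n2 + j + S.rk 1 + (if S.rk 1 ≤ S.P then 0 else U)) +
        (wz S n.up + n.N0) + z := by
  have hg := layY_gl S n j y z c.hs c.hA hyz
  have h1 := hg.podd 1 rfl
  rw [h.U_eq, layY_j] at h1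
  have h2 := c.num.dN
  change (layY S n j y z).p 1 + pkZ S n e + z + _ = _
  rw [h1]
  omega

/-- the labels at the special vertex -/
theorem bq1 {S : Seam k ld al} {n : Num} {e j y z x U : ℕ} (c : C1 S n e j)
    (h : YNum S n j y z x U) (hyz : YZ S n j y z) :
    (layY S n j y z).bs S.q =
      sigY S n j y z (n.n2 + j + U + S.h + 1) + (wz S n.up + n.N0 + S.Q) := by
  obtain ⟨ha, hb, hq2, hrq, hrq1, hQ1⟩ := S.m1 c.hm
  have hg := layY_gl S n j y z c.hs c.hA hyz
  have h1 := hg.podd S.q hq2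
  have h2 := hg.peven (S.q + 1) (by omega)
  have hPh := c.num.Ph
  rw [h.U_eq, layY_j, hrq, if_neg (by omega)] at h1
  rw [hrq1, if_neg (by omega)] at h2
  change (layY S n j y z).p S.q + (layY S n j y z).p (S.q + 1) = _
  rw [h1, h2, show n.n2 + j + (S.h + 1) + U = n.n2 + j + U + S.h + 1 by omega]
  omega

/-- the largest label of an odd edge -/
theorem top1 {S : Seam k ld al} {n : Num} {e j y z x U : ℕ} (c : C1 S n e j)
    (h : YNum S n j y z x U) (hyz : YZ S n j y z)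
    (hy : y + S.Q = n.nT + S.h + n.n2 + j + 1 ∨
      (y + S.Q = n.nT + S.h + n.n2 + j + 2 ∧ z = wz S n.up) ∨
      (y + S.Q = n.nT + S.h + n.n2 + j ∧ 1 ≤ n.n2 + j ∧ z < wz S n.up)) :
    sigY S n j y z (n.n2 + j + U + S.h + 1) + (if z = wz S n.up then 1 else 0) =
      wz S n.up := by
  obtain ⟨h1, h2, h3, h4⟩ := h.char (n.n2 + j + U + S.h + 1)
  have N := c.num
  have hw := N.w
  have hP := N.Ph
  have hQ := N.Q1
  have hQh := N.Qh
  have hPQ := N.PQ
  have hn2 := N.n2T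
  have hjU := N.jU
  have hzw := hyz.zw
  have htop : sigY S n j y z (n.n2 + j + U + S.h + 1) ≤ wz S n.up := by
    have hg := (layY_gl S n j y z c.hs c.hA hyz).top
    rw [h.U_eq, layY_j] at hg
    exact hg
  rcases h.cs with ⟨_, h5, h6, _⟩ | ⟨_, _, h6, h7, h8, h9, h10, y0, x0, h11, h12, h13⟩
  · rcases hy with hy | hy | hy <;> split_ifs at h1 ⊢ <;> omega
  · have hjU3 := N.jU3 h7
    have hx : x + 2 ≤ wz S n.up := by
      rcases hy with hy | hy | hy <;> omega
    rcases hy with hy | hy | hy <;> split_ifs at h1 ⊢ <;> omega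

theorem fin1 {S : Seam k ld al} {n : Num} {e j y z : ℕ} (c : C1 S n e j)
    (h : YZ S n j y z)
    (hy : y + S.Q = n.nT + S.h + n.n2 + j + 1 ∨
      (y + S.Q = n.nT + S.h + n.n2 + j + 2 ∧ z = wz S n.up) ∨
      (y + S.Q = n.nT + S.h + n.n2 + j ∧ 1 ≤ n.n2 + j ∧ z < wz S n.up))
    (hv : VOKn S n (layY S n j y z) ((layY S n j y z).vk S n e))
    (hlt : (layY S n j y z).vk S n e < (layY S n j y z).bs S.q + y) :
    P2OK S n e (layY S n j y z) false := by
  obtain ⟨x, U, hN⟩ := exists_ynum S n j y z c.hs c.hA h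
  have ht := top1 c hN h hy
  have hb := bq1 c hN h
  have hg := layY_gl S n j y z c.hs c.hA h
  have N := c.num
  have hw := N.w
  have hm := N.m
  have hP := N.Ph
  have hQ := N.Q1
  have hQh := N.Qh
  have hj : (layY S n j y z).j = j := layY_j S n j y z
  have hV : VOKn S n (layY S n j y z) ((layY S n j y z).bs S.q + y) := by
    by_cases hc : z = wz S n.up ∧ y + S.Q = n.nT + S.h + n.n2 + j + 1
    · rw [if_pos hc.1] at ht
      refine von_top S n hg _ (fun _ => by omega) ?_ ?_ ?_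
      · rw [hN.U_eq, hj]
        omega
      · rw [hb]
        omega
      · rw [hb, hj]
        omega
    · refine von_T S n hg _ (fun _ => by omega) ?_ ?_
      · rw [hb]
        split_ifs at ht <;> omega
      · rw [hb, hj]
        split_ifs at ht <;> omega
  obtain ⟨h1, h2, h3, h4, h5⟩ := layY_pre S n j y z c.hs (Or.inl c.hm) c.hA h (by
    rw [hb]
    have := h.ya
    omega) hV
  refine p2ok_z h1 c.hs hv.vok fun _ => ?_
  rw [h2]
  omega

/-- the sum at the special vertex -/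
theorem vq1 {S : Seam k ld al} {n : Num} {e j y z : ℕ} (c : C1 S n e j)
    (h : YZ S n j y z)
    (hy : y + S.Q = n.nT + S.h + n.n2 + j + 1 ∨
      (y + S.Q = n.nT + S.h + n.n2 + j + 2 ∧ z = wz S n.up) ∨
      (y + S.Q = n.nT + S.h + n.n2 + j ∧ 1 ≤ n.n2 + j ∧ z < wz S n.up)) :
    wz S n.up + mz S n.up + n.n2 + j ≤ (layY S n j y z).bs S.q + y ∧
      (y + S.Q = n.nT + S.h + n.n2 + j + 1 ∧ z < wz S n.up ∨
        y + S.Q = n.nT + S.h + n.n2 + j + 2 →
        wz S n.up + mz S n.up + n.n2 + j + 1 ≤ (layY S n j y z).bs S.q + y) := by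
  obtain ⟨x, U, hN⟩ := exists_ynum S n j y z c.hs c.hA h
  have ht := top1 c hN h hy
  have hb := bq1 c hN h
  have N := c.num
  have hw := N.w
  have hm := N.m
  have hQh := N.Qh
  rw [hb]
  constructor
  · split_ifs at ht <;> omega
  · intro h6
    split_ifs at ht <;> omega

end Pool.Agent.Lob5
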