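import Pool.Agent.Lob5.P2S2A

/-!
# The selection for the mode 2, edge `1` good, `a = n2 + j = 0`, class T

Notation of `P2S2A`; `a = 0`, `b = P`, `N = n2+Ux` (`= Ux`), `w = N+h+3`, `W0 = w+nT+h`; `y0 = yo2 S n j`, `ρ = rk 1 ≥ P+1`, `x = N+ρ`,
`F0 = x + [y0 ≤ x]`, `F1 = x + 1 + [y0 ≤ x+1]`; `R, l` from `HoleG, TopG` (`hR.g hb`, `top`): `P1: P+ρ+l+1 ≤ 2h`, `M1: R+ρ+l ≤ 2h`, `E0: P+Q+2 ≤ R+ρ`,
`r1: 2ρ+l ≤ 2h+2`, `P2: l+5 ≤ 2P`; so `P+Q+l < 2h`. `N ≥ nT+1` if `sp ≥ 2`. `y0 = N+h+4-P ≥ P+1` or `y0 = N+h+3-P ≤ P-1`.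
Facts about a good unloaded vertex `i` with `o = rk (oe i)`, `J = rk i + rk (i+1) = o + rk (ee i)` (`rk_sum`), `2h+1 < J+l`: `st2`: `J+1 ≤ 2o`
(`≤ J+2`). `σ (N+o) = N+o+2` iff `max z y ≤ N+o+1`. All conditions: `unfold lam; split_ifs <;> omega`.

Hypothesis: `nT+h+d < F0`.
First choice: `z0 = W0+d-l-F0` if this is `≥ F1`, otherwise `z0 = W0+d-l-F1 (≤ F0-1)`; `z0 ≥ P+2` by `P1`, `z0 ≤ w-l-1`; the sum at `k` is `W0-l`.
* `z0 ≠ y0`: `(z, y) = (z0, y0)`, `mk2_W` with `m = l`: `QT2` (`V_q = thr`); `h1`: `2o ≥ J+1 ≥ 2h+3-l`, so `y0 ≤ N+h+4-P ≤ N+o+1` by `P2` and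
  `z ≤ N+h+2-l ≤ N+o+1`; `h2` is `no`.
* `z0 = y0` (so `y0 ≥ P+2`, `y0 = N+h+4-P`). Then the sum at `k` shall be `thr = W0+1` and `V_q = W0-m`: `mk2_Q`, `m ≤ l`,
  `m = min l (2 (w-z))`, `z > y`, `z ≤ w`. Label `yy m = y0-1-m` if this is `≥ P+1`, otherwise `y0-2-m`: `σ b + yy m + m = N+h+3`.
  `h1`: `2o ≥ J+1 ≥ 2h+3-m ≥ 2h+3-2(w-z)`, so `o ≥ h+2-(w-z)`, `z ≤ N+o+1`. `h2`: `m = l` contradicts `no`; `m = 2(w-z) < l`: `J = 2h+1-m` is
  odd, `J+1 ≤ 2o ≤ J+2`, so `o = h+1-(w-z)`, `z = N+o+2`: `σ (N+o) ≤ N+o+1`.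
  - `y0 ≤ x` (`F0 = x+1, F1 = x+2`, `z0 = y0` is of the second kind: `y0+F1+l = W0+d`, so `P ≥ l+3` as `F1 ≥ nT+h+d+2`): `z = y0+l+1` if this is `≤ x`
    (`σ x = F1`), otherwise `z = y0+l+2` (`≥ x+2`, `σ x = F0`).
  - `y0 > x`: (`F0 = x`; `y0 ≥ x+2`, `y0+F0+l = W0+d`, `P ≥ l+2`). `m1 = min l (2 (P-l-2))`; if `y0-1-m1 > x`: `(z, y) = (y0+l+1, y0-1-m1)`
    (`w-z = P-l-2`, `σ x = x`). Otherwise `m2 = min l (2 (P-l-1)) ≥ m1`, `(z, y) = (y0+l, yy m2)` (`w-z = P-l-1`, `z ≥ x+2`, `y ≤ x`, `σ x = x+1`).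
  `F3` (`sp = 3`): `y + σ (P+1) ≥ N+h+4-m ≥ nT+h+1`: from the equation for `y0`, `N-nT ≥ h-l+d-3+P-ρ`, and `2ρ+l ≤ 2h+2`, `m ≤ l`,
  `m ≤ 2(w-z) ≤ 2(P-l-1)`.
-/

namespace Pool.Agent.Lob5

variable {k : ℕ} {ld al : ℕ → Prop} {S : Seam k ld al} {n : Num} {e j : ℕ}

private theorem dz_P2S2E (sp e : ℕ) : dZ sp e ≤ 1 := by
  unfold dZ
  split_ifs <;> omega

private theorem lam_P2S2E (u v r : ℕ) : lam u v r =
    r + (if u ≤ r then 1 else 0) + (if v ≤ r + 1 then 1 else 0) := rfl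

/-- the position of `yo2` -/
private theorem yo_P2S2E (S : Seam k ld al) (n : Num) (j : ℕ) (hP : S.P ≤ S.h) :
    (n.n2 + j + 2 * S.P ≤ n.n2 + n.Ux + S.h + 3 ∧
      yo2 S n j + S.P = n.n2 + n.Ux + S.h + 4) ∨
    (n.n2 + n.Ux + S.h + 3 < n.n2 + j + 2 * S.P ∧
      yo2 S n j + S.P = n.n2 + n.Ux + S.h + 3) := by
  unfold yo2
  split_ifs with h
  · left
    omega
  · right
    omega

/-- the common conclusion of the second choice -/
private theorem fin_P2S2E (hR : SeamR S) (hm : S.mode = 2) (hA : Adm S n j) (hb : ¬ S.bad 1)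
    (h2 : n.n2 + j = 0) {R l z y m : ℕ} (hH : HoleG S R) (hl : TopG S R l)
    (hml : m ≤ l) (hmz : m + 2 * z ≤ 2 * (n.n2 + n.Ux + S.h + 3))
    (hmc : m = l ∨ m + 2 * z = 2 * (n.n2 + n.Ux + S.h + 3))
    (hyz : y < z) (hy1 : 1 ≤ y) (hzP : S.P + 2 ≤ z)
    (hx : lam y z (n.n2 + n.Ux + S.rk 1) + z =
      n.n2 + n.Ux + S.h + 3 + n.nT + S.h + dZ n.sp e + 1)
    (hq : lam y z S.P + y + m = n.n2 + n.Ux + S.h + 3)
    (hF : n.sp = 3 → n.nT + S.h + 1 ≤ y + lam y z (S.P + 1)) : Ok2 S n e j z y := by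
  have hP := hR.Ph1 (by omega)
  have hP1 := hl.P1
  have hM1 := hl.M1
  have hE := hH.E0 (by omega)
  have e1 : min z y = y := by omega
  have e2 : max z y = z := by omega
  have hb0 : n.n2 + j + S.P = S.P := by omega
  have hxx := p1g2 (S := S) (z := z) (y := y) hA hb
  refine mk2_Q (x := n.n2 + n.Ux + S.rk 1) (m := m) hR hm hA hxx ?_ ?_ ?_ ?_ ?_ ?_
  · refine ⟨by omega, by omega, by omega, by omega, by omega, ?_, ?_⟩
    · rw [e2]
      omega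
    · intro h3
      have h4 := hF h3
      have h5 : n.n2 + j + S.P + 1 = S.P + 1 := by omega
      rw [e1, e2, h5]
      omega
  · rw [e1, e2]
    exact hx
  · rw [e1, e2, hb0]
    exact hq
  · omega
  · intro i i1 i2 i3 i4 i5 i6 i7
    have hJ := rk_sum S.rk i
    have hst := hl.st2 hm i i1 i2 i3 i4 (by omega)
    rw [e1, e2, lam_P2S2E, if_pos (by omega), if_pos (by omega)]
  · intro i i1 i2 i3 i4 i5 i6 i7
    have hJ := rk_sum S.rk i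
    have hno := hl.no i i1 i2 i3 i4
    rcases hmc with hmc | hmc
    · exact absurd (by omega) hno
    · by_cases hml' : m = l
      · exact absurd (by omega) hno
      · have hst := hl.st2 hm i i1 i2 i3 i4 (by omega)
        rw [e1, e2, lam_P2S2E, if_neg (show ¬ z ≤ n.n2 + n.Ux + S.rk (oe i) + 1 by omega)]
        split_ifs <;> omega

/-- the first choice -/
theorem sel2_gE1 (hR : SeamR S) (hm : S.mode = 2) (hA : Adm S n j) (hb : ¬ S.bad 1)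
    (h2 : n.n2 + j = 0) {R l x F0 F1 z0 : ℕ} (hH : HoleG S R) (hl : TopG S R l)
    (hx : x = n.n2 + n.Ux + S.rk 1)
    (hF0 : F0 = x + (if yo2 S n j ≤ x then 1 else 0))
    (hF1 : F1 = x + 1 + (if yo2 S n j ≤ x + 1 then 1 else 0))
    (h1 : n.nT + S.h + dZ n.sp e < F0)
    (hz0 : (z0 + F0 + l = n.n2 + n.Ux + S.h + 3 + n.nT + S.h + dZ n.sp e ∧ F1 ≤ z0) ∨
      (z0 + F1 + l = n.n2 + n.Ux + S.h + 3 + n.nT + S.h + dZ n.sp e ∧ z0 + 1 ≤ F0))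
    (hne : z0 ≠ yo2 S n j) : Ok2 S n e j z0 (yo2 S n j) := by
  have hP := hR.Ph1 (by omega)
  have hP3 := hR.P3 (by omega)
  have hjU := hA.jU
  have hn := hA.n2T
  have hd := dz_P2S2E n.sp e
  have hk := S.hk
  have hρ := S.rk_og 1 le_rfl (by omega) (by omega) hb
  have hy := yo_P2S2E S n j hP
  have hP1 := hl.P1
  have hM1 := hl.M1
  have hP2 := hl.P2 hm
  have hE := hH.E0 (by omega)
  have hF01 : F0 + 1 ≤ F1 ∧ F1 ≤ x + 2 ∧ x ≤ F0 ∧ x + 1 ≤ F1 := by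
    split_ifs at hF0 <;> split_ifs at hF1 <;> omega
  have hzP : S.P + 2 ≤ z0 := by omega
  have hzl : z0 + l + 1 ≤ n.n2 + n.Ux + S.h + 3 := by omega
  have hxx := p1g2 (S := S) (z := z0) (y := yo2 S n j) hA hb
  rw [← hx] at hxx
  have hσb : lam (min z0 (yo2 S n j)) (max z0 (yo2 S n j)) (n.n2 + j + S.P) + yo2 S n j =
      n.n2 + n.Ux + S.h + 3 + (n.n2 + j) + 1 := by
    rw [lam_P2S2E]
    split_ifs <;> omega
  refine mk2_W (m := l) hR hm hA hxx ?_ ⟨by omega, by omega⟩ ?_ (by omega) ?_ ?_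
  · refine ⟨by omega, by omega, by omega, by omega, hne, by omega, fun h3 => ?_⟩
    rw [h3] at hjU
    rw [lam_P2S2E]
    split_ifs at hjU <;> split_ifs <;> omega
  · rw [lam_P2S2E]
    split_ifs at hF0 <;> split_ifs at hF1 <;> split_ifs <;> omega
  · intro i i1 i2 i3 i4 i5 i6 i7
    have hJ := rk_sum S.rk i
    have hst := hl.st2 hm i i1 i2 i3 i4 i5
    rw [lam_P2S2E, if_pos (by omega), if_pos (by omega)]
  · intro i i1 i2 i3 i4
    exact hl.no i i1 i2 i3 i4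

/-- the second choice -/
theorem sel2_gE2 (hR : SeamR S) (hm : S.mode = 2) (hA : Adm S n j) (hb : ¬ S.bad 1)
    (h2 : n.n2 + j = 0) {R l x F0 F1 z0 : ℕ} (hH : HoleG S R) (hl : TopG S R l)
    (hx : x = n.n2 + n.Ux + S.rk 1)
    (hF0 : F0 = x + (if yo2 S n j ≤ x then 1 else 0))
    (hF1 : F1 = x + 1 + (if yo2 S n j ≤ x + 1 then 1 else 0))
    (h1 : n.nT + S.h + dZ n.sp e < F0)
    (hz0 : (z0 + F0 + l = n.n2 + n.Ux + S.h + 3 + n.nT + S.h + dZ n.sp e ∧ F1 ≤ z0) ∨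
      (z0 + F1 + l = n.n2 + n.Ux + S.h + 3 + n.nT + S.h + dZ n.sp e ∧ z0 + 1 ≤ F0))
    (hne : z0 = yo2 S n j) : ∃ z y, Ok2 S n e j z y := by
  have hP := hR.Ph1 (by omega)
  have hP3 := hR.P3 (by omega)
  have hjU := hA.jU
  have hn := hA.n2T
  have hd := dz_P2S2E n.sp e
  have hk := S.hk
  have hρ := S.rk_og 1 le_rfl (by omega) (by omega) hb
  have hy := yo_P2S2E S n j hP
  have hP1 := hl.P1
  have hM1 := hl.M1
  have hP2 := hl.P2 hm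
  have hr1 := hl.r1
  have hE := hH.E0 (by omega)
  have hF01 : F0 + 1 ≤ F1 ∧ F1 ≤ x + 2 ∧ x ≤ F0 ∧ x + 1 ≤ F1 := by
    split_ifs at hF0 <;> split_ifs at hF1 <;> omega
  have hzP : S.P + 2 ≤ z0 := by omega
  have hyo : yo2 S n j + S.P = n.n2 + n.Ux + S.h + 4 := by omega
  have hjU' : n.nT + j ≤ n.Ux := by
    split_ifs at hjU <;> omega
  clear hjU hy
  obtain ⟨y0, hy0⟩ : ∃ y0, y0 = yo2 S n j := ⟨_, rfl⟩
  rw [← hy0] at hyo hne hF0 hF1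
  subst hne
  -- the general step
  have key : ∀ z y m : ℕ, m ≤ l → m + 2 * z ≤ 2 * (n.n2 + n.Ux + S.h + 3) →
      (m = l ∨ m + 2 * z = 2 * (n.n2 + n.Ux + S.h + 3)) → y < z → 1 ≤ y → S.P + 2 ≤ z →
      lam y z x + z = n.n2 + n.Ux + S.h + 3 + n.nT + S.h + dZ n.sp e + 1 →
      lam y z S.P + y + m = n.n2 + n.Ux + S.h + 3 → m + n.nT ≤ n.n2 + n.Ux + 3 →
      ∃ z y, Ok2 S n e j z y := by
    intro z y m a1 a2 a3 a4 a5 a6 a7 a8 a9
    rw [hx] at a7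
    refine ⟨z, y, fin_P2S2E hR hm hA hb h2 hH hl a1 a2 a3 a4 a5 a6 a7 a8 fun _ => ?_⟩
    rw [lam_P2S2E] at a8 ⊢
    split_ifs at a8 <;> split_ifs <;> omega
  -- the label `y` for given `m`
  have hyy : ∀ m : ℕ, m + 4 ≤ z0 → ∃ y, 1 ≤ y ∧ y + 1 + m ≤ z0 ∧
      (y = z0 - 1 - m ∨ y = z0 - 2 - m) ∧
      ∀ z, S.P + 2 ≤ z → y < z → lam y z S.P + y + m = n.n2 + n.Ux + S.h + 3 := by
    intro m hm0
    by_cases c : S.P + 1 ≤ z0 - 1 - m
    · refine ⟨z0 - 1 - m, by omega, by omega, Or.inl rfl, fun z a1 a2 => ?_⟩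
      rw [lam_P2S2E, if_neg (by omega), if_neg (by omega)]
      omega
    · refine ⟨z0 - 2 - m, by omega, by omega, Or.inr rfl, fun z a1 a2 => ?_⟩
      rw [lam_P2S2E, if_pos (by omega), if_neg (by omega)]
      omega
  by_cases c1 : z0 ≤ x
  · -- the label is not above the edge 1
    have eF0 : F0 = x + 1 := by rw [hF0, if_pos c1]
    have eF1 : F1 = x + 2 := by rw [hF1, if_pos (by omega)]
    have hz1 : z0 + F1 + l = n.n2 + n.Ux + S.h + 3 + n.nT + S.h + dZ n.sp e := by omega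
    by_cases c2 : z0 + l + 1 ≤ x
    · obtain ⟨m, hm1⟩ : ∃ m, m = min l (2 * (S.P - l - 2)) := ⟨_, rfl⟩
      obtain ⟨y, b1, b2, b3, b4⟩ := hyy m (by omega)
      refine key (z0 + l + 1) y m (by omega) (by omega) (by omega) (by omega) b1 (by omega) ?_
        (b4 _ (by omega) (by omega)) (by omega)
      rw [lam_P2S2E, if_pos (by omega), if_pos (by omega)]
      omega
    · obtain ⟨m, hm1⟩ : ∃ m, m = min l (2 * (S.P - l - 3)) := ⟨_, rfl⟩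
      obtain ⟨y, b1, b2, b3, b4⟩ := hyy m (by omega)
      refine key (z0 + l + 2) y m (by omega) (by omega) (by omega) (by omega) b1 (by omega) ?_
        (b4 _ (by omega) (by omega)) (by omega)
      rw [lam_P2S2E, if_pos (by omega), if_neg (by omega)]
      omega
  · have eF0 : F0 = x := by rw [hF0, if_neg c1, add_zero]
    have hz1 : z0 + F0 + l = n.n2 + n.Ux + S.h + 3 + n.nT + S.h + dZ n.sp e ∧ F1 ≤ z0 := by
      omega
    have hzx : x + 2 ≤ z0 := by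
      split_ifs at hF1 <;> omega
    obtain ⟨m1, hm1⟩ : ∃ m, m = min l (2 * (S.P - l - 2)) := ⟨_, rfl⟩
    by_cases c2 : x < z0 - 1 - m1
    · obtain ⟨y, b1, b2, b3, b4⟩ := hyy m1 (by omega)
      have hy1 : y = z0 - 1 - m1 := by
        rcases b3 with b3 | b3
        · exact b3
        · exfalso
          have h5 := b4 (z0 + l + 1) (by omega) (by omega)
          rw [lam_P2S2E] at h5
          split_ifs at h5 <;> omega
      refine key (z0 + l + 1) y m1 (by omega) (by omega) (by omega) (by omega) b1 (by omega) ?_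
        (b4 _ (by omega) (by omega)) (by omega)
      rw [lam_P2S2E, if_neg (by omega), if_neg (by omega)]
      omega
    · obtain ⟨m, hm2⟩ : ∃ m, m = min l (2 * (S.P - l - 1)) := ⟨_, rfl⟩
      obtain ⟨y, b1, b2, b3, b4⟩ := hyy m (by omega)
      refine key (z0 + l) y m (by omega) (by omega) (by omega) (by omega) b1 (by omega) ?_
        (b4 _ (by omega) (by omega)) (by omega)
      rw [lam_P2S2E, if_pos (by omega), if_neg (by omega)]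
      omega

theorem sel2_gE (hR : SeamR S) (hm : S.mode = 2) (hA : Adm S n j) (hb : ¬ S.bad 1)
    (h1 : n.nT + S.h + dZ n.sp e <
      n.n2 + n.Ux + S.rk 1 + (if yo2 S n j ≤ n.n2 + n.Ux + S.rk 1 then 1 else 0))
    (h2 : n.n2 + j = 0) : ∃ z y, Ok2 S n e j z y := by
  obtain ⟨R, hH⟩ := hR.g hb
  obtain ⟨l, hl⟩ := hH.top (Or.inr hm)
  have hk := S.hk
  have hr := S.rk_og 1 le_rfl (by omega) (by omega) hb
  have hM1 := hl.M1
  have hP1 := hl.P1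
  have hRh := hH.Rh
  have hRQ := hH.QR
  set x := n.n2 + n.Ux + S.rk 1 with hx
  obtain ⟨z0, hz0⟩ : ∃ z0 : ℕ,
      (z0 + (x + (if yo2 S n j ≤ x then 1 else 0)) + l =
        n.n2 + n.Ux + S.h + 3 + n.nT + S.h + dZ n.sp e ∧
        x + 1 + (if yo2 S n j ≤ x + 1 then 1 else 0) ≤ z0) ∨
      (z0 + (x + 1 + (if yo2 S n j ≤ x + 1 then 1 else 0)) + l =
        n.n2 + n.Ux + S.h + 3 + n.nT + S.h + dZ n.sp e ∧
        z0 + 1 ≤ x + (if yo2 S n j ≤ x then 1 else 0)) := by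
    by_cases c : n.n2 + n.Ux + S.h + 3 + n.nT + S.h + dZ n.sp e ≥
      (x + (if yo2 S n j ≤ x then 1 else 0)) + l +
        (x + 1 + (if yo2 S n j ≤ x + 1 then 1 else 0))
    · exact ⟨n.n2 + n.Ux + S.h + 3 + n.nT + S.h + dZ n.sp e -
        ((x + (if yo2 S n j ≤ x then 1 else 0)) + l), Or.inl (by omega)⟩
    · refine ⟨n.n2 + n.Ux + S.h + 3 + n.nT + S.h + dZ n.sp e -
        ((x + 1 + (if yo2 S n j ≤ x + 1 then 1 else 0)) + l), Or.inr ?_⟩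
      split_ifs at c ⊢ <;> omega
  by_cases hne : z0 = yo2 S n j
  · exact sel2_gE2 hR hm hA hb h2 hH hl hx rfl rfl h1 hz0 hne
  · exact ⟨z0, _, sel2_gE1 hR hm hA hb h2 hH hl hx rfl rfl h1 hz0 hne⟩

end Pool.Agent.Lob5
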