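import Pool.Agent.Lob5.P2S2A

/-!
# The selection for the mode 2, edge `1` good: classes A, C and T (`a ≥ 1`)

Notation of `P2S2A`; `y0 = yo2 S n j`, `ρ = rk 1 ≥ P+1`, `ρ ≤ h+1`, `x = N+ρ`, `F0 = x + [y0 ≤ x]`,
`F1 = x + 1 + [y0 ≤ x+1]` (so `F1 = F0+1`, or `y0 = x+1`, `F0 = x`, `F1 = x+2`), `R` from `hR.g hb`
(`HoleG`), `l` from `top` (`TopG`). `N ≥ a`, `N ≥ nT` (`+1` if `sp ≥ 2`: `hA.jU`), `3 ≤ P ≤ h`. `y0
= N+h+4-P ≥ b+1` or `y0 = N+h+3-P ≤ b-1`; so `y0 ≤ w-2`. With `y = y0`: `σ x = F0` if `z > F0` (`z ≥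
F1`), `σ x = F1` if `z ≤ F0`. `QT2`: if `z ≥ b+1` and `max z y0 ≥ b+2` then `σ b + y0 = N+h+3+a+1`.
`F3`: `y + σ (b+1) ≥ (N+h+2-P) + (b+1)`. `σ (N+P) < σ x`. All conditions: `unfold lam; split_ifs <;>
omega`.

`sel2_gA`: `F1 ≤ Q + d`. `z = nT+R+d` if `≠ y0`: `mk2_H` (`R ≥ Q`, so `z ≥ N+P+2 ≥ b+2`). If `nT+R+d
= y0` (so `y0 ≥ x+2`, `F0 = x`, `F1 = x+1`): `z = b+Q+1+d-x` if this is `≥ x+1`, otherwise `z =
b+Q+d-x (≤ x-1)`; `y = y0`; `z ≥ b+1`, `z ≤ P+Q+1+d-ρ < R+d ≤ y0` by `E0`; `mk2_A`: the sum is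
`b+Q+1`, `σ b = b`. `sel2_gC`: `Q+nT+1+d < F1`, `F0 ≤ nT+h+d`. `r = F0-nT-d`, `r1 = F1-nT-d` (`r1 ≥
Q+2`, `r ≤ h`).
* `r > R`: `p = N+P+cutG r+1`, `z = p + [y0 ≤ p]`, `y = y0`; by `c2`: `ρ ≤ P+cutG r`, so `z > F0`,
  `σ x = F0`. `mk2_C` with the rank `r`.
* `r1 ≤ R`: `p = N+P+cutG r1+1`, `z = p + [y0 ≤ p]`; by `c1`: `P+cutG r1 < ρ`, so `p ≤ x`, `σ x =
  F1`. `mk2_C` with the rank `r1`.
* `r ≤ R < r1`: `z = F0`, `y = y0`, `σ x = F1`: `mk2_G` with `L = F0` (labels of the ranks `< ρ` are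
  `< F0`); `F1 + F0 = nT+r1+d+F0 ≥ nT+R+1+F0+d`, `z = F0 = nT+r+d ≤ nT+R+d`; `h3`: `σ (N+P) ≤ F0-1`,
  `F1 ≥ nT+Q+2+d`. `sel2_gT`: `nT+h+d < F0`, `1 ≤ a`. Target `v = W0+a`, `W0 = N+h+3+nT+h`.
* `F0 ≤ nT+h+a+d`: `(z, y) = (N+h+3, y0)`, `σ x = F0`, `mk2_T`, `V_q = thr`.
* otherwise `z0 = W0+a+d-F0` if this is `≥ F1`, `z0 = W0+a+d-F1` if not (then `z0 ≤ F0-1`); `z0 ≤
  w-1`; `z0 ≥ b+2+l` by `P1`. `z0 ≠ y0`: `(z0, y0)`, the sum is `W0+a`. `z0 = y0`: `(z, y) = (y0+1,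
  y0-1)`: `V_q = W0+a`, and `σ x` is the same as before (`F0` or `F1`; if `y0 ≥ F1` then `y0 ≥ x+2`;
  if `y0 ≤ F0-1` then `y0 ≤ x`), so the sum is `W0+a+1 = thr`. `mk2_T`. -/

namespace Pool.Agent.Lob5

variable {k : ℕ} {ld al : ℕ → Prop} {S : Seam k ld al} {n : Num} {e j : ℕ}

private theorem dz_P2S2G (sp e : ℕ) : dZ sp e ≤ 1 := by
  unfold dZ
  split_ifs <;> omega

private theorem lam_P2S2G (z y r : ℕ) : lam (min z y) (max z y) r =
    r + (if min z y ≤ r then 1 else 0) + (if max z y ≤ r + 1 then 1 else 0) := rfl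

/-- the position of `yo2` -/
private theorem yo_P2S2G (S : Seam k ld al) (n : Num) (j : ℕ) (hP : S.P ≤ S.h) :
    (n.n2 + j + 2 * S.P ≤ n.n2 + n.Ux + S.h + 3 ∧
      yo2 S n j + S.P = n.n2 + n.Ux + S.h + 4) ∨
    (n.n2 + n.Ux + S.h + 3 < n.n2 + j + 2 * S.P ∧
      yo2 S n j + S.P = n.n2 + n.Ux + S.h + 3) := by
  unfold yo2
  split_ifs with h
  · left
    omega
  · right
    omega

/-- the numerical conditions for `y = yo2` -/
private theorem num_P2S2G (hR : SeamR S) (hm : S.mode = 2) (hA : Adm S n j) {z : ℕ}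
    (hz1 : n.n2 + j + S.P + 1 ≤ z) (hz2 : n.n2 + j + S.P + 2 ≤ max z (yo2 S n j))
    (hzw : z ≤ n.n2 + n.Ux + S.h + 3) (hzy : z ≠ yo2 S n j) :
    Num2 S n j z (yo2 S n j) := by
  have hP := hR.Ph1 (by omega)
  have hP3 := hR.P3 (by omega)
  have hjU := hA.jU
  have hy := yo_P2S2G S n j hP
  refine ⟨by omega, hzw, by omega, by omega, hzy, hz2, fun h3 => ?_⟩
  rw [h3] at hjU
  have hn := hA.n2T
  rw [lam_P2S2G]
  split_ifs at hjU <;> split_ifs <;> omega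

private theorem qt_P2S2G (hR : SeamR S) (hm : S.mode = 2) (hA : Adm S n j) {z : ℕ}
    (hz1 : n.n2 + j + S.P + 1 ≤ z) (hz2 : n.n2 + j + S.P + 2 ≤ max z (yo2 S n j))
    (hzy : z ≠ yo2 S n j) :
    lam (min z (yo2 S n j)) (max z (yo2 S n j)) (n.n2 + j + S.P) + yo2 S n j =
      n.n2 + n.Ux + S.h + 3 + (n.n2 + j) + 1 := by
  have hP := hR.Ph1 (by omega)
  have hP3 := hR.P3 (by omega)
  have hjU := hA.jU
  have hy := yo_P2S2G S n j hP
  rw [lam_P2S2G]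
  split_ifs <;> omega

private theorem qt2_P2S2G (hR : SeamR S) (hm : S.mode = 2) (hA : Adm S n j) {z : ℕ}
    (hz1 : n.n2 + j + S.P + 1 ≤ z) (hz2 : n.n2 + j + S.P + 2 ≤ max z (yo2 S n j))
    (hzy : z ≠ yo2 S n j) : QT2 S n j z (yo2 S n j) := by
  have h := qt_P2S2G hR hm hA hz1 hz2 hzy
  exact ⟨by omega, by omega⟩

theorem sel2_gA (hR : SeamR S) (hm : S.mode = 2) (hA : Adm S n j) (hb : ¬ S.bad 1)
    (h : n.n2 + n.Ux + S.rk 1 + 1 + (if yo2 S n j ≤ n.n2 + n.Ux + S.rk 1 + 1 then 1 else 0) ≤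
      S.Q + dZ n.sp e) : ∃ z y, Ok2 S n e j z y := by
  have hP := hR.Ph1 (by omega)
  have hP3 := hR.P3 (by omega)
  have hQ1 := hR.Q1 (by omega)
  have hQh := hR.Qh1 (by omega)
  have hjU := hA.jU
  have hn := hA.n2T
  have hd := dz_P2S2G n.sp e
  have hk := S.hk
  have hρ := S.rk_og 1 le_rfl (by omega) (by omega) hb
  have hy := yo_P2S2G S n j hP
  obtain ⟨R, hH⟩ := hR.g hb
  have hQR := hH.QR
  have hRh := hH.Rh
  have hE := hH.E0 (by omega)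
  by_cases hc : n.nT + R + dZ n.sp e = yo2 S n j
  · by_cases hz : n.n2 + n.Ux + S.rk 1 + 1 + (n.n2 + n.Ux + S.rk 1) ≤
        n.n2 + j + S.P + S.Q + 1 + dZ n.sp e
    · have hx := p1g2 (S := S) (z := n.n2 + j + S.P + S.Q + 1 + dZ n.sp e -
        (n.n2 + n.Ux + S.rk 1)) (y := yo2 S n j) hA hb
      refine ⟨_, _, mk2_A hR hm hA hx (num_P2S2G hR hm hA ?_ ?_ ?_ ?_)
        (qt2_P2S2G hR hm hA ?_ ?_ ?_) ?_ ?_⟩
      all_goals try rw [lam_P2S2G, lam_P2S2G]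
      all_goals split_ifs at h <;> split_ifs at hjU <;> (try split_ifs) <;> omega
    · have hx := p1g2 (S := S) (z := n.n2 + j + S.P + S.Q + dZ n.sp e -
        (n.n2 + n.Ux + S.rk 1)) (y := yo2 S n j) hA hb
      refine ⟨_, _, mk2_A hR hm hA hx (num_P2S2G hR hm hA ?_ ?_ ?_ ?_)
        (qt2_P2S2G hR hm hA ?_ ?_ ?_) ?_ ?_⟩
      all_goals try rw [lam_P2S2G, lam_P2S2G]
      all_goals split_ifs at h <;> split_ifs at hjU <;> (try split_ifs) <;> omega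
  · refine ⟨_, _, mk2_H hR hm hA hb hH (num_P2S2G hR hm hA ?_ ?_ ?_ hc)
      (qt2_P2S2G hR hm hA ?_ ?_ hc) rfl⟩
    all_goals split_ifs at h <;> split_ifs at hjU <;> omega

theorem sel2_gC (hR : SeamR S) (hm : S.mode = 2) (hA : Adm S n j) (hb : ¬ S.bad 1)
    (h1 : S.Q + n.nT + 1 + dZ n.sp e <
      n.n2 + n.Ux + S.rk 1 + 1 + (if yo2 S n j ≤ n.n2 + n.Ux + S.rk 1 + 1 then 1 else 0))
    (h2 : n.n2 + n.Ux + S.rk 1 + (if yo2 S n j ≤ n.n2 + n.Ux + S.rk 1 then 1 else 0) ≤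
      n.nT + S.h + dZ n.sp e) : ∃ z y, Ok2 S n e j z y := by
  have hP := hR.Ph1 (by omega)
  have hP3 := hR.P3 (by omega)
  have hQ1 := hR.Q1 (by omega)
  have hQh := hR.Qh1 (by omega)
  have hjU := hA.jU
  have hn := hA.n2T
  have hd := dz_P2S2G n.sp e
  have hk := S.hk
  have hρ := S.rk_og 1 le_rfl (by omega) (by omega) hb
  have hy := yo_P2S2G S n j hP
  obtain ⟨R, hH⟩ := hR.g hb
  have hQR := hH.QR
  have hRh := hH.Rh
  have hjU' : n.nT + j ≤ n.Ux := by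
    split_ifs at hjU <;> omega
  clear hjU
  obtain ⟨F0, hF0⟩ : ∃ F0, F0 = n.n2 + n.Ux + S.rk 1 +
      (if yo2 S n j ≤ n.n2 + n.Ux + S.rk 1 then 1 else 0) := ⟨_, rfl⟩
  obtain ⟨F1, hF1⟩ : ∃ F1, F1 = n.n2 + n.Ux + S.rk 1 + 1 +
      (if yo2 S n j ≤ n.n2 + n.Ux + S.rk 1 + 1 then 1 else 0) := ⟨_, rfl⟩
  rw [← hF1] at h1
  rw [← hF0] at h2
  have hF01 : F0 + 1 ≤ F1 ∧ F1 ≤ F0 + 2 := by
    split_ifs at hF0 <;> split_ifs at hF1 <;> omega
  -- the three cases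
  by_cases hr : n.nT + R + dZ n.sp e < F0
  · obtain ⟨r, hr'⟩ : ∃ r, F0 = n.nT + r + dZ n.sp e := ⟨F0 - n.nT - dZ n.sp e, by omega⟩
    have hc2 := hH.c2 r (by omega) (by omega)
    have hcl := S.cutG_le r
    have hlt := S.cutG_lt r (by omega) (by omega)
    have hgt := S.cutG_gt r (by omega) (by omega)
    by_cases hyp : yo2 S n j ≤ n.n2 + n.Ux + S.P + S.cutG r + 1
    · have hx := p1g2 (S := S) (z := n.n2 + n.Ux + S.P + S.cutG r + 2) (y := yo2 S n j) hA hb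
      refine ⟨_, _, mk2_C hR hm hA hx (num_P2S2G hR hm hA ?_ ?_ ?_ ?_)
        (qt2_P2S2G hR hm hA ?_ ?_ ?_) (r := r) (by omega) (by omega) ?_ ?_ ?_ ?_⟩
      all_goals try omega
      · rw [lam_P2S2G]
        split_ifs at hF0 <;> split_ifs <;> omega
      · rw [lam_P2S2G]
        split_ifs <;> omega
      · intro i hi1 hi2 hi3 hi4 hi5 hi6 hi7
        have := hlt i hi1 hi2 hi3 hi4 hi5
        rw [lam_P2S2G]
        split_ifs <;> omega
      · intro i hi1 hi2 hi3 hi4 hi5 hi6 hi7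
        have := hgt i hi1 hi2 hi3 hi4 hi5
        rw [lam_P2S2G]
        split_ifs <;> omega
    · have hx := p1g2 (S := S) (z := n.n2 + n.Ux + S.P + S.cutG r + 1) (y := yo2 S n j) hA hb
      refine ⟨_, _, mk2_C hR hm hA hx (num_P2S2G hR hm hA ?_ ?_ ?_ ?_)
        (qt2_P2S2G hR hm hA ?_ ?_ ?_) (r := r) (by omega) (by omega) ?_ ?_ ?_ ?_⟩
      all_goals try omega
      · rw [lam_P2S2G]
        split_ifs at hF0 <;> split_ifs <;> omega
      · rw [lam_P2S2G]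
        split_ifs <;> omega
      · intro i hi1 hi2 hi3 hi4 hi5 hi6 hi7
        have := hlt i hi1 hi2 hi3 hi4 hi5
        rw [lam_P2S2G]
        split_ifs <;> omega
      · intro i hi1 hi2 hi3 hi4 hi5 hi6 hi7
        have := hgt i hi1 hi2 hi3 hi4 hi5
        rw [lam_P2S2G]
        split_ifs <;> omega
  · by_cases hr1 : F1 ≤ n.nT + R + dZ n.sp e
    · obtain ⟨r, hr'⟩ : ∃ r, F1 = n.nT + r + dZ n.sp e := ⟨F1 - n.nT - dZ n.sp e, by omega⟩
      have hc1 := hH.c1 r (by omega) (by omega)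
      have hcl := S.cutG_le r
      have hlt := S.cutG_lt r (by omega) (by omega)
      have hgt := S.cutG_gt r (by omega) (by omega)
      by_cases hyp : yo2 S n j ≤ n.n2 + n.Ux + S.P + S.cutG r + 1
      · have hx := p1g2 (S := S) (z := n.n2 + n.Ux + S.P + S.cutG r + 2) (y := yo2 S n j) hA hb
        refine ⟨_, _, mk2_C hR hm hA hx (num_P2S2G hR hm hA ?_ ?_ ?_ ?_)
          (qt2_P2S2G hR hm hA ?_ ?_ ?_) (r := r) (by omega) (by omega) ?_ ?_ ?_ ?_⟩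
        all_goals try omega
        · rw [lam_P2S2G]
          split_ifs at hF1 <;> split_ifs <;> omega
        · rw [lam_P2S2G]
          split_ifs <;> omega
        · intro i hi1 hi2 hi3 hi4 hi5 hi6 hi7
          have := hlt i hi1 hi2 hi3 hi4 hi5
          rw [lam_P2S2G]
          split_ifs <;> omega
        · intro i hi1 hi2 hi3 hi4 hi5 hi6 hi7
          have := hgt i hi1 hi2 hi3 hi4 hi5
          rw [lam_P2S2G]
          split_ifs <;> omega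
      · have hx := p1g2 (S := S) (z := n.n2 + n.Ux + S.P + S.cutG r + 1) (y := yo2 S n j) hA hb
        refine ⟨_, _, mk2_C hR hm hA hx (num_P2S2G hR hm hA ?_ ?_ ?_ ?_)
          (qt2_P2S2G hR hm hA ?_ ?_ ?_) (r := r) (by omega) (by omega) ?_ ?_ ?_ ?_⟩
        all_goals try omega
        · rw [lam_P2S2G]
          split_ifs at hF1 <;> split_ifs <;> omega
        · rw [lam_P2S2G]
          split_ifs <;> omega
        · intro i hi1 hi2 hi3 hi4 hi5 hi6 hi7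
          have := hlt i hi1 hi2 hi3 hi4 hi5
          rw [lam_P2S2G]
          split_ifs <;> omega
        · intro i hi1 hi2 hi3 hi4 hi5 hi6 hi7
          have := hgt i hi1 hi2 hi3 hi4 hi5
          rw [lam_P2S2G]
          split_ifs <;> omega
    · have hz0 : F0 ≠ yo2 S n j := by
        split_ifs at hF0 <;> omega
      have hmx : n.n2 + j + S.P + 2 ≤ max F0 (yo2 S n j) := by
        split_ifs at hF0 <;> omega
      have hσ : lam (min F0 (yo2 S n j)) (max F0 (yo2 S n j)) (n.n2 + n.Ux + S.rk 1) = F1 := by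
        rw [lam_P2S2G]
        split_ifs at hF0 <;> split_ifs at hF1 <;> split_ifs <;> omega
      refine ⟨F0, yo2 S n j, mk2_G hR hm hA hb hH (num_P2S2G hR hm hA ?_ hmx ?_ hz0)
        (qt2_P2S2G hR hm hA ?_ hmx hz0) (L := F0) ?_ ?_ ?_ ?_⟩
      · omega
      · split_ifs at hF0 <;> omega
      · omega
      · intro r hr2 hr3
        rw [lam_P2S2G]
        split_ifs at hF0 <;> split_ifs <;> omega
      · rw [hσ]
        omega
      · omega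
      · rw [hσ]
        have h5 : lam (min F0 (yo2 S n j)) (max F0 (yo2 S n j)) (n.n2 + n.Ux + S.P) < F0 := by
          rw [lam_P2S2G]
          split_ifs at hF0 <;> split_ifs <;> omega
        omega

theorem sel2_gT (hR : SeamR S) (hm : S.mode = 2) (hA : Adm S n j) (hb : ¬ S.bad 1)
    (h1 : n.nT + S.h + dZ n.sp e <
      n.n2 + n.Ux + S.rk 1 + (if yo2 S n j ≤ n.n2 + n.Ux + S.rk 1 then 1 else 0))
    (h2 : 1 ≤ n.n2 + j) : ∃ z y, Ok2 S n e j z y := by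
  have hP := hR.Ph1 (by omega)
  have hP3 := hR.P3 (by omega)
  have hQ1 := hR.Q1 (by omega)
  have hQh := hR.Qh1 (by omega)
  have hjU := hA.jU
  have hn := hA.n2T
  have hd := dz_P2S2G n.sp e
  have hk := S.hk
  have hρ := S.rk_og 1 le_rfl (by omega) (by omega) hb
  have hy := yo_P2S2G S n j hP
  obtain ⟨R, hH⟩ := hR.g hb
  obtain ⟨l, hl⟩ := hH.top (Or.inr hm)
  have hP1 := hl.P1
  have hjU' : n.nT + j ≤ n.Ux := by
    split_ifs at hjU <;> omega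
  obtain ⟨F0, hF0⟩ : ∃ F0, F0 = n.n2 + n.Ux + S.rk 1 +
      (if yo2 S n j ≤ n.n2 + n.Ux + S.rk 1 then 1 else 0) := ⟨_, rfl⟩
  obtain ⟨F1, hF1⟩ : ∃ F1, F1 = n.n2 + n.Ux + S.rk 1 + 1 +
      (if yo2 S n j ≤ n.n2 + n.Ux + S.rk 1 + 1 then 1 else 0) := ⟨_, rfl⟩
  rw [← hF0] at h1
  have hF01 : F0 + 1 ≤ F1 ∧ F1 ≤ F0 + 2 := by
    split_ifs at hF0 <;> split_ifs at hF1 <;> omega
  have hFx : F0 ≤ n.n2 + n.Ux + S.rk 1 + 1 ∧ F1 ≤ n.n2 + n.Ux + S.rk 1 + 2 := by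
    split_ifs at hF0 <;> split_ifs at hF1 <;> omega
  by_cases hc : F0 ≤ n.nT + S.h + (n.n2 + j) + dZ n.sp e
  · have hx := p1g2 (S := S) (z := n.n2 + n.Ux + S.h + 3) (y := yo2 S n j) hA hb
    have hσ : lam (min (n.n2 + n.Ux + S.h + 3) (yo2 S n j))
        (max (n.n2 + n.Ux + S.h + 3) (yo2 S n j)) (n.n2 + n.Ux + S.rk 1) = F0 := by
      rw [lam_P2S2G]
      split_ifs at hF0 <;> split_ifs <;> omega
    have hq := qt_P2S2G hR hm hA (z := n.n2 + n.Ux + S.h + 3) (by omega) (by omega) (by omega)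
    refine ⟨_, _, mk2_T hR hm hA hx (num_P2S2G hR hm hA ?_ ?_ ?_ ?_)
      (qt2_P2S2G hR hm hA ?_ ?_ ?_) ?_ ?_ ?_⟩
    all_goals omega
  · -- the label `z0` and the value `F` of `σ x`
    obtain ⟨z0, F, hz0, hF⟩ : ∃ z0 F, z0 + F = n.n2 + n.Ux + S.h + 3 + n.nT + S.h +
        (n.n2 + j) + dZ n.sp e ∧ ((F = F0 ∧ F1 ≤ z0) ∨ (F = F1 ∧ z0 + 1 ≤ F0)) := by
      by_cases hz : F1 + F0 ≤ n.n2 + n.Ux + S.h + 3 + n.nT + S.h + (n.n2 + j) + dZ n.sp e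
      · exact ⟨n.n2 + n.Ux + S.h + 3 + n.nT + S.h + (n.n2 + j) + dZ n.sp e - F0, F0, by omega,
          Or.inl ⟨rfl, by omega⟩⟩
      · exact ⟨n.n2 + n.Ux + S.h + 3 + n.nT + S.h + (n.n2 + j) + dZ n.sp e - F1, F1, by omega,
          Or.inr ⟨rfl, by omega⟩⟩
    by_cases hzy : z0 = yo2 S n j
    · have hx := p1g2 (S := S) (z := z0 + 1) (y := z0 - 1) hA hb
      have hσ : lam (min (z0 + 1) (z0 - 1)) (max (z0 + 1) (z0 - 1))
          (n.n2 + n.Ux + S.rk 1) = F := by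
        rw [lam_P2S2G]
        split_ifs at hF0 <;> split_ifs at hF1 <;> split_ifs <;> omega
      have hσb : lam (min (z0 + 1) (z0 - 1)) (max (z0 + 1) (z0 - 1)) (n.n2 + j + S.P) +
          (z0 - 1) = n.n2 + n.Ux + S.h + 3 + (n.n2 + j) := by
        rw [lam_P2S2G]
        split_ifs <;> omega
      refine ⟨_, _, mk2_T hR hm hA hx ⟨?_, ?_, ?_, ?_, ?_, ?_, ?_⟩ ⟨?_, ?_⟩ ?_ ?_ ?_⟩
      all_goals try omega
      · intro h3
        rw [h3] at hjU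
        rw [lam_P2S2G]
        split_ifs at hjU <;> split_ifs <;> omega
    · have hx := p1g2 (S := S) (z := z0) (y := yo2 S n j) hA hb
      have hσ : lam (min z0 (yo2 S n j)) (max z0 (yo2 S n j))
          (n.n2 + n.Ux + S.rk 1) = F := by
        rw [lam_P2S2G]
        split_ifs at hF0 <;> split_ifs at hF1 <;> split_ifs <;> omega
      have hq := qt_P2S2G hR hm hA (z := z0) (by omega) (by omega) hzy
      refine ⟨_, _, mk2_T hR hm hA hx (num_P2S2G hR hm hA ?_ ?_ ?_ hzy)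
        (qt2_P2S2G hR hm hA ?_ ?_ hzy) ?_ ?_ ?_⟩
      all_goals omega

end Pool.Agent.Lob5
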