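import Pool.Agent.Lob5.P2S2B
import Pool.Agent.Lob5.P2S2G
import Pool.Agent.Lob5.P2S2E
import Pool.Agent.Lob5.P2StrA

/-!
# The selection for the mode 2
-/

namespace Pool.Agent.Lob5

variable {k : ℕ} {ld al : ℕ → Prop}

/-- the layer `funP` -/
private theorem funP2 (S : Seam k ld al) (n : Num) (j : ℕ) (hm : S.mode = 2) (hA : Adm S n j) :
    (funP S n j).lg = false ∧ (funP S n j).U = n.Ux + 1 - j ∧
      (S.bad 1 → (funP S n j).p 1 =
        n.n2 + j + S.rk 1 + (if yo2 S n j ≤ n.n2 + j + S.rk 1 then 1 else 0)) ∧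
      (¬ S.bad 1 → (funP S n j).p 1 = n.n2 + n.Ux + S.rk 1 + 1 +
        (if yo2 S n j ≤ n.n2 + n.Ux + S.rk 1 + 1 then 1 else 0)) := by
  have hs := sp2 hm hA
  have hw := wz_res S n hs
  have hj := jU_res hA
  have hP := S.Ph
  have hk := S.hk
  have hlay : layOf S n.up j = layS S n.up j (yo2 S n j) := by
    unfold layOf
    rw [if_neg (show ¬ n.up.sp = 0 from hs), if_neg (by omega), if_pos hm]
    unfold lay2 yo2
    congr 1
    change (if n.n2 + j + S.P < wz S n.up + 1 - S.P then wz S n.up + 1 - S.P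
      else wz S n.up - S.P) = _
    rw [hw]
    split_ifs <;> omega
  have hU : (funP S n j).U = n.Ux + 1 - j := by
    change (layOf S n.up j).U = _
    rw [hlay]
    rfl
  have hlg : (funP S n j).lg = false := by
    change (layOf S n.up j).lg = _
    rw [hlay]
    rfl
  have hp : (funP S n j).p 1 = lam (yo2 S n j) (wz S n.up + 2)
      (if S.rk 1 ≤ S.P then n.n2 + j + S.rk 1 else n.n2 + j + (n.Ux + 1 - j) + S.rk 1) := by
    change pl S n.up (layOf S n.up j) 1 = _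
    rw [hlay]
    unfold pl
    rw [if_pos (by norm_num)]
    rfl
  refine ⟨hlg, hU, fun hb => ?_, fun hb => ?_⟩
  · have h1 := S.rk_ob 1 le_rfl (by omega) (by norm_num) hb
    rw [hp, if_pos h1.2]
    unfold lam
    rw [if_neg (by omega : ¬ wz S n.up + 2 ≤ n.n2 + j + S.rk 1 + 1)]
    omega
  · have h1 := S.rk_og 1 le_rfl (by omega) (by norm_num) hb
    have e1 : n.n2 + j + (n.Ux + 1 - j) + S.rk 1 = n.n2 + n.Ux + S.rk 1 + 1 := by omega
    rw [hp, if_neg (by omega), e1]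
    unfold lam
    rw [if_neg (by omega : ¬ wz S n.up + 2 ≤ n.n2 + n.Ux + S.rk 1 + 1 + 1)]
    omega

theorem p2_sel2 (S : Seam k ld al) (hR : SeamR S) (hm : S.mode = 2) (n : Num) (e j : ℕ)
    (hA : Adm S n j) : ∃ (Λ : FLay) (l : Bool), Fam2 S n j Λ ∧ Λ.j = j ∧ P2OK S n e Λ l := by
  obtain ⟨h1, _, h3, h4⟩ := funP2 S n j hm hA
  have hd : dZ n.sp e ≤ 1 := by
    unfold dZ
    split_ifs <;> omega
  have hw1 : 1 ≤ wz S n.up := by
    rw [wz_up]
    omega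
  have fin : (∃ z y, Ok2 S n e j z y) →
      ∃ (Λ : FLay) (l : Bool), Fam2 S n j Λ ∧ Λ.j = j ∧ P2OK S n e Λ l := by
    rintro ⟨z, y, h⟩
    exact ⟨resLay S n j z y, false, Fam2.R z y, rfl, h.ok hm hA⟩
  have finL : S.Q + 1 + dZ n.sp e ≤ (funP S n j).p 1 →
      (funP S n j).p 1 ≤ S.Q + n.nT + 1 + dZ n.sp e →
      ∃ (Λ : FLay) (l : Bool), Fam2 S n j Λ ∧ Λ.j = j ∧ P2OK S n e Λ l := by
    intro c1 c2
    refine ⟨funP S n j, true, Fam2.P, rfl, p2ok_L S n e j hA h1 ?_ ?_⟩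
    · unfold pkZ
      omega
    · unfold pkZ
      omega
  by_cases hb : S.bad 1
  · have hp := h3 hb
    by_cases c1 : (funP S n j).p 1 ≤ S.Q + dZ n.sp e
    · exact fin (sel2_bA hR hm hA hb (by rw [← hp]; exact c1))
    by_cases c2 : (funP S n j).p 1 ≤ S.Q + n.nT + 1 + dZ n.sp e
    · exact finL (by omega) c2
    by_cases c3 : (funP S n j).p 1 ≤ n.nT + S.h + dZ n.sp e
    · exact fin (sel2_bC hR hm hA hb (by rw [← hp]; omega) (by rw [← hp]; exact c3))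
    exact fin (sel2_bD hR hm hA hb (by rw [← hp]; omega))
  · have hp := h4 hb
    by_cases c1 : (funP S n j).p 1 ≤ S.Q + dZ n.sp e
    · exact fin (sel2_gA hR hm hA hb (by rw [← hp]; exact c1))
    by_cases c2 : (funP S n j).p 1 ≤ S.Q + n.nT + 1 + dZ n.sp e
    · exact finL (by omega) c2
    by_cases c3 : n.n2 + n.Ux + S.rk 1 + (if yo2 S n j ≤ n.n2 + n.Ux + S.rk 1 then 1 else 0) ≤
      n.nT + S.h + dZ n.sp e
    · exact fin (sel2_gC hR hm hA hb (by rw [← hp]; omega) c3)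
    by_cases c4 : n.n2 + j = 0
    · exact fin (sel2_gE hR hm hA hb (by omega) c4)
    · exact fin (sel2_gT hR hm hA hb (by omega) (by omega))

theorem fam2_step (S : Seam k ld al) (hR : SeamR S) (hm : S.mode = 2) (n : Num) (j : ℕ)
    (hA : Adm S n (j + 1)) {Λ Λ' : FLay} (h : Fam2 S n j Λ) (h' : Fam2 S n (j + 1) Λ') :
    FStep S n Λ Λ' := by
  have hs := sp2 hm hA
  have hw := wz_res S n hs
  have hj := jU_res hA
  have hA' : Adm S n j :=
    ⟨hA.n2T, by have := hA.jU; omega, hA.sp0, hA.sp14, hA.sp5⟩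
  have hP3 := hR.P3 (by omega)
  have hm3 : S.mode = 3 → n.sp = 0 := fun h => absurd h (by omega)
  have key : ∀ (i : ℕ) (Γ : FLay), Adm S n i → Fam2 S n i Γ →
      Γ.j = i ∧ (∃ σ, GLy S n Γ σ) ∧ wz S n.up ≤ n.n2 + Γ.j + Γ.U + S.h + 1 + 2 := by
    intro i Γ hi hΓ
    have hji := jU_res hi
    cases hΓ with
    | P =>
      refine ⟨rfl, (gl_Z S n i hm3 hi LayZ.P).1, ?_⟩
      rw [(funP2 S n i hm hi).2.1, hw]
      change _ ≤ n.n2 + i + (n.Ux + 1 - i) + S.h + 1 + 2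
      omega
    | R z y =>
      refine ⟨rfl, ⟨_, gl_res S n hs i z y hi⟩, ?_⟩
      rw [hw]
      change _ ≤ n.n2 + i + (n.Ux - i) + S.h + 1 + 2
      omega
  obtain ⟨e1, ⟨σ, hσ⟩, hr⟩ := key j Λ hA' h
  obtain ⟨e2, ⟨σ', hσ'⟩, hr'⟩ := key (j + 1) Λ' hA h'
  exact step_res S n hσ hσ' (by omega) hP3 hr hr'

end Pool.Agent.Lob5
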