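import Pool.Agent.Lob5.P2S4A

/-!
# The selection for the mode 4, edge `1` good (two reserved labels)

Notation of `P2S4A`; `y0 = yo4 S n j`, `ρ = rk 1`, `P+1 ≤ ρ ≤ h+1`, `x = N+ρ`, `p 1 = σ x` (`p1g2`),
the sum at the vertex `k` is `V' = σ x + z - d` (`vk2`), at the special vertex `V_q = nT + ρq + y`,
`ρq = a+Q+2` (`vq4`), `p' = N+P+cutG ρq+1`. Facts: `N ≥ nT+a` (`hA.jU`, one more if `sp ≥ 2`), `3 ≤
P ≤ h`, `Q+2 ≤ h`, `P+ρ ≤ 2h` (`g3`); `R` with `HoleG`: `Q ≤ R ≤ h`, `E0: P+Q+2 ≤ R+ρ`, `c1, c2`.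
`Num4.F3`: `¬ XC`: `ρq > h` (then `y ≥ w-1`) or `N+2P+cutG ρq+1 ≥ nT+h`. All conditions: `unfold lam
yo4; split_ifs <;> omega`.

`sel4_gH`: `b+1 ≤ nT+R+d`: `z = nT+R+d (≤ w-2)`, `y = y0+[z ≤ y0]`: `v4_H`, `V' = σ x + nT + R ≤
W0`. `ρq > h`: `y = w`, `V_q > W0` (`q4_T`). `ρq ≤ h`: `q4_C`; `ρq ≤ R`: `c1` gives `p' ≤ x`, `y < σ
x`, `V_q < V'`; `ρq ≥ R+1`: `c2` gives `p' ≥ x+1`, `y > σ x`, `V_q > V'`. `f = x + [y0 ≤ x]` (label
of the edge 1 without `z`). `sel4_gC`: `nT+R+d ≤ b`, `f ≤ nT+h+d`: `r = f-nT-d ≥ R+1`, `p = N+P+cutG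
r+1 ≥ x+1` (`c2`). `ρq > h`: `(z, y) = (p, w)`. `ρq ≤ h`: `r ≤ ρq` (`p ≤ p'`: `S.cutG_mono`): `(z,
y) = (p, p'+1)` (`f = x`); `r > ρq` (`p ≥ p'`): `(z, y) = (p+1, p')`. `σ x = f`; `v4_C`, `q4_C` or
`q4_T`; `V_q > V'` in the first two cases, `V_q < V'` in the third. `sel4_gD`: `nT+R+d ≤ b`, `nT+h+d
< f`.
* `ρq ≤ h`: `V_q ≤ W0`. `f+w ≤ t+d`: `(z, y) = (w, p')`, `V' = f+w-d`. Otherwise `z = t+d-f` if this
  is `≥ f+1` and `z = t+d-f-1` if not (`≤ f-1`), `y = p'+[z ≤ p']`: `V' = t` (`σ x = f` or `f+1`).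
  `z ≥ b+1` by `g3`.
* `ρq > h` (`f = x`): `x+w ≤ t+d`: `(z, y) = (w-1, w)` if `x+1 = nT+ρq+d` and `(w, w-1)` if not; `V'
  = x+w-1-d ≥ W0` resp. `x+w-d`. Otherwise `y = w` and `z = t+d-x` if this is `≥ x+1` and `z =
  t+d-x-1` if not: `V' = t`, `V_q = nT+ρq+w = t-(h-Q-1) < t`. -/

namespace Pool.Agent.Lob5

variable {k : ℕ} {ld al : ℕ → Prop} {S : Seam k ld al} {n : Num} {e j : ℕ}

private theorem dz_P2S4G (sp e : ℕ) : dZ sp e ≤ 1 ∧ (1 ≤ dZ sp e → 2 ≤ sp) := by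
  unfold dZ
  split_ifs with h
  · exact ⟨le_rfl, fun _ => h.1⟩
  · exact ⟨Nat.zero_le _, fun h1 => absurd h1 (by omega)⟩

private theorem lam_P2S4G (z y r : ℕ) : lam (min z y) (max z y) r =
    r + (if min z y ≤ r then 1 else 0) + (if max z y ≤ r + 1 then 1 else 0) := rfl

private theorem mono_P2S4G (S : Seam k ld al) {r r' : ℕ} (h : r ≤ r') :
    S.cutG r ≤ S.cutG r' :=
  monotone_nat_of_le_succ S.cutG_mono h

/-- the facts about the numbers -/
private theorem num_P2S4G (hR : SeamR S) (hT : SeamT S) (hm : S.mode = 4) (hA : Adm S n j)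
    (hb : ¬ S.bad 1) (hx : ¬ XC S n j) :
    (3 ≤ S.P ∧ S.P ≤ S.h ∧ S.Q + 2 ≤ S.h) ∧ S.P + S.rk 1 ≤ 2 * S.h ∧
      (S.P + 1 ≤ S.rk 1 ∧ S.rk 1 ≤ S.h + 1) ∧
      (n.n2 ≤ n.nT ∧ n.nT + j ≤ n.Ux ∧ (2 ≤ n.sp → n.nT + j + 1 ≤ n.Ux)) ∧
      (n.sp = 3 → n.n2 + j + S.Q + 2 ≤ S.h →
        n.nT + S.h ≤ n.n2 + n.Ux + S.P + S.cutG (n.n2 + j + S.Q + 2) + 1 + S.P) ∧
      S.P + S.cutG (n.n2 + j + S.Q + 2) ≤ S.h + 1 := by
  have hk := S.hk
  have hjU := hA.jU
  refine ⟨⟨hR.P3 (by omega), hR.Ph1 (by omega), hT.Q2 (by omega)⟩, hT.g3 (by omega) hb,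
    S.rk_og 1 le_rfl (by omega) (by omega) hb, ⟨hA.n2T, ?_, ?_⟩, ?_, S.cutG_le _⟩
  · split_ifs at hjU <;> omega
  · intro h
    rw [if_pos h] at hjU
    exact hjU
  · intro h1 h2
    by_contra h3
    exact hx ⟨h1, h2, by omega⟩

private theorem fin_P2S4G (hm : S.mode = 4) (hA : Adm S n j) (hb : ¬ S.bad 1) {z y : ℕ}
    (hN : Num4 S n j z y)
    (hq : VOKn S n (resLay S n j z y) ((resLay S n j z y).bs S.q + y))
    (hv : VOKn S n (resLay S n j z y) ((resLay S n j z y).vk S n e))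
    (hne : n.nT + (n.n2 + j + S.Q + 2) + y + dZ n.sp e ≠
      lam (min z y) (max z y) (n.n2 + n.Ux + S.rk 1) + z) :
    P2OK S n e (resLay S n j z y) false := by
  refine ok4 hm hA hN hq hv ?_
  have h1 := vq4 hm hA hN
  have h2 := vk2 S n e j z y _ (p1g2 hA hb)
  omega

theorem sel4_gH (hR : SeamR S) (hT : SeamT S) (hm : S.mode = 4) (hA : Adm S n j)
    (hb : ¬ S.bad 1) (hx : ¬ XC S n j) {R : ℕ} (hH : HoleG S R)
    (h : n.n2 + j + S.P + 1 ≤ n.nT + R + dZ n.sp e) :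
    ∃ z y, P2OK S n e (resLay S n j z y) false := by
  obtain ⟨⟨a1, a2, a3⟩, a4, ⟨a5, a6⟩, ⟨a7, a8, a9⟩, a10, a11⟩ := num_P2S4G hR hT hm hA hb hx
  obtain ⟨d1, d2⟩ := dz_P2S4G n.sp e
  have hRh := hH.Rh
  have hc1 := hH.c1 (n.n2 + j + S.Q + 2)
  have hc2 := hH.c2 (n.n2 + j + S.Q + 2)
  have hzd : n.nT + R + dZ n.sp e ≤ n.n2 + n.Ux + S.h + 1 := by omega
  by_cases hc : n.n2 + j + S.Q + 2 ≤ S.h
  · by_cases hz : n.nT + R + dZ n.sp e ≤
        n.n2 + n.Ux + S.P + S.cutG (n.n2 + j + S.Q + 2) + 1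
    · have hN : Num4 S n j (n.nT + R + dZ n.sp e)
          (n.n2 + n.Ux + S.P + S.cutG (n.n2 + j + S.Q + 2) + 1 + 1) :=
        ⟨by omega, by omega, by omega, by omega, by omega, fun h3 => by
          have := a10 h3 hc
          omega⟩
      refine ⟨_, _, fin_P2S4G hm hA hb hN (q4_C hm hA hN hc ?_) (v4_H hm hA hb hH rfl) ?_⟩
      · rw [if_pos hz]
      · rw [lam_P2S4G]
        by_cases hr : n.n2 + j + S.Q + 2 ≤ R
        · have := hc1 (by omega) hr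
          split_ifs <;> omega
        · have := hc2 (by omega) hc
          split_ifs <;> omega
    · have hN : Num4 S n j (n.nT + R + dZ n.sp e)
          (n.n2 + n.Ux + S.P + S.cutG (n.n2 + j + S.Q + 2) + 1) :=
        ⟨by omega, by omega, by omega, by omega, by omega, fun h3 => by
          have := a10 h3 hc
          omega⟩
      refine ⟨_, _, fin_P2S4G hm hA hb hN (q4_C hm hA hN hc ?_) (v4_H hm hA hb hH rfl) ?_⟩
      · rw [if_neg hz]
      · rw [lam_P2S4G]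
        by_cases hr : n.n2 + j + S.Q + 2 ≤ R
        · have := hc1 (by omega) hr
          split_ifs <;> omega
        · have := hc2 (by omega) hc
          split_ifs <;> omega
  · have hN : Num4 S n j (n.nT + R + dZ n.sp e) (n.n2 + n.Ux + S.h + 3) :=
      ⟨by omega, by omega, by omega, by omega, by omega, fun h3 => by omega⟩
    refine ⟨_, _, fin_P2S4G hm hA hb hN (q4_T hR hm hA hN (by omega) (Or.inl rfl))
      (v4_H hm hA hb hH rfl) ?_⟩
    rw [lam_P2S4G]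
    split_ifs <;> omega

theorem sel4_gC (hR : SeamR S) (hT : SeamT S) (hm : S.mode = 4) (hA : Adm S n j)
    (hb : ¬ S.bad 1) (hx : ¬ XC S n j) {R : ℕ} (hH : HoleG S R)
    (h : n.nT + R + dZ n.sp e ≤ n.n2 + j + S.P)
    (h1 : n.n2 + n.Ux + S.rk 1 + (if yo4 S n j ≤ n.n2 + n.Ux + S.rk 1 then 1 else 0) ≤
      n.nT + S.h + dZ n.sp e) : ∃ z y, P2OK S n e (resLay S n j z y) false := by
  obtain ⟨⟨a1, a2, a3⟩, a4, ⟨a5, a6⟩, ⟨a7, a8, a9⟩, a10, a11⟩ := num_P2S4G hR hT hm hA hb hx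
  obtain ⟨d1, d2⟩ := dz_P2S4G n.sp e
  have hRh := hH.Rh
  have hQR := hH.QR
  obtain ⟨f, hf⟩ : ∃ f, f = n.n2 + n.Ux + S.rk 1 +
      (if yo4 S n j ≤ n.n2 + n.Ux + S.rk 1 then 1 else 0) := ⟨_, rfl⟩
  rw [← hf] at h1
  have hfx : n.n2 + n.Ux + S.rk 1 ≤ f := by omega
  obtain ⟨r, hr⟩ : ∃ r, f = n.nT + r + dZ n.sp e := ⟨f - n.nT - dZ n.sp e, by omega⟩
  have hc2 := hH.c2 r (by omega) (by omega)
  have hcl := S.cutG_le r
  by_cases hc : n.n2 + j + S.Q + 2 ≤ S.h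
  · have hy0 : yo4 S n j = n.n2 + n.Ux + S.P + S.cutG (n.n2 + j + S.Q + 2) + 1 := by
      unfold yo4
      rw [if_pos hc]
    rw [hy0] at hf
    by_cases hrq : r ≤ n.n2 + j + S.Q + 2
    · have hmo := mono_P2S4G S hrq
      have hN : Num4 S n j (n.n2 + n.Ux + S.P + S.cutG r + 1)
          (n.n2 + n.Ux + S.P + S.cutG (n.n2 + j + S.Q + 2) + 1 + 1) :=
        ⟨by omega, by omega, by omega, by omega, by omega, fun h3 => by
          have := a10 h3 hc
          omega⟩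
      have hs : lam (min (n.n2 + n.Ux + S.P + S.cutG r + 1)
          (n.n2 + n.Ux + S.P + S.cutG (n.n2 + j + S.Q + 2) + 1 + 1))
          (max (n.n2 + n.Ux + S.P + S.cutG r + 1)
          (n.n2 + n.Ux + S.P + S.cutG (n.n2 + j + S.Q + 2) + 1 + 1))
          (n.n2 + n.Ux + S.rk 1) = n.nT + r + dZ n.sp e := by
        rw [lam_P2S4G]
        split_ifs at hf <;> split_ifs <;> omega
      refine ⟨_, _, fin_P2S4G hm hA hb hN (q4_C hm hA hN hc ?_)
        (v4_C hm hA hN (p1g2 hA hb) (r := r) (by omega) (by omega) hs ?_) ?_⟩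
      · rw [if_pos (by omega)]
      · rw [if_neg (by omega)]
      · rw [hs]
        omega
    · have hmo := mono_P2S4G S (show n.n2 + j + S.Q + 2 ≤ r by omega)
      have hN : Num4 S n j (n.n2 + n.Ux + S.P + S.cutG r + 1 + 1)
          (n.n2 + n.Ux + S.P + S.cutG (n.n2 + j + S.Q + 2) + 1) :=
        ⟨by omega, by omega, by omega, by omega, by omega, fun h3 => by
          have := a10 h3 hc
          omega⟩
      have hs : lam (min (n.n2 + n.Ux + S.P + S.cutG r + 1 + 1)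
          (n.n2 + n.Ux + S.P + S.cutG (n.n2 + j + S.Q + 2) + 1))
          (max (n.n2 + n.Ux + S.P + S.cutG r + 1 + 1)
          (n.n2 + n.Ux + S.P + S.cutG (n.n2 + j + S.Q + 2) + 1))
          (n.n2 + n.Ux + S.rk 1) = n.nT + r + dZ n.sp e := by
        rw [lam_P2S4G]
        split_ifs at hf <;> split_ifs <;> omega
      refine ⟨_, _, fin_P2S4G hm hA hb hN (q4_C hm hA hN hc ?_)
        (v4_C hm hA hN (p1g2 hA hb) (r := r) (by omega) (by omega) hs ?_) ?_⟩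
      · rw [if_neg (by omega)]
      · rw [if_pos (by omega)]
      · rw [hs]
        omega
  · have hy0 : yo4 S n j = n.n2 + n.Ux + S.h + 2 := by
      unfold yo4
      rw [if_neg hc]
    rw [hy0, if_neg (by omega)] at hf
    have hN : Num4 S n j (n.n2 + n.Ux + S.P + S.cutG r + 1) (n.n2 + n.Ux + S.h + 3) :=
      ⟨by omega, by omega, by omega, by omega, by omega, fun h3 => by omega⟩
    have hs : lam (min (n.n2 + n.Ux + S.P + S.cutG r + 1) (n.n2 + n.Ux + S.h + 3))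
        (max (n.n2 + n.Ux + S.P + S.cutG r + 1) (n.n2 + n.Ux + S.h + 3))
        (n.n2 + n.Ux + S.rk 1) = n.nT + r + dZ n.sp e := by
      rw [lam_P2S4G]
      split_ifs <;> omega
    refine ⟨_, _, fin_P2S4G hm hA hb hN (q4_T hR hm hA hN (by omega) (Or.inl rfl))
      (v4_C hm hA hN (p1g2 hA hb) (r := r) (by omega) (by omega) hs ?_) ?_⟩
    · rw [if_neg (by omega)]
    · rw [hs]
      omega

theorem sel4_gD (hR : SeamR S) (hT : SeamT S) (hm : S.mode = 4) (hA : Adm S n j)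
    (hb : ¬ S.bad 1) (hx : ¬ XC S n j) {R : ℕ} (hH : HoleG S R)
    (h : n.nT + R + dZ n.sp e ≤ n.n2 + j + S.P)
    (h1 : n.nT + S.h + dZ n.sp e <
      n.n2 + n.Ux + S.rk 1 + (if yo4 S n j ≤ n.n2 + n.Ux + S.rk 1 then 1 else 0)) :
    ∃ z y, P2OK S n e (resLay S n j z y) false := by
  obtain ⟨⟨a1, a2, a3⟩, a4, ⟨a5, a6⟩, ⟨a7, a8, a9⟩, a10, a11⟩ := num_P2S4G hR hT hm hA hb hx
  obtain ⟨d1, d2⟩ := dz_P2S4G n.sp e
  have hRh := hH.Rh
  obtain ⟨f, hf⟩ : ∃ f, f = n.n2 + n.Ux + S.rk 1 +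
      (if yo4 S n j ≤ n.n2 + n.Ux + S.rk 1 then 1 else 0) := ⟨_, rfl⟩
  rw [← hf] at h1
  have hfx : n.n2 + n.Ux + S.rk 1 ≤ f ∧ f ≤ n.n2 + n.Ux + S.rk 1 + 1 := by
    split_ifs at hf <;> omega
  by_cases hc : n.n2 + j + S.Q + 2 ≤ S.h
  · have hy0 : yo4 S n j = n.n2 + n.Ux + S.P + S.cutG (n.n2 + j + S.Q + 2) + 1 := by
      unfold yo4
      rw [if_pos hc]
    rw [hy0] at hf
    by_cases hw : f ≤ n.nT + S.h + (n.n2 + j) + 1 + dZ n.sp e
    · have hN : Num4 S n j (n.n2 + n.Ux + S.h + 3)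
          (n.n2 + n.Ux + S.P + S.cutG (n.n2 + j + S.Q + 2) + 1) :=
        ⟨by omega, by omega, by omega, by omega, by omega, fun h3 => by
          have := a10 h3 hc
          omega⟩
      have hs : lam (min (n.n2 + n.Ux + S.h + 3)
          (n.n2 + n.Ux + S.P + S.cutG (n.n2 + j + S.Q + 2) + 1))
          (max (n.n2 + n.Ux + S.h + 3)
          (n.n2 + n.Ux + S.P + S.cutG (n.n2 + j + S.Q + 2) + 1))
          (n.n2 + n.Ux + S.rk 1) = f := by
        rw [lam_P2S4G]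
        split_ifs at hf <;> split_ifs <;> omega
      refine ⟨_, _, fin_P2S4G hm hA hb hN (q4_C hm hA hN hc ?_)
        (v4_T hR hm hA (p1g2 hA hb) ?_ ?_) ?_⟩
      · rw [if_neg (by omega)]
      · rw [hs, lam_P2S4G]
        split_ifs <;> omega
      · rw [hs]
        omega
      · rw [hs]
        omega
    · -- the label `z`
      obtain ⟨z, F, hz, hF⟩ : ∃ z F, z + F = n.n2 + n.Ux + S.h + 3 + n.nT + S.h +
          (n.n2 + j) + 1 + dZ n.sp e ∧ ((F = f ∧ f + 1 ≤ z) ∨ (F = f + 1 ∧ z + 1 ≤ f)) := by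
        by_cases hz : f + 1 + f ≤ n.n2 + n.Ux + S.h + 3 + n.nT + S.h + (n.n2 + j) + 1 +
            dZ n.sp e
        · exact ⟨n.n2 + n.Ux + S.h + 3 + n.nT + S.h + (n.n2 + j) + 1 + dZ n.sp e - f, f,
            by omega, Or.inl ⟨rfl, by omega⟩⟩
        · exact ⟨n.n2 + n.Ux + S.h + 3 + n.nT + S.h + (n.n2 + j) + 1 + dZ n.sp e - f - 1, f + 1,
            by omega, Or.inr ⟨rfl, by omega⟩⟩
      by_cases hzp : z ≤ n.n2 + n.Ux + S.P + S.cutG (n.n2 + j + S.Q + 2) + 1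
      · have hN : Num4 S n j z
            (n.n2 + n.Ux + S.P + S.cutG (n.n2 + j + S.Q + 2) + 1 + 1) :=
          ⟨by omega, by omega, by omega, by omega, by omega, fun h3 => by
            have := a10 h3 hc
            omega⟩
        have hs : lam (min z (n.n2 + n.Ux + S.P + S.cutG (n.n2 + j + S.Q + 2) + 1 + 1))
            (max z (n.n2 + n.Ux + S.P + S.cutG (n.n2 + j + S.Q + 2) + 1 + 1))
            (n.n2 + n.Ux + S.rk 1) = F := by
          rw [lam_P2S4G]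
          split_ifs at hf <;> split_ifs <;> omega
        refine ⟨_, _, fin_P2S4G hm hA hb hN (q4_C hm hA hN hc ?_)
          (v4_T hR hm hA (p1g2 hA hb) ?_ ?_) ?_⟩
        · rw [if_pos hzp]
        · rw [hs, lam_P2S4G]
          split_ifs <;> omega
        · rw [hs]
          omega
        · rw [hs]
          omega
      · have hN : Num4 S n j z
            (n.n2 + n.Ux + S.P + S.cutG (n.n2 + j + S.Q + 2) + 1) :=
          ⟨by omega, by omega, by omega, by omega, by omega, fun h3 => by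
            have := a10 h3 hc
            omega⟩
        have hs : lam (min z (n.n2 + n.Ux + S.P + S.cutG (n.n2 + j + S.Q + 2) + 1))
            (max z (n.n2 + n.Ux + S.P + S.cutG (n.n2 + j + S.Q + 2) + 1))
            (n.n2 + n.Ux + S.rk 1) = F := by
          rw [lam_P2S4G]
          split_ifs at hf <;> split_ifs <;> omega
        refine ⟨_, _, fin_P2S4G hm hA hb hN (q4_C hm hA hN hc ?_)
          (v4_T hR hm hA (p1g2 hA hb) ?_ ?_) ?_⟩
        · rw [if_neg hzp]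
        · rw [hs, lam_P2S4G]
          split_ifs <;> omega
        · rw [hs]
          omega
        · rw [hs]
          omega
  · have hy0 : yo4 S n j = n.n2 + n.Ux + S.h + 2 := by
      unfold yo4
      rw [if_neg hc]
    rw [hy0, if_neg (by omega)] at hf
    by_cases hw : f ≤ n.nT + S.h + (n.n2 + j) + 1 + dZ n.sp e
    · by_cases he : f + 1 = n.nT + (n.n2 + j + S.Q + 2) + dZ n.sp e
      · have hN : Num4 S n j (n.n2 + n.Ux + S.h + 2) (n.n2 + n.Ux + S.h + 3) :=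
          ⟨by omega, by omega, by omega, by omega, by omega, fun h3 => by omega⟩
        refine ⟨_, _, fin_P2S4G hm hA hb hN (q4_T hR hm hA hN (by omega) (Or.inl rfl))
          (v4_T hR hm hA (p1g2 hA hb) ?_ ?_) ?_⟩
        all_goals simp only [lam_P2S4G]
        all_goals split_ifs <;> omega
      · have hN : Num4 S n j (n.n2 + n.Ux + S.h + 3) (n.n2 + n.Ux + S.h + 2) :=
          ⟨by omega, by omega, by omega, by omega, by omega, fun h3 => by omega⟩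
        refine ⟨_, _, fin_P2S4G hm hA hb hN (q4_T hR hm hA hN (by omega) (Or.inr ⟨rfl, rfl⟩))
          (v4_T hR hm hA (p1g2 hA hb) ?_ ?_) ?_⟩
        all_goals simp only [lam_P2S4G]
        all_goals split_ifs <;> omega
    · obtain ⟨z, F, hz, hF⟩ : ∃ z F, z + F = n.n2 + n.Ux + S.h + 3 + n.nT + S.h +
          (n.n2 + j) + 1 + dZ n.sp e ∧ ((F = f ∧ f + 1 ≤ z) ∨ (F = f + 1 ∧ z + 1 ≤ f)) := by
        by_cases hz : f + 1 + f ≤ n.n2 + n.Ux + S.h + 3 + n.nT + S.h + (n.n2 + j) + 1 +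
            dZ n.sp e
        · exact ⟨n.n2 + n.Ux + S.h + 3 + n.nT + S.h + (n.n2 + j) + 1 + dZ n.sp e - f, f,
            by omega, Or.inl ⟨rfl, by omega⟩⟩
        · exact ⟨n.n2 + n.Ux + S.h + 3 + n.nT + S.h + (n.n2 + j) + 1 + dZ n.sp e - f - 1, f + 1,
            by omega, Or.inr ⟨rfl, by omega⟩⟩
      have hN : Num4 S n j z (n.n2 + n.Ux + S.h + 3) :=
        ⟨by omega, by omega, by omega, by omega, by omega, fun h3 => by omega⟩
      have hs : lam (min z (n.n2 + n.Ux + S.h + 3)) (max z (n.n2 + n.Ux + S.h + 3))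
          (n.n2 + n.Ux + S.rk 1) = F := by
        rw [lam_P2S4G]
        split_ifs <;> omega
      refine ⟨_, _, fin_P2S4G hm hA hb hN (q4_T hR hm hA hN (by omega) (Or.inl rfl))
        (v4_T hR hm hA (p1g2 hA hb) ?_ ?_) ?_⟩
      · rw [hs, lam_P2S4G]
        split_ifs <;> omega
      · rw [hs]
        omega
      · rw [hs]
        omega

end Pool.Agent.Lob5
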