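import Pool.Agent.Lob5.P2S4A

/-!
# The selection for the mode 4 with three reserved labels (`sp = 3`)

Notation of `P2S4A`, `ρq = a+Q+2`, `c = cutG ρq`, `M = N+P+c`, `T = nT+h+a`; `XC`: `ρq ≤ h`,
`M+P+1 < nT+h`. By `lay4` the layout is `layD n j (M+1) (T-M)` if `T ≤ 2M` and
`layD n j M (T+1-M)` if not: `U = Ux-1-j`, reserved `y0`, `x0` with `y0+x0 = T+1`, both `≥ b+1`
(`N ≥ nT+a+1`: `hA.jU`). `h ≤ P+Q-1` (`S.PQ`), so `a+P+c+3 ≤ Q`.
The layer is `insG S n (lay4 S n j) z` with any `z ≥ b+1`: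
`σ r = sk z (lam (min y0 x0) (max y0 x0) r)`, `y = sk z y0`, `xs = sk z x0`;
`σ r = r` for `r ≤ b`. Positions of good odd edges: `N-1+o`. `lam .. (N-1+o) < y0` iff `o ≤ P+c`,
otherwise `> y0`.

* `pre4X`: all facts except those about the sum at `k`. `gl_ins` (`top`: `N+h+3-1` ..). `FLow`:
`flow_GL'` with `X t ≤ b+t+3 ≤ a+Q+t+2`. `FDab`: `dab_GL`. `y_ok, xs_ok, z_..`: `sk_inj, sk_ne`,
`lam`
  does not take the values `y1, y2`. `V_..`: `bs q + y = w+N0+nT+ρq+y` (`von_C`,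
`S.cutG_lt, S.cutG_gt`). `F3` is void; `Fx`: `T+1 ≤ y+xs ≤ T+3`.
  `U_eq`: `Ux-1-j+j+1 = Ux`. Models: `yf_D` and `layY_pre` in `P2StrC.lean`, `ok_res` in
`P2Res.lean`.
* `sel4_X`, edge 1 bad (`x = a+ρ ≤ b < Q`): `z = P+Q+1-ρ+d` (`≥ b+1`), `p 1 = x`, `V' = b+Q+1`:
`von_A`; `V_q ≥ Q+2+b+1`.
  Edge 1 good: `R` from `hR.g`, `z = nT+R+d (≥ Q ≥ b+1)`: `von_H` with `E0`; `V_q ≠ V'` as in
`sel4_gH` (`P2S4G`): `ρq ≤ R`: `c1`, `y < p 1`; `ρq ≥ R+1`: `c2`, `y > p 1`.
-/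

namespace Pool.Agent.Lob5

variable {k : ℕ} {ld al : ℕ → Prop} {S : Seam k ld al} {n : Num} {e j : ℕ}

private theorem lay_P2S4X (S : Seam k ld al) (n : Num) (j : ℕ) (hA : Adm S n j)
    (hx : XC S n j) : ∃ y0 x0 : ℕ, lay4 S n j = layD n j y0 x0 ∧
      y0 + x0 = n.nT + S.h + n.n2 + j + 1 ∧ y0 ≠ x0 ∧
      n.n2 + j + S.P + 1 ≤ y0 ∧ n.n2 + j + S.P + 1 ≤ x0 ∧
      y0 = n.n2 + n.Ux + S.P + S.cutG (n.n2 + j + S.Q + 2) + (if x0 < y0 then 1 else 0) := by
  obtain ⟨h3, hr, hM⟩ := hx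
  have hjU := hA.jU
  rw [if_pos (by omega)] at hjU
  unfold lay4
  rw [if_neg (by omega), if_pos ⟨h3, hM⟩]
  generalize S.cutG (n.n2 + j + S.Q + 2) = c at hM ⊢
  by_cases hc : n.nT + S.h + n.n2 + j ≤ 2 * (n.n2 + n.Ux + S.P + c)
  · rw [if_pos hc]
    refine ⟨_, _, rfl, by omega, by omega, by omega, by omega, ?_⟩
    rw [if_pos (by omega)]
  · rw [if_neg hc]
    refine ⟨_, _, rfl, by omega, by omega, by omega, by omega, ?_⟩
    rw [if_neg (by omega)]
    omega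

private theorem cmp_P2S4X {y0 x0 M r : ℕ} (hne : y0 ≠ x0)
    (hy : y0 = M + (if x0 < y0 then 1 else 0)) :
    (r + 1 ≤ M → lam (min y0 x0) (max y0 x0) r < y0) ∧
      (M ≤ r → y0 < lam (min y0 x0) (max y0 x0) r) := by
  rcases Nat.lt_or_ge x0 y0 with c | c
  · rw [if_pos c] at hy
    rw [min_eq_right c.le, max_eq_left c.le]
    unfold lam
    constructor <;> intro h <;> split_ifs <;> omega
  · have c' : y0 < x0 := by omega
    rw [if_neg (by omega)] at hy
    rw [min_eq_left c, max_eq_right c]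
    unfold lam
    constructor <;> intro h <;> split_ifs <;> omega

private theorem low_P2S4X {y0 x0 z b r : ℕ} (hne : y0 ≠ x0) (h1 : b + 1 ≤ y0)
    (h2 : b + 1 ≤ x0) (h3 : b + 1 ≤ z) (hr : r ≤ b) :
    sk z (lam (min y0 x0) (max y0 x0) r) = r := by
  have h4 : lam (min y0 x0) (max y0 x0) r = r := by
    rcases Nat.lt_or_ge x0 y0 with c | c
    · rw [min_eq_right c.le, max_eq_left c.le]
      unfold lam
      split_ifs <;> omega
    · rw [min_eq_left c, max_eq_right c]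
      unfold lam
      split_ifs <;> omega
  rw [h4]
  unfold sk
  rw [if_neg (by omega)]

private theorem sh_P2S4X {σ : ℕ → ℕ} (h : StrictMono σ) {r r' : ℕ} (hr : r ≤ r') :
    σ r + r' ≤ σ r' + r := by
  obtain ⟨d, rfl⟩ := Nat.exists_eq_add_of_le hr
  clear hr
  induction d with
  | zero => simp
  | succ d ih =>
    have h1 : σ (r + d) < σ (r + (d + 1)) := h (by omega)
    omega

private theorem oe_P2S4X {i : ℕ} (h1 : 1 ≤ i) (h2 : i < k) : 1 ≤ oe i ∧ oe i ≤ k := by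
  unfold oe
  split_ifs <;> omega

theorem gl4X (S : Seam k ld al) (n : Num) (j z : ℕ) (hA : Adm S n j) (hx : XC S n j) :
    ∃ y0 x0 : ℕ, y0 + x0 = n.nT + S.h + n.n2 + j + 1 ∧ y0 ≠ x0 ∧
      n.n2 + j + S.P + 1 ≤ y0 ∧ n.n2 + j + S.P + 1 ≤ x0 ∧
      (y0 = n.n2 + n.Ux + S.P + S.cutG (n.n2 + j + S.Q + 2) + (if x0 < y0 then 1 else 0)) ∧
      (insG S n (lay4 S n j) z).U = n.Ux - 1 - j ∧ (insG S n (lay4 S n j) z).y = sk z y0 ∧
      (insG S n (lay4 S n j) z).xs = sk z x0 ∧ (insG S n (lay4 S n j) z).xsf = true ∧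
      (insG S n (lay4 S n j) z).lg = false ∧ (insG S n (lay4 S n j) z).j = j ∧
      GLy S n (insG S n (lay4 S n j) z)
        (fun r => sk z (lam (min y0 x0) (max y0 x0) r)) := by
  obtain ⟨y0, x0, e, h1, h2, h3, h4, h5⟩ := lay_P2S4X S n j hA hx
  refine ⟨y0, x0, h1, h2, h3, h4, h5, ?_⟩
  rw [e]
  have hs : n.sp = 3 := hx.1
  have hjU := hA.jU
  rw [if_pos (by omega)] at hjU
  have hw : wz S n.up = n.n2 + n.Ux + S.h + 3 := wz_res S n (by omega)
  refine ⟨rfl, rfl, rfl, rfl, rfl, rfl, gl_ins S n (layD n j y0 x0) z rfl ?_ ?_⟩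
  · change n.nT ≤ n.Ux - 1 - j
    omega
  · change sk z (lam (min y0 x0) (max y0 x0) (n.n2 + j + (n.Ux - 1 - j) + S.h + 1)) ≤ _
    have h6 := sk_le z (lam (min y0 x0) (max y0 x0) (n.n2 + j + (n.Ux - 1 - j) + S.h + 1))
    have h7 := lam_le (min y0 x0) (max y0 x0) (n.n2 + j + (n.Ux - 1 - j) + S.h + 1)
    omega

/-- the sums at the special vertex and at the vertex `k`, the label of the edge `1` -/
private theorem vq_P2S4X {σ : ℕ → ℕ} {Λ : FLay} (hm : S.mode = 4) (hG : GLy S n Λ σ)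
    (hj : Λ.j = j) (hP1 : σ (n.n2 + j + 1) = n.n2 + j + 1) :
    Λ.bs S.q = wz S n.up + n.N0 + n.nT + (n.n2 + j + S.Q + 2) := by
  obtain ⟨-, h2, h3, h4, h5⟩ := S.m4 hm
  have hP := S.P1
  have h6 : Λ.bs S.q = Λ.p S.q + Λ.p (S.q + 1) := rfl
  have h7 := hG.podd S.q h3
  rw [h4, if_pos hP, hj, Nat.add_zero, hP1] at h7
  have h8 := hG.peven (S.q + 1) (by omega)
  rw [h5, if_pos (by omega)] at h8
  omega

private theorem dz_P2S4X (sp e : ℕ) : dZ sp e ≤ 1 := by
  unfold dZ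
  split_ifs <;> omega

private theorem vk_P2S4X (S : Seam k ld al) (n : Num) (e : ℕ) (Λ : FLay) (hw : 1 ≤ wz S n.up) :
    Λ.vk S n e + dZ n.sp e = wz S n.up + n.N0 + Λ.p 1 + Λ.z := by
  have h1 : Λ.vk S n e = Λ.p 1 + pkZ S n e + Λ.z := rfl
  have h2 := dz_P2S4X n.sp e
  have h3 : pkZ S n e = wz S n.up + n.N0 - dZ n.sp e := rfl
  omega

theorem pre4X (hR : SeamR S) (hm : S.mode = 4) (hA : Adm S n j) (hx : XC S n j) {z : ℕ}
    (hz : n.n2 + j + S.P + 1 ≤ z) (hzw : z ≤ n.n2 + n.Ux + S.h + 3)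
    (hv : VOKn S n (insG S n (lay4 S n j) z) ((insG S n (lay4 S n j) z).vk S n e))
    (ne : (insG S n (lay4 S n j) z).bs S.q + (insG S n (lay4 S n j) z).y ≠
      (insG S n (lay4 S n j) z).vk S n e) :
    P2OK S n e (insG S n (lay4 S n j) z) false := by
  have _ := hR
  obtain ⟨y0, x0, hs, hne, hy0, hx0, hyc, eU, ey, ex, exf, elg, ej, hG⟩ := gl4X S n j z hA hx
  have ez : (insG S n (lay4 S n j) z).z = z := rfl
  obtain ⟨h3, hr, hM⟩ := hx
  have hjU := hA.jU
  rw [if_pos (by omega)] at hjU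
  have hw : wz S n.up = n.n2 + n.Ux + S.h + 3 := wz_res S n (by omega)
  have hmz : mz S n.up = wz S n.up + n.N0 + n.nT + S.h := rfl
  have hPQ := S.PQ
  have hP1 := S.P1
  have hPh := S.Ph
  have hQh := S.Qh
  have hk := S.hk
  have hcl := S.cutG_le (n.n2 + j + S.Q + 2)
  have hclt := S.cutG_lt (n.n2 + j + S.Q + 2) (by omega) (by omega)
  have hcgt := S.cutG_gt (n.n2 + j + S.Q + 2) (by omega) (by omega)
  generalize S.cutG (n.n2 + j + S.Q + 2) = c at hyc hM hcl hclt hcgt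
  set Λ := insG S n (lay4 S n j) z with hΛ
  -- the labels
  have hlow : ∀ r, r ≤ n.n2 + j + S.P → sk z (lam (min y0 x0) (max y0 x0) r) = r :=
    fun r hr => low_P2S4X hne hy0 hx0 hz hr
  have hbs := vq_P2S4X (n := n) (j := j) hm hG ej (hlow _ (by omega))
  have hyn : ∀ r, sk z (lam (min y0 x0) (max y0 x0) r) ≠ sk z y0 := by
    intro r hh
    have h6 := sk_inj hh
    rcases Nat.lt_or_ge x0 y0 with c1 | c1
    · rw [min_eq_right c1.le, max_eq_left c1.le] at h6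
      exact (lam_ne c1 r).2 h6
    · rw [min_eq_left c1, max_eq_right c1] at h6
      exact (lam_ne (show y0 < x0 by omega) r).1 h6
  have hxn : ∀ r, sk z (lam (min y0 x0) (max y0 x0) r) ≠ sk z x0 := by
    intro r hh
    have h6 := sk_inj hh
    rcases Nat.lt_or_ge x0 y0 with c1 | c1
    · rw [min_eq_right c1.le, max_eq_left c1.le] at h6
      exact (lam_ne c1 r).1 h6
    · rw [min_eq_left c1, max_eq_right c1] at h6
      exact (lam_ne (show y0 < x0 by omega) r).2 h6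
  have hy1 := le_sk z y0
  have hy2 := sk_le z y0
  have hx1 := le_sk z x0
  have hx2 := sk_le z x0
  have hcmp1 : ∀ r, r + 1 ≤ n.n2 + n.Ux + S.P + c →
      sk z (lam (min y0 x0) (max y0 x0) r) < sk z y0 := fun r hr =>
    sk_mono z ((cmp_P2S4X hne hyc).1 hr)
  have hcmp2 : ∀ r, n.n2 + n.Ux + S.P + c ≤ r →
      sk z y0 < sk z (lam (min y0 x0) (max y0 x0) r) := fun r hr =>
    sk_mono z ((cmp_P2S4X hne hyc).2 hr)
  have hyM : n.n2 + n.Ux + S.P + c ≤ y0 ∧ y0 ≤ n.n2 + n.Ux + S.P + c + 1 := by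
    constructor
    · rw [hyc]
      exact Nat.le_add_right _ _
    · rw [hyc]
      exact Nat.add_le_add_left (by split_ifs <;> omega) _
  clear hyc
  have hpod : ∀ f, f % 2 = 1 → ∃ r, Λ.p f = sk z (lam (min y0 x0) (max y0 x0) r) :=
    fun f hf => ⟨_, hG.podd f hf⟩
  have hyw : sk z y0 ≤ wz S n.up := by omega
  have hxw : sk z x0 ≤ wz S n.up := by omega
  -- the flow
  have hflow : FLow S n Λ := by
    refine flow_GL' S n hG fun t h1 h2 => Or.inr ?_
    rw [hG.X t, ej]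
    have h6 := sk_le z (lam (min y0 x0) (max y0 x0) (n.n2 + j + S.P + t))
    have h7 := lam_le (min y0 x0) (max y0 x0) (n.n2 + j + S.P + t)
    omega
  have hD : FDab S n Λ := by
    refine dab_GL S n hG (fun _ => by omega) ?_ ?_
    · rw [ej, eU, if_pos (by omega)]
      omega
    · intro r r' h5 h6 h7 h8
      rw [ej]
      rw [hlow _ (by omega), hlow _ (by omega), if_neg (by omega)]
      omega
  have hq : VOKn S n Λ (Λ.bs S.q + Λ.y) := by
    refine von_C S n hG _ (sk z y0) (n.n2 + j + S.Q + 2) (by omega) (by omega) ?_ hyw ?_ ?_ ?_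
      ?_ ?_
    · rw [hbs, ey]
    · rw [ej]
      rw [hlow _ le_rfl]
      omega
    · intro _
      rw [hG.X, ej, eU]
      exact hcmp1 _ (by omega)
    · intro f _ _ hf
      obtain ⟨r, hr'⟩ := hpod f hf
      rw [hr']
      exact hyn r
    · intro i h5 h6 h7 h8 h9
      have h10 := hclt i h5 h6 h7 h8 h9
      rw [hG.podd _ oe_odd, ej, eU]
      refine hcmp1 _ ?_
      split_ifs <;> omega
    · intro i h5 h6 h7 h8 h9
      have h10 := hcgt i h5 h6 h7 h8 h9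
      rw [hG.podd _ oe_odd, ej, eU, if_neg (by omega)]
      exact hcmp2 _ (by omega)
  refine
    { flow := hflow
      fmod :=
        { y_ok := fun _ _ => ?_
          xs_ok := fun _ => ?_
          lg_ok := fun h => absurd h (by rw [elg]; simp)
          V_lo := fun _ _ => ?_
          V_up := fun _ _ => hq.thr
          V_C := fun _ _ => hq.C
          V_L := fun _ _ => hq.gap
          F3 := fun _ h => absurd h (by rw [exf]; simp)
          Fx := fun _ => ?_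
          Dbb := hD.Dbb
          Dgg := hD.Dgg
          Dgb := hD.Dgb }
      ffr := fun h => by omega
      U_eq := ?_
      z_rng := fun _ => ⟨by rw [ej, ez]; omega, by rw [ez]; omega⟩
      z_p := fun _ f _ _ hf => ?_
      z_X := fun _ i _ _ => ?_
      z_y := fun _ _ _ => ?_
      z_xs := fun _ _ => ?_
      V_thr := fun _ => hv.thr
      V_C := fun _ => hv.C
      V_V := fun _ _ _ => ne
      V_gap := fun _ => hv.gap
      L_lg := fun h => absurd h (by simp)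
      L_rng := fun h => absurd h (by simp) }
  · rw [ej, ey]
    refine ⟨by omega, hyw, fun i _ _ => ?_, fun f _ _ hf => ?_⟩
    · rw [hG.X]
      exact hyn _
    · obtain ⟨r, hr'⟩ := hpod f hf
      rw [hr']
      exact hyn r
  · rw [ej, ey, ex]
    refine ⟨h3, by omega, hxw, fun hh => hne (sk_inj hh).symm, fun i _ _ => ?_,
      fun f _ _ hf => ?_⟩
    · rw [hG.X]
      exact hxn _
    · obtain ⟨r, hr'⟩ := hpod f hf
      rw [hr']
      exact hxn r
  · omega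
  · rw [ej, ey, ex]
    omega
  · rw [eU, ej, exf, elg]
    simp only [if_true, Bool.false_eq_true, if_false]
    omega
  · obtain ⟨r, hr'⟩ := hpod f hf
    rw [hr', ez]
    exact sk_ne _ _
  · rw [hG.X, ez]
    exact sk_ne _ _
  · rw [ey, ez]
    exact sk_ne _ _
  · rw [ex, ez]
    exact sk_ne _ _

theorem sel4_Xb (hR : SeamR S) (hT : SeamT S) (hm : S.mode = 4) (hA : Adm S n j)
    (hx : XC S n j) (hb : S.bad 1) : ∃ z, P2OK S n e (insG S n (lay4 S n j) z) false := by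
  have hk := S.hk
  have hPQ := S.PQ
  have hP1 := S.P1
  have hQh := S.Qh
  have hr1 := S.rk_ob 1 le_rfl (by omega) (by omega) hb
  have hb45 := hT.b45 hb (Or.inl hm)
  have hd := dz_P2S4X n.sp e
  have hjU := hA.jU
  rw [if_pos (by have := hx.1; omega)] at hjU
  have hxM := hx.2.2
  have hxr := hx.2.1
  have hw : wz S n.up = n.n2 + n.Ux + S.h + 3 := wz_res S n (by have := hx.1; omega)
  refine ⟨S.P + S.Q + 1 - S.rk 1 + dZ n.sp e, ?_⟩
  set z := S.P + S.Q + 1 - S.rk 1 + dZ n.sp e with hzd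
  obtain ⟨y0, x0, hs, hne, hy0, hx0, hyc, eU, ey, ex, exf, elg, ej, hG⟩ := gl4X S n j z hA hx
  clear hyc
  have ez : (insG S n (lay4 S n j) z).z = z := rfl
  have hz : n.n2 + j + S.P + 1 ≤ z := by omega
  have hlow : ∀ r, r ≤ n.n2 + j + S.P → sk z (lam (min y0 x0) (max y0 x0) r) = r :=
    fun r hr => low_P2S4X hne hy0 hx0 hz hr
  have hbs := vq_P2S4X (n := n) (j := j) hm hG ej (hlow _ (by omega))
  have hvk := vk_P2S4X S n e (insG S n (lay4 S n j) z) (by omega)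
  have hp1 : (insG S n (lay4 S n j) z).p 1 = n.n2 + j + S.rk 1 := by
    rw [hG.podd 1 (by omega), ej, if_pos hr1.2, Nat.add_zero]
    exact hlow _ (by omega)
  rw [hp1, ez] at hvk
  have hX1 : n.n2 + j + S.P + 1 ≤ (insG S n (lay4 S n j) z).X 1 := by
    rw [hG.X, ej]
    exact hG.mono.le_apply
  have hy1 := le_sk z y0
  refine pre4X hR hm hA hx hz (by omega) (von_A S n hG _ ?_ ?_ ?_) ?_
  · rw [ej, hlow _ le_rfl]
    omega
  · omega
  · omega
  · rw [hbs, ey]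
    omega

theorem sel4_Xg (hR : SeamR S) (hT : SeamT S) (hm : S.mode = 4) (hA : Adm S n j)
    (hx : XC S n j) (hb : ¬ S.bad 1) : ∃ z, P2OK S n e (insG S n (lay4 S n j) z) false := by
  have _ := hT
  obtain ⟨R, hH⟩ := hR.g hb
  have hk := S.hk
  have hPQ := S.PQ
  have hP1 := S.P1
  have hQh := S.Qh
  have hr1 := S.rk_og 1 le_rfl (by omega) (by omega) hb
  have hE0 := hH.E0 (by omega)
  have hQR := hH.QR
  have hRh := hH.Rh
  have hd := dz_P2S4X n.sp e
  have hjU := hA.jU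
  rw [if_pos (by have := hx.1; omega)] at hjU
  have hxM := hx.2.2
  have hxr := hx.2.1
  have hw : wz S n.up = n.n2 + n.Ux + S.h + 3 := wz_res S n (by have := hx.1; omega)
  refine ⟨n.nT + R + dZ n.sp e, ?_⟩
  set z := n.nT + R + dZ n.sp e with hzd
  obtain ⟨y0, x0, hs, hne, hy0, hx0, hyc, eU, ey, ex, exf, elg, ej, hG⟩ := gl4X S n j z hA hx
  have hcmp := fun r => cmp_P2S4X (r := r) hne hyc
  clear hyc
  have ez : (insG S n (lay4 S n j) z).z = z := rfl
  have hz : n.n2 + j + S.P + 1 ≤ z := by omega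
  have hlow : ∀ r, r ≤ n.n2 + j + S.P → sk z (lam (min y0 x0) (max y0 x0) r) = r :=
    fun r hr => low_P2S4X hne hy0 hx0 hz hr
  have hbs := vq_P2S4X (n := n) (j := j) hm hG ej (hlow _ (by omega))
  have hvk := vk_P2S4X S n e (insG S n (lay4 S n j) z) (by omega)
  have hp1 : (insG S n (lay4 S n j) z).p 1 =
      sk z (lam (min y0 x0) (max y0 x0) (n.n2 + j + S.rk 1 + (n.Ux - 1 - j))) := by
    rw [hG.podd 1 (by omega), ej, eU, if_neg (by omega)]
  rw [ez] at hvk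
  refine pre4X hR hm hA hx hz (by omega)
    (von_H S n hG _ R hH.toHole0 hb (by omega) fun _ => ?_) ?_
  · rw [hG.X, hp1, ej, eU]
    have h6 := sh_P2S4X hG.mono (show n.n2 + j + S.P + (n.Ux - 1 - j) ≤
      n.n2 + j + S.rk 1 + (n.Ux - 1 - j) by omega)
    change sk z (lam (min y0 x0) (max y0 x0) _) + _ ≤
      sk z (lam (min y0 x0) (max y0 x0) _) + _ at h6
    change sk z (lam (min y0 x0) (max y0 x0) _) + S.Q + 1 < _
    omega
  · rw [hbs, ey]
    rcases Nat.lt_or_ge R (n.n2 + j + S.Q + 2) with c1 | c1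
    · have h6 := hH.c2 (n.n2 + j + S.Q + 2) (by omega) (by omega)
      have h7 := sk_mono z ((hcmp _).1 (show n.n2 + j + S.rk 1 + (n.Ux - 1 - j) + 1 ≤
        n.n2 + n.Ux + S.P + S.cutG (n.n2 + j + S.Q + 2) by omega))
      rw [← hp1] at h7
      omega
    · have h6 := hH.c1 (n.n2 + j + S.Q + 2) (by omega) c1
      have h7 := sk_mono z ((hcmp _).2 (show n.n2 + n.Ux + S.P +
        S.cutG (n.n2 + j + S.Q + 2) ≤ n.n2 + j + S.rk 1 + (n.Ux - 1 - j) by omega))
      rw [← hp1] at h7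
      omega

end Pool.Agent.Lob5
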