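import Pool.Agent.Lob5.P2S4B
import Pool.Agent.Lob5.P2S4G
import Pool.Agent.Lob5.P2S4X
import Pool.Agent.Lob5.P2StrA

/-!
# The selection for the mode 4

`funP4`: `funP` is the layout `lay4 S n.up j` (`Low.lean`, `HoleDefs.lean`; `n.up.Ux = Ux+1`), all
reserved labels are `≥ b+1` (in the case of three reserved labels as in `gl4X`), so `p 1 = a+ρ` if
the edge 1 is bad; `w ≤ n2+j+U+h+1+2` (`U = Ux+1-j` or `Ux-j`).
`fam4_step`: `step_GL2` (`P2Step.lean`), `r = 2` or (`Fam4.X`) `r = 3`; `X 1 ≥ b+1` (`h.X`,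
`mono.le_apply`), `3 ≤ P` (`hR.P3`); if the second layer is of the kind `X` then `P ≥ 4`:
`n2+j+1+Q+2 ≤ h ≤ P+Q-1`. `GLy` from `gl_res`, `gl4X`, `gl_Z` (`GLInst.lean`, `LayZ.P`).
`Adm S n j` from `Adm S n (j+1)`.
-/

namespace Pool.Agent.Lob5

variable {k : ℕ} {ld al : ℕ → Prop}

private theorem funP4 (S : Seam k ld al) (n : Num) (j : ℕ) (hm : S.mode = 4)
    (hA : Adm S n j) : (funP S n j).lg = false ∧
      wz S n.up ≤ n.n2 + j + (funP S n j).U + S.h + 1 + 2 ∧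
      (S.bad 1 → (funP S n j).p 1 = n.n2 + j + S.rk 1) := by
  have hs0 : n.sp ≠ 0 := sp4 hm hA
  have hw := wz_res S n hs0
  have hj := jU_res hA
  have hP := S.Ph
  have hk := S.hk
  obtain ⟨L, hL, l1, l2, l3, l4, l5, l6⟩ : ∃ L : Lay, layOf S n.up j = L ∧ L.lg = false ∧
      L.k2 = false ∧ L.j = j ∧ n.Ux ≤ j + L.U ∧ n.n2 + j + S.P + 1 ≤ L.y1 ∧
      n.n2 + j + S.P + 2 ≤ L.y2 := by
    unfold layOf
    rw [if_neg (show ¬ n.up.sp = 0 from hs0), if_neg (by omega), if_neg (by omega),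
      if_neg (by omega), if_pos hm]
    unfold lay4
    by_cases c1 : S.h < n.n2 + j + S.Q + 2
    · refine ⟨layS S n.up j (wz S n.up), if_pos c1, rfl, rfl, rfl, ?_, ?_, ?_⟩
      · change n.Ux ≤ j + (n.Ux + 1 - j)
        omega
      · change n.n2 + j + S.P + 1 ≤ wz S n.up
        omega
      · change n.n2 + j + S.P + 2 ≤ wz S n.up + 2
        omega
    by_cases c2 : n.sp = 3 ∧ n.n2 + (n.Ux + 1) + S.P + S.cutG (n.n2 + j + S.Q + 2) + 1 + S.P <
        n.nT + S.h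
    · have c2' := c2.2
      by_cases c3 : n.nT + S.h + n.n2 + j ≤
          2 * (n.n2 + (n.Ux + 1) + S.P + S.cutG (n.n2 + j + S.Q + 2))
      · refine ⟨layD n.up j (n.n2 + (n.Ux + 1) + S.P + S.cutG (n.n2 + j + S.Q + 2) + 1)
          (n.nT + S.h + n.n2 + j - (n.n2 + (n.Ux + 1) + S.P + S.cutG (n.n2 + j + S.Q + 2))),
          (if_neg c1).trans ((if_pos c2).trans (if_pos c3)), rfl, rfl, rfl, ?_, ?_, ?_⟩
        · change n.Ux ≤ j + (n.Ux + 1 - 1 - j)
          omega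
        · change n.n2 + j + S.P + 1 ≤ min
            (n.n2 + (n.Ux + 1) + S.P + S.cutG (n.n2 + j + S.Q + 2) + 1)
            (n.nT + S.h + n.n2 + j - (n.n2 + (n.Ux + 1) + S.P + S.cutG (n.n2 + j + S.Q + 2)))
          omega
        · change n.n2 + j + S.P + 2 ≤ max
            (n.n2 + (n.Ux + 1) + S.P + S.cutG (n.n2 + j + S.Q + 2) + 1)
            (n.nT + S.h + n.n2 + j - (n.n2 + (n.Ux + 1) + S.P + S.cutG (n.n2 + j + S.Q + 2)))
          omega
      · refine ⟨layD n.up j (n.n2 + (n.Ux + 1) + S.P + S.cutG (n.n2 + j + S.Q + 2))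
          (n.nT + S.h + n.n2 + j + 1 - (n.n2 + (n.Ux + 1) + S.P + S.cutG (n.n2 + j + S.Q + 2))),
          (if_neg c1).trans ((if_pos c2).trans (if_neg c3)), rfl, rfl, rfl, ?_, ?_, ?_⟩
        · change n.Ux ≤ j + (n.Ux + 1 - 1 - j)
          omega
        · change n.n2 + j + S.P + 1 ≤ min
            (n.n2 + (n.Ux + 1) + S.P + S.cutG (n.n2 + j + S.Q + 2))
            (n.nT + S.h + n.n2 + j + 1 - (n.n2 + (n.Ux + 1) + S.P + S.cutG (n.n2 + j + S.Q + 2)))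
          omega
        · change n.n2 + j + S.P + 2 ≤ max
            (n.n2 + (n.Ux + 1) + S.P + S.cutG (n.n2 + j + S.Q + 2))
            (n.nT + S.h + n.n2 + j + 1 - (n.n2 + (n.Ux + 1) + S.P + S.cutG (n.n2 + j + S.Q + 2)))
          omega
    · refine ⟨layS S n.up j (n.n2 + (n.Ux + 1) + S.P + S.cutG (n.n2 + j + S.Q + 2) + 1),
        (if_neg c1).trans (if_neg c2), rfl, rfl, rfl, ?_, ?_, ?_⟩
      · change n.Ux ≤ j + (n.Ux + 1 - j)
        omega
      · change n.n2 + j + S.P + 1 ≤ n.n2 + (n.Ux + 1) + S.P + S.cutG (n.n2 + j + S.Q + 2) + 1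
        omega
      · change n.n2 + j + S.P + 2 ≤ wz S n.up + 2
        omega
  refine ⟨?_, ?_, fun hb => ?_⟩
  · change (layOf S n.up j).lg = _
    rw [hL, l1]
  · change _ ≤ n.n2 + j + (layOf S n.up j).U + S.h + 1 + 2
    rw [hL, hw]
    omega
  · have h1 := S.rk_ob 1 le_rfl (by omega) (by norm_num) hb
    have e : lop S n.up L (S.rk 1) = n.n2 + j + S.rk 1 := by
      unfold lop
      rw [l2, if_neg Bool.false_ne_true, if_pos h1.2, l3]
      rfl
    change pl S n.up (layOf S n.up j) 1 = _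
    rw [hL]
    unfold pl
    rw [if_pos (by norm_num), e]
    unfold lam
    rw [if_neg (by omega), if_neg (by omega)]
    omega

theorem p2_sel4 (S : Seam k ld al) (hR : SeamR S) (hT : SeamT S) (hm : S.mode = 4) (n : Num)
    (e j : ℕ) (hA : Adm S n j) :
    ∃ (Λ : FLay) (l : Bool), Fam4 S n j Λ ∧ Λ.j = j ∧ P2OK S n e Λ l := by
  have fin : (∃ z y, P2OK S n e (resLay S n j z y) false) →
      ∃ (Λ : FLay) (l : Bool), Fam4 S n j Λ ∧ Λ.j = j ∧ P2OK S n e Λ l := by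
    rintro ⟨z, y, h⟩
    exact ⟨resLay S n j z y, false, Fam4.R z y, rfl, h⟩
  by_cases hx : XC S n j
  · have hj : ∀ z, (insG S n (lay4 S n j) z).j = j := fun z => by
      obtain ⟨y0, x0, -, -, -, -, -, -, -, -, -, -, h, -⟩ := gl4X S n j z hA hx
      exact h
    by_cases hb : S.bad 1
    · obtain ⟨z, h⟩ := sel4_Xb (e := e) hR hT hm hA hx hb
      exact ⟨_, false, Fam4.X z hx, hj z, h⟩
    · obtain ⟨z, h⟩ := sel4_Xg (e := e) hR hT hm hA hx hb
      exact ⟨_, false, Fam4.X z hx, hj z, h⟩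
  obtain ⟨f1, f2, f3⟩ := funP4 S n j hm hA
  have hd : dZ n.sp e ≤ 1 := by
    unfold dZ
    split_ifs <;> omega
  have hw1 : 1 ≤ wz S n.up := by
    rw [wz_up]
    omega
  by_cases hb : S.bad 1
  · have f4 := f3 hb
    by_cases c1 : n.n2 + j + S.rk 1 ≤ S.Q + dZ n.sp e
    · exact fin (sel4_bA hR hT hm hA hb hx c1)
    by_cases c2 : n.n2 + j + S.rk 1 ≤ S.Q + n.nT + 1 + dZ n.sp e
    · refine ⟨funP S n j, true, Fam4.P f1, rfl, p2ok_L S n e j hA f1 ?_ ?_⟩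
      · unfold pkZ
        omega
      · unfold pkZ
        omega
    by_cases c3 : n.n2 + j + S.rk 1 ≤ n.nT + S.h + dZ n.sp e
    · exact fin (sel4_bC hR hT hm hA hb hx (by omega) c3)
    · exact fin (sel4_bD hR hT hm hA hb hx (by omega))
  · obtain ⟨R, hH⟩ := hR.g hb
    by_cases c1 : n.n2 + j + S.P + 1 ≤ n.nT + R + dZ n.sp e
    · exact fin (sel4_gH hR hT hm hA hb hx hH c1)
    by_cases c2 : n.n2 + n.Ux + S.rk 1 +
      (if yo4 S n j ≤ n.n2 + n.Ux + S.rk 1 then 1 else 0) ≤ n.nT + S.h + dZ n.sp e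
    · exact fin (sel4_gC hR hT hm hA hb hx hH (by omega) c2)
    · exact fin (sel4_gD hR hT hm hA hb hx hH (by omega) (by omega))

theorem fam4_step (S : Seam k ld al) (hR : SeamR S) (hm : S.mode = 4) (n : Num) (j : ℕ)
    (hA : Adm S n (j + 1)) {Λ Λ' : FLay} (h : Fam4 S n j Λ) (h' : Fam4 S n (j + 1) Λ') :
    FStep S n Λ Λ' := by
  have hs0 : n.sp ≠ 0 := sp4 hm hA
  have hw := wz_res S n hs0
  have hA' : Adm S n j :=
    ⟨hA.n2T, by have := hA.jU; omega, hA.sp0, hA.sp14, hA.sp5⟩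
  have hP3 := hR.P3 (by omega)
  have hPQ := S.PQ
  have hm3 : S.mode = 3 → n.sp = 0 := fun h => absurd h (by omega)
  have key : ∀ (i : ℕ) (Γ : FLay), Adm S n i → Fam4 S n i Γ →
      Γ.j = i ∧ (∃ σ, GLy S n Γ σ) ∧ ∃ r, (r = 2 ∨ (r = 3 ∧ XC S n i)) ∧
        wz S n.up ≤ n.n2 + Γ.j + Γ.U + S.h + 1 + r := by
    intro i Γ hi hΓ
    have hji := jU_res hi
    cases hΓ with
    | P hlg =>
      exact ⟨rfl, (gl_Z S n i hm3 hi LayZ.P).1, 2, Or.inl rfl, (funP4 S n i hm hi).2.1⟩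
    | R z y =>
      refine ⟨rfl, ⟨_, gl_res S n hs0 i z y hi⟩, 2, Or.inl rfl, ?_⟩
      rw [hw]
      change _ ≤ n.n2 + i + (n.Ux - i) + S.h + 1 + 2
      omega
    | X z hx =>
      obtain ⟨y0, x0, -, -, -, -, -, hU, -, -, -, -, hj, hG⟩ := gl4X S n i z hi hx
      refine ⟨hj, ⟨_, hG⟩, 3, Or.inr ⟨rfl, hx⟩, ?_⟩
      have h1 := hi.jU
      rw [if_pos (by rw [hx.1]; omega)] at h1
      rw [hw, hj, hU]
      omega
  obtain ⟨e1, ⟨σ, hσ⟩, r, hr1, hr⟩ := key j Λ hA' h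
  obtain ⟨e2, ⟨σ', hσ'⟩, r', hr1', hr'⟩ := key (j + 1) Λ' hA h'
  have h1 := hσ.X 1
  have h2 := hσ.mono.le_apply (x := n.n2 + Λ.j + S.P + 1)
  have h3 : r ≤ 3 := by
    rcases hr1 with h | h
    · omega
    · exact h.1.le
  have h4 : r' + 1 ≤ S.P := by
    rcases hr1' with h | h
    · omega
    · have h5 := h.2.2.1
      omega
  exact step_GL2 S n hσ hσ' (by omega) r r' hr hr' (by omega) (by omega)
    (fun _ _ _ _ => by omega)

end Pool.Agent.Lob5
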