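import Pool.Agent.Lob5.P2S5L

/-!
# The selection for the mode 5 (`sp = 1`), edge `1` good

Notation of `P2S5A`; `v = N+P+2 = G+1`, `ρ = rk 1`, `P+2 ≤ ρ ≤ h+1` (`ρ ≥ P+1`; `ρ ≠ P+1 = rk (q+1)`, `rk_inj`), `x = N+ρ ≥ v`, `p 1 = σ x` (`p1g2`), the sum at the vertex `k` is
`V' = σ x + z` (`vk2`, `dZ 1 e = 0`), at the special vertex `V_q = 1 + σ G + y` (`vq5`). Facts: `N ≥ nT+a` (`hA.jU`), `3 ≤ P`, `P+1 ≤ h` (`h5`), `Q+1 ≤ h`,
`R` from `g5`: `Q+1 ≤ R ≤ h`, `E0: P+Q+2 ≤ R+ρ`, `c1, c2`, `g3: P+ρ ≤ 2h`. All conditions: `unfold lam; split_ifs <;> omega`.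

`sel5_gH`: `a+1 ≤ nT+R`: `z = nT+R`, `v5_H` (`v5_lgH`): `V' = σ x + nT + R`. `y`:
* `v+1 ≤ Q`: then `z ≥ R ≥ Q+1 ≥ v+2`; `y = a+cutB (v+1)+1 (≤ b+1)`, `σ G = G+1`, `q5_B` (rank `v+1`); `V_q = v+1+y ≤ Q+b+1 < V'`.
* `Q+1 ≤ v+1+[z ≤ v] ≤ Q+nT+1`: `lgLay S n j z`, `ok5_lg`, `v5_lgH`. Otherwise `v+1+[z ≤ v] > Q+nT+1`, `s = [z ≤ G]`, `vv = v+s` (`> nT+Q`, as `z = v = nT+Q` is impossible).
* `vv ≤ nT+h`: `r = vv-nT`, `p = N+P+cutG r+1 (≥ v: S.cutG_one)`, `y = p+[z ≤ p]`, `σ G = G+s`, `q5_C`. `V_q ≠ V'`: `V_q = nT+r+y`; `r ≤ R`: by `c1` `p ≤ x`, so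
  `y < σ x`, `V_q < V'`; `r ≥ R+1`: by `c2` `p ≥ x+1`, so `y > σ x`, `V_q > V'`.
* `vv > nT+h`: then `z ≤ G`, `s = 1` (otherwise `G ≥ nT+h ≥ z`). `Y = 2h+1+nT+a-P` (`= t-v-1`): `Y ≥ w`: `y = w`; `v+1 ≤ Y < w`: `y = Y`; `Y ≤ v`: `y = Y-1` (`≤ G`,
  `σ G = G+2`). `y > z`, `y ≥ b+2`; `q5_T`; `V' ≤ W0 < V_q`.
`sel5_gE`: `nT+R ≤ a` (so `a ≥ 1`, `N ≥ a+nT`, `v ≥ 2nT+Q+P+2 ≥ nT+h+3`). Both sums in `(W0, t]`: `v5_T`, `q5_T`.
* `x+w ≤ t`: `(z, y) = (w, w-1)`: `V' = x+w`, `V_q = v+w-1 < V'`.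
* `x+w > t`, `v+w+2 ≤ t`: `y = w`, `z = t-x` if this is `≥ x+1`, otherwise `z = t-x-1`; `V' = t`, `V_q = v+[z ≤ G]+w < t`.
* `x+w > t`, `v+w+1 = t`: the same; now `z ≥ t-1-(N+h+1) = v+2 > G`, `V_q = v+w = t-1`.
* `t ≤ v+w`: `V' = t-1`, `V_q = t`:
  - `t-1-x ≥ x+1`: `z = t-1-x`, `y = t-v` (`> z > x`).
  - otherwise `z = t-2-x (≤ x-1)`, `y = t-v-[z ≤ G]`, if this `y` is `≥ x+2`.
  - otherwise `z = t-3-x`, `s = [z ≤ G]`, `y = t-v-s` if this is `≥ G+s+1`, and `y = t-v-2` if not (then `s = 1`, `y ≤ G`).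
  `z ≥ t-3-x ≥ b+1` by `g3`, `y > z`.
-/

namespace Pool.Agent.Lob5

variable {k : ℕ} {ld al : ℕ → Prop} {S : Seam k ld al} {n : Num} {e j : ℕ}

private theorem lam_P2S5G (z y r : ℕ) : lam (min z y) (max z y) r =
    r + (if min z y ≤ r then 1 else 0) + (if max z y ≤ r + 1 then 1 else 0) := rfl

/-- the sum at the vertex `k` -/
private theorem vk_P2S5G (S : Seam k ld al) (n : Num) (e j z y : ℕ) (hs : n.sp = 1)
    (hA : Adm S n j) (hb : ¬ S.bad 1) :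
    (resLay S n j z y).vk S n e =
      wz S n.up + n.N0 + lam (min z y) (max z y) (n.n2 + n.Ux + S.rk 1) + z := by
  have h1 := vk2 S n e j z y _ (p1g2 hA hb)
  have h2 : dZ n.sp e = 0 := by
    unfold dZ
    rw [if_neg (by omega)]
  omega

/-- all numerical facts -/
private theorem facts_P2S5G (hR : SeamR S) (hT : SeamT S) (hm : S.mode = 5) (hA : Adm S n j)
    (hb : ¬ S.bad 1) {R : ℕ} (hH : HoleG S R) :
    n.nT + (n.n2 + j) ≤ n.n2 + n.Ux ∧ 3 ≤ S.P ∧ S.P + 1 ≤ S.h ∧ S.Q + 1 ≤ S.h ∧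
      S.P + 2 ≤ S.rk 1 ∧ S.rk 1 ≤ S.h + 1 ∧ R ≤ S.h ∧ S.P + S.Q + 2 ≤ R + S.rk 1 ∧
      S.h + 1 ≤ S.P + S.Q ∧ S.P + S.rk 1 ≤ 2 * S.h := by
  have h1 := jU_res hA
  have hk := S.hk
  have hρ := S.rk_og 1 le_rfl (by omega) (by omega) hb
  obtain ⟨h2, _, h3, _, h5⟩ := S.m5 hm
  have hq1 : 1 ≤ S.q := S.ld_pos _ (S.al_ld _ h2)
  have hq := S.hq
  have hne : S.rk 1 ≠ S.P + 1 := by
    intro h
    have := S.rk_inj 1 (S.q + 1) le_rfl (by omega) (by omega) (by omega) (by omega)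
      (h.trans h5.symm)
    omega
  exact ⟨by omega, hR.P3 (by omega), hT.h5 hm, hR.Qh1 (by omega), by omega, hρ.2, hH.Rh,
    hH.E0 (by omega), S.PQ, hT.g3 (by omega) hb⟩

/-- both sums above all the others -/
private theorem tt_P2S5G (hR : SeamR S) (hm : S.mode = 5) (hs : n.sp = 1)
    (hA : Adm S n j) (hb : ¬ S.bad 1) {z y σx σG : ℕ} (hN : Num5 S n j z y)
    (hx : lam (min z y) (max z y) (n.n2 + n.Ux + S.rk 1) = σx)
    (hG : lam (min z y) (max z y) (n.n2 + n.Ux + S.P + 1) = σG)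
    (h1 : n.n2 + n.Ux + S.h + 3 + n.nT + S.h < σx + z)
    (h2 : σx + z ≤ n.n2 + n.Ux + S.h + 3 + n.nT + S.h + (n.n2 + j) + 1)
    (h3 : n.n2 + n.Ux + S.h + 3 + n.nT + S.h < σG + 1 + y)
    (h4 : σG + 1 + y ≤ n.n2 + n.Ux + S.h + 3 + n.nT + S.h + (n.n2 + j) + 1)
    (h5 : σG + 1 + y ≠ σx + z) : P2OK S n e (resLay S n j z y) false := by
  subst hx hG
  refine ok5 hm hs hA hN (q5_T hR hm hs hA h3 h4)
    (v5_T hR (by omega) hs hA (p1g2 hA hb) h1 h2) ?_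
  rw [vq5 hm hs hA, vk_P2S5G S n e j z y hs hA hb]
  omega

/-- the hole at the vertex `0` for the label `z` -/
private theorem th_P2S5G (hm : S.mode = 5) (hs : n.sp = 1)
    (hA : Adm S n j) (hb : ¬ S.bad 1) {R : ℕ} (hH : HoleG S R) {z y σx σG : ℕ}
    (hN : Num5 S n j z y) (hz : z = n.nT + R)
    (hx : lam (min z y) (max z y) (n.n2 + n.Ux + S.rk 1) = σx)
    (hG : lam (min z y) (max z y) (n.n2 + n.Ux + S.P + 1) = σG)
    (hq : VOKn S n (resLay S n j z y) ((resLay S n j z y).bs S.q + y))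
    (h5 : σG + 1 + y ≠ σx + z) : P2OK S n e (resLay S n j z y) false := by
  subst hx hG
  refine ok5 hm hs hA hN hq (v5_H (by omega) hs hA hb hH hz) ?_
  rw [vq5 hm hs hA, vk_P2S5G S n e j z y hs hA hb]
  omega

theorem sel5_gH (hR : SeamR S) (hT : SeamT S) (hm : S.mode = 5) (hs : n.sp = 1)
    (hA : Adm S n j) (hb : ¬ S.bad 1) {R : ℕ} (hH : HoleG S R) (hQR : S.Q + 1 ≤ R)
    (h : n.n2 + j + 1 ≤ n.nT + R) :
    (∃ z y, P2OK S n e (resLay S n j z y) false) ∨ ∃ z, P2OK S n e (lgLay S n j z) false := by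
  obtain ⟨f1, f2, f3, f4, f5, f6, f7, f8, f9, f10⟩ := facts_P2S5G hR hT hm hA hb hH
  by_cases c1 : n.n2 + n.Ux + S.P + 3 ≤ S.Q
  · -- the bad zone
    left
    have hcB := S.cutB_le (n.n2 + n.Ux + S.P + 3)
    have e1 : lam (min (n.nT + R) (n.n2 + j + S.cutB (n.n2 + n.Ux + S.P + 3) + 1))
        (max (n.nT + R) (n.n2 + j + S.cutB (n.n2 + n.Ux + S.P + 3) + 1))
        (n.n2 + n.Ux + S.P + 1) = n.n2 + n.Ux + S.P + 2 := by
      rw [lam_P2S5G]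
      split_ifs <;> omega
    have hN : Num5 S n j (n.nT + R) (n.n2 + j + S.cutB (n.n2 + n.Ux + S.P + 3) + 1) :=
      ⟨by omega, by omega, by omega, by omega, by omega, by omega⟩
    refine ⟨_, _, th_P2S5G hm hs hA hb hH hN rfl rfl e1
      (q5_B hm hs hA hN (r := n.n2 + n.Ux + S.P + 3) (by omega) c1 (by omega) rfl (by omega)) ?_⟩
    rw [lam_P2S5G]
    split_ifs <;> omega
  · by_cases c2 : n.n2 + n.Ux + S.P + 3 + (if n.nT + R ≤ n.n2 + n.Ux + S.P + 2 then 1 else 0) ≤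
        S.Q + n.nT + 1
    · right
      exact ⟨n.nT + R, ok5_lg hm hs hA (by omega) (by omega) (by omega) c2
        (v5_lgH (by omega) hs hA hb hH rfl)⟩
    · left
      obtain ⟨s, hs1⟩ : ∃ s, s = if n.nT + R ≤ n.n2 + n.Ux + S.P + 1 then 1 else 0 := ⟨_, rfl⟩
      have hs2 : s ≤ 1 := by
        split_ifs at hs1 <;> omega
      have hvv : n.nT + S.Q < n.n2 + n.Ux + S.P + 2 + s := by
        split_ifs at hs1 c2 <;> omega
      by_cases c3 : n.n2 + n.Ux + S.P + 2 + s ≤ n.nT + S.h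
      · obtain ⟨r, hr⟩ : ∃ r, n.n2 + n.Ux + S.P + 2 + s = n.nT + r :=
          ⟨n.n2 + n.Ux + S.P + 2 + s - n.nT, by omega⟩
        have hone := S.cutG_one hm r (by omega) (by omega)
        have hle := S.cutG_le r
        obtain ⟨y, hy⟩ : ∃ y, y = n.n2 + n.Ux + S.P + S.cutG r + 1 +
            (if n.nT + R ≤ n.n2 + n.Ux + S.P + S.cutG r + 1 then 1 else 0) := ⟨_, rfl⟩
        have e1 : lam (min (n.nT + R) y) (max (n.nT + R) y)
            (n.n2 + n.Ux + S.P + 1) = n.n2 + n.Ux + S.P + 1 + s := by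
          rw [lam_P2S5G]
          split_ifs at hs1 hy <;> split_ifs <;> omega
        have hN : Num5 S n j (n.nT + R) y := by
          refine ⟨by omega, by omega, ?_, ?_, ?_, ?_⟩
          all_goals split_ifs at hy <;> omega
        refine ⟨_, _, th_P2S5G hm hs hA hb hH hN rfl rfl e1
          (q5_C hm hs hA hN (r := r) (by omega) (by omega) (by omega) hy) ?_⟩
        rw [lam_P2S5G]
        by_cases c4 : r ≤ R
        · have hc := hH.c1 r (by omega) c4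
          split_ifs at hy <;> split_ifs <;> omega
        · have hc := hH.c2 r (by omega) (by omega)
          split_ifs at hy <;> split_ifs <;> omega
      · have hzG : n.nT + R ≤ n.n2 + n.Ux + S.P + 1 := by
          by_contra hcon
          rw [if_neg hcon] at hs1
          omega
        rw [if_pos hzG] at hs1
        have key : ∀ y, Num5 S n j (n.nT + R) y → n.nT + R < y →
            (∀ σG, lam (min (n.nT + R) y) (max (n.nT + R) y) (n.n2 + n.Ux + S.P + 1) = σG →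
              n.n2 + n.Ux + S.h + 3 + n.nT + S.h < σG + 1 + y ∧
              σG + 1 + y ≤ n.n2 + n.Ux + S.h + 3 + n.nT + S.h + (n.n2 + j) + 1) →
            ∃ z y, P2OK S n e (resLay S n j z y) false := by
          intro y hN hzy hG
          obtain ⟨g1, g2⟩ := hG _ rfl
          refine ⟨_, _, th_P2S5G hm hs hA hb hH hN rfl rfl rfl (q5_T hR hm hs hA g1 g2) ?_⟩
          have h5 : lam (min (n.nT + R) y) (max (n.nT + R) y) (n.n2 + n.Ux + S.rk 1) ≤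
              n.n2 + n.Ux + S.rk 1 + 2 := by
            rw [lam_P2S5G]
            split_ifs <;> omega
          omega
        by_cases c4 : n.n2 + n.Ux + S.h + 3 + S.P ≤ 2 * S.h + 1 + n.nT + (n.n2 + j)
        · refine key (n.n2 + n.Ux + S.h + 3)
            ⟨by omega, by omega, by omega, by omega, by omega, by omega⟩ (by omega) ?_
          intro σG hG
          rw [lam_P2S5G] at hG
          split_ifs at hG <;> omega
        · by_cases c5 : n.n2 + n.Ux + S.P + 3 + S.P ≤ 2 * S.h + 1 + n.nT + (n.n2 + j)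
          · refine key (2 * S.h + 1 + n.nT + (n.n2 + j) - S.P)
              ⟨by omega, by omega, by omega, by omega, by omega, by omega⟩ (by omega) ?_
            intro σG hG
            rw [lam_P2S5G] at hG
            split_ifs at hG <;> omega
          · refine key (2 * S.h + n.nT + (n.n2 + j) - S.P)
              ⟨by omega, by omega, by omega, by omega, by omega, by omega⟩ (by omega) ?_
            intro σG hG
            rw [lam_P2S5G] at hG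
            split_ifs at hG <;> omega

theorem sel5_gE (hR : SeamR S) (hT : SeamT S) (hm : S.mode = 5) (hs : n.sp = 1)
    (hA : Adm S n j) (hb : ¬ S.bad 1) {R : ℕ} (hH : HoleG S R) (hQR : S.Q + 1 ≤ R)
    (h : n.nT + R ≤ n.n2 + j) : ∃ z y, P2OK S n e (resLay S n j z y) false := by
  obtain ⟨f1, f2, f3, f4, f5, f6, f7, f8, f9, f10⟩ := facts_P2S5G hR hT hm hA hb hH
  have key : ∀ z y, Num5 S n j z y →
      (∀ σx σG, σx = n.n2 + n.Ux + S.rk 1 + (if min z y ≤ n.n2 + n.Ux + S.rk 1 then 1 else 0) +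
          (if max z y ≤ n.n2 + n.Ux + S.rk 1 + 1 then 1 else 0) →
        σG = n.n2 + n.Ux + S.P + 1 + (if min z y ≤ n.n2 + n.Ux + S.P + 1 then 1 else 0) +
          (if max z y ≤ n.n2 + n.Ux + S.P + 1 + 1 then 1 else 0) →
        n.n2 + n.Ux + S.h + 3 + n.nT + S.h < σx + z ∧
        σx + z ≤ n.n2 + n.Ux + S.h + 3 + n.nT + S.h + (n.n2 + j) + 1 ∧
        n.n2 + n.Ux + S.h + 3 + n.nT + S.h < σG + 1 + y ∧
        σG + 1 + y ≤ n.n2 + n.Ux + S.h + 3 + n.nT + S.h + (n.n2 + j) + 1 ∧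
        σG + 1 + y ≠ σx + z) → ∃ z y, P2OK S n e (resLay S n j z y) false := by
    intro z y hN hh
    obtain ⟨g1, g2, g3, g4, g5⟩ := hh _ _ rfl rfl
    exact ⟨z, y, tt_P2S5G hR hm hs hA hb hN rfl rfl g1 g2 g3 g4 g5⟩
  by_cases c1 : n.n2 + n.Ux + S.rk 1 ≤ n.nT + S.h + (n.n2 + j) + 1
  · refine key (n.n2 + n.Ux + S.h + 3) (n.n2 + n.Ux + S.h + 2)
      ⟨by omega, by omega, by omega, by omega, by omega, by omega⟩ ?_
    intro σx σG hx hG
    split_ifs at hx <;> split_ifs at hG <;> omega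
  obtain ⟨t, ht⟩ : ∃ t, t = n.n2 + n.Ux + S.h + 3 + n.nT + S.h + (n.n2 + j) + 1 := ⟨_, rfl⟩
  by_cases c2 : n.n2 + n.Ux + S.P + 2 + (n.n2 + n.Ux + S.h + 3) + 1 ≤ t
  · by_cases c3 : n.n2 + n.Ux + S.rk 1 + (n.n2 + n.Ux + S.rk 1) + 1 ≤ t
    · refine key (t - (n.n2 + n.Ux + S.rk 1)) (n.n2 + n.Ux + S.h + 3)
        ⟨by omega, by omega, by omega, by omega, by omega, by omega⟩ ?_
      intro σx σG hx hG
      split_ifs at hx <;> split_ifs at hG <;> omega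
    · refine key (t - (n.n2 + n.Ux + S.rk 1) - 1) (n.n2 + n.Ux + S.h + 3)
        ⟨by omega, by omega, by omega, by omega, by omega, by omega⟩ ?_
      intro σx σG hx hG
      split_ifs at hx <;> split_ifs at hG <;> omega
  by_cases c4 : n.n2 + n.Ux + S.rk 1 + (n.n2 + n.Ux + S.rk 1) + 2 ≤ t
  · refine key (t - 1 - (n.n2 + n.Ux + S.rk 1)) (t - (n.n2 + n.Ux + S.P + 2))
      ⟨by omega, by omega, by omega, by omega, by omega, by omega⟩ ?_
    intro σx σG hx hG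
    split_ifs at hx <;> split_ifs at hG <;> omega
  obtain ⟨s1, hs1⟩ : ∃ s, s = if t - 2 - (n.n2 + n.Ux + S.rk 1) ≤ n.n2 + n.Ux + S.P + 1
      then 1 else 0 := ⟨_, rfl⟩
  by_cases c5 : n.n2 + n.Ux + S.rk 1 + 2 + (n.n2 + n.Ux + S.P + 2) + s1 ≤ t
  · refine key (t - 2 - (n.n2 + n.Ux + S.rk 1)) (t - (n.n2 + n.Ux + S.P + 2) - s1)
      ⟨by omega, by omega, by omega, by omega, by omega, by omega⟩ ?_
    intro σx σG hx hG
    split_ifs at hs1 <;> split_ifs at hx <;> split_ifs at hG <;> omega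
  obtain ⟨s2, hs2⟩ : ∃ s, s = if t - 3 - (n.n2 + n.Ux + S.rk 1) ≤ n.n2 + n.Ux + S.P + 1
      then 1 else 0 := ⟨_, rfl⟩
  have hs3 : s1 ≤ s2 ∧ s2 ≤ 1 := by
    split_ifs at hs1 <;> split_ifs at hs2 <;> omega
  by_cases c6 : n.n2 + n.Ux + S.P + 1 + s2 + 1 + (n.n2 + n.Ux + S.P + 2) + s2 ≤ t
  · refine key (t - 3 - (n.n2 + n.Ux + S.rk 1)) (t - (n.n2 + n.Ux + S.P + 2) - s2)
      ⟨by omega, by omega, by omega, by omega, by omega, by omega⟩ ?_
    intro σx σG hx hG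
    split_ifs at hs2 <;> split_ifs at hx <;> split_ifs at hG <;> omega
  · refine key (t - 3 - (n.n2 + n.Ux + S.rk 1)) (t - (n.n2 + n.Ux + S.P + 2) - 2)
      ⟨by omega, by omega, by omega, by omega, by omega, by omega⟩ ?_
    intro σx σG hx hG
    split_ifs at hs2 <;> split_ifs at hx <;> split_ifs at hG <;> omega

end Pool.Agent.Lob5
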