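import Pool.Agent.Lob5.P2S5B
import Pool.Agent.Lob5.P2S5G
import Pool.Agent.Lob5.P2StrA

/-!
# The selection for the mode 5 (`sp = 1`)

`funP5`: `funP` is the layout `lay5 S n.up j` (`Low.lean`, `HoleDefs.lean`), `n.up.Ux = Ux+1`,
`v⁺ = N+P+3`. If `x = a+ρ > Q` then `v⁺ ≥ x+3+nT > Q+nT`, so it is the third or fourth case
(`lg = false`), and `y > x` (`P+1 ≤ h`), so `p 1 = x`. `U = Ux+1-j` or `Ux+2-j`.
-/

namespace Pool.Agent.Lob5

variable {k : ℕ} {ld al : ℕ → Prop}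

private theorem funP5 (S : Seam k ld al) (hT : SeamT S) (n : Num) (j : ℕ) (hm : S.mode = 5)
    (hs : n.sp = 1) (hA : Adm S n j) (hb : S.bad 1) (hx : S.Q < n.n2 + j + S.rk 1) :
    (funP S n j).lg = false ∧ (funP S n j).p 1 = n.n2 + j + S.rk 1 := by
  have hs0 : n.sp ≠ 0 := by omega
  have hw := wz_res S n hs0
  have hj := jU_res hA
  have hP := hT.h5 hm
  have hk := S.hk
  have h1 := S.rk_ob 1 le_rfl (by omega) (by norm_num) hb
  obtain ⟨y, hy, hlay⟩ : ∃ y, n.n2 + j + S.rk 1 < y ∧ layOf S n.up j = layS S n.up j y := by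
    have e1 : n.up.n2 = n.n2 := rfl
    have e2 : n.up.Ux = n.Ux + 1 := rfl
    have e3 : n.up.nT = n.nT := rfl
    unfold layOf
    rw [if_neg (show ¬ n.up.sp = 0 from hs0), if_neg (by omega), if_neg (by omega),
      if_neg (by omega), if_neg (by omega)]
    unfold lay5
    dsimp only
    rw [e1, e2, e3, hw]
    by_cases c1 : n.n2 + (n.Ux + 1) + S.P + 2 + 1 ≤ S.Q
    · omega
    rw [if_neg c1]
    by_cases c2 : n.n2 + (n.Ux + 1) + S.P + 2 ≤ S.Q + n.nT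
    · omega
    rw [if_neg c2]
    by_cases c3 : n.n2 + (n.Ux + 1) + S.P + 2 ≤ n.nT + S.h
    · rw [if_pos c3]
      exact ⟨_, by omega, rfl⟩
    · rw [if_neg c3]
      refine ⟨_, ?_, rfl⟩
      split_ifs <;> omega
  have hlg : (funP S n j).lg = false := by
    change (layOf S n.up j).lg = _
    rw [hlay]
    rfl
  have hp : (funP S n j).p 1 = lam y (wz S n.up + 2)
      (if S.rk 1 ≤ S.P then n.n2 + j + S.rk 1 else n.n2 + j + (n.Ux + 1 - j) + S.rk 1) := by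
    change pl S n.up (layOf S n.up j) 1 = _
    rw [hlay]
    unfold pl
    rw [if_pos (by norm_num)]
    rfl
  refine ⟨hlg, ?_⟩
  rw [hp, if_pos h1.2]
  unfold lam
  rw [if_neg (by omega : ¬ y ≤ n.n2 + j + S.rk 1),
    if_neg (by omega : ¬ wz S n.up + 2 ≤ n.n2 + j + S.rk 1 + 1)]
  omega

theorem p2_sel5 (S : Seam k ld al) (hR : SeamR S) (hT : SeamT S) (hm : S.mode = 5) (n : Num)
    (hs : n.sp = 1) (e j : ℕ) (hA : Adm S n j) :
    ∃ (Λ : FLay) (l : Bool), Fam5 S n j Λ ∧ Λ.j = j ∧ P2OK S n e Λ l := by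
  have hd : dZ n.sp e = 0 := by
    unfold dZ
    rw [if_neg (by omega)]
  have fin : (∃ z y, P2OK S n e (resLay S n j z y) false) →
      ∃ (Λ : FLay) (l : Bool), Fam5 S n j Λ ∧ Λ.j = j ∧ P2OK S n e Λ l := by
    rintro ⟨z, y, h⟩
    exact ⟨resLay S n j z y, false, Fam5.R z y, rfl, h⟩
  have finG : (∃ z, P2OK S n e (lgLay S n j z) false) →
      ∃ (Λ : FLay) (l : Bool), Fam5 S n j Λ ∧ Λ.j = j ∧ P2OK S n e Λ l := by
    rintro ⟨z, h⟩
    exact ⟨lgLay S n j z, false, Fam5.G z, rfl, h⟩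
  by_cases hb : S.bad 1
  · by_cases c0 : n.n2 + n.Ux + S.P + 3 ≤ S.Q
    · exact fin (sel5_bA1 hR hT hm hs hA hb c0)
    by_cases c1 : n.n2 + j + S.rk 1 ≤ S.Q
    · rcases sel5_bA2 hR hT hm hs hA hb (by omega) c1 with h | h
      · exact fin h
      · exact finG h
    by_cases c2 : n.n2 + j + S.rk 1 ≤ S.Q + n.nT + 1
    · obtain ⟨f1, f2⟩ := funP5 S hT n j hm hs hA hb (by omega)
      refine ⟨funP S n j, true, Fam5.P, rfl, p2ok_L S n e j hA f1 ?_ ?_⟩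
      · unfold pkZ
        omega
      · unfold pkZ
        omega
    by_cases c3 : n.n2 + j + S.rk 1 ≤ n.nT + S.h
    · exact fin (sel5_bC hR hT hm hs hA hb (by omega) c3)
    · exact fin (sel5_bD hR hT hm hs hA hb (by omega))
  · obtain ⟨R, hH, hQR⟩ := hT.g5 hm hb
    by_cases c : n.n2 + j + 1 ≤ n.nT + R
    · rcases sel5_gH hR hT hm hs hA hb hH hQR c with h | h
      · exact fin h
      · exact finG h
    · exact fin (sel5_gE hR hT hm hs hA hb hH hQR (by omega))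

theorem fam5_step (S : Seam k ld al) (hR : SeamR S) (hm : S.mode = 5) (n : Num)
    (hs : n.sp = 1) (j : ℕ) (hA : Adm S n (j + 1)) {Λ Λ' : FLay} (h : Fam5 S n j Λ)
    (h' : Fam5 S n (j + 1) Λ') : FStep S n Λ Λ' := by
  have hs0 : n.sp ≠ 0 := by omega
  have hw := wz_res S n hs0
  have hj := jU_res hA
  have hA' : Adm S n j :=
    ⟨hA.n2T, by have := hA.jU; omega, hA.sp0, hA.sp14, hA.sp5⟩
  have hP3 := hR.P3 (by omega)
  have hm3 : S.mode = 3 → n.sp = 0 := fun h => absurd h (by omega)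
  have key : ∀ (i : ℕ) (Γ : FLay), Adm S n i → Fam5 S n i Γ →
      Γ.j = i ∧ (∃ σ, GLy S n Γ σ) ∧ wz S n.up ≤ n.n2 + Γ.j + Γ.U + S.h + 1 + 2 := by
    intro i Γ hi hΓ
    have hji := jU_res hi
    cases hΓ with
    | P =>
      obtain ⟨h1, h2⟩ := gl_Z S n i hm3 hi LayZ.P
      rw [if_neg (by omega : ¬ n.sp = 3)] at h2
      exact ⟨rfl, h1, h2⟩
    | R z y =>
      refine ⟨rfl, ⟨_, gl_res S n hs0 i z y hi⟩, ?_⟩
      rw [hw]
      change _ ≤ n.n2 + i + (n.Ux - i) + S.h + 1 + 2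
      omega
    | G z =>
      refine ⟨rfl, ⟨_, gl_lg S n hs i z hi⟩, ?_⟩
      rw [hw]
      change _ ≤ n.n2 + i + (n.Ux - i + 1) + S.h + 1 + 2
      omega
  obtain ⟨e1, ⟨σ, hσ⟩, hr⟩ := key j Λ hA' h
  obtain ⟨e2, ⟨σ', hσ'⟩, hr'⟩ := key (j + 1) Λ' hA h'
  exact step_res S n hσ hσ' (by omega) hP3 hr hr'

end Pool.Agent.Lob5
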