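import Pool.Agent.Lob5.P2S1s
import Pool.Agent.Lob5.P2S2
import Pool.Agent.Lob5.P2S4
import Pool.Agent.Lob5.P2S5

/-!
# The selection of the layers for `K - 1` with one leaf: assembly
-/

namespace Pool.Agent.Lob5

variable {k : ℕ} {ld al : ℕ → Prop}

/-- the choice of the layers -/
theorem fam_choice (S : Seam k ld al) (n : Num) (e : ℕ) (Fam : ℕ → FLay → Prop)
    (sel : ∀ j, Adm S n j → ∃ (Λ : FLay) (l : Bool), Fam j Λ ∧ Λ.j = j ∧ P2OK S n e Λ l)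
    (step : 2 ≤ S.P → ∀ j, Adm S n (j + 1) → ∀ Λ Λ', Fam j Λ → Fam (j + 1) Λ' →
      FStep S n Λ Λ') :
    ∃ F : ℕ → FLay × Bool, (∀ j, (F j).1.j = j) ∧
      (∀ j, Adm S n j → P2OK S n e (F j).1 (F j).2) ∧
      (2 ≤ S.P → ∀ j, Adm S n (j + 1) → FStep S n (F j).1 (F (j + 1)).1) := by
  classical
  have h : ∀ j, ∃ F : FLay × Bool, F.1.j = j ∧
      (Adm S n j → Fam j F.1 ∧ P2OK S n e F.1 F.2) := by
    intro j
    by_cases hA : Adm S n j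
    · obtain ⟨Λ, l, h1, h2, h3⟩ := sel j hA
      exact ⟨(Λ, l), h2, fun _ => ⟨h1, h3⟩⟩
    · exact ⟨(funP S n j, true), rfl, fun h => absurd h hA⟩
  choose F hF using h
  refine ⟨F, fun j => (hF j).1, fun j hA => ((hF j).2 hA).2, fun hP j hA => ?_⟩
  have hA' : Adm S n j :=
    { n2T := hA.n2T
      jU := by
        have := hA.jU
        omega
      sp0 := hA.sp0
      sp14 := hA.sp14
      sp5 := hA.sp5 }
  exact step hP j hA _ _ ((hF j).2 hA').1 ((hF (j + 1)).2 hA).1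

/-- not all edges are bad -/
theorem pq_ld (S : Seam k ld al) (h : ∃ i, ld i) : S.P + S.Q ≤ 2 * S.h := by
  obtain ⟨i, hi⟩ := h
  have h1 := S.ld_pos i hi
  have h2 := S.ld_lt i hi
  have h3 := S.diff i hi
  have hk := S.hk
  have hPh := S.Ph
  have hQh := S.Qh
  by_contra hc
  have hg : ∀ e, 1 ≤ e → e ≤ k → S.bad e := by
    intro e he1 he2
    by_contra hb
    rcases Nat.mod_two_eq_zero_or_one e with h5 | h5
    · have := S.rk_eg e he1 he2 h5 hb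
      omega
    · have := S.rk_og e he1 he2 h5 hb
      omega
  exact (h3.1 (hg i h1 (by omega))) (hg (i + 1) (by omega) (by omega))

/-- mode 1 -/
theorem fam1_all (S : Seam k ld al) (hP : SeamP S) (hR : SeamR S)
    (hb1r : S.mode = 1 → S.bad 1 → S.rk 1 + 2 ≤ S.h) (n : Num) (e : ℕ) (h1 : ¬ al 1)
    (he : 1 ≤ e) (heN : e ≤ n.N0) (hs : n.sp ≠ 0) (hm : S.mode = 1) :
    ∃ F : ℕ → FLay × Bool, (∀ j, (F j).1.j = j) ∧
      (∀ j, Adm S n j → P2OK S n e (F j).1 (F j).2) ∧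
      (2 ≤ S.P → ∀ j, Adm S n (j + 1) → FStep S n (F j).1 (F (j + 1)).1) := by
  refine fam_choice S n e (fun j Λ => ∃ σ, Sh1 S n j Λ σ) ?_ ?_
  · intro j hA
    have c : C1 S n e j := ⟨hs, hm, hA, he, heN, h1, fun hb => hR.b2 hb (by omega), hb1r hm⟩
    obtain ⟨Λ, l, σ, h2, h3⟩ := sel1 c (fun hb => by
      obtain ⟨R, hG⟩ := hR.g hb
      obtain ⟨l, hl⟩ := hG.top (Or.inl hm)
      exact ⟨R, l, hG.toHole0, hG.E0 (by omega), hl⟩) (fun hb => by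
      obtain ⟨R, h2, h3⟩ := hR.b3 hb
      exact ⟨R, h2, h3 (Or.inl hm)⟩)
    exact ⟨Λ, l, ⟨σ, h3⟩, h3.ej, h2⟩
  · rintro hP2 j hA Λ Λ' ⟨σ, h2⟩ ⟨σ', h3⟩
    exact step1 S hP hm hP2 n j h2 h3

end Pool.Agent.Lob5
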