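import Pool.Agent.Lob5.P2Ly
import Pool.Agent.Lob5.GLDab
import Pool.Agent.Lob5.GLInst

/-!
# The sum at the vertex with one leaf: three places

`Λ` is a layer of the form `GLy S n Λ σ`. `v = Λ.vk S n e` is the sum at the vertex `k = K - 1`; `w = wz S n.up`,
`w + mz S n.up = 2w + N0 + nT + h`.

Sums of the vertices which are not loaded (same colour of both edges, `S.same`): bad: `w+N0 + p (oe i) + rk (ee i)` with
`p (oe i) ≤ σ (n2+j+P)`, `rk (ee i) ≤ Q`; good: `w+N0+nT + p (oe i) + rk (ee i)` with `p (oe i) ≥ σ (n2+j+U+P+1)`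
(`> X U` if `1 ≤ U`, `> σ (n2+j+P)`), `p (oe i) ≤ w`, `Q+1 ≤ rk (ee i) ≤ h`.

* `vok_A`: `v` is between the bad sums and `w+N0+Q+1+X 1`. Good sums are `≥ w+N0+nT+Q+1+X 1`.
* `vok_C`: `v = w+N0+nT+r+z`, the label `z` is zipped at the even rank `r` (`Q+1 ≤ r ≤ h+1`).
* `vok_T`: `v` is above all sums. `gap`: `X U + (h+1-P) ≤ w` (`σ` increasing, `top`), `P + Q ≤ 2h`.
-/

namespace Pool.Agent.Lob5

variable {k : ℕ} {ld al : ℕ → Prop}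

/-- the facts about the sum -/
structure VOK (S : Seam k ld al) (n : Num) (e : ℕ) (Λ : FLay) : Prop where
  thr : Λ.vk S n e ≤ wz S n.up + mz S n.up + n.n2 + Λ.j + 1
  C : ∀ i, 1 ≤ i → i < k → ¬ ld i → Λ.bs i ≠ Λ.vk S n e
  gap : 1 ≤ Λ.U → Λ.vk S n e < wz S n.up + n.N0 + S.Q + 1 + Λ.X 1 ∨
    wz S n.up + n.N0 + S.Q + n.nT + 1 + Λ.X Λ.U < Λ.vk S n e

/-- the facts about a number `v` -/
structure VOKn (S : Seam k ld al) (n : Num) (Λ : FLay) (v : ℕ) : Prop where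
  thr : v ≤ wz S n.up + mz S n.up + n.n2 + Λ.j + 1
  C : ∀ i, 1 ≤ i → i < k → ¬ ld i → Λ.bs i ≠ v
  gap : 1 ≤ Λ.U → v < wz S n.up + n.N0 + S.Q + 1 + Λ.X 1 ∨
    wz S n.up + n.N0 + S.Q + n.nT + 1 + Λ.X Λ.U < v

theorem VOKn.vok {S : Seam k ld al} {n : Num} {e : ℕ} {Λ : FLay}
    (h : VOKn S n Λ (Λ.vk S n e)) : VOK S n e Λ :=
  ⟨h.thr, h.C, h.gap⟩

private theorem oe_P2Gen {i : ℕ} (h1 : 1 ≤ i) (h2 : i < k) : 1 ≤ oe i ∧ oe i ≤ k := by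
  unfold oe
  split_ifs <;> omega

private theorem ee_P2Gen {i : ℕ} (h1 : 1 ≤ i) (h2 : i < k) : 1 ≤ ee i ∧ ee i ≤ k := by
  unfold ee
  split_ifs <;> omega

/-- the two labels at a vertex -/
private theorem two_P2Gen (Λ : FLay) (i : ℕ) : Λ.bs i = Λ.p (oe i) + Λ.p (ee i) := by
  unfold FLay.bs oe ee
  by_cases h : i % 2 = 1
  · rw [if_pos h, if_pos h]
  · rw [if_neg h, if_neg h, add_comm]

private theorem sh_P2Gen {σ : ℕ → ℕ} (h : StrictMono σ) (i d : ℕ) : σ i + d ≤ σ (i + d) := by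
  induction d with
  | zero => exact le_rfl
  | succ d ih =>
    have h1 := h (show i + d < i + (d + 1) by omega)
    omega

private theorem shift_P2Gen {σ : ℕ → ℕ} (h : StrictMono σ) {i j : ℕ} (hij : i ≤ j) :
    σ i + j ≤ σ j + i := by
  obtain ⟨d, rfl⟩ := Nat.exists_eq_add_of_le hij
  have := sh_P2Gen h i d
  omega

/-- the sum at a vertex which is not loaded -/
private theorem sum_P2Gen {S : Seam k ld al} {n : Num} {Λ : FLay} {σ : ℕ → ℕ}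
    (h : GLy S n Λ σ) {i : ℕ} (h1 : 1 ≤ i) (h2 : i < k) (h3 : ¬ ld i) :
    (S.bad i ∧ 1 ≤ S.rk (oe i) ∧ S.rk (oe i) ≤ S.P ∧ 1 ≤ S.rk (ee i) ∧ S.rk (ee i) ≤ S.Q ∧
      Λ.p (oe i) = σ (n.n2 + Λ.j + S.rk (oe i)) ∧
      Λ.bs i = Λ.p (oe i) + (wz S n.up + n.N0 + S.rk (ee i))) ∨
    (¬ S.bad i ∧ S.P + 1 ≤ S.rk (oe i) ∧ S.rk (oe i) ≤ S.h + 1 ∧ S.Q + 1 ≤ S.rk (ee i) ∧
      S.rk (ee i) ≤ S.h ∧ Λ.p (oe i) = σ (n.n2 + Λ.j + S.rk (oe i) + Λ.U) ∧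
      Λ.bs i = Λ.p (oe i) + (wz S n.up + n.N0 + S.rk (ee i) + n.nT)) := by
  obtain ⟨ho, hbi⟩ := S.same' h1 h2 h3
  have o1 := (oe_P2Gen h1 h2).1
  have o2 := (oe_P2Gen h1 h2).2
  have e1 := (ee_P2Gen h1 h2).1
  have e2 := (ee_P2Gen h1 h2).2
  by_cases hc : S.bad (oe i)
  · have r1 := S.rk_ob _ o1 o2 oe_odd hc
    have r2 := S.rk_eb _ e1 e2 ee_even (ho.1 hc)
    refine Or.inl ⟨hbi.1 hc, r1.1, r1.2, r2.1, r2.2, ?_, ?_⟩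
    · rw [h.podd _ oe_odd, if_pos r1.2, add_zero]
    · rw [two_P2Gen, h.peven _ ee_even, if_neg (by omega), add_zero]
  · have r1 := S.rk_og _ o1 o2 oe_odd hc
    have r2 := S.rk_eg _ e1 e2 ee_even (fun h => hc (ho.2 h))
    refine Or.inr ⟨fun h => hc (hbi.2 h), r1.1, r1.2, r2.1, r2.2, ?_, ?_⟩
    · rw [h.podd _ oe_odd, if_neg (by omega)]
    · rw [two_P2Gen, h.peven _ ee_even, if_pos (by omega)]

theorem von_A (S : Seam k ld al) (n : Num) {Λ : FLay} {σ : ℕ → ℕ} (h : GLy S n Λ σ) (v : ℕ)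
    (h1 : wz S n.up + n.N0 + σ (n.n2 + Λ.j + S.P) + S.Q < v)
    (h2 : v < wz S n.up + n.N0 + S.Q + 1 + Λ.X 1)
    (h3 : v ≤ 2 * wz S n.up + n.N0 + S.Q + 1) : VOKn S n Λ v := by
  have hmz : mz S n.up = wz S n.up + n.N0 + n.nT + S.h := rfl
  have hQh := S.Qh
  refine ⟨by omega, ?_, ?_⟩
  · intro i i1 i2 i3
    rcases sum_P2Gen h i1 i2 i3 with ⟨_, a1, a2, a3, a4, a5, a6⟩ | ⟨_, a1, a2, a3, a4, a5, a6⟩
    · have h4 := h.mono.monotone (show n.n2 + Λ.j + S.rk (oe i) ≤ n.n2 + Λ.j + S.P by omega)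
      omega
    · have h4 := h.mono.monotone
        (show n.n2 + Λ.j + S.P + 1 ≤ n.n2 + Λ.j + S.rk (oe i) + Λ.U by omega)
      have h5 := h.X 1
      omega
  · intro _
    exact Or.inl h2

theorem von_C (S : Seam k ld al) (n : Num) {Λ : FLay} {σ : ℕ → ℕ} (h : GLy S n Λ σ) (v : ℕ)
    (z r : ℕ) (hr : S.Q + 1 ≤ r) (hr' : r ≤ S.h + 1)
    (hv : v = wz S n.up + n.N0 + n.nT + r + z) (hz : z ≤ wz S n.up)
    (hzb : σ (n.n2 + Λ.j + S.P) < z) (hzU : 1 ≤ Λ.U → Λ.X Λ.U < z)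
    (hzp : ∀ f, 1 ≤ f → f ≤ k → f % 2 = 1 → Λ.p f ≠ z)
    (hlt : ∀ i, 1 ≤ i → i < k → ¬ ld i → ¬ S.bad i → S.rk (ee i) < r → Λ.p (oe i) < z)
    (hgt : ∀ i, 1 ≤ i → i < k → ¬ ld i → ¬ S.bad i → r < S.rk (ee i) → z < Λ.p (oe i)) :
    VOKn S n Λ v := by
  have hmz : mz S n.up = wz S n.up + n.N0 + n.nT + S.h := rfl
  refine ⟨by omega, ?_, ?_⟩
  · intro i i1 i2 i3
    rcases sum_P2Gen h i1 i2 i3 with ⟨_, a1, a2, a3, a4, a5, a6⟩ | ⟨a0, a1, a2, a3, a4, a5, a6⟩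
    · have h4 := h.mono.monotone (show n.n2 + Λ.j + S.rk (oe i) ≤ n.n2 + Λ.j + S.P by omega)
      omega
    · rcases lt_trichotomy (S.rk (ee i)) r with h4 | h4 | h4
      · have h5 := hlt i i1 i2 i3 a0 h4
        omega
      · have h5 := hzp (oe i) (oe_P2Gen i1 i2).1 (oe_P2Gen i1 i2).2 oe_odd
        omega
      · have h5 := hgt i i1 i2 i3 a0 h4
        omega
  · intro h4
    have h5 := hzU h4
    right
    omega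

theorem von_T (S : Seam k ld al) (n : Num) {Λ : FLay} {σ : ℕ → ℕ} (h : GLy S n Λ σ) (v : ℕ)
    (hPQ : 1 ≤ Λ.U → S.P + S.Q ≤ 2 * S.h)
    (h1 : wz S n.up + mz S n.up < v)
    (h2 : v ≤ wz S n.up + mz S n.up + n.n2 + Λ.j + 1) : VOKn S n Λ v := by
  have hmz : mz S n.up = wz S n.up + n.N0 + n.nT + S.h := rfl
  have hPh := S.Ph
  have hQh := S.Qh
  have htop := h.top
  refine ⟨h2, ?_, ?_⟩
  · intro i i1 i2 i3
    rcases sum_P2Gen h i1 i2 i3 with ⟨_, a1, a2, a3, a4, a5, a6⟩ | ⟨a0, a1, a2, a3, a4, a5, a6⟩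
    · have h4 := h.mono.monotone
        (show n.n2 + Λ.j + S.rk (oe i) ≤ n.n2 + Λ.j + Λ.U + S.h + 1 by omega)
      omega
    · have h4 := h.mono.monotone
        (show n.n2 + Λ.j + S.rk (oe i) + Λ.U ≤ n.n2 + Λ.j + Λ.U + S.h + 1 by omega)
      omega
  · intro h4
    have h5 := hPQ h4
    right
    have h6 := h.X Λ.U
    have h7 := shift_P2Gen h.mono
      (show n.n2 + Λ.j + S.P + Λ.U ≤ n.n2 + Λ.j + Λ.U + S.h + 1 by omega)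
    omega

theorem vok_A (S : Seam k ld al) (n : Num) (e : ℕ) {Λ : FLay} {σ : ℕ → ℕ} (h : GLy S n Λ σ)
    (h1 : wz S n.up + n.N0 + σ (n.n2 + Λ.j + S.P) + S.Q < Λ.vk S n e)
    (h2 : Λ.vk S n e < wz S n.up + n.N0 + S.Q + 1 + Λ.X 1)
    (h3 : Λ.vk S n e ≤ 2 * wz S n.up + n.N0 + S.Q + 1) : VOK S n e Λ :=
  (von_A S n h (Λ.vk S n e) h1 h2 h3).vok

theorem vok_C (S : Seam k ld al) (n : Num) (e : ℕ) {Λ : FLay} {σ : ℕ → ℕ} (h : GLy S n Λ σ)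
    (r : ℕ) (hr : S.Q + 1 ≤ r) (hr' : r ≤ S.h + 1)
    (hv : Λ.vk S n e = wz S n.up + n.N0 + n.nT + r + Λ.z) (hz : Λ.z ≤ wz S n.up)
    (hzb : σ (n.n2 + Λ.j + S.P) < Λ.z) (hzU : 1 ≤ Λ.U → Λ.X Λ.U < Λ.z)
    (hzp : ∀ f, 1 ≤ f → f ≤ k → f % 2 = 1 → Λ.p f ≠ Λ.z)
    (hlt : ∀ i, 1 ≤ i → i < k → ¬ ld i → ¬ S.bad i → S.rk (ee i) < r → Λ.p (oe i) < Λ.z)
    (hgt : ∀ i, 1 ≤ i → i < k → ¬ ld i → ¬ S.bad i → r < S.rk (ee i) → Λ.z < Λ.p (oe i)) :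
    VOK S n e Λ :=
  (von_C S n h (Λ.vk S n e) Λ.z r hr hr' hv hz hzb hzU hzp hlt hgt).vok

theorem vok_T (S : Seam k ld al) (n : Num) (e : ℕ) {Λ : FLay} {σ : ℕ → ℕ} (h : GLy S n Λ σ)
    (hPQ : 1 ≤ Λ.U → S.P + S.Q ≤ 2 * S.h)
    (h1 : wz S n.up + mz S n.up < Λ.vk S n e)
    (h2 : Λ.vk S n e ≤ wz S n.up + mz S n.up + n.n2 + Λ.j + 1) : VOK S n e Λ :=
  (von_T S n h (Λ.vk S n e) hPQ h1 h2).vok

/-- the block boundary at the vertex `0`, if the edge `1` is good -/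
structure Hole0 (S : Seam k ld al) (R : ℕ) : Prop where
  QR : S.Q ≤ R
  Rh : R ≤ S.h
  lt : ∀ i, 1 ≤ i → i < k → ¬ ld i → ¬ S.bad i → S.rk (ee i) ≤ R → S.rk (oe i) < S.rk 1
  gt : ∀ i, 1 ≤ i → i < k → ¬ ld i → ¬ S.bad i → R < S.rk (ee i) → S.rk 1 ≤ S.rk (oe i)
  e1 : ∀ i, 1 ≤ i → i < k → ¬ ld i → ¬ S.bad i → S.rk (oe i) = S.rk 1 → S.rk (ee i) = R + 1

end Pool.Agent.Lob5
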