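import Pool.Agent.Lob5.P2Gen

/-!
# The sum at the vertex with one leaf (or at the special vertex): three more places

`w = wz S n.up`, all sums relative to `w + N0`; `W0 = w + nT + h` is the largest possible sum of a vertex which is
not loaded. `GLy S n Λ σ`; for `r ≤ r'`: `σ r + r' ≤ σ r' + r` (`shift_P2Gen`), so for a good odd edge of rank `o`:
`p + (h+1) ≤ w + o` (`top`).

* `von_Wm`: `v = W0 - m`. A good vertex (not loaded) with `rk i + rk (i+1) = 2h+1-t` has the sum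
  `nT + rk ee + p oe ≤ W0 - t`, with equality iff `p oe + (h+1) = w + rk oe`. `t > m`: smaller than `v`. `t = m`: `h2`. `t < m`:
  `h1` gives the sum `W0 - t > v`. Bad vertices: their sums are `< w+N0+Q+1+X 1 ≤ ...` (`X 1 ≤ X U`, or if `U = 0`: at most
  `σ (n2+j+P) + Q`), and `v > w+N0+Q+nT+1+X U` by `hg`: `X U + (h+1-P) ≤ w`.
* `von_H`: the hole at the vertex `0`, edge `1` good: `v = w+N0+nT+R+p 1`. Good vertex: `rk ee ≤ R`: `rk oe < rk 1` (`lt`), so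
  `p oe < p 1`; `R < rk ee`: `rk 1 ≤ rk oe`, `p 1 ≤ p oe`.
* `von_HB`: the hole at the vertex `0`, edge `1` bad: `v = w+N0+p 1+RB+1`. Bad vertex: `rk oe ≤ rk 1`: `p oe ≤ p 1`,
  `rk ee ≤ RB`; `rk 1 < rk oe`: `p 1 < p oe`, `RB < rk ee`. Good vertices: `> w+N0+nT+Q+1+X 1 > v` (`p 1 < X 1`).
-/

namespace Pool.Agent.Lob5

variable {k : ℕ} {ld al : ℕ → Prop}

/-- the block boundary at the vertex `0`, if the edge `1` is bad -/
structure HoleB (S : Seam k ld al) (R : ℕ) : Prop where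
  RQ : R ≤ S.Q
  lt : ∀ i, 1 ≤ i → i < k → ¬ ld i → S.bad i → S.rk (oe i) ≤ S.rk 1 → S.rk (ee i) ≤ R
  gt : ∀ i, 1 ≤ i → i < k → ¬ ld i → S.bad i → S.rk 1 < S.rk (oe i) → R < S.rk (ee i)

private theorem oe_P2GenB {i : ℕ} (h1 : 1 ≤ i) (h2 : i < k) : 1 ≤ oe i ∧ oe i ≤ k := by
  unfold oe
  split_ifs <;> omega

private theorem ee_P2GenB {i : ℕ} (h1 : 1 ≤ i) (h2 : i < k) : 1 ≤ ee i ∧ ee i ≤ k := by
  unfold ee
  split_ifs <;> omega

private theorem two_P2GenB (Λ : FLay) (i : ℕ) : Λ.bs i = Λ.p (oe i) + Λ.p (ee i) := by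
  unfold FLay.bs oe ee
  by_cases h : i % 2 = 1
  · rw [if_pos h, if_pos h]
  · rw [if_neg h, if_neg h, add_comm]

private theorem sh_P2GenB {σ : ℕ → ℕ} (h : StrictMono σ) (i d : ℕ) : σ i + d ≤ σ (i + d) := by
  induction d with
  | zero => exact le_rfl
  | succ d ih =>
    have h1 := h (show i + d < i + (d + 1) by omega)
    omega

private theorem shift_P2GenB {σ : ℕ → ℕ} (h : StrictMono σ) {i j : ℕ} (hij : i ≤ j) :
    σ i + j ≤ σ j + i := by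
  obtain ⟨d, rfl⟩ := Nat.exists_eq_add_of_le hij
  have := sh_P2GenB h i d
  omega

/-- the sum at a vertex which is not loaded -/
private theorem sum_P2GenB {S : Seam k ld al} {n : Num} {Λ : FLay} {σ : ℕ → ℕ}
    (h : GLy S n Λ σ) {i : ℕ} (h1 : 1 ≤ i) (h2 : i < k) (h3 : ¬ ld i) :
    (S.bad i ∧ 1 ≤ S.rk (oe i) ∧ S.rk (oe i) ≤ S.P ∧ 1 ≤ S.rk (ee i) ∧ S.rk (ee i) ≤ S.Q ∧
      Λ.p (oe i) = σ (n.n2 + Λ.j + S.rk (oe i)) ∧
      Λ.bs i = Λ.p (oe i) + (wz S n.up + n.N0 + S.rk (ee i))) ∨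
    (¬ S.bad i ∧ S.P + 1 ≤ S.rk (oe i) ∧ S.rk (oe i) ≤ S.h + 1 ∧ S.Q + 1 ≤ S.rk (ee i) ∧
      S.rk (ee i) ≤ S.h ∧ Λ.p (oe i) = σ (n.n2 + Λ.j + S.rk (oe i) + Λ.U) ∧
      Λ.bs i = Λ.p (oe i) + (wz S n.up + n.N0 + S.rk (ee i) + n.nT)) := by
  obtain ⟨ho, hbi⟩ := S.same' h1 h2 h3
  have o1 := (oe_P2GenB h1 h2).1
  have o2 := (oe_P2GenB h1 h2).2
  have e1 := (ee_P2GenB h1 h2).1
  have e2 := (ee_P2GenB h1 h2).2
  by_cases hc : S.bad (oe i)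
  · have r1 := S.rk_ob _ o1 o2 oe_odd hc
    have r2 := S.rk_eb _ e1 e2 ee_even (ho.1 hc)
    refine Or.inl ⟨hbi.1 hc, r1.1, r1.2, r2.1, r2.2, ?_, ?_⟩
    · rw [h.podd _ oe_odd, if_pos r1.2, add_zero]
    · rw [two_P2GenB, h.peven _ ee_even, if_neg (by omega), add_zero]
  · have r1 := S.rk_og _ o1 o2 oe_odd hc
    have r2 := S.rk_eg _ e1 e2 ee_even (fun h => hc (ho.2 h))
    refine Or.inr ⟨fun h => hc (hbi.2 h), r1.1, r1.2, r2.1, r2.2, ?_, ?_⟩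
    · rw [h.podd _ oe_odd, if_neg (by omega)]
    · rw [two_P2GenB, h.peven _ ee_even, if_pos (by omega)]

/-- the label of the edge `1` -/
private theorem one_P2GenB {S : Seam k ld al} {n : Num} {Λ : FLay} {σ : ℕ → ℕ}
    (h : GLy S n Λ σ) :
    (S.bad 1 → 1 ≤ S.rk 1 ∧ S.rk 1 ≤ S.P ∧ Λ.p 1 = σ (n.n2 + Λ.j + S.rk 1)) ∧
    (¬ S.bad 1 → S.P + 1 ≤ S.rk 1 ∧ S.rk 1 ≤ S.h + 1 ∧
      Λ.p 1 = σ (n.n2 + Λ.j + S.rk 1 + Λ.U)) := by
  have hk := S.hk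
  constructor
  · intro hb
    have r1 := S.rk_ob 1 le_rfl (by omega) (by omega) hb
    refine ⟨r1.1, r1.2, ?_⟩
    rw [h.podd 1 (by omega), if_pos r1.2, add_zero]
  · intro hb
    have r1 := S.rk_og 1 le_rfl (by omega) (by omega) hb
    refine ⟨r1.1, r1.2, ?_⟩
    rw [h.podd 1 (by omega), if_neg (by omega)]

theorem von_Wm (S : Seam k ld al) (n : Num) {Λ : FLay} {σ : ℕ → ℕ} (h : GLy S n Λ σ) (v m : ℕ)
    (hv : v + m = wz S n.up + mz S n.up)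
    (hg : S.P + S.Q + m < 2 * S.h)
    (h1 : ∀ i, 1 ≤ i → i < k → ¬ ld i → ¬ S.bad i → 2 * S.h + 1 < S.rk i + S.rk (i + 1) + m →
      Λ.p (oe i) + (S.h + 1) = wz S n.up + S.rk (oe i))
    (h2 : ∀ i, 1 ≤ i → i < k → ¬ ld i → ¬ S.bad i → S.rk i + S.rk (i + 1) + m = 2 * S.h + 1 →
      Λ.p (oe i) + (S.h + 1) < wz S n.up + S.rk (oe i)) :
    VOKn S n Λ v := by
  have hmz : mz S n.up = wz S n.up + n.N0 + n.nT + S.h := rfl
  have hPh := S.Ph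
  have hQh := S.Qh
  have htop := h.top
  refine ⟨by omega, ?_, ?_⟩
  · intro i i1 i2 i3
    have hs := rk_sum S.rk i
    rcases sum_P2GenB h i1 i2 i3 with ⟨_, a1, a2, a3, a4, a5, a6⟩ | ⟨a0, a1, a2, a3, a4, a5, a6⟩
    · have h4 := shift_P2GenB h.mono
        (show n.n2 + Λ.j + S.rk (oe i) ≤ n.n2 + Λ.j + Λ.U + S.h + 1 by omega)
      omega
    · have h4 := shift_P2GenB h.mono
        (show n.n2 + Λ.j + S.rk (oe i) + Λ.U ≤ n.n2 + Λ.j + Λ.U + S.h + 1 by omega)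
      rcases lt_trichotomy (S.rk i + S.rk (i + 1) + m) (2 * S.h + 1) with c | c | c
      · omega
      · have := h2 i i1 i2 i3 a0 c
        omega
      · have := h1 i i1 i2 i3 a0 c
        omega
  · intro h4
    right
    have h6 := h.X Λ.U
    have h7 := shift_P2GenB h.mono
      (show n.n2 + Λ.j + S.P + Λ.U ≤ n.n2 + Λ.j + Λ.U + S.h + 1 by omega)
    omega

theorem von_H (S : Seam k ld al) (n : Num) {Λ : FLay} {σ : ℕ → ℕ} (h : GLy S n Λ σ) (v R : ℕ)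
    (hR : Hole0 S R) (hb : ¬ S.bad 1) (hv : v = wz S n.up + n.N0 + n.nT + R + Λ.p 1)
    (hg : 1 ≤ Λ.U → Λ.X Λ.U + S.Q + 1 < Λ.p 1 + R) : VOKn S n Λ v := by
  have hmz : mz S n.up = wz S n.up + n.N0 + n.nT + S.h := rfl
  have hPh := S.Ph
  have hQh := S.Qh
  have htop := h.top
  obtain ⟨b1, b2, b3⟩ := (one_P2GenB h).2 hb
  have hQR := hR.QR
  have hRh := hR.Rh
  have h1w := h.mono.monotone
    (show n.n2 + Λ.j + S.rk 1 + Λ.U ≤ n.n2 + Λ.j + Λ.U + S.h + 1 by omega)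
  refine ⟨by omega, ?_, ?_⟩
  · intro i i1 i2 i3
    rcases sum_P2GenB h i1 i2 i3 with ⟨_, a1, a2, a3, a4, a5, a6⟩ | ⟨a0, a1, a2, a3, a4, a5, a6⟩
    · have h4 := h.mono (show n.n2 + Λ.j + S.rk (oe i) < n.n2 + Λ.j + S.rk 1 + Λ.U by omega)
      omega
    · by_cases c : S.rk (ee i) ≤ R
      · have h5 := hR.lt i i1 i2 i3 a0 c
        have h4 := h.mono
          (show n.n2 + Λ.j + S.rk (oe i) + Λ.U < n.n2 + Λ.j + S.rk 1 + Λ.U by omega)
        omega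
      · have h5 := hR.gt i i1 i2 i3 a0 (by omega)
        have h4 := h.mono.monotone
          (show n.n2 + Λ.j + S.rk 1 + Λ.U ≤ n.n2 + Λ.j + S.rk (oe i) + Λ.U by omega)
        omega
  · intro h4
    right
    have := hg h4
    omega

theorem von_HB (S : Seam k ld al) (n : Num) {Λ : FLay} {σ : ℕ → ℕ} (h : GLy S n Λ σ) (v R : ℕ)
    (hR : HoleB S R) (hb : S.bad 1) (hRQ : R + 1 ≤ S.Q)
    (hv : v = wz S n.up + n.N0 + Λ.p 1 + R + 1) : VOKn S n Λ v := by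
  have hmz : mz S n.up = wz S n.up + n.N0 + n.nT + S.h := rfl
  have hPh := S.Ph
  have hQh := S.Qh
  have htop := h.top
  obtain ⟨b1, b2, b3⟩ := (one_P2GenB h).1 hb
  have h1w := h.mono.monotone
    (show n.n2 + Λ.j + S.rk 1 ≤ n.n2 + Λ.j + Λ.U + S.h + 1 by omega)
  have h1X := h.mono (show n.n2 + Λ.j + S.rk 1 < n.n2 + Λ.j + S.P + 1 by omega)
  have hX1 := h.X 1
  refine ⟨by omega, ?_, ?_⟩
  · intro i i1 i2 i3
    rcases sum_P2GenB h i1 i2 i3 with ⟨a0, a1, a2, a3, a4, a5, a6⟩ | ⟨_, a1, a2, a3, a4, a5, a6⟩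
    · by_cases c : S.rk (oe i) ≤ S.rk 1
      · have h5 := hR.lt i i1 i2 i3 a0 c
        have h4 := h.mono.monotone
          (show n.n2 + Λ.j + S.rk (oe i) ≤ n.n2 + Λ.j + S.rk 1 by omega)
        omega
      · have h5 := hR.gt i i1 i2 i3 a0 (by omega)
        have h4 := h.mono
          (show n.n2 + Λ.j + S.rk 1 < n.n2 + Λ.j + S.rk (oe i) by omega)
        omega
    · have h4 := h.mono (show n.n2 + Λ.j + S.rk 1 < n.n2 + Λ.j + S.rk (oe i) + Λ.U by omega)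
      omega
  · intro _
    left
    omega

/-- the hole at the vertex `0`: `L` is a bound for the labels of the good odd edges of a rank `< rk 1` -/
theorem von_G (S : Seam k ld al) (n : Num) {Λ : FLay} {σ : ℕ → ℕ} (h : GLy S n Λ σ) (v R L : ℕ)
    (hR : Hole0 S R) (hb : ¬ S.bad 1)
    (hL : ∀ r, S.P + 1 ≤ r → r < S.rk 1 → σ (n.n2 + Λ.j + r + Λ.U) < L)
    (h1 : wz S n.up + n.N0 + n.nT + R + L ≤ v)
    (h2 : v ≤ wz S n.up + n.N0 + n.nT + R + Λ.p 1)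
    (hbd : wz S n.up + n.N0 + σ (n.n2 + Λ.j + S.P) + S.Q < v)
    (hg : 1 ≤ Λ.U → wz S n.up + n.N0 + S.Q + n.nT + 1 + Λ.X Λ.U < v) : VOKn S n Λ v := by
  have hmz : mz S n.up = wz S n.up + n.N0 + n.nT + S.h := rfl
  have hPh := S.Ph
  have hQh := S.Qh
  have htop := h.top
  obtain ⟨b1, b2, b3⟩ := (one_P2GenB h).2 hb
  have hQR := hR.QR
  have hRh := hR.Rh
  have h1w := h.mono.monotone
    (show n.n2 + Λ.j + S.rk 1 + Λ.U ≤ n.n2 + Λ.j + Λ.U + S.h + 1 by omega)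
  refine ⟨by omega, ?_, ?_⟩
  · intro i i1 i2 i3
    rcases sum_P2GenB h i1 i2 i3 with ⟨_, a1, a2, a3, a4, a5, a6⟩ | ⟨a0, a1, a2, a3, a4, a5, a6⟩
    · have h4 := h.mono.monotone (show n.n2 + Λ.j + S.rk (oe i) ≤ n.n2 + Λ.j + S.P by omega)
      omega
    · by_cases c : S.rk (ee i) ≤ R
      · have h5 := hR.lt i i1 i2 i3 a0 c
        have h4 := hL (S.rk (oe i)) a1 h5
        omega
      · have h5 := hR.gt i i1 i2 i3 a0 (by omega)
        have h4 := h.mono.monotone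
          (show n.n2 + Λ.j + S.rk 1 + Λ.U ≤ n.n2 + Λ.j + S.rk (oe i) + Λ.U by omega)
        omega
  · intro h4
    exact Or.inr (hg h4)

end Pool.Agent.Lob5
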