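import Pool.Agent.Lob5.HoleG3
import Pool.Agent.Lob5.P2StrB
import Pool.Agent.Lob5.P2Facts

/-!
# Mode 3 (`K2ii`): the layers for `K - 1` with one leaf

`L3 S n j z = insG S n (lay3 S n j) z` for any `z` with `b+1 ≤ z ≤ w` (`a = n2+j`, `b = a+P`, `w = wz S n.up`). Positions: bad odd edges of
rank `r < P`: `a+r`; `X i`: `a+P+i-1`; good odd edges of rank `r`: `a+U+r-1`; the edge `q+1` (bad, rank `P`): `a+U+h+1`. The special
vertex `q` has the label `y = a+1`, below all positions; `xs = sk z (nT+h)` if there is one.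

* `X3, U3, b3, s3`: second inserted label of the layout, number of labels `X`, labelling of the positions
  before and after the insertion of `z`. `x3_cs`: all numerical facts.
* `flow_ins3z`: as `flow_ins3`, but `z` need not be above the labels `X`.
-/

namespace Pool.Agent.Lob5

variable {k : ℕ} {ld al : ℕ → Prop}

/-- the layer with the reserved label `z` -/
def L3 (S : Seam k ld al) (n : Num) (j z : ℕ) : FLay := insG S n (lay3 S n j) z

/-- the second inserted label of the layout -/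
def X3 (S : Seam k ld al) (n : Num) (j : ℕ) : ℕ :=
  if n.sp = 3 ∧ n.n2 + j + S.P + 1 < n.nT + S.h then n.nT + S.h else wz S n + 2

/-- the number of the labels `X` -/
def U3 (S : Seam k ld al) (n : Num) (j : ℕ) : ℕ :=
  if n.sp = 3 ∧ n.n2 + j + S.P + 1 < n.nT + S.h then n.Ux - 1 - j else n.Ux - j

/-- the labelling of the positions without `z` -/
def b3 (S : Seam k ld al) (n : Num) (j r : ℕ) : ℕ := lam (n.n2 + j + 1) (X3 S n j) r

/-- the labelling of the positions -/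
def s3 (S : Seam k ld al) (n : Num) (j z r : ℕ) : ℕ := sk z (b3 S n j r)

/-- a layer of the mode 3, given by an increasing labelling of the positions -/
structure GL3 (S : Seam k ld al) (n : Num) (Λ : FLay) (σ : ℕ → ℕ) : Prop where
  mono : StrictMono σ
  top : σ (n.n2 + Λ.j + Λ.U + S.h + 1) ≤ wz S n.up
  U_ge : n.nT ≤ Λ.U
  pob : ∀ e, e % 2 = 1 → S.rk e < S.P → Λ.p e = σ (n.n2 + Λ.j + S.rk e)
  poP : ∀ e, e % 2 = 1 → S.rk e = S.P → Λ.p e = σ (n.n2 + Λ.j + Λ.U + S.h + 1)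
  pog : ∀ e, e % 2 = 1 → S.P < S.rk e → Λ.p e = σ (n.n2 + Λ.j + Λ.U + S.rk e - 1)
  peven : ∀ e, e % 2 = 0 →
    Λ.p e = wz S n.up + n.N0 + S.rk e + (if S.Q < S.rk e then n.nT else 0)
  X : ∀ i, 1 ≤ i → Λ.X i = σ (n.n2 + Λ.j + S.P + i - 1)
  lo : ∀ r, 1 ≤ r → n.n2 + Λ.j + r + 1 ≤ σ (n.n2 + Λ.j + r)

theorem s3_mono (S : Seam k ld al) (n : Num) (j z : ℕ) : StrictMono (s3 S n j z) := fun _ _ h =>
  sk_mono z (lam_mono _ _ h)

/-- the numbers -/
theorem x3_cs (S : Seam k ld al) (n : Num) (j : ℕ) (hm : S.mode = 3) (hA : Adm S n j) :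
    wz S n.up = n.n2 + n.Ux + S.h + 3 ∧ n.nT ≤ U3 S n j ∧ n.n2 + j + S.P + 1 < X3 S n j ∧
    ((n.sp = 3 ∧ n.n2 + j + S.P + 1 < n.nT + S.h ∧ X3 S n j = n.nT + S.h ∧
        U3 S n j + j + 1 = n.Ux ∧
        lay3 S n j = ⟨j, U3 S n j, n.n2 + j + 1, X3 S n j, true, n.n2 + j + 1, X3 S n j,
          true, false⟩) ∨
      ((n.sp = 3 → n.nT + S.h ≤ n.n2 + j + S.P + 1) ∧ X3 S n j = wz S n.up + 1 ∧
        U3 S n j + j = n.Ux ∧
        lay3 S n j = ⟨j, U3 S n j, n.n2 + j + 1, X3 S n j, true, n.n2 + j + 1, 0,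
          false, false⟩)) := by
  have hsp := (hA.sp14 (by omega) (by omega)).1
  have hw : wz S n = n.n2 + n.Ux + S.h + 2 := by
    unfold wz
    rw [if_neg (by omega)]
  have hwu := wz_up S n
  have hjU := hA.jU
  have hn2 := hA.n2T
  have hP1 := S.P1
  have hPh := S.Ph
  unfold U3 X3 lay3
  by_cases c1 : n.sp = 3 ∧ n.n2 + j + S.P + 1 < n.nT + S.h
  · rw [if_pos (by omega)] at hjU
    rw [if_pos c1, if_pos c1, if_pos c1]
    exact ⟨by omega, by omega, by omega, Or.inl ⟨c1.1, c1.2, rfl, by omega, rfl⟩⟩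
  · have hjU' : n.nT + j ≤ n.Ux := by
      split_ifs at hjU <;> omega
    rw [if_neg c1, if_neg c1, if_neg c1]
    exact ⟨by omega, by omega, by omega, Or.inr ⟨fun h => by omega, by omega, by omega, rfl⟩⟩

/-- the labelling without `z` -/
theorem b3_eq (S : Seam k ld al) (n : Num) (j r : ℕ) (h : n.n2 + j + 1 ≤ r) :
    b3 S n j r = r + 1 + (if X3 S n j ≤ r + 1 then 1 else 0) := by
  unfold b3 lam
  rw [if_pos h]

theorem b3_lo (S : Seam k ld al) (n : Num) (j r : ℕ) (h : 1 ≤ r)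
    (h' : n.n2 + j + r + 1 < X3 S n j) : b3 S n j (n.n2 + j + r) = n.n2 + j + r + 1 := by
  rw [b3_eq S n j _ (by omega), if_neg (by omega)]

/-- the layer is of the form `GL3` -/
theorem gl3_L3 (S : Seam k ld al) (n : Num) (j z : ℕ) (hm : S.mode = 3) (hA : Adm S n j) :
    GL3 S n (L3 S n j z) (s3 S n j z) ∧ (L3 S n j z).j = j ∧ (L3 S n j z).U = U3 S n j ∧
      (L3 S n j z).lg = false ∧ (L3 S n j z).z = z := by
  obtain ⟨hw, hU, hX, hc⟩ := x3_cs S n j hm hA
  have hP1 := S.P1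
  have hPh := S.Ph
  have hwu := wz_up S n
  have hL : ∃ xs xsf, lay3 S n j = ⟨j, U3 S n j, n.n2 + j + 1, X3 S n j, true,
      n.n2 + j + 1, xs, xsf, false⟩ := by
    rcases hc with ⟨_, _, _, _, h⟩ | ⟨_, _, _, h⟩ <;> exact ⟨_, _, h⟩
  obtain ⟨xs, xsf, hL⟩ := hL
  have lopo : ∀ e, e % 2 = 1 → (L3 S n j z).p e =
      s3 S n j z (if S.rk e < S.P then n.n2 + j + S.rk e
      else if S.rk e = S.P then n.n2 + j + U3 S n j + S.h + 1
      else n.n2 + j + U3 S n j + S.rk e - 1) := by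
    intro e he
    unfold L3
    rw [hL]
    change (if e % 2 = 1 then sk z (pl S n _ e) else _) = _
    rw [if_pos he]
    unfold pl lop s3 b3
    rw [if_pos he]
    rfl
  have hj : (L3 S n j z).j = j := by
    unfold L3
    rw [hL]
    rfl
  have hU' : (L3 S n j z).U = U3 S n j := by
    unfold L3
    rw [hL]
    rfl
  refine ⟨?_, hj, hU', ?_, rfl⟩
  · exact
      { mono := s3_mono S n j z
        top := by
          rw [hj, hU']
          unfold s3
          refine (sk_le _ _).trans ?_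
          rw [b3_eq S n j _ (by omega)]
          rcases hc with ⟨_, _, _, _, _⟩ | ⟨_, _, _, _⟩ <;> split_ifs <;> omega
        U_ge := by
          rw [hU']
          exact hU
        pob := fun e he h1 => by
          rw [lopo e he, if_pos h1, hj]
        poP := fun e he h1 => by
          rw [lopo e he, if_neg (by omega), if_pos h1, hj, hU']
        pog := fun e he h1 => by
          rw [lopo e he, if_neg (by omega), if_neg (by omega), hj, hU']
        peven := fun e he => by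
          unfold L3
          rw [hL]
          change (if e % 2 = 1 then _ else pl S n _ e + 1) = _
          rw [if_neg (by omega)]
          unfold pl
          rw [if_neg (by omega), hwu]
          omega
        X := fun i hi => by
          rw [hj]
          unfold L3
          rw [hL]
          rfl
        lo := fun r hr => by
          rw [hj]
          unfold s3
          have h1 := le_sk z (b3 S n j (n.n2 + j + r))
          have h2 := b3_eq S n j (n.n2 + j + r) (by omega)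
          omega }
  · unfold L3
    rw [hL]
    rfl

/-- the layer without reserved label -/
theorem gl3_P (S : Seam k ld al) (n : Num) (j : ℕ) (hm : S.mode = 3) (hA : Adm S n j) :
    ∃ σ, GL3 S n (funP S n j) σ ∧ (funP S n j).lg = false ∧
      wz S n.up ≤ n.n2 + j + (funP S n j).U + S.h + 1 + 2 ∧
      (S.rk 1 < S.P → 1 ≤ S.rk 1 → (funP S n j).p 1 = n.n2 + j + S.rk 1 + 1) := by
  obtain ⟨hw, hU, hX, hc⟩ := x3_cs S n j hm hA
  have hsp := (hA.sp14 (by omega) (by omega)).1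
  have hP1 := S.P1
  have hPh := S.Ph
  have hwu := wz_up S n
  have hjU := hA.jU
  have hlay : layOf S n.up j = lay3 S n.up j := by
    unfold layOf
    rw [if_neg (show ¬ n.up.sp = 0 from by change ¬ n.sp = 0; omega), if_neg (by omega),
      if_neg (by omega), if_pos hm]
  obtain ⟨U, y2, xs, xsf, hL, hy2, hUw, hw2, hUn, hw3⟩ : ∃ U y2 xs xsf, lay3 S n.up j =
      ⟨j, U, n.n2 + j + 1, y2, true, n.n2 + j + 1, xs, xsf, false⟩ ∧
      n.n2 + j + S.P + 1 < y2 ∧
      wz S n.up ≤ n.n2 + j + U + S.h + 1 + 2 ∧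
      (n.n2 + j + U + S.h + 1 + 1 + (if y2 ≤ n.n2 + j + U + S.h + 1 + 1 then 1 else 0)) ≤
        wz S n.up ∧ n.nT ≤ U ∧ True := by
    unfold lay3
    by_cases c1 : n.up.sp = 3 ∧ n.up.n2 + j + S.P + 1 < n.up.nT + S.h
    · have c2 : n.sp = 3 := c1.1
      have c3 : n.n2 + j + S.P + 1 < n.nT + S.h := c1.2
      rw [if_pos c1]
      rw [if_pos (by omega)] at hjU
      refine ⟨n.Ux + 1 - 1 - j, n.nT + S.h, n.nT + S.h, true, rfl, ?_, ?_, ?_, ?_, trivial⟩
      · omega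
      · omega
      · split_ifs <;> omega
      · omega
    · rw [if_neg c1]
      have hjU' : n.nT + j ≤ n.Ux := by
        split_ifs at hjU <;> omega
      refine ⟨n.Ux + 1 - j, wz S n.up + 2, 0, false, rfl, ?_, ?_, ?_, ?_, trivial⟩
      · omega
      · omega
      · split_ifs <;> omega
      · omega
  have lopo : ∀ e, e % 2 = 1 → (funP S n j).p e =
      lam (n.n2 + j + 1) y2 (if S.rk e < S.P then n.n2 + j + S.rk e
      else if S.rk e = S.P then n.n2 + j + U + S.h + 1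
      else n.n2 + j + U + S.rk e - 1) := by
    intro e he
    change pl S n.up (layOf S n.up j) e = _
    rw [hlay, hL]
    unfold pl lop
    rw [if_pos he]
    rfl
  have hj : (funP S n j).j = j := rfl
  have hU' : (funP S n j).U = U := by
    change (layOf S n.up j).U = U
    rw [hlay, hL]
  have hle : ∀ r, n.n2 + j + 1 ≤ r →
      lam (n.n2 + j + 1) y2 r = r + 1 + (if y2 ≤ r + 1 then 1 else 0) := by
    intro r hr
    unfold lam
    rw [if_pos hr]
  refine ⟨lam (n.n2 + j + 1) y2, ?_, ?_, ?_, ?_⟩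
  · exact
      { mono := lam_mono _ _
        top := by
          rw [hj, hU', hle _ (by omega)]
          exact hw2
        U_ge := by
          rw [hU']
          exact hUn
        pob := fun e he h1 => by
          rw [lopo e he, if_pos h1]
          rfl
        poP := fun e he h1 => by
          rw [lopo e he, if_neg (by omega), if_pos h1, hU']
          rfl
        pog := fun e he h1 => by
          rw [lopo e he, if_neg (by omega), if_neg (by omega), hU']
          rfl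
        peven := fun e he => by
          change pl S n.up (layOf S n.up j) e = _
          unfold pl
          rw [if_neg (by omega)]
          rfl
        X := fun i hi => by
          change Xl S n.up (layOf S n.up j) i = _
          rw [hlay, hL]
          rfl
        lo := fun r hr => by
          rw [hj, hle _ (by omega)]
          omega }
  · change (layOf S n.up j).lg = false
    rw [hlay, hL]
  · rw [hU']
    exact hUw
  · intro h1 h2
    rw [lopo 1 (by omega), if_pos h1, hle _ (by omega), if_neg (by omega)]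

private theorem k2_oe {i : ℕ} (h1 : 1 ≤ i) (h2 : i < k) : 1 ≤ oe i ∧ oe i ≤ k := by
  unfold oe
  split_ifs <;> omega

private theorem k2_ee {i : ℕ} (h1 : 1 ≤ i) (h2 : i < k) : 1 ≤ ee i ∧ ee i ≤ k := by
  unfold ee
  split_ifs <;> omega

private theorem k2_sh {y1 y2 i j : ℕ} (h : i ≤ j) : lam y1 y2 i + j ≤ lam y1 y2 j + i := by
  unfold lam
  split_ifs <;> omega

private theorem k2_plo (S : Seam k ld al) (n : Num) (Λ : Lay) {e : ℕ} (h : e % 2 = 1) :
    pl S n Λ e = lam Λ.y1 Λ.y2 (lop S n Λ (S.rk e)) := by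
  unfold pl
  rw [if_pos h]

private theorem k2_ple (S : Seam k ld al) (n : Num) (Λ : Lay) {e : ℕ} (h : e % 2 = 0) :
    pl S n Λ e = wz S n + n.N0 + S.rk e + (if S.Q < S.rk e then n.nT else 0) := by
  unfold pl
  rw [if_neg (by omega)]

private theorem k2_bs (S : Seam k ld al) (n : Num) (Λ : Lay) (i : ℕ) :
    bs S n Λ i = pl S n Λ (oe i) + pl S n Λ (ee i) := by
  unfold bs oe ee
  split_ifs <;> omega

private theorem k2_lop (S : Seam k ld al) (n : Num) (Λ : Lay) (hk2 : Λ.k2 = true) (r : ℕ) :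
    lop S n Λ r = if r < S.P then n.n2 + Λ.j + r
      else if r = S.P then n.n2 + Λ.j + Λ.U + S.h + 1
      else n.n2 + Λ.j + Λ.U + r - 1 := by
  unfold lop
  rw [if_pos hk2]

private theorem k2_X (S : Seam k ld al) (n : Num) (Λ : Lay) (hk2 : Λ.k2 = true) (i : ℕ) :
    Xl S n Λ i = lam Λ.y1 Λ.y2 (n.n2 + Λ.j + S.P + i - 1) := by
  unfold Xl
  rw [if_pos hk2]

theorem bad_lt3z (S : Seam k ld al) (n : Num) (Λ : Lay) (hm : S.mode = 3) (hk2 : Λ.k2 = true)
    {z : ℕ} (h1' : Λ.y1 = n.n2 + Λ.j + 1) (hy2 : n.n2 + Λ.j + S.P + 1 < Λ.y2)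
    (hz : n.n2 + Λ.j + S.P + 1 ≤ z) {i : ℕ} (h1 : 1 ≤ i)
    (h2 : i < k) (hb : S.bad (oe i)) (hq : i ≠ S.q) (hq1 : i ≠ S.q + 1) :
    pl S n Λ (oe i) < z ∧ pl S n Λ (oe i) < Xl S n Λ 1 := by
  have h3 := rk_lt_P S hm h1 h2 hb hq hq1
  have h4 : pl S n Λ (oe i) = lam Λ.y1 Λ.y2 (n.n2 + Λ.j + S.rk (oe i)) := by
    rw [k2_plo S n Λ oe_odd, k2_lop S n Λ hk2, if_pos h3]
  rw [h4, k2_X S n Λ hk2]
  constructor
  · refine lt_of_lt_of_le ?_ hz
    unfold lam
    split_ifs <;> omega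
  · exact lam_lt (by omega)

theorem flow_ins3z (S : Seam k ld al) (n : Num) (Λ : Lay) (z : ℕ) (hm : S.mode = 3)
    (hk2 : Λ.k2 = true) (h1 : Λ.y1 = n.n2 + Λ.j + 1) (h12 : Λ.y1 < Λ.y2)
    (hw : wz S n = n.n2 + Λ.j + Λ.U + S.h + 1 + 1 + (if Λ.y2 ≤ wz S n then 1 else 0))
    (hU : n.nT ≤ Λ.U) (hy2 : n.n2 + Λ.j + S.P + 1 < Λ.y2) (hz : n.n2 + Λ.j + S.P + 1 ≤ z) :
    FLow S n (insG S n Λ z) := by
  have L := lowOK_ii S n Λ hm hk2 h1 h12 hw hU
  have hP1 := S.P1
  have hPh := S.Ph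
  have hQh := S.Qh
  have hwu := wz_up S n
  have hmu := mz_up S n
  obtain ⟨hqal, hqbad, hq2, hqrk, hq1rk⟩ := S.m2 (Or.inr hm)
  obtain ⟨hq1k, hq1ld, hq1al, hq2rk⟩ := S.m3 hm
  have hpo : ∀ e, e % 2 = 1 → (insG S n Λ z).p e = sk z (pl S n Λ e) := fun e h => by
    change (if e % 2 = 1 then sk z (pl S n Λ e) else pl S n Λ e + 1) = _
    rw [if_pos h]
  have hpe : ∀ e, e % 2 = 0 → (insG S n Λ z).p e = pl S n Λ e + 1 := fun e h => by
    change (if e % 2 = 1 then sk z (pl S n Λ e) else pl S n Λ e + 1) = _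
    rw [if_neg (by omega)]
  have hXi : ∀ i, (insG S n Λ z).X i = sk z (Xl S n Λ i) := fun _ => rfl
  have hbs : ∀ i, (insG S n Λ z).bs i = sk z (pl S n Λ (oe i)) + (pl S n Λ (ee i) + 1) := by
    intro i
    rw [← hpo _ oe_odd, ← hpe _ ee_even]
    unfold FLay.bs oe ee
    split_ifs <;> omega
  have hb1 : ∀ i, bs S n Λ i + 1 ≤ (insG S n Λ z).bs i := by
    intro i
    rw [hbs, k2_bs]
    have := le_sk z (pl S n Λ (oe i))
    omega
  have hb2 : ∀ i, (insG S n Λ z).bs i ≤ bs S n Λ i + 2 := by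
    intro i
    rw [hbs, k2_bs]
    have := sk_le z (pl S n Λ (oe i))
    omega
  have hbb : ∀ i, 1 ≤ i → i < k → S.bad (oe i) → i ≠ S.q → i ≠ S.q + 1 →
      (insG S n Λ z).bs i = bs S n Λ i + 1 := by
    intro i h3 h4 h5 h6 h7
    rw [hbs, k2_bs, sk_of_lt (bad_lt3z S n Λ hm hk2 h1 hy2 hz h3 h4 h5 h6 h7).1]
    omega
  have hX1 : Xl S n Λ 1 ≤ (insG S n Λ z).X 1 := le_sk _ _
  have hrgo : ∀ i, 1 ≤ i → i < k → (S.bad (oe i) → 1 ≤ S.rk (oe i) ∧ S.rk (oe i) ≤ S.P) ∧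
      (¬ S.bad (oe i) → S.P + 1 ≤ S.rk (oe i) ∧ S.rk (oe i) ≤ S.h + 1) := fun i h3 h4 =>
    ⟨S.rk_ob _ (k2_oe h3 h4).1 (k2_oe h3 h4).2 oe_odd,
      S.rk_og _ (k2_oe h3 h4).1 (k2_oe h3 h4).2 oe_odd⟩
  have hrge : ∀ i, 1 ≤ i → i < k → (S.bad (ee i) → 1 ≤ S.rk (ee i) ∧ S.rk (ee i) ≤ S.Q) ∧
      (¬ S.bad (ee i) → S.Q + 1 ≤ S.rk (ee i) ∧ S.rk (ee i) ≤ S.h) := fun i h3 h4 =>
    ⟨S.rk_eb _ (k2_ee h3 h4).1 (k2_ee h3 h4).2 ee_even,
      S.rk_eg _ (k2_ee h3 h4).1 (k2_ee h3 h4).2 ee_even⟩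
  -- the unloaded vertices
  have hunl : ∀ i, 1 ≤ i → i < k → ¬ ld i →
      (S.bad i ∧ S.bad (oe i) ∧ i ≠ S.q ∧ i ≠ S.q + 1 ∧ S.rk (oe i) + 1 ≤ S.P ∧
        S.rk (ee i) ≤ S.Q ∧
        pl S n Λ (oe i) = lam Λ.y1 Λ.y2 (n.n2 + Λ.j + S.rk (oe i)) ∧
        pl S n Λ (ee i) = wz S n + n.N0 + S.rk (ee i)) ∨
      (¬ S.bad i ∧ S.P + 1 ≤ S.rk (oe i) ∧ S.Q + 1 ≤ S.rk (ee i) ∧
        pl S n Λ (oe i) = lam Λ.y1 Λ.y2 (n.n2 + Λ.j + Λ.U + S.rk (oe i) - 1) ∧
        pl S n Λ (ee i) = wz S n + n.N0 + n.nT + S.rk (ee i)) := by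
    intro i h3 h4 h5
    obtain ⟨h6, h7⟩ := S.same' h3 h4 h5
    by_cases hb : S.bad i
    · left
      have ho := h7.2 hb
      have he := h6.1 ho
      have hiq : i ≠ S.q := fun h => h5 (h ▸ S.al_ld _ hqal)
      have hiq1 : i ≠ S.q + 1 := fun h => h5 (h ▸ hq1ld)
      have h8 := rk_lt_P S hm h3 h4 ho hiq hiq1
      have h9 := (hrge i h3 h4).1 he
      refine ⟨hb, ho, hiq, hiq1, h8, h9.2, ?_, ?_⟩
      · rw [k2_plo S n Λ oe_odd, k2_lop S n Λ hk2, if_pos h8]
      · rw [k2_ple S n Λ ee_even, if_neg (by omega), add_zero]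
    · right
      have ho : ¬ S.bad (oe i) := fun h => hb (h7.1 h)
      have he : ¬ S.bad (ee i) := fun h => ho (h6.2 h)
      have h8 := (hrgo i h3 h4).2 ho
      have h9 := (hrge i h3 h4).2 he
      refine ⟨hb, h8.1, h9.1, ?_, ?_⟩
      · rw [k2_plo S n Λ oe_odd, k2_lop S n Λ hk2, if_neg (by omega), if_neg (by omega)]
      · rw [k2_ple S n Λ ee_even, if_pos (by omega)]
        omega
  have hlw : ∀ i, i ≤ n.n2 + Λ.j + Λ.U + S.h + 1 →
      lam Λ.y1 Λ.y2 i + (n.n2 + Λ.j + Λ.U + S.h + 1) ≤ wz S n + i := by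
    intro i hi
    refine (k2_sh hi).trans ?_
    have : lam Λ.y1 Λ.y2 (n.n2 + Λ.j + Λ.U + S.h + 1) ≤ wz S n := by
      unfold lam
      split_ifs at hw ⊢ <;> omega
    omega
  have hlm : ∀ {i j : ℕ}, i ≤ j → lam Λ.y1 Λ.y2 i ≤ lam Λ.y1 Λ.y2 j := fun h =>
    (lam_mono Λ.y1 Λ.y2).monotone h
  refine
    { U_ge := hU
      w_ge := ?_
      p_odd := ?_
      p_even := ?_
      p_inj := ?_
      X_mono := ?_
      X_lo := ?_
      X_w := ?_
      X_p := ?_
      C_lo := ?_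
      C_up := ?_
      C_inj := ?_
      C_gap := ?_
      bP := ?_
      bQ := ?_
      bh := ?_
      bupb := ?_
      bupg := ?_
      shx := ?_
      Xr := ?_ }
  · have h3 := L.w_ge
    change n.n2 + Λ.j + Λ.U + S.h + 1 ≤ wz S n.up
    omega
  · intro e h3 h4 h5
    have h6 := L.p_odd e h3 h4 h5
    rw [hpo e h5]
    have h7 := le_sk z (pl S n Λ e)
    have h8 := sk_le z (pl S n Λ e)
    change n.n2 + Λ.j < _ ∧ _
    omega
  · intro e h3
    rw [hpe e h3, k2_ple S n Λ h3, hwu]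
    omega
  · intro e f h3 h4 h5 h6 h7
    rcases Nat.mod_two_eq_zero_or_one e with he | he <;>
      rcases Nat.mod_two_eq_zero_or_one f with hf | hf
    · rw [hpe e he, hpe f hf] at h7
      exact L.p_inj e f h3 h4 h5 h6 (by omega)
    · exfalso
      rw [hpe e he, hpo f hf] at h7
      have h8 := L.p_even e h3 h4 he
      have h9 := L.p_odd f h5 h6 hf
      have h10 := sk_le z (pl S n Λ f)
      omega
    · exfalso
      rw [hpo e he, hpe f hf] at h7
      have h8 := L.p_even f h5 h6 hf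
      have h9 := L.p_odd e h3 h4 he
      have h10 := sk_le z (pl S n Λ e)
      omega
    · rw [hpo e he, hpo f hf] at h7
      exact L.p_inj e f h3 h4 h5 h6 (sk_inj h7)
  · exact (sk_mono z).comp L.X_mono
  · intro i hi
    exact (L.X_lo i hi).trans (le_sk _ _)
  · intro i hi hiU
    have h3 := L.X_w i hi hiU
    have h4 := sk_le z (Xl S n Λ i)
    rw [hXi, hwu]
    omega
  · intro i e hi hiU h3 h4 h5 h6
    rw [hXi, hpo e h5] at h6
    exact L.X_p i e hi hiU h3 h4 h5 (sk_inj h6)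
  · intro i h3 h4 h5
    have h6 := L.C_lo i h3 h4 h5
    have h7 := hb1 i
    omega
  · intro i h3 h4 h5
    have h6 := L.C_up i h3 h4 h5
    have h7 := hb2 i
    omega
  · intro i i' h3 h4 h5 h6 h7 h8 h9
    have hc : (pl S n Λ (oe i) ≤ pl S n Λ (oe i') ∧ pl S n Λ (ee i) ≤ pl S n Λ (ee i')) ∨
        (pl S n Λ (oe i') ≤ pl S n Λ (oe i) ∧ pl S n Λ (ee i') ≤ pl S n Λ (ee i)) := by
      rcases hunl i h3 h4 h5 with ⟨b1, -, -, -, r1, r2, p1, p2⟩ | ⟨b1, r1, r2, p1, p2⟩ <;>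
        rcases hunl i' h6 h7 h8 with ⟨b1', -, -, -, r1', r2', p1', p2'⟩ |
          ⟨b1', r1', r2', p1', p2'⟩ <;>
        rw [p1, p2, p1', p2']
      · rcases S.cmp i i' h3 h4 h5 h6 h7 h8 (by tauto) with ⟨c1, c2⟩ | ⟨c1, c2⟩
        · exact Or.inl ⟨hlm (by omega), by omega⟩
        · exact Or.inr ⟨hlm (by omega), by omega⟩
      · exact Or.inl ⟨hlm (by omega), by omega⟩
      · exact Or.inr ⟨hlm (by omega), by omega⟩
      · rcases S.cmp i i' h3 h4 h5 h6 h7 h8 (by tauto) with ⟨c1, c2⟩ | ⟨c1, c2⟩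
        · exact Or.inl ⟨hlm (by omega), by omega⟩
        · exact Or.inr ⟨hlm (by omega), by omega⟩
    rw [hbs, hbs] at h9
    have h10 : sk z (pl S n Λ (oe i)) = sk z (pl S n Λ (oe i')) ∧
        pl S n Λ (ee i) = pl S n Λ (ee i') := by
      rcases hc with ⟨c1, c2⟩ | ⟨c1, c2⟩
      · have c3 := (sk_mono z).monotone c1
        omega
      · have c3 := (sk_mono z).monotone c1
        omega
    apply L.C_inj i i' h3 h4 h5 h6 h7 h8
    rw [k2_bs, k2_bs, sk_inj h10.1, h10.2]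
  · intro hU1 i h3 h4 h5
    change 1 ≤ Λ.U at hU1
    rcases hunl i h3 h4 h5 with ⟨b1, b2, b3, b4, r1, r2, p1, p2⟩ | ⟨b1, r1, r2, p1, p2⟩
    · left
      have h6 := bad_lt3z S n Λ hm hk2 h1 hy2 hz h3 h4 b2 b3 b4
      rw [hbb i h3 h4 b2 b3 b4, k2_bs, p2, hwu]
      omega
    · right
      have h6 : Xl S n Λ Λ.U < pl S n Λ (oe i) := by
        rw [p1, k2_X S n Λ hk2]
        exact lam_lt (by omega)
      have h7 := sk_lt (z := z) h6
      rw [hbs, p2, hwu]
      change wz S n + 1 + n.N0 + S.Q + n.nT + 1 + sk z (Xl S n Λ Λ.U) < _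
      omega
  · intro i h3 h4
    have h5 := L.bP i h3 h4
    have h6 := hb1 i
    rw [hwu]
    change wz S n + 1 + n.N0 + n.nT + n.n2 + Λ.j + S.P ≤ _
    omega
  · intro i h3 h4
    have h5 := L.bQ i h3 h4
    have h6 := hb1 i
    rw [hwu]
    change wz S n + 1 + n.N0 + n.nT + n.n2 + Λ.j + S.Q ≤ _
    omega
  · intro i h3 h4 h5
    have h6 := L.bh i h3 h4 h5
    have h7 := hb1 i
    rw [hwu]
    change wz S n + 1 + n.N0 + n.nT + n.n2 + Λ.j + S.h + 1 ≤ _
    omega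
  · intro a ha haq hb
    have h3 := S.al_ld a ha
    have h4 := S.ld_pos a h3
    have h5 := S.ld_lt a h3
    have haq1 : a ≠ S.q + 1 := fun h => hq1al (h ▸ ha)
    have h6 := rk_lt_P S hm h4 h5 hb haq haq1
    have h7 := (S.diff' h3).1 hb
    have h8 := (hrge a h4 h5).2 h7
    have h9 := hlw (n.n2 + Λ.j + S.rk (oe a)) (by omega)
    rw [hbb a h4 h5 hb haq haq1, bs2_bg S n Λ hk2 h4 h5 hb h6 h7, hwu]
    omega
  · intro a ha haq hb
    have h3 := S.al_ld a ha
    have h4 := S.ld_pos a h3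
    have h5 := S.ld_lt a h3
    have h7 : S.bad (ee a) := by
      by_contra h7
      exact hb ((S.diff' h3).2 h7)
    have h6 := (hrgo a h4 h5).2 hb
    have h8 := (hrge a h4 h5).1 h7
    have h9 := hlw (n.n2 + Λ.j + Λ.U + S.rk (oe a) - 1) (by omega)
    have h10 := hb2 a
    rw [bs2_gb S n Λ hk2 h4 h5 hb h7] at h10
    rw [hwu]
    omega
  · intro a x ha haq hb hx hxa
    have h3 := S.al_ld a ha
    have haq1 : a ≠ S.q + 1 := fun h => hq1al (h ▸ ha)
    have h4 := L.shx a x ha haq hb hx hxa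
    have h5 := hbb a (S.ld_pos a h3) (S.ld_lt a h3) hb haq haq1
    have h6 := hb1 x
    omega
  · intro t r ht htU hr hra
    change t ≤ Λ.U at htU
    have h3 : Xl S n Λ t ≤ n.n2 + Λ.j + S.P + t + 1 := by
      rw [k2_X S n Λ hk2]
      unfold lam
      split_ifs <;> omega
    have h4 := sk_le z (Xl S n Λ t)
    have h5 := L.bP r hr (Or.inr hra)
    have h6 := hb1 r
    rw [hXi, hwu]
    omega

end Pool.Agent.Lob5
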