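import Pool.Agent.Lob5.P2K2
import Pool.Agent.Lob5.P2StrA

/-!
# Mode 3: `P2Pre` for the layers `L3`, the sums at the special vertex and at the new vertex

Cf. `HoleG3` (there `z` is above the labels `X`).
-/

namespace Pool.Agent.Lob5

variable {k : ℕ} {ld al : ℕ → Prop}

private theorem k3_aux (S : Seam k ld al) (n : Num) (Λ : Lay) (z : ℕ) (hm : S.mode = 3)
    (L : LowOK S n Λ) (M : ModOK S n Λ) (hk2 : Λ.k2 = true) (hlg : Λ.lg = false)
    (hsp : n.sp ≠ 0) (hy1 : Λ.y1 = n.n2 + Λ.j + 1) (hy : Λ.y = Λ.y1) (h12 : Λ.y1 < Λ.y2)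
    (hw : wz S n = n.n2 + Λ.j + Λ.U + S.h + 1 + 1 + (if Λ.y2 ≤ wz S n then 1 else 0))
    (hy2 : Λ.y2 ≠ wz S n) (hy2' : n.n2 + Λ.j + S.P + 1 < Λ.y2)
    (hz : n.n2 + Λ.j + S.P + 1 ≤ z) (hzw : z ≤ wz S n + 1) :
    (FLow S n (insG S n Λ z) ∧ FMod S n (insG S n Λ z) ∧ FZed S n (insG S n Λ z)) ∧
      (insG S n Λ z).bs S.q + (insG S n Λ z).y =
        mz S n + wz S n + 1 + (if z ≤ wz S n then 1 else 0) + (n.n2 + Λ.j + 1) := by
  have hP1 := S.P1
  have hPh := S.Ph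
  have hU := L.U_ge
  have hmz : mz S n = wz S n + n.N0 + n.nT + S.h := rfl
  have hwu := wz_up S n
  have hmu := mz_up S n
  obtain ⟨m1, m2, m3, m4, m5⟩ := S.m2 (Or.inr hm)
  obtain ⟨q1, q2, q3, q4⟩ := S.m3 hm
  have hq := S.al_ld _ m1
  have hq1 := S.ld_pos _ hq
  have hq2 := S.ld_lt _ hq
  have hoe : oe S.q = S.q + 1 := by
    unfold oe
    rw [if_neg (by omega)]
  have hee : ee S.q = S.q := by
    unfold ee
    rw [if_neg (by omega)]
  have hQh : S.Q + 1 ≤ S.h := by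
    have h := (S.rk_eg S.q hq1 hq2.le m3 m2).1
    omega
  have hgq : ¬ S.bad (ee S.q) := by
    rw [hee]
    exact m2
  have top : lam Λ.y1 Λ.y2 (n.n2 + Λ.j + Λ.U + S.h + 1) = wz S n := by
    unfold lam
    rw [if_pos (by omega)]
    split_ifs at hw ⊢ <;> omega
  have hplq : pl S n Λ (oe S.q) = wz S n := by
    rw [← top, hoe]
    unfold pl lop
    rw [if_pos (by omega), hk2, m5]
    simp
  have hbq : bs S n Λ S.q = mz S n + wz S n := by
    rw [bs2_Pg S n Λ hk2 hq1 hq2 (by rw [hoe]; exact m5) hgq, hee, m4, top, hmz]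
    omega
  have hyz : sk z Λ.y = Λ.y := sk_of_lt (by omega)
  have hb : ∀ a, al a → a ≠ S.q → S.bad (oe a) → pl S n Λ (oe a) < z := by
    intro a ha haq hba
    have ha' := S.al_ld _ ha
    exact (bad_lt3z S n Λ hm hk2 hy1 hy2' hz (S.ld_pos a ha') (S.ld_lt a ha') hba haq
      (by rintro rfl; exact q3 ha)).1
  obtain ⟨d1, d2, d3⟩ := dab_ins S n Λ z M.dab hb
  have hbsq := bs_ins S n Λ z S.q
  rw [hplq, hbq] at hbsq
  have hodd : ∀ e, e % 2 = 1 → (insG S n Λ z).p e = sk z (pl S n Λ e) := fun e he => if_pos he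
  refine ⟨?_, by
    rw [hbsq]
    change _ + sk z Λ.y = _
    rw [hyz, hy, hy1]⟩
  refine ⟨flow_ins3z S n Λ z hm hk2 hy1 h12 hw hU hy2' hz, ?_,
    fzed_ins S n Λ z M.U_eq (by omega) hzw⟩
  refine
    { y_ok := fun _ _ => ?_
      xs_ok := fun hx => ?_
      lg_ok := ?_
      V_lo := fun _ _ => ?_
      V_up := fun _ _ => ?_
      V_C := fun _ _ i h1 h2 h3 => ?_
      V_L := fun _ _ hU1 => ?_
      F3 := ?_
      Fx := ?_
      Dbb := d1
      Dgg := d2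
      Dgb := d3 }
  · change n.n2 + Λ.j < sk z Λ.y ∧ sk z Λ.y ≤ wz S n.up ∧
      (∀ i, 1 ≤ i → i ≤ Λ.U → sk z (Xl S n Λ i) ≠ sk z Λ.y) ∧ _
    have h4 := (M.y_ok hsp hlg).2.1
    refine ⟨by omega, by omega, fun i h1 _ h => ?_, fun e h1 h2 h3 h => ?_⟩
    · exact (L.X_y i h1).1 (by rw [← hy]; exact sk_inj h)
    · rw [hodd e h3] at h
      exact (L.p_odd e h1 h2 h3).2.2.1 (by rw [← hy]; exact sk_inj h)
  · obtain ⟨x1, x2, x3, x4, x5⟩ := M.xs_ok hx
    change n.sp = 3 ∧ n.n2 + Λ.j < sk z Λ.xs ∧ sk z Λ.xs ≤ wz S n.up ∧ sk z Λ.xs ≠ sk z Λ.y ∧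
      (∀ i, 1 ≤ i → i ≤ Λ.U → sk z (Xl S n Λ i) ≠ sk z Λ.xs) ∧ _
    have h4 := le_sk z Λ.xs
    have h5 := sk_le z Λ.xs
    refine ⟨x1, by omega, by omega, fun h => x4 (sk_inj h), fun i h1 _ h => ?_,
      fun e h1 h2 h3 h => ?_⟩
    · have h6 := L.X_y i h1
      have h7 := sk_inj h
      rcases x5 with x5 | x5
      · exact h6.1 (by rw [h7, x5])
      · exact h6.2 (by rw [h7, x5])
    · change (insG S n Λ z).p e = sk z Λ.xs at h
      rw [hodd e h3] at h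
      have h6 := L.p_odd e h1 h2 h3
      have h7 := sk_inj h
      rcases x5 with x5 | x5
      · exact h6.2.2.1 (by rw [h7, x5])
      · exact h6.2.2.2 (by rw [h7, x5])
  · intro h
    change Λ.lg = true at h
    rw [hlg] at h
    exact absurd h (by decide)
  · change wz S n.up + n.N0 < (insG S n Λ z).bs S.q + sk z Λ.y
    rw [hbsq, hyz]
    omega
  · change (insG S n Λ z).bs S.q + sk z Λ.y ≤ wz S n.up + mz S n.up + n.n2 + Λ.j + 1
    rw [hbsq, hyz]
    split_ifs <;> omega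
  · change (insG S n Λ z).bs i ≠ (insG S n Λ z).bs S.q + sk z Λ.y
    have h4 := L.C_up i h1 h2 h3
    have h5 : 1 ≤ oe i ∧ oe i ≤ k := by
      unfold oe
      split_ifs <;> omega
    have h6 := (L.p_odd (oe i) h5.1 h5.2 oe_odd).2.1
    rw [hbsq, hyz, bs_ins]
    split_ifs <;> omega
  · right
    change wz S n.up + n.N0 + S.Q + n.nT + 1 + sk z (Xl S n Λ Λ.U) <
      (insG S n Λ z).bs S.q + sk z Λ.y
    have h4 := L.X_w _ hU1 le_rfl
    have h5 : Xl S n Λ Λ.U < pl S n Λ (oe S.q) := by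
      rw [hplq, ← top]
      unfold Xl
      rw [hk2]
      exact lam_lt (by simp only [if_true]; omega)
    rw [hplq] at h5
    have h6 := sk_lt (z := z) h5
    have h7 : sk z (wz S n) = wz S n + (if z ≤ wz S n then 1 else 0) := by
      unfold sk
      split_ifs <;> rfl
    rw [hbsq, hyz]
    omega
  · intro h1 h2
    have h3 := M.F3 h1 h2
    have h4 := le_sk z (Xl S n Λ 1)
    change n.nT + S.h + n.n2 + Λ.j + 1 ≤ sk z Λ.y + sk z (Xl S n Λ 1)
    omega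
  · intro h1
    have h3 := M.Fx h1
    have h4 := le_sk z Λ.xs
    have h5 := sk_le z Λ.xs
    change n.nT + S.h + n.n2 + Λ.j + 1 ≤ sk z Λ.y + sk z Λ.xs ∧
      sk z Λ.y + sk z Λ.xs ≤ n.nT + S.h + n.n2 + Λ.j + 3
    omega

/-- the facts about `insG S n (lay3 S n j) z` -/
private theorem k3_all (S : Seam k ld al) (n : Num) (j z : ℕ) (hm : S.mode = 3)
    (hA : Adm S n j) (hz : n.n2 + j + S.P + 1 ≤ z) (hzw : z ≤ wz S n.up) :
    (FLow S n (L3 S n j z) ∧ FMod S n (L3 S n j z) ∧ FZed S n (L3 S n j z)) ∧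
      (L3 S n j z).bs S.q + (L3 S n j z).y =
        mz S n + wz S n + 1 + (if z ≤ wz S n then 1 else 0) + (n.n2 + j + 1) := by
  obtain ⟨hw, hU, hX, hc⟩ := x3_cs S n j hm hA
  have L := low_3 S n j hm hA
  have M := mod_3 S n j hm hA
  have hwu := wz_up S n
  have hP1 := S.P1
  have hPh := S.Ph
  have hn2 := hA.n2T
  have hsp := (hA.sp14 (by omega) (by omega)).1
  unfold L3
  rcases hc with ⟨c1, c2, c3, c4, c5⟩ | ⟨c1, c3, c4, c5⟩
  · rw [c5] at L M ⊢
    refine k3_aux S n _ z hm L M rfl rfl (by omega) rfl rfl ?_ ?_ ?_ ?_ ?_ ?_ <;> try dsimp only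
    · omega
    · rw [if_pos (by omega)]
      omega
    · omega
    · omega
    · omega
    · omega
  · rw [c5] at L M ⊢
    refine k3_aux S n _ z hm L M rfl rfl (by omega) rfl rfl ?_ ?_ ?_ ?_ ?_ ?_ <;> try dsimp only
    · omega
    · rw [if_neg (by omega)]
      omega
    · omega
    · omega
    · omega
    · omega

/-- the facts which do not speak about the new vertex -/
theorem pre3 (S : Seam k ld al) (n : Num) (j z : ℕ) (hm : S.mode = 3) (hA : Adm S n j)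
    (hz : n.n2 + j + S.P + 1 ≤ z) (hzw : z ≤ wz S n.up) : P2Pre S n (L3 S n j z) := by
  obtain ⟨⟨h1, h2, h3⟩, -⟩ := k3_all S n j z hm hA hz hzw
  have h4 := h3.rng
  exact
    { flow := h1
      fmod := h2
      U_eq := h3.U_eq
      z_rng := ⟨by omega, h4.2⟩
      z_p := h3.p
      z_X := h3.X
      z_y := h3.y
      z_xs := h3.xs }

/-- the sum at the special vertex -/
theorem vq3 (S : Seam k ld al) (n : Num) (j z : ℕ) (hm : S.mode = 3) (hA : Adm S n j)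
    (hz : n.n2 + j + S.P + 1 ≤ z) (hzw : z ≤ wz S n.up) :
    (L3 S n j z).bs S.q + (L3 S n j z).y = wz S n.up + n.N0 +
      (wz S n.up + n.nT + S.h + n.n2 + j + (if z = wz S n.up then 0 else 1)) := by
  obtain ⟨-, h1⟩ := k3_all S n j z hm hA hz hzw
  have hwu := wz_up S n
  have hmz : mz S n = wz S n + n.N0 + n.nT + S.h := rfl
  rw [h1]
  split_ifs <;> omega

/-- the label of the edge `1`, if it is bad -/
theorem p1b3 (S : Seam k ld al) (n : Num) (j z : ℕ) (hm : S.mode = 3) (hA : Adm S n j)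
    (hz : n.n2 + j + S.P + 1 ≤ z) (hb : S.bad 1) : 1 ≤ S.rk 1 ∧ S.rk 1 < S.P ∧
      (L3 S n j z).p 1 = n.n2 + j + S.rk 1 + 1 := by
  obtain ⟨hG, hj, hU, -⟩ := gl3_L3 S n j z hm hA
  obtain ⟨hw, -, hX, -⟩ := x3_cs S n j hm hA
  have hk := S.hk
  have hh := S.h1
  obtain ⟨m1, m2, m3, m4, m5⟩ := S.m2 (Or.inr hm)
  have hq := S.ld_pos _ (S.al_ld _ m1)
  have r1 := S.rk_ob 1 le_rfl (by omega) (by omega) hb
  have r2 : S.rk 1 ≠ S.P := by
    intro h
    have h1 := S.rk_inj 1 (S.q + 1) le_rfl (by omega) (by omega)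
      (by have := S.hq; omega) (by omega) (h.trans m5.symm)
    omega
  refine ⟨r1.1, by omega, ?_⟩
  rw [hG.pob 1 (by omega) (by omega), hj, ← b3_lo S n j (S.rk 1) r1.1 (by omega)]
  unfold s3
  rw [sk_of_lt]
  rw [b3_lo S n j (S.rk 1) r1.1 (by omega)]
  omega

/-- the label of the edge `1`, if it is good -/
theorem p1g3 (S : Seam k ld al) (n : Num) (j z : ℕ) (hm : S.mode = 3) (hA : Adm S n j)
    (hb : ¬ S.bad 1) : S.P + 1 ≤ S.rk 1 ∧ S.rk 1 ≤ S.h + 1 ∧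
      (L3 S n j z).p 1 = s3 S n j z (n.n2 + j + U3 S n j + S.rk 1 - 1) := by
  obtain ⟨hG, hj, hU, -⟩ := gl3_L3 S n j z hm hA
  have hk := S.hk
  have r1 := S.rk_og 1 le_rfl (by omega) (by omega) hb
  refine ⟨r1.1, r1.2, ?_⟩
  rw [hG.pog 1 (by omega) (by omega), hj, hU]

/-- `P2OK` from the facts about the number `v` -/
theorem qok3 (S : Seam k ld al) (n : Num) (e j z : ℕ) (hm : S.mode = 3) (hA : Adm S n j)
    (hz : n.n2 + j + S.P + 1 ≤ z) (hzw : z ≤ wz S n.up) (v : ℕ)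
    (hv : v + dZ n.sp e = wz S n.up + n.N0 + (L3 S n j z).p 1 + z)
    (h : VOKn S n (L3 S n j z) v)
    (hq : v ≠ wz S n.up + n.N0 +
      (wz S n.up + n.nT + S.h + n.n2 + j + (if z = wz S n.up then 0 else 1))) :
    P2OK S n e (L3 S n j z) false := by
  have hsp := (hA.sp14 (by omega) (by omega)).1
  have hd : dZ n.sp e ≤ 1 := by
    unfold dZ
    split_ifs <;> omega
  have hw1 := wz_up S n
  have hvk : (L3 S n j z).vk S n e = v := by
    unfold FLay.vk pkZ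
    change (L3 S n j z).p 1 + (wz S n.up + n.N0 - dZ n.sp e) + z = v
    omega
  refine p2ok_z (pre3 S n j z hm hA hz hzw) (by omega) ?_ fun _ => ?_
  · apply VOKn.vok
    rw [hvk]
    exact h
  · rw [hvk, vq3 S n j z hm hA hz hzw]
    exact fun h' => hq h'.symm

end Pool.Agent.Lob5
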