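import Pool.Agent.Lob5.P3Nm
import Pool.Agent.Lob5.LyRev

/-!
# `K = k + 1` even, one leaf (and the path edge `K`) at `K - 1`: the numbers and the roles

The seam `S` is the seam of the word read backwards: the vertex `i` of this word is the path vertex `k - i`.
So the special path vertex is `k - S.q` (it is irrelevant in the mode `0`).

`ctx_Zr`, `adm_Zr`, `nm_P2r` are `ctx_Z`, `adm_Z`, `nm_P2` (file `P3Nm`) for this situation. The proofs there use
`S` only through `S.q` (the special vertex) and `1 ≤ S.q`, `S.q < k`, `S.mode`, `S.hk`, `S.Qh`: copy them (the private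
theorems `p3nm_...` too) with a number `q0 = k - S.q` instead of `S.q` where it is a path vertex. In the mode `0`
nothing about `q0` is needed (`sp = 0`, the roles `As, Fs, FR` do not occur at `i < k`). `NmOK` does not use `kb`,
`cd`, so `Nm.rev` makes no difference (`rfl`). In `ctx_Zr` the roles are `fun i => D.rv (k - i)`; for `1 ≤ i < k` the
number `k - i` is again in this range; `ld`, `al` of the reversed word at `i` are `LDk`, `ALk` at `k - i`.
-/

namespace Pool.Agent.Lob5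

open Pool.Agent.Lob89

/-- loaded, for the word of length `k` read backwards -/
def LDr {Lf B : Type*} (la : Lf → ℕ) (ba : B → ℕ) (k i : ℕ) : Prop := LDk la ba k (k - i)

/-- marked, for the word of length `k` read backwards -/
def ALr {Lf B BL : Type*} [Fintype BL] [DecidableEq B] (la : Lf → ℕ) (ba : B → ℕ) (par : BL → B)
    (k i : ℕ) : Prop := ALk la ba par k (k - i)

variable {Lf B BL : Type*} [Fintype Lf] [Fintype B] [Fintype BL] [DecidableEq B]
  {D : PlanData Lf B BL} {k : ℕ} {la : Lf → ℕ} {ba : B → ℕ} {par : BL → B}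

omit [Fintype Lf] [Fintype B] [Fintype BL] [DecidableEq B] in
private theorem p2nm_nv (D : PlanData Lf B BL) (hk : 1 ≤ k) (ρ : RV) :
    D.nv (k + 1) ρ = D.nv k ρ + if D.rv k = ρ then 1 else 0 := by
  unfold PlanData.nv
  rw [Finset.range_add_one, Finset.filter_insert]
  by_cases h : D.rv k = ρ
  · rw [if_pos ⟨hk, h⟩, if_pos h, Finset.card_insert_of_notMem (by simp)]
  · rw [if_neg (fun h' => h h'.2), if_neg h]
    omega

private theorem p2nm_ge (hD : PlanOK D (k + 1) la ba par) (htl : D.nb .tl ≠ 0) : 1 ≤ D.ns := by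
  obtain ⟨b, hb⟩ : ∃ b, D.rb b = .tl := by
    by_contra hcon
    refine htl ?_
    rw [PlanData.nb, Finset.card_eq_zero, Finset.filter_eq_empty_iff]
    exact fun b _ hb => hcon ⟨b, hb⟩
  have h1 := hD.s_s0 b
  rw [if_pos hb] at h1
  have h2 : 0 < D.cb par b .s0 := by omega
  rw [PlanData.cb, Finset.card_pos] at h2
  obtain ⟨y, hy⟩ := h2
  rw [Finset.mem_filter] at hy
  have h3 : 0 < (Finset.univ.filter fun y => D.rs y = .s ∨ D.rs y = .s0).card := by
    rw [Finset.card_pos]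
    exact ⟨y, Finset.mem_filter.2 ⟨Finset.mem_univ _, Or.inr hy.2.2⟩⟩
  rw [PlanData.ns]
  omega

/-- the number of special vertices -/
private theorem p2nm_spec {ld al : ℕ → Prop} (hD : PlanOK D (k + 1) la ba par)
    (S : Seam k ld al) {sp q0 : ℕ} (hS : PlanSp D (k + 1) la ba par q0 S.mode sp k)
    (hq : S.mode ≠ 0 → 1 ≤ q0 ∧ q0 < k) :
    (sp = 0 ∧ D.nv k .As = 0 ∧ D.nb .tl = 0) ∨
      (sp = 1 ∧ D.nv k .As = 1 ∧ D.nb .tl = 0) ∨
      ((sp = 2 ∨ sp = 3) ∧ D.nv k .As = 0 ∧ D.nb .tl = 1) := by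
  have hAs : sp ≠ 1 → D.nv k .As = 0 := by
    intro h
    rw [PlanData.nv, Finset.card_eq_zero, Finset.filter_eq_empty_iff]
    rintro i hi ⟨h1, h2⟩
    have h3 := Finset.mem_range.1 hi
    exact h (hS.As_q i h1 (by omega) (by omega) h2).2.1
  have htl : ∀ b, D.rb b = .tl → ba b = q0 ∧ (sp = 2 ∨ sp = 3) := by
    intro b hb
    have h1 : 1 ≤ ba b ∧ ba b < k + 1 := by
      have h1 := hD.hd.ba_pos b
      have h2 := hD.hd.ba_lt b
      omega
    have h2 := hS.Fs_q (ba b) h1.1 h1.2 ((hD.b_Fs b).1 hb)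
    exact ⟨h2.1, h2.2.1⟩
  have htl0 : sp ≠ 2 → sp ≠ 3 → D.nb .tl = 0 := by
    intro h1 h2
    rw [PlanData.nb, Finset.card_eq_zero, Finset.filter_eq_empty_iff]
    intro b _ hb
    rcases (htl b hb).2 with h | h
    · exact h1 h
    · exact h2 h
  by_cases h0 : sp = 0
  · exact Or.inl ⟨h0, hAs (by omega), htl0 (by omega) (by omega)⟩
  · have hm : S.mode ≠ 0 := fun h => h0 (hS.m0 h)
    obtain ⟨hq1, hq0⟩ := hq hm
    have hq2 : q0 < k + 1 := by omega
    rcases hS.q_sp hm with h | h | h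
    · have h1 := (hS.As_q q0 hq1 hq2 (by omega) h).2.1
      refine Or.inr (Or.inl ⟨h1, ?_, htl0 (by omega) (by omega)⟩)
      rw [PlanData.nv, Finset.card_eq_one]
      refine ⟨q0, ?_⟩
      ext i
      simp only [Finset.mem_filter, Finset.mem_range, Finset.mem_singleton]
      constructor
      · rintro ⟨h2, h3, h4⟩
        exact (hS.As_q i h3 (by omega) (by omega) h4).1
      · rintro rfl
        exact ⟨hq0, hq1, h⟩
    · have h1 := (hS.Fs_q q0 hq1 hq2 h).2.1
      refine Or.inr (Or.inr ⟨h1, hAs (by omega), ?_⟩)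
      obtain ⟨b, hb⟩ := hD.Fs_ex q0 hq1 hq2 h
      rw [PlanData.nb, Finset.card_eq_one]
      refine ⟨b, ?_⟩
      ext b'
      simp only [Finset.mem_filter, Finset.mem_univ, true_and, Finset.mem_singleton]
      constructor
      · intro h2
        have h3 := (htl b' h2).1
        refine hD.one b' b (by rw [h3, hb]) (Or.inr (Or.inl ?_))
        rw [h3, h]
      · rintro rfl
        rw [hD.b_Fs, hb, h]
    · exact absurd (hS.FR_q q0 hq1 hq2 h).2.1 h0

/-- the common part of `nm_P3` and `nm_P2` -/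
private theorem p2nm_main {ld al : ℕ → Prop} (hD : PlanOK D (k + 1) la ba par)
    (S : Seam k ld al) {sp q0 : ℕ} (hS : PlanSp D (k + 1) la ba par q0 S.mode sp k)
    (hq : S.mode ≠ 0 → 1 ≤ q0 ∧ q0 < k) {ux c : ℕ} (hux : ux = (numZ D k sp).Ux + c)
    (h : (D.rv k = .II ∧ c = 1) ∨ (D.rv k = .As ∧ c = 0)) :
    NmOK D (nmZ S (numZ D k sp) (D.ns + 1) ux c) (k + 1) par := by
  have hsp := p2nm_spec hD S hS hq
  have hge := p2nm_ge hD
  have hk := S.hk
  have hk1 : 1 ≤ k := by omega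
  have hw : 2 ≤ wz S (numZ D k sp).up := by
    rw [wz_up, wz]
    omega
  have hspn : (numZ D k sp).sp = sp := rfl
  have hN0 : 1 ≤ (numZ D k sp).N0 := by
    change 1 ≤ D.ns + 1 + D.nSg (k + 1) + 2 * D.nPr
    omega
  have e_pk : (nmZ S (numZ D k sp) (D.ns + 1) ux c).pk = wz S (numZ D k sp).up +
    (numZ D k sp).N0 - (if 2 ≤ sp ∧ D.ns + 1 = 2 then 1 else 0) := rfl
  have e_s0 : (nmZ S (numZ D k sp) (D.ns + 1) ux c).s0v = wz S (numZ D k sp).up +
    (numZ D k sp).N0 - (if 2 ≤ sp ∧ D.ns + 1 = 2 then 0 else 1) := rfl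
  have e_eb : (nmZ S (numZ D k sp) (D.ns + 1) ux c).eb =
    if 2 ≤ sp ∧ D.ns + 1 = 2 then 0 else (D.ns + 1) / 2 := rfl
  have e_et : (nmZ S (numZ D k sp) (D.ns + 1) ux c).et =
    if 2 ≤ sp ∧ D.ns + 1 = 2 then 2 else (D.ns + 1 + 1) / 2 := rfl
  have e_w : (nmZ S (numZ D k sp) (D.ns + 1) ux c).w = wz S (numZ D k sp).up := rfl
  have e_N0 : (nmZ S (numZ D k sp) (D.ns + 1) ux c).N0 = (numZ D k sp).N0 := rfl
  have e_e : (nmZ S (numZ D k sp) (D.ns + 1) ux c).e = D.ns + 1 := rfl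
  have hpk : (nmZ S (numZ D k sp) (D.ns + 1) ux c).pk ≠ 0 := by
    rw [e_pk]
    split_ifs <;> omega
  have vA := p2nm_nv D hk1 .A
  have vI := p2nm_nv D hk1 .I
  have vII := p2nm_nv D hk1 .II
  have vAs := p2nm_nv D hk1 .As
  have hUx : ux = D.nb .L + D.nb .st + D.nb .self + D.nb .xo + D.nb .sp + D.nb .tl
      + D.nv (k + 1) .II + D.nv (k + 1) .I := by
    have h1 : (numZ D k sp).Ux = D.nb .L + D.nb .st + D.nb .self + D.nb .xo + D.nb .sp
      + D.nb .tl + D.nv k .II + D.nv k .I := rfl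
    rw [hux, h1, vII, vI]
    rcases h with ⟨h2, rfl⟩ | ⟨h2, rfl⟩
    · rw [h2, if_pos rfl, if_neg (by decide)]
      omega
    · rw [h2, if_neg (by decide), if_neg (by decide)]
      omega
  have hAs1 : D.nv (k + 1) .As + c = D.nv k .As + 1 := by
    rw [vAs]
    rcases h with ⟨h2, rfl⟩ | ⟨h2, rfl⟩
    · rw [h2, if_neg (by decide)]
    · rw [h2, if_pos rfl]
  refine
    { e_eq := ?_
      ebt := ?_
      et_FR := ?_
      N0_eq := ?_
      nT_eq := rfl
      n2_eq := rfl
      Ux_eq := hUx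
      tot := ?_
      c0_eq := ?_
      tl_le := ?_
      Qh := S.Qh
      om_eq := Or.inr ⟨rfl, by omega⟩
      om_pk := fun _ _ => hpk
      pk_rng := fun _ => Or.inr ?_
      s0_rng := ?_
      dl_le := Or.inl rfl
      FR1 := ?_ }
  · rw [if_neg hpk]
    rfl
  · rw [e_eb, e_et, e_e]
    split_ifs with h1
    · exact Or.inr ⟨h1.2, rfl, rfl⟩
    · exact Or.inl ⟨rfl, rfl⟩
  · intro h1 i h2 h3 h4
    have h5 := (hS.FR_q i h2 h3 h4).2.1
    rw [e_eb, e_et, if_neg (by omega), if_neg (by omega)] at h1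
    omega
  · rfl
  · have h1 := card_all hD
    have h3 : (if (numZ D k sp).sp = 0 then 0 else 1) = D.nv k .As + D.nb .tl := by
      change (if sp = 0 then 0 else 1) = _
      rcases hsp with ⟨h, h', h''⟩ | ⟨h, h', h''⟩ | ⟨h, h', h''⟩
      · simp [h, h', h'']
      · simp [h, h', h'']
      · rw [if_neg (by omega)]
        omega
    have h4 : (numZ D k sp).Ux + c = D.nb .L + D.nb .st + D.nb .self + D.nb .xo + D.nb .sp
      + D.nb .tl + D.nv (k + 1) .II + D.nv (k + 1) .I := by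
      rw [← hux, hUx]
    have h5 : (numZ D k sp).n2 = D.n2 := rfl
    have h6 : (numZ D k sp).N0 = D.ns + 1 + D.nSg (k + 1) + 2 * D.nPr := rfl
    have h7 : (numZ D k sp).nT = D.nb .L + D.nb .st + D.nb .xo + D.nb .sp := rfl
    change wz S (numZ D k sp).up + (numZ D k sp).N0 + (numZ D k sp).nT + S.h = _
    rw [wz_up, wz, h3, h5, h6, h7]
    simp only [PlanData.nSg, PlanData.nPr]
    omega
  · change c + (if 2 ≤ sp then 1 else 0) = D.nb .tl + (if k ≠ 0 ∧ D.rv k = .II then 1 else 0)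
    have h1 : (if k ≠ 0 ∧ D.rv k = .II then 1 else 0) = c := by
      rcases h with ⟨h2, rfl⟩ | ⟨h2, rfl⟩
      · exact if_pos ⟨by omega, h2⟩
      · exact if_neg (fun h3 => by rw [h2] at h3; exact absurd h3.2 (by decide))
    rw [h1]
    rcases hsp with ⟨h, h', h''⟩ | ⟨h, h', h''⟩ | ⟨h, h', h''⟩
    · rw [if_neg (by omega), h'']
      omega
    · rw [if_neg (by omega), h'']
      omega
    · rw [if_pos (by omega), h'']
      omega
  · rcases hsp with ⟨h, h', h''⟩ | ⟨h, h', h''⟩ | ⟨h, h', h''⟩ <;> omega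
  · rw [e_w, e_N0, e_pk, e_et]
    split_ifs <;> omega
  · intro htl
    have h2 := hge htl
    have h3 : 2 ≤ sp := by
      rcases hsp with ⟨h, h', h''⟩ | ⟨h, h', h''⟩ | ⟨h, h', h''⟩ <;> omega
    rw [e_w, e_N0, e_s0, e_pk, e_et, e_eb]
    split_ifs <;> omega
  · intro i i' h h' h1 h2 h3 h4
    rw [(hS.FR_q i h1 h2 h).1, (hS.FR_q i' h3 h4 h').1]

theorem ctx_Zr (hD : PlanOK D (k + 1) la ba par)
    (S : Seam k (LDr la ba k) (ALr la ba par k)) {sp : ℕ}
    (hS : PlanSp D (k + 1) la ba par (k - S.q) S.mode sp k) (hq : S.mode ≠ 0 → 1 ≤ S.q) :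
    CtxZ S (numZ D k sp) (D.ns + 1) (fun i => D.rv (k - i)) := by
  have hsp : (numZ D k sp).sp = sp := rfl
  have hqk := S.hq
  have hq' : S.mode ≠ 0 → 1 ≤ k - S.q ∧ k - S.q < k := fun h => by
    have := hq h
    omega
  have q1 : sp = 1 → 1 ≤ S.q ∧ D.rv (k - S.q) = .As := by
    intro h
    have hm : S.mode ≠ 0 := fun h0 => by have := hS.m0 h0; omega
    have h1 := hq hm
    refine ⟨h1, ?_⟩
    rcases hS.q_sp hm with h2 | h2 | h2
    · exact h2
    · have := (hS.Fs_q _ (by omega) (by omega) h2).2.1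
      omega
    · have := (hS.FR_q _ (by omega) (by omega) h2).2.1
      omega
  have q3 : 2 ≤ sp → 1 ≤ S.q ∧ D.rv (k - S.q) = .Fs := by
    intro h
    have hm : S.mode ≠ 0 := fun h0 => by have := hS.m0 h0; omega
    have h1 := hq hm
    refine ⟨h1, ?_⟩
    rcases hS.q_sp hm with h2 | h2 | h2
    · have := (hS.As_q _ (by omega) (by omega) (by omega) h2).2.1
      omega
    · exact h2
    · have := (hS.FR_q _ (by omega) (by omega) h2).2.1
      omega
  refine
    { eN := ?_, e1 := by omega, e2 := ?_, C := ?_, A := ?_, N := ?_,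
      As := ?_, Fs := ?_, FR := ?_, q1 := q1, q3 := q3 }
  · change D.ns + 1 ≤ D.ns + 1 + D.nSg (k + 1) + 2 * D.nPr
    omega
  · intro h
    rcases p2nm_spec hD S hS hq' with ⟨h1, _⟩ | ⟨h1, _⟩ | ⟨_, _, h1⟩
    · omega
    · omega
    · have := p2nm_ge hD (by omega)
      omega
  · rintro i h1 h2 h3 ⟨h4, _⟩
    exact (hS.ld_iff (k - i) (by omega) (by omega) (by omega)).1 h4 h3
  · intro i h1 h2 h3
    change (D.rv (k - i)).isA = true at h3
    have h4 : D.rv (k - i) = .A ∨ D.rv (k - i) = .F := by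
      cases hr : D.rv (k - i) <;> simp_all [RV.isA]
    have h6 : AL la ba par (k - i) :=
      (hS.al_iff (k - i) (by omega) (by omega) (by omega)).2 (by tauto)
    have h8 : ALr la ba par k i := ⟨h6, by omega⟩
    refine ⟨h8, ?_⟩
    rintro rfl
    by_cases hm : S.mode = 0
    · rcases S.m0 hm with h7 | h7
      · omega
      · exact h7.2.1 h8
    · rcases hS.q_sp hm with h7 | h7 | h7 <;> rw [h7] at h3 <;>
        exact absurd h3 (by simp [RV.isA])
  · intro i h1 h2 h3
    change (D.rv (k - i)).isN = true at h3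
    refine ⟨⟨(hS.ld_iff (k - i) (by omega) (by omega) (by omega)).2 ?_, by omega⟩,
      fun h => ?_⟩
    · intro h
      rw [h] at h3
      exact absurd h3 (by simp [RV.isN, RV.isS])
    · rcases (hS.al_iff (k - i) (by omega) (by omega) (by omega)).1 h.1 with h | h | h | h | h <;>
        rw [h] at h3 <;> exact absurd h3 (by simp [RV.isN, RV.isS])
  · intro i h1 h2 h3
    obtain ⟨h4, h6, _⟩ := hS.As_q (k - i) (by omega) (by omega) (by omega) h3
    exact ⟨by omega, h6⟩
  · intro i h1 h2 h3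
    obtain ⟨h4, h6, _⟩ := hS.Fs_q (k - i) (by omega) (by omega) h3
    exact ⟨by omega, h6⟩
  · intro i h1 h2 h3
    obtain ⟨h4, h6, h7⟩ := hS.FR_q (k - i) (by omega) (by omega) h3
    exact ⟨by omega, h6, h7⟩

theorem adm_Zr {ld al : ℕ → Prop} (hD : PlanOK D (k + 1) la ba par) (S : Seam k ld al) {sp : ℕ}
    (hS : PlanSp D (k + 1) la ba par (k - S.q) S.mode sp k) (hq : S.mode ≠ 0 → 1 ≤ S.q) {j : ℕ}
    (hj : (numZ D k sp).nT + j + (if 2 ≤ sp then 1 else 0) ≤ (numZ D k sp).Ux) :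
    Adm S (numZ D k sp) j := by
  have hq0 := S.hq
  refine ⟨?_, hj, hS.m0, ?_, ?_⟩
  · have h := n2_le hD
    simp only [numZ, numOf]
    omega
  · intro h1 h2
    have hm : S.mode ≠ 0 := by omega
    have hq1 := hq hm
    simp only [numZ, numOf]
    rcases hS.q_sp hm with h | h | h
    · have h3 := (hS.As_q (k - S.q) (by omega) (by omega) (by omega) h).2.1
      omega
    · have h3 := (hS.Fs_q (k - S.q) (by omega) (by omega) h).2.1
      omega
    · have h3 := (hS.FR_q (k - S.q) (by omega) (by omega) h).2.2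
      omega
  · intro h1
    have hm : S.mode ≠ 0 := by omega
    have hq1 := hq hm
    simp only [numZ, numOf]
    rcases hS.q_sp hm with h | h | h
    · have h3 := (hS.As_q (k - S.q) (by omega) (by omega) (by omega) h).2.1
      omega
    · have h3 := (hS.Fs_q (k - S.q) (by omega) (by omega) h).2.2.2
      omega
    · have h3 := (hS.FR_q (k - S.q) (by omega) (by omega) h).2.1
      omega

theorem nm_P2r {ld al : ℕ → Prop} (hD : PlanOK D (k + 1) la ba par) (S : Seam k ld al) {sp : ℕ}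
    (hS : PlanSp D (k + 1) la ba par (k - S.q) S.mode sp k) (hq : S.mode ≠ 0 → 1 ≤ S.q)
    (hom : D.rv k = .As) :
    NmOK D ((nmZ S (numZ D k sp) (D.ns + 1) (numZ D k sp).Ux 0).rev k) (k + 1) par := by
  have hq0 := S.hq
  have h := p2nm_main hD S hS (fun h => by
    have := hq h
    omega) (ux := (numZ D k sp).Ux) (c := 0) rfl (Or.inr ⟨hom, rfl⟩)
  exact
    { e_eq := h.e_eq
      ebt := h.ebt
      et_FR := h.et_FR
      N0_eq := h.N0_eq
      nT_eq := h.nT_eq
      n2_eq := h.n2_eq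
      Ux_eq := h.Ux_eq
      tot := h.tot
      c0_eq := h.c0_eq
      tl_le := h.tl_le
      Qh := h.Qh
      om_eq := h.om_eq
      om_pk := h.om_pk
      pk_rng := h.pk_rng
      s0_rng := h.s0_rng
      dl_le := Or.inl rfl
      FR1 := h.FR1 }

end Pool.Agent.Lob5
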