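import Pool.Agent.Lob5.P3Ly
import Pool.Agent.Lob5.P2Nm

/-!
# `K = k + 1` even, exactly one leaf (and the path edge `K`) at the vertex `k = K - 1`: the layers

The vertex `k` has the role `As`. `S` is the seam of the word read backwards, so `f = Λ.p 1` is the label of the
path edge `k`. `pkZ`: the label of the path edge `k + 1`. `P2OK S n e Λ l`: the layer `Λ` is good; if `l = false` then the leaf
at the vertex `k` gets the label `Λ.z`; if `l = true` then the vertex `k` belongs to the greedy group. `ly2`: the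
layer for the frame.

Proof of `ly2_gen` (cf. `ly3_gen`, `ext3` in `P3Ly`). `ly_A` for the roles `fun i => rv (k - i)` with
`pK = pkZ S n e`, `xk = false`, `lk = l`, `ux = n.Ux`, `c = 0` if `l = false`, and `ux = n.Ux + 1`, `c = 1` if `l = true` (`h.U_eq`,
`h.L_lg`). Then `ly_rev` (`RevLy` between `lyZ S n Λ (pkZ S n e) false l 0 0` and
`{ ly2 S n e Λ l with nlg := .. }`; `yv, xv, xf, lg` do not depend on `i < k`; `p`: `e ≤ k`). Then `ly_B` with `a = 0`,
`b = (if l then 1 else 0)`. `ExtV`: role `As`. `p_rng`: last alternative (`pk ≠ 0`). `C_..` and `xx_..`, `oW..` are void (`rv k = As`).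
If `l = false`: `Y.ys rv k` holds, `yv k = Λ.z`, `bs k = Λ.p 1 + pkZ` (`p k = Λ.p (k + 1 - k)`); `y_rng, y_X, y_pk, y_inj, x_y` from
`z_rng, z_X, z_p, z_y, z_xs` (`ysq`, `xsq` as in `ext3`; the even edges are `> w`); `V_be`: `f, z ≥ 1`, `dZ ≤ 1`; `V_thr, V_C, V_V,
V_gap` (`V_inj` is `V_V`; `C_..` use `H.C`, `bs i = Λ.bs (k - i)`). If `l = true`: `¬ Y.ys rv k`; `lg_rng`: `L_rng`; `nlg`: `L_lg`.
-/

namespace Pool.Agent.Lob5

open Pool.Agent.Lob89

section

variable {k : ℕ} {ld al : ℕ → Prop}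

/-- the label of the path edge `k + 1` -/
def pkZ (S : Seam k ld al) (n : Num) (e : ℕ) : ℕ := wz S n.up + n.N0 - dZ n.sp e

/-- the sum at the vertex `k` -/
def FLay.vk (Λ : FLay) (S : Seam k ld al) (n : Num) (e : ℕ) : ℕ := Λ.p 1 + pkZ S n e + Λ.z

/-- the facts about a layer -/
structure P2OK (S : Seam k ld al) (n : Num) (e : ℕ) (Λ : FLay) (l : Bool) : Prop where
  flow : FLow S n Λ
  fmod : FMod S n Λ
  ffr : n.sp = 0 → S.mode = 5 → FFR S n Λ
  U_eq : Λ.U + Λ.j + (if Λ.xsf then 1 else 0) = n.Ux + (if Λ.lg then 1 else 0) +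
    (if l then 1 else 0)
  -- the label `z`
  z_rng : l = false → n.n2 + Λ.j < Λ.z ∧ Λ.z ≤ wz S n.up
  z_p : l = false → ∀ f, 1 ≤ f → f ≤ k → f % 2 = 1 → Λ.p f ≠ Λ.z
  z_X : l = false → ∀ i, 1 ≤ i → i ≤ Λ.U → Λ.X i ≠ Λ.z
  z_y : l = false → n.sp ≠ 0 → Λ.lg = false → Λ.y ≠ Λ.z
  z_xs : l = false → Λ.xsf = true → Λ.xs ≠ Λ.z
  -- the sum
  V_thr : l = false → Λ.vk S n e ≤ wz S n.up + mz S n.up + n.n2 + Λ.j + 1
  V_C : l = false → ∀ i, 1 ≤ i → i < k → ¬ ld i → Λ.bs i ≠ Λ.vk S n e
  V_V : l = false → n.sp ≠ 0 → Λ.lg = false → Λ.bs S.q + Λ.y ≠ Λ.vk S n e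
  V_gap : l = false → 1 ≤ Λ.U → Λ.vk S n e < wz S n.up + n.N0 + S.Q + 1 + Λ.X 1 ∨
    wz S n.up + n.N0 + S.Q + n.nT + 1 + Λ.X Λ.U < Λ.vk S n e
  -- the greedy group
  L_lg : l = true → Λ.lg = false
  L_rng : l = true → wz S n.up + n.N0 + S.Q + 1 ≤ Λ.p 1 + pkZ S n e ∧
    Λ.p 1 + pkZ S n e ≤ wz S n.up + n.N0 + S.Q + n.nT + 1

/-- the numbers -/
def nm2 (S : Seam k ld al) (n : Num) (e : ℕ) : Nm := (nmZ S n e n.Ux 0).rev k

/-- the layer for the frame -/
def ly2 (S : Seam k ld al) (n : Num) (e : ℕ) (Λ : FLay) (l : Bool) : Ly :=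
  { lyZ S n Λ (pkZ S n e) false l 0 (if l then 1 else 0) with
    p := fun f => if f = k + 1 then pkZ S n e else Λ.p (k + 1 - f) }

private theorem p2ly_dz (sp e : ℕ) : dZ sp e ≤ 1 := by
  unfold dZ
  split_ifs <;> omega

/-- the new vertex and the new edge -/
private theorem p2ly_ext (S : Seam k ld al) (n : Num) {e ux c : ℕ} {rv : ℕ → RV}
    (H : CtxZ S n e (fun i => rv (k - i))) (hom : rv k = .As) {Λ : FLay} {l : Bool}
    (h : P2OK S n e Λ l) (N : Nm) (hN : N = (nmZ S n e ux c).rev k) (Y : Ly)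
    (hY : Y = { lyZ S n Λ (pkZ S n e) false l 0 0 with
      p := fun f => if f = k + 1 then pkZ S n e else Λ.p (k + 1 - f) }) :
    ExtV N Y rv k 0 (if l then 1 else 0) := by
  have hL := h.flow
  have hM := h.fmod
  have He1 := H.e1
  have HeN := H.eN
  have hk := S.hk
  have hh := S.h1
  have hwU := hL.w_ge
  have hdz := p2ly_dz n.sp e
  have e_Q : N.Q = S.Q := by rw [hN]; rfl
  have e_w : N.w = wz S n.up := by rw [hN]; rfl
  have e_N0 : N.N0 = n.N0 := by rw [hN]; rfl
  have e_n2 : N.n2 = n.n2 := by rw [hN]; rfl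
  have e_s1 : N.s1 = 0 := by rw [hN]; rfl
  have e_pk : N.pk = pkZ S n e := by rw [hN]; rfl
  have e_g1 : N.g1 = wz S n.up + n.N0 + S.Q + n.nT + 1 := by rw [hN]; rfl
  have f_j : Y.j = Λ.j := by rw [hY]; rfl
  have f_U : Y.U = Λ.U := by rw [hY]; rfl
  have f_be : Y.be = wz S n.up + n.N0 := by rw [hY]; rfl
  have f_thr : Y.thr = wz S n.up + mz S n.up + n.n2 + Λ.j + 1 := by rw [hY]; rfl
  have f_nlg : Y.nlg = (if Λ.lg then 1 else 0) := by rw [hY]; rfl
  have f_yv : ∀ i, i < k → Y.yv i = Λ.y := by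
    intro i hi
    rw [hY]
    exact if_neg (by omega)
  have f_yvk : Y.yv k = Λ.z := by
    rw [hY]
    exact if_pos rfl
  have f_xv : ∀ i, i < k → Y.xv i = Λ.xs := by
    intro i hi
    rw [hY]
    exact if_neg (by omega)
  have f_xf : ∀ i, i < k → Y.xf i = Λ.xsf := by
    intro i hi
    rw [hY]
    exact if_neg (by omega)
  have f_xfk : Y.xf k = false := by
    rw [hY]
    exact if_pos rfl
  have f_lg : ∀ i, i < k → Y.lg i = Λ.lg := by
    intro i hi
    rw [hY]
    exact if_neg (by omega)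
  have f_lgk : Y.lg k = l := by
    rw [hY]
    exact if_pos rfl
  have f_p : ∀ f, f ≤ k → Y.p f = Λ.p (k + 1 - f) := by
    intro f hf
    rw [hY]
    exact if_neg (by omega)
  have f_pk : Y.p (k + 1) = pkZ S n e := by
    rw [hY]
    exact if_pos rfl
  have f_X : ∀ i, 1 ≤ i → Y.X i = Λ.X i := by
    intro i hi
    rw [hY]
    exact if_neg (by omega)
  have f_bs : ∀ i, 1 ≤ i → i < k → Y.bs i = Λ.bs (k - i) := by
    intro i h1 h2
    unfold Ly.bs FLay.bs
    rw [f_p i (by omega), f_p (i + 1) (by omega), show k + 1 - i = k - i + 1 by omega,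
      show k + 1 - (i + 1) = k - i by omega, Nat.add_comm]
  have f_bsk : Y.bs k = Λ.p 1 + pkZ S n e := by
    unfold Ly.bs
    rw [f_p k le_rfl, f_pk, show k + 1 - k = 1 by omega]
  have hpk : pkZ S n e = wz S n.up + n.N0 - dZ n.sp e := rfl
  have hpw : wz S n.up ≤ pkZ S n e ∧ pkZ S n e ≤ wz S n.up + n.N0 := by
    rw [hpk]
    omega
  have hpw2 : wz S n.up + n.N0 ≤ pkZ S n e + 1 := by
    rw [hpk]
    omega
  have hpw3 : wz S n.up < pkZ S n e := by
    rw [hpk]
    unfold dZ
    split_ifs with h1 <;> omega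
  have pev : ∀ f, 1 ≤ f → f ≤ k → f % 2 = 0 → wz S n.up + n.N0 < Λ.p f := by
    intro f h1 h2 h3
    have h4 := hL.p_even f h3
    by_cases h5 : S.bad f
    · have := S.rk_eb f h1 h2 h3 h5
      omega
    · have := S.rk_eg f h1 h2 h3 h5
      omega
  have pod : ∀ f, 1 ≤ f → f ≤ k → f % 2 = 1 → Λ.p f ≤ wz S n.up := fun f h1 h2 h3 =>
    (hL.p_odd f h1 h2 h3).2
  have ysk : Y.ys rv k → l = false := by
    rintro (⟨_, h1⟩ | h1)
    · rw [f_lgk] at h1
      exact h1
    · rw [hom] at h1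
      exact absurd h1 (by simp)
  have ysq : ∀ i, 1 ≤ i → i < k → Y.ys rv i → k - i = S.q ∧ n.sp ≠ 0 ∧ Λ.lg = false := by
    intro i h1 h2 h3
    have h0 : k - (k - i) = i := by omega
    rcases h3 with ⟨h3, h4⟩ | h3
    · rw [f_lg i h2] at h4
      have := H.As (k - i) (by omega) (by omega) (by
        rw [h0]
        exact h3)
      exact ⟨this.1, by omega, h4⟩
    · have h4 := H.Fs (k - i) (by omega) (by omega) (by
        rw [h0]
        exact h3)
      refine ⟨h4.1, by omega, ?_⟩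
      cases h5 : Λ.lg with
      | false => rfl
      | true =>
        have := (hM.lg_ok h5).1
        omega
  have xsq : ∀ i, i < k → Y.xs N rv i → Λ.xsf = true := by
    intro i h2 h3
    rw [← f_xf i h2]
    exact h3.1
  have nxs : ¬ Y.xs N rv k := by
    intro h1
    have h2 := h1.1
    rw [f_xfk] at h2
    exact absurd h2 (by simp)
  refine
    { role := Or.inr (Or.inl hom)
      ha := Or.inr ⟨rfl, fun h1 => absurd h1.1 (by rw [hom]; simp)⟩
      hb := ?_, nlg := ?_, p_rng := ?_, p_inj := ?_, p_last := ?_, X_p := ?_,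
      y_p := ?_, x_p := ?_
      C_inj := fun h => absurd h (by rw [hom]; simp)
      C_be := fun h => absurd h (by rw [hom]; simp)
      C_gap := fun h => absurd h (by rw [hom]; simp)
      C_thr := fun h => absurd h (by rw [hom]; simp)
      C_V := fun h => absurd h (by rw [hom]; simp)
      y_rng := ?_, y_X := ?_, y_pk := ?_, y_inj := ?_, x_y := ?_
      V_be := ?_, V_thr := ?_, V_C := ?_, V_inj := ?_, V_gap := ?_, lg_rng := ?_
      xx_rng := fun h => absurd h nxs
      xx_X := fun h => absurd h nxs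
      xx_p := fun h => absurd h nxs
      xx_inj := fun h => absurd h nxs
      xx_y := fun h => absurd h nxs
      oW1 := fun h => absurd h (by rw [f_xfk]; simp)
      oW2 := fun h => absurd h (by rw [f_xfk]; simp) }
  · -- hb
    cases l with
    | true => exact Or.inl ⟨rfl, hom, f_lgk⟩
    | false =>
      refine Or.inr ⟨rfl, fun h1 => ?_⟩
      rw [f_lgk] at h1
      exact absurd h1.2 (by simp)
  · -- nlg
    rw [f_nlg]
    cases l with
    | true =>
      rw [h.L_lg rfl]
      simp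
    | false =>
      cases Λ.lg <;> simp
  · -- p_rng
    refine Or.inr (Or.inr (Or.inr (Or.inr ⟨?_, ?_⟩)))
    · rw [f_pk, e_pk]
    · rw [e_pk]
      omega
  · -- p_inj
    intro f h1 h2 h3
    rw [f_p f h2, f_pk] at h3
    rcases Nat.mod_two_eq_zero_or_one (k + 1 - f) with h4 | h4
    · have := pev (k + 1 - f) (by omega) (by omega) h4
      omega
    · have := pod (k + 1 - f) (by omega) (by omega) h4
      omega
  · -- p_last
    omega
  · -- X_p
    intro i h1 h2
    have := hL.X_w i h1 (by omega)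
    rw [f_X i h1]
    omega
  · -- y_p
    intro i h1 h2 h3
    rcases Nat.lt_or_ge i k with h4 | h4
    · obtain ⟨-, h5, h6⟩ := ysq i h1 h4 h3
      have := (hM.y_ok h5 h6).2.1
      rw [f_yv i h4]
      omega
    · obtain rfl : i = k := by omega
      have := (h.z_rng (ysk h3)).2
      rw [f_yvk]
      omega
  · -- x_p
    intro i h1 h2 h3
    rcases Nat.lt_or_ge i k with h4 | h4
    · have := (hM.xs_ok (xsq i h4 h3)).2.2.1
      rw [f_xv i h4]
      omega
    · obtain rfl : i = k := by omega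
      exact absurd h3 nxs
  · -- y_rng
    intro h1
    have := h.z_rng (ysk h1)
    rw [f_yvk]
    omega
  · -- y_X
    intro h1 i h2 h3
    rw [f_yvk, f_X i h2]
    exact fun h' => h.z_X (ysk h1) i h2 (by omega) h'.symm
  · -- y_pk
    intro h1 f h2 h3
    rw [f_yvk, f_p f h3]
    rcases Nat.mod_two_eq_zero_or_one (k + 1 - f) with h4 | h4
    · have := pev (k + 1 - f) (by omega) (by omega) h4
      have := h.z_rng (ysk h1)
      omega
    · exact fun h' => h.z_p (ysk h1) (k + 1 - f) (by omega) (by omega) h4 h'.symm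
  · -- y_inj
    intro h1 i h2 h3 h4
    obtain ⟨-, h5, h6⟩ := ysq i h2 h3 h4
    rw [f_yvk, f_yv i h3]
    exact h.z_y (ysk h1) h5 h6
  · -- x_y
    intro h1 i h2 h3 h4
    rw [f_yvk, f_xv i h3]
    exact h.z_xs (ysk h1) (xsq i h3 h4)
  · -- V_be
    intro h1
    have h2 := (h.z_rng (ysk h1)).1
    have h3 := (hL.p_odd 1 le_rfl (by omega) (by omega)).1
    rw [f_bsk, f_yvk]
    omega
  · -- V_thr
    intro h1
    have h2 := h.V_thr (ysk h1)
    unfold FLay.vk at h2
    rw [f_bsk, f_yvk, f_thr]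
    exact h2
  · -- V_C
    intro h1 i h2 h3 h4
    have h0 : k - (k - i) = i := by omega
    have h5 := H.C (k - i) (by omega) (by omega) (by
      rw [h0]
      exact h4)
    have h6 := h.V_C (ysk h1) (k - i) (by omega) (by omega) h5
    unfold FLay.vk at h6
    rw [f_bsk, f_yvk, f_bs i h2 h3]
    exact fun h' => h6 h'.symm
  · -- V_inj
    intro h1 i h2 h3 h4
    obtain ⟨h7, h5, h6⟩ := ysq i h2 h3 h4
    have h8 := h.V_V (ysk h1) h5 h6
    unfold FLay.vk at h8
    rw [f_bsk, f_yvk, f_bs i h2 h3, f_yv i h3, h7]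
    exact h8
  · -- V_gap
    intro h1 h2
    have h3 := h.V_gap (ysk h1) (by omega)
    unfold FLay.vk at h3
    rw [f_bsk, f_yvk, e_w, e_N0, e_Q, e_g1, f_U, f_X 1 le_rfl, f_X Λ.U (by omega)]
    exact h3
  · -- lg_rng
    intro _ h1
    rw [f_lgk] at h1
    have h2 := h.L_rng h1
    rw [f_bsk, e_w, e_N0, e_Q, e_g1]
    exact h2

theorem ly2_gen (S : Seam k ld al) (n : Num) {e : ℕ} {rv : ℕ → RV}
    (H : CtxZ S n e (fun i => rv (k - i))) (hom : rv k = .As) {Λ : FLay} {l : Bool}
    (hA : Adm S n Λ.j) (h : P2OK S n e Λ l) :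
    LyOK (nm2 S n e) (ly2 S n e Λ l) rv (k + 1) := by
  have hk := S.hk
  have hh := S.h1
  have h1 := ly_A S n (ux := n.Ux + (if l then 1 else 0)) (c := if l then 1 else 0) H hA Λ rfl
    h.flow h.fmod h.ffr (by have := h.U_eq; omega) (by omega) (pkZ S n e) false l
  have h2 := ly_rev (k := k) (by omega) (Y' := { lyZ S n Λ (pkZ S n e) false l 0 0 with
      p := fun f => if f = k + 1 then pkZ S n e else Λ.p (k + 1 - f) }) rfl h1
    { j := rfl, U := rfl, thr := rfl, be := rfl, nxf := rfl, nlg := rfl, X := rfl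
      p := fun f h3 h4 => by
        change (if f = k + 1 then _ else _) = if k + 1 - f = k + 1 then _ else _
        rw [if_neg (by omega), if_neg (by omega)]
      yv := fun i h3 h4 => by
        change (if i = k then _ else _) = if k - i = k then _ else _
        rw [if_neg (by omega), if_neg (by omega)]
      xv := fun i h3 h4 => by
        change (if i = k then _ else _) = if k - i = k then _ else _
        rw [if_neg (by omega), if_neg (by omega)]
      xf := fun i h3 h4 => by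
        change (if i = k then _ else _) = if k - i = k then _ else _
        rw [if_neg (by omega), if_neg (by omega)]
      lg := fun i h3 h4 => by
        change (if i = k then _ else _) = if k - i = k then _ else _
        rw [if_neg (by omega), if_neg (by omega)] }
  have hE := p2ly_ext (ux := n.Ux + (if l then 1 else 0)) (c := if l then 1 else 0) S n H hom h
    _ rfl _ rfl
  exact ly_B h2 (by omega) rfl H.e1 hE n.Ux (0 + if 2 ≤ n.sp then 1 else 0)
    (by
      have h3 := h.U_eq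
      change Λ.U + Λ.j + ((if Λ.xsf then 1 else 0) + 0) + 0 =
        n.Ux + ((if Λ.lg then 1 else 0) + 0) + (if l then 1 else 0)
      omega)
    (by
      change 0 + (if 2 ≤ n.sp then 1 else 0) + (n.Ux + (if l then 1 else 0)) ≤
        (if l then 1 else 0) + (if 2 ≤ n.sp then 1 else 0) + n.Ux
      omega)

end

end Pool.Agent.Lob5
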