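import Pool.Agent.Lob5.P2Str

/-!
# The numbers of the layer with the reserved labels `y`, `z` (and `xs`)

`YNum S n j y z x U`: `x` is the label `xs` or `w + 2` (if there is none), `U` the number of labels `X`.
`char`: `σ = sigY S n j y z` enumerates the complement of `{y, z, x}`, so
`σ r = r + [y < σ r] + [z < σ r] + [x < σ r]`.
-/

namespace Pool.Agent.Lob5

variable {k : ℕ} {ld al : ℕ → Prop}

/-- the numbers of the layer `layY S n j y z` -/
structure YNum (S : Seam k ld al) (n : Num) (j y z x U : ℕ) : Prop where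
  U_eq : (layY S n j y z).U = U
  cs : ((layY S n j y z).xsf = false ∧ x = wz S n.up + 2 ∧ U + j = n.Ux ∧
      (n.sp = 3 → n.nT + S.h + n.n2 + j + 1 ≤
        y + (n.n2 + j + S.P + 1 + (if y ≤ n.n2 + j + S.P + 1 then 1 else 0)))) ∨
    ((layY S n j y z).xsf = true ∧ x = (layY S n j y z).xs ∧ U + j + 1 = n.Ux ∧ n.sp = 3 ∧
      y + (n.n2 + j + S.P + 1 + (if y ≤ n.n2 + j + S.P + 1 then 1 else 0)) <
        n.nT + S.h + n.n2 + j + 1 ∧ x ≠ y ∧ x ≠ z ∧
      ∃ y0 x0, (z < y ∧ y0 + 1 = y ∨ y < z ∧ y0 = y) ∧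
        (x0 + y = n.nT + S.h + n.n2 + j + 1 ∧ x0 ≠ y0 ∨
          x0 + y = n.nT + S.h + n.n2 + j + 2 ∧ y0 + y = n.nT + S.h + n.n2 + j + 1) ∧
        (x0 < z ∧ x = x0 ∨ z ≤ x0 ∧ x = x0 + 1))
  char : ∀ r, sigY S n j y z r =
      r + (if y < sigY S n j y z r then 1 else 0) + (if z < sigY S n j y z r then 1 else 0) +
        (if x < sigY S n j y z r then 1 else 0) ∧
      sigY S n j y z r ≠ y ∧ sigY S n j y z r ≠ z ∧ sigY S n j y z r ≠ x

theorem lam_chr (y1 y2 r : ℕ) (h : y1 < y2) :
    lam y1 y2 r = r + (if y1 < lam y1 y2 r then 1 else 0) + (if y2 < lam y1 y2 r then 1 else 0) ∧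
      lam y1 y2 r ≠ y1 ∧ lam y1 y2 r ≠ y2 := by
  unfold lam
  split_ifs <;> omega

private theorem sk_char (z s : ℕ) : sk z s = s + (if z < sk z s then 1 else 0) := by
  unfold sk
  split_ifs <;> omega

private theorem skl_char (y1 y2 z r : ℕ) (h : y1 < y2) :
    sk z (lam y1 y2 r) = r + (if sk z y1 < sk z (lam y1 y2 r) then 1 else 0) +
        (if z < sk z (lam y1 y2 r) then 1 else 0) +
        (if sk z y2 < sk z (lam y1 y2 r) then 1 else 0) ∧
      sk z (lam y1 y2 r) ≠ sk z y1 ∧ sk z (lam y1 y2 r) ≠ z ∧ sk z (lam y1 y2 r) ≠ sk z y2 := by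
  obtain ⟨h1, h2, h3⟩ := lam_chr y1 y2 r h
  have h4 := sk_char z (lam y1 y2 r)
  have h5 : (if sk z y1 < sk z (lam y1 y2 r) then 1 else 0) =
      (if y1 < lam y1 y2 r then 1 else 0) := if_congr (sk_mono z).lt_iff_lt rfl rfl
  have h6 : (if sk z y2 < sk z (lam y1 y2 r) then 1 else 0) =
      (if y2 < lam y1 y2 r then 1 else 0) := if_congr (sk_mono z).lt_iff_lt rfl rfl
  refine ⟨?_, fun h5 => h2 (sk_inj h5), sk_ne _ _, fun h5 => h3 (sk_inj h5)⟩
  rw [h5, h6]
  omega

theorem exists_ynum (S : Seam k ld al) (n : Num) (j y z : ℕ) (hs : n.sp ≠ 0) (hA : Adm S n j)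
    (h : YZ S n j y z) : ∃ x U, YNum S n j y z x U := by
  have hw : wz S n = n.n2 + n.Ux + S.h + 2 := by
    unfold wz
    rw [if_neg hs]
  have hwu := wz_up S n
  have hjU := hA.jU
  have h1 := h.ya
  have h2 := h.yw
  have h3 := h.za
  have h4 := h.zw
  have h5 := h.yz
  by_cases hc : n.sp = 3 ∧ y + (n.n2 + j + S.P + 1 +
      (if y ≤ n.n2 + j + S.P + 1 then 1 else 0)) < n.nT + S.h + n.n2 + j + 1
  · rw [if_pos (by omega)] at hjU
    have hp : preY S n j y z = layD n j (if z < y then y - 1 else y)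
      (if n.nT + S.h + n.n2 + j + 1 - y = (if z < y then y - 1 else y) then
        n.nT + S.h + n.n2 + j + 2 - y else n.nT + S.h + n.n2 + j + 1 - y) := by
      unfold preY
      rw [if_pos hc]
    set y0 := if z < y then y - 1 else y with hy0
    set x0 := if n.nT + S.h + n.n2 + j + 1 - y = y0 then
        n.nT + S.h + n.n2 + j + 2 - y else n.nT + S.h + n.n2 + j + 1 - y with hx0
    have hyy : sk z y0 = y := by
      unfold sk
      split_ifs at hy0 ⊢ <;> omega
    have hxy : x0 ≠ y0 := by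
      split_ifs at hx0 <;> omega
    have hlay : layY S n j y z = insG S n (layD n j y0 x0) z := by
      unfold layY
      rw [hp]
    have hsig : ∀ r, sigY S n j y z r = sk z (lam (min y0 x0) (max y0 x0) r) := by
      intro r
      unfold sigY
      rw [hp]
      rfl
    refine ⟨sk z x0, n.Ux - 1 - j, ?_, Or.inr ⟨?_, ?_, by omega, hc.1, hc.2, ?_⟩, ?_⟩
    · rw [hlay]
      rfl
    · rw [hlay]
      rfl
    · rw [hlay]
      rfl
    · have h7 : sk z x0 ≠ y := fun h7 => hxy (sk_inj (h7.trans hyy.symm))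
      have h8 := sk_ne z x0
      have hc2 := hc.2
      refine ⟨h7, h8, y0, x0, ?_, ?_, ?_⟩
      · split_ifs at hy0 <;> omega
      · split_ifs at hx0 hc2 <;> omega
      · unfold sk
        split_ifs <;> omega
    · intro r
      rw [hsig]
      rcases Nat.lt_or_ge y0 x0 with h6 | h6
      · rw [min_eq_left h6.le, max_eq_right h6.le]
        have h7 := skl_char y0 x0 z r h6
        rw [hyy] at h7
        exact h7
      · have h6' : x0 < y0 := by omega
        rw [min_eq_right h6, max_eq_left h6]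
        have h7 := skl_char x0 y0 z r h6'
        rw [hyy] at h7
        exact ⟨by omega, h7.2.2.2, h7.2.2.1, h7.2.1⟩
  · have hp : preY S n j y z = layS S n j (if z < y then y - 1 else y) := by
      unfold preY
      rw [if_neg hc]
    set y0 := if z < y then y - 1 else y with hy0
    have hyy : sk z y0 = y := by
      unfold sk
      split_ifs at hy0 ⊢ <;> omega
    have hlay : layY S n j y z = insG S n (layS S n j y0) z := by
      unfold layY
      rw [hp]
    have hsig : ∀ r, sigY S n j y z r = sk z (lam y0 (wz S n + 2) r) := by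
      intro r
      unfold sigY
      rw [hp]
      rfl
    refine ⟨wz S n.up + 2, n.Ux - j, ?_, Or.inl ⟨?_, rfl, ?_, ?_⟩, ?_⟩
    · rw [hlay]
      rfl
    · rw [hlay]
      rfl
    · split_ifs at hjU <;> omega
    · intro h6
      by_contra h7
      exact hc ⟨h6, by omega⟩
    · intro r
      rw [hsig]
      have h6 : y0 < wz S n + 2 := by
        split_ifs at hy0 <;> omega
      have h7 := skl_char y0 (wz S n + 2) z r h6
      have h8 : sk z (wz S n + 2) = wz S n.up + 2 := by
        unfold sk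
        rw [if_pos (by omega)]
        omega
      rw [hyy, h8] at h7
      exact h7

end Pool.Agent.Lob5
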