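import Pool.Agent.Lob5.P2Facts

/-!
# Layers with two freely chosen reserved labels `z` (leaf at the vertex `k`) and `y` (special vertex)

`resLay S n j z y`: the labels of the low zone are distributed in increasing order, the labels `z ≠ y` are left out.
`lam u v r = r + [u ≤ r] + [v ≤ r+1]` with `u = min z y`, `v = max z y`. Positions: bad odd edge of rank `r`: `n2+j+r`; `X i`:
`n2+j+P+i`; good odd edge of rank `r`: `n2+Ux+r`.
-/

namespace Pool.Agent.Lob5

variable {k : ℕ} {ld al : ℕ → Prop}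

/-- the layer with the reserved labels `z, y` -/
def resLay (S : Seam k ld al) (n : Num) (j z y : ℕ) : FLay where
  j := j
  U := n.Ux - j
  z := z
  y := y
  xs := 0
  xsf := false
  lg := false
  p := fun e => if e % 2 = 1 then
      lam (min z y) (max z y) (n.n2 + j + S.rk e + (if S.rk e ≤ S.P then 0 else n.Ux - j))
    else wz S n.up + n.N0 + S.rk e + (if S.Q < S.rk e then n.nT else 0)
  X := fun i => lam (min z y) (max z y) (n.n2 + j + S.P + i)

theorem wz_res (S : Seam k ld al) (n : Num) (hs : n.sp ≠ 0) :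
    wz S n.up = n.n2 + n.Ux + S.h + 3 := by
  rw [wz_up]
  unfold wz
  rw [if_neg hs]

theorem jU_res {S : Seam k ld al} {n : Num} {j : ℕ} (hA : Adm S n j) : n.nT + j ≤ n.Ux := by
  have := hA.jU
  split_ifs at this <;> omega

private theorem lam_le2 (u v r : ℕ) : lam u v r ≤ r + 2 := by
  unfold lam
  split_ifs <;> omega

private theorem lam_nu {z y : ℕ} (h : z ≠ y) (r : ℕ) :
    lam (min z y) (max z y) r ≠ z ∧ lam (min z y) (max z y) r ≠ y := by
  unfold lam
  rcases Nat.lt_or_ge z y with c | c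
  · rw [min_eq_left c.le, max_eq_right c.le]
    split_ifs <;> omega
  · have c' : y < z := by omega
    rw [min_eq_right c'.le, max_eq_left c'.le]
    split_ifs <;> omega

theorem gl_res (S : Seam k ld al) (n : Num) (hs : n.sp ≠ 0) (j z y : ℕ) (hA : Adm S n j) :
    GLy S n (resLay S n j z y) (lam (min z y) (max z y)) where
  mono := lam_mono _ _
  top := by
    have h1 := jU_res hA
    have h2 := wz_res S n hs
    change lam (min z y) (max z y) (n.n2 + j + (n.Ux - j) + S.h + 1) ≤ wz S n.up
    have := lam_le2 (min z y) (max z y) (n.n2 + j + (n.Ux - j) + S.h + 1)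
    omega
  U_ge := by
    have h1 := jU_res hA
    change n.nT ≤ n.Ux - j
    omega
  podd e he := by
    change (if e % 2 = 1 then _ else _) = _
    rw [if_pos he]
    rfl
  peven e he := by
    change (if e % 2 = 1 then _ else _) = _
    rw [if_neg (by omega)]
  X i := rfl

theorem flow_res (S : Seam k ld al) (n : Num) (hs : n.sp ≠ 0) (j z y : ℕ) (hA : Adm S n j) :
    FLow S n (resLay S n j z y) := by
  refine flow_GL S n (gl_res S n hs j z y hA) fun t _ _ => ?_
  change lam (min z y) (max z y) (n.n2 + j + S.P + t) ≤ n.n2 + j + S.P + t + 2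
  exact lam_le2 _ _ _

/-- position of a good odd edge -/
theorem pg_res (S : Seam k ld al) (n : Num) (j z y : ℕ) (hA : Adm S n j) {e : ℕ}
    (he : e % 2 = 1) (hr : S.P < S.rk e) :
    (resLay S n j z y).p e = lam (min z y) (max z y) (n.n2 + n.Ux + S.rk e) := by
  have h1 := jU_res hA
  change (if e % 2 = 1 then _ else _) = _
  rw [if_pos he, if_neg (by omega)]
  congr 1
  omega

/-- position of a bad odd edge -/
theorem pb_res (S : Seam k ld al) (n : Num) (j z y : ℕ) {e : ℕ}
    (he : e % 2 = 1) (hr : S.rk e ≤ S.P) :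
    (resLay S n j z y).p e = lam (min z y) (max z y) (n.n2 + j + S.rk e) := by
  change (if e % 2 = 1 then _ else _) = _
  rw [if_pos he, if_pos hr, Nat.add_zero]

theorem dab_res (S : Seam k ld al) (n : Num) (hs : n.sp ≠ 0) (j z y : ℕ) (hA : Adm S n j)
    (hm : S.mode ≠ 0 ∧ S.mode ≠ 3) (h2 : n.n2 + j + S.P + 2 ≤ max z y)
    (h1 : S.mode = 1 ∨ S.mode = 2 ∨ S.mode = 5 ∨ n.n2 + j + S.P + 1 ≤ min z y) :
    FDab S n (resLay S n j z y) := by
  have hw := wz_res S n hs
  have hj := jU_res hA
  refine dab_GL S n (gl_res S n hs j z y hA) (fun _ => hm) ?_ ?_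
  · change wz S n.up ≤ n.n2 + j + (n.Ux - j) + S.h + 1 + 2 + _
    omega
  · intro r r' h3 h4 h5 h6
    change lam (min z y) (max z y) (n.n2 + j + r) + r' + _ ≤
      lam (min z y) (max z y) (n.n2 + j + r') + r + _
    rw [if_neg (by omega : ¬ (n.sp = 0 ∧ S.mode = 5))]
    unfold lam
    split_ifs <;> omega

/-- everything except the facts about the two sums -/
theorem ok_res (S : Seam k ld al) (n : Num) (e j z y : ℕ) (hs : n.sp ≠ 0) (hA : Adm S n j)
    (hm : S.mode ≠ 0 ∧ S.mode ≠ 3) (hz : n.n2 + j < z) (hzw : z ≤ wz S n.up)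
    (hy : n.n2 + j < y) (hyw : y ≤ wz S n.up) (hzy : z ≠ y)
    (hD : FDab S n (resLay S n j z y))
    (hF3 : n.sp = 3 → n.nT + S.h + n.n2 + j + 1 ≤ y + (resLay S n j z y).X 1)
    (hq : VOKn S n (resLay S n j z y) ((resLay S n j z y).bs S.q + y))
    (hv : VOKn S n (resLay S n j z y) ((resLay S n j z y).vk S n e))
    (hne : (resLay S n j z y).bs S.q + y ≠ (resLay S n j z y).vk S n e) :
    P2OK S n e (resLay S n j z y) false := by
  have hj := jU_res hA
  have hw := wz_res S n hs
  have hflow := flow_res S n hs j z y hA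
  have hpo : ∀ f, 1 ≤ f → f ≤ k → f % 2 = 1 →
      (resLay S n j z y).p f ≠ z ∧ (resLay S n j z y).p f ≠ y := by
    intro f _ _ h3
    change (if f % 2 = 1 then _ else _) ≠ z ∧ (if f % 2 = 1 then _ else _) ≠ y
    rw [if_pos h3]
    exact lam_nu hzy _
  have hXo : ∀ i, (resLay S n j z y).X i ≠ z ∧ (resLay S n j z y).X i ≠ y := fun i =>
    lam_nu hzy _
  have hqk : 1 ≤ S.q ∧ S.q < k := by
    have hle := S.mode_le
    have hcases : S.mode = 1 ∨ (S.mode = 2 ∨ S.mode = 3) ∨ S.mode = 4 ∨ S.mode = 5 := by omega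
    have hal : al S.q := by
      rcases hcases with h | h | h | h
      · exact (S.m1 h).1
      · exact (S.m2 h).1
      · exact (S.m4 h).1
      · exact (S.m5 h).1
    exact ⟨S.ld_pos _ (S.al_ld _ hal), S.ld_lt _ (S.al_ld _ hal)⟩
  have hVlo : wz S n.up + n.N0 < (resLay S n j z y).bs S.q + y := by
    unfold FLay.bs
    rcases Nat.mod_two_eq_zero_or_one S.q with h | h
    · have h1 := hflow.p_even S.q h
      omega
    · have h1 := hflow.p_even (S.q + 1) (by omega)
      omega
  refine
    { flow := hflow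
      fmod :=
        { y_ok := fun _ _ => ⟨hy, hyw, fun i _ _ => (hXo i).2, fun f h1 h2 h3 => (hpo f h1 h2 h3).2⟩
          xs_ok := fun h => absurd h (by simp [resLay])
          lg_ok := fun h => absurd h (by simp [resLay])
          V_lo := fun _ _ => hVlo
          V_up := fun _ _ => hq.thr
          V_C := fun _ _ i h1 h2 h3 => hq.C i h1 h2 h3
          V_L := fun _ _ h => hq.gap h
          F3 := fun h _ => hF3 h
          Fx := fun h => absurd h (by simp [resLay])
          Dbb := hD.Dbb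
          Dgg := hD.Dgg
          Dgb := hD.Dgb }
      ffr := fun h => absurd h hs
      U_eq := ?_
      z_rng := fun _ => ⟨hz, hzw⟩
      z_p := fun _ f h1 h2 h3 => (hpo f h1 h2 h3).1
      z_X := fun _ i _ _ => (hXo i).1
      z_y := fun _ _ _ h => hzy h.symm
      z_xs := fun _ h => absurd h (by simp [resLay])
      V_thr := fun _ => hv.thr
      V_C := fun _ i h1 h2 h3 => hv.C i h1 h2 h3
      V_V := fun _ _ _ => hne
      V_gap := fun _ h => hv.gap h
      L_lg := fun h => absurd h (by simp)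
      L_rng := fun h => absurd h (by simp) }
  change n.Ux - j + j + 0 = n.Ux + 0 + 0
  omega

/-- two layers of this form (or `funP`) -/
theorem step_res (S : Seam k ld al) (n : Num) {Λ Λ' : FLay} {σ σ' : ℕ → ℕ} (h : GLy S n Λ σ)
    (h' : GLy S n Λ' σ') (hj : Λ'.j = Λ.j + 1) (hP : 3 ≤ S.P)
    (hr : wz S n.up ≤ n.n2 + Λ.j + Λ.U + S.h + 1 + 2)
    (hr' : wz S n.up ≤ n.n2 + Λ'.j + Λ'.U + S.h + 1 + 2) : FStep S n Λ Λ' := by
  have h1 := h.X 1
  have h2 := h.mono.le_apply (x := n.n2 + Λ.j + S.P + 1)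
  exact step_GL S n h h' hj 2 hr hr' (by omega) (fun _ _ _ _ => by omega)

end Pool.Agent.Lob5
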