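import Pool.Agent.Lob5.P2Gen

/-!
# The selection for `sp = 0` (no special vertex; mode 0, or mode 5 with `FR`)

All layers: `funP S n j` (with `l = true`, the greedy group) and `insG S n (layNone S n j) z` for all
`z > b`, `b = n2+j+P` (`gl_ins`: `σ r = sk z (lam ..)`, and `lam .. r = r` for `r ≤ w` as `y1 = wz S n + 1`, so
`σ r = sk z r` for `r ≤ n2+j+U+h+1 = wz S n`, `U = Ux-j`). `w = wz S n.up = n2+Ux+h+2`, `dZ = 0`, `pkZ = w+N0`, `mz S n.up = w+N0+nT+h`,
`T = nT+h+n2+j`, `ρ = rk 1`, `v = f + z` (plus `w+N0`), `f = p 1`. Bad edge 1: `f = F0 = n2+j+ρ` (`z > b ≥ F0`); good: `F0 = n2+Ux+ρ`,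
`f = F0` if `F0 < z`, `f = F0+1` if `z ≤ F0`.

`famI` : all facts of `P2OK` except those about the sum: `flow_GL` (`X t ≤ b+t+1`), `FMod` (`sp = 0`, `lg = false`, `xsf = false`: only
`Dbb, Dgg, Dgb`: `dab_GL` with `hb`: `σ (n2+j+r) = n2+j+r` for `r ≤ P`), `FFR` (as in `HoleFR`, `ins_two`: works for every `z`), `U_eq`, `z`.

`p2_sel0`, cases.
Bad edge 1.
* A: `F0 ≤ Q`: `z = b+Q+1-F0` (`≥ b+1`, and `≤ w` by `hB1`), `v = b+Q+1`, `X 1 ≥ b+1`, `vok_A`.
* B: `Q+1 ≤ F0 ≤ Q+nT+1`: `funP`, `l = true` (`flow_Z, fmod_Z, ffr, U_P`).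
* C: `Q+nT+2 ≤ F0 ≤ nT+h`: `r = F0-nT`, `z = n2+Ux+P+cutG r+1`: a good odd edge of rank `t` has the label `n2+Ux+t` if `t ≤ P+cutG r`
  and `n2+Ux+t+1` otherwise. `vok_C` with `S.cutG_lt, S.cutG_gt, S.cutG_le`.
* D: `F0 ≥ nT+h+1`: `z = min w (w+T+1-F0)`, `vok_T` (`v = w+F0` or `w+T+1`).
Good edge 1 (so `P ≤ h`); `R` from `h0`.
* A: `F0+1 ≤ Q`: `z = b+Q+1-F0` if this is `> F0`, otherwise `z = b+Q-F0`; `v = b+Q+1`. `vok_A`.
* B: `Q+1 ≤ F0+1 ≤ Q+nT+1`: `funP` (`p 1 = F0+1`), `l = true`.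
* C: `Q+nT+1 ≤ F0 ≤ nT+h`, `r = F0-nT`. If `r > R`: `c = max (P+cutG r) ρ`, `z = n2+Ux+c+1 > F0`, `f = F0`, rank `r` in `vok_C`: for a good `C` vertex
  with `rk ee < r`: `rk oe ≤ P+cutG r ≤ c`; with `rk ee > r`: `rk oe > P+cutG r` and `rk oe ≥ ρ` (`gt`), `rk oe ≠ ρ` (`e1`: then
  `rk ee = R+1 ≤ r`). If `r+1 ≤ R`: `c = min (P+cutG (r+1)) (ρ-1)`, `z = n2+Ux+c+1 ≤ F0`, `f = F0+1`, rank `r+1` in `vok_C` (`lt`). If
  `r = R`: `z = F0`, `f = F0+1`, rank `R+1` in `vok_C` (`lt, gt`).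
* D: `F0 ≥ nT+h+1`: if `w+T+1-F0 > w`: `z = w`, `v = w+F0`. Otherwise if `w+T+1-F0 > F0`: `z = w+T+1-F0`, if not: `z = w+T-F0 ≤ F0`; `v = w+T+1`. `vok_T`.
-/

namespace Pool.Agent.Lob5

variable {k : ℕ} {ld al : ℕ → Prop}

/-- the layers for `sp = 0` -/
inductive Fam0 (S : Seam k ld al) (n : Num) (j : ℕ) : FLay → Prop
  | P : Fam0 S n j (funP S n j)
  | I (z : ℕ) (h : n.n2 + j + S.P < z) (hw : z ≤ wz S n.up) :
    Fam0 S n j (insG S n (layNone S n j) z)

private theorem p2s0_wz (S : Seam k ld al) (n : Num) (hs : n.sp = 0) :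
    wz S n = n.n2 + n.Ux + S.h + 1 ∧ wz S n.up = n.n2 + n.Ux + S.h + 2 := by
  have h1 : wz S n = n.n2 + n.Ux + S.h + 1 := by
    unfold wz
    rw [if_pos hs]
  refine ⟨h1, ?_⟩
  rw [wz_up, h1]

private theorem p2s0_jU {S : Seam k ld al} {n : Num} {j : ℕ} (hA : Adm S n j) :
    n.nT + j ≤ n.Ux := by
  have := hA.jU
  split_ifs at this <;> omega

private theorem p2s0_lam (S : Seam k ld al) (n : Num) (hs : n.sp = 0) {r : ℕ}
    (hr : r ≤ n.n2 + n.Ux + S.h + 1) : lam (wz S n + 1) (wz S n + 2) r = r := by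
  unfold lam
  rw [(p2s0_wz S n hs).1, if_neg (by omega), if_neg (by omega)]
  rfl

/-- the labelling of the layer with the inserted label `z` -/
private def p2s0_sg (S : Seam k ld al) (n : Num) (z r : ℕ) : ℕ :=
  sk z (lam (wz S n + 1) (wz S n + 2) r)

private theorem p2s0_sg_eq (S : Seam k ld al) (n : Num) (hs : n.sp = 0) {z r : ℕ}
    (hr : r ≤ n.n2 + n.Ux + S.h + 1) : p2s0_sg S n z r = sk z r := by
  unfold p2s0_sg
  rw [p2s0_lam S n hs hr]

/-- the layer with the inserted label `z` -/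
private abbrev p2s0_L (S : Seam k ld al) (n : Num) (j z : ℕ) : FLay :=
  insG S n (layNone S n j) z

private theorem p2s0_gl (S : Seam k ld al) (n : Num) (hs : n.sp = 0) (j z : ℕ)
    (hA : Adm S n j) : GLy S n (p2s0_L S n j z) (p2s0_sg S n z) := by
  have hj := p2s0_jU hA
  have hw := p2s0_wz S n hs
  refine gl_ins S n (layNone S n j) z rfl ?_ ?_
  · change n.nT ≤ n.Ux - j
    omega
  · change sk z (lam (wz S n + 1) (wz S n + 2) (n.n2 + j + (n.Ux - j) + S.h + 1)) ≤ wz S n.up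
    rw [p2s0_lam S n hs (by omega), hw.2]
    have := sk_le z (n.n2 + j + (n.Ux - j) + S.h + 1)
    omega

/-- the labels of the odd edges -/
private theorem p2s0_podd (S : Seam k ld al) (n : Num) (hs : n.sp = 0) (j z : ℕ)
    (hA : Adm S n j) {e : ℕ} (he : e % 2 = 1) (hr : S.rk e ≤ S.h + 1) :
    (S.rk e ≤ S.P → (p2s0_L S n j z).p e = sk z (n.n2 + j + S.rk e)) ∧
      (S.P < S.rk e → (p2s0_L S n j z).p e = sk z (n.n2 + n.Ux + S.rk e)) := by
  have hj := p2s0_jU hA
  have h1 := (p2s0_gl S n hs j z hA).podd e he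
  change (p2s0_L S n j z).p e =
    p2s0_sg S n z (n.n2 + j + S.rk e + (if S.rk e ≤ S.P then 0 else n.Ux - j)) at h1
  refine ⟨fun h2 => ?_, fun h2 => ?_⟩
  · rw [h1, if_pos h2, p2s0_sg_eq S n hs (by omega), Nat.add_zero]
  · rw [h1, if_neg (by omega), p2s0_sg_eq S n hs (by omega)]
    congr 1
    omega

private theorem p2s0_X (S : Seam k ld al) (n : Num) (hs : n.sp = 0) (j z : ℕ)
    (hA : Adm S n j) {i : ℕ} (hi : n.n2 + j + S.P + i ≤ n.n2 + n.Ux + S.h + 1) :
    (p2s0_L S n j z).X i = sk z (n.n2 + j + S.P + i) := by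
  have h1 := (p2s0_gl S n hs j z hA).X i
  change (p2s0_L S n j z).X i = p2s0_sg S n z (n.n2 + j + S.P + i) at h1
  rw [h1, p2s0_sg_eq S n hs hi]

/-- the base grows by one or two -/
private theorem p2s0_two (S : Seam k ld al) (n : Num) (Λ : Lay) (z i : ℕ) :
    bs S n Λ i + 1 ≤ (insG S n Λ z).bs i ∧ (insG S n Λ z).bs i ≤ bs S n Λ i + 2 := by
  change bs S n Λ i + 1 ≤ (if i % 2 = 1 then sk z (pl S n Λ i) else pl S n Λ i + 1) +
      (if (i + 1) % 2 = 1 then sk z (pl S n Λ (i + 1)) else pl S n Λ (i + 1) + 1) ∧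
    (if i % 2 = 1 then sk z (pl S n Λ i) else pl S n Λ i + 1) +
      (if (i + 1) % 2 = 1 then sk z (pl S n Λ (i + 1)) else pl S n Λ (i + 1) + 1) ≤
      bs S n Λ i + 2
  have h1 := le_sk z (pl S n Λ i)
  have h2 := sk_le z (pl S n Λ i)
  have h3 := le_sk z (pl S n Λ (i + 1))
  have h4 := sk_le z (pl S n Λ (i + 1))
  unfold bs
  rcases Nat.mod_two_eq_zero_or_one i with h | h
  · rw [if_neg (by omega), if_pos (by omega)]
    omega
  · rw [if_pos (by omega), if_neg (by omega)]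
    omega

private theorem p2s0_ok (S : Seam k ld al) (n : Num) (e j z : ℕ) (hs : n.sp = 0)
    (hA : Adm S n j) (hz : n.n2 + j + S.P < z) (hw : z ≤ wz S n.up)
    (hv : VOK S n e (p2s0_L S n j z)) : P2OK S n e (p2s0_L S n j z) false := by
  have hj := p2s0_jU hA
  have hww := p2s0_wz S n hs
  have hG := p2s0_gl S n hs j z hA
  have hPh := S.Ph
  have hflow : FLow S n (p2s0_L S n j z) := by
    refine flow_GL S n hG fun t h1 h2 => ?_
    change t ≤ n.Ux - j at h2
    rw [p2s0_X S n hs j z hA (by omega)]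
    change sk z (n.n2 + j + S.P + t) ≤ n.n2 + j + S.P + t + 2
    have := sk_le z (n.n2 + j + S.P + t)
    omega
  have hD : FDab S n (p2s0_L S n j z) := by
    refine dab_GL S n hG (fun h => absurd hs h) ?_ ?_
    · change wz S n.up ≤ n.n2 + j + (n.Ux - j) + S.h + 1 + 2 + (if 2 ≤ n.sp then 1 else 0)
      rw [hww.2]
      omega
    · intro r r' h1 h2 h3 h4
      change p2s0_sg S n z (n.n2 + j + r) + r' + (if n.sp = 0 ∧ S.mode = 5 then 1 else 0) ≤
        p2s0_sg S n z (n.n2 + j + r') + r +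
          (if S.mode = 1 ∨ S.mode = 2 ∨ S.mode = 5 then 1 else 0)
      rw [p2s0_sg_eq S n hs (by omega), p2s0_sg_eq S n hs (by omega), sk_of_lt (by omega),
        sk_of_lt (by omega)]
      by_cases h5 : S.mode = 5
      · rw [if_pos ⟨hs, h5⟩, if_pos (Or.inr (Or.inr h5))]
        omega
      · rw [if_neg (fun h => h5 h.2)]
        omega
  exact
    { flow := hflow
      fmod :=
        { y_ok := fun h => absurd hs h
          xs_ok := fun h => absurd h (by simp [insG, layNone])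
          lg_ok := fun h => absurd h (by simp [insG, layNone])
          V_lo := fun h => absurd hs h
          V_up := fun h => absurd hs h
          V_C := fun h => absurd hs h
          V_L := fun h => absurd hs h
          F3 := fun h => by omega
          Fx := fun h => absurd h (by simp [insG, layNone])
          Dbb := hD.Dbb
          Dgg := hD.Dgg
          Dgb := hD.Dgb }
      ffr := fun _ hm => by
        have hwu := wz_up S n
        have b2 := r1_base S n j hs hA hm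
        have d2 := r1_dist S n j hs hA hm
        have i2 : ∀ i, bs S n (layNone S n j) i + 1 ≤ (p2s0_L S n j z).bs i ∧
            (p2s0_L S n j z).bs i ≤ bs S n (layNone S n j) i + 2 :=
          p2s0_two S n (layNone S n j) z
        refine ⟨?_, ?_, fun i o hi ho hoq => ?_⟩
        · have := i2 S.q
          omega
        · have := i2 S.q
          omega
        · have h1 := i2 i
          have h2 := i2 o
          have h3 := d2 i o hi ho hoq
          omega
      U_eq := by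
        change n.Ux - j + j + (if (false : Bool) = true then 1 else 0) =
          n.Ux + (if (false : Bool) = true then 1 else 0) + (if (false : Bool) = true then 1 else 0)
        simp
        omega
      z_rng := fun _ => ⟨by change n.n2 + j < z; omega, hw⟩
      z_p := fun _ f _ _ hf => by
        change (if f % 2 = 1 then sk z (pl S n (layNone S n j) f) else _) ≠ z
        rw [if_pos hf]
        exact sk_ne _ _
      z_X := fun _ i _ _ => sk_ne _ _
      z_y := fun _ h => absurd hs h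
      z_xs := fun _ h => absurd h (by simp [insG, layNone])
      V_thr := fun _ => hv.thr
      V_C := fun _ => hv.C
      V_V := fun _ h => absurd hs h
      V_gap := fun _ => hv.gap
      L_lg := fun h => absurd h (by simp)
      L_rng := fun h => absurd h (by simp) }

private theorem p2s0_lay (S : Seam k ld al) (n : Num) (hs : n.sp = 0) (j : ℕ) :
    layOf S n.up j = layNone S n.up j := by
  have hsu : n.up.sp = 0 := hs
  simp [layOf, hsu]

/-- the greedy group -/
private theorem p2s0_P (S : Seam k ld al) (n : Num) (e j : ℕ) (hs : n.sp = 0)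
    (hA : Adm S n j) (h1 : wz S n.up + n.N0 + S.Q + 1 ≤ (funP S n j).p 1 + pkZ S n e)
    (h2 : (funP S n j).p 1 + pkZ S n e ≤ wz S n.up + n.N0 + S.Q + n.nT + 1) :
    P2OK S n e (funP S n j) true := by
  have hlg : (funP S n j).lg = false := by
    change (layOf S n.up j).lg = false
    rw [p2s0_lay S n hs]
    rfl
  exact
    { flow := flow_Z S n j hA LayZ.P
      fmod := fmod_Z S n j hA LayZ.P
      ffr := fun _ hm => ffr S n j hs hm hA LayZ.P
      U_eq := by
        have h3 := (U_P S n j hA).1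
        rw [hlg] at h3 ⊢
        change (funP S n j).U + j + _ = _
        simp at h3 ⊢
        omega
      z_rng := fun h => absurd h (by simp)
      z_p := fun h => absurd h (by simp)
      z_X := fun h => absurd h (by simp)
      z_y := fun h => absurd h (by simp)
      z_xs := fun h => absurd h (by simp)
      V_thr := fun h => absurd h (by simp)
      V_C := fun h => absurd h (by simp)
      V_V := fun h => absurd h (by simp)
      V_gap := fun h => absurd h (by simp)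
      L_lg := fun _ => hlg
      L_rng := fun _ => ⟨h1, h2⟩ }

private theorem p2s0_Pp (S : Seam k ld al) (n : Num) (hs : n.sp = 0) (j : ℕ)
    (hA : Adm S n j) {e : ℕ} (he : e % 2 = 1) (hr : S.rk e ≤ S.h + 1) :
    (S.rk e ≤ S.P → (funP S n j).p e = n.n2 + j + S.rk e) ∧
      (S.P < S.rk e → (funP S n j).p e = n.n2 + n.Ux + 1 + S.rk e) := by
  have hj := p2s0_jU hA
  have hsu : n.up.sp = 0 := hs
  have h1 : (funP S n j).p e = lam (wz S n.up + 1) (wz S n.up + 2)
      (if S.rk e ≤ S.P then n.n2 + j + S.rk e else n.n2 + j + (n.Ux + 1 - j) + S.rk e) := by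
    change pl S n.up (layOf S n.up j) e = _
    rw [p2s0_lay S n hs]
    unfold pl lop
    rw [if_pos he]
    rfl
  have h2 : ∀ r, r ≤ n.n2 + (n.Ux + 1) + S.h + 1 →
      lam (wz S n.up + 1) (wz S n.up + 2) r = r := fun r hr => p2s0_lam S n.up hsu hr
  refine ⟨fun h3 => ?_, fun h3 => ?_⟩
  · rw [h1, if_pos h3, h2 _ (by omega)]
  · rw [h1, if_neg (by omega), h2 _ (by omega)]
    omega

theorem p2_sel0 (S : Seam k ld al) (n : Num) (e j : ℕ) (hs : n.sp = 0) (hA : Adm S n j)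
    (he : 1 ≤ e) (heN : e ≤ n.N0)
    (hB1 : S.bad 1 → S.P + S.Q ≤ S.rk 1 + S.h + 1)
    (h0 : ¬ S.bad 1 → ∃ R, Hole0 S R)
    (hPQ : 1 ≤ n.Ux → S.P + S.Q ≤ 2 * S.h) :
    ∃ Λ l, Fam0 S n j Λ ∧ Λ.j = j ∧ P2OK S n e Λ l := by
  have hk := S.hk
  have hh := S.h1
  have hP1 := S.P1
  have hPh := S.Ph
  have hQh := S.Qh
  have hj := p2s0_jU hA
  obtain ⟨-, hw⟩ := p2s0_wz S n hs
  have hm : mz S n.up = wz S n.up + n.N0 + n.nT + S.h := rfl
  have hpk : pkZ S n e = wz S n.up + n.N0 := by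
    unfold pkZ dZ
    rw [if_neg (by omega), Nat.sub_zero]
  have hvk : ∀ z, (p2s0_L S n j z).vk S n e =
      (p2s0_L S n j z).p 1 + (wz S n.up + n.N0) + z := by
    intro z
    unfold FLay.vk
    rw [hpk]
    rfl
  have hX1 : ∀ z, n.n2 + j + S.P + 1 ≤ (p2s0_L S n j z).X 1 := by
    intro z
    have h1 := (p2s0_gl S n hs j z hA).X 1
    rw [h1]
    exact (p2s0_gl S n hs j z hA).mono.le_apply
  have hsb : ∀ z, n.n2 + j + S.P < z → p2s0_sg S n z (n.n2 + j + S.P) = n.n2 + j + S.P := by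
    intro z hz
    rw [p2s0_sg_eq S n hs (by omega), sk_of_lt hz]
  have hPQU : ∀ z, 1 ≤ (p2s0_L S n j z).U → S.P + S.Q ≤ 2 * S.h := by
    intro z h1
    change 1 ≤ n.Ux - j at h1
    exact hPQ (by omega)
  -- the three places
  have doA : ∀ z, n.n2 + j + S.P < z → z ≤ wz S n.up →
      (p2s0_L S n j z).p 1 + z = n.n2 + j + S.P + S.Q + 1 →
      ∃ Λ l, Fam0 S n j Λ ∧ Λ.j = j ∧ P2OK S n e Λ l := by
    intro z hz hzw h1
    refine ⟨_, false, Fam0.I z hz hzw, rfl, p2s0_ok S n e j z hs hA hz hzw ?_⟩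
    have h2 := hvk z
    have h3 := hX1 z
    refine vok_A S n e (p2s0_gl S n hs j z hA) ?_ ?_ ?_
    · change wz S n.up + n.N0 + p2s0_sg S n z (n.n2 + j + S.P) + S.Q < _
      rw [hsb z hz]
      omega
    · omega
    · omega
  have doC : ∀ z r, n.n2 + n.Ux + S.P < z → z ≤ wz S n.up → S.Q + 1 ≤ r → r ≤ S.h + 1 →
      (p2s0_L S n j z).p 1 = n.nT + r →
      (∀ i, 1 ≤ i → i < k → ¬ ld i → ¬ S.bad i → S.rk (ee i) < r →
        n.n2 + n.Ux + S.rk (oe i) < z) →
      (∀ i, 1 ≤ i → i < k → ¬ ld i → ¬ S.bad i → r < S.rk (ee i) →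
        z ≤ n.n2 + n.Ux + S.rk (oe i)) →
      ∃ Λ l, Fam0 S n j Λ ∧ Λ.j = j ∧ P2OK S n e Λ l := by
    intro z r hz hzw hr hr' h1 hlt hgt
    have hzb : n.n2 + j + S.P < z := by omega
    refine ⟨_, false, Fam0.I z hzb hzw, rfl, p2s0_ok S n e j z hs hA hzb hzw ?_⟩
    have h2 := hvk z
    have hrk : ∀ i, 1 ≤ i → i < k → ¬ ld i → ¬ S.bad i →
        S.P + 1 ≤ S.rk (oe i) ∧ S.rk (oe i) ≤ S.h + 1 := by
      intro i hi1 hi2 hi3 hi4
      have h5 : 1 ≤ oe i ∧ oe i ≤ k := by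
        unfold oe
        split_ifs <;> omega
      refine S.rk_og _ h5.1 h5.2 oe_odd ?_
      unfold oe
      split_ifs
      · exact hi4
      · exact fun h6 => hi4 ((S.same i hi1 hi2 hi3).2 h6)
    refine vok_C S n e (p2s0_gl S n hs j z hA) r hr hr' ?_ hzw ?_ ?_ ?_ ?_ ?_
    · change _ = wz S n.up + n.N0 + n.nT + r + z
      omega
    · change p2s0_sg S n z (n.n2 + j + S.P) < z
      rw [hsb z hzb]
      exact hzb
    · intro h3
      change 1 ≤ n.Ux - j at h3
      change (p2s0_L S n j z).X (n.Ux - j) < z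
      rw [p2s0_X S n hs j z hA (by omega), sk_of_lt (by omega)]
      omega
    · intro f hf1 hf2 hf3
      change (if f % 2 = 1 then sk z (pl S n (layNone S n j) f) else _) ≠ z
      rw [if_pos hf3]
      exact sk_ne _ _
    · intro i hi1 hi2 hi3 hi4 hi5
      have h5 := hrk i hi1 hi2 hi3 hi4
      have h6 := hlt i hi1 hi2 hi3 hi4 hi5
      rw [(p2s0_podd S n hs j z hA oe_odd h5.2).2 (by omega), sk_of_lt h6]
      exact h6
    · intro i hi1 hi2 hi3 hi4 hi5
      have h5 := hrk i hi1 hi2 hi3 hi4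
      have h6 := hgt i hi1 hi2 hi3 hi4 hi5
      rw [(p2s0_podd S n hs j z hA oe_odd h5.2).2 (by omega)]
      change z < sk z _
      unfold sk
      rw [if_pos h6]
      omega
  have doT : ∀ z, n.n2 + j + S.P < z → z ≤ wz S n.up →
      wz S n.up + n.nT + S.h < (p2s0_L S n j z).p 1 + z →
      (p2s0_L S n j z).p 1 + z ≤ wz S n.up + n.nT + S.h + n.n2 + j + 1 →
      ∃ Λ l, Fam0 S n j Λ ∧ Λ.j = j ∧ P2OK S n e Λ l := by
    intro z hz hzw h1 h1'
    refine ⟨_, false, Fam0.I z hz hzw, rfl, p2s0_ok S n e j z hs hA hz hzw ?_⟩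
    have h2 := hvk z
    refine vok_T S n e (p2s0_gl S n hs j z hA) (hPQU z) ?_ ?_
    · omega
    · change _ ≤ wz S n.up + mz S n.up + n.n2 + j + 1
      omega
  by_cases hb : S.bad 1
  · -- the edge 1 is bad
    obtain ⟨r1, r2⟩ := S.rk_ob 1 le_rfl (by omega) (by norm_num) hb
    have hB := hB1 hb
    have hf : ∀ z, n.n2 + j + S.P < z → (p2s0_L S n j z).p 1 = n.n2 + j + S.rk 1 := by
      intro z hz
      rw [(p2s0_podd S n hs j z hA (by norm_num) (by omega)).1 r2, sk_of_lt (by omega)]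
    by_cases c1 : n.n2 + j + S.rk 1 ≤ S.Q
    · have hz : n.n2 + j + S.P < n.n2 + j + S.P + S.Q + 1 - (n.n2 + j + S.rk 1) := by omega
      refine doA _ hz (by omega) ?_
      rw [hf _ hz]
      omega
    by_cases c2 : n.n2 + j + S.rk 1 ≤ S.Q + n.nT + 1
    · have hp := (p2s0_Pp S n hs j hA (e := 1) (by norm_num) (by omega)).1 r2
      exact ⟨_, true, Fam0.P, rfl, p2s0_P S n e j hs hA (by omega) (by omega)⟩
    by_cases c3 : n.n2 + j + S.rk 1 ≤ n.nT + S.h
    · have hc := S.cutG_le (n.n2 + j + S.rk 1 - n.nT)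
      refine doC (n.n2 + n.Ux + S.P + S.cutG (n.n2 + j + S.rk 1 - n.nT) + 1)
        (n.n2 + j + S.rk 1 - n.nT) (by omega) (by omega) (by omega) (by omega) ?_ ?_ ?_
      · rw [hf _ (by omega)]
        omega
      · intro i hi1 hi2 hi3 hi4 hi5
        have := S.cutG_lt _ (by omega) (by omega) i hi1 hi2 hi3 hi4 hi5
        omega
      · intro i hi1 hi2 hi3 hi4 hi5
        have := S.cutG_gt _ (by omega) (by omega) i hi1 hi2 hi3 hi4 hi5
        omega
    · have hz : n.n2 + j + S.P < wz S n.up := by omega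
      refine doT _ hz le_rfl ?_ ?_
      · rw [hf _ hz]
        omega
      · rw [hf _ hz]
        omega
  · -- the edge 1 is good
    obtain ⟨r1, r2⟩ := S.rk_og 1 le_rfl (by omega) (by norm_num) hb
    obtain ⟨R, hR⟩ := h0 hb
    have hRh := hR.Rh
    have hQR := hR.QR
    have hf1 : ∀ z, n.n2 + n.Ux + S.rk 1 < z →
        (p2s0_L S n j z).p 1 = n.n2 + n.Ux + S.rk 1 := by
      intro z hz
      rw [(p2s0_podd S n hs j z hA (by norm_num) (by omega)).2 (by omega), sk_of_lt hz]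
    have hf2 : ∀ z, z ≤ n.n2 + n.Ux + S.rk 1 →
        (p2s0_L S n j z).p 1 = n.n2 + n.Ux + S.rk 1 + 1 := by
      intro z hz
      rw [(p2s0_podd S n hs j z hA (by norm_num) (by omega)).2 (by omega)]
      unfold sk
      rw [if_pos hz]
    by_cases c1 : n.n2 + n.Ux + S.rk 1 + 1 ≤ S.Q
    · by_cases c4 : n.n2 + n.Ux + S.rk 1 <
          n.n2 + j + S.P + S.Q + 1 - (n.n2 + n.Ux + S.rk 1)
      · refine doA (n.n2 + j + S.P + S.Q + 1 - (n.n2 + n.Ux + S.rk 1)) (by omega) (by omega) ?_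
        rw [hf1 _ c4]
        omega
      · have hz : n.n2 + j + S.P + S.Q - (n.n2 + n.Ux + S.rk 1) ≤ n.n2 + n.Ux + S.rk 1 := by
          omega
        refine doA (n.n2 + j + S.P + S.Q - (n.n2 + n.Ux + S.rk 1)) (by omega) (by omega) ?_
        rw [hf2 _ hz]
        omega
    by_cases c2 : n.n2 + n.Ux + S.rk 1 ≤ S.Q + n.nT
    · have hp := (p2s0_Pp S n hs j hA (e := 1) (by norm_num) (by omega)).2 (by omega)
      exact ⟨_, true, Fam0.P, rfl, p2s0_P S n e j hs hA (by omega) (by omega)⟩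
    by_cases c3 : n.n2 + n.Ux + S.rk 1 ≤ n.nT + S.h
    · rcases lt_trichotomy (n.n2 + n.Ux + S.rk 1 - n.nT) R with c4 | c4 | c4
      · -- `r < R`
        have hc := S.cutG_le (n.n2 + n.Ux + S.rk 1 - n.nT + 1)
        have hz : n.n2 + n.Ux + min (S.P + S.cutG (n.n2 + n.Ux + S.rk 1 - n.nT + 1))
            (S.rk 1 - 1) + 1 ≤ n.n2 + n.Ux + S.rk 1 := by omega
        refine doC (n.n2 + n.Ux + min (S.P + S.cutG (n.n2 + n.Ux + S.rk 1 - n.nT + 1))
          (S.rk 1 - 1) + 1) (n.n2 + n.Ux + S.rk 1 - n.nT + 1) (by omega) (by omega) (by omega)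
          (by omega) ?_ ?_ ?_
        · rw [hf2 _ hz]
          omega
        · intro i hi1 hi2 hi3 hi4 hi5
          have h1 := S.cutG_lt _ (by omega) (by omega) i hi1 hi2 hi3 hi4 hi5
          have h2 := hR.lt i hi1 hi2 hi3 hi4 (by omega)
          omega
        · intro i hi1 hi2 hi3 hi4 hi5
          have h1 := S.cutG_gt _ (by omega) (by omega) i hi1 hi2 hi3 hi4 hi5
          omega
      · -- `r = R`
        refine doC (n.n2 + n.Ux + S.rk 1) (R + 1) (by omega) (by omega) (by omega) (by omega)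
          ?_ ?_ ?_
        · rw [hf2 _ le_rfl]
          omega
        · intro i hi1 hi2 hi3 hi4 hi5
          have h2 := hR.lt i hi1 hi2 hi3 hi4 (by omega)
          omega
        · intro i hi1 hi2 hi3 hi4 hi5
          have h2 := hR.gt i hi1 hi2 hi3 hi4 (by omega)
          omega
      · -- `r > R`
        have hc := S.cutG_le (n.n2 + n.Ux + S.rk 1 - n.nT)
        have hz : n.n2 + n.Ux + S.rk 1 <
            n.n2 + n.Ux + max (S.P + S.cutG (n.n2 + n.Ux + S.rk 1 - n.nT)) (S.rk 1) + 1 := by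
          omega
        refine doC (n.n2 + n.Ux + max (S.P + S.cutG (n.n2 + n.Ux + S.rk 1 - n.nT))
          (S.rk 1) + 1) (n.n2 + n.Ux + S.rk 1 - n.nT) (by omega) (by omega) (by omega)
          (by omega) ?_ ?_ ?_
        · rw [hf1 _ hz]
          omega
        · intro i hi1 hi2 hi3 hi4 hi5
          have h1 := S.cutG_lt _ (by omega) (by omega) i hi1 hi2 hi3 hi4 hi5
          omega
        · intro i hi1 hi2 hi3 hi4 hi5
          have h1 := S.cutG_gt _ (by omega) (by omega) i hi1 hi2 hi3 hi4 hi5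
          have h2 := hR.gt i hi1 hi2 hi3 hi4 (by omega)
          have h3 : S.rk (oe i) ≠ S.rk 1 := fun h4 => by
            have := hR.e1 i hi1 hi2 hi3 hi4 h4
            omega
          omega
    · by_cases c4 : wz S n.up <
          wz S n.up + (n.nT + S.h + n.n2 + j) + 1 - (n.n2 + n.Ux + S.rk 1)
      · have hz : n.n2 + n.Ux + S.rk 1 < wz S n.up := by omega
        refine doT _ (by omega) le_rfl ?_ ?_
        · rw [hf1 _ hz]
          omega
        · rw [hf1 _ hz]
          omega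
      by_cases c5 : n.n2 + n.Ux + S.rk 1 <
          wz S n.up + (n.nT + S.h + n.n2 + j) + 1 - (n.n2 + n.Ux + S.rk 1)
      · refine doT (wz S n.up + (n.nT + S.h + n.n2 + j) + 1 - (n.n2 + n.Ux + S.rk 1))
          (by omega) (by omega) ?_ ?_
        · rw [hf1 _ c5]
          omega
        · rw [hf1 _ c5]
          omega
      · have hz : wz S n.up + (n.nT + S.h + n.n2 + j) - (n.n2 + n.Ux + S.rk 1) ≤
            n.n2 + n.Ux + S.rk 1 := by omega
        refine doT (wz S n.up + (n.nT + S.h + n.n2 + j) - (n.n2 + n.Ux + S.rk 1))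
          (by omega) (by omega) ?_ ?_
        · rw [hf2 _ hz]
          omega
        · rw [hf2 _ hz]
          omega

/-- the facts for the steps -/
private theorem p2s0_fam (S : Seam k ld al) (n : Num) (j : ℕ) (hs : n.sp = 0)
    (hA : Adm S n j) {Λ : FLay} (h : Fam0 S n j Λ) :
    Λ.j = j ∧ (∃ σ, GLy S n Λ σ) ∧ wz S n.up ≤ n.n2 + Λ.j + Λ.U + S.h + 1 + 1 := by
  have hj := p2s0_jU hA
  obtain ⟨-, hw⟩ := p2s0_wz S n hs
  cases h with
  | P =>
    refine ⟨rfl, (gl_Z S n j (fun _ => hs) hA LayZ.P).1, ?_⟩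
    change wz S n.up ≤ n.n2 + j + (layOf S n.up j).U + S.h + 1 + 1
    rw [p2s0_lay S n hs]
    change wz S n.up ≤ n.n2 + j + (n.Ux + 1 - j) + S.h + 1 + 1
    omega
  | I z hz hzw =>
    refine ⟨rfl, ⟨_, p2s0_gl S n hs j z hA⟩, ?_⟩
    change wz S n.up ≤ n.n2 + j + (n.Ux - j) + S.h + 1 + 1
    omega

theorem fam0_step (S : Seam k ld al) (n : Num) (j : ℕ) (hs : n.sp = 0) (hA : Adm S n (j + 1))
    (hP : 2 ≤ S.P) {Λ Λ' : FLay} (h : Fam0 S n j Λ) (h' : Fam0 S n (j + 1) Λ') :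
    FStep S n Λ Λ' := by
  have hA0 : Adm S n j :=
    { n2T := hA.n2T
      jU := by
        have := hA.jU
        omega
      sp0 := hA.sp0
      sp14 := hA.sp14
      sp5 := hA.sp5 }
  obtain ⟨h1, ⟨σ, h2⟩, h3⟩ := p2s0_fam S n j hs hA0 h
  obtain ⟨h1', ⟨σ', h2'⟩, h3'⟩ := p2s0_fam S n (j + 1) hs hA h'
  have hX : n.n2 + Λ.j + S.P + 1 ≤ Λ.X 1 := by
    rw [h2.X]
    exact h2.mono.le_apply
  exact step_GL S n h2 h2' (by omega) 1 h3 h3' (by omega) fun i _ _ _ => by omega

end Pool.Agent.Lob5
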