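import Pool.Agent.Lob5.P2C1
import Pool.Agent.Lob5.P2Facts

/-!
# The selection of the layers for `K - 1` with one leaf: mode 1

Notation: `a = n2+j`, `b = a+P`, `T = nT+h+a`, `w = wz S n.up`, `Y = T+1-Q`, `d = dZ n.sp e`, `F` the label of the edge `1`.
-/

namespace Pool.Agent.Lob5

variable {k : ℕ} {ld al : ℕ → Prop}

/-- the three kinds of labels of the special vertex -/
def Y3 (S : Seam k ld al) (n : Num) (j y z : ℕ) : Prop :=
  y + S.Q = n.nT + S.h + n.n2 + j + 1 ∨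
    (y + S.Q = n.nT + S.h + n.n2 + j + 2 ∧ z = wz S n.up) ∨
    (y + S.Q = n.nT + S.h + n.n2 + j ∧ 1 ≤ n.n2 + j ∧ z < wz S n.up ∧ n.n2 + j < y)

/-- there is a good layer with a label `z` -/
def Good1 (S : Seam k ld al) (n : Num) (e j : ℕ) : Prop :=
  ∃ y z, YZ S n j y z ∧ Y3 S n j y z ∧ P2OK S n e (layY S n j y z) false

theorem Y3.y3 {S : Seam k ld al} {n : Num} {j y z : ℕ} (h : Y3 S n j y z) :
    y + S.Q = n.nT + S.h + n.n2 + j + 1 ∨
      (y + S.Q = n.nT + S.h + n.n2 + j + 2 ∧ z = wz S n.up) ∨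
      (y + S.Q = n.nT + S.h + n.n2 + j ∧ 1 ≤ n.n2 + j ∧ z < wz S n.up) := by
  rcases h with h | h | h
  · exact Or.inl h
  · exact Or.inr (Or.inl h)
  · exact Or.inr (Or.inr ⟨h.1, h.2.1, h.2.2.1⟩)

theorem mk_yz {S : Seam k ld al} {n : Num} {e j y z : ℕ} (c : C1 S n e j)
    (hy : Y3 S n j y z) (h1 : n.n2 + j < z) (h2 : z ≤ wz S n.up) (h3 : y ≠ z)
    (h4 : n.n2 + j + S.P + 1 < y ∨ n.n2 + j + S.P + 1 < z) : YZ S n j y z := by
  have N := c.num
  have hw := N.w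
  have hQh := N.Qh
  have hQ1 := N.Q1
  have hjU := N.jU
  refine ⟨?_, ?_, h1, h2, h3, h4, ?_⟩
  · rcases hy with hy | hy | hy <;> omega
  · rcases hy with hy | hy | hy <;> omega
  · intro _ h5
    rcases hy with hy | hy | hy <;> split_ifs at h5 <;> omega

theorem mk_good {S : Seam k ld al} {n : Num} {e j y z : ℕ} (c : C1 S n e j)
    (h : YZ S n j y z) (hy : Y3 S n j y z)
    (hv : VOKn S n (layY S n j y z) ((layY S n j y z).vk S n e))
    (hlt : (layY S n j y z).vk S n e + (if z = wz S n.up ∧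
      y + S.Q = n.nT + S.h + n.n2 + j + 1 ∨ y + S.Q = n.nT + S.h + n.n2 + j then 1 else 0) ≤
        wz S n.up + mz S n.up + n.n2 + j) : Good1 S n e j := by
  obtain ⟨h1, h2⟩ := vq1 c h hy.y3
  have hzw := h.zw
  refine ⟨y, z, h, hy, fin1 c h hy.y3 hv ?_⟩
  · rcases hy with hy | hy | hy <;> split_ifs at hlt <;> omega

/-- zone A: `v` is between the bad sums and the greedy zone -/
theorem zA' {S : Seam k ld al} {n : Num} {e j y z : ℕ} (c : C1 S n e j)
    (h : YZ S n j y z) (hy : Y3 S n j y z)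
    (hz : n.n2 + j + S.P + 1 + (if y ≤ n.n2 + j + S.P + 1 then 1 else 0) ≤ z) (t : ℕ)
    (ht1 : (if y ≤ n.n2 + j + S.P then 1 else 0) ≤ t)
    (ht2 : t ≤ (if y ≤ n.n2 + j + S.P + 1 then 1 else 0))
    (hv : (layY S n j y z).vk S n e =
      wz S n.up + n.N0 + (n.n2 + j + S.P + S.Q + 1 + t)) : Good1 S n e j := by
  obtain ⟨x, U, hN⟩ := exists_ynum S n j y z c.hs c.hA h
  have hg := layY_gl S n j y z c.hs c.hA h
  have N := c.num
  have hw := N.w
  have hm := N.m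
  have hP := N.Ph
  have hQ1 := N.Q1
  have hQh := N.Qh
  have hjU := N.jU
  have hPQ := N.PQ
  have hyw := h.yw
  have hzw := h.zw
  obtain ⟨b1, b2, b3, b4⟩ := hN.char (n.n2 + j + S.P)
  obtain ⟨c1, c2, c3, c4⟩ := hN.char (n.n2 + j + S.P + 1)
  have hX1 := hg.X 1
  obtain ⟨x1, x2⟩ := hN.ne h
  have hx : n.n2 + j + S.P + 1 < x := by
    rcases hN.cs with ⟨_, h5, h6, _⟩ | ⟨_, _, h6, h7, h8, h9, h10, y0, x0, h11, h12, h13⟩
    · omega
    · rcases hy with hy | hy | hy <;> split_ifs at h8 <;> omega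
  rw [layY_j] at hX1
  refine mk_good c h hy (von_A S n hg _ ?_ ?_ ?_) ?_
  · rw [hv, layY_j]
    split_ifs at b1 hz ht1 ht2 <;> omega
  · rw [hv, hX1]
    split_ifs at c1 hz ht1 ht2 <;> omega
  · rw [hv]
    split_ifs at ht1 ht2 <;> omega
  · rw [hv]
    split_ifs at ht1 ht2 ⊢ <;> omega

theorem zA {S : Seam k ld al} {n : Num} {e j y z : ℕ} (c : C1 S n e j)
    (h : YZ S n j y z) (hy : Y3 S n j y z)
    (hz : n.n2 + j + S.P + 1 + (if y ≤ n.n2 + j + S.P + 1 then 1 else 0) ≤ z)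
    (hv : (layY S n j y z).vk S n e = wz S n.up + n.N0 + (n.n2 + j + S.P + S.Q + 1 +
      (if y ≤ n.n2 + j + S.P + 1 then 1 else 0))) : Good1 S n e j :=
  zA' c h hy hz _ (by split_ifs <;> omega) le_rfl hv

/-- a hole above the labels `X` -/
theorem ex_hole {S : Seam k ld al} {n : Num} {e j : ℕ} (c : C1 S n e j) (y cc : ℕ)
    (hy : y + S.Q = n.nT + S.h + n.n2 + j + 1 ∨
      (y + S.Q = n.nT + S.h + n.n2 + j + 2 ∧ cc = S.h + 1))
    (h1 : S.P ≤ cc) (h2 : cc ≤ S.h + 1) :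
    ∃ z x U, YZ S n j y z ∧ Y3 S n j y z ∧ YNum S n j y z x U ∧ y < z ∧
      z = n.n2 + j + U + cc + 1 + (if y < z then 1 else 0) + (if x < z then 1 else 0) ∧
      (z = wz S n.up ↔ cc = S.h + 1) ∧ n.n2 + j + U + S.P < z := by
  have N := c.num
  have hw := N.w
  have hP := N.Ph
  have hQ1 := N.Q1
  have hQh := N.Qh
  have hjU := N.jU
  have hPQ := N.PQ
  have hn2 := N.n2T
  by_cases hf : n.sp = 3 ∧ y + (n.n2 + j + S.P + 1 +
      (if y ≤ n.n2 + j + S.P + 1 then 1 else 0)) < n.nT + S.h + n.n2 + j + 1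
  · have hjU3 := N.jU3 hf.1
    have hf2 := hf.2
    obtain ⟨x0, hx0⟩ : ∃ x0, (x0 + y = n.nT + S.h + n.n2 + j + 1 ∧ x0 ≠ y) ∨
        (x0 + y = n.nT + S.h + n.n2 + j + 2 ∧ y + y = n.nT + S.h + n.n2 + j + 1) := by
      by_cases h3 : y + y = n.nT + S.h + n.n2 + j + 1
      · exact ⟨n.nT + S.h + n.n2 + j + 2 - y, by omega⟩
      · exact ⟨n.nT + S.h + n.n2 + j + 1 - y, by omega⟩
    obtain ⟨z, hz⟩ : ∃ z, (x0 ≤ n.n2 + n.Ux + cc + 1 ∧ z = n.n2 + n.Ux + cc + 2) ∨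
        (n.n2 + n.Ux + cc + 1 < x0 ∧ z = n.n2 + n.Ux + cc + 1) := by
      by_cases h3 : x0 ≤ n.n2 + n.Ux + cc + 1
      · exact ⟨_, Or.inl ⟨h3, rfl⟩⟩
      · exact ⟨_, Or.inr ⟨by omega, rfl⟩⟩
    have hyz : y < z := by
      rcases hy with hy | hy <;> rcases hz with hz | hz <;> omega
    have hzw : z ≤ wz S n.up := by
      rcases hz with hz | hz <;> omega
    have hzwc : z = wz S n.up ↔ cc = S.h + 1 := by
      rcases hz with hz | hz
      · omega
      · split_ifs at hf2 <;> rcases hy with hy | hy <;> omega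
    have hY3 : Y3 S n j y z := by
      rcases hy with hy | hy
      · exact Or.inl hy
      · exact Or.inr (Or.inl ⟨hy.1, hzwc.2 hy.2⟩)
    have hYZ : YZ S n j y z := mk_yz c hY3 (by
      rcases hz with hz | hz <;> omega) hzw (by omega) (by
      rcases hz with hz | hz <;> omega)
    obtain ⟨x, U, hN⟩ := exists_ynum S n j y z c.hs c.hA hYZ
    refine ⟨z, x, U, hYZ, hY3, hN, hyz, ?_, hzwc, ?_⟩
    · rcases hN.cs with ⟨_, h5, h6, h7⟩ | ⟨_, _, h6, h7, h8, h9, h10, y0, x1, h11, h12, h13⟩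
      · have := h7 hf.1
        omega
      · rw [if_pos hyz]
        split_ifs <;> omega
    · rcases hN.cs with ⟨_, h5, h6, h7⟩ | ⟨_, _, h6, h7, h8, h9, h10, y0, x1, h11, h12, h13⟩
      · have := h7 hf.1
        omega
      · omega
  · obtain ⟨z, hz⟩ : ∃ z, z = n.n2 + n.Ux + cc + 2 := ⟨_, rfl⟩
    have hyz : y < z := by
      rcases hy with hy | hy <;> omega
    have hzw : z ≤ wz S n.up := by omega
    have hzwc : z = wz S n.up ↔ cc = S.h + 1 := by omega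
    have hY3 : Y3 S n j y z := by
      rcases hy with hy | hy
      · exact Or.inl hy
      · exact Or.inr (Or.inl ⟨hy.1, hzwc.2 hy.2⟩)
    have hYZ : YZ S n j y z := mk_yz c hY3 (by omega) hzw (by omega) (by omega)
    obtain ⟨x, U, hN⟩ := exists_ynum S n j y z c.hs c.hA hYZ
    rcases hN.cs with ⟨_, h5, h6, h7⟩ | ⟨_, _, h6, h7, h8, _⟩
    · refine ⟨z, x, U, hYZ, hY3, hN, hyz, ?_, hzwc, ?_⟩
      · rw [if_pos hyz, if_neg (by omega)]
        omega
      · omega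
    · exact absurd ⟨h7, h8⟩ hf

/-- zone C -/
theorem zC {S : Seam k ld al} {n : Num} {e j y z x U : ℕ} (c : C1 S n e j)
    (h : YZ S n j y z) (hy : Y3 S n j y z) (hN : YNum S n j y z x U) (cc r : ℕ)
    (h1 : S.P ≤ cc) (h2 : S.Q + 1 ≤ r) (h3 : r ≤ S.h + 1)
    (hz : z = n.n2 + j + U + cc + 1 + (if y < z then 1 else 0) + (if x < z then 1 else 0))
    (hv : (layY S n j y z).vk S n e = wz S n.up + n.N0 + n.nT + r + z)
    (hlt : ∀ i, 1 ≤ i → i < k → ¬ ld i → ¬ S.bad i → S.rk (ee i) < r → S.rk (oe i) ≤ cc)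
    (hgt : ∀ i, 1 ≤ i → i < k → ¬ ld i → ¬ S.bad i → r < S.rk (ee i) → cc < S.rk (oe i))
    (hle : n.nT + r + z + (if z = wz S n.up ∧
      y + S.Q = n.nT + S.h + n.n2 + j + 1 ∨ y + S.Q = n.nT + S.h + n.n2 + j then 1 else 0) ≤
        mz S n.up + n.n2 + j - n.N0) : Good1 S n e j := by
  have hg := layY_gl S n j y z c.hs c.hA h
  have N := c.num
  have hm := N.m
  have hzw := h.zw
  have hyw := h.yw
  have hyz := h.yz
  have hH := hole1 hN hyw hyz hzw (n.n2 + j + U + cc) hz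
  have hod : ∀ f, 1 ≤ f → f ≤ k → f % 2 = 1 → (layY S n j y z).p f = sigY S n j y z
      (n.n2 + j + S.rk f + (if S.rk f ≤ S.P then 0 else U)) := by
    intro f _ _ hf
    rw [hg.podd f hf, layY_j, hN.U_eq]
  have hoo : ∀ i, 1 ≤ i → i < k → ¬ ld i → ¬ S.bad i → S.P + 1 ≤ S.rk (oe i) := by
    intro i i1 i2 i3 i4
    obtain ⟨ho, hbi⟩ := S.same' i1 i2 i3
    have o1 : 1 ≤ oe i ∧ oe i ≤ k := by
      unfold oe
      split_ifs <;> omega
    exact (S.rk_og _ o1.1 o1.2 oe_odd (fun h => i4 (hbi.1 h))).1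
  refine mk_good c h hy (von_C S n hg _ z r h2 h3 hv hzw ?_ ?_ ?_ ?_ ?_) ?_
  · rw [layY_j]
    exact (hH _).1 (by omega)
  · intro _
    rw [hg.X, layY_j, hN.U_eq]
    exact (hH _).1 (by omega)
  · intro f f1 f2 f3
    rw [hod f f1 f2 f3]
    exact (hN.char _).2.2.1
  · intro i i1 i2 i3 i4 i5
    have o1 : 1 ≤ oe i ∧ oe i ≤ k := by
      unfold oe
      split_ifs <;> omega
    have h5 := hoo i i1 i2 i3 i4
    have h6 := hlt i i1 i2 i3 i4 i5
    rw [hod _ o1.1 o1.2 oe_odd, if_neg (by omega)]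
    exact (hH _).1 (by omega)
  · intro i i1 i2 i3 i4 i5
    have o1 : 1 ≤ oe i ∧ oe i ≤ k := by
      unfold oe
      split_ifs <;> omega
    have h5 := hoo i i1 i2 i3 i4
    have h6 := hgt i i1 i2 i3 i4 i5
    rw [hod _ o1.1 o1.2 oe_odd, if_neg (by omega)]
    exact (hH _).2 (by omega)
  · rw [hv]
    omega

/-- a hole between the bad odd edges -/
theorem zB {S : Seam k ld al} {n : Num} {e j y z x U : ℕ} (c : C1 S n e j)
    (h : YZ S n j y z) (hy : Y3 S n j y z) (hN : YNum S n j y z x U) (cc r : ℕ)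
    (h1 : cc ≤ S.P) (h3 : r ≤ S.Q) (hz : z = n.n2 + j + cc + 1) (hyb : n.n2 + j + S.P + 1 < y)
    (hv : (layY S n j y z).vk S n e = wz S n.up + n.N0 + r + z)
    (hlt : ∀ i, 1 ≤ i → i < k → ¬ ld i → S.bad i → S.rk (ee i) < r → S.rk (oe i) ≤ cc)
    (hgt : ∀ i, 1 ≤ i → i < k → ¬ ld i → S.bad i → r < S.rk (ee i) → cc < S.rk (oe i)) :
    Good1 S n e j := by
  have hg := layY_gl S n j y z c.hs c.hA h
  have N := c.num
  have hm := N.m
  have hw := N.w
  have hP := N.Ph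
  have hQ1 := N.Q1
  have hQh := N.Qh
  have hzw := h.zw
  have hyw := h.yw
  have hyz := h.yz
  have hx : n.n2 + j + S.P + 1 < x := by
    rcases hN.cs with ⟨_, h5, h6, _⟩ | ⟨_, _, h6, h7, h8, h9, h10, y0, x0, h11, h12, h13⟩
    · omega
    · split_ifs at h8 <;> omega
  have hlo : ∀ r, (r ≤ cc → sigY S n j y z (n.n2 + j + r) < z) ∧
      (cc < r → z < sigY S n j y z (n.n2 + j + r)) := by
    intro r
    obtain ⟨b1, b2, b3, b4⟩ := hN.char (n.n2 + j + r)
    obtain ⟨x1, x2⟩ := hN.ne h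
    constructor
    · intro h5
      split_ifs at b1 <;> omega
    · intro h5
      split_ifs at b1 <;> omega
  have hod : ∀ f, 1 ≤ f → f ≤ k → f % 2 = 1 → (layY S n j y z).p f = sigY S n j y z
      (n.n2 + j + S.rk f + (if S.rk f ≤ S.P then 0 else U)) := by
    intro f _ _ hf
    rw [hg.podd f hf, layY_j, hN.U_eq]
  have hoo : ∀ i, 1 ≤ i → i < k → ¬ ld i → S.bad i → S.rk (oe i) ≤ S.P := by
    intro i i1 i2 i3 i4
    obtain ⟨ho, hbi⟩ := S.same' i1 i2 i3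
    have o1 : 1 ≤ oe i ∧ oe i ≤ k := by
      unfold oe
      split_ifs <;> omega
    exact (S.rk_ob _ o1.1 o1.2 oe_odd (hbi.2 i4)).2
  refine mk_good c h hy (von_B S n hg _ z r h3 hv hzw ?_ ?_ ?_ ?_) ?_
  · rw [hg.X, layY_j]
    exact (hlo (S.P + 1)).2 (by omega)
  · intro f f1 f2 f3
    rw [hod f f1 f2 f3]
    exact (hN.char _).2.2.1
  · intro i i1 i2 i3 i4 i5
    have o1 : 1 ≤ oe i ∧ oe i ≤ k := by
      unfold oe
      split_ifs <;> omega
    have h5 := hoo i i1 i2 i3 i4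
    have h6 := hlt i i1 i2 i3 i4 i5
    rw [hod _ o1.1 o1.2 oe_odd, if_pos (by omega), Nat.add_zero]
    exact (hlo _).1 (by omega)
  · intro i i1 i2 i3 i4 i5
    have o1 : 1 ≤ oe i ∧ oe i ≤ k := by
      unfold oe
      split_ifs <;> omega
    have h5 := hoo i i1 i2 i3 i4
    have h6 := hgt i i1 i2 i3 i4 i5
    rw [hod _ o1.1 o1.2 oe_odd, if_pos (by omega), Nat.add_zero]
    exact (hlo _).2 (by omega)
  · rw [hv]
    split_ifs <;> omega

/-- the label of the edge `1` in the layer without `z` -/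
theorem funP1 {S : Seam k ld al} {n : Num} {e j Y : ℕ} (c : C1 S n e j)
    (hY : Y + S.Q = n.nT + S.h + n.n2 + j + 1) :
    (funP S n j).lg = false ∧ ∃ x U, ((x = wz S n.up + 2 ∧ U + j = n.Ux + 1) ∨
        (n.sp = 3 ∧ U + j = n.Ux ∧ (x = S.Q ∧ Y ≠ S.Q ∨ x = S.Q + 1 ∧ Y = S.Q) ∧
          n.n2 + j + S.P + 1 + (if Y ≤ n.n2 + j + S.P + 1 then 1 else 0) < S.Q)) ∧
      (funP S n j).p 1 = n.n2 + j + S.rk 1 + (if S.rk 1 ≤ S.P then 0 else U) +
        (if Y < (funP S n j).p 1 then 1 else 0) + (if x < (funP S n j).p 1 then 1 else 0) ∧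
      (funP S n j).p 1 ≠ Y ∧ (funP S n j).p 1 ≠ x := by
  have N := c.num
  have hs := c.hs
  have hs' : n.up.sp ≠ 0 := c.hs
  have hQ := N.Qh
  have hjU := N.jU
  have hw := N.w
  have hYw : Y ≤ wz S n.up := by omega
  have hY' : n.n2 + j + n.nT + S.h + 1 - S.Q = Y := by omega
  have hL : layOf S n.up j = lay1 S n.up j := by
    unfold layOf
    rw [if_neg hs', if_pos c.hm]
  by_cases hf : n.sp = 3 ∧ Y + (n.n2 + j + S.P + 1 +
      (if Y ≤ n.n2 + j + S.P + 1 then 1 else 0)) < n.nT + S.h + n.n2 + j + 1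
  · have hjU3 := N.jU3 hf.1
    have hf2 := hf.2
    have hl : layOf S n.up j = layD n.up j Y (if S.Q = Y then S.Q + 1 else S.Q) := by
      rw [hL]
      unfold lay1
      change (if n.sp = 3 ∧ (n.n2 + j + n.nT + S.h + 1 - S.Q) + (n.n2 + j + S.P + 1 +
        (if n.n2 + j + n.nT + S.h + 1 - S.Q ≤ n.n2 + j + S.P + 1 then 1 else 0)) <
        n.nT + S.h + n.n2 + j + 1 then layD n.up j (n.n2 + j + n.nT + S.h + 1 - S.Q)
        (if S.Q = n.n2 + j + n.nT + S.h + 1 - S.Q then S.Q + 1 else S.Q) else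
        layS S n.up j (n.n2 + j + n.nT + S.h + 1 - S.Q)) = _
      rw [hY', if_pos hf]
    obtain ⟨x, hx⟩ : ∃ x, x = if S.Q = Y then S.Q + 1 else S.Q := ⟨_, rfl⟩
    rw [← hx] at hl
    have hx' : x = S.Q ∧ Y ≠ S.Q ∨ x = S.Q + 1 ∧ Y = S.Q := by
      split_ifs at hx <;> omega
    have hp : (funP S n j).p 1 = lam (min Y x) (max Y x) (n.n2 + j + S.rk 1 +
        (if S.rk 1 ≤ S.P then 0 else n.Ux - j)) := by
      change pl S n.up (layOf S n.up j) 1 = _
      rw [hl]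
      unfold pl lop layD
      change lam (min Y x) (max Y x) (if S.rk 1 ≤ S.P then n.n2 + j + S.rk 1 else
        n.n2 + j + (n.Ux + 1 - 1 - j) + S.rk 1) = _
      congr 1
      split_ifs <;> omega
    have hlg : (funP S n j).lg = false := by
      change (layOf S n.up j).lg = false
      rw [hl]
      rfl
    refine ⟨hlg, x, n.Ux - j, Or.inr ⟨hf.1, by omega, hx', ?_⟩, ?_⟩
    · split_ifs at hf2 ⊢ <;> omega
    · have h7 := lam_chr (min Y x) (max Y x) (n.n2 + j + S.rk 1 +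
        (if S.rk 1 ≤ S.P then 0 else n.Ux - j)) (by omega)
      rw [← hp] at h7
      rcases Nat.lt_or_ge Y x with h6 | h6
      · rw [min_eq_left h6.le, max_eq_right h6.le] at h7
        exact h7
      · rw [min_eq_right h6, max_eq_left h6] at h7
        exact ⟨by omega, h7.2.2, h7.2.1⟩
  · have hl : layOf S n.up j = layS S n.up j Y := by
      rw [hL]
      unfold lay1
      change (if n.sp = 3 ∧ (n.n2 + j + n.nT + S.h + 1 - S.Q) + (n.n2 + j + S.P + 1 +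
        (if n.n2 + j + n.nT + S.h + 1 - S.Q ≤ n.n2 + j + S.P + 1 then 1 else 0)) <
        n.nT + S.h + n.n2 + j + 1 then layD n.up j (n.n2 + j + n.nT + S.h + 1 - S.Q)
        (if S.Q = n.n2 + j + n.nT + S.h + 1 - S.Q then S.Q + 1 else S.Q) else
        layS S n.up j (n.n2 + j + n.nT + S.h + 1 - S.Q)) = _
      rw [hY', if_neg hf]
    have hp : (funP S n j).p 1 = lam Y (wz S n.up + 2) (n.n2 + j + S.rk 1 +
        (if S.rk 1 ≤ S.P then 0 else n.Ux + 1 - j)) := by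
      change pl S n.up (layOf S n.up j) 1 = _
      rw [hl]
      unfold pl lop layS
      change lam Y (wz S n.up + 2) (if S.rk 1 ≤ S.P then n.n2 + j + S.rk 1 else
        n.n2 + j + (n.Ux + 1 - j) + S.rk 1) = _
      congr 1
      split_ifs <;> omega
    have hlg : (funP S n j).lg = false := by
      change (layOf S n.up j).lg = false
      rw [hl]
      rfl
    refine ⟨hlg, wz S n.up + 2, n.Ux + 1 - j, Or.inl ⟨rfl, by omega⟩, ?_⟩
    have h7 := lam_chr Y (wz S n.up + 2) (n.n2 + j + S.rk 1 +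
      (if S.rk 1 ≤ S.P then 0 else n.Ux + 1 - j)) (by omega)
    rw [← hp] at h7
    exact h7

end Pool.Agent.Lob5
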