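import Pool.Agent.Lob5.P2S1

/-!
# The selection of the layers for `K - 1` with one leaf: mode 1, edge `1` bad
-/

namespace Pool.Agent.Lob5

variable {k : ℕ} {ld al : ℕ → Prop}

theorem sel1_bad {S : Seam k ld al} {n : Num} {e j : ℕ} (c : C1 S n e j) (hb : S.bad 1)
    (R : ℕ) (hR : HoleB S R) (hRQ : R + 1 ≤ S.Q) :
    Good1 S n e j ∨ P2OK S n e (funP S n j) true := by
  have N := c.num
  have hw := N.w
  have hm := N.m
  have hP1 := N.P1
  have hP := N.Ph
  have hQ1 := N.Q1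
  have hQh := N.Qh
  have hjU := N.jU
  have hPQ := N.PQ
  have hn2 := N.n2T
  have hd := N.d
  obtain ⟨hb1, hb2, hb3, hb4⟩ := N.b hb
  obtain ⟨Y, hY⟩ : ∃ Y, Y + S.Q = n.nT + S.h + n.n2 + j + 1 :=
    ⟨n.nT + S.h + n.n2 + j + 1 - S.Q, by omega⟩
  obtain ⟨F0, hF0⟩ : ∃ F0, (Y ≤ n.n2 + j + S.rk 1 ∧ F0 = n.n2 + j + S.rk 1 + 1) ∨
      (n.n2 + j + S.rk 1 < Y ∧ F0 = n.n2 + j + S.rk 1) := by
    by_cases h3 : Y ≤ n.n2 + j + S.rk 1
    · exact ⟨_, Or.inl ⟨h3, rfl⟩⟩
    · exact ⟨_, Or.inr ⟨by omega, rfl⟩⟩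
  -- the label of the edge `1`
  have key : ∀ {y z x U : ℕ}, YZ S n j y z → YNum S n j y z x U →
      (y = Y ∨ n.n2 + j + S.P + 1 ≤ y ∧ F0 < Y) → F0 < z → F0 < x →
      (layY S n j y z).vk S n e + dZ n.sp e = F0 + (wz S n.up + n.N0) + z := by
    intro y z x U h hN hy hz hx
    rw [vk1 c hN h, if_pos hb2, Nat.add_zero]
    obtain ⟨b1, b2, b3, b4⟩ := hN.char (n.n2 + j + S.rk 1)
    obtain ⟨x1, x2⟩ := hN.ne h
    have hyz := h.yz
    rcases hy with rfl | hy
    · rcases hF0 with hF0 | hF0 <;> split_ifs at b1 <;> omega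
    · split_ifs at b1 <;> omega
  have hxb : ∀ {y z x U : ℕ}, YZ S n j y z → YNum S n j y z x U →
      y + S.Q ≤ n.nT + S.h + n.n2 + j + 1 → n.n2 + j + S.P + 1 < x := by
    intro y z x U h hN hy
    have hyw := h.yw
    have hzw := h.zw
    rcases hN.cs with ⟨_, h5, h6, _⟩ | ⟨_, _, h6, h7, h8, h9, h10, y0, x0, h11, h12, h13⟩
    · omega
    · split_ifs at h8 <;> omega
  by_cases c1 : F0 ≤ S.Q + dZ n.sp e
  · -- zone A
    left
    obtain ⟨z, hz⟩ : ∃ z, z + F0 = n.n2 + j + S.P + S.Q + 1 + dZ n.sp e +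
        (if Y ≤ n.n2 + j + S.P + 1 then 1 else 0) :=
      ⟨n.n2 + j + S.P + S.Q + 1 + dZ n.sp e +
        (if Y ≤ n.n2 + j + S.P + 1 then 1 else 0) - F0, by omega⟩
    by_cases c2 : z = Y
    · have hYb : n.n2 + j + S.P + 1 < Y := by
        split_ifs at hz <;> omega
      rw [if_neg (by omega)] at hz
      by_cases c3 : 1 ≤ n.n2 + j
      · obtain ⟨y, hy⟩ : ∃ y, y + 1 = Y := ⟨Y - 1, by omega⟩
        have hy3 : Y3 S n j y z := Or.inr (Or.inr ⟨by omega, c3, by omega, by omega⟩)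
        have hYZ : YZ S n j y z := mk_yz c hy3 (by omega) (by omega) (by omega) (by omega)
        obtain ⟨x, U, hN⟩ := exists_ynum S n j y z c.hs c.hA hYZ
        have hx := hxb hYZ hN (by omega)
        have hk := key hYZ hN (Or.inr ⟨by omega, by omega⟩) (by omega) (by omega)
        exact zA' c hYZ hy3 (by split_ifs <;> omega) 0 (by rw [if_neg (by omega)])
          (by omega) (by omega)
      · have hy3 : Y3 S n j Y (R + 1 + dZ n.sp e) := Or.inl hY
        have hYZ : YZ S n j Y (R + 1 + dZ n.sp e) := mk_yz c hy3 (by omega) (by omega) (by omega)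
          (by omega)
        have hg := layY_gl S n j Y (R + 1 + dZ n.sp e) c.hs c.hA hYZ
        have hdN := N.dN
        have hvk : (layY S n j Y (R + 1 + dZ n.sp e)).vk S n e =
            wz S n.up + n.N0 + (layY S n j Y (R + 1 + dZ n.sp e)).p 1 + R + 1 := by
          change _ + pkZ S n e + (R + 1 + dZ n.sp e) = _
          omega
        refine mk_good c hYZ hy3 (von_HB S n hg _ R hR hb hRQ hvk) ?_
        obtain ⟨x, U, hN⟩ := exists_ynum S n j Y (R + 1 + dZ n.sp e) c.hs c.hA hYZ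
        have h1 : (layY S n j Y (R + 1 + dZ n.sp e)).p 1 =
            sigY S n j Y (R + 1 + dZ n.sp e) (n.n2 + j + S.rk 1) := by
          have h1 := hg.podd 1 rfl
          rw [if_pos hb2, layY_j] at h1
          exact h1
        have h2 := (hN.char (n.n2 + j + S.rk 1)).1
        have h3 : (layY S n j Y (R + 1 + dZ n.sp e)).p 1 ≤ n.n2 + j + S.rk 1 + 3 := by
          rw [h1]
          have i1 : ∀ (p : Prop) [Decidable p], (if p then 1 else 0) ≤ 1 := by
            intro p _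
            split_ifs <;> omega
          have h4 : sigY S n j Y (R + 1 + dZ n.sp e) (n.n2 + j + S.rk 1) ≤
              n.n2 + j + S.rk 1 + 1 + 1 + 1 := h2.le.trans
            (Nat.add_le_add (Nat.add_le_add (Nat.add_le_add le_rfl (i1 _)) (i1 _)) (i1 _))
          omega
        rw [hvk]
        split_ifs <;> omega
    · have hy3 : Y3 S n j Y z := Or.inl hY
      have hYZ : YZ S n j Y z := mk_yz c hy3 (by
        split_ifs at hz <;> omega) (by
        split_ifs at hz <;> omega) (by omega) (by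
        split_ifs at hz <;> omega)
      obtain ⟨x, U, hN⟩ := exists_ynum S n j Y z c.hs c.hA hYZ
      have hx := hxb hYZ hN (by omega)
      refine zA c hYZ hy3 (by omega) ?_
      have hk := key hYZ hN (Or.inl rfl) (by
        split_ifs at hz <;> omega) (by omega)
      omega
  by_cases c2 : F0 ≤ S.Q + n.nT + 1 + dZ n.sp e
  · -- the greedy group
    right
    obtain ⟨hlg, x, U, hxU, hp, hp1, hp2⟩ := funP1 c hY
    rw [if_pos hb2, Nat.add_zero] at hp
    have hp3 : (funP S n j).p 1 = F0 := by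
      rcases hxU with ⟨h1, h2⟩ | ⟨h1, h2, h3, h4⟩
      · split_ifs at hp <;> omega
      · split_ifs at hp h4 <;> omega
    have hdN := N.dN
    refine p2ok_L S n e j c.hA hlg ?_ ?_
    · rw [hp3]
      omega
    · rw [hp3]
      omega
  left
  have nofl : ∀ {y z x U : ℕ}, YZ S n j y z → YNum S n j y z x U →
      y = Y → x = wz S n.up + 2 ∧ U + j = n.Ux := by
    intro y z x U h hN hy
    subst hy
    rcases hN.cs with ⟨_, h5, h6, _⟩ | ⟨_, _, h6, h7, h8, _⟩
    · exact ⟨h5, h6⟩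
    · split_ifs at h8 <;> omega
  by_cases c3 : F0 ≤ n.nT + S.h + dZ n.sp e
  · -- zone C
    obtain ⟨r, hr⟩ : ∃ r, r + n.nT + dZ n.sp e = F0 := ⟨F0 - n.nT - dZ n.sp e, by omega⟩
    have hcG := S.cutG_le r
    obtain ⟨z, x, U, hYZ, hy3, hN, hyz, hz, hzw, hz2⟩ := ex_hole c Y (S.P + S.cutG r)
      (Or.inl hY) (by omega) hcG
    obtain ⟨hx, hU⟩ := nofl hYZ hN rfl
    have hz' := hz
    rw [if_pos hyz] at hz'
    have hk := key hYZ hN (Or.inl rfl) (by omega) (by omega)
    refine zC c hYZ hy3 hN (S.P + S.cutG r) r (by omega) (by omega) (by omega) hz (by omega)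
      (S.cutG_lt r (by omega) (by omega)) (S.cutG_gt r (by omega) (by omega)) ?_
    have hzw' := hYZ.zw
    split_ifs <;> omega
  · -- zone D
    have hy3 : Y3 S n j Y (wz S n.up) := Or.inl hY
    have hYZ : YZ S n j Y (wz S n.up) := mk_yz c hy3 (by omega) le_rfl (by omega) (by omega)
    obtain ⟨x, U, hN⟩ := exists_ynum S n j Y (wz S n.up) c.hs c.hA hYZ
    obtain ⟨hx, hU⟩ := nofl hYZ hN rfl
    have hk := key hYZ hN (Or.inl rfl) (by omega) (by omega)
    have ht := top1 c hN hYZ hy3.y3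
    have hg := layY_gl S n j Y (wz S n.up) c.hs c.hA hYZ
    rw [if_pos rfl] at ht
    refine mk_good c hYZ hy3 (von_top S n hg _ (fun _ => by omega) ?_ ?_ ?_) ?_
    · rw [hN.U_eq, layY_j]
      omega
    · omega
    · rw [layY_j]
      omega
    · split_ifs <;> omega

end Pool.Agent.Lob5
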