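import Pool.Agent.Lob5.P2S1
import Pool.Agent.Lob5.P2Facts

/-!
# The selection of the layers for `K - 1` with one leaf: mode 1, edge `1` good
-/

namespace Pool.Agent.Lob5

variable {k : ℕ} {ld al : ℕ → Prop}

/-- the label of the edge `1`, zones C and D; `G = n2 + Ux + rk 1 + 1` -/
theorem keyCD {S : Seam k ld al} {n : Num} {e j y z x U : ℕ} (c : C1 S n e j)
    (hb : ¬ S.bad 1) (h : YZ S n j y z) (hN : YNum S n j y z x U) (hyz : y < z)
    (hy : y + S.Q = n.nT + S.h + n.n2 + j + 1 ∨ y + S.Q = n.nT + S.h + n.n2 + j + 2)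
    (hG : S.Q ≤ n.n2 + n.Ux + S.rk 1) :
    (n.n2 + n.Ux + S.rk 1 + 1 < z →
      sigY S n j y z (n.n2 + j + S.rk 1 + U) = n.n2 + n.Ux + S.rk 1 + 1) ∧
    (z ≤ n.n2 + n.Ux + S.rk 1 + 1 →
      sigY S n j y z (n.n2 + j + S.rk 1 + U) = n.n2 + n.Ux + S.rk 1 + 2) := by
  have N := c.num
  have hw := N.w
  have hP1 := N.P1
  have hQ1 := N.Q1
  have hQh := N.Qh
  have hjU := N.jU
  have hPQ := N.PQ
  obtain ⟨hg1, hg2⟩ := N.g hb
  obtain ⟨b1, b2, b3, b4⟩ := hN.char (n.n2 + j + S.rk 1 + U)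
  obtain ⟨x1, x2⟩ := hN.ne h
  have hzw := h.zw
  rcases hN.cs with ⟨_, h5, h6, _⟩ | ⟨_, _, h6, h7, h8, h9, h10, y0, x0, h11, h12, h13⟩
  · constructor
    · intro h3
      split_ifs at b1 <;> omega
    · intro h3
      split_ifs at b1 <;> omega
  · have hjU3 := N.jU3 h7
    constructor
    · intro h3
      rcases h13 with h13 | h13 <;> split_ifs at b1 <;> omega
    · intro h3
      rcases h13 with h13 | h13 <;> split_ifs at b1 <;> omega

/-- the label of the edge `1`, zone A -/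
theorem keyA {S : Seam k ld al} {n : Num} {e j Y z x U F0 : ℕ} (c : C1 S n e j)
    (hb : ¬ S.bad 1) (h : YZ S n j Y z) (hN : YNum S n j Y z x U)
    (hY : Y + S.Q = n.nT + S.h + n.n2 + j + 1)
    (hF0 : (¬ (n.sp = 3 ∧ n.n2 + j + S.P + 1 +
          (if Y ≤ n.n2 + j + S.P + 1 then 1 else 0) < S.Q) ∧
        F0 = n.n2 + n.Ux + S.rk 1 + 1) ∨
      ((n.sp = 3 ∧ n.n2 + j + S.P + 1 +
          (if Y ≤ n.n2 + j + S.P + 1 then 1 else 0) < S.Q) ∧
        F0 = n.n2 + n.Ux + S.rk 1 ∧ F0 + 1 ≤ S.Q)) :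
    (F0 < z → sigY S n j Y z (n.n2 + j + S.rk 1 + U) = F0) ∧
    (z ≤ F0 → sigY S n j Y z (n.n2 + j + S.rk 1 + U) = F0 + 1) := by
  have N := c.num
  have hw := N.w
  have hP1 := N.P1
  have hQ1 := N.Q1
  have hQh := N.Qh
  have hjU := N.jU
  have hPQ := N.PQ
  obtain ⟨hg1, hg2⟩ := N.g hb
  obtain ⟨b1, b2, b3, b4⟩ := hN.char (n.n2 + j + S.rk 1 + U)
  obtain ⟨x1, x2⟩ := hN.ne h
  have hzw := h.zw
  have hyz := h.yz
  rcases hN.cs with ⟨_, h5, h6, h7⟩ | ⟨_, _, h6, h7, h8, h9, h10, y0, x0, h11, h12, h13⟩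
  · rcases hF0 with ⟨f1, f2⟩ | ⟨⟨f1, f2⟩, f3, f4⟩
    · constructor
      · intro h3
        split_ifs at b1 <;> omega
      · intro h3
        split_ifs at b1 <;> omega
    · exfalso
      have h8 := h7 f1
      omega
  · have hjU3 := N.jU3 h7
    rcases hF0 with ⟨f1, f2⟩ | ⟨⟨f1, f2⟩, f3, f4⟩
    · exact absurd ⟨h7, by omega⟩ f1
    · constructor
      · intro h3
        rcases h13 with h13 | h13 <;> split_ifs at b1 <;> omega
      · intro h3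
        rcases h13 with h13 | h13 <;> split_ifs at b1 <;> omega

/-- the rank of the hole, zone C -/
theorem hole_rank (S : Seam k ld al) (R : ℕ) (hR : Hole0 S R) (r : ℕ) (hr1 : S.Q + 1 ≤ r)
    (hr2 : r ≤ S.h) (hg1 : S.P + 1 ≤ S.rk 1) (hg2 : S.rk 1 ≤ S.h) :
    ∃ cc r', S.P ≤ cc ∧ cc ≤ S.h + 1 ∧ S.Q + 1 ≤ r' ∧ r' ≤ S.h + 1 ∧
      (S.rk 1 ≤ cc ∧ r' = r ∨ cc < S.rk 1 ∧ r' = r + 1) ∧
      (∀ i, 1 ≤ i → i < k → ¬ ld i → ¬ S.bad i → S.rk (ee i) < r' → S.rk (oe i) ≤ cc) ∧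
      (∀ i, 1 ≤ i → i < k → ¬ ld i → ¬ S.bad i → r' < S.rk (ee i) → cc < S.rk (oe i)) := by
  have hRh := hR.Rh
  have hQR := hR.QR
  rcases lt_trichotomy r R with h8 | h8 | h8
  · rcases Nat.lt_or_ge (S.P + S.cutG (r + 1)) (S.rk 1) with h9 | h9
    · refine ⟨S.P + S.cutG (r + 1), r + 1, by omega, by omega, by omega,
        by omega, Or.inr ⟨h9, rfl⟩, ?_, ?_⟩
      · exact S.cutG_lt (r + 1) (by omega) (by omega)
      · exact S.cutG_gt (r + 1) (by omega) (by omega)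
    · refine ⟨S.rk 1 - 1, r + 1, by omega, by omega, by omega,
        by omega, Or.inr ⟨by omega, rfl⟩, ?_, ?_⟩
      · intro i i1 i2 i3 i4 i5
        have h10 := hR.lt i i1 i2 i3 i4 (by omega)
        omega
      · intro i i1 i2 i3 i4 i5
        have h10 := S.cutG_gt (r + 1) (by omega) (by omega) i i1 i2 i3 i4 i5
        omega
  · refine ⟨S.rk 1 - 1, r + 1, by omega, by omega, by omega, by omega,
      Or.inr ⟨by omega, rfl⟩, ?_, ?_⟩
    · intro i i1 i2 i3 i4 i5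
      have h10 := hR.lt i i1 i2 i3 i4 (by omega)
      omega
    · intro i i1 i2 i3 i4 i5
      have h10 := hR.gt i i1 i2 i3 i4 (by omega)
      omega
  · have hcG := S.cutG_le r
    rcases Nat.lt_or_ge (S.P + S.cutG r) (S.rk 1) with h9 | h9
    · refine ⟨S.rk 1, r, by omega, by omega, by omega, by omega, Or.inl ⟨le_rfl, rfl⟩, ?_, ?_⟩
      · intro i i1 i2 i3 i4 i5
        have h10 := S.cutG_lt r (by omega) (by omega) i i1 i2 i3 i4 i5
        omega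
      · intro i i1 i2 i3 i4 i5
        have h10 := hR.gt i i1 i2 i3 i4 (by omega)
        have h11 := hR.e1 i i1 i2 i3 i4
        by_contra h12
        have h13 := h11 (by omega)
        omega
    · exact ⟨S.P + S.cutG r, r, by omega, hcG, by omega, by omega, Or.inl ⟨h9, rfl⟩,
        S.cutG_lt r (by omega) (by omega), S.cutG_gt r (by omega) (by omega)⟩

theorem good_C {S : Seam k ld al} {n : Num} {e j Y : ℕ} (c : C1 S n e j) (hb : ¬ S.bad 1)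
    (hY : Y + S.Q = n.nT + S.h + n.n2 + j + 1) (R : ℕ) (hR : Hole0 S R)
    (c2 : S.Q + n.nT + dZ n.sp e < n.n2 + n.Ux + S.rk 1 + 1)
    (c3 : n.n2 + n.Ux + S.rk 1 + 1 ≤ n.nT + S.h + dZ n.sp e) : Good1 S n e j := by
  have N := c.num
  obtain ⟨hg1, hg2⟩ := N.g hb
  obtain ⟨r, hr⟩ : ∃ r, r + n.nT + dZ n.sp e = n.n2 + n.Ux + S.rk 1 + 1 :=
    ⟨n.n2 + n.Ux + S.rk 1 + 1 - n.nT - dZ n.sp e, by omega⟩
  obtain ⟨cc, r', h1, h2, h3, h4, h5, h6, h7⟩ := hole_rank S R hR r (by omega) (by omega)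
    hg1 hg2
  obtain ⟨y, hy⟩ : ∃ y, (y = Y ∧ cc ≤ S.h) ∨ (y = Y + 1 ∧ cc = S.h + 1) := by
    by_cases h8 : cc ≤ S.h
    · exact ⟨Y, Or.inl ⟨rfl, h8⟩⟩
    · exact ⟨Y + 1, Or.inr ⟨rfl, by omega⟩⟩
  obtain ⟨z, x, U, hYZ, hy3, hN, hyz, hz, hzw, hz2⟩ := ex_hole c y cc (by omega) h1 h2
  have hzw' := hYZ.zw
  have hH := hole1 hN hYZ.yw hYZ.yz hzw' (n.n2 + j + U + cc) hz (n.n2 + j + S.rk 1 + U)
  have hk := keyCD c hb hYZ hN hyz (by omega) (by omega)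
  have hv := vk1 c hN hYZ
  rw [if_neg (by omega)] at hv
  have hF : sigY S n j y z (n.n2 + j + S.rk 1 + U) = n.nT + r' + dZ n.sp e := by
    generalize sigY S n j y z (n.n2 + j + S.rk 1 + U) = F at hH hk
    clear hv hz hN hYZ hy3 h6 h7 hR c
    rcases h5 with ⟨h5, h8⟩ | ⟨h5, h8⟩
    · have h9 := hH.1 (by omega)
      by_cases h10 : n.n2 + n.Ux + S.rk 1 + 1 < z
      · have := hk.1 h10
        omega
      · have := hk.2 (by omega)
        omega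
    · have h9 := hH.2 (by omega)
      by_cases h10 : n.n2 + n.Ux + S.rk 1 + 1 < z
      · have := hk.1 h10
        omega
      · have := hk.2 (by omega)
        omega
  have hv' : (layY S n j y z).vk S n e = wz S n.up + n.N0 + n.nT + r' + z := by
    clear hz hk hH
    omega
  refine zC c hYZ hy3 hN cc r' h1 h3 h4 hz hv' h6 h7 ?_
  have hm := N.m
  have hQh := N.Qh
  have h8 : n.nT + r' + z ≤ wz S n.up + n.nT + S.h + n.n2 + j := by
    rcases h5 with ⟨h5, h8⟩ | ⟨h5, h8⟩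
    · clear hz hk hH hv hv' hF
      omega
    · have h9 : z < wz S n.up := by
        have h10 : z ≠ wz S n.up := fun h10 => by
          have := hzw.1 h10
          omega
        omega
      clear hz hk hH hv hv' hF
      omega
  have h9 : ¬ (z = wz S n.up ∧ y + S.Q = n.nT + S.h + n.n2 + j + 1 ∨
      y + S.Q = n.nT + S.h + n.n2 + j) := by
    rintro (⟨h9, h10⟩ | h9)
    · have := hzw.1 h9
      clear hz hk hH hv hv' hF
      omega
    · clear hz hk hH hv hv' hF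
      omega
  rw [if_neg h9]
  clear hz hk hH hv hv' hF
  omega

theorem good_D1 {S : Seam k ld al} {n : Num} {e j Y : ℕ} (c : C1 S n e j) (hb : ¬ S.bad 1)
    (hY : Y + S.Q = n.nT + S.h + n.n2 + j + 1)
    (c3 : n.nT + S.h + dZ n.sp e < n.n2 + n.Ux + S.rk 1 + 1)
    (c4 : n.n2 + n.Ux + S.rk 1 + 1 ≤ n.nT + S.h + n.n2 + j + dZ n.sp e) :
    Good1 S n e j := by
  have N := c.num
  obtain ⟨hg1, hg2⟩ := N.g hb
  have hw := N.w
  have hm := N.m
  have hQh := N.Qh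
  have hPQ := N.PQ
  have hjU := N.jU
  have hP := N.Ph
  have hy3 : Y3 S n j (Y + 1) (wz S n.up) := Or.inr (Or.inl ⟨by omega, rfl⟩)
  have hYZ : YZ S n j (Y + 1) (wz S n.up) := mk_yz c hy3 (by omega) le_rfl (by omega) (by omega)
  obtain ⟨x, U, hN⟩ := exists_ynum S n j (Y + 1) (wz S n.up) c.hs c.hA hYZ
  have hk := (keyCD c hb hYZ hN (by omega) (by omega) (by omega)).1 (by omega)
  have hv := vk1 c hN hYZ
  rw [if_neg (by omega), hk] at hv
  have ht := top1 c hN hYZ hy3.y3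
  have hg := layY_gl S n j (Y + 1) (wz S n.up) c.hs c.hA hYZ
  rw [if_pos rfl] at ht
  refine mk_good c hYZ hy3 (von_top S n hg _ (fun _ => by omega) ?_ ?_ ?_) ?_
  · rw [hN.U_eq, layY_j]
    omega
  · omega
  · rw [layY_j]
    omega
  · rw [if_neg (by omega)]
    omega

theorem good_D2 {S : Seam k ld al} {n : Num} {e j Y : ℕ} (c : C1 S n e j) (hb : ¬ S.bad 1)
    (hY : Y + S.Q = n.nT + S.h + n.n2 + j + 1) (ha : 1 ≤ n.n2 + j)
    (c4 : n.nT + S.h + n.n2 + j + dZ n.sp e < n.n2 + n.Ux + S.rk 1 + 1) :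
    Good1 S n e j := by
  have N := c.num
  obtain ⟨hg1, hg2⟩ := N.g hb
  have hw := N.w
  have hm := N.m
  have hd := N.d
  have hQh := N.Qh
  have hPQ := N.PQ
  have hQ1 := N.Q1
  have hjU := N.jU
  have hP := N.Ph
  obtain ⟨z, hz⟩ : ∃ z, (n.n2 + n.Ux + S.rk 1 + 1 < z ∧ z + (n.n2 + n.Ux + S.rk 1 + 1) =
      wz S n.up + (n.nT + S.h + n.n2 + j) + dZ n.sp e) ∨
      (z ≤ n.n2 + n.Ux + S.rk 1 + 1 ∧ z + (n.n2 + n.Ux + S.rk 1 + 2) =
      wz S n.up + (n.nT + S.h + n.n2 + j) + dZ n.sp e) := by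
    obtain ⟨z, hz⟩ : ∃ z, z + (n.n2 + n.Ux + S.rk 1 + 1) =
      wz S n.up + (n.nT + S.h + n.n2 + j) + dZ n.sp e :=
      ⟨wz S n.up + (n.nT + S.h + n.n2 + j) + dZ n.sp e - (n.n2 + n.Ux + S.rk 1 + 1), by omega⟩
    by_cases h3 : n.n2 + n.Ux + S.rk 1 + 1 < z
    · exact ⟨z, Or.inl ⟨h3, hz⟩⟩
    · exact ⟨z - 1, Or.inr ⟨by omega, by omega⟩⟩
  have hz1 : Y < z ∧ z < wz S n.up ∧ n.n2 + j + S.P + 1 < z := by
    rcases hz with hz | hz <;> omega
  have hy3 : Y3 S n j Y z := Or.inl hY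
  have hYZ : YZ S n j Y z := mk_yz c hy3 (by omega) (by omega) (by omega) (by omega)
  obtain ⟨x, U, hN⟩ := exists_ynum S n j Y z c.hs c.hA hYZ
  have hk := keyCD c hb hYZ hN hz1.1 (by omega) (by omega)
  have hv := vk1 c hN hYZ
  rw [if_neg (by omega)] at hv
  have hv' : (layY S n j Y z).vk S n e = wz S n.up + mz S n.up + (n.n2 + j) := by
    rcases hz with hz | hz
    · rw [hk.1 hz.1] at hv
      omega
    · rw [hk.2 hz.1] at hv
      omega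
  have hg := layY_gl S n j Y z c.hs c.hA hYZ
  refine mk_good c hYZ hy3 (von_T S n hg _ (fun _ => by omega) ?_ ?_) ?_
  · rw [hv']
    omega
  · rw [hv', layY_j]
    omega
  · rw [hv', if_neg (by omega)]
    omega

/-- the labels of the good odd edges of high rank -/
theorem hno_D3 {S : Seam k ld al} {n : Num} {e j Y z x U : ℕ} (c : C1 S n e j)
    (hb : ¬ S.bad 1) (hYZ : YZ S n j Y z) (hN : YNum S n j Y z x U)
    (hY : Y + S.Q = n.nT + S.h + n.n2 + j + 1) (ha : n.n2 + j = 0)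
    (c4 : n.nT + S.h + dZ n.sp e < n.n2 + n.Ux + S.rk 1 + 1) (l : ℕ)
    (hr1 : 2 * S.rk 1 + l ≤ 2 * S.h + 2) (hyz : Y < z)
    (hz : z + l + (n.n2 + n.Ux + S.rk 1 + 1) ≤
      wz S n.up + (n.nT + S.h + n.n2 + j) + dZ n.sp e) (g : ℕ)
    (h1 : 2 * S.h + 2 ≤ 2 * g + l) (h2 : g ≤ S.h + 1) :
    sigY S n j Y z (n.n2 + j + U + g) + (S.h + 1) = wz S n.up + g := by
  have N := c.num
  obtain ⟨hg1, hg2⟩ := N.g hb
  have hw := N.w
  have hd := N.d
  have hQh := N.Qh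
  have hPQ := N.PQ
  have hQ1 := N.Q1
  have hjU := N.jU
  have hP := N.Ph
  have hP1 := N.P1
  obtain ⟨b1, b2, b3, b4⟩ := hN.char (n.n2 + j + U + g)
  obtain ⟨x1, x2⟩ := hN.ne hYZ
  rcases hN.cs with ⟨_, h5, h6, _⟩ | ⟨_, _, h6, h7, h8, h9, h10, y0, x0, h11, h12, h13⟩
  · have htop : sigY S n j Y z (n.n2 + j + U + g) ≤ wz S n.up := by
      have hg := (layY_gl S n j Y z c.hs c.hA hYZ).top
      rw [hN.U_eq, layY_j] at hg
      exact ((layY_gl S n j Y z c.hs c.hA hYZ).mono.monotone (by omega)).trans hg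
    clear c hYZ hN
    split_ifs at b1 <;> omega
  · have hjU3 := N.jU3 h7
    have h8' : n.n2 + j + S.P + 1 < S.Q := by
      split_ifs at h8 <;> omega
    clear c hYZ hN h8
    rcases h13 with h13 | h13 <;> split_ifs at b1 <;> omega

theorem good_D3 {S : Seam k ld al} {n : Num} {e j Y : ℕ} (c : C1 S n e j) (hb : ¬ S.bad 1)
    (hY : Y + S.Q = n.nT + S.h + n.n2 + j + 1) (ha : n.n2 + j = 0)
    (c4 : n.nT + S.h + dZ n.sp e < n.n2 + n.Ux + S.rk 1 + 1) (R l : ℕ) (hl : TopG S R l)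
    (hE : S.P + S.Q + 2 ≤ R + S.rk 1) : Good1 S n e j := by
  have N := c.num
  obtain ⟨hg1, hg2⟩ := N.g hb
  have hw := N.w
  have hm := N.m
  have hd := N.d
  have hQh := N.Qh
  have hPQ := N.PQ
  have hQ1 := N.Q1
  have hjU := N.jU
  have hP := N.Ph
  have hM1 := hl.M1
  have hP1 := hl.P1
  have hr1 := hl.r1
  have hl1 := hl.Q1 c.hm
  obtain ⟨z, hz⟩ : ∃ z, (n.n2 + n.Ux + S.rk 1 + 1 < z ∧ z + l + (n.n2 + n.Ux + S.rk 1 + 1) =
      wz S n.up + (n.nT + S.h + n.n2 + j) + dZ n.sp e) ∨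
      (z ≤ n.n2 + n.Ux + S.rk 1 + 1 ∧ z + l + (n.n2 + n.Ux + S.rk 1 + 2) =
      wz S n.up + (n.nT + S.h + n.n2 + j) + dZ n.sp e) := by
    obtain ⟨z, hz⟩ : ∃ z, z + l + (n.n2 + n.Ux + S.rk 1 + 1) =
      wz S n.up + (n.nT + S.h + n.n2 + j) + dZ n.sp e :=
      ⟨wz S n.up + (n.nT + S.h + n.n2 + j) + dZ n.sp e - l - (n.n2 + n.Ux + S.rk 1 + 1),
        by omega⟩
    by_cases h3 : n.n2 + n.Ux + S.rk 1 + 1 < z
    · exact ⟨z, Or.inl ⟨h3, hz⟩⟩
    · exact ⟨z - 1, Or.inr ⟨by omega, by omega⟩⟩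
  have hz1 : Y < z ∧ z < wz S n.up ∧ n.n2 + j + S.P + 1 < z := by
    rcases hz with hz | hz <;> omega
  have hy3 : Y3 S n j Y z := Or.inl hY
  have hYZ : YZ S n j Y z := mk_yz c hy3 (by omega) (by omega) (by omega) (by omega)
  obtain ⟨x, U, hN⟩ := exists_ynum S n j Y z c.hs c.hA hYZ
  have hk := keyCD c hb hYZ hN hz1.1 (by omega) (by omega)
  have hv := vk1 c hN hYZ
  rw [if_neg (by omega)] at hv
  have hv' : (layY S n j Y z).vk S n e + l = wz S n.up + mz S n.up := by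
    rcases hz with hz | hz
    · rw [hk.1 hz.1] at hv
      omega
    · rw [hk.2 hz.1] at hv
      omega
  have hg := layY_gl S n j Y z c.hs c.hA hYZ
  refine mk_good c hYZ hy3 (von_R S n hg _ l (by omega) ?_ ?_ ?_ hv') ?_
  · intro i i1 i2 i3 i4
    have h5 := hl.no i i1 i2 i3 i4
    have h6 := rk_sum S.rk i
    omega
  · intro i i1 i2 i3 i4 i5
    have h6 := rk_sum S.rk i
    exact (hl.st1 c.hm i i1 i2 i3 i4 (by omega)).1
  · intro g h1 h2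
    rw [hN.U_eq, layY_j]
    exact hno_D3 c hb hYZ hN hY ha c4 l hr1 hz1.1 (by omega) g h1 h2
  · rw [if_neg (by omega)]
    omega

theorem good_A {S : Seam k ld al} {n : Num} {e j Y : ℕ} (c : C1 S n e j) (hb : ¬ S.bad 1)
    (hY : Y + S.Q = n.nT + S.h + n.n2 + j + 1)
    (c1 : n.n2 + n.Ux + S.rk 1 + 2 ≤ S.Q + dZ n.sp e) : Good1 S n e j := by
  have N := c.num
  have hw := N.w
  have hm := N.m
  have hP1 := N.P1
  have hP := N.Ph
  have hQ1 := N.Q1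
  have hQh := N.Qh
  have hjU := N.jU
  have hPQ := N.PQ
  have hn2 := N.n2T
  have hd := N.d
  obtain ⟨hg1, hg2⟩ := N.g hb
  obtain ⟨F0, hF0⟩ : ∃ F0, (¬ (n.sp = 3 ∧ n.n2 + j + S.P + 1 +
        (if Y ≤ n.n2 + j + S.P + 1 then 1 else 0) < S.Q) ∧
      F0 = n.n2 + n.Ux + S.rk 1 + 1) ∨
    ((n.sp = 3 ∧ n.n2 + j + S.P + 1 +
        (if Y ≤ n.n2 + j + S.P + 1 then 1 else 0) < S.Q) ∧
      F0 = n.n2 + n.Ux + S.rk 1 ∧ F0 + 1 ≤ S.Q) := by
    by_cases h3 : n.sp = 3 ∧ n.n2 + j + S.P + 1 +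
        (if Y ≤ n.n2 + j + S.P + 1 then 1 else 0) < S.Q
    · exact ⟨_, Or.inr ⟨h3, rfl, by omega⟩⟩
    · exact ⟨_, Or.inl ⟨h3, rfl⟩⟩
  have hF1 : F0 + 1 ≤ S.Q + dZ n.sp e ∧ n.n2 + n.Ux + S.rk 1 ≤ F0 := by
    rcases hF0 with ⟨f1, f2⟩ | ⟨f1, f3, f4⟩ <;> omega
  have key : ∀ {z x U : ℕ}, YZ S n j Y z → YNum S n j Y z x U →
      (F0 < z → (layY S n j Y z).vk S n e + dZ n.sp e = F0 + (wz S n.up + n.N0) + z) ∧
      (z ≤ F0 → (layY S n j Y z).vk S n e + dZ n.sp e =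
        F0 + 1 + (wz S n.up + n.N0) + z) := by
    intro z x U h hN
    have h1 := keyA c hb h hN hY hF0
    rw [vk1 c hN h, if_neg (by omega)]
    exact ⟨fun h2 => by rw [h1.1 h2], fun h2 => by rw [h1.2 h2]⟩
  clear hF0
  obtain ⟨z, hz⟩ : ∃ z, (F0 < z ∧ z + F0 = n.n2 + j + S.P + S.Q + 1 + dZ n.sp e +
      (if Y ≤ n.n2 + j + S.P + 1 then 1 else 0)) ∨
      (z ≤ F0 ∧ z + F0 + 1 = n.n2 + j + S.P + S.Q + 1 + dZ n.sp e +
      (if Y ≤ n.n2 + j + S.P + 1 then 1 else 0)) := by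
    obtain ⟨z, hz⟩ : ∃ z, z + F0 = n.n2 + j + S.P + S.Q + 1 + dZ n.sp e +
      (if Y ≤ n.n2 + j + S.P + 1 then 1 else 0) :=
      ⟨n.n2 + j + S.P + S.Q + 1 + dZ n.sp e +
      (if Y ≤ n.n2 + j + S.P + 1 then 1 else 0) - F0, by omega⟩
    by_cases h3 : F0 < z
    · exact ⟨z, Or.inl ⟨h3, hz⟩⟩
    · exact ⟨z - 1, Or.inr ⟨by omega, by omega⟩⟩
  by_cases c2 : z = Y
  · have hYb : n.n2 + j + S.P + 1 < Y := by
      split_ifs at hz <;> omega
    obtain ⟨r, hr⟩ : ∃ r, r + dZ n.sp e = F0 + 1 := ⟨F0 + 1 - dZ n.sp e, by omega⟩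
    have hcB := S.cutB_le r
    have hy3 : Y3 S n j Y (n.n2 + j + S.cutB r + 1) := Or.inl hY
    have hYZ : YZ S n j Y (n.n2 + j + S.cutB r + 1) :=
      mk_yz c hy3 (by omega) (by omega) (by omega) (by omega)
    obtain ⟨x, U, hN⟩ := exists_ynum S n j Y _ c.hs c.hA hYZ
    have hk := (key hYZ hN).2 (by omega)
    exact zB c hYZ hy3 hN (S.cutB r) r hcB (by omega) rfl hYb (by omega)
      (S.cutB_lt r (by omega) (by omega)) (S.cutB_gt r (by omega) (by omega))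
  · have hy3 : Y3 S n j Y z := Or.inl hY
    have hYZ : YZ S n j Y z := mk_yz c hy3 (by
      split_ifs at hz <;> omega) (by
      split_ifs at hz <;> omega) (by omega) (by
      split_ifs at hz <;> omega)
    obtain ⟨x, U, hN⟩ := exists_ynum S n j Y z c.hs c.hA hYZ
    refine zA c hYZ hy3 (by omega) ?_
    have hk := key hYZ hN
    rcases hz with ⟨h3, h4⟩ | ⟨h3, h4⟩
    · have := hk.1 h3
      omega
    · have := hk.2 h3
      omega

theorem sel1_good {S : Seam k ld al} {n : Num} {e j : ℕ} (c : C1 S n e j) (hb : ¬ S.bad 1)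
    (R : ℕ) (hR : Hole0 S R) (hE : S.P + S.Q + 2 ≤ R + S.rk 1) (l : ℕ) (hl : TopG S R l) :
    Good1 S n e j ∨ P2OK S n e (funP S n j) true := by
  have N := c.num
  have hQ1 := N.Q1
  have hQh := N.Qh
  have hjU := N.jU
  have hPQ := N.PQ
  have hn2 := N.n2T
  have hd := N.d
  obtain ⟨hg1, hg2⟩ := N.g hb
  obtain ⟨Y, hY⟩ : ∃ Y, Y + S.Q = n.nT + S.h + n.n2 + j + 1 :=
    ⟨n.nT + S.h + n.n2 + j + 1 - S.Q, by omega⟩
  by_cases c1 : n.n2 + n.Ux + S.rk 1 + 2 ≤ S.Q + dZ n.sp e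
  · exact Or.inl (good_A c hb hY c1)
  by_cases c2 : n.n2 + n.Ux + S.rk 1 + 1 ≤ S.Q + n.nT + dZ n.sp e
  · -- the greedy group
    right
    obtain ⟨hlg, x, U, hxU, hp, hp1, hp2⟩ := funP1 c hY
    rw [if_neg (show ¬ S.rk 1 ≤ S.P by omega)] at hp
    have hp3 : (funP S n j).p 1 = n.n2 + n.Ux + S.rk 1 + 2 := by
      have hw := N.w
      rcases hxU with ⟨h1, h2⟩ | ⟨h1, h2, h3, h4⟩
      · split_ifs at hp <;> omega
      · have hjU3 := N.jU3 h1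
        split_ifs at hp h4 <;> omega
    have hdN := N.dN
    refine p2ok_L S n e j c.hA hlg ?_ ?_
    · rw [hp3]
      omega
    · rw [hp3]
      omega
  left
  by_cases c3 : n.n2 + n.Ux + S.rk 1 + 1 ≤ n.nT + S.h + dZ n.sp e
  · exact good_C c hb hY R hR (by omega) c3
  by_cases ha : 1 ≤ n.n2 + j
  · by_cases c4 : n.n2 + n.Ux + S.rk 1 + 1 ≤ n.nT + S.h + n.n2 + j + dZ n.sp e
    · exact good_D1 c hb hY (by omega) c4
    · exact good_D2 c hb hY ha (by omega)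
  · exact good_D3 c hb hY (by omega) (by omega) R l hl hE

end Pool.Agent.Lob5
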