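import Pool.Agent.Lob5.P2S1b
import Pool.Agent.Lob5.P2S1g

/-!
# Two consecutive layers, mode 1

`Sh1`: the number of reserved labels above a good odd edge is `≤ 2`; together with those below a bad odd edge `≤ 2`, or `≤ 3`
if `Y ≤ b+1`; in the latter case there is a reserved label below `X 1` or above all good odd edges.
-/

namespace Pool.Agent.Lob5

variable {k : ℕ} {ld al : ℕ → Prop}

/-- the shape of the layers, mode 1 -/
structure Sh1 (S : Seam k ld al) (n : Num) (j : ℕ) (Λ : FLay) (σ : ℕ → ℕ) : Prop where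
  gl : GLy S n Λ σ
  ej : Λ.j = j
  B : ∀ g, S.P + 1 ≤ g → g ≤ S.h + 1 →
    wz S n.up ≤ σ (n.n2 + j + g + Λ.U) + (S.h + 1 - g) + 2
  C : ∀ r g, 1 ≤ r → r ≤ S.P → S.P + 1 ≤ g → g ≤ S.h + 1 →
    σ (n.n2 + j + r) + wz S n.up ≤
        n.n2 + j + r + (S.h + 1 - g) + σ (n.n2 + j + g + Λ.U) + 2 ∨
      (σ (n.n2 + j + r) + wz S n.up ≤
        n.n2 + j + r + (S.h + 1 - g) + σ (n.n2 + j + g + Λ.U) + 3 ∧
        n.nT + S.h + 1 ≤ S.Q + S.P + 1)
  D : n.nT + S.h + 1 ≤ S.Q + S.P + 1 → n.n2 + j + S.P + 2 ≤ Λ.X 1 ∨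
    ∀ g, S.P + 1 ≤ g → g ≤ S.h + 1 → σ (n.n2 + j + g + Λ.U) + (S.h + 1 - g) + 1 ≤ wz S n.up

private theorem ge_oe {i : ℕ} (h1 : 1 ≤ i) (h2 : i < k) : 1 ≤ oe i ∧ oe i ≤ k := by
  unfold oe
  split_ifs <;> omega

private theorem ge_ee {i : ℕ} (h1 : 1 ≤ i) (h2 : i < k) : 1 ≤ ee i ∧ ee i ≤ k := by
  unfold ee
  split_ifs <;> omega

private theorem ge_two (Λ : FLay) (i : ℕ) : Λ.bs i = Λ.p (oe i) + Λ.p (ee i) := by
  unfold FLay.bs oe ee
  by_cases h : i % 2 = 1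
  · rw [if_pos h, if_pos h]
  · rw [if_neg h, if_neg h, add_comm]

private theorem ge_sh {σ : ℕ → ℕ} (h : StrictMono σ) {r r' : ℕ} (hr : r ≤ r') :
    σ r + r' ≤ σ r' + r := by
  obtain ⟨d, rfl⟩ := Nat.exists_eq_add_of_le hr
  clear hr
  induction d with
  | zero => simp
  | succ d ih =>
    have h1 : σ (r + d) < σ (r + (d + 1)) := h (by omega)
    omega

private theorem ge_ge {σ : ℕ → ℕ} (h : StrictMono σ) (r : ℕ) : r ≤ σ r := h.le_apply

/-- kind b -/
private theorem ge_b (S : Seam k ld al) (n : Num) {Λ : FLay} {σ : ℕ → ℕ} (h : GLy S n Λ σ)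
    {i : ℕ} (hi : ld i) (hb : S.bad (oe i)) :
    1 ≤ S.rk (oe i) ∧ S.rk (oe i) ≤ S.P ∧
      Λ.bs i = wz S n.up + n.N0 + n.nT + σ (n.n2 + Λ.j + S.rk (oe i)) + S.rk (ee i) := by
  have h1 := S.ld_pos i hi
  have h2 := S.ld_lt i hi
  have r1 := S.rk_ob _ (ge_oe h1 h2).1 (ge_oe h1 h2).2 oe_odd hb
  have r2 := S.rk_eg _ (ge_ee h1 h2).1 (ge_ee h1 h2).2 ee_even ((S.diff' hi).1 hb)
  refine ⟨r1.1, r1.2, ?_⟩
  rw [ge_two, h.podd _ oe_odd, h.peven _ ee_even, if_pos r1.2, if_pos (by omega), Nat.add_zero]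
  omega

/-- kind g -/
private theorem ge_g (S : Seam k ld al) (n : Num) {Λ : FLay} {σ : ℕ → ℕ} (h : GLy S n Λ σ)
    {i : ℕ} (hi : ld i) (hb : ¬ S.bad (oe i)) :
    S.P + 1 ≤ S.rk (oe i) ∧ S.rk (oe i) ≤ S.h + 1 ∧
      Λ.bs i = wz S n.up + n.N0 + σ (n.n2 + Λ.j + S.rk (oe i) + Λ.U) + S.rk (ee i) := by
  have h1 := S.ld_pos i hi
  have h2 := S.ld_lt i hi
  have r1 := S.rk_og _ (ge_oe h1 h2).1 (ge_oe h1 h2).2 oe_odd hb
  have hbe : S.bad (ee i) := by
    by_contra h3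
    exact hb ((S.diff' hi).2 h3)
  have r2 := S.rk_eb _ (ge_ee h1 h2).1 (ge_ee h1 h2).2 ee_even hbe
  refine ⟨r1.1, r1.2, ?_⟩
  rw [ge_two, h.podd _ oe_odd, h.peven _ ee_even, if_neg (by omega), if_neg (by omega)]
  omega

theorem step1 (S : Seam k ld al) (hS : SeamP S) (hm : S.mode = 1) (hP : 2 ≤ S.P) (n : Num)
    (j : ℕ) {Λ Λ' : FLay} {σ σ' : ℕ → ℕ} (H : Sh1 S n j Λ σ) (H' : Sh1 S n (j + 1) Λ' σ') :
    FStep S n Λ Λ' := by
  have h := H.gl
  have h' := H'.gl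
  have hU := h.U_ge
  have htop := h.top
  have hU' := h'.U_ge
  have htop' := h'.top
  have hX := h.X 1
  have hX1 := ge_ge h.mono (n.n2 + Λ.j + S.P + 1)
  rw [H.ej] at htop hX hX1
  rw [H'.ej] at htop'
  -- the base of a vertex of kind g
  have key : ∀ a, ld a → ¬ S.bad (oe a) → ∃ t t' : ℕ, t ≤ 2 ∧ t' ≤ 2 ∧
      Λ'.bs a + t' = Λ.bs a + t ∧ S.P + 1 ≤ S.rk (oe a) ∧ S.rk (oe a) ≤ S.h + 1 ∧
      σ (n.n2 + j + S.rk (oe a) + Λ.U) + (S.h + 1 - S.rk (oe a)) + t = wz S n.up ∧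
      σ' (n.n2 + (j + 1) + S.rk (oe a) + Λ'.U) + (S.h + 1 - S.rk (oe a)) + t' =
        wz S n.up := by
    intro a ha hba
    obtain ⟨a1, a2, a3⟩ := ge_g S n h ha hba
    obtain ⟨-, -, a3'⟩ := ge_g S n h' ha hba
    rw [H.ej] at a3
    rw [H'.ej] at a3'
    have g1 := ge_sh h.mono (show n.n2 + j + S.rk (oe a) + Λ.U ≤
      n.n2 + j + Λ.U + S.h + 1 by omega)
    have g2 := ge_sh h'.mono (show n.n2 + (j + 1) + S.rk (oe a) + Λ'.U ≤
      n.n2 + (j + 1) + Λ'.U + S.h + 1 by omega)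
    have g3 := H.B (S.rk (oe a)) a1 a2
    have g4 := H'.B (S.rk (oe a)) a1 a2
    refine ⟨wz S n.up - (S.h + 1 - S.rk (oe a)) - σ (n.n2 + j + S.rk (oe a) + Λ.U),
      wz S n.up - (S.h + 1 - S.rk (oe a)) - σ' (n.n2 + (j + 1) + S.rk (oe a) + Λ'.U),
      ?_, ?_, ?_, a1, a2, ?_, ?_⟩
    · omega
    · omega
    · rw [a3, a3']
      omega
    · omega
    · omega
  refine ⟨?_, ?_⟩
  · intro i a hi hia ha haq hba
    rw [H.ej]
    obtain ⟨t, t', h3, h4, h5, h6, h7, h8, h9⟩ := key a (S.al_ld a ha) hba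
    by_cases hbi : S.bad (oe i)
    · obtain ⟨i1, i2, i3⟩ := ge_b S n h hi hbi
      obtain ⟨-, -, i3'⟩ := ge_b S n h' hi hbi
      rw [H.ej] at i3
      rw [H'.ej] at i3'
      have g2 := ge_ge h.mono (n.n2 + j + S.rk (oe i))
      have g3 := H'.C (S.rk (oe i)) (S.rk (oe a)) i1 i2 h6 h7
      have hP3 : 3 ≤ S.P := by
        by_contra h10
        exact hS.m1P hm (by omega) i hi hia hbi
      rw [i3, i3']
      rcases g3 with g3 | ⟨g3, g4⟩
      · omega
      · rcases H.D g4 with g5 | g5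
        · omega
        · have g6 := g5 (S.rk (oe a)) h6 h7
          omega
    · obtain ⟨u, u', k3, k4, k5, k6, k7, k8, k9⟩ := key i hi hbi
      rcases Nat.le_total (S.rk (oe i)) (S.rk (oe a)) with hle | hle
      · have g2 := ge_sh h'.mono (show n.n2 + (j + 1) + S.rk (oe i) + Λ'.U ≤
          n.n2 + (j + 1) + S.rk (oe a) + Λ'.U by omega)
        omega
      · have g1 := ge_sh h.mono (show n.n2 + j + S.rk (oe a) + Λ.U ≤
          n.n2 + j + S.rk (oe i) + Λ.U by omega)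
        omega
  · intro a ha haq hba
    rw [H.ej]
    obtain ⟨t, t', h3, h4, h5, h6, h7, h8, h9⟩ := key a (S.al_ld a ha) hba
    omega

theorem sh1_Y {S : Seam k ld al} {n : Num} {e j y z : ℕ} (c : C1 S n e j)
    (h : YZ S n j y z) (hy : Y3 S n j y z) :
    Sh1 S n j (layY S n j y z) (sigY S n j y z) := by
  have N := c.num
  have hw := N.w
  have hP1 := N.P1
  have hP := N.Ph
  have hQ1 := N.Q1
  have hQh := N.Qh
  have hjU := N.jU
  have hPQ := N.PQ
  obtain ⟨x, U, hN⟩ := exists_ynum S n j y z c.hs c.hA h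
  have hg := layY_gl S n j y z c.hs c.hA h
  obtain ⟨x1, x2⟩ := hN.ne h
  have hyw := h.yw
  have hzw := h.zw
  have hyz := h.yz
  have hbd := h.bd
  have htop : ∀ g, g ≤ S.h + 1 →
      sigY S n j y z (n.n2 + j + g + U) + (S.h + 1 - g) ≤ wz S n.up := by
    intro g hg2
    have h1 := hg.top
    rw [hN.U_eq, layY_j] at h1
    have h2 := ge_sh hg.mono (show n.n2 + j + g + U ≤ n.n2 + j + U + S.h + 1 by omega)
    omega
  have hyA : y + S.Q ≤ n.nT + S.h + n.n2 + j + 2 ∧ n.nT + S.h + n.n2 + j ≤ y + S.Q := by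
    rcases hy with hy | hy | hy <;> omega
  have hcs : (U + j = n.Ux ∧ x = wz S n.up + 2) ∨
      (U + j + 1 = n.Ux ∧ n.nT + j + 1 ≤ n.Ux ∧ n.n2 + j + S.P + 1 < x) := by
    rcases hN.cs with ⟨_, h5, h6, _⟩ | ⟨_, _, h6, h7, h8, h9, h10, y0, x0, h11, h12, h13⟩
    · exact Or.inl ⟨h6, h5⟩
    · right
      refine ⟨h6, N.jU3 h7, ?_⟩
      split_ifs at h8 <;> omega
  refine ⟨hg, layY_j S n j y z, ?_, ?_, ?_⟩
  · intro g hg1 hg2
    rw [hN.U_eq]
    obtain ⟨b1, b2, b3, b4⟩ := hN.char (n.n2 + j + g + U)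
    clear hy hg c hN htop
    rcases hcs with hcs | hcs <;> split_ifs at b1 <;> omega
  · intro r g hr1 hr2 hg1 hg2
    rw [hN.U_eq]
    have ht := htop g hg2
    obtain ⟨a1, a2, a3, a4⟩ := hN.char (n.n2 + j + r)
    obtain ⟨b1, b2, b3, b4⟩ := hN.char (n.n2 + j + g + U)
    have hsu := ge_sh hg.mono (show n.n2 + j + r ≤ n.n2 + j + g + U by omega)
    clear hg c htop hy hN N
    generalize sigY S n j y z (n.n2 + j + r) = s at *
    generalize sigY S n j y z (n.n2 + j + g + U) = u at *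
    rcases hcs with hcs | hcs
    · left
      have hxs : ¬ x < s := by omega
      have hxu : ¬ x < u := by omega
      rw [if_neg hxs] at a1
      rw [if_neg hxu] at b1
      have hi : ∀ t : ℕ, (if t < s then 1 else 0) ≤ (if t < u then 1 else 0) := by
        intro t
        split_ifs <;> omega
      have i1 := hi y
      have i2 := hi z
      omega
    · have hi : ∀ t : ℕ, (if t < s then 1 else 0) ≤ (if t < u then 1 else 0) := by
        intro t
        split_ifs <;> omega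
      have i1 := hi y
      have i2 := hi z
      have i3 := hi x
      by_cases hc : n.nT + S.h + 1 ≤ S.Q + S.P + 1
      · right
        exact ⟨by omega, hc⟩
      · left
        have hys : ¬ y < s := by
          intro h5
          rw [if_pos h5] at a1
          split_ifs at a1 <;> omega
        have hyu : y < u := by
          clear i1 i2 i3 hi a1
          split_ifs at b1 <;> omega
        rw [if_neg hys] at a1
        rw [if_pos hyu] at b1
        omega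
  · intro hYb
    have hX := hg.X 1
    rw [layY_j] at hX
    obtain ⟨a1, a2, a3, a4⟩ := hN.char (n.n2 + j + S.P + 1)
    by_cases hyb : y ≤ n.n2 + j + S.P + 1
    · left
      rw [hX]
      clear hg c hN N htop hcs hy
      generalize sigY S n j y z (n.n2 + j + S.P + 1) = s at *
      split_ifs at a1 <;> omega
    · right
      have hzw2 : z = wz S n.up := by
        rcases hy with hy | hy | hy
        · omega
        · exact hy.2
        · omega
      intro g hg1 hg2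
      rw [hN.U_eq]
      have h1 := hg.top
      rw [hN.U_eq, layY_j] at h1
      have h2 := ge_sh hg.mono (show n.n2 + j + g + U ≤ n.n2 + j + U + S.h + 1 by omega)
      have h3 := (hN.char (n.n2 + j + U + S.h + 1)).2.2.1
      omega

theorem sh1_P {S : Seam k ld al} {n : Num} {e j : ℕ} (c : C1 S n e j) :
    ∃ σ, Sh1 S n j (funP S n j) σ := by
  have N := c.num
  have hw := N.w
  have hP1 := N.P1
  have hP := N.Ph
  have hQ1 := N.Q1
  have hQh := N.Qh
  have hjU := N.jU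
  have hPQ := N.PQ
  obtain ⟨⟨σ, hg⟩, -⟩ := gl_Z S n j (fun h => by
    have := c.hm
    omega) c.hA (LayZ.P (S := S) (n := n) (j := j))
  have hj : (funP S n j).j = j := rfl
  have hs' : n.up.sp ≠ 0 := c.hs
  have hL : layOf S n.up j = lay1 S n.up j := by
    unfold layOf
    rw [if_neg hs', if_pos c.hm]
  have hU : n.Ux ≤ (funP S n j).U + j := by
    change n.Ux ≤ (layOf S n.up j).U + j
    rw [hL]
    unfold lay1
    split_ifs
    all_goals first
      | (change n.Ux ≤ n.Ux + 1 - 1 - j + j; omega)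
      | (change n.Ux ≤ n.Ux + 1 - j + j; omega)
  have hU2 : n.n2 + j + (funP S n j).U + S.h + 1 ≤ wz S n.up := by
    exact (ge_ge hg.mono _).trans hg.top
  refine ⟨σ, hg, hj, ?_, ?_, ?_⟩
  · intro g hg1 hg2
    have h1 := ge_ge hg.mono (n.n2 + j + g + (funP S n j).U)
    omega
  · intro r g hr1 hr2 hg1 hg2
    left
    have h2 := ge_sh hg.mono (show n.n2 + j + r ≤ n.n2 + j + g + (funP S n j).U by omega)
    omega
  · intro hYb
    left
    have hX : (funP S n j).X 1 = Xl S n.up (lay1 S n.up j) 1 := by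
      change Xl S n.up (layOf S n.up j) 1 = _
      rw [hL]
    have hlam : ∀ y1 y2, y1 ≤ n.n2 + j + S.P + 1 →
        n.n2 + j + S.P + 2 ≤ lam y1 y2 (n.n2 + j + S.P + 1) := by
      intro y1 y2 h1
      unfold lam
      rw [if_pos h1]
      omega
    rw [hX]
    unfold lay1
    change n.n2 + j + S.P + 2 ≤ Xl S n.up (if n.sp = 3 ∧ (n.n2 + j + n.nT + S.h + 1 - S.Q) +
        (n.n2 + j + S.P + 1 +
        (if n.n2 + j + n.nT + S.h + 1 - S.Q ≤ n.n2 + j + S.P + 1 then 1 else 0)) <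
        n.nT + S.h + n.n2 + j + 1 then layD n.up j (n.n2 + j + n.nT + S.h + 1 - S.Q)
        (if S.Q = n.n2 + j + n.nT + S.h + 1 - S.Q then S.Q + 1 else S.Q) else
        layS S n.up j (n.n2 + j + n.nT + S.h + 1 - S.Q)) 1
    by_cases hf : n.sp = 3 ∧ (n.n2 + j + n.nT + S.h + 1 - S.Q) + (n.n2 + j + S.P + 1 +
        (if n.n2 + j + n.nT + S.h + 1 - S.Q ≤ n.n2 + j + S.P + 1 then 1 else 0)) <
        n.nT + S.h + n.n2 + j + 1
    · rw [if_pos hf]
      exact hlam _ _ ((min_le_left _ _).trans (by omega))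
    · rw [if_neg hf]
      exact hlam _ _ (show n.n2 + j + n.nT + S.h + 1 - S.Q ≤ _ by omega)

/-- mode 1: the choice of the layer -/
theorem sel1 {S : Seam k ld al} {n : Num} {e j : ℕ} (c : C1 S n e j)
    (hg : ¬ S.bad 1 → ∃ R l, Hole0 S R ∧ S.P + S.Q + 2 ≤ R + S.rk 1 ∧ TopG S R l)
    (hb : S.bad 1 → ∃ R, HoleB S R ∧ R + 1 ≤ S.Q) :
    ∃ Λ l σ, P2OK S n e Λ l ∧ Sh1 S n j Λ σ := by
  have h1 : Good1 S n e j ∨ P2OK S n e (funP S n j) true := by
    by_cases h : S.bad 1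
    · obtain ⟨R, hR, hRQ⟩ := hb h
      exact sel1_bad c h R hR hRQ
    · obtain ⟨R, l, hR, hE, hl⟩ := hg h
      exact sel1_good c h R hR hE l hl
  rcases h1 with ⟨y, z, hYZ, hy3, hok⟩ | hok
  · exact ⟨_, _, _, hok, sh1_Y c hYZ hy3⟩
  · obtain ⟨σ, hσ⟩ := sh1_P c
    exact ⟨_, _, σ, hok, hσ⟩

end Pool.Agent.Lob5
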