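import Pool.Agent.Lob5.P2Res

/-!
# The selection for the mode 2: tools

Notation: `a = n2+j`, `b = a+P`, `N = n2+Ux`, `w = N+h+3`, `W0 = w+nT+h`, `thr = W0+a+1` (sums relative to `w+N0`), `d = dZ n.sp e`,
`σ = lam (min z y) (max z y)` for the layer `resLay S n j z y`. `x` = position of the edge `1` (`a + rk 1` if it is bad,
`N + rk 1` if it is good). The sum at the vertex `k` is `σ x + z - d`, the sum at the special vertex is
`V_q = W0 + σ b + y - w` (`q` even, `rk q = h`, `rk (q+1) = P`).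

`yo2` : the label of the special vertex in `funP`. `b ≠ yo2`. `σ b + yo2 = w + a + 1` if `z > b` (and `z > b+1` or
`yo2 > b+1`): `V_q = thr`.
-/

namespace Pool.Agent.Lob5

variable {k : ℕ} {ld al : ℕ → Prop}

/-- the label of the special vertex in the layer `funP` (mode 2) -/
def yo2 (S : Seam k ld al) (n : Num) (j : ℕ) : ℕ :=
  if n.n2 + j + 2 * S.P ≤ n.n2 + n.Ux + S.h + 3 then n.n2 + n.Ux + S.h + 4 - S.P
  else n.n2 + n.Ux + S.h + 3 - S.P

/-- the layers for the mode 2 -/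
inductive Fam2 (S : Seam k ld al) (n : Num) (j : ℕ) : FLay → Prop
  | P : Fam2 S n j (funP S n j)
  | R (z y : ℕ) : Fam2 S n j (resLay S n j z y)

/-- the choice `(z, y)` is good -/
structure Ok2 (S : Seam k ld al) (n : Num) (e j z y : ℕ) : Prop where
  za : n.n2 + j < z
  zw : z ≤ n.n2 + n.Ux + S.h + 3
  ya : n.n2 + j < y
  yw : y ≤ n.n2 + n.Ux + S.h + 3
  zy : z ≠ y
  D : FDab S n (resLay S n j z y)
  F3 : n.sp = 3 → n.nT + S.h + n.n2 + j + 1 ≤ y + (resLay S n j z y).X 1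
  hq : VOKn S n (resLay S n j z y) ((resLay S n j z y).bs S.q + y)
  hv : VOKn S n (resLay S n j z y) ((resLay S n j z y).vk S n e)
  ne : (resLay S n j z y).bs S.q + y ≠ (resLay S n j z y).vk S n e

/-- the numerical conditions on `z`, `y` -/
structure Num2 (S : Seam k ld al) (n : Num) (j z y : ℕ) : Prop where
  za : n.n2 + j < z
  zw : z ≤ n.n2 + n.Ux + S.h + 3
  ya : n.n2 + j < y
  yw : y ≤ n.n2 + n.Ux + S.h + 3
  zy : z ≠ y
  mx : n.n2 + j + S.P + 2 ≤ max z y
  F3 : n.sp = 3 → n.nT + S.h + n.n2 + j + 1 ≤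
    y + lam (min z y) (max z y) (n.n2 + j + S.P + 1)

/-- the special vertex has a sum `> W0` -/
structure QT2 (S : Seam k ld al) (n : Num) (j z y : ℕ) : Prop where
  lo : n.n2 + n.Ux + S.h + 3 < lam (min z y) (max z y) (n.n2 + j + S.P) + y
  hi : lam (min z y) (max z y) (n.n2 + j + S.P) + y ≤ n.n2 + n.Ux + S.h + 3 + (n.n2 + j) + 1

theorem sp2 {S : Seam k ld al} {n : Num} {j : ℕ} (hm : S.mode = 2) (hA : Adm S n j) :
    n.sp ≠ 0 := by
  have := hA.sp14 (by omega) (by omega)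
  omega

theorem Ok2.ok {S : Seam k ld al} {n : Num} {e j z y : ℕ} (hm : S.mode = 2) (hA : Adm S n j)
    (h : Ok2 S n e j z y) : P2OK S n e (resLay S n j z y) false := by
  have hs := sp2 hm hA
  have hw := wz_res S n hs
  exact ok_res S n e j z y hs hA (by omega) h.za (by rw [hw]; exact h.zw) h.ya
    (by rw [hw]; exact h.yw) h.zy h.D h.F3 h.hq h.hv h.ne

/-- the sum at the vertex `k` -/
theorem vk2 (S : Seam k ld al) (n : Num) (e j z y x : ℕ)
    (hx : (resLay S n j z y).p 1 = lam (min z y) (max z y) x) :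
    (resLay S n j z y).vk S n e + dZ n.sp e =
      wz S n.up + n.N0 + lam (min z y) (max z y) x + z := by
  have h1 : (resLay S n j z y).vk S n e = (resLay S n j z y).p 1 + pkZ S n e + z := rfl
  have h2 : dZ n.sp e ≤ 1 := by
    unfold dZ
    split_ifs <;> omega
  have h3 : 1 ≤ wz S n.up := by
    rw [wz_up]
    omega
  rw [h1, hx]
  unfold pkZ
  omega

/-- the sum at the special vertex -/
theorem vq2 (S : Seam k ld al) (n : Num) (j z y : ℕ) (hm : S.mode = 2) (hA : Adm S n j) :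
    (resLay S n j z y).bs S.q + y = wz S n.up + n.N0 + n.nT + S.h +
      lam (min z y) (max z y) (n.n2 + j + S.P) + y := by
  obtain ⟨_, h2, h3, h4, h5⟩ := S.m2 (Or.inl hm)
  have hG := gl_res S n (sp2 hm hA) j z y hA
  have h6 : (resLay S n j z y).bs S.q =
    (resLay S n j z y).p S.q + (resLay S n j z y).p (S.q + 1) := rfl
  have h7 := hG.peven S.q h3
  have h8 := pb_res S n j z y (e := S.q + 1) (by omega) (by omega)
  have hqk : S.q < k := S.hq
  have hQ : S.Q < S.h := by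
    have h9 := S.rk_eg S.q (by
      rcases Nat.eq_zero_or_pos S.q with h | h
      · exfalso
        have h10 := S.m2 (Or.inl hm)
        have h11 := S.ld_pos _ (S.al_ld _ h10.1)
        omega
      · exact h) (by omega) h3 h2
    omega
  rw [h6, h7, h8, h4, h5, if_pos hQ]
  omega

section

variable {S : Seam k ld al} {n : Num} {e j z y : ℕ}

private theorem lam_le2' (u v r : ℕ) : r ≤ lam u v r ∧ lam u v r ≤ r + 2 := by
  unfold lam
  constructor <;> split_ifs <;> omega

private theorem lam_sh (u v : ℕ) {i i' : ℕ} (h : i ≤ i') : lam u v i + i' ≤ lam u v i' + i := by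
  unfold lam
  split_ifs <;> omega

private theorem dz (sp e : ℕ) : dZ sp e ≤ 1 := by
  unfold dZ
  split_ifs <;> omega

/-- positions of the edge `1` -/
theorem p1b2 (hb : S.bad 1) :
    (resLay S n j z y).p 1 = lam (min z y) (max z y) (n.n2 + j + S.rk 1) := by
  have hk := S.hk
  exact pb_res S n j z y (by omega) (S.rk_ob 1 le_rfl (by omega) (by omega) hb).2

theorem p1g2 (hA : Adm S n j) (hb : ¬ S.bad 1) :
    (resLay S n j z y).p 1 = lam (min z y) (max z y) (n.n2 + n.Ux + S.rk 1) := by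
  have hk := S.hk
  exact pg_res S n j z y hA (by omega) (by
    have := (S.rk_og 1 le_rfl (by omega) (by omega) hb).1
    omega)

private theorem nu_P2S2A {z y : ℕ} (h : z ≠ y) (r : ℕ) :
    lam (min z y) (max z y) r ≠ z := by
  unfold lam
  rcases Nat.lt_or_ge z y with c | c
  · rw [min_eq_left c.le, max_eq_right c.le]
    split_ifs <;> omega
  · have c' : y < z := by omega
    rw [min_eq_right c'.le, max_eq_left c'.le]
    split_ifs <;> omega

private theorem good_P2S2A (S : Seam k ld al) {i : ℕ} (h1 : 1 ≤ i) (h2 : i < k) (h3 : ¬ ld i)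
    (hb : ¬ S.bad i) : S.P + 1 ≤ S.rk (oe i) ∧ S.rk (oe i) ≤ S.h + 1 := by
  obtain ⟨_, hbi⟩ := S.same' h1 h2 h3
  have o1 : 1 ≤ oe i ∧ oe i ≤ k := by
    unfold oe
    split_ifs <;> omega
  exact S.rk_og _ o1.1 o1.2 oe_odd (fun h => hb (hbi.1 h))

/-- position of the odd edge at a good vertex -/
private theorem pog_P2S2A (hA : Adm S n j) {i : ℕ} (h1 : 1 ≤ i) (h2 : i < k) (h3 : ¬ ld i)
    (hb : ¬ S.bad i) : (resLay S n j z y).p (oe i) =
      lam (min z y) (max z y) (n.n2 + n.Ux + S.rk (oe i)) :=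
  pg_res S n j z y hA oe_odd (by
    have := (good_P2S2A S h1 h2 h3 hb).1
    omega)

/-- the label before the good odd edges -/
private theorem XU_P2S2A (hA : Adm S n j) : (resLay S n j z y).X (resLay S n j z y).U =
      lam (min z y) (max z y) (n.n2 + n.Ux + S.P) := by
  have hj := jU_res hA
  change lam (min z y) (max z y) (n.n2 + j + S.P + (n.Ux - j)) = _
  congr 1
  omega

/-- everything from the facts about the two sums -/
theorem mk2 (hm : S.mode = 2) (hA : Adm S n j) (hN : Num2 S n j z y)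
    (hq : VOKn S n (resLay S n j z y) ((resLay S n j z y).bs S.q + y))
    (hv : VOKn S n (resLay S n j z y) ((resLay S n j z y).vk S n e))
    (ne : (resLay S n j z y).bs S.q + y ≠ (resLay S n j z y).vk S n e) : Ok2 S n e j z y :=
  { za := hN.za, zw := hN.zw, ya := hN.ya, yw := hN.yw, zy := hN.zy
    D := dab_res S n (sp2 hm hA) j z y hA (by omega) hN.mx (Or.inr (Or.inl hm))
    F3 := hN.F3
    hq := hq
    hv := hv
    ne := ne }

/-- the sum at the special vertex is `> W0` -/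
theorem qok2 (hR : SeamR S) (hm : S.mode = 2) (hA : Adm S n j) (hQ : QT2 S n j z y) :
    VOKn S n (resLay S n j z y) ((resLay S n j z y).bs S.q + y) := by
  have hs := sp2 hm hA
  have hw := wz_res S n hs
  have hmz : mz S n.up = wz S n.up + n.N0 + n.nT + S.h := rfl
  have hG := gl_res S n hs j z y hA
  have hv := vq2 S n j z y hm hA
  have hP := hR.Ph1 (by omega)
  have hQh := hR.Qh1 (by omega)
  have h1 := hQ.lo
  have h2 := hQ.hi
  refine von_T S n hG _ (fun _ => by omega) (by omega) ?_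
  change _ ≤ wz S n.up + mz S n.up + n.n2 + j + 1
  omega

/-- class A -/
theorem mk2_A (hR : SeamR S) (hm : S.mode = 2) (hA : Adm S n j) {x : ℕ}
    (hx : (resLay S n j z y).p 1 = lam (min z y) (max z y) x) (hN : Num2 S n j z y)
    (hQ : QT2 S n j z y)
    (h1 : lam (min z y) (max z y) (n.n2 + j + S.P) + S.Q + dZ n.sp e <
      lam (min z y) (max z y) x + z)
    (h2 : lam (min z y) (max z y) x + z ≤
      S.Q + dZ n.sp e + lam (min z y) (max z y) (n.n2 + j + S.P + 1)) : Ok2 S n e j z y := by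
  have hs := sp2 hm hA
  have hw := wz_res S n hs
  have hj := jU_res hA
  have hmz : mz S n.up = wz S n.up + n.N0 + n.nT + S.h := rfl
  have hG := gl_res S n hs j z y hA
  have hv := vk2 S n e j z y x hx
  have hq := vq2 S n j z y hm hA
  have hP := hR.Ph1 (by omega)
  have hQh := hR.Qh1 (by omega)
  have h3 := hQ.lo
  have h4 := (lam_le2' (min z y) (max z y) (n.n2 + j + S.P + 1)).2
  refine mk2 hm hA hN (qok2 hR hm hA hQ) (von_A S n hG _ ?_ ?_ ?_) ?_
  · change wz S n.up + n.N0 + lam (min z y) (max z y) (n.n2 + j + S.P) + S.Q < _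
    omega
  · change _ < wz S n.up + n.N0 + S.Q + 1 + lam (min z y) (max z y) (n.n2 + j + S.P + 1)
    omega
  · omega
  · omega

/-- class T -/
theorem mk2_T (hR : SeamR S) (hm : S.mode = 2) (hA : Adm S n j) {x : ℕ}
    (hx : (resLay S n j z y).p 1 = lam (min z y) (max z y) x) (hN : Num2 S n j z y)
    (hQ : QT2 S n j z y)
    (h1 : n.n2 + n.Ux + S.h + 3 + n.nT + S.h + dZ n.sp e < lam (min z y) (max z y) x + z)
    (h2 : lam (min z y) (max z y) x + z ≤
      n.n2 + n.Ux + S.h + 3 + n.nT + S.h + (n.n2 + j) + 1 + dZ n.sp e)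
    (h3 : lam (min z y) (max z y) x + z ≠
      n.nT + S.h + dZ n.sp e + lam (min z y) (max z y) (n.n2 + j + S.P) + y) :
    Ok2 S n e j z y := by
  have hs := sp2 hm hA
  have hw := wz_res S n hs
  have hmz : mz S n.up = wz S n.up + n.N0 + n.nT + S.h := rfl
  have hG := gl_res S n hs j z y hA
  have hv := vk2 S n e j z y x hx
  have hq := vq2 S n j z y hm hA
  have hP := hR.Ph1 (by omega)
  have hQh := hR.Qh1 (by omega)
  refine mk2 hm hA hN (qok2 hR hm hA hQ) (von_T S n hG _ (fun _ => by omega) (by omega) ?_) ?_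
  · change _ ≤ wz S n.up + mz S n.up + n.n2 + j + 1
    omega
  · omega

/-- class C: `z` is zipped at the even rank `r` -/
theorem mk2_C (hR : SeamR S) (hm : S.mode = 2) (hA : Adm S n j) {x r : ℕ}
    (hx : (resLay S n j z y).p 1 = lam (min z y) (max z y) x) (hN : Num2 S n j z y)
    (hQ : QT2 S n j z y) (hr : S.Q + 1 ≤ r) (hr' : r ≤ S.h)
    (h1 : lam (min z y) (max z y) x = n.nT + r + dZ n.sp e)
    (h2 : lam (min z y) (max z y) (n.n2 + n.Ux + S.P) < z)
    (hlt : ∀ i, 1 ≤ i → i < k → ¬ ld i → ¬ S.bad i → S.rk (ee i) < r → S.P + 1 ≤ S.rk (oe i) →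
      S.rk (oe i) ≤ S.h + 1 → lam (min z y) (max z y) (n.n2 + n.Ux + S.rk (oe i)) < z)
    (hgt : ∀ i, 1 ≤ i → i < k → ¬ ld i → ¬ S.bad i → r < S.rk (ee i) → S.P + 1 ≤ S.rk (oe i) →
      S.rk (oe i) ≤ S.h + 1 → z < lam (min z y) (max z y) (n.n2 + n.Ux + S.rk (oe i))) :
    Ok2 S n e j z y := by
  have hs := sp2 hm hA
  have hw := wz_res S n hs
  have hj := jU_res hA
  have hmz : mz S n.up = wz S n.up + n.N0 + n.nT + S.h := rfl
  have hG := gl_res S n hs j z y hA
  have hvq := vq2 S n j z y hm hA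
  have hP := hR.Ph1 (by omega)
  have hQh := hR.Qh1 (by omega)
  have hXU := XU_P2S2A (z := z) (y := y) hA
  have hzw := hN.zw
  have hv := vk2 S n e j z y x hx
  have h3 := hQ.lo
  have hmon := (lam_mono (min z y) (max z y)).monotone
    (show n.n2 + j + S.P ≤ n.n2 + n.Ux + S.P by omega)
  refine mk2 hm hA hN (qok2 hR hm hA hQ) (von_C S n hG _ z r hr (by omega) (by omega) (by omega)
    ?_ ?_ ?_ ?_ ?_) ?_
  · change lam (min z y) (max z y) (n.n2 + j + S.P) < z
    omega
  · intro _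
    rw [hXU]
    exact h2
  · intro f _ _ hf
    change (if f % 2 = 1 then _ else _) ≠ z
    rw [if_pos hf]
    exact nu_P2S2A hN.zy _
  · intro i i1 i2 i3 i4 i5
    rw [pog_P2S2A hA i1 i2 i3 i4]
    have h4 := good_P2S2A S i1 i2 i3 i4
    exact hlt i i1 i2 i3 i4 i5 h4.1 h4.2
  · intro i i1 i2 i3 i4 i5
    rw [pog_P2S2A hA i1 i2 i3 i4]
    have h4 := good_P2S2A S i1 i2 i3 i4
    exact hgt i i1 i2 i3 i4 i5 h4.1 h4.2
  · omega

/-- the hole at the vertex `0`, edge `1` good: `z = nT + R + d` -/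
theorem mk2_H (hR : SeamR S) (hm : S.mode = 2) (hA : Adm S n j) (hb : ¬ S.bad 1) {R : ℕ}
    (hH : HoleG S R) (hN : Num2 S n j z y) (hQ : QT2 S n j z y)
    (hz : z = n.nT + R + dZ n.sp e) : Ok2 S n e j z y := by
  have hs := sp2 hm hA
  have hw := wz_res S n hs
  have hj := jU_res hA
  have hmz : mz S n.up = wz S n.up + n.N0 + n.nT + S.h := rfl
  have hG := gl_res S n hs j z y hA
  have hvq := vq2 S n j z y hm hA
  have hP := hR.Ph1 (by omega)
  have hQh := hR.Qh1 (by omega)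
  have hXU := XU_P2S2A (z := z) (y := y) hA
  have hzw := hN.zw
  have hx := p1g2 (z := z) (y := y) hA hb
  have hv := vk2 S n e j z y _ hx
  have h3 := hQ.lo
  have hk := S.hk
  have hr1 := S.rk_og 1 le_rfl (by omega) (by omega) hb
  have hE := hH.E0 (by omega)
  have hRh := hH.Rh
  have h4 := lam_sh (min z y) (max z y)
    (show n.n2 + n.Ux + S.P ≤ n.n2 + n.Ux + S.rk 1 by omega)
  have h5 := (lam_le2' (min z y) (max z y) (n.n2 + n.Ux + S.rk 1)).2
  refine mk2 hm hA hN (qok2 hR hm hA hQ) (von_H S n hG _ R hH.toHole0 hb (by omega) ?_) ?_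
  · intro _
    rw [hXU, hx]
    omega
  · omega

/-- the hole at the vertex `0`, edge `1` good, general form: `L` bounds the labels of the good odd edges of
a rank `< rk 1` -/
theorem mk2_G (hR : SeamR S) (hm : S.mode = 2) (hA : Adm S n j) (hb : ¬ S.bad 1) {R L : ℕ}
    (hH : HoleG S R) (hN : Num2 S n j z y) (hQ : QT2 S n j z y)
    (hL : ∀ r, S.P + 1 ≤ r → r < S.rk 1 → lam (min z y) (max z y) (n.n2 + n.Ux + r) < L)
    (h1 : n.nT + R + L + dZ n.sp e ≤
      lam (min z y) (max z y) (n.n2 + n.Ux + S.rk 1) + z)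
    (h2 : z ≤ n.nT + R + dZ n.sp e)
    (h3 : lam (min z y) (max z y) (n.n2 + n.Ux + S.P) + S.Q + n.nT + 1 + dZ n.sp e <
      lam (min z y) (max z y) (n.n2 + n.Ux + S.rk 1) + z) : Ok2 S n e j z y := by
  have hs := sp2 hm hA
  have hw := wz_res S n hs
  have hj := jU_res hA
  have hmz : mz S n.up = wz S n.up + n.N0 + n.nT + S.h := rfl
  have hG := gl_res S n hs j z y hA
  have hvq := vq2 S n j z y hm hA
  have hP := hR.Ph1 (by omega)
  have hQh := hR.Qh1 (by omega)
  have hXU := XU_P2S2A (z := z) (y := y) hA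
  have hzw := hN.zw
  have hx := p1g2 (z := z) (y := y) hA hb
  have hv := vk2 S n e j z y _ hx
  have h3' := hQ.lo
  have hk := S.hk
  have hr1 := S.rk_og 1 le_rfl (by omega) (by omega) hb
  have hRh := hH.Rh
  have hmon := (lam_mono (min z y) (max z y)).monotone
    (show n.n2 + j + S.P ≤ n.n2 + n.Ux + S.P by omega)
  have h5 := (lam_le2' (min z y) (max z y) (n.n2 + n.Ux + S.rk 1)).2
  refine mk2 hm hA hN (qok2 hR hm hA hQ) (von_G S n hG _ R L hH.toHole0 hb ?_ (by omega)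
    (by rw [hx]; omega) ?_ ?_) ?_
  · intro r r1 r2
    have h6 := hL r r1 r2
    change lam (min z y) (max z y) (n.n2 + j + r + (n.Ux - j)) < L
    have h7 : n.n2 + j + r + (n.Ux - j) = n.n2 + n.Ux + r := by omega
    rw [h7]
    exact h6
  · change wz S n.up + n.N0 + lam (min z y) (max z y) (n.n2 + j + S.P) + S.Q < _
    omega
  · intro _
    rw [hXU]
    omega
  · omega

/-- the hole at the vertex `0`, edge `1` bad: `z = R + 1 + d` -/
theorem mk2_B (hR : SeamR S) (hm : S.mode = 2) (hA : Adm S n j) (hb : S.bad 1) {R : ℕ}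
    (hH : HoleB S R) (hRQ : R + 1 ≤ S.Q) (hN : Num2 S n j z y) (hQ : QT2 S n j z y)
    (hz : z = R + 1 + dZ n.sp e) : Ok2 S n e j z y := by
  have hs := sp2 hm hA
  have hw := wz_res S n hs
  have hj := jU_res hA
  have hmz : mz S n.up = wz S n.up + n.N0 + n.nT + S.h := rfl
  have hG := gl_res S n hs j z y hA
  have hvq := vq2 S n j z y hm hA
  have hP := hR.Ph1 (by omega)
  have hQh := hR.Qh1 (by omega)
  have hXU := XU_P2S2A (z := z) (y := y) hA
  have hzw := hN.zw
  have hx := p1b2 (n := n) (j := j) (z := z) (y := y) hb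
  have hv := vk2 S n e j z y _ hx
  have h3 := hQ.lo
  have hk := S.hk
  have hr1 := S.rk_ob 1 le_rfl (by omega) (by omega) hb
  have h5 := (lam_le2' (min z y) (max z y) (n.n2 + j + S.rk 1)).2
  refine mk2 hm hA hN (qok2 hR hm hA hQ) (von_HB S n hG _ R hH hb hRQ (by rw [hx]; omega)) ?_
  omega

/-- the sum at `k` is `W0 - m` -/
theorem mk2_W (hR : SeamR S) (hm : S.mode = 2) (hA : Adm S n j) {x m : ℕ}
    (hx : (resLay S n j z y).p 1 = lam (min z y) (max z y) x) (hN : Num2 S n j z y)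
    (hQ : QT2 S n j z y)
    (hv : lam (min z y) (max z y) x + z + m =
      n.n2 + n.Ux + S.h + 3 + n.nT + S.h + dZ n.sp e)
    (hg : S.P + S.Q + m < 2 * S.h)
    (h1 : ∀ i, 1 ≤ i → i < k → ¬ ld i → ¬ S.bad i → 2 * S.h + 1 < S.rk i + S.rk (i + 1) + m →
      S.P + 1 ≤ S.rk (oe i) → S.rk (oe i) ≤ S.h + 1 →
      lam (min z y) (max z y) (n.n2 + n.Ux + S.rk (oe i)) = n.n2 + n.Ux + S.rk (oe i) + 2)
    (h2 : ∀ i, 1 ≤ i → i < k → ¬ ld i → ¬ S.bad i → S.rk i + S.rk (i + 1) + m ≠ 2 * S.h + 1) :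
    Ok2 S n e j z y := by
  have hs := sp2 hm hA
  have hw := wz_res S n hs
  have hj := jU_res hA
  have hmz : mz S n.up = wz S n.up + n.N0 + n.nT + S.h := rfl
  have hG := gl_res S n hs j z y hA
  have hvq := vq2 S n j z y hm hA
  have hP := hR.Ph1 (by omega)
  have hQh := hR.Qh1 (by omega)
  have hXU := XU_P2S2A (z := z) (y := y) hA
  have hzw := hN.zw
  have hvk := vk2 S n e j z y x hx
  have h3 := hQ.lo
  refine mk2 hm hA hN (qok2 hR hm hA hQ) (von_Wm S n hG _ m (by omega) hg ?_ ?_) ?_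
  · intro i i1 i2 i3 i4 i5
    have h4 := good_P2S2A S i1 i2 i3 i4
    rw [pog_P2S2A hA i1 i2 i3 i4, h1 i i1 i2 i3 i4 i5 h4.1 h4.2]
    omega
  · intro i i1 i2 i3 i4 i5
    exact absurd i5 (h2 i i1 i2 i3 i4)
  · omega

/-- the sum at `k` is `W0 + 1 = thr` (`a = 0`) and the sum at the special vertex is `W0 - m` -/
theorem mk2_Q (hR : SeamR S) (hm : S.mode = 2) (hA : Adm S n j) {x m : ℕ}
    (hx : (resLay S n j z y).p 1 = lam (min z y) (max z y) x) (hN : Num2 S n j z y)
    (hv : lam (min z y) (max z y) x + z =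
      n.n2 + n.Ux + S.h + 3 + n.nT + S.h + dZ n.sp e + 1)
    (hq : lam (min z y) (max z y) (n.n2 + j + S.P) + y + m = n.n2 + n.Ux + S.h + 3)
    (hg : S.P + S.Q + m < 2 * S.h)
    (h1 : ∀ i, 1 ≤ i → i < k → ¬ ld i → ¬ S.bad i → 2 * S.h + 1 < S.rk i + S.rk (i + 1) + m →
      S.P + 1 ≤ S.rk (oe i) → S.rk (oe i) ≤ S.h + 1 →
      lam (min z y) (max z y) (n.n2 + n.Ux + S.rk (oe i)) = n.n2 + n.Ux + S.rk (oe i) + 2)
    (h2 : ∀ i, 1 ≤ i → i < k → ¬ ld i → ¬ S.bad i → S.rk i + S.rk (i + 1) + m = 2 * S.h + 1 →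
      S.P + 1 ≤ S.rk (oe i) → S.rk (oe i) ≤ S.h + 1 →
      lam (min z y) (max z y) (n.n2 + n.Ux + S.rk (oe i)) < n.n2 + n.Ux + S.rk (oe i) + 2) :
    Ok2 S n e j z y := by
  have hs := sp2 hm hA
  have hw := wz_res S n hs
  have hj := jU_res hA
  have hmz : mz S n.up = wz S n.up + n.N0 + n.nT + S.h := rfl
  have hG := gl_res S n hs j z y hA
  have hvq := vq2 S n j z y hm hA
  have hP := hR.Ph1 (by omega)
  have hQh := hR.Qh1 (by omega)
  have hXU := XU_P2S2A (z := z) (y := y) hA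
  have hzw := hN.zw
  have hvk := vk2 S n e j z y x hx
  refine mk2 hm hA hN (von_Wm S n hG _ m (by omega) hg ?_ ?_)
    (von_T S n hG _ (fun _ => by omega) (by omega) ?_) ?_
  · intro i i1 i2 i3 i4 i5
    have h4 := good_P2S2A S i1 i2 i3 i4
    rw [pog_P2S2A hA i1 i2 i3 i4, h1 i i1 i2 i3 i4 i5 h4.1 h4.2]
    omega
  · intro i i1 i2 i3 i4 i5
    have h4 := good_P2S2A S i1 i2 i3 i4
    have h5 := h2 i i1 i2 i3 i4 i5 h4.1 h4.2
    rw [pog_P2S2A hA i1 i2 i3 i4]
    omega
  · change _ ≤ wz S n.up + mz S n.up + n.n2 + j + 1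
    omega
  · omega

end

end Pool.Agent.Lob5
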