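import Pool.Agent.Lob5.P2S2D

/-!
# The selection for the mode 2, edge `1` bad

Notation of `P2S2A`; `y0 = yo2 S n j`, `ρ = rk 1 ≤ P-1` (`rk (q+1) = P`, `q+1 ≠ 1`, both odd, `rk_inj`), `x = a+ρ`, `F0 = x + [y0 ≤ x]`,
`R` from `b3` (`R+1 ≤ Q`). `N ≥ a`, `N ≥ nT` (`+1` if `sp ≥ 2`: `hA.jU`), `P ≤ h`, `P ≥ 3`, `P+Q ≤ ρ+h` (`b2`).
`y0 = N+h+4-P ≥ b+1` or `y0 = N+h+3-P ≤ b-1` (the second case iff `N+h+3 < a+2P`). `QT2`: if `z ≥ b+1` and `max z y0 ≥ b+2` then
`σ b + y0 = N+h+3+a+1`. `F3`: `y + σ (b+1) ≥ (N+h+2-P) + (b+1)`. All conditions: `unfold lam; split_ifs <;> omega`.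

`sel2_bA`: `F0 ≤ Q + d`.
* `y0 ≤ b+1`: `z = b+Q+2+d-F0 (≥ b+2)`, `y = y0`: `σ x = F0`, `σ b ≤ b+1`; `σ (b+1) = b+2`, or `b+3` if `z = b+2`. `mk2_A`.
* `y0 ≥ b+2` (so `F0 = x`), `z = b+Q+1+d-F0 (≥ b+1)`, `z ≠ y0`: `y = y0`. `mk2_A` (`σ x = x`, `σ b = b`, `σ (b+1) ≥ b+1`).
* `y0 ≥ b+2`, `b+Q+1+d-F0 = y0 = z`, `a ≥ 1`: `y = y0-1 (≥ b+1)`: `σ b + y = N+h+3+a`. `mk2_A`.
* the same, `a = 0`, `y0 ≥ b+3`: `z = R+1+d`, `y = y0-1` if `z ≤ b` and `y = y0` otherwise; `mk2_B`. (`y0 = P+Q+1-ρ+d ≥ Q+2+d > z+1`.)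
* the same, `a = 0`, `y0 = b+2`: `(z, y) = (b+1, b)`, `b = P`, `N+h+3 = 2P+1`, `d+Q = ρ+1`. Here `D` is `d2_A4` (`P2S2D.lean`); `F3`: `σ (b+1) = b+3`;
  `V_q = W0 + (b+2) + b - (2b+1) = W0+1 = thr` (`von_T`, as in `qok2`: `QT2` holds, `σ b = b+2`); the sum at `k`: `σ ρ = ρ`,
  `v = w+N0 + ρ+b+1-d = w+N0 + b+Q`. `VOKn` directly (copy `sum_P2Gen` of `P2Gen.lean`): `thr`: clear. `gap`: left, `σ (b+1) = b+3`. `C`: a
  good vertex has a sum `≥ w+N0+nT+Q+1+(N+P+3)`. A bad vertex `i` with `rk (oe i) ≤ P-1`: `≤ w+N0+P-1+Q`. `rk (oe i) = P`: `oe i = q+1`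
  (`rk_inj`), so `i = q` (loaded, no) or `i = q+1` (`oe i` is `i` or `i+1`), `ee i = q+2`, `rk = Q`, sum `w+N0+(b+2)+Q ≠ v`.
`sel2_bC`: `Q+nT+2+d ≤ F0 ≤ nT+h+d`: `r = F0-nT-d`, `p = N+P+cutG r+1 (≤ N+h+2)`, `z = p + [y0 ≤ p]`, `y = y0`; `σ x = F0`; a good odd edge of rank
  `o ≤ P+cutG r` has the label `σ (N+o) < z`, of rank `o > P+cutG r` the label `> z`. `mk2_C` with `S.cutG_lt, S.cutG_gt, S.cutG_le`.
`sel2_bD`: `nT+h+d < F0`: `(z, y) = (N+h+3, y0)` (`y0 ≤ w-2`), `σ x = F0 ≤ x+1 ≤ a+h`, `mk2_T`, `V_q = thr`.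
-/

namespace Pool.Agent.Lob5

variable {k : ℕ} {ld al : ℕ → Prop} {S : Seam k ld al} {n : Num} {e j : ℕ}

private theorem s2B_dz (sp e : ℕ) : dZ sp e ≤ 1 := by
  unfold dZ
  split_ifs <;> omega

private theorem s2B_oe {i : ℕ} (h1 : 1 ≤ i) (h2 : i < k) : 1 ≤ oe i ∧ oe i ≤ k := by
  unfold oe
  split_ifs <;> omega

private theorem s2B_ee {i : ℕ} (h1 : 1 ≤ i) (h2 : i < k) : 1 ≤ ee i ∧ ee i ≤ k := by
  unfold ee
  split_ifs <;> omega

private theorem s2B_two (Λ : FLay) (i : ℕ) : Λ.bs i = Λ.p (oe i) + Λ.p (ee i) := by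
  unfold FLay.bs oe ee
  by_cases h : i % 2 = 1
  · rw [if_pos h, if_pos h]
  · rw [if_neg h, if_neg h, add_comm]

private theorem s2B_yo (S : Seam k ld al) (n : Num) (j : ℕ) :
    (n.n2 + j + 2 * S.P ≤ n.n2 + n.Ux + S.h + 3 ∧
      yo2 S n j = n.n2 + n.Ux + S.h + 4 - S.P) ∨
    (n.n2 + n.Ux + S.h + 3 < n.n2 + j + 2 * S.P ∧
      yo2 S n j = n.n2 + n.Ux + S.h + 3 - S.P) := by
  unfold yo2
  split_ifs with h
  · exact Or.inl ⟨h, rfl⟩
  · exact Or.inr ⟨by omega, rfl⟩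

private theorem s2B_facts (hR : SeamR S) (hm : S.mode = 2) (hA : Adm S n j) (hb : S.bad 1) :
    3 ≤ S.P ∧ S.P ≤ S.h ∧ S.Q + 1 ≤ S.h ∧ 1 ≤ S.Q ∧ 1 ≤ S.rk 1 ∧ S.rk 1 + 1 ≤ S.P ∧
      S.P + S.Q ≤ S.rk 1 + S.h ∧ n.nT + j ≤ n.Ux := by
  obtain ⟨hq1, hq2, hq3, hq4, hq5⟩ := S.m2 (Or.inl hm)
  have hk := S.hk
  have hqk := S.hq
  have hq0 := S.ld_pos _ (S.al_ld _ hq1)
  have hr1 := S.rk_ob 1 le_rfl (by omega) (by omega) hb
  have hne : S.rk 1 ≠ S.P := by
    intro h
    have h1 := S.rk_inj 1 (S.q + 1) le_rfl (by omega) (by omega) (by omega) (by omega)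
      (by rw [h, hq5])
    omega
  exact ⟨hR.P3 (by omega), hR.Ph1 (by omega), hR.Qh1 (by omega), hR.Q1 (by omega), hr1.1,
    by omega, hR.b2 hb (by omega), jU_res hA⟩

private theorem s2B_num {z y u v : ℕ} (hu : min z y = u) (hv : max z y = v)
    (za : n.n2 + j < z) (zw : z ≤ n.n2 + n.Ux + S.h + 3) (ya : n.n2 + j < y)
    (yw : y ≤ n.n2 + n.Ux + S.h + 3) (zy : z ≠ y) (mx : n.n2 + j + S.P + 2 ≤ v)
    (F3 : n.sp = 3 → n.nT + S.h + n.n2 + j + 1 ≤ y + lam u v (n.n2 + j + S.P + 1)) :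
    Num2 S n j z y := by
  subst hu hv
  exact ⟨za, zw, ya, yw, zy, mx, F3⟩

private theorem s2B_qt {z y u v : ℕ} (hu : min z y = u) (hv : max z y = v)
    (lo : n.n2 + n.Ux + S.h + 3 < lam u v (n.n2 + j + S.P) + y)
    (hi : lam u v (n.n2 + j + S.P) + y ≤ n.n2 + n.Ux + S.h + 3 + (n.n2 + j) + 1) :
    QT2 S n j z y := by
  subst hu hv
  exact ⟨lo, hi⟩

/-- the last case of `sel2_bA` -/
private theorem s2B_last (hR : SeamR S) (hm : S.mode = 2) (hA : Adm S n j) (hb : S.bad 1)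
    (ha : n.n2 + j = 0) (h1 : n.n2 + n.Ux + S.h + 2 = 2 * S.P)
    (h2 : S.Q + dZ n.sp e = S.rk 1 + 1) : Ok2 S n e j (S.P + 1) S.P := by
  obtain ⟨f1, f2, f3, f4, f5, f6, f7, f8⟩ := s2B_facts hR hm hA hb
  obtain ⟨hq1, hq2, hq3, hq4, hq5⟩ := S.m2 (Or.inl hm)
  obtain ⟨hk1, hk2, hk3⟩ := hR.m2 hm
  have hs := sp2 hm hA
  have hw := wz_res S n hs
  have hmz : mz S n.up = wz S n.up + n.N0 + n.nT + S.h := rfl
  have hd := s2B_dz n.sp e
  have hmin : min (S.P + 1) S.P = S.P := by omega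
  have hmax : max (S.P + 1) S.P = S.P + 1 := by omega
  have hG := gl_res S n hs j (S.P + 1) S.P hA
  have hQT : QT2 S n j (S.P + 1) S.P := by
    refine s2B_qt hmin hmax ?_ ?_ <;> (unfold lam; split_ifs <;> omega)
  have hvk := vk2 S n e j (S.P + 1) S.P _ (p1b2 (n := n) (j := j) hb)
  rw [hmin, hmax] at hvk
  have hl1 : lam S.P (S.P + 1) (n.n2 + j + S.rk 1) = S.rk 1 := by
    unfold lam
    split_ifs <;> omega
  rw [hl1] at hvk
  have hv : (resLay S n j (S.P + 1) S.P).vk S n e = wz S n.up + n.N0 + S.P + S.Q := by omega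
  have hX1 : (resLay S n j (S.P + 1) S.P).X 1 = S.P + 3 := by
    change lam (min (S.P + 1) S.P) (max (S.P + 1) S.P) (n.n2 + j + S.P + 1) = _
    rw [hmin, hmax]
    unfold lam
    split_ifs <;> omega
  have hvq := vq2 S n j (S.P + 1) S.P hm hA
  rw [hmin, hmax] at hvq
  have hl2 : lam S.P (S.P + 1) (n.n2 + j + S.P) = S.P + 2 := by
    unfold lam
    split_ifs <;> omega
  rw [hl2] at hvq
  refine ⟨by omega, by omega, by omega, by omega, by omega, d2_A4 hR hm hA ha, ?_,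
    qok2 hR hm hA hQT, ⟨?_, ?_, ?_⟩, ?_⟩
  · intro _
    rw [hX1]
    omega
  · rw [hv]
    change _ ≤ wz S n.up + mz S n.up + n.n2 + j + 1
    omega
  · intro i i1 i2 i3 hbs
    rw [hv, s2B_two] at hbs
    obtain ⟨ho, hbi⟩ := S.same' i1 i2 i3
    have o1 := s2B_oe i1 i2
    have e1 := s2B_ee i1 i2
    have hpe := hG.peven (ee i) ee_even
    by_cases hc : S.bad (oe i)
    · have r1 := S.rk_ob _ o1.1 o1.2 oe_odd hc
      have r2 := S.rk_eb _ e1.1 e1.2 ee_even (ho.1 hc)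
      rw [if_neg (by omega)] at hpe
      have hpo := pb_res S n j (S.P + 1) S.P (e := oe i) oe_odd r1.2
      rw [hmin, hmax] at hpo
      by_cases hrP : S.rk (oe i) = S.P
      · have hoq : oe i = S.q + 1 :=
          S.rk_inj _ _ o1.1 o1.2 (by omega) (by omega) (by rw [oe_odd]; omega)
            (by rw [hrP, hq5])
        have hiq : i = S.q + 1 := by
          unfold oe at hoq
          split_ifs at hoq with h5
          · exact hoq
          · exfalso
            have h6 : i = S.q := by omega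
            rw [h6] at i3
            exact i3 (S.al_ld _ hq1)
        have hee : ee i = S.q + 2 := by
          unfold ee
          rw [if_pos (by omega)]
          omega
        have hre : S.rk (ee i) = S.Q := by rw [hee, hk3]
        have hl : lam S.P (S.P + 1) (n.n2 + j + S.rk (oe i)) = S.P + 2 := by
          rw [hrP]
          exact hl2
        rw [hpo, hpe, hl, hre] at hbs
        omega
      · have hl : lam S.P (S.P + 1) (n.n2 + j + S.rk (oe i)) = S.rk (oe i) := by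
          unfold lam
          split_ifs <;> omega
        rw [hpo, hpe, hl] at hbs
        omega
    · have r1 := S.rk_og _ o1.1 o1.2 oe_odd hc
      have r2 := S.rk_eg _ e1.1 e1.2 ee_even (fun h => hc (ho.2 h))
      rw [if_pos (by omega)] at hpe
      have hpo := pg_res S n j (S.P + 1) S.P hA (e := oe i) oe_odd (by omega)
      have hle := le_lam (min (S.P + 1) S.P) (max (S.P + 1) S.P) (n.n2 + n.Ux + S.rk (oe i))
      rw [hpo, hpe] at hbs
      omega
  · intro _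
    left
    rw [hv, hX1]
    omega
  · omega

theorem sel2_bA (hR : SeamR S) (hm : S.mode = 2) (hA : Adm S n j) (hb : S.bad 1)
    (h : n.n2 + j + S.rk 1 + (if yo2 S n j ≤ n.n2 + j + S.rk 1 then 1 else 0) ≤
      S.Q + dZ n.sp e) : ∃ z y, Ok2 S n e j z y := by
  obtain ⟨f1, f2, f3, f4, f5, f6, f7, f8⟩ := s2B_facts hR hm hA hb
  have hd := s2B_dz n.sp e
  have hy := s2B_yo S n j
  generalize hy0 : yo2 S n j = y0 at hy h
  by_cases c1 : y0 ≤ n.n2 + j + S.P + 1
  · -- the label is before the special position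
    obtain ⟨F, hF⟩ : ∃ F, F = n.n2 + j + S.rk 1 +
      (if y0 ≤ n.n2 + j + S.rk 1 then 1 else 0) := ⟨_, rfl⟩
    rw [← hF] at h
    have hF1 : n.n2 + j + S.rk 1 ≤ F ∧ F ≤ n.n2 + j + S.rk 1 + 1 := by
      rw [hF]
      split_ifs <;> omega
    have hmin : min (n.n2 + j + S.P + S.Q + 2 + dZ n.sp e - F) y0 = y0 := by omega
    have hmax : max (n.n2 + j + S.P + S.Q + 2 + dZ n.sp e - F) y0 =
        n.n2 + j + S.P + S.Q + 2 + dZ n.sp e - F := by omega
    have hl : lam y0 (n.n2 + j + S.P + S.Q + 2 + dZ n.sp e - F) (n.n2 + j + S.rk 1) = F := by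
      rw [hF] at hF1 ⊢
      unfold lam
      split_ifs at hF1 ⊢ <;> omega
    refine ⟨n.n2 + j + S.P + S.Q + 2 + dZ n.sp e - F, y0, mk2_A hR hm hA (p1b2 hb)
      (s2B_num hmin hmax ?_ ?_ ?_ ?_ ?_ ?_ ?_) (s2B_qt hmin hmax ?_ ?_) ?_ ?_⟩
    · omega
    · omega
    · omega
    · omega
    · omega
    · omega
    · intro _
      unfold lam
      split_ifs <;> omega
    · unfold lam
      split_ifs <;> omega
    · unfold lam
      split_ifs <;> omega
    · rw [hmin, hmax, hl]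
      unfold lam
      split_ifs <;> omega
    · rw [hmin, hmax, hl]
      unfold lam
      split_ifs <;> omega
  · rw [if_neg (by omega), Nat.add_zero] at h
    obtain ⟨z, hz⟩ : ∃ z, z = S.P + S.Q + 1 + dZ n.sp e - S.rk 1 := ⟨_, rfl⟩
    have hzb : n.n2 + j + S.P + 1 ≤ z := by omega
    by_cases c2 : z = y0
    · by_cases c3 : 1 ≤ n.n2 + j
      · -- `y = y0 - 1`
        have hmin : min z (y0 - 1) = y0 - 1 := by omega
        have hmax : max z (y0 - 1) = y0 := by omega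
        have hl : lam (y0 - 1) y0 (n.n2 + j + S.rk 1) = n.n2 + j + S.rk 1 := by
          unfold lam
          split_ifs <;> omega
        refine ⟨z, y0 - 1, mk2_A hR hm hA (p1b2 hb)
          (s2B_num hmin hmax ?_ ?_ ?_ ?_ ?_ ?_ ?_) (s2B_qt hmin hmax ?_ ?_) ?_ ?_⟩
        · omega
        · omega
        · omega
        · omega
        · omega
        · omega
        · intro _
          unfold lam
          split_ifs <;> omega
        · unfold lam
          split_ifs <;> omega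
        · unfold lam
          split_ifs <;> omega
        · rw [hmin, hmax, hl]
          unfold lam
          split_ifs <;> omega
        · rw [hmin, hmax, hl]
          unfold lam
          split_ifs <;> omega
      · by_cases c4 : n.n2 + j + S.P + 3 ≤ y0
        · -- the hole at the vertex `0`
          obtain ⟨R, hH, hRQ'⟩ := hR.b3 hb
          have hRQ := hRQ' (Or.inr hm)
          by_cases c5 : R + 1 + dZ n.sp e ≤ n.n2 + j + S.P
          · have hmin : min (R + 1 + dZ n.sp e) (y0 - 1) = R + 1 + dZ n.sp e := by omega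
            have hmax : max (R + 1 + dZ n.sp e) (y0 - 1) = y0 - 1 := by omega
            refine ⟨R + 1 + dZ n.sp e, y0 - 1, mk2_B hR hm hA hb hH hRQ
              (s2B_num hmin hmax ?_ ?_ ?_ ?_ ?_ ?_ ?_) (s2B_qt hmin hmax ?_ ?_) rfl⟩
            · omega
            · omega
            · omega
            · omega
            · omega
            · omega
            · intro _
              unfold lam
              split_ifs <;> omega
            · unfold lam
              split_ifs <;> omega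
            · unfold lam
              split_ifs <;> omega
          · have hmin : min (R + 1 + dZ n.sp e) y0 = R + 1 + dZ n.sp e := by omega
            have hmax : max (R + 1 + dZ n.sp e) y0 = y0 := by omega
            refine ⟨R + 1 + dZ n.sp e, y0, mk2_B hR hm hA hb hH hRQ
              (s2B_num hmin hmax ?_ ?_ ?_ ?_ ?_ ?_ ?_) (s2B_qt hmin hmax ?_ ?_) rfl⟩
            · omega
            · omega
            · omega
            · omega
            · omega
            · omega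
            · intro _
              unfold lam
              split_ifs <;> omega
            · unfold lam
              split_ifs <;> omega
            · unfold lam
              split_ifs <;> omega
        · exact ⟨S.P + 1, S.P, s2B_last hR hm hA hb (by omega) (by omega) (by omega)⟩
    · -- `y = y0`
      have hl : lam (min z y0) (max z y0) (n.n2 + j + S.rk 1) = n.n2 + j + S.rk 1 := by
        have h1 : n.n2 + j + S.P + 1 ≤ min z y0 := by omega
        have h2 : n.n2 + j + S.P + 2 ≤ max z y0 := by omega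
        unfold lam
        split_ifs <;> omega
      have hlb : lam (min z y0) (max z y0) (n.n2 + j + S.P) = n.n2 + j + S.P := by
        have h1 : n.n2 + j + S.P + 1 ≤ min z y0 := by omega
        have h2 : n.n2 + j + S.P + 2 ≤ max z y0 := by omega
        unfold lam
        split_ifs <;> omega
      have hle := le_lam (min z y0) (max z y0) (n.n2 + j + S.P + 1)
      refine ⟨z, y0, mk2_A hR hm hA (p1b2 hb)
        (s2B_num rfl rfl ?_ ?_ ?_ ?_ ?_ ?_ ?_) (s2B_qt rfl rfl ?_ ?_) ?_ ?_⟩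
      · omega
      · omega
      · omega
      · omega
      · omega
      · omega
      · intro _
        omega
      · rw [hlb]
        omega
      · rw [hlb]
        omega
      · rw [hlb, hl]
        omega
      · rw [hl]
        omega

theorem sel2_bC (hR : SeamR S) (hm : S.mode = 2) (hA : Adm S n j) (hb : S.bad 1)
    (h1 : S.Q + n.nT + 1 + dZ n.sp e <
      n.n2 + j + S.rk 1 + (if yo2 S n j ≤ n.n2 + j + S.rk 1 then 1 else 0))
    (h2 : n.n2 + j + S.rk 1 + (if yo2 S n j ≤ n.n2 + j + S.rk 1 then 1 else 0) ≤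
      n.nT + S.h + dZ n.sp e) : ∃ z y, Ok2 S n e j z y := by
  obtain ⟨f1, f2, f3, f4, f5, f6, f7, f8⟩ := s2B_facts hR hm hA hb
  have hd := s2B_dz n.sp e
  have hy := s2B_yo S n j
  generalize hy0 : yo2 S n j = y0 at hy h1 h2
  obtain ⟨F, hF⟩ : ∃ F, F = n.n2 + j + S.rk 1 +
    (if y0 ≤ n.n2 + j + S.rk 1 then 1 else 0) := ⟨_, rfl⟩
  rw [← hF] at h1 h2
  obtain ⟨r, hr⟩ : ∃ r, F = n.nT + r + dZ n.sp e := ⟨F - n.nT - dZ n.sp e, by omega⟩
  have hr1 : S.Q + 1 ≤ r := by omega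
  have hr2 : r ≤ S.h := by omega
  have hcut := S.cutG_le r
  have hlt := S.cutG_lt r hr1 hr2
  have hgt := S.cutG_gt r hr1 hr2
  generalize hc : S.cutG r = c at hcut hlt hgt
  by_cases c1 : y0 ≤ n.n2 + n.Ux + S.P + c + 1
  · have hmin : min (n.n2 + n.Ux + S.P + c + 2) y0 = y0 := by omega
    have hmax : max (n.n2 + n.Ux + S.P + c + 2) y0 = n.n2 + n.Ux + S.P + c + 2 := by omega
    have hl : lam y0 (n.n2 + n.Ux + S.P + c + 2) (n.n2 + j + S.rk 1) = F := by
      rw [hF]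
      unfold lam
      split_ifs <;> omega
    refine ⟨n.n2 + n.Ux + S.P + c + 2, y0, mk2_C hR hm hA (p1b2 hb)
      (s2B_num hmin hmax ?_ ?_ ?_ ?_ ?_ ?_ ?_) (s2B_qt hmin hmax ?_ ?_) hr1 hr2 ?_ ?_ ?_ ?_⟩
    · omega
    · omega
    · omega
    · omega
    · omega
    · omega
    · intro _
      unfold lam
      split_ifs <;> omega
    · unfold lam
      split_ifs <;> omega
    · unfold lam
      split_ifs <;> omega
    · rw [hmin, hmax, hl]
      omega
    · rw [hmin, hmax]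
      unfold lam
      split_ifs <;> omega
    · intro i i1 i2 i3 i4 i5 i6 i7
      have := hlt i i1 i2 i3 i4 i5
      rw [hmin, hmax]
      unfold lam
      split_ifs <;> omega
    · intro i i1 i2 i3 i4 i5 i6 i7
      have := hgt i i1 i2 i3 i4 i5
      rw [hmin, hmax]
      unfold lam
      split_ifs <;> omega
  · have hmin : min (n.n2 + n.Ux + S.P + c + 1) y0 = n.n2 + n.Ux + S.P + c + 1 := by omega
    have hmax : max (n.n2 + n.Ux + S.P + c + 1) y0 = y0 := by omega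
    have hl : lam (n.n2 + n.Ux + S.P + c + 1) y0 (n.n2 + j + S.rk 1) = F := by
      rw [hF]
      unfold lam
      split_ifs <;> omega
    refine ⟨n.n2 + n.Ux + S.P + c + 1, y0, mk2_C hR hm hA (p1b2 hb)
      (s2B_num hmin hmax ?_ ?_ ?_ ?_ ?_ ?_ ?_) (s2B_qt hmin hmax ?_ ?_) hr1 hr2 ?_ ?_ ?_ ?_⟩
    · omega
    · omega
    · omega
    · omega
    · omega
    · omega
    · intro _
      unfold lam
      split_ifs <;> omega
    · unfold lam
      split_ifs <;> omega
    · unfold lam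
      split_ifs <;> omega
    · rw [hmin, hmax, hl]
      omega
    · rw [hmin, hmax]
      unfold lam
      split_ifs <;> omega
    · intro i i1 i2 i3 i4 i5 i6 i7
      have := hlt i i1 i2 i3 i4 i5
      rw [hmin, hmax]
      unfold lam
      split_ifs <;> omega
    · intro i i1 i2 i3 i4 i5 i6 i7
      have := hgt i i1 i2 i3 i4 i5
      rw [hmin, hmax]
      unfold lam
      split_ifs <;> omega

theorem sel2_bD (hR : SeamR S) (hm : S.mode = 2) (hA : Adm S n j) (hb : S.bad 1)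
    (h : n.nT + S.h + dZ n.sp e <
      n.n2 + j + S.rk 1 + (if yo2 S n j ≤ n.n2 + j + S.rk 1 then 1 else 0)) :
    ∃ z y, Ok2 S n e j z y := by
  obtain ⟨f1, f2, f3, f4, f5, f6, f7, f8⟩ := s2B_facts hR hm hA hb
  have hd := s2B_dz n.sp e
  have hy := s2B_yo S n j
  generalize hy0 : yo2 S n j = y0 at hy h
  have hmin : min (n.n2 + n.Ux + S.h + 3) y0 = y0 := by omega
  have hmax : max (n.n2 + n.Ux + S.h + 3) y0 = n.n2 + n.Ux + S.h + 3 := by omega
  obtain ⟨F, hF⟩ : ∃ F, F = n.n2 + j + S.rk 1 +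
    (if y0 ≤ n.n2 + j + S.rk 1 then 1 else 0) := ⟨_, rfl⟩
  rw [← hF] at h
  have hF1 : n.n2 + j + S.rk 1 ≤ F ∧ F ≤ n.n2 + j + S.rk 1 + 1 := by
    rw [hF]
    split_ifs <;> omega
  have hl : lam y0 (n.n2 + n.Ux + S.h + 3) (n.n2 + j + S.rk 1) = F := by
    rw [hF]
    unfold lam
    split_ifs <;> omega
  refine ⟨n.n2 + n.Ux + S.h + 3, y0, mk2_T hR hm hA (p1b2 hb)
    (s2B_num hmin hmax ?_ ?_ ?_ ?_ ?_ ?_ ?_) (s2B_qt hmin hmax ?_ ?_) ?_ ?_ ?_⟩
  · omega
  · omega
  · omega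
  · omega
  · omega
  · omega
  · intro _
    unfold lam
    split_ifs <;> omega
  · unfold lam
    split_ifs <;> omega
  · unfold lam
    split_ifs <;> omega
  · rw [hmin, hmax, hl]
    omega
  · rw [hmin, hmax, hl]
    omega
  · rw [hmin, hmax, hl]
    unfold lam
    split_ifs <;> omega

end Pool.Agent.Lob5
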