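import Pool.Agent.Lob5.P2S2A

/-!
# The selection for the mode 2: comparison facts for the labels `(z, y) = (b+1, b)`, `a = 0`

`d2_A4`: as `dab_GL` in `GLDab.lean` (copy its proof and its private lemmas), with `gl_res` (`σ = lam P (P+1)`: `σ r = r` for
`r < P`, `σ r = r+2` for `r ≥ P`): only in `Dbb` the condition `hb` is used, for `r = rk (oe a)`, `r' = rk (oe z)`: now
`oe a ≠ q+1` (`a ≠ q`, and `q+1` is not loaded: `hR.m2`; `oe a` is `a` or `a+1`), and `rk (q+1) = P` (`S.m2`), so `r ≤ P-1` (`rk_inj`, both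
edges odd) and `σ r = r`, `σ r' ≥ r'`. `N ≥ nT` (`hA.jU`), `a = n2+j = 0`, `wz S n.up = N+h+3` (`wz_res`).
-/

namespace Pool.Agent.Lob5

section

variable {k : ℕ} {ld al : ℕ → Prop}

private theorem s2D_oe {i : ℕ} (h1 : 1 ≤ i) (h2 : i < k) : 1 ≤ oe i ∧ oe i ≤ k := by
  unfold oe
  split_ifs <;> omega

private theorem s2D_ee {i : ℕ} (h1 : 1 ≤ i) (h2 : i < k) : 1 ≤ ee i ∧ ee i ≤ k := by
  unfold ee
  split_ifs <;> omega

private theorem s2D_two (Λ : FLay) (i : ℕ) : Λ.bs i = Λ.p (oe i) + Λ.p (ee i) := by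
  unfold FLay.bs oe ee
  by_cases h : i % 2 = 1
  · rw [if_pos h, if_pos h]
  · rw [if_neg h, if_neg h, add_comm]

private theorem s2D_sh {σ : ℕ → ℕ} (h : StrictMono σ) {r r' : ℕ} (hr : r ≤ r') :
    σ r + r' ≤ σ r' + r := by
  obtain ⟨d, rfl⟩ := Nat.exists_eq_add_of_le hr
  clear hr
  induction d with
  | zero => simp
  | succ d ih =>
    have h1 : σ (r + d) < σ (r + (d + 1)) := h (by omega)
    omega

private theorem s2D_ge {σ : ℕ → ℕ} (h : StrictMono σ) (r : ℕ) : r ≤ σ r := h.le_apply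

/-- kind b -/
private theorem s2D_b (S : Seam k ld al) (n : Num) {Λ : FLay} {σ : ℕ → ℕ} (h : GLy S n Λ σ)
    {i : ℕ} (hi : ld i) (hb : S.bad (oe i)) :
    1 ≤ S.rk (oe i) ∧ S.rk (oe i) ≤ S.P ∧
      Λ.bs i = wz S n.up + n.N0 + n.nT + σ (n.n2 + Λ.j + S.rk (oe i)) + S.rk (ee i) := by
  have h1 := S.ld_pos i hi
  have h2 := S.ld_lt i hi
  have r1 := S.rk_ob _ (s2D_oe h1 h2).1 (s2D_oe h1 h2).2 oe_odd hb
  have r2 := S.rk_eg _ (s2D_ee h1 h2).1 (s2D_ee h1 h2).2 ee_even ((S.diff' hi).1 hb)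
  refine ⟨r1.1, r1.2, ?_⟩
  rw [s2D_two, h.podd _ oe_odd, h.peven _ ee_even, if_pos r1.2, if_pos (by omega), Nat.add_zero]
  omega

/-- kind g -/
private theorem s2D_g (S : Seam k ld al) (n : Num) {Λ : FLay} {σ : ℕ → ℕ} (h : GLy S n Λ σ)
    {i : ℕ} (hi : ld i) (hb : ¬ S.bad (oe i)) :
    S.P + 1 ≤ S.rk (oe i) ∧ S.rk (oe i) ≤ S.h + 1 ∧
      Λ.bs i = wz S n.up + n.N0 + σ (n.n2 + Λ.j + S.rk (oe i) + Λ.U) + S.rk (ee i) := by
  have h1 := S.ld_pos i hi
  have h2 := S.ld_lt i hi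
  have r1 := S.rk_og _ (s2D_oe h1 h2).1 (s2D_oe h1 h2).2 oe_odd hb
  have hbe : S.bad (ee i) := by
    by_contra h3
    exact hb ((S.diff' hi).2 h3)
  have r2 := S.rk_eb _ (s2D_ee h1 h2).1 (s2D_ee h1 h2).2 ee_even hbe
  refine ⟨r1.1, r1.2, ?_⟩
  rw [s2D_two, h.podd _ oe_odd, h.peven _ ee_even, if_neg (by omega), if_neg (by omega)]
  omega

private theorem s2D_dab (S : Seam k ld al) (n : Num) {Λ : FLay} {σ : ℕ → ℕ} (h : GLy S n Λ σ)
    (hm : n.sp ≠ 0 → S.mode ≠ 0 ∧ S.mode ≠ 3)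
    (hr : wz S n.up ≤ n.n2 + Λ.j + Λ.U + S.h + 1 + 2 + (if 2 ≤ n.sp then 1 else 0))
    (hb : ∀ a z, al a → a ≠ S.q → S.bad (oe a) → ld z → ¬ al z → S.bad (oe z) →
      σ (n.n2 + Λ.j + S.rk (oe a)) + S.rk (oe z) + (if n.sp = 0 ∧ S.mode = 5 then 1 else 0) ≤
        σ (n.n2 + Λ.j + S.rk (oe z)) + S.rk (oe a) +
          (if S.mode = 1 ∨ S.mode = 2 ∨ S.mode = 5 then 1 else 0)) :
    FDab S n Λ := by
  have hup : wz S n.up = n.n2 + n.Ux + S.h + 1 + (if n.sp = 0 then 0 else 1) + 1 := by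
    rw [wz_up]
    rfl
  have hU := h.U_ge
  have htop := h.top
  refine ⟨?_, ?_, ?_⟩
  · intro a z ha haq hba hz hza
    have hla := S.al_ld a ha
    have hJa := rk_sum S.rk a
    have hJz := rk_sum S.rk z
    obtain ⟨a1, a2, a3⟩ := s2D_b S n h hla hba
    by_cases hbz : S.bad (oe z)
    · obtain ⟨z1, z2, z3⟩ := s2D_b S n h hz hbz
      have h1 := hb a z ha haq hba hz hza hbz
      have h2 := S.tbb a z ha haq hba hz hza hbz
      rw [a3, z3]
      omega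
    · obtain ⟨z1, z2, z3⟩ := s2D_g S n h hz hbz
      have h1 := s2D_sh h.mono (show n.n2 + Λ.j + S.rk (oe a) ≤ n.n2 + Λ.j + S.rk (oe z) + Λ.U by
        omega)
      have h2 := S.tbg a z ha haq hba hz hza hbz
      rw [a3, z3]
      split_ifs at h2 ⊢ <;> omega
  · intro a z ha haq hba hz hza hbz
    have hla := S.al_ld a ha
    have hJa := rk_sum S.rk a
    have hJz := rk_sum S.rk z
    obtain ⟨a1, a2, a3⟩ := s2D_g S n h hla hba
    obtain ⟨z1, z2, z3⟩ := s2D_g S n h hz hbz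
    have h1 := s2D_sh h.mono (show n.n2 + Λ.j + S.rk (oe a) + Λ.U ≤
      n.n2 + Λ.j + Λ.U + S.h + 1 by omega)
    have h2 := S.tgg a z ha haq hba hz hza hbz
    have h3 := s2D_ge h.mono (n.n2 + Λ.j + S.rk (oe z) + Λ.U)
    rw [a3, z3]
    omega
  · intro a z ha haq hba hz hza hbz
    have hla := S.al_ld a ha
    have hJa := rk_sum S.rk a
    have hJz := rk_sum S.rk z
    obtain ⟨a1, a2, a3⟩ := s2D_g S n h hla hba
    obtain ⟨z1, z2, z3⟩ := s2D_b S n h hz hbz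
    have h1 := s2D_sh h.mono (show n.n2 + Λ.j + S.rk (oe a) + Λ.U ≤
      n.n2 + Λ.j + Λ.U + S.h + 1 by omega)
    have h2 := S.tgb a z ha haq hba hz hza hbz
    have h3 := s2D_ge h.mono (n.n2 + Λ.j + S.rk (oe z))
    rw [a3, z3]
    by_cases hs : n.sp = 0
    · rw [if_pos hs] at hup
      have h4 : 1 ≤ (if S.mode = 0 ∨ S.mode = 3 then 1 else 2) := by split_ifs <;> omega
      omega
    · rw [if_neg hs] at hup
      rw [if_neg (by have := hm hs; omega)] at h2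
      omega

end

variable {k : ℕ} {ld al : ℕ → Prop} {S : Seam k ld al} {n : Num} {e j : ℕ}

theorem d2_A4 (hR : SeamR S) (hm : S.mode = 2) (hA : Adm S n j) (ha : n.n2 + j = 0) :
    FDab S n (resLay S n j (S.P + 1) S.P) := by
  have hs := sp2 hm hA
  have hw := wz_res S n hs
  have hj := jU_res hA
  have hP1 := S.P1
  obtain ⟨hq1, hq2, hq3, hq4, hq5⟩ := S.m2 (Or.inl hm)
  obtain ⟨hk1, hk2, -⟩ := hR.m2 hm
  have hmin : min (S.P + 1) S.P = S.P := by omega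
  have hmax : max (S.P + 1) S.P = S.P + 1 := by omega
  refine s2D_dab S n (gl_res S n hs j (S.P + 1) S.P hA) (fun _ => by omega) ?_ ?_
  · change wz S n.up ≤ n.n2 + j + (n.Ux - j) + S.h + 1 + 2 + _
    omega
  · intro a z haa haq hba hz hza hbz
    have hla := S.al_ld a haa
    have a1 := S.ld_pos a hla
    have a2 := S.ld_lt a hla
    have ho := s2D_oe a1 a2
    have hne : oe a ≠ S.q + 1 := by
      intro h
      unfold oe at h
      split_ifs at h with h5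
      · subst h
        exact hk2 hla
      · exact haq (by omega)
    have hr := S.rk_ob _ ho.1 ho.2 oe_odd hba
    have hlt : S.rk (oe a) ≠ S.P := by
      intro h
      apply hne
      refine S.rk_inj _ _ ho.1 ho.2 (by omega) (by omega) ?_ (by rw [h, hq5])
      rw [oe_odd]
      omega
    change lam (min (S.P + 1) S.P) (max (S.P + 1) S.P) (n.n2 + j + S.rk (oe a)) +
      S.rk (oe z) + _ ≤ lam (min (S.P + 1) S.P) (max (S.P + 1) S.P) (n.n2 + j + S.rk (oe z)) +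
        S.rk (oe a) + _
    rw [hmin, hmax, if_neg (by omega : ¬ (n.sp = 0 ∧ S.mode = 5))]
    unfold lam
    split_ifs <;> omega

end Pool.Agent.Lob5
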