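import Pool.Agent.Lob5.P2S3A

/-!
# The selection for the mode 3, edge `1` good

Notation of `P2S3B`: `a = n2+j`, `b = a+P`, `N = n2+Ux`, `w = wz S n.up = N+h+3`, `W0 = w+nT+h`,
`t = W0+a+1` (sums relative to `w+N0`), `d = dZ n.sp e ≤ 1`,
`U = U3 S n j`, `σ = s3 S n j z = sk z ∘ b3 S n j`, `b3 r = r+1+[X3 ≤ r+1]` for `r ≥ a+1`
(`b3_eq`). `ρ = rk 1`, `P+1 ≤ ρ ≤ h+1`, `f = b3 (a+U+ρ-1)`
(label of the edge 1 without `z`, `f ≤ N+ρ` and `f ≤ w-2`, `f ≥ b+1`), `p 1 = sk z f` (`p1g3`).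
The sum at the vertex `k` is `v = p 1+z-d`, at the special vertex
`V_q = W0+a+[z ≠ w]` (`qok3`). `R` with `HoleG`: `Q ≤ R ≤ h`, `E0: P+Q+2 ≤ R+ρ`, `c2: r > R → ρ ≤
P+cutG r`. `g3: P+ρ ≤ 2h`, `N ≥ nT+a`.

* `sel3_gH` (`b+1 ≤ nT+R+d`): `z = nT+R+d` (`≤ w-2`), `v = p 1+nT+R ≤ W0-1`: `von3_G` with `L = p
  1` (`σ` increasing; `X U = σ (a+P+U-1)`,
  `X U+(ρ-P) ≤ p 1` (both sides of `z`; `s3_mono`), so `Q+1+X U < R+p 1` by `E0`; bad sums `≤ b+Q`).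
* `sel3_gC` (`nT+R+d ≤ b`, `f ≤ nT+h+d`): `r = f-nT-d` (`> R`, as `f ≥ a+U+ρ ≥ ...`; `≤ h`), `z =
  b3 (a+U+P+cutG r-1)+1 > f` (`c2`), `p 1 = f`, `v = nT+r+z`: `von3_C` as in `sel3_bC`
  (`P2S3B`). `v < W0`. (`r > R`: `f ≥ b+1+(U+ρ-1-P)... ≥ b+1`.)
* `sel3_gD` (`nT+R+d ≤ b`, `nT+h+d < f`): `von3_T` in all cases (`σ (a+U+h) ≤ w-1`, `≤ w-2` if `z
  = w-1`):
  `f+w < W0+a+d`: `z = w`, `v = f+w-d > W0`; `f+w = W0+a+d`: `z = w-1`, `v = W0+a-1 > nT+h+(w-2)`;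
  `f+w > W0+a+d`: `z = W0+a+d-f` if this is `> f` (then `p 1 = f`) and
  `z = W0+a+d-f-1` if not (then `p 1 = f+1`): `v = W0+a`, `V_q = t` (`z < w`). `z ≥ b+1`: `g3` and
  `f ≤ N+ρ`.
-/

namespace Pool.Agent.Lob5

variable {k : ℕ} {ld al : ℕ → Prop} {S : Seam k ld al} {n : Num} {e j : ℕ}

private theorem dz_P2S3G (sp e : ℕ) : dZ sp e ≤ 1 := by
  unfold dZ
  split_ifs <;> omega

/-- the facts about the numbers -/
private theorem num_P2S3G (hR : SeamR S) (hT : SeamT S) (hm : S.mode = 3) (hA : Adm S n j)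
    (hb : ¬ S.bad 1) : (3 ≤ S.P ∧ S.P ≤ S.h ∧ S.Q + 2 ≤ S.h) ∧ S.P + S.rk 1 ≤ 2 * S.h ∧
      (S.P + 1 ≤ S.rk 1 ∧ S.rk 1 ≤ S.h + 1) ∧ n.n2 ≤ n.nT := by
  have hk := S.hk
  exact ⟨⟨hR.P3 (by omega), hR.Ph1 (by omega), hT.Q2 (by omega)⟩, hT.g3 (by omega) hb,
    S.rk_og 1 le_rfl (by omega) (by omega) hb, hA.n2T⟩

/-- the labelling of the positions without `z` -/
private theorem b3_P2S3G (hm : S.mode = 3) (hA : Adm S n j) (hP : 3 ≤ S.P) (hPh : S.P ≤ S.h) :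
    wz S n.up = n.n2 + n.Ux + S.h + 3 ∧ n.nT ≤ U3 S n j ∧ U3 S n j + j ≤ n.Ux ∧
      b3 S n j (n.n2 + j + S.P - 1) = n.n2 + j + S.P ∧
      (∀ r r', r ≤ r' → b3 S n j r + r' ≤ b3 S n j r' + r) ∧
      (∀ r, n.n2 + j + 1 ≤ r → r + 1 ≤ b3 S n j r) ∧
      b3 S n j (n.n2 + j + U3 S n j + S.h) + 2 ≤ wz S n.up ∧
      (∀ r, r + 1 ≤ n.n2 + j + U3 S n j + S.h + 1 → n.n2 + j + 1 ≤ r →
        b3 S n j r + U3 S n j + j ≤ r + 1 + n.Ux) := by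
  obtain ⟨h1, h2, h3, h4⟩ := x3_cs S n j hm hA
  refine ⟨h1, h2, ?_, ?_, ?_, ?_, ?_, ?_⟩
  · rcases h4 with ⟨_, _, _, h4, _⟩ | ⟨_, _, h4, _⟩ <;> omega
  · rw [b3_eq S n j _ (by omega), if_neg (by omega)]
    omega
  · intro r r' h
    unfold b3 lam
    split_ifs <;> omega
  · intro r h
    rw [b3_eq S n j _ h]
    omega
  · rw [b3_eq S n j _ (by omega)]
    rcases h4 with ⟨_, _, _, h4, _⟩ | ⟨_, _, h4, _⟩ <;> split_ifs <;> omega
  · intro r h5 h6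
    rw [b3_eq S n j _ h6]
    rcases h4 with ⟨_, _, _, h4, _⟩ | ⟨_, _, h4, _⟩ <;> split_ifs <;> omega

theorem sel3_gH (hR : SeamR S) (hT : SeamT S) (hm : S.mode = 3) (hA : Adm S n j)
    (hb : ¬ S.bad 1) {R : ℕ} (hH : HoleG S R) (h : n.n2 + j + S.P + 1 ≤ n.nT + R + dZ n.sp e) :
    ∃ z, n.n2 + j + S.P + 1 ≤ z ∧ P2OK S n e (L3 S n j z) false := by
  obtain ⟨⟨a1, a2, a3⟩, a4, ⟨a5, a6⟩, a7⟩ := num_P2S3G hR hT hm hA hb
  obtain ⟨w1, w2, w3, w4, w5, w6, w7, w8⟩ := b3_P2S3G hm hA a1 a2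
  have d1 := dz_P2S3G n.sp e
  have hRh := hH.Rh
  have hE0 := hH.E0 (by omega)
  obtain ⟨z, hz⟩ : ∃ z, z = n.nT + R + dZ n.sp e := ⟨_, rfl⟩
  have hzw : z + 2 ≤ wz S n.up := by omega
  have hzb : n.n2 + j + S.P + 1 ≤ z := by omega
  obtain ⟨hG, hj, hU, -, -⟩ := gl3_L3 S n j z hm hA
  obtain ⟨-, -, hp1⟩ := p1g3 S n j z hm hA hb
  have hp1f : n.n2 + j + U3 S n j + S.rk 1 ≤ (L3 S n j z).p 1 := by
    rw [hp1]
    unfold s3
    have h1 := le_sk z (b3 S n j (n.n2 + j + U3 S n j + S.rk 1 - 1))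
    have h2 := w6 (n.n2 + j + U3 S n j + S.rk 1 - 1) (by omega)
    omega
  have hp1w : (L3 S n j z).p 1 ≤ wz S n.up := by
    rw [hp1]
    unfold s3
    have h1 := sk_le z (b3 S n j (n.n2 + j + U3 S n j + S.rk 1 - 1))
    have h2 := w5 (n.n2 + j + U3 S n j + S.rk 1 - 1) (n.n2 + j + U3 S n j + S.h) (by omega)
    omega
  have hlow : s3 S n j z (n.n2 + j + S.P - 1) = n.n2 + j + S.P := by
    unfold s3
    rw [w4, sk_of_lt (by omega)]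
  refine ⟨z, hzb, qok3 S n e j z hm hA hzb (by omega)
    (wz S n.up + n.N0 + n.nT + R + (L3 S n j z).p 1) (by omega) ?_ ?_⟩
  · refine von3_G S n hm hG _ R ((L3 S n j z).p 1) hH.toHole0 hb ?_ le_rfl le_rfl ?_ ?_
    · intro r r1 r2
      rw [hp1, hj, hU]
      exact s3_mono S n j z (by omega)
    · rw [hj, hlow]
      omega
    · intro h1
      rw [hG.X _ h1, hj, hU, hp1]
      unfold s3
      have h2 := w5 (n.n2 + j + S.P + U3 S n j - 1) (n.n2 + j + U3 S n j + S.rk 1 - 1)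
        (by omega)
      generalize b3 S n j (n.n2 + j + S.P + U3 S n j - 1) = A at h2 ⊢
      generalize b3 S n j (n.n2 + j + U3 S n j + S.rk 1 - 1) = B at h2 ⊢
      unfold sk
      split_ifs <;> omega
  · rw [if_neg (by omega)]
    omega

theorem sel3_gC (hR : SeamR S) (hT : SeamT S) (hm : S.mode = 3) (hA : Adm S n j)
    (hb : ¬ S.bad 1) {R : ℕ} (hH : HoleG S R) (h : n.nT + R + dZ n.sp e ≤ n.n2 + j + S.P)
    (h1 : b3 S n j (n.n2 + j + U3 S n j + S.rk 1 - 1) ≤ n.nT + S.h + dZ n.sp e) :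
    ∃ z, n.n2 + j + S.P + 1 ≤ z ∧ P2OK S n e (L3 S n j z) false := by
  obtain ⟨⟨a1, a2, a3⟩, a4, ⟨a5, a6⟩, a7⟩ := num_P2S3G hR hT hm hA hb
  obtain ⟨w1, w2, w3, w4, w5, w6, w7, w8⟩ := b3_P2S3G hm hA a1 a2
  have d1 := dz_P2S3G n.sp e
  have hQR := hH.QR
  have hf1 := w6 (n.n2 + j + U3 S n j + S.rk 1 - 1) (by omega)
  obtain ⟨r, hr⟩ : ∃ r, b3 S n j (n.n2 + j + U3 S n j + S.rk 1 - 1) = n.nT + r + dZ n.sp e :=
    ⟨b3 S n j (n.n2 + j + U3 S n j + S.rk 1 - 1) - n.nT - dZ n.sp e, by omega⟩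
  have hrR : R + 1 ≤ r := by omega
  have hrh : r ≤ S.h := by omega
  have hc2 := hH.c2 r hrR hrh
  have hcl := S.cutG_le r
  have hlt := S.cutG_lt r (by omega) hrh
  have hgt := S.cutG_gt r (by omega) hrh
  obtain ⟨c, hc⟩ : ∃ c, c = S.cutG r := ⟨_, rfl⟩
  rw [← hc] at hc2 hcl hlt hgt
  obtain ⟨z, hz⟩ : ∃ z, z = b3 S n j (n.n2 + j + U3 S n j + S.P + c - 1) + 1 := ⟨_, rfl⟩
  have hzf := w5 (n.n2 + j + U3 S n j + S.rk 1 - 1) (n.n2 + j + U3 S n j + S.P + c - 1)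
    (by omega)
  have hzt := w5 (n.n2 + j + U3 S n j + S.P + c - 1) (n.n2 + j + U3 S n j + S.h) (by omega)
  have hzw : z + 1 ≤ wz S n.up := by omega
  have hzb : n.n2 + j + S.P + 1 ≤ z := by omega
  obtain ⟨hG, hj, hU, -, hLz⟩ := gl3_L3 S n j z hm hA
  obtain ⟨-, -, hp1⟩ := p1g3 S n j z hm hA hb
  have hp1f : (L3 S n j z).p 1 = b3 S n j (n.n2 + j + U3 S n j + S.rk 1 - 1) := by
    rw [hp1]
    unfold s3
    exact sk_of_lt (by omega)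
  have hlow : s3 S n j z (n.n2 + j + S.P - 1) = n.n2 + j + S.P := by
    unfold s3
    rw [w4, sk_of_lt (by omega)]
  refine ⟨z, hzb, qok3 S n e j z hm hA hzb (by omega)
    (wz S n.up + n.N0 + n.nT + r + z) (by omega) ?_ ?_⟩
  · refine von3_C S n hm hG _ z r (by omega) (by omega) rfl (by omega) ?_ ?_ ?_ ?_ ?_
    · rw [hj, hlow]
      omega
    · intro h2
      rw [hG.X _ h2, hj, hU]
      unfold s3
      have h3 := w5 (n.n2 + j + S.P + U3 S n j - 1) (n.n2 + j + U3 S n j + S.rk 1 - 1)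
        (by omega)
      rw [sk_of_lt (by omega)]
      omega
    · intro f f1 f2 f3
      have h3 := (pre3 S n j z hm hA hzb (by omega)).z_p f f1 f2 f3
      rwa [hLz] at h3
    · intro i i1 i2 i3 i4 i5
      have h3 := hlt i i1 i2 i3 i4 i5
      rcases sum3 hm hG i1 i2 i3 with ⟨b1, -⟩ | ⟨-, b2, b3', -, -, b4, -⟩
      · exact absurd b1 i4
      · rw [b4, hj, hU]
        have h4 := w5 (n.n2 + j + U3 S n j + S.rk (oe i) - 1)
          (n.n2 + j + U3 S n j + S.P + c - 1) (by omega)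
        unfold s3
        rw [sk_of_lt (by omega)]
        omega
    · intro i i1 i2 i3 i4 i5
      have h3 := hgt i i1 i2 i3 i4 i5
      rcases sum3 hm hG i1 i2 i3 with ⟨b1, -⟩ | ⟨-, b2, b3', -, -, b4, -⟩
      · exact absurd b1 i4
      · rw [b4, hj, hU]
        have h4 := w5 (n.n2 + j + U3 S n j + S.P + c - 1)
          (n.n2 + j + U3 S n j + S.rk (oe i) - 1) (by omega)
        unfold s3 sk
        rw [if_pos (by omega)]
        omega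
  · split_ifs <;> omega

theorem sel3_gD (hR : SeamR S) (hT : SeamT S) (hm : S.mode = 3) (hA : Adm S n j)
    (hb : ¬ S.bad 1) {R : ℕ} (hH : HoleG S R) (h : n.nT + R + dZ n.sp e ≤ n.n2 + j + S.P)
    (h1 : n.nT + S.h + dZ n.sp e < b3 S n j (n.n2 + j + U3 S n j + S.rk 1 - 1)) :
    ∃ z, n.n2 + j + S.P + 1 ≤ z ∧ P2OK S n e (L3 S n j z) false := by
  obtain ⟨⟨a1, a2, a3⟩, a4, ⟨a5, a6⟩, a7⟩ := num_P2S3G hR hT hm hA hb
  obtain ⟨w1, w2, w3, w4, w5, w6, w7, w8⟩ := b3_P2S3G hm hA a1 a2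
  have d1 := dz_P2S3G n.sp e
  have hRh := hH.Rh
  have hf1 := w6 (n.n2 + j + U3 S n j + S.rk 1 - 1) (by omega)
  have hf2 := w5 (n.n2 + j + U3 S n j + S.rk 1 - 1) (n.n2 + j + U3 S n j + S.h) (by omega)
  have hf3 := w8 (n.n2 + j + U3 S n j + S.rk 1 - 1) (by omega) (by omega)
  have hmz : mz S n.up = wz S n.up + n.N0 + n.nT + S.h := rfl
  -- the choice of the label
  suffices hch : ∃ z F, n.n2 + j + S.P + 1 ≤ z ∧ z ≤ wz S n.up ∧
      F = sk z (b3 S n j (n.n2 + j + U3 S n j + S.rk 1 - 1)) ∧ dZ n.sp e ≤ F + z ∧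
      n.nT + S.h + sk z (b3 S n j (n.n2 + j + U3 S n j + S.h)) + dZ n.sp e < F + z ∧
      F + z ≤ wz S n.up + n.nT + S.h + (n.n2 + j) + 1 + dZ n.sp e ∧
      F + z ≠ wz S n.up + n.nT + S.h + (n.n2 + j) + (if z = wz S n.up then 0 else 1) +
        dZ n.sp e by
    obtain ⟨z, F, z1, z2, z3, z4, z5, z6, z7⟩ := hch
    obtain ⟨hG, hj, hU, -, -⟩ := gl3_L3 S n j z hm hA
    obtain ⟨-, -, hp1⟩ := p1g3 S n j z hm hA hb
    have hp1f : (L3 S n j z).p 1 = F := by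
      rw [hp1, z3]
      rfl
    refine ⟨z, z1, qok3 S n e j z hm hA z1 z2
      (wz S n.up + n.N0 + (F + z - dZ n.sp e)) (by omega) ?_ ?_⟩
    · refine von3_T S n hm hG _ (by omega) ?_ ?_
      · rw [hj, hU]
        unfold s3
        omega
      · rw [hj]
        omega
    · split_ifs at z7 ⊢ <;> omega
  obtain ⟨f, hf⟩ : ∃ f, f = b3 S n j (n.n2 + j + U3 S n j + S.rk 1 - 1) := ⟨_, rfl⟩
  obtain ⟨g, hg⟩ : ∃ g, g = b3 S n j (n.n2 + j + U3 S n j + S.h) := ⟨_, rfl⟩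
  rw [← hf] at h1 hf1 hf2 hf3 ⊢
  rw [← hg] at w7 hf2 ⊢
  rcases lt_trichotomy f (n.nT + S.h + (n.n2 + j) + dZ n.sp e) with h2 | h2 | h2
  · refine ⟨wz S n.up, f, by omega, le_rfl, ?_, by omega, ?_, by omega, ?_⟩
    · exact (sk_of_lt (by omega)).symm
    · rw [sk_of_lt (by omega)]
      omega
    · rw [if_pos rfl]
      omega
  · refine ⟨wz S n.up - 1, f, by omega, by omega, ?_, by omega, ?_, by omega, ?_⟩
    · exact (sk_of_lt (by omega)).symm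
    · rw [sk_of_lt (by omega)]
      omega
    · rw [if_neg (by omega)]
      omega
  · by_cases h3 : f + f + 1 ≤ wz S n.up + n.nT + S.h + (n.n2 + j) + dZ n.sp e
    · refine ⟨wz S n.up + n.nT + S.h + (n.n2 + j) + dZ n.sp e - f, f, by omega, by omega, ?_,
        by omega, ?_, by omega, ?_⟩
      · exact (sk_of_lt (by omega)).symm
      · have := sk_le (wz S n.up + n.nT + S.h + (n.n2 + j) + dZ n.sp e - f) g
        omega
      · rw [if_neg (by omega)]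
        omega
    · refine ⟨wz S n.up + n.nT + S.h + (n.n2 + j) + dZ n.sp e - f - 1, f + 1, by omega,
        by omega, ?_, by omega, ?_, by omega, ?_⟩
      · unfold sk
        rw [if_pos (by omega)]
      · have := sk_le (wz S n.up + n.nT + S.h + (n.n2 + j) + dZ n.sp e - f - 1) g
        omega
      · rw [if_neg (by omega)]
        omega

end Pool.Agent.Lob5
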