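import Pool.Agent.Lob5.P2S3B
import Pool.Agent.Lob5.P2S3G

/-!
# The selection for the mode 3

`step_GL3` (cf. `step_GL2`): `T = n2+j+U+h+1` (top position), `w ≤ T+r`, `σ p ≥ p+1` for all positions. With
`t = w - σ p - (T-p)` for the position `p` of the odd edge (`0 ≤ t ≤ r-1`, decreasing in `p`) and `t'` for the second layer:
`bs' + t' = bs + t` for a good odd edge and also for the edge `q+1` (rank `P`, position `T`).
-/

namespace Pool.Agent.Lob5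

variable {k : ℕ} {ld al : ℕ → Prop}

private theorem st_oe {i : ℕ} (h1 : 1 ≤ i) (h2 : i < k) : 1 ≤ oe i ∧ oe i ≤ k := by
  unfold oe
  split_ifs <;> omega

private theorem st_two (Λ : FLay) (i : ℕ) : Λ.bs i = Λ.p (oe i) + Λ.p (ee i) := by
  unfold FLay.bs oe ee
  by_cases h : i % 2 = 1
  · rw [if_pos h, if_pos h]
  · rw [if_neg h, if_neg h, add_comm]

private theorem st_sh {σ : ℕ → ℕ} (h : StrictMono σ) {r r' : ℕ} (hr : r ≤ r') :
    σ r + r' ≤ σ r' + r := by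
  obtain ⟨d, rfl⟩ := Nat.exists_eq_add_of_le hr
  clear hr
  induction d with
  | zero => simp
  | succ d ih =>
    have h1 : σ (r + d) < σ (r + (d + 1)) := h (by omega)
    omega

/-- the layers for the mode 3 -/
inductive Fam3 (S : Seam k ld al) (n : Num) (j : ℕ) : FLay → Prop
  | P : Fam3 S n j (funP S n j)
  | Z (z : ℕ) (h : n.n2 + j + S.P + 1 ≤ z) : Fam3 S n j (L3 S n j z)

theorem p2_sel3 (S : Seam k ld al) (hR : SeamR S) (hT : SeamT S) (hm : S.mode = 3) (n : Num)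
    (e j : ℕ) (hA : Adm S n j) :
    ∃ (Λ : FLay) (l : Bool), Fam3 S n j Λ ∧ Λ.j = j ∧ P2OK S n e Λ l := by
  have fin : (∃ z, n.n2 + j + S.P + 1 ≤ z ∧ P2OK S n e (L3 S n j z) false) →
      ∃ (Λ : FLay) (l : Bool), Fam3 S n j Λ ∧ Λ.j = j ∧ P2OK S n e Λ l := by
    rintro ⟨z, h, h'⟩
    exact ⟨L3 S n j z, false, Fam3.Z z h, (gl3_L3 S n j z hm hA).2.1, h'⟩
  have hd : dZ n.sp e ≤ 1 := by
    unfold dZ
    split_ifs <;> omega
  have hw1 : 1 ≤ wz S n.up := by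
    rw [wz_up]
    omega
  by_cases hb : S.bad 1
  · obtain ⟨b1, b2, -⟩ := p1b3 S n j (n.n2 + j + S.P + 1) hm hA le_rfl hb
    obtain ⟨σ, -, f1, -, f4⟩ := gl3_P S n j hm hA
    have f3 := f4 b2 b1
    by_cases c1 : n.n2 + j + 1 + S.rk 1 ≤ S.Q + dZ n.sp e
    · exact fin (sel3_bA hR hm hA hb c1)
    by_cases c2 : n.n2 + j + 1 + S.rk 1 ≤ S.Q + n.nT + 1 + dZ n.sp e
    · refine ⟨funP S n j, true, Fam3.P, rfl, p2ok_L S n e j hA f1 ?_ ?_⟩
      · unfold pkZ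
        omega
      · unfold pkZ
        omega
    by_cases c3 : n.n2 + j + 1 + S.rk 1 ≤ n.nT + S.h + dZ n.sp e
    · exact fin (sel3_bC hR hm hA hb (by omega) c3)
    · exact fin (sel3_bD hR hm hA hb (by omega))
  · obtain ⟨R, hH⟩ := hR.g hb
    by_cases c1 : n.n2 + j + S.P + 1 ≤ n.nT + R + dZ n.sp e
    · exact fin (sel3_gH hR hT hm hA hb hH c1)
    by_cases c2 : b3 S n j (n.n2 + j + U3 S n j + S.rk 1 - 1) ≤ n.nT + S.h + dZ n.sp e
    · exact fin (sel3_gC hR hT hm hA hb hH (by omega) c2)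
    · exact fin (sel3_gD hR hT hm hA hb hH (by omega) (by omega))

theorem step_GL3 (S : Seam k ld al) (n : Num) {Λ Λ' : FLay} {σ σ' : ℕ → ℕ}
    (h : GL3 S n Λ σ) (h' : GL3 S n Λ' σ') (hj : Λ'.j = Λ.j + 1) (r r' : ℕ)
    (hr : wz S n.up ≤ n.n2 + Λ.j + Λ.U + S.h + 1 + r)
    (hr' : wz S n.up ≤ n.n2 + Λ'.j + Λ'.U + S.h + 1 + r')
    (h2 : r ≤ S.P) (h2' : r' ≤ S.P) : FStep S n Λ Λ' := by
  have hU := h.U_ge
  have htop := h.top
  have hU' := h'.U_ge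
  have htop' := h'.top
  have hP1 := S.P1
  have hPh := S.Ph
  rw [hj] at hr' htop'
  have hX1 : n.n2 + Λ.j + S.P + 1 ≤ Λ.X 1 := by
    rw [h.X 1 le_rfl]
    have h3 := h.lo S.P hP1
    exact h3
  have hpe : ∀ i, Λ'.p (ee i) = Λ.p (ee i) := fun i => by
    rw [h.peven _ ee_even, h'.peven _ ee_even]
  -- a vertex whose odd edge is in the upper part
  have key : ∀ i, ld i → (¬ S.bad (oe i) ∨ S.rk (oe i) = S.P) → ∃ g t t' : ℕ,
      g ≤ S.h + 1 - S.P ∧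
      σ (n.n2 + Λ.j + Λ.U + S.h + 1 - g) + g + t = wz S n.up ∧ t + 1 ≤ r ∧
      σ' (n.n2 + (Λ.j + 1) + Λ'.U + S.h + 1 - g) + g + t' = wz S n.up ∧ t' + 1 ≤ r' ∧
      Λ'.bs i + t' = Λ.bs i + t := by
    intro i hi hc
    have i1 := S.ld_pos i hi
    have i2 := S.ld_lt i hi
    obtain ⟨g, hg, e1, e2⟩ : ∃ g, g ≤ S.h + 1 - S.P ∧
        Λ.p (oe i) = σ (n.n2 + Λ.j + Λ.U + S.h + 1 - g) ∧
        Λ'.p (oe i) = σ' (n.n2 + (Λ.j + 1) + Λ'.U + S.h + 1 - g) := by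
      by_cases hP : S.rk (oe i) = S.P
      · refine ⟨0, by omega, ?_, ?_⟩
        · exact h.poP _ oe_odd hP
        · rw [h'.poP _ oe_odd hP, hj]
          rfl
      · have hb : ¬ S.bad (oe i) := by tauto
        have r1 := S.rk_og _ (st_oe i1 i2).1 (st_oe i1 i2).2 oe_odd hb
        refine ⟨S.h + 2 - S.rk (oe i), by omega, ?_, ?_⟩
        · rw [h.pog _ oe_odd (by omega)]
          congr 1
          omega
        · rw [h'.pog _ oe_odd (by omega), hj]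
          congr 1
          omega
    have s1 := st_sh h.mono (show n.n2 + Λ.j + Λ.U + S.h + 1 - g ≤
      n.n2 + Λ.j + Λ.U + S.h + 1 by omega)
    have s2 := st_sh h'.mono (show n.n2 + (Λ.j + 1) + Λ'.U + S.h + 1 - g ≤
      n.n2 + (Λ.j + 1) + Λ'.U + S.h + 1 by omega)
    have l1 := h.lo (Λ.U + S.h + 1 - g) (by omega)
    have l2 := h'.lo (Λ'.U + S.h + 1 - g) (by omega)
    rw [show n.n2 + Λ.j + (Λ.U + S.h + 1 - g) = n.n2 + Λ.j + Λ.U + S.h + 1 - g by omega] at l1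
    rw [hj, show n.n2 + (Λ.j + 1) + (Λ'.U + S.h + 1 - g) =
      n.n2 + (Λ.j + 1) + Λ'.U + S.h + 1 - g by omega] at l2
    refine ⟨g, wz S n.up - g - σ (n.n2 + Λ.j + Λ.U + S.h + 1 - g),
      wz S n.up - g - σ' (n.n2 + (Λ.j + 1) + Λ'.U + S.h + 1 - g), hg, ?_, ?_, ?_, ?_, ?_⟩
    · omega
    · omega
    · omega
    · omega
    · rw [st_two, st_two, hpe, e1, e2]
      omega
  refine ⟨?_, ?_⟩
  · intro i a hi hia ha haq hba
    obtain ⟨g, t, t', g1, h3, h4, h5, h6, h7⟩ := key a (S.al_ld a ha) (Or.inl hba)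
    by_cases hc : ¬ S.bad (oe i) ∨ S.rk (oe i) = S.P
    · obtain ⟨f, u, u', f1, k3, k4, k5, k6, k7⟩ := key i hi hc
      rcases Nat.le_total f g with hle | hle
      · have s1 := st_sh h.mono (show n.n2 + Λ.j + Λ.U + S.h + 1 - g ≤
          n.n2 + Λ.j + Λ.U + S.h + 1 - f by omega)
        omega
      · have s2 := st_sh h'.mono (show n.n2 + (Λ.j + 1) + Λ'.U + S.h + 1 - f ≤
          n.n2 + (Λ.j + 1) + Λ'.U + S.h + 1 - g by omega)
        omega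
    · have hb : S.bad (oe i) := by tauto
      have hP : S.rk (oe i) ≠ S.P := by tauto
      have i1 := S.ld_pos i hi
      have i2 := S.ld_lt i hi
      have r1 := S.rk_ob _ (st_oe i1 i2).1 (st_oe i1 i2).2 oe_odd hb
      have e1 := h.pob _ oe_odd (show S.rk (oe i) < S.P by omega)
      have e2 := h'.pob _ oe_odd (show S.rk (oe i) < S.P by omega)
      rw [hj] at e2
      have s2 := st_sh h'.mono (show n.n2 + (Λ.j + 1) + S.rk (oe i) ≤
        n.n2 + (Λ.j + 1) + Λ'.U + S.h + 1 - g by omega)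
      have l1 := h.lo (S.rk (oe i)) r1.1
      rw [st_two Λ i, st_two Λ' i, hpe, e1, e2]
      omega
  · intro a ha haq hba
    obtain ⟨g, t, t', g1, h3, h4, h5, h6, h7⟩ := key a (S.al_ld a ha) (Or.inl hba)
    omega

theorem fam3_step (S : Seam k ld al) (hR : SeamR S) (hm : S.mode = 3) (n : Num) (j : ℕ)
    (hA : Adm S n (j + 1)) {Λ Λ' : FLay} (h : Fam3 S n j Λ) (h' : Fam3 S n (j + 1) Λ') :
    FStep S n Λ Λ' := by
  have hA' : Adm S n j :=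
    ⟨hA.n2T, by have := hA.jU; omega, hA.sp0, hA.sp14, hA.sp5⟩
  have hP3 := hR.P3 (by omega)
  have key : ∀ (i : ℕ) (Γ : FLay), Adm S n i → Fam3 S n i Γ →
      Γ.j = i ∧ (∃ σ, GL3 S n Γ σ) ∧
        wz S n.up ≤ n.n2 + Γ.j + Γ.U + S.h + 1 + 3 := by
    intro i Γ hi hΓ
    cases hΓ with
    | P =>
      obtain ⟨σ, h1, -, h3, -⟩ := gl3_P S n i hm hi
      exact ⟨rfl, ⟨σ, h1⟩, by change _ ≤ n.n2 + i + _ + S.h + 1 + 3; omega⟩
    | Z z hz =>
      obtain ⟨h1, h2, h3, -⟩ := gl3_L3 S n i z hm hi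
      obtain ⟨hw, -, -, hc⟩ := x3_cs S n i hm hi
      refine ⟨h2, ⟨_, h1⟩, ?_⟩
      rw [h2, h3]
      rcases hc with ⟨_, _, _, _, _⟩ | ⟨_, _, _, _⟩ <;> omega
  obtain ⟨e1, ⟨σ, hσ⟩, hr⟩ := key j Λ hA' h
  obtain ⟨e2, ⟨σ', hσ'⟩, hr'⟩ := key (j + 1) Λ' hA h'
  exact step_GL3 S n hσ hσ' (by omega) 3 3 hr hr' hP3 hP3

end Pool.Agent.Lob5
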