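import Pool.Agent.Lob5.P2K3

/-!
# Mode 3: the places for the sum at the new vertex

`GL3 S n Λ σ`; `a = n2+j`; all sums relative to `w+N0`. Sums of the vertices which are not loaded: bad: `σ (a+ro) + re`,
`1 ≤ ro < P`, `1 ≤ re ≤ Q`; good: `nT + σ (a+U+ro-1) + re`, `P+1 ≤ ro ≤ h+1`, `Q+1 ≤ re ≤ h`.
* `von3_A`: between the bad sums and `Q+1+X 1`. * `von3_C`: `v = nT+r+z`, the label `z` is zipped at the even rank `r`.
* `von3_T`: above all sums (`≤ nT+h+σ (a+U+h)`). * `von3_G`: the hole at the vertex `0`.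
-/

namespace Pool.Agent.Lob5

variable {k : ℕ} {ld al : ℕ → Prop}

private theorem oe_P2S3 {i : ℕ} (h1 : 1 ≤ i) (h2 : i < k) : 1 ≤ oe i ∧ oe i ≤ k := by
  unfold oe
  split_ifs <;> omega

private theorem ee_P2S3 {i : ℕ} (h1 : 1 ≤ i) (h2 : i < k) : 1 ≤ ee i ∧ ee i ≤ k := by
  unfold ee
  split_ifs <;> omega

private theorem two_P2S3 (Λ : FLay) (i : ℕ) : Λ.bs i = Λ.p (oe i) + Λ.p (ee i) := by
  unfold FLay.bs oe ee
  by_cases h : i % 2 = 1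
  · rw [if_pos h, if_pos h]
  · rw [if_neg h, if_neg h, add_comm]

private theorem sh_P2S3 {σ : ℕ → ℕ} (h : StrictMono σ) (i d : ℕ) : σ i + d ≤ σ (i + d) := by
  induction d with
  | zero => exact le_rfl
  | succ d ih =>
    have h1 := h (show i + d < i + (d + 1) by omega)
    omega

private theorem shift_P2S3 {σ : ℕ → ℕ} (h : StrictMono σ) {i j : ℕ} (hij : i ≤ j) :
    σ i + j ≤ σ j + i := by
  obtain ⟨d, rfl⟩ := Nat.exists_eq_add_of_le hij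
  have := sh_P2S3 h i d
  omega

/-- the sum at a vertex which is not loaded -/
theorem sum3 {S : Seam k ld al} {n : Num} {Λ : FLay} {σ : ℕ → ℕ} (hm : S.mode = 3)
    (h : GL3 S n Λ σ) {i : ℕ} (h1 : 1 ≤ i) (h2 : i < k) (h3 : ¬ ld i) :
    (S.bad i ∧ 1 ≤ S.rk (oe i) ∧ S.rk (oe i) < S.P ∧ 1 ≤ S.rk (ee i) ∧ S.rk (ee i) ≤ S.Q ∧
      Λ.p (oe i) = σ (n.n2 + Λ.j + S.rk (oe i)) ∧
      Λ.bs i = Λ.p (oe i) + (wz S n.up + n.N0 + S.rk (ee i))) ∨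
    (¬ S.bad i ∧ S.P + 1 ≤ S.rk (oe i) ∧ S.rk (oe i) ≤ S.h + 1 ∧ S.Q + 1 ≤ S.rk (ee i) ∧
      S.rk (ee i) ≤ S.h ∧ Λ.p (oe i) = σ (n.n2 + Λ.j + Λ.U + S.rk (oe i) - 1) ∧
      Λ.bs i = Λ.p (oe i) + (wz S n.up + n.N0 + S.rk (ee i) + n.nT)) := by
  obtain ⟨ho, hbi⟩ := S.same' h1 h2 h3
  have o1 := (oe_P2S3 h1 h2).1
  have o2 := (oe_P2S3 h1 h2).2
  have e1 := (ee_P2S3 h1 h2).1
  have e2 := (ee_P2S3 h1 h2).2
  by_cases hc : S.bad (oe i)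
  · have r1 := S.rk_ob _ o1 o2 oe_odd hc
    have r2 := S.rk_eb _ e1 e2 ee_even (ho.1 hc)
    have r3 : S.rk (oe i) < S.P := rk_lt_P S hm h1 h2 hc
      (fun h' => h3 (h' ▸ S.al_ld _ (S.m2 (Or.inr hm)).1))
      (fun h' => h3 (h' ▸ (S.m3 hm).2.1))
    refine Or.inl ⟨hbi.1 hc, r1.1, r3, r2.1, r2.2, h.pob _ oe_odd r3, ?_⟩
    rw [two_P2S3, h.peven _ ee_even, if_neg (by omega), add_zero]
  · have r1 := S.rk_og _ o1 o2 oe_odd hc
    have r2 := S.rk_eg _ e1 e2 ee_even (fun h => hc (ho.2 h))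
    refine Or.inr ⟨fun h => hc (hbi.2 h), r1.1, r1.2, r2.1, r2.2, h.pog _ oe_odd (by omega), ?_⟩
    rw [two_P2S3, h.peven _ ee_even, if_pos (by omega)]

theorem von3_A (S : Seam k ld al) (n : Num) (hm : S.mode = 3) {Λ : FLay} {σ : ℕ → ℕ}
    (h : GL3 S n Λ σ) (v : ℕ)
    (h1 : wz S n.up + n.N0 + σ (n.n2 + Λ.j + S.P - 1) + S.Q < v)
    (h2 : v < wz S n.up + n.N0 + S.Q + 1 + Λ.X 1)
    (h3 : v ≤ 2 * wz S n.up + n.N0 + S.Q + 1) : VOKn S n Λ v := by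
  have hmz : mz S n.up = wz S n.up + n.N0 + n.nT + S.h := rfl
  have hQh := S.Qh
  refine ⟨by omega, ?_, fun _ => Or.inl h2⟩
  intro i i1 i2 i3
  rcases sum3 hm h i1 i2 i3 with ⟨_, a1, a2, a3, a4, a5, a6⟩ | ⟨_, a1, a2, a3, a4, a5, a6⟩
  · have h4 := h.mono.monotone (show n.n2 + Λ.j + S.rk (oe i) ≤ n.n2 + Λ.j + S.P - 1 by omega)
    omega
  · have h4 := h.mono.monotone
      (show n.n2 + Λ.j + S.P + 1 - 1 ≤ n.n2 + Λ.j + Λ.U + S.rk (oe i) - 1 by omega)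
    have h5 := h.X 1 le_rfl
    omega

theorem von3_C (S : Seam k ld al) (n : Num) (hm : S.mode = 3) {Λ : FLay} {σ : ℕ → ℕ}
    (h : GL3 S n Λ σ) (v z r : ℕ) (hr : S.Q + 1 ≤ r) (hr' : r ≤ S.h + 1)
    (hv : v = wz S n.up + n.N0 + n.nT + r + z) (hz : z ≤ wz S n.up)
    (hzb : σ (n.n2 + Λ.j + S.P - 1) < z) (hzU : 1 ≤ Λ.U → Λ.X Λ.U < z)
    (hzp : ∀ f, 1 ≤ f → f ≤ k → f % 2 = 1 → Λ.p f ≠ z)
    (hlt : ∀ i, 1 ≤ i → i < k → ¬ ld i → ¬ S.bad i → S.rk (ee i) < r → Λ.p (oe i) < z)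
    (hgt : ∀ i, 1 ≤ i → i < k → ¬ ld i → ¬ S.bad i → r < S.rk (ee i) → z < Λ.p (oe i)) :
    VOKn S n Λ v := by
  have hmz : mz S n.up = wz S n.up + n.N0 + n.nT + S.h := rfl
  refine ⟨by omega, ?_, ?_⟩
  · intro i i1 i2 i3
    rcases sum3 hm h i1 i2 i3 with ⟨_, a1, a2, a3, a4, a5, a6⟩ | ⟨a0, a1, a2, a3, a4, a5, a6⟩
    · have h4 := h.mono.monotone
        (show n.n2 + Λ.j + S.rk (oe i) ≤ n.n2 + Λ.j + S.P - 1 by omega)
      omega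
    · rcases lt_trichotomy (S.rk (ee i)) r with h4 | h4 | h4
      · have h5 := hlt i i1 i2 i3 a0 h4
        omega
      · have h5 := hzp (oe i) (oe_P2S3 i1 i2).1 (oe_P2S3 i1 i2).2 oe_odd
        omega
      · have h5 := hgt i i1 i2 i3 a0 h4
        omega
  · intro h4
    have h5 := hzU h4
    right
    omega

theorem von3_T (S : Seam k ld al) (n : Num) (hm : S.mode = 3) {Λ : FLay} {σ : ℕ → ℕ}
    (h : GL3 S n Λ σ) (v : ℕ) (hPQ : S.P + S.Q ≤ 2 * S.h)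
    (h1 : wz S n.up + n.N0 + n.nT + S.h + σ (n.n2 + Λ.j + Λ.U + S.h) < v)
    (h2 : v ≤ wz S n.up + mz S n.up + n.n2 + Λ.j + 1) : VOKn S n Λ v := by
  have hPh := S.Ph
  have hQh := S.Qh
  have hP1 := S.P1
  have hh := S.h1
  refine ⟨h2, ?_, ?_⟩
  · intro i i1 i2 i3
    rcases sum3 hm h i1 i2 i3 with ⟨_, a1, a2, a3, a4, a5, a6⟩ | ⟨a0, a1, a2, a3, a4, a5, a6⟩
    · have h4 := h.mono.monotone
        (show n.n2 + Λ.j + S.rk (oe i) ≤ n.n2 + Λ.j + Λ.U + S.h by omega)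
      omega
    · have h4 := h.mono.monotone
        (show n.n2 + Λ.j + Λ.U + S.rk (oe i) - 1 ≤ n.n2 + Λ.j + Λ.U + S.h by omega)
      omega
  · intro h4
    right
    have h6 := h.X Λ.U h4
    by_cases hP : S.P ≤ S.h
    · have h7 := shift_P2S3 h.mono
        (show n.n2 + Λ.j + S.P + Λ.U - 1 ≤ n.n2 + Λ.j + Λ.U + S.h by omega)
      omega
    · have h7 := h.mono.monotone
        (show n.n2 + Λ.j + S.P + Λ.U - 1 ≤ n.n2 + Λ.j + Λ.U + S.h by omega)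
      omega

/-- the hole at the vertex `0`: `L` is a bound for the labels of the good odd edges of a rank `< rk 1` -/
theorem von3_G (S : Seam k ld al) (n : Num) (hm : S.mode = 3) {Λ : FLay} {σ : ℕ → ℕ}
    (h : GL3 S n Λ σ) (v R L : ℕ) (hR : Hole0 S R) (hb : ¬ S.bad 1)
    (hL : ∀ r, S.P + 1 ≤ r → r < S.rk 1 → σ (n.n2 + Λ.j + Λ.U + r - 1) < L)
    (h1 : wz S n.up + n.N0 + n.nT + R + L ≤ v)
    (h2 : v ≤ wz S n.up + n.N0 + n.nT + R + Λ.p 1)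
    (hbd : wz S n.up + n.N0 + σ (n.n2 + Λ.j + S.P - 1) + S.Q < v)
    (hg : 1 ≤ Λ.U → wz S n.up + n.N0 + S.Q + n.nT + 1 + Λ.X Λ.U < v) : VOKn S n Λ v := by
  have hk := S.hk
  have hRh := hR.Rh
  have htop := h.top
  have hmz : mz S n.up = wz S n.up + n.N0 + n.nT + S.h := rfl
  have r1 := S.rk_og 1 le_rfl (by omega) (by omega) hb
  have b3 := h.pog 1 (by omega) (by omega)
  have h9 := h.mono.monotone
    (show n.n2 + Λ.j + Λ.U + S.rk 1 - 1 ≤ n.n2 + Λ.j + Λ.U + S.h + 1 by omega)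
  refine ⟨by omega, ?_, ?_⟩
  · intro i i1 i2 i3
    rcases sum3 hm h i1 i2 i3 with ⟨_, a1, a2, a3, a4, a5, a6⟩ | ⟨a0, a1, a2, a3, a4, a5, a6⟩
    · have h4 := h.mono.monotone (show n.n2 + Λ.j + S.rk (oe i) ≤ n.n2 + Λ.j + S.P - 1 by omega)
      omega
    · by_cases c : S.rk (ee i) ≤ R
      · have h5 := hR.lt i i1 i2 i3 a0 c
        have h4 := hL (S.rk (oe i)) a1 h5
        omega
      · have h5 := hR.gt i i1 i2 i3 a0 (by omega)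
        have h4 := h.mono.monotone
          (show n.n2 + Λ.j + Λ.U + S.rk 1 - 1 ≤ n.n2 + Λ.j + Λ.U + S.rk (oe i) - 1 by omega)
        omega
  · intro h4
    exact Or.inr (hg h4)

end Pool.Agent.Lob5
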