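import Pool.Agent.Lob5.P2S3A

/-!
# The selection for the mode 3, edge `1` bad

Notation: `a = n2+j`, `b = a+P`, `N = n2+Ux`, `w = wz S n.up = N+h+3`, `W0 = w+nT+h`, `t = W0+a+1`
(sums relative to `w+N0`), `d = dZ n.sp e ≤ 1`, `ρ = rk 1`, `1 ≤ ρ < P`, `p 1 = a+ρ+1` (`p1b3`),
`U = U3 S n j`, `(L3 S n j z).U = U`, `w = a+U+h+3` or (second inserted label) `a+U+h+4`
(`x3_cs`). `σ = s3 S n j z = sk z ∘ b3 S n j`, `b3 r = r+1+[X3 ≤ r+1]` for `r ≥ a+1` (`b3_eq`; `b3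
(a+r) = a+r+1` for `r ≤ P`: `b3_lo`). The sum at the vertex `k` is `v = a+ρ+1+z-d`, at the special
vertex `V_q = W0+a+[z ≠ w]` (`qok3`).

* `sel3_bA` (`a+1+ρ ≤ Q+d`): `z = b+Q+1+d-(a+1+ρ)` (`≥ b+1`, `≤ b+Q ≤ w-1`), `v = b+Q+1`:
  `von3_A`: bad sums `≤ σ (a+P-1)+Q = b+Q`; `X 1 = s3 (a+P) ≥ b+1` (for `z ≤ b+1` even `b+2`). `v
  < W0+a`.
* `sel3_bC` (`Q+nT+2+d ≤ a+1+ρ ≤ nT+h+d`): `r = a+1+ρ-nT-d` (`Q+2 ≤ r ≤ h`), `z = b3 (a+U+P+cutG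
  r-1)+1` (`≥ b+1`, `≤ w-1`): `von3_C`: `v = nT+r+z`; a position `a+U+o-1` with `o ≤ P+cutG r` has
  the label `b3 < z` (unchanged), with `o > P+cutG r` a label `> z` (`sk_lt`-type monotonicity of
  `b3`, then `sk`). `S.cutG_lt, S.cutG_gt, S.cutG_le`; `X U = s3 (a+P+U-1) < z`; `σ (a+P-1) = b <
  z`. `v ≤ W0-1`.
* `sel3_bD` (`nT+h+d < a+1+ρ`): `z = w-1` if `a+1+ρ = nT+h+a+d`, otherwise `z = w`. `von3_T`: `v =
  a+1+ρ+w-d > W0`, resp. `v = W0+a-1` and `σ (a+U+h) ≤ w-2` (`b3 (a+U+h) ≤ w-2` is unchanged).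
  `a+1+ρ ≤ b ≤ a+h` (`Ph1`), so `v ≤ t`. `P+Q ≤ 2h` (`Ph1, Qh1`).

All conditions: `unfold s3 sk`, `b3_eq`, `split_ifs <;> omega`. Models: `P2S4B.lean`, `P2S2B.lean`.
-/

namespace Pool.Agent.Lob5

variable {k : ℕ} {ld al : ℕ → Prop} {S : Seam k ld al} {n : Num} {e j : ℕ}

private theorem dz_P2S3B (sp e : ℕ) : dZ sp e ≤ 1 := by
  unfold dZ
  split_ifs <;> omega

private theorem num_P2S3B (hR : SeamR S) (hm : S.mode = 3) (hA : Adm S n j) (hb : S.bad 1) :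
    3 ≤ S.P ∧ S.P ≤ S.h ∧ S.Q + 1 ≤ S.h ∧ 1 ≤ S.rk 1 ∧ S.rk 1 < S.P ∧
      S.P + S.Q ≤ S.rk 1 + S.h ∧ n.nT + j ≤ n.Ux ∧ n.n2 ≤ n.nT := by
  have h1 := p1b3 S n j (n.n2 + j + S.P + 1) hm hA le_rfl hb
  have h2 := hA.jU
  exact ⟨hR.P3 (by omega), hR.Ph1 (by omega), hR.Qh1 (by omega), h1.1, h1.2.1,
    hR.b2 hb (by omega), by omega, hA.n2T⟩

private theorem b3m_P2S3B (S : Seam k ld al) (n : Num) (j : ℕ) {r r' : ℕ} (h : r ≤ r') :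
    b3 S n j r ≤ b3 S n j r' := (lam_mono _ _).monotone h

private theorem b3l_P2S3B (S : Seam k ld al) (n : Num) (j : ℕ) {r r' : ℕ} (h : r < r') :
    b3 S n j r < b3 S n j r' := lam_mono _ _ h

/-- the last position before the seam -/
private theorem b3t_P2S3B (hm : S.mode = 3) (hA : Adm S n j) :
    b3 S n j (n.n2 + j + U3 S n j + S.h) + 2 = wz S n.up := by
  obtain ⟨hw, hU, hX, hc⟩ := x3_cs S n j hm hA
  have hh := S.h1
  rw [b3_eq S n j _ (by omega)]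
  rcases hc with ⟨c1, c2, c3, c4, c5⟩ | ⟨c1, c3, c4, c5⟩
  · rw [if_pos (by omega)]
    omega
  · rw [if_neg (by omega)]
    omega

/-- the positions of the bad edges keep their labels -/
private theorem slo_P2S3B (hm : S.mode = 3) (hA : Adm S n j) {z r : ℕ} (h1 : 1 ≤ r)
    (h2 : r ≤ S.P) (h3 : n.n2 + j + r + 1 < z) :
    s3 S n j z (n.n2 + j + r) = n.n2 + j + r + 1 := by
  obtain ⟨hw, hU, hX, hc⟩ := x3_cs S n j hm hA
  unfold s3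
  rw [b3_lo S n j r h1 (by omega), sk_of_lt h3]

private theorem sP_P2S3B (hm : S.mode = 3) (hA : Adm S n j) {z : ℕ} (h1 : 3 ≤ S.P)
    (h3 : n.n2 + j + S.P + 1 ≤ z) :
    s3 S n j z (n.n2 + (L3 S n j z).j + S.P - 1) = n.n2 + j + S.P := by
  obtain ⟨hG, hj, hU, -⟩ := gl3_L3 S n j z hm hA
  have h4 := slo_P2S3B hm hA (z := z) (r := S.P - 1) (by omega) (by omega) (by omega)
  rw [hj, show n.n2 + j + S.P - 1 = n.n2 + j + (S.P - 1) by omega, h4]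
  omega

private theorem rko_P2S3B {i : ℕ} (h1 : 1 ≤ i) (h2 : i < k) (h3 : ¬ ld i) (h4 : ¬ S.bad i) :
    S.P + 1 ≤ S.rk (oe i) := by
  obtain ⟨-, h5⟩ := S.same' h1 h2 h3
  have h6 : 1 ≤ oe i ∧ oe i ≤ k := by
    unfold oe
    split_ifs <;> omega
  exact (S.rk_og _ h6.1 h6.2 oe_odd (fun h => h4 (h5.1 h))).1

theorem sel3_bA (hR : SeamR S) (hm : S.mode = 3) (hA : Adm S n j) (hb : S.bad 1)
    (h : n.n2 + j + 1 + S.rk 1 ≤ S.Q + dZ n.sp e) :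
    ∃ z, n.n2 + j + S.P + 1 ≤ z ∧ P2OK S n e (L3 S n j z) false := by
  obtain ⟨f1, f2, f3, f4, f5, f6, f7, f8⟩ := num_P2S3B hR hm hA hb
  obtain ⟨hw, hU, hX, hc⟩ := x3_cs S n j hm hA
  have hd := dz_P2S3B n.sp e
  obtain ⟨z, hz⟩ : ∃ z, z + (n.n2 + j + 1 + S.rk 1) = n.n2 + j + S.P + S.Q + 1 + dZ n.sp e :=
    ⟨n.n2 + j + S.P + S.Q + 1 + dZ n.sp e - (n.n2 + j + 1 + S.rk 1), by omega⟩
  have hzb : n.n2 + j + S.P + 1 ≤ z := by omega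
  have hzw : z ≤ wz S n.up := by omega
  obtain ⟨hG, hj, hU', -⟩ := gl3_L3 S n j z hm hA
  have hp := (p1b3 S n j z hm hA hzb hb).2.2
  have hsP := sP_P2S3B hm hA (z := z) f1 hzb
  have hX1 : n.n2 + j + S.P + 1 ≤ (L3 S n j z).X 1 := by
    rw [hG.X 1 le_rfl, hj]
    unfold s3
    rw [show n.n2 + j + S.P + 1 - 1 = n.n2 + j + S.P by omega,
      b3_lo S n j S.P (by omega) (by omega)]
    exact le_sk _ _
  refine ⟨z, hzb, qok3 S n e j z hm hA hzb hzw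
    (wz S n.up + n.N0 + (n.n2 + j + S.P + S.Q + 1)) ?_
    (von3_A S n hm hG _ ?_ ?_ ?_) ?_⟩
  · rw [hp]
    omega
  · rw [hsP]
    omega
  · omega
  · omega
  · split_ifs <;> omega

theorem sel3_bC (hR : SeamR S) (hm : S.mode = 3) (hA : Adm S n j) (hb : S.bad 1)
    (h1 : S.Q + n.nT + 1 + dZ n.sp e < n.n2 + j + 1 + S.rk 1)
    (h2 : n.n2 + j + 1 + S.rk 1 ≤ n.nT + S.h + dZ n.sp e) :
    ∃ z, n.n2 + j + S.P + 1 ≤ z ∧ P2OK S n e (L3 S n j z) false := by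
  obtain ⟨f1, f2, f3, f4, f5, f6, f7, f8⟩ := num_P2S3B hR hm hA hb
  obtain ⟨hw, hU, hX, hc⟩ := x3_cs S n j hm hA
  have hd := dz_P2S3B n.sp e
  obtain ⟨r, hr⟩ : ∃ r, n.n2 + j + 1 + S.rk 1 = n.nT + r + dZ n.sp e :=
    ⟨n.n2 + j + 1 + S.rk 1 - n.nT - dZ n.sp e, by omega⟩
  have hr1 : S.Q + 1 ≤ r := by omega
  have hr2 : r ≤ S.h := by omega
  have hcr := S.cutG_le r
  obtain ⟨z, hz⟩ : ∃ z, z = b3 S n j (n.n2 + j + U3 S n j + S.P + S.cutG r - 1) + 1 :=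
    ⟨_, rfl⟩
  have hzb : n.n2 + j + S.P + 1 ≤ z := by
    have h3 := b3_eq S n j (n.n2 + j + U3 S n j + S.P + S.cutG r - 1) (by omega)
    omega
  have htop := b3t_P2S3B hm hA
  have hzw : z + 1 ≤ wz S n.up := by
    have h3 := b3m_P2S3B S n j
      (show n.n2 + j + U3 S n j + S.P + S.cutG r - 1 ≤ n.n2 + j + U3 S n j + S.h by omega)
    omega
  obtain ⟨hG, hj, hU', -⟩ := gl3_L3 S n j z hm hA
  have hp := (p1b3 S n j z hm hA hzb hb).2.2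
  have hsP := sP_P2S3B hm hA (z := z) f1 hzb
  refine ⟨z, hzb, qok3 S n e j z hm hA hzb (by omega)
    (wz S n.up + n.N0 + n.nT + r + z) ?_
    (von3_C S n hm hG _ z r hr1 (by omega) rfl (by omega) ?_ ?_ ?_ ?_ ?_) ?_⟩
  · rw [hp]
    omega
  · rw [hsP]
    omega
  · intro hU1
    rw [hU'] at hU1
    rw [hG.X _ (by rw [hU']; exact hU1), hj, hU']
    have h3 := b3m_P2S3B S n j (show n.n2 + j + S.P + U3 S n j - 1 ≤
      n.n2 + j + U3 S n j + S.P + S.cutG r - 1 by omega)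
    unfold s3
    rw [sk_of_lt (by omega)]
    omega
  · intro f _ _ hf
    rcases lt_trichotomy (S.rk f) S.P with h3 | h3 | h3
    · rw [hG.pob f hf h3]
      exact sk_ne _ _
    · rw [hG.poP f hf h3]
      exact sk_ne _ _
    · rw [hG.pog f hf h3]
      exact sk_ne _ _
  · intro i i1 i2 i3 i4 i5
    have h3 := S.cutG_lt r hr1 hr2 i i1 i2 i3 i4 i5
    have h4 := rko_P2S3B i1 i2 i3 i4
    rw [hG.pog _ oe_odd (by omega), hj, hU']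
    have h5 := b3m_P2S3B S n j (show n.n2 + j + U3 S n j + S.rk (oe i) - 1 ≤
      n.n2 + j + U3 S n j + S.P + S.cutG r - 1 by omega)
    unfold s3
    rw [sk_of_lt (by omega)]
    omega
  · intro i i1 i2 i3 i4 i5
    have h3 := S.cutG_gt r hr1 hr2 i i1 i2 i3 i4 i5
    rw [hG.pog _ oe_odd (by omega), hj, hU']
    have h5 := b3l_P2S3B S n j (show n.n2 + j + U3 S n j + S.P + S.cutG r - 1 <
      n.n2 + j + U3 S n j + S.rk (oe i) - 1 by omega)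
    unfold s3 sk
    rw [if_pos (by omega)]
    omega
  · split_ifs <;> omega

theorem sel3_bD (hR : SeamR S) (hm : S.mode = 3) (hA : Adm S n j) (hb : S.bad 1)
    (h : n.nT + S.h + dZ n.sp e < n.n2 + j + 1 + S.rk 1) :
    ∃ z, n.n2 + j + S.P + 1 ≤ z ∧ P2OK S n e (L3 S n j z) false := by
  obtain ⟨f1, f2, f3, f4, f5, f6, f7, f8⟩ := num_P2S3B hR hm hA hb
  obtain ⟨hw, hU, hX, hc⟩ := x3_cs S n j hm hA
  have hd := dz_P2S3B n.sp e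
  obtain ⟨z, hz1, hz2, hz3⟩ : ∃ z, wz S n.up ≤ z + 1 ∧ z ≤ wz S n.up ∧
      (n.n2 + j + 1 + S.rk 1) + z ≠ dZ n.sp e +
        (wz S n.up + n.nT + S.h + n.n2 + j + (if z = wz S n.up then 0 else 1)) := by
    by_cases he : n.n2 + j + 1 + S.rk 1 = n.nT + S.h + n.n2 + j + dZ n.sp e
    · refine ⟨wz S n.up - 1, by omega, by omega, ?_⟩
      rw [if_neg (by omega)]
      omega
    · refine ⟨wz S n.up, by omega, le_rfl, ?_⟩
      rw [if_pos rfl]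
      omega
  have hPw : n.n2 + j + S.P + 1 ≤ n.n2 + n.Ux + S.h + 2 := by omega
  have hzb : n.n2 + j + S.P + 1 ≤ z := by omega
  have htop := b3t_P2S3B hm hA
  obtain ⟨hG, hj, hU', -⟩ := gl3_L3 S n j z hm hA
  have hp := (p1b3 S n j z hm hA hzb hb).2.2
  have hst : s3 S n j z (n.n2 + (L3 S n j z).j + (L3 S n j z).U + S.h) + 2 = wz S n.up := by
    rw [hj, hU']
    unfold s3
    rw [sk_of_lt (by omega)]
    omega
  have hmz : mz S n.up = wz S n.up + n.N0 + n.nT + S.h := rfl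
  refine ⟨z, hzb, qok3 S n e j z hm hA hzb hz2
    (wz S n.up + n.N0 + (n.n2 + j + 1 + S.rk 1 - dZ n.sp e) + z) ?_
    (von3_T S n hm hG _ (by omega) ?_ ?_) ?_⟩
  · rw [hp]
    omega
  · omega
  · rw [hj]
    omega
  · intro h9
    apply hz3
    omega

end Pool.Agent.Lob5
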