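import Pool.Agent.Lob5.GLDab

/-!
# Two consecutive layers, refined form of `step_GL`

`r` and `r'` bound the numbers of inserted labels of the two layers; only `r'` matters for the bushes with a bad odd edge.
-/

namespace Pool.Agent.Lob5

variable {k : ℕ} {ld al : ℕ → Prop}

private theorem gs_oe {i : ℕ} (h1 : 1 ≤ i) (h2 : i < k) : 1 ≤ oe i ∧ oe i ≤ k := by
  unfold oe
  split_ifs <;> omega

private theorem gs_ee {i : ℕ} (h1 : 1 ≤ i) (h2 : i < k) : 1 ≤ ee i ∧ ee i ≤ k := by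
  unfold ee
  split_ifs <;> omega

private theorem gs_two (Λ : FLay) (i : ℕ) : Λ.bs i = Λ.p (oe i) + Λ.p (ee i) := by
  unfold FLay.bs oe ee
  by_cases h : i % 2 = 1
  · rw [if_pos h, if_pos h]
  · rw [if_neg h, if_neg h, add_comm]

private theorem gs_sh {σ : ℕ → ℕ} (h : StrictMono σ) {r r' : ℕ} (hr : r ≤ r') :
    σ r + r' ≤ σ r' + r := by
  obtain ⟨d, rfl⟩ := Nat.exists_eq_add_of_le hr
  clear hr
  induction d with
  | zero => simp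
  | succ d ih =>
    have h1 : σ (r + d) < σ (r + (d + 1)) := h (by omega)
    omega

private theorem gs_ge {σ : ℕ → ℕ} (h : StrictMono σ) (r : ℕ) : r ≤ σ r := h.le_apply

/-- kind b -/
private theorem gs_b (S : Seam k ld al) (n : Num) {Λ : FLay} {σ : ℕ → ℕ} (h : GLy S n Λ σ)
    {i : ℕ} (hi : ld i) (hb : S.bad (oe i)) :
    1 ≤ S.rk (oe i) ∧ S.rk (oe i) ≤ S.P ∧
      Λ.bs i = wz S n.up + n.N0 + n.nT + σ (n.n2 + Λ.j + S.rk (oe i)) + S.rk (ee i) := by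
  have h1 := S.ld_pos i hi
  have h2 := S.ld_lt i hi
  have r1 := S.rk_ob _ (gs_oe h1 h2).1 (gs_oe h1 h2).2 oe_odd hb
  have r2 := S.rk_eg _ (gs_ee h1 h2).1 (gs_ee h1 h2).2 ee_even ((S.diff' hi).1 hb)
  refine ⟨r1.1, r1.2, ?_⟩
  rw [gs_two, h.podd _ oe_odd, h.peven _ ee_even, if_pos r1.2, if_pos (by omega), Nat.add_zero]
  omega

/-- kind g -/
private theorem gs_g (S : Seam k ld al) (n : Num) {Λ : FLay} {σ : ℕ → ℕ} (h : GLy S n Λ σ)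
    {i : ℕ} (hi : ld i) (hb : ¬ S.bad (oe i)) :
    S.P + 1 ≤ S.rk (oe i) ∧ S.rk (oe i) ≤ S.h + 1 ∧
      Λ.bs i = wz S n.up + n.N0 + σ (n.n2 + Λ.j + S.rk (oe i) + Λ.U) + S.rk (ee i) := by
  have h1 := S.ld_pos i hi
  have h2 := S.ld_lt i hi
  have r1 := S.rk_og _ (gs_oe h1 h2).1 (gs_oe h1 h2).2 oe_odd hb
  have hbe : S.bad (ee i) := by
    by_contra h3
    exact hb ((S.diff' hi).2 h3)
  have r2 := S.rk_eb _ (gs_ee h1 h2).1 (gs_ee h1 h2).2 ee_even hbe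
  refine ⟨r1.1, r1.2, ?_⟩
  rw [gs_two, h.podd _ oe_odd, h.peven _ ee_even, if_neg (by omega), if_neg (by omega)]
  omega

theorem step_GL2 (S : Seam k ld al) (n : Num) {Λ Λ' : FLay} {σ σ' : ℕ → ℕ} (h : GLy S n Λ σ)
    (h' : GLy S n Λ' σ') (hj : Λ'.j = Λ.j + 1) (r r' : ℕ)
    (hr : wz S n.up ≤ n.n2 + Λ.j + Λ.U + S.h + 1 + r)
    (hr' : wz S n.up ≤ n.n2 + Λ'.j + Λ'.U + S.h + 1 + r')
    (h2 : r + (n.n2 + Λ.j + 1) ≤ Λ.X 1) (h2' : r' + (n.n2 + Λ.j + 1) ≤ Λ.X 1)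
    (h1 : ∀ i, ld i → ¬ al i → S.bad (oe i) → r' + 1 + (n.n2 + Λ.j + 1) ≤ Λ.X 1) :
    FStep S n Λ Λ' := by
  have hU := h.U_ge
  have htop := h.top
  have hU' := h'.U_ge
  have htop' := h'.top
  rw [hj] at hr' htop'
  -- the base of a vertex of kind g
  have key : ∀ a, ld a → ¬ S.bad (oe a) → ∃ t t' : ℕ, t ≤ r ∧ t' ≤ r' ∧
      Λ'.bs a + t' = Λ.bs a + t ∧ S.P + 1 ≤ S.rk (oe a) ∧ S.rk (oe a) ≤ S.h + 1 ∧
      σ (n.n2 + Λ.j + S.rk (oe a) + Λ.U) + (S.h + 1 - S.rk (oe a)) + t = wz S n.up ∧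
      σ' (n.n2 + (Λ.j + 1) + S.rk (oe a) + Λ'.U) + (S.h + 1 - S.rk (oe a)) + t' =
        wz S n.up := by
    intro a ha hba
    obtain ⟨a1, a2, a3⟩ := gs_g S n h ha hba
    obtain ⟨-, -, a3'⟩ := gs_g S n h' ha hba
    rw [hj] at a3'
    have g1 := gs_sh h.mono (show n.n2 + Λ.j + S.rk (oe a) + Λ.U ≤
      n.n2 + Λ.j + Λ.U + S.h + 1 by omega)
    have g2 := gs_sh h'.mono (show n.n2 + (Λ.j + 1) + S.rk (oe a) + Λ'.U ≤
      n.n2 + (Λ.j + 1) + Λ'.U + S.h + 1 by omega)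
    have g3 := gs_ge h.mono (n.n2 + Λ.j + S.rk (oe a) + Λ.U)
    have g4 := gs_ge h'.mono (n.n2 + (Λ.j + 1) + S.rk (oe a) + Λ'.U)
    refine ⟨wz S n.up - (S.h + 1 - S.rk (oe a)) - σ (n.n2 + Λ.j + S.rk (oe a) + Λ.U),
      wz S n.up - (S.h + 1 - S.rk (oe a)) - σ' (n.n2 + (Λ.j + 1) + S.rk (oe a) + Λ'.U),
      ?_, ?_, ?_, a1, a2, ?_, ?_⟩
    · omega
    · omega
    · rw [a3, a3']
      omega
    · omega
    · omega
  refine ⟨?_, ?_⟩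
  · intro i a hi hia ha haq hba
    obtain ⟨t, t', h3, h4, h5, h6, h7, h8, h9⟩ := key a (S.al_ld a ha) hba
    by_cases hbi : S.bad (oe i)
    · obtain ⟨i1, i2, i3⟩ := gs_b S n h hi hbi
      obtain ⟨-, -, i3'⟩ := gs_b S n h' hi hbi
      rw [hj] at i3'
      have g1 := gs_sh h'.mono (show n.n2 + (Λ.j + 1) + S.rk (oe i) ≤
        n.n2 + (Λ.j + 1) + S.rk (oe a) + Λ'.U by omega)
      have g2 := gs_ge h.mono (n.n2 + Λ.j + S.rk (oe i))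
      have g3 := h1 i hi hia hbi
      rw [i3, i3']
      omega
    · obtain ⟨u, u', k3, k4, k5, k6, k7, k8, k9⟩ := key i hi hbi
      rcases Nat.le_total (S.rk (oe i)) (S.rk (oe a)) with hle | hle
      · have g2 := gs_sh h'.mono (show n.n2 + (Λ.j + 1) + S.rk (oe i) + Λ'.U ≤
          n.n2 + (Λ.j + 1) + S.rk (oe a) + Λ'.U by omega)
        omega
      · have g1 := gs_sh h.mono (show n.n2 + Λ.j + S.rk (oe a) + Λ.U ≤
          n.n2 + Λ.j + S.rk (oe i) + Λ.U by omega)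
        omega
  · intro a ha haq hba
    obtain ⟨t, t', h3, h4, h5, h6, h7, h8, h9⟩ := key a (S.al_ld a ha) hba
    omega

end Pool.Agent.Lob5
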