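import Pool.Agent.Lob5.P2S2A
import Pool.Agent.Lob5.P2Step

/-!
# The selection for the mode 4: tools

Notation: `a = n2+j`, `b = a+P`, `N = n2+Ux`, `w = N+h+3`, `W0 = w+nT+h`, `t = W0+a+1` (sums relative to `w+N0`), `d = dZ n.sp e`,
`σ = lam (min z y) (max z y)` for `resLay S n j z y` (`z, y ≥ b+1`, so `σ r = r` for `r ≤ b`). `q` is odd and bad, `rk q = 1`, `rk (q+1) = Q+1`: the sum at
the special vertex is `V_q = nT + ρ + y`, `ρ = a+Q+2`. `yo4`: the label `y` in the layout without `z`.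

All lemmas are applications of `von_A, von_C, von_H` (`P2Gen`, `P2GenB`) and of `von_U` to `gl_res`; models: the proofs of `mk2_A, mk2_C,
mk2_H, qok2, vq2` in `P2S2A.lean`. `(resLay ..).X (Ux-j) = lam .. (N+P)`.
* `von_U`: like `von_T` (`P2Gen`), with `σ top` instead of `w` (`top` = position `n2+j+U+h+1`).
* `ok4`: `ok_res` with `dab_res` (both reserved labels `≥ b+1`, different), `F3`: `X 1 ≥ b+1`.
* `q4_C`, `v4_C`: `p0 = N+P+cutG r+1`; with the second reserved label `u` (`z` or `y`), label `s = p0 + [u ≤ p0]`: a position `N+o` with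
  `o ≤ P+cutG r` (`≤ p0-1`) has a label `< s`, with `o > P+cutG r` (`≥ p0`) a label `> s`; `S.cutG_lt, S.cutG_gt, S.cutG_le`; `N+P ≤ p0-1`.
* `q4_T`: `y = w`: `V_q = nT+ρ+w > W0`; `y = w-1`, `z = w`: `V_q = nT+ρ+w-1 ≥ W0` and `σ (N+h+1) = N+h+1 = w-2`. `von_U`. `ρ ≤ a+1+h`.
-/

namespace Pool.Agent.Lob5

variable {k : ℕ} {ld al : ℕ → Prop}

/-- three labels are reserved -/
def XC (S : Seam k ld al) (n : Num) (j : ℕ) : Prop :=
  n.sp = 3 ∧ n.n2 + j + S.Q + 2 ≤ S.h ∧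
    n.n2 + n.Ux + S.P + S.cutG (n.n2 + j + S.Q + 2) + 1 + S.P < n.nT + S.h

/-- the layers for the mode 4 -/
inductive Fam4 (S : Seam k ld al) (n : Num) (j : ℕ) : FLay → Prop
  | P (h : (funP S n j).lg = false) : Fam4 S n j (funP S n j)
  | R (z y : ℕ) : Fam4 S n j (resLay S n j z y)
  | X (z : ℕ) (h : XC S n j) : Fam4 S n j (insG S n (lay4 S n j) z)

/-- the label `y` in the layout without `z` -/
def yo4 (S : Seam k ld al) (n : Num) (j : ℕ) : ℕ :=
  if n.n2 + j + S.Q + 2 ≤ S.h then n.n2 + n.Ux + S.P + S.cutG (n.n2 + j + S.Q + 2) + 1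
  else n.n2 + n.Ux + S.h + 2

/-- the numerical conditions on `z`, `y` -/
structure Num4 (S : Seam k ld al) (n : Num) (j z y : ℕ) : Prop where
  zb : n.n2 + j + S.P + 1 ≤ z
  zw : z ≤ n.n2 + n.Ux + S.h + 3
  yb : n.n2 + j + S.P + 1 ≤ y
  yw : y ≤ n.n2 + n.Ux + S.h + 3
  zy : z ≠ y
  F3 : n.sp = 3 → n.nT + S.h ≤ y + S.P

private theorem oe_P2S4A {i : ℕ} (h1 : 1 ≤ i) (h2 : i < k) : 1 ≤ oe i ∧ oe i ≤ k := by
  unfold oe
  split_ifs <;> omega

private theorem ee_P2S4A {i : ℕ} (h1 : 1 ≤ i) (h2 : i < k) : 1 ≤ ee i ∧ ee i ≤ k := by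
  unfold ee
  split_ifs <;> omega

/-- the two labels at a vertex -/
private theorem two_P2S4A (Λ : FLay) (i : ℕ) : Λ.bs i = Λ.p (oe i) + Λ.p (ee i) := by
  unfold FLay.bs oe ee
  by_cases h : i % 2 = 1
  · rw [if_pos h, if_pos h]
  · rw [if_neg h, if_neg h, add_comm]

private theorem sh_P2S4A {σ : ℕ → ℕ} (h : StrictMono σ) (i d : ℕ) : σ i + d ≤ σ (i + d) := by
  induction d with
  | zero => exact le_rfl
  | succ d ih =>
    have h1 := h (show i + d < i + (d + 1) by omega)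
    omega

private theorem shift_P2S4A {σ : ℕ → ℕ} (h : StrictMono σ) {i j : ℕ} (hij : i ≤ j) :
    σ i + j ≤ σ j + i := by
  obtain ⟨d, rfl⟩ := Nat.exists_eq_add_of_le hij
  have := sh_P2S4A h i d
  omega

/-- the sum at a vertex which is not loaded -/
private theorem sum_P2S4A {S : Seam k ld al} {n : Num} {Λ : FLay} {σ : ℕ → ℕ}
    (h : GLy S n Λ σ) {i : ℕ} (h1 : 1 ≤ i) (h2 : i < k) (h3 : ¬ ld i) :
    (S.bad i ∧ 1 ≤ S.rk (oe i) ∧ S.rk (oe i) ≤ S.P ∧ 1 ≤ S.rk (ee i) ∧ S.rk (ee i) ≤ S.Q ∧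
      Λ.p (oe i) = σ (n.n2 + Λ.j + S.rk (oe i)) ∧
      Λ.bs i = Λ.p (oe i) + (wz S n.up + n.N0 + S.rk (ee i))) ∨
    (¬ S.bad i ∧ S.P + 1 ≤ S.rk (oe i) ∧ S.rk (oe i) ≤ S.h + 1 ∧ S.Q + 1 ≤ S.rk (ee i) ∧
      S.rk (ee i) ≤ S.h ∧ Λ.p (oe i) = σ (n.n2 + Λ.j + S.rk (oe i) + Λ.U) ∧
      Λ.bs i = Λ.p (oe i) + (wz S n.up + n.N0 + S.rk (ee i) + n.nT)) := by
  obtain ⟨ho, hbi⟩ := S.same' h1 h2 h3
  have o1 := (oe_P2S4A h1 h2).1
  have o2 := (oe_P2S4A h1 h2).2
  have e1 := (ee_P2S4A h1 h2).1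
  have e2 := (ee_P2S4A h1 h2).2
  by_cases hc : S.bad (oe i)
  · have r1 := S.rk_ob _ o1 o2 oe_odd hc
    have r2 := S.rk_eb _ e1 e2 ee_even (ho.1 hc)
    refine Or.inl ⟨hbi.1 hc, r1.1, r1.2, r2.1, r2.2, ?_, ?_⟩
    · rw [h.podd _ oe_odd, if_pos r1.2, add_zero]
    · rw [two_P2S4A, h.peven _ ee_even, if_neg (by omega), add_zero]
  · have r1 := S.rk_og _ o1 o2 oe_odd hc
    have r2 := S.rk_eg _ e1 e2 ee_even (fun h => hc (ho.2 h))
    refine Or.inr ⟨fun h => hc (hbi.2 h), r1.1, r1.2, r2.1, r2.2, ?_, ?_⟩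
    · rw [h.podd _ oe_odd, if_neg (by omega)]
    · rw [two_P2S4A, h.peven _ ee_even, if_pos (by omega)]

/-- `v` is above all sums -/
theorem von_U (S : Seam k ld al) (n : Num) {Λ : FLay} {σ : ℕ → ℕ} (h : GLy S n Λ σ) (v : ℕ)
    (hPQ : 1 ≤ Λ.U → S.P + S.Q ≤ 2 * S.h)
    (h1 : wz S n.up + n.N0 + n.nT + S.h + σ (n.n2 + Λ.j + Λ.U + S.h + 1) < v)
    (h2 : v ≤ wz S n.up + mz S n.up + n.n2 + Λ.j + 1) : VOKn S n Λ v := by
  have hmz : mz S n.up = wz S n.up + n.N0 + n.nT + S.h := rfl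
  have hPh := S.Ph
  have hQh := S.Qh
  refine ⟨by omega, ?_, ?_⟩
  · intro i i1 i2 i3
    rcases sum_P2S4A h i1 i2 i3 with ⟨_, a1, a2, a3, a4, a5, a6⟩ | ⟨a0, a1, a2, a3, a4, a5, a6⟩
    · have h4 := h.mono.monotone
        (show n.n2 + Λ.j + S.rk (oe i) ≤ n.n2 + Λ.j + Λ.U + S.h + 1 by omega)
      omega
    · have h4 := h.mono.monotone
        (show n.n2 + Λ.j + S.rk (oe i) + Λ.U ≤ n.n2 + Λ.j + Λ.U + S.h + 1 by omega)
      omega
  · intro h4
    have h5 := hPQ h4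
    right
    have h6 := h.X Λ.U
    have h7 := shift_P2S4A h.mono
      (show n.n2 + Λ.j + S.P + Λ.U ≤ n.n2 + Λ.j + Λ.U + S.h + 1 by omega)
    omega

section

variable {S : Seam k ld al} {n : Num} {e j z y : ℕ}

theorem sp4 (hm : S.mode = 4) (hA : Adm S n j) : n.sp ≠ 0 := by
  have := hA.sp14 (by omega) (by omega)
  omega

/-- the sum at the special vertex -/
theorem vq4 (hm : S.mode = 4) (hA : Adm S n j) (hN : Num4 S n j z y) :
    (resLay S n j z y).bs S.q + y = wz S n.up + n.N0 + n.nT + (n.n2 + j + S.Q + 2) + y := by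
  obtain ⟨_, h2, h3, h4, h5⟩ := S.m4 hm
  have hG := gl_res S n (sp4 hm hA) j z y hA
  have h6 : (resLay S n j z y).bs S.q =
    (resLay S n j z y).p S.q + (resLay S n j z y).p (S.q + 1) := rfl
  have h7 := hG.peven (S.q + 1) (by omega)
  have hP1 := S.P1
  have h8 := pb_res S n j z y (e := S.q) h3 (by omega)
  have hzb := hN.zb
  have hyb := hN.yb
  have hzy := hN.zy
  have h9 : lam (min z y) (max z y) (n.n2 + j + 1) = n.n2 + j + 1 := by
    unfold lam
    split_ifs <;> omega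
  rw [h4, h9] at h8
  rw [h6, h7, h8, h5, if_pos (by omega)]
  omega

/-- everything from the facts about the two sums -/
theorem ok4 (hm : S.mode = 4) (hA : Adm S n j) (hN : Num4 S n j z y)
    (hq : VOKn S n (resLay S n j z y) ((resLay S n j z y).bs S.q + y))
    (hv : VOKn S n (resLay S n j z y) ((resLay S n j z y).vk S n e))
    (ne : (resLay S n j z y).bs S.q + y ≠ (resLay S n j z y).vk S n e) :
    P2OK S n e (resLay S n j z y) false := by
  have hs := sp4 hm hA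
  have hw := wz_res S n hs
  have hzb := hN.zb
  have hyb := hN.yb
  have hzy := hN.zy
  refine ok_res S n e j z y hs hA (by omega) (by omega) (by rw [hw]; exact hN.zw) (by omega)
    (by rw [hw]; exact hN.yw) hN.zy
    (dab_res S n hs j z y hA (by omega) (by omega) (by omega))
    (fun h => ?_) hq hv ne
  have h3 := hN.F3 h
  have h4 : n.n2 + j + S.P + 1 ≤ (resLay S n j z y).X 1 := by
    change n.n2 + j + S.P + 1 ≤ lam (min z y) (max z y) (n.n2 + j + S.P + 1)
    unfold lam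
    omega
  omega

private theorem lam_sh_P2S4A (u v : ℕ) {i i' : ℕ} (h : i ≤ i') :
    lam u v i + i' ≤ lam u v i' + i := by
  unfold lam
  split_ifs <;> omega

private theorem nu_P2S4A {z y : ℕ} (h : z ≠ y) (r : ℕ) :
    lam (min z y) (max z y) r ≠ z ∧ lam (min z y) (max z y) r ≠ y := by
  unfold lam
  rcases Nat.lt_or_ge z y with c | c
  · rw [min_eq_left c.le, max_eq_right c.le]
    split_ifs <;> omega
  · have c' : y < z := by omega
    rw [min_eq_right c'.le, max_eq_left c'.le]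
    split_ifs <;> omega

private theorem good_P2S4A (S : Seam k ld al) {i : ℕ} (h1 : 1 ≤ i) (h2 : i < k) (h3 : ¬ ld i)
    (hb : ¬ S.bad i) : S.P + 1 ≤ S.rk (oe i) ∧ S.rk (oe i) ≤ S.h + 1 := by
  obtain ⟨_, hbi⟩ := S.same' h1 h2 h3
  exact S.rk_og _ (oe_P2S4A h1 h2).1 (oe_P2S4A h1 h2).2 oe_odd (fun h => hb (hbi.1 h))

/-- position of the odd edge at a good vertex -/
private theorem pog_P2S4A (hA : Adm S n j) {i : ℕ} (h1 : 1 ≤ i) (h2 : i < k) (h3 : ¬ ld i)
    (hb : ¬ S.bad i) : (resLay S n j z y).p (oe i) =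
      lam (min z y) (max z y) (n.n2 + n.Ux + S.rk (oe i)) :=
  pg_res S n j z y hA oe_odd (by
    have := (good_P2S4A S h1 h2 h3 hb).1
    omega)

/-- the label before the good odd edges -/
private theorem XU_P2S4A (hA : Adm S n j) : (resLay S n j z y).X (resLay S n j z y).U =
      lam (min z y) (max z y) (n.n2 + n.Ux + S.P) := by
  have hj := jU_res hA
  change lam (min z y) (max z y) (n.n2 + j + S.P + (n.Ux - j)) = _
  congr 1
  omega

/-- the zip at an even rank -/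
private theorem zip_P2S4A (hs0 : n.sp ≠ 0) (hA : Adm S n j) (v s u r : ℕ)
    (hr : S.Q + 1 ≤ r) (hr' : r ≤ S.h) (hv : v = wz S n.up + n.N0 + n.nT + r + s)
    (hsw : s ≤ wz S n.up) (hzy : z ≠ y)
    (hsu : (s = z ∧ u = y) ∨ (s = y ∧ u = z))
    (hss : s = n.n2 + n.Ux + S.P + S.cutG r + 1 +
      (if u ≤ n.n2 + n.Ux + S.P + S.cutG r + 1 then 1 else 0)) :
    VOKn S n (resLay S n j z y) v := by
  have hj := jU_res hA
  have hG := gl_res S n hs0 j z y hA
  have hXU := XU_P2S4A (z := z) (y := y) hA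
  have lo : ∀ x, x ≤ n.n2 + n.Ux + S.P + S.cutG r →
      lam (min z y) (max z y) x < s := by
    intro x hx
    unfold lam
    rcases hsu with ⟨h1, h2⟩ | ⟨h1, h2⟩
    · subst h1 h2
      split_ifs at hss <;> split_ifs <;> omega
    · subst h1 h2
      split_ifs at hss <;> split_ifs <;> omega
  have hi : ∀ x, n.n2 + n.Ux + S.P + S.cutG r < x →
      s < lam (min z y) (max z y) x := by
    intro x hx
    unfold lam
    rcases hsu with ⟨h1, h2⟩ | ⟨h1, h2⟩
    · subst h1 h2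
      split_ifs at hss <;> split_ifs <;> omega
    · subst h1 h2
      split_ifs at hss <;> split_ifs <;> omega
  refine von_C S n hG v s r hr (by omega) hv hsw ?_ ?_ ?_ ?_ ?_
  · change lam (min z y) (max z y) (n.n2 + j + S.P) < s
    exact lo _ (by omega)
  · intro _
    rw [hXU]
    exact lo _ (by omega)
  · intro f _ _ hf
    change (if f % 2 = 1 then _ else _) ≠ s
    rw [if_pos hf]
    rcases hsu with ⟨h1, _⟩ | ⟨h1, _⟩
    · rw [h1]
      exact (nu_P2S4A hzy _).1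
    · rw [h1]
      exact (nu_P2S4A hzy _).2
  · intro i i1 i2 i3 i4 i5
    rw [pog_P2S4A hA i1 i2 i3 i4]
    have h4 := S.cutG_lt r hr hr' i i1 i2 i3 i4 i5
    exact lo _ (by omega)
  · intro i i1 i2 i3 i4 i5
    rw [pog_P2S4A hA i1 i2 i3 i4]
    have h4 := S.cutG_gt r hr hr' i i1 i2 i3 i4 i5
    exact hi _ (by omega)

/-- special vertex: zipped -/
theorem q4_C (hm : S.mode = 4) (hA : Adm S n j) (hN : Num4 S n j z y)
    (hr : n.n2 + j + S.Q + 2 ≤ S.h)
    (hy : y = n.n2 + n.Ux + S.P + S.cutG (n.n2 + j + S.Q + 2) + 1 +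
      (if z ≤ n.n2 + n.Ux + S.P + S.cutG (n.n2 + j + S.Q + 2) + 1 then 1 else 0)) :
    VOKn S n (resLay S n j z y) ((resLay S n j z y).bs S.q + y) := by
  have hs0 := sp4 hm hA
  have hw := wz_res S n hs0
  have hvq := vq4 hm hA hN
  have hyw := hN.yw
  exact zip_P2S4A hs0 hA _ y z _ (by omega) hr hvq (by omega) hN.zy (Or.inr ⟨rfl, rfl⟩) hy

/-- special vertex: above all sums -/
theorem q4_T (hR : SeamR S) (hm : S.mode = 4) (hA : Adm S n j) (hN : Num4 S n j z y)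
    (hr : S.h < n.n2 + j + S.Q + 2)
    (hy : y = n.n2 + n.Ux + S.h + 3 ∨ (y = n.n2 + n.Ux + S.h + 2 ∧ z = n.n2 + n.Ux + S.h + 3)) :
    VOKn S n (resLay S n j z y) ((resLay S n j z y).bs S.q + y) := by
  have hs0 := sp4 hm hA
  have hw := wz_res S n hs0
  have hj := jU_res hA
  have hmz : mz S n.up = wz S n.up + n.N0 + n.nT + S.h := rfl
  have hG := gl_res S n hs0 j z y hA
  have hvq := vq4 hm hA hN
  have hP := hR.Ph1 (by omega)
  have hQh := hR.Qh1 (by omega)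
  have hzy := hN.zy
  have hzw := hN.zw
  have hyw := hN.yw
  refine von_U S n hG _ (fun _ => by omega) ?_ ?_
  · change wz S n.up + n.N0 + n.nT + S.h +
      lam (min z y) (max z y) (n.n2 + j + (n.Ux - j) + S.h + 1) < _
    have h1 : n.n2 + j + (n.Ux - j) + S.h + 1 = n.n2 + n.Ux + S.h + 1 := by omega
    have h2 : lam (min z y) (max z y) (n.n2 + n.Ux + S.h + 1) ≤ y - 1 := by
      unfold lam
      split_ifs <;> omega
    rw [h1]
    omega
  · change _ ≤ wz S n.up + mz S n.up + n.n2 + j + 1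
    omega

/-- vertex `k`: class A -/
theorem v4_A (hR : SeamR S) (hm : S.mode = 4) (hA : Adm S n j) (hN : Num4 S n j z y) {x : ℕ}
    (hx : (resLay S n j z y).p 1 = lam (min z y) (max z y) x)
    (h : lam (min z y) (max z y) x + z = n.n2 + j + S.P + S.Q + 1 + dZ n.sp e) :
    VOKn S n (resLay S n j z y) ((resLay S n j z y).vk S n e) := by
  have hs0 := sp4 hm hA
  have hw := wz_res S n hs0
  have hj := jU_res hA
  have hG := gl_res S n hs0 j z y hA
  have hv := vk2 S n e j z y x hx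
  have hP := hR.Ph1 (by omega)
  have hzb := hN.zb
  have hyb := hN.yb
  have h3 : lam (min z y) (max z y) (n.n2 + j + S.P) = n.n2 + j + S.P := by
    unfold lam
    have hzy := hN.zy
    split_ifs <;> omega
  have h4 : n.n2 + j + S.P + 1 ≤ lam (min z y) (max z y) (n.n2 + j + S.P + 1) := by
    unfold lam
    omega
  refine von_A S n hG _ ?_ ?_ ?_
  · change wz S n.up + n.N0 + lam (min z y) (max z y) (n.n2 + j + S.P) + S.Q < _
    omega
  · change _ < wz S n.up + n.N0 + S.Q + 1 + lam (min z y) (max z y) (n.n2 + j + S.P + 1)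
    omega
  · omega

/-- vertex `k`: zipped at the even rank `r` -/
theorem v4_C (hm : S.mode = 4) (hA : Adm S n j) (hN : Num4 S n j z y) {x r : ℕ}
    (hx : (resLay S n j z y).p 1 = lam (min z y) (max z y) x)
    (hr : S.Q + 1 ≤ r) (hr' : r ≤ S.h)
    (h1 : lam (min z y) (max z y) x = n.nT + r + dZ n.sp e)
    (hz : z = n.n2 + n.Ux + S.P + S.cutG r + 1 +
      (if y ≤ n.n2 + n.Ux + S.P + S.cutG r + 1 then 1 else 0)) :
    VOKn S n (resLay S n j z y) ((resLay S n j z y).vk S n e) := by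
  have hs0 := sp4 hm hA
  have hw := wz_res S n hs0
  have hv := vk2 S n e j z y x hx
  have hzw := hN.zw
  exact zip_P2S4A hs0 hA _ z y r hr hr' (by omega) (by omega) hN.zy (Or.inl ⟨rfl, rfl⟩) hz

/-- vertex `k`: above all sums -/
theorem v4_T (hR : SeamR S) (hm : S.mode = 4) (hA : Adm S n j) {x : ℕ}
    (hx : (resLay S n j z y).p 1 = lam (min z y) (max z y) x)
    (h1 : lam (min z y) (max z y) (n.n2 + n.Ux + S.h + 1) + n.nT + S.h + dZ n.sp e <
      lam (min z y) (max z y) x + z)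
    (h2 : lam (min z y) (max z y) x + z ≤
      n.n2 + n.Ux + S.h + 3 + n.nT + S.h + (n.n2 + j) + 1 + dZ n.sp e) :
    VOKn S n (resLay S n j z y) ((resLay S n j z y).vk S n e) := by
  have hs0 := sp4 hm hA
  have hw := wz_res S n hs0
  have hj := jU_res hA
  have hmz : mz S n.up = wz S n.up + n.N0 + n.nT + S.h := rfl
  have hG := gl_res S n hs0 j z y hA
  have hv := vk2 S n e j z y x hx
  have hP := hR.Ph1 (by omega)
  have hQh := hR.Qh1 (by omega)
  refine von_U S n hG _ (fun _ => by omega) ?_ ?_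
  · change wz S n.up + n.N0 + n.nT + S.h +
      lam (min z y) (max z y) (n.n2 + j + (n.Ux - j) + S.h + 1) < _
    have h3 : n.n2 + j + (n.Ux - j) + S.h + 1 = n.n2 + n.Ux + S.h + 1 := by omega
    rw [h3]
    omega
  · change _ ≤ wz S n.up + mz S n.up + n.n2 + j + 1
    omega

/-- vertex `k`: the hole at the vertex `0`, edge `1` good: `z = nT + R + d` -/
theorem v4_H (hm : S.mode = 4) (hA : Adm S n j) (hb : ¬ S.bad 1) {R : ℕ}
    (hH : HoleG S R) (hz : z = n.nT + R + dZ n.sp e) :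
    VOKn S n (resLay S n j z y) ((resLay S n j z y).vk S n e) := by
  have hs0 := sp4 hm hA
  have hw := wz_res S n hs0
  have hG := gl_res S n hs0 j z y hA
  have hXU := XU_P2S4A (z := z) (y := y) hA
  have hx := p1g2 (z := z) (y := y) hA hb
  have hv := vk2 S n e j z y _ hx
  have hk := S.hk
  have hr1 := S.rk_og 1 le_rfl (by omega) (by omega) hb
  have hE := hH.E0 (by omega)
  have hRh := hH.Rh
  have h4 := lam_sh_P2S4A (min z y) (max z y)
    (show n.n2 + n.Ux + S.P ≤ n.n2 + n.Ux + S.rk 1 by omega)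
  refine von_H S n hG _ R hH.toHole0 hb (by omega) ?_
  intro _
  rw [hXU, hx]
  omega

end

end Pool.Agent.Lob5
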