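import Pool.Agent.Lob5.P2S4A

/-!
# The selection for the mode 4, edge `1` bad (two reserved labels)

Notation of `P2S4A`; `y0 = yo4 S n j`, `ρ = rk 1`, `1 ≤ ρ ≤ P`, `x = a+ρ`, `p 1 = σ x = x` (`p1b2`), the sum at the vertex `k` is `V' = x + z - d` (`vk2`), at the special
vertex `V_q = nT + ρq + y`, `ρq = a+Q+2` (`vq4`). Facts: `N ≥ nT+a` (`hA.jU`, one more if `sp ≥ 2`), `3 ≤ P ≤ h`, `Q+2 ≤ h`, `P+Q+2 ≤ ρ+h` (`b45`).
`Num4.F3`: `¬ XC`: `ρq > h` (then `y ≥ w-1`) or `N+2P+cutG ρq+1 ≥ nT+h`. All conditions: `unfold lam yo4; split_ifs <;> omega`.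

`sel4_bA`: `x ≤ Q+d`: `z = P+Q+1-ρ+d` (`≥ b+1`, `≤ h`), `y = y0 + [z ≤ y0]` (`q4_C`, or `y = w`: `q4_T`); `V' = b+Q+1` (`v4_A`), `V_q ≥ a+Q+2+b+1 > V'`.
`sel4_bC`: `Q+nT+2+d ≤ x ≤ nT+h+d`: `r = x-nT-d`, `p = N+P+cutG r+1 (≤ w-1)`. `ρq > h`: `(z, y) = (p, w)`. `ρq ≤ h`, `p' = N+P+cutG ρq+1`: `r ≤ ρq` (then `p ≤ p'`: `S.cutG_mono`,
  induction): `(z, y) = (p, p'+1)`; `r > ρq` (`p ≥ p'`): `(z, y) = (p+1, p')`. `v4_C`, `q4_C` or `q4_T`. `V_q > V'` in the first two cases, `V_q < V'` in the third.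
`sel4_bD`: `nT+h+d < x` (`x ≤ a+h`): `ρq ≤ h`: `(z, y) = (w, p')`: `V' = x+w-d > W0 ≥ V_q`. `ρq > h`: `(z, y) = (w, w-1)` if `x-d+1 ≠ nT+ρq`, and `(w-1, w)` if
  `x-d+1 = nT+ρq` (`V' = x+w-1-d ≥ W0`, `σ (N+h+1) = w-2`). `v4_T`.
-/

namespace Pool.Agent.Lob5

variable {k : ℕ} {ld al : ℕ → Prop} {S : Seam k ld al} {n : Num} {e j : ℕ}

private theorem dz_P2S4B (sp e : ℕ) : dZ sp e ≤ 1 := by
  unfold dZ
  split_ifs <;> omega

private theorem cutG_P2S4B (S : Seam k ld al) {r r' : ℕ} (h : r ≤ r') :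
    S.cutG r ≤ S.cutG r' :=
  monotone_nat_of_le_succ S.cutG_mono h

/-- both reserved labels are above -/
private theorem l0_P2S4B {z y r : ℕ} (h1 : r < min z y) (h2 : r + 1 < max z y) :
    lam (min z y) (max z y) r = r := by
  unfold lam
  rw [if_neg (by omega), if_neg (by omega), Nat.add_zero]

private theorem num_P2S4B (hR : SeamR S) (hT : SeamT S) (hm : S.mode = 4) (hA : Adm S n j)
    (hb : S.bad 1) : 3 ≤ S.P ∧ S.P ≤ S.h ∧ S.Q + 2 ≤ S.h ∧ 1 ≤ S.rk 1 ∧ S.rk 1 ≤ S.P ∧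
      S.P + S.Q + 2 ≤ S.rk 1 + S.h ∧ n.nT + (n.n2 + j) ≤ n.n2 + n.Ux := by
  have hk := S.hk
  have hr1 := S.rk_ob 1 le_rfl (by omega) (by omega) hb
  have hj := jU_res hA
  exact ⟨hR.P3 (by omega), hR.Ph1 (by omega), hT.Q2 (by omega), hr1.1, hr1.2,
    hT.b45 hb (Or.inl hm), by omega⟩

/-- the sums at the two vertices -/
private theorem sums_P2S4B (hm : S.mode = 4) (hA : Adm S n j) (hb : S.bad 1) {z y : ℕ}
    (hN : Num4 S n j z y) (hP : S.rk 1 ≤ S.P) :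
    lam (min z y) (max z y) (n.n2 + j + S.rk 1) = n.n2 + j + S.rk 1 ∧
    (resLay S n j z y).p 1 = lam (min z y) (max z y) (n.n2 + j + S.rk 1) ∧
    (resLay S n j z y).vk S n e + dZ n.sp e =
      wz S n.up + n.N0 + (n.n2 + j + S.rk 1) + z ∧
    (resLay S n j z y).bs S.q + y =
      wz S n.up + n.N0 + n.nT + (n.n2 + j + S.Q + 2) + y := by
  have h1 := hN.zb
  have h2 := hN.yb
  have h3 := hN.zy
  have hl := l0_P2S4B (z := z) (y := y) (r := n.n2 + j + S.rk 1) (by omega) (by omega)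
  have hp := p1b2 (n := n) (j := j) (z := z) (y := y) hb
  have hv := vk2 S n e j z y _ hp
  rw [hl] at hv
  exact ⟨hl, hp, hv, vq4 hm hA hN⟩

theorem sel4_bA (hR : SeamR S) (hT : SeamT S) (hm : S.mode = 4) (hA : Adm S n j)
    (hb : S.bad 1) (hx : ¬ XC S n j) (h : n.n2 + j + S.rk 1 ≤ S.Q + dZ n.sp e) :
    ∃ z y, P2OK S n e (resLay S n j z y) false := by
  obtain ⟨f1, f2, f3, f4, f5, f6, f7⟩ := num_P2S4B hR hT hm hA hb
  have hd := dz_P2S4B n.sp e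
  obtain ⟨z, hz⟩ : ∃ z, z = S.P + S.Q + 1 + dZ n.sp e - S.rk 1 := ⟨_, rfl⟩
  by_cases hr : n.n2 + j + S.Q + 2 ≤ S.h
  · have hc := S.cutG_le (n.n2 + j + S.Q + 2)
    obtain ⟨y0, hy0⟩ : ∃ y0, y0 = n.n2 + n.Ux + S.P + S.cutG (n.n2 + j + S.Q + 2) + 1 :=
      ⟨_, rfl⟩
    obtain ⟨y, hy⟩ : ∃ y, y = y0 + (if z ≤ y0 then 1 else 0) := ⟨_, rfl⟩
    have hF : n.sp = 3 → n.nT + S.h ≤ y0 + S.P := by
      intro hs
      by_contra hlt
      exact hx ⟨hs, hr, by omega⟩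
    have hyy : (z ≤ y0 ∧ y = y0 + 1) ∨ (y0 < z ∧ y = y0) := by
      split_ifs at hy <;> omega
    have hN : Num4 S n j z y := ⟨by omega, by omega, by omega, by omega, by omega,
      fun hs => by
        have := hF hs
        omega⟩
    obtain ⟨g1, g2, g3, g4⟩ := sums_P2S4B (e := e) hm hA hb hN f5
    refine ⟨z, y, ok4 hm hA hN (q4_C hm hA hN hr ?_) (v4_A hR hm hA hN g2 ?_) ?_⟩
    · rw [← hy0]
      exact hy
    · rw [g1]
      omega
    · omega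
  · have hN : Num4 S n j z (n.n2 + n.Ux + S.h + 3) := ⟨by omega, by omega, by omega, le_rfl,
      by omega, fun _ => by omega⟩
    obtain ⟨g1, g2, g3, g4⟩ := sums_P2S4B (e := e) hm hA hb hN f5
    refine ⟨z, n.n2 + n.Ux + S.h + 3, ok4 hm hA hN
      (q4_T hR hm hA hN (by omega) (Or.inl rfl)) (v4_A hR hm hA hN g2 ?_) ?_⟩
    · rw [g1]
      omega
    · omega

theorem sel4_bC (hR : SeamR S) (hT : SeamT S) (hm : S.mode = 4) (hA : Adm S n j)
    (hb : S.bad 1) (hx : ¬ XC S n j) (h1 : S.Q + n.nT + 1 + dZ n.sp e < n.n2 + j + S.rk 1)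
    (h2 : n.n2 + j + S.rk 1 ≤ n.nT + S.h + dZ n.sp e) :
    ∃ z y, P2OK S n e (resLay S n j z y) false := by
  obtain ⟨f1, f2, f3, f4, f5, f6, f7⟩ := num_P2S4B hR hT hm hA hb
  have hd := dz_P2S4B n.sp e
  obtain ⟨r, hr⟩ : ∃ r, n.n2 + j + S.rk 1 = n.nT + r + dZ n.sp e :=
    ⟨n.n2 + j + S.rk 1 - n.nT - dZ n.sp e, by omega⟩
  have hcr := S.cutG_le r
  obtain ⟨p, hp⟩ : ∃ p, p = n.n2 + n.Ux + S.P + S.cutG r + 1 := ⟨_, rfl⟩
  by_cases hq : n.n2 + j + S.Q + 2 ≤ S.h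
  · have hc := S.cutG_le (n.n2 + j + S.Q + 2)
    obtain ⟨y0, hy0⟩ : ∃ y0, y0 = n.n2 + n.Ux + S.P + S.cutG (n.n2 + j + S.Q + 2) + 1 :=
      ⟨_, rfl⟩
    have hF : n.sp = 3 → n.nT + S.h ≤ y0 + S.P := by
      intro hs
      by_contra hlt
      exact hx ⟨hs, hq, by omega⟩
    by_cases hrq : r ≤ n.n2 + j + S.Q + 2
    · have hmo := cutG_P2S4B S hrq
      have hN : Num4 S n j p (y0 + 1) := ⟨by omega, by omega, by omega, by omega, by omega,
        fun hs => by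
          have := hF hs
          omega⟩
      obtain ⟨g1, g2, g3, g4⟩ := sums_P2S4B (e := e) hm hA hb hN f5
      refine ⟨p, y0 + 1, ok4 hm hA hN (q4_C hm hA hN hq ?_)
        (v4_C (r := r) hm hA hN g2 (by omega) (by omega) ?_ ?_) ?_⟩
      · rw [← hy0, if_pos (by omega)]
      · rw [g1]
        omega
      · rw [← hp, if_neg (by omega), Nat.add_zero]
      · omega
    · have hmo := cutG_P2S4B S (show n.n2 + j + S.Q + 2 ≤ r by omega)
      have hN : Num4 S n j (p + 1) y0 := ⟨by omega, by omega, by omega, by omega, by omega,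
        fun hs => hF hs⟩
      obtain ⟨g1, g2, g3, g4⟩ := sums_P2S4B (e := e) hm hA hb hN f5
      refine ⟨p + 1, y0, ok4 hm hA hN (q4_C hm hA hN hq ?_)
        (v4_C (r := r) hm hA hN g2 (by omega) (by omega) ?_ ?_) ?_⟩
      · rw [← hy0, if_neg (by omega), Nat.add_zero]
      · rw [g1]
        omega
      · rw [← hp, if_pos (by omega)]
      · omega
  · have hN : Num4 S n j p (n.n2 + n.Ux + S.h + 3) := ⟨by omega, by omega, by omega, le_rfl,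
      by omega, fun _ => by omega⟩
    obtain ⟨g1, g2, g3, g4⟩ := sums_P2S4B (e := e) hm hA hb hN f5
    refine ⟨p, n.n2 + n.Ux + S.h + 3, ok4 hm hA hN
      (q4_T hR hm hA hN (by omega) (Or.inl rfl))
      (v4_C (r := r) hm hA hN g2 (by omega) (by omega) ?_ ?_) ?_⟩
    · rw [g1]
      omega
    · rw [← hp, if_neg (by omega), Nat.add_zero]
    · omega

theorem sel4_bD (hR : SeamR S) (hT : SeamT S) (hm : S.mode = 4) (hA : Adm S n j)
    (hb : S.bad 1) (hx : ¬ XC S n j) (h : n.nT + S.h + dZ n.sp e < n.n2 + j + S.rk 1) :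
    ∃ z y, P2OK S n e (resLay S n j z y) false := by
  obtain ⟨f1, f2, f3, f4, f5, f6, f7⟩ := num_P2S4B hR hT hm hA hb
  have hd := dz_P2S4B n.sp e
  by_cases hq : n.n2 + j + S.Q + 2 ≤ S.h
  · have hc := S.cutG_le (n.n2 + j + S.Q + 2)
    obtain ⟨y0, hy0⟩ : ∃ y0, y0 = n.n2 + n.Ux + S.P + S.cutG (n.n2 + j + S.Q + 2) + 1 :=
      ⟨_, rfl⟩
    have hF : n.sp = 3 → n.nT + S.h ≤ y0 + S.P := by
      intro hs
      by_contra hlt
      exact hx ⟨hs, hq, by omega⟩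
    have hN : Num4 S n j (n.n2 + n.Ux + S.h + 3) y0 := ⟨by omega, le_rfl, by omega, by omega,
      by omega, fun hs => hF hs⟩
    obtain ⟨g1, g2, g3, g4⟩ := sums_P2S4B (e := e) hm hA hb hN f5
    have hmin : min (n.n2 + n.Ux + S.h + 3) y0 = y0 := by omega
    have hmax : max (n.n2 + n.Ux + S.h + 3) y0 = n.n2 + n.Ux + S.h + 3 := by omega
    refine ⟨n.n2 + n.Ux + S.h + 3, y0, ok4 hm hA hN (q4_C hm hA hN hq ?_)
      (v4_T hR hm hA g2 ?_ ?_) ?_⟩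
    · rw [← hy0, if_neg (by omega), Nat.add_zero]
    · rw [g1, hmin, hmax]
      unfold lam
      split_ifs <;> omega
    · rw [g1]
      omega
    · omega
  · by_cases he : n.n2 + j + S.rk 1 + 1 = n.nT + (n.n2 + j + S.Q + 2) + dZ n.sp e
    · have hN : Num4 S n j (n.n2 + n.Ux + S.h + 2) (n.n2 + n.Ux + S.h + 3) :=
        ⟨by omega, by omega, by omega, le_rfl, by omega, fun _ => by omega⟩
      obtain ⟨g1, g2, g3, g4⟩ := sums_P2S4B (e := e) hm hA hb hN f5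
      refine ⟨n.n2 + n.Ux + S.h + 2, n.n2 + n.Ux + S.h + 3, ok4 hm hA hN
        (q4_T hR hm hA hN (by omega) (Or.inl rfl)) (v4_T hR hm hA g2 ?_ ?_) ?_⟩
      · rw [g1, l0_P2S4B (by omega) (by omega)]
        omega
      · rw [g1]
        omega
      · omega
    · have hN : Num4 S n j (n.n2 + n.Ux + S.h + 3) (n.n2 + n.Ux + S.h + 2) :=
        ⟨by omega, le_rfl, by omega, by omega, by omega, fun _ => by omega⟩
      obtain ⟨g1, g2, g3, g4⟩ := sums_P2S4B (e := e) hm hA hb hN f5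
      refine ⟨n.n2 + n.Ux + S.h + 3, n.n2 + n.Ux + S.h + 2, ok4 hm hA hN
        (q4_T hR hm hA hN (by omega) (Or.inr ⟨rfl, rfl⟩)) (v4_T hR hm hA g2 ?_ ?_) ?_⟩
      · rw [g1, l0_P2S4B (by omega) (by omega)]
        omega
      · rw [g1]
        omega
      · omega

end Pool.Agent.Lob5
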