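import Pool.Agent.Lob5.P2S2A
import Pool.Agent.Lob5.P2StrB

/-!
# The selection for the mode 5 (`sp = 1`): tools

Notation: `a = n2+j`, `b = a+P`, `N = n2+Ux`, `G = N+P+1` (position of the edge `q+1`), `w = N+h+3`, `W0 = w+nT+h`, `t = W0+a+1`
(sums relative to `w+N0`), `d = 0`, `σ = lam (min z y) (max z y)` for `resLay S n j z y`. The sum at the special vertex is
`1 + σ G + y` (`q` even, bad, `rk q = 1`; `rk (q+1) = P+1`).

All lemmas are applications of `von_A, von_B, von_C, von_T, von_H` (`P2Gen`, `P2StrB`, `P2GenB`) to `gl_res` or `gl_lg`; models: the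
proofs of `mk2_A, mk2_C, mk2_H, qok2, vq2` in `P2S2A.lean`. `XU`: `(resLay ..).X (Ux-j) = lam .. (N+P)`.
* `q5_C`, `v5_C`: `p0 = N+P+cutG r+1`; with the second reserved label `u` (`z` or `y`), label `s = p0 + [u ≤ p0]`: a position `N+o` with
  `o ≤ P+cutG r` (`≤ p0-1`) has a label `< s`, with `o > P+cutG r` (`≥ p0`) a label `> s`; `S.cutG_lt, S.cutG_gt, S.cutG_le`; `N+P ≤ p0-1`.
* `q5_B`: `y = a+cutB r+1 ≤ b+1 < z`; a position `a+o` with `o ≤ cutB r` has a label `< y`, with `o > cutB r` a label `> y`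
  (`o ≤ P`); `y < σ (b+1)`; `S.cutB_lt, S.cutB_gt, S.cutB_le`.
* `q5_X`: `z = G+1`, `y = G`, `σ G = G+2`, `v = nT+Q+1+z`: `von_C` for the label `z` at the rank `Q+1`: good odd edges have labels `σ (N+o) ≥ G+2`
  (`o ≥ P+1`).
-/

namespace Pool.Agent.Lob5

variable {k : ℕ} {ld al : ℕ → Prop}

/-- one reserved label `z`, the special vertex belongs to the greedy group -/
def lgLay (S : Seam k ld al) (n : Num) (j z : ℕ) : FLay where
  j := j
  U := n.Ux - j + 1
  z := z
  y := 0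
  xs := 0
  xsf := false
  lg := true
  p := fun e => if e % 2 = 1 then
      sk z (n.n2 + j + S.rk e + (if S.rk e ≤ S.P then 0 else n.Ux - j + 1))
    else wz S n.up + n.N0 + S.rk e + (if S.Q < S.rk e then n.nT else 0)
  X := fun i => sk z (n.n2 + j + S.P + i)

/-- the layers for the mode 5 -/
inductive Fam5 (S : Seam k ld al) (n : Num) (j : ℕ) : FLay → Prop
  | P : Fam5 S n j (funP S n j)
  | R (z y : ℕ) : Fam5 S n j (resLay S n j z y)
  | G (z : ℕ) : Fam5 S n j (lgLay S n j z)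

/-- the numerical conditions on `z`, `y` -/
structure Num5 (S : Seam k ld al) (n : Num) (j z y : ℕ) : Prop where
  za : n.n2 + j < z
  zw : z ≤ n.n2 + n.Ux + S.h + 3
  ya : n.n2 + j < y
  yw : y ≤ n.n2 + n.Ux + S.h + 3
  zy : z ≠ y
  mx : n.n2 + j + S.P + 2 ≤ max z y

section

variable {S : Seam k ld al} {n : Num} {e j z y : ℕ}

private theorem lam_le2_P2S5A (u v r : ℕ) : r ≤ lam u v r ∧ lam u v r ≤ r + 2 := by
  unfold lam
  constructor <;> split_ifs <;> omega

private theorem lam_sh_P2S5A (u v : ℕ) {i i' : ℕ} (h : i ≤ i') :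
    lam u v i + i' ≤ lam u v i' + i := by
  unfold lam
  split_ifs <;> omega

private theorem nu_P2S5A {z y : ℕ} (h : z ≠ y) (r : ℕ) :
    lam (min z y) (max z y) r ≠ z ∧ lam (min z y) (max z y) r ≠ y := by
  unfold lam
  rcases Nat.lt_or_ge z y with c | c
  · rw [min_eq_left c.le, max_eq_right c.le]
    split_ifs <;> omega
  · have c' : y < z := by omega
    rw [min_eq_right c'.le, max_eq_left c'.le]
    split_ifs <;> omega

/-- the sum at the vertex `k` -/
private theorem vk_P2S5A (S : Seam k ld al) (n : Num) (e j z y x : ℕ) (hs : n.sp = 1)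
    (hx : (resLay S n j z y).p 1 = lam (min z y) (max z y) x) :
    (resLay S n j z y).vk S n e =
      wz S n.up + n.N0 + lam (min z y) (max z y) x + z := by
  have h1 := vk2 S n e j z y x hx
  have h2 : dZ n.sp e = 0 := by
    unfold dZ
    rw [if_neg (by omega)]
  omega

private theorem good_P2S5A (S : Seam k ld al) {i : ℕ} (h1 : 1 ≤ i) (h2 : i < k) (h3 : ¬ ld i)
    (hb : ¬ S.bad i) : (S.P + 1 ≤ S.rk (oe i) ∧ S.rk (oe i) ≤ S.h + 1) ∧
      S.Q + 1 ≤ S.rk (ee i) := by
  obtain ⟨ho, hbi⟩ := S.same' h1 h2 h3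
  have o1 : 1 ≤ oe i ∧ oe i ≤ k := by
    unfold oe
    split_ifs <;> omega
  have e1 : 1 ≤ ee i ∧ ee i ≤ k := by
    unfold ee
    split_ifs <;> omega
  have hc : ¬ S.bad (oe i) := fun h => hb (hbi.1 h)
  exact ⟨S.rk_og _ o1.1 o1.2 oe_odd hc,
    (S.rk_eg _ e1.1 e1.2 ee_even (fun h => hc (ho.2 h))).1⟩

private theorem badi_P2S5A (S : Seam k ld al) {i : ℕ} (h1 : 1 ≤ i) (h2 : i < k) (h3 : ¬ ld i)
    (hb : S.bad i) : 1 ≤ S.rk (oe i) ∧ S.rk (oe i) ≤ S.P := by
  obtain ⟨ho, hbi⟩ := S.same' h1 h2 h3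
  have o1 : 1 ≤ oe i ∧ oe i ≤ k := by
    unfold oe
    split_ifs <;> omega
  exact S.rk_ob _ o1.1 o1.2 oe_odd (hbi.2 hb)

/-- position of the odd edge at a good vertex -/
private theorem pog_P2S5A (hA : Adm S n j) {i : ℕ} (h1 : 1 ≤ i) (h2 : i < k) (h3 : ¬ ld i)
    (hb : ¬ S.bad i) : (resLay S n j z y).p (oe i) =
      lam (min z y) (max z y) (n.n2 + n.Ux + S.rk (oe i)) :=
  pg_res S n j z y hA oe_odd (by
    have := (good_P2S5A S h1 h2 h3 hb).1.1
    omega)

/-- position of the odd edge at a bad vertex -/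
private theorem pob_P2S5A {i : ℕ} (h1 : 1 ≤ i) (h2 : i < k) (h3 : ¬ ld i)
    (hb : S.bad i) : (resLay S n j z y).p (oe i) =
      lam (min z y) (max z y) (n.n2 + j + S.rk (oe i)) :=
  pb_res S n j z y oe_odd (by
    have := (badi_P2S5A S h1 h2 h3 hb).2
    omega)

/-- the label before the good odd edges -/
private theorem XU_P2S5A (hA : Adm S n j) : (resLay S n j z y).X (resLay S n j z y).U =
      lam (min z y) (max z y) (n.n2 + n.Ux + S.P) := by
  have hj := jU_res hA
  change lam (min z y) (max z y) (n.n2 + j + S.P + (n.Ux - j)) = _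
  congr 1
  omega

/-- the zip at an even rank -/
private theorem zip_P2S5A (hs : n.sp = 1) (hA : Adm S n j) (v s u r : ℕ)
    (hr : S.Q + 1 ≤ r) (hr' : r ≤ S.h) (hv : v = wz S n.up + n.N0 + n.nT + r + s)
    (hsw : s ≤ wz S n.up) (hzy : z ≠ y)
    (hsu : (s = z ∧ u = y) ∨ (s = y ∧ u = z))
    (hss : s = n.n2 + n.Ux + S.P + S.cutG r + 1 +
      (if u ≤ n.n2 + n.Ux + S.P + S.cutG r + 1 then 1 else 0)) :
    VOKn S n (resLay S n j z y) v := by
  have hs0 : n.sp ≠ 0 := by omega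
  have hj := jU_res hA
  have hG := gl_res S n hs0 j z y hA
  have hXU := XU_P2S5A (z := z) (y := y) hA
  have lo : ∀ x, x ≤ n.n2 + n.Ux + S.P + S.cutG r →
      lam (min z y) (max z y) x < s := by
    intro x hx
    unfold lam
    rcases hsu with ⟨h1, h2⟩ | ⟨h1, h2⟩
    · subst h1 h2
      split_ifs at hss <;> split_ifs <;> omega
    · subst h1 h2
      split_ifs at hss <;> split_ifs <;> omega
  have hi : ∀ x, n.n2 + n.Ux + S.P + S.cutG r < x →
      s < lam (min z y) (max z y) x := by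
    intro x hx
    unfold lam
    rcases hsu with ⟨h1, h2⟩ | ⟨h1, h2⟩
    · subst h1 h2
      split_ifs at hss <;> split_ifs <;> omega
    · subst h1 h2
      split_ifs at hss <;> split_ifs <;> omega
  refine von_C S n hG v s r hr (by omega) hv hsw ?_ ?_ ?_ ?_ ?_
  · change lam (min z y) (max z y) (n.n2 + j + S.P) < s
    exact lo _ (by omega)
  · intro _
    rw [hXU]
    exact lo _ (by omega)
  · intro f _ _ hf
    change (if f % 2 = 1 then _ else _) ≠ s
    rw [if_pos hf]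
    rcases hsu with ⟨h1, _⟩ | ⟨h1, _⟩
    · rw [h1]
      exact (nu_P2S5A hzy _).1
    · rw [h1]
      exact (nu_P2S5A hzy _).2
  · intro i i1 i2 i3 i4 i5
    rw [pog_P2S5A hA i1 i2 i3 i4]
    have h4 := S.cutG_lt r hr hr' i i1 i2 i3 i4 i5
    exact lo _ (by omega)
  · intro i i1 i2 i3 i4 i5
    rw [pog_P2S5A hA i1 i2 i3 i4]
    have h4 := S.cutG_gt r hr hr' i i1 i2 i3 i4 i5
    exact hi _ (by omega)

/-- the sum at the special vertex -/
theorem vq5 (hm : S.mode = 5) (hs : n.sp = 1) (hA : Adm S n j) :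
    (resLay S n j z y).bs S.q + y = wz S n.up + n.N0 + 1 +
      lam (min z y) (max z y) (n.n2 + n.Ux + S.P + 1) + y := by
  obtain ⟨_, h2, h3, h4, h5⟩ := S.m5 hm
  have hs0 : n.sp ≠ 0 := by omega
  have hG := gl_res S n hs0 j z y hA
  have h6 : (resLay S n j z y).bs S.q =
    (resLay S n j z y).p S.q + (resLay S n j z y).p (S.q + 1) := rfl
  have h7 := hG.peven S.q h3
  have h8 := pg_res S n j z y hA (e := S.q + 1) (by omega) (by omega)
  have hqk : S.q < k := S.hq
  have hq1 : 1 ≤ S.q := S.ld_pos _ (S.al_ld _ (S.m5 hm).1)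
  have hQ := S.rk_eb S.q hq1 (by omega) h3 h2
  have h9 : n.n2 + n.Ux + S.rk (S.q + 1) = n.n2 + n.Ux + S.P + 1 := by omega
  rw [h9] at h8
  rw [h6, h7, h8, h4, if_neg (by omega)]

/-- everything from the facts about the two sums -/
theorem ok5 (hm : S.mode = 5) (hs : n.sp = 1) (hA : Adm S n j) (hN : Num5 S n j z y)
    (hq : VOKn S n (resLay S n j z y) ((resLay S n j z y).bs S.q + y))
    (hv : VOKn S n (resLay S n j z y) ((resLay S n j z y).vk S n e))
    (ne : (resLay S n j z y).bs S.q + y ≠ (resLay S n j z y).vk S n e) :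
    P2OK S n e (resLay S n j z y) false := by
  have hs0 : n.sp ≠ 0 := by omega
  have hw := wz_res S n hs0
  exact ok_res S n e j z y hs0 hA (by omega) hN.za (by rw [hw]; exact hN.zw) hN.ya
    (by rw [hw]; exact hN.yw) hN.zy
    (dab_res S n hs0 j z y hA (by omega) hN.mx (Or.inr (Or.inr (Or.inl hm))))
    (fun h => absurd h (by omega)) hq hv ne

/-- special vertex: the bad zone -/
theorem q5_B (hm : S.mode = 5) (hs : n.sp = 1) (hA : Adm S n j) (hN : Num5 S n j z y) {r : ℕ}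
    (hr1 : 1 ≤ r) (hr : r ≤ S.Q)
    (h1 : lam (min z y) (max z y) (n.n2 + n.Ux + S.P + 1) + 1 = r)
    (hy : y = n.n2 + j + S.cutB r + 1) (hz : n.n2 + j + S.P + 1 < z) :
    VOKn S n (resLay S n j z y) ((resLay S n j z y).bs S.q + y) := by
  have hs0 : n.sp ≠ 0 := by omega
  have hw := wz_res S n hs0
  have hj := jU_res hA
  have hG := gl_res S n hs0 j z y hA
  have hvq := vq5 (z := z) (y := y) hm hs hA
  have hyw := hN.yw
  have hcB := S.cutB_le r
  have hmin : min z y = y := min_eq_right (by omega)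
  have hmax : max z y = z := max_eq_left (by omega)
  refine von_B S n hG _ y r hr (by omega) (by omega) ?_ ?_ ?_ ?_
  · change y < lam (min z y) (max z y) (n.n2 + j + S.P + 1)
    rw [hmin, hmax]
    unfold lam
    split_ifs <;> omega
  · intro f _ _ hf
    change (if f % 2 = 1 then _ else _) ≠ y
    rw [if_pos hf]
    exact (nu_P2S5A hN.zy _).2
  · intro i i1 i2 i3 i4 i5
    rw [pob_P2S5A i1 i2 i3 i4, hmin, hmax]
    have h4 := S.cutB_lt r hr1 hr i i1 i2 i3 i4 i5
    have h5 := badi_P2S5A S i1 i2 i3 i4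
    unfold lam
    split_ifs <;> omega
  · intro i i1 i2 i3 i4 i5
    rw [pob_P2S5A i1 i2 i3 i4, hmin, hmax]
    have h4 := S.cutB_gt r hr1 hr i i1 i2 i3 i4 i5
    unfold lam
    split_ifs <;> omega

/-- special vertex: zipped at the even rank `r` -/
theorem q5_C (hm : S.mode = 5) (hs : n.sp = 1) (hA : Adm S n j) (hN : Num5 S n j z y) {r : ℕ}
    (hr : S.Q + 1 ≤ r) (hr' : r ≤ S.h)
    (h1 : lam (min z y) (max z y) (n.n2 + n.Ux + S.P + 1) + 1 = n.nT + r)
    (hy : y = n.n2 + n.Ux + S.P + S.cutG r + 1 +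
      (if z ≤ n.n2 + n.Ux + S.P + S.cutG r + 1 then 1 else 0)) :
    VOKn S n (resLay S n j z y) ((resLay S n j z y).bs S.q + y) := by
  have hs0 : n.sp ≠ 0 := by omega
  have hw := wz_res S n hs0
  have hvq := vq5 (z := z) (y := y) hm hs hA
  have hyw := hN.yw
  exact zip_P2S5A hs hA _ y z r hr hr' (by omega) (by omega) hN.zy (Or.inr ⟨rfl, rfl⟩) hy

/-- special vertex: the exceptional case -/
theorem q5_X (hm : S.mode = 5) (hs : n.sp = 1) (hA : Adm S n j) (hN : Num5 S n j z y)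
    (hz : z = n.n2 + n.Ux + S.P + 2) (hy : y = n.n2 + n.Ux + S.P + 1)
    (h1 : n.n2 + n.Ux + S.P + 2 = n.nT + S.Q) (hQ : S.Q + 1 ≤ S.h) :
    VOKn S n (resLay S n j z y) ((resLay S n j z y).bs S.q + y) := by
  have hs0 : n.sp ≠ 0 := by omega
  have hw := wz_res S n hs0
  have hj := jU_res hA
  have hG := gl_res S n hs0 j z y hA
  have hXU := XU_P2S5A (z := z) (y := y) hA
  have hvq := vq5 (z := z) (y := y) hm hs hA
  have hzw := hN.zw
  have hmin : min z y = y := min_eq_right (by omega)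
  have hmax : max z y = z := max_eq_left (by omega)
  have hσ : lam (min z y) (max z y) (n.n2 + n.Ux + S.P + 1) = n.n2 + n.Ux + S.P + 3 := by
    rw [hmin, hmax]
    unfold lam
    split_ifs <;> omega
  refine von_C S n hG _ z (S.Q + 1) le_rfl (by omega) (by omega) (by omega) ?_ ?_ ?_ ?_ ?_
  · change lam (min z y) (max z y) (n.n2 + j + S.P) < z
    rw [hmin, hmax]
    unfold lam
    split_ifs <;> omega
  · intro _
    rw [hXU, hmin, hmax]
    unfold lam
    split_ifs <;> omega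
  · intro f _ _ hf
    change (if f % 2 = 1 then _ else _) ≠ z
    rw [if_pos hf]
    exact (nu_P2S5A hN.zy _).1
  · intro i i1 i2 i3 i4 i5
    have h4 := (good_P2S5A S i1 i2 i3 i4).2
    omega
  · intro i i1 i2 i3 i4 i5
    rw [pog_P2S5A hA i1 i2 i3 i4, hmin, hmax]
    have h4 := (good_P2S5A S i1 i2 i3 i4).1.1
    unfold lam
    split_ifs <;> omega

/-- special vertex: above all sums -/
theorem q5_T (hR : SeamR S) (hm : S.mode = 5) (hs : n.sp = 1) (hA : Adm S n j)
    (h1 : n.n2 + n.Ux + S.h + 3 + n.nT + S.h <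
      lam (min z y) (max z y) (n.n2 + n.Ux + S.P + 1) + 1 + y)
    (h2 : lam (min z y) (max z y) (n.n2 + n.Ux + S.P + 1) + 1 + y ≤
      n.n2 + n.Ux + S.h + 3 + n.nT + S.h + (n.n2 + j) + 1) :
    VOKn S n (resLay S n j z y) ((resLay S n j z y).bs S.q + y) := by
  have hs0 : n.sp ≠ 0 := by omega
  have hw := wz_res S n hs0
  have hmz : mz S n.up = wz S n.up + n.N0 + n.nT + S.h := rfl
  have hG := gl_res S n hs0 j z y hA
  have hvq := vq5 (z := z) (y := y) hm hs hA
  have hP := hR.Ph1 (by omega)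
  have hQh := hR.Qh1 (by omega)
  refine von_T S n hG _ (fun _ => by omega) (by omega) ?_
  change _ ≤ wz S n.up + mz S n.up + n.n2 + j + 1
  omega

/-- vertex `k`: class A -/
theorem v5_A (hs : n.sp = 1) (hA : Adm S n j) {x : ℕ}
    (hx : (resLay S n j z y).p 1 = lam (min z y) (max z y) x)
    (h1 : lam (min z y) (max z y) (n.n2 + j + S.P) + S.Q < lam (min z y) (max z y) x + z)
    (h2 : lam (min z y) (max z y) x + z ≤
      S.Q + lam (min z y) (max z y) (n.n2 + j + S.P + 1))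
    (h3 : lam (min z y) (max z y) x + z ≤ n.n2 + n.Ux + S.h + 3 + S.Q + 1) :
    VOKn S n (resLay S n j z y) ((resLay S n j z y).vk S n e) := by
  have hs0 : n.sp ≠ 0 := by omega
  have hw := wz_res S n hs0
  have hG := gl_res S n hs0 j z y hA
  have hv := vk_P2S5A S n e j z y x hs hx
  refine von_A S n hG _ ?_ ?_ ?_
  · change wz S n.up + n.N0 + lam (min z y) (max z y) (n.n2 + j + S.P) + S.Q < _
    omega
  · change _ < wz S n.up + n.N0 + S.Q + 1 + lam (min z y) (max z y) (n.n2 + j + S.P + 1)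
    omega
  · omega

/-- vertex `k`: zipped at the even rank `r` -/
theorem v5_C (hs : n.sp = 1) (hA : Adm S n j) (hN : Num5 S n j z y) {x r : ℕ}
    (hx : (resLay S n j z y).p 1 = lam (min z y) (max z y) x)
    (hr : S.Q + 1 ≤ r) (hr' : r ≤ S.h) (h1 : lam (min z y) (max z y) x = n.nT + r)
    (hz : z = n.n2 + n.Ux + S.P + S.cutG r + 1 +
      (if y ≤ n.n2 + n.Ux + S.P + S.cutG r + 1 then 1 else 0)) :
    VOKn S n (resLay S n j z y) ((resLay S n j z y).vk S n e) := by
  have hs0 : n.sp ≠ 0 := by omega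
  have hw := wz_res S n hs0
  have hv := vk_P2S5A S n e j z y x hs hx
  have hzw := hN.zw
  exact zip_P2S5A hs hA _ z y r hr hr' (by omega) (by omega) hN.zy (Or.inl ⟨rfl, rfl⟩) hz

/-- vertex `k`: above all sums -/
theorem v5_T (hR : SeamR S) (hm : 1 ≤ S.mode) (hs : n.sp = 1) (hA : Adm S n j) {x : ℕ}
    (hx : (resLay S n j z y).p 1 = lam (min z y) (max z y) x)
    (h1 : n.n2 + n.Ux + S.h + 3 + n.nT + S.h < lam (min z y) (max z y) x + z)
    (h2 : lam (min z y) (max z y) x + z ≤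
      n.n2 + n.Ux + S.h + 3 + n.nT + S.h + (n.n2 + j) + 1) :
    VOKn S n (resLay S n j z y) ((resLay S n j z y).vk S n e) := by
  have hs0 : n.sp ≠ 0 := by omega
  have hw := wz_res S n hs0
  have hmz : mz S n.up = wz S n.up + n.N0 + n.nT + S.h := rfl
  have hG := gl_res S n hs0 j z y hA
  have hv := vk_P2S5A S n e j z y x hs hx
  have hP := hR.Ph1 hm
  have hQh := hR.Qh1 hm
  refine von_T S n hG _ (fun _ => by omega) (by omega) ?_
  change _ ≤ wz S n.up + mz S n.up + n.n2 + j + 1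
  omega

/-- vertex `k`: the hole at the vertex `0`, edge `1` good: `z = nT + R` -/
theorem v5_H (hm : 1 ≤ S.mode) (hs : n.sp = 1) (hA : Adm S n j) (hb : ¬ S.bad 1) {R : ℕ}
    (hH : HoleG S R) (hz : z = n.nT + R) :
    VOKn S n (resLay S n j z y) ((resLay S n j z y).vk S n e) := by
  have hs0 : n.sp ≠ 0 := by omega
  have hw := wz_res S n hs0
  have hG := gl_res S n hs0 j z y hA
  have hXU := XU_P2S5A (z := z) (y := y) hA
  have hx := p1g2 (z := z) (y := y) hA hb
  have hv := vk_P2S5A S n e j z y _ hs hx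
  have hk := S.hk
  have hr1 := S.rk_og 1 le_rfl (by omega) (by omega) hb
  have hE := hH.E0 hm
  have hRh := hH.Rh
  have h4 := lam_sh_P2S5A (min z y) (max z y)
    (show n.n2 + n.Ux + S.P ≤ n.n2 + n.Ux + S.rk 1 by omega)
  refine von_H S n hG _ R hH.toHole0 hb (by omega) ?_
  intro _
  rw [hXU, hx]
  omega

end

end Pool.Agent.Lob5
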