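import Pool.Agent.Lob5.P2S5L

/-!
# The selection for the mode 5 (`sp = 1`), edge `1` bad

Notation of `P2S5A`; `v = N+P+2 = G+1`, `ρ = rk 1`, `1 ≤ ρ ≤ P`, `x = a+ρ`, `p 1 = σ x` (`p1b2`), the sum at the vertex `k` is `V' = σ x + z` (`vk2`, `dZ 1 e = 0`),
at the special vertex `V_q = 1 + σ G + y` (`vq5`). Facts: `N ≥ nT+a` (`hA.jU`), `3 ≤ P`, `P+1 ≤ h` (`h5`), `Q+1 ≤ h`, `P+Q+2 ≤ ρ+h` (`b45`).
All conditions: `unfold lam; split_ifs <;> omega`.

`sel5_bA1`: `v+1 ≤ Q`: `y = a+cutB (v+1)+1 (≤ b+1)`, `z = b+Q+2-(x+[y ≤ x])` (`≥ Q+1 ≥ N+P+4`, `≤ h`): `σ G = G+1`, `V_q = v+1+y` (`q5_B`, rank `v+1`);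
  `V' = b+Q+2` (`v5_A`: `σ b ≤ b+1`, `σ (b+1) = b+2`).
`sel5_bA2`: `x ≤ Q ≤ v`: `z = P+Q+1-ρ` (`= b+Q+1-x ≥ b+1`, `≤ h-1`), `σ x = x`, `V' = b+Q+1`. Then `y`:
* `Q+1 ≤ v+1+[z ≤ v] ≤ Q+nT+1`: `lgLay S n j z`, `ok5_lg`, `v5_lgA`. Otherwise `v+1+[z ≤ v] > Q+nT+1` and `resLay S n j z y`, `v5_A` (`σ b = b`,
  `σ (b+1) ≥ b+1`). `s = [z ≤ G]`, `vv = v+s`:
* `vv ≤ nT+Q` (so `z = v = nT+Q`): `y = G`, `q5_X`.
* `nT+Q < vv ≤ nT+h`: `r = vv-nT`, `p = N+P+cutG r+1 (≥ v: S.cutG_one)`, `y = p+[z ≤ p]`: `σ G = G+s`, `q5_C`. `V_q ≥ Q+1+v+1 > V'`.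
* `vv > nT+h`: then `z ≤ G` (`Q ≤ N+ρ` by `b45` and `v+1 > nT+h`), `s = 1`. `Y = 2h+1+nT+a-P` (`= t-v-1`): `Y ≥ w`: `y = w`; `v+1 ≤ Y < w`: `y = Y`; `Y ≤ v`:
  `y = Y-1` (`≤ G`, `σ G = G+2`). `y ≥ Y-1 ≥ b+2`, `y > z`. `q5_T` (`V_q = t` or `v+1+w`).
`sel5_bC`: `Q+nT+2 ≤ x ≤ nT+h`: `r = x-nT`, `p = N+P+cutG r+1 (≥ v)`, `v ≥ x+2+nT`.
* `v ≤ nT+h`: `z = p`, `p' = N+P+cutG (v-nT)+1 ≥ p` (`S.cutG_mono`, induction), `y = p'+1`: `σ G = G`, `σ x = x`; `v5_C`, `q5_C` (rank `v-nT`), `V_q = v+y > V'`.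
* `v > nT+h`: `Y = 2h+2+nT+a-P` (`= t-v`): `Y ≥ w`: `y = w`; `v ≤ Y < w`: `y = Y`; `Y < v`: `y = Y-1` (`≤ G-1`, `σ G = G+1`). `z = p+[y ≤ p]`.
  `y > x`, `σ x = x`, `v5_C`, `q5_T`; `V' ≤ W0 < V_q`.
`sel5_bD`: `nT+h < x`: `z = w`; `Y = 2h+2+nT+a-P`: `Y ≥ w-1`: `y = w-1`; `v ≤ Y < w-1`: `y = Y`; `Y < v`: `y = Y-1`. `σ x = x` (`y > b ≥ x`), `V' = x+w ≤ a+P+w < t`
  (`v5_T`); `V_q = t` or `v+w-1 ≥ x+2+w-1 > V'` (`q5_T`).
-/

namespace Pool.Agent.Lob5

variable {k : ℕ} {ld al : ℕ → Prop} {S : Seam k ld al} {n : Num} {e j : ℕ}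

/-- the facts about the numbers -/
private theorem num_P2S5B (hR : SeamR S) (hT : SeamT S) (hm : S.mode = 5) (hA : Adm S n j)
    (hb : S.bad 1) : n.nT + j ≤ n.Ux ∧ 3 ≤ S.P ∧ S.P + 1 ≤ S.h ∧ S.Q + 1 ≤ S.h ∧
      S.P + S.Q + 2 ≤ S.rk 1 + S.h ∧ 1 ≤ S.rk 1 ∧ S.rk 1 ≤ S.P ∧ n.n2 ≤ n.nT := by
  have hk := S.hk
  have h1 := S.rk_ob 1 le_rfl (by omega) (by omega) hb
  exact ⟨jU_res hA, hR.P3 (by omega), hT.h5 hm, hR.Qh1 (by omega), hT.b45 hb (Or.inr hm),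
    h1.1, h1.2, hA.n2T⟩

private theorem mk_P2S5B (hm : S.mode = 5) (hs : n.sp = 1) (hA : Adm S n j) (hb : S.bad 1)
    {z y : ℕ} (hN : Num5 S n j z y)
    (hq : VOKn S n (resLay S n j z y) ((resLay S n j z y).bs S.q + y))
    (hv : VOKn S n (resLay S n j z y) ((resLay S n j z y).vk S n e))
    (ne : lam (min z y) (max z y) (n.n2 + n.Ux + S.P + 1) + 1 + y ≠
      lam (min z y) (max z y) (n.n2 + j + S.rk 1) + z) :
    P2OK S n e (resLay S n j z y) false := by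
  refine ok5 hm hs hA hN hq hv ?_
  have h1 := vq5 (z := z) (y := y) hm hs hA
  have h2 := vk2 S n e j z y _ (p1b2 hb)
  have h3 : dZ n.sp e = 0 := by
    unfold dZ
    rw [if_neg (by omega)]
  omega

/-- both reserved labels are above -/
private theorem l0_P2S5B {z y r : ℕ} (h : z ≠ y) (h1 : r < z) (h2 : r < y) :
    lam (min z y) (max z y) r = r := by
  unfold lam
  rw [if_neg (by omega), if_neg (by omega)]
  omega

/-- one reserved label is above -/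
private theorem l1_P2S5B {z y r : ℕ} (h1 : min z y ≤ r) (h2 : r + 1 < max z y) :
    lam (min z y) (max z y) r = r + 1 := by
  unfold lam
  rw [if_pos h1, if_neg (by omega)]

/-- both reserved labels are below -/
private theorem l2_P2S5B {z y r : ℕ} (h : z ≠ y) (h2 : max z y ≤ r + 1) :
    lam (min z y) (max z y) r = r + 2 := by
  unfold lam
  rw [if_pos (by omega), if_pos h2]

private theorem le_P2S5B (u v r : ℕ) : r ≤ lam u v r := by
  unfold lam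
  omega

private theorem cutG_P2S5B (S : Seam k ld al) {r r' : ℕ} (h : r ≤ r') :
    S.cutG r ≤ S.cutG r' :=
  monotone_nat_of_le_succ S.cutG_mono h

theorem sel5_bA1 (hR : SeamR S) (hT : SeamT S) (hm : S.mode = 5) (hs : n.sp = 1)
    (hA : Adm S n j) (hb : S.bad 1) (h : n.n2 + n.Ux + S.P + 3 ≤ S.Q) :
    ∃ z y, P2OK S n e (resLay S n j z y) false := by
  obtain ⟨a1, a2, a3, a4, a5, a6, a7, a8⟩ := num_P2S5B hR hT hm hA hb
  have hc := S.cutB_le (n.n2 + n.Ux + S.P + 3)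
  obtain ⟨y, hy⟩ : ∃ y, y = n.n2 + j + S.cutB (n.n2 + n.Ux + S.P + 3) + 1 := ⟨_, rfl⟩
  obtain ⟨s, hsd⟩ : ∃ s, s = if y ≤ n.n2 + j + S.rk 1 then 1 else 0 := ⟨_, rfl⟩
  have hs1 : s ≤ 1 := by
    rw [hsd]
    split_ifs <;> omega
  obtain ⟨z, hz⟩ : ∃ z, z + (S.rk 1 + s) = S.P + S.Q + 2 := ⟨_, Nat.sub_add_cancel (by omega)⟩
  have hx : lam (min z y) (max z y) (n.n2 + j + S.rk 1) = n.n2 + j + S.rk 1 + s := by
    by_cases hc1 : y ≤ n.n2 + j + S.rk 1
    · rw [if_pos hc1] at hsd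
      rw [hsd]
      exact l1_P2S5B (by omega) (by omega)
    · rw [if_neg hc1] at hsd
      rw [hsd]
      exact l0_P2S5B (by omega) (by omega) (by omega)
  have hG : lam (min z y) (max z y) (n.n2 + n.Ux + S.P + 1) = n.n2 + n.Ux + S.P + 1 + 1 :=
    l1_P2S5B (by omega) (by omega)
  have hbb : lam (min z y) (max z y) (n.n2 + j + S.P) ≤ n.n2 + j + S.P + 1 := by
    unfold lam
    split_ifs <;> omega
  have hb1 : lam (min z y) (max z y) (n.n2 + j + S.P + 1) = n.n2 + j + S.P + 1 + 1 :=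
    l1_P2S5B (by omega) (by omega)
  have hN : Num5 S n j z y := ⟨by omega, by omega, by omega, by omega, by omega, by omega⟩
  refine ⟨z, y, mk_P2S5B hm hs hA hb hN
    (q5_B hm hs hA hN (r := n.n2 + n.Ux + S.P + 3) (by omega) h (by omega) hy (by omega))
    (v5_A hs hA (p1b2 hb) (by omega) (by omega) (by omega)) (by omega)⟩

theorem sel5_bA2 (hR : SeamR S) (hT : SeamT S) (hm : S.mode = 5) (hs : n.sp = 1)
    (hA : Adm S n j) (hb : S.bad 1) (h : S.Q < n.n2 + n.Ux + S.P + 3)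
    (h1 : n.n2 + j + S.rk 1 ≤ S.Q) :
    (∃ z y, P2OK S n e (resLay S n j z y) false) ∨ ∃ z, P2OK S n e (lgLay S n j z) false := by
  obtain ⟨a1, a2, a3, a4, a5, a6, a7, a8⟩ := num_P2S5B hR hT hm hA hb
  obtain ⟨z, hz⟩ : ∃ z, z + S.rk 1 = S.P + S.Q + 1 := ⟨_, Nat.sub_add_cancel (by omega)⟩
  by_cases hc : n.n2 + n.Ux + S.P + 3 + (if z ≤ n.n2 + n.Ux + S.P + 2 then 1 else 0) ≤
      S.Q + n.nT + 1
  · exact Or.inr ⟨z, ok5_lg hm hs hA (by omega) (by omega) (by split_ifs <;> omega) hc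
      (v5_lgA hs hA hb (by omega) h1 (by omega))⟩
  refine Or.inl ?_
  -- the conditions on `y`
  have key : ∀ y, n.n2 + j + S.P + 1 < y → y ≤ n.n2 + n.Ux + S.h + 3 → z ≠ y →
      VOKn S n (resLay S n j z y) ((resLay S n j z y).bs S.q + y) →
      n.n2 + j + S.P + S.Q + 1 <
        lam (min z y) (max z y) (n.n2 + n.Ux + S.P + 1) + 1 + y →
      P2OK S n e (resLay S n j z y) false := by
    intro y y1 y2 y3 hq y4
    have hx : lam (min z y) (max z y) (n.n2 + j + S.rk 1) = n.n2 + j + S.rk 1 :=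
      l0_P2S5B y3 (by omega) (by omega)
    have hbb : lam (min z y) (max z y) (n.n2 + j + S.P) = n.n2 + j + S.P :=
      l0_P2S5B y3 (by omega) (by omega)
    have hb1 := le_P2S5B (min z y) (max z y) (n.n2 + j + S.P + 1)
    have hN : Num5 S n j z y := ⟨by omega, by omega, by omega, by omega, by omega, by omega⟩
    exact mk_P2S5B hm hs hA hb hN hq
      (v5_A hs hA (p1b2 hb) (by omega) (by omega) (by omega)) (by omega)
  have hNy : ∀ y, n.n2 + j + S.P + 1 < y → y ≤ n.n2 + n.Ux + S.h + 3 → z ≠ y →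
      Num5 S n j z y := by
    intro y y1 y2 y3
    exact ⟨by omega, by omega, by omega, by omega, by omega, by omega⟩
  obtain ⟨s, hsd⟩ : ∃ s, s = if z ≤ n.n2 + n.Ux + S.P + 1 then 1 else 0 := ⟨_, rfl⟩
  have hs1 : s ≤ 1 := by
    rw [hsd]
    split_ifs <;> omega
  rcases Nat.lt_or_ge (n.nT + S.Q) (n.n2 + n.Ux + S.P + 2 + s) with hv | hv
  · rcases Nat.lt_or_ge (n.nT + S.h) (n.n2 + n.Ux + S.P + 2 + s) with hv' | hv'
    · -- above all sums
      have hzG : z ≤ n.n2 + n.Ux + S.P + 1 := by omega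
      rw [if_pos hzG] at hsd
      obtain ⟨Y, hY⟩ : ∃ Y, Y + S.P = 2 * S.h + 1 + n.nT + (n.n2 + j) :=
        ⟨_, Nat.sub_add_cancel (by omega)⟩
      rcases Nat.lt_or_ge Y (n.n2 + n.Ux + S.h + 3) with c | c
      · rcases Nat.lt_or_ge Y (n.n2 + n.Ux + S.P + 3) with c' | c'
        · have hG : lam (min z (Y - 1)) (max z (Y - 1)) (n.n2 + n.Ux + S.P + 1) =
              n.n2 + n.Ux + S.P + 1 + 2 := l2_P2S5B (by omega) (by omega)
          exact ⟨z, Y - 1, key _ (by omega) (by omega) (by omega)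
            (q5_T hR hm hs hA (by omega) (by omega)) (by omega)⟩
        · have hG : lam (min z Y) (max z Y) (n.n2 + n.Ux + S.P + 1) =
              n.n2 + n.Ux + S.P + 1 + 1 := l1_P2S5B (by omega) (by omega)
          exact ⟨z, Y, key _ (by omega) (by omega) (by omega)
            (q5_T hR hm hs hA (by omega) (by omega)) (by omega)⟩
      · have hG : lam (min z (n.n2 + n.Ux + S.h + 3)) (max z (n.n2 + n.Ux + S.h + 3))
            (n.n2 + n.Ux + S.P + 1) = n.n2 + n.Ux + S.P + 1 + 1 :=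
          l1_P2S5B (by omega) (by omega)
        exact ⟨z, n.n2 + n.Ux + S.h + 3, key _ (by omega) (by omega) (by omega)
          (q5_T hR hm hs hA (by omega) (by omega)) (by omega)⟩
    · -- zipped
      obtain ⟨r, hr⟩ : ∃ r, r + n.nT = n.n2 + n.Ux + S.P + 2 + s :=
        ⟨_, Nat.sub_add_cancel (by omega)⟩
      have hc1 := S.cutG_one hm r (by omega) (by omega)
      have hc2 := S.cutG_le r
      obtain ⟨y, hy⟩ : ∃ y, y = n.n2 + n.Ux + S.P + S.cutG r + 1 +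
        (if z ≤ n.n2 + n.Ux + S.P + S.cutG r + 1 then 1 else 0) := ⟨_, rfl⟩
      have hy' : (z ≤ n.n2 + n.Ux + S.P + S.cutG r + 1 ∧
          y = n.n2 + n.Ux + S.P + S.cutG r + 1 + 1) ∨
          (n.n2 + n.Ux + S.P + S.cutG r + 1 < z ∧ y = n.n2 + n.Ux + S.P + S.cutG r + 1) := by
        split_ifs at hy <;> omega
      have hG : lam (min z y) (max z y) (n.n2 + n.Ux + S.P + 1) =
          n.n2 + n.Ux + S.P + 1 + s := by
        by_cases hzG : z ≤ n.n2 + n.Ux + S.P + 1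
        · rw [if_pos hzG] at hsd
          rw [hsd]
          exact l1_P2S5B (by omega) (by omega)
        · rw [if_neg hzG] at hsd
          rw [hsd]
          exact l0_P2S5B (by omega) (by omega) (by omega)
      exact ⟨z, y, key y (by omega) (by omega) (by omega)
        (q5_C hm hs hA (hNy y (by omega) (by omega) (by omega)) (r := r) (by omega) (by omega)
          (by omega) hy) (by omega)⟩
  · -- the exceptional case
    have hz1 : z = n.n2 + n.Ux + S.P + 2 := by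
      split_ifs at hc hsd <;> omega
    have hG : lam (min z (n.n2 + n.Ux + S.P + 1)) (max z (n.n2 + n.Ux + S.P + 1))
        (n.n2 + n.Ux + S.P + 1) = n.n2 + n.Ux + S.P + 1 + 2 := l2_P2S5B (by omega) (by omega)
    have hN : Num5 S n j z (n.n2 + n.Ux + S.P + 1) :=
      ⟨by omega, by omega, by omega, by omega, by omega, by omega⟩
    have hx : lam (min z (n.n2 + n.Ux + S.P + 1)) (max z (n.n2 + n.Ux + S.P + 1))
        (n.n2 + j + S.rk 1) = n.n2 + j + S.rk 1 := l0_P2S5B (by omega) (by omega) (by omega)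
    have hbb : lam (min z (n.n2 + n.Ux + S.P + 1)) (max z (n.n2 + n.Ux + S.P + 1))
        (n.n2 + j + S.P) = n.n2 + j + S.P := l0_P2S5B (by omega) (by omega) (by omega)
    have hb1 := le_P2S5B (min z (n.n2 + n.Ux + S.P + 1)) (max z (n.n2 + n.Ux + S.P + 1))
      (n.n2 + j + S.P + 1)
    refine ⟨z, n.n2 + n.Ux + S.P + 1, mk_P2S5B hm hs hA hb hN
      (q5_X hm hs hA hN hz1 rfl ?_ a4)
      (v5_A hs hA (p1b2 hb) (by omega) (by omega) (by omega)) (by omega)⟩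
    split_ifs at hc hsd <;> omega

theorem sel5_bC (hR : SeamR S) (hT : SeamT S) (hm : S.mode = 5) (hs : n.sp = 1)
    (hA : Adm S n j) (hb : S.bad 1) (h1 : S.Q + n.nT + 1 < n.n2 + j + S.rk 1)
    (h2 : n.n2 + j + S.rk 1 ≤ n.nT + S.h) : ∃ z y, P2OK S n e (resLay S n j z y) false := by
  obtain ⟨a1, a2, a3, a4, a5, a6, a7, a8⟩ := num_P2S5B hR hT hm hA hb
  obtain ⟨r, hr⟩ : ∃ r, r + n.nT = n.n2 + j + S.rk 1 := ⟨_, Nat.sub_add_cancel (by omega)⟩
  have hc1 := S.cutG_one hm r (by omega) (by omega)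
  have hc2 := S.cutG_le r
  rcases Nat.lt_or_ge (n.nT + S.h) (n.n2 + n.Ux + S.P + 2) with hv | hv
  · obtain ⟨Y, hY⟩ : ∃ Y, Y + S.P = 2 * S.h + 2 + n.nT + (n.n2 + j) :=
      ⟨_, Nat.sub_add_cancel (by omega)⟩
    -- the conditions on `y`
    have key : ∀ y, n.n2 + j + S.P + 1 < y → y ≤ n.n2 + n.Ux + S.h + 3 →
        (∀ z, z ≠ y → n.n2 + n.Ux + S.P + 2 ≤ z →
          (y ≤ n.n2 + n.Ux + S.P + 1 → n.n2 + n.Ux + S.P + 3 ≤ z) →
          n.n2 + n.Ux + S.h + 3 + n.nT + S.h <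
            lam (min z y) (max z y) (n.n2 + n.Ux + S.P + 1) + 1 + y ∧
          lam (min z y) (max z y) (n.n2 + n.Ux + S.P + 1) + 1 + y ≤
            n.n2 + n.Ux + S.h + 3 + n.nT + S.h + (n.n2 + j) + 1) →
        ∃ z y, P2OK S n e (resLay S n j z y) false := by
      intro y y1 y2 hq
      obtain ⟨z, hz⟩ : ∃ z, z = n.n2 + n.Ux + S.P + S.cutG r + 1 +
        (if y ≤ n.n2 + n.Ux + S.P + S.cutG r + 1 then 1 else 0) := ⟨_, rfl⟩
      have hz' : (y ≤ n.n2 + n.Ux + S.P + S.cutG r + 1 ∧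
          z = n.n2 + n.Ux + S.P + S.cutG r + 1 + 1) ∨
          (n.n2 + n.Ux + S.P + S.cutG r + 1 < y ∧ z = n.n2 + n.Ux + S.P + S.cutG r + 1) := by
        split_ifs at hz <;> omega
      have hN : Num5 S n j z y := ⟨by omega, by omega, by omega, by omega, by omega, by omega⟩
      obtain ⟨q1, q2⟩ := hq z (by omega) (by omega) (by omega)
      have hx : lam (min z y) (max z y) (n.n2 + j + S.rk 1) = n.n2 + j + S.rk 1 :=
        l0_P2S5B (by omega) (by omega) (by omega)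
      exact ⟨z, y, mk_P2S5B hm hs hA hb hN (q5_T hR hm hs hA q1 q2)
        (v5_C hs hA hN (p1b2 hb) (r := r) (by omega) (by omega) (by omega) hz) (by omega)⟩
    rcases Nat.lt_or_ge Y (n.n2 + n.Ux + S.h + 3) with c | c
    · rcases Nat.lt_or_ge Y (n.n2 + n.Ux + S.P + 2) with c' | c'
      · refine key (Y - 1) (by omega) (by omega) fun z z1 z2 z3 => ?_
        rw [l1_P2S5B (z := z) (y := Y - 1) (r := n.n2 + n.Ux + S.P + 1) (by omega) (by omega)]
        constructor <;> omega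
      · refine key Y (by omega) (by omega) fun z z1 z2 z3 => ?_
        rw [l0_P2S5B (z := z) (y := Y) (r := n.n2 + n.Ux + S.P + 1) z1 (by omega) (by omega)]
        constructor <;> omega
    · refine key (n.n2 + n.Ux + S.h + 3) (by omega) (by omega) fun z z1 z2 z3 => ?_
      rw [l0_P2S5B (z := z) (y := n.n2 + n.Ux + S.h + 3) (r := n.n2 + n.Ux + S.P + 1) z1
        (by omega) (by omega)]
      constructor <;> omega
  · obtain ⟨r', hr'⟩ : ∃ r', r' + n.nT = n.n2 + n.Ux + S.P + 2 :=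
      ⟨_, Nat.sub_add_cancel (by omega)⟩
    have hc3 := cutG_P2S5B S (show r ≤ r' by omega)
    have hc4 := S.cutG_le r'
    obtain ⟨z, hz⟩ : ∃ z, z = n.n2 + n.Ux + S.P + S.cutG r + 1 := ⟨_, rfl⟩
    obtain ⟨y, hy⟩ : ∃ y, y = n.n2 + n.Ux + S.P + S.cutG r' + 1 + 1 := ⟨_, rfl⟩
    have hx : lam (min z y) (max z y) (n.n2 + j + S.rk 1) = n.n2 + j + S.rk 1 :=
      l0_P2S5B (by omega) (by omega) (by omega)
    have hG : lam (min z y) (max z y) (n.n2 + n.Ux + S.P + 1) = n.n2 + n.Ux + S.P + 1 :=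
      l0_P2S5B (by omega) (by omega) (by omega)
    have hN : Num5 S n j z y := ⟨by omega, by omega, by omega, by omega, by omega, by omega⟩
    exact ⟨z, y, mk_P2S5B hm hs hA hb hN
      (q5_C hm hs hA hN (r := r') (by omega) (by omega) (by omega) (by
        rw [if_pos (by omega)]
        exact hy))
      (v5_C hs hA hN (p1b2 hb) (r := r) (by omega) (by omega) (by omega) (by
        rw [if_neg (by omega)]
        exact hz)) (by omega)⟩

theorem sel5_bD (hR : SeamR S) (hT : SeamT S) (hm : S.mode = 5) (hs : n.sp = 1)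
    (hA : Adm S n j) (hb : S.bad 1) (h : n.nT + S.h < n.n2 + j + S.rk 1) :
    ∃ z y, P2OK S n e (resLay S n j z y) false := by
  obtain ⟨a1, a2, a3, a4, a5, a6, a7, a8⟩ := num_P2S5B hR hT hm hA hb
  obtain ⟨Y, hY⟩ : ∃ Y, Y + S.P = 2 * S.h + 2 + n.nT + (n.n2 + j) :=
    ⟨_, Nat.sub_add_cancel (by omega)⟩
  obtain ⟨z, hz⟩ : ∃ z, z = n.n2 + n.Ux + S.h + 3 := ⟨_, rfl⟩
  have key : ∀ y, n.n2 + j + S.P < y → y < z →
      n.n2 + n.Ux + S.h + 3 + n.nT + S.h <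
        lam (min z y) (max z y) (n.n2 + n.Ux + S.P + 1) + 1 + y →
      lam (min z y) (max z y) (n.n2 + n.Ux + S.P + 1) + 1 + y ≤
        n.n2 + n.Ux + S.h + 3 + n.nT + S.h + (n.n2 + j) + 1 →
      lam (min z y) (max z y) (n.n2 + n.Ux + S.P + 1) + 1 + y ≠ n.n2 + j + S.rk 1 + z →
      ∃ z y, P2OK S n e (resLay S n j z y) false := by
    intro y y1 y2 q1 q2 q3
    have hN : Num5 S n j z y := ⟨by omega, by omega, by omega, by omega, by omega, by omega⟩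
    have hx : lam (min z y) (max z y) (n.n2 + j + S.rk 1) = n.n2 + j + S.rk 1 :=
      l0_P2S5B (by omega) (by omega) (by omega)
    exact ⟨z, y, mk_P2S5B hm hs hA hb hN (q5_T hR hm hs hA q1 q2)
      (v5_T hR (by omega) hs hA (p1b2 hb) (by omega) (by omega)) (by omega)⟩
  rcases Nat.lt_or_ge Y (n.n2 + n.Ux + S.h + 2) with c | c
  · rcases Nat.lt_or_ge Y (n.n2 + n.Ux + S.P + 2) with c' | c'
    · have hG : lam (min z (Y - 1)) (max z (Y - 1)) (n.n2 + n.Ux + S.P + 1) =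
          n.n2 + n.Ux + S.P + 1 + 1 := l1_P2S5B (by omega) (by omega)
      exact key (Y - 1) (by omega) (by omega) (by omega) (by omega) (by omega)
    · have hG : lam (min z Y) (max z Y) (n.n2 + n.Ux + S.P + 1) =
          n.n2 + n.Ux + S.P + 1 := l0_P2S5B (by omega) (by omega) (by omega)
      exact key Y (by omega) (by omega) (by omega) (by omega) (by omega)
  · have hG : lam (min z (n.n2 + n.Ux + S.h + 2)) (max z (n.n2 + n.Ux + S.h + 2))
        (n.n2 + n.Ux + S.P + 1) = n.n2 + n.Ux + S.P + 1 :=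
      l0_P2S5B (by omega) (by omega) (by omega)
    exact key (n.n2 + n.Ux + S.h + 2) (by omega) (by omega) (by omega) (by omega) (by omega)

end Pool.Agent.Lob5
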