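import Pool.Agent.Lob5.P2S5A

/-!
# The selection for the mode 5 (`sp = 1`): layers with one reserved label, the special vertex in the greedy group

Notation of `P2S5A`, `σ = sk z`. `gl_lg`: `top`: `sk z (N+h+2) ≤ N+h+3` (`wz_res`). Positions: bad odd edge `a+rk`, good odd edge `N+1+rk`,
`X i`: `b+i`, `X U` = position `N+P+1` (`U = Ux-j+1`).
* `ok5_lg`: `FLow` by `flow_GL`; `FMod`: `y_ok, V_.., xs_ok, F3, Fx` are void (`lg = true`, `xsf = false`, `sp = 1`), `lg_ok`: `bs q = w+N0+1+sk z (N+P+2)`;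
  `FDab` by `dab_GL` (`hb`: one reserved label); `U_eq`: `Ux-j+1+j = Ux+1`; `ok_res` in `P2Res.lean` is the model.
* `v5_lgA`: `von_A`: `p 1 = sk z (a+ρ) = a+ρ` (`z ≥ b+1`), `V' = b+Q+1`, `σ b = b`, `X 1 = sk z (b+1) ≥ b+1`.
* `v5_lgH`: `von_H`, `hg` by `E0`: `sk z (N+P+1) + Q + 1 < sk z (N+1+ρ) + R`.
-/

namespace Pool.Agent.Lob5

variable {k : ℕ} {ld al : ℕ → Prop} {S : Seam k ld al} {n : Num} {e j z : ℕ}

theorem gl_lg (S : Seam k ld al) (n : Num) (hs : n.sp = 1) (j z : ℕ) (hA : Adm S n j) :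
    GLy S n (lgLay S n j z) (sk z) where
  mono := sk_mono z
  top := by
    have h1 := jU_res hA
    have h2 := wz_res S n (by omega)
    change sk z (n.n2 + j + (n.Ux - j + 1) + S.h + 1) ≤ wz S n.up
    have := sk_le z (n.n2 + j + (n.Ux - j + 1) + S.h + 1)
    omega
  U_ge := by
    have h1 := jU_res hA
    change n.nT ≤ n.Ux - j + 1
    omega
  podd e he := by
    change (if e % 2 = 1 then _ else _) = _
    rw [if_pos he]
    rfl
  peven e he := by
    change (if e % 2 = 1 then _ else _) = _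
    rw [if_neg (by omega)]
  X i := rfl

private theorem flow_P2S5L (S : Seam k ld al) (n : Num) (hs : n.sp = 1) (j z : ℕ)
    (hA : Adm S n j) : FLow S n (lgLay S n j z) := by
  refine flow_GL S n (gl_lg S n hs j z hA) fun t _ _ => ?_
  change sk z (n.n2 + j + S.P + t) ≤ n.n2 + j + S.P + t + 2
  have := sk_le z (n.n2 + j + S.P + t)
  omega

private theorem dab_P2S5L (S : Seam k ld al) (n : Num) (hm : S.mode = 5) (hs : n.sp = 1)
    (j z : ℕ) (hA : Adm S n j) : FDab S n (lgLay S n j z) := by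
  have hw := wz_res S n (by omega)
  have hj := jU_res hA
  refine dab_GL S n (gl_lg S n hs j z hA) (fun _ => by omega) ?_ ?_
  · change wz S n.up ≤ n.n2 + j + (n.Ux - j + 1) + S.h + 1 + 2 + _
    omega
  · intro r r' h3 h4 h5 h6
    change sk z (n.n2 + j + r) + r' + _ ≤ sk z (n.n2 + j + r') + r + _
    rw [if_neg (by omega : ¬ (n.sp = 0 ∧ S.mode = 5)),
      if_pos (by omega : S.mode = 1 ∨ S.mode = 2 ∨ S.mode = 5)]
    unfold sk
    split_ifs <;> omega

/-- the sum at the vertex `k` -/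
private theorem vk_P2S5L (S : Seam k ld al) (n : Num) (e j z : ℕ) (hs : n.sp = 1) :
    (lgLay S n j z).vk S n e = wz S n.up + n.N0 + (lgLay S n j z).p 1 + z := by
  have h1 : (lgLay S n j z).vk S n e = (lgLay S n j z).p 1 + pkZ S n e + z := rfl
  have h2 : dZ n.sp e = 0 := by
    unfold dZ
    rw [if_neg (by omega)]
  rw [h1]
  unfold pkZ
  omega

theorem ok5_lg (hm : S.mode = 5) (hs : n.sp = 1) (hA : Adm S n j)
    (hz : n.n2 + j < z) (hzw : z ≤ n.n2 + n.Ux + S.h + 3)
    (h1 : S.Q + 1 ≤ n.n2 + n.Ux + S.P + 3 + (if z ≤ n.n2 + n.Ux + S.P + 2 then 1 else 0))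
    (h2 : n.n2 + n.Ux + S.P + 3 + (if z ≤ n.n2 + n.Ux + S.P + 2 then 1 else 0) ≤
      S.Q + n.nT + 1)
    (hv : VOKn S n (lgLay S n j z) ((lgLay S n j z).vk S n e)) :
    P2OK S n e (lgLay S n j z) false := by
  have hj := jU_res hA
  have hw := wz_res S n (by omega)
  have hD := dab_P2S5L S n hm hs j z hA
  have hG := gl_lg S n hs j z hA
  have hbs : (lgLay S n j z).bs S.q =
      wz S n.up + n.N0 + 1 + sk z (n.n2 + n.Ux + S.P + 2) := by
    obtain ⟨_, m2, m3, m4, m5⟩ := S.m5 hm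
    have h6 : (lgLay S n j z).bs S.q =
      (lgLay S n j z).p S.q + (lgLay S n j z).p (S.q + 1) := rfl
    have h7 := hG.peven S.q m3
    have h8 := hG.podd (S.q + 1) (by omega)
    have hqk : S.q < k := S.hq
    have hq1 : 1 ≤ S.q := S.ld_pos _ (S.al_ld _ (S.m5 hm).1)
    have hQ := S.rk_eb S.q hq1 (by omega) m3 m2
    rw [if_neg (by omega)] at h8
    have h9 : n.n2 + (lgLay S n j z).j + S.rk (S.q + 1) + (lgLay S n j z).U =
        n.n2 + n.Ux + S.P + 2 := by
      change n.n2 + j + S.rk (S.q + 1) + (n.Ux - j + 1) = _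
      omega
    rw [h9] at h8
    rw [h6, h7, h8, m4, if_neg (by omega)]
  have hsk : sk z (n.n2 + n.Ux + S.P + 2) + 1 =
      n.n2 + n.Ux + S.P + 3 + (if z ≤ n.n2 + n.Ux + S.P + 2 then 1 else 0) := by
    unfold sk
    split_ifs <;> omega
  refine
    { flow := flow_P2S5L S n hs j z hA
      fmod :=
        { y_ok := fun _ h => absurd h (by simp [lgLay])
          xs_ok := fun h => absurd h (by simp [lgLay])
          lg_ok := fun _ => ⟨hs, rfl, by rw [hbs]; omega, by rw [hbs]; omega⟩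
          V_lo := fun _ h => absurd h (by simp [lgLay])
          V_up := fun _ h => absurd h (by simp [lgLay])
          V_C := fun _ h => absurd h (by simp [lgLay])
          V_L := fun _ h => absurd h (by simp [lgLay])
          F3 := fun h => absurd h (by omega)
          Fx := fun h => absurd h (by simp [lgLay])
          Dbb := hD.Dbb
          Dgg := hD.Dgg
          Dgb := hD.Dgb }
      ffr := fun h => absurd h (by omega)
      U_eq := ?_
      z_rng := fun _ => ⟨hz, by rw [hw]; exact hzw⟩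
      z_p := ?_
      z_X := fun _ i _ _ => sk_ne z _
      z_y := fun _ _ h => absurd h (by simp [lgLay])
      z_xs := fun _ h => absurd h (by simp [lgLay])
      V_thr := fun _ => hv.thr
      V_C := fun _ i h1 h2 h3 => hv.C i h1 h2 h3
      V_V := fun _ _ h => absurd h (by simp [lgLay])
      V_gap := fun _ h => hv.gap h
      L_lg := fun h => absurd h (by simp)
      L_rng := fun h => absurd h (by simp) }
  · change n.Ux - j + 1 + j + 0 = n.Ux + 1 + 0
    omega
  · intro _ f _ _ h3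
    change (if f % 2 = 1 then _ else _) ≠ z
    rw [if_pos h3]
    exact sk_ne z _

/-- class A, edge `1` bad (`σ = sk z`, `p 1 = a + rk 1 < z`) -/
theorem v5_lgA (hs : n.sp = 1) (hA : Adm S n j) (hb : S.bad 1)
    (hz : z + (n.n2 + j + S.rk 1) = n.n2 + j + S.P + S.Q + 1) (hx : n.n2 + j + S.rk 1 ≤ S.Q)
    (hzw : z ≤ n.n2 + n.Ux + S.h + 3) :
    VOKn S n (lgLay S n j z) ((lgLay S n j z).vk S n e) := by
  have hj := jU_res hA
  have hw := wz_res S n (by omega)
  have hG := gl_lg S n hs j z hA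
  have hv := vk_P2S5L S n e j z hs
  have hk := S.hk
  have hr1 := S.rk_ob 1 le_rfl (by omega) (by omega) hb
  have hPh := S.Ph
  have hp := hG.podd 1 (by omega)
  rw [if_pos hr1.2, add_zero] at hp
  change (lgLay S n j z).p 1 = sk z (n.n2 + j + S.rk 1) at hp
  rw [sk_of_lt (by omega)] at hp
  have h1 : sk z (n.n2 + j + S.P) = n.n2 + j + S.P := sk_of_lt (by omega)
  have h2 := le_sk z (n.n2 + j + S.P + 1)
  refine von_A S n hG _ ?_ ?_ ?_
  · change wz S n.up + n.N0 + sk z (n.n2 + j + S.P) + S.Q < _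
    omega
  · change _ < wz S n.up + n.N0 + S.Q + 1 + sk z (n.n2 + j + S.P + 1)
    omega
  · omega

/-- the hole at the vertex `0`, edge `1` good (`hg`: `E0`) -/
theorem v5_lgH (hm : 1 ≤ S.mode) (hs : n.sp = 1) (hA : Adm S n j) (hb : ¬ S.bad 1) {R : ℕ}
    (hH : HoleG S R) (hz : z = n.nT + R) :
    VOKn S n (lgLay S n j z) ((lgLay S n j z).vk S n e) := by
  have hj := jU_res hA
  have hw := wz_res S n (by omega)
  have hG := gl_lg S n hs j z hA
  have hv := vk_P2S5L S n e j z hs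
  have hk := S.hk
  have hr1 := S.rk_og 1 le_rfl (by omega) (by omega) hb
  have hE := hH.E0 hm
  have hp := hG.podd 1 (by omega)
  rw [if_neg (by omega)] at hp
  change (lgLay S n j z).p 1 = sk z (n.n2 + j + S.rk 1 + (n.Ux - j + 1)) at hp
  refine von_H S n hG _ R hH.toHole0 hb (by omega) ?_
  intro _
  rw [hp]
  change sk z (n.n2 + j + S.P + (n.Ux - j + 1)) + S.Q + 1 < _
  unfold sk
  split_ifs <;> omega

end Pool.Agent.Lob5
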