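import Pool.Agent.Lob5.P2Fam
import Pool.Agent.Lob5.P2S0
import Pool.Agent.Lob5.P2S3
import Pool.Agent.Lob34.SeamT

/-!
# The selection of the layers for `K - 1` with one leaf: all modes

`SeamQ`: the structural facts about the seam (of the word read backwards) which are used: `SeamP` (`HoleAll`), `SeamR` and
`SeamT` (`P2Facts`), and `b1r`.
-/

namespace Pool.Agent.Lob5

variable {k : ℕ} {ld al : ℕ → Prop}

/-- further structural facts about the seam -/
structure SeamQ (S : Seam k ld al) : Prop extends SeamP S, SeamR S, SeamT S where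
  b1r : S.mode = 1 → S.bad 1 → S.rk 1 + 2 ≤ S.h

/-- no admissible layers -/
theorem fam_none (S : Seam k ld al) (n : Num) (e : ℕ) (h : ∀ j, ¬ Adm S n j) :
    ∃ F : ℕ → FLay × Bool, (∀ j, (F j).1.j = j) ∧
      (∀ j, Adm S n j → P2OK S n e (F j).1 (F j).2) ∧
      (2 ≤ S.P → ∀ j, Adm S n (j + 1) → FStep S n (F j).1 (F (j + 1)).1) :=
  fam_choice S n e (fun _ _ => False) (fun j hA => absurd hA (h j))
    (fun _ _ _ _ _ h => h.elim)

theorem p2_family (S : Seam k ld al) (hS : SeamQ S) (n : Num) (e : ℕ) (h1 : ¬ al 1)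
    (he : 1 ≤ e) (heN : e ≤ n.N0) (hld : 1 ≤ n.Ux → ∃ i, ld i) :
    ∃ F : ℕ → FLay × Bool, (∀ j, (F j).1.j = j) ∧
      (∀ j, Adm S n j → P2OK S n e (F j).1 (F j).2) ∧
      (2 ≤ S.P → ∀ j, Adm S n (j + 1) → FStep S n (F j).1 (F (j + 1)).1) := by
  have hP : SeamP S := hS.toSeamP
  have hR : SeamR S := hS.toSeamR
  have hT : SeamT S := hS.toSeamT
  by_cases hs : n.sp = 0
  · exact fam_choice S n e (fun j Λ => Fam0 S n j Λ)
      (fun j hA => p2_sel0 S n e j hs hA he heN hR.b1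
        (fun hb => by
          obtain ⟨R, hG⟩ := hR.g hb
          exact ⟨R, hG.toHole0⟩)
        (fun hu => pq_ld S (hld hu)))
      (fun hP2 j hA _ _ h h' => fam0_step S n j hs hA hP2 h h')
  have hm := S.mode_le
  rcases (by omega : S.mode = 0 ∨ S.mode = 1 ∨ S.mode = 2 ∨ S.mode = 3 ∨ S.mode = 4 ∨
    S.mode = 5) with m | m | m | m | m | m
  · exact fam_none S n e fun j hA => hs (hA.sp0 m)
  · exact fam1_all S hP hR hS.b1r n e h1 he heN hs m
  · exact fam_choice S n e (fun j Λ => Fam2 S n j Λ) (fun j hA => p2_sel2 S hR m n e j hA)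
      (fun _ j hA _ _ h h' => fam2_step S hR m n j hA h h')
  · exact fam_choice S n e (fun j Λ => Fam3 S n j Λ) (fun j hA => p2_sel3 S hR hT m n e j hA)
      (fun _ j hA _ _ h h' => fam3_step S hR m n j hA h h')
  · exact fam_choice S n e (fun j Λ => Fam4 S n j Λ) (fun j hA => p2_sel4 S hR hT m n e j hA)
      (fun _ j hA _ _ h h' => fam4_step S hR m n j hA h h')
  · by_cases hs1 : n.sp = 1
    · exact fam_choice S n e (fun j Λ => Fam5 S n j Λ)
        (fun j hA => p2_sel5 S hR hT m n hs1 e j hA)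
        (fun _ j hA _ _ h h' => fam5_step S hR m n hs1 j hA h h')
    · exact fam_none S n e fun j hA => by
        have := hA.sp5 m
        omega

theorem exists_seamQ {k : ℕ} (hk : k % 2 = 1) (h3 : 3 ≤ k) (ld al : ℕ → Prop)
    (hal : ∀ i, al i → ld i) (hld : ∀ i, ld i → 1 ≤ i ∧ i < k) (h1 : ¬ al 1) :
    ∃ S : Seam k ld al, SeamQ S := by
  obtain ⟨S, h5, h6, h7, h9, h8⟩ := Pool.Agent.Lob34.exists_seamWT hk h3 ld al hal hld
  exact ⟨S, ⟨⟨h5, fun hm hP i hi _ => h6 hm hP i hi⟩, h7, h9, h8⟩⟩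

end Pool.Agent.Lob5
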