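import Pool.Agent.Lob5.P2S0

/-!
# Tools for the selection with a special vertex (`sp ≠ 0`): definitions

Notation: `a = n2+j`, `b = a+P`, `T = nT+h+a`, `w = wz S n.up = n2+Ux+h+3` (`sp ≠ 0`), `w + mz S n.up = 2w+N0+nT+h`.

* `HoleB0`: the block boundary at the vertex `0`, if the edge `1` is bad. `Run1`: the unloaded vertices directly before `q` in
  the mode 1.
* `P2Pre`: all facts of `P2OK S n e Λ false` which do not speak about the new vertex.
* `layY`: the reserved labels are `y` (special vertex), `z` (new leaf) and, if `sp = 3` and `y + X 1 < T+1`, `xs`, which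
  is `T+1-y` or one or two more. In `preY` the labels are given before the insertion of `z` (`sk z y0 = y`).
-/

namespace Pool.Agent.Lob5

variable {k : ℕ} {ld al : ℕ → Prop}

/-- the block boundary at the vertex `0`, if the edge `1` is bad -/
structure HoleB0 (S : Seam k ld al) (R : ℕ) : Prop where
  RQ : R ≤ S.Q
  lt : ∀ i, 1 ≤ i → i < k → ¬ ld i → S.bad i → S.rk (ee i) ≤ R → S.rk (oe i) ≤ S.rk 1
  gt : ∀ i, 1 ≤ i → i < k → ¬ ld i → S.bad i → R < S.rk (ee i) → S.rk 1 < S.rk (oe i)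
  e1 : ∀ i, 1 ≤ i → i < k → ¬ ld i → S.bad i → S.rk (oe i) = S.rk 1 → S.rk (ee i) = R

/-- the unloaded vertices directly before `q` (mode 1, good edge 1) -/
structure Run1 (S : Seam k ld al) (l : ℕ) : Prop where
  J : ∀ i, 1 ≤ i → i < k → ¬ ld i → ¬ S.bad i → S.rk (oe i) + S.rk (ee i) + l ≠ 2 * S.h + 1
  half : ∀ i, 1 ≤ i → i < k → ¬ ld i → ¬ S.bad i →
    2 * S.h + 2 ≤ S.rk (oe i) + S.rk (ee i) + l → S.rk (ee i) ≤ S.rk (oe i)
  f1 : S.P + S.Q + l < 2 * S.h
  f2 : S.rk 1 + l + S.P < 2 * S.h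
  f3 : S.rk 1 + l < S.h + S.Q
  f4 : 2 * S.Q + l ≤ 2 * S.h + 3

/-- the facts of `P2OK` (`l = false`) without those about the new vertex -/
structure P2Pre (S : Seam k ld al) (n : Num) (Λ : FLay) : Prop where
  flow : FLow S n Λ
  fmod : FMod S n Λ
  U_eq : Λ.U + Λ.j + (if Λ.xsf then 1 else 0) = n.Ux + (if Λ.lg then 1 else 0)
  z_rng : n.n2 + Λ.j < Λ.z ∧ Λ.z ≤ wz S n.up
  z_p : ∀ f, 1 ≤ f → f ≤ k → f % 2 = 1 → Λ.p f ≠ Λ.z
  z_X : ∀ i, 1 ≤ i → i ≤ Λ.U → Λ.X i ≠ Λ.z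
  z_y : n.sp ≠ 0 → Λ.lg = false → Λ.y ≠ Λ.z
  z_xs : Λ.xsf = true → Λ.xs ≠ Λ.z

/-- the layout before the insertion of `z`; `y` is the final label of the special vertex -/
def preY (S : Seam k ld al) (n : Num) (j y z : ℕ) : Lay :=
  if n.sp = 3 ∧ y + (n.n2 + j + S.P + 1 + (if y ≤ n.n2 + j + S.P + 1 then 1 else 0)) <
      n.nT + S.h + n.n2 + j + 1 then
    layD n j (if z < y then y - 1 else y)
      (if n.nT + S.h + n.n2 + j + 1 - y = (if z < y then y - 1 else y) then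
        n.nT + S.h + n.n2 + j + 2 - y else n.nT + S.h + n.n2 + j + 1 - y)
  else layS S n j (if z < y then y - 1 else y)

/-- the layer with the reserved labels `y`, `z` (and `xs`) -/
def layY (S : Seam k ld al) (n : Num) (j y z : ℕ) : FLay := insG S n (preY S n j y z) z

/-- the labelling of the positions of `layY` -/
def sigY (S : Seam k ld al) (n : Num) (j y z : ℕ) (r : ℕ) : ℕ :=
  sk z (lam (preY S n j y z).y1 (preY S n j y z).y2 r)

/-- the conditions on `y` and `z` -/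
structure YZ (S : Seam k ld al) (n : Num) (j y z : ℕ) : Prop where
  ya : n.n2 + j < y
  yw : y ≤ wz S n.up
  za : n.n2 + j < z
  zw : z ≤ wz S n.up
  yz : y ≠ z
  bd : n.n2 + j + S.P + 1 < y ∨ n.n2 + j + S.P + 1 < z
  xQ : n.sp = 3 → y + (n.n2 + j + S.P + 1 + (if y ≤ n.n2 + j + S.P + 1 then 1 else 0)) <
      n.nT + S.h + n.n2 + j + 1 → S.P + 1 ≤ S.Q

end Pool.Agent.Lob5
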