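import Pool.Agent.Lob5.HoleLy
import Pool.Agent.Lob5.E4Nm

/-!
# `K = k + 1` even, no static leaf at the vertex `k = K - 1`: the numbers

`numZ`: the numbers of the plan without the vertex `k` (`nv k`, not `nv (k+1)`, is used for the number of the
`X` labels), but with `K = k+1` in `nSg` (the vertex `k` has an `l`-label if its role is `II`).

Adapt `E4Nm` (`specE`, `nm_e4`, `adm_e4`) and `ctx_e4` of `E4Ly`; the role of `k` is `II`, `As` or `C`.
* `specZ`: as `specE` with `nv k .As` instead of `nv (k+1) .As`.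
* `e := ns + 1`. If `2 ≤ sp` then there is a bush `tl`, it has a leaf `s0`, so `ns ≥ 1`, `e ≥ 2`; if `sp = 2`
  it has also a leaf `s` (`hS.sp2`). `ctx_Z`: `eN`: `e = ns+1 ≤ N0`.
* `nm_P3`: `rv k = II`: `nv (k+1) .II = nv k .II + 1`, `nv (k+1) .I = nv k .I`, `nv (k+1) .As = nv k .As`, so
  `Ux_eq`; `tot`: as `nm_e4`, `wz S n.up = wz S n + 1`. `ebt`: `ebO, etO` (`e = 2` in the second case).
  `et_FR`: `etO = ebO + 2` only if `2 ≤ sp`, and `FR` has `sp = 0`. `pk_rng`, `s0_rng`: `unfold nmZ ebO etO`,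
  `e ≥ 1`, `e ≥ 2` if `2 ≤ sp`. `om_eq`: second alternative. `pk ≠ 0` as `wz ≥ 2`, `N0 ≥ 1`.
* `nm_P2`: `rv k = As`: `nv (k+1) .II = nv k .II` etc., `nv (k+1) .As = nv k .As + 1`: the total number of
  labels is again right, `w = wz S n.up`. `nSg (k+1) = nSg k`. `c0_eq`: `rv om ≠ II`.
-/

namespace Pool.Agent.Lob5

open Pool.Agent.Lob89

variable {Lf B BL : Type*} [Fintype Lf] [Fintype B] [Fintype BL] [DecidableEq B]
  {D : PlanData Lf B BL} {k : ℕ} {la : Lf → ℕ} {ba : B → ℕ} {par : BL → B}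

/-- the numbers of the plan without the vertex `k` -/
def numZ {Lf B BL : Type*} [Fintype Lf] [Fintype B] [Fintype BL] [DecidableEq B]
    (D : PlanData Lf B BL) (k sp : ℕ) : Num :=
  { numOf D k sp with N0 := D.ns + 1 + D.nSg (k + 1) + 2 * D.nPr }

omit [Fintype Lf] [Fintype B] [Fintype BL] [DecidableEq B] in
private theorem p3nm_nv (D : PlanData Lf B BL) (hk : 1 ≤ k) (ρ : RV) :
    D.nv (k + 1) ρ = D.nv k ρ + if D.rv k = ρ then 1 else 0 := by
  unfold PlanData.nv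
  rw [Finset.range_add_one, Finset.filter_insert]
  by_cases h : D.rv k = ρ
  · rw [if_pos ⟨hk, h⟩, if_pos h, Finset.card_insert_of_notMem (by simp)]
  · rw [if_neg (fun h' => h h'.2), if_neg h]
    omega

private theorem p3nm_ge (hD : PlanOK D (k + 1) la ba par) (htl : D.nb .tl ≠ 0) : 1 ≤ D.ns := by
  obtain ⟨b, hb⟩ : ∃ b, D.rb b = .tl := by
    by_contra hcon
    refine htl ?_
    rw [PlanData.nb, Finset.card_eq_zero, Finset.filter_eq_empty_iff]
    exact fun b _ hb => hcon ⟨b, hb⟩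
  have h1 := hD.s_s0 b
  rw [if_pos hb] at h1
  have h2 : 0 < D.cb par b .s0 := by omega
  rw [PlanData.cb, Finset.card_pos] at h2
  obtain ⟨y, hy⟩ := h2
  rw [Finset.mem_filter] at hy
  have h3 : 0 < (Finset.univ.filter fun y => D.rs y = .s ∨ D.rs y = .s0).card := by
    rw [Finset.card_pos]
    exact ⟨y, Finset.mem_filter.2 ⟨Finset.mem_univ _, Or.inr hy.2.2⟩⟩
  rw [PlanData.ns]
  omega

/-- the number of special vertices -/
private theorem p3nm_spec {ld al : ℕ → Prop} (hD : PlanOK D (k + 1) la ba par)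
    (S : Seam k ld al) {sp : ℕ} (hS : PlanSp D (k + 1) la ba par S.q S.mode sp k)
    (hq : S.mode ≠ 0 → 1 ≤ S.q) :
    (sp = 0 ∧ D.nv k .As = 0 ∧ D.nb .tl = 0) ∨
      (sp = 1 ∧ D.nv k .As = 1 ∧ D.nb .tl = 0) ∨
      ((sp = 2 ∨ sp = 3) ∧ D.nv k .As = 0 ∧ D.nb .tl = 1) := by
  have hAs : sp ≠ 1 → D.nv k .As = 0 := by
    intro h
    rw [PlanData.nv, Finset.card_eq_zero, Finset.filter_eq_empty_iff]
    rintro i hi ⟨h1, h2⟩
    have h3 := Finset.mem_range.1 hi
    exact h (hS.As_q i h1 (by omega) (by omega) h2).2.1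
  have htl : ∀ b, D.rb b = .tl → ba b = S.q ∧ (sp = 2 ∨ sp = 3) := by
    intro b hb
    have h1 : 1 ≤ ba b ∧ ba b < k + 1 := by
      have h1 := hD.hd.ba_pos b
      have h2 := hD.hd.ba_lt b
      omega
    have h2 := hS.Fs_q (ba b) h1.1 h1.2 ((hD.b_Fs b).1 hb)
    exact ⟨h2.1, h2.2.1⟩
  have htl0 : sp ≠ 2 → sp ≠ 3 → D.nb .tl = 0 := by
    intro h1 h2
    rw [PlanData.nb, Finset.card_eq_zero, Finset.filter_eq_empty_iff]
    intro b _ hb
    rcases (htl b hb).2 with h | h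
    · exact h1 h
    · exact h2 h
  by_cases h0 : sp = 0
  · exact Or.inl ⟨h0, hAs (by omega), htl0 (by omega) (by omega)⟩
  · have hm : S.mode ≠ 0 := fun h => h0 (hS.m0 h)
    have hq1 := hq hm
    have hq0 := S.hq
    have hq2 : S.q < k + 1 := by omega
    rcases hS.q_sp hm with h | h | h
    · have h1 := (hS.As_q S.q hq1 hq2 (by omega) h).2.1
      refine Or.inr (Or.inl ⟨h1, ?_, htl0 (by omega) (by omega)⟩)
      rw [PlanData.nv, Finset.card_eq_one]
      refine ⟨S.q, ?_⟩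
      ext i
      simp only [Finset.mem_filter, Finset.mem_range, Finset.mem_singleton]
      constructor
      · rintro ⟨h2, h3, h4⟩
        exact (hS.As_q i h3 (by omega) (by omega) h4).1
      · rintro rfl
        exact ⟨hq0, hq1, h⟩
    · have h1 := (hS.Fs_q S.q hq1 hq2 h).2.1
      refine Or.inr (Or.inr ⟨h1, hAs (by omega), ?_⟩)
      obtain ⟨b, hb⟩ := hD.Fs_ex S.q hq1 hq2 h
      rw [PlanData.nb, Finset.card_eq_one]
      refine ⟨b, ?_⟩
      ext b'
      simp only [Finset.mem_filter, Finset.mem_univ, true_and, Finset.mem_singleton]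
      constructor
      · intro h2
        have h3 := (htl b' h2).1
        refine hD.one b' b (by rw [h3, hb]) (Or.inr (Or.inl ?_))
        rw [h3, h]
      · rintro rfl
        rw [hD.b_Fs, hb, h]
    · exact absurd (hS.FR_q S.q hq1 hq2 h).2.1 h0

/-- the common part of `nm_P3` and `nm_P2` -/
private theorem p3nm_main {ld al : ℕ → Prop} (hD : PlanOK D (k + 1) la ba par)
    (S : Seam k ld al) {sp : ℕ} (hS : PlanSp D (k + 1) la ba par S.q S.mode sp k)
    (hq : S.mode ≠ 0 → 1 ≤ S.q) {ux c : ℕ} (hux : ux = (numZ D k sp).Ux + c)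
    (h : (D.rv k = .II ∧ c = 1) ∨ (D.rv k = .As ∧ c = 0)) :
    NmOK D (nmZ S (numZ D k sp) (D.ns + 1) ux c) (k + 1) par := by
  have hsp := p3nm_spec hD S hS hq
  have hge := p3nm_ge hD
  have hk := S.hk
  have hk1 : 1 ≤ k := by omega
  have hw : 2 ≤ wz S (numZ D k sp).up := by
    rw [wz_up, wz]
    omega
  have hspn : (numZ D k sp).sp = sp := rfl
  have hN0 : 1 ≤ (numZ D k sp).N0 := by
    change 1 ≤ D.ns + 1 + D.nSg (k + 1) + 2 * D.nPr
    omega
  have e_pk : (nmZ S (numZ D k sp) (D.ns + 1) ux c).pk = wz S (numZ D k sp).up +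
    (numZ D k sp).N0 - (if 2 ≤ sp ∧ D.ns + 1 = 2 then 1 else 0) := rfl
  have e_s0 : (nmZ S (numZ D k sp) (D.ns + 1) ux c).s0v = wz S (numZ D k sp).up +
    (numZ D k sp).N0 - (if 2 ≤ sp ∧ D.ns + 1 = 2 then 0 else 1) := rfl
  have e_eb : (nmZ S (numZ D k sp) (D.ns + 1) ux c).eb =
    if 2 ≤ sp ∧ D.ns + 1 = 2 then 0 else (D.ns + 1) / 2 := rfl
  have e_et : (nmZ S (numZ D k sp) (D.ns + 1) ux c).et =
    if 2 ≤ sp ∧ D.ns + 1 = 2 then 2 else (D.ns + 1 + 1) / 2 := rfl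
  have e_w : (nmZ S (numZ D k sp) (D.ns + 1) ux c).w = wz S (numZ D k sp).up := rfl
  have e_N0 : (nmZ S (numZ D k sp) (D.ns + 1) ux c).N0 = (numZ D k sp).N0 := rfl
  have e_e : (nmZ S (numZ D k sp) (D.ns + 1) ux c).e = D.ns + 1 := rfl
  have hpk : (nmZ S (numZ D k sp) (D.ns + 1) ux c).pk ≠ 0 := by
    rw [e_pk]
    split_ifs <;> omega
  have vA := p3nm_nv D hk1 .A
  have vI := p3nm_nv D hk1 .I
  have vII := p3nm_nv D hk1 .II
  have vAs := p3nm_nv D hk1 .As
  have hUx : ux = D.nb .L + D.nb .st + D.nb .self + D.nb .xo + D.nb .sp + D.nb .tl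
      + D.nv (k + 1) .II + D.nv (k + 1) .I := by
    have h1 : (numZ D k sp).Ux = D.nb .L + D.nb .st + D.nb .self + D.nb .xo + D.nb .sp
      + D.nb .tl + D.nv k .II + D.nv k .I := rfl
    rw [hux, h1, vII, vI]
    rcases h with ⟨h2, rfl⟩ | ⟨h2, rfl⟩
    · rw [h2, if_pos rfl, if_neg (by decide)]
      omega
    · rw [h2, if_neg (by decide), if_neg (by decide)]
      omega
  have hAs1 : D.nv (k + 1) .As + c = D.nv k .As + 1 := by
    rw [vAs]
    rcases h with ⟨h2, rfl⟩ | ⟨h2, rfl⟩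
    · rw [h2, if_neg (by decide)]
    · rw [h2, if_pos rfl]
  refine
    { e_eq := ?_
      ebt := ?_
      et_FR := ?_
      N0_eq := ?_
      nT_eq := rfl
      n2_eq := rfl
      Ux_eq := hUx
      tot := ?_
      c0_eq := ?_
      tl_le := ?_
      Qh := S.Qh
      om_eq := Or.inr ⟨rfl, by omega⟩
      om_pk := fun _ _ => hpk
      pk_rng := fun _ => Or.inr ?_
      s0_rng := ?_
      dl_le := Or.inl rfl
      FR1 := ?_ }
  · rw [if_neg hpk]
    rfl
  · rw [e_eb, e_et, e_e]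
    split_ifs with h1
    · exact Or.inr ⟨h1.2, rfl, rfl⟩
    · exact Or.inl ⟨rfl, rfl⟩
  · intro h1 i h2 h3 h4
    have h5 := (hS.FR_q i h2 h3 h4).2.1
    rw [e_eb, e_et, if_neg (by omega), if_neg (by omega)] at h1
    omega
  · rfl
  · have h1 := card_all hD
    have h3 : (if (numZ D k sp).sp = 0 then 0 else 1) = D.nv k .As + D.nb .tl := by
      change (if sp = 0 then 0 else 1) = _
      rcases hsp with ⟨h, h', h''⟩ | ⟨h, h', h''⟩ | ⟨h, h', h''⟩
      · simp [h, h', h'']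
      · simp [h, h', h'']
      · rw [if_neg (by omega)]
        omega
    have h4 : (numZ D k sp).Ux + c = D.nb .L + D.nb .st + D.nb .self + D.nb .xo + D.nb .sp
      + D.nb .tl + D.nv (k + 1) .II + D.nv (k + 1) .I := by
      rw [← hux, hUx]
    have h5 : (numZ D k sp).n2 = D.n2 := rfl
    have h6 : (numZ D k sp).N0 = D.ns + 1 + D.nSg (k + 1) + 2 * D.nPr := rfl
    have h7 : (numZ D k sp).nT = D.nb .L + D.nb .st + D.nb .xo + D.nb .sp := rfl
    change wz S (numZ D k sp).up + (numZ D k sp).N0 + (numZ D k sp).nT + S.h = _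
    rw [wz_up, wz, h3, h5, h6, h7]
    simp only [PlanData.nSg, PlanData.nPr]
    omega
  · change c + (if 2 ≤ sp then 1 else 0) = D.nb .tl + (if k ≠ 0 ∧ D.rv k = .II then 1 else 0)
    have h1 : (if k ≠ 0 ∧ D.rv k = .II then 1 else 0) = c := by
      rcases h with ⟨h2, rfl⟩ | ⟨h2, rfl⟩
      · exact if_pos ⟨by omega, h2⟩
      · exact if_neg (fun h3 => by rw [h2] at h3; exact absurd h3.2 (by decide))
    rw [h1]
    rcases hsp with ⟨h, h', h''⟩ | ⟨h, h', h''⟩ | ⟨h, h', h''⟩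
    · rw [if_neg (by omega), h'']
      omega
    · rw [if_neg (by omega), h'']
      omega
    · rw [if_pos (by omega), h'']
      omega
  · rcases hsp with ⟨h, h', h''⟩ | ⟨h, h', h''⟩ | ⟨h, h', h''⟩ <;> omega
  · rw [e_w, e_N0, e_pk, e_et]
    split_ifs <;> omega
  · intro htl
    have h2 := hge htl
    have h3 : 2 ≤ sp := by
      rcases hsp with ⟨h, h', h''⟩ | ⟨h, h', h''⟩ | ⟨h, h', h''⟩ <;> omega
    rw [e_w, e_N0, e_s0, e_pk, e_et, e_eb]
    split_ifs <;> omega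
  · intro i i' h h' h1 h2 h3 h4
    rw [(hS.FR_q i h1 h2 h).1, (hS.FR_q i' h3 h4 h').1]

theorem ctx_Z (hD : PlanOK D (k + 1) la ba par)
    (S : Seam k (LDk la ba k) (ALk la ba par k)) {sp : ℕ}
    (hS : PlanSp D (k + 1) la ba par S.q S.mode sp k) (hq : S.mode ≠ 0 → 1 ≤ S.q) :
    CtxZ S (numZ D k sp) (D.ns + 1) D.rv := by
  have hsp : (numZ D k sp).sp = sp := rfl
  have hqk := S.hq
  have q1 : sp = 1 → 1 ≤ S.q ∧ D.rv S.q = .As := by
    intro h
    have hm : S.mode ≠ 0 := fun h0 => by have := hS.m0 h0; omega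
    have h1 := hq hm
    refine ⟨h1, ?_⟩
    rcases hS.q_sp hm with h2 | h2 | h2
    · exact h2
    · have := (hS.Fs_q _ h1 (by omega) h2).2.1
      omega
    · have := (hS.FR_q _ h1 (by omega) h2).2.1
      omega
  have q3 : 2 ≤ sp → 1 ≤ S.q ∧ D.rv S.q = .Fs := by
    intro h
    have hm : S.mode ≠ 0 := fun h0 => by have := hS.m0 h0; omega
    have h1 := hq hm
    refine ⟨h1, ?_⟩
    rcases hS.q_sp hm with h2 | h2 | h2
    · have := (hS.As_q _ h1 (by omega) (by omega) h2).2.1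
      omega
    · exact h2
    · have := (hS.FR_q _ h1 (by omega) h2).2.1
      omega
  refine
    { eN := ?_, e1 := by omega, e2 := ?_, C := ?_, A := ?_, N := ?_,
      As := ?_, Fs := ?_, FR := ?_, q1 := q1, q3 := q3 }
  · change D.ns + 1 ≤ D.ns + 1 + D.nSg (k + 1) + 2 * D.nPr
    omega
  · intro h
    rcases p3nm_spec hD S hS hq with ⟨h1, _⟩ | ⟨h1, _⟩ | ⟨_, _, h1⟩
    · omega
    · omega
    · have := p3nm_ge hD (by omega)
      omega
  · rintro i h1 h2 h3 ⟨h4, _⟩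
    exact (hS.ld_iff i h1 (by omega) (by omega)).1 h4 h3
  · intro i h1 h2 h3
    have h4 : D.rv i = .A ∨ D.rv i = .F := by
      cases hr : D.rv i <;> simp_all [RV.isA]
    have h6 : AL la ba par i := (hS.al_iff i h1 (by omega) (by omega)).2 (by tauto)
    refine ⟨⟨h6, h2⟩, ?_⟩
    rintro rfl
    by_cases hm : S.mode = 0
    · rcases S.m0 hm with h7 | h7
      · omega
      · exact h7.2.1 ⟨h6, h2⟩
    · rcases hS.q_sp hm with h7 | h7 | h7 <;> rw [h7] at h3 <;>
        exact absurd h3 (by simp [RV.isA])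
  · intro i h1 h2 h3
    refine ⟨⟨(hS.ld_iff i h1 (by omega) (by omega)).2 ?_, h2⟩, fun h => ?_⟩
    · intro h
      rw [h] at h3
      exact absurd h3 (by simp [RV.isN, RV.isS])
    · rcases (hS.al_iff i h1 (by omega) (by omega)).1 h.1 with h | h | h | h | h <;>
        rw [h] at h3 <;> exact absurd h3 (by simp [RV.isN, RV.isS])
  · intro i h1 h2 h3
    obtain ⟨h4, h6, _⟩ := hS.As_q i h1 (by omega) (by omega) h3
    exact ⟨h4, h6⟩
  · intro i h1 h2 h3
    obtain ⟨h4, h6, _⟩ := hS.Fs_q i h1 (by omega) h3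
    exact ⟨h4, h6⟩
  · intro i h1 h2 h3
    obtain ⟨h4, h6, h7⟩ := hS.FR_q i h1 (by omega) h3
    exact ⟨h4, h6, h7⟩

theorem adm_Z {ld al : ℕ → Prop} (hD : PlanOK D (k + 1) la ba par) (S : Seam k ld al) {sp : ℕ}
    (hS : PlanSp D (k + 1) la ba par S.q S.mode sp k) (hq : S.mode ≠ 0 → 1 ≤ S.q) {j : ℕ}
    (hj : (numZ D k sp).nT + j + (if 2 ≤ sp then 1 else 0) ≤ (numZ D k sp).Ux) :
    Adm S (numZ D k sp) j := by
  have hq0 := S.hq
  have hq2 : S.q < k + 1 := by omega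
  refine ⟨?_, hj, hS.m0, ?_, ?_⟩
  · have h := n2_le hD
    simp only [numZ, numOf]
    omega
  · intro h1 h2
    have hm : S.mode ≠ 0 := by omega
    have hq1 := hq hm
    simp only [numZ, numOf]
    rcases hS.q_sp hm with h | h | h
    · have h3 := (hS.As_q S.q hq1 hq2 (by omega) h).2.1
      omega
    · have h3 := (hS.Fs_q S.q hq1 hq2 h).2.1
      omega
    · have h3 := (hS.FR_q S.q hq1 hq2 h).2.2
      omega
  · intro h1
    have hm : S.mode ≠ 0 := by omega
    have hq1 := hq hm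
    simp only [numZ, numOf]
    rcases hS.q_sp hm with h | h | h
    · have h3 := (hS.As_q S.q hq1 hq2 (by omega) h).2.1
      omega
    · have h3 := (hS.Fs_q S.q hq1 hq2 h).2.2.2
      omega
    · have h3 := (hS.FR_q S.q hq1 hq2 h).2.1
      omega

theorem nm_P3 {ld al : ℕ → Prop} (hD : PlanOK D (k + 1) la ba par) (S : Seam k ld al) {sp : ℕ}
    (hS : PlanSp D (k + 1) la ba par S.q S.mode sp k) (hq : S.mode ≠ 0 → 1 ≤ S.q)
    (hom : D.rv k = .II) :
    NmOK D (nmZ S (numZ D k sp) (D.ns + 1) ((numZ D k sp).Ux + 1) 1) (k + 1) par := by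
  exact p3nm_main hD S hS hq rfl (Or.inl ⟨hom, rfl⟩)

theorem nm_P2 {ld al : ℕ → Prop} (hD : PlanOK D (k + 1) la ba par) (S : Seam k ld al) {sp : ℕ}
    (hS : PlanSp D (k + 1) la ba par S.q S.mode sp k) (hq : S.mode ≠ 0 → 1 ≤ S.q)
    (hom : D.rv k = .As) :
    NmOK D (nmZ S (numZ D k sp) (D.ns + 1) (numZ D k sp).Ux 0) (k + 1) par := by
  exact p3nm_main hD S hS hq rfl (Or.inr ⟨hom, rfl⟩)

end Pool.Agent.Lob5
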