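import Pool.Agent.Lob5.P3Sel
import Pool.Agent.Lob5.P3Nm
import Pool.Agent.Lob5.HoleLyB
import Pool.Agent.Lob5.HoleFR

/-!
# `K = k + 1` even, exactly two leaves (and the path edge `K`) at the vertex `k = K - 1`

The vertex `k` has the role `II` without static leaf. `n = numZ D k sp`, `N = nm3` the numbers,
`T1 = nT+h+n2+j+1`, `d = 1` if `2 ≤ sp` and `e = 2`, otherwise `0`; `pk = w+N0-d`. `thr =
  2w+N0+T1`.
* rule 0, if `T1 + d ≤ f + X 1 + eb` for `funP`: the layer `funP`, the vertex `k` gets its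
  `x`-label from
  the sweep (`xf k = false`).
* otherwise `p3_sel` with `need = T1 + d - eb` (here `eb < T1 + d`): reserved label `z`, `xf k =
  true`.
`lay3'`: the layer and the flag; `lay3_spec` its properties.

Proof.
* `lay3_ex`: by cases `Adm S n j`, `rule0`; if `Adm` fails take `(funP S n j, false)`.
* `ly_P3`: `A : Adm S n j` from `hj` (`adm_Z`). Rule 0: `ly_A` with `ux = n.Ux+1`, `c = 1`
  (`U_P`), then `ly_B` with
  `a = b = 0`, `ux = n.Ux+1`, `c0` unchanged. Rule z: `ly_A` with `ux = n.Ux`, `c = 0`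
  (`fzed_R.U_eq`), then `ly_B`
  with `a = 1`, `ux = n.Ux+1`, `c0 + 1`. (The resulting `Nm`, `Ly` are equal to `nm3`, `ly3` by
  `rfl` or `congr`.)
  `ExtV`: role `II`; the edge `k+1`: `pk` is in the middle zone (`w < pk ≤ w+N0`): last
  alternative of `p_rng`,
  different from all `p e`, `X i`, `y`, `xs` (`FLow.p_odd, p_even, X_w`, `FMod.y_ok, xs_ok`,
  `FZed.rng`).
  Roles `C`, `As` are void. Rule z: `xx_rng, xx_X, xx_p, xx_inj, xx_y`: `FZed` (`yv, xv` at `i <
  k` are `y, xs`; `ys` at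
  `i < k` implies `sp ≠ 0` and `lg = false`, `xs` implies `xsf`, see `E4Ly`: `ysq`, `xsq`; even
  edges are `> w`).
  `oW1`: `f + pk + z ≤ need + 1 + [sp = 3] + w + N0 - d = T1 + w+N0 + 1 + [sp = 3] - eb`, and
  `bs r ≥ w+N0+nT+n2+j+P` (`bP`), `P+Q ≥ h+1`, so `bs r+Q+1+et ≥ w+N0+T1+1+et`, and `[sp = 3] <
  eb+et = e`.
  `oW2`: `T1 + 1 ≤ w` (`w_ge`, `U_ge`), `X 1 ≥ 1`.
* `xf_P3`: `xf_b`: `xsf` implies `sp = 3`, `hS.sp3`. `xf_o`: `hs`. `lb_b`: `sp = 3`: `FMod.F3`
  resp. `FMod.Fx`: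
  `T1 ≤ y + X 1` resp. `y + xs`; `s0v + eb ≥ w+N0` (`e = 2`: `s0v = w+N0`; `e ≥ 3`: `eb ≥ 1`).
  `lb_b'`: `T1 + 1 ≤ w`. `lb_o`: rule 0 resp. `need ≤ f + z`. `lb_o'`: void (`hs`).
* `st_P3`: `fstep_Z` (in both cases `LayZ`), roles by `ctx_Z` (`isA`: `A`; `II, I`, `i ≠ om`, so
  `i < k`: `N`),
  `Y.bs i = Λ.bs i` for `i < k`, `Y.X 1 = Λ.X 1`, `N.s1 = 0`.
-/

namespace Pool.Agent.Lob5

open Pool.Agent.Lob89

section

variable {k : ℕ} {ld al : ℕ → Prop}

/-- the correction `d` -/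
def dZ (sp e : ℕ) : ℕ := if 2 ≤ sp ∧ e = 2 then 1 else 0

/-- rule 0 -/
def rule0 (S : Seam k ld al) (n : Num) (e j : ℕ) : Prop :=
  n.nT + S.h + n.n2 + j + 1 + dZ n.sp e ≤ (funP S n j).p k + (funP S n j).X 1 + ebO n.sp e

theorem lay3_ex (S : Seam k ld al) (n : Num) (e j : ℕ) :
    ∃ r : FLay × Bool, r.1.j = j ∧ (Adm S n j →
      (rule0 S n e j ∧ r = (funP S n j, false)) ∨
      (¬ rule0 S n e j ∧ r.2 = true ∧ ∃ z, LayR S n j z r.1 ∧
        n.nT + S.h + n.n2 + j + 1 + dZ n.sp e ≤ r.1.p k + z + ebO n.sp e ∧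
        r.1.p k + z + ebO n.sp e ≤ n.nT + S.h + n.n2 + j + 1 + dZ n.sp e + 1 +
          (if n.sp = 3 then 1 else 0))) := by
  classical
  by_cases hA : Adm S n j
  · by_cases h0 : rule0 S n e j
    · exact ⟨(funP S n j, false), rfl, fun _ => Or.inl ⟨h0, rfl⟩⟩
    · have h1 : (funP S n j).p k + (funP S n j).X 1 + ebO n.sp e <
          n.nT + S.h + n.n2 + j + 1 + dZ n.sp e := by
        unfold rule0 at h0
        omega
      have hd : dZ n.sp e ≤ 1 := by
        unfold dZ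
        split_ifs <;> omega
      obtain ⟨z, Λ, h2, h3, h4⟩ := p3_sel S n j
        (n.nT + S.h + n.n2 + j + 1 + dZ n.sp e - ebO n.sp e) hA (by omega) (by omega)
      refine ⟨(Λ, true), h2.Z.1.hj, fun _ => Or.inr ⟨h0, rfl, z, h2, ?_, ?_⟩⟩
      · change _ ≤ Λ.p k + z + ebO n.sp e
        omega
      · change Λ.p k + z + ebO n.sp e ≤ _
        omega
  · exact ⟨(funP S n j, false), rfl, fun h => absurd h hA⟩

/-- the layer and the flag `xf k` -/
noncomputable def lay3' (S : Seam k ld al) (n : Num) (e j : ℕ) : FLay × Bool :=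
  (lay3_ex S n e j).choose

theorem lay3_j (S : Seam k ld al) (n : Num) (e j : ℕ) : (lay3' S n e j).1.j = j :=
  (lay3_ex S n e j).choose_spec.1

theorem lay3_spec (S : Seam k ld al) (n : Num) (e j : ℕ) (hA : Adm S n j) :
    (rule0 S n e j ∧ lay3' S n e j = (funP S n j, false)) ∨
      (¬ rule0 S n e j ∧ (lay3' S n e j).2 = true ∧ ∃ z, LayR S n j z (lay3' S n e j).1 ∧
        n.nT + S.h + n.n2 + j + 1 + dZ n.sp e ≤ (lay3' S n e j).1.p k + z + ebO n.sp e ∧
        (lay3' S n e j).1.p k + z + ebO n.sp e ≤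
          n.nT + S.h + n.n2 + j + 1 + dZ n.sp e + 1 + (if n.sp = 3 then 1 else 0)) :=
  (lay3_ex S n e j).choose_spec.2 hA

/-- the numbers -/
def nm3 (S : Seam k ld al) (n : Num) (e : ℕ) : Nm := nmZ S n e (n.Ux + 1) 1

/-- the layers -/
noncomputable def ly3 (S : Seam k ld al) (n : Num) (e j : ℕ) : Ly :=
  lyZ S n (lay3' S n e j).1 (wz S n.up + n.N0 - dZ n.sp e) (lay3' S n e j).2 false
    (if (lay3' S n e j).2 then 1 else 0) 0

/-- the facts about the layer and the flag -/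
private theorem lay3_facts (S : Seam k ld al) (n : Num) (e j : ℕ) (hA : Adm S n j) :
    LayZ S n j (lay3' S n e j).1 ∧
    ((lay3' S n e j).2 = false → (lay3' S n e j).1 = funP S n j) ∧
    ((lay3' S n e j).2 = true → FZed S n (lay3' S n e j).1 ∧
      (lay3' S n e j).1.p k + (lay3' S n e j).1.z + ebO n.sp e ≤
        n.nT + S.h + n.n2 + (lay3' S n e j).1.j + 1 + dZ n.sp e + 1 +
          (if n.sp = 3 then 1 else 0)) ∧
    (n.nT + S.h + n.n2 + j + 1 + dZ n.sp e ≤ (lay3' S n e j).1.p k +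
      (if (lay3' S n e j).2 then (lay3' S n e j).1.z else (lay3' S n e j).1.X 1) +
        ebO n.sp e) := by
  have hj := lay3_j S n e j
  rcases lay3_spec S n e j hA with ⟨h0, h⟩ | ⟨_, h1, z, h2, h3, h4⟩
  · rw [h]
    refine ⟨LayZ.P, fun _ => rfl, fun h1 => absurd h1 (by simp), ?_⟩
    exact h0
  · obtain ⟨h5, h6⟩ := h2.Z
    refine ⟨h5, fun h7 => ?_, fun _ => ⟨fzed_R S n j z hA h2, ?_⟩, ?_⟩
    · rw [h1] at h7
      exact absurd h7 (by simp)
    · rw [h6, hj]
      exact h4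
    · rw [h1, if_pos rfl, h6]
      exact h3

private theorem dz_cases (sp e : ℕ) :
    (dZ sp e = 0 ∧ ¬ (2 ≤ sp ∧ e = 2)) ∨ (dZ sp e = 1 ∧ 2 ≤ sp ∧ e = 2) := by
  unfold dZ
  by_cases h : 2 ≤ sp ∧ e = 2
  · rw [if_pos h]
    exact Or.inr ⟨rfl, h⟩
  · rw [if_neg h]
    exact Or.inl ⟨rfl, h⟩

/-- the new vertex and the new edge -/
private theorem ext3 (S : Seam k ld al) (n : Num) {e ux c : ℕ} {rv : ℕ → RV}
    (H : CtxZ S n e rv) (hom : rv k = .II) (Λ : FLay) (hL : FLow S n Λ) (hM : FMod S n Λ)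
    (xk : Bool)
    (hz : xk = true → FZed S n Λ ∧ Λ.p k + Λ.z + ebO n.sp e ≤
      n.nT + S.h + n.n2 + Λ.j + 1 + dZ n.sp e + 1 + (if n.sp = 3 then 1 else 0))
    (N : Nm) (hN : N = nmZ S n e ux c) (Y : Ly)
    (hY : Y = lyZ S n Λ (wz S n.up + n.N0 - dZ n.sp e) xk false 0 0) :
    ExtV N Y rv k (if xk then 1 else 0) 0 := by
  have He1 := H.e1
  have HeN := H.eN
  have hk := S.hk
  have hh := S.h1
  have hPQ := S.PQ
  have hP1 := S.P1
  have hwU := hL.w_ge
  have hUg := hL.U_ge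
  have hX1 := hL.X_lo 1 le_rfl
  have hEE := eb_et n.sp e
  have e_Q : N.Q = S.Q := by rw [hN]; rfl
  have e_w : N.w = wz S n.up := by rw [hN]; rfl
  have e_N0 : N.N0 = n.N0 := by rw [hN]; rfl
  have e_n2 : N.n2 = n.n2 := by rw [hN]; rfl
  have e_et : N.et = etO n.sp e := by rw [hN]; rfl
  have e_s1 : N.s1 = 0 := by rw [hN]; rfl
  have e_pk : N.pk = wz S n.up + n.N0 - dZ n.sp e := by rw [hN]; rfl
  have e_om : N.om = k := by rw [hN]; rfl
  have f_j : Y.j = Λ.j := by rw [hY]; rfl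
  have f_U : Y.U = Λ.U := by rw [hY]; rfl
  have f_be : Y.be = wz S n.up + n.N0 := by rw [hY]; rfl
  have f_nlg : Y.nlg = (if Λ.lg then 1 else 0) := by rw [hY]; rfl
  have f_yv : ∀ i, i < k → Y.yv i = Λ.y := by
    intro i hi
    rw [hY]
    exact if_neg (by omega)
  have f_xv : ∀ i, i < k → Y.xv i = Λ.xs := by
    intro i hi
    rw [hY]
    exact if_neg (by omega)
  have f_xvk : Y.xv k = Λ.z := by
    rw [hY]
    exact if_pos rfl
  have f_xf : ∀ i, i < k → Y.xf i = Λ.xsf := by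
    intro i hi
    rw [hY]
    exact if_neg (by omega)
  have f_xfk : Y.xf k = xk := by
    rw [hY]
    exact if_pos rfl
  have f_lg : ∀ i, i < k → Y.lg i = Λ.lg := by
    intro i hi
    rw [hY]
    exact if_neg (by omega)
  have f_p : ∀ f, f ≤ k → Y.p f = Λ.p f := by
    intro f hf
    rw [hY]
    exact if_neg (by omega)
  have f_pk : Y.p (k + 1) = wz S n.up + n.N0 - dZ n.sp e := by
    rw [hY]
    exact if_pos rfl
  have f_X : ∀ i, 1 ≤ i → Y.X i = Λ.X i := by
    intro i hi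
    rw [hY]
    exact if_neg (by omega)
  have f_bs : ∀ i, i < k → Y.bs i = Λ.bs i := by
    intro i hi
    unfold Ly.bs FLay.bs
    rw [f_p i (by omega), f_p (i + 1) (by omega)]
  have hd := dz_cases n.sp e
  have hpw : wz S n.up < Y.p (k + 1) ∧ Y.p (k + 1) ≤ wz S n.up + n.N0 := by
    rw [f_pk]
    omega
  have pev : ∀ f, 1 ≤ f → f ≤ k → f % 2 = 0 → wz S n.up + n.N0 < Λ.p f := by
    intro f h1 h2 h3
    have h4 := hL.p_even f h3
    by_cases h5 : S.bad f
    · have := S.rk_eb f h1 h2 h3 h5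
      omega
    · have := S.rk_eg f h1 h2 h3 h5
      omega
  have pod : ∀ f, 1 ≤ f → f ≤ k → f % 2 = 1 → Λ.p f ≤ wz S n.up := fun f h1 h2 h3 =>
    (hL.p_odd f h1 h2 h3).2
  have nys : ¬ Y.ys rv k := by
    rintro (⟨h, _⟩ | h) <;> rw [hom] at h <;> exact absurd h (by simp)
  have ysq : ∀ i, 1 ≤ i → i < k → Y.ys rv i → n.sp ≠ 0 ∧ Λ.lg = false := by
    intro i h1 h2 h3
    rcases h3 with ⟨h3, h4⟩ | h3
    · rw [f_lg i h2] at h4
      have := H.As i h1 h2 h3
      exact ⟨by omega, h4⟩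
    · have h4 := H.Fs i h1 h2 h3
      refine ⟨by omega, ?_⟩
      cases h5 : Λ.lg with
      | false => rfl
      | true =>
        have := (hM.lg_ok h5).1
        omega
  have xsq : ∀ i, i < k → Y.xs N rv i → Λ.xsf = true := by
    intro i h2 h3
    rw [← f_xf i h2]
    exact h3.1
  have xsk : Y.xs N rv k → xk = true := by
    intro h
    rw [← f_xfk]
    exact h.1
  refine
    { role := Or.inr (Or.inr hom)
      ha := ?_, hb := ?_, nlg := ?_, p_rng := ?_, p_inj := ?_, p_last := ?_, X_p := ?_,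
      y_p := ?_, x_p := ?_
      C_inj := fun h => absurd h (by rw [hom]; simp)
      C_be := fun h => absurd h (by rw [hom]; simp)
      C_gap := fun h => absurd h (by rw [hom]; simp)
      C_thr := fun h => absurd h (by rw [hom]; simp)
      C_V := fun h => absurd h (by rw [hom]; simp)
      y_rng := fun h => absurd h nys
      y_X := fun h => absurd h nys
      y_pk := fun h => absurd h nys
      y_inj := fun h => absurd h nys
      x_y := fun h => absurd h nys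
      V_be := fun h => absurd h nys
      V_thr := fun h => absurd h nys
      V_C := fun h => absurd h nys
      V_inj := fun h => absurd h nys
      V_gap := fun h => absurd h nys
      lg_rng := fun h => absurd h (by rw [hom]; simp)
      xx_rng := ?_, xx_X := ?_, xx_p := ?_, xx_inj := ?_, xx_y := ?_, oW1 := ?_, oW2 := ?_ }
  · -- ha
    cases xk with
    | true => exact Or.inl ⟨rfl, hom, f_xfk⟩
    | false =>
      refine Or.inr ⟨rfl, fun h => ?_⟩
      rw [f_xfk] at h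
      exact absurd h.2 (by simp)
  · -- hb
    refine Or.inr ⟨rfl, fun h => ?_⟩
    rw [hom] at h
    exact absurd h.1 (by simp)
  · -- nlg
    rw [f_nlg]
    split_ifs <;> omega
  · -- p_rng
    refine Or.inr (Or.inr (Or.inr (Or.inr ⟨?_, ?_⟩)))
    · rw [f_pk, e_pk]
    · rw [f_pk] at hpw
      omega
  · -- p_inj
    intro f h1 h2 h3
    rw [f_p f h2] at h3
    rcases Nat.mod_two_eq_zero_or_one f with h4 | h4
    · have := pev f h1 h2 h4
      omega
    · have := pod f h1 h2 h4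
      omega
  · -- p_last
    omega
  · -- X_p
    intro i h1 h2
    have := hL.X_w i h1 (by omega)
    rw [f_X i h1]
    omega
  · -- y_p
    intro i h1 h2 h3
    rcases Nat.lt_or_ge i k with h4 | h4
    · obtain ⟨h5, h6⟩ := ysq i h1 h4 h3
      have := (hM.y_ok h5 h6).2.1
      rw [f_yv i h4]
      omega
    · obtain rfl : i = k := by omega
      exact absurd h3 nys
  · -- x_p
    intro i h1 h2 h3
    rcases Nat.lt_or_ge i k with h4 | h4
    · have := (hM.xs_ok (xsq i h4 h3)).2.2.1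
      rw [f_xv i h4]
      omega
    · obtain rfl : i = k := by omega
      have := (hz (xsk h3)).1.rng.2
      rw [f_xvk]
      omega
  · -- xx_rng
    intro h
    have := (hz (xsk h)).1.rng
    rw [f_xvk]
    omega
  · -- xx_X
    intro h i h1 h2
    have := (hz (xsk h)).1.X i h1 (by omega)
    rw [f_xvk, f_X i h1]
    exact fun h' => this h'.symm
  · -- xx_p
    intro h f h1 h2
    rw [f_xvk, f_p f h2]
    rcases Nat.mod_two_eq_zero_or_one f with h4 | h4
    · have := pev f h1 h2 h4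
      have := (hz (xsk h)).1.rng
      omega
    · have := (hz (xsk h)).1.p f h1 h2 h4
      exact fun h' => this h'.symm
  · -- xx_inj
    intro h i h1 h2 h3
    rw [f_xvk, f_xv i h2]
    exact (hz (xsk h)).1.xs (xsq i h2 h3)
  · -- xx_y
    intro h i h1 h2 h3
    obtain ⟨h5, h6⟩ := ysq i h1 h2 h3
    rw [f_xvk, f_yv i h2]
    exact fun h' => (hz (xsk h)).1.y h5 h6 h'.symm
  · -- oW1
    intro h1 _ z h2 h3 h4
    rw [f_xfk] at h1
    have h5 := (hz h1).2
    have h6 : (rv z).isN = true := by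
      cases hr : rv z <;> simp_all [RV.isS, RV.isN]
    obtain ⟨h7, h8⟩ := H.N z h2 h3 h6
    have h9 := hL.bP z h7 (Or.inr h8)
    have h10 : Y.bs k = Λ.p k + (wz S n.up + n.N0 - dZ n.sp e) := by
      unfold Ly.bs
      rw [f_p k le_rfl, f_pk]
    have h11 : n.sp = 3 → 2 ≤ e := fun h => H.e2 (by omega)
    rw [h10, f_xvk, f_bs z h3, e_Q, e_et]
    rw [f_pk] at hpw
    split_ifs at h5 <;> omega
  · -- oW2
    intro h1 _
    rw [f_xfk] at h1
    have h5 := (hz h1).2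
    have h10 : Y.bs k = Λ.p k + (wz S n.up + n.N0 - dZ n.sp e) := by
      unfold Ly.bs
      rw [f_p k le_rfl, f_pk]
    rw [h10, f_xvk, f_X 1 le_rfl, e_Q, e_w, e_N0]
    rw [f_pk] at hpw
    split_ifs at h5 <;> omega

/-- the layer is correct -/
private theorem ly3_gen (S : Seam k ld al) (n : Num) {e j : ℕ} {rv : ℕ → RV}
    (H : CtxZ S n e rv) (hA : Adm S n j) (hom : rv k = .II) :
    LyOK (nm3 S n e) (ly3 S n e j) rv (k + 1) := by
  obtain ⟨f1, f2, f3, f4⟩ := lay3_facts S n e j hA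
  have hj := lay3_j S n e j
  have hL := flow_Z S n j hA f1
  have hM := fmod_Z S n j hA f1
  have hR : n.sp = 0 → S.mode = 5 → FFR S n (lay3' S n e j).1 := fun h1 h2 =>
    ffr S n j h1 h2 hA f1
  have hk := S.hk
  have hh := S.h1
  cases hb : (lay3' S n e j).2 with
  | false =>
    have hU : (lay3' S n e j).1.U + (lay3' S n e j).1.j +
        (if (lay3' S n e j).1.xsf then 1 else 0) =
        n.Ux + 1 + (if (lay3' S n e j).1.lg then 1 else 0) := by
      rw [f2 hb]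
      exact (U_P S n j hA).1
    have h1 := ly_A S n (ux := n.Ux + 1) (c := 1) H hA _ hj hL hM hR hU (by omega)
      (wz S n.up + n.N0 - dZ n.sp e) false false
    have hE := ext3 (ux := n.Ux + 1) (c := 1) S n H hom _ hL hM false
      (fun h => absurd h (by simp)) _ rfl _ rfl
    have h2 := ly_B h1 (by omega) rfl H.e1 hE (n.Ux + 1) (1 + if 2 ≤ n.sp then 1 else 0)
      ?_ ?_
    · have h3 : ly3 S n e j = lyZ S n (lay3' S n e j).1 (wz S n.up + n.N0 - dZ n.sp e)
          false false 0 0 := by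
        unfold ly3
        rw [hb]
        rfl
      rw [h3]
      exact h2
    · exact hU
    · exact le_rfl
  | true =>
    have hz := f3 hb
    have hU := hz.1.U_eq
    have h1 := ly_A S n (ux := n.Ux) (c := 0) H hA _ hj hL hM hR hU (by omega)
      (wz S n.up + n.N0 - dZ n.sp e) true false
    have hE := ext3 (ux := n.Ux) (c := 0) S n H hom _ hL hM true
      (fun _ => hz) _ rfl _ rfl
    have h2 := ly_B h1 (by omega) rfl H.e1 hE (n.Ux + 1) (1 + if 2 ≤ n.sp then 1 else 0)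
      ?_ ?_
    · have h3 : ly3 S n e j = lyZ S n (lay3' S n e j).1 (wz S n.up + n.N0 - dZ n.sp e)
          true false 1 0 := by
        unfold ly3
        rw [hb]
        rfl
      rw [h3]
      exact h2
    · change (lay3' S n e j).1.U + (lay3' S n e j).1.j +
        ((if (lay3' S n e j).1.xsf then 1 else 0) + 0) + 1 =
        n.Ux + 1 + ((if (lay3' S n e j).1.lg then 1 else 0) + 0) + 0
      omega
    · change 1 + (if 2 ≤ n.sp then 1 else 0) + n.Ux ≤
        0 + (if 2 ≤ n.sp then 1 else 0) + (n.Ux + 1)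
      omega

end

variable {Lf B BL : Type*} [Fintype Lf] [Fintype B] [Fintype BL] [DecidableEq B]
  {D : PlanData Lf B BL} {k : ℕ} {la : Lf → ℕ} {ba : B → ℕ} {par : BL → B}

private theorem adm3 {ld al : ℕ → Prop} (hD : PlanOK D (k + 1) la ba par) (S : Seam k ld al)
    {sp : ℕ} (hS : PlanSp D (k + 1) la ba par S.q S.mode sp k) (hq : S.mode ≠ 0 → 1 ≤ S.q)
    {j : ℕ} (hj : (nm3 S (numZ D k sp) (D.ns + 1)).nT + j +
      (nm3 S (numZ D k sp) (D.ns + 1)).c0 ≤ (nm3 S (numZ D k sp) (D.ns + 1)).Ux) :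
    Adm S (numZ D k sp) j := by
  refine adm_Z hD S hS hq ?_
  have h : (numZ D k sp).nT + j + (1 + if 2 ≤ sp then 1 else 0) ≤ (numZ D k sp).Ux + 1 := hj
  omega

theorem ly_P3 (hD : PlanOK D (k + 1) la ba par) (S : Seam k (LDk la ba k) (ALk la ba par k))
    {sp : ℕ} (hS : PlanSp D (k + 1) la ba par S.q S.mode sp k) (hq : S.mode ≠ 0 → 1 ≤ S.q)
    (hom : D.rv k = .II) (hs : D.cl la k .s = 0) {j : ℕ}
    (hj : (nm3 S (numZ D k sp) (D.ns + 1)).nT + j + (nm3 S (numZ D k sp) (D.ns + 1)).c0 ≤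
      (nm3 S (numZ D k sp) (D.ns + 1)).Ux) :
    LyOK (nm3 S (numZ D k sp) (D.ns + 1)) (ly3 S (numZ D k sp) (D.ns + 1) j) D.rv (k + 1) := by
  exact ly3_gen S (numZ D k sp) (ctx_Z hD S hS hq) (adm3 hD S hS hq hj) hom

theorem xf_P3 (hD : PlanOK D (k + 1) la ba par) (S : Seam k (LDk la ba k) (ALk la ba par k))
    {sp : ℕ} (hS : PlanSp D (k + 1) la ba par S.q S.mode sp k) (hq : S.mode ≠ 0 → 1 ≤ S.q)
    (hom : D.rv k = .II) (hs : D.cl la k .s = 0) {j : ℕ}
    (hj : (nm3 S (numZ D k sp) (D.ns + 1)).nT + j + (nm3 S (numZ D k sp) (D.ns + 1)).c0 ≤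
      (nm3 S (numZ D k sp) (D.ns + 1)).Ux) :
    XfOK D (nm3 S (numZ D k sp) (D.ns + 1)) (ly3 S (numZ D k sp) (D.ns + 1) j) (k + 1)
      la ba par := by
  have hA := adm3 hD S hS hq hj
  have H := ctx_Z hD S hS hq
  obtain ⟨f1, f2, f3, f4⟩ := lay3_facts S (numZ D k sp) (D.ns + 1) j hA
  have hlj := lay3_j S (numZ D k sp) (D.ns + 1) j
  have L := flow_Z S (numZ D k sp) j hA f1
  have M := fmod_Z S (numZ D k sp) j hA f1
  have hUg := L.U_ge
  have hwg := L.w_ge
  have hX1 := L.X_lo 1 le_rfl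
  have hP1 := S.P1
  have He1 := H.e1
  have HeN := H.eN
  have hd := dz_cases sp (D.ns + 1)
  have hsp : (numZ D k sp).sp = sp := rfl
  have e_m : mz S (numZ D k sp).up = wz S (numZ D k sp).up + (numZ D k sp).N0 +
    (numZ D k sp).nT + S.h := rfl
  rw [hlj] at hwg hX1
  have hFs : ∀ b, D.rb b = .tl → (sp = 2 ∨ sp = 3) ∧ ba b ≠ k := by
    intro b hb
    have h1 := (hD.b_Fs b).1 hb
    refine ⟨(hS.Fs_q _ (by have := hD.hd.ba_pos b; omega)
      (by have := hD.hd.ba_lt b; omega) h1).2.1, fun h => ?_⟩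
    rw [h, hom] at h1
    exact absurd h1 (by simp)
  have hxf : ∀ i, i ≠ k → (ly3 S (numZ D k sp) (D.ns + 1) j).xf i =
      (lay3' S (numZ D k sp) (D.ns + 1) j).1.xsf := fun i hi => if_neg hi
  have hyv : ∀ i, i ≠ k → (ly3 S (numZ D k sp) (D.ns + 1) j).yv i =
      (lay3' S (numZ D k sp) (D.ns + 1) j).1.y := fun i hi => if_neg hi
  have hxv : ∀ i, i ≠ k → (ly3 S (numZ D k sp) (D.ns + 1) j).xv i =
      (lay3' S (numZ D k sp) (D.ns + 1) j).1.xs := fun i hi => if_neg hi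
  have hxfk : (ly3 S (numZ D k sp) (D.ns + 1) j).xf k =
      (lay3' S (numZ D k sp) (D.ns + 1) j).2 := if_pos rfl
  have hxvk : (ly3 S (numZ D k sp) (D.ns + 1) j).xv k =
      (lay3' S (numZ D k sp) (D.ns + 1) j).1.z := if_pos rfl
  have hpk : (ly3 S (numZ D k sp) (D.ns + 1) j).p (k + 1) =
      wz S (numZ D k sp).up + (numZ D k sp).N0 - dZ sp (D.ns + 1) := if_pos rfl
  have hpk' : (ly3 S (numZ D k sp) (D.ns + 1) j).p k =
      (lay3' S (numZ D k sp) (D.ns + 1) j).1.p k := if_neg (by omega)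
  have hX : (ly3 S (numZ D k sp) (D.ns + 1) j).X 1 =
      (lay3' S (numZ D k sp) (D.ns + 1) j).1.X 1 := rfl
  have hthr : (ly3 S (numZ D k sp) (D.ns + 1) j).thr = wz S (numZ D k sp).up +
      mz S (numZ D k sp).up + (numZ D k sp).n2 +
      (lay3' S (numZ D k sp) (D.ns + 1) j).1.j + 1 := rfl
  have hw : (nm3 S (numZ D k sp) (D.ns + 1)).w = wz S (numZ D k sp).up := rfl
  have heb : (nm3 S (numZ D k sp) (D.ns + 1)).eb = ebO sp (D.ns + 1) := rfl
  have hs0 : (nm3 S (numZ D k sp) (D.ns + 1)).s0v = wz S (numZ D k sp).up +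
      (numZ D k sp).N0 - (if 2 ≤ sp ∧ D.ns + 1 = 2 then 0 else 1) := rfl
  have hs0' : 2 ≤ sp → wz S (numZ D k sp).up + (numZ D k sp).N0 ≤
      (nm3 S (numZ D k sp) (D.ns + 1)).s0v + ebO sp (D.ns + 1) := by
    intro h
    have h2 := H.e2 h
    rw [hs0]
    unfold ebO
    split_ifs <;> omega
  have hs0'' : wz S (numZ D k sp).up + (numZ D k sp).N0 ≤
      (nm3 S (numZ D k sp) (D.ns + 1)).s0v + 1 := by
    rw [hs0]
    split_ifs <;> omega
  refine
    { xf_b := ?_, xf_o := ?_, lb_b := ?_, lb_b' := ?_, lb_o := ?_, lb_o' := ?_ }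
  · intro b hb hx
    rw [hxf _ (hFs b hb).2] at hx
    exact hS.sp3 (M.xs_ok hx).1 b hb
  · intro _ _ _
    exact hs
  · intro b hb h0
    have h3 : sp = 3 := by
      rcases (hFs b hb).1 with h | h
      · have := hS.sp2 h b hb
        omega
      · exact h
    have h4 := hs0' (by omega)
    rw [hxf _ (hFs b hb).2, hyv _ (hFs b hb).2, hxv _ (hFs b hb).2, hX, hthr, hw, heb, hlj,
      e_m]
    split_ifs with hx
    · have h5 := (M.Fx hx).1
      rw [hlj] at h5
      omega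
    · have h5 := M.F3 (by omega) (by simpa using hx)
      rw [hlj] at h5
      omega
  · intro b hb h1
    rw [hyv _ (hFs b hb).2, hX, hthr, hw, hlj, e_m]
    omega
  · intro _ _ _
    change (ly3 S (numZ D k sp) (D.ns + 1) j).thr <
      ((ly3 S (numZ D k sp) (D.ns + 1) j).p k + (ly3 S (numZ D k sp) (D.ns + 1) j).p (k + 1)) +
      ((nm3 S (numZ D k sp) (D.ns + 1)).w + (nm3 S (numZ D k sp) (D.ns + 1)).eb + 1) +
      (if (ly3 S (numZ D k sp) (D.ns + 1) j).xf k then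
        (ly3 S (numZ D k sp) (D.ns + 1) j).xv k else (ly3 S (numZ D k sp) (D.ns + 1) j).X 1)
    rw [hxfk, hxvk, hX, hthr, hw, heb, hpk, hpk', hlj, e_m]
    rw [hsp] at f4
    split_ifs at f4 ⊢ <;> omega
  · intro _ _ h
    change 1 ≤ D.cl la k .s at h
    omega

theorem st_P3 (hD : PlanOK D (k + 1) la ba par) (S : Seam k (LDk la ba k) (ALk la ba par k))
    (hP3 : SeamP S) {sp : ℕ} (hS : PlanSp D (k + 1) la ba par S.q S.mode sp k)
    (hq : S.mode ≠ 0 → 1 ≤ S.q) (hom : D.rv k = .II) {j : ℕ}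
    (hj : (nm3 S (numZ D k sp) (D.ns + 1)).nT + (j + 1) +
      (nm3 S (numZ D k sp) (D.ns + 1)).c0 ≤ (nm3 S (numZ D k sp) (D.ns + 1)).Ux)
    (hP : 2 ≤ (nm3 S (numZ D k sp) (D.ns + 1)).P) :
    StOK (nm3 S (numZ D k sp) (D.ns + 1)) (ly3 S (numZ D k sp) (D.ns + 1) j)
      (ly3 S (numZ D k sp) (D.ns + 1) (j + 1)) D.rv (k + 1) := by
  have hA := adm3 hD S hS hq hj
  have hA0 : Adm S (numZ D k sp) j := adm3 hD S hS hq (by omega)
  have H := ctx_Z hD S hS hq
  have f1 := (lay3_facts S (numZ D k sp) (D.ns + 1) j hA0).1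
  have f2 := (lay3_facts S (numZ D k sp) (D.ns + 1) (j + 1) hA).1
  have hlj := lay3_j S (numZ D k sp) (D.ns + 1) j
  have T := fstep_Z S (numZ D k sp) j hP hP3 hA f1 f2
  have hbs : ∀ j' i, i < k → (ly3 S (numZ D k sp) (D.ns + 1) j').bs i =
      (lay3' S (numZ D k sp) (D.ns + 1) j').1.bs i := by
    intro j' i hi
    have h1 : (ly3 S (numZ D k sp) (D.ns + 1) j').p i =
        (lay3' S (numZ D k sp) (D.ns + 1) j').1.p i := if_neg (by omega)
    have h2 : (ly3 S (numZ D k sp) (D.ns + 1) j').p (i + 1) =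
        (lay3' S (numZ D k sp) (D.ns + 1) j').1.p (i + 1) := if_neg (by omega)
    unfold Ly.bs FLay.bs
    rw [h1, h2]
  have hX : (ly3 S (numZ D k sp) (D.ns + 1) j).X 1 =
      (lay3' S (numZ D k sp) (D.ns + 1) j).1.X 1 := rfl
  have hYj : (ly3 S (numZ D k sp) (D.ns + 1) j).j =
      (lay3' S (numZ D k sp) (D.ns + 1) j).1.j := rfl
  have hs1 : (nm3 S (numZ D k sp) (D.ns + 1)).s1 = 0 := rfl
  have hn2 : (nm3 S (numZ D k sp) (D.ns + 1)).n2 = (numZ D k sp).n2 := rfl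
  have lA : ∀ a, a < k + 1 → (D.rv a).isA = true → a < k := by
    intro a h1 h2
    rcases Nat.lt_or_ge a k with h | h
    · exact h
    · rw [show a = k by omega, hom] at h2
      exact absurd h2 (by simp [RV.isA])
  refine ⟨?_, ?_⟩
  · intro i a h1 h2 h3 h4 ho h5 h6 h7
    have g2 : i < k := by
      change i ≠ k at ho
      omega
    have g4 := lA a h4 h6
    obtain ⟨h8, h9⟩ := H.A a h3 g4 h6
    obtain ⟨h10, h11⟩ := H.N i h1 g2 (by rcases h5 with h | h <;> rw [h] <;> rfl)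
    rw [hbs _ i g2, hbs _ i g2, hbs _ a g4, hbs _ a g4, hX, hYj, hs1, hn2]
    have h12 := T.st1 i a h10 h11 h8 h9 h7
    omega
  · intro a h1 h2 h3 h4
    have g2 := lA a h2 h3
    obtain ⟨h7, h8⟩ := H.A a h1 g2 h3
    rw [hbs _ a g2, hbs _ a g2, hX, hYj, hs1, hn2]
    have h11 := T.st2 a h7 h8 h4
    omega

end Pool.Agent.Lob5
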