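import Pool.Agent.Lob5.HoleAll

/-!
# The reserved label for the vertex `K - 1` with exactly three leaves (two and the path edge `K`)

`f = p k` is the label of the path edge `k` (odd). `z` admissible: `LayR S n j z _`. The admissible labels
between `X 1 = Xl⁺ 1` and `w = wz S n.up` are all labels except `y⁺, xs⁺` in the zone `ZX` (`⁺`: layout
`Λ⁺ = layOf S n.up j`) and except at most one label in the zone `ZG`: either `y0+1` with
`y0 = (layOf S n j).y` (`topY`), or `v = n2+Ux+P+2` (mode 5, `layLg` for `n`, not for `n.up`).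
Let `g z = f_z + z` where `f_z` is the label `p k` of the layer with the reserved label `z`.

Proof of `p3_sel`. `M := nT+h+n2+j+2`, `need ≤ M`. Let `z` be the smallest admissible label with
`need ≤ g z`.
1. It exists: some admissible `z ≥ w - 2` exists (`z ≥ w` if `sp = 0`): `Xl⁺ U⁺` if it is `≥ w-2`, otherwise
   `w` or `w-1` is in `ZG` (at most one is excluded); `f ≥ n2+j+1` and `w = n2+Ux+h+2` (`+1` if `sp ≠ 0`),
   `Ux ≥ nT+j`, so `g z ≥ M`.
2. `z ≠ Xl⁺ 1` by `h0` (`funX` has the same `p` as `funP`), so `z > Xl⁺ 1`. Let `z0 < z` be the largest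
   admissible label below `z`; `g z0 < need`. Claim: `g z ≤ g z0 + 2`, or `≤ g z0 + 3` if `sp = 3`.
   a. `z, z0` both in `ZX`: consecutive, `z0 = Xl⁺ i`, `z = Xl⁺ (i+1)`, same `f`, `z - z0 ≤ 1 + ` (number of
      inserted labels), and there are two only if `xsf` (`sp = 3`).
   b. both in `ZG`: `z - z0 ≤ 2`, `f_z ≤ f_z0`: `sk z x ≤ sk z0 x`; if `preG` changes (`topY`,
      `z0 ≤ y0 < y0+1 < z`) then `lam (y0+1) _ p ≤ lam y0 _ p`.
   c. `z0 = Xl⁺ U⁺`, `z` in `ZG`: `z = z0+1`, or `z = z0+2` and `z0+1` is excluded.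
      Let `p, p⁺` be the positions of the edge `k` in `preG` and in `Λ⁺`; `f_z ≤ p + ` (number of inserted
      labels, including `z` if `k` is good), `f⁺ ≥ p⁺`.
      - `k` bad: `p⁺ = p = n2+j+rk`. No inserted label can be below it except `y`; in the mode 3 `y = n2+j+1`
        is below it in both. So `f_z ≤ f⁺+1` always. If `z = z0+2`: `f_z ≤ f⁺`: `layLg`: `f_z = n2+j+rk`;
        `topY`: mode 2: `y0 = z0` is above the bad zone, `y⁺, y ≥ y0`; mode 5: `y > n2+j+P`.
      - `k` good, `layOf S n j` not `layLg`: `p⁺ ≥ p+1` (`U⁺ ≥ U+1`), `f_z ≤ p+2` (`p+3` if `xsf`) `≤ f⁺+1`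
        (`+2`). If `z = z0+2` then `topY`, `y0 = z0 = Xl⁺ U⁺`. Mode 2: then `y0 = wz S n+1-P`, `y⁺ = y0+1`,
        `f⁺ = p⁺+1`, so `f_z ≤ f⁺`. Mode 5: `y0 = nom` or `nom-1` etc. (see `HoleG5`, case (iv)): `y⁺ ≠ y0`
        leaves only `y0 = nom = v`, `y⁺ = v-1`, `f⁺ = p⁺+1`, so `f_z ≤ f⁺`. (If `t` changes then `y0 = wz S n`
        and `y0 = Xl⁺ U⁺ = v-1` is impossible.)
      - `k` good, `layOf S n j = layLg` (mode 5): `f_z ≤ p+1`. If `layOf S n.up j` is `layLg` too: `p⁺ = p+1`,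
        `z = z0+1`. Otherwise `p⁺ = p`, `z0 = v-1`, `z = v+1`, `v = Q+nT`, and `f⁺ ≥ v`, so
        `g z0 ≥ 2v-1 ≥ Q+nT+n2+nT+j+P+1 ≥ M ≥ need`, a contradiction.
The claim on consecutive labels is checked by computer (`mono.cpp`).
-/

namespace Pool.Agent.Lob5

variable {k : ℕ} {ld al : ℕ → Prop}

private theorem kodd_P3Sel (S : Seam k ld al) : k % 2 = 1 := by
  have := S.hk
  omega

private theorem plk_P3Sel (S : Seam k ld al) (n : Num) (Λ : Lay) :
    pl S n Λ k = lam Λ.y1 Λ.y2 (lop S n Λ (S.rk k)) := by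
  unfold pl
  rw [if_pos (kodd_P3Sel S)]

private theorem rk_P3Sel (S : Seam k ld al) : (1 ≤ S.rk k ∧ S.rk k ≤ S.P) ∨
    (S.P + 1 ≤ S.rk k ∧ S.rk k ≤ S.h + 1) := by
  have h1 : 1 ≤ k := by
    have := S.hk
    omega
  by_cases h : S.bad k
  · exact Or.inl (S.rk_ob k h1 le_rfl (kodd_P3Sel S) h)
  · exact Or.inr (S.rk_og k h1 le_rfl (kodd_P3Sel S) h)

/-- none or one inserted label -/
private theorem gen1_P3Sel (S : Seam k ld al) (n : Num) (j z : ℕ) (Λ Λ' : Lay)
    (hk : Λ.k2 = false) (hk' : Λ'.k2 = false) (hj : Λ.j = j) (hj' : Λ'.j = j)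
    (hy : wz S n + 2 ≤ Λ.y2) (hw : n.n2 + j + Λ.U + S.h + 1 ≤ wz S n) (hU : Λ.U + 1 ≤ Λ'.U)
    (hz : n.n2 + j + S.P + Λ'.U < z) :
    sk z (pl S n Λ k) ≤ pl S n.up Λ' k + 1 := by
  rw [plk_P3Sel, plk_P3Sel]
  have hP := S.Ph
  unfold lop
  rw [hk, hk', hj, hj']
  change sk z (lam Λ.y1 Λ.y2 (if S.rk k ≤ S.P then n.n2 + j + S.rk k else
    n.n2 + j + Λ.U + S.rk k)) ≤ lam Λ'.y1 Λ'.y2 (if S.rk k ≤ S.P then n.n2 + j + S.rk k else
    n.n2 + j + Λ'.U + S.rk k) + 1
  rcases rk_P3Sel S with ⟨h1, h2⟩ | ⟨h1, h2⟩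
  · rw [if_pos h2, if_pos h2]
    unfold lam sk
    split_ifs <;> omega
  · rw [if_neg (by omega), if_neg (by omega)]
    unfold lam sk
    split_ifs <;> omega

/-- two inserted labels -/
private theorem gen2_P3Sel (S : Seam k ld al) (n : Num) (j z : ℕ) (Λ Λ' : Lay)
    (hk : Λ.k2 = false) (hk' : Λ'.k2 = false) (hj : Λ.j = j) (hj' : Λ'.j = j)
    (hy : (n.n2 + j + S.P < Λ.y1 ∧ n.n2 + j + S.P + 1 < Λ.y2) ∨
      (Λ'.y1 = Λ.y1 ∧ Λ'.y2 = Λ.y2)) (hU : Λ.U + 1 ≤ Λ'.U) :
    sk z (pl S n Λ k) ≤ pl S n.up Λ' k + 2 := by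
  rw [plk_P3Sel, plk_P3Sel]
  unfold lop
  rw [hk, hk', hj, hj']
  change sk z (lam Λ.y1 Λ.y2 (if S.rk k ≤ S.P then n.n2 + j + S.rk k else
    n.n2 + j + Λ.U + S.rk k)) ≤ lam Λ'.y1 Λ'.y2 (if S.rk k ≤ S.P then n.n2 + j + S.rk k else
    n.n2 + j + Λ'.U + S.rk k) + 2
  rcases rk_P3Sel S with ⟨h1, h2⟩ | ⟨h1, h2⟩
  · rw [if_pos h2, if_pos h2]
    rcases hy with ⟨h3, h4⟩ | ⟨h3, h4⟩
    · unfold lam sk
      split_ifs <;> omega
    · rw [h3, h4]
      unfold lam sk
      split_ifs <;> omega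
  · rw [if_neg (by omega), if_neg (by omega)]
    unfold lam sk
    split_ifs <;> omega

/-- no inserted label -/
private theorem gen3_P3Sel (S : Seam k ld al) (n : Num) (j z : ℕ) (Λ Λ' : Lay)
    (hk : Λ.k2 = false) (hk' : Λ'.k2 = false) (hj : Λ.j = j) (hj' : Λ'.j = j)
    (hy1 : wz S n + 1 ≤ Λ.y1) (hy : wz S n + 2 ≤ Λ.y2)
    (hw : n.n2 + j + Λ.U + S.h + 1 ≤ wz S n) (hU : Λ.U ≤ Λ'.U) :
    sk z (pl S n Λ k) ≤ pl S n.up Λ' k + 1 := by
  rw [plk_P3Sel, plk_P3Sel]
  have hP := S.Ph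
  unfold lop
  rw [hk, hk', hj, hj']
  change sk z (lam Λ.y1 Λ.y2 (if S.rk k ≤ S.P then n.n2 + j + S.rk k else
    n.n2 + j + Λ.U + S.rk k)) ≤ lam Λ'.y1 Λ'.y2 (if S.rk k ≤ S.P then n.n2 + j + S.rk k else
    n.n2 + j + Λ'.U + S.rk k) + 1
  rcases rk_P3Sel S with ⟨h1, h2⟩ | ⟨h1, h2⟩
  · rw [if_pos h2, if_pos h2]
    unfold lam sk
    split_ifs <;> omega
  · rw [if_neg (by omega), if_neg (by omega)]
    unfold lam sk
    split_ifs <;> omega

/-- the mode 3 -/
private theorem gen4_P3Sel (S : Seam k ld al) (n : Num) (j z : ℕ) (Λ Λ' : Lay)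
    (hk : Λ.k2 = true) (hk' : Λ'.k2 = true) (hj : Λ.j = j) (hj' : Λ'.j = j)
    (hy1 : Λ'.y1 = Λ.y1) (hy : Λ'.y2 = Λ.y2 ∨ wz S n + 2 ≤ Λ.y2)
    (hw : n.n2 + j + Λ.U + S.h + 1 ≤ wz S n) (hU : Λ'.U = Λ.U + 1) :
    sk z (pl S n Λ k) ≤ pl S n.up Λ' k + 1 := by
  rw [plk_P3Sel, plk_P3Sel]
  have hP := S.Ph
  have hP1 := S.P1
  unfold lop
  rw [hk, hk', hj, hj', hU, hy1]
  change sk z (lam Λ.y1 Λ.y2 (if S.rk k < S.P then n.n2 + j + S.rk k else if S.rk k = S.P then
      n.n2 + j + Λ.U + S.h + 1 else n.n2 + j + Λ.U + S.rk k - 1)) ≤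
    lam Λ.y1 Λ'.y2 (if S.rk k < S.P then n.n2 + j + S.rk k else if S.rk k = S.P then
      n.n2 + j + (Λ.U + 1) + S.h + 1 else n.n2 + j + (Λ.U + 1) + S.rk k - 1) + 1
  have h0 := rk_P3Sel S
  unfold lam sk
  rcases hy with h | h
  · rw [h]
    split_ifs <;> omega
  · split_ifs <;> omega

/-- the two possibilities for `lay5` -/
private theorem lay5_P3Sel (S : Seam k ld al) (n : Num) (j : ℕ) :
    (lay5 S n j = layLg S n j ∧ S.Q ≤ n.n2 + n.Ux + S.P + 2 ∧
      n.n2 + n.Ux + S.P + 2 ≤ S.Q + n.nT) ∨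
    (lay5 S n j = layS S n j (lay5 S n j).y ∧
      (n.n2 + n.Ux + S.P + 2 < S.Q ∨ S.Q + n.nT < n.n2 + n.Ux + S.P + 2)) := by
  unfold lay5
  dsimp only
  split_ifs <;> first
    | exact Or.inl ⟨rfl, by omega, by omega⟩
    | exact Or.inr ⟨rfl, by omega⟩

/-- the layouts in the case `topY` -/
private theorem top_P3Sel (S : Seam k ld al) (n : Num) (j : ℕ) (ht : topY S n) :
    layOf S n j = layS S n j (layOf S n j).y ∧
      layOf S n.up j = layS S n.up j (layOf S n.up j).y ∧
      (layOf S n.up j).y ≤ (layOf S n j).y + 2 ∧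
      (S.mode = 5 → S.Q + n.nT < n.n2 + n.Ux + S.P + 2) := by
  obtain ⟨hs, hm⟩ := ht
  have hsu : n.up.sp ≠ 0 := hs
  have hQ := S.Qh
  have hPh := S.Ph
  have hwu := wz_up S n
  have hw : wz S n = n.n2 + n.Ux + S.h + 2 := by
    unfold wz
    rw [if_neg hs]
  rcases hm with hm | ⟨hm, hv⟩
  · have e1 : layOf S n j = lay2 S n j := by simp [layOf, hs, hm]
    have e2 : layOf S n.up j = lay2 S n.up j := by simp [layOf, hsu, hm]
    rw [e1, e2]
    refine ⟨rfl, rfl, ?_, fun h => by omega⟩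
    change (if n.n2 + j + S.P < wz S n.up + 1 - S.P then wz S n.up + 1 - S.P
      else wz S n.up - S.P) ≤ (if n.n2 + j + S.P < wz S n + 1 - S.P then wz S n + 1 - S.P
      else wz S n - S.P) + 2
    split_ifs <;> omega
  · have e1 : layOf S n j = lay5 S n j := by simp [layOf, hs, hm]
    have e2 : layOf S n.up j = lay5 S n.up j := by simp [layOf, hsu, hm]
    rw [e1, e2]
    have f1 : lay5 S n j = layS S n j (if n.n2 + n.Ux + S.P + 2 ≤
        wz S n + min (n.n2 + n.Ux + S.P + 2 - n.nT - S.h) (n.n2 + j + 1) -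
          (n.n2 + n.Ux + S.P + 2 - n.nT - S.h) then
        wz S n + min (n.n2 + n.Ux + S.P + 2 - n.nT - S.h) (n.n2 + j + 1) -
          (n.n2 + n.Ux + S.P + 2 - n.nT - S.h) else
        wz S n + min (n.n2 + n.Ux + S.P + 2 - n.nT - S.h) (n.n2 + j + 1) -
          (n.n2 + n.Ux + S.P + 2 - n.nT - S.h) - 1) := by
      unfold lay5
      dsimp only
      rw [if_neg (by omega), if_neg (by omega), if_neg (by omega)]
    have f2 : lay5 S n.up j = layS S n.up j (if n.n2 + (n.Ux + 1) + S.P + 2 ≤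
        wz S n.up + min (n.n2 + (n.Ux + 1) + S.P + 2 - n.nT - S.h) (n.n2 + j + 1) -
          (n.n2 + (n.Ux + 1) + S.P + 2 - n.nT - S.h) then
        wz S n.up + min (n.n2 + (n.Ux + 1) + S.P + 2 - n.nT - S.h) (n.n2 + j + 1) -
          (n.n2 + (n.Ux + 1) + S.P + 2 - n.nT - S.h) else
        wz S n.up + min (n.n2 + (n.Ux + 1) + S.P + 2 - n.nT - S.h) (n.n2 + j + 1) -
          (n.n2 + (n.Ux + 1) + S.P + 2 - n.nT - S.h) - 1) := by
      unfold lay5
      dsimp only
      rw [if_neg (by change ¬ n.n2 + (n.Ux + 1) + S.P + 2 + 1 ≤ S.Q; omega),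
        if_neg (by change ¬ n.n2 + (n.Ux + 1) + S.P + 2 ≤ S.Q + n.nT; omega),
        if_neg (by change ¬ n.n2 + (n.Ux + 1) + S.P + 2 ≤ n.nT + S.h; omega)]
      rfl
    rw [f1, f2]
    refine ⟨rfl, rfl, ?_, fun _ => by omega⟩
    dsimp only [layS]
    rw [hwu, hw]
    split_ifs <;> omega

/-- the number of labels `X` -/
private theorem up_P3Sel (S : Seam k ld al) (n : Num) (j : ℕ) (hA : Adm S n j) :
    1 ≤ (layOf S n.up j).U ∧ (n.n2 + j + (layOf S n.up j).U + S.h + 1 ≤ wz S n.up) ∧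
      ((layOf S n.up j).y2 = wz S n.up + 2 ∨ n.sp = 3) := by
  have L := low_all S n.up j (adm_up hA)
  have M := mod_all S n.up j (adm_up hA)
  have h1 := M.U_eq
  have h2 := L.w_ge
  have h3 := hA.jU
  have h4 := M.xs_ok
  rw [lay_j'] at h1 h2
  refine ⟨?_, h2, ?_⟩
  · change (layOf S n.up j).U + j + (if (layOf S n.up j).xsf = true then 1 else 0) =
      n.Ux + 1 + (if (layOf S n.up j).lg = true then 1 else 0) at h1
    by_cases hx : (layOf S n.up j).xsf = true
    · have h5 : n.sp = 3 := (h4 hx).1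
      rw [if_pos (by omega)] at h3
      rw [if_pos hx] at h1
      omega
    · rw [if_neg hx] at h1
      split_ifs at h3 <;> omega
  · by_cases h5 : n.sp = 3
    · exact Or.inr h5
    · left
      have h6 : n.up.sp ≠ 3 := h5
      unfold layOf lay1 lay2 lay3 lay4 lay5
      dsimp only
      split_ifs <;> first
        | rfl
        | (exfalso; tauto)

/-- the label of the edge `k` for `z` in the zone `ZG` -/
private theorem c1_P3Sel (S : Seam k ld al) (n : Num) (j z : ℕ) (hA : Adm S n j)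
    (hz : ZG S n j z) : sk z (pl S n (preG S n j z) k) ≤
      pl S n.up (layOf S n.up j) k + 1 + (if n.sp = 3 then 1 else 0) := by
  have L := low_all S n j hA
  have hw := L.w_ge
  rw [lay_j'] at hw
  obtain ⟨u1, u2, u3⟩ := up_P3Sel S n j hA
  have hgt : n.n2 + j + S.P + (layOf S n.up j).U - 1 < z := by
    refine lt_of_le_of_lt ?_ hz.gt
    unfold Xl
    refine le_trans ?_ (le_lam _ _ _)
    rw [lay_j']
    change _ ≤ n.n2 + j + S.P + (layOf S n.up j).U - _
    split_ifs <;> omega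
  have hgt' : (layOf S n.up j).k2 = false → n.n2 + j + S.P + (layOf S n.up j).U < z := by
    intro hk
    refine lt_of_le_of_lt ?_ hz.gt
    unfold Xl
    refine le_trans ?_ (le_lam _ _ _)
    rw [lay_j', hk]
    exact le_rfl
  by_cases h0 : n.sp = 0
  · have hsu : n.up.sp = 0 := h0
    have e1 : layOf S n j = layNone S n j := by simp [layOf, h0]
    have e2 : layOf S n.up j = layNone S n.up j := by simp [layOf, hsu]
    have e3 : preG S n j z = layNone S n j := by
      unfold preG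
      rw [if_neg (fun h => h.1.1 h0), e1]
    rw [e1] at hw
    rw [e2] at u1 u2 u3 hgt ⊢
    rw [e3]
    have := gen3_P3Sel S n j z (layNone S n j) (layNone S n.up j) rfl rfl rfl rfl
      (by change _ ≤ wz S n + 1; omega) (by change _ ≤ wz S n + 2; omega) hw
      (by change n.Ux - j ≤ n.Ux + 1 - j; omega)
    omega
  have hsu : n.up.sp ≠ 0 := h0
  have hjU : n.nT + j ≤ n.Ux := by
    have := hA.jU
    split_ifs at this <;> omega
  have hm0 : S.mode ≠ 0 := fun h => h0 (hA.sp0 h)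
  have hml := S.mode_le
  by_cases h1 : S.mode = 1
  · have e1 : layOf S n j = lay1 S n j := by simp [layOf, h0, h1]
    have e2 : layOf S n.up j = lay1 S n.up j := by simp [layOf, hsu, h1]
    have e3 : preG S n j z = lay1 S n j := by
      unfold preG
      rw [if_neg (fun h => by rcases h.1.2 with h | h <;> omega), e1]
    rw [e1] at hw
    rw [e2] at u1 u2 u3 hgt hgt' ⊢
    rw [e3]
    by_cases hc : n.sp = 3 ∧ (n.n2 + j + n.nT + S.h + 1 - S.Q) + (n.n2 + j + S.P + 1 +
        (if n.n2 + j + n.nT + S.h + 1 - S.Q ≤ n.n2 + j + S.P + 1 then 1 else 0)) <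
        n.nT + S.h + n.n2 + j + 1
    · have f1 : lay1 S n j = layD n j (n.n2 + j + n.nT + S.h + 1 - S.Q)
          (if S.Q = n.n2 + j + n.nT + S.h + 1 - S.Q then S.Q + 1 else S.Q) := by
        unfold lay1
        rw [if_pos hc]
      have f2 : lay1 S n.up j = layD n.up j (n.n2 + j + n.nT + S.h + 1 - S.Q)
          (if S.Q = n.n2 + j + n.nT + S.h + 1 - S.Q then S.Q + 1 else S.Q) := by
        unfold lay1
        exact if_pos hc
      rw [f1] at hw ⊢
      rw [f2] at u1 u2 u3 hgt ⊢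
      have hj2 : n.nT + j + 1 ≤ n.Ux := by
        have := hA.jU
        rw [if_pos (by omega)] at this
        exact this
      have := gen2_P3Sel S n j z (layD n j (n.n2 + j + n.nT + S.h + 1 - S.Q)
          (if S.Q = n.n2 + j + n.nT + S.h + 1 - S.Q then S.Q + 1 else S.Q))
          (layD n.up j (n.n2 + j + n.nT + S.h + 1 - S.Q)
          (if S.Q = n.n2 + j + n.nT + S.h + 1 - S.Q then S.Q + 1 else S.Q)) rfl rfl rfl rfl
        (Or.inr ⟨rfl, rfl⟩) (by change n.Ux - 1 - j + 1 ≤ n.Ux + 1 - 1 - j; omega)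
      rw [if_pos hc.1]
      omega
    · have f1 : lay1 S n j = layS S n j (n.n2 + j + n.nT + S.h + 1 - S.Q) := by
        unfold lay1
        rw [if_neg hc]
      have f2 : lay1 S n.up j = layS S n.up j (n.n2 + j + n.nT + S.h + 1 - S.Q) := by
        unfold lay1
        exact if_neg hc
      rw [f1] at hw ⊢
      rw [f2] at u1 u2 u3 hgt hgt' ⊢
      have := gen1_P3Sel S n j z (layS S n j (n.n2 + j + n.nT + S.h + 1 - S.Q))
          (layS S n.up j (n.n2 + j + n.nT + S.h + 1 - S.Q)) rfl rfl rfl rfl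
        le_rfl hw (by change n.Ux - j + 1 ≤ n.Ux + 1 - j; omega) (hgt' rfl)
      omega
  by_cases h3 : S.mode = 3
  · have e1 : layOf S n j = lay3 S n j := by simp [layOf, h0, h3]
    have e2 : layOf S n.up j = lay3 S n.up j := by simp [layOf, hsu, h3]
    have e3 : preG S n j z = lay3 S n j := by
      unfold preG
      rw [if_neg (fun h => by rcases h.1.2 with h | h <;> omega), e1]
    rw [e1] at hw
    rw [e2] at u1 u2 u3 hgt ⊢
    rw [e3]
    by_cases hc : n.sp = 3 ∧ n.n2 + j + S.P + 1 < n.nT + S.h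
    · have f1 : lay3 S n j = ⟨j, n.Ux - 1 - j, n.n2 + j + 1, n.nT + S.h, true, n.n2 + j + 1,
          n.nT + S.h, true, false⟩ := by
        unfold lay3
        rw [if_pos hc]
      have f2 : lay3 S n.up j = ⟨j, n.Ux + 1 - 1 - j, n.n2 + j + 1, n.nT + S.h, true,
          n.n2 + j + 1, n.nT + S.h, true, false⟩ := by
        unfold lay3
        exact if_pos hc
      have hj2 : n.nT + j + 1 ≤ n.Ux := by
        have := hA.jU
        rw [if_pos (by omega)] at this
        exact this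
      rw [f1] at hw ⊢
      rw [f2]
      have := gen4_P3Sel S n j z ⟨j, n.Ux - 1 - j, n.n2 + j + 1, n.nT + S.h, true,
          n.n2 + j + 1, n.nT + S.h, true, false⟩ ⟨j, n.Ux + 1 - 1 - j, n.n2 + j + 1,
          n.nT + S.h, true, n.n2 + j + 1, n.nT + S.h, true, false⟩ rfl rfl rfl rfl rfl
        (Or.inl rfl) hw (by change n.Ux + 1 - 1 - j = n.Ux - 1 - j + 1; omega)
      omega
    · have f1 : lay3 S n j = ⟨j, n.Ux - j, n.n2 + j + 1, wz S n + 2, true, n.n2 + j + 1, 0,
          false, false⟩ := by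
        unfold lay3
        rw [if_neg hc]
      have f2 : lay3 S n.up j = ⟨j, n.Ux + 1 - j, n.n2 + j + 1, wz S n.up + 2, true,
          n.n2 + j + 1, 0, false, false⟩ := by
        unfold lay3
        exact if_neg hc
      rw [f1] at hw ⊢
      rw [f2]
      have := gen4_P3Sel S n j z ⟨j, n.Ux - j, n.n2 + j + 1, wz S n + 2, true,
          n.n2 + j + 1, 0, false, false⟩ ⟨j, n.Ux + 1 - j, n.n2 + j + 1,
          wz S n.up + 2, true, n.n2 + j + 1, 0, false, false⟩ rfl rfl rfl rfl rfl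
        (Or.inr le_rfl) hw (by change n.Ux + 1 - j = n.Ux - j + 1; omega)
      omega
  by_cases h4 : S.mode = 4
  · have e1 : layOf S n j = lay4 S n j := by simp [layOf, h0, h4]
    have e2 : layOf S n.up j = lay4 S n.up j := by simp [layOf, hsu, h4]
    have e3 : preG S n j z = lay4 S n j := by
      unfold preG
      rw [if_neg (fun h => by rcases h.1.2 with h | h <;> omega), e1]
    rw [e1] at hw
    rw [e2] at u1 u2 u3 hgt hgt' ⊢
    rw [e3]
    have hk' : (lay4 S n.up j).k2 = false := by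
      unfold lay4
      split_ifs <;> rfl
    have hjj' : (lay4 S n.up j).j = j := by
      unfold lay4
      split_ifs <;> rfl
    have hU' : n.Ux - j ≤ (lay4 S n.up j).U := by
      unfold lay4
      split_ifs
      · change _ ≤ n.Ux + 1 - j
        omega
      · change _ ≤ n.Ux + 1 - 1 - j
        omega
      · change _ ≤ n.Ux + 1 - 1 - j
        omega
      · change _ ≤ n.Ux + 1 - j
        omega
    have hU2 : ¬ (n.sp = 3 ∧ n.n2 + n.Ux + S.P + S.cutG (n.n2 + j + S.Q + 2) + 1 + S.P <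
        n.nT + S.h) → (lay4 S n.up j).U = n.Ux + 1 - j := by
      intro hc
      unfold lay4
      split_ifs with g1 g2 g3
      · rfl
      · exfalso
        have g4 : n.sp = 3 ∧ n.n2 + (n.Ux + 1) + S.P + S.cutG (n.n2 + j + S.Q + 2) + 1 +
          S.P < n.nT + S.h := g2
        exact hc ⟨g4.1, by omega⟩
      · exfalso
        have g4 : n.sp = 3 ∧ n.n2 + (n.Ux + 1) + S.P + S.cutG (n.n2 + j + S.Q + 2) + 1 +
          S.P < n.nT + S.h := g2
        exact hc ⟨g4.1, by omega⟩
      · rfl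
    by_cases g1 : S.h < n.n2 + j + S.Q + 2
    · have f1 : lay4 S n j = layS S n j (wz S n) := by
        unfold lay4
        rw [if_pos g1]
      have f2 : lay4 S n.up j = layS S n.up j (wz S n.up) := by
        unfold lay4
        exact if_pos g1
      rw [f1] at hw ⊢
      rw [f2] at hgt' ⊢
      have := gen1_P3Sel S n j z (layS S n j (wz S n)) (layS S n.up j (wz S n.up))
        rfl rfl rfl rfl le_rfl hw (by change n.Ux - j + 1 ≤ n.Ux + 1 - j; omega) (hgt' rfl)
      omega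
    by_cases g2 : n.sp = 3 ∧ n.n2 + n.Ux + S.P + S.cutG (n.n2 + j + S.Q + 2) + 1 + S.P <
        n.nT + S.h
    · have hj2 : n.nT + j + 1 ≤ n.Ux := by
        have := hA.jU
        rw [if_pos (by omega)] at this
        exact this
      rw [if_pos g2.1]
      have hcG := S.cutG_le (n.n2 + j + S.Q + 2)
      have f1 : (lay4 S n j).k2 = false ∧ (lay4 S n j).j = j ∧
          (lay4 S n j).U = n.Ux - 1 - j ∧ n.n2 + j + S.P < (lay4 S n j).y1 ∧
          n.n2 + j + S.P + 1 < (lay4 S n j).y2 := by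
        unfold lay4
        rw [if_neg g1, if_pos g2]
        split_ifs with g3
        · refine ⟨rfl, rfl, rfl, ?_, ?_⟩
          · change _ < min _ _
            omega
          · change _ < max _ _
            omega
        · refine ⟨rfl, rfl, rfl, ?_, ?_⟩
          · change _ < min _ _
            omega
          · change _ < max _ _
            omega
      have := gen2_P3Sel S n j z (lay4 S n j) (lay4 S n.up j) f1.1 hk' f1.2.1 hjj'
        (Or.inl f1.2.2.2) (by rw [f1.2.2.1]; omega)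
      omega
    · have f1 : lay4 S n j = layS S n j (n.n2 + n.Ux + S.P +
          S.cutG (n.n2 + j + S.Q + 2) + 1) := by
        unfold lay4
        rw [if_neg g1, if_neg g2]
      rw [f1] at hw ⊢
      have := gen1_P3Sel S n j z (layS S n j (n.n2 + n.Ux + S.P +
          S.cutG (n.n2 + j + S.Q + 2) + 1)) (lay4 S n.up j)
        rfl hk' rfl hjj' le_rfl hw (by rw [hU2 g2]; change n.Ux - j + 1 ≤ n.Ux + 1 - j; omega)
        (hgt' hk')
      omega
  by_cases ht : topY S n
  · obtain ⟨t1, t2, t3, t4⟩ := top_P3Sel S n j ht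
    rw [t2] at hgt' ⊢
    rw [t1] at hw
    have hp : ∃ y, preG S n j z = layS S n j y := by
      unfold preG
      split_ifs
      · exact ⟨_, rfl⟩
      · exact ⟨_, t1⟩
    obtain ⟨y, hy⟩ := hp
    rw [hy]
    have := gen1_P3Sel S n j z (layS S n j y) (layS S n.up j (layOf S n.up j).y) rfl rfl rfl
      rfl le_rfl hw (by change n.Ux - j + 1 ≤ n.Ux + 1 - j; omega) (hgt' rfl)
    omega
  have h2 : S.mode ≠ 2 := fun h => ht ⟨h0, Or.inl h⟩
  have h5 : S.mode = 5 := by omega
  have e1 : layOf S n j = lay5 S n j := by simp [layOf, h0, h5]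
  have e2 : layOf S n.up j = lay5 S n.up j := by simp [layOf, hsu, h5]
  have e3 : preG S n j z = lay5 S n j := by
    unfold preG
    rw [if_neg (fun h => ht h.1), e1]
  rw [e1] at hw
  rw [e2] at u1 u2 u3 hgt hgt' ⊢
  rw [e3]
  rcases lay5_P3Sel S n j with ⟨a1, a2, a3⟩ | ⟨a1, a2⟩
  · rw [a1] at hw ⊢
    have hU' : n.Ux + 1 - j ≤ (lay5 S n.up j).U ∧ (lay5 S n.up j).k2 = false ∧
        (lay5 S n.up j).j = j := by
      rcases lay5_P3Sel S n.up j with ⟨b1, b2, b3⟩ | ⟨b1, b2⟩
      · rw [b1]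
        refine ⟨?_, rfl, rfl⟩
        change _ ≤ n.Ux + 1 - j + 1
        omega
      · rw [b1]
        exact ⟨le_rfl, rfl, rfl⟩
    have := gen3_P3Sel S n j z (layLg S n j) (lay5 S n.up j) rfl hU'.2.1 rfl hU'.2.2
      le_rfl le_rfl hw (by change n.Ux - j + 1 ≤ _; omega)
    omega
  · rw [a1] at hw ⊢
    have hU' : n.Ux + 1 - j ≤ (lay5 S n.up j).U ∧ (lay5 S n.up j).k2 = false ∧
        (lay5 S n.up j).j = j := by
      rcases lay5_P3Sel S n.up j with ⟨b1, b2, b3⟩ | ⟨b1, b2⟩
      · rw [b1]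
        refine ⟨?_, rfl, rfl⟩
        change _ ≤ n.Ux + 1 - j + 1
        omega
      · rw [b1]
        exact ⟨le_rfl, rfl, rfl⟩
    have := gen1_P3Sel S n j z (layS S n j (lay5 S n j).y) (lay5 S n.up j) rfl hU'.2.1 rfl
      hU'.2.2 le_rfl hw (by change n.Ux - j + 1 ≤ _; omega) (hgt' hU'.2.1)
    omega

/-- the value `z - 1` is excluded, `z - 2` is the last label `X` -/
private theorem c2_P3Sel (S : Seam k ld al) (n : Num) (j z need : ℕ) (hA : Adm S n j)
    (hn : need ≤ n.nT + S.h + n.n2 + j + 2) (hz : ZG S n j z)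
    (hX : Xl S n.up (layOf S n.up j) (layOf S n.up j).U + 2 = z)
    (he : ¬ ZG S n j (z - 1)) : sk z (pl S n (preG S n j z) k) ≤
        pl S n.up (layOf S n.up j) k ∨
      need ≤ pl S n.up (layOf S n.up j) k +
        Xl S n.up (layOf S n.up j) (layOf S n.up j).U := by
  have L := low_all S n j hA
  have hw := L.w_ge
  rw [lay_j'] at hw
  obtain ⟨u1, u2, u3⟩ := up_P3Sel S n j hA
  have hle := hz.le
  have hPQ := S.PQ
  have hPh := S.Ph
  have hrk := rk_P3Sel S
  have hwu := wz_up S n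
  have hjU : n.nT + j ≤ n.Ux := by
    have := hA.jU
    split_ifs at this <;> omega
  by_cases ht : topY S n
  · obtain ⟨t1, t2, t3, t4⟩ := top_P3Sel S n j ht
    have hzy : z - 1 = (layOf S n j).y + 1 := by
      by_contra hne
      refine he ⟨by omega, by omega, fun _ => hne, fun _ h5 hlg _ => ?_⟩
      rw [t1] at hlg
      exact absurd hlg (by simp [layS])
    left
    have hp : preG S n j z = layS S n j ((layOf S n j).y + 1) := by
      unfold preG
      rw [if_pos ⟨ht, by omega⟩]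
    rw [hp, plk_P3Sel, plk_P3Sel]
    rw [t2] at hX u1 u2 ⊢
    rw [t1] at hw
    set y0 := (layOf S n j).y with hy0
    set y1 := (layOf S n.up j).y with hy1
    have hX' : lam y1 (wz S n.up + 2) (n.n2 + j + S.P + (n.Ux + 1 - j)) + 2 = z := hX
    change n.n2 + j + (n.Ux - j) + S.h + 1 ≤ wz S n at hw
    change sk z (lam (y0 + 1) (wz S n + 2) (if S.rk k ≤ S.P then n.n2 + j + S.rk k else
      n.n2 + j + (n.Ux - j) + S.rk k)) ≤ lam y1 (wz S n.up + 2)
      (if S.rk k ≤ S.P then n.n2 + j + S.rk k else n.n2 + j + (n.Ux + 1 - j) + S.rk k)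
    have hX2 : n.n2 + j + S.P + (n.Ux + 1 - j) + 2 ≤ z := by
      have := le_lam y1 (wz S n.up + 2) (n.n2 + j + S.P + (n.Ux + 1 - j))
      omega
    rcases hrk with ⟨r1, r2⟩ | ⟨r1, r2⟩
    · rw [if_pos r2, if_pos r2]
      unfold lam sk
      split_ifs <;> omega
    · rw [if_neg (by omega), if_neg (by omega)]
      unfold lam sk
      split_ifs <;> omega
  · have hnl : n.sp ≠ 0 ∧ S.mode = 5 ∧ (layOf S n j).lg = true ∧
        (layOf S n.up j).lg = false ∧ z - 1 = n.n2 + n.Ux + S.P + 2 := by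
      by_contra hne
      refine he ⟨by omega, by omega, fun h => absurd h ht, fun a1 a2 a3 a4 a5 => ?_⟩
      exact hne ⟨a1, a2, a3, a4, a5⟩
    obtain ⟨h0, h5, hlg, hlg', hzv⟩ := hnl
    have hsu : n.up.sp ≠ 0 := h0
    have e1 : layOf S n j = lay5 S n j := by simp [layOf, h0, h5]
    have e2 : layOf S n.up j = lay5 S n.up j := by simp [layOf, hsu, h5]
    have e3 : preG S n j z = lay5 S n j := by
      unfold preG
      rw [if_neg (fun h => ht h.1), e1]
    rw [e1] at hlg hw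
    rw [e2] at hlg' hX u1 u2 ⊢
    rw [e3]
    rcases lay5_P3Sel S n j with ⟨a1, a2, a3⟩ | ⟨a1, a2⟩
    swap
    · rw [a1] at hlg
      exact absurd hlg (by simp [layS])
    rcases lay5_P3Sel S n.up j with ⟨b1, b2, b3⟩ | ⟨b1, b2⟩
    · rw [b1] at hlg'
      exact absurd hlg' (by simp [layLg])
    change n.n2 + (n.Ux + 1) + S.P + 2 < S.Q ∨ S.Q + n.nT < n.n2 + (n.Ux + 1) + S.P + 2 at b2
    rw [a1] at hw ⊢
    rw [b1] at hX u1 u2 ⊢
    rw [plk_P3Sel, plk_P3Sel]
    set y1 := (lay5 S n.up j).y with hy1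
    change n.n2 + j + (n.Ux - j + 1) + S.h + 1 ≤ wz S n at hw
    change sk z (lam (wz S n + 1) (wz S n + 2) (if S.rk k ≤ S.P then n.n2 + j + S.rk k else
      n.n2 + j + (n.Ux - j + 1) + S.rk k)) ≤ lam y1 (wz S n.up + 2)
      (if S.rk k ≤ S.P then n.n2 + j + S.rk k else n.n2 + j + (n.Ux + 1 - j) + S.rk k) ∨
      need ≤ lam y1 (wz S n.up + 2) (if S.rk k ≤ S.P then n.n2 + j + S.rk k else
        n.n2 + j + (n.Ux + 1 - j) + S.rk k) +
        Xl S n.up (layS S n.up j y1) (layS S n.up j y1).U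
    have hl := le_lam y1 (wz S n.up + 2) (if S.rk k ≤ S.P then n.n2 + j + S.rk k else
        n.n2 + j + (n.Ux + 1 - j) + S.rk k)
    rcases hrk with ⟨r1, r2⟩ | ⟨r1, r2⟩
    · left
      refine le_trans ?_ hl
      rw [if_pos r2, if_pos r2]
      unfold lam sk
      split_ifs <;> omega
    · right
      rw [if_neg (by omega)] at hl ⊢
      omega

/-- the label of the edge `k` decreases in the zone `ZG` -/
private theorem mono_P3Sel (S : Seam k ld al) (n : Num) (j z z' : ℕ) (hzz : z ≤ z') :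
    sk z' (pl S n (preG S n j z') k) ≤ sk z (pl S n (preG S n j z) k) := by
  have h1 : pl S n (preG S n j z') k ≤ pl S n (preG S n j z) k := by
    unfold preG
    by_cases ht : topY S n ∧ (layOf S n j).y + 1 < z
    · rw [if_pos ht, if_pos ⟨ht.1, by omega⟩]
    · rw [if_neg ht]
      by_cases ht' : topY S n ∧ (layOf S n j).y + 1 < z'
      · rw [if_pos ht', plk_P3Sel, plk_P3Sel]
        have e := (top_P3Sel S n j ht'.1).1
        set y0 := (layOf S n j).y with hy0
        rw [e]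
        change lam (y0 + 1) (wz S n + 2) (if S.rk k ≤ S.P then n.n2 + j + S.rk k else
          n.n2 + j + (n.Ux - j) + S.rk k) ≤ lam y0 (wz S n + 2)
          (if S.rk k ≤ S.P then n.n2 + j + S.rk k else n.n2 + j + (n.Ux - j) + S.rk k)
        unfold lam
        split_ifs <;> omega
      · rw [if_neg ht']
  unfold sk
  split_ifs <;> omega

/-- at most one value is excluded -/
private theorem excl_P3Sel (S : Seam k ld al) (n : Num) (j z z' : ℕ)
    (h1 : Xl S n.up (layOf S n.up j) (layOf S n.up j).U < z) (h2 : z ≤ wz S n.up)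
    (h1' : Xl S n.up (layOf S n.up j) (layOf S n.up j).U < z') (h2' : z' ≤ wz S n.up)
    (hne : z ≠ z') (h : ¬ ZG S n j z) : ZG S n j z' := by
  by_contra h'
  have hQ := S.Qh
  by_cases ht : topY S n
  · obtain ⟨t1, t2, t3, t4⟩ := top_P3Sel S n j ht
    have key : ∀ x, Xl S n.up (layOf S n.up j) (layOf S n.up j).U < x → x ≤ wz S n.up →
        ¬ ZG S n j x → x = (layOf S n j).y + 1 := by
      intro x x1 x2 x3
      by_contra hx
      refine x3 ⟨x1, x2, fun _ => hx, fun _ h5 hlg _ => ?_⟩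
      rw [t1] at hlg
      exact absurd hlg (by simp [layS])
    exact hne ((key z h1 h2 h).trans (key z' h1' h2' h').symm)
  · have key : ∀ x, Xl S n.up (layOf S n.up j) (layOf S n.up j).U < x → x ≤ wz S n.up →
        ¬ ZG S n j x → x = n.n2 + n.Ux + S.P + 2 := by
      intro x x1 x2 x3
      by_contra hx
      exact x3 ⟨x1, x2, fun h => absurd h ht, fun _ _ _ _ => hx⟩
    exact hne ((key z h1 h2 h).trans (key z' h1' h2' h').symm)

private theorem gP_P3Sel (S : Seam k ld al) (n : Num) (j z : ℕ) :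
    (funG S n j z).p k = sk z (pl S n (preG S n j z) k) := by
  change (if k % 2 = 1 then sk z (pl S n (preG S n j z) k) else
    pl S n (preG S n j z) k + 1) = _
  rw [if_pos (kodd_P3Sel S)]

/-- the distance of two consecutive labels `X` -/
private theorem step_P3Sel (S : Seam k ld al) (n : Num) (j i : ℕ) (hA : Adm S n j)
    (hi : i + 1 ≤ (layOf S n.up j).U) :
    Xl S n.up (layOf S n.up j) i < Xl S n.up (layOf S n.up j) (i + 1) ∧
      Xl S n.up (layOf S n.up j) (i + 1) ≤
        Xl S n.up (layOf S n.up j) i + 2 + (if n.sp = 3 then 1 else 0) := by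
  obtain ⟨u1, u2, u3⟩ := up_P3Sel S n j hA
  have L := low_all S n.up j (adm_up hA)
  have hPh := S.Ph
  have hP1 := S.P1
  refine ⟨L.X_mono (Nat.lt_succ_self i), ?_⟩
  have e : ∀ t, Xl S n.up (layOf S n.up j) t = lam (layOf S n.up j).y1 (layOf S n.up j).y2
      (n.n2 + j + S.P + t - (if (layOf S n.up j).k2 = true then 1 else 0)) := by
    intro t
    unfold Xl
    rw [lay_j']
    rfl
  rw [e, e]
  set c := (if (layOf S n.up j).k2 = true then 1 else 0) with hc
  have hc1 : c ≤ 1 := by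
    rw [hc]
    split_ifs <;> omega
  rcases u3 with h | h
  · rw [h]
    unfold lam
    split_ifs <;> omega
  · rw [if_pos h]
    unfold lam
    split_ifs <;> omega

/-- the descent -/
private theorem desc_P3Sel (S : Seam k ld al) (n : Num) (j need : ℕ) (hA : Adm S n j)
    (h0 : pl S n.up (layOf S n.up j) k + Xl S n.up (layOf S n.up j) 1 < need)
    (hn : need ≤ n.nT + S.h + n.n2 + j + 2) : ∀ (b z : ℕ), z ≤ b → ∀ Λ, LayR S n j z Λ →
      need ≤ Λ.p k + z → ∃ z Λ, LayR S n j z Λ ∧ need ≤ Λ.p k + z ∧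
      Λ.p k + z ≤ need + 1 + (if n.sp = 3 then 1 else 0) := by
  obtain ⟨u1, u2, u3⟩ := up_P3Sel S n j hA
  intro b
  induction b with
  | zero =>
    intro z hz Λ hΛ _
    exfalso
    have h1 := (fzed_R S n j z hA hΛ).rng.1
    rw [hΛ.Z.2] at h1
    omega
  | succ b ih =>
    intro z hz Λ hΛ hneed
    by_cases hgood : Λ.p k + z ≤ need + 1 + (if n.sp = 3 then 1 else 0)
    · exact ⟨z, Λ, hΛ, hneed, hgood⟩
    cases hΛ with
    | X hx =>
      obtain ⟨i, i1, i2, i3⟩ := hx
      change ¬ pl S n.up (layOf S n.up j) k + z ≤ _ at hgood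
      by_cases hi : i = 1
      · exfalso
        subst hi
        rw [i3] at h0
        split_ifs at hgood <;> omega
      · obtain ⟨i', rfl⟩ : ∃ i', i = i' + 1 := ⟨i - 1, by omega⟩
        obtain ⟨s1, s2⟩ := step_P3Sel S n j i' hA i2
        rw [i3] at s1 s2
        refine ih (Xl S n.up (layOf S n.up j) i') (by omega) _
          (LayR.X _ ⟨i', by omega, by omega, rfl⟩) ?_
        change need ≤ pl S n.up (layOf S n.up j) k + _
        omega
    | G hg =>
      rw [gP_P3Sel] at hgood hneed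
      have hgt := hg.gt
      have hle := hg.le
      by_cases c1 : Xl S n.up (layOf S n.up j) (layOf S n.up j).U < z - 1
      · by_cases c2 : ZG S n j (z - 1)
        · refine ih (z - 1) (by omega) _ (LayR.G _ c2) ?_
          rw [gP_P3Sel]
          have := mono_P3Sel S n j (z - 1) z (by omega)
          omega
        · by_cases c3 : Xl S n.up (layOf S n.up j) (layOf S n.up j).U < z - 2
          · have c4 : ZG S n j (z - 2) := excl_P3Sel S n j (z - 1) (z - 2) c1 (by omega) c3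
              (by omega) (by omega) c2
            refine ih (z - 2) (by omega) _ (LayR.G _ c4) ?_
            rw [gP_P3Sel]
            have := mono_P3Sel S n j (z - 2) z (by omega)
            omega
          · refine ih (Xl S n.up (layOf S n.up j) (layOf S n.up j).U) (by omega) _
              (LayR.X _ ⟨_, u1, le_rfl, rfl⟩) ?_
            change need ≤ pl S n.up (layOf S n.up j) k + _
            rcases c2_P3Sel S n j z need hA hn hg (by omega) c2 with h | h
            · omega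
            · exact h
      · refine ih (Xl S n.up (layOf S n.up j) (layOf S n.up j).U) (by omega) _
          (LayR.X _ ⟨_, u1, le_rfl, rfl⟩) ?_
        change need ≤ pl S n.up (layOf S n.up j) k + _
        have := c1_P3Sel S n j z hA hg
        omega

theorem p3_sel (S : Seam k ld al) (n : Num) (j need : ℕ) (hA : Adm S n j)
    (h0 : (funP S n j).p k + (funP S n j).X 1 < need)
    (hn : need ≤ n.nT + S.h + n.n2 + j + 2) :
    ∃ z Λ, LayR S n j z Λ ∧ need ≤ Λ.p k + z ∧
      Λ.p k + z ≤ need + 1 + (if n.sp = 3 then 1 else 0) := by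
  obtain ⟨u1, u2, u3⟩ := up_P3Sel S n j hA
  have hjU : n.nT + j ≤ n.Ux := by
    have := hA.jU
    split_ifs at this <;> omega
  have hwu := wz_up S n
  have low : ∀ z Λ, LayR S n j z Λ → n.n2 + j + 1 + z ≤ Λ.p k + z := by
    intro z Λ h
    have h1 := (flow_Z S n j hA h.Z.1).p_odd k (by have := S.hk; omega) le_rfl (kodd_P3Sel S)
    rw [h.Z.1.hj] at h1
    omega
  have hex : ∃ z Λ, LayR S n j z Λ ∧ need ≤ Λ.p k + z := by
    by_cases hs : n.sp = 0
    · have hw : wz S n = n.n2 + n.Ux + S.h + 1 := by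
        unfold wz
        rw [if_pos hs]
      by_cases c : Xl S n.up (layOf S n.up j) (layOf S n.up j).U < wz S n.up
      · have hg : ZG S n j (wz S n.up) := ⟨c, le_rfl, fun h => absurd hs h.1,
          fun h => absurd hs h⟩
        refine ⟨_, _, LayR.G _ hg, ?_⟩
        have := low _ _ (LayR.G _ hg)
        omega
      · have hx : ZX S n j (Xl S n.up (layOf S n.up j) (layOf S n.up j).U) :=
          ⟨_, u1, le_rfl, rfl⟩
        refine ⟨_, _, LayR.X _ hx, ?_⟩
        have := low _ _ (LayR.X _ hx)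
        omega
    · have hw : wz S n = n.n2 + n.Ux + S.h + 2 := by
        unfold wz
        rw [if_neg hs]
      by_cases c : Xl S n.up (layOf S n.up j) (layOf S n.up j).U + 1 < wz S n.up
      · by_cases hg : ZG S n j (wz S n.up)
        · refine ⟨_, _, LayR.G _ hg, ?_⟩
          have := low _ _ (LayR.G _ hg)
          omega
        · have hg' : ZG S n j (wz S n.up - 1) := excl_P3Sel S n j (wz S n.up)
            (wz S n.up - 1) (by omega) le_rfl (by omega) (by omega) (by omega) hg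
          refine ⟨_, _, LayR.G _ hg', ?_⟩
          have := low _ _ (LayR.G _ hg')
          omega
      · have hx : ZX S n j (Xl S n.up (layOf S n.up j) (layOf S n.up j).U) :=
          ⟨_, u1, le_rfl, rfl⟩
        refine ⟨_, _, LayR.X _ hx, ?_⟩
        have := low _ _ (LayR.X _ hx)
        omega
  obtain ⟨z, Λ, h1, h2⟩ := hex
  exact desc_P3Sel S n j need hA h0 hn z z le_rfl Λ h1 h2

end Pool.Agent.Lob5
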