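import Pool.Agent.Lob89.Defs

/-!
# The plan: roles of vertices, bushes and leaves

Roles of path vertices (`RV`):
`C` nothing attached; `A` one leaf only; `F` one bush with at least three leaves only;
`As, Fs, FR` the special `A` resp. `F`; `II` at least two leaves; `I` one leaf and a bush with at
least three leaves; `Z` (static, absorbs an `X` label) some bush with at most two leaves, at most one
leaf; `R3` no leaf, at least two bushes, all with at least three leaves, one with three;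
`R4` the same with at least four leaves each.
Roles of bushes (`RB`): `L` at most two leaves; `st` ordinary; `self` its top is the `l`-label of the
vertex and its pair; `xo, sp` bushes which own a pair and have a `T` top (`xo`: exactly three leaves
`u, v, x`; `sp`: `u, v, l, x` and statics); `tl` the bush of the special `F` (top is the label `y`).
Leaves at path vertices (`SV`): `l, x, s` (static), `y`. Bush leaves (`SB`): `l, x, s, s0, u, v, x0`.
`ds`: designated bush of a static vertex; `sf i`: the `self` bush at `i`; `dg i`: the designated bush at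
`i`; `t1 i, t2 i`: the bushes of kind `xo, sp` at `i`.
-/

namespace Pool.Agent.Lob5

open Pool.Agent.Lob89

/-- roles of path vertices -/
inductive RV
  | C
  | A
  | As
  | F
  | Fs
  | FR
  | II
  | I
  | Z
  | R3
  | R4
  deriving DecidableEq

/-- roles of bushes -/
inductive RB
  | L
  | st
  | self
  | xo
  | sp
  | tl
  deriving DecidableEq

/-- roles of leaves at path vertices -/
inductive SV
  | l
  | x
  | s
  | y
  deriving DecidableEq

/-- roles of bush leaves -/
inductive SB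
  | l
  | x
  | s
  | s0
  | u
  | v
  | x0
  deriving DecidableEq

/-- ordinary marked vertices -/
def RV.isA : RV → Bool
  | .A => true
  | .F => true
  | _ => false

/-- static vertices, without the special one -/
def RV.isS : RV → Bool
  | .Z => true
  | .R3 => true
  | .R4 => true
  | _ => false

/-- loaded vertices which are not marked -/
def RV.isN : RV → Bool
  | .II => true
  | .I => true
  | r => r.isS

/-- all static vertices -/
def RV.isT : RV → Bool
  | .FR => true
  | r => r.isS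

/-- bushes whose top is in the `T` zone -/
def RB.top : RB → Bool
  | .L => true
  | .st => true
  | .xo => true
  | .sp => true
  | _ => false

/-- bushes which own a pair -/
def RB.pr : RB → Bool
  | .self => true
  | .xo => true
  | .sp => true
  | _ => false

/-- bushes with an `l`-label -/
def RB.hasl : RB → Bool
  | .st => true
  | .self => true
  | .sp => true
  | .tl => true
  | _ => false

/-- The roles. -/
structure PlanData (Lf B BL : Type*) where
  rv : ℕ → RV
  rb : B → RB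
  rl : Lf → SV
  rs : BL → SB
  ds : B → Bool
  sf : ℕ → Option B
  dg : ℕ → Option B
  t1 : ℕ → Option B
  t2 : ℕ → Option B

section

variable {Lf B BL : Type*} [Fintype Lf] [Fintype B] [Fintype BL] [DecidableEq B]

/-- number of leaves of the path vertex `i` with role `κ` -/
def PlanData.cl (D : PlanData Lf B BL) (la : Lf → ℕ) (i : ℕ) (κ : SV) : ℕ :=
  (Finset.univ.filter fun x => la x = i ∧ D.rl x = κ).card

/-- number of leaves of the bush `b` with role `κ` -/
def PlanData.cb (D : PlanData Lf B BL) (par : BL → B) (b : B) (κ : SB) : ℕ :=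
  (Finset.univ.filter fun y => par y = b ∧ D.rs y = κ).card

/-- The plan is correct. -/
structure PlanOK (D : PlanData Lf B BL) (k : ℕ) (la : Lf → ℕ) (ba : B → ℕ) (par : BL → B) :
    Prop where
  hd : LobData k la ba par
  -- leaves at path vertices
  l_l : ∀ i, 1 ≤ i → i < k → D.cl la i .l = if D.rv i = .A ∨ D.rv i = .II then 1 else 0
  l_x : ∀ i, 1 ≤ i → i < k → D.cl la i .x = if D.rv i = .II ∨ D.rv i = .I then 1 else 0
  l_y : ∀ i, 1 ≤ i → i < k → D.cl la i .y = if D.rv i = .As then 1 else 0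
  l_s : ∀ i, 1 ≤ i → i < k → D.cl la i .s ≠ 0 → D.rv i = .II ∨ D.rv i = .Z
  l_Z : ∀ i, 1 ≤ i → i < k → D.rv i = .Z → D.cl la i .s ≤ 1
  -- bushes at path vertices
  b_C : ∀ b, D.rv (ba b) ≠ .C ∧ D.rv (ba b) ≠ .A ∧ D.rv (ba b) ≠ .As
  b_F : ∀ b, D.rv (ba b) = .F → D.rb b = .self
  b_Fs : ∀ b, D.rb b = .tl ↔ D.rv (ba b) = .Fs
  b_FR : ∀ b, D.rv (ba b) = .FR → (D.rb b = .xo ∨ D.rb b = .sp) ∧ D.ds b = true
  b_II : ∀ b, D.rv (ba b) = .II → D.rb b = .L ∨ D.rb b = .st
  b_I : ∀ b, D.rv (ba b) = .I → D.rb b = .L ∨ D.rb b = .st ∨ D.rb b = .self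
  b_Z : ∀ b, D.rv (ba b) = .Z → D.rb b = .L ∨ (D.rb b = .st ∧ D.ds b = false)
  b_R3 : ∀ b, D.rv (ba b) = .R3 → D.rb b = .st ∨
    ((D.rb b = .xo ∨ D.rb b = .sp) ∧ D.ds b = false)
  b_R4 : ∀ b, D.rv (ba b) = .R4 → (D.rb b = .st ∧ D.ds b = false) ∨ D.rb b = .sp
  one : ∀ b b', ba b = ba b' → (D.rv (ba b) = .F ∨ D.rv (ba b) = .Fs ∨ D.rv (ba b) = .FR) →
    b = b'
  Fs_ex : ∀ i, 1 ≤ i → i < k → D.rv i = .Fs → ∃ b, ba b = i
  -- the self bushes
  self_sf : ∀ b, D.rb b = .self ↔ D.sf (ba b) = some b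
  sf_ba : ∀ i b, D.sf i = some b → ba b = i
  sf_ex : ∀ i, 1 ≤ i → i < k → D.rv i = .F ∨ D.rv i = .I → ∃ b, D.sf i = some b
  sf_rv : ∀ b, D.rb b = .self → D.rv (ba b) = .F ∨ D.rv (ba b) = .I
  -- the designated bushes
  ds_dg : ∀ b, D.ds b = true ↔ D.dg (ba b) = some b
  dg_ba : ∀ i b, D.dg i = some b → ba b = i
  dg_ex : ∀ i, 1 ≤ i → i < k → (D.rv i).isT = true → ∃ b, D.dg i = some b
  dg_rv : ∀ b, D.ds b = true → (D.rv (ba b)).isT = true
  dg_R3 : ∀ b, D.ds b = true → D.rv (ba b) = .R3 → D.rb b = .st ∧ D.cb par b .s = 1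
  -- the bushes of kind `xo`, `sp`
  tok : ∀ b, (D.rb b = .xo ∨ D.rb b = .sp) ↔ (D.t1 (ba b) = some b ∨ D.t2 (ba b) = some b)
  t1_ba : ∀ i b, D.t1 i = some b → ba b = i
  t2_ba : ∀ i b, D.t2 i = some b → ba b = i
  t1_ex : ∀ i, 1 ≤ i → i < k → D.rv i = .R3 ∨ D.rv i = .R4 ∨ D.rv i = .FR → ∃ b, D.t1 i = some b
  t1_rv : ∀ b, D.t1 (ba b) = some b → D.rv (ba b) = .R3 ∨ D.rv (ba b) = .R4 ∨ D.rv (ba b) = .FR
  t1_ds : ∀ b, D.t1 (ba b) = some b → (D.ds b = true ↔ D.rv (ba b) = .FR)
  t2_ex : ∀ i, 1 ≤ i → i < k → D.rv i = .R4 → ∃ b, D.t2 i = some b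
  t2_rv : ∀ b, D.t2 (ba b) = some b → D.rv (ba b) = .R4
  t2_ds : ∀ b, D.t2 (ba b) = some b → D.ds b = true
  -- leaves of bushes
  s_l : ∀ b, D.cb par b .l = if (D.rb b).hasl then 1 else 0
  s_x : ∀ b, D.cb par b .x = 1
  s_u : ∀ b, D.cb par b .u = if D.rb b = .xo ∨ D.rb b = .sp then 1 else 0
  s_v : ∀ b, D.cb par b .v = if (D.rb b).pr then 1 else 0
  s_s0 : ∀ b, D.cb par b .s0 = if D.rb b = .tl then 1 else 0
  s_x0 : ∀ b, D.cb par b .x0 ≤ if D.rb b = .L then 1 else 0
  s_s : ∀ b, D.rb b = .L ∨ D.rb b = .xo → D.cb par b .s = 0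
  s_st : ∀ b, D.rb b = .st → 1 ≤ D.cb par b .s

/-- Something is not pure: a vertex of one of the roles `F, Fs, FR, II, I`, or a static leaf, or a
bush with `T` top which is not designated. -/
def PlanData.NP (D : PlanData Lf B BL) (k : ℕ) : Prop :=
  (∃ i, 1 ≤ i ∧ i < k ∧
    (D.rv i = .F ∨ D.rv i = .Fs ∨ D.rv i = .FR ∨ D.rv i = .II ∨ D.rv i = .I)) ∨
  (∃ x, D.rl x = .s) ∨ ∃ b, (D.rb b).top = true ∧ D.ds b = false

/-- number of bushes of role `ρ` -/
def PlanData.nb (D : PlanData Lf B BL) (ρ : RB) : ℕ :=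
  (Finset.univ.filter fun b => D.rb b = ρ).card

/-- number of path vertices of role `ρ` -/
def PlanData.nv (D : PlanData Lf B BL) (k : ℕ) (ρ : RV) : ℕ :=
  ((Finset.range k).filter fun i => 1 ≤ i ∧ D.rv i = ρ).card

/-- number of static leaves -/
def PlanData.ns (D : PlanData Lf B BL) : ℕ :=
  (Finset.univ.filter fun x => D.rl x = .s).card
    + (Finset.univ.filter fun y => D.rs y = .s ∨ D.rs y = .s0).card

/-- number of second leaves of bushes of role `L` -/
def PlanData.n2 (D : PlanData Lf B BL) : ℕ := (Finset.univ.filter fun y => D.rs y = .x0).card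

end

end Pool.Agent.Lob5
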