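import Pool.Agent.Lob5.Plan

/-!
# Existence of the plan: the leaves of the bushes

`exists_assign`: by induction over `S` (or over the sum), or via an equivalence of `S` with
`Σ κ, Fin (n κ)`.
`exists_rs`: for every bush `b` apply `exists_assign` to the set of its leaves with the numbers given by
its role and glue along `par`: with `r` the number of leaves
`L`: `x` once, `x0` `r - 1` times; `st`: `l, x` once, `s` `r - 2` times; `self`: `v, l, x` once, `s`
`r - 3` times; `xo`: `u, v, x`; `sp`: `u, v, l, x` once, `s` `r - 4` times; `tl`: `s0, l, x` once,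
`s` `r - 3` times.
-/

namespace Pool.Agent.Lob5

theorem exists_assign {α κ : Type*} [DecidableEq α] [Fintype κ] [DecidableEq κ] [Nonempty κ]
    (S : Finset α) (n : κ → ℕ) (h : ∑ c, n c = S.card) :
    ∃ f : α → κ, ∀ c, (S.filter fun a => f a = c).card = n c := by
  have hcard : Fintype.card S = Fintype.card (Σ c, Fin (n c)) := by
    rw [Fintype.card_coe, Fintype.card_sigma, ← h]
    exact Finset.sum_congr rfl fun c _ => (Fintype.card_fin _).symm
  obtain ⟨e⟩ : Nonempty (S ≃ Σ c, Fin (n c)) := ⟨Fintype.equivOfCardEq hcard⟩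
  have c₀ : κ := Classical.arbitrary κ
  refine ⟨fun a => if h : a ∈ S then (e ⟨a, h⟩).1 else c₀, fun c => ?_⟩
  have himg : (S.filter fun a => (if h : a ∈ S then (e ⟨a, h⟩).1 else c₀) = c) =
      (Finset.univ : Finset (Fin (n c))).image fun i => ((e.symm ⟨c, i⟩ : S) : α) := by
    ext a
    rw [Finset.mem_filter, Finset.mem_image]
    constructor
    · rintro ⟨ha, hc⟩
      rw [dif_pos ha] at hc
      subst hc
      refine ⟨(e ⟨a, ha⟩).2, Finset.mem_univ _, ?_⟩
      rw [Sigma.eta, Equiv.symm_apply_apply]
    · rintro ⟨i, -, rfl⟩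
      refine ⟨(e.symm ⟨c, i⟩).2, ?_⟩
      rw [dif_pos (e.symm ⟨c, i⟩).2]
      show (e (e.symm ⟨c, i⟩)).1 = c
      rw [Equiv.apply_symm_apply]
  rw [himg, Finset.card_image_of_injective, Finset.card_univ, Fintype.card_fin]
  intro i j hij
  have h1 := e.symm.injective (Subtype.ext hij)
  exact eq_of_heq (Sigma.mk.inj_iff.1 h1).2

/-- the numbers of the leaves of the different kinds -/
private def num (rb : RB) (r : ℕ) : SB → ℕ
  | .l => if rb.hasl then 1 else 0
  | .x => 1
  | .u => if rb = .xo ∨ rb = .sp then 1 else 0
  | .v => if rb.pr then 1 else 0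
  | .s0 => if rb = .tl then 1 else 0
  | .x0 => if rb = .L then r - 1 else 0
  | .s => match rb with
    | .L => 0
    | .st => r - 2
    | .self => r - 3
    | .xo => 0
    | .sp => r - 4
    | .tl => r - 3

private def allSB : Finset SB := {.l, .x, .s, .s0, .u, .v, .x0}

private lemma sum_num (rb : RB) (r : ℕ) (hL : rb = .L → 1 ≤ r)
    (h3 : rb = .st ∨ rb = .self ∨ rb = .tl → 3 ≤ r) (hx : rb = .xo → r = 3)
    (h4 : rb = .sp → 4 ≤ r) : ∑ c ∈ allSB, num rb r c = r := by
  unfold allSB
  rw [Finset.sum_insert (by decide), Finset.sum_insert (by decide), Finset.sum_insert (by decide),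
    Finset.sum_insert (by decide), Finset.sum_insert (by decide), Finset.sum_insert (by decide),
    Finset.sum_singleton]
  cases rb with
  | L =>
    have := hL rfl
    simp [num, RB.hasl, RB.pr]
    omega
  | st =>
    have := h3 (Or.inl rfl)
    simp [num, RB.hasl, RB.pr]
    omega
  | self =>
    have := h3 (Or.inr (Or.inl rfl))
    simp [num, RB.hasl, RB.pr]
    omega
  | xo =>
    have := hx rfl
    simp [num, RB.hasl, RB.pr]
    omega
  | sp =>
    have := h4 rfl
    simp [num, RB.hasl, RB.pr]
    omega
  | tl =>
    have := h3 (Or.inr (Or.inr rfl))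
    simp [num, RB.hasl, RB.pr]
    omega

theorem exists_rs {B BL : Type*} [Fintype BL] [DecidableEq B] [DecidableEq BL] (par : BL → B)
    (rb : B → RB)
    (hL : ∀ b, rb b = .L → 1 ≤ (Finset.univ.filter fun y => par y = b).card ∧
      (Finset.univ.filter fun y => par y = b).card ≤ 2)
    (h3 : ∀ b, rb b = .st ∨ rb b = .self ∨ rb b = .tl →
      3 ≤ (Finset.univ.filter fun y => par y = b).card)
    (hx : ∀ b, rb b = .xo → (Finset.univ.filter fun y => par y = b).card = 3)
    (h4 : ∀ b, rb b = .sp → 4 ≤ (Finset.univ.filter fun y => par y = b).card) :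
    ∃ rs : BL → SB, ∀ b,
      (Finset.univ.filter fun y => par y = b ∧ rs y = .l).card = (if (rb b).hasl then 1 else 0) ∧
      (Finset.univ.filter fun y => par y = b ∧ rs y = .x).card = 1 ∧
      (Finset.univ.filter fun y => par y = b ∧ rs y = .u).card
        = (if rb b = .xo ∨ rb b = .sp then 1 else 0) ∧
      (Finset.univ.filter fun y => par y = b ∧ rs y = .v).card = (if (rb b).pr then 1 else 0) ∧
      (Finset.univ.filter fun y => par y = b ∧ rs y = .s0).card = (if rb b = .tl then 1 else 0) ∧
      ((Finset.univ.filter fun y => par y = b ∧ rs y = .x0).card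
        = if rb b = .L then (Finset.univ.filter fun y => par y = b).card - 1 else 0) ∧
      (Finset.univ.filter fun y => par y = b ∧ rs y = .s).card
        = (match rb b with
          | .L => 0
          | .st => (Finset.univ.filter fun y => par y = b).card - 2
          | .self => (Finset.univ.filter fun y => par y = b).card - 3
          | .xo => 0
          | .sp => (Finset.univ.filter fun y => par y = b).card - 4
          | .tl => (Finset.univ.filter fun y => par y = b).card - 3) := by
  let inst : Fintype SB := ⟨allSB, fun c => by cases c <;> decide⟩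
  have hne : Nonempty SB := ⟨.x⟩
  have h : ∀ b, ∃ f : BL → SB, ∀ c,
      ((Finset.univ.filter fun y => par y = b).filter fun y => f y = c).card =
        num (rb b) (Finset.univ.filter fun y => par y = b).card c := fun b =>
    exists_assign (Finset.univ.filter fun y => par y = b)
      (num (rb b) (Finset.univ.filter fun y => par y = b).card)
      (sum_num (rb b) _ (fun h => (hL b h).1) (h3 b) (hx b) (h4 b))
  choose f hf using h
  refine ⟨fun y => f (par y) y, fun b => ?_⟩
  have key : ∀ c, (Finset.univ.filter fun y => par y = b ∧ f (par y) y = c).card =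
      num (rb b) (Finset.univ.filter fun y => par y = b).card c := by
    intro c
    rw [← hf b c, Finset.filter_filter]
    congr 1
    ext y
    rw [Finset.mem_filter, Finset.mem_filter]
    constructor
    · rintro ⟨h1, rfl, h3⟩
      exact ⟨h1, rfl, h3⟩
    · rintro ⟨h1, rfl, h3⟩
      exact ⟨h1, rfl, h3⟩
  exact ⟨key .l, key .x, key .u, key .v, key .s0, key .x0, key .s⟩

end Pool.Agent.Lob5
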