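import Pool.Agent.Lob34.Exists

/-!
# The seam lemma, with `h ≥ 2` in the mode 5

Now a field of `Seam` (`m5h`).
-/

namespace Pool.Agent.Lob5

theorem exists_seam5 {k : ℕ} (hk : k % 2 = 1) (h3 : 3 ≤ k) (ld al : ℕ → Prop)
    (hal : ∀ i, al i → ld i) (hld : ∀ i, ld i → 1 ≤ i ∧ i < k) :
    ∃ S : Seam k ld al, S.mode = 5 → 2 ≤ S.h := by
  obtain ⟨S⟩ := Pool.Agent.Lob34.exists_seam hk h3 ld al hal hld
  exact ⟨S, S.m5h⟩

end Pool.Agent.Lob5
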