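import Pool.Agent.Lob5.SweepEven

/-!
# The sweep lemma

Text: `/team-store/lob_M1_sweep_h5.md`. The odd case (Odd lemma (O)) is an induction over
`E.card + Z.card + R.card` which ends in `sweep_even`.
-/

set_option linter.unusedSectionVars false

namespace Pool.Agent.Lob5

variable {ι π : Type*} [DecidableEq ι] [DecidableEq π]

/-- The value with the correction of the pair sum: `K` is the sum that the weight of the owner
of the pair `t` (`own t`) assumes. -/
def valK (l x : ι → Bool) (W : ι → ℤ) (X : ℕ → ℤ) (own : π → ι) (Pi : Finset π) (K : ℤ)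
    (lab : ι → ℤ) (xi : ι → ℕ) (u v : π → ℤ) (e : ι) : ℤ :=
  val l x W X lab xi e + ∑ t ∈ Pi.filter (fun t => own t = e), (u t + v t - K)

namespace Sweep

/-! ### Counting -/

theorem card_filter_erase (P : ι → Prop) [DecidablePred P] (E : Finset ι) {e : ι} (he : e ∈ E) :
    ((E.erase e).filter P).card + (if P e then 1 else 0) = (E.filter P).card := by
  rw [Finset.filter_erase]
  by_cases h : P e
  · rw [if_pos h]
    exact Finset.card_erase_add_one (Finset.mem_filter.2 ⟨he, h⟩)
  · rw [if_neg h, Finset.erase_eq_of_notMem]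
    · rfl
    · simp [h]

/-- number of non-single `x`-elements -/
def nu (l x p : ι → Bool) (E : Finset ι) : ℕ :=
  (E.filter fun e => x e = true ∧ ¬ (l e = true ∧ p e = false)).card

/-- the lower end of the value -/
def clw (l x : ι → Bool) (W : ι → ℤ) (lo x1 : ℤ) (e : ι) : ℤ := W e + bz (l e) lo + bz (x e) x1

theorem bz_mono {b : Bool} {v w : ℤ} (h : v ≤ w) : bz b v ≤ bz b w := by
  cases b <;> simp [bz, h]

theorem nP_le_card {p : ι → Bool} {pp : ι → π} {E : Finset ι} {Pi : Finset π}
    (ppm : ∀ e ∈ E, p e = true → pp e ∈ Pi)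
    (ppi : ∀ e ∈ E, ∀ f ∈ E, p e = true → p f = true → pp e = pp f → e = f) :
    nP p E ≤ Pi.card := by
  refine Finset.card_le_card_of_injOn pp ?_ ?_
  · intro e he
    rw [Finset.mem_coe, Finset.mem_filter] at he
    exact ppm e he.1 he.2
  · intro e he f hf h
    rw [Finset.mem_coe, Finset.mem_filter] at he hf
    exact ppi e he.1 f hf.1 he.2 hf.2 h

theorem nP_le {p : ι → Bool} {pp : ι → π} {E : Finset ι} {Pi : Finset π} {R : Finset ℤ}
    {tk : ℤ → π} (ppm : ∀ e ∈ E, p e = true → pp e ∈ Pi)
    (ppi : ∀ e ∈ E, ∀ f ∈ E, p e = true → p f = true → pp e = pp f → e = f)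
    (tk_mem : ∀ s ∈ R, tk s ∈ Pi) (tk_pp : ∀ s ∈ R, ∀ e ∈ E, p e = true → pp e ≠ tk s)
    (tk_inj : ∀ s ∈ R, ∀ s' ∈ R, tk s = tk s' → s = s') : R.card + nP p E ≤ Pi.card := by
  classical
  have h1 : (R.image tk).card = R.card := by
    apply Finset.card_image_of_injOn
    intro s hs s' hs' h
    exact tk_inj s hs s' hs' h
  have h2 : nP p E ≤ (Pi \ R.image tk).card := by
    refine nP_le_card (pp := pp) ?_ ppi
    intro e he hp
    rw [Finset.mem_sdiff, Finset.mem_image]
    refine ⟨ppm e he hp, ?_⟩
    rintro ⟨s, hs, h⟩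
    exact tk_pp s hs e he hp h.symm
  have h3 : (Pi \ R.image tk).card + (R.image tk).card = Pi.card :=
    Finset.card_sdiff_add_card_eq_card (by
      intro t ht
      rw [Finset.mem_image] at ht
      obtain ⟨s, hs, rfl⟩ := ht
      exact tk_mem s hs)
  omega

theorem card_l_le {l x p : ι → Bool} {pp : ι → π} {W : ι → ℤ} {X : ℕ → ℤ} {E : Finset ι}
    {Pi : Finset π} {lo hi : ℤ} {a b : ℕ} {Z R : Finset ℤ}
    (H : SweepHyp l x p pp W X E Pi lo hi a b Z R) :
    (((E.filter fun f => l f = true).card : ℕ) : ℤ) ≤ hi - lo + 1 := by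
  have h1 : (E.filter fun f => l f = true).card ≤ nS l p E + nP p E := by
    refine le_trans (Finset.card_le_card ?_) (Finset.card_union_le _ _)
    intro f hf
    rw [Finset.mem_filter] at hf
    rw [Finset.mem_union, Finset.mem_filter, Finset.mem_filter]
    cases hp : p f
    · exact Or.inl ⟨hf.1, hf.2, rfl⟩
    · exact Or.inr ⟨hf.1, rfl⟩
  have h2 : nP p E ≤ Pi.card := nP_le_card H.ppm H.ppi
  have h3 := H.cnt
  omega

/-- (F0) -/
theorem kap_le_room {l x p : ι → Bool} {pp : ι → π} {W : ι → ℤ} {X : ℕ → ℤ} {E : Finset ι}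
    {Pi : Finset π} {lo hi : ℤ} {a b : ℕ} {Z R : Finset ℤ}
    (H : SweepHyp l x p pp W X E Pi lo hi a b Z R) {e : ι} (he : e ∈ E) (hl : l e = true)
    (x1 : ℤ) : (kap l x W x1 E e : ℤ) ≤ hi - lo := by
  have h1 := card_l_le H
  have h2 : kap l x W x1 E e + 1 ≤ (E.filter fun f => l f = true).card := by
    have h3 : kap l x W x1 E e ≤ ((E.filter fun f => l f = true).erase e).card := by
      refine Finset.card_le_card ?_
      intro f hf
      rw [Finset.mem_filter] at hf
      rw [Finset.mem_erase, Finset.mem_filter]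
      exact ⟨hf.2.1, hf.1, hf.2.2.1⟩
    have h4 := Finset.card_erase_add_one
      (s := E.filter fun f => l f = true) (Finset.mem_filter.2 ⟨he, hl⟩)
    omega
  omega

/-- (F1) -/
theorem low_lt_z {l x p : ι → Bool} {pp : ι → π} {W : ι → ℤ} {X : ℕ → ℤ} {E : Finset ι}
    {Pi : Finset π} {lo hi : ℤ} {a b : ℕ} {Z R : Finset ℤ}
    (H : SweepHyp l x p pp W X E Pi lo hi a b Z R) {e : ι} (he : e ∈ E) (hl : l e = true)
    (hx : x e = false) {z : ℤ} (hz : z ∈ Z) : W e + lo < z := by
  have h1 := kap_le_room H he hl (X a)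
  have h2 := H.h1 e he hl hx z hz
  omega

theorem kap_le (l x : ι → Bool) (W W' : ι → ℤ) (x1 x1' : ℤ) (E E' T : Finset ι) (g : ι)
    (h : ∀ f ∈ E, f ≠ g → l f = true → W g < W f + bz (x f) x1 → f ∉ T →
      f ∈ E' ∧ W' g < W' f + bz (x f) x1') :
    kap l x W x1 E g ≤ kap l x W' x1' E' g + T.card := by
  unfold kap
  refine le_trans (Finset.card_le_card ?_) (Finset.card_union_le _ _)
  intro f hf
  rw [Finset.mem_filter] at hf
  rw [Finset.mem_union, Finset.mem_filter]
  by_cases hT : f ∈ T
  · exact Or.inr hT
  · obtain ⟨h1, h2⟩ := h f hf.1 hf.2.1 hf.2.2.1 hf.2.2.2 hT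
    exact Or.inl ⟨h1, hf.2.1, hf.2.2.1, h2⟩

theorem le_of_x {l x p : ι → Bool} {pp : ι → π} {W : ι → ℤ} {X : ℕ → ℤ} {E : Finset ι}
    {Pi : Finset π} {lo hi : ℤ} {a b : ℕ} {Z R : Finset ℤ}
    (H : SweepHyp l x p pp W X E Pi lo hi a b Z R) {e : ι} (he : e ∈ E) (hx : x e = true) :
    a ≤ b := by
  have h1 : 0 < nX x E := Finset.card_pos.2 ⟨e, Finset.mem_filter.2 ⟨he, hx⟩⟩
  have h2 := H.xcnt
  omega

/-! ### States -/

section

variable (l x p : ι → Bool) (pp : ι → π) (own : π → ι) (X : ℕ → ℤ) (tk tk' : ℤ → π) (K : ℤ)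

/-- type (A) -/
def TyA (W : ι → ℤ) (E : Finset ι) (lo : ℤ) (a : ℕ) (s : ℤ) : Prop :=
  own (tk s) ∈ E ∧
    s < W (own (tk s)) - 1 + bz (l (own (tk s))) lo + bz (x (own (tk s))) (X a)

/-- type (B) -/
def TyB (W : ι → ℤ) (E : Finset ι) (Pi : Finset π) (lo : ℤ) (a b : ℕ) (Z : Finset ℤ) (s : ℤ) :
    Prop :=
  ∃ d ∈ E, l d = true ∧ p d = false ∧
    W d + (lo + Pi.card) + bz (x d) (X (min b (a + Z.card + nu l x p E))) < s

/-- type (C) -/
def TyC (E : Finset ι) (Pi : Finset π) (R : Finset ℤ) (s : ℤ) : Prop :=
  own (tk s) ∈ E ∧ l (own (tk s)) = true ∧ tk' s ∈ Pi ∧ own (tk' s) ∈ E ∧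
    l (own (tk' s)) = true ∧ tk' s ≠ tk s ∧ (∀ e ∈ E, p e = true → pp e ≠ tk' s) ∧
    ∀ s' ∈ R, tk' s ≠ tk s' ∧ (tk' s = tk' s' → s = s')

/-- A state of the odd phase. -/
structure OddSt (W : ι → ℤ) (E : Finset ι) (Pi : Finset π) (lo hi : ℤ) (a b : ℕ)
    (Z R : Finset ℤ) : Prop where
  H : SweepHyp l x p pp W X E Pi lo hi a b Z R
  odd : Odd (nS l p E)
  hK : K = lo + hi + 1
  own_p : ∀ t ∈ Pi, p (own t) = false
  own_inj : ∀ s ∈ Pi, ∀ t ∈ Pi, own s = own t → s = t
  own_pp : ∀ e ∈ E, p e = true → own (pp e) ∈ E ∧ l (own (pp e)) = true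
  tk_mem : ∀ s ∈ R, tk s ∈ Pi
  tk_pp : ∀ s ∈ R, ∀ e ∈ E, p e = true → pp e ≠ tk s
  tk_inj : ∀ s ∈ R, ∀ s' ∈ R, tk s = tk s' → s = s'
  h2' : ∀ f ∈ E, x f = true → l f = false → (∃ t ∈ Pi, own t = f) → ∀ s ∈ R, ∀ i, a ≤ i →
    i ≤ b → W f - 1 + X i ≠ s
  h4 : ∀ s ∈ R, TyA l x own X tk W E lo a s ∨ TyB l x p X W E Pi lo a b Z s ∨
    TyC l p pp own tk tk' E Pi R s

/-- The conclusion for a state: all values are at least `m`. -/
def Res (m : ℤ) (W : ι → ℤ) (E : Finset ι) (Pi : Finset π) (lo hi : ℤ) (a b : ℕ)
    (Z R : Finset ℤ) : Prop :=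
  ∃ (lab : ι → ℤ) (xi : ι → ℕ) (u v : π → ℤ),
    Placed l x p pp E Pi lo hi a b lab xi u v ∧
    (∀ t ∈ Pi, own t ∉ E → u t + v t = K) ∧
    (∀ e ∈ E, ∀ f ∈ E, valK l x W X own Pi K lab xi u v e = valK l x W X own Pi K lab xi u v f →
      e = f) ∧
    (∀ e ∈ E, valK l x W X own Pi K lab xi u v e ∉ Z ∧ valK l x W X own Pi K lab xi u v e ∉ R) ∧
    (∀ e ∈ E, m ≤ valK l x W X own Pi K lab xi u v e) ∧
    (∀ e ∈ E, clw l x W lo (X a) e - bz (! l e) ((Pi.filter fun t => own t = e).card : ℕ) ≤
      valK l x W X own Pi K lab xi u v e)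

end


/-! ### Extending a placement -/

variable {l x p : ι → Bool} {pp : ι → π} {own : π → ι} {X : ℕ → ℤ} {tk tk' : ℤ → π} {K : ℤ}
  {W : ι → ℤ} {E : Finset ι} {Pi : Finset π} {lo hi : ℤ} {a b : ℕ} {Z R : Finset ℤ}
  {lab : ι → ℤ} {xi : ι → ℕ} {u v : π → ℤ}

theorem placed_pair {t : π} (ht : t ∈ Pi) (hlt : lo < hi)
    (tpp : ∀ e ∈ E, p e = true → pp e ≠ t)
    (P : Placed l x p pp E (Pi.erase t) (lo + 1) (hi - 1) a b lab xi u v) :
    Placed l x p pp E Pi lo hi a b lab xi (Function.update u t lo) (Function.update v t hi) := by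
  have hu : ∀ s, s ≠ t → Function.update u t lo s = u s := fun s hs =>
    Function.update_of_ne hs _ _
  have hv : ∀ s, s ≠ t → Function.update v t hi s = v s := fun s hs =>
    Function.update_of_ne hs _ _
  have hm : ∀ s ∈ Pi, s ≠ t → s ∈ Pi.erase t := fun s hs hne => Finset.mem_erase.2 ⟨hne, hs⟩
  refine ⟨?_, P.xi_mem, P.xi_inj, ?_, ?_, ?_, P.single_inj, ?_, ?_, ?_, ?_, ?_⟩
  · intro e he hl
    have := P.lab_mem e he hl
    constructor <;> omega
  · intro s hs
    by_cases h : s = t
    · subst h
      rw [Function.update_self]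
      omega
    · rw [hu s h]
      have := P.u_mem s (hm s hs h)
      omega
  · intro s hs
    by_cases h : s = t
    · subst h
      rw [Function.update_self]
      omega
    · rw [hv s h]
      have := P.v_mem s (hm s hs h)
      omega
  · intro e he hp
    rw [hu _ (tpp e he hp)]
    exact P.pair e he hp
  · intro e he hl hp s hs
    by_cases h : s = t
    · subst h
      rw [Function.update_self]
      have := P.lab_mem e he hl
      omega
    · rw [hu s h]
      exact P.single_u e he hl hp s (hm s hs h)
  · intro e he hl hp s hs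
    by_cases h : s = t
    · subst h
      rw [Function.update_self]
      have := P.lab_mem e he hl
      omega
    · rw [hv s h]
      exact P.single_v e he hl hp s (hm s hs h)
  · intro s hs s' hs' h
    by_cases h1 : s = t <;> by_cases h2 : s' = t
    · rw [h1, h2]
    · rw [h1, Function.update_self, hu s' h2] at h
      have := P.u_mem s' (hm s' hs' h2)
      omega
    · rw [h2, Function.update_self, hu s h1] at h
      have := P.u_mem s (hm s hs h1)
      omega
    · rw [hu s h1, hu s' h2] at h
      exact P.u_inj s (hm s hs h1) s' (hm s' hs' h2) h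
  · intro s hs s' hs' h
    by_cases h1 : s = t <;> by_cases h2 : s' = t
    · rw [h1, h2]
    · rw [h1, Function.update_self, hv s' h2] at h
      have := P.v_mem s' (hm s' hs' h2)
      omega
    · rw [h2, Function.update_self, hv s h1] at h
      have := P.v_mem s (hm s hs h1)
      omega
    · rw [hv s h1, hv s' h2] at h
      exact P.v_inj s (hm s hs h1) s' (hm s' hs' h2) h
  · intro s hs s' hs'
    by_cases h1 : s = t <;> by_cases h2 : s' = t
    · rw [h1, h2, Function.update_self, Function.update_self]
      omega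
    · rw [h1, Function.update_self, hv s' h2]
      have := P.v_mem s' (hm s' hs' h2)
      omega
    · rw [h2, Function.update_self, hu s h1]
      have := P.u_mem s (hm s hs h1)
      omega
    · rw [hu s h1, hv s' h2]
      exact P.u_v s (hm s hs h1) s' (hm s' hs' h2)

/-- placing an element that is not a `p`-element at the lower end; `lo' = lo + 1` if it takes a
label. -/
theorem placed_elt {e : ι} {lo' : ℤ} {a' : ℕ} (hp : p e = false)
    (hlo : lo ≤ lo') (hlo' : l e = true → lo' = lo + 1) (hlh : l e = true → lo ≤ hi)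
    (ha : a ≤ a') (ha' : x e = true → a' = a + 1) (hab : x e = true → a ≤ b)
    (P : Placed l x p pp (E.erase e) Pi lo' hi a' b lab xi u v) :
    Placed l x p pp E Pi lo hi a b (Function.update lab e lo) (Function.update xi e a) u v := by
  have hlab : ∀ s, s ≠ e → Function.update lab e lo s = lab s := fun s hs =>
    Function.update_of_ne hs _ _
  have hxi : ∀ s, s ≠ e → Function.update xi e a s = xi s := fun s hs =>
    Function.update_of_ne hs _ _
  have hm : ∀ f ∈ E, f ≠ e → f ∈ E.erase e := fun s hs hne => Finset.mem_erase.2 ⟨hne, hs⟩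
  have hU : ∀ t ∈ Pi, lo' ≤ u t ∧ u t ≤ hi := P.u_mem
  have hV : ∀ t ∈ Pi, lo' ≤ v t ∧ v t ≤ hi := P.v_mem
  refine ⟨?_, ?_, ?_, ?_, ?_, ?_, ?_, ?_, ?_, P.u_inj, P.v_inj, P.u_v⟩
  · intro f hf hl
    by_cases h : f = e
    · subst h
      rw [Function.update_self]
      exact ⟨le_rfl, hlh hl⟩
    · rw [hlab f h]
      have := P.lab_mem f (hm f hf h) hl
      omega
  · intro f hf hx
    by_cases h : f = e
    · subst h
      rw [Function.update_self]
      exact ⟨le_rfl, hab hx⟩
    · rw [hxi f h]
      have := P.xi_mem f (hm f hf h) hx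
      omega
  · intro f hf g hg hxf hxg h
    by_cases h1 : f = e <;> by_cases h2 : g = e
    · rw [h1, h2]
    · rw [h1, Function.update_self, hxi g h2] at h
      have := P.xi_mem g (hm g hg h2) hxg
      have := ha' (h1 ▸ hxf)
      omega
    · rw [h2, Function.update_self, hxi f h1] at h
      have := P.xi_mem f (hm f hf h1) hxf
      have := ha' (h2 ▸ hxg)
      omega
    · rw [hxi f h1, hxi g h2] at h
      exact P.xi_inj f (hm f hf h1) g (hm g hg h2) hxf hxg h
  · intro t ht
    have := hU t ht
    omega
  · intro t ht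
    have := hV t ht
    omega
  · intro f hf hpf
    have h : f ≠ e := by
      rintro rfl
      rw [hp] at hpf
      exact Bool.false_ne_true hpf
    rw [hlab f h]
    exact P.pair f (hm f hf h) hpf
  · intro f hf g hg hlf hpf hlg hpg h
    by_cases h1 : f = e <;> by_cases h2 : g = e
    · rw [h1, h2]
    · rw [h1, Function.update_self, hlab g h2] at h
      have := P.lab_mem g (hm g hg h2) hlg
      have := hlo' (h1 ▸ hlf)
      omega
    · rw [h2, Function.update_self, hlab f h1] at h
      have := P.lab_mem f (hm f hf h1) hlf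
      have := hlo' (h2 ▸ hlg)
      omega
    · rw [hlab f h1, hlab g h2] at h
      exact P.single_inj f (hm f hf h1) g (hm g hg h2) hlf hpf hlg hpg h
  · intro f hf hlf hpf t ht
    by_cases h1 : f = e
    · rw [h1, Function.update_self]
      have := hlo' (h1 ▸ hlf)
      have := hU t ht
      omega
    · rw [hlab f h1]
      exact P.single_u f (hm f hf h1) hlf hpf t ht
  · intro f hf hlf hpf t ht
    by_cases h1 : f = e
    · rw [h1, Function.update_self]
      have := hlo' (h1 ▸ hlf)
      have := hV t ht
      omega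
    · rw [hlab f h1]
      exact P.single_v f (hm f hf h1) hlf hpf t ht

/-- placing a `p`-element at the lower end -/
theorem placed_p {e : ι} {a' : ℕ} (he : e ∈ E) (hp : p e = true)
    (ppi : ∀ e ∈ E, ∀ f ∈ E, p e = true → p f = true → pp e = pp f → e = f)
    (hlh : lo < hi) (ha : a ≤ a') (ha' : x e = true → a' = a + 1) (hab : x e = true → a ≤ b)
    (P : Placed l x p pp (E.erase e) (Pi.erase (pp e)) (lo + 1) (hi - 1) a' b lab xi u v) :
    Placed l x p pp E Pi lo hi a b (Function.update lab e lo) (Function.update xi e a)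
      (Function.update u (pp e) lo) (Function.update v (pp e) hi) := by
  have hlab : ∀ s, s ≠ e → Function.update lab e lo s = lab s := fun s hs =>
    Function.update_of_ne hs _ _
  have hxi : ∀ s, s ≠ e → Function.update xi e a s = xi s := fun s hs =>
    Function.update_of_ne hs _ _
  have hu : ∀ s, s ≠ pp e → Function.update u (pp e) lo s = u s := fun s hs =>
    Function.update_of_ne hs _ _
  have hv : ∀ s, s ≠ pp e → Function.update v (pp e) hi s = v s := fun s hs =>
    Function.update_of_ne hs _ _
  have hm : ∀ f ∈ E, f ≠ e → f ∈ E.erase e := fun s hs hne => Finset.mem_erase.2 ⟨hne, hs⟩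
  have hmt : ∀ s ∈ Pi, s ≠ pp e → s ∈ Pi.erase (pp e) := fun s hs hne =>
    Finset.mem_erase.2 ⟨hne, hs⟩
  have hne : ∀ f, p f = false → f ≠ e := by
    rintro f hf rfl
    rw [hp] at hf
    exact Bool.noConfusion hf
  refine ⟨?_, ?_, ?_, ?_, ?_, ?_, ?_, ?_, ?_, ?_, ?_, ?_⟩
  · intro f hf hl
    by_cases h : f = e
    · subst h
      rw [Function.update_self]
      exact ⟨le_rfl, hlh.le⟩
    · rw [hlab f h]
      have := P.lab_mem f (hm f hf h) hl
      omega
  · intro f hf hx
    by_cases h : f = e
    · subst h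
      rw [Function.update_self]
      exact ⟨le_rfl, hab hx⟩
    · rw [hxi f h]
      have := P.xi_mem f (hm f hf h) hx
      omega
  · intro f hf g hg hxf hxg h
    by_cases h1 : f = e <;> by_cases h2 : g = e
    · rw [h1, h2]
    · rw [h1, Function.update_self, hxi g h2] at h
      have := P.xi_mem g (hm g hg h2) hxg
      have := ha' (h1 ▸ hxf)
      omega
    · rw [h2, Function.update_self, hxi f h1] at h
      have := P.xi_mem f (hm f hf h1) hxf
      have := ha' (h2 ▸ hxg)
      omega
    · rw [hxi f h1, hxi g h2] at h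
      exact P.xi_inj f (hm f hf h1) g (hm g hg h2) hxf hxg h
  · intro s hs
    by_cases h : s = pp e
    · rw [h, Function.update_self]
      omega
    · rw [hu s h]
      have := P.u_mem s (hmt s hs h)
      omega
  · intro s hs
    by_cases h : s = pp e
    · rw [h, Function.update_self]
      omega
    · rw [hv s h]
      have := P.v_mem s (hmt s hs h)
      omega
  · intro f hf hpf
    by_cases h : f = e
    · subst h
      rw [Function.update_self, Function.update_self]
    · rw [hlab f h, hu _ fun h' => h (ppi f hf e he hpf hp h')]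
      exact P.pair f (hm f hf h) hpf
  · intro f hf g hg hlf hpf hlg hpg h
    rw [hlab f (hne f hpf), hlab g (hne g hpg)] at h
    exact P.single_inj f (hm f hf (hne f hpf)) g (hm g hg (hne g hpg)) hlf hpf hlg hpg h
  · intro f hf hlf hpf s hs
    rw [hlab f (hne f hpf)]
    by_cases h : s = pp e
    · rw [h, Function.update_self]
      have := P.lab_mem f (hm f hf (hne f hpf)) hlf
      omega
    · rw [hu s h]
      exact P.single_u f (hm f hf (hne f hpf)) hlf hpf s (hmt s hs h)
  · intro f hf hlf hpf s hs
    rw [hlab f (hne f hpf)]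
    by_cases h : s = pp e
    · rw [h, Function.update_self]
      have := P.lab_mem f (hm f hf (hne f hpf)) hlf
      omega
    · rw [hv s h]
      exact P.single_v f (hm f hf (hne f hpf)) hlf hpf s (hmt s hs h)
  · intro s hs s' hs' h
    by_cases h1 : s = pp e <;> by_cases h2 : s' = pp e
    · rw [h1, h2]
    · rw [h1, Function.update_self, hu s' h2] at h
      have := P.u_mem s' (hmt s' hs' h2)
      omega
    · rw [h2, Function.update_self, hu s h1] at h
      have := P.u_mem s (hmt s hs h1)
      omega
    · rw [hu s h1, hu s' h2] at h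
      exact P.u_inj s (hmt s hs h1) s' (hmt s' hs' h2) h
  · intro s hs s' hs' h
    by_cases h1 : s = pp e <;> by_cases h2 : s' = pp e
    · rw [h1, h2]
    · rw [h1, Function.update_self, hv s' h2] at h
      have := P.v_mem s' (hmt s' hs' h2)
      omega
    · rw [h2, Function.update_self, hv s h1] at h
      have := P.v_mem s (hmt s hs h1)
      omega
    · rw [hv s h1, hv s' h2] at h
      exact P.v_inj s (hmt s hs h1) s' (hmt s' hs' h2) h
  · intro s hs s' hs'
    by_cases h1 : s = pp e <;> by_cases h2 : s' = pp e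
    · rw [h1, h2, Function.update_self, Function.update_self]
      omega
    · rw [h1, Function.update_self, hv s' h2]
      have := P.v_mem s' (hmt s' hs' h2)
      omega
    · rw [h2, Function.update_self, hu s h1]
      have := P.u_mem s (hmt s hs h1)
      omega
    · rw [hu s h1, hv s' h2]
      exact P.u_v s (hmt s hs h1) s' (hmt s' hs' h2)

/-! ### The values -/

theorem valK_pair {t : π} (ht : t ∈ Pi) (hK : K = lo + hi + 1) (lab : ι → ℤ) (xi : ι → ℕ)
    (u v : π → ℤ) (e : ι) :
    valK l x W X own Pi K lab xi (Function.update u t lo) (Function.update v t hi) e =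
      valK l x (Function.update W (own t) (W (own t) - 1)) X own (Pi.erase t) K lab xi u v e := by
  unfold valK val
  by_cases h : own t = e
  · subst h
    have h1 : Pi.filter (fun s => own s = own t) =
        insert t ((Pi.erase t).filter fun s => own s = own t) := by
      conv_lhs => rw [← Finset.insert_erase ht]
      rw [Finset.filter_insert, if_pos rfl]
    rw [h1, Finset.sum_insert (by simp), Function.update_self, Function.update_self,
      Function.update_self]
    have h2 : ∑ s ∈ (Pi.erase t).filter (fun s => own s = own t),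
        (Function.update u t lo s + Function.update v t hi s - K) =
        ∑ s ∈ (Pi.erase t).filter (fun s => own s = own t), (u s + v s - K) := by
      apply Finset.sum_congr rfl
      intro s hs
      rw [Finset.mem_filter, Finset.mem_erase] at hs
      rw [Function.update_of_ne hs.1.1, Function.update_of_ne hs.1.1]
    rw [h2, hK]
    ring
  · have h1 : Pi.filter (fun s => own s = e) = (Pi.erase t).filter fun s => own s = e := by
      ext s
      simp only [Finset.mem_filter, Finset.mem_erase]
      constructor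
      · rintro ⟨h2, h3⟩
        exact ⟨⟨fun h4 => h (h4 ▸ h3), h2⟩, h3⟩
      · rintro ⟨⟨_, h2⟩, h3⟩
        exact ⟨h2, h3⟩
    rw [h1, Function.update_of_ne (fun h' => h h'.symm)]
    congr 1
    apply Finset.sum_congr rfl
    intro s hs
    rw [Finset.mem_filter, Finset.mem_erase] at hs
    rw [Function.update_of_ne hs.1.1, Function.update_of_ne hs.1.1]

theorem valK_elt {e f : ι} (hf : f ≠ e) (W : ι → ℤ) (lab : ι → ℤ) (xi : ι → ℕ) (y : ℤ) (i : ℕ)
    (u v : π → ℤ) :
    valK l x W X own Pi K (Function.update lab e y) (Function.update xi e i) u v f =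
      valK l x W X own Pi K lab xi u v f := by
  unfold valK val
  rw [Function.update_of_ne hf, Function.update_of_ne hf]

theorem valK_self {e : ι} (W : ι → ℤ) (lab : ι → ℤ) (xi : ι → ℕ) (y : ℤ) (i : ℕ)
    (u v : π → ℤ) (h : ∀ t ∈ Pi, own t = e → u t + v t = K) :
    valK l x W X own Pi K (Function.update lab e y) (Function.update xi e i) u v e =
      clw l x W y (X i) e := by
  unfold valK val clw
  rw [Function.update_self, Function.update_self, Finset.sum_eq_zero, add_zero]
  intro t ht
  rw [Finset.mem_filter] at ht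
  rw [h t ht.1 ht.2, sub_self]


/-! ### Results -/

theorem clw_mono {W : ι → ℤ} {lo lo' x1 x1' : ℤ} (h : lo ≤ lo') (h' : x1 ≤ x1') (e : ι) :
    clw l x W lo x1 e ≤ clw l x W lo' x1' e := by
  have h1 : bz (l e) lo ≤ bz (l e) lo' := bz_mono h
  have h2 : bz (x e) x1 ≤ bz (x e) x1' := bz_mono h'
  unfold clw
  omega

theorem clw_pair {t : π} (ht : t ∈ Pi) (W : ι → ℤ) (lo x1 : ℤ) (e : ι) :
    clw l x W lo x1 e - bz (! l e) ((Pi.filter fun s => own s = e).card : ℕ) ≤
      clw l x (Function.update W (own t) (W (own t) - 1)) (lo + 1) x1 e -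
        bz (! l e) (((Pi.erase t).filter fun s => own s = e).card : ℕ) := by
  have h1 := card_filter_erase (fun s => own s = e) Pi ht
  unfold clw
  by_cases h : own t = e
  · subst h
    rw [if_pos rfl] at h1
    rw [Function.update_self]
    cases hl : l (own t)
    · simp only [bz, Bool.not_false, if_true, Bool.false_eq_true, if_false]
      omega
    · simp only [bz, Bool.not_true, if_true, Bool.false_eq_true, if_false]
      omega
  · rw [if_neg h] at h1
    rw [Function.update_of_ne (fun h' => h h'.symm)]
    cases hl : l e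
    · simp only [bz, Bool.not_false, if_true, Bool.false_eq_true, if_false]
      omega
    · simp only [bz, Bool.not_true, if_true, Bool.false_eq_true, if_false]
      omega

theorem bz_nat_nonneg (b : Bool) (n : ℕ) : 0 ≤ bz b (n : ℤ) := by
  cases b <;> simp [bz]

theorem res_mono {m m' : ℤ} (h : m' ≤ m) (Q : Res l x p pp own X K m W E Pi lo hi a b Z R) :
    Res l x p pp own X K m' W E Pi lo hi a b Z R := by
  obtain ⟨lab, xi, u, v, P, hO, hinj, hZ, hm, hlb⟩ := Q
  exact ⟨lab, xi, u, v, P, hO, hinj, hZ, fun e he => le_trans h (hm e he), hlb⟩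

theorem res_addR {m s : ℤ} (h : s < m)
    (Q : Res l x p pp own X K m W E Pi lo hi a b Z (R.erase s)) :
    Res l x p pp own X K m W E Pi lo hi a b Z R := by
  obtain ⟨lab, xi, u, v, P, hO, hinj, hZ, hm, hlb⟩ := Q
  refine ⟨lab, xi, u, v, P, hO, hinj, fun e he => ⟨(hZ e he).1, fun h1 => ?_⟩, hm, hlb⟩
  refine (hZ e he).2 (Finset.mem_erase.2 ⟨?_, h1⟩)
  have := hm e he
  omega

theorem res_addZ {m z : ℤ} (h : z < m)
    (Q : Res l x p pp own X K m W E Pi lo hi a b (Z.erase z) R) :
    Res l x p pp own X K m W E Pi lo hi a b Z R := by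
  obtain ⟨lab, xi, u, v, P, hO, hinj, hZ, hm, hlb⟩ := Q
  refine ⟨lab, xi, u, v, P, hO, hinj, fun e he => ⟨fun h1 => ?_, (hZ e he).2⟩, hm, hlb⟩
  refine (hZ e he).1 (Finset.mem_erase.2 ⟨?_, h1⟩)
  have := hm e he
  omega

theorem res_a {m : ℤ} (hX : StrictMono X)
    (Q : Res l x p pp own X K m W E Pi lo hi (a + 1) b Z R) :
    Res l x p pp own X K m W E Pi lo hi a b Z R := by
  obtain ⟨lab, xi, u, v, P, hO, hinj, hZ, hm, hlb⟩ := Q
  refine ⟨lab, xi, u, v, ?_, hO, hinj, hZ, hm, fun e he => ?_⟩
  · refine ⟨P.lab_mem, ?_, P.xi_inj, P.u_mem, P.v_mem, P.pair, P.single_inj, P.single_u,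
      P.single_v, P.u_inj, P.v_inj, P.u_v⟩
    intro e he hx
    have := P.xi_mem e he hx
    omega
  · have h1 := hlb e he
    have h2 := clw_mono (l := l) (x := x) (W := W) (le_refl lo)
      (hX (Nat.lt_succ_self a)).le e
    rw [Nat.succ_eq_add_one] at h2
    omega

theorem res_pair {m : ℤ} {t : π} (ht : t ∈ Pi) (hE : own t ∈ E) (hK : K = lo + hi + 1)
    (hlt : lo < hi) (tpp : ∀ e ∈ E, p e = true → pp e ≠ t)
    (Q : Res l x p pp own X K m (Function.update W (own t) (W (own t) - 1)) E (Pi.erase t)
      (lo + 1) (hi - 1) a b Z R) :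
    Res l x p pp own X K m W E Pi lo hi a b Z R := by
  obtain ⟨lab, xi, u, v, P, hO, hinj, hZ, hm, hlb⟩ := Q
  refine ⟨lab, xi, Function.update u t lo, Function.update v t hi,
    placed_pair ht hlt tpp P, ?_, ?_, ?_, ?_, ?_⟩
  · intro s hs hsE
    have hst : s ≠ t := by
      rintro rfl
      exact hsE hE
    rw [Function.update_of_ne hst, Function.update_of_ne hst]
    exact hO s (Finset.mem_erase.2 ⟨hst, hs⟩) hsE
  · intro e he f hf h
    rw [valK_pair ht hK, valK_pair ht hK] at h
    exact hinj e he f hf h
  · intro e he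
    rw [valK_pair ht hK]
    exact hZ e he
  · intro e he
    rw [valK_pair ht hK]
    exact hm e he
  · intro e he
    rw [valK_pair ht hK]
    exact le_trans (clw_pair ht W lo (X a) e) (hlb e he)

/-- an element that is not a `p`-element has been placed at the lower end -/
theorem res_elt {e : ι} {lo' : ℤ} {a' : ℕ} (hX : StrictMono X) (hp : p e = false)
    (hlo : lo ≤ lo') (hlo' : l e = true → lo' = lo + 1) (hlh : l e = true → lo ≤ hi)
    (ha : a ≤ a') (ha' : x e = true → a' = a + 1) (hab : x e = true → a ≤ b)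
    (hcZ : clw l x W lo (X a) e ∉ Z) (hcR : clw l x W lo (X a) e ∉ R)
    (Q : Res l x p pp own X K (clw l x W lo (X a) e + 1) W (E.erase e) Pi lo' hi a' b Z R) :
    Res l x p pp own X K (clw l x W lo (X a) e) W E Pi lo hi a b Z R := by
  obtain ⟨lab, xi, u, v, P, hO, hinj, hZ, hm, hlb⟩ := Q
  have hVe : valK l x W X own Pi K (Function.update lab e lo) (Function.update xi e a) u v e =
      clw l x W lo (X a) e :=
    valK_self W lab xi lo a u v fun t ht h => hO t ht (by simp [h])
  have hVf : ∀ f, f ≠ e →
      valK l x W X own Pi K (Function.update lab e lo) (Function.update xi e a) u v f =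
        valK l x W X own Pi K lab xi u v f := fun f hf => valK_elt hf W lab xi lo a u v
  have hmem : ∀ f ∈ E, f ≠ e → f ∈ E.erase e := fun f hf hne => Finset.mem_erase.2 ⟨hne, hf⟩
  refine ⟨Function.update lab e lo, Function.update xi e a, u, v,
    placed_elt hp hlo hlo' hlh ha ha' hab P, ?_, ?_, ?_, ?_, ?_⟩
  · intro t ht hE
    exact hO t ht fun h => hE (Finset.mem_of_mem_erase h)
  · intro f hf g hg h
    by_cases h1 : f = e <;> by_cases h2 : g = e
    · rw [h1, h2]
    · rw [h1, hVe, hVf g h2] at h
      have := hm g (hmem g hg h2)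
      omega
    · rw [h2, hVe, hVf f h1] at h
      have := hm f (hmem f hf h1)
      omega
    · rw [hVf f h1, hVf g h2] at h
      exact hinj f (hmem f hf h1) g (hmem g hg h2) h
  · intro f hf
    by_cases h1 : f = e
    · rw [h1, hVe]
      exact ⟨hcZ, hcR⟩
    · rw [hVf f h1]
      exact hZ f (hmem f hf h1)
  · intro f hf
    by_cases h1 : f = e
    · rw [h1, hVe]
    · rw [hVf f h1]
      have := hm f (hmem f hf h1)
      omega
  · intro f hf
    by_cases h1 : f = e
    · rw [h1, hVe]
      have := bz_nat_nonneg (! l e) (Pi.filter fun t => own t = e).card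
      omega
    · rw [hVf f h1]
      have h2 := hlb f (hmem f hf h1)
      have h3 := clw_mono (l := l) (x := x) (W := W) hlo (hX.monotone ha) f
      omega

/-- a `p`-element has been placed at the lower end -/
theorem res_p {e : ι} {a' : ℕ} (hX : StrictMono X) (he : e ∈ E) (hp : p e = true)
    (hpe : pp e ∈ Pi) (hoe : own (pp e) ∈ E) (own_p : ∀ t ∈ Pi, p (own t) = false)
    (hK : K = lo + hi + 1)
    (ppi : ∀ e ∈ E, ∀ f ∈ E, p e = true → p f = true → pp e = pp f → e = f)
    (hlh : lo < hi) (ha : a ≤ a') (ha' : x e = true → a' = a + 1) (hab : x e = true → a ≤ b)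
    (hcZ : clw l x W lo (X a) e ∉ Z) (hcR : clw l x W lo (X a) e ∉ R)
    (Q : Res l x p pp own X K (clw l x W lo (X a) e + 1)
      (Function.update W (own (pp e)) (W (own (pp e)) - 1)) (E.erase e) (Pi.erase (pp e))
      (lo + 1) (hi - 1) a' b Z R) :
    Res l x p pp own X K (clw l x W lo (X a) e) W E Pi lo hi a b Z R := by
  obtain ⟨lab, xi, u, v, P, hO, hinj, hZ, hm, hlb⟩ := Q
  have hne : ∀ t ∈ Pi, own t ≠ e := by
    intro t ht h
    have := own_p t ht
    rw [h, hp] at this
    exact Bool.noConfusion this
  have hVe : valK l x W X own Pi K (Function.update lab e lo) (Function.update xi e a)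
      (Function.update u (pp e) lo) (Function.update v (pp e) hi) e =
      clw l x W lo (X a) e :=
    valK_self W lab xi lo a _ _ fun t ht h => absurd h (hne t ht)
  have hVf : ∀ f, f ≠ e →
      valK l x W X own Pi K (Function.update lab e lo) (Function.update xi e a)
        (Function.update u (pp e) lo) (Function.update v (pp e) hi) f =
        valK l x (Function.update W (own (pp e)) (W (own (pp e)) - 1)) X own (Pi.erase (pp e)) K
          lab xi u v f := by
    intro f hf
    rw [valK_elt hf, valK_pair hpe hK]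
  have hmem : ∀ f ∈ E, f ≠ e → f ∈ E.erase e := fun f hf hne => Finset.mem_erase.2 ⟨hne, hf⟩
  refine ⟨Function.update lab e lo, Function.update xi e a, Function.update u (pp e) lo,
    Function.update v (pp e) hi, placed_p he hp ppi hlh ha ha' hab P, ?_, ?_, ?_, ?_, ?_⟩
  · intro t ht hE
    have hst : t ≠ pp e := by
      rintro rfl
      exact hE hoe
    rw [Function.update_of_ne hst, Function.update_of_ne hst]
    exact hO t (Finset.mem_erase.2 ⟨hst, ht⟩) fun h => hE (Finset.mem_of_mem_erase h)
  · intro f hf g hg h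
    by_cases h1 : f = e <;> by_cases h2 : g = e
    · rw [h1, h2]
    · rw [h1, hVe, hVf g h2] at h
      have := hm g (hmem g hg h2)
      omega
    · rw [h2, hVe, hVf f h1] at h
      have := hm f (hmem f hf h1)
      omega
    · rw [hVf f h1, hVf g h2] at h
      exact hinj f (hmem f hf h1) g (hmem g hg h2) h
  · intro f hf
    by_cases h1 : f = e
    · rw [h1, hVe]
      exact ⟨hcZ, hcR⟩
    · rw [hVf f h1]
      exact hZ f (hmem f hf h1)
  · intro f hf
    by_cases h1 : f = e
    · rw [h1, hVe]
    · rw [hVf f h1]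
      have := hm f (hmem f hf h1)
      omega
  · intro f hf
    by_cases h1 : f = e
    · rw [h1, hVe]
      have := bz_nat_nonneg (! l e) (Pi.filter fun t => own t = e).card
      omega
    · rw [hVf f h1]
      have h2 := hlb f (hmem f hf h1)
      have h3 := clw_mono (l := l) (x := x)
        (W := Function.update W (own (pp e)) (W (own (pp e)) - 1)) (le_refl (lo + 1))
        (hX.monotone ha) f
      have h4 := clw_pair (l := l) (x := x) (own := own) hpe W lo (X a) f
      omega

theorem even_aux (H : SweepHyp l x p pp W X E Pi lo hi a b Z R) (hK : K = lo + hi)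
    (hev : Even (nS l p E)) (htok : R.card + nP p E ≤ Pi.card) :
    ∃ (lab : ι → ℤ) (xi : ι → ℕ) (u v : π → ℤ),
      Placed l x p pp E Pi lo hi a b lab xi u v ∧
      (∀ t ∈ Pi, u t + v t = K) ∧
      (∀ e ∈ E, ∀ f ∈ E, valK l x W X own Pi K lab xi u v e =
        valK l x W X own Pi K lab xi u v f → e = f) ∧
      (∀ e ∈ E, valK l x W X own Pi K lab xi u v e ∉ Z ∧
        valK l x W X own Pi K lab xi u v e ∉ R) ∧
      (∀ e ∈ E, clw l x W lo (X a) e ≤ valK l x W X own Pi K lab xi u v e) := by
  obtain ⟨lab, xi, u, v, P, hsum, hinj, hZ⟩ :=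
    sweep_even l x p pp W X E Pi lo hi a b Z R H hev htok
  have hV : ∀ e, valK l x W X own Pi K lab xi u v e = val l x W X lab xi e := by
    intro e
    unfold valK
    rw [Finset.sum_eq_zero, add_zero]
    intro t ht
    rw [Finset.mem_filter] at ht
    rw [hsum t ht.1, hK, sub_self]
  refine ⟨lab, xi, u, v, P, fun t ht => by rw [hsum t ht, hK], ?_, ?_, ?_⟩
  · intro e he f hf h
    rw [hV, hV] at h
    exact hinj e he f hf h
  · intro e he
    rw [hV]
    exact hZ e he
  · intro e he
    rw [hV]
    unfold clw val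
    have h1 : bz (l e) lo ≤ bz (l e) (lab e) := by
      cases hl : l e
      · simp [bz]
      · exact bz_mono (P.lab_mem e he hl).1
    have h2 : bz (x e) (X a) ≤ bz (x e) (X (xi e)) := by
      cases hx : x e
      · simp [bz]
      · exact bz_mono (H.mono.monotone (P.xi_mem e he hx).1)
    omega

/-- the even lemma gives a result -/
theorem res_even {m : ℤ} (H : SweepHyp l x p pp W X E Pi lo hi a b Z R) (hK : K = lo + hi)
    (hev : Even (nS l p E)) (htok : R.card + nP p E ≤ Pi.card)
    (hm : ∀ e ∈ E, m ≤ clw l x W lo (X a) e) :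
    Res l x p pp own X K m W E Pi lo hi a b Z R := by
  obtain ⟨lab, xi, u, v, P, hsum, hinj, hZ, hge⟩ := even_aux (own := own) H hK hev htok
  refine ⟨lab, xi, u, v, P, fun t ht _ => hsum t ht, hinj, hZ,
    fun e he => le_trans (hm e he) (hge e he), fun e he => ?_⟩
  have := bz_nat_nonneg (! l e) (Pi.filter fun t => own t = e).card
  have := hge e he
  omega

/-! ### Passing to smaller states -/

theorem upd_le (W : ι → ℤ) (i f : ι) : Function.update W i (W i - 1) f ≤ W f := by
  by_cases h : f = i
  · subst h
    rw [Function.update_self]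
    omega
  · rw [Function.update_of_ne h]

theorem upd_ge (W : ι → ℤ) (i f : ι) : W f - 1 ≤ Function.update W i (W i - 1) f := by
  by_cases h : f = i
  · subst h
    rw [Function.update_self]
  · rw [Function.update_of_ne h]
    omega

theorem OddSt.lt (S : OddSt l x p pp own X tk tk' K W E Pi lo hi a b Z R) {t : π} (ht : t ∈ Pi) :
    lo + 1 < hi := by
  have h1 := S.H.cnt
  have h2 : 0 < Pi.card := Finset.card_pos.2 ⟨t, ht⟩
  have h3 : 0 < nS l p E := S.odd.pos
  omega

theorem st_R (S : OddSt l x p pp own X tk tk' K W E Pi lo hi a b Z R) {R' : Finset ℤ}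
    (hR : R' ⊆ R) : OddSt l x p pp own X tk tk' K W E Pi lo hi a b Z R' := by
  refine ⟨?_, S.odd, S.hK, S.own_p, S.own_inj, S.own_pp, fun s hs => S.tk_mem s (hR hs),
    fun s hs => S.tk_pp s (hR hs), fun s hs s' hs' => S.tk_inj s (hR hs) s' (hR hs'),
    fun f hf hx hl ht s hs => S.h2' f hf hx hl ht s (hR hs), fun s hs => ?_⟩
  · exact ⟨S.H.lx, S.H.pl, S.H.ppm, S.H.ppi, S.H.cnt, S.H.xcnt, S.H.mono,
      Finset.disjoint_of_subset_right hR S.H.disj, S.H.h1,
      fun f hf hx hl s hs => S.H.h2 f hf hx hl s (hR hs), S.H.h3⟩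
  · rcases S.h4 s (hR hs) with h | h | h
    · exact Or.inl h
    · exact Or.inr (Or.inl h)
    · obtain ⟨h1, h2, h3, h4, h5, h6, h7, h8⟩ := h
      exact Or.inr (Or.inr ⟨h1, h2, h3, h4, h5, h6, h7, fun s' hs' => h8 s' (hR hs')⟩)

/-- a static in `Z` at the lower end -/
theorem st_z (S : OddSt l x p pp own X tk tk' K W E Pi lo hi a b Z R) {c : ℤ} (hc : c ∈ Z)
    (hmin : ∀ e ∈ E, c ≤ clw l x W lo (X a) e) :
    OddSt l x p pp own X tk tk' K W E Pi lo hi (a + 1) b (Z.erase c) R ∧
      ∀ e ∈ E, c + 1 ≤ clw l x W lo (X (a + 1)) e := by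
  have hXa : X a < X (a + 1) := S.H.mono (Nat.lt_succ_self a)
  have hnl : ∀ e ∈ E, x e = true := by
    intro e he
    cases hx : x e
    · exfalso
      have hl : l e = true := by
        rcases S.H.lx e he with h | h
        · exact h
        · rw [hx] at h
          exact absurd h Bool.false_ne_true
      have h1 := low_lt_z S.H he hl hx hc
      have h2 := hmin e he
      unfold clw at h2
      simp only [bz, hl, hx, if_true, Bool.false_eq_true, if_false] at h2
      omega
    · rfl
  have hcard : (Z.erase c).card + 1 = Z.card := Finset.card_erase_add_one hc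
  constructor
  · refine ⟨?_, S.odd, S.hK, S.own_p, S.own_inj, S.own_pp, S.tk_mem, S.tk_pp, S.tk_inj, ?_, ?_⟩
    · refine ⟨S.H.lx, S.H.pl, S.H.ppm, S.H.ppi, S.H.cnt, ?_, S.H.mono, ?_, ?_, ?_, ?_⟩
      · have := S.H.xcnt
        omega
      · exact Finset.disjoint_of_subset_left (Finset.erase_subset _ _) S.H.disj
      · intro e he _ hx
        rw [hnl e he] at hx
        exact Bool.noConfusion hx
      · intro f hf hx hl s hs i h1 h2
        exact S.H.h2 f hf hx hl s hs i (by omega) h2
      · intro f hf hx hl e he hle hxe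
        have := S.H.h3 f hf hx hl e he hle hxe
        omega
    · intro f hf hx hl ht s hs i h1 h2
      exact S.h2' f hf hx hl ht s hs i (by omega) h2
    · intro s hs
      rcases S.h4 s hs with h | h | h
      · refine Or.inl ⟨h.1, lt_of_lt_of_le h.2 ?_⟩
        have : bz (x (own (tk s))) (X a) ≤ bz (x (own (tk s))) (X (a + 1)) := bz_mono hXa.le
        omega
      · obtain ⟨d, hd, hl, hp, h1⟩ := h
        refine Or.inr (Or.inl ⟨d, hd, hl, hp, ?_⟩)
        have : a + 1 + (Z.erase c).card + nu l x p E = a + Z.card + nu l x p E := by omega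
        rw [this]
        exact h1
      · exact Or.inr (Or.inr h)
  · intro e he
    have h1 := hmin e he
    unfold clw at h1 ⊢
    simp only [bz, hnl e he, if_true] at h1 ⊢
    omega

/-- using a token: its pair gets the labels `lo`, `hi` -/
theorem st_use (S : OddSt l x p pp own X tk tk' K W E Pi lo hi a b Z R) {R' : Finset ℤ}
    (hR : R' ⊆ R) {t : π} (ht : t ∈ Pi) (tpp : ∀ e ∈ E, p e = true → pp e ≠ t)
    (htk : ∀ s ∈ R', tk s ≠ t) (htk' : ∀ s ∈ R', TyC l p pp own tk tk' E Pi R s → tk' s ≠ t) :
    OddSt l x p pp own X tk tk' K (Function.update W (own t) (W (own t) - 1)) E (Pi.erase t)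
      (lo + 1) (hi - 1) a b Z R' := by
  have hup := upd_le W (own t)
  have hgp := upd_ge W (own t)
  have hne : ∀ f, f ≠ own t → Function.update W (own t) (W (own t) - 1) f = W f := fun f hf =>
    Function.update_of_ne hf _ _
  have hcard : (Pi.erase t).card + 1 = Pi.card := Finset.card_erase_add_one ht
  refine ⟨?_, S.odd, by rw [S.hK]; ring, fun s hs => S.own_p s (Finset.mem_of_mem_erase hs),
    fun s hs s' hs' => S.own_inj s (Finset.mem_of_mem_erase hs) s' (Finset.mem_of_mem_erase hs'),
    S.own_pp, fun s hs => Finset.mem_erase.2 ⟨htk s hs, S.tk_mem s (hR hs)⟩,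
    fun s hs => S.tk_pp s (hR hs), fun s hs s' hs' => S.tk_inj s (hR hs) s' (hR hs'), ?_, ?_⟩
  · refine ⟨S.H.lx, S.H.pl, fun e he hp => Finset.mem_erase.2 ⟨tpp e he hp, S.H.ppm e he hp⟩,
      S.H.ppi, ?_, S.H.xcnt, S.H.mono, Finset.disjoint_of_subset_right hR S.H.disj, ?_, ?_, ?_⟩
    · have := S.H.cnt
      omega
    · intro g hg hl hx z hz
      have h1 := S.H.h1 g hg hl hx z hz
      have h2 := kap_le l x W (Function.update W (own t) (W (own t) - 1)) (X a) (X a) E E
        {own t} g (by
          intro f hf _ _ h3 h4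
          rw [Finset.mem_singleton] at h4
          refine ⟨hf, ?_⟩
          rw [hne f h4]
          exact lt_of_le_of_lt (hup g) h3)
      rw [Finset.card_singleton] at h2
      have h3 := hup g
      omega
    · intro f hf hx hl s hs i h1 h2
      by_cases h : f = own t
      · subst h
        rw [Function.update_self]
        exact S.h2' _ hf hx hl ⟨t, ht, rfl⟩ s (hR hs) i h1 h2
      · rw [hne f h]
        exact S.H.h2 f hf hx hl s (hR hs) i h1 h2
    · intro f hf hx hl e he hle hxe
      have h1 := S.H.h3 f hf hx hl e he hle hxe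
      have h2 := hgp f
      have h3 := hup e
      omega
  · intro f hf hx hl ht' s hs i h1 h2
    obtain ⟨t', ht', h3⟩ := ht'
    rw [Finset.mem_erase] at ht'
    have h : f ≠ own t := by
      intro h
      exact ht'.1 (S.own_inj t' ht'.2 t ht (h3.trans h))
    rw [hne f h]
    exact S.h2' f hf hx hl ⟨t', ht'.2, h3⟩ s (hR hs) i h1 h2
  · intro s hs
    rcases S.h4 s (hR hs) with h | h | h
    · left
      have h1 : own (tk s) ≠ own t := fun h1 =>
        htk s hs (S.own_inj _ (S.tk_mem s (hR hs)) _ ht h1)
      refine ⟨h.1, ?_⟩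
      rw [hne _ h1]
      have h2 : bz (l (own (tk s))) lo ≤ bz (l (own (tk s))) (lo + 1) := bz_mono (by omega)
      have h3 := h.2
      omega
    · right
      left
      obtain ⟨d, hd, hl, hp, h1⟩ := h
      refine ⟨d, hd, hl, hp, lt_of_le_of_lt ?_ h1⟩
      have h2 := hup d
      omega
    · right
      right
      have h0 := htk' s hs h
      obtain ⟨h1, h2, h3, h4, h5, h6, h7, h8⟩ := h
      exact ⟨h1, h2, Finset.mem_erase.2 ⟨h0, h3⟩, h4, h5, h6, h7, fun s' hs' => h8 s' (hR hs')⟩

/-- placing an `x`-only element at the lower end -/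
theorem st_x (S : OddSt l x p pp own X tk tk' K W E Pi lo hi a b Z R) {e : ι} (he : e ∈ E)
    (hl : l e = false) (hx : x e = true) (hR : ∀ s ∈ R, clw l x W lo (X a) e < s) :
    OddSt l x p pp own X tk tk' K W (E.erase e) Pi lo hi (a + 1) b Z R := by
  have hXa : X a < X (a + 1) := S.H.mono (Nat.lt_succ_self a)
  have hsub : E.erase e ⊆ E := Finset.erase_subset _ _
  have hnl : ∀ f ∈ E, l f = true → f ∈ E.erase e := by
    intro f hf hlf
    refine Finset.mem_erase.2 ⟨?_, hf⟩
    rintro rfl
    rw [hl] at hlf
    exact Bool.noConfusion hlf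
  have hnS : nS l p (E.erase e) = nS l p E := by
    have := card_filter_erase (fun e => l e = true ∧ p e = false) E he
    rw [if_neg (by rw [hl]; simp)] at this
    exact this
  have hnX : nX x (E.erase e) + 1 = nX x E := by
    have := card_filter_erase (fun e => x e = true) E he
    rw [if_pos hx] at this
    exact this
  have hnu : nu l x p (E.erase e) + 1 = nu l x p E := by
    have := card_filter_erase (fun e => x e = true ∧ ¬ (l e = true ∧ p e = false)) E he
    rw [if_pos (by rw [hl]; simp [hx])] at this
    exact this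
  refine ⟨?_, by rw [hnS]; exact S.odd, S.hK, S.own_p, S.own_inj, ?_, S.tk_mem,
    fun s hs f hf => S.tk_pp s hs f (hsub hf), S.tk_inj, ?_, ?_⟩
  · refine ⟨fun f hf => S.H.lx f (hsub hf), fun f hf => S.H.pl f (hsub hf),
      fun f hf => S.H.ppm f (hsub hf), fun f hf g hg => S.H.ppi f (hsub hf) g (hsub hg), ?_, ?_,
      S.H.mono, S.H.disj, ?_, ?_, ?_⟩
    · rw [hnS]
      exact S.H.cnt
    · have := S.H.xcnt
      omega
    · intro g hg hlg hxg z hz
      have h1 := S.H.h1 g (hsub hg) hlg hxg z hz
      have h2 := kap_le l x W W (X a) (X (a + 1)) E (E.erase e) ∅ g (by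
          intro f hf _ hlf h3 _
          refine ⟨hnl f hf hlf, lt_of_lt_of_le h3 ?_⟩
          have : bz (x f) (X a) ≤ bz (x f) (X (a + 1)) := bz_mono hXa.le
          omega)
      rw [Finset.card_empty] at h2
      omega
    · intro f hf hxf hlf s hs i h1 h2
      exact S.H.h2 f (hsub hf) hxf hlf s hs i (by omega) h2
    · intro f hf hxf hlf g hg hlg hxg
      have := S.H.h3 f (hsub hf) hxf hlf g (hsub hg) hlg hxg
      omega
  · intro f hf hpf
    obtain ⟨h1, h2⟩ := S.own_pp f (hsub hf) hpf
    exact ⟨hnl _ h1 h2, h2⟩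
  · intro f hf hxf hlf ht s hs i h1 h2
    exact S.h2' f (hsub hf) hxf hlf ht s hs i (by omega) h2
  · intro s hs
    rcases S.h4 s hs with h | h | h
    · left
      have h1 : own (tk s) ≠ e := by
        intro h1
        have h2 := h.2
        have h3 := hR s hs
        rw [h1] at h2
        unfold clw at h3
        omega
      refine ⟨Finset.mem_erase.2 ⟨h1, h.1⟩, lt_of_lt_of_le h.2 ?_⟩
      have : bz (x (own (tk s))) (X a) ≤ bz (x (own (tk s))) (X (a + 1)) := bz_mono hXa.le
      omega
    · right
      left
      obtain ⟨d, hd, hld, hp, h1⟩ := h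
      refine ⟨d, hnl d hd hld, hld, hp, ?_⟩
      have h2 : a + 1 + Z.card + nu l x p (E.erase e) = a + Z.card + nu l x p E := by omega
      rw [h2]
      exact h1
    · right
      right
      obtain ⟨h1, h2, h3, h4, h5, h6, h7, h8⟩ := h
      exact ⟨hnl _ h1 h2, h2, h3, hnl _ h4 h5, h5, h6, fun f hf => h7 f (hsub hf), h8⟩

/-- placing a `p`-element at the lower end -/
theorem st_p (S : OddSt l x p pp own X tk tk' K W E Pi lo hi a b Z R) {e : ι} (he : e ∈ E)
    (hp : p e = true) (hmin : ∀ f ∈ E, clw l x W lo (X a) e ≤ clw l x W lo (X a) f) :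
    OddSt l x p pp own X tk tk' K (Function.update W (own (pp e)) (W (own (pp e)) - 1))
      (E.erase e) (Pi.erase (pp e)) (lo + 1) (hi - 1) (a + if x e = true then 1 else 0) b Z R := by
  have hl : l e = true := S.H.pl e he hp
  have hpe : pp e ∈ Pi := S.H.ppm e he hp
  obtain ⟨hoE, hol⟩ := S.own_pp e he hp
  have hsub : E.erase e ⊆ E := Finset.erase_subset _ _
  have hsubP : Pi.erase (pp e) ⊆ Pi := Finset.erase_subset _ _
  have hup := upd_le W (own (pp e))
  have hgp := upd_ge W (own (pp e))
  have hne : ∀ f, f ≠ own (pp e) →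
      Function.update W (own (pp e)) (W (own (pp e)) - 1) f = W f := fun f hf =>
    Function.update_of_ne hf _ _
  have hnep : ∀ f, p f = false → f ≠ e := by
    rintro f hf rfl
    rw [hp] at hf
    exact Bool.noConfusion hf
  have hnel : ∀ f, l f = false → f ≠ own (pp e) := by
    rintro f hf rfl
    rw [hol] at hf
    exact Bool.noConfusion hf
  have haa : a ≤ a + if x e = true then 1 else 0 := Nat.le_add_right _ _
  have hXa : X a ≤ X (a + if x e = true then 1 else 0) := S.H.mono.monotone haa
  have hcard : (Pi.erase (pp e)).card + 1 = Pi.card := Finset.card_erase_add_one hpe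
  have hnS : nS l p (E.erase e) = nS l p E := by
    have := card_filter_erase (fun e => l e = true ∧ p e = false) E he
    rw [if_neg (by rw [hp]; simp)] at this
    exact this
  have hnX : nX x (E.erase e) + (if x e = true then 1 else 0) = nX x E :=
    card_filter_erase (fun e => x e = true) E he
  have hnu : nu l x p (E.erase e) + (if x e = true then 1 else 0) = nu l x p E := by
    have := card_filter_erase (fun e => x e = true ∧ ¬ (l e = true ∧ p e = false)) E he
    rw [hp, hl] at this
    simp only [Bool.true_eq_false, and_false, not_false_eq_true, and_true] at this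
    exact this
  refine ⟨?_, by rw [hnS]; exact S.odd, by rw [S.hK]; ring, fun t ht => S.own_p t (hsubP ht),
    fun s hs s' hs' => S.own_inj s (hsubP hs) s' (hsubP hs'), ?_,
    fun s hs => Finset.mem_erase.2 ⟨fun h => S.tk_pp s hs e he hp h.symm, S.tk_mem s hs⟩,
    fun s hs f hf => S.tk_pp s hs f (hsub hf), S.tk_inj, ?_, ?_⟩
  · refine ⟨fun f hf => S.H.lx f (hsub hf), fun f hf => S.H.pl f (hsub hf),
      fun f hf hpf => Finset.mem_erase.2 ⟨fun h => ?_, S.H.ppm f (hsub hf) hpf⟩,
      fun f hf g hg => S.H.ppi f (hsub hf) g (hsub hg), ?_, ?_,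
      S.H.mono, S.H.disj, ?_, ?_, ?_⟩
    · exact (Finset.mem_erase.1 hf).1 (S.H.ppi f (hsub hf) e he hpf hp h)
    · have := S.H.cnt
      omega
    · have := S.H.xcnt
      omega
    · intro g hg hlg hxg z hz
      have h1 := S.H.h1 g (hsub hg) hlg hxg z hz
      have h2 := kap_le l x W (Function.update W (own (pp e)) (W (own (pp e)) - 1)) (X a)
        (X (a + if x e = true then 1 else 0)) E (E.erase e) {own (pp e)} g (by
          intro f hf _ hlf h3 h4
          rw [Finset.mem_singleton] at h4
          constructor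
          · refine Finset.mem_erase.2 ⟨?_, hf⟩
            rintro rfl
            have h5 := hmin g (hsub hg)
            unfold clw at h5
            simp only [bz, hl, hlg, hxg, if_true, Bool.false_eq_true, if_false] at h5
            unfold bz at h3
            omega
          · rw [hne f h4]
            have h5 : bz (x f) (X a) ≤ bz (x f) (X (a + if x e = true then 1 else 0)) :=
              bz_mono hXa
            have h6 := hup g
            omega)
      rw [Finset.card_singleton] at h2
      have h3 := hup g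
      omega
    · intro f hf hxf hlf s hs i h1 h2
      rw [hne f (hnel f hlf)]
      exact S.H.h2 f (hsub hf) hxf hlf s hs i (le_trans haa h1) h2
    · intro f hf hxf hlf g hg hlg hxg
      rw [hne f (hnel f hlf)]
      have h1 := S.H.h3 f (hsub hf) hxf hlf g (hsub hg) hlg hxg
      have h2 := hup g
      omega
  · intro f hf hpf
    obtain ⟨h1, h2⟩ := S.own_pp f (hsub hf) hpf
    exact ⟨Finset.mem_erase.2 ⟨hnep _ (S.own_p _ (S.H.ppm f (hsub hf) hpf)), h1⟩, h2⟩
  · intro f hf hxf hlf ht s hs i h1 h2
    obtain ⟨t, ht, h3⟩ := ht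
    rw [hne f (hnel f hlf)]
    exact S.h2' f (hsub hf) hxf hlf ⟨t, hsubP ht, h3⟩ s hs i (le_trans haa h1) h2
  · intro s hs
    have htm := S.tk_mem s hs
    have hno : own (tk s) ≠ e := hnep _ (S.own_p _ htm)
    rcases S.h4 s hs with h | h | h
    · left
      have h1 : own (tk s) ≠ own (pp e) := fun h1 =>
        S.tk_pp s hs e he hp (S.own_inj _ htm _ hpe h1).symm
      refine ⟨Finset.mem_erase.2 ⟨hno, h.1⟩, ?_⟩
      rw [hne _ h1]
      have h2 : bz (l (own (tk s))) lo ≤ bz (l (own (tk s))) (lo + 1) := bz_mono (by omega)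
      have h3 : bz (x (own (tk s))) (X a) ≤
        bz (x (own (tk s))) (X (a + if x e = true then 1 else 0)) := bz_mono hXa
      have h4 := h.2
      omega
    · right
      left
      obtain ⟨d, hd, hld, hpd, h1⟩ := h
      refine ⟨d, Finset.mem_erase.2 ⟨hnep d hpd, hd⟩, hld, hpd, ?_⟩
      have h2 : (a + if x e = true then 1 else 0) + Z.card + nu l x p (E.erase e) =
        a + Z.card + nu l x p E := by omega
      rw [h2]
      refine lt_of_le_of_lt ?_ h1
      have h3 := hup d
      omega
    · right
      right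
      obtain ⟨h1, h2, h3, h4, h5, h6, h7, h8⟩ := h
      exact ⟨Finset.mem_erase.2 ⟨hno, h1⟩, h2,
        Finset.mem_erase.2 ⟨fun h => h7 e he hp h.symm, h3⟩,
        Finset.mem_erase.2 ⟨hnep _ (S.own_p _ h3), h4⟩, h5, h6, fun f hf => h7 f (hsub hf), h8⟩


/-- placing a single at the lower end -/
theorem st_s (H : SweepHyp l x p pp W X E Pi lo hi a b Z R) {e : ι} (he : e ∈ E)
    (hl : l e = true) (hp : p e = false)
    (hmin : ∀ f ∈ E, clw l x W lo (X a) e ≤ clw l x W lo (X a) f) :
    SweepHyp l x p pp W X (E.erase e) Pi (lo + 1) hi (a + if x e = true then 1 else 0) b Z R := by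
  have hsub : E.erase e ⊆ E := Finset.erase_subset _ _
  have haa : a ≤ a + if x e = true then 1 else 0 := Nat.le_add_right _ _
  have hXa : X a ≤ X (a + if x e = true then 1 else 0) := H.mono.monotone haa
  have hnS : nS l p (E.erase e) + 1 = nS l p E := by
    have := card_filter_erase (fun e => l e = true ∧ p e = false) E he
    rw [if_pos ⟨hl, hp⟩] at this
    exact this
  have hnX : nX x (E.erase e) + (if x e = true then 1 else 0) = nX x E :=
    card_filter_erase (fun e => x e = true) E he
  refine ⟨fun f hf => H.lx f (hsub hf), fun f hf => H.pl f (hsub hf),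
    fun f hf => H.ppm f (hsub hf), fun f hf g hg => H.ppi f (hsub hf) g (hsub hg), ?_, ?_,
    H.mono, H.disj, ?_, ?_, ?_⟩
  · have := H.cnt
    omega
  · have := H.xcnt
    omega
  · intro g hg hlg hxg z hz
    have h1 := H.h1 g (hsub hg) hlg hxg z hz
    have h2 := kap_le l x W W (X a) (X (a + if x e = true then 1 else 0)) E (E.erase e) ∅ g (by
        intro f hf _ hlf h3 _
        constructor
        · refine Finset.mem_erase.2 ⟨?_, hf⟩
          rintro rfl
          have h5 := hmin g (hsub hg)
          unfold clw at h5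
          simp only [bz, hl, hlg, hxg, if_true, Bool.false_eq_true, if_false] at h5
          unfold bz at h3
          omega
        · have h5 : bz (x f) (X a) ≤ bz (x f) (X (a + if x e = true then 1 else 0)) :=
            bz_mono hXa
          omega)
    rw [Finset.card_empty] at h2
    omega
  · intro f hf hxf hlf s hs i h1 h2
    exact H.h2 f (hsub hf) hxf hlf s hs i (le_trans haa h1) h2
  · intro f hf hxf hlf g hg hlg hxg
    have h1 := H.h3 f (hsub hf) hxf hlf g (hsub hg) hlg hxg
    omega

/-- Odd lemma. -/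
theorem odd_main (n : ℕ) : ∀ (W : ι → ℤ) (E : Finset ι) (Pi : Finset π) (lo hi : ℤ) (a b : ℕ)
    (Z R : Finset ℤ), E.card + Z.card + R.card = n →
    OddSt l x p pp own X tk tk' K W E Pi lo hi a b Z R →
    ∀ m, (∀ e ∈ E, m ≤ clw l x W lo (X a) e) →
    Res l x p pp own X K m W E Pi lo hi a b Z R := by
  induction n using Nat.strong_induction_on with
  | _ n IH =>
    intro W E Pi lo hi a b Z R hn S m hm
    have hpos : 0 < nS l p E := S.odd.pos
    have hne : E.Nonempty := by
      obtain ⟨e, he⟩ := Finset.card_pos.1 hpos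
      exact ⟨e, (Finset.mem_filter.1 he).1⟩
    have hlohi : lo ≤ hi := by
      have := S.H.cnt
      omega
    obtain ⟨e0, he0, hmin⟩ := E.exists_min_image (clw l x W lo (X a)) hne
    refine res_mono (hm e0 he0) ?_
    by_cases hcZ : clw l x W lo (X a) e0 ∈ Z
    · obtain ⟨S1, h1⟩ := st_z S hcZ hmin
      have hlt : E.card + (Z.erase (clw l x W lo (X a) e0)).card + R.card < n := by
        have := Finset.card_erase_add_one hcZ
        omega
      have hlt0 : clw l x W lo (X a) e0 < clw l x W lo (X a) e0 + 1 := by omega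
      exact res_mono hlt0.le (res_addZ hlt0
        (res_a S.H.mono (IH _ hlt _ _ _ _ _ _ _ _ _ rfl S1 _ h1)))
    by_cases h0 : ∃ s ∈ R, s < clw l x W lo (X a) e0
    · obtain ⟨s, hs, hsc⟩ := h0
      have hlt : E.card + Z.card + (R.erase s).card < n := by
        have := Finset.card_erase_add_one hs
        omega
      exact res_addR hsc (IH _ hlt _ _ _ _ _ _ _ _ _ rfl (st_R S (Finset.erase_subset _ _)) _
        hmin)
    have hRc : ∀ s ∈ R, clw l x W lo (X a) e0 ≤ s := fun s hs => by
      by_contra h
      exact h0 ⟨s, hs, not_le.1 h⟩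
    by_cases hcR : clw l x W lo (X a) e0 ∈ R
    · have hltR : E.card + Z.card + (R.erase (clw l x W lo (X a) e0)).card < n := by
        have := Finset.card_erase_add_one hcR
        omega
      have hlt0 : clw l x W lo (X a) e0 < clw l x W lo (X a) e0 + 1 := by omega
      have hsubR : R.erase (clw l x W lo (X a) e0) ⊆ R := Finset.erase_subset _ _
      have ht := S.tk_mem _ hcR
      have hlt := S.lt ht
      have htk : ∀ s ∈ R.erase (clw l x W lo (X a) e0), tk s ≠ tk (clw l x W lo (X a) e0) := by
        intro s hs h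
        exact (Finset.mem_erase.1 hs).1 (S.tk_inj s (hsubR hs) _ hcR h)
      have hxo : ∀ f ∈ E, l f = false → clw l x W lo (X a) e0 < W f + X a := by
        intro f hf hl
        have hx : x f = true := by
          rcases S.H.lx f hf with h | h
          · rw [hl] at h
            exact absurd h Bool.false_ne_true
          · exact h
        have h1 := S.H.h2 f hf hx hl _ hcR a le_rfl (le_of_x S.H hf hx)
        have h2 := hmin f hf
        have h3 : clw l x W lo (X a) f = W f + X a := by
          unfold clw
          simp only [bz, hl, hx, if_true, Bool.false_eq_true, if_false]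
          ring
        rw [h3] at h2
        exact lt_of_le_of_ne h2 (Ne.symm h1)
      have hclx : ∀ f ∈ E, l f = false → ∀ (W' : ι → ℤ) (lo' : ℤ),
          clw l x W' lo' (X a) f = W' f + X a := by
        intro f hf hl W' lo'
        have hx : x f = true := by
          rcases S.H.lx f hf with h | h
          · rw [hl] at h
            exact absurd h Bool.false_ne_true
          · exact h
        unfold clw
        simp only [bz, hl, hx, if_true, Bool.false_eq_true, if_false]
        ring
      have hcll : ∀ f, l f = true → ∀ (W' : ι → ℤ) (lo' : ℤ),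
          clw l x W' lo' (X a) f = W' f + lo' + bz (x f) (X a) := by
        intro f hl W' lo'
        unfold clw
        rw [hl]
        simp only [bz, if_true]
      rcases S.h4 _ hcR with hA | hB | hC
      · -- type (A)
        have S1 := st_use S hsubR ht (S.tk_pp _ hcR) htk
          (fun s hs hC => (hC.2.2.2.2.2.2.2 _ hcR).1)
        refine res_addR hlt0 |> fun k => res_mono hlt0.le (k ?_)
        refine res_pair ht hA.1 S.hK (by omega) (S.tk_pp _ hcR)
          (IH _ hltR _ _ _ _ _ _ _ _ _ rfl S1 _ ?_)
        intro f hf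
        by_cases h : f = own (tk (clw l x W lo (X a) e0))
        · have h1 := hA.2
          rw [← h] at h1 ⊢
          have h2 : bz (l f) lo ≤ bz (l f) (lo + 1) := bz_mono (by omega)
          have h3 : clw l x (Function.update W f (W f - 1)) (lo + 1) (X a) f =
              W f - 1 + bz (l f) (lo + 1) + bz (x f) (X a) := by
            unfold clw
            rw [Function.update_self]
          rw [h3]
          omega
        · cases hl : l f
          · rw [hclx f hf hl, Function.update_of_ne h]
            have := hxo f hf hl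
            omega
          · have h1 := hmin f hf
            rw [hcll f hl] at h1 ⊢
            rw [Function.update_of_ne h]
            omega
      · -- type (B)
        exfalso
        obtain ⟨d, hd, hld, hpd, h1⟩ := hB
        have h2 := hmin d hd
        rw [hcll d hld] at h2
        have h3 : bz (x d) (X a) ≤ bz (x d) (X (min b (a + Z.card + nu l x p E))) := by
          cases hx : x d
          · simp [bz]
          · apply bz_mono
            apply S.H.mono.monotone
            have := le_of_x S.H hd hx
            omega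
        omega
      · -- type (C)
        obtain ⟨hoE, hol, ht', hoE', hol', htt, htpp', hC8⟩ := hC
        have S1 := st_use S hsubR ht (S.tk_pp _ hcR) htk
          (fun s hs hC => (hC.2.2.2.2.2.2.2 _ hcR).1)
        have ht'1 : tk' (clw l x W lo (X a) e0) ∈ Pi.erase (tk (clw l x W lo (X a) e0)) :=
          Finset.mem_erase.2 ⟨htt, ht'⟩
        have S2 := st_use S1 (Finset.Subset.refl _) ht'1 htpp'
          (fun s hs h => (hC8 s (hsubR hs)).1 h.symm)
          (fun s hs _ h => (Finset.mem_erase.1 hs).1 ((hC8 s (hsubR hs)).2 h.symm).symm)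
        have hlt1 := S1.lt ht'1
        refine res_addR hlt0 |> fun k => res_mono hlt0.le (k ?_)
        refine res_pair ht hoE S.hK (by omega) (S.tk_pp _ hcR) ?_
        refine res_pair ht'1 hoE' S1.hK (by omega) htpp' ?_
        refine IH _ hltR _ _ _ _ _ _ _ _ _ rfl S2 _ ?_
        intro f hf
        cases hl : l f
        · have h1 : f ≠ own (tk (clw l x W lo (X a) e0)) := by
            intro h
            rw [h, hol] at hl
            exact Bool.noConfusion hl
          have h2 : f ≠ own (tk' (clw l x W lo (X a) e0)) := by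
            intro h
            rw [h, hol'] at hl
            exact Bool.noConfusion hl
          rw [hclx f hf hl, Function.update_of_ne h2, Function.update_of_ne h1]
          have := hxo f hf hl
          omega
        · have h1 := hmin f hf
          rw [hcll f hl] at h1 ⊢
          have hoo : own (tk' (clw l x W lo (X a) e0)) ≠ own (tk (clw l x W lo (X a) e0)) :=
            fun h => htt (S.own_inj _ ht' _ ht h)
          by_cases h2 : f = own (tk' (clw l x W lo (X a) e0))
          · rw [← h2] at hoo ⊢
            rw [Function.update_self, Function.update_of_ne hoo]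
            omega
          · rw [Function.update_of_ne h2]
            have := upd_ge W (own (tk (clw l x W lo (X a) e0))) f
            omega
    by_cases hs : ∃ e ∈ E, l e = true ∧ p e = false ∧
        clw l x W lo (X a) e = clw l x W lo (X a) e0
    · -- a single at the lower end
      obtain ⟨e, he, hl, hp, hce⟩ := hs
      rw [← hce] at hcZ hcR hmin ⊢
      have hsub : E.erase e ⊆ E := Finset.erase_subset _ _
      have haa : a ≤ a + if x e = true then 1 else 0 := Nat.le_add_right _ _
      refine res_elt S.H.mono hp (show lo ≤ lo + 1 by omega) (fun _ => rfl) (fun _ => hlohi) haa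
        (fun h => by rw [if_pos h]) (fun h => le_of_x S.H he h) hcZ hcR ?_
      have hnS : nS l p (E.erase e) + 1 = nS l p E := by
        have := card_filter_erase (fun e => l e = true ∧ p e = false) E he
        rw [if_pos ⟨hl, hp⟩] at this
        exact this
      refine res_even (st_s S.H he hl hp hmin) (by rw [S.hK]; ring) ?_ ?_ ?_
      · have := S.odd
        rw [← hnS] at this
        rcases this with ⟨k, hk⟩
        exact ⟨k, by omega⟩
      · exact nP_le (fun f hf => S.H.ppm f (hsub hf))
          (fun f hf g hg => S.H.ppi f (hsub hf) g (hsub hg)) S.tk_mem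
          (fun s hs f hf => S.tk_pp s hs f (hsub hf)) S.tk_inj
      · intro f hf
        have h1 := hmin f (hsub hf)
        cases hlf : l f
        · have hxf : x f = true := by
            rcases S.H.lx f (hsub hf) with h | h
            · rw [hlf] at h
              exact absurd h Bool.false_ne_true
            · exact h
          cases hxe : x e
          · have h2 := S.H.h3 f (hsub hf) hxf hlf e he hl hxe
            unfold clw at h1 ⊢
            simp only [bz, hl, hxe, hlf, hxf, if_true, Bool.false_eq_true, if_false,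
              add_zero] at h1 ⊢
            omega
          · have h3 : X a < X (a + 1) := S.H.mono (Nat.lt_succ_self a)
            unfold clw at h1 ⊢
            simp only [bz, hl, hxe, hlf, hxf, if_true, Bool.false_eq_true, if_false,
              add_zero] at h1 ⊢
            omega
        · have h3 : bz (x f) (X a) ≤ bz (x f) (X (a + if x e = true then 1 else 0)) :=
            bz_mono (S.H.mono.monotone haa)
          have h4 : clw l x W (lo + 1) (X (a + if x e = true then 1 else 0)) f =
              W f + (lo + 1) + bz (x f) (X (a + if x e = true then 1 else 0)) := by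
            unfold clw
            rw [hlf]
            simp only [bz, if_true]
          have h5 : clw l x W lo (X a) f = W f + lo + bz (x f) (X a) := by
            unfold clw
            rw [hlf]
            simp only [bz, if_true]
          omega
    have hltE : (E.erase e0).card + Z.card + R.card < n := by
      have := Finset.card_erase_add_one he0
      omega
    have hsub : E.erase e0 ⊆ E := Finset.erase_subset _ _
    cases hp : p e0
    · -- an `x`-only element at the lower end
      have hl : l e0 = false := by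
        cases hl : l e0
        · rfl
        · exact absurd ⟨e0, he0, hl, hp, rfl⟩ hs
      have hx : x e0 = true := by
        rcases S.H.lx e0 he0 with h | h
        · rw [hl] at h
          exact absurd h Bool.false_ne_true
        · exact h
      have S1 := st_x S he0 hl hx fun s hs =>
        lt_of_le_of_ne (hRc s hs) fun h => hcR (h ▸ hs)
      refine res_elt S.H.mono hp (le_refl lo) (fun h => ?_) (fun _ => hlohi) (Nat.le_succ a)
        (fun _ => rfl) (fun h => le_of_x S.H he0 h) hcZ hcR
        (IH _ hltE _ _ _ _ _ _ _ _ _ rfl S1 _ ?_)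
      · rw [hl] at h
        exact absurd h Bool.false_ne_true
      · intro f hf
        have h1 := hmin f (hsub hf)
        have h3 : X a < X (a + 1) := S.H.mono (Nat.lt_succ_self a)
        cases hxf : x f
        · have hlf : l f = true := by
            rcases S.H.lx f (hsub hf) with h | h
            · exact h
            · rw [hxf] at h
              exact absurd h Bool.false_ne_true
          have h2 := S.H.h3 e0 he0 hx hl f (hsub hf) hlf hxf
          unfold clw at h1 ⊢
          simp only [bz, hl, hx, hlf, hxf, if_true, Bool.false_eq_true, if_false,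
            add_zero] at h1 ⊢
          omega
        · unfold clw at h1 ⊢
          rw [hxf] at h1 ⊢
          simp only [bz, if_true] at h1 ⊢
          omega
    · -- a `p`-element at the lower end
      have hl : l e0 = true := S.H.pl e0 he0 hp
      have hpe := S.H.ppm e0 he0 hp
      obtain ⟨hoE, hol⟩ := S.own_pp e0 he0 hp
      have hlt := S.lt hpe
      have S1 := st_p S he0 hp hmin
      have haa : a ≤ a + if x e0 = true then 1 else 0 := Nat.le_add_right _ _
      refine res_p S.H.mono he0 hp hpe hoE S.own_p S.hK S.H.ppi (by omega) haa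
        (fun h => by rw [if_pos h]) (fun h => le_of_x S.H he0 h) hcZ hcR
        (IH _ hltE _ _ _ _ _ _ _ _ _ rfl S1 _ ?_)
      intro f hf
      have h1 := hmin f (hsub hf)
      cases hlf : l f
      · have hxf : x f = true := by
          rcases S.H.lx f (hsub hf) with h | h
          · rw [hlf] at h
            exact absurd h Bool.false_ne_true
          · exact h
        have hne' : f ≠ own (pp e0) := by
          intro h
          rw [h, hol] at hlf
          exact Bool.noConfusion hlf
        cases hxe : x e0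
        · have h2 := S.H.h3 f (hsub hf) hxf hlf e0 he0 hl hxe
          unfold clw at h1 ⊢
          rw [Function.update_of_ne hne']
          simp only [bz, hl, hxe, hlf, hxf, if_true, Bool.false_eq_true, if_false,
            add_zero] at h1 ⊢
          omega
        · have h3 : X a < X (a + 1) := S.H.mono (Nat.lt_succ_self a)
          unfold clw at h1 ⊢
          rw [Function.update_of_ne hne']
          simp only [bz, hl, hxe, hlf, hxf, if_true, Bool.false_eq_true, if_false,
            add_zero] at h1 ⊢
          omega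
      · have h3 : bz (x f) (X a) ≤ bz (x f) (X (a + if x e0 = true then 1 else 0)) :=
          bz_mono (S.H.mono.monotone haa)
        have h4 : clw l x (Function.update W (own (pp e0)) (W (own (pp e0)) - 1)) (lo + 1)
            (X (a + if x e0 = true then 1 else 0)) f =
            Function.update W (own (pp e0)) (W (own (pp e0)) - 1) f + (lo + 1) +
              bz (x f) (X (a + if x e0 = true then 1 else 0)) := by
          unfold clw
          rw [hlf]
          simp only [bz, if_true]
        have h5 : clw l x W lo (X a) f = W f + lo + bz (x f) (X a) := by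
          unfold clw
          rw [hlf]
          simp only [bz, if_true]
        by_cases h : f = own (pp e0)
        · have h6 : clw l x W lo (X a) f ≠ clw l x W lo (X a) e0 := fun h7 =>
            hs ⟨f, hsub hf, hlf, by rw [h]; exact S.own_p _ hpe, h7⟩
          rw [h4]
          have h7 := upd_ge W (own (pp e0)) f
          omega
        · rw [h4, Function.update_of_ne h]
          omega

end Sweep

open Sweep

/-- **Sweep lemma.** -/
theorem sweep (l x p : ι → Bool) (pp : ι → π) (own : π → ι) (W : ι → ℤ) (X : ℕ → ℤ)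
    (E : Finset ι) (Pi : Finset π) (lo hi : ℤ) (U : ℕ) (Z R : Finset ℤ) (tk tk' : ℤ → π)
    (K : ℤ) (hK : K = lo + hi + (nS l p E % 2 : ℕ))
    (H : SweepHyp l x p pp W X E Pi lo hi 1 U Z R)
    (own_mem : ∀ t ∈ Pi, own t ∈ E ∧ p (own t) = false)
    (own_inj : ∀ s ∈ Pi, ∀ t ∈ Pi, own s = own t → s = t)
    (own_pp : ∀ e ∈ E, p e = true → l (own (pp e)) = true)
    (tk_mem : ∀ s ∈ R, tk s ∈ Pi ∧ ∀ e ∈ E, p e = true → pp e ≠ tk s)
    (tk_inj : ∀ s ∈ R, ∀ s' ∈ R, tk s = tk s' → s = s')
    (h2' : Odd (nS l p E) → ∀ f ∈ E, x f = true → l f = false → ∀ s ∈ R, ∀ i, 1 ≤ i → i ≤ U →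
      W f - 1 + X i ≠ s)
    (h4 : Odd (nS l p E) → ∀ s ∈ R,
      -- (A)
      (s < W (own (tk s)) - 1 + bz (l (own (tk s))) lo + bz (x (own (tk s))) (X 1)) ∨
      -- (B)
      (∃ d ∈ E, l d = true ∧ p d = false ∧ W d + (lo + Pi.card) + bz (x d)
        (X (min U (1 + Z.card + (E.filter fun e => x e = true ∧
          ¬ (l e = true ∧ p e = false)).card))) < s) ∨
      -- (C)
      (l (own (tk s)) = true ∧ tk' s ∈ Pi ∧ l (own (tk' s)) = true ∧ tk' s ≠ tk s ∧
        (∀ e ∈ E, p e = true → pp e ≠ tk' s) ∧ ∀ s' ∈ R, tk' s ≠ tk s' ∧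
        (tk' s = tk' s' → s = s'))) :
    ∃ (lab : ι → ℤ) (xi : ι → ℕ) (u v : π → ℤ),
      Placed l x p pp E Pi lo hi 1 U lab xi u v ∧
      (∀ e ∈ E, ∀ f ∈ E, valK l x W X own Pi K lab xi u v e = valK l x W X own Pi K lab xi u v f →
        e = f) ∧
      (∀ e ∈ E, valK l x W X own Pi K lab xi u v e ∉ Z ∧ valK l x W X own Pi K lab xi u v e ∉ R) ∧
      (∀ e ∈ E, W e + bz (l e) lo + bz (x e) (X 1) - bz (! l e) (nS l p E % 2 : ℕ) ≤
        valK l x W X own Pi K lab xi u v e) := by
  rcases Nat.even_or_odd (nS l p E) with hev | hodd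
  · have h2 : nS l p E % 2 = 0 := Nat.even_iff.1 hev
    obtain ⟨lab, xi, u, v, P, _, hinj, hZ, hge⟩ := even_aux (own := own) (K := K) H
      (by rw [hK, h2]; simp) hev
      (nP_le H.ppm H.ppi (fun s hs => (tk_mem s hs).1) (fun s hs => (tk_mem s hs).2) tk_inj)
    refine ⟨lab, xi, u, v, P, hinj, hZ, fun e he => ?_⟩
    have h3 := hge e he
    have h4 := bz_nat_nonneg (! l e) (nS l p E % 2)
    unfold clw at h3
    omega
  · have h2 : nS l p E % 2 = 1 := Nat.odd_iff.1 hodd
    have S : OddSt l x p pp own X tk tk' K W E Pi lo hi 1 U Z R := by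
      refine ⟨H, hodd, by rw [hK, h2]; simp, fun t ht => (own_mem t ht).2, own_inj,
        fun e he hp => ⟨(own_mem _ (H.ppm e he hp)).1, own_pp e he hp⟩,
        fun s hs => (tk_mem s hs).1, fun s hs => (tk_mem s hs).2, tk_inj,
        fun f hf hx hl _ s hs i h3 h4 => h2' hodd f hf hx hl s hs i h3 h4, fun s hs => ?_⟩
      rcases h4 hodd s hs with h | h | h
      · exact Or.inl ⟨(own_mem _ (tk_mem s hs).1).1, h⟩
      · exact Or.inr (Or.inl h)
      · obtain ⟨h3, h5, h6, h7, h8, h9⟩ := h
        exact Or.inr (Or.inr ⟨(own_mem _ (tk_mem s hs).1).1, h3, h5, (own_mem _ h5).1, h6, h7,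
          h8, h9⟩)
    have hne : E.Nonempty := by
      obtain ⟨e, he⟩ := Finset.card_pos.1 hodd.pos
      exact ⟨e, (Finset.mem_filter.1 he).1⟩
    obtain ⟨e0, he0, hmin⟩ := E.exists_min_image (clw l x W lo (X 1)) hne
    obtain ⟨lab, xi, u, v, P, _, hinj, hZ, _, hge⟩ :=
      odd_main _ W E Pi lo hi 1 U Z R rfl S _ hmin
    refine ⟨lab, xi, u, v, P, hinj, hZ, fun e he => ?_⟩
    have h3 := hge e he
    have h5 : (Pi.filter fun t => own t = e).card ≤ 1 := by
      rw [Finset.card_le_one]
      intro s hs t ht
      rw [Finset.mem_filter] at hs ht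
      exact own_inj s hs.1 t ht.1 (hs.2.trans ht.2.symm)
    have h6 : bz (! l e) ((Pi.filter fun t => own t = e).card : ℕ) ≤
        bz (! l e) (nS l p E % 2 : ℕ) := by
      apply bz_mono
      rw [h2]
      exact_mod_cast h5
    unfold clw at h3
    omega

end Pool.Agent.Lob5
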