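import Mathlib

/-!
# The sweep lemma: definitions

Elements `e : ι` carry flags `l` (takes a label of the middle zone `[lo, hi]`), `x` (takes a label
`X i`), `p` (together with its label the symmetric label is used up: a pair).  Pairs are indexed by
`π`; the pair of a `p`-element `e` is `pp e`, the other pairs are called tokens.
-/

namespace Pool.Agent.Lob5

/-- `v` if the flag is set, `0` otherwise -/
def bz (b : Bool) (v : ℤ) : ℤ := if b then v else 0

section

variable {ι π : Type*} [DecidableEq ι] [DecidableEq π]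

/-- number of singles -/
def nS (l p : ι → Bool) (E : Finset ι) : ℕ := (E.filter fun e => l e = true ∧ p e = false).card

/-- number of `p`-elements -/
def nP (p : ι → Bool) (E : Finset ι) : ℕ := (E.filter fun e => p e = true).card

/-- number of `x`-elements -/
def nX (x : ι → Bool) (E : Finset ι) : ℕ := (E.filter fun e => x e = true).card

/-- `κ(e)`: the number of other elements with an `l`-label lying above `e` -/
def kap (l x : ι → Bool) (W : ι → ℤ) (x1 : ℤ) (E : Finset ι) (e : ι) : ℕ :=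
  (E.filter fun f => f ≠ e ∧ l f = true ∧ W e < W f + bz (x f) x1).card

/-- The value of an element (without correction of the pair sums). -/
def val (l x : ι → Bool) (W : ι → ℤ) (X : ℕ → ℤ) (lab : ι → ℤ) (xi : ι → ℕ) (e : ι) : ℤ :=
  W e + bz (l e) (lab e) + bz (x e) (X (xi e))

/-- The labels are placed correctly: every single and every pair of labels gets its own labels in
`[lo, hi]`, every `x`-element its own index in `[a, b]`. -/
structure Placed (l x p : ι → Bool) (pp : ι → π) (E : Finset ι) (Pi : Finset π) (lo hi : ℤ)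
    (a b : ℕ) (lab : ι → ℤ) (xi : ι → ℕ) (u v : π → ℤ) : Prop where
  lab_mem : ∀ e ∈ E, l e = true → lo ≤ lab e ∧ lab e ≤ hi
  xi_mem : ∀ e ∈ E, x e = true → a ≤ xi e ∧ xi e ≤ b
  xi_inj : ∀ e ∈ E, ∀ f ∈ E, x e = true → x f = true → xi e = xi f → e = f
  u_mem : ∀ t ∈ Pi, lo ≤ u t ∧ u t ≤ hi
  v_mem : ∀ t ∈ Pi, lo ≤ v t ∧ v t ≤ hi
  pair : ∀ e ∈ E, p e = true → u (pp e) = lab e
  single_inj : ∀ e ∈ E, ∀ f ∈ E, l e = true → p e = false → l f = true → p f = false →
    lab e = lab f → e = f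
  single_u : ∀ e ∈ E, l e = true → p e = false → ∀ t ∈ Pi, lab e ≠ u t
  single_v : ∀ e ∈ E, l e = true → p e = false → ∀ t ∈ Pi, lab e ≠ v t
  u_inj : ∀ s ∈ Pi, ∀ t ∈ Pi, u s = u t → s = t
  v_inj : ∀ s ∈ Pi, ∀ t ∈ Pi, v s = v t → s = t
  u_v : ∀ s ∈ Pi, ∀ t ∈ Pi, u s ≠ v t

/-- Hypotheses common to the even and the odd case: a state of the sweep. -/
structure SweepHyp (l x p : ι → Bool) (pp : ι → π) (W : ι → ℤ) (X : ℕ → ℤ) (E : Finset ι)
    (Pi : Finset π) (lo hi : ℤ) (a b : ℕ) (Z R : Finset ℤ) : Prop where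
  lx : ∀ e ∈ E, l e = true ∨ x e = true
  pl : ∀ e ∈ E, p e = true → l e = true
  ppm : ∀ e ∈ E, p e = true → pp e ∈ Pi
  ppi : ∀ e ∈ E, ∀ f ∈ E, p e = true → p f = true → pp e = pp f → e = f
  cnt : hi - lo + 1 = nS l p E + 2 * Pi.card
  xcnt : nX x E + Z.card + a ≤ b + 1
  mono : StrictMono X
  disj : Disjoint Z R
  h1 : ∀ e ∈ E, l e = true → x e = false → ∀ z ∈ Z, W e + hi - kap l x W (X a) E e < z
  h2 : ∀ f ∈ E, x f = true → l f = false → ∀ s ∈ R, ∀ i, a ≤ i → i ≤ b → W f + X i ≠ s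
  h3 : ∀ f ∈ E, x f = true → l f = false → ∀ e ∈ E, l e = true → x e = false →
    W e + hi < W f + X a

end

end Pool.Agent.Lob5
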