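import Pool.Agent.Lob5.SweepDefs

/-!
# The sweep lemma, even number of singles

Text: `/team-store/lob_M1_sweep_h5.md`, sections Even lemma (E) and Anomaly lemma (An).
Everything is an induction over `E.card + Z.card + R.card`.
-/

namespace Pool.Agent.Lob5

set_option linter.unusedSectionVars false
set_option linter.unusedVariables false

variable {ι π : Type*} [DecidableEq ι] [DecidableEq π]

section tools

private lemma bz_true {b : Bool} (h : b = true) (v : ℤ) : bz b v = v := by
  rw [h]; rfl

private lemma bz_false {b : Bool} (h : b = false) (v : ℤ) : bz b v = 0 := by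
  rw [h]; rfl

private lemma bz_mono (b : Bool) {v w : ℤ} (h : v ≤ w) : bz b v ≤ bz b w := by
  cases b
  · exact le_refl _
  · exact h

private lemma bool_ne_false {b : Bool} (h : b ≠ false) : b = true := by
  cases b
  · exact absurd rfl h
  · rfl

private lemma bool_ne_true {b : Bool} (h : b ≠ true) : b = false := by
  cases b
  · rfl
  · exact absurd rfl h

private lemma card_filter_erase {P : ι → Prop} [DecidablePred P] {E : Finset ι} {e : ι}
    (he : e ∈ E) :
    ((E.erase e).filter P).card + (if P e then 1 else 0) = (E.filter P).card := by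
  rw [Finset.filter_erase]
  by_cases h : P e
  · rw [if_pos h]
    exact Finset.card_erase_add_one (Finset.mem_filter.2 ⟨he, h⟩)
  · rw [if_neg h, add_zero, Finset.erase_eq_of_notMem]
    exact fun h2 => h (Finset.mem_filter.1 h2).2

variable {l x p : ι → Bool} {pp : ι → π} {W : ι → ℤ} {X : ℕ → ℤ}

private lemma nS_erase {E : Finset ι} {e : ι} (he : e ∈ E) :
    nS l p (E.erase e) + (if l e = true ∧ p e = false then 1 else 0) = nS l p E :=
  card_filter_erase he

private lemma nP_erase {E : Finset ι} {e : ι} (he : e ∈ E) :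
    nP p (E.erase e) + (if p e = true then 1 else 0) = nP p E :=
  card_filter_erase he

private lemma nX_erase {E : Finset ι} {e : ι} (he : e ∈ E) :
    nX x (E.erase e) + (if x e = true then 1 else 0) = nX x E :=
  card_filter_erase he

private lemma kap_le {x1 x1' : ℤ} (h : x1 ≤ x1') (E : Finset ι) (g : ι) :
    kap l x W x1 E g ≤ kap l x W x1' E g := by
  unfold kap
  apply Finset.card_le_card
  intro f hf
  rw [Finset.mem_filter] at hf ⊢
  have := bz_mono (x f) h
  exact ⟨hf.1, hf.2.1, hf.2.2.1, by omega⟩

private lemma kap_erase {E : Finset ι} {e : ι} (he : e ∈ E) (x1 : ℤ) (g : ι) :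
    kap l x W x1 E g ≤ kap l x W x1 (E.erase e) g + 1 := by
  unfold kap
  have := card_filter_erase (P := fun f => f ≠ g ∧ l f = true ∧ W g < W f + bz (x f) x1) he
  split_ifs at this <;> omega

private lemma kap_erase' {E : Finset ι} {e : ι} (he : e ∈ E) (x1 : ℤ) (g : ι)
    (h : l e = true → W e + bz (x e) x1 ≤ W g) :
    kap l x W x1 E g ≤ kap l x W x1 (E.erase e) g := by
  unfold kap
  have := card_filter_erase (P := fun f => f ≠ g ∧ l f = true ∧ W g < W f + bz (x f) x1) he
  rw [if_neg] at this
  · omega
  · rintro ⟨_, h1, h2⟩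
    have := h h1
    omega

/-- position with the labels `m`, `y` -/
private def pos (l x : ι → Bool) (W : ι → ℤ) (m y : ℤ) (e : ι) : ℤ :=
  W e + bz (l e) m + bz (x e) y

/-- smaller states -/
private lemma hyp_sub {E E' : Finset ι} {Pi Pi' : Finset π} {lo hi lo' hi' : ℤ} {a b a' b' : ℕ}
    {Z R Z' R' : Finset ℤ} (H : SweepHyp l x p pp W X E Pi lo hi a b Z R)
    (hE : E' ⊆ E) (hpp : ∀ e ∈ E', p e = true → pp e ∈ Pi') (hZ : Z' ⊆ Z)
    (hR : R' ⊆ R) (ha : a ≤ a') (hb : b' ≤ b)
    (hcnt : hi' - lo' + 1 = nS l p E' + 2 * Pi'.card)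
    (hxcnt : nX x E' + Z'.card + a' ≤ b' + 1) (hhi : hi' ≤ hi)
    (hk : ∀ g ∈ E', l g = true → x g = false →
      (kap l x W (X a) E g : ℤ) ≤ kap l x W (X a') E' g + (hi - hi')) :
    SweepHyp l x p pp W X E' Pi' lo' hi' a' b' Z' R' where
  lx := fun e he => H.lx e (hE he)
  pl := fun e he => H.pl e (hE he)
  ppm := hpp
  ppi := fun e he f hf => H.ppi e (hE he) f (hE hf)
  cnt := hcnt
  xcnt := hxcnt
  mono := H.mono
  disj := Finset.disjoint_of_subset_left hZ (Finset.disjoint_of_subset_right hR H.disj)
  h1 := by
    intro e he h1 h2 z hz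
    have h3 := H.h1 e (hE he) h1 h2 z (hZ hz)
    have h4 := hk e he h1 h2
    omega
  h2 := fun f hf h1 h2 s hs i hi hi' =>
    H.h2 f (hE hf) h1 h2 s (hR hs) i (ha.trans hi) (hi'.trans hb)
  h3 := by
    intro f hf h1 h2 e he h3 h4
    have h5 := H.h3 f (hE hf) h1 h2 e (hE he) h3 h4
    have h6 : X a ≤ X a' := H.mono.monotone ha
    omega

/-- A solution. -/
private structure Sol (l x p : ι → Bool) (pp : ι → π) (W : ι → ℤ) (X : ℕ → ℤ) (E : Finset ι)
    (Pi : Finset π) (lo hi : ℤ) (a b : ℕ) (Z R : Finset ℤ) (lab : ι → ℤ) (xi : ι → ℕ)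
    (u v : π → ℤ) : Prop where
  placed : Placed l x p pp E Pi lo hi a b lab xi u v
  sum : ∀ t ∈ Pi, u t + v t = lo + hi
  inj : ∀ e ∈ E, ∀ f ∈ E, val l x W X lab xi e = val l x W X lab xi f → e = f
  nmem : ∀ e ∈ E, val l x W X lab xi e ∉ Z ∧ val l x W X lab xi e ∉ R

private lemma val_bounds {E : Finset ι} {Pi : Finset π} {lo hi : ℤ} {a b : ℕ} {lab : ι → ℤ}
    {xi : ι → ℕ} {u v : π → ℤ} (hX : StrictMono X)
    (hP : Placed l x p pp E Pi lo hi a b lab xi u v) {e : ι} (he : e ∈ E) :
    pos l x W lo (X a) e ≤ val l x W X lab xi e ∧ val l x W X lab xi e ≤ pos l x W hi (X b) e := by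
  unfold pos val
  have h1 : bz (l e) lo ≤ bz (l e) (lab e) ∧ bz (l e) (lab e) ≤ bz (l e) hi := by
    cases h : l e
    · exact ⟨le_refl _, le_refl _⟩
    · exact hP.lab_mem e he h
  have h2 : bz (x e) (X a) ≤ bz (x e) (X (xi e)) ∧ bz (x e) (X (xi e)) ≤ bz (x e) (X b) := by
    cases h : x e
    · exact ⟨le_refl _, le_refl _⟩
    · have := hP.xi_mem e he h
      exact ⟨hX.monotone this.1, hX.monotone this.2⟩
  omega

private lemma Sol.bounds {E : Finset ι} {Pi : Finset π} {lo hi : ℤ} {a b : ℕ} {Z R : Finset ℤ}
    {lab : ι → ℤ} {xi : ι → ℕ} {u v : π → ℤ}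
    (hs : Sol l x p pp W X E Pi lo hi a b Z R lab xi u v) (hX : StrictMono X) {e : ι}
    (he : e ∈ E) :
    pos l x W lo (X a) e ≤ val l x W X lab xi e ∧ val l x W X lab xi e ≤ pos l x W hi (X b) e :=
  val_bounds hX hs.placed he

private lemma val_update {lab : ι → ℤ} {xi : ι → ℕ} {e f : ι} (h : f ≠ e) (m : ℤ) (j : ℕ) :
    val l x W X (Function.update lab e m) (Function.update xi e j) f = val l x W X lab xi f := by
  unfold val
  rw [Function.update_of_ne h, Function.update_of_ne h]

private lemma val_update_self {lab : ι → ℤ} {xi : ι → ℕ} (e : ι) (m : ℤ) (j : ℕ) :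
    val l x W X (Function.update lab e m) (Function.update xi e j) e = pos l x W m (X j) e := by
  unfold val pos
  rw [Function.update_self, Function.update_self]

/-- remove an element of `Z` or none, shrink the window of `X` -/
private lemma Sol.zmove {E : Finset ι} {Pi : Finset π} {lo hi : ℤ} {a b a' b' : ℕ}
    {Z R : Finset ℤ} {c : ℤ} {lab : ι → ℤ} {xi : ι → ℕ} {u v : π → ℤ}
    (hs : Sol l x p pp W X E Pi lo hi a' b' (Z.erase c) R lab xi u v)
    (ha : a ≤ a') (hb : b' ≤ b) (hc : ∀ e ∈ E, val l x W X lab xi e ≠ c) :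
    Sol l x p pp W X E Pi lo hi a b Z R lab xi u v where
  placed :=
    { lab_mem := hs.placed.lab_mem
      xi_mem := fun e he h => by
        have := hs.placed.xi_mem e he h
        omega
      xi_inj := hs.placed.xi_inj
      u_mem := hs.placed.u_mem
      v_mem := hs.placed.v_mem
      pair := hs.placed.pair
      single_inj := hs.placed.single_inj
      single_u := hs.placed.single_u
      single_v := hs.placed.single_v
      u_inj := hs.placed.u_inj
      v_inj := hs.placed.v_inj
      u_v := hs.placed.u_v }
  sum := hs.sum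
  inj := hs.inj
  nmem := fun e he => ⟨fun h => (hs.nmem e he).1 (Finset.mem_erase.2 ⟨hc e he, h⟩),
    (hs.nmem e he).2⟩

/-- a token gets the outer pair -/
private lemma Sol.tmove {E : Finset ι} {Pi : Finset π} {lo hi : ℤ} {a b : ℕ}
    {Z R : Finset ℤ} {c : ℤ} {t : π} {lab : ι → ℤ} {xi : ι → ℕ} {u v : π → ℤ}
    (hs : Sol l x p pp W X E (Pi.erase t) (lo + 1) (hi - 1) a b Z (R.erase c) lab xi u v)
    (ht : t ∈ Pi) (htok : ∀ e ∈ E, p e = true → pp e ≠ t) (hlt : lo < hi)
    (hc : ∀ e ∈ E, val l x W X lab xi e ≠ c) :
    Sol l x p pp W X E Pi lo hi a b Z R lab xi (Function.update u t lo)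
      (Function.update v t hi) where
  placed :=
    { lab_mem := fun e he h => by
        have := hs.placed.lab_mem e he h
        omega
      xi_mem := hs.placed.xi_mem
      xi_inj := hs.placed.xi_inj
      u_mem := fun s hsP => by
        by_cases h : s = t
        · rw [h, Function.update_self]; omega
        · rw [Function.update_of_ne h]
          have := hs.placed.u_mem s (Finset.mem_erase.2 ⟨h, hsP⟩)
          omega
      v_mem := fun s hsP => by
        by_cases h : s = t
        · rw [h, Function.update_self]; omega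
        · rw [Function.update_of_ne h]
          have := hs.placed.v_mem s (Finset.mem_erase.2 ⟨h, hsP⟩)
          omega
      pair := fun e he h => by
        rw [Function.update_of_ne (htok e he h)]
        exact hs.placed.pair e he h
      single_inj := hs.placed.single_inj
      single_u := fun e he h1 h2 s hsP => by
        have h3 := hs.placed.lab_mem e he h1
        by_cases h : s = t
        · rw [h, Function.update_self]; omega
        · rw [Function.update_of_ne h]
          exact hs.placed.single_u e he h1 h2 s (Finset.mem_erase.2 ⟨h, hsP⟩)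
      single_v := fun e he h1 h2 s hsP => by
        have h3 := hs.placed.lab_mem e he h1
        by_cases h : s = t
        · rw [h, Function.update_self]; omega
        · rw [Function.update_of_ne h]
          exact hs.placed.single_v e he h1 h2 s (Finset.mem_erase.2 ⟨h, hsP⟩)
      u_inj := fun s hsP s' hsP' h => by
        by_cases h1 : s = t <;> by_cases h2 : s' = t
        · rw [h1, h2]
        · rw [h1, Function.update_self, Function.update_of_ne h2] at h
          have := hs.placed.u_mem s' (Finset.mem_erase.2 ⟨h2, hsP'⟩)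
          omega
        · rw [h2, Function.update_self, Function.update_of_ne h1] at h
          have := hs.placed.u_mem s (Finset.mem_erase.2 ⟨h1, hsP⟩)
          omega
        · rw [Function.update_of_ne h1, Function.update_of_ne h2] at h
          exact hs.placed.u_inj s (Finset.mem_erase.2 ⟨h1, hsP⟩) s'
            (Finset.mem_erase.2 ⟨h2, hsP'⟩) h
      v_inj := fun s hsP s' hsP' h => by
        by_cases h1 : s = t <;> by_cases h2 : s' = t
        · rw [h1, h2]
        · rw [h1, Function.update_self, Function.update_of_ne h2] at h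
          have := hs.placed.v_mem s' (Finset.mem_erase.2 ⟨h2, hsP'⟩)
          omega
        · rw [h2, Function.update_self, Function.update_of_ne h1] at h
          have := hs.placed.v_mem s (Finset.mem_erase.2 ⟨h1, hsP⟩)
          omega
        · rw [Function.update_of_ne h1, Function.update_of_ne h2] at h
          exact hs.placed.v_inj s (Finset.mem_erase.2 ⟨h1, hsP⟩) s'
            (Finset.mem_erase.2 ⟨h2, hsP'⟩) h
      u_v := fun s hsP s' hsP' => by
        by_cases h1 : s = t <;> by_cases h2 : s' = t
        · rw [h1, h2, Function.update_self, Function.update_self]; omega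
        · rw [h1, Function.update_self, Function.update_of_ne h2]
          have := hs.placed.v_mem s' (Finset.mem_erase.2 ⟨h2, hsP'⟩)
          omega
        · rw [h2, Function.update_self, Function.update_of_ne h1]
          have := hs.placed.u_mem s (Finset.mem_erase.2 ⟨h1, hsP⟩)
          omega
        · rw [Function.update_of_ne h1, Function.update_of_ne h2]
          exact hs.placed.u_v s (Finset.mem_erase.2 ⟨h1, hsP⟩) s'
            (Finset.mem_erase.2 ⟨h2, hsP'⟩) }
  sum := fun s hsP => by
    by_cases h : s = t
    · rw [h, Function.update_self, Function.update_self]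
    · rw [Function.update_of_ne h, Function.update_of_ne h]
      have := hs.sum s (Finset.mem_erase.2 ⟨h, hsP⟩)
      omega
  inj := hs.inj
  nmem := fun e he => ⟨(hs.nmem e he).1,
    fun h => (hs.nmem e he).2 (Finset.mem_erase.2 ⟨hc e he, h⟩)⟩

/-- place one more element: values -/
private lemma ext_val {E : Finset ι} {Z R : Finset ℤ} {e : ι} {m : ℤ} {j : ℕ}
    {lab : ι → ℤ} {xi : ι → ℕ}
    (inj : ∀ e' ∈ E.erase e, ∀ f ∈ E.erase e,
      val l x W X lab xi e' = val l x W X lab xi f → e' = f)
    (nmem : ∀ e' ∈ E.erase e, val l x W X lab xi e' ∉ Z ∧ val l x W X lab xi e' ∉ R)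
    (hZ : pos l x W m (X j) e ∉ Z) (hR : pos l x W m (X j) e ∉ R)
    (hne : ∀ f ∈ E.erase e, val l x W X lab xi f ≠ pos l x W m (X j) e) :
    (∀ e' ∈ E, ∀ f ∈ E,
      val l x W X (Function.update lab e m) (Function.update xi e j) e' =
        val l x W X (Function.update lab e m) (Function.update xi e j) f → e' = f) ∧
    (∀ e' ∈ E, val l x W X (Function.update lab e m) (Function.update xi e j) e' ∉ Z ∧
      val l x W X (Function.update lab e m) (Function.update xi e j) e' ∉ R) := by
  constructor
  · intro e' he' f hf h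
    by_cases h1 : e' = e <;> by_cases h2 : f = e
    · rw [h1, h2]
    · rw [h1, val_update_self, val_update h2] at h
      exact absurd h.symm (hne f (Finset.mem_erase.2 ⟨h2, hf⟩))
    · rw [h2, val_update_self, val_update h1] at h
      exact absurd h (hne e' (Finset.mem_erase.2 ⟨h1, he'⟩))
    · rw [val_update h1, val_update h2] at h
      exact inj e' (Finset.mem_erase.2 ⟨h1, he'⟩) f (Finset.mem_erase.2 ⟨h2, hf⟩) h
  · intro e' he'
    by_cases h1 : e' = e
    · rw [h1, val_update_self]
      exact ⟨hZ, hR⟩
    · rw [val_update h1]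
      exact nmem e' (Finset.mem_erase.2 ⟨h1, he'⟩)

/-- place an `x`-only element -/
private lemma Sol.xmove {E : Finset ι} {Pi : Finset π} {lo hi : ℤ} {a b a' b' j : ℕ}
    {Z R : Finset ℤ} {e : ι} {lab : ι → ℤ} {xi : ι → ℕ} {u v : π → ℤ}
    (hs : Sol l x p pp W X (E.erase e) Pi lo hi a' b' Z R lab xi u v)
    (hl : l e = false) (hp : p e = false)
    (ha : a ≤ a') (hb : b' ≤ b) (hj : a ≤ j ∧ j ≤ b ∧ (j < a' ∨ b' < j))
    (hZ : pos l x W lo (X j) e ∉ Z) (hR : pos l x W lo (X j) e ∉ R)
    (hne : ∀ f ∈ E.erase e, val l x W X lab xi f ≠ pos l x W lo (X j) e) :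
    Sol l x p pp W X E Pi lo hi a b Z R (Function.update lab e lo)
      (Function.update xi e j) u v where
  placed :=
    { lab_mem := fun f hf h => by
        have hfe : f ≠ e := fun h' => by rw [h', hl] at h; exact absurd h (by simp)
        rw [Function.update_of_ne hfe]
        exact hs.placed.lab_mem f (Finset.mem_erase.2 ⟨hfe, hf⟩) h
      xi_mem := fun f hf h => by
        by_cases h1 : f = e
        · rw [h1, Function.update_self]; omega
        · rw [Function.update_of_ne h1]
          have := hs.placed.xi_mem f (Finset.mem_erase.2 ⟨h1, hf⟩) h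
          omega
      xi_inj := fun f hf g hg h1 h2 h => by
        by_cases h3 : f = e <;> by_cases h4 : g = e
        · rw [h3, h4]
        · rw [h3, Function.update_self, Function.update_of_ne h4] at h
          have := hs.placed.xi_mem g (Finset.mem_erase.2 ⟨h4, hg⟩) h2
          omega
        · rw [h4, Function.update_self, Function.update_of_ne h3] at h
          have := hs.placed.xi_mem f (Finset.mem_erase.2 ⟨h3, hf⟩) h1
          omega
        · rw [Function.update_of_ne h3, Function.update_of_ne h4] at h
          exact hs.placed.xi_inj f (Finset.mem_erase.2 ⟨h3, hf⟩) g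
            (Finset.mem_erase.2 ⟨h4, hg⟩) h1 h2 h
      u_mem := hs.placed.u_mem
      v_mem := hs.placed.v_mem
      pair := fun f hf h => by
        have hfe : f ≠ e := fun h' => by rw [h', hp] at h; exact absurd h (by simp)
        rw [Function.update_of_ne hfe]
        exact hs.placed.pair f (Finset.mem_erase.2 ⟨hfe, hf⟩) h
      single_inj := fun f hf g hg h1 h2 h3 h4 h => by
        have hfe : f ≠ e := fun h' => by rw [h', hl] at h1; exact absurd h1 (by simp)
        have hge : g ≠ e := fun h' => by rw [h', hl] at h3; exact absurd h3 (by simp)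
        rw [Function.update_of_ne hfe, Function.update_of_ne hge] at h
        exact hs.placed.single_inj f (Finset.mem_erase.2 ⟨hfe, hf⟩) g
            (Finset.mem_erase.2 ⟨hge, hg⟩) h1 h2 h3 h4 h
      single_u := fun f hf h1 h2 s hsP => by
        have hfe : f ≠ e := fun h' => by rw [h', hl] at h1; exact absurd h1 (by simp)
        rw [Function.update_of_ne hfe]
        exact hs.placed.single_u f (Finset.mem_erase.2 ⟨hfe, hf⟩) h1 h2 s hsP
      single_v := fun f hf h1 h2 s hsP => by
        have hfe : f ≠ e := fun h' => by rw [h', hl] at h1; exact absurd h1 (by simp)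
        rw [Function.update_of_ne hfe]
        exact hs.placed.single_v f (Finset.mem_erase.2 ⟨hfe, hf⟩) h1 h2 s hsP
      u_inj := hs.placed.u_inj
      v_inj := hs.placed.v_inj
      u_v := hs.placed.u_v }
  sum := hs.sum
  inj := (ext_val hs.inj hs.nmem hZ hR hne).1
  nmem := (ext_val hs.inj hs.nmem hZ hR hne).2

/-- place a `p`-element with its pair -/
private lemma Sol.pmove {E : Finset ι} {Pi : Finset π} {lo hi : ℤ} {a b a' b' j : ℕ}
    {Z R : Finset ℤ} {e : ι} {m m' : ℤ} {lab : ι → ℤ} {xi : ι → ℕ} {u v : π → ℤ}
    (hs : Sol l x p pp W X (E.erase e) (Pi.erase (pp e)) (lo + 1) (hi - 1) a' b' Z R lab xi u v)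
    (he : e ∈ E) (hp : p e = true)
    (hppi : ∀ f ∈ E, p f = true → pp f = pp e → f = e)
    (hm : m = lo ∧ m' = hi ∨ m = hi ∧ m' = lo) (hlt : lo < hi)
    (ha : a ≤ a') (hb : b' ≤ b) (hj : x e = true → a ≤ j ∧ j ≤ b ∧ (j < a' ∨ b' < j))
    (hZ : pos l x W m (X j) e ∉ Z) (hR : pos l x W m (X j) e ∉ R)
    (hne : ∀ f ∈ E.erase e, val l x W X lab xi f ≠ pos l x W m (X j) e) :
    Sol l x p pp W X E Pi lo hi a b Z R (Function.update lab e m)
      (Function.update xi e j) (Function.update u (pp e) m) (Function.update v (pp e) m') where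
  placed :=
    { lab_mem := fun f hf h => by
        by_cases h1 : f = e
        · rw [h1, Function.update_self]; omega
        · rw [Function.update_of_ne h1]
          have := hs.placed.lab_mem f (Finset.mem_erase.2 ⟨h1, hf⟩) h
          omega
      xi_mem := fun f hf h => by
        by_cases h1 : f = e
        · rw [h1, Function.update_self]
          have := hj (h1 ▸ h)
          omega
        · rw [Function.update_of_ne h1]
          have := hs.placed.xi_mem f (Finset.mem_erase.2 ⟨h1, hf⟩) h
          omega
      xi_inj := fun f hf g hg h1 h2 h => by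
        by_cases h3 : f = e <;> by_cases h4 : g = e
        · rw [h3, h4]
        · rw [h3, Function.update_self, Function.update_of_ne h4] at h
          have := hs.placed.xi_mem g (Finset.mem_erase.2 ⟨h4, hg⟩) h2
          have := hj (h3 ▸ h1)
          omega
        · rw [h4, Function.update_self, Function.update_of_ne h3] at h
          have := hs.placed.xi_mem f (Finset.mem_erase.2 ⟨h3, hf⟩) h1
          have := hj (h4 ▸ h2)
          omega
        · rw [Function.update_of_ne h3, Function.update_of_ne h4] at h
          exact hs.placed.xi_inj f (Finset.mem_erase.2 ⟨h3, hf⟩) g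
            (Finset.mem_erase.2 ⟨h4, hg⟩) h1 h2 h
      u_mem := fun s hsP => by
        by_cases h : s = pp e
        · rw [h, Function.update_self]; omega
        · rw [Function.update_of_ne h]
          have := hs.placed.u_mem s (Finset.mem_erase.2 ⟨h, hsP⟩)
          omega
      v_mem := fun s hsP => by
        by_cases h : s = pp e
        · rw [h, Function.update_self]; omega
        · rw [Function.update_of_ne h]
          have := hs.placed.v_mem s (Finset.mem_erase.2 ⟨h, hsP⟩)
          omega
      pair := fun f hf h => by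
        by_cases h1 : f = e
        · rw [h1, Function.update_self, Function.update_self]
        · have h2 : pp f ≠ pp e := fun h2 => h1 (hppi f hf h h2)
          rw [Function.update_of_ne h1, Function.update_of_ne h2]
          exact hs.placed.pair f (Finset.mem_erase.2 ⟨h1, hf⟩) h
      single_inj := fun f hf g hg h1 h2 h3 h4 h => by
        have hfe : f ≠ e := fun h' => by rw [h', hp] at h2; exact absurd h2 (by simp)
        have hge : g ≠ e := fun h' => by rw [h', hp] at h4; exact absurd h4 (by simp)
        rw [Function.update_of_ne hfe, Function.update_of_ne hge] at h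
        exact hs.placed.single_inj f (Finset.mem_erase.2 ⟨hfe, hf⟩) g
            (Finset.mem_erase.2 ⟨hge, hg⟩) h1 h2 h3 h4 h
      single_u := fun f hf h1 h2 s hsP => by
        have hfe : f ≠ e := fun h' => by rw [h', hp] at h2; exact absurd h2 (by simp)
        have h3 := hs.placed.lab_mem f (Finset.mem_erase.2 ⟨hfe, hf⟩) h1
        rw [Function.update_of_ne hfe]
        by_cases h : s = pp e
        · rw [h, Function.update_self]; omega
        · rw [Function.update_of_ne h]
          exact hs.placed.single_u f (Finset.mem_erase.2 ⟨hfe, hf⟩) h1 h2 s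
            (Finset.mem_erase.2 ⟨h, hsP⟩)
      single_v := fun f hf h1 h2 s hsP => by
        have hfe : f ≠ e := fun h' => by rw [h', hp] at h2; exact absurd h2 (by simp)
        have h3 := hs.placed.lab_mem f (Finset.mem_erase.2 ⟨hfe, hf⟩) h1
        rw [Function.update_of_ne hfe]
        by_cases h : s = pp e
        · rw [h, Function.update_self]; omega
        · rw [Function.update_of_ne h]
          exact hs.placed.single_v f (Finset.mem_erase.2 ⟨hfe, hf⟩) h1 h2 s
            (Finset.mem_erase.2 ⟨h, hsP⟩)
      u_inj := fun s hsP s' hsP' h => by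
        by_cases h1 : s = pp e <;> by_cases h2 : s' = pp e
        · rw [h1, h2]
        · rw [h1, Function.update_self, Function.update_of_ne h2] at h
          have := hs.placed.u_mem s' (Finset.mem_erase.2 ⟨h2, hsP'⟩)
          omega
        · rw [h2, Function.update_self, Function.update_of_ne h1] at h
          have := hs.placed.u_mem s (Finset.mem_erase.2 ⟨h1, hsP⟩)
          omega
        · rw [Function.update_of_ne h1, Function.update_of_ne h2] at h
          exact hs.placed.u_inj s (Finset.mem_erase.2 ⟨h1, hsP⟩) s'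
            (Finset.mem_erase.2 ⟨h2, hsP'⟩) h
      v_inj := fun s hsP s' hsP' h => by
        by_cases h1 : s = pp e <;> by_cases h2 : s' = pp e
        · rw [h1, h2]
        · rw [h1, Function.update_self, Function.update_of_ne h2] at h
          have := hs.placed.v_mem s' (Finset.mem_erase.2 ⟨h2, hsP'⟩)
          omega
        · rw [h2, Function.update_self, Function.update_of_ne h1] at h
          have := hs.placed.v_mem s (Finset.mem_erase.2 ⟨h1, hsP⟩)
          omega
        · rw [Function.update_of_ne h1, Function.update_of_ne h2] at h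
          exact hs.placed.v_inj s (Finset.mem_erase.2 ⟨h1, hsP⟩) s'
            (Finset.mem_erase.2 ⟨h2, hsP'⟩) h
      u_v := fun s hsP s' hsP' => by
        by_cases h1 : s = pp e <;> by_cases h2 : s' = pp e
        · rw [h1, h2, Function.update_self, Function.update_self]; omega
        · rw [h1, Function.update_self, Function.update_of_ne h2]
          have := hs.placed.v_mem s' (Finset.mem_erase.2 ⟨h2, hsP'⟩)
          omega
        · rw [h2, Function.update_self, Function.update_of_ne h1]
          have := hs.placed.u_mem s (Finset.mem_erase.2 ⟨h1, hsP⟩)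
          omega
        · rw [Function.update_of_ne h1, Function.update_of_ne h2]
          exact hs.placed.u_v s (Finset.mem_erase.2 ⟨h1, hsP⟩) s'
            (Finset.mem_erase.2 ⟨h2, hsP'⟩) }
  sum := fun s hsP => by
    by_cases h : s = pp e
    · rw [h, Function.update_self, Function.update_self]; omega
    · rw [Function.update_of_ne h, Function.update_of_ne h]
      have := hs.sum s (Finset.mem_erase.2 ⟨h, hsP⟩)
      omega
  inj := (ext_val hs.inj hs.nmem hZ hR hne).1
  nmem := (ext_val hs.inj hs.nmem hZ hR hne).2

/-- place two singles at the ends: `e` low, `f` high -/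
private lemma Sol.smove {E : Finset ι} {Pi : Finset π} {lo hi : ℤ} {a b a' b' : ℕ}
    {Z R : Finset ℤ} {e f : ι} {lab : ι → ℤ} {xi : ι → ℕ} {u v : π → ℤ}
    (hs : Sol l x p pp W X ((E.erase e).erase f) Pi (lo + 1) (hi - 1) a' b' Z R lab xi u v)
    (hef : e ≠ f) (hpe : p e = false) (hpf : p f = false)
    (hlt : lo < hi) (ha : a ≤ a') (hb : b' ≤ b)
    (hje : x e = true → a + 1 ≤ a' ∧ a ≤ b) (hjf : x f = true → b' + 1 ≤ b ∧ a ≤ b)
    (hjj : x e = true → x f = true → a ≠ b)
    (hZe : pos l x W lo (X a) e ∉ Z) (hRe : pos l x W lo (X a) e ∉ R)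
    (hZf : pos l x W hi (X b) f ∉ Z) (hRf : pos l x W hi (X b) f ∉ R)
    (hne : pos l x W lo (X a) e ≠ pos l x W hi (X b) f)
    (hnee : ∀ g ∈ (E.erase e).erase f, val l x W X lab xi g ≠ pos l x W lo (X a) e)
    (hnef : ∀ g ∈ (E.erase e).erase f, val l x W X lab xi g ≠ pos l x W hi (X b) f) :
    Sol l x p pp W X E Pi lo hi a b Z R (Function.update (Function.update lab f hi) e lo)
      (Function.update (Function.update xi f b) e a) u v := by
  have hval := ext_val (E := E.erase e) (e := f) hs.inj hs.nmem hZf hRf hnef
  have hval2 := ext_val (E := E) (e := e) hval.1 hval.2 hZe hRe (by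
    intro g hg
    by_cases h : g = f
    · rw [h, val_update_self]; exact hne.symm
    · rw [val_update h]
      exact hnee g (Finset.mem_erase.2 ⟨h, hg⟩))
  have hlab : ∀ g ∈ E, l g = true →
      (g = e ∧ Function.update (Function.update lab f hi) e lo g = lo) ∨
      (g ≠ e ∧ g = f ∧ Function.update (Function.update lab f hi) e lo g = hi) ∨
      (g ≠ e ∧ g ≠ f ∧ Function.update (Function.update lab f hi) e lo g = lab g ∧
        lo + 1 ≤ lab g ∧ lab g ≤ hi - 1 ∧ g ∈ (E.erase e).erase f) := by
    intro g hg h
    by_cases h1 : g = e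
    · left
      exact ⟨h1, by rw [h1, Function.update_self]⟩
    · by_cases h2 : g = f
      · right; left
        exact ⟨h1, h2, by rw [Function.update_of_ne h1, h2, Function.update_self]⟩
      · right; right
        have hm : g ∈ (E.erase e).erase f :=
          Finset.mem_erase.2 ⟨h2, Finset.mem_erase.2 ⟨h1, hg⟩⟩
        have := hs.placed.lab_mem g hm h
        exact ⟨h1, h2, by rw [Function.update_of_ne h1, Function.update_of_ne h2],
          this.1, this.2, hm⟩
  have hxi : ∀ g ∈ E, x g = true →
      (g = e ∧ Function.update (Function.update xi f b) e a g = a) ∨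
      (g ≠ e ∧ g = f ∧ Function.update (Function.update xi f b) e a g = b) ∨
      (g ≠ e ∧ g ≠ f ∧ Function.update (Function.update xi f b) e a g = xi g ∧
        a' ≤ xi g ∧ xi g ≤ b' ∧ g ∈ (E.erase e).erase f) := by
    intro g hg h
    by_cases h1 : g = e
    · left
      exact ⟨h1, by rw [h1, Function.update_self]⟩
    · by_cases h2 : g = f
      · right; left
        exact ⟨h1, h2, by rw [Function.update_of_ne h1, h2, Function.update_self]⟩
      · right; right
        have hm : g ∈ (E.erase e).erase f :=
          Finset.mem_erase.2 ⟨h2, Finset.mem_erase.2 ⟨h1, hg⟩⟩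
        have := hs.placed.xi_mem g hm h
        exact ⟨h1, h2, by rw [Function.update_of_ne h1, Function.update_of_ne h2],
          this.1, this.2, hm⟩
  refine ⟨⟨?_, ?_, ?_, ?_, ?_, ?_, ?_, ?_, ?_, hs.placed.u_inj, hs.placed.v_inj,
    hs.placed.u_v⟩, ?_, hval2.1, hval2.2⟩
  · intro g hg h
    rcases hlab g hg h with ⟨_, h2⟩ | ⟨_, _, h2⟩ | ⟨_, _, h2, h3, h4, _⟩ <;> rw [h2] <;> omega
  · intro g hg h
    rcases hxi g hg h with ⟨h1, h2⟩ | ⟨_, h1, h2⟩ | ⟨_, _, h2, h3, h4, _⟩
    · rw [h2]
      have := hje (h1 ▸ h)
      omega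
    · rw [h2]
      have := hjf (h1 ▸ h)
      omega
    · rw [h2]; omega
  · intro g hg g' hg' h h' heq
    rcases hxi g hg h with ⟨h1, h2⟩ | ⟨h0, h1, h2⟩ | ⟨h0, h1, h2, h3, h4, h5⟩ <;>
      rcases hxi g' hg' h' with ⟨k1, k2⟩ | ⟨k0, k1, k2⟩ | ⟨k0, k1, k2, k3, k4, k5⟩
    · rw [h1, k1]
    · rw [h2, k2] at heq
      exact absurd heq (hjj (h1 ▸ h) (k1 ▸ h'))
    · have := hje (h1 ▸ h)
      omega
    · rw [h2, k2] at heq
      exact absurd heq.symm (hjj (k1 ▸ h') (h1 ▸ h))
    · rw [h1, k1]
    · have := hjf (h1 ▸ h)
      omega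
    · have := hje (k1 ▸ h')
      omega
    · have := hjf (k1 ▸ h')
      omega
    · rw [h2, k2] at heq
      exact hs.placed.xi_inj g h5 g' k5 h h' heq
  · intro s hsP
    have := hs.placed.u_mem s hsP
    omega
  · intro s hsP
    have := hs.placed.v_mem s hsP
    omega
  · intro g hg h
    have h1 : g ≠ e := fun h' => by rw [h', hpe] at h; exact absurd h (by simp)
    have h2 : g ≠ f := fun h' => by rw [h', hpf] at h; exact absurd h (by simp)
    rw [Function.update_of_ne h1, Function.update_of_ne h2]
    exact hs.placed.pair g (Finset.mem_erase.2 ⟨h2, Finset.mem_erase.2 ⟨h1, hg⟩⟩) h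
  · intro g hg g' hg' h hp h' hp' heq
    rcases hlab g hg h with ⟨h1, h2⟩ | ⟨h0, h1, h2⟩ | ⟨h0, h1, h2, h3, h4, h5⟩ <;>
      rcases hlab g' hg' h' with ⟨k1, k2⟩ | ⟨k0, k1, k2⟩ | ⟨k0, k1, k2, k3, k4, k5⟩
    · rw [h1, k1]
    · omega
    · omega
    · omega
    · rw [h1, k1]
    · omega
    · omega
    · omega
    · rw [h2, k2] at heq
      exact hs.placed.single_inj g h5 g' k5 h hp h' hp' heq
  · intro g hg h hp s hsP
    have hu := hs.placed.u_mem s hsP
    rcases hlab g hg h with ⟨h1, h2⟩ | ⟨h0, h1, h2⟩ | ⟨h0, h1, h2, h3, h4, h5⟩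
    · omega
    · omega
    · rw [h2]
      exact hs.placed.single_u g h5 h hp s hsP
  · intro g hg h hp s hsP
    have hu := hs.placed.v_mem s hsP
    rcases hlab g hg h with ⟨h1, h2⟩ | ⟨h0, h1, h2⟩ | ⟨h0, h1, h2, h3, h4, h5⟩
    · omega
    · omega
    · rw [h2]
      exact hs.placed.single_v g h5 h hp s hsP
  · intro s hsP
    have := hs.sum s hsP
    omega


private lemma pi_card {E : Finset ι} {Pi : Finset π} {lo hi : ℤ} {a b : ℕ}
    {Z R : Finset ℤ} (H : SweepHyp l x p pp W X E Pi lo hi a b Z R) : nP p E ≤ Pi.card := by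
  unfold nP
  apply Finset.card_le_card_of_injOn pp
  · intro e he
    have he' := Finset.mem_filter.1 (Finset.mem_coe.1 he)
    exact Finset.mem_coe.2 (H.ppm e he'.1 he'.2)
  · intro e he f hf h
    have he' := Finset.mem_filter.1 (Finset.mem_coe.1 he)
    have hf' := Finset.mem_filter.1 (Finset.mem_coe.1 hf)
    exact H.ppi e he'.1 f hf'.1 he'.2 hf'.2 h

private lemma F0 {E : Finset ι} {Pi : Finset π} {lo hi : ℤ} {a b : ℕ}
    {Z R : Finset ℤ} (H : SweepHyp l x p pp W X E Pi lo hi a b Z R) {e : ι} (he : e ∈ E)
    (hl : l e = true) : (kap l x W (X a) E e : ℤ) ≤ hi - lo := by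
  have h1 : kap l x W (X a) E e + 1 ≤ (E.filter fun f => l f = true).card := by
    have h2 : kap l x W (X a) E e ≤ ((E.filter fun f => l f = true).erase e).card := by
      unfold kap
      apply Finset.card_le_card
      intro f hf
      rw [Finset.mem_filter] at hf
      exact Finset.mem_erase.2 ⟨hf.2.1, Finset.mem_filter.2 ⟨hf.1, hf.2.2.1⟩⟩
    have h3 : e ∈ E.filter fun f => l f = true := Finset.mem_filter.2 ⟨he, hl⟩
    have h4 := Finset.card_erase_add_one h3
    omega
  have h2 : (E.filter fun f => l f = true).card ≤ nS l p E + nP p E := by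
    unfold nS nP
    have h3 : (E.filter fun f => l f = true) ⊆
        (E.filter fun f => l f = true ∧ p f = false) ∪ E.filter fun f => p f = true := by
      intro f hf
      rw [Finset.mem_filter] at hf
      rw [Finset.mem_union, Finset.mem_filter, Finset.mem_filter]
      cases hp : p f
      · exact Or.inl ⟨hf.1, hf.2, rfl⟩
      · exact Or.inr ⟨hf.1, rfl⟩
    exact (Finset.card_le_card h3).trans (Finset.card_union_le _ _)
  have h3 := pi_card H
  have h4 := H.cnt
  omega

private lemma F1 {E : Finset ι} {Pi : Finset π} {lo hi : ℤ} {a b : ℕ}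
    {Z R : Finset ℤ} (H : SweepHyp l x p pp W X E Pi lo hi a b Z R) {e : ι} (he : e ∈ E)
    (hl : l e = true) (hx : x e = false) {z : ℤ} (hz : z ∈ Z) : W e + lo < z := by
  have h1 := F0 H he hl
  have h2 := H.h1 e he hl hx z hz
  omega

private lemma lo_le {E : Finset ι} {Pi : Finset π} {lo hi : ℤ} {a b : ℕ}
    {Z R : Finset ℤ} (H : SweepHyp l x p pp W X E Pi lo hi a b Z R) {e : ι} (he : e ∈ E)
    (hl : l e = true) : lo ≤ hi := by
  have h1 := F0 H he hl
  omega

private lemma x_le {E : Finset ι} {Pi : Finset π} {lo hi : ℤ} {a b : ℕ}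
    {Z R : Finset ℤ} (H : SweepHyp l x p pp W X E Pi lo hi a b Z R) {e : ι} (he : e ∈ E)
    (hx : x e = true) : a ≤ b := by
  have h1 : 0 < nX x E := Finset.card_pos.2 ⟨e, Finset.mem_filter.2 ⟨he, hx⟩⟩
  have h2 := H.xcnt
  omega

private lemma x_lt {E : Finset ι} {Pi : Finset π} {lo hi : ℤ} {a b : ℕ}
    {Z R : Finset ℤ} (H : SweepHyp l x p pp W X E Pi lo hi a b Z R) {e f : ι} (he : e ∈ E)
    (hf : f ∈ E) (hef : e ≠ f) (hx : x e = true) (hx' : x f = true) : a < b := by
  have h1 : 1 < nX x E := Finset.one_lt_card.2 ⟨e, Finset.mem_filter.2 ⟨he, hx⟩, f,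
    Finset.mem_filter.2 ⟨hf, hx'⟩, hef⟩
  have h2 := H.xcnt
  omega

private lemma exists_tok {E : Finset ι} {Pi : Finset π} {R : Finset ℤ} {c : ℤ} (hc : c ∈ R)
    (htok : R.card + nP p E ≤ Pi.card) :
    ∃ t ∈ Pi, ∀ e ∈ E, p e = true → pp e ≠ t := by
  have h1 : 0 < R.card := Finset.card_pos.2 ⟨c, hc⟩
  have h2 : ((E.filter fun e => p e = true).image pp).card < Pi.card := by
    have := Finset.card_image_le (s := E.filter fun e => p e = true) (f := pp)
    unfold nP at htok
    omega
  obtain ⟨t, ht, ht'⟩ := Finset.exists_mem_notMem_of_card_lt_card h2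
  refine ⟨t, ht, fun e he hp h => ht' ?_⟩
  rw [← h]
  exact Finset.mem_image_of_mem _ (Finset.mem_filter.2 ⟨he, hp⟩)

/-- the state after a token got the outer pair -/
private lemma hyp_tok {E : Finset ι} {Pi : Finset π} {lo hi : ℤ} {a b : ℕ}
    {Z R : Finset ℤ} (H : SweepHyp l x p pp W X E Pi lo hi a b Z R) {c : ℤ}
    {t : π} (ht : t ∈ Pi) (htok : ∀ e ∈ E, p e = true → pp e ≠ t) :
    SweepHyp l x p pp W X E (Pi.erase t) (lo + 1) (hi - 1) a b Z (R.erase c) := by
  have hc := Finset.card_erase_add_one ht
  have hcnt := H.cnt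
  refine hyp_sub H (Finset.Subset.refl _)
    (fun e he h => Finset.mem_erase.2 ⟨htok e he h, H.ppm e he h⟩) (Finset.Subset.refl _)
    (Finset.erase_subset _ _) le_rfl le_rfl ?_ H.xcnt (by omega) ?_
  · omega
  · intro g _ _ _
    omega

private lemma tok_lt {E : Finset ι} {Pi : Finset π} {lo hi : ℤ} {a b : ℕ}
    {Z R : Finset ℤ} (H : SweepHyp l x p pp W X E Pi lo hi a b Z R)
    {t : π} (ht : t ∈ Pi) : lo < hi := by
  have h1 : 0 < Pi.card := Finset.card_pos.2 ⟨t, ht⟩
  have h2 := H.cnt
  omega

/-- the state after a `p`-element was placed -/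
private lemma hyp_p {E : Finset ι} {Pi : Finset π} {lo hi : ℤ} {a b a' b' : ℕ}
    {Z R : Finset ℤ} (H : SweepHyp l x p pp W X E Pi lo hi a b Z R) {e : ι} (he : e ∈ E)
    (hp : p e = true) (ha : a ≤ a') (hb : b' ≤ b)
    (hab : a' + b + (if x e = true then 0 else 1) ≤ a + b' + 1) :
    SweepHyp l x p pp W X (E.erase e) (Pi.erase (pp e)) (lo + 1) (hi - 1) a' b' Z R := by
  have hm := H.ppm e he hp
  have hc := Finset.card_erase_add_one hm
  have hcnt := H.cnt
  have hx := H.xcnt
  have h1 := nS_erase (l := l) (p := p) he
  have h2 := nX_erase (x := x) he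
  rw [if_neg (by rw [hp]; simp)] at h1
  refine hyp_sub H (Finset.erase_subset _ _) ?_ (Finset.Subset.refl _) (Finset.Subset.refl _)
    ha hb ?_ ?_ (by omega) ?_
  · intro f hf h
    rw [Finset.mem_erase] at hf
    exact Finset.mem_erase.2 ⟨fun h' => hf.1 (H.ppi f hf.2 e he h hp h'), H.ppm f hf.2 h⟩
  · omega
  · split_ifs at h2 hab <;> omega
  · intro g _ _ _
    have h3 := kap_erase (l := l) (x := x) (W := W) he (X a) g
    have h4 := kap_le (l := l) (x := x) (W := W) (H.mono.monotone ha) (E.erase e) g
    omega

/-- the state after an `x`-only element was placed -/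
private lemma hyp_x {E : Finset ι} {Pi : Finset π} {lo hi : ℤ} {a b a' b' : ℕ}
    {Z R : Finset ℤ} (H : SweepHyp l x p pp W X E Pi lo hi a b Z R) {e : ι} (he : e ∈ E)
    (hl : l e = false) (hp : p e = false) (hxe : x e = true) (ha : a ≤ a') (hb : b' ≤ b)
    (hab : a' + b ≤ a + b' + 1) :
    SweepHyp l x p pp W X (E.erase e) Pi lo hi a' b' Z R := by
  have hcnt := H.cnt
  have hx := H.xcnt
  have h1 := nS_erase (l := l) (p := p) he
  have h2 := nX_erase (x := x) he
  rw [if_neg (by rw [hl]; simp)] at h1
  rw [if_pos hxe] at h2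
  refine hyp_sub H (Finset.erase_subset _ _) ?_ (Finset.Subset.refl _) (Finset.Subset.refl _)
    ha hb ?_ ?_ le_rfl ?_
  · intro f hf h
    exact H.ppm f (Finset.mem_of_mem_erase hf) h
  · omega
  · omega
  · intro g _ _ _
    have h3 := kap_erase' (l := l) (x := x) (W := W) he (X a) g
      (fun h => by rw [hl] at h; exact absurd h (by simp))
    have h4 := kap_le (l := l) (x := x) (W := W) (H.mono.monotone ha) (E.erase e) g
    omega

/-- the state after two singles were placed -/
private lemma hyp_s {E : Finset ι} {Pi : Finset π} {lo hi : ℤ} {a b a' b' : ℕ}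
    {Z R : Finset ℤ} (H : SweepHyp l x p pp W X E Pi lo hi a b Z R) {e f : ι} (he : e ∈ E)
    (hf : f ∈ E) (hef : e ≠ f)
    (hle : l e = true) (hpe : p e = false) (hlf : l f = true) (hpf : p f = false)
    (ha : a' = a + if x e = true then 1 else 0) (hb : b' + (if x f = true then 1 else 0) = b)
    (hk : ∀ g ∈ E, l g = true → x g = false → g ≠ e → W e + bz (x e) (X a) ≤ W g) :
    SweepHyp l x p pp W X ((E.erase e).erase f) Pi (lo + 1) (hi - 1) a' b' Z R := by
  have hcnt := H.cnt
  have hx := H.xcnt
  have hfe : f ∈ E.erase e := Finset.mem_erase.2 ⟨hef.symm, hf⟩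
  have h1 := nS_erase (l := l) (p := p) he
  have h2 := nX_erase (x := x) he
  have h1' := nS_erase (l := l) (p := p) hfe
  have h2' := nX_erase (x := x) hfe
  rw [if_pos ⟨hle, hpe⟩] at h1
  rw [if_pos ⟨hlf, hpf⟩] at h1'
  have haa : a ≤ a' := by omega
  refine hyp_sub H ((Finset.erase_subset _ _).trans (Finset.erase_subset _ _)) ?_
    (Finset.Subset.refl _) (Finset.Subset.refl _)
    haa (by omega) ?_ ?_ (by omega) ?_
  · intro g hg h
    exact H.ppm g (Finset.mem_of_mem_erase (Finset.mem_of_mem_erase hg)) h
  · omega
  · omega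
  · intro g hg hlg hxg
    have hg1 := Finset.mem_of_mem_erase hg
    have h3 := kap_erase' (l := l) (x := x) (W := W) he (X a) g
      (fun _ => hk g (Finset.mem_of_mem_erase hg1) hlg hxg (Finset.ne_of_mem_erase hg1))
    have h5 := kap_erase (l := l) (x := x) (W := W) hfe (X a) g
    have h4 := kap_le (l := l) (x := x) (W := W) (H.mono.monotone haa) ((E.erase e).erase f) g
    omega

/-- Even lemma and anomaly lemma together. -/
private theorem both (n : ℕ) : ∀ (E : Finset ι) (Pi : Finset π) (lo hi : ℤ) (a b : ℕ)
    (Z R : Finset ℤ), E.card + Z.card + R.card = n → 1 ≤ a →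
    SweepHyp l x p pp W X E Pi lo hi a b Z R → Even (nS l p E) → R.card + nP p E ≤ Pi.card →
    (∃ (lab : ι → ℤ) (xi : ι → ℕ) (u v : π → ℤ),
      Sol l x p pp W X E Pi lo hi a b Z R lab xi u v) ∧
    (∀ el ∈ E, l el = true → x el = true → p el = false →
      (∀ f ∈ E, f ≠ el → l f = true → x f = false ∧ W el + X a < W f) →
      ∃ (lab : ι → ℤ) (xi : ι → ℕ) (u v : π → ℤ),
        Sol l x p pp W X E Pi lo hi a b Z R lab xi u v ∧
        ∀ f ∈ E, f ≠ el → val l x W X lab xi el < val l x W X lab xi f) := by
  induction n using Nat.strong_induction_on with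
  | _ n ih =>
  intro E Pi lo hi a b Z R hn ha H hev htok
  have hcnt := H.cnt
  have hxcnt := H.xcnt
  have hmono := H.mono
  -- anomaly lemma
  have hAn : ∀ el ∈ E, l el = true → x el = true → p el = false →
      (∀ f ∈ E, f ≠ el → l f = true → x f = false ∧ W el + X a < W f) →
      ∃ (lab : ι → ℤ) (xi : ι → ℕ) (u v : π → ℤ),
        Sol l x p pp W X E Pi lo hi a b Z R lab xi u v ∧
        ∀ f ∈ E, f ≠ el → val l x W X lab xi el < val l x W X lab xi f := by
    intro el hel hlel hxel hpel hoth
    have hab := x_le H hel hxel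
    -- another single
    obtain ⟨g, hg, hgel, hlg, hpg⟩ : ∃ g ∈ E, g ≠ el ∧ l g = true ∧ p g = false := by
      have h1 : el ∈ E.filter fun e => l e = true ∧ p e = false :=
        Finset.mem_filter.2 ⟨hel, hlel, hpel⟩
      have h2 : 1 < (E.filter fun e => l e = true ∧ p e = false).card := by
        have h3 : 0 < (E.filter fun e => l e = true ∧ p e = false).card :=
          Finset.card_pos.2 ⟨el, h1⟩
        obtain ⟨r, hr⟩ := hev
        unfold nS at hr
        omega
      obtain ⟨g, hg, hne⟩ := Finset.exists_mem_ne h2 el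
      rw [Finset.mem_filter] at hg
      exact ⟨g, hg.1, hne, hg.2.1, hg.2.2⟩
    have hgo := hoth g hg hgel hlg
    have hloh := lo_le H hg hlg
    -- the maximum over the others
    obtain ⟨f0, hf0, hf0max⟩ := Finset.exists_max_image (E.erase el) (pos l x W hi (X b))
      ⟨g, Finset.mem_erase.2 ⟨hgel, hg⟩⟩
    set D := pos l x W hi (X b) f0 with hD
    have hposl : ∀ f ∈ E, f ≠ el → l f = true → ∀ m y, pos l x W m y f = W f + m := by
      intro f hf hne hl m y
      unfold pos
      rw [bz_true hl, bz_false (hoth f hf hne hl).1, add_zero]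
    have hposx : ∀ f, l f = false → x f = true → ∀ m y, pos l x W m y f = W f + y := by
      intro f hl hx m y
      unfold pos
      rw [bz_false hl, bz_true hx, add_zero]
    have hgD : W g + hi ≤ D := by
      rw [← hposl g hg hgel hlg hi (X b)]
      exact hf0max g (Finset.mem_erase.2 ⟨hgel, hg⟩)
    have hmaxl : ∀ f ∈ E, f ≠ el → l f = true → W f + hi ≤ D := by
      intro f hf hne hl
      rw [← hposl f hf hne hl hi (X b)]
      exact hf0max f (Finset.mem_erase.2 ⟨hne, hf⟩)
    have hmaxx : ∀ f ∈ E, f ≠ el → l f = false → W f + X b ≤ D := by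
      intro f hf hne hl
      have hx : x f = true := by
        rcases H.lx f hf with h | h
        · rw [hl] at h; exact absurd h (by simp)
        · exact h
      rw [← hposx f hl hx hi (X b)]
      exact hf0max f (Finset.mem_erase.2 ⟨hne, hf⟩)
    have hxof : ∀ f ∈ E, l f = false → x f = true := by
      intro f hf hl
      rcases H.lx f hf with h | h
      · rw [hl] at h; exact absurd h (by simp)
      · exact h
    have hXab : X a ≤ X b := hmono.monotone hab
    have hf0E := Finset.mem_of_mem_erase hf0
    have hf0ne := Finset.ne_of_mem_erase hf0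
    by_cases hDZ : D ∈ Z
    · -- a
      have hZc := Finset.card_erase_add_one hDZ
      have hne : ∀ f ∈ E, f ≠ el → l f = true → W f + hi < D := by
        intro f hf hfe hl
        refine lt_of_le_of_ne (hmaxl f hf hfe hl) ?_
        intro heq
        have hk : kap l x W (X a) E f = 0 := by
          unfold kap
          rw [Finset.card_eq_zero, Finset.filter_eq_empty_iff]
          rintro f' hf' ⟨h1, h2, h3⟩
          by_cases h4 : f' = el
          · subst h4
            have := (hoth f hf hfe hl).2
            rw [bz_true hxel] at h3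
            omega
          · have h5 := hoth f' hf' h4 h2
            rw [bz_false h5.1] at h3
            have := hmaxl f' hf' h4 h2
            omega
        have := H.h1 f hf hl (hoth f hf hfe hl).1 D hDZ
        rw [hk] at this
        push_cast at this
        omega
      have H' : SweepHyp l x p pp W X E Pi lo hi a (b - 1) (Z.erase D) R :=
        hyp_sub H (Finset.Subset.refl _) H.ppm (Finset.erase_subset _ _)
          (Finset.Subset.refl _) le_rfl (by omega) hcnt (by omega) le_rfl
          (fun g _ _ _ => by omega)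
      obtain ⟨lab, xi, u, v, hs, hlt⟩ := (ih _ (by omega) E Pi lo hi a (b - 1) (Z.erase D) R rfl
        ha H' hev htok).2 el hel hlel hxel hpel hoth
      have hval : ∀ f ∈ E, f ≠ el → val l x W X lab xi f < D := by
        intro f hf hfe
        have h1 := (hs.bounds hmono hf).2
        by_cases hl : l f = true
        · rw [hposl f hf hfe hl] at h1
          have := hne f hf hfe hl
          omega
        · have hl' := bool_ne_true hl
          rw [hposx f hl' (hxof f hf hl')] at h1
          have h2 := hmaxx f hf hfe hl'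
          have h3 : X (b - 1) < X b := hmono (by omega)
          omega
      refine ⟨lab, xi, u, v, hs.zmove le_rfl (by omega) ?_, hlt⟩
      intro e he
      by_cases h : e = el
      · rw [h]
        have h1 := hlt g hg hgel
        have h2 := hval g hg hgel
        omega
      · exact (hval e he h).ne
    by_cases hDR : D ∈ R
    · -- b
      obtain ⟨t, ht, htE⟩ := exists_tok (E := E) (pp := pp) hDR htok
      have hRc := Finset.card_erase_add_one hDR
      have hPc := Finset.card_erase_add_one ht
      have H' := hyp_tok H (c := D) ht htE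
      obtain ⟨lab, xi, u, v, hs, hlt⟩ := (ih _ (by omega) E (Pi.erase t) (lo + 1) (hi - 1) a b Z
        (R.erase D) rfl ha H' hev (by omega)).2 el hel hlel hxel hpel hoth
      have hval : ∀ f ∈ E, f ≠ el → val l x W X lab xi f < D := by
        intro f hf hfe
        have h1 := (hs.bounds hmono hf).2
        by_cases hl : l f = true
        · rw [hposl f hf hfe hl] at h1
          have := hmaxl f hf hfe hl
          omega
        · have hl' := bool_ne_true hl
          have hx := hxof f hf hl'
          rw [hposx f hl' hx] at h1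
          have h2 := hmaxx f hf hfe hl'
          have h3 := H.h2 f hf hx hl' D hDR b hab le_rfl
          omega
      refine ⟨lab, xi, _, _, hs.tmove ht htE (tok_lt H ht) ?_, hlt⟩
      intro e he
      by_cases h : e = el
      · rw [h]
        have h1 := hlt g hg hgel
        have h2 := hval g hg hgel
        omega
      · exact (hval e he h).ne
    by_cases hns : ∃ f ∈ E, f ≠ el ∧ ¬ (l f = true ∧ p f = false) ∧ pos l x W hi (X b) f = D
    · -- c
      obtain ⟨f, hf, hfe, hfs, hfD⟩ := hns
      have hgf : g ≠ f := by
        rintro rfl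
        exact hfs ⟨hlg, hpg⟩
      have hEc := Finset.card_erase_add_one hf
      have helf : el ∈ E.erase f := Finset.mem_erase.2 ⟨fun h => hfe h.symm, hel⟩
      have hgE : g ∈ E.erase f := Finset.mem_erase.2 ⟨hgf, hg⟩
      have hnSe := nS_erase (l := l) (p := p) hf
      have hnPe := nP_erase (p := p) hf
      rw [if_neg hfs] at hnSe
      have hev' : Even (nS l p (E.erase f)) := by
        rw [add_zero] at hnSe
        rw [hnSe]; exact hev
      by_cases hpf : p f = true
      · have hlf := H.pl f hf hpf
        have hxf := (hoth f hf hfe hlf).1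
        rw [hposl f hf hfe hlf] at hfD
        have hm := H.ppm f hf hpf
        have hPc := Finset.card_erase_add_one hm
        rw [if_pos hpf] at hnPe
        have H' := hyp_p H hf hpf (le_refl a) (le_refl b) (by rw [if_neg (by rw [hxf]; simp)])
        obtain ⟨lab, xi, u, v, hs, hlt⟩ := (ih _ (by omega) (E.erase f) (Pi.erase (pp f)) (lo + 1)
          (hi - 1) a b Z R rfl ha H' hev' (by omega)).2 el helf hlel hxel hpel
          (fun f' hf' => hoth f' (Finset.mem_of_mem_erase hf'))
        have hval : ∀ f' ∈ E.erase f, f' ≠ el → val l x W X lab xi f' < D := by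
          intro f' hf' hfe'
          have h1 := (hs.bounds hmono hf').2
          have hf'E := Finset.mem_of_mem_erase hf'
          by_cases hl : l f' = true
          · rw [hposl f' hf'E hfe' hl] at h1
            have := hmaxl f' hf'E hfe' hl
            omega
          · have hl' := bool_ne_true hl
            have hx := hxof f' hf'E hl'
            have h2 := hmaxx f' hf'E hfe' hl'
            have h3 := H.h3 f' hf'E hx hl' f hf hlf hxf
            omega
        have hpos : pos l x W hi (X a) f = D := by rw [hposl f hf hfe hlf]; exact hfD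
        have hvalel : val l x W X lab xi el < D := by
          have h1 := hlt g hgE hgel
          have h2 := hval g hgE hgel
          omega
        have hne : ∀ f' ∈ E.erase f, val l x W X lab xi f' ≠ pos l x W hi (X a) f := by
          intro f' hf'
          rw [hpos]
          by_cases h : f' = el
          · rw [h]; exact hvalel.ne
          · exact (hval f' hf' h).ne
        refine ⟨_, _, _, _, Sol.pmove (m := hi) (m' := lo) (j := a) hs hf hpf
          (fun f' hf' h1 h2 => H.ppi f' hf' f hf h1 hpf h2) (Or.inr ⟨rfl, rfl⟩)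
          (tok_lt H hm) le_rfl le_rfl (fun h => by rw [hxf] at h; exact absurd h (by simp))
          (by rw [hpos]; exact hDZ) (by rw [hpos]; exact hDR) hne, ?_⟩
        intro f' hf' hfe'
        rw [val_update (Ne.symm hfe)]
        by_cases h : f' = f
        · rw [h, val_update_self, hpos]; exact hvalel
        · rw [val_update h]
          exact hlt f' (Finset.mem_erase.2 ⟨h, hf'⟩) hfe'
      · have hpf' := bool_ne_true hpf
        have hlf : l f = false := by
          cases h : l f
          · rfl
          · exact absurd ⟨h, hpf'⟩ hfs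
        have hxf := hxof f hf hlf
        rw [hposx f hlf hxf] at hfD
        rw [if_neg hpf] at hnPe
        have H' := hyp_x H hf hlf hpf' hxf (le_refl a) (show b - 1 ≤ b by omega) (by omega)
        obtain ⟨lab, xi, u, v, hs, hlt⟩ := (ih _ (by omega) (E.erase f) Pi lo hi a (b - 1) Z R rfl
          ha H' hev' (by omega)).2 el helf hlel hxel hpel
          (fun f' hf' => hoth f' (Finset.mem_of_mem_erase hf'))
        have hval : ∀ f' ∈ E.erase f, f' ≠ el → val l x W X lab xi f' < D := by
          intro f' hf' hfe'
          have h1 := (hs.bounds hmono hf').2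
          have hf'E := Finset.mem_of_mem_erase hf'
          by_cases hl : l f' = true
          · rw [hposl f' hf'E hfe' hl] at h1
            have h3 := H.h3 f hf hxf hlf f' hf'E hl (hoth f' hf'E hfe' hl).1
            omega
          · have hl' := bool_ne_true hl
            have hx := hxof f' hf'E hl'
            rw [hposx f' hl' hx] at h1
            have h2 := hmaxx f' hf'E hfe' hl'
            have h3 : X (b - 1) < X b := hmono (by omega)
            omega
        have hpos : pos l x W lo (X b) f = D := by rw [hposx f hlf hxf]; exact hfD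
        have hvalel : val l x W X lab xi el < D := by
          have h1 := hlt g hgE hgel
          have h2 := hval g hgE hgel
          omega
        have hne : ∀ f' ∈ E.erase f, val l x W X lab xi f' ≠ pos l x W lo (X b) f := by
          intro f' hf'
          rw [hpos]
          by_cases h : f' = el
          · rw [h]; exact hvalel.ne
          · exact (hval f' hf' h).ne
        refine ⟨_, _, _, _, Sol.xmove (j := b) hs hlf hpf' le_rfl (by omega)
          ⟨hab, le_rfl, Or.inr (by omega)⟩
          (by rw [hpos]; exact hDZ) (by rw [hpos]; exact hDR) hne, ?_⟩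
        intro f' hf' hfe'
        rw [val_update (Ne.symm hfe)]
        by_cases h : f' = f
        · rw [h, val_update_self, hpos]; exact hvalel
        · rw [val_update h]
          exact hlt f' (Finset.mem_erase.2 ⟨h, hf'⟩) hfe'
    · -- d
      push Not at hns
      have hf0s : l f0 = true ∧ p f0 = false := by
        by_contra h
        exact hns f0 hf0E hf0ne (fun h1 h2 => h ⟨h1, h2⟩) rfl
      have hf0D : W f0 + hi = D := by
        rw [hD, hposl f0 hf0E hf0ne hf0s.1]
      have hf0x := (hoth f0 hf0E hf0ne hf0s.1).1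
      have hnox : ∀ f ∈ E, f ≠ el → l f = true := by
        intro f hf hfe
        by_contra hl
        have hl' := bool_ne_true hl
        have hx := hxof f hf hl'
        have h2 := hmaxx f hf hfe hl'
        have h3 := H.h3 f hf hx hl' f0 hf0E hf0s.1 hf0x
        omega
      have hpel' : pos l x W lo (X a) el = W el + lo + X a := by
        unfold pos
        rw [bz_true hlel, bz_true hxel]
      by_cases hcR : W el + lo + X a ∈ R
      · obtain ⟨t, ht, htE⟩ := exists_tok (E := E) (pp := pp) hcR htok
        have hRc := Finset.card_erase_add_one hcR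
        have hPc := Finset.card_erase_add_one ht
        have H' := hyp_tok H (c := W el + lo + X a) ht htE
        obtain ⟨lab, xi, u, v, hs, hlt⟩ := (ih _ (by omega) E (Pi.erase t) (lo + 1) (hi - 1) a b Z
          (R.erase (W el + lo + X a)) rfl ha H' hev (by omega)).2 el hel hlel hxel hpel hoth
        have h0 : W el + lo + X a < val l x W X lab xi el := by
          have h1 := (hs.bounds hmono hel).1
          have h2 : pos l x W (lo + 1) (X a) el = W el + (lo + 1) + X a := by
            unfold pos
            rw [bz_true hlel, bz_true hxel]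
          omega
        refine ⟨lab, xi, _, _, hs.tmove ht htE (tok_lt H ht) ?_, hlt⟩
        intro e he
        by_cases h : e = el
        · rw [h]; exact h0.ne'
        · have := hlt e he h
          omega
      · have hcZ : W el + lo + X a ∉ Z := by
          intro hz
          have := F1 H hg hlg hgo.1 hz
          omega
        have hf0' : f0 ∈ E.erase el := hf0
        have hEc := Finset.card_erase_add_one hel
        have hEc' := Finset.card_erase_add_one hf0'
        have hnSe := nS_erase (l := l) (p := p) hel
        have hnSe' := nS_erase (l := l) (p := p) hf0'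
        rw [if_pos ⟨hlel, hpel⟩] at hnSe
        rw [if_pos hf0s] at hnSe'
        have hnPe := nP_erase (p := p) hel
        have hnPe' := nP_erase (p := p) hf0'
        rw [if_neg (by rw [hpel]; simp)] at hnPe
        rw [if_neg (by rw [hf0s.2]; simp)] at hnPe'
        have hev' : Even (nS l p ((E.erase el).erase f0)) := by
          obtain ⟨r, hr⟩ := hev
          exact ⟨r - 1, by omega⟩
        have H' := hyp_s (a' := a + 1) (b' := b) H hel hf0E (Ne.symm hf0ne) hlel hpel hf0s.1
          hf0s.2 (by rw [if_pos hxel]) (by rw [if_neg (by rw [hf0x]; simp)]; rfl) (by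
            intro f hf hl _ hfe
            rw [bz_true hxel]
            exact (hoth f hf hfe hl).2.le)
        obtain ⟨lab, xi, u, v, hs⟩ := (ih _ (by omega) ((E.erase el).erase f0) Pi (lo + 1) (hi - 1)
          (a + 1) b Z R rfl (by omega) H' hev' (by omega)).1
        have hposf : pos l x W hi (X b) f0 = D := rfl
        have hlohi : lo < hi := by
          obtain ⟨r, hr⟩ := hev
          omega
        have hcD : W el + lo + X a < D := by omega
        have hval : ∀ f ∈ (E.erase el).erase f0,
            W el + lo + X a < val l x W X lab xi f ∧ val l x W X lab xi f < D := by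
          intro f hf
          have hf1 := Finset.mem_of_mem_erase hf
          have hfE := Finset.mem_of_mem_erase hf1
          have hfe := Finset.ne_of_mem_erase hf1
          have hl := hnox f hfE hfe
          have h1 := hs.bounds hmono hf
          rw [hposl f hfE hfe hl, hposl f hfE hfe hl] at h1
          have h2 := hmaxl f hfE hfe hl
          have h3 := (hoth f hfE hfe hl).2
          omega
        refine ⟨_, _, _, _, Sol.smove hs (Ne.symm hf0ne) hpel hf0s.2 hlohi (by omega) le_rfl
          (fun _ => ⟨le_rfl, hab⟩) (fun h => by rw [hf0x] at h; exact absurd h (by simp))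
          (fun _ h => by rw [hf0x] at h; exact absurd h (by simp))
          (by rw [hpel']; exact hcZ) (by rw [hpel']; exact hcR)
          (by rw [hposf]; exact hDZ) (by rw [hposf]; exact hDR)
          (by rw [hpel', hposf]; exact hcD.ne)
          (fun f hf => by rw [hpel']; exact (hval f hf).1.ne')
          (fun f hf => by rw [hposf]; exact (hval f hf).2.ne), ?_⟩
        intro f hf hfe
        rw [val_update_self, val_update hfe, hpel']
        by_cases h : f = f0
        · rw [h, val_update_self, hposf]; exact hcD
        · rw [val_update h]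
          exact (hval f (Finset.mem_erase.2 ⟨h, Finset.mem_erase.2 ⟨hfe, hf⟩⟩)).1
  refine ⟨?_, hAn⟩
  rcases E.eq_empty_or_nonempty with hE | hE
  · subst hE
    have hcnt' : hi - lo + 1 = 2 * (Pi.card : ℤ) := by
      have : nS l p (∅ : Finset ι) = 0 := rfl
      omega
    let idx : π → ℕ := fun t => if h : t ∈ Pi then (Pi.equivFin ⟨t, h⟩ : ℕ) else 0
    have hidx : ∀ t (h : t ∈ Pi), idx t = (Pi.equivFin ⟨t, h⟩ : ℕ) := fun t h => dif_pos h
    have hlt : ∀ t ∈ Pi, idx t < Pi.card := fun t h => by
      rw [hidx t h]; exact (Pi.equivFin ⟨t, h⟩).2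
    have hinj : ∀ s ∈ Pi, ∀ t ∈ Pi, idx s = idx t → s = t := by
      intro s hs t ht h
      rw [hidx s hs, hidx t ht] at h
      exact congrArg Subtype.val (Pi.equivFin.injective (Fin.ext h))
    refine ⟨fun _ => 0, fun _ => 0, fun t => lo + idx t, fun t => hi - idx t,
      ⟨⟨?_, ?_, ?_, ?_, ?_, ?_, ?_, ?_, ?_, ?_, ?_, ?_⟩, ?_, ?_, ?_⟩⟩
    · intro e he; exact absurd he (Finset.notMem_empty e)
    · intro e he; exact absurd he (Finset.notMem_empty e)
    · intro e he; exact absurd he (Finset.notMem_empty e)
    · intro t ht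
      have := hlt t ht
      show lo ≤ lo + idx t ∧ lo + idx t ≤ hi
      omega
    · intro t ht
      have := hlt t ht
      show lo ≤ hi - idx t ∧ hi - idx t ≤ hi
      omega
    · intro e he; exact absurd he (Finset.notMem_empty e)
    · intro e he; exact absurd he (Finset.notMem_empty e)
    · intro e he; exact absurd he (Finset.notMem_empty e)
    · intro e he; exact absurd he (Finset.notMem_empty e)
    · intro s hs t ht h
      have h' : lo + (idx s : ℤ) = lo + idx t := h
      exact hinj s hs t ht (by omega)
    · intro s hs t ht h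
      have h' : hi - (idx s : ℤ) = hi - idx t := h
      exact hinj s hs t ht (by omega)
    · intro s hs t ht
      have h1 := hlt s hs
      have h2 := hlt t ht
      show lo + (idx s : ℤ) ≠ hi - idx t
      omega
    · intro t _
      show lo + (idx t : ℤ) + (hi - idx t) = lo + hi
      omega
    · intro e he; exact absurd he (Finset.notMem_empty e)
    · intro e he; exact absurd he (Finset.notMem_empty e)
  obtain ⟨e0, he0, he0min⟩ := Finset.exists_min_image E (pos l x W lo (X a)) hE
  obtain ⟨f0, hf0, hf0max⟩ := Finset.exists_max_image E (pos l x W hi (X b)) hE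
  obtain ⟨c, hc⟩ : ∃ c, c = pos l x W lo (X a) e0 := ⟨_, rfl⟩
  obtain ⟨C, hC⟩ : ∃ C, C = pos l x W hi (X b) f0 := ⟨_, rfl⟩
  rw [← hc] at he0min
  rw [← hC] at hf0max
  have hxof : ∀ f ∈ E, l f = false → x f = true := by
    intro f hf hl
    rcases H.lx f hf with h | h
    · rw [hl] at h; exact absurd h (by simp)
    · exact h
  -- positions by type
  have plx : ∀ f, l f = true → x f = true → ∀ m y, pos l x W m y f = W f + m + y := by
    intro f h1 h2 m y
    unfold pos
    rw [bz_true h1, bz_true h2]
  have pl : ∀ f, l f = true → x f = false → ∀ m y, pos l x W m y f = W f + m := by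
    intro f h1 h2 m y
    unfold pos
    rw [bz_true h1, bz_false h2, add_zero]
  have px : ∀ f, l f = false → x f = true → ∀ m y, pos l x W m y f = W f + y := by
    intro f h1 h2 m y
    unfold pos
    rw [bz_false h1, bz_true h2, add_zero]
  -- the element is of one of three types
  have htype : ∀ f ∈ E, (l f = true ∧ x f = true) ∨ (l f = true ∧ x f = false) ∨
      (l f = false ∧ x f = true) := by
    intro f hf
    cases h1 : l f
    · exact Or.inr (Or.inr ⟨rfl, hxof f hf h1⟩)
    · cases h2 : x f
      · exact Or.inr (Or.inl ⟨rfl, rfl⟩)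
      · exact Or.inl ⟨rfl, rfl⟩
  by_cases hcZ : c ∈ Z
  · -- 1
    have hZc := Finset.card_erase_add_one hcZ
    have H' : SweepHyp l x p pp W X E Pi lo hi (a + 1) b (Z.erase c) R :=
      hyp_sub H (Finset.Subset.refl _) H.ppm (Finset.erase_subset _ _)
        (Finset.Subset.refl _) (by omega) le_rfl hcnt (by omega) le_rfl
        (fun g _ _ _ => by
          have := kap_le (l := l) (x := x) (W := W) (hmono.monotone (Nat.le_succ a)) E g
          have h2 : X (Nat.succ a) = X (a + 1) := rfl
          rw [h2] at this
          omega)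
    obtain ⟨⟨lab, xi, u, v, hs⟩, _⟩ := ih _ (by omega) E Pi lo hi (a + 1) b (Z.erase c) R rfl
      (by omega) H' hev htok
    refine ⟨lab, xi, u, v, hs.zmove (by omega) le_rfl ?_⟩
    intro f hf
    have h1 := (hs.bounds hmono hf).1
    have h2 := he0min f hf
    have h3 : X a < X (a + 1) := hmono (Nat.lt_succ_self a)
    rcases htype f hf with ⟨h4, h5⟩ | ⟨h4, h5⟩ | ⟨h4, h5⟩
    · rw [plx f h4 h5] at h1 h2; omega
    · rw [pl f h4 h5] at h2
      have := F1 H hf h4 h5 hcZ
      omega
    · rw [px f h4 h5] at h1 h2; omega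
  by_cases hCZ : C ∈ Z
  · -- 2
    have hZc := Finset.card_erase_add_one hCZ
    have H' : SweepHyp l x p pp W X E Pi lo hi a (b - 1) (Z.erase C) R :=
      hyp_sub H (Finset.Subset.refl _) H.ppm (Finset.erase_subset _ _)
        (Finset.Subset.refl _) le_rfl (by omega) hcnt (by omega) le_rfl
        (fun g _ _ _ => by omega)
    obtain ⟨⟨lab, xi, u, v, hs⟩, _⟩ := ih _ (by omega) E Pi lo hi a (b - 1) (Z.erase C) R rfl
      ha H' hev htok
    refine ⟨lab, xi, u, v, hs.zmove le_rfl (by omega) ?_⟩
    intro f hf
    have h1 := (hs.bounds hmono hf).2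
    have h2 := hf0max f hf
    have h3 : X (b - 1) < X b := hmono (by omega)
    rcases htype f hf with ⟨h4, h5⟩ | ⟨h4, h5⟩ | ⟨h4, h5⟩
    · rw [plx f h4 h5] at h1 h2; omega
    · rw [pl f h4 h5] at h1 h2
      have hne : W f + hi ≠ C := by
        intro heq
        have hk : kap l x W (X a) E f = 0 := by
          unfold kap
          rw [Finset.card_eq_zero, Finset.filter_eq_empty_iff]
          rintro f' hf' ⟨_, h6, h7⟩
          have h8 := hf0max f' hf'
          rcases htype f' hf' with ⟨k4, k5⟩ | ⟨k4, k5⟩ | ⟨k4, k5⟩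
          · rw [plx f' k4 k5] at h8
            rw [bz_true k5] at h7
            have : X a ≤ X b := hmono.monotone (x_le H hf' k5)
            omega
          · rw [pl f' k4 k5] at h8
            rw [bz_false k5] at h7
            omega
          · rw [k4] at h6; exact absurd h6 (by simp)
        have := H.h1 f hf h4 h5 C hCZ
        rw [hk] at this
        push_cast at this
        omega
      omega
    · rw [px f h4 h5] at h1 h2; omega
  by_cases hcR : c ∈ R
  · -- 3
    obtain ⟨t, ht, htE⟩ := exists_tok (E := E) (pp := pp) hcR htok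
    have hRc := Finset.card_erase_add_one hcR
    have hPc := Finset.card_erase_add_one ht
    have H' := hyp_tok H (c := c) ht htE
    obtain ⟨⟨lab, xi, u, v, hs⟩, _⟩ := ih _ (by omega) E (Pi.erase t) (lo + 1) (hi - 1) a b Z
      (R.erase c) rfl ha H' hev (by omega)
    refine ⟨lab, xi, _, _, hs.tmove ht htE (tok_lt H ht) ?_⟩
    intro f hf
    have h1 := (hs.bounds hmono hf).1
    have h2 := he0min f hf
    rcases htype f hf with ⟨h4, h5⟩ | ⟨h4, h5⟩ | ⟨h4, h5⟩
    · rw [plx f h4 h5] at h1 h2; omega
    · rw [pl f h4 h5] at h1 h2; omega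
    · rw [px f h4 h5] at h1 h2
      have := H.h2 f hf h5 h4 c hcR a le_rfl (x_le H hf h5)
      omega
  by_cases hCR : C ∈ R
  · -- 4
    obtain ⟨t, ht, htE⟩ := exists_tok (E := E) (pp := pp) hCR htok
    have hRc := Finset.card_erase_add_one hCR
    have hPc := Finset.card_erase_add_one ht
    have H' := hyp_tok H (c := C) ht htE
    obtain ⟨⟨lab, xi, u, v, hs⟩, _⟩ := ih _ (by omega) E (Pi.erase t) (lo + 1) (hi - 1) a b Z
      (R.erase C) rfl ha H' hev (by omega)
    refine ⟨lab, xi, _, _, hs.tmove ht htE (tok_lt H ht) ?_⟩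
    intro f hf
    have h1 := (hs.bounds hmono hf).2
    have h2 := hf0max f hf
    rcases htype f hf with ⟨h4, h5⟩ | ⟨h4, h5⟩ | ⟨h4, h5⟩
    · rw [plx f h4 h5] at h1 h2; omega
    · rw [pl f h4 h5] at h1 h2; omega
    · rw [px f h4 h5] at h1 h2
      have := H.h2 f hf h5 h4 C hCR b (x_le H hf h5) le_rfl
      omega
  by_cases h5 : ∃ e ∈ E, ¬ (l e = true ∧ p e = false) ∧ pos l x W lo (X a) e = c
  · -- 5
    obtain ⟨e, he, hes, hec⟩ := h5
    have hEc := Finset.card_erase_add_one he
    have hnSe := nS_erase (l := l) (p := p) he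
    have hnPe := nP_erase (p := p) he
    rw [if_neg hes] at hnSe
    have hev' : Even (nS l p (E.erase e)) := by
      rw [add_zero] at hnSe
      rw [hnSe]; exact hev
    by_cases hpe : p e = true
    · have hle := H.pl e he hpe
      have hm := H.ppm e he hpe
      have hPc := Finset.card_erase_add_one hm
      have hlt := tok_lt H hm
      rw [if_pos hpe] at hnPe
      obtain ⟨a', ha', haa⟩ : ∃ a', a' = a + (if x e = true then 1 else 0) ∧ a ≤ a' :=
        ⟨_, rfl, by omega⟩
      have H' := hyp_p (a' := a') (b' := b) H he hpe haa le_rfl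
        (by split_ifs at ha' ⊢ <;> omega)
      obtain ⟨⟨lab, xi, u, v, hs⟩, _⟩ := ih _ (by omega) (E.erase e) (Pi.erase (pp e)) (lo + 1)
        (hi - 1) a' b Z R rfl (by omega) H' hev' (by omega)
      have hval : ∀ f ∈ E.erase e, c < val l x W X lab xi f := by
        intro f hf
        have hfE := Finset.mem_of_mem_erase hf
        have h1 := (hs.bounds hmono hf).1
        have h2 := he0min f hfE
        have h3 : X a ≤ X a' := hmono.monotone haa
        rcases htype f hfE with ⟨h4, h5⟩ | ⟨h4, h5⟩ | ⟨h4, h5⟩
        · rw [plx f h4 h5] at h1 h2; omega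
        · rw [pl f h4 h5] at h1 h2; omega
        · rw [px f h4 h5] at h1 h2
          cases hx : x e
          · have h6 := H.h3 f hfE h5 h4 e he hle hx
            rw [pl e hle hx] at hec
            omega
          · rw [if_pos hx] at ha'
            have : X a < X a' := hmono (by omega)
            omega
      refine ⟨_, _, _, _, Sol.pmove (m := lo) (m' := hi) (j := a) hs he hpe
        (fun f' hf' h1 h2 => H.ppi f' hf' e he h1 hpe h2) (Or.inl ⟨rfl, rfl⟩)
        hlt haa le_rfl (fun h => ?_) (by rw [hec]; exact hcZ) (by rw [hec]; exact hcR)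
        (fun f hf => by rw [hec]; exact (hval f hf).ne')⟩
      have := x_le H he h
      rw [if_pos h] at ha'
      omega
    · have hpe' := bool_ne_true hpe
      have hle : l e = false := by
        cases h : l e
        · rfl
        · exact absurd ⟨h, hpe'⟩ hes
      have hxe := hxof e he hle
      have hab := x_le H he hxe
      rw [if_neg hpe] at hnPe
      have H' := hyp_x H he hle hpe' hxe (show a ≤ a + 1 by omega) (le_refl b) (by omega)
      obtain ⟨⟨lab, xi, u, v, hs⟩, _⟩ := ih _ (by omega) (E.erase e) Pi lo hi (a + 1) b Z R rfl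
        (by omega) H' hev' (by omega)
      have hval : ∀ f ∈ E.erase e, c < val l x W X lab xi f := by
        intro f hf
        have hfE := Finset.mem_of_mem_erase hf
        have h1 := (hs.bounds hmono hf).1
        have h2 := he0min f hfE
        have h3 : X a < X (a + 1) := hmono (Nat.lt_succ_self a)
        rcases htype f hfE with ⟨h4, h5⟩ | ⟨h4, h5⟩ | ⟨h4, h5⟩
        · rw [plx f h4 h5] at h1 h2; omega
        · rw [pl f h4 h5] at h1 h2
          have h6 := H.h3 e he hxe hle f hfE h4 h5
          have h7 := lo_le H hfE h4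
          rw [px e hle hxe] at hec
          omega
        · rw [px f h4 h5] at h1 h2; omega
      exact ⟨_, _, _, _, Sol.xmove (j := a) hs hle hpe' (by omega) le_rfl
        ⟨le_rfl, hab, Or.inl (by omega)⟩ (by rw [hec]; exact hcZ) (by rw [hec]; exact hcR)
        (fun f hf => by rw [hec]; exact (hval f hf).ne')⟩
  by_cases h6 : ∃ e ∈ E, ¬ (l e = true ∧ p e = false) ∧ pos l x W hi (X b) e = C
  · -- 6
    obtain ⟨e, he, hes, heC⟩ := h6
    have hEc := Finset.card_erase_add_one he
    have hnSe := nS_erase (l := l) (p := p) he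
    have hnPe := nP_erase (p := p) he
    rw [if_neg hes] at hnSe
    have hev' : Even (nS l p (E.erase e)) := by
      rw [add_zero] at hnSe
      rw [hnSe]; exact hev
    by_cases hpe : p e = true
    · have hle := H.pl e he hpe
      have hm := H.ppm e he hpe
      have hPc := Finset.card_erase_add_one hm
      have hlt := tok_lt H hm
      rw [if_pos hpe] at hnPe
      obtain ⟨b', hb', hbb⟩ : ∃ b', b' + (if x e = true then 1 else 0) = b ∧ b' ≤ b := by
        by_cases hx : x e = true
        · have := x_le H he hx
          rw [if_pos hx]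
          exact ⟨b - 1, by omega, by omega⟩
        · rw [if_neg hx]
          exact ⟨b, rfl, le_rfl⟩
      have H' := hyp_p (a' := a) (b' := b') H he hpe le_rfl hbb
        (by split_ifs at hb' ⊢ <;> omega)
      obtain ⟨⟨lab, xi, u, v, hs⟩, _⟩ := ih _ (by omega) (E.erase e) (Pi.erase (pp e)) (lo + 1)
        (hi - 1) a b' Z R rfl (by omega) H' hev' (by omega)
      have hval : ∀ f ∈ E.erase e, val l x W X lab xi f < C := by
        intro f hf
        have hfE := Finset.mem_of_mem_erase hf
        have h1 := (hs.bounds hmono hf).2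
        have h2 := hf0max f hfE
        have h3 : X b' ≤ X b := hmono.monotone hbb
        rcases htype f hfE with ⟨h4, h5⟩ | ⟨h4, h5⟩ | ⟨h4, h5⟩
        · rw [plx f h4 h5] at h1 h2; omega
        · rw [pl f h4 h5] at h1 h2; omega
        · rw [px f h4 h5] at h1 h2
          cases hx : x e
          · have h6 := H.h3 f hfE h5 h4 e he hle hx
            rw [pl e hle hx] at heC
            have : X a ≤ X b := hmono.monotone (x_le H hfE h5)
            omega
          · rw [if_pos hx] at hb'
            have : X b' < X b := hmono (by omega)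
            omega
      refine ⟨_, _, _, _, Sol.pmove (m := hi) (m' := lo) (j := b) hs he hpe
        (fun f' hf' h1 h2 => H.ppi f' hf' e he h1 hpe h2) (Or.inr ⟨rfl, rfl⟩)
        hlt le_rfl hbb (fun h => ?_) (by rw [heC]; exact hCZ) (by rw [heC]; exact hCR)
        (fun f hf => by rw [heC]; exact (hval f hf).ne)⟩
      have := x_le H he h
      rw [if_pos h] at hb'
      omega
    · have hpe' := bool_ne_true hpe
      have hle : l e = false := by
        cases h : l e
        · rfl
        · exact absurd ⟨h, hpe'⟩ hes
      have hxe := hxof e he hle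
      have hab := x_le H he hxe
      rw [if_neg hpe] at hnPe
      have H' := hyp_x H he hle hpe' hxe (le_refl a) (show b - 1 ≤ b by omega) (by omega)
      obtain ⟨⟨lab, xi, u, v, hs⟩, _⟩ := ih _ (by omega) (E.erase e) Pi lo hi a (b - 1) Z R rfl
        (by omega) H' hev' (by omega)
      have hposlo : pos l x W lo (X b) e = C := by
        rw [px e hle hxe]
        rw [px e hle hxe] at heC
        exact heC
      have hval : ∀ f ∈ E.erase e, val l x W X lab xi f < C := by
        intro f hf
        have hfE := Finset.mem_of_mem_erase hf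
        have h1 := (hs.bounds hmono hf).2
        have h2 := hf0max f hfE
        have h3 : X (b - 1) < X b := hmono (by omega)
        have h8 : X a ≤ X b := hmono.monotone hab
        rcases htype f hfE with ⟨h4, h5⟩ | ⟨h4, h5⟩ | ⟨h4, h5⟩
        · rw [plx f h4 h5] at h1 h2; omega
        · rw [pl f h4 h5] at h1 h2
          have h6 := H.h3 e he hxe hle f hfE h4 h5
          rw [px e hle hxe] at heC
          omega
        · rw [px f h4 h5] at h1 h2; omega
      exact ⟨_, _, _, _, Sol.xmove (j := b) hs hle hpe' le_rfl (by omega)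
        ⟨hab, le_rfl, Or.inr (by omega)⟩ (by rw [hposlo]; exact hCZ) (by rw [hposlo]; exact hCR)
        (fun f hf => by rw [hposlo]; exact (hval f hf).ne)⟩
  push Not at h5 h6
  have hmin_s : ∀ e ∈ E, pos l x W lo (X a) e = c → l e = true ∧ p e = false := by
    intro e he h
    by_contra h'
    exact h5 e he (fun h1 h2 => h' ⟨h1, h2⟩) h
  have hmax_s : ∀ e ∈ E, pos l x W hi (X b) e = C → l e = true ∧ p e = false := by
    intro e he h
    by_contra h'
    exact h6 e he (fun h1 h2 => h' ⟨h1, h2⟩) h
  by_cases h7 : ∃ e ∈ E, ∃ f ∈ E, e ≠ f ∧ pos l x W lo (X a) e = c ∧ pos l x W hi (X b) f = C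
  · -- 7
    obtain ⟨e, he, f, hf, hef, hec, hfC⟩ := h7
    obtain ⟨hle, hpe⟩ := hmin_s e he hec
    obtain ⟨hlf, hpf⟩ := hmax_s f hf hfC
    have hfe : f ∈ E.erase e := Finset.mem_erase.2 ⟨hef.symm, hf⟩
    have hEc := Finset.card_erase_add_one he
    have hEc' := Finset.card_erase_add_one hfe
    have hnSe := nS_erase (l := l) (p := p) he
    have hnSe' := nS_erase (l := l) (p := p) hfe
    rw [if_pos ⟨hle, hpe⟩] at hnSe
    rw [if_pos ⟨hlf, hpf⟩] at hnSe'
    have hnPe := nP_erase (p := p) he
    have hnPe' := nP_erase (p := p) hfe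
    rw [if_neg (by rw [hpe]; simp)] at hnPe
    rw [if_neg (by rw [hpf]; simp)] at hnPe'
    have hev' : Even (nS l p ((E.erase e).erase f)) := by
      obtain ⟨r, hr⟩ := hev
      exact ⟨r - 1, by omega⟩
    obtain ⟨a', ha', haa⟩ : ∃ a', a' = a + (if x e = true then 1 else 0) ∧ a ≤ a' :=
      ⟨_, rfl, by omega⟩
    obtain ⟨b', hb', hbb⟩ : ∃ b', b' + (if x f = true then 1 else 0) = b ∧ b' ≤ b := by
      by_cases hx : x f = true
      · have := x_le H hf hx
        rw [if_pos hx]
        exact ⟨b - 1, by omega, by omega⟩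
      · rw [if_neg hx]
        exact ⟨b, rfl, le_rfl⟩
    have H' := hyp_s (a' := a') (b' := b') H he hf hef hle hpe hlf hpf ha' hb' (by
      intro g hg h1 h2 _
      have h3 := he0min g hg
      rw [pl g h1 h2, ← hec] at h3
      unfold pos at h3
      rw [bz_true hle] at h3
      omega)
    obtain ⟨⟨lab, xi, u, v, hs⟩, _⟩ := ih _ (by omega) ((E.erase e).erase f) Pi (lo + 1) (hi - 1)
      a' b' Z R rfl (by omega) H' hev' (by omega)
    have hlohi : lo < hi := by omega
    have hXf : x f = true → X a ≤ X b := fun h => hmono.monotone (x_le H hf h)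
    have hcC : c < C := by
      have h1 := he0min f hf
      rcases htype f hf with ⟨h4, h5⟩ | ⟨h4, h5⟩ | ⟨h4, h5⟩
      · rw [plx f h4 h5] at h1 hfC
        have := hXf h5
        omega
      · rw [pl f h4 h5] at h1 hfC; omega
      · rw [h4] at hlf; exact absurd hlf (by simp)
    have hval : ∀ g ∈ (E.erase e).erase f,
        c < val l x W X lab xi g ∧ val l x W X lab xi g < C := by
      intro g hg
      have hgE := Finset.mem_of_mem_erase (Finset.mem_of_mem_erase hg)
      have h1 := hs.bounds hmono hg
      have h2 := he0min g hgE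
      have h2' := hf0max g hgE
      have h3 : X a ≤ X a' := hmono.monotone haa
      have h3' : X b' ≤ X b := hmono.monotone hbb
      rcases htype g hgE with ⟨h4, h5⟩ | ⟨h4, h5⟩ | ⟨h4, h5⟩
      · rw [plx g h4 h5] at h2 h2'
        rw [plx g h4 h5, plx g h4 h5] at h1
        omega
      · rw [pl g h4 h5] at h2 h2'
        rw [pl g h4 h5, pl g h4 h5] at h1
        omega
      · have h7 : pos l x W lo (X a) g ≠ c := fun h => by
          have := (hmin_s g hgE h).1
          rw [h4] at this
          exact absurd this (by simp)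
        have h8 : pos l x W hi (X b) g ≠ C := fun h => by
          have := (hmax_s g hgE h).1
          rw [h4] at this
          exact absurd this (by simp)
        rw [px g h4 h5] at h2 h2' h7 h8
        rw [px g h4 h5, px g h4 h5] at h1
        omega
    refine ⟨_, _, _, _, Sol.smove hs hef hpe hpf hlohi haa hbb
      (fun h => ?_) (fun h => ?_) (fun h h' => ?_)
      (by rw [hec]; exact hcZ) (by rw [hec]; exact hcR)
      (by rw [hfC]; exact hCZ) (by rw [hfC]; exact hCR)
      (by rw [hec, hfC]; exact hcC.ne)
      (fun g hg => by rw [hec]; exact (hval g hg).1.ne')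
      (fun g hg => by rw [hfC]; exact (hval g hg).2.ne)⟩
    · have := x_le H he h
      rw [if_pos h] at ha'
      omega
    · have := x_le H hf h
      rw [if_pos h] at hb'
      omega
    · exact (x_lt H he hf hef h h').ne
  · -- 8
    push Not at h7
    have hef : e0 = f0 := by
      by_contra h
      exact h7 e0 he0 f0 hf0 h hc.symm hC.symm
    subst hef
    obtain ⟨hle, hpe⟩ := hmin_s e0 he0 hc.symm
    have humin : ∀ f ∈ E, f ≠ e0 → c < pos l x W lo (X a) f := by
      intro f hf hne
      refine lt_of_le_of_ne (he0min f hf) fun h => ?_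
      exact h7 f hf e0 he0 hne h.symm hC.symm
    have humax : ∀ f ∈ E, f ≠ e0 → pos l x W hi (X b) f < C := by
      intro f hf hne
      refine lt_of_le_of_ne (hf0max f hf) fun h => ?_
      exact h7 e0 he0 f hf hne.symm hc.symm h
    -- another single
    obtain ⟨g, hg, hge, hlg, hpg⟩ : ∃ g ∈ E, g ≠ e0 ∧ l g = true ∧ p g = false := by
      have h1 : e0 ∈ E.filter fun e => l e = true ∧ p e = false :=
        Finset.mem_filter.2 ⟨he0, hle, hpe⟩
      have h2 : 1 < (E.filter fun e => l e = true ∧ p e = false).card := by
        have h3 : 0 < (E.filter fun e => l e = true ∧ p e = false).card :=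
          Finset.card_pos.2 ⟨e0, h1⟩
        obtain ⟨r, hr⟩ := hev
        unfold nS at hr
        omega
      obtain ⟨g, hg, hne⟩ := Finset.exists_mem_ne h2 e0
      rw [Finset.mem_filter] at hg
      exact ⟨g, hg.1, hne, hg.2.1, hg.2.2⟩
    have hxe : x e0 = true := by
      by_contra hx
      have hx' := bool_ne_true hx
      have h1 := humin g hg hge
      have h2 := humax g hg hge
      rw [hc, pl e0 hle hx'] at h1
      rw [hC, pl e0 hle hx'] at h2
      rcases htype g hg with ⟨h4, h5⟩ | ⟨h4, h5⟩ | ⟨h4, h5⟩
      · rw [plx g h4 h5] at h1 h2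
        have : X a ≤ X b := hmono.monotone (x_le H hg h5)
        omega
      · rw [pl g h4 h5] at h1 h2
        omega
      · rw [h4] at hlg; exact absurd hlg (by simp)
    obtain ⟨lab, xi, u, v, hs, _⟩ := hAn e0 he0 hle hxe hpe (by
      intro f hf hne hlf
      have h1 := humin f hf hne
      have h2 := humax f hf hne
      rw [hc, plx e0 hle hxe] at h1
      rw [hC, plx e0 hle hxe] at h2
      rcases htype f hf with ⟨h4, h5⟩ | ⟨h4, h5⟩ | ⟨h4, h5⟩
      · exfalso
        rw [plx f h4 h5] at h1 h2
        omega
      · rw [pl f h4 h5] at h1 h2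
        exact ⟨h5, by omega⟩
      · rw [h4] at hlf; exact absurd hlf (by simp))
    exact ⟨lab, xi, u, v, hs⟩

end tools

/-- Even lemma: the number of singles is even and there are at least as many tokens as
statics in `R`. All pair sums are `lo + hi`. -/
theorem sweep_even (l x p : ι → Bool) (pp : ι → π) (W : ι → ℤ) (X : ℕ → ℤ) (E : Finset ι)
    (Pi : Finset π) (lo hi : ℤ) (a b : ℕ) (Z R : Finset ℤ)
    (H : SweepHyp l x p pp W X E Pi lo hi a b Z R) (hev : Even (nS l p E))
    (htok : R.card + nP p E ≤ Pi.card) :
    ∃ (lab : ι → ℤ) (xi : ι → ℕ) (u v : π → ℤ),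
      Placed l x p pp E Pi lo hi a b lab xi u v ∧
      (∀ t ∈ Pi, u t + v t = lo + hi) ∧
      (∀ e ∈ E, ∀ f ∈ E, val l x W X lab xi e = val l x W X lab xi f → e = f) ∧
      (∀ e ∈ E, val l x W X lab xi e ∉ Z ∧ val l x W X lab xi e ∉ R) := by
  -- shift the indices by one
  let X' : ℕ → ℤ := fun n => if n = 0 then X 0 - 1 else X (n - 1)
  have hX'1 : ∀ n, X' (n + 1) = X n := fun n => by
    show (if n + 1 = 0 then X 0 - 1 else X (n + 1 - 1)) = X n
    rw [if_neg (by omega), Nat.add_sub_cancel]
  have hX'0 : X' 0 = X 0 - 1 := rfl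
  have hmono' : StrictMono X' := by
    apply strictMono_nat_of_lt_succ
    intro n
    rw [hX'1]
    cases n with
    | zero => rw [hX'0]; omega
    | succ m =>
      rw [hX'1]
      exact H.mono (Nat.lt_succ_self m)
  have H' : SweepHyp l x p pp W X' E Pi lo hi (a + 1) (b + 1) Z R :=
    { lx := H.lx
      pl := H.pl
      ppm := H.ppm
      ppi := H.ppi
      cnt := H.cnt
      xcnt := by have := H.xcnt; omega
      mono := hmono'
      disj := H.disj
      h1 := fun e he h1 h2 z hz => by
        rw [hX'1]
        exact H.h1 e he h1 h2 z hz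
      h2 := fun f hf h1 h2 s hs i hi hi' => by
        obtain ⟨j, rfl⟩ : ∃ j, i = j + 1 := ⟨i - 1, by omega⟩
        rw [hX'1]
        exact H.h2 f hf h1 h2 s hs j (by omega) (by omega)
      h3 := fun f hf h1 h2 e he h3 h4 => by
        rw [hX'1]
        exact H.h3 f hf h1 h2 e he h3 h4 }
  obtain ⟨⟨lab, xi, u, v, hs⟩, _⟩ := both (l := l) (x := x) (p := p) (pp := pp) (W := W)
    (X := X') _ E Pi lo hi (a + 1) (b + 1) Z R rfl (by omega) H' hev htok
  have hval : ∀ e ∈ E, val l x W X lab (fun e => xi e - 1) e = val l x W X' lab xi e := by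
    intro e he
    unfold val
    cases hx : x e
    · rfl
    · have := hs.placed.xi_mem e he hx
      have h2 : X' (xi e) = X (xi e - 1) := by
        show (if xi e = 0 then X 0 - 1 else X (xi e - 1)) = _
        rw [if_neg (by omega)]
      rw [h2]
  refine ⟨lab, fun e => xi e - 1, u, v, ?_, hs.sum, ?_, ?_⟩
  · exact
      { lab_mem := hs.placed.lab_mem
        xi_mem := fun e he h => by
          have := hs.placed.xi_mem e he h
          show a ≤ xi e - 1 ∧ xi e - 1 ≤ b
          omega
        xi_inj := fun e he f hf h1 h2 h => by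
          have h3 := hs.placed.xi_mem e he h1
          have h4 := hs.placed.xi_mem f hf h2
          have h5 : xi e - 1 = xi f - 1 := h
          exact hs.placed.xi_inj e he f hf h1 h2 (by omega)
        u_mem := hs.placed.u_mem
        v_mem := hs.placed.v_mem
        pair := hs.placed.pair
        single_inj := hs.placed.single_inj
        single_u := hs.placed.single_u
        single_v := hs.placed.single_v
        u_inj := hs.placed.u_inj
        v_inj := hs.placed.v_inj
        u_v := hs.placed.u_v }
  · intro e he f hf h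
    rw [hval e he, hval f hf] at h
    exact hs.inj e he f hf h
  · intro e he
    rw [hval e he]
    exact hs.nmem e he

end Pool.Agent.Lob5
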