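import Pool.Agent.Lob5.WEval
import Pool.Agent.Lob5.Cnt

/-!
# Verification: lower bounds for `κ`

`F := mkFill D N Y c k la ba par`; `κ(a) = kap F.l F.x (F.W ..) (F.X 1) F.E (inl a)` is the number of elements
`f ≠ inl a` with `F.l f` and `F.W (inl a) < F.W f + [x f] X 1`. For `a` with `(D.rv a).isA`:
`F.W (inl a) = Y.bs a` (`W0_v`, `W00_base`).
Elements which are always counted: (1) bushes of roles `st`, `sp` (`W ≥ (w+N0+Q+1)+(w+1)`, resp.
`≥ w+N0+Q+1+Kc`, `Kc ≥ 2w+N0`; they have `l` and `x` flags, are not in `Low`; `X 1 ≥ P+1` (`X_lo`),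
`Y.bs a ≤ 2w+N0+max(P-1, Q)` by `bupb, bupg`).
(2) if `2 ≤ P`: candidates `n ∉ Low` (`LowSel.heavy`; `F.W n = cW n`: for a vertex `i ≠ om` of role `II`, `I`
by `W0_v`, for a `self` bush by `W0_b` and `Kc_eq`; both have `l` and `x` flags).
(3) if `N.kb a`: vertices `i ≠ om` of role `II` or `I` which are not in `Low` (`shx`, `W00_ge`).
* `kap_cand`: there are `nb self + (nv II + nv I - [om has role II]) - sgc` candidates, `j` of them are in
  `Low`; `Ux = nT + nb self + nb tl + nv II + nv I`, `c0 = nb tl + [om has role II]`. (`om` never has role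
  `I`: there is no bush at `k - 1`.)
* `kap_crit`: `κ = 0`: by (1) no bushes `st`, `sp`; by (2) all `self` bushes are in `Low`; by (3) all vertices
  `II`, `I` except `om` are in `Low`. `e = 0`: no leaf of role `s`, `s0` (`e_eq`), so no bush `tl`, and `pk = 0`, so
  `om` is not `II` (`om_pk`). So `Low` consists of all `self` bushes and all `II`, `I` vertices, which gives
  the equation. `Low` is not empty since `D.NP k`: `F`/`I`: `self` bush (`sf_ex`); `II`; `Fs`: a bush `tl`
  (`Fs_ex, b_Fs`), impossible; `FR` and bushes with `T` top which are not designated are excluded.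
-/

set_option linter.unusedSectionVars false

namespace Pool.Agent.Lob5

open Pool.Agent.Lob89

variable {Lf B BL : Type*} [Fintype Lf] [Fintype B] [Fintype BL] [DecidableEq B]
  {D : PlanData Lf B BL} {N : Nm} {Y : Ly} {c : Cfg Lf B BL} {k : ℕ}
  {la : Lf → ℕ} {ba : B → ℕ} {par : BL → B}

/-- the nodes which are counted -/
private def Ct (D : PlanData Lf B BL) (N : Nm) (Y : Ly) (c : Cfg Lf B BL) (k : ℕ)
    (la : Lf → ℕ) (ba : B → ℕ) (par : BL → B) (a : ℕ) (f : ℕ ⊕ B) : Prop :=
  f ∈ (mkFill D N Y c k la ba par).E ∧ f ≠ Sum.inl a ∧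
    (mkFill D N Y c k la ba par).l f = true ∧
    (mkFill D N Y c k la ba par).W k la ba par (Sum.inl a) <
      (mkFill D N Y c k la ba par).W k la ba par f +
        bz ((mkFill D N Y c k la ba par).x f) ((mkFill D N Y c k la ba par).X 1)

private theorem kap_ge {a : ℕ} (T : Finset (ℕ ⊕ B)) (hT : ∀ n ∈ T, Ct D N Y c k la ba par a n) :
    T.card ≤ kap (mkFill D N Y c k la ba par).l (mkFill D N Y c k la ba par).x
      ((mkFill D N Y c k la ba par).W k la ba par) ((mkFill D N Y c k la ba par).X 1)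
      (mkFill D N Y c k la ba par).E (Sum.inl a) := by
  unfold kap
  apply Finset.card_le_card
  intro n hn
  obtain ⟨h1, h2, h3, h4⟩ := hT n hn
  rw [Finset.mem_filter]
  exact ⟨h1, h2, h3, h4⟩

private theorem isA_cases {r : RV} (h : r.isA = true) : r = .A ∨ r = .F := by
  cases r <;> simp [RV.isA] at h ⊢

private theorem W_isA' (h : CfgOK D N Y c k la ba par) {a : ℕ} (h1 : 1 ≤ a) (h2 : a < k)
    (hA : (D.rv a).isA = true) :
    (mkFill D N Y c k la ba par).W k la ba par (Sum.inl a) = (Y.bs a : ℤ) := by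
  have hAF := isA_cases hA
  have hW : (mkFill D N Y c k la ba par).W k la ba par (Sum.inl a) =
      ((mkFill D N Y c k la ba par).W0 k la ba par (Sum.inl a) : ℤ) := add_zero _
  have hlow : Sum.inl a ∉ c.Low := by
    intro hm
    have h3 := (h.hL.cand _ hm).2.2.1
    rcases hAF with h4 | h4 <;> rcases h3 with h3 | h3 <;> rw [h4] at h3 <;> cases h3
  have hb := W00_base (N := N) (Y := Y) (c := c) h.hD h1 h2
    (by rcases hAF with h3 | h3 <;> simp [h3])
  rw [hW, W0_v h h1 h2, hb, if_neg hlow, if_neg, if_neg]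
  · rfl
  · rintro ⟨h3, -⟩
    rcases hAF with h4 | h4 <;> rw [h4] at h3 <;> cases h3
  · rintro (⟨h3, -⟩ | h3) <;> rcases hAF with h4 | h4 <;> rw [h4] at h3 <;> cases h3

private theorem ct_v (h : CfgOK D N Y c k la ba par) {a : ℕ} (h1 : 1 ≤ a) (h2 : a < k)
    (hA : (D.rv a).isA = true) {i : ℕ} (hi1 : 1 ≤ i) (hi2 : i < k)
    (hr : D.rv i = .II ∨ D.rv i = .I) (hom : i ≠ N.om) (hl : Sum.inl i ∉ c.Low)
    (hlt : Y.bs a < W00 D N Y c la ba par (Sum.inl i) + Y.X 1) :
    Ct D N Y c k la ba par a (Sum.inl i) := by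
  have hhasl : (D.rv i).hasl = true := by
    rcases hr with hr | hr <;> rw [hr] <;> rfl
  refine ⟨?_, ?_, hhasl, ?_⟩
  · show Sum.inl i ∈ (((Finset.range k).filter fun i => 1 ≤ i ∧ (D.rv i).hasl = true).disjSum
      (Finset.univ.filter fun b => D.rb b ≠ .L))
    rw [Finset.inl_mem_disjSum, Finset.mem_filter, Finset.mem_range]
    exact ⟨hi2, hi1, hhasl⟩
  · intro he
    have he' : i = a := Sum.inl.inj he
    rw [he'] at hr
    rcases isA_cases hA with h4 | h4 <;> rcases hr with hr | hr <;> rw [h4] at hr <;> cases hr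
  · rw [W_isA' h h1 h2 hA]
    have hx : (mkFill D N Y c k la ba par).x (Sum.inl i) = true := by
      show (decide ((D.rv i = .II ∨ D.rv i = .I) ∧ Sum.inl i ∉ c.Low) &&
        ! (decide (i = N.om) && Y.xf i)) = true
      rw [decide_eq_true ⟨hr, hl⟩, decide_eq_false hom]
      rfl
    have hW : (mkFill D N Y c k la ba par).W k la ba par (Sum.inl i) =
        ((mkFill D N Y c k la ba par).W0 k la ba par (Sum.inl i) : ℤ) := add_zero _
    have hX : (mkFill D N Y c k la ba par).X 1 = Y.X 1 := rfl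
    rw [hx, hW, hX, W0_v h hi1 hi2]
    unfold bz
    rw [if_pos rfl]
    push_cast
    have hlt' : (Y.bs a : ℤ) < W00 D N Y c la ba par (Sum.inl i) + Y.X 1 := by
      exact_mod_cast hlt
    have hn : ∀ (p : Prop) [Decidable p] (m : ℤ), 0 ≤ m → 0 ≤ if p then m else 0 := by
      intro p _ m hm
      split_ifs
      · exact hm
      · exact le_rfl
    have n1 := hn ((D.rv i = .As ∧ Y.lg i = false) ∨ D.rv i = .Fs) (Y.yv i) (Int.natCast_nonneg _)
    have n2 := hn (Sum.inl i ∈ c.Low) ((N.s1 : ℤ) + N.n2 + c.lw (Sum.inl i)) (by positivity)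
    have n3 := hn (D.rv i = .II ∧ i = N.om ∧ Y.xf i = true) (Y.xv i) (Int.natCast_nonneg _)
    linarith

private theorem ct_b (h : CfgOK D N Y c k la ba par) {a : ℕ} (h1 : 1 ≤ a) (h2 : a < k)
    (hA : (D.rv a).isA = true) {b : B}
    (hr : D.rb b = .st ∨ D.rb b = .self ∨ D.rb b = .sp) (hl : Sum.inr b ∉ c.Low)
    (hlt : Y.bs a < W00 D N Y c la ba par (Sum.inr b) +
      (if (D.rb b).pr = true then Kc D N k else 0) + Y.X 1) :
    Ct D N Y c k la ba par a (Sum.inr b) := by
  have hhasl : (D.rb b).hasl = true := by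
    rcases hr with hr | hr | hr <;> rw [hr] <;> rfl
  have hL : D.rb b ≠ .L := by
    rcases hr with hr | hr | hr <;> rw [hr] <;> simp
  have htl : D.rb b ≠ .tl := by
    rcases hr with hr | hr | hr <;> rw [hr] <;> simp
  refine ⟨?_, by simp, hhasl, ?_⟩
  · show Sum.inr b ∈ (((Finset.range k).filter fun i => 1 ≤ i ∧ (D.rv i).hasl = true).disjSum
      (Finset.univ.filter fun b => D.rb b ≠ .L))
    rw [Finset.inr_mem_disjSum, Finset.mem_filter]
    exact ⟨Finset.mem_univ _, hL⟩
  · rw [W_isA' h h1 h2 hA]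
    have hx : (mkFill D N Y c k la ba par).x (Sum.inr b) = true := by
      show (decide (D.rb b ≠ .L ∧ Sum.inr b ∉ c.Low) &&
        ! (decide (D.rb b = .tl) && Y.xf (ba b))) = true
      rw [decide_eq_true ⟨hL, hl⟩, decide_eq_false htl]
      rfl
    have hW : (mkFill D N Y c k la ba par).W k la ba par (Sum.inr b) =
        ((mkFill D N Y c k la ba par).W0 k la ba par (Sum.inr b) : ℤ) +
          if (D.rb b).pr = true then (Kc D N k : ℤ) else 0 := by
      rw [← Kc_eq (Y := Y) (c := c) h.hD h.hN]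
      rfl
    have hX : (mkFill D N Y c k la ba par).X 1 = Y.X 1 := rfl
    rw [hx, hW, hX, W0_b h]
    unfold bz
    rw [if_pos rfl, if_neg htl, if_neg hl]
    have hlt' : (Y.bs a : ℤ) < W00 D N Y c la ba par (Sum.inr b) +
        (if (D.rb b).pr = true then (Kc D N k : ℤ) else 0) + Y.X 1 := by
      exact_mod_cast hlt
    have n1 : (0 : ℤ) ≤ D.cb par b .x0 * c.ξ b := by positivity
    push_cast
    linarith

/-- candidates which are not low are counted -/
private theorem ct_cand (h : CfgOK D N Y c k la ba par) (hP : 2 ≤ N.P) {a : ℕ} (h1 : 1 ≤ a)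
    (h2 : a < k) (hA : (D.rv a).isA = true) {n : ℕ ⊕ B} (hn : D.cand N k n) (hl : n ∉ c.Low) :
    Ct D N Y c k la ba par a n := by
  have h3 := h.hL.heavy hP n hn hl a h1 h2 hA
  rcases n with i | b
  · obtain ⟨i1, i2, i3, i4, -⟩ := hn
    refine ct_v h h1 h2 hA i1 i2 i3 i4 hl ?_
    have h4 : cW D N Y c k la ba par (Sum.inl i) = W00 D N Y c la ba par (Sum.inl i) + 0 := rfl
    omega
  · have hb : D.rb b = .self := hn
    refine ct_b h h1 h2 hA (Or.inr (Or.inl hb)) hl ?_
    have h4 : cW D N Y c k la ba par (Sum.inr b) =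
      W00 D N Y c la ba par (Sum.inr b) + Kc D N k := rfl
    have h5 : (D.rb b).pr = true := by
      rw [hb]
      rfl
    rw [if_pos h5]
    omega

open Classical in
/-- the vertices of role `II` or `I`, except `om`, with a property -/
private noncomputable def vs (D : PlanData Lf B BL) (N : Nm) (k : ℕ) (P : ℕ → Prop) : Finset ℕ :=
  (Finset.range k).filter fun i => 1 ≤ i ∧ (D.rv i = .II ∨ D.rv i = .I) ∧ i ≠ N.om ∧ P i

private theorem mem_vs {P : ℕ → Prop} {i : ℕ} : i ∈ vs D N k P ↔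
    i < k ∧ 1 ≤ i ∧ (D.rv i = .II ∨ D.rv i = .I) ∧ i ≠ N.om ∧ P i := by
  classical
  unfold vs
  rw [Finset.mem_filter, Finset.mem_range]

private theorem selfs_card (D : PlanData Lf B BL) :
    (Finset.univ.filter fun b => D.rb b = .self).card = D.nb .self := rfl

/-- the number of `II`- and `I`-vertices -/
private theorem nv_sum (D : PlanData Lf B BL) (k : ℕ) : D.nv k .II + D.nv k .I =
    ((Finset.range k).filter fun i => 1 ≤ i ∧ (D.rv i = .II ∨ D.rv i = .I)).card := by
  unfold PlanData.nv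
  rw [Finset.card_filter, Finset.card_filter, Finset.card_filter, ← Finset.sum_add_distrib]
  refine Finset.sum_congr rfl fun i _ => ?_
  by_cases h : 1 ≤ i <;> cases hr : D.rv i <;> simp [h]

private theorem om_notI (h : CfgOK D N Y c k la ba par) {i : ℕ} (h1 : 1 ≤ i) (h2 : i < k)
    (hi : i = N.om) : D.rv i ≠ .I := by
  intro h3
  obtain ⟨b, hb⟩ := h.hD.sf_ex i h1 h2 (Or.inr h3)
  have h5 := h.hD.sf_ba i b hb
  exact h.hD.hd.ne_om h.hN.om_eq b (h5.trans hi)

/-- the vertex `om` is counted by `c0` -/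
private theorem nv_le (h : CfgOK D N Y c k la ba par) : D.nv k .II + D.nv k .I ≤
    (vs D N k fun _ => True).card + (if N.om ≠ 0 ∧ D.rv N.om = .II then 1 else 0) := by
  rw [nv_sum]
  by_cases ho : N.om ≠ 0 ∧ D.rv N.om = .II
  · rw [if_pos ho, ← Finset.card_singleton N.om]
    refine le_trans (Finset.card_le_card ?_) (Finset.card_union_le _ _)
    intro i hi
    rw [Finset.mem_filter, Finset.mem_range] at hi
    rw [Finset.mem_union, Finset.mem_singleton, mem_vs]
    by_cases h1 : i = N.om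
    · exact Or.inr h1
    · exact Or.inl ⟨hi.1, hi.2.1, hi.2.2, h1, trivial⟩
  · rw [if_neg ho, Nat.add_zero]
    apply Finset.card_le_card
    intro i hi
    rw [Finset.mem_filter, Finset.mem_range] at hi
    rw [mem_vs]
    refine ⟨hi.1, hi.2.1, hi.2.2, ?_, trivial⟩
    intro h1
    have h3 := om_notI h hi.2.1 hi.1 h1
    rcases hi.2.2 with h4 | h4
    · apply ho
      rw [← h1]
      exact ⟨by omega, h4⟩
    · exact h3 h4

private theorem vs_split (D : PlanData Lf B BL) (N : Nm) (k : ℕ) :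
    (vs D N k fun _ => True).card ≤ (vs D N k fun i => N.cd i).card + N.sgc D.rv k := by
  classical
  have h1 : N.sgc D.rv k = (vs D N k fun i => ¬ N.cd i).card := by
    unfold Nm.sgc vs
    congr!
  rw [h1]
  refine le_trans (Finset.card_le_card ?_) (Finset.card_union_le _ _)
  intro i hi
  rw [mem_vs] at hi
  rw [Finset.mem_union, mem_vs, mem_vs]
  by_cases h2 : N.cd i
  · exact Or.inl ⟨hi.1, hi.2.1, hi.2.2.1, hi.2.2.2.1, h2⟩
  · exact Or.inr ⟨hi.1, hi.2.1, hi.2.2.1, hi.2.2.2.1, h2⟩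

theorem kap_cand (h : CfgOK D N Y c k la ba par) (hP : 2 ≤ N.P) {a : ℕ} (h1 : 1 ≤ a) (h2 : a < k)
    (hA : (D.rv a).isA = true) :
    N.Ux ≤ kap (mkFill D N Y c k la ba par).l (mkFill D N Y c k la ba par).x
      ((mkFill D N Y c k la ba par).W k la ba par) ((mkFill D N Y c k la ba par).X 1)
      (mkFill D N Y c k la ba par).E (Sum.inl a) + N.sgc D.rv k + Y.j + N.c0 + N.nT := by
  classical
  set Cd : Finset (ℕ ⊕ B) := (vs D N k fun i => N.cd i).disjSum
    (Finset.univ.filter fun b => D.rb b = .self) with hCd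
  have hmem : ∀ n, n ∈ Cd ↔ D.cand N k n := by
    rintro (i | b)
    · rw [hCd, Finset.inl_mem_disjSum, mem_vs]
      show _ ↔ 1 ≤ i ∧ i < k ∧ (D.rv i = .II ∨ D.rv i = .I) ∧ i ≠ N.om ∧ N.cd i
      tauto
    · rw [hCd, Finset.inr_mem_disjSum, Finset.mem_filter]
      show _ ↔ D.rb b = .self
      simp
  have hsub : c.Low ⊆ Cd := fun n hn => (hmem n).2 (h.hL.cand n hn)
  have hk := kap_ge (D := D) (N := N) (Y := Y) (c := c) (k := k) (la := la) (ba := ba)
    (par := par) (a := a) (Cd \ c.Low) (fun n hn => by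
      rw [Finset.mem_sdiff] at hn
      exact ct_cand h hP h1 h2 hA ((hmem n).1 hn.1) hn.2)
  rw [Finset.card_sdiff_of_subset hsub, h.hL.card] at hk
  have hc : Cd.card = (vs D N k fun i => N.cd i).card + D.nb .self := by
    rw [hCd, Finset.card_disjSum, selfs_card]
  have e1 := h.hN.Ux_eq
  have e2 := h.hN.nT_eq
  have e3 := h.hN.c0_eq
  have e4 := nv_le h
  have e5 := vs_split D N k
  omega

theorem kap_crit (h : CfgOK D N Y c k la ba par) {a : ℕ} (h1 : 1 ≤ a) (h2 : a < k)
    (hA : (D.rv a).isA = true) (hb : N.kb a) (hP : 2 ≤ N.P) (he : N.e = 0)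
    (hFR : ∀ i, 1 ≤ i → i < k → D.rv i ≠ .FR)
    (hds : ∀ b, (D.rb b).top = true → D.ds b = true)
    (hκ : kap (mkFill D N Y c k la ba par).l (mkFill D N Y c k la ba par).x
      ((mkFill D N Y c k la ba par).W k la ba par) ((mkFill D N Y c k la ba par).X 1)
      (mkFill D N Y c k la ba par).E (Sum.inl a) = 0) :
    1 ≤ Y.j ∧ N.Ux = N.nT + N.c0 + Y.j := by
  classical
  have hno : ∀ n, ¬ Ct D N Y c k la ba par a n := by
    intro n hn
    have h3 := kap_ge (D := D) (N := N) (Y := Y) (c := c) (k := k) (la := la) (ba := ba)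
      (par := par) (a := a) {n} (fun m hm => by
        rw [Finset.mem_singleton] at hm
        rw [hm]
        exact hn)
    rw [hκ, Finset.card_singleton] at h3
    omega
  have hbup := h.hY.bupb a h1 h2 hA hb
  have hX1 := h.hY.X_lo
  have hlowb : ∀ b, Sum.inr b ∈ c.Low → D.rb b = .self := fun b hb' => h.hL.cand _ hb'
  -- no bushes `st`, `sp`
  have hsp : ∀ b, D.rb b ≠ .sp := by
    intro b hr
    apply hno (Sum.inr b)
    refine ct_b h h1 h2 hA (Or.inr (Or.inr hr)) (fun hl => ?_) ?_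
    · rw [hlowb b hl] at hr
      cases hr
    · have ht : (D.rb b).top = true := by
        rw [hr]
        rfl
      have hpr : (D.rb b).pr = true := by
        rw [hr]
        rfl
      have h3 := W00_b_top (D := D) (N := N) (Y := Y) (c := c) (la := la) (ba := ba)
        (par := par) ht
      have h4 : Kc D N k = (N.w + N.eb + 1) + (N.w + N.N0 - N.et) + D.nSg k % 2 := rfl
      rw [if_pos hpr]
      omega
  -- the `self` bushes are low
  have hself : ∀ b, D.rb b = .self → Sum.inr b ∈ c.Low := by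
    intro b hr
    by_contra hl
    exact hno _ (ct_cand h hP h1 h2 hA (n := Sum.inr b) hr hl)
  -- the vertices `II`, `I` are low
  have hv : ∀ i, 1 ≤ i → i < k → (D.rv i = .II ∨ D.rv i = .I) → i ≠ N.om →
      Sum.inl i ∈ c.Low := by
    intro i i1 i2 i3 i4
    by_contra hl
    apply hno (Sum.inl i)
    refine ct_v h h1 h2 hA i1 i2 i3 i4 hl ?_
    have h3 := h.hY.shx a i h1 h2 i1 i2 hA hb i4 (by
      rcases i3 with i3 | i3 <;> rw [i3] <;> rfl)
    have h4 := W00_ge (D := D) (N := N) (Y := Y) (c := c) (la := la) (ba := ba)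
      (par := par) i
    omega
  -- `e = 0`
  have hns : D.ns = 0 ∧ N.pk = 0 := by
    have h3 := h.hN.e_eq
    rw [he] at h3
    by_cases h4 : N.pk = 0
    · rw [if_pos h4] at h3
      exact ⟨by omega, h4⟩
    · rw [if_neg h4] at h3
      omega
  have hnt := ns_ge h.hD
  have hom : ¬ (N.om ≠ 0 ∧ D.rv N.om = .II) := fun h3 => h.hN.om_pk h3.1 h3.2 hns.2
  -- the low nodes
  have hLow : c.Low = (vs D N k fun _ => True).disjSum
      (Finset.univ.filter fun b => D.rb b = .self) := by
    ext n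
    rcases n with i | b
    · rw [Finset.inl_mem_disjSum, mem_vs]
      constructor
      · intro hl
        obtain ⟨i1, i2, i3, i4, -⟩ := h.hL.cand _ hl
        exact ⟨i2, i1, i3, i4, trivial⟩
      · rintro ⟨i2, i1, i3, i4, -⟩
        exact hv i i1 i2 i3 i4
    · rw [Finset.inr_mem_disjSum, Finset.mem_filter]
      exact ⟨fun hl => ⟨Finset.mem_univ _, hlowb b hl⟩, fun hl => hself b hl.2⟩
  have hj : Y.j = (vs D N k fun _ => True).card + D.nb .self := by
    rw [← h.hL.card, hLow, Finset.card_disjSum, selfs_card]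
  have hnv : (vs D N k fun _ => True).card ≤ D.nv k .II + D.nv k .I := by
    rw [nv_sum]
    apply Finset.card_le_card
    intro i hi
    rw [mem_vs] at hi
    rw [Finset.mem_filter, Finset.mem_range]
    exact ⟨hi.1, hi.2.1, hi.2.2.1⟩
  have e1 := h.hN.Ux_eq
  have e2 := h.hN.nT_eq
  have e3 := h.hN.c0_eq
  have e4 := nv_le h
  rw [if_neg hom] at e3 e4
  refine ⟨?_, by omega⟩
  -- there is a low node
  have hpos : ∀ n, n ∈ c.Low → 1 ≤ Y.j := by
    intro n hn
    rw [← h.hL.card]
    exact Finset.card_pos.2 ⟨n, hn⟩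
  rcases h.hNP with ⟨i, i1, i2, i3⟩ | ⟨x, hx⟩ | ⟨b, hb1, hb2⟩
  · have hsf : D.rv i = .F ∨ D.rv i = .I → 1 ≤ Y.j := by
      intro h3
      obtain ⟨b, hb'⟩ := h.hD.sf_ex i i1 i2 h3
      have h4 := h.hD.sf_ba i b hb'
      apply hpos (Sum.inr b)
      apply hself
      rw [h.hD.self_sf, h4, hb']
    rcases i3 with i3 | i3 | i3 | i3 | i3
    · exact hsf (Or.inl i3)
    · exfalso
      obtain ⟨b, hb'⟩ := h.hD.Fs_ex i i1 i2 i3
      have h4 : D.rb b = .tl := by
        rw [h.hD.b_Fs, hb']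
        exact i3
      have h5 : 0 < D.nb .tl :=
        Finset.card_pos.2 ⟨b, Finset.mem_filter.2 ⟨Finset.mem_univ _, h4⟩⟩
      omega
    · exact absurd i3 (hFR i i1 i2)
    · by_cases h3 : i = N.om
      · exfalso
        apply hom
        rw [← h3]
        exact ⟨by omega, i3⟩
      · exact hpos _ (hv i i1 i2 (Or.inl i3) h3)
    · exact hsf (Or.inr i3)
  · exfalso
    have h3 : 0 < (Finset.univ.filter fun x => D.rl x = .s).card :=
      Finset.card_pos.2 ⟨x, Finset.mem_filter.2 ⟨Finset.mem_univ _, hx⟩⟩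
    have h4 := hns.1
    unfold PlanData.ns at h4
    omega
  · rw [hds b hb1] at hb2
    cases hb2

end Pool.Agent.Lob5
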