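import Pool.Agent.Lob5.Cfg

/-!
# Verification: slots

Proof. Unfold `mkFill`. Every field follows from `PlanOK` by comparing the kinds with the roles.
* `v_l`: leaves of kind `l` have role `l` (`l_l`: one for `A`, `II`), tops of kind `lu` are the `self`
  bushes (one at `F`- and `I`-vertices by `self_sf, sf_ba, sf_ex, sf_rv`); `RV.hasl`.
* `v_x`: leaves of role `x` (`l_x`: one for `II`, `I`) unless `inl i ∈ Low` or `i = om ∧ Y.xf i`.
* `v_g`: leaves of role `y` (`l_y`: one for `As`) if `Y.lg i`.
* `b_l`: `s_l`; `b_x`: `s_x`, kind `x` unless the bush is `L`, in `Low`, or `tl` with `xf`; `b_g`: `s_x` for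
  bushes of role `L`; `b_u`: `s_u` (and `KT.fix` means not `self`); `b_v`: `s_v`.
* `pf_v`: `sf_ex, sf_rv, self_sf, sf_ba`. `E_v`: `x` flag implies role `II` or `I`, which have `hasl`.
  `E_b`: every bush which is not `L` has `l` or `x` flag: `st, self, sp, tl` have `hasl`; an `xo` bush is not
  in `Low` (elements of `Low` which are bushes have role `self`), so it has the `x` flag; `L` has none.
* `G_v`: role `As` has not `hasl`. `G_b`, `EG_b`, `pr_E`: `L` or not `L`.
-/

namespace Pool.Agent.Lob5

open Pool.Agent.Lob89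

variable {Lf B BL : Type*} [Fintype Lf] [Fintype B] [Fintype BL] [DecidableEq B]
  {D : PlanData Lf B BL} {N : Nm} {Y : Ly} {c : Cfg Lf B BL} {k : ℕ}
  {la : Lf → ℕ} {ba : B → ℕ} {par : BL → B}

private lemma kl_l (x : Lf) : (mkFill D N Y c k la ba par).kl x = KL.l ↔ D.rl x = .l := by
  unfold mkFill
  dsimp only
  cases h : D.rl x <;> simp
  · split_ifs <;> simp
  · split_ifs <;> simp

private lemma kl_x (x : Lf) : (mkFill D N Y c k la ba par).kl x = KL.x ↔
    D.rl x = .x ∧ ¬ (Sum.inl (la x) ∈ c.Low ∨ (la x = N.om ∧ Y.xf (la x) = true)) := by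
  unfold mkFill
  dsimp only
  cases h : D.rl x <;> simp only [reduceCtorEq, false_and, true_and]
  · split_ifs with h1
    · simp [h1]
    · simp [h1]
  · split_ifs <;> simp

private lemma kl_g (x : Lf) : (mkFill D N Y c k la ba par).kl x = KL.g ↔
    D.rl x = .y ∧ Y.lg (la x) = true := by
  unfold mkFill
  dsimp only
  cases h : D.rl x <;> simp only [reduceCtorEq, false_and, true_and]
  · split_ifs <;> simp
  · split_ifs with h1
    · simp [h1]
    · simp [h1]

private lemma kt_lu (b : B) : (mkFill D N Y c k la ba par).kt b = KT.lu ↔ D.rb b = .self := by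
  unfold mkFill
  dsimp only
  split_ifs with h1
  · simp [h1]
  · simp [h1]

private lemma kt_fix (b : B) : (mkFill D N Y c k la ba par).kt b = KT.fix ↔ D.rb b ≠ .self := by
  unfold mkFill
  dsimp only
  split_ifs with h1
  · simp [h1]
  · simp [h1]

private lemma kb_l (y : BL) : (mkFill D N Y c k la ba par).kb y = KB.l ↔ D.rs y = .l := by
  unfold mkFill
  dsimp only
  cases h : D.rs y <;> simp
  split_ifs <;> simp

private lemma kb_u (y : BL) : (mkFill D N Y c k la ba par).kb y = KB.u ↔ D.rs y = .u := by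
  unfold mkFill
  dsimp only
  cases h : D.rs y <;> simp
  split_ifs <;> simp

private lemma kb_v (y : BL) : (mkFill D N Y c k la ba par).kb y = KB.v ↔ D.rs y = .v := by
  unfold mkFill
  dsimp only
  cases h : D.rs y <;> simp
  split_ifs <;> simp

private lemma kb_x (y : BL) : (mkFill D N Y c k la ba par).kb y = KB.x ↔
    D.rs y = .x ∧ (D.rb (par y) ≠ .L ∧ ¬ (Sum.inr (par y) ∈ c.Low ∨
      (D.rb (par y) = .tl ∧ Y.xf (ba (par y)) = true))) := by
  unfold mkFill
  dsimp only
  cases h : D.rs y <;> simp only [reduceCtorEq, false_and, true_and]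
  split_ifs with h1 h2
  · simp [h1]
  · simp [h1, h2]
  · simp [h1, h2]

private lemma kb_g (y : BL) : (mkFill D N Y c k la ba par).kb y = KB.g ↔
    D.rs y = .x ∧ D.rb (par y) = .L := by
  unfold mkFill
  dsimp only
  cases h : D.rs y <;> simp only [reduceCtorEq, false_and, true_and]
  split_ifs with h1 h2
  · simp [h1]
  · simp [h1]
  · simp [h1]

omit [Fintype B] [Fintype BL] [DecidableEq B] in
private lemma cl_cond (la : Lf → ℕ) (i : ℕ) (κ : SV) (P : ℕ → Prop) [DecidablePred P]
    (Q : Lf → Prop) [DecidablePred Q]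
    (hQ : ∀ x, Q x ↔ la x = i ∧ D.rl x = κ ∧ P (la x)) :
    (Finset.univ.filter Q).card = if P i then D.cl la i κ else 0 := by
  split_ifs with h
  · unfold PlanData.cl
    congr 1
    ext x
    simp only [Finset.mem_filter, Finset.mem_univ, true_and, hQ]
    constructor
    · rintro ⟨h1, h2, _⟩
      exact ⟨h1, h2⟩
    · rintro ⟨h1, h2⟩
      exact ⟨h1, h2, h1 ▸ h⟩
  · rw [Finset.card_eq_zero, Finset.filter_eq_empty_iff]
    intro x _ hx
    obtain ⟨h1, _, h3⟩ := (hQ x).1 hx
    exact h (h1 ▸ h3)

omit [Fintype Lf] [Fintype B] in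
private lemma cb_cond (par : BL → B) (b : B) (κ : SB) (P : B → Prop) [DecidablePred P]
    (Q : BL → Prop) [DecidablePred Q]
    (hQ : ∀ y, Q y ↔ par y = b ∧ D.rs y = κ ∧ P (par y)) :
    (Finset.univ.filter Q).card = if P b then D.cb par b κ else 0 := by
  split_ifs with h
  · unfold PlanData.cb
    congr 1
    ext x
    simp only [Finset.mem_filter, Finset.mem_univ, true_and, hQ]
    constructor
    · rintro ⟨h1, h2, _⟩
      exact ⟨h1, h2⟩
    · rintro ⟨h1, h2⟩
      exact ⟨h1, h2, h1 ▸ h⟩
  · rw [Finset.card_eq_zero, Finset.filter_eq_empty_iff]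
    intro x _ hx
    obtain ⟨h1, _, h3⟩ := (hQ x).1 hx
    exact h (h1 ▸ h3)

private lemma l_inl (i : ℕ) : (mkFill D N Y c k la ba par).l (Sum.inl i) = (D.rv i).hasl := rfl

private lemma l_inr (b : B) : (mkFill D N Y c k la ba par).l (Sum.inr b) = (D.rb b).hasl := rfl

private lemma x_inl (i : ℕ) : (mkFill D N Y c k la ba par).x (Sum.inl i) = true ↔
    ((D.rv i = .II ∨ D.rv i = .I) ∧ ¬ (Sum.inl i ∈ c.Low ∨ (i = N.om ∧ Y.xf i = true))) := by
  unfold mkFill
  dsimp only
  rw [Sum.elim_inl]
  simp only [Bool.and_eq_true, decide_eq_true_eq, Bool.not_eq_true', Bool.and_eq_false_iff,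
    decide_eq_false_iff_not]
  constructor
  · rintro ⟨⟨h1, h2⟩, h3⟩
    refine ⟨h1, ?_⟩
    rintro (h4 | ⟨h4, h5⟩)
    · exact h2 h4
    · rcases h3 with h3 | h3
      · exact h3 h4
      · rw [h5] at h3
        exact absurd h3 (by decide)
  · rintro ⟨h1, h2⟩
    rw [not_or] at h2
    refine ⟨⟨h1, h2.1⟩, ?_⟩
    by_cases h4 : i = N.om
    · right
      have := h2.2
      cases h5 : Y.xf i
      · rfl
      · exact absurd ⟨h4, h5⟩ this
    · left
      exact h4

private lemma x_inr (b : B) : (mkFill D N Y c k la ba par).x (Sum.inr b) = true ↔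
    (D.rb b ≠ .L ∧ ¬ (Sum.inr b ∈ c.Low ∨ (D.rb b = .tl ∧ Y.xf (ba b) = true))) := by
  unfold mkFill
  dsimp only
  rw [Sum.elim_inr]
  simp only [Bool.and_eq_true, decide_eq_true_eq, Bool.not_eq_true', Bool.and_eq_false_iff,
    decide_eq_false_iff_not]
  constructor
  · rintro ⟨⟨h1, h2⟩, h3⟩
    refine ⟨h1, ?_⟩
    rintro (h4 | ⟨h4, h5⟩)
    · exact h2 h4
    · rcases h3 with h3 | h3
      · exact h3 h4
      · rw [h5] at h3
        exact absurd h3 (by decide)
  · rintro ⟨h1, h2⟩
    rw [not_or] at h2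
    refine ⟨⟨h1, h2.1⟩, ?_⟩
    by_cases h4 : D.rb b = .tl
    · right
      have := h2.2
      cases h5 : Y.xf (ba b)
      · rfl
      · exact absurd ⟨h4, h5⟩ this
    · left
      exact h4

private lemma pf_inl (i : ℕ) : (mkFill D N Y c k la ba par).pf (Sum.inl i) = true ↔
    (D.rv i = .F ∨ D.rv i = .I) := by
  unfold mkFill
  dsimp only
  rw [Sum.elim_inl, decide_eq_true_eq]

private lemma E_inl (i : ℕ) : Sum.inl i ∈ (mkFill D N Y c k la ba par).E ↔
    i < k ∧ 1 ≤ i ∧ (D.rv i).hasl = true := by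
  unfold mkFill
  dsimp only
  rw [Finset.inl_mem_disjSum, Finset.mem_filter, Finset.mem_range]

private lemma E_inr (b : B) : Sum.inr b ∈ (mkFill D N Y c k la ba par).E ↔ D.rb b ≠ .L := by
  unfold mkFill
  dsimp only
  rw [Finset.inr_mem_disjSum, Finset.mem_filter]
  simp

private lemma G_inl (i : ℕ) : Sum.inl i ∈ (mkFill D N Y c k la ba par).G ↔
    i < k ∧ 1 ≤ i ∧ D.rv i = .As ∧ Y.lg i = true := by
  unfold mkFill
  dsimp only
  rw [Finset.inl_mem_disjSum, Finset.mem_filter, Finset.mem_range]

private lemma G_inr (b : B) : Sum.inr b ∈ (mkFill D N Y c k la ba par).G ↔ D.rb b = .L := by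
  unfold mkFill
  dsimp only
  rw [Finset.inr_mem_disjSum, Finset.mem_filter]
  simp

omit [Fintype Lf] [Fintype B] [Fintype BL] [DecidableEq B] in
private lemma hasl_iff (r : RV) : r.hasl = true ↔ r = .A ∨ r = .F ∨ r = .II ∨ r = .I := by
  cases r <;> simp [RV.hasl]

private lemma self_card (hD : PlanOK D k la ba par) (i : ℕ) (h1 : 1 ≤ i) (h2 : i < k) :
    (Finset.univ.filter fun b => ba b = i ∧ D.rb b = .self).card
      = if D.rv i = .F ∨ D.rv i = .I then 1 else 0 := by
  split_ifs with h
  · obtain ⟨b, hb⟩ := hD.sf_ex i h1 h2 h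
    have hba := hD.sf_ba i b hb
    rw [Finset.card_eq_one]
    refine ⟨b, ?_⟩
    ext b'
    simp only [Finset.mem_filter, Finset.mem_univ, true_and, Finset.mem_singleton]
    constructor
    · rintro ⟨h3, h4⟩
      have h5 := (hD.self_sf b').1 h4
      rw [h3, hb] at h5
      exact (Option.some.inj h5).symm
    · rintro rfl
      refine ⟨hba, (hD.self_sf b').2 ?_⟩
      rw [hba, hb]
  · rw [Finset.card_eq_zero, Finset.filter_eq_empty_iff]
    rintro b _ ⟨h3, h4⟩
    have h5 := hD.sf_rv b h4
    rw [h3] at h5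
    exact h h5

theorem v_slots (h : CfgOK D N Y c k la ba par) :
    FillSlots (mkFill D N Y c k la ba par) k la ba par := by
  have hD := h.hD
  constructor
  case v_l =>
    intro i h1 h2
    have e1 : (Finset.univ.filter fun x => la x = i ∧
        (mkFill D N Y c k la ba par).kl x = KL.l).card = D.cl la i .l := by
      unfold PlanData.cl
      congr 1
      ext x
      simp only [Finset.mem_filter, Finset.mem_univ, true_and, kl_l]
    have e2 : (Finset.univ.filter fun b => ba b = i ∧
        (mkFill D N Y c k la ba par).kt b = KT.lu).card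
        = (Finset.univ.filter fun b => ba b = i ∧ D.rb b = .self).card := by
      congr 1
      ext x
      simp only [Finset.mem_filter, Finset.mem_univ, true_and, kt_lu]
    rw [e1, e2, hD.l_l i h1 h2, self_card hD i h1 h2, l_inl]
    cases D.rv i <;> simp [RV.hasl]
  case v_x =>
    intro i h1 h2
    rw [cl_cond la i .x (fun i => ¬ (Sum.inl i ∈ c.Low ∨ (i = N.om ∧ Y.xf i = true)))
      (fun x => la x = i ∧ (mkFill D N Y c k la ba par).kl x = KL.x)
      (fun x => by rw [kl_x]), hD.l_x i h1 h2]
    have hx := x_inl (D := D) (N := N) (Y := Y) (c := c) (k := k) (la := la) (ba := ba)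
      (par := par) i
    by_cases h3 : (Sum.inl i ∈ c.Low ∨ (i = N.om ∧ Y.xf i = true))
    · rw [if_neg (not_not.2 h3), if_neg]
      rw [hx]
      exact fun h4 => h4.2 h3
    · rw [if_pos h3]
      by_cases h4 : D.rv i = .II ∨ D.rv i = .I
      · rw [if_pos h4, if_pos (hx.2 ⟨h4, h3⟩)]
      · rw [if_neg h4, if_neg]
        rw [hx]
        exact fun h5 => h4 h5.1
  case v_g =>
    intro i h1 h2
    rw [cl_cond la i .y (fun i => Y.lg i = true)
      (fun x => la x = i ∧ (mkFill D N Y c k la ba par).kl x = KL.g)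
      (fun x => by rw [kl_g]), hD.l_y i h1 h2]
    by_cases h3 : Y.lg i = true
    · rw [if_pos h3]
      by_cases h4 : D.rv i = .As
      · rw [if_pos h4, if_pos]
        rw [G_inl]
        exact ⟨h2, h1, h4, h3⟩
      · rw [if_neg h4, if_neg]
        rw [G_inl]
        exact fun h5 => h4 h5.2.2.1
    · rw [if_neg h3, if_neg]
      rw [G_inl]
      exact fun h5 => h3 h5.2.2.2
  case b_l =>
    intro b
    have e1 : (Finset.univ.filter fun y => par y = b ∧
        (mkFill D N Y c k la ba par).kb y = KB.l).card = D.cb par b .l := by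
      unfold PlanData.cb
      congr 1
      ext x
      simp only [Finset.mem_filter, Finset.mem_univ, true_and, kb_l]
    rw [e1, hD.s_l b, l_inr]
  case b_x =>
    intro b
    rw [cb_cond par b .x (fun b => D.rb b ≠ .L ∧ ¬ (Sum.inr b ∈ c.Low ∨
      (D.rb b = .tl ∧ Y.xf (ba b) = true)))
      (fun y => par y = b ∧ (mkFill D N Y c k la ba par).kb y = KB.x)
      (fun y => by rw [kb_x]), hD.s_x b]
    have hx := x_inr (D := D) (N := N) (Y := Y) (c := c) (k := k) (la := la) (ba := ba)
      (par := par) b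
    by_cases h3 : D.rb b ≠ .L ∧ ¬ (Sum.inr b ∈ c.Low ∨ (D.rb b = .tl ∧ Y.xf (ba b) = true))
    · rw [if_pos h3, if_pos (hx.2 h3)]
    · rw [if_neg h3, if_neg]
      rw [hx]
      exact h3
  case b_g =>
    intro b
    rw [cb_cond par b .x (fun b => D.rb b = .L)
      (fun y => par y = b ∧ (mkFill D N Y c k la ba par).kb y = KB.g)
      (fun y => by rw [kb_g]), hD.s_x b]
    by_cases h3 : D.rb b = .L
    · rw [if_pos h3, if_pos ((G_inr b).2 h3)]
    · rw [if_neg h3, if_neg]
      rw [G_inr]
      exact h3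
  case b_u =>
    intro b
    have e1 : (Finset.univ.filter fun y => par y = b ∧
        (mkFill D N Y c k la ba par).kb y = KB.u).card = D.cb par b .u := by
      unfold PlanData.cb
      congr 1
      ext x
      simp only [Finset.mem_filter, Finset.mem_univ, true_and, kb_u]
    rw [e1, hD.s_u b]
    simp only [kt_fix]
    change _ = if (D.rb b).pr = true ∧ D.rb b ≠ .self then 1 else 0
    cases D.rb b <;> simp [RB.pr]
  case b_v =>
    intro b
    have e1 : (Finset.univ.filter fun y => par y = b ∧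
        (mkFill D N Y c k la ba par).kb y = KB.v).card = D.cb par b .v := by
      unfold PlanData.cb
      congr 1
      ext x
      simp only [Finset.mem_filter, Finset.mem_univ, true_and, kb_v]
    rw [e1, hD.s_v b]
    rfl
  case lu_pr =>
    intro b hb
    rw [kt_lu] at hb
    change (D.rb b).pr = true
    rw [hb]
    rfl
  case pf_v =>
    intro i h1 h2
    rw [pf_inl]
    constructor
    · intro h3
      obtain ⟨b, hb⟩ := hD.sf_ex i h1 h2 h3
      have hba := hD.sf_ba i b hb
      refine ⟨b, hba, (kt_lu b).2 ((hD.self_sf b).2 ?_)⟩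
      rw [hba, hb]
    · rintro ⟨b, h3, h4⟩
      rw [kt_lu] at h4
      have h5 := hD.sf_rv b h4
      rw [h3] at h5
      exact h5
  case pf_b => intro b; rfl
  case pp_v =>
    intro b hb
    rw [kt_lu] at hb
    exact (hD.self_sf b).1 hb
  case E_v =>
    intro i
    rw [E_inl, l_inl, x_inl]
    constructor
    · rintro ⟨h1, h2, h3⟩
      exact ⟨h2, h1, Or.inl h3⟩
    · rintro ⟨h1, h2, h3 | h3⟩
      · exact ⟨h2, h1, h3⟩
      · refine ⟨h2, h1, ?_⟩
        rw [hasl_iff]
        rcases h3.1 with h4 | h4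
        · exact Or.inr (Or.inr (Or.inl h4))
        · exact Or.inr (Or.inr (Or.inr h4))
  case E_b =>
    intro b
    rw [E_inr, l_inr, x_inr]
    constructor
    · intro h1
      by_cases h2 : D.rb b = .xo
      · right
        refine ⟨h1, ?_⟩
        rintro (h3 | h3)
        · have h4 : D.rb b = .self := h.hL.cand _ h3
          rw [h2] at h4
          exact absurd h4 (by decide)
        · have h4 := h3.1
          rw [h2] at h4
          exact absurd h4 (by decide)
      · left
        cases h3 : D.rb b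
        · exact absurd h3 h1
        · rfl
        · rfl
        · exact absurd h3 h2
        · rfl
        · rfl
    · rintro (h1 | h1)
      · intro h2
        rw [h2] at h1
        exact absurd h1 (by decide)
      · exact h1.1
  case G_v =>
    intro i hi
    rw [G_inl] at hi
    obtain ⟨h1, h2, h3, h4⟩ := hi
    refine ⟨h2, h1, ?_⟩
    rw [E_inl, h3]
    rintro ⟨_, _, h5⟩
    exact absurd h5 (by decide)
  case G_b =>
    intro b hb
    rw [G_inr] at hb
    refine ⟨?_, ?_⟩
    · rw [E_inr]
      exact not_not.2 hb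
    · change (D.rb b).pr = false
      rw [hb]
      rfl
  case EG_b =>
    intro b
    rw [E_inr, G_inr]
    tauto
  case pr_E =>
    intro b hb
    rw [E_inr]
    intro h1
    change (D.rb b).pr = true at hb
    rw [h1] at hb
    exact absurd hb (by decide)

end Pool.Agent.Lob5
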