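import Pool.Agent.Lob5.Cfg

/-!
# The fixed weights of the nodes

Proof. Unfold `FillData.W0`, `W00`, `mkFill` and split the sums over leaves by roles.
Path vertex `i`, `1 ≤ i < k`. Leaves of kind `fix`: role `s` (contained in `W00`); role `y` with
`Y.lg i = false`: there is exactly one if `rv i = As` (`l_y`), its label is `Y.yv i`; role `x` (exactly one if
`rv i` is `II` or `I`, `l_x`) if `inl i ∈ Low` (label `s1+n2+lw`), or if `i = om` and `Y.xf i` (label `xv i`;
`om` is not in `Low` since the elements of `Low` are candidates; if `om` has role `I`: impossible, there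
would be a bush at `k - 1`). Tops of kind `fix`: all except role `self`; role `tl` (exactly one at an
`Fs`-vertex, none elsewhere: `b_Fs, one, Fs_ex`) has label `Y.yv i`; the others have `T` labels.
Bush `b`: top (`T` label, or `yv (ba b)` for `tl`, or kind `lu` for `self`); leaves of kind `fix`: role `s`;
role `s0` (one for `tl`; label `σ = s0v`); role `x0` (`cb b x0` many, at most one, label `ξ b`); role `x`
(exactly one, `s_x`) if `b` is not `L` and `inr b ∈ Low`, or `b` is `tl` with `xf`.
-/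

namespace Pool.Agent.Lob5

open Pool.Agent.Lob89

section

variable {Lf B BL : Type*} [Fintype Lf] [Fintype B] [Fintype BL] [DecidableEq B]
  {D : PlanData Lf B BL} {N : Nm} {Y : Ly} {c : Cfg Lf B BL} {k : ℕ}
  {la : Lf → ℕ} {ba : B → ℕ} {par : BL → B}

private theorem we_cnt {ι : Type*} [Fintype ι] (P : ι → Prop) [DecidablePred P] (v : ℕ) :
    ∑ x, (if P x then v else 0) = (Finset.univ.filter P).card * v := by
  rw [← Finset.sum_filter, Finset.sum_const, smul_eq_mul]

private theorem we_le {ι : Type*} [Fintype ι] (P : ι → Prop) [DecidablePred P] (f : ι → ℕ)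
    {x : ι} (hx : P x) : f x ≤ ∑ y, (if P y then f y else 0) := by
  have h1 := Finset.single_le_sum (f := fun y => if P y then f y else 0)
    (fun y _ => Nat.zero_le _) (Finset.mem_univ x)
  simp only [if_pos hx] at h1
  exact h1

private theorem we_le2 {ι : Type*} [Fintype ι] [DecidableEq ι] (P : ι → Prop) [DecidablePred P]
    (f : ι → ℕ) {x y : ι} (hx : P x) (hy : P y) (hne : x ≠ y) :
    f x + f y ≤ ∑ z, (if P z then f z else 0) := by
  have h1 := Finset.sum_le_sum_of_subset (f := fun z => if P z then f z else 0)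
    (Finset.subset_univ {x, y})
  rw [Finset.sum_pair hne] at h1
  simp only [if_pos hx, if_pos hy] at h1
  exact h1

private theorem we_zero {ι : Type*} [Fintype ι] (P : ι → Prop) [DecidablePred P] (f : ι → ℕ)
    (h : ∀ x, ¬ P x) : ∑ y, (if P y then f y else 0) = 0 :=
  Finset.sum_eq_zero fun y _ => if_neg (h y)

private theorem we_one {ι : Type*} [Fintype ι] (P : ι → Prop) [DecidablePred P] (f : ι → ℕ)
    {x : ι} (hx : P x) (h : ∀ y, P y → y = x) : ∑ y, (if P y then f y else 0) = f x := by
  rw [Finset.sum_eq_single x]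
  · rw [if_pos hx]
  · intro y _ hy
    exact if_neg fun h1 => hy (h y h1)
  · intro h1
    exact absurd (Finset.mem_univ x) h1

private theorem we_leaf {i : ℕ} :
    (∑ x, if la x = i ∧ (mkFill D N Y c k la ba par).kl x = KL.fix then
      (mkFill D N Y c k la ba par).fl0 x else 0) =
    (∑ x, if la x = i ∧ D.rl x = .s then c.σ (Sum.inl x) else 0)
    + D.cl la i .y * (if Y.lg i = true then 0 else Y.yv i)
    + D.cl la i .x * (if Sum.inl i ∈ c.Low then N.s1 + N.n2 + c.lw (Sum.inl i) else
        if i = N.om ∧ Y.xf i = true then Y.xv i else 0) := by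
  have key : ∀ x, (if la x = i ∧ (mkFill D N Y c k la ba par).kl x = KL.fix then
      (mkFill D N Y c k la ba par).fl0 x else 0) =
      (if la x = i ∧ D.rl x = .s then c.σ (Sum.inl x) else 0)
      + (if la x = i ∧ D.rl x = .y then (if Y.lg i = true then 0 else Y.yv i) else 0)
      + (if la x = i ∧ D.rl x = .x then
          (if Sum.inl i ∈ c.Low then N.s1 + N.n2 + c.lw (Sum.inl i) else
            if i = N.om ∧ Y.xf i = true then Y.xv i else 0) else 0) := by
    intro x
    by_cases hla : la x = i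
    · subst hla
      cases hr : D.rl x
      · simp [mkFill, hr]
      · simp only [mkFill, hr]
        by_cases h1 : Sum.inl (la x) ∈ c.Low
        · simp [h1]
        · by_cases h2 : la x = N.om ∧ Y.xf (la x) = true
          · rw [if_pos (show Sum.inl (la x) ∈ c.Low ∨ la x = N.om ∧ Y.xf (la x) = true from
              Or.inr h2), if_neg h1, if_neg h1, if_pos h2]
            simp
          · simp [h1, h2]
      · simp [mkFill, hr]
      · simp only [mkFill, hr]
        by_cases h1 : Y.lg (la x) = true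
        · simp [h1]
        · simp [h1]
    · simp [hla]
  rw [Finset.sum_congr rfl fun x _ => key x, Finset.sum_add_distrib, Finset.sum_add_distrib,
    we_cnt, we_cnt]
  rfl

private theorem we_tops {i : ℕ} :
    (∑ b, if ba b = i ∧ (mkFill D N Y c k la ba par).kt b = KT.fix then
      (mkFill D N Y c k la ba par).ft0 b else 0) =
    (∑ b, if ba b = i ∧ (D.rb b).top = true then N.w + N.N0 + N.Q + c.τ b else 0)
    + (Finset.univ.filter fun b => ba b = i ∧ D.rb b = .tl).card * Y.yv i := by
  have key : ∀ b, (if ba b = i ∧ (mkFill D N Y c k la ba par).kt b = KT.fix then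
      (mkFill D N Y c k la ba par).ft0 b else 0) =
      (if ba b = i ∧ (D.rb b).top = true then N.w + N.N0 + N.Q + c.τ b else 0)
      + (if ba b = i ∧ D.rb b = .tl then Y.yv i else 0) := by
    intro b
    by_cases hba : ba b = i
    · subst hba
      cases hr : D.rb b <;> simp [mkFill, hr, RB.top]
    · simp [hba]
  rw [Finset.sum_congr rfl fun x _ => key x, Finset.sum_add_distrib, we_cnt]

private theorem we_bl (h : CfgOK D N Y c k la ba par) (b : B) :
    (∑ y, if par y = b ∧ (mkFill D N Y c k la ba par).kb y = KB.fix then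
      (mkFill D N Y c k la ba par).fb0 y else 0) =
    (∑ y, if par y = b ∧ D.rs y = .s then c.σ (Sum.inr y) else 0)
    + D.cb par b .s0 * N.s0v + D.cb par b .x0 * c.ξ b
    + D.cb par b .x * (if Sum.inr b ∈ c.Low then N.s1 + N.n2 + c.lw (Sum.inr b) else
        if D.rb b = .tl ∧ Y.xf (ba b) = true then Y.xv (ba b) else 0) := by
  have hlow : Sum.inr b ∈ c.Low → D.rb b = .self := h.hL.cand _
  have key : ∀ y, (if par y = b ∧ (mkFill D N Y c k la ba par).kb y = KB.fix then
      (mkFill D N Y c k la ba par).fb0 y else 0) =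
      (if par y = b ∧ D.rs y = .s then c.σ (Sum.inr y) else 0)
      + (if par y = b ∧ D.rs y = .s0 then N.s0v else 0)
      + (if par y = b ∧ D.rs y = .x0 then c.ξ b else 0)
      + (if par y = b ∧ D.rs y = .x then
          (if Sum.inr b ∈ c.Low then N.s1 + N.n2 + c.lw (Sum.inr b) else
            if D.rb b = .tl ∧ Y.xf (ba b) = true then Y.xv (ba b) else 0) else 0) := by
    intro y
    by_cases hb : par y = b
    · subst hb
      cases hr : D.rs y
      · simp [mkFill, hr]
      · by_cases h1 : Sum.inr (par y) ∈ c.Low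
        · simp [mkFill, hr, h1, hlow h1]
        · by_cases h2 : D.rb (par y) = .tl ∧ Y.xf (ba (par y)) = true
          · have h3 : D.rb (par y) ≠ .L := by
              rw [h2.1]
              decide
            simp [mkFill, hr, h1, h2]
          · by_cases h3 : D.rb (par y) = .L
            · simp [mkFill, hr, h1, h3]
            · simp [mkFill, hr, h1, h2, h3]
      · simp [mkFill, hr]
      · simp [mkFill, hr, h.hσ.s0 y hr]
      · simp [mkFill, hr]
      · simp [mkFill, hr]
      · simp [mkFill, hr]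
    · simp [hb]
  rw [Finset.sum_congr rfl fun x _ => key x, Finset.sum_add_distrib, Finset.sum_add_distrib,
    Finset.sum_add_distrib, we_cnt, we_cnt, we_cnt]
  rfl

private theorem we_sig (heN : N.eb + N.et ≤ N.N0) (hσ : SigOK D N c.σ) {s : Lf ⊕ BL} (hs : D.stat s) :
    N.w + 1 ≤ c.σ s ∧ c.σ s ≤ N.w + N.N0 := by
  rcases hσ.rng s hs with h1 | h1
  · omega
  · omega

private theorem we_noleaf {i : ℕ} (hs : D.cl la i .s = 0) :
    (∑ x, if la x = i ∧ D.rl x = .s then c.σ (Sum.inl x) else 0) = 0 := by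
  apply we_zero (fun x => la x = i ∧ D.rl x = .s)
  intro x hx
  have h1 : 0 < D.cl la i .s :=
    Finset.card_pos.2 ⟨x, Finset.mem_filter.2 ⟨Finset.mem_univ x, hx⟩⟩
  omega

theorem W0_v (h : CfgOK D N Y c k la ba par) {i : ℕ} (h1 : 1 ≤ i) (h2 : i < k) :
    (mkFill D N Y c k la ba par).W0 k la ba par (Sum.inl i) =
      W00 D N Y c la ba par (Sum.inl i)
      + (if (D.rv i = .As ∧ Y.lg i = false) ∨ D.rv i = .Fs then Y.yv i else 0)
      + (if Sum.inl i ∈ c.Low then N.s1 + N.n2 + c.lw (Sum.inl i) else 0)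
      + (if D.rv i = .II ∧ i = N.om ∧ Y.xf i = true then Y.xv i else 0) := by
  have hp := h.hD
  have hW : (mkFill D N Y c k la ba par).W0 k la ba par (Sum.inl i) =
      Y.p i + Y.p (i + 1)
      + (∑ x, if la x = i ∧ (mkFill D N Y c k la ba par).kl x = KL.fix then
          (mkFill D N Y c k la ba par).fl0 x else 0)
      + (∑ b, if ba b = i ∧ (mkFill D N Y c k la ba par).kt b = KT.fix then
          (mkFill D N Y c k la ba par).ft0 b else 0) := by
    simp only [FillData.W0, if_pos h1, if_pos h2]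
    rfl
  have hy := hp.l_y i h1 h2
  have hx := hp.l_x i h1 h2
  have ht : (Finset.univ.filter fun b => ba b = i ∧ D.rb b = .tl).card =
      if D.rv i = .Fs then 1 else 0 := by
    by_cases hF : D.rv i = .Fs
    · rw [if_pos hF, Finset.card_eq_one]
      obtain ⟨b, hb⟩ := hp.Fs_ex i h1 h2 hF
      refine ⟨b, ?_⟩
      ext b'
      simp only [Finset.mem_filter, Finset.mem_univ, true_and, Finset.mem_singleton]
      constructor
      · rintro ⟨h3, _⟩
        refine hp.one b' b (h3.trans hb.symm) ?_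
        rw [h3]
        exact Or.inr (Or.inl hF)
      · rintro rfl
        refine ⟨hb, (hp.b_Fs b').2 ?_⟩
        rw [hb]
        exact hF
    · rw [if_neg hF, Finset.card_eq_zero, Finset.filter_eq_empty_iff]
      rintro b _ ⟨h3, h4⟩
      apply hF
      rw [← h3]
      exact (hp.b_Fs b).1 h4
  rw [hW, we_leaf, we_tops, hy, hx, ht]
  have h00 : W00 D N Y c la ba par (Sum.inl i) = Y.p i + Y.p (i + 1)
      + (∑ x, if la x = i ∧ D.rl x = .s then c.σ (Sum.inl x) else 0)
      + ∑ b, if ba b = i ∧ (D.rb b).top = true then N.w + N.N0 + N.Q + c.τ b else 0 := rfl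
  rw [h00]
  have hlow : Sum.inl i ∈ c.Low → (D.rv i = .II ∨ D.rv i = .I) ∧ i ≠ N.om := by
    intro h3
    have h4 := h.hL.cand _ h3
    exact ⟨h4.2.2.1, h4.2.2.2.1⟩
  have hI : D.rv i = .I → i ≠ N.om := by
    intro h3 h4
    obtain ⟨b, hb⟩ := hp.sf_ex i h1 h2 (Or.inr h3)
    have h5 := hp.sf_ba i b hb
    exact hp.hd.ne_om h.hN.om_eq b (h5.trans h4)
  by_cases hl : Sum.inl i ∈ c.Low
  · obtain ⟨h3, h4⟩ := hlow hl
    rcases h3 with h3 | h3
    · simp [h3, hl, h4]
      ring
    · simp [h3, hl]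
      ring
  · by_cases hox : i = N.om ∧ Y.xf i = true
    · have hI' : D.rv i ≠ .I := fun h3 => hI h3 hox.1
      rw [if_neg hl, if_neg hl, if_pos hox]
      by_cases hII : D.rv i = .II
      · rw [if_pos (show D.rv i = .II ∧ i = N.om ∧ Y.xf i = true from ⟨hII, hox⟩)]
        simp [hII]
        ring
      · rw [if_neg (show ¬ (D.rv i = .II ∧ i = N.om ∧ Y.xf i = true) from fun h3 => hII h3.1)]
        cases hr : D.rv i <;> cases hlg : Y.lg i <;> simp_all
        all_goals try ring
    · rw [if_neg hl, if_neg hl, if_neg hox,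
        if_neg (show ¬ (D.rv i = .II ∧ i = N.om ∧ Y.xf i = true) from fun h3 => hox h3.2)]
      cases hr : D.rv i <;> cases hlg : Y.lg i <;> simp
      all_goals try ring

theorem W0_b (h : CfgOK D N Y c k la ba par) (b : B) :
    (mkFill D N Y c k la ba par).W0 k la ba par (Sum.inr b) =
      W00 D N Y c la ba par (Sum.inr b)
      + D.cb par b .x0 * c.ξ b
      + (if D.rb b = .tl then Y.yv (ba b) + N.s0v + (if Y.xf (ba b) then Y.xv (ba b) else 0) else 0)
      + (if Sum.inr b ∈ c.Low then N.s1 + N.n2 + c.lw (Sum.inr b) else 0) := by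
  have hp := h.hD
  have hlow : Sum.inr b ∈ c.Low → D.rb b = .self := h.hL.cand _
  have hW : (mkFill D N Y c k la ba par).W0 k la ba par (Sum.inr b) =
      (if (mkFill D N Y c k la ba par).kt b = KT.fix then
        (mkFill D N Y c k la ba par).ft0 b else 0)
      + ∑ y, if par y = b ∧ (mkFill D N Y c k la ba par).kb y = KB.fix then
          (mkFill D N Y c k la ba par).fb0 y else 0 := rfl
  have ht : (if (mkFill D N Y c k la ba par).kt b = KT.fix then
        (mkFill D N Y c k la ba par).ft0 b else 0) =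
      (if (D.rb b).top = true then N.w + N.N0 + N.Q + c.τ b else 0)
      + (if D.rb b = .tl then Y.yv (ba b) else 0) := by
    cases hr : D.rb b <;> simp [mkFill, hr, RB.top]
  have h00 : W00 D N Y c la ba par (Sum.inr b) =
      (if (D.rb b).top = true then N.w + N.N0 + N.Q + c.τ b else 0)
      + ∑ y, if par y = b ∧ D.rs y = .s then c.σ (Sum.inr y) else 0 := rfl
  rw [hW, ht, we_bl h, h00, hp.s_x b, hp.s_s0 b]
  by_cases hl : Sum.inr b ∈ c.Low
  · have h1 := hlow hl
    simp [h1, hl]
    ring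
  · by_cases h1 : D.rb b = .tl
    · cases h2 : Y.xf (ba b) <;> simp [h1, h2, hl] <;> ring
    · simp [h1, hl]
      ring

/-- The weight of a vertex is at least its base. -/
theorem W00_ge (i : ℕ) : Y.bs i ≤ W00 D N Y c la ba par (Sum.inl i) := by
  have h00 : W00 D N Y c la ba par (Sum.inl i) = Y.bs i
      + (∑ x, if la x = i ∧ D.rl x = .s then c.σ (Sum.inl x) else 0)
      + ∑ b, if ba b = i ∧ (D.rb b).top = true then N.w + N.N0 + N.Q + c.τ b else 0 := rfl
  rw [h00, add_assoc]
  exact Nat.le_add_right _ _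

/-- The weight of a vertex with a bush with `T` top. -/
theorem W00_top {b : B} (hb : (D.rb b).top = true) :
    Y.bs (ba b) + (N.w + N.N0 + N.Q + c.τ b) ≤ W00 D N Y c la ba par (Sum.inl (ba b)) := by
  have h00 : W00 D N Y c la ba par (Sum.inl (ba b)) = Y.bs (ba b)
      + (∑ x, if la x = ba b ∧ D.rl x = .s then c.σ (Sum.inl x) else 0)
      + ∑ b', if ba b' = ba b ∧ (D.rb b').top = true then N.w + N.N0 + N.Q + c.τ b' else 0 := rfl
  have h1 := we_le (fun b' => ba b' = ba b ∧ (D.rb b').top = true)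
    (fun b' => N.w + N.N0 + N.Q + c.τ b') (x := b) ⟨rfl, hb⟩
  rw [h00]
  omega

/-- The weight of a vertex with two bushes with `T` tops. -/
theorem W00_top2 {b b' : B} (hb : (D.rb b).top = true) (hb' : (D.rb b').top = true)
    (hne : b ≠ b') (hba : ba b = ba b') :
    Y.bs (ba b) + (N.w + N.N0 + N.Q + c.τ b) + (N.w + N.N0 + N.Q + c.τ b') ≤
      W00 D N Y c la ba par (Sum.inl (ba b)) := by
  have h00 : W00 D N Y c la ba par (Sum.inl (ba b)) = Y.bs (ba b)
      + (∑ x, if la x = ba b ∧ D.rl x = .s then c.σ (Sum.inl x) else 0)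
      + ∑ b', if ba b' = ba b ∧ (D.rb b').top = true then N.w + N.N0 + N.Q + c.τ b' else 0 := rfl
  have h1 := we_le2 (fun b' => ba b' = ba b ∧ (D.rb b').top = true)
    (fun b' => N.w + N.N0 + N.Q + c.τ b') (x := b) (y := b') ⟨rfl, hb⟩ ⟨hba.symm, hb'⟩ hne
  rw [h00]
  omega

/-- Vertices of roles `C, A, As, F, Fs` have only their base. -/
theorem W00_base (hD : PlanOK D k la ba par) {i : ℕ} (h1 : 1 ≤ i) (h2 : i < k)
    (h : D.rv i = .C ∨ D.rv i = .A ∨ D.rv i = .As ∨ D.rv i = .F ∨ D.rv i = .Fs) :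
    W00 D N Y c la ba par (Sum.inl i) = Y.bs i := by
  have h00 : W00 D N Y c la ba par (Sum.inl i) = Y.bs i
      + (∑ x, if la x = i ∧ D.rl x = .s then c.σ (Sum.inl x) else 0)
      + ∑ b, if ba b = i ∧ (D.rb b).top = true then N.w + N.N0 + N.Q + c.τ b else 0 := rfl
  have hs : D.cl la i .s = 0 := by
    by_contra h3
    rcases hD.l_s i h1 h2 h3 with h4 | h4 <;> rw [h4] at h <;> simp at h
  rw [h00, we_noleaf hs, we_zero (fun b => ba b = i ∧ (D.rb b).top = true)]
  · rfl
  · rintro b ⟨h3, h4⟩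
    subst h3
    have h5 := hD.b_C b
    rcases h with h | h | h | h | h
    · exact h5.1 h
    · exact h5.2.1 h
    · exact h5.2.2 h
    · rw [hD.b_F b h] at h4
      exact absurd h4 (by decide)
    · rw [(hD.b_Fs b).2 h] at h4
      exact absurd h4 (by decide)

/-- The vertex `FR`. -/
theorem W00_FR (hD : PlanOK D k la ba par) {b : B} (h : D.rv (ba b) = .FR) :
    W00 D N Y c la ba par (Sum.inl (ba b)) = Y.bs (ba b) + (N.w + N.N0 + N.Q + c.τ b) := by
  have h00 : W00 D N Y c la ba par (Sum.inl (ba b)) = Y.bs (ba b)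
      + (∑ x, if la x = ba b ∧ D.rl x = .s then c.σ (Sum.inl x) else 0)
      + ∑ b', if ba b' = ba b ∧ (D.rb b').top = true then N.w + N.N0 + N.Q + c.τ b' else 0 := rfl
  have h1 := hD.hd.ba_pos b
  have h2 := hD.hd.ba_lt b
  have hs : D.cl la (ba b) .s = 0 := by
    by_contra h3
    rcases hD.l_s (ba b) (by omega) (by omega) h3 with h4 | h4 <;> rw [h4] at h <;> simp at h
  have ht : (D.rb b).top = true := by
    rcases (hD.b_FR b h).1 with h3 | h3 <;> rw [h3] <;> rfl
  rw [h00, we_noleaf hs, we_one (fun b' => ba b' = ba b ∧ (D.rb b').top = true)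
    (fun b' => N.w + N.N0 + N.Q + c.τ b') (x := b) ⟨rfl, ht⟩]
  · rfl
  · rintro b' ⟨h3, _⟩
    exact (hD.one b b' h3.symm (Or.inr (Or.inr h))).symm

/-- The weight of a bush with a `T` top. -/
theorem W00_b_top {b : B} (hb : (D.rb b).top = true) :
    N.w + N.N0 + N.Q + c.τ b ≤ W00 D N Y c la ba par (Sum.inr b) := by
  have h00 : W00 D N Y c la ba par (Sum.inr b) =
      (if (D.rb b).top = true then N.w + N.N0 + N.Q + c.τ b else 0)
      + ∑ y, if par y = b ∧ D.rs y = .s then c.σ (Sum.inr y) else 0 := rfl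
  rw [h00, if_pos hb]
  exact Nat.le_add_right _ _

/-- A bush without static leaves. -/
theorem W00_b_eq {b : B} (hs : D.cb par b .s = 0) :
    W00 D N Y c la ba par (Sum.inr b) =
      if (D.rb b).top = true then N.w + N.N0 + N.Q + c.τ b else 0 := by
  have h00 : W00 D N Y c la ba par (Sum.inr b) =
      (if (D.rb b).top = true then N.w + N.N0 + N.Q + c.τ b else 0)
      + ∑ y, if par y = b ∧ D.rs y = .s then c.σ (Sum.inr y) else 0 := rfl
  rw [h00, we_zero (fun y => par y = b ∧ D.rs y = .s), add_zero]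
  intro y hy
  have h1 : 0 < D.cb par b .s :=
    Finset.card_pos.2 ⟨y, Finset.mem_filter.2 ⟨Finset.mem_univ y, hy⟩⟩
  omega

/-- A bush with at least one static leaf. -/
theorem W00_b_stat (heN : N.eb + N.et ≤ N.N0) (hσ : SigOK D N c.σ) {b : B} (hs : 1 ≤ D.cb par b .s) :
    (if (D.rb b).top = true then N.w + N.N0 + N.Q + c.τ b else 0) + N.w + 1 ≤
      W00 D N Y c la ba par (Sum.inr b) := by
  have h00 : W00 D N Y c la ba par (Sum.inr b) =
      (if (D.rb b).top = true then N.w + N.N0 + N.Q + c.τ b else 0)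
      + ∑ y, if par y = b ∧ D.rs y = .s then c.σ (Sum.inr y) else 0 := rfl
  obtain ⟨y, hy⟩ := Finset.card_pos.1 (lt_of_lt_of_le Nat.zero_lt_one hs)
  have hy' := (Finset.mem_filter.1 hy).2
  have h1 := we_le (fun y => par y = b ∧ D.rs y = .s) (fun y => c.σ (Sum.inr y)) (x := y) hy'
  have h2 := we_sig heN hσ (s := Sum.inr y) (Or.inl hy'.2)
  rw [h00, add_assoc]
  exact Nat.add_le_add_left (h2.1.trans h1) _

/-- A bush with exactly one static leaf. -/
theorem W00_b_one (heN : N.eb + N.et ≤ N.N0) (hσ : SigOK D N c.σ) {b : B} (hs : D.cb par b .s = 1) :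
    W00 D N Y c la ba par (Sum.inr b) ≤
      (if (D.rb b).top = true then N.w + N.N0 + N.Q + c.τ b else 0) + (N.w + N.N0) := by
  have h00 : W00 D N Y c la ba par (Sum.inr b) =
      (if (D.rb b).top = true then N.w + N.N0 + N.Q + c.τ b else 0)
      + ∑ y, if par y = b ∧ D.rs y = .s then c.σ (Sum.inr y) else 0 := rfl
  obtain ⟨y, hy⟩ := Finset.card_eq_one.1 hs
  have hy' := (Finset.mem_filter.1 (hy.symm ▸ Finset.mem_singleton_self y :
    y ∈ Finset.univ.filter fun y => par y = b ∧ D.rs y = .s)).2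
  have h2 := we_sig heN hσ (s := Sum.inr y) (Or.inl hy'.2)
  rw [h00, we_one (fun y => par y = b ∧ D.rs y = .s) (fun y => c.σ (Sum.inr y)) (x := y) hy']
  · exact Nat.add_le_add_left h2.2 _
  · intro z hz
    have h3 : z ∈ Finset.univ.filter fun y => par y = b ∧ D.rs y = .s :=
      Finset.mem_filter.2 ⟨Finset.mem_univ z, hz⟩
    rw [hy] at h3
    exact Finset.mem_singleton.1 h3

/-- A vertex with at least one static leaf. -/
theorem W00_v_stat (heN : N.eb + N.et ≤ N.N0) (hσ : SigOK D N c.σ) {i : ℕ} (hs : 1 ≤ D.cl la i .s) :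
    Y.bs i + N.w + 1 ≤ W00 D N Y c la ba par (Sum.inl i) := by
  have h00 : W00 D N Y c la ba par (Sum.inl i) = Y.bs i
      + (∑ x, if la x = i ∧ D.rl x = .s then c.σ (Sum.inl x) else 0)
      + ∑ b, if ba b = i ∧ (D.rb b).top = true then N.w + N.N0 + N.Q + c.τ b else 0 := rfl
  obtain ⟨x, hx⟩ := Finset.card_pos.1 (lt_of_lt_of_le Nat.zero_lt_one hs)
  have hx' := (Finset.mem_filter.1 hx).2
  have h1 := we_le (fun x => la x = i ∧ D.rl x = .s) (fun x => c.σ (Sum.inl x)) (x := x) hx'
  have h2 := we_sig heN hσ (s := Sum.inl x) hx'.2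
  rw [h00]
  omega

/-- The vertex `om` without static leaves. -/
theorem W00_om {i : ℕ} (h1 : ∀ b, ba b ≠ i) (hs : D.cl la i .s = 0) :
    W00 D N Y c la ba par (Sum.inl i) = Y.bs i := by
  have h00 : W00 D N Y c la ba par (Sum.inl i) = Y.bs i
      + (∑ x, if la x = i ∧ D.rl x = .s then c.σ (Sum.inl x) else 0)
      + ∑ b, if ba b = i ∧ (D.rb b).top = true then N.w + N.N0 + N.Q + c.τ b else 0 := rfl
  rw [h00, we_noleaf hs, we_zero (fun b => ba b = i ∧ (D.rb b).top = true)]
  · rfl
  · rintro b ⟨h3, _⟩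
    exact h1 b h3

end

end Pool.Agent.Lob5
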